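import Mathlib

/-! The parts of this file: G4.H.Jen, G4.U.UStar, H13.CV.EllB, H22.TB.OfSheets, H62.FC.Lattice, H94.Jac, H99.Cover.Defs. -/

section

/-!
# G4 H Jen: zeros of high order, Jensen

`φ` entire, `‖φ z‖ ≤ B exp (M (w₀ + 2 Re (c (z - z₁)) + q ‖z - z₁‖²))` (the weight on a line), `m₀ exp (M w₀) ≤ ‖φ z₁‖`, divisible by `(z - e) ^ l` for the `e` in the finite set `S ⊆ closedBall z₁ R`: then
`l * #S ≤ M q (e R)² + log (B / m₀)`, `e = exp 1` (Jensen for the radius `e R`; or the maximum principle for `φ z exp (- 2 M c (z - z₁)) / ∏ (z - e) ^ l` on the ball of radius `2 e R`…: any constant instead of `e²` is fine, here `16`).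
Proof by the maximum principle: `ψ` with `φ = ∏ (z - e) ^ l ψ` (`hdiv` gives the factorisation for one `e` at a time; `∏` by induction), on the circle `‖z - z₁‖ = 4 R`: `‖z - e‖ ≥ 3 R`, at `z₁`: `‖z₁ - e‖ ≤ R`; so
`‖φ z₁‖ ≤ R ^ (l #S) ‖ψ z₁‖ ≤ R ^ (l #S) (3 R) ^ (- l #S) B exp (M (w₀ + 16 q R²))`, `3 ≥ exp 1`.
-/

set_option autoImplicit false

open Topology Filter Metric

namespace Pool.Agent.G4.H

private theorem jen_div (a : ℂ) : ∀ (l : ℕ) (P g h : ℂ → ℂ), Differentiable ℂ P →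
    Differentiable ℂ g → Differentiable ℂ h → P a ≠ 0 →
    (∀ z, P z * g z = (z - a) ^ l * h z) →
    ∃ k : ℂ → ℂ, Differentiable ℂ k ∧ ∀ z, g z = (z - a) ^ l * k z
  | 0, _, g, _, _, hg, _, _, _ => ⟨g, hg, fun z => by simp⟩
  | l + 1, P, g, h, hP, hg, hh, hPa, hyp => by
    have hga : g a = 0 := by
      have := hyp a
      rw [sub_self, zero_pow (Nat.succ_ne_zero l), zero_mul] at this
      exact (mul_eq_zero.1 this).resolve_left hPa
    have hg1 : Differentiable ℂ (dslope g a) := by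
      have := (Complex.differentiableOn_dslope (s := Set.univ) (c := a)
        (Filter.univ_mem)).2 hg.differentiableOn
      exact differentiableOn_univ.1 this
    have hg2 : ∀ z, g z = (z - a) * dslope g a z := by
      intro z
      have := sub_smul_dslope g a z
      rw [smul_eq_mul, hga, sub_zero] at this
      exact this.symm
    have hne : ∀ z, z ≠ a → P z * dslope g a z = (z - a) ^ l * h z := by
      intro z hz
      have h1 := hyp z
      rw [hg2 z] at h1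
      have h2 : z - a ≠ 0 := sub_ne_zero.2 hz
      apply mul_left_cancel₀ h2
      linear_combination h1
    have hall : ∀ z, P z * dslope g a z = (z - a) ^ l * h z := by
      have hc1 : Continuous fun z => P z * dslope g a z := hP.continuous.mul hg1.continuous
      have hc2 : Continuous fun z => (z - a) ^ l * h z :=
        ((continuous_id.sub continuous_const).pow l).mul hh.continuous
      have : (fun z => P z * dslope g a z) = fun z => (z - a) ^ l * h z :=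
        Continuous.ext_on (dense_compl_singleton a) hc1 hc2 fun z hz => hne z hz
      intro z
      exact congrFun this z
    obtain ⟨k, hk1, hk2⟩ := jen_div a l P (dslope g a) h hP hg1 hh hPa hall
    refine ⟨k, hk1, fun z => ?_⟩
    rw [hg2 z, hk2 z]
    ring

private theorem jen_prod {φ : ℂ → ℂ} (hφ : Differentiable ℂ φ) {l : ℕ} (S : Finset ℂ)
    (hdiv : ∀ e ∈ S, ∃ g : ℂ → ℂ, Differentiable ℂ g ∧ ∀ z, φ z = (z - e) ^ l * g z) :
    ∃ g : ℂ → ℂ, Differentiable ℂ g ∧ ∀ z, φ z = (∏ e ∈ S, (z - e) ^ l) * g z := by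
  classical
  induction S using Finset.induction_on with
  | empty => exact ⟨φ, hφ, fun z => by simp⟩
  | insert a S ha ih =>
    obtain ⟨g, hg, hg1⟩ := ih fun e he => hdiv e (Finset.mem_insert_of_mem he)
    obtain ⟨h, hh, hh1⟩ := hdiv a (Finset.mem_insert_self a S)
    have hP : Differentiable ℂ fun z : ℂ => ∏ e ∈ S, (z - e) ^ l := by
      fun_prop
    have hPa : (∏ e ∈ S, (a - e) ^ l) ≠ 0 := by
      rw [Finset.prod_ne_zero_iff]
      intro e he
      exact pow_ne_zero _ (sub_ne_zero.2 fun h => ha (h ▸ he))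
    obtain ⟨k, hk1, hk2⟩ := jen_div a l (fun z => ∏ e ∈ S, (z - e) ^ l) g h hP hg hh hPa
      (fun z => by rw [← hg1 z, hh1 z])
    refine ⟨k, hk1, fun z => ?_⟩
    rw [hg1 z, hk2 z, Finset.prod_insert ha]
    ring

theorem jen {φ : ℂ → ℂ} (hφ : Differentiable ℂ φ) {B M w₀ q m₀ R : ℝ} {c z₁ : ℂ} (hR : 0 < R) (hm₀ : 0 < m₀)
    (hB : ∀ z, ‖φ z‖ ≤ B * Real.exp (M * (w₀ + 2 * (c * (z - z₁)).re + q * ‖z - z₁‖ ^ 2))) (h1 : m₀ * Real.exp (M * w₀) ≤ ‖φ z₁‖) {S : Finset ℂ} {l : ℕ} (hS : ∀ e ∈ S, ‖e - z₁‖ ≤ R)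
    (hdiv : ∀ e ∈ S, ∃ g : ℂ → ℂ, Differentiable ℂ g ∧ ∀ z, φ z = (z - e) ^ l * g z) : (l : ℝ) * S.card ≤ 16 * M * q * R ^ 2 + Real.log (B / m₀) := by
  obtain ⟨g, hg, hg1⟩ := jen_prod hφ S hdiv
  set N := S.card with hN
  set C : ℝ := B * Real.exp (M * (w₀ + q * (4 * R) ^ 2)) / ((3 * R) ^ l) ^ N with hC
  have h3 : 0 < ((3 * R) ^ l) ^ N := by positivity
  have hmax : ‖g z₁ * Complex.exp (-(2 * M * (c * (z₁ - z₁))))‖ ≤ C := by
    refine Complex.norm_le_of_forall_mem_frontier_norm_le (U := ball z₁ (4 * R))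
      (f := fun z => g z * Complex.exp (-(2 * M * (c * (z - z₁))))) isBounded_ball ?_ ?_ ?_
    · refine Differentiable.diffContOnCl ?_
      fun_prop
    · intro z hz
      rw [frontier_ball _ (by positivity : (4 * R) ≠ 0), mem_sphere, dist_eq_norm] at hz
      have h4 : ((3 * R) ^ l) ^ N ≤ ‖∏ e ∈ S, (z - e) ^ l‖ := by
        rw [norm_prod, hN, ← Finset.prod_const]
        refine Finset.prod_le_prod (fun _ _ => by positivity) fun e he => ?_
        rw [norm_pow]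
        refine pow_le_pow_left₀ (by positivity) ?_ l
        have h5 : ‖z - z₁‖ ≤ ‖z - e‖ + ‖e - z₁‖ := by
          have := norm_add_le (z - e) (e - z₁)
          rwa [sub_add_sub_cancel] at this
        have := hS e he
        linarith
      have h6 : ‖g z * Complex.exp (-(2 * M * (c * (z - z₁))))‖ * ‖∏ e ∈ S, (z - e) ^ l‖ ≤
          B * Real.exp (M * (w₀ + q * (4 * R) ^ 2)) := by
        have h7 : ‖g z * Complex.exp (-(2 * M * (c * (z - z₁))))‖ * ‖∏ e ∈ S, (z - e) ^ l‖ =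
            ‖φ z‖ * Real.exp (-(2 * M * (c * (z - z₁)).re)) := by
          rw [hg1 z, norm_mul, norm_mul, Complex.norm_exp]
          have h8 : (-(2 * (M : ℂ) * (c * (z - z₁)))).re = -(2 * M * (c * (z - z₁)).re) := by
            have : (2 * (M : ℂ) * (c * (z - z₁))) = ((2 * M : ℝ) : ℂ) * (c * (z - z₁)) := by
              push_cast
              ring
            rw [this, Complex.neg_re, Complex.re_ofReal_mul]
          rw [h8]
          ring
        rw [h7]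
        calc ‖φ z‖ * Real.exp (-(2 * M * (c * (z - z₁)).re))
            ≤ B * Real.exp (M * (w₀ + 2 * (c * (z - z₁)).re + q * ‖z - z₁‖ ^ 2)) *
              Real.exp (-(2 * M * (c * (z - z₁)).re)) :=
              mul_le_mul_of_nonneg_right (hB z) (Real.exp_pos _).le
          _ = B * Real.exp (M * (w₀ + q * (4 * R) ^ 2)) := by
              rw [mul_assoc, ← Real.exp_add, hz]
              congr 2
              ring
      show ‖g z * Complex.exp (-(2 * M * (c * (z - z₁))))‖ ≤ C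
      rw [hC, le_div_iff₀ h3]
      exact (mul_le_mul_of_nonneg_left h4 (norm_nonneg _)).trans h6
    · exact subset_closure (mem_ball_self (by positivity))
  rw [sub_self, mul_zero, mul_zero, neg_zero, Complex.exp_zero, mul_one] at hmax
  have h9 : ‖φ z₁‖ ≤ (R ^ l) ^ N * C := by
    rw [hg1 z₁, norm_mul]
    refine mul_le_mul ?_ hmax (norm_nonneg _) (by positivity)
    rw [norm_prod, hN, ← Finset.prod_const]
    refine Finset.prod_le_prod (fun _ _ => norm_nonneg _) fun e he => ?_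
    rw [norm_pow]
    refine pow_le_pow_left₀ (norm_nonneg _) ?_ l
    rw [norm_sub_rev]
    exact hS e he
  have h10 : (R ^ l) ^ N * C =
      B * Real.exp (M * (w₀ + q * (4 * R) ^ 2)) / ((3 : ℝ) ^ l) ^ N := by
    rw [hC, mul_pow 3 R l, mul_pow ((3 : ℝ) ^ l) (R ^ l) N]
    have : (R ^ l) ^ N ≠ 0 := by positivity
    field_simp
  have h11 : m₀ * Real.exp (M * w₀) * ((3 : ℝ) ^ l) ^ N ≤
      B * Real.exp (M * (w₀ + q * (4 * R) ^ 2)) := by
    rw [← le_div_iff₀ (by positivity), ← h10]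
    exact h1.trans h9
  have h12 : Real.exp (M * (w₀ + q * (4 * R) ^ 2)) =
      Real.exp (M * w₀) * Real.exp (16 * M * q * R ^ 2) := by
    rw [← Real.exp_add]
    congr 1
    ring
  rw [h12] at h11
  have h13 : ((3 : ℝ) ^ l) ^ N * m₀ ≤ B * Real.exp (16 * M * q * R ^ 2) := by
    have h14 : 0 < Real.exp (M * w₀) := Real.exp_pos _
    refine le_of_mul_le_mul_left ?_ h14
    linarith
  have hBpos : 0 < B := by
    have : 0 < B * Real.exp (16 * M * q * R ^ 2) := lt_of_lt_of_le (by positivity) h13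
    exact (mul_pos_iff_of_pos_right (Real.exp_pos _)).1 this
  have h15 : Real.log (((3 : ℝ) ^ l) ^ N) ≤ 16 * M * q * R ^ 2 + Real.log (B / m₀) := by
    have h16 : ((3 : ℝ) ^ l) ^ N ≤ Real.exp (16 * M * q * R ^ 2) * (B / m₀) := by
      rw [← mul_div_assoc, le_div_iff₀ hm₀]
      linarith
    have h17 := Real.log_le_log (by positivity) h16
    rwa [Real.log_mul (Real.exp_pos _).ne' (div_pos hBpos hm₀).ne', Real.log_exp] at h17
  rw [← pow_mul, Real.log_pow] at h15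
  have h18 : (1 : ℝ) ≤ Real.log 3 := by
    rw [Real.le_log_iff_exp_le (by norm_num)]
    exact (Real.exp_one_lt_d9.trans (by norm_num)).le
  have h19 : (0 : ℝ) ≤ ((l * N : ℕ) : ℝ) := Nat.cast_nonneg _
  have h20 : ((l * N : ℕ) : ℝ) ≤ ((l * N : ℕ) : ℝ) * Real.log 3 := by nlinarith
  push_cast at h15 h20
  linarith

end Pool.Agent.G4.H

end

section

/-!
# G4 U UStar: the uniqueness lemma in the plane with exceptional discs

`E` is a closed set with few points, `κ` a nonnegative function outside the discs of radius `r₀ / 2` around the points of `E`.  Away from `E` it satisfies a strict maximum principle on circles of radius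
`r₀ / 4` (factor `q < 1`), near `E` only the weak inequality `κ z ≤ C₁ sup κ` over points of distance at least `2 δ` from `E`; both also for `κ ‖g‖`, `g` holomorphic without zeros.  Then `κ = 0`.

Plan.  Fix the centre `c` (`∀ e ∈ E, r₀ ≤ dist c e`), `q' = (1 + max q 0) / 2 < 1`, `k' > 0` with `max q 0 * exp k' ≤ q'`, `K : ℕ` with `C₁ * exp k' * 2⁻¹ ^ K ≤ q'` (`C₁ ≥ 0` w.l.o.g.: replace it by
`max C₁ 0`).  For `R ≥ 1` let `ER = E ∩ closedBall c (R + 3)` (finite), `Θ z = κ z * exp (- k' ‖z - c‖²) * ∏ e ∈ ER, ‖z - e‖ ^ K`, `G = {z | ∀ e ∈ E, r₀ / 2 ≤ dist z e}`.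
Claim: for `z ∈ G`, `‖z - c‖ ≤ R`, and every `S ≥ 0` with `Θ w ≤ S` for all `w ∈ G`, `‖w - c‖ ≤ R + 1`: `Θ z ≤ q' S`.  Use
`exp (- k' ‖w - c‖²) = exp (- k' ‖z - c‖²) * ‖exp (- 2 k' conj (z - c) (w - z))‖ * exp (- k' ‖w - z‖²)`.
* if `r₀ ≤ dist z e` for all `e ∈ E`: `hs` with `g w = exp (- 2 k' conj (z - c) (w - z)) * ∏ e ∈ ER, (w - e) ^ K`, without zeros on `ball z (r₀ / 2)`;
* otherwise `dist z e₀ ≤ r₀` for some `e₀`: `hm` with the same `g` but only the factors with `2 < ‖z - e‖` (without zeros on `ball z 1`).  The set `F` of the other factors is `E ∩ closedBall z 2`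
  (`‖z - c‖ ≤ R`), it contains `e₀`, `#F ≤ M`.  For the points `w` of `hm`: `‖w - e‖ ≥ 2 δ`, so `∏_F ‖z - e‖ ≤ r₀ 2 ^ (#F - 1) ≤ (r₀ / (2 δ)) (1 / δ) ^ (#F - 1) ∏_F ‖w - e‖ ≤ 1/2 ∏_F ‖w - e‖`.
So `sup` of `Θ` over `G`, `‖z - c‖ ≤ R` is at most the `sup` over `G`, `R < ‖z - c‖ ≤ R + 1`, which is at most `C₁ exp (- k' R²) ∏ e ∈ ER, (2 R + 4) ^ K` (`hb`), so
`κ c ∏ e ∈ ER, ‖c - e‖ ^ K ≤ C₁ exp (- k' R²) ∏ e ∈ ER, (2 R + 4) ^ K`.
Let `X = 2 R + 4`.  `∑ e ∈ ER, log (X / ‖c - e‖) ≤ ∑ j ∈ range (J + 1), #{e ∈ E | ‖c - e‖ ≤ X exp (- j)}`, `J = ⌈log (X / r₀)⌉₊` (the number of the `j ≥ 0` with `‖c - e‖ ≤ X exp (- j)` is at least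
`log (X / ‖c - e‖)`), and by `hfew` this is at most `ε X² / (1 - exp (-2)) + (J + 1) (C + ε)` (for radii `< 1` use the radius `1`).  With `ε` small, `R → ∞`: `κ c = 0`.
-/

set_option autoImplicit false

open Topology Filter Metric

namespace Pool.Agent.G4.U

private theorem us_wt (k : ℝ) (c z w : ℂ) :
    Real.exp (-k * ‖w - c‖ ^ 2) = Real.exp (-k * ‖z - c‖ ^ 2) *
      ‖Complex.exp (((-(2 * k) : ℝ) : ℂ) * ((starRingEnd ℂ) (z - c) * (w - z)))‖ *
      Real.exp (-k * ‖w - z‖ ^ 2) := by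
  rw [Complex.norm_exp, ← Real.exp_add, ← Real.exp_add, Complex.re_ofReal_mul]
  congr 1
  have h1 : ‖w - c‖ ^ 2 =
      ‖z - c‖ ^ 2 + 2 * ((starRingEnd ℂ) (z - c) * (w - z)).re + ‖w - z‖ ^ 2 := by
    rw [Complex.sq_norm, Complex.sq_norm, Complex.sq_norm, Complex.normSq_apply,
      Complex.normSq_apply, Complex.normSq_apply]
    simp only [Complex.sub_re, Complex.sub_im, Complex.mul_re, Complex.conj_re, Complex.conj_im]
    ring
  rw [h1]
  ring

/-- the weighted function -/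
private noncomputable def th (κ : ℂ → ℝ) (k : ℝ) (K : ℕ) (c : ℂ) (A : Finset ℂ) (w : ℂ) : ℝ :=
  κ w * Real.exp (-k * ‖w - c‖ ^ 2) * ∏ e ∈ A, ‖w - e‖ ^ K

/-- the holomorphic factor -/
private noncomputable def gg (k : ℝ) (K : ℕ) (c z : ℂ) (N : Finset ℂ) (w : ℂ) : ℂ :=
  Complex.exp (((-(2 * k) : ℝ) : ℂ) * ((starRingEnd ℂ) (z - c) * (w - z))) *
    ∏ e ∈ N, (w - e) ^ K

private theorem us_tr (κ : ℂ → ℝ) (k : ℝ) (K : ℕ) (c z w : ℂ) (A F N : Finset ℂ)
    (hA : ∏ e ∈ A, ‖w - e‖ ^ K = (∏ e ∈ F, ‖w - e‖ ^ K) * ∏ e ∈ N, ‖w - e‖ ^ K) :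
    κ w * ‖gg k K c z N w‖ * ∏ e ∈ F, ‖w - e‖ ^ K =
      th κ k K c A w * Real.exp (k * ‖z - c‖ ^ 2) * Real.exp (k * ‖w - z‖ ^ 2) := by
  unfold th gg
  rw [us_wt k c z w, hA, norm_mul, norm_prod]
  simp only [norm_pow]
  have h1 : Real.exp (-k * ‖z - c‖ ^ 2) * Real.exp (k * ‖z - c‖ ^ 2) = 1 := by
    rw [← Real.exp_add]
    simp
  have h2 : Real.exp (-k * ‖w - z‖ ^ 2) * Real.exp (k * ‖w - z‖ ^ 2) = 1 := by
    rw [← Real.exp_add]
    simp
  generalize Real.exp (-k * ‖z - c‖ ^ 2) = a at *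
  generalize Real.exp (k * ‖z - c‖ ^ 2) = a' at *
  generalize Real.exp (-k * ‖w - z‖ ^ 2) = b at *
  generalize Real.exp (k * ‖w - z‖ ^ 2) = b' at *
  generalize ‖Complex.exp (((-(2 * k) : ℝ) : ℂ) * ((starRingEnd ℂ) (z - c) * (w - z)))‖ = x
  generalize ∏ e ∈ F, ‖w - e‖ ^ K = y
  generalize ∏ e ∈ N, ‖w - e‖ ^ K = y'
  linear_combination (-(κ w * x * y * y') * b * b') * h1 - (κ w * x * y * y') * h2

private theorem us_gg_diff (k : ℝ) (K : ℕ) (c z : ℂ) (N : Finset ℂ) :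
    Differentiable ℂ (gg k K c z N) := by
  unfold gg
  fun_prop

private theorem us_gg_ne (k : ℝ) (K : ℕ) (c z : ℂ) (N : Finset ℂ) {w : ℂ}
    (h : ∀ e ∈ N, w ≠ e) : gg k K c z N w ≠ 0 := by
  unfold gg
  refine mul_ne_zero (Complex.exp_ne_zero _) ?_
  rw [Finset.prod_ne_zero_iff]
  intro e he
  exact pow_ne_zero _ (sub_ne_zero.2 (h e he))

/-- the strict inequality away from `E` -/
private theorem us_claim1 {E : Set ℂ} {r₀ q k R S : ℝ} {K : ℕ} {c z : ℂ} {A : Finset ℂ}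
    {κ : ℂ → ℝ} (hr₀ : 0 < r₀) (hr1 : r₀ ≤ 1) (hk : 0 ≤ k)
    (hAE : ∀ e ∈ A, e ∈ E) (hz : ∀ e ∈ E, r₀ ≤ dist z e) (hzR : ‖z - c‖ ≤ R) (hS0 : 0 ≤ S)
    (hS : ∀ w, (∀ e ∈ E, r₀ / 2 ≤ dist w e) → ‖w - c‖ ≤ R + 1 → th κ k K c A w ≤ S)
    (hs : ∀ g : ℂ → ℂ, DifferentiableOn ℂ g (ball z (r₀ / 2)) →
      (∀ w ∈ ball z (r₀ / 2), g w ≠ 0) → ∀ S : ℝ,
      (∀ w, dist w z = r₀ / 4 → κ w * ‖g w‖ ≤ S) → κ z * ‖g z‖ ≤ q * S) :
    th κ k K c A z ≤ q * Real.exp k * S := by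
  have hA : ∀ w : ℂ, ∏ e ∈ A, ‖w - e‖ ^ K =
      (∏ e ∈ (∅ : Finset ℂ), ‖w - e‖ ^ K) * ∏ e ∈ A, ‖w - e‖ ^ K := fun w => by simp
  have h1 := hs (gg k K c z A) (us_gg_diff k K c z A).differentiableOn
    (fun w hw => us_gg_ne k K c z A fun e he hwe => by
      have h2 := hz e (hAE e he)
      rw [hwe, mem_ball, dist_comm] at hw
      linarith only [hr₀, hw, h2])
    (S * Real.exp (k * ‖z - c‖ ^ 2) * Real.exp k) (fun w hw => by
      have h2 := us_tr κ k K c z w A ∅ A (hA w)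
      rw [Finset.prod_empty, mul_one] at h2
      rw [h2]
      have h3 : th κ k K c A w ≤ S := by
        refine hS w (fun e he => ?_) ?_
        · have h4 := hz e he
          have h5 := dist_triangle z w e
          rw [dist_comm z w, hw] at h5
          linarith only [hr₀, h4, h5]
        · have h4 : ‖w - c‖ ≤ ‖w - z‖ + ‖z - c‖ := by
            have := norm_add_le (w - z) (z - c)
            rwa [sub_add_sub_cancel] at this
          rw [← dist_eq_norm w z, hw] at h4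
          linarith only [hr1, hzR, h4]
      have h4 : Real.exp (k * ‖w - z‖ ^ 2) ≤ Real.exp k := by
        apply Real.exp_le_exp.2
        rw [← dist_eq_norm, hw]
        have h5 : (r₀ / 4) ^ 2 ≤ 1 := by nlinarith only [hr1, hr₀]
        nlinarith only [hk, h5]
      have h5 := Real.exp_pos (k * ‖z - c‖ ^ 2)
      have h6 := Real.exp_pos (k * ‖w - z‖ ^ 2)
      calc th κ k K c A w * Real.exp (k * ‖z - c‖ ^ 2) * Real.exp (k * ‖w - z‖ ^ 2)
          ≤ S * Real.exp (k * ‖z - c‖ ^ 2) * Real.exp (k * ‖w - z‖ ^ 2) := by gcongr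
        _ ≤ S * Real.exp (k * ‖z - c‖ ^ 2) * Real.exp k := by gcongr)
  have h2 := us_tr κ k K c z z A ∅ A (hA z)
  rw [Finset.prod_empty, mul_one] at h2
  rw [h2, sub_self, norm_zero] at h1
  have h5 := Real.exp_pos (k * ‖z - c‖ ^ 2)
  have h6 : th κ k K c A z * Real.exp (k * ‖z - c‖ ^ 2) ≤
      (q * Real.exp k * S) * Real.exp (k * ‖z - c‖ ^ 2) := by
    calc th κ k K c A z * Real.exp (k * ‖z - c‖ ^ 2)
        = th κ k K c A z * Real.exp (k * ‖z - c‖ ^ 2) * Real.exp (k * 0 ^ 2) := by simp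
      _ ≤ _ := h1
      _ = _ := by ring
  exact le_of_mul_le_mul_right h6 h5

/-- the inequality near `E` -/
private theorem us_claim2 {E : Set ℂ} {M : ℕ} {δ ρ r₀ C₁ k R S : ℝ} {K : ℕ} {c z e₀ : ℂ}
    {A : Finset ℂ} {κ : ℂ → ℝ} (hδ : 0 < δ) (hδ' : δ ≤ 1 / 4) (hρ' : ρ ≤ 1 / 2)
    (hr₀ : 0 < r₀) (hrδ : r₀ ≤ δ) (hr : r₀ / (2 * δ) * (1 / δ) ^ M ≤ 1 / 2)
    (hk : 0 ≤ k) (h0 : ∀ z, 0 ≤ κ z)
    (hAE : ∀ e, e ∈ A ↔ e ∈ E ∧ ‖e - c‖ ≤ R + 3) (hF : (E ∩ closedBall z 2).ncard ≤ M)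
    (hz : ∀ e ∈ E, r₀ / 2 ≤ dist z e) (he₀ : e₀ ∈ E) (hze : dist z e₀ ≤ r₀)
    (hzR : ‖z - c‖ ≤ R) (hS0 : 0 ≤ S)
    (hS : ∀ w, (∀ e ∈ E, r₀ / 2 ≤ dist w e) → ‖w - c‖ ≤ R + 1 → th κ k K c A w ≤ S)
    (hm : ∀ g : ℂ → ℂ, DifferentiableOn ℂ g (ball z 1) → (∀ w ∈ ball z 1, g w ≠ 0) → ∀ S : ℝ,
      (∀ w, dist w z ≤ ρ → (∀ e ∈ E, 2 * δ ≤ dist w e) → κ w * ‖g w‖ ≤ S) →
        κ z * ‖g z‖ ≤ C₁ * S) :
    th κ k K c A z ≤ C₁ * Real.exp k * (1 / 2) ^ K * S := by
  classical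
  obtain ⟨F, hFd⟩ : ∃ F, F = A.filter fun e => ‖z - e‖ ≤ 2 := ⟨_, rfl⟩
  obtain ⟨N, hNd⟩ : ∃ N, N = A.filter fun e => ¬ ‖z - e‖ ≤ 2 := ⟨_, rfl⟩
  have hA : ∀ w : ℂ, ∏ e ∈ A, ‖w - e‖ ^ K =
      (∏ e ∈ F, ‖w - e‖ ^ K) * ∏ e ∈ N, ‖w - e‖ ^ K := fun w => by
    rw [hFd, hNd, Finset.prod_filter_mul_prod_filter_not]
  have heF : ∀ e, e ∈ F ↔ e ∈ E ∧ dist z e ≤ 2 := by
    intro e
    rw [hFd, Finset.mem_filter, hAE, dist_eq_norm]
    constructor
    · rintro ⟨⟨h1, -⟩, h2⟩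
      exact ⟨h1, h2⟩
    · rintro ⟨h1, h2⟩
      refine ⟨⟨h1, ?_⟩, h2⟩
      have h3 := norm_add_le (e - z) (z - c)
      rw [sub_add_sub_cancel, norm_sub_rev e z] at h3
      linarith only [hδ, hδ', hzR, h2, h3]
  have hFc : F.card ≤ M := by
    have h1 : (F : Set ℂ) = E ∩ closedBall z 2 := by
      ext e
      rw [Finset.mem_coe, heF, Set.mem_inter_iff, mem_closedBall, dist_comm e z]
    rw [← h1, Set.ncard_coe_finset] at hF
    exact hF
  have he₀F : e₀ ∈ F := (heF e₀).2 ⟨he₀, by linarith only [hδ, hδ', hrδ, hze]⟩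
  have hPz : 0 < ∏ e ∈ F, ‖z - e‖ := by
    refine Finset.prod_pos fun e he => ?_
    have h1 := hz e ((heF e).1 he).1
    rw [dist_eq_norm] at h1
    linarith only [hr₀, h1]
  -- the products over `F`
  have hprod : ∀ w : ℂ, (∀ e ∈ E, 2 * δ ≤ dist w e) →
      ∏ e ∈ F, ‖z - e‖ ≤ 1 / 2 * ∏ e ∈ F, ‖w - e‖ := by
    intro w hw
    rw [← Finset.mul_prod_erase F _ he₀F, ← Finset.mul_prod_erase F _ he₀F]
    have h1 : ‖z - e₀‖ ≤ r₀ / (2 * δ) * ‖w - e₀‖ := by
      have h2 := hw e₀ he₀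
      rw [dist_eq_norm] at h2 hze
      have h3 : r₀ ≤ r₀ / (2 * δ) * ‖w - e₀‖ := by
        rw [div_mul_eq_mul_div, le_div_iff₀ (by positivity)]
        gcongr
      linarith only [hze, h3]
    have h2 : ∏ e ∈ F.erase e₀, ‖z - e‖ ≤
        (1 / δ) ^ M * ∏ e ∈ F.erase e₀, ‖w - e‖ := by
      have h3 : ∏ e ∈ F.erase e₀, ‖z - e‖ ≤ ∏ e ∈ F.erase e₀, (1 / δ * ‖w - e‖) := by
        refine Finset.prod_le_prod (fun e _ => norm_nonneg _) fun e he => ?_
        have h4 := (heF e).1 (Finset.mem_of_mem_erase he)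
        have h5 := hw e h4.1
        have h6 := h4.2
        rw [dist_eq_norm] at h5 h6
        have h7 : (2 : ℝ) ≤ 1 / δ * ‖w - e‖ := by
          rw [div_mul_eq_mul_div, one_mul, le_div_iff₀ hδ]
          linarith only [h5]
        linarith only [h6, h7]
      rw [Finset.prod_mul_distrib, Finset.prod_const] at h3
      refine h3.trans ?_
      have h4 : (1 / δ) ^ (F.erase e₀).card ≤ (1 / δ) ^ M := by
        refine pow_le_pow_right₀ ?_ ((Finset.card_erase_le).trans hFc)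
        rw [le_div_iff₀ hδ]
        linarith only [hδ, hδ']
      exact mul_le_mul_of_nonneg_right h4 (Finset.prod_nonneg fun e _ => norm_nonneg _)
    have h3 : 0 ≤ ∏ e ∈ F.erase e₀, ‖w - e‖ := Finset.prod_nonneg fun e _ => norm_nonneg _
    have h4 : 0 ≤ ∏ e ∈ F.erase e₀, ‖z - e‖ := Finset.prod_nonneg fun e _ => norm_nonneg _
    calc ‖z - e₀‖ * ∏ e ∈ F.erase e₀, ‖z - e‖
        ≤ (r₀ / (2 * δ) * ‖w - e₀‖) * ((1 / δ) ^ M * ∏ e ∈ F.erase e₀, ‖w - e‖) := by gcongr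
      _ = (r₀ / (2 * δ) * (1 / δ) ^ M) * (‖w - e₀‖ * ∏ e ∈ F.erase e₀, ‖w - e‖) := by ring
      _ ≤ 1 / 2 * (‖w - e₀‖ * ∏ e ∈ F.erase e₀, ‖w - e‖) := by gcongr
  have h1 := hm (gg k K c z N) (us_gg_diff k K c z N).differentiableOn
    (fun w hw => us_gg_ne k K c z N fun e he hwe => by
      rw [hNd, Finset.mem_filter] at he
      rw [hwe, mem_ball, dist_comm, dist_eq_norm] at hw
      apply he.2
      linarith only [hδ, hδ', hw, he])
    (S * Real.exp (k * ‖z - c‖ ^ 2) * Real.exp k * ((1 / 2) ^ K / ∏ e ∈ F, ‖z - e‖ ^ K))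
    (fun w hw hwE => by
      have h2 := us_tr κ k K c z w A F N (hA w)
      have h3 : th κ k K c A w ≤ S := by
        refine hS w (fun e he => ?_) ?_
        · have h4 := hwE e he
          linarith only [hδ, hrδ, h4]
        · have h4 : ‖w - c‖ ≤ ‖w - z‖ + ‖z - c‖ := by
            have := norm_add_le (w - z) (z - c)
            rwa [sub_add_sub_cancel] at this
          rw [← dist_eq_norm w z] at h4
          linarith only [hδ, hδ', hρ', hzR, hw, h4]
      have h4 : Real.exp (k * ‖w - z‖ ^ 2) ≤ Real.exp k := by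
        apply Real.exp_le_exp.2
        rw [← dist_eq_norm]
        have h5 : dist w z ^ 2 ≤ 1 := by
          have := dist_nonneg (x := w) (y := z)
          nlinarith only [hρ', hw, hδ', hδ, this]
        nlinarith only [hδ, hδ', hk, h5]
      have h5 := Real.exp_pos (k * ‖z - c‖ ^ 2)
      have h6 := Real.exp_pos (k * ‖w - z‖ ^ 2)
      have h7 : κ w * ‖gg k K c z N w‖ * ∏ e ∈ F, ‖w - e‖ ^ K ≤
          S * Real.exp (k * ‖z - c‖ ^ 2) * Real.exp k := by
        rw [h2]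
        calc th κ k K c A w * Real.exp (k * ‖z - c‖ ^ 2) * Real.exp (k * ‖w - z‖ ^ 2)
            ≤ S * Real.exp (k * ‖z - c‖ ^ 2) * Real.exp (k * ‖w - z‖ ^ 2) := by gcongr
          _ ≤ S * Real.exp (k * ‖z - c‖ ^ 2) * Real.exp k := by gcongr
      have h8 := pow_le_pow_left₀ hPz.le (hprod w hwE) K
      rw [mul_pow, ← Finset.prod_pow, ← Finset.prod_pow] at h8
      have h9 : 0 < ∏ e ∈ F, ‖z - e‖ ^ K := by
        rw [Finset.prod_pow]
        exact pow_pos hPz K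
      rw [← mul_div_assoc, le_div_iff₀ h9]
      have h10 : 0 ≤ κ w * ‖gg k K c z N w‖ := mul_nonneg (h0 w) (norm_nonneg _)
      calc κ w * ‖gg k K c z N w‖ * ∏ e ∈ F, ‖z - e‖ ^ K
          ≤ κ w * ‖gg k K c z N w‖ * ((1 / 2) ^ K * ∏ e ∈ F, ‖w - e‖ ^ K) := by gcongr
        _ = (κ w * ‖gg k K c z N w‖ * ∏ e ∈ F, ‖w - e‖ ^ K) * (1 / 2) ^ K := by ring
        _ ≤ (S * Real.exp (k * ‖z - c‖ ^ 2) * Real.exp k) * (1 / 2) ^ K := by gcongr)
  have h2 := us_tr κ k K c z z A F N (hA z)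
  rw [sub_self, norm_zero] at h2
  have h5 := Real.exp_pos (k * ‖z - c‖ ^ 2)
  have h9 : 0 < ∏ e ∈ F, ‖z - e‖ ^ K := by
    rw [Finset.prod_pow]
    exact pow_pos hPz K
  have h6 : th κ k K c A z * Real.exp (k * ‖z - c‖ ^ 2) ≤
      (C₁ * Real.exp k * (1 / 2) ^ K * S) * Real.exp (k * ‖z - c‖ ^ 2) := by
    calc th κ k K c A z * Real.exp (k * ‖z - c‖ ^ 2)
        = κ z * ‖gg k K c z N z‖ * ∏ e ∈ F, ‖z - e‖ ^ K := by
          rw [h2]
          simp
      _ ≤ (C₁ * (S * Real.exp (k * ‖z - c‖ ^ 2) * Real.exp k *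
            ((1 / 2) ^ K / ∏ e ∈ F, ‖z - e‖ ^ K))) * ∏ e ∈ F, ‖z - e‖ ^ K := by gcongr
      _ = _ := by
          field_simp
  exact le_of_mul_le_mul_right h6 h5

private theorem us_max {X : Type} (f : X → ℝ) (P Q : X → Prop) {q' B B₀ : ℝ} (hq : q' < 1)
    (hB : 0 ≤ B) (hbd : ∀ x, P x → f x ≤ B₀) (hout : ∀ x, P x → ¬ Q x → f x ≤ B)
    (hin : ∀ S, 0 ≤ S → (∀ w, P w → f w ≤ S) → ∀ z, P z → Q z → f z ≤ q' * S) :
    ∀ x, P x → f x ≤ B := by
  intro x hx
  by_contra hcon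
  push Not at hcon
  obtain ⟨S, hS⟩ : ∃ S, S = sSup (f '' {w | P w}) := ⟨_, rfl⟩
  have hba : BddAbove (f '' {w | P w}) := by
    refine ⟨B₀, ?_⟩
    rintro _ ⟨w, hw, rfl⟩
    exact hbd w hw
  have hle : ∀ w, P w → f w ≤ S := by
    intro w hw
    rw [hS]
    exact le_csSup hba ⟨w, hw, rfl⟩
  have hSx := hle x hx
  have h1 : ∀ w, P w → f w ≤ max (q' * S) B := by
    intro w hw
    by_cases h2 : Q w
    · exact le_max_of_le_left (hin S (by linarith only [hB, hcon, hSx]) hle w hw h2)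
    · exact le_max_of_le_right (hout w hw h2)
  have h2 : S ≤ max (q' * S) B := by
    rw [hS]
    refine csSup_le ⟨f x, x, hx, rfl⟩ ?_
    rintro _ ⟨w, hw, rfl⟩
    rw [← hS]
    exact h1 w hw
  rcases le_total (q' * S) B with h3 | h3
  · rw [max_eq_right h3] at h2
    linarith only [hcon, hSx, h2]
  · rw [max_eq_left h3] at h2
    nlinarith only [h2, hq, hB, hcon, hSx]

private theorem us_count (s : Finset ℂ) (c : ℂ) {r₀ X : ℝ} (hr₀ : 0 < r₀)
    (hs : ∀ e ∈ s, r₀ ≤ ‖c - e‖ ∧ ‖c - e‖ ≤ X) :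
    ∑ e ∈ s, Real.log (X / ‖c - e‖) ≤
      ∑ j ∈ Finset.range (⌈Real.log (X / r₀)⌉₊ + 1),
        ((s.filter fun e => ‖c - e‖ ≤ X * Real.exp (-(j : ℝ))).card : ℝ) := by
  classical
  have h1 : ∀ j : ℕ, ((s.filter fun e => ‖c - e‖ ≤ X * Real.exp (-(j : ℝ))).card : ℝ) =
      ∑ e ∈ s, if ‖c - e‖ ≤ X * Real.exp (-(j : ℝ)) then (1 : ℝ) else 0 := by
    intro j
    rw [Finset.sum_ite, Finset.sum_const_zero, add_zero, Finset.sum_const, nsmul_eq_mul, mul_one]
  rw [Finset.sum_congr rfl fun j _ => h1 j, Finset.sum_comm]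
  refine Finset.sum_le_sum fun e he => ?_
  obtain ⟨h2, h3⟩ := hs e he
  have h4 : 0 < ‖c - e‖ := by linarith
  have hX : 0 < X := by linarith
  obtain ⟨x, hx⟩ : ∃ x, x = Real.log (X / ‖c - e‖) := ⟨_, rfl⟩
  rw [← hx]
  have hx0 : 0 ≤ x := by
    rw [hx]
    exact Real.log_nonneg ((one_le_div h4).2 h3)
  have hx1 : x ≤ Real.log (X / r₀) := by
    rw [hx]
    exact Real.log_le_log (by positivity) (by gcongr)
  have h5 : Finset.range (⌊x⌋₊ + 1) ⊆ (Finset.range (⌈Real.log (X / r₀)⌉₊ + 1)).filter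
      fun j : ℕ => ‖c - e‖ ≤ X * Real.exp (-(j : ℝ)) := by
    intro j hj
    rw [Finset.mem_range] at hj
    have hj1 : j ≤ ⌊x⌋₊ := by omega
    have hj2 : (j : ℝ) ≤ x := (Nat.le_floor_iff hx0).1 hj1
    rw [Finset.mem_filter, Finset.mem_range]
    constructor
    · have h6 : ⌊x⌋₊ ≤ ⌈Real.log (X / r₀)⌉₊ :=
        (Nat.floor_le_floor hx1).trans (Nat.floor_le_ceil _)
      omega
    · have h6 : Real.exp (j : ℝ) ≤ X / ‖c - e‖ := by
        rw [← Real.exp_log (show 0 < X / ‖c - e‖ by positivity), ← hx]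
        exact Real.exp_le_exp.2 hj2
      rw [le_div_iff₀ h4] at h6
      rw [Real.exp_neg, ← div_eq_mul_inv, le_div_iff₀ (Real.exp_pos _)]
      linarith only [h6]
  have h6 : ((Finset.range (⌊x⌋₊ + 1)).card : ℝ) ≤ ∑ j ∈ Finset.range
      (⌈Real.log (X / r₀)⌉₊ + 1), if ‖c - e‖ ≤ X * Real.exp (-(j : ℝ)) then (1 : ℝ) else 0 := by
    rw [Finset.sum_ite, Finset.sum_const_zero, add_zero, Finset.sum_const, nsmul_eq_mul, mul_one]
    exact_mod_cast Finset.card_le_card h5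
  rw [Finset.card_range] at h6
  have h7 := Nat.lt_floor_add_one x
  push_cast at h6
  linarith only [h7, h6]

private theorem us_geom (n : ℕ) : ∑ j ∈ Finset.range n, Real.exp (-(j : ℝ)) ^ 2 ≤ 2 := by
  have h1 : ∀ j ∈ Finset.range n, Real.exp (-(j : ℝ)) ^ 2 ≤ (1 / 2 : ℝ) ^ j := by
    intro j _
    have h2 : Real.exp (-(j : ℝ)) ^ 2 = (Real.exp (-1) ^ 2) ^ j := by
      rw [← Real.exp_nat_mul, ← Real.exp_nat_mul, ← Real.exp_nat_mul]
      congr 1
      push_cast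
      ring
    rw [h2]
    have h3 : Real.exp (-1) ^ 2 ≤ 1 / 2 := by
      have h4 : Real.exp (-1) ≤ 1 / 2 := by
        rw [Real.exp_neg, inv_eq_one_div, div_le_div_iff₀ (Real.exp_pos _) (by norm_num)]
        have := Real.add_one_le_exp (1 : ℝ)
        linarith
      have h5 := Real.exp_pos (-1)
      nlinarith only [h4, h5]
    exact pow_le_pow_left₀ (by positivity) h3 j
  refine (Finset.sum_le_sum h1).trans ?_
  have h2 := Summable.sum_le_tsum (Finset.range n) (fun i _ => by positivity)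
    summable_geometric_two
  rw [tsum_geometric_two] at h2
  exact h2

/-- the sum of the logarithms -/
private theorem us_log {E : Set ℂ} (hfin : ∀ (z : ℂ) (R : ℝ), (E ∩ closedBall z R).Finite)
    {ε C : ℝ} (hε : 0 ≤ ε) (c : ℂ)
    (hC : ∀ R : ℝ, 1 ≤ R → ((E ∩ closedBall c R).ncard : ℝ) ≤ ε * R ^ 2 + C)
    (s : Finset ℂ) (hsE : ∀ e ∈ s, e ∈ E) {r₀ X : ℝ} (hr₀ : 0 < r₀) (hX : r₀ ≤ X)
    (hs : ∀ e ∈ s, r₀ ≤ ‖c - e‖ ∧ ‖c - e‖ ≤ X) :
    ∑ e ∈ s, Real.log (X / ‖c - e‖) ≤ 2 * ε * X ^ 2 + (X / r₀ + 1) * (ε + C) := by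
  have hC0 : 0 ≤ ε + C := by
    have h1 := hC 1 le_rfl
    have h2 : (0 : ℝ) ≤ ((E ∩ closedBall c 1).ncard : ℝ) := by positivity
    linarith
  refine (us_count s c hr₀ hs).trans ?_
  have hX0 : 0 < X := by linarith
  have h1 : ∀ j ∈ Finset.range (⌈Real.log (X / r₀)⌉₊ + 1),
      ((s.filter fun e => ‖c - e‖ ≤ X * Real.exp (-(j : ℝ))).card : ℝ) ≤
        ε * X ^ 2 * Real.exp (-(j : ℝ)) ^ 2 + (ε + C) := by
    intro j _
    obtain ⟨Y, hY⟩ : ∃ Y, Y = X * Real.exp (-(j : ℝ)) := ⟨_, rfl⟩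
    have hY0 : 0 < Y := by
      rw [hY]
      positivity
    have h2 := hC (max Y 1) (le_max_right _ _)
    have h3 : (s.filter fun e => ‖c - e‖ ≤ X * Real.exp (-(j : ℝ))).card ≤
        (E ∩ closedBall c (max Y 1)).ncard := by
      rw [← Set.ncard_coe_finset]
      refine Set.ncard_le_ncard ?_ (hfin _ _)
      intro e he
      rw [Finset.mem_coe, Finset.mem_filter] at he
      refine ⟨hsE e he.1, ?_⟩
      rw [mem_closedBall, dist_comm, dist_eq_norm]
      refine he.2.trans ?_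
      rw [← hY]
      exact le_max_left _ _
    have h4 : ((s.filter fun e => ‖c - e‖ ≤ X * Real.exp (-(j : ℝ))).card : ℝ) ≤
        ((E ∩ closedBall c (max Y 1)).ncard : ℝ) := by exact_mod_cast h3
    have h5 : (max Y 1) ^ 2 ≤ Y ^ 2 + 1 := by
      rcases le_total Y 1 with h | h
      · rw [max_eq_right h]
        nlinarith only
      · rw [max_eq_left h]
        linarith
    have h6 : Y ^ 2 = X ^ 2 * Real.exp (-(j : ℝ)) ^ 2 := by
      rw [hY]
      ring
    have h7 : ε * (max Y 1) ^ 2 ≤ ε * (Y ^ 2 + 1) := mul_le_mul_of_nonneg_left h5 hε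
    rw [h6] at h7
    nlinarith only [h2, h4, h7]
  refine (Finset.sum_le_sum h1).trans ?_
  rw [Finset.sum_add_distrib, ← Finset.mul_sum, Finset.sum_const, Finset.card_range,
    nsmul_eq_mul]
  have h2 := us_geom (⌈Real.log (X / r₀)⌉₊ + 1)
  have h3 : ((⌈Real.log (X / r₀)⌉₊ + 1 : ℕ) : ℝ) ≤ X / r₀ + 1 := by
    push_cast
    have h4 : (1 : ℝ) ≤ X / r₀ := (one_le_div hr₀).2 hX
    have h5 := Nat.ceil_lt_add_one (Real.log_nonneg h4)
    have h6 := Real.log_le_sub_one_of_pos (show 0 < X / r₀ by positivity)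
    linarith only [h5, h6]
  have h4 : 0 ≤ ε * X ^ 2 := by positivity
  have h5 := mul_le_mul_of_nonneg_left h2 h4
  have h6 := mul_le_mul_of_nonneg_right h3 hC0
  linarith only [h5, h6]

/-- the limit -/
private theorem us_lim {x C k a b : ℝ} (hk : 0 < k) (hC : 0 ≤ C)
    (h : ∀ R : ℝ, 1 ≤ R → x ≤ C * Real.exp (-k * R ^ 2 + a * R + b)) : x ≤ 0 := by
  have h1 : ∀ᶠ R : ℝ in atTop, x ≤ C * Real.exp (b - R) := by
    filter_upwards [eventually_ge_atTop (max 1 ((a + 1) / k))] with R hR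
    have hR1 : 1 ≤ R := (le_max_left _ _).trans hR
    have hR2 : (a + 1) / k ≤ R := (le_max_right _ _).trans hR
    rw [div_le_iff₀ hk] at hR2
    refine (h R hR1).trans ?_
    refine mul_le_mul_of_nonneg_left (Real.exp_le_exp.2 ?_) hC
    nlinarith only [hR2, hR1]
  have h2 : Tendsto (fun R : ℝ => C * Real.exp (b - R)) atTop (𝓝 (C * 0)) := by
    refine Tendsto.const_mul _ ?_
    refine Real.tendsto_exp_atBot.comp ?_
    exact tendsto_atBot_add_const_left _ b tendsto_neg_atTop_atBot |>.congr fun R => by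
      show b + -R = b - R
      ring
  rw [mul_zero] at h2
  exact ge_of_tendsto h2 h1

theorem ustar {E : Set ℂ} (hE : IsClosed E) (hfin : ∀ (z : ℂ) (R : ℝ), (E ∩ closedBall z R).Finite) {M : ℕ} (hloc : ∀ z : ℂ, (E ∩ closedBall z 2).ncard ≤ M)
    (hfew : ∀ ε : ℝ, 0 < ε → ∃ C : ℝ, ∀ (z : ℂ) (R : ℝ), 1 ≤ R → ((E ∩ closedBall z R).ncard : ℝ) ≤ ε * R ^ 2 + C)
    {δ ρ r₀ q C₁ : ℝ} (hδ : 0 < δ) (hδ' : δ ≤ 1 / 4) (hρ : 0 < ρ) (hρ' : ρ ≤ 1 / 2) (hr₀ : 0 < r₀) (hr : r₀ / (2 * δ) * (1 / δ) ^ M ≤ 1 / 2) (hq : q < 1)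
    {κ : ℂ → ℝ} (h0 : ∀ z, 0 ≤ κ z) (hb : ∀ z, (∀ e ∈ E, r₀ / 2 ≤ dist z e) → κ z ≤ C₁)
    (hs : ∀ z, (∀ e ∈ E, r₀ ≤ dist z e) → ∀ g : ℂ → ℂ, DifferentiableOn ℂ g (ball z (r₀ / 2)) → (∀ w ∈ ball z (r₀ / 2), g w ≠ 0) → ∀ S : ℝ,
      (∀ w, dist w z = r₀ / 4 → κ w * ‖g w‖ ≤ S) → κ z * ‖g z‖ ≤ q * S)
    (hm : ∀ z, (∀ e ∈ E, r₀ / 2 ≤ dist z e) → (∃ e ∈ E, dist z e ≤ r₀) → ∀ g : ℂ → ℂ, DifferentiableOn ℂ g (ball z 1) → (∀ w ∈ ball z 1, g w ≠ 0) → ∀ S : ℝ,
      (∀ w, dist w z ≤ ρ → (∀ e ∈ E, 2 * δ ≤ dist w e) → κ w * ‖g w‖ ≤ S) → κ z * ‖g z‖ ≤ C₁ * S) :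
    ∀ z, (∀ e ∈ E, r₀ ≤ dist z e) → κ z = 0 := by
  intro c hc
  have hrδ : r₀ ≤ δ := by
    have h1 : (1 : ℝ) ≤ (1 / δ) ^ M := by
      refine one_le_pow₀ ?_
      rw [le_div_iff₀ hδ]
      linarith only [hδ, hδ']
    have h2 : 0 < r₀ / (2 * δ) := by positivity
    have h3 : r₀ / (2 * δ) ≤ 1 / 2 := by nlinarith only [hr, hδ, hδ', h1, h2]
    rw [div_le_div_iff₀ (by positivity) (by norm_num)] at h3
    linarith only [h3]
  have hr1 : r₀ ≤ 1 := by linarith only [hδ, hδ', hrδ]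
  -- the constants
  obtain ⟨q₀, hq₀⟩ : ∃ q₀, q₀ = max q (1 / 2) := ⟨_, rfl⟩
  have hqq : q ≤ q₀ := by
    rw [hq₀]
    exact le_max_left _ _
  have hq0 : 1 / 2 ≤ q₀ := by
    rw [hq₀]
    exact le_max_right _ _
  have hq1 : q₀ < 1 := by
    rw [hq₀]
    exact max_lt hq (by norm_num)
  obtain ⟨q', hq'⟩ : ∃ q', q' = (1 + q₀) / 2 := ⟨_, rfl⟩
  have hq'1 : q' < 1 := by linarith only [hq1, hq']
  have hq'0 : q₀ < q' := by linarith only [hq', hq'1]
  obtain ⟨k, hkd⟩ : ∃ k, k = Real.log (q' / q₀) := ⟨_, rfl⟩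
  have hk : 0 < k := by
    rw [hkd]
    exact Real.log_pos ((one_lt_div (by linarith only [hδ, hδ', hq0])).2 hq'0)
  have hek : q₀ * Real.exp k = q' := by
    rw [hkd, Real.exp_log (div_pos (by linarith only [hδ, hδ', hq0, hq']) (by linarith only [hδ, hδ', hq0]))]
    field_simp
  obtain ⟨C', hC'⟩ : ∃ C', C' = max C₁ 0 := ⟨_, rfl⟩
  have hCC : C₁ ≤ C' := by
    rw [hC']
    exact le_max_left _ _
  have hC0 : 0 ≤ C' := by
    rw [hC']
    exact le_max_right _ _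
  obtain ⟨K, hK⟩ : ∃ K : ℕ, C' * Real.exp k * (1 / 2) ^ K ≤ q' := by
    have h1 : 0 ≤ C' * Real.exp k := by positivity
    obtain ⟨K, hK⟩ := exists_pow_lt_of_lt_one (show 0 < q' / (C' * Real.exp k + 1) from
      div_pos (by linarith only [hδ, hδ', hq0, hq']) (by linarith only [hδ, hδ', h1])) (show (1 / 2 : ℝ) < 1 by norm_num)
    refine ⟨K, ?_⟩
    have h2 := mul_le_mul_of_nonneg_left hK.le (show 0 ≤ C' * Real.exp k + 1 by linarith only [hδ, hδ', h1])
    rw [mul_div_cancel₀ _ (show C' * Real.exp k + 1 ≠ 0 by linarith only [hδ, hδ', h1])] at h2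
    have h3 : (0 : ℝ) ≤ (1 / 2) ^ K := by positivity
    nlinarith only [h2, h3]
  obtain ⟨ε, hεd⟩ : ∃ ε, ε = k / (16 * ((K : ℝ) + 1)) := ⟨_, rfl⟩
  have hε : 0 < ε := by
    rw [hεd]
    positivity
  have hKε : 8 * K * ε ≤ k / 2 := by
    have h1 : 16 * ((K : ℝ) + 1) * ε = k := by
      rw [hεd]
      field_simp
    nlinarith only [hε, h1]
  obtain ⟨C, hC⟩ := hfew ε hε
  -- the inequality for given `R`
  have key : ∀ R : ℝ, 1 ≤ R → κ c ≤ C' * Real.exp (-k * R ^ 2 +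
      K * (2 * ε * (2 * R + 4) ^ 2 + ((2 * R + 4) / r₀ + 1) * (ε + C))) := by
    intro R hR
    obtain ⟨A, hA⟩ : ∃ A : Finset ℂ, ∀ e, e ∈ A ↔ e ∈ E ∧ ‖e - c‖ ≤ R + 3 := by
      refine ⟨(hfin c (R + 3)).toFinset, fun e => ?_⟩
      rw [Set.Finite.mem_toFinset, Set.mem_inter_iff, mem_closedBall, dist_eq_norm]
    have hdist : ∀ w : ℂ, ‖w - c‖ ≤ R + 1 → ∀ e ∈ A, ‖w - e‖ ≤ 2 * R + 4 := by
      intro w hw e he
      have h1 := ((hA e).1 he).2
      have h2 := norm_add_le (w - c) (c - e)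
      rw [sub_add_sub_cancel, norm_sub_rev c e] at h2
      linarith only [hw, h1, h2]
    have hprod : ∀ w : ℂ, ‖w - c‖ ≤ R + 1 →
        ∏ e ∈ A, ‖w - e‖ ^ K ≤ ∏ _e ∈ A, (2 * R + 4) ^ K := by
      intro w hw
      refine Finset.prod_le_prod (fun e _ => by positivity) fun e he => ?_
      exact pow_le_pow_left₀ (norm_nonneg _) (hdist w hw e he) K
    have hPX : 0 ≤ ∏ _e ∈ A, (2 * R + 4) ^ K :=
      Finset.prod_nonneg fun e _ => by positivity
    have hmax := us_max (th κ k K c A)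
      (fun w => (∀ e ∈ E, r₀ / 2 ≤ dist w e) ∧ ‖w - c‖ ≤ R + 1) (fun w => ‖w - c‖ ≤ R)
      (B := C' * Real.exp (-k * R ^ 2) * ∏ _e ∈ A, (2 * R + 4) ^ K)
      (B₀ := C' * 1 * ∏ _e ∈ A, (2 * R + 4) ^ K) hq'1 (by positivity)
      (by
        rintro w ⟨h1, h2⟩
        unfold th
        have h3 : Real.exp (-k * ‖w - c‖ ^ 2) ≤ 1 := by
          apply Real.exp_le_one_iff.2
          have := sq_nonneg ‖w - c‖
          nlinarith only [hk]
        have h4 := hprod w h2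
        have h5 : κ w ≤ C' := (hb w h1).trans hCC
        have h6 := h0 w
        have h7 : 0 ≤ ∏ e ∈ A, ‖w - e‖ ^ K := Finset.prod_nonneg fun e _ => by positivity
        gcongr)
      (by
        rintro w ⟨h1, h2⟩ h8
        unfold th
        have h3 : Real.exp (-k * ‖w - c‖ ^ 2) ≤ Real.exp (-k * R ^ 2) := by
          apply Real.exp_le_exp.2
          push Not at h8
          have h9 : R ^ 2 ≤ ‖w - c‖ ^ 2 := by
            have : 0 ≤ R := by linarith only [hδ, hδ', hR]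
            gcongr
          nlinarith only [hδ, hδ', hk, h9]
        have h4 := hprod w h2
        have h5 : κ w ≤ C' := (hb w h1).trans hCC
        have h6 := h0 w
        have h7 : 0 ≤ ∏ e ∈ A, ‖w - e‖ ^ K := Finset.prod_nonneg fun e _ => by positivity
        gcongr)
      (by
        rintro S hS0 hS z ⟨hz, -⟩ hzR
        by_cases hcase : ∀ e ∈ E, r₀ ≤ dist z e
        · have h1 := us_claim1 hr₀ hr1 hk.le (fun e he => ((hA e).1 he).1) hcase hzR hS0
            (fun w h1 h2 => hS w ⟨h1, h2⟩) (hs z hcase)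
          refine h1.trans ?_
          rw [← hek]
          have := Real.exp_pos k
          gcongr
        · push Not at hcase
          obtain ⟨e₀, he₀, hze⟩ := hcase
          have h1 := us_claim2 hδ hδ' hρ' hr₀ hrδ hr hk.le h0 hA (hloc z) hz he₀ hze.le hzR hS0
            (fun w h1 h2 => hS w ⟨h1, h2⟩) (hm z hz ⟨e₀, he₀, hze.le⟩)
          refine h1.trans ?_
          refine mul_le_mul_of_nonneg_right (le_trans ?_ hK) hS0
          have := Real.exp_pos k
          gcongr)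
      c ⟨fun e he => by linarith only [hr₀, hc, he, hc e he], by simp; linarith only [hδ, hδ', hR]⟩
    -- division
    unfold th at hmax
    rw [sub_self, norm_zero, zero_pow two_ne_zero, mul_zero, Real.exp_zero, mul_one] at hmax
    have hpos : ∀ e ∈ A, 0 < ‖c - e‖ := by
      intro e he
      have h1 := hc e ((hA e).1 he).1
      rw [dist_eq_norm] at h1
      linarith only [hr₀, h1]
    have hX : 0 < 2 * R + 4 := by linarith only [hδ, hδ', hR]
    have hexp : ∏ e ∈ A, ((2 * R + 4) / ‖c - e‖) ^ K =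
        Real.exp (K * ∑ e ∈ A, Real.log ((2 * R + 4) / ‖c - e‖)) := by
      rw [Finset.mul_sum, Real.exp_sum]
      refine Finset.prod_congr rfl fun e he => ?_
      rw [Real.exp_nat_mul, Real.exp_log (div_pos hX (hpos e he))]
    have h1 : κ c ≤ C' * Real.exp (-k * R ^ 2) * ∏ e ∈ A, ((2 * R + 4) / ‖c - e‖) ^ K := by
      have h2 : 0 < ∏ e ∈ A, ‖c - e‖ ^ K :=
        Finset.prod_pos fun e he => pow_pos (hpos e he) K
      have h3 : ∏ e ∈ A, ((2 * R + 4) / ‖c - e‖) ^ K =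
          (∏ _e ∈ A, (2 * R + 4) ^ K) / ∏ e ∈ A, ‖c - e‖ ^ K := by
        rw [← Finset.prod_div_distrib]
        refine Finset.prod_congr rfl fun e _ => ?_
        rw [div_pow]
      rw [h3, ← mul_div_assoc, le_div_iff₀ h2]
      exact hmax
    rw [hexp, mul_assoc, ← Real.exp_add] at h1
    refine h1.trans (mul_le_mul_of_nonneg_left (Real.exp_le_exp.2 ?_) hC0)
    have h2 := us_log hfin hε.le c (fun R hR => hC c R hR) A (fun e he => ((hA e).1 he).1) hr₀
      (show r₀ ≤ 2 * R + 4 by linarith only [hδ, hδ', hrδ, hR]) (fun e he => by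
        refine ⟨?_, hdist c (by simp; linarith only [hδ, hδ', hR]) e he⟩
        have h2 := hc e ((hA e).1 he).1
        rwa [dist_eq_norm] at h2)
    have h3 : (0 : ℝ) ≤ K := by positivity
    have h4 := mul_le_mul_of_nonneg_left h2 h3
    linarith only [h4]
  refine le_antisymm ?_ (h0 c)
  refine us_lim (k := k - 8 * K * ε) (a := 32 * K * ε + 2 * K * (ε + C) / r₀)
    (b := 32 * K * ε + K * (4 / r₀ + 1) * (ε + C)) (by linarith only [hk, hKε]) hC0 fun R hR => ?_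
  refine (key R hR).trans (le_of_eq ?_)
  congr 2
  field_simp
  ring

end Pool.Agent.G4.U

end

section

/-!
# CV EllB: the Weierstrass normal form

`normal_form`: `v₁ = v - (a u + b) / 2`: `v₁² = c u³ + (d + a² / 4) u² + (e + a b / 2) u + (f + b² / 4)`.  Let `s` with `c s³ = 4` (`IsAlgClosed`), `r = - (d + a² / 4) / (3 c)`, `u₁ = (u - r) / s`:
`v₁² = 4 u₁³ - α u₁ - β` for some `α, β`.  `ℂ(u₁, v₁) = ℂ(u, v)`, `ℂ(u₁) = ℂ(u)`, `v₁ ∉ ℂ(u)`.
`singular_rational`: let `α³ = 27 β²`.  There is `ρ` with `12 ρ² = α`, `- 8 ρ³ = β` (take `ρ² = α / 12`; then `(8 ρ³)² = α³ / 27 = β²`, change the sign of `ρ` if necessary).  Then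
`4 u³ - α u - β = 4 (u - ρ)² (u + 2 ρ)`.  `u ≠ ρ` (`u` is transcendental).  `t = v / (u - ρ)`: `t² = 4 (u + 2 ρ)`, so `u = t² / 4 - 2 ρ ∈ ℂ(t)` and `v = t (u - ρ) ∈ ℂ(t)`.
-/

set_option autoImplicit false

noncomputable section

namespace Pool.Agent.H13.CV

variable {K : Type} [Field K] [Algebra ℂ K]

theorem normal_form {u v : K} {c a d b e f : ℂ} (hc : c ≠ 0)
    (h : v ^ 2 = algebraMap ℂ K c * u ^ 3 + algebraMap ℂ K a * (u * v) + algebraMap ℂ K d * u ^ 2 + algebraMap ℂ K b * v +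
      algebraMap ℂ K e * u + algebraMap ℂ K f) (hu : Transcendental ℂ u) (huv : IntermediateField.adjoin ℂ {u, v} = ⊤) (hvu : v ∉ IntermediateField.adjoin ℂ {u}) :
    ∃ (u' v' : K) (α β : ℂ), v' ^ 2 = 4 * u' ^ 3 - algebraMap ℂ K α * u' - algebraMap ℂ K β ∧ Transcendental ℂ u' ∧
      IntermediateField.adjoin ℂ {u', v'} = ⊤ ∧ v' ∉ IntermediateField.adjoin ℂ {u'} := by
  obtain ⟨s, hs⟩ := IsAlgClosed.exists_pow_nat_eq (4 / c) (n := 3) (by norm_num)
  have hs0 : s ≠ 0 := by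
    rintro rfl
    have : (4 : ℂ) / c ≠ 0 := div_ne_zero (by norm_num) hc
    apply this
    rw [← hs]
    norm_num
  have hcs : c * s ^ 3 = 4 := by
    rw [hs]
    field_simp
  set r : ℂ := -(d + a ^ 2 / 4) / (3 * c) with hr
  have hr' : 3 * c * r = -(d + a ^ 2 / 4) := by
    rw [hr]
    field_simp
  haveI : CharZero K := charZero_of_injective_algebraMap (algebraMap ℂ K).injective
  set C := algebraMap ℂ K with hC
  have c2 : C 2 = 2 := map_ofNat C 2
  have c3 : C 3 = 3 := map_ofNat C 3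
  have c4 : C 4 = 4 := map_ofNat C 4
  have hCs0 : C s ≠ 0 := by
    rw [hC]
    exact (map_ne_zero (algebraMap ℂ K)).2 hs0
  have hcsK : C c * C s ^ 3 = 4 := by
    rw [← map_pow, ← map_mul, hcs]
    exact map_ofNat C 4
  have hrK : 3 * C c * C r = -(C d + C a ^ 2 / 4) := by
    have := congrArg C hr'
    simpa [c2, c3, c4] using this
  set u' : K := (u - C r) / C s with hu'
  have hu2 : u = C s * u' + C r := by
    rw [hu']
    field_simp
    ring
  set v' : K := v - (C a * u + C b) / 2 with hv'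
  have hv2 : v = v' + (C a * u + C b) / 2 := by
    rw [hv']
    ring
  have hmem : ∀ (L : IntermediateField ℂ K) (z : ℂ), C z ∈ L := fun L z => L.algebraMap_mem z
  have h2mem : ∀ (L : IntermediateField ℂ K), (2 : K) ∈ L := fun L => by
    have := hmem L 2
    rwa [hC, map_ofNat] at this
  have hvu2 : ∀ L : IntermediateField ℂ K, u ∈ L → v' ∈ L → v ∈ L := fun L h1 h2 => by
    rw [hv2]
    exact L.add_mem h2 (L.div_mem (L.add_mem (L.mul_mem (hmem L a) h1) (hmem L b)) (h2mem L))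
  have huL : ∀ L : IntermediateField ℂ K, u' ∈ L → u ∈ L := fun L h1 => by
    rw [hu2]
    exact L.add_mem (L.mul_mem (hmem L s) h1) (hmem L r)
  refine ⟨u', v', 3 * c * s * r ^ 2 - (e + a * b / 2) * s,
    -(c * r ^ 3 + (d + a ^ 2 / 4) * r ^ 2 + (e + a * b / 2) * r + (f + b ^ 2 / 4)), ?_, ?_, ?_, ?_⟩
  · have e1 : v' ^ 2 = C c * u ^ 3 + (C d + C a ^ 2 / 4) * u ^ 2 + (C e + C a * C b / 2) * u + (C f + C b ^ 2 / 4) := by
      rw [hv']
      linear_combination h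
    have e2 : C (3 * c * s * r ^ 2 - (e + a * b / 2) * s) = 3 * C c * C s * C r ^ 2 - (C e + C a * C b / 2) * C s := by
      simp [c2, c3]
    have e3 : C (-(c * r ^ 3 + (d + a ^ 2 / 4) * r ^ 2 + (e + a * b / 2) * r + (f + b ^ 2 / 4))) =
        -(C c * C r ^ 3 + (C d + C a ^ 2 / 4) * C r ^ 2 + (C e + C a * C b / 2) * C r + (C f + C b ^ 2 / 4)) := by
      simp [c2, c4]
    rw [e2, e3, e1, hu2]
    linear_combination u' ^ 3 * hcsK + (C s ^ 2 * u' ^ 2 + 2 * C s * C r * u') * hrK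
  · intro hal
    apply hu
    rw [hu2]
    exact ((isAlgebraic_algebraMap s).mul hal).add (isAlgebraic_algebraMap r)
  · rw [eq_top_iff, ← huv, IntermediateField.adjoin_le_iff]
    have m1 : u' ∈ IntermediateField.adjoin ℂ {u', v'} := IntermediateField.subset_adjoin ℂ _ (by simp)
    have m2 : v' ∈ IntermediateField.adjoin ℂ {u', v'} := IntermediateField.subset_adjoin ℂ _ (by simp)
    rintro z hz
    rcases hz with rfl | hz
    · exact huL _ m1
    · rw [Set.mem_singleton_iff] at hz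
      rw [hz]
      exact hvu2 _ (huL _ m1) m2
  · intro hv3
    apply hvu
    have m1 : u ∈ IntermediateField.adjoin ℂ {u} := IntermediateField.mem_adjoin_simple_self ℂ u
    have m2 : u' ∈ IntermediateField.adjoin ℂ {u} := by
      rw [hu']
      exact div_mem (sub_mem m1 (hmem _ r)) (hmem _ s)
    have m3 : IntermediateField.adjoin ℂ {u'} ≤ IntermediateField.adjoin ℂ {u} := by
      rw [IntermediateField.adjoin_simple_le_iff]
      exact m2
    exact hvu2 _ m1 (m3 hv3)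

theorem singular_rational {u v : K} {α β : ℂ} (h : v ^ 2 = 4 * u ^ 3 - algebraMap ℂ K α * u - algebraMap ℂ K β) (hu : Transcendental ℂ u)
    (huv : IntermediateField.adjoin ℂ {u, v} = ⊤) (hd : α ^ 3 = 27 * β ^ 2) : ∃ t : K, IntermediateField.adjoin ℂ {t} = ⊤ := by
  obtain ⟨ρ, h1, h2⟩ : ∃ ρ : ℂ, 12 * ρ ^ 2 = α ∧ -8 * ρ ^ 3 = β := by
    obtain ⟨ρ, hρ⟩ := IsAlgClosed.exists_pow_nat_eq (α / 12) (n := 2) (by norm_num)
    have h12 : 12 * ρ ^ 2 = α := by
      rw [hρ]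
      ring
    have h3 : (8 * ρ ^ 3 - β) * (8 * ρ ^ 3 + β) = 0 := by
      have : 27 * ((8 * ρ ^ 3 - β) * (8 * ρ ^ 3 + β)) = 0 := by
        have e : α ^ 3 = (12 * ρ ^ 2) ^ 3 := by rw [h12]
        rw [hd] at e
        linear_combination -e
      exact (mul_eq_zero.1 this).resolve_left (by norm_num)
    rcases mul_eq_zero.1 h3 with h4 | h4
    · exact ⟨-ρ, by linear_combination h12, by linear_combination h4⟩
    · exact ⟨ρ, h12, by linear_combination -h4⟩
  haveI : CharZero K := charZero_of_injective_algebraMap (algebraMap ℂ K).injective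
  set C := algebraMap ℂ K with hC
  have c12 : C 12 = 12 := map_ofNat C 12
  have c8 : C 8 = 8 := map_ofNat C 8
  have e1 : C α = 12 * C ρ ^ 2 := by
    rw [← h1]
    simp [c12]
  have e2 : C β = -8 * C ρ ^ 3 := by
    rw [← h2]
    simp [c8]
  have hne : u - C ρ ≠ 0 := by
    intro h0
    apply hu
    rw [sub_eq_zero.1 h0]
    exact isAlgebraic_algebraMap ρ
  set t : K := v / (u - C ρ) with ht
  have hvt : v = t * (u - C ρ) := by
    rw [ht]
    field_simp
  have ht2 : t ^ 2 = 4 * (u + 2 * C ρ) := by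
    have h5 : (u - C ρ) ^ 2 * (t ^ 2 - 4 * (u + 2 * C ρ)) = 0 := by
      rw [e1, e2, hvt] at h
      linear_combination h
    exact sub_eq_zero.1 ((mul_eq_zero.1 h5).resolve_left (pow_ne_zero 2 hne))
  have hut : u = t ^ 2 / 4 - 2 * C ρ := by
    rw [ht2]
    ring
  refine ⟨t, ?_⟩
  rw [eq_top_iff, ← huv, IntermediateField.adjoin_le_iff]
  have m1 : t ∈ IntermediateField.adjoin ℂ {t} := IntermediateField.mem_adjoin_simple_self ℂ t
  have hmem : ∀ z : ℂ, C z ∈ IntermediateField.adjoin ℂ {t} := fun z => (IntermediateField.adjoin ℂ {t}).algebraMap_mem z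
  have m4 : (4 : K) ∈ IntermediateField.adjoin ℂ {t} := by
    have := hmem 4
    rwa [hC, map_ofNat] at this
  have m2 : (2 : K) ∈ IntermediateField.adjoin ℂ {t} := by
    have := hmem 2
    rwa [hC, map_ofNat] at this
  have mu : u ∈ IntermediateField.adjoin ℂ {t} := by
    rw [hut]
    exact sub_mem (div_mem (pow_mem m1 2) m4) (mul_mem m2 (hmem ρ))
  have mv : v ∈ IntermediateField.adjoin ℂ {t} := by
    rw [hvt]
    exact mul_mem m1 (sub_mem mu (hmem ρ))
  rintro z hz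
  rcases hz with rfl | hz
  · exact mu
  · rw [Set.mem_singleton_iff] at hz
    rw [hz]
    exact mv

end Pool.Agent.H13.CV

end
end

section

/-!
# TB OfSheets: from the finitely many maps to the properties (i), (ii), (iii), (iv) for curves; birational invariance
-/

set_option autoImplicit false

open MvPolynomial Topology Filter

noncomputable section

namespace Pool.Agent.H22.TB

variable {N : ℕ}

theorem eq_of_basis {K : Type} [Field K] [Algebra ℂ K] {a b : ℕ} {z : Fin a → K} {z' : Fin b → K} (hz : IsTranscendenceBasis ℂ z)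
    (hz' : IsTranscendenceBasis ℂ z') : a = b := by
  have h := hz.cardinalMk_eq hz'
  simpa using h

end Pool.Agent.H22.TB

end
end

section

/-! # Fermat covers: integer relations -/

noncomputable section

namespace Pool.Agent.H62.FC

private lemma Lattice_span {I : Type*} {Γ : Set (I → ℤ)} {x : I → ℚ}
    (hx : x ∈ Submodule.span ℚ ((fun (y : I → ℤ) (l : I) => (y l : ℚ)) '' Γ)) :
    ∃ M : ℕ, 0 < M ∧ ∃ z ∈ AddSubgroup.closure Γ, ∀ l, (M : ℚ) * x l = (z l : ℚ) := by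
  induction hx using Submodule.span_induction with
  | mem x hx =>
    obtain ⟨γ, hγ, rfl⟩ := hx
    exact ⟨1, one_pos, γ, AddSubgroup.subset_closure hγ, fun l => by simp⟩
  | zero => exact ⟨1, one_pos, 0, zero_mem _, fun l => by simp⟩
  | add x y _ _ h1 h2 =>
    obtain ⟨M₁, hM₁, z₁, hz₁, e₁⟩ := h1
    obtain ⟨M₂, hM₂, z₂, hz₂, e₂⟩ := h2
    refine ⟨M₁ * M₂, Nat.mul_pos hM₁ hM₂, M₂ • z₁ + M₁ • z₂,
      add_mem (nsmul_mem hz₁ _) (nsmul_mem hz₂ _), fun l => ?_⟩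
    have h1 := e₁ l
    have h2 := e₂ l
    rw [Pi.add_apply, Pi.add_apply, Pi.smul_apply, Pi.smul_apply, nsmul_eq_mul, nsmul_eq_mul]
    push_cast
    rw [← h1, ← h2]
    ring
  | smul q x _ h1 =>
    obtain ⟨M, hM, z, hz, e⟩ := h1
    refine ⟨M * q.den, Nat.mul_pos hM q.den_pos, q.num • z, zsmul_mem hz _, fun l => ?_⟩
    have h1 := e l
    have h2 : (q.den : ℚ) * q = q.num := Rat.den_mul_eq_num q
    simp only [Pi.smul_apply, smul_eq_mul, Nat.cast_mul, Int.cast_mul]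
    rw [← h1, ← h2]
    ring

theorem exists_combination {I : Type*} [Fintype I] [DecidableEq I] {Γ : Set (I → ℤ)} {i j : I}
    (h : ∀ n : I → ℤ, (∀ γ ∈ Γ, ∑ l, n l * γ l = 0) → n i = n j) :
    ∃ M : ℕ, 0 < M ∧
      (M : ℤ) • (Pi.single i 1 - Pi.single j 1 : I → ℤ) ∈ AddSubgroup.closure Γ := by
  classical
  have key : (fun l => (((Pi.single i 1 - Pi.single j 1 : I → ℤ) l : ℤ) : ℚ)) ∈
      Submodule.span ℚ ((fun (y : I → ℤ) (l : I) => (y l : ℚ)) '' Γ) := by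
    by_contra hcon
    obtain ⟨f, hf, hle⟩ := Submodule.exists_le_ker_of_notMem hcon
    -- the coefficients of the functional
    have hsum : ∀ x : I → ℚ, f x = ∑ l, f (Pi.single l 1) * x l := by
      intro x
      conv_lhs => rw [pi_eq_sum_univ' x]
      rw [map_sum]
      refine Finset.sum_congr rfl fun l _ => ?_
      rw [map_smul, smul_eq_mul, mul_comm]
    -- a common denominator
    obtain ⟨b, hb⟩ := IsLocalization.exist_integer_multiples_of_finite (nonZeroDivisors ℤ)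
      (fun l : I => f (Pi.single l 1))
    choose n hn using hb
    have hn' : ∀ l, (n l : ℚ) = (b : ℤ) * f (Pi.single l 1) := by
      intro l
      have h1 := hn l
      rw [Algebra.smul_def] at h1
      simpa using h1
    have hb0 : ((b : ℤ) : ℚ) ≠ 0 := by
      have := nonZeroDivisors.ne_zero b.2
      exact_mod_cast this
    have h1 : ∀ γ ∈ Γ, ∑ l, n l * γ l = 0 := by
      intro γ hγ
      have h2 : f (fun l => (γ l : ℚ)) = 0 := by
        have := hle (Submodule.subset_span ⟨γ, hγ, rfl⟩)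
        simpa using this
      rw [hsum] at h2
      have h3 : ((∑ l, n l * γ l : ℤ) : ℚ) = 0 := by
        push_cast
        simp_rw [hn', mul_assoc]
        rw [← Finset.mul_sum, h2, mul_zero]
      exact_mod_cast h3
    have h2 := h n h1
    apply hf
    rw [hsum]
    have h3 : f (Pi.single i 1) = f (Pi.single j 1) := by
      have h4 := hn' i
      have h5 := hn' j
      rw [h2, h5] at h4
      exact (mul_left_cancel₀ hb0 h4).symm
    simp only [Pi.sub_apply, Int.cast_sub, mul_sub, Finset.sum_sub_distrib, Pi.single_apply,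
      Int.cast_ite, Int.cast_one, Int.cast_zero, mul_ite, mul_one, mul_zero, Finset.sum_ite_eq',
      Finset.mem_univ, if_true]
    rw [h3, sub_self]
  obtain ⟨M, hM, z, hz, hzM⟩ := Lattice_span key
  refine ⟨M, hM, ?_⟩
  have : (M : ℤ) • (Pi.single i 1 - Pi.single j 1 : I → ℤ) = z := by
    funext l
    have h1 := hzM l
    rw [Pi.smul_apply, smul_eq_mul]
    exact_mod_cast h1
  rw [this]
  exact hz

end Pool.Agent.H62.FC

end
end

section

/-!
# A Jacobian criterion for algebraic independence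

* `algebraicIndependent_of_jacobian`: polynomials with nonzero Jacobian determinant at a point are
  algebraically independent (characteristic zero).
* `exists_algebraicIndependent_of_injective`: from a family `c j` of polynomials whose differential
  at a point is injective one obtains linear combinations, as many as there are variables, that
  are algebraically independent.
-/

namespace Pool.Agent.H94

open MvPolynomial

variable {k : Type*} [Field k]

lemma eq_C_of_pderiv_eq_zero [CharZero k] {ι : Type*} (P : MvPolynomial ι k)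
    (h : ∀ i, pderiv i P = 0) : P = C (coeff 0 P) := by
  classical
  ext m
  rw [coeff_C]
  by_cases hm : m = 0
  · subst hm; simp
  · rw [if_neg (Ne.symm hm)]
    obtain ⟨i, hi⟩ : ∃ i, m i ≠ 0 := by
      by_contra hcon
      push Not at hcon
      exact hm (Finsupp.ext hcon)
    have h1 := congrArg (coeff (m - Finsupp.single i 1)) (h i)
    rw [coeff_pderiv, coeff_zero] at h1
    have h2 : m - Finsupp.single i 1 + Finsupp.single i 1 = m :=
      Finsupp.sub_add_single_one_cancel hi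
    rw [h2] at h1
    rcases mul_eq_zero.1 h1 with h1 | h1
    · exact h1
    · exfalso
      have : ((((m - Finsupp.single i 1 : ι →₀ ℕ)) i + 1 : ℕ) : k) = 0 := by push_cast; exact h1
      exact Nat.cast_ne_zero.2 (Nat.succ_ne_zero _) this

lemma totalDegree_pderiv_lt {ι : Type*} (P : MvPolynomial ι k) (i : ι) (h : pderiv i P ≠ 0) :
    (pderiv i P).totalDegree < P.totalDegree := by
  classical
  obtain ⟨m, hm, hmd⟩ := Finset.exists_mem_eq_sup (pderiv i P).support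
    (support_nonempty.2 h) (fun s => s.sum fun _ e => e)
  rw [mem_support_iff, coeff_pderiv] at hm
  have h1 : coeff (m + Finsupp.single i 1) P ≠ 0 := left_ne_zero_of_mul hm
  have h2 := le_totalDegree (mem_support_iff.2 h1)
  have h3 : (m + Finsupp.single i 1).degree = m.degree + 1 := by
    rw [map_add, Finsupp.degree_single]
  have h4 : (m + Finsupp.single i 1).sum (fun _ e => e) = (m + Finsupp.single i 1).degree := rfl
  have h5 : m.sum (fun _ e => e) = m.degree := rfl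
  have h6 : (pderiv i P).totalDegree = m.degree := hmd
  rw [h4, h3] at h2
  omega

end Pool.Agent.H94

end

section

set_option autoImplicit false

/-!
# Hyperbolicity notions for multiple cyclic covers

The ambient space is the total space of the vector bundle `⊕ O (e j)` over `ℙ^N (ℂ)`, that is, the
open subset `x ≠ 0` of the weighted projective space with coordinates `x 0, …, x N` of weight one
and `y j` of weight `e j`.
-/

open MvPolynomial Topology

namespace Pool.Agent.H99.Cover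

variable {N : ℕ} {ι : Type}

/-- Homogeneous coordinates `(x, y)`. -/
abbrev Coord (N : ℕ) (ι : Type) : Type := (Fin (N + 1) → ℂ) × (ι → ℂ)

/-- The relation `(x, y) ~ (c x, c ^ (e j) y j)`, for `c ≠ 0`. -/
def Rel (e : ι → ℕ) (q q' : Coord N ι) : Prop :=
  ∃ c : ℂ, c ≠ 0 ∧ (∀ i, q'.1 i = c * q.1 i) ∧ ∀ j, q'.2 j = c ^ e j * q.2 j

lemma Rel.refl (e : ι → ℕ) (q : Coord N ι) : Rel e q q :=
  ⟨1, one_ne_zero, by simp, by simp⟩

lemma Rel.symm {e : ι → ℕ} {q q' : Coord N ι} (h : Rel e q q') : Rel e q' q := by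
  obtain ⟨c, hc, h1, h2⟩ := h
  refine ⟨c⁻¹, inv_ne_zero hc, fun i => ?_, fun j => ?_⟩
  · rw [h1 i, inv_mul_cancel_left₀ hc]
  · rw [h2 j, inv_pow, inv_mul_cancel_left₀ (pow_ne_zero _ hc)]

lemma Rel.trans {e : ι → ℕ} {q q' q'' : Coord N ι} (h : Rel e q q') (h' : Rel e q' q'') :
    Rel e q q'' := by
  obtain ⟨c, hc, h1, h2⟩ := h
  obtain ⟨c', hc', h1', h2'⟩ := h'
  refine ⟨c' * c, mul_ne_zero hc' hc, fun i => ?_, fun j => ?_⟩
  · rw [h1' i, h1 i, mul_assoc]
  · rw [h2' j, h2 j, mul_pow, mul_assoc]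

/-- Homogeneous coordinates with `x ≠ 0`. -/
abbrev CoordNZ (N : ℕ) (ι : Type) : Type := {q : Coord N ι // q.1 ≠ 0}

/-- The equivalence relation on homogeneous coordinates. -/
def relSetoid (N : ℕ) (e : ι → ℕ) : Setoid (CoordNZ N ι) where
  r q q' := Rel e q.1 q'.1
  iseqv := ⟨fun q => Rel.refl e q.1, fun h => h.symm, fun h h' => h.trans h'⟩

/-- The total space of `⊕ O (e j)` over `ℙ^N (ℂ)`. -/
def Tot (N : ℕ) (e : ι → ℕ) : Type := Quotient (relSetoid N e)

/-- The point with homogeneous coordinates `q`. -/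
def mk (e : ι → ℕ) (q : Coord N ι) (h : q.1 ≠ 0) : Tot N e := Quotient.mk (relSetoid N e) ⟨q, h⟩

/-- `f` is holomorphic on `U ⊆ ℂ` as a map into the total space: near every point of `U` it is
given by holomorphic homogeneous coordinates `(x, y)` with `x ≠ 0`. -/
def HolomorphicInto {e : ι → ℕ} [Fintype ι] (f : ℂ → Tot N e) (U : Set ℂ) : Prop :=
  ∀ z₀ ∈ U, ∃ φ : ℂ → Coord N ι, AnalyticAt ℂ φ z₀ ∧
    ∀ᶠ z in 𝓝 z₀, ∃ h : (φ z).1 ≠ 0, f z = mk e (φ z) h

/-- The weights of the variables `x i` and `y j`. -/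
def weights (N : ℕ) (e : ι → ℕ) : Fin (N + 1) ⊕ ι → ℕ := Sum.elim (fun _ => 1) e

/-- The polynomial `P (x, y)` vanishes at the point `x`.  For weighted homogeneous `P` this does
not depend on the homogeneous coordinates. -/
def VanishesAt {e : ι → ℕ} (P : MvPolynomial (Fin (N + 1) ⊕ ι) ℂ) (x : Tot N e) : Prop :=
  ∀ (q : Coord N ι) (h : q.1 ≠ 0), x = mk e q h → eval (Sum.elim q.1 q.2) P = 0

/-- `Ξ` is a Zariski closed subset of the subset `X` of the total space. -/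
def ZariskiClosedIn {e : ι → ℕ} (X Ξ : Set (Tot N e)) : Prop :=
  ∃ S : Set (MvPolynomial (Fin (N + 1) ⊕ ι) ℂ),
    (∀ P ∈ S, ∃ n, IsWeightedHomogeneous (weights N e) P n) ∧
    Ξ = {x | x ∈ X ∧ ∀ P ∈ S, VanishesAt P x}

/-- The punctured open unit disc. -/
def puncturedDisc : Set ℂ := Metric.ball 0 1 \ {0}

end Pool.Agent.H99.Cover

end
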