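import Mathlib

/-! The parts of this file: H22.HF.Fac, H23.Defs, H24.AnalyticGrowth, HE.Fld. -/

section

/-!
# HF Fac: the zeros of a holomorphic function in a disc and power sums

`exists_fac`: `φ` analytic on a neighbourhood of the closed disc, without zeros on the circle: `φ t = ∏ (t - r i) * w t`, `w` analytic without zeros on the closed disc.  (Finitely many zeros in
the compact disc, finite orders, induction on the sum of the orders `∑ analyticOrderAt`; or `MeromorphicOn.extract_zeros_poles` / `AnalyticOnNhd` divisors in Mathlib.)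

`power_sum`: for `H` analytic on a neighbourhood of the closed disc `∮ H φ' / φ = 2 π i ∑ H (r i)`: `φ' / φ = ∑ 1 / (t - r i) + w' / w` on the circle, Cauchy's formula and Cauchy's theorem.

`esymm_newton`: the product of `ν` numbers is a polynomial in their power sums, with rational coefficients which do not depend on the numbers (`MvPolynomial.mul_esymm_eq_sum`, strong induction).
-/

set_option autoImplicit false

open Metric Set Filter Topology

namespace Pool.Agent.H22.HF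

private lemma divide_zero {φ : ℂ → ℂ} {ρ : ℝ} (hφ : ∀ t ∈ closedBall (0 : ℂ) ρ, AnalyticAt ℂ φ t)
    {z : ℂ} (hz : AnalyticAt ℂ φ z) (hord : analyticOrderAt φ z ≠ ⊤) :
    ∃ (m : ℕ) (φ1 : ℂ → ℂ), (∀ t ∈ closedBall (0 : ℂ) ρ, AnalyticAt ℂ φ1 t) ∧ φ1 z ≠ 0 ∧
      (∀ t, φ t = (t - z) ^ m * φ1 t) := by
  obtain ⟨m, hm⟩ := ENat.ne_top_iff_exists.1 hord
  obtain ⟨g, hg, hg0, hgφ⟩ := (hz.analyticOrderAt_eq_natCast).1 hm.symm
  classical
  refine ⟨m, fun t => if t = z then g z else φ t / (t - z) ^ m, ?_, ?_, ?_⟩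
  · intro t ht
    by_cases htz : t = z
    · subst htz
      refine hg.congr ?_
      filter_upwards [hgφ] with s hs
      by_cases hst : s = t
      · simp [hst]
      · have : (s - t) ^ m ≠ 0 := pow_ne_zero _ (sub_ne_zero.2 hst)
        rw [if_neg hst, hs, smul_eq_mul]
        field_simp
    · have h1 : AnalyticAt ℂ (fun s => φ s / (s - z) ^ m) t := by
        refine (hφ t ht).div ?_ ?_
        · exact (analyticAt_id.sub analyticAt_const).pow m
        · exact pow_ne_zero _ (sub_ne_zero.2 htz)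
      refine h1.congr ?_
      filter_upwards [isOpen_ne.mem_nhds htz] with s hs
      rw [if_neg hs]
  · simpa using hg0
  · intro t
    by_cases htz : t = z
    · subst htz
      have := hgφ.self_of_nhds
      simpa [smul_eq_mul] using this
    · have : (t - z) ^ m ≠ 0 := pow_ne_zero _ (sub_ne_zero.2 htz)
      simp only [if_neg htz]
      field_simp

private lemma fac_finset {ρ : ℝ} (Z : Finset ℂ) : ∀ (φ : ℂ → ℂ)
    (_ : ∀ t ∈ closedBall (0 : ℂ) ρ, AnalyticAt ℂ φ t)
    (_ : ∀ t ∈ closedBall (0 : ℂ) ρ, analyticOrderAt φ t ≠ ⊤)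
    (_ : ∀ t ∈ closedBall (0 : ℂ) ρ, φ t = 0 → t ∈ Z) (_ : ∀ z ∈ Z, ‖z‖ < ρ),
    ∃ (ν : ℕ) (r : Fin ν → ℂ) (w : ℂ → ℂ), (∀ i, ‖r i‖ < ρ) ∧
      (∀ t ∈ closedBall (0 : ℂ) ρ, AnalyticAt ℂ w t ∧ w t ≠ 0) ∧
      ∀ t, φ t = (∏ i, (t - r i)) * w t := by
  classical
  induction Z using Finset.induction_on with
  | empty =>
    intro φ hφ _ h0 _
    refine ⟨0, Fin.elim0, φ, fun i => i.elim0, fun t ht => ⟨hφ t ht, fun h => ?_⟩, fun t => by simp⟩
    simpa using h0 t ht h
  | insert z Z hzZ ih =>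
    intro φ hφ hord h0 hZ
    have hzρ : ‖z‖ < ρ := hZ z (Finset.mem_insert_self _ _)
    have hzb : z ∈ closedBall (0 : ℂ) ρ := by
      rw [mem_closedBall, dist_zero_right]; exact hzρ.le
    obtain ⟨m, φ1, h1, h2, h3⟩ := divide_zero hφ (hφ z hzb) (hord z hzb)
    obtain ⟨ν, r, w, hr, hw, hfac⟩ := ih φ1 h1 (by
      intro t ht htop
      apply hord t ht
      rw [analyticOrderAt_eq_top] at htop ⊢
      filter_upwards [htop] with s hs
      rw [h3 s, hs, mul_zero]) (by
      intro t ht h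
      have : φ t = 0 := by rw [h3 t, h, mul_zero]
      rcases Finset.mem_insert.1 (h0 t ht this) with h' | h'
      · subst h'; exact absurd h h2
      · exact h') (fun y hy => hZ y (Finset.mem_insert_of_mem hy))
    refine ⟨m + ν, Fin.append (fun _ : Fin m => z) r, w, ?_, hw, ?_⟩
    · intro i
      refine Fin.addCases (fun i => ?_) (fun i => ?_) i
      · rw [Fin.append_left]; exact hzρ
      · rw [Fin.append_right]; exact hr i
    · intro t
      rw [Fin.prod_univ_add]
      simp only [Fin.append_left, Fin.append_right, Finset.prod_const, Finset.card_univ, Fintype.card_fin]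
      rw [h3 t, hfac t, mul_assoc]

theorem exists_fac {φ : ℂ → ℂ} {ρ : ℝ} (hρ : 0 < ρ) (hφ : ∀ t ∈ closedBall (0 : ℂ) ρ, AnalyticAt ℂ φ t) (h0 : ∀ t ∈ sphere (0 : ℂ) ρ, φ t ≠ 0) :
    ∃ (ν : ℕ) (r : Fin ν → ℂ) (w : ℂ → ℂ), (∀ i, ‖r i‖ < ρ) ∧ (∀ t ∈ closedBall (0 : ℂ) ρ, AnalyticAt ℂ w t ∧ w t ≠ 0) ∧
      ∀ t ∈ closedBall (0 : ℂ) ρ, φ =ᶠ[𝓝 t] fun t => (∏ i, (t - r i)) * w t := by
  classical
  have hρs : ((ρ : ℝ) : ℂ) ∈ sphere (0 : ℂ) ρ := by
    rw [mem_sphere, dist_zero_right, Complex.norm_real, Real.norm_of_nonneg hρ.le]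
  have hnotloc : ∀ t ∈ closedBall (0 : ℂ) ρ, ¬ (∀ᶠ s in 𝓝 t, φ s = 0) := by
    intro t ht hev
    have hpre : IsPreconnected (closedBall (0 : ℂ) ρ) := (convex_closedBall 0 ρ).isPreconnected
    have hA : AnalyticOnNhd ℂ φ (closedBall (0 : ℂ) ρ) := fun s hs => hφ s hs
    have := hA.eqOn_zero_of_preconnected_of_eventuallyEq_zero hpre ht hev
    exact h0 _ hρs (this (sphere_subset_closedBall hρs))
  have hord : ∀ t ∈ closedBall (0 : ℂ) ρ, analyticOrderAt φ t ≠ ⊤ := by
    intro t ht htop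
    rw [analyticOrderAt_eq_top] at htop
    exact hnotloc t ht htop
  -- finitely many zeros
  have hfin : ∃ Z : Finset ℂ, ∀ t ∈ closedBall (0 : ℂ) ρ, φ t = 0 → t ∈ Z := by
    have hU : ∀ t ∈ closedBall (0 : ℂ) ρ, {s : ℂ | φ s ≠ 0 ∨ s = t} ∈ 𝓝 t := by
      intro t ht
      rcases (hφ t ht).eventually_eq_zero_or_eventually_ne_zero with h | h
      · exact absurd h (hnotloc t ht)
      · rw [eventually_nhdsWithin_iff] at h
        filter_upwards [h] with s hs
        by_cases hst : s = t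
        · right; exact hst
        · left; exact hs hst
    obtain ⟨F, hF1, hF2⟩ := (isCompact_closedBall (0 : ℂ) ρ).elim_nhds_subcover (fun t => {s : ℂ | φ s ≠ 0 ∨ s = t}) hU
    refine ⟨F, fun t ht h => ?_⟩
    obtain ⟨x, hx, hx2⟩ := mem_iUnion₂.1 (hF2 ht)
    rcases hx2 with h' | h'
    · exact absurd h h'
    · rw [h']; exact hx
  obtain ⟨Z, hZ⟩ := hfin
  obtain ⟨ν, r, w, hr, hw, hfac⟩ := fac_finset (ρ := ρ) (Z.filter fun z => ‖z‖ < ρ) φ hφ hord (by
    intro t ht h
    refine Finset.mem_filter.2 ⟨hZ t ht h, ?_⟩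
    rw [mem_closedBall, dist_zero_right] at ht
    rcases ht.lt_or_eq with h' | h'
    · exact h'
    · exact absurd h (h0 t (by rw [mem_sphere, dist_zero_right]; exact h'))) (fun z hz => (Finset.mem_filter.1 hz).2)
  exact ⟨ν, r, w, hr, hw, fun t _ => Eventually.of_forall hfac⟩

theorem power_sum {ρ : ℝ} (hρ : 0 < ρ) {φ w H : ℂ → ℂ} {ν : ℕ} {r : Fin ν → ℂ} (hr : ∀ i, ‖r i‖ < ρ) (hw : ∀ t ∈ closedBall (0 : ℂ) ρ, AnalyticAt ℂ w t ∧ w t ≠ 0)
    (hφ : ∀ t ∈ closedBall (0 : ℂ) ρ, φ =ᶠ[𝓝 t] fun t => (∏ i, (t - r i)) * w t) (hH : ∀ t ∈ closedBall (0 : ℂ) ρ, AnalyticAt ℂ H t) :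
    (∮ t in C(0, ρ), H t * deriv φ t / φ t) = 2 * Real.pi * Complex.I * ∑ i, H (r i) := by
  have hne : ∀ t ∈ sphere (0 : ℂ) ρ, ∀ i, t - r i ≠ 0 := by
    intro t ht i h
    rw [mem_sphere, dist_zero_right] at ht
    have := hr i
    rw [← sub_eq_zero.1 h, ht] at this
    exact lt_irrefl _ this
  have hdiff : DifferentiableOn ℂ H (closedBall 0 ρ) :=
    fun t ht => (hH t ht).differentiableAt.differentiableWithinAt
  have hdiff2 : DifferentiableOn ℂ (fun t => H t * logDeriv w t) (closedBall 0 ρ) := by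
    intro t ht
    refine DifferentiableAt.differentiableWithinAt ?_
    have h1 : AnalyticAt ℂ (fun t => H t * (deriv w t / w t)) t :=
      (hH t ht).mul ((hw t ht).1.deriv.div (hw t ht).1 (hw t ht).2)
    exact h1.differentiableAt
  have hEq : EqOn (fun t => H t * deriv φ t / φ t)
      (fun t => (∑ i, (t - r i)⁻¹ • H t) + H t * logDeriv w t) (sphere 0 ρ) := by
    intro t ht
    have htc := sphere_subset_closedBall ht
    have h1 : logDeriv φ t = logDeriv (fun t => (∏ i, (t - r i)) * w t) t :=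
      (logDeriv_congr_nhds (hφ t htc)).self_of_nhds
    have h2 : logDeriv (fun t => (∏ i, (t - r i)) * w t) t =
        (∑ i, (t - r i)⁻¹) + logDeriv w t := by
      rw [logDeriv_mul t (Finset.prod_ne_zero_iff.2 fun i _ => hne t ht i) (hw t htc).2
        (by fun_prop) (hw t htc).1.differentiableAt,
        logDeriv_prod (fun i _ => hne t ht i) (fun i _ => by fun_prop)]
      congr 1
      refine Finset.sum_congr rfl fun i _ => ?_
      rw [logDeriv_apply, deriv_sub_const, deriv_id'', one_div]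
    change H t * deriv φ t / φ t = (∑ i, (t - r i)⁻¹ • H t) + H t * logDeriv w t
    rw [mul_div_assoc, ← logDeriv_apply, h1, h2, mul_add, Finset.mul_sum]
    congr 1
    refine Finset.sum_congr rfl fun i _ => ?_
    rw [smul_eq_mul, mul_comm]
  rw [circleIntegral.integral_congr hρ.le hEq]
  have hci : ∀ i ∈ (Finset.univ : Finset (Fin ν)), CircleIntegrable (fun t => (t - r i)⁻¹ • H t) 0 ρ := by
    intro i _
    refine ContinuousOn.circleIntegrable hρ.le ?_
    have h5 : ContinuousOn (fun t : ℂ => (t - r i)⁻¹) (sphere 0 ρ) :=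
      (continuousOn_id.sub continuousOn_const).inv₀ fun t ht => hne t ht i
    exact h5.smul (hdiff.continuousOn.mono sphere_subset_closedBall)
  rw [circleIntegral.integral_add, circleIntegral.integral_fun_sum hci]
  · have h3 : (∮ t in C(0, ρ), H t * logDeriv w t) = 0 := by
      refine DiffContOnCl.circleIntegral_eq_zero hρ.le ?_
      exact (hdiff2.mono closure_ball_subset_closedBall).diffContOnCl
    rw [h3, add_zero, Finset.mul_sum]
    refine Finset.sum_congr rfl fun i _ => ?_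
    rw [hdiff.circleIntegral_sub_inv_smul (by rw [mem_ball, dist_zero_right]; exact hr i), smul_eq_mul]
  · have := CircleIntegrable.fun_sum Finset.univ hci
    exact this
  · exact ContinuousOn.circleIntegrable hρ.le (hdiff2.continuousOn.mono sphere_subset_closedBall)

open MvPolynomial in
private lemma esymm_newton_aux (ν : ℕ) : ∀ k : ℕ, k ≤ ν → ∃ P : MvPolynomial (Fin ν) ℂ, ∀ a : Fin ν → ℂ,
    eval a (esymm (Fin ν) ℂ k) = eval (fun j : Fin ν => ∑ i, a i ^ ((j : ℕ) + 1)) P := by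
  intro k
  induction k using Nat.strong_induction_on with
  | _ k ih =>
    intro hk
    rcases Nat.eq_zero_or_pos k with h0 | h0
    · subst h0
      exact ⟨1, fun a => by simp⟩
    · have hex : ∀ j : ℕ, ∃ Q : MvPolynomial (Fin ν) ℂ, j < k → ∀ a : Fin ν → ℂ,
          eval a (esymm (Fin ν) ℂ j) = eval (fun j : Fin ν => ∑ i, a i ^ ((j : ℕ) + 1)) Q := by
        intro j
        by_cases hj : j < k
        · obtain ⟨Q, hQ⟩ := ih j hj (hj.le.trans hk)
          exact ⟨Q, fun _ => hQ⟩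
        · exact ⟨0, fun h => absurd h hj⟩
      choose Q hQ using hex
      have hps : ∀ j : ℕ, ∃ R : MvPolynomial (Fin ν) ℂ, 0 < j → j ≤ k → ∀ a : Fin ν → ℂ,
          eval a (psum (Fin ν) ℂ j) = eval (fun j : Fin ν => ∑ i, a i ^ ((j : ℕ) + 1)) R := by
        intro j
        by_cases hj : 0 < j ∧ j ≤ k
        · refine ⟨X ⟨j - 1, by omega⟩, fun _ _ a => ?_⟩
          rw [eval_X, psum, map_sum]
          refine Finset.sum_congr rfl fun i _ => ?_
          have : j - 1 + 1 = j := by omega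
          simp [this]
        · exact ⟨0, fun h1 h2 => absurd ⟨h1, h2⟩ hj⟩
      choose R hR using hps
      refine ⟨C ((k : ℂ)⁻¹ * (-1) ^ (k + 1)) * ∑ a ∈ Finset.HasAntidiagonal.antidiagonal k with a.1 < k, C ((-1 : ℂ) ^ a.1) * Q a.1 * R a.2, fun a => ?_⟩
      have hk0 : (k : ℂ) ≠ 0 := by exact_mod_cast h0.ne'
      have h1 := congrArg (eval a) (mul_esymm_eq_sum (Fin ν) ℂ k)
      simp only [map_mul, map_natCast, map_pow, map_neg, map_one, map_sum] at h1
      have h2 : eval a (esymm (Fin ν) ℂ k) = (k : ℂ)⁻¹ * ((k : ℂ) * eval a (esymm (Fin ν) ℂ k)) := by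
        field_simp
      rw [h2, h1]
      simp only [map_mul, eval_C, map_sum]
      rw [mul_assoc]
      congr 2
      refine Finset.sum_congr rfl fun b hb => ?_
      obtain ⟨hb1, hb2⟩ := Finset.mem_filter.1 hb
      rw [Finset.HasAntidiagonal.mem_antidiagonal] at hb1
      rw [hQ b.1 hb2 a, hR b.2 (by omega) (by omega) a]

theorem esymm_newton (ν : ℕ) : ∃ P : MvPolynomial (Fin ν) ℂ, ∀ a : Fin ν → ℂ, ∏ i, a i = MvPolynomial.eval (fun k : Fin ν => ∑ i, a i ^ ((k : ℕ) + 1)) P := by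
  obtain ⟨P, hP⟩ := esymm_newton_aux ν ν le_rfl
  refine ⟨P, fun a => ?_⟩
  rw [← hP a, MvPolynomial.esymm]
  have : (Finset.univ : Finset (Fin ν)).powersetCard ν = {Finset.univ} := by
    have := Finset.powersetCard_self (Finset.univ : Finset (Fin ν))
    simpa using this
  rw [this, Finset.sum_singleton, map_prod]
  simp

end Pool.Agent.H22.HF

end

section

/-!
# K-semistability of Fano varieties over the complex numbers: definitions

Smooth projective varieties with ample anticanonical divisor, pluri-anticanonical sections,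
prime divisors over a variety, log discrepancies, the invariant `S`, and the valuative criterion
of Fujita and Li.
-/

open AlgebraicGeometry CategoryTheory MeasureTheory Filter
open scoped ENNReal

noncomputable section

namespace Pool.Agent.H23

/-! ## Birational algebra in a function field -/

section FunctionField

variable (K : Type) [Field K] [Algebra ℂ K] (n : ℕ)

/-- Rational `n`-forms of the function field `K` over `ℂ`: the `K`-vector space `⋀ⁿ Ω_{K/ℂ}`. -/
abbrev RatForm : Type := ⋀[K]^n Ω[K⁄ℂ]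

variable {K}

/-- The regular `n`-forms of a `ℂ`-subalgebra `A` of `K`, that is the image of
`⋀ⁿ Ω_{A/ℂ}` in `⋀ⁿ Ω_{K/ℂ}`: all finite sums of forms `c da₁ ∧ ⋯ ∧ daₙ` with
`c, a₁, …, aₙ ∈ A`. -/
def regularForms (A : Subalgebra ℂ K) : AddSubgroup (RatForm K n) :=
  AddSubgroup.closure {ω | ∃ (c : K) (a : Fin n → K), c ∈ A ∧ (∀ i, a i ∈ A) ∧
    ω = c • exteriorPower.ιMulti K n (fun i => KaehlerDifferential.D ℂ K (a i))}

variable {ι : Type} (O : ι → Subalgebra ℂ K)

/-- Let `O x`, `x : ι`, be the local rings of a smooth variety `X` of dimension `n` with function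
field `K`. A rational section of `-m K_X` is a function `φ` on rational `n`-forms with
`φ (g • ω) = g ^ m * φ ω`; it is regular at `x` if it takes the regular `n`-forms at `x` to
`O x`. This is the space `H⁰(X, -m K_X)` of everywhere regular sections. -/
def antiSections (m : ℕ) : Submodule ℂ (RatForm K n → K) where
  carrier := {φ | (∀ (g : K) (ω : RatForm K n), φ (g • ω) = g ^ m * φ ω) ∧
    ∀ x, ∀ ω ∈ regularForms n (O x), φ ω ∈ O x}
  add_mem' := by
    rintro φ ψ ⟨h1, h2⟩ ⟨h3, h4⟩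
    refine ⟨fun g ω => ?_, fun x ω hω => ?_⟩
    · simp only [Pi.add_apply, h1, h3, mul_add]
    · exact (O x).add_mem (h2 x ω hω) (h4 x ω hω)
  zero_mem' := ⟨fun g ω => by simp, fun x ω _ => (O x).zero_mem⟩
  smul_mem' := by
    rintro c φ ⟨h1, h2⟩
    refine ⟨fun g ω => ?_, fun x ω hω => ?_⟩
    · simp only [Pi.smul_apply, h1, mul_smul_comm]
    · exact (O x).smul_mem (h2 x ω hω) c

/-- The valuation ring of a valuation which is trivial on `ℂ`. -/
def valRing (v : AddValuation K (WithTop ℤ)) (hv : ∀ c : ℂ, 0 ≤ v (algebraMap ℂ K c)) :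
    Subalgebra ℂ K where
  carrier := {f | 0 ≤ v f}
  mul_mem' := fun {a b} ha hb => by
    simp only [Set.mem_ofPred_eq, AddValuation.map_mul] at *
    exact add_nonneg ha hb
  add_mem' := fun {a b} ha hb => by
    simp only [Set.mem_ofPred_eq] at *
    exact le_trans (le_min ha hb) (v.map_add a b)
  algebraMap_mem' := hv

variable (K) in
/-- A prime divisor over a variety of dimension `n` with function field `K`, given by its order
function: a discrete valuation of `K`, normalised to have value group `ℤ`, trivial on `ℂ`, whose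
residue field has transcendence degree `n - 1` over `ℂ` (that is, there are `n - 1` elements of
the valuation ring whose residue classes are algebraically independent over `ℂ`). -/
structure PrimeDivisorOver where
  /-- the order of vanishing along the divisor -/
  ord : AddValuation K (WithTop ℤ)
  ord_const : ∀ c : ℂ, 0 ≤ ord (algebraMap ℂ K c)
  exists_uniformizer : ∃ t : K, ord t = 1
  residue_trdeg : ∃ s : Fin (n - 1) → K, (∀ i, 0 ≤ ord (s i)) ∧
    ∀ p : MvPolynomial (Fin (n - 1)) ℂ, p ≠ 0 → ord (MvPolynomial.aeval s p) = 0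

variable {n}

/-- The local ring of the generic point of a prime divisor over `X`. -/
def PrimeDivisorOver.localRing (E : PrimeDivisorOver K n) : Subalgebra ℂ K :=
  valRing E.ord E.ord_const

variable (n)

end FunctionField

/-! ## Varieties -/

section Scheme

variable {X : Scheme.{0}} (s : X ⟶ Spec (.of ℂ)) [IsIntegral X]

/-- The function field of a complex variety is a `ℂ`-algebra. -/
@[reducible]
def functionFieldAlgebra : Algebra ℂ X.functionField :=
  RingHom.toAlgebra ((Scheme.ΓSpecIso (.of ℂ)).inv ≫ s.appTop ≫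
    X.presheaf.germ ⊤ (genericPoint X) (TopologicalSpace.Opens.mem_top _)).hom

/-- The local ring of a complex variety at a point, as a subalgebra of the function field. -/
def localRingAt (x : X) :
    letI := functionFieldAlgebra s
    Subalgebra ℂ X.functionField :=
  letI := functionFieldAlgebra s
  { (algebraMap (X.presheaf.stalk x) X.functionField).range with
    algebraMap_mem' := fun c => by
      refine ⟨((Scheme.ΓSpecIso (.of ℂ)).inv ≫ s.appTop ≫
        X.presheaf.germ ⊤ x (TopologicalSpace.Opens.mem_top _)).hom c, ?_⟩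
      change (((Scheme.ΓSpecIso (.of ℂ)).inv ≫ s.appTop ≫
        X.presheaf.germ ⊤ x (TopologicalSpace.Opens.mem_top _)) ≫
          X.presheaf.stalkSpecializes ((genericPoint_spec X).specializes trivial)).hom c =
        ((Scheme.ΓSpecIso (.of ℂ)).inv ≫ s.appTop ≫
          X.presheaf.germ ⊤ (genericPoint X) (TopologicalSpace.Opens.mem_top _)).hom c
      rw [Category.assoc, Category.assoc, X.presheaf.germ_stalkSpecializes] }

/-- `-K_X` is ample: every point of `X` has an open affine neighbourhood of the form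
`X_φ = {y | φ generates the sheaf of sections of -m K_X at y}` with `m ≥ 1` and
`φ ∈ H⁰(X, -m K_X)`. -/
def AntiAmple (n : ℕ) : Prop :=
  letI := functionFieldAlgebra s
  ∀ x : X, ∃ m : ℕ, 1 ≤ m ∧ ∃ φ ∈ antiSections n (localRingAt s) m, ∃ U : X.Opens,
    IsAffineOpen U ∧ x ∈ U ∧ ∀ y : X, y ∈ U ↔
      ∃ ω ∈ regularForms n (localRingAt s y), φ ω ≠ 0 ∧ (φ ω)⁻¹ ∈ localRingAt s y

end Scheme

/-- A Fano variety of dimension `n` over `ℂ`: a smooth projective variety of dimension `n` with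
ample anticanonical divisor. -/
structure FanoVariety (n : ℕ) where
  /-- the underlying scheme -/
  X : Scheme.{0}
  /-- the structure morphism -/
  str : X ⟶ Spec (.of ℂ)
  [integral : IsIntegral X]
  proper : IsProper str
  smooth : SmoothOfRelativeDimension n str
  ample : AntiAmple str n


end Pool.Agent.H23

end
end

section

set_option autoImplicit false

/-!
# Growth of analytic functions in terms of zeros of the real part on the sides of a rectangle
-/

namespace Pool.Agent.H24.Growth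

open Complex Set Metric Filter Topology

/-- An analytic logarithm on a convex open set. -/
lemma exists_log {U : Set ℂ} (hUo : IsOpen U) (hUc : Convex ℝ U) (hUn : U.Nonempty) {k : ℂ → ℂ}
    (hk : DifferentiableOn ℂ k U) (hk0 : ∀ w ∈ U, k w ≠ 0) :
    ∃ G : ℂ → ℂ, DifferentiableOn ℂ G U ∧ ∀ w ∈ U, exp (G w) = k w := by
  have hsc : IsSimplyConnected U := by
    have := hUc.contractibleSpace hUn
    exact SimplyConnectedSpace.ofContractible U
  obtain ⟨G, hGc, hGe⟩ := Complex.exists_continuousOn_eqOn_exp_comp hsc hUo hk.continuousOn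
    (by rintro ⟨w, hw, h0⟩; exact hk0 w hw h0)
  refine ⟨G, ?_, fun w hw => hGe hw⟩
  intro w0 hw0
  apply DifferentiableAt.differentiableWithinAt
  have hkd : DifferentiableAt ℂ k w0 := (hk w0 hw0).differentiableAt (hUo.mem_nhds hw0)
  have hGca : ContinuousAt G w0 := hGc.continuousAt (hUo.mem_nhds hw0)
  have hev : G =ᶠ[𝓝 w0] fun w => G w0 + log (k w / k w0) := by
    have h1 : ∀ᶠ w in 𝓝 w0, w ∈ U := hUo.mem_nhds hw0
    have h2 : ∀ᶠ w in 𝓝 w0, ‖G w - G w0‖ < Real.pi := by
      have : Tendsto (fun w => ‖G w - G w0‖) (𝓝 w0) (𝓝 ‖G w0 - G w0‖) :=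
        (hGca.sub continuousAt_const).norm
      rw [sub_self, norm_zero] at this
      exact this.eventually (gt_mem_nhds Real.pi_pos)
    filter_upwards [h1, h2] with w hw hw2
    have e1 : k w / k w0 = exp (G w - G w0) := by
      rw [Complex.exp_sub]
      have e2 : exp (G w) = k w := hGe hw
      have e3 : exp (G w0) = k w0 := hGe hw0
      rw [e2, e3]
    have h3 : |(G w - G w0).im| < Real.pi := (abs_im_le_norm _).trans_lt hw2
    rw [e1, Complex.log_exp (by linarith [(abs_lt.mp h3).1]) (abs_lt.mp h3).2.le]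
    ring
  refine DifferentiableAt.congr_of_eventuallyEq ?_ hev
  apply DifferentiableAt.const_add
  apply DifferentiableAt.clog (hkd.div_const _)
  rw [div_self (hk0 w0 hw0)]
  exact one_mem_slitPlane

end Pool.Agent.H24.Growth

end

section

/-!
# HE Fld: germs

`MF` is the ring of the functions which are meromorphic at `0`; `Fg 𝒰` its image in the field of the germs of all functions with respect to an ultrafilter `𝒰` on the punctured neighbourhoods of `0`; `pbF M`: the substitution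
of `τ ^ M`.
-/

set_option autoImplicit false

open Topology Filter Metric

namespace Pool.Agent.HE

/-- the ring of the functions which are meromorphic at `0` -/
noncomputable def MF : Subring (ℂ → ℂ) where
  carrier := {f | MeromorphicAt f 0}
  mul_mem' := fun ha hb => MeromorphicAt.mul ha hb
  one_mem' := MeromorphicAt.const (1 : ℂ) 0
  add_mem' := fun ha hb => MeromorphicAt.add ha hb
  zero_mem' := MeromorphicAt.const (0 : ℂ) 0
  neg_mem' := fun ha => MeromorphicAt.neg ha

variable (𝒰 𝒱 : Ultrafilter ℂ)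

/-- the field of all germs -/
abbrev Gm (𝒰 : Ultrafilter ℂ) : Type := Germ (𝒰 : Filter ℂ) ℂ

/-- the germ of a function -/
noncomputable def gr : (ℂ → ℂ) →+* Gm 𝒰 := Germ.coeRingHom (𝒰 : Filter ℂ)

theorem gr_surj : Function.Surjective (gr 𝒰) := fun x => Quot.exists_rep x

theorem gr_eq (f g : ℂ → ℂ) : gr 𝒰 f = gr 𝒰 g ↔ ∀ᶠ z in (𝒰 : Filter ℂ), f z = g z := Germ.coe_eq

/-- the germs of the meromorphic functions with respect to an ultrafilter -/
noncomputable def Fg : Subfield (Gm 𝒰) where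
  carrier := {x | ∃ f : ℂ → ℂ, MeromorphicAt f 0 ∧ (f : Germ (𝒰 : Filter ℂ) ℂ) = x}
  mul_mem' := by
    rintro _ _ ⟨f, hf, rfl⟩ ⟨g, hg, rfl⟩
    exact ⟨f * g, hf.mul hg, rfl⟩
  one_mem' := ⟨1, MeromorphicAt.const (1 : ℂ) 0, rfl⟩
  add_mem' := by
    rintro _ _ ⟨f, hf, rfl⟩ ⟨g, hg, rfl⟩
    exact ⟨f + g, hf.add hg, rfl⟩
  zero_mem' := ⟨0, MeromorphicAt.const (0 : ℂ) 0, rfl⟩
  neg_mem' := by
    rintro _ ⟨f, hf, rfl⟩
    exact ⟨-f, hf.neg, rfl⟩
  inv_mem' := by
    rintro _ ⟨f, hf, rfl⟩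
    exact ⟨f⁻¹, hf.inv, rfl⟩

/-- the germ of a function -/
noncomputable def φg : MF →+* Fg 𝒰 where
  toFun f := ⟨((f : ℂ → ℂ) : Germ (𝒰 : Filter ℂ) ℂ), (f : ℂ → ℂ), f.2, rfl⟩
  map_one' := rfl
  map_mul' _ _ := rfl
  map_zero' := rfl
  map_add' _ _ := rfl

theorem φg_surj : Function.Surjective (φg 𝒰) := by
  rintro ⟨_, f, hf, rfl⟩
  exact ⟨⟨f, hf⟩, rfl⟩

/-- the value of a function -/
noncomputable def ev (z : ℂ) : MF →+* ℂ := (Pi.evalRingHom (fun _ : ℂ => ℂ) z).comp MF.subtype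

theorem ev_apply (z : ℂ) (f : MF) : ev z f = (f : ℂ → ℂ) z := rfl

variable {𝒰 𝒱}

theorem φg_zero (h𝒰 : (𝒰 : Filter ℂ) ≤ 𝓝[≠] 0) {f : MF} (hf : φg 𝒰 f = 0) : ∀ᶠ z in 𝓝[≠] (0 : ℂ), ev z f = 0 := by
  have h1 : ∀ᶠ z in (𝒰 : Filter ℂ), (f : ℂ → ℂ) z = 0 := by
    have h2 : (((f : ℂ → ℂ) : Germ (𝒰 : Filter ℂ) ℂ)) = ((fun _ => (0 : ℂ)) : ℂ → ℂ) :=
      congrArg Subtype.val hf
    exact Germ.coe_eq.1 h2
  rcases f.2.eventually_eq_zero_or_eventually_ne_zero with h3 | h3
  · exact h3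
  · exfalso
    obtain ⟨z, hz1, hz2⟩ := (h1.and (h𝒰 h3)).exists
    exact hz2 hz1

theorem φg_of (h𝒰 : (𝒰 : Filter ℂ) ≤ 𝓝[≠] 0) {f : MF} (hf : ∀ᶠ z in 𝓝[≠] (0 : ℂ), ev z f = 0) : φg 𝒰 f = 0 := by
  refine Subtype.ext ?_
  exact Germ.coe_eq.2 (h𝒰 hf)

theorem Fg_charZero (h𝒰 : (𝒰 : Filter ℂ) ≤ 𝓝[≠] 0) : CharZero (Fg 𝒰) := by
  refine charZero_of_inj_zero fun n hn => ?_
  have h1 : φg 𝒰 (n : MF) = 0 := by rw [map_natCast]; exact hn
  obtain ⟨z, hz⟩ := (φg_zero h𝒰 h1).exists
  rw [map_natCast] at hz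
  exact_mod_cast hz

/-- the substitution `τ ^ M` -/
noncomputable def pb (M : ℕ) (hM : 0 < M) : MF →+* MF where
  toFun f := ⟨fun τ => (f : ℂ → ℂ) (τ ^ M), by
    have h1 : MeromorphicAt (f : ℂ → ℂ) ((0 : ℂ) ^ M) := by rw [zero_pow hM.ne']; exact f.2
    exact h1.comp_analyticAt (g := fun τ : ℂ => τ ^ M) (analyticAt_id.pow M)⟩
  map_one' := rfl
  map_mul' _ _ := rfl
  map_zero' := rfl
  map_add' _ _ := rfl

theorem tend_pow {M : ℕ} (hM : 0 < M) : Tendsto (fun τ : ℂ => τ ^ M) (𝓝[≠] 0) (𝓝[≠] 0) := by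
  refine tendsto_nhdsWithin_iff.2 ⟨?_, ?_⟩
  · have h1 : Tendsto (fun τ : ℂ => τ ^ M) (𝓝 0) (𝓝 ((0 : ℂ) ^ M)) := (continuous_pow M).tendsto 0
    rw [zero_pow hM.ne'] at h1
    exact h1.mono_left nhdsWithin_le_nhds
  · filter_upwards [self_mem_nhdsWithin] with τ hτ
    exact pow_ne_zero M hτ

theorem pb_ker (h𝒰 : (𝒰 : Filter ℂ) ≤ 𝓝[≠] 0) (h𝒱 : (𝒱 : Filter ℂ) ≤ 𝓝[≠] 0) {M : ℕ} (hM : 0 < M) : RingHom.ker (φg 𝒰) ≤ RingHom.ker ((φg 𝒱).comp (pb M hM)) := by
  intro f hf
  rw [RingHom.mem_ker] at hf ⊢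
  rw [RingHom.comp_apply]
  exact φg_of h𝒱 ((tend_pow hM).eventually (φg_zero h𝒰 hf))

/-- the substitution `τ ^ M` on germs -/
noncomputable def pbF (h𝒰 : (𝒰 : Filter ℂ) ≤ 𝓝[≠] 0) (h𝒱 : (𝒱 : Filter ℂ) ≤ 𝓝[≠] 0) {M : ℕ} (hM : 0 < M) : Fg 𝒰 →+* Fg 𝒱 :=
  (φg 𝒰).liftOfSurjective (φg_surj 𝒰) ⟨(φg 𝒱).comp (pb M hM), pb_ker h𝒰 h𝒱 hM⟩

theorem pbF_φg (h𝒰 : (𝒰 : Filter ℂ) ≤ 𝓝[≠] 0) (h𝒱 : (𝒱 : Filter ℂ) ≤ 𝓝[≠] 0) {M : ℕ} (hM : 0 < M) (f : MF) : pbF h𝒰 h𝒱 hM (φg 𝒰 f) = φg 𝒱 (pb M hM f) :=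
  (φg 𝒰).liftOfSurjective_comp_apply (φg_surj 𝒰) ⟨(φg 𝒱).comp (pb M hM), pb_ker h𝒰 h𝒱 hM⟩ f

/-- the field of germs is algebraically closed -/
theorem Gm_closed (𝒰 : Ultrafilter ℂ) : IsAlgClosed (Gm 𝒰) := by
  refine IsAlgClosed.of_exists_root (Gm 𝒰) fun p hp hirr => ?_
  have hdeg : 0 < p.natDegree := hirr.natDegree_pos
  have hrep : ∀ i, ∃ f : ℂ → ℂ, ((f : ℂ → ℂ) : Germ (𝒰 : Filter ℂ) ℂ) = p.coeff i := fun i => Quot.exists_rep (p.coeff i)
  choose f hf using hrep
  set n := p.natDegree with hn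
  set P : ℂ → Polynomial ℂ := fun z => Polynomial.X ^ n + ∑ i ∈ Finset.range n, Polynomial.C (f i z) * Polynomial.X ^ i with hP
  have hex : ∀ z, ∃ r : ℂ, (P z).eval r = 0 := by
    intro z
    have h1 : (∑ i ∈ Finset.range n, Polynomial.C (f i z) * Polynomial.X ^ i : Polynomial ℂ).degree < n := by
      rw [Finset.sum_range]
      exact Polynomial.degree_sum_fin_lt fun i => f i z
    have h2 : (P z).degree = n := by
      rw [hP]
      simp only
      rw [Polynomial.degree_add_eq_left_of_degree_lt, Polynomial.degree_X_pow]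
      rw [Polynomial.degree_X_pow]
      exact h1
    obtain ⟨r, hr⟩ := IsAlgClosed.exists_root (P z) (by rw [h2]; exact_mod_cast hdeg.ne')
    exact ⟨r, hr⟩
  choose r hr using hex
  refine ⟨gr 𝒰 r, ?_⟩
  have h3 : p.eval (gr 𝒰 r) = gr 𝒰 (fun z => (P z).eval (r z)) := by
    rw [hp.as_sum, Polynomial.eval_add, Polynomial.eval_pow, Polynomial.eval_X, Polynomial.eval_finsetSum]
    have h4 : ((fun z => (P z).eval (r z)) : ℂ → ℂ) = r ^ n + ∑ i ∈ Finset.range n, f i * r ^ i := by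
      funext z
      rw [hP]
      simp only
      rw [Polynomial.eval_add, Polynomial.eval_pow, Polynomial.eval_X, Polynomial.eval_finsetSum, Pi.add_apply, Pi.pow_apply, Finset.sum_apply]
      congr 1
      refine Finset.sum_congr rfl fun i _ => ?_
      rw [Polynomial.eval_mul, Polynomial.eval_C, Polynomial.eval_pow, Polynomial.eval_X, Pi.mul_apply, Pi.pow_apply]
    rw [h4, map_add, map_pow, map_sum]
    congr 1
    refine Finset.sum_congr rfl fun i _ => ?_
    rw [Polynomial.eval_mul, Polynomial.eval_C, Polynomial.eval_pow, Polynomial.eval_X, map_mul, map_pow, ← hf i]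
    rfl
  have h6 : ((fun z => (P z).eval (r z)) : ℂ → ℂ) = 0 := funext hr
  rw [h6, map_zero] at h3
  exact h3

end Pool.Agent.HE

end
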