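import Pool.Agent.H94.PX2.M11
import Pool.Agent.H94.PX2.M14

/-! The parts of this file: H17EF.PNDefs, H17LG.Variety, H62.SA.Defs, H7.Bir.Map, H62.Qe.Defs, H7.Qup.Defs, PX.S.Defs. -/

section

/-!
# EF PNDefs: holomorphic maps from a projective surface to a complex torus
-/

set_option autoImplicit false

open Topology Filter MvPolynomial

noncomputable section

namespace Pool.Agent.H17EF

open Pool.Agent.H17 (PN VanishesAt HolomorphicInto)

variable {N : ℕ}

/-- The closed subvariety of `ℙ^N` given by the homogeneous ideal `P`. -/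
def projVar (P : Ideal (MvPolynomial (Fin (N + 1)) ℂ)) : Set (PN N) :=
  {x | ∀ Q ∈ P, ∀ n, Q.IsHomogeneous n → VanishesAt Q x}

end Pool.Agent.H17EF

end
end

section

/-!
# Varieties of log general type, in terms of their function field

The definitions of `Pool.Agent.H17GT.Defs` and `Pool.Agent.H17LG.Defs` in terms of the definitions of
`Pool.Agent.H23.Fano` (rational forms `Form K k`, regular forms, prime divisors).
-/

open MvPolynomial
open Pool.Agent.H23.Fano (Form regularForms PrimeDivisorOver)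
open Pool.Agent.H17GT (coordFun functionField)

noncomputable section

namespace Pool.Agent.H17LG.Variety

section FunctionField

variable {K : Type} [Field K] [Algebra ℂ K] {k : ℕ}

/-- Let `K` be the function field of a variety of dimension `k`, let `ω` be a rational `k`-form and
`f ∈ K`. The rational `m`-canonical form `f ω^m` has a pole of order at most `p` along the prime
divisor `E`: one has `ω = g η` with `η` regular along `E` and `f g ^ m` has a pole of order at
most `p` along `E`. -/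
def PoleAtMost (p : ℕ) (E : PrimeDivisorOver K k) (m : ℕ) (f : K) (ω : Form K k) : Prop :=
  ∃ (g : K) (η : Form K k), η ∈ regularForms k E.localRing ∧ ω = g • η ∧
    0 ≤ E.ord (f * g ^ m) + p

/-- Let `U` be a variety of dimension `k` with function field `K`, and let `B` be the set of the
prime divisors over `K` whose centre lies in the boundary of a compactification of `U`. The variety
`U` is of log general type: for some `m ≥ 1` there are `m`-canonical forms `f₀ ω^m, …, f_r ω^m`,
regular along all prime divisors outside `B`, with poles of order at most `m` along the prime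
divisors in `B`, which define a generically finite rational map, that is, `K` is algebraic over
`ℂ(f₁/f₀, …, f_r/f₀)`. -/
def IsLogGeneralType (B : PrimeDivisorOver K k → Prop) : Prop :=
  ∃ m : ℕ, 1 ≤ m ∧ ∃ ω : Form K k, ω ≠ 0 ∧ ∃ (r : ℕ) (f : Fin (r + 1) → K), f 0 ≠ 0 ∧
    (∀ i E, (¬ B E → PoleAtMost 0 E m (f i) ω) ∧ (B E → PoleAtMost m E m (f i) ω)) ∧
    Algebra.IsAlgebraic (IntermediateField.adjoin ℂ (Set.range fun i => f i / f 0)) K

end FunctionField

section Subvariety

variable {N : ℕ} (P : Ideal (MvPolynomial (Fin (N + 1)) ℂ)) [P.IsPrime]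

/-- The function field of the closed subvariety of `ℙ^N` given by `P`. -/
def FunField : Type := functionField P

instance : Field (FunField P) := (inferInstance : Field (functionField P))

instance : Algebra ℂ (FunField P) := (inferInstance : Algebra ℂ (functionField P))

/-- The function `x_i / x_j` on the subvariety of `ℙ^N` given by `P`. -/
def ratio (i j : Fin (N + 1)) : FunField P :=
  (⟨coordFun P i / coordFun P j, IntermediateField.subset_adjoin _ _ ⟨i, j, rfl⟩⟩ :
    functionField P)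

end Subvariety

end Pool.Agent.H17LG.Variety

end
end

section

/-!
# SA Defs: locally closed subvarieties of `ℙ^N`

The complement in a closed subvariety of the common zero set of some forms, and its properness over an affine variety.
-/

set_option autoImplicit false

open MvPolynomial
open Pool.Agent.H23.Fano (PrimeDivisorOver)
open Pool.Agent.H17 (PN VanishesAt)
open Pool.Agent.H17GT (coordFun)
open Pool.Agent.H17LG.Variety (FunField ratio)

noncomputable section

namespace Pool.Agent.H62.SA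

variable {N : ℕ}

/-- The points of the zero locus of the homogeneous ideal `P` at which some of the forms `G m` does not
vanish. -/
def locVar (P : Ideal (MvPolynomial (Fin (N + 1)) ℂ)) {s : ℕ}
    (G : Fin s → MvPolynomial (Fin (N + 1)) ℂ) : Set (PN N) :=
  {x | (∀ Q ∈ P, ∀ n, Q.IsHomogeneous n → VanishesAt Q x) ∧ ∃ m, ¬ VanishesAt (G m) x}

/-- The centre of the prime divisor `E` on the closed subvariety of `ℙ^N` given by `P` lies in the
common zero set of the forms `G m`. -/
def OnBd (P : Ideal (MvPolynomial (Fin (N + 1)) ℂ)) [P.IsPrime] {s : ℕ}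
    (G : Fin s → MvPolynomial (Fin (N + 1)) ℂ) {k : ℕ} (E : PrimeDivisorOver (FunField P) k) : Prop :=
  ∃ j, coordFun P j ≠ 0 ∧ (∀ i, 0 ≤ E.ord (ratio P i j)) ∧
    ∀ m, 0 < E.ord (aeval (fun i => ratio P i j) (G m))

end Pool.Agent.H62.SA

end
end

section

/-!
# Bir Map: composition of holomorphic maps with rational maps

* `exists_comp`: the composition of a holomorphic map `f` into `ℙ^M` with the rational map given by forms `γ i` of the same degree, not all of them
  zero on `f`, is holomorphic: near every point divide the functions `γ i (φ z)` by their common zeros.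
* `pn_identity`: the identity theorem for maps into projective space.
-/

set_option autoImplicit false

open Topology Filter Metric MvPolynomial

noncomputable section

namespace Pool.Agent.H7.Bir

open Pool.Agent.H17 (PN VanishesAt HolomorphicInto)

variable {N M : ℕ}

/-- The values of the forms `γ i` at `x`. -/
def vals (γ : Fin (N + 1) → MvPolynomial (Fin (M + 1)) ℂ) (x : Fin (M + 1) → ℂ) : Fin (N + 1) → ℂ := fun i => eval x (γ i)

/-- The rational map given by the forms `γ i` (arbitrary value where it is not defined). -/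
def rmap (γ : Fin (N + 1) → MvPolynomial (Fin (M + 1)) ℂ) (x : PN M) : PN N :=
  open Classical in
  if h : vals γ x.rep ≠ 0 then Projectivization.mk ℂ _ h
  else Projectivization.mk ℂ (fun _ => 1) fun h => one_ne_zero (congrFun h 0)

end Pool.Agent.H7.Bir

end
end

section

/-!
# Qe Defs: coverings of quasi-projective varieties
-/

set_option autoImplicit false

open Topology Filter MvPolynomial

noncomputable section

namespace Pool.Agent.H62.Qe

open Pool.Agent.H17 (PN VanishesAt)
open Pool.Agent.H17EF (projVar)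
open Pool.Agent.H7.Bir (vals rmap)
open Pool.Agent.H62.SA (locVar)

variable {N M : ℕ}

/-- `p` is a surjective regular map `X' → X` of projective varieties. -/
structure IsReg (P : Ideal (MvPolynomial (Fin (N + 1)) ℂ)) (P' : Ideal (MvPolynomial (Fin (M + 1)) ℂ)) (p : PN M → PN N) : Prop where
  maps : ∀ y ∈ projVar P', p y ∈ projVar P
  surj : ∀ x ∈ projVar P, ∃ y ∈ projVar P', p y = x
  regular : ∀ y ∈ projVar P', ∃ (D : ℕ) (γ : Fin (N + 1) → MvPolynomial (Fin (M + 1)) ℂ), (∀ i, (γ i).IsHomogeneous D) ∧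
    vals γ y.rep ≠ 0 ∧ ∀ y' ∈ projVar P', vals γ y'.rep ≠ 0 → p y' = rmap γ y'

/-- `p : X' → X` is surjective and regular, and over the open subset `U` of `X` it is locally injective and has local holomorphic sections. -/
structure IsEtaleOver (P : Ideal (MvPolynomial (Fin (N + 1)) ℂ)) (P' : Ideal (MvPolynomial (Fin (M + 1)) ℂ)) {s s' : ℕ}
    (G : Fin s → MvPolynomial (Fin (N + 1)) ℂ) (G' : Fin s' → MvPolynomial (Fin (M + 1)) ℂ) (p : PN M → PN N) : Prop where
  reg : IsReg P P' p
  inv : ∀ y ∈ projVar P', p y ∈ locVar P G ↔ y ∈ locVar P' G'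
  locInj : ∀ (y : Fin (M + 1) → ℂ) (hy : y ≠ 0), Projectivization.mk ℂ y hy ∈ locVar P' G' → ∀ᶠ q in 𝓝 (y, y), ∀ (h : q.1 ≠ 0) (h' : q.2 ≠ 0),
    Projectivization.mk ℂ q.1 h ∈ projVar P' → Projectivization.mk ℂ q.2 h' ∈ projVar P' →
      p (Projectivization.mk ℂ q.1 h) = p (Projectivization.mk ℂ q.2 h') → Projectivization.mk ℂ q.1 h = Projectivization.mk ℂ q.2 h'
  locSec : ∀ (y : Fin (M + 1) → ℂ) (hy : y ≠ 0), Projectivization.mk ℂ y hy ∈ locVar P' G' →
    ∃ (x : Fin (N + 1) → ℂ) (hx : x ≠ 0) (τ : (Fin (N + 1) → ℂ) → Fin (M + 1) → ℂ), p (Projectivization.mk ℂ y hy) = Projectivization.mk ℂ x hx ∧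
      AnalyticAt ℂ τ x ∧ τ x = y ∧ ∀ᶠ x' in 𝓝 x, ∀ h : x' ≠ 0, Projectivization.mk ℂ x' h ∈ projVar P →
        ∃ h' : τ x' ≠ 0, Projectivization.mk ℂ (τ x') h' ∈ projVar P' ∧ p (Projectivization.mk ℂ (τ x') h') = Projectivization.mk ℂ x' h

end Pool.Agent.H62.Qe

end
end

section

/-!
# Qup Defs: dominant regular maps of quasi-projective varieties
-/

set_option autoImplicit false

open Topology Filter MvPolynomial

noncomputable section

namespace Pool.Agent.H7.Qup

open Pool.Agent.H17 (PN VanishesAt)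
open Pool.Agent.H62.SA (locVar)
open Pool.Agent.H7.Bir (vals rmap)

variable {N M : ℕ}

/-- `p` is a dominant regular map from the quasi-projective variety `U' = locVar P' G'` to the quasi-projective variety `U = locVar P G`. -/
structure IsDominantMap (P : Ideal (MvPolynomial (Fin (N + 1)) ℂ)) (P' : Ideal (MvPolynomial (Fin (M + 1)) ℂ)) {s s' : ℕ}
    (G : Fin s → MvPolynomial (Fin (N + 1)) ℂ) (G' : Fin s' → MvPolynomial (Fin (M + 1)) ℂ) (p : PN M → PN N) : Prop where
  /-- `p` maps `U'` into `U` -/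
  maps : ∀ y ∈ locVar P' G', p y ∈ locVar P G
  /-- near every point of `U'` the map `p` is given by forms of the same degree -/
  regular : ∀ y ∈ locVar P' G', ∃ (D : ℕ) (γ : Fin (N + 1) → MvPolynomial (Fin (M + 1)) ℂ), (∀ i, (γ i).IsHomogeneous D) ∧
    vals γ y.rep ≠ 0 ∧ ∀ y' ∈ locVar P' G', vals γ y'.rep ≠ 0 → p y' = rmap γ y'
  /-- the image is Zariski dense -/
  dense : ∀ (Q : MvPolynomial (Fin (N + 1)) ℂ) (n : ℕ), Q.IsHomogeneous n → (∀ y ∈ locVar P' G', VanishesAt Q (p y)) → Q ∈ P

end Pool.Agent.H7.Qup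

end
end

section

/-!
# Complements in families over complex tori: the definitions of the final theorem

`A = ℂ^n / Λ` is a complex torus, `n = k + 1`; `pt Λ y` is the point of `A` given by `y ∈ ℂ^n`.  `X` is a closed analytic subset of `A × ℙ^m`, that is a family of projective varieties over `A`.

* `IsCurveIn`, `IsHyperbolicModulo`, `KobayashiPositive`, `IsFiniteOver`: for a subset `T` of `A × ℙ^m` and a set `S` of special points of `A`, the holomorphic curves in `T`; hyperbolicity of `T` modulo the fibres over `S`; and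
  quasi-projective varieties with a map to `T` which is finite on the closure.
* `IsHolomorphicForm`: forms in `x ∈ ℂ^(m+1)` whose coefficients are holomorphic functions of `y`; `IsAnalytic`: closed analytic subsets of `A × ℙ^m`; `IsAnalyticIn`: of `A`.  `IsSemipositive`, `IsAmple`: `F` is a section of
  `L ⊠ O(d)`, `d > 0`, with `L` a semipositive (positive) line bundle on `A`.  `outside Λ X F`: the complement in `X` of the divisors `{F j = 0}`.
* `IsComplement`: the class of the complements `T` which are considered: `IsReducedDivisor` (divisors of `A × ℙ¹`), `IsHyperbolicOff` (families which are hyperbolic outside the fibres over `S`).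
-/

set_option autoImplicit false

open Topology Filter MvPolynomial
open Pool.Agent.H17 (PN VanishesAt HolomorphicInto puncturedDisc)
open Pool.Agent.H62.SA (locVar)
open Pool.Agent.H17EF (projVar)
open Pool.Agent.H7.Bir (vals rmap)

noncomputable section

namespace Pool.Agent.COT

/-- `ℂ^n` -/
abbrev Cn (n : ℕ) : Type := Fin n → ℂ

/-- the subgroups of `ℂ^(k+1)` -/
abbrev Sub (k : ℕ) : Type := AddSubgroup (Cn (k + 1))

variable {k : ℕ}

/-- the torus `ℂ^(k+1) / Λ` -/
abbrev Torus (Λ : Sub k) : Type := Cn (k + 1) ⧸ Λ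

/-- the point of the torus given by `y` -/
def pt (Λ : Sub k) (y : Cn (k + 1)) : Torus Λ := (y : Cn (k + 1) ⧸ Λ)

variable {N m q : ℕ}

/-- the product `A × ℙ^m` -/
abbrev Prd (Λ : Sub k) (m : ℕ) : Type := Torus Λ × PN m

/-- functions on `ℂ^(k+1)` with values in the polynomials in `m + 1` variables -/
abbrev Poly (k m : ℕ) : Type := Cn (k + 1) → MvPolynomial (Fin (m + 1)) ℂ

/-! ### Holomorphic curves -/

/-- `t` is holomorphic on the open set `U` as a map to the torus. -/
def HolomorphicIntoTorus (Λ : Sub k) (t : ℂ → Torus Λ) (U : Set ℂ) : Prop :=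
  ∀ z₀ ∈ U, ∃ h : ℂ → Cn (k + 1), AnalyticAt ℂ h z₀ ∧ ∀ᶠ z in 𝓝 z₀, t z = pt Λ (h z)

/-- `(t, g)` is a holomorphic map from the open set `U` to the subset `T` of `A × ℙ^m`. -/
structure IsCurveIn (Λ : Sub k) (T : Set (Prd Λ m)) (t : ℂ → Torus Λ) (g : ℂ → PN m) (U : Set ℂ) : Prop where
  torus : HolomorphicIntoTorus Λ t U
  proj : HolomorphicInto g U
  mem : ∀ z ∈ U, (t z, g z) ∈ T

/-- Hyperbolicity of the subset `T` of `A × ℙ^m` modulo the fibres over the subset `S` of `A`. -/
structure IsHyperbolicModulo (Λ : Sub k) (T : Set (Prd Λ m)) (S : Set (Torus Λ)) : Prop where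
  /-- there is a constant `C` such that the component in `A` of every holomorphic map from the unit disc to `T` has derivative at most `C` at `0` -/
  discs : ∃ C : ℝ, ∀ (h : ℂ → Cn (k + 1)) (g : ℂ → PN m), AnalyticAt ℂ h 0 → IsCurveIn Λ T (fun z => pt Λ (h z)) g (Metric.ball 0 1) → ‖deriv h 0‖ ≤ C
  /-- every entire curve in `T` lies in a fibre, and is constant if this is not a fibre over a point of `S` -/
  entire : ∀ (t : ℂ → Torus Λ) (g : ℂ → PN m), IsCurveIn Λ T t g Set.univ → ∀ z w, t z = t w ∧ (t z ∉ S → g z = g w)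
  /-- every holomorphic map from the punctured disc to `T` extends to a holomorphic map from the disc to `A × ℙ^m`, if it does not map into the fibres over `S`; the component in `A` extends in any case -/
  punctured : ∀ (t : ℂ → Torus Λ) (g : ℂ → PN m), IsCurveIn Λ T t g puncturedDisc →
    (∃ t' : ℂ → Torus Λ, HolomorphicIntoTorus Λ t' (Metric.ball 0 1) ∧ ∀ z ∈ puncturedDisc, t' z = t z) ∧
    ((∃ z ∈ puncturedDisc, t z ∉ S) → ∃ g' : ℂ → PN m, HolomorphicInto g' (Metric.ball 0 1) ∧ ∀ z ∈ puncturedDisc, g' z = g z)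

/-- The Kobayashi–Royden metric of the subset `T` of `A × ℙ^m` is bounded below near the nonempty fibres over the complement of `S` (the component in `ℙ^m`; homogeneous coordinates `φ`, Fubini–Study metric). -/
def KobayashiPositive (Λ : Sub k) (T : Set (Prd Λ m)) (S : Set (Torus Λ)) : Prop :=
  ∀ y : Cn (k + 1), pt Λ y ∉ S → (∃ p, (pt Λ y, p) ∈ T) → ∃ C : ℝ, ∀ᶠ y' : Cn (k + 1) in 𝓝 y, ∀ (t : ℂ → Torus Λ) (g : ℂ → PN m) (φ : ℂ → Cn (m + 1)),
    IsCurveIn Λ T t g (Metric.ball 0 1) → t 0 = pt Λ y' → AnalyticAt ℂ φ 0 → (∀ᶠ z in 𝓝 (0 : ℂ), ∃ h : φ z ≠ 0, g z = Projectivization.mk ℂ (φ z) h) →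
    ∀ i j, ‖φ 0 i * deriv φ 0 j - φ 0 j * deriv φ 0 i‖ ≤ C * ∑ i, ‖φ 0 i‖ ^ 2

/-- `U = locVar P G` is a quasi-projective variety, with closure `X` in `ℙ^N`, and `(u, v)` a holomorphic map from `X` to `A × ℙ^m` with finite fibres which maps `U` to `T`; a form on `ℙ^N`, not `0` on `X`, is `0` at the
points over `S`. -/
structure IsFiniteOver (P : Ideal (MvPolynomial (Fin (N + 1)) ℂ)) {s : ℕ} (G : Fin s → MvPolynomial (Fin (N + 1)) ℂ) (Λ : Sub k)
    (T : Set (Prd Λ m)) (S : Set (Torus Λ)) (u : PN N → Torus Λ) (v : PN N → PN m) : Prop where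
  /-- near every point of `X` the map `u` is given by holomorphic functions of the homogeneous coordinates -/
  torus : ∀ (x : Cn (N + 1)) (hx : x ≠ 0), Projectivization.mk ℂ x hx ∈ projVar P → ∃ υ : Cn (N + 1) → Cn (k + 1), AnalyticAt ℂ υ x ∧
    ∀ᶠ x' in 𝓝 x, ∀ hx' : x' ≠ 0, Projectivization.mk ℂ x' hx' ∈ projVar P → u (Projectivization.mk ℂ x' hx') = pt Λ (υ x')
  regular : ∀ x ∈ projVar P, ∃ (D : ℕ) (γ : Fin (m + 1) → MvPolynomial (Fin (N + 1)) ℂ), (∀ i, (γ i).IsHomogeneous D) ∧ vals γ x.rep ≠ 0 ∧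
    ∀ x' ∈ projVar P, vals γ x'.rep ≠ 0 → v x' = rmap γ x'
  finite : ∀ x ∈ projVar P, {x' | x' ∈ projVar P ∧ u x' = u x ∧ v x' = v x}.Finite
  maps : ∀ x ∈ locVar P G, (u x, v x) ∈ T
  special : ∃ (e : ℕ) (R : MvPolynomial (Fin (N + 1)) ℂ), R.IsHomogeneous e ∧ R ∉ P ∧ ∀ x ∈ projVar P, u x ∈ S → VanishesAt R x

/-! ### Families and divisors -/

/-- The torus is simple: a complex subspace `W ≠ 0` which is the real span of its lattice points is the whole space. -/
def IsSimple (Λ : Sub k) : Prop :=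
  ∀ W : Submodule ℂ (Cn (k + 1)), W ≠ ⊥ → (∀ v ∈ W, v ∈ Submodule.span ℝ {l : Cn (k + 1) | l ∈ Λ ∧ l ∈ W}) → W = ⊤

/-- `F y` is a form of degree `d` in `x ∈ ℂ^(m+1)` whose coefficients are holomorphic functions of `y` in the set `U` (used for open sets). -/
structure IsHolomorphicForm (U : Set (Cn (k + 1))) (F : Poly k m) (d : ℕ) : Prop where
  homogeneous : ∀ y ∈ U, (F y).IsHomogeneous d
  holomorphic : ∀ α, DifferentiableOn ℂ (fun y => (F y).coeff α) U

/-- `X` is a closed analytic subset of `A × ℙ^m`: near each fibre it is the set of the common zeros of finitely many forms. -/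
def IsAnalytic (Λ : Sub k) (X : Set (Prd Λ m)) : Prop :=
  ∀ y₀ : Cn (k + 1), ∃ (ρ : ℝ) (s : ℕ) (G : Fin s → Poly k m) (d : Fin s → ℕ), 0 < ρ ∧ (∀ i, IsHolomorphicForm (Metric.ball y₀ ρ) (G i) (d i)) ∧
    ∀ y ∈ Metric.ball y₀ ρ, ∀ p : PN m, (pt Λ y, p) ∈ X ↔ ∀ i, VanishesAt (G i y) p

/-- `S` is a closed analytic subset of `A`. -/
def IsAnalyticIn (Λ : Sub k) (S : Set (Torus Λ)) : Prop :=
  ∀ y₀ : Cn (k + 1), ∃ (s : ℕ) (f : Fin s → Cn (k + 1) → ℂ), (∀ i, AnalyticAt ℂ (f i) y₀) ∧ ∀ᶠ y : Cn (k + 1) in 𝓝 y₀, (pt Λ y ∈ S ↔ ∀ i, f i y = 0)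

/-- `F` is a section of `L ⊠ O(d)`, `d > 0`, for a line bundle `L` on `A`: the functions `‖F y x‖ exp (- ∑ ‖W j y‖²)` are `Λ`-periodic. -/
structure IsSection (Λ : Sub k) (F : Poly k m) {r : ℕ} (W : Fin r → Cn (k + 1) →L[ℂ] ℂ) : Prop where
  form : ∃ d, 0 < d ∧ IsHolomorphicForm Set.univ F d
  quasiPeriodic : ∀ l ∈ Λ, ∀ y, ∃ e : ℂ, ‖e‖ = Real.exp (∑ j, ‖W j (y + l)‖ ^ 2 - ∑ j, ‖W j y‖ ^ 2) ∧ F (y + l) = C e * F y

/-- The line bundle is semipositive. -/
def IsSemipositive (Λ : Sub k) (F : Poly k m) : Prop :=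
  ∃ (r : ℕ) (W : Fin r → Cn (k + 1) →L[ℂ] ℂ), IsSection Λ F W

/-- The line bundle is positive. -/
def IsAmple (Λ : Sub k) (F : Poly k m) : Prop :=
  ∃ (r : ℕ) (W : Fin r → Cn (k + 1) →L[ℂ] ℂ), (∀ y, (∀ j, W j y = 0) → y = 0) ∧ IsSection Λ F W

/-- The complement of the zeros of the `F j` in `X`. -/
def outside (Λ : Sub k) (X : Set (Prd Λ m)) (F : Fin q → Poly k m) : Set (Prd Λ m) :=
  {x | x ∈ X ∧ ∀ y : Cn (k + 1), pt Λ y = x.1 → ∀ j, ¬ VanishesAt (F j y) x.2}

/-! ### Divisors of `A × ℙ¹` -/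

/-- The binary form `f` has at least three zeros. -/
def HasThreeZeros (f : MvPolynomial (Fin 2) ℂ) : Prop :=
  ∃ p₁ p₂ p₃ : PN 1, VanishesAt f p₁ ∧ VanishesAt f p₂ ∧ VanishesAt f p₃ ∧ p₁ ≠ p₂ ∧ p₁ ≠ p₃ ∧ p₂ ≠ p₃

/-- The set of the other points of `A`. -/
def fewZeros (Λ : Sub k) (F : Poly k 1) : Set (Torus Λ) := {t | ∃ y : Cn (k + 1), pt Λ y = t ∧ ¬ HasThreeZeros (F y)}

/-- The divisor `{F = 0}` of `A × ℙ¹`, `A` simple, of degree `d ≥ 3` over `A`, is ample, has no multiple component and contains no hypersurface `Γ × ℙ¹`. -/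
structure IsReducedDivisor (Λ : Sub k) (F : Poly k 1) (d : ℕ) : Prop where
  simple : IsSimple Λ
  degree : 3 ≤ d
  form : IsHolomorphicForm Set.univ F d
  ample : IsAmple Λ F
  /-- over some point `y` the form has no multiple zeros -/
  simpleZeros : ∃ y, ∀ x : Cn 2, x ≠ 0 → eval x (F y) = 0 → ∃ i, eval x (pderiv i (F y)) ≠ 0
  /-- near a point where the form is `0` the zeros of `F y b`, `b` fixed, are not all such points -/
  codimension : ∀ y, F y = 0 → ∀ b : Cn 2, ∃ᶠ z in 𝓝 y, eval b (F z) = 0 ∧ F z ≠ 0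

/-! ### Hyperbolic families -/

/-- `g` is an entire curve in `ℙ^m` with bounded derivative (homogeneous coordinates `φ`, Fubini–Study metric). -/
def IsBrodyCurve (g : ℂ → PN m) : Prop :=
  ∃ (φ : ℂ → Cn (m + 1)) (C : ℝ), Differentiable ℂ φ ∧ ∀ z, (∃ h : φ z ≠ 0, g z = Projectivization.mk ℂ (φ z) h) ∧ ∀ i j, ‖φ z i * deriv φ z j - φ z j * deriv φ z i‖ ≤ C * ∑ i, ‖φ z i‖ ^ 2

/-- Near the fibre over `y₀` the union of the zeros of the `F j` in `X` contains finitely many families of hypersurface sections `{Q i = 0}` of the fibres of `X`, such that all entire curves with bounded derivative in the fibre over `y₀`,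
contained in or disjoint from each `{Q i = 0}`, are constant. -/
def HasHyperbolicFibre (Λ : Sub k) (X : Set (Prd Λ m)) (F : Fin q → Poly k m) (y₀ : Cn (k + 1)) : Prop :=
  ∃ (ρ : ℝ) (s : ℕ) (Q : Fin s → Poly k m) (e : Fin s → ℕ), 0 < ρ ∧ (∀ i, IsHolomorphicForm (Metric.ball y₀ ρ) (Q i) (e i)) ∧
    (∀ i, ∀ y ∈ Metric.ball y₀ ρ, ∀ p : PN m, (pt Λ y, p) ∈ X → VanishesAt (Q i y) p → ∃ j, VanishesAt (F j y) p) ∧
    ∀ g : ℂ → PN m, IsBrodyCurve g → (∀ z, (pt Λ y₀, g z) ∈ X) → (∀ i, (∀ z, VanishesAt (Q i y₀) (g z)) ∨ ∀ z, ¬ VanishesAt (Q i y₀) (g z)) → ∀ z w, g z = g w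

/-- In the fibre over `y` the union of the zeros of the `F j` contains `2 κ + 1` hypersurface sections of degree `e` in general position: any `κ + 1` of them have no common point. -/
def HasHypersurfaces (Λ : Sub k) (X : Set (Prd Λ m)) (F : Fin q → Poly k m) (κ e : ℕ) (y : Cn (k + 1)) : Prop :=
  ∃ Q : Fin (2 * κ + 1) → MvPolynomial (Fin (m + 1)) ℂ, (∀ s, (Q s).IsHomogeneous e) ∧ (∀ s, ∀ p : PN m, (pt Λ y, p) ∈ X → VanishesAt (Q s) p → ∃ j, VanishesAt (F j y) p) ∧
    ∀ I : Finset (Fin (2 * κ + 1)), I.card = κ + 1 → ∀ p : PN m, (pt Λ y, p) ∈ X → ∃ s ∈ I, ¬ VanishesAt (Q s) p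

/-- The part of the affine line `z ↦ y + z a` outside `S`. -/
def line (Λ : Sub k) (S : Set (Torus Λ)) (y a : Cn (k + 1)) : Set ℂ := {z | pt Λ (y + z • a) ∉ S}

/-- `g` is a holomorphic section of `X` over the affine line `z ↦ y + z a`, outside the fibres over `S`, which is contained in or disjoint from the set of zeros of each `F j`. -/
structure IsSectionOver (Λ : Sub k) (X : Set (Prd Λ m)) (F : Fin q → Poly k m) (S : Set (Torus Λ)) (y a : Cn (k + 1)) (g : ℂ → PN m) : Prop where
  holomorphic : HolomorphicInto g (line Λ S y a)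
  mem : ∀ z ∈ line Λ S y a, (pt Λ (y + z • a), g z) ∈ X
  inOrOff : ∀ j, (∀ z ∈ line Λ S y a, VanishesAt (F j (y + z • a)) (g z)) ∨ ∀ z ∈ line Λ S y a, ¬ VanishesAt (F j (y + z • a)) (g z)

/-- The hypotheses on the divisors `{F j = 0}` of `X`, whose complement is hyperbolic outside the fibres over the closed analytic subset `S` of `A`. -/
structure IsHyperbolicOff (Λ : Sub k) (X : Set (Prd Λ m)) (F : Fin q → Poly k m) (S : Set (Torus Λ)) : Prop where
  analytic : IsAnalytic Λ X
  sections : ∀ j, IsSemipositive Λ (F j)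
  special : IsAnalyticIn Λ S
  /-- `S` contains no image of an affine line of `ℂ^n` (for example `A` is simple and `S ≠ A`) -/
  noLines : (IsSimple Λ ∧ S ≠ Set.univ) ∨ ∀ a y : Cn (k + 1), a ≠ 0 → (line Λ S y a).Nonempty
  /-- no section of `X` over an affine line is contained in all ample divisors (for example these have no common point outside the fibres over `S`) -/
  noSections : ∀ (y a : Cn (k + 1)) (g : ℂ → PN m), a ≠ 0 → IsSectionOver Λ X F S y a g → ∃ j, IsAmple Λ (F j) ∧ ∃ z ∈ line Λ S y a, ¬ VanishesAt (F j (y + z • a)) (g z)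
  /-- for example `Q = F`, or the `{Q i = 0}` are `2 κ + 1` hypersurface sections, any `κ + 1` of which have no common point -/
  fibres : ∀ y : Cn (k + 1), pt Λ y ∉ S → HasHyperbolicFibre Λ X F y
  overSpecial : ∀ y₀ : Cn (k + 1), pt Λ y₀ ∈ S → ∃ κ e, 0 < e ∧ ∀ᶠ y : Cn (k + 1) in 𝓝 y₀, pt Λ y ∉ S → HasHypersurfaces Λ X F κ e y

/-! ### The class -/

/-- The complements `T` in families of projective varieties over the torus `A`, with the set `S` of special points of `A`. -/
inductive IsComplement (Λ : Sub k) : ∀ {m : ℕ}, Set (Prd Λ m) → Set (Torus Λ) → Prop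
  /-- the complement of a reduced ample divisor of degree `d ≥ 3` of `A × ℙ¹`, `A` simple; `S` is the set of the points over which there are less than three points of the divisor -/
  | reduced (F : Poly k 1) (d : ℕ) : IsReducedDivisor Λ F d → IsComplement Λ (outside Λ Set.univ fun _ : Fin 1 => F) (fewZeros Λ F)
  /-- the complement of divisors which is hyperbolic outside the fibres over `S` -/
  | hyperbolicOff (m q : ℕ) (X : Set (Prd Λ m)) (F : Fin q → Poly k m) (S : Set (Torus Λ)) : IsHyperbolicOff Λ X F S → IsComplement Λ (outside Λ X F) S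

end Pool.Agent.COT

end
end
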