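import Mathlib

/-! The parts of this file: EG.LE.Har, H17.LinePoly, H92.GGL.CasWei. -/

section

/-!
# EG LE Har: the Harnack inequality

Proof (helper41):
Let a = H c, Re a > 0.  phi z := (H z - a) / (H z + conj a) is holomorphic on the ball (Re (H z + conj a) > 0), maps it to the unit disc (‖w - a‖ < ‖w + conj a‖ for Re w, Re a > 0), phi c = 0.
Schwarz lemma (Complex.norm_le_norm_of_mapsTo_ball_self / dist_le_mul_div_dist, applied on ball c r): ‖phi z‖ ≤ s := ‖z - c‖ / r < 1.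
So ‖H z - a‖ ≤ s ‖H z + conj a‖.  Write H z = x + i y', a = x0 + i y0: (x - x0)^2 + (y' - y0)^2 ≤ s^2 ((x + x0)^2 + (y' - y0)^2), hence (x - x0)^2 ≤ s^2 (x + x0)^2 (s < 1), so
x0 - x ≤ s (x + x0), x ≥ x0 (1 - s) / (1 + s).
-/

set_option autoImplicit false

open Topology Filter Metric Set

namespace Pool.Agent.EG.LE

theorem harnack {H : ℂ → ℂ} {c : ℂ} {r : ℝ} (hr : 0 < r) (hH : DifferentiableOn ℂ H (ball c r)) (hpos : ∀ z ∈ ball c r, 0 < (H z).re) {z : ℂ}
    (hz : z ∈ ball c r) : (H c).re * ((r - ‖z - c‖) / (r + ‖z - c‖)) ≤ (H z).re := by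
  have hcb : c ∈ ball c r := mem_ball_self hr
  have hx0 := hpos c hcb
  have hden : ∀ w ∈ ball c r, H w + (starRingEnd ℂ) (H c) ≠ 0 := by
    intro w hw h0
    have h1 := congrArg Complex.re h0
    simp only [Complex.add_re, Complex.conj_re, Complex.zero_re] at h1
    have := hpos w hw
    linarith
  have hd : DifferentiableOn ℂ (fun w => (H w - H c) / (H w + (starRingEnd ℂ) (H c))) (ball c r) :=
    (hH.sub_const _).div (hH.add_const _) hden
  have hsq : ∀ w, Complex.normSq (H w + (starRingEnd ℂ) (H c)) - Complex.normSq (H w - H c) =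
      4 * (H w).re * (H c).re := by
    intro w
    rw [Complex.normSq_apply, Complex.normSq_apply]
    simp only [Complex.add_re, Complex.conj_re, Complex.sub_re, Complex.sub_im, Complex.add_im,
      Complex.conj_im]
    ring
  have hm : MapsTo (fun w => (H w - H c) / (H w + (starRingEnd ℂ) (H c))) (ball c r)
      (closedBall ((H c - H c) / (H c + (starRingEnd ℂ) (H c))) 1) := by
    intro w hw
    rw [sub_self, zero_div, mem_closedBall, dist_zero_right, norm_div]
    have h1 : ‖H w - H c‖ ≤ ‖H w + (starRingEnd ℂ) (H c)‖ := by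
      rw [← abs_norm (H w - H c), ← abs_norm (H w + (starRingEnd ℂ) (H c)), ← sq_le_sq,
        ← Complex.normSq_eq_norm_sq, ← Complex.normSq_eq_norm_sq]
      have h2 := hsq w
      have h3 := mul_pos (hpos w hw) hx0
      nlinarith
    exact div_le_one_of_le₀ h1 (norm_nonneg _)
  have hS := Complex.dist_le_div_mul_dist_of_mapsTo_ball hd hm hz
  simp only [sub_self, zero_div, dist_zero_right, norm_div] at hS
  rw [dist_eq_norm] at hS
  set t := ‖z - c‖ with ht
  have ht0 : 0 ≤ t := norm_nonneg _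
  have htr : t < r := by
    rw [mem_ball, dist_eq_norm] at hz
    exact hz
  have hzp := hpos z hz
  have hnp : 0 < ‖H z + (starRingEnd ℂ) (H c)‖ := norm_pos_iff.2 (hden z hz)
  rw [div_le_iff₀ hnp] at hS
  have hS2 : r * ‖H z - H c‖ ≤ t * ‖H z + (starRingEnd ℂ) (H c)‖ := by
    have h1 := mul_le_mul_of_nonneg_left hS hr.le
    have h2 : r * (1 / r * t * ‖H z + (starRingEnd ℂ) (H c)‖) =
        t * ‖H z + (starRingEnd ℂ) (H c)‖ := by
      field_simp
    linarith
  have hS3 : r ^ 2 * Complex.normSq (H z - H c) ≤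
      t ^ 2 * Complex.normSq (H z + (starRingEnd ℂ) (H c)) := by
    rw [Complex.normSq_eq_norm_sq, Complex.normSq_eq_norm_sq, ← mul_pow, ← mul_pow]
    exact pow_le_pow_left₀ (by positivity) hS2 2
  rw [Complex.normSq_apply, Complex.normSq_apply] at hS3
  simp only [Complex.add_re, Complex.conj_re, Complex.sub_re, Complex.sub_im, Complex.add_im,
    Complex.conj_im] at hS3
  set x := (H z).re
  set x0 := (H c).re
  set y := (H z).im
  set y0 := (H c).im
  have hS4 : (r * (x0 - x)) ^ 2 ≤ (t * (x + x0)) ^ 2 := by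
    have h1 : 0 ≤ (r ^ 2 - t ^ 2) * (y - y0) ^ 2 := by
      apply mul_nonneg _ (sq_nonneg _)
      nlinarith
    nlinarith
  have hS5 : r * (x0 - x) ≤ t * (x + x0) :=
    (abs_le_of_sq_le_sq' hS4 (by positivity)).2
  rw [← mul_div_assoc, div_le_iff₀ (by linarith)]
  nlinarith

end Pool.Agent.EG.LE

end

section

/-!
# Restriction of a polynomial to the lines through a point
-/

open MvPolynomial

namespace Pool.Agent.H17

variable {σ : Type}

/-- Evaluation of a homogeneous polynomial at a multiple of a vector. -/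
lemma eval_smul_of_isHomogeneous {P : MvPolynomial σ ℂ} {d : ℕ} (hP : P.IsHomogeneous d)
    (c : ℂ) (x : σ → ℂ) : eval (fun i => c * x i) P = c ^ d * eval x P := by
  classical
  rw [eval_eq, eval_eq, Finset.mul_sum]
  refine Finset.sum_congr rfl ?_
  intro m hm
  have hdeg : m.degree = d := by
    by_contra hne
    exact (mem_support_iff.mp hm) (hP.coeff_eq_zero hne)
  have : ∏ i ∈ m.support, (c * x i) ^ m i = c ^ d * ∏ i ∈ m.support, x i ^ m i := by
    simp_rw [mul_pow]
    rw [Finset.prod_mul_distrib, Finset.prod_pow_eq_pow_sum]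
    congr 2
  rw [this]
  ring

end Pool.Agent.H17

end

section

/-!
# A function which takes every value finitely often near a puncture
-/

open Complex Metric Set Topology Filter

namespace Pool.Agent.H92.GGL

lemma isPreconnected_punctured (R : ℝ) : IsPreconnected {z : ℂ | 0 < ‖z‖ ∧ ‖z‖ < R} := by
  rcases le_or_gt R 0 with hR | hR
  · have : {z : ℂ | 0 < ‖z‖ ∧ ‖z‖ < R} = ∅ := by
      ext z
      simp only [mem_ofPred_eq, mem_empty_iff_false, iff_false, not_and, not_lt]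
      intro h
      linarith
    rw [this]
    exact isPreconnected_empty
  · have h1 : {z : ℂ | 0 < ‖z‖ ∧ ‖z‖ < R} = exp '' {τ : ℂ | τ.re < Real.log R} := by
      ext z
      constructor
      · rintro ⟨h1, h2⟩
        refine ⟨log z, ?_, exp_log (norm_pos_iff.mp h1)⟩
        rw [mem_ofPred_eq, log_re]
        exact Real.log_lt_log h1 h2
      · rintro ⟨τ, hτ, rfl⟩
        rw [mem_ofPred_eq, norm_exp]
        refine ⟨Real.exp_pos _, ?_⟩
        rw [← Real.exp_log hR]
        exact Real.exp_lt_exp.mpr hτ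
    rw [h1]
    exact ((convex_halfSpace_re_lt _).isPreconnected).image _ continuous_exp.continuousOn

lemma isOpen_punctured (R : ℝ) : IsOpen {z : ℂ | 0 < ‖z‖ ∧ ‖z‖ < R} :=
  (isOpen_lt continuous_const continuous_norm).inter (isOpen_lt continuous_norm continuous_const)

lemma punctured_mem {R : ℝ} (hR : 0 < R) : {z : ℂ | 0 < ‖z‖ ∧ ‖z‖ < R} ∈ 𝓝[≠] (0 : ℂ) := by
  have h1 : Metric.ball (0 : ℂ) R ∈ 𝓝 (0 : ℂ) := Metric.ball_mem_nhds _ hR
  filter_upwards [mem_nhdsWithin_of_mem_nhds h1, self_mem_nhdsWithin] with z h2 h3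
  exact ⟨norm_pos_iff.mpr h3, by simpa using h2⟩

/-- A bounded holomorphic function on a punctured disc is meromorphic at the puncture. -/
lemma meromorphicAt_of_bounded {u : ℂ → ℂ} {ε M : ℝ} (hε : 0 < ε)
    (hu : ∀ z, 0 < ‖z‖ → ‖z‖ < ε → AnalyticAt ℂ u z) (hM : ∀ z, 0 < ‖z‖ → ‖z‖ < ε → ‖u z‖ ≤ M) :
    ∃ w : ℂ → ℂ, AnalyticAt ℂ w 0 ∧ ∀ z, z ≠ 0 → w z = u z := by
  have h1 : Metric.ball (0 : ℂ) ε ∈ 𝓝 (0 : ℂ) := Metric.ball_mem_nhds _ hε
  have hmem : ∀ z ∈ Metric.ball (0 : ℂ) ε \ {0}, 0 < ‖z‖ ∧ ‖z‖ < ε := by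
    intro z hz
    refine ⟨norm_pos_iff.mpr hz.2, by simpa using hz.1⟩
  have h2 := differentiableOn_update_limUnder_of_bddAbove h1 (f := u)
    (fun z hz => (hu z (hmem z hz).1 (hmem z hz).2).differentiableAt.differentiableWithinAt) (by
      refine ⟨M, ?_⟩
      rintro _ ⟨z, hz, rfl⟩
      exact hM z (hmem z hz).1 (hmem z hz).2)
  refine ⟨_, (h2.analyticAt h1), fun z hz => ?_⟩
  rw [Function.update_of_ne hz]

/-- **A theorem of Casorati–Weierstrass type.** -/
theorem meromorphicAt_of_omits {u : ℂ → ℂ} {ε : ℝ} (hε : 0 < ε)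
    (hu : ∀ z, 0 < ‖z‖ → ‖z‖ < ε → AnalyticAt ℂ u z)
    (hom : ∀ c, ∃ δ : ℝ, 0 < δ ∧ ∀ z, 0 < ‖z‖ → ‖z‖ < δ → u z ≠ c) : MeromorphicAt u 0 := by
  set A : ℕ → Set ℂ := fun n => {z : ℂ | 0 < ‖z‖ ∧ ‖z‖ < ε / (n + 1)} with hA
  have hεn : ∀ n : ℕ, 0 < ε / (n + 1) := fun n => by positivity
  have hεle : ∀ n : ℕ, ε / (n + 1) ≤ ε := fun n => by
    apply div_le_self hε.le
    have : (0 : ℝ) ≤ n := Nat.cast_nonneg n
    linarith
  have hAsub : ∀ n, ∀ z ∈ A n, 0 < ‖z‖ ∧ ‖z‖ < ε := fun n z hz =>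
    ⟨hz.1, hz.2.trans_le (hεle n)⟩
  by_cases hdense : ∀ n, Dense (u '' A n)
  · exfalso
    have hopen : ∀ n, IsOpen (u '' A n) := by
      intro n
      have han : AnalyticOnNhd ℂ u (A n) := fun z hz => hu z (hAsub n z hz).1 (hAsub n z hz).2
      rcases han.is_constant_or_isOpen (isPreconnected_punctured _) with ⟨w, hw⟩ | hop
      · exfalso
        obtain ⟨δ, hδ, hδu⟩ := hom w
        obtain ⟨z, hz1, hz2⟩ := Filter.nonempty_of_mem
          (Filter.inter_mem (punctured_mem (hεn n)) (punctured_mem hδ))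
        exact hδu z hz2.1 hz2.2 (hw z hz1)
      · exact hop _ subset_rfl (isOpen_punctured _)
    have hD : Dense (⋂ n, u '' A n) := dense_iInter_of_isOpen hopen hdense
    obtain ⟨c, hc⟩ := hD.nonempty
    rw [mem_iInter] at hc
    obtain ⟨δ, hδ, hδu⟩ := hom c
    obtain ⟨n, hn⟩ := exists_nat_gt (ε / δ)
    obtain ⟨z, hz, hzc⟩ := hc n
    refine hδu z hz.1 (hz.2.trans ?_) hzc
    rw [div_lt_iff₀ (by positivity)]
    rw [div_lt_iff₀ hδ] at hn
    nlinarith
  · push Not at hdense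
    obtain ⟨n, hn⟩ := hdense
    obtain ⟨c, hc⟩ : ∃ c, c ∉ closure (u '' A n) := by
      by_contra h
      push Not at h
      exact hn h
    rw [Metric.mem_closure_iff] at hc
    push Not at hc
    obtain ⟨η, hη, hηu⟩ := hc
    have hlow : ∀ z, 0 < ‖z‖ → ‖z‖ < ε / (n + 1) → η ≤ ‖u z - c‖ := by
      intro z h1 h2
      have := hηu _ ⟨z, ⟨h1, h2⟩, rfl⟩
      rwa [dist_comm, dist_eq_norm] at this
    have hne : ∀ z, 0 < ‖z‖ → ‖z‖ < ε / (n + 1) → u z - c ≠ 0 := by
      intro z h1 h2 h0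
      have := hlow z h1 h2
      rw [h0, norm_zero] at this
      linarith
    obtain ⟨w, hw, hwu⟩ := meromorphicAt_of_bounded (u := fun z => (u z - c)⁻¹) (M := η⁻¹) (hεn n)
      (fun z h1 h2 => ((hu z h1 (h2.trans_le (hεle n))).sub analyticAt_const).inv (hne z h1 h2))
      (fun z h1 h2 => by
        rw [norm_inv]
        exact inv_anti₀ hη (hlow z h1 h2))
    have h1 : MeromorphicAt (fun z => (w z)⁻¹ + c) 0 :=
      (hw.meromorphicAt.inv).add (MeromorphicAt.const c 0)
    refine h1.congr ?_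
    filter_upwards [self_mem_nhdsWithin] with z hz
    rw [hwu z hz]
    simp

end Pool.Agent.H92.GGL

end
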