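import Pool.Agent.H94.PX2.H14.PP.Defs
import Pool.Agent.H94.PX2.M05

/-! The parts of this file: AD.Defs_1, G3.Defs_1, TG.Gd. -/

section

/-!
# AD Defs: charts of projective manifolds of dimension `d`, bivector forms

`X` is the cone (without `0`) over a smooth projective variety of dimension `d`, in `EN N = ℂ^(N+1)` with the Euclidean norm (`H14.PP.IsCone`).  The model space is `Vd d = Fin d → ℂ` with the
supremum norm.
-/

set_option autoImplicit false

open Topology Filter Metric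

namespace Pool.Agent.AD

open Pool.Agent.H36.BP (EN fs wd)
open Pool.Agent.H14.PP (IsCone CurveAt Tan)

variable {N : ℕ}

/-- A chart of the manifold whose cone is `X`: `σ` is a lift of the inverse of the chart, defined on the polydisc of radius `2`, `U` is an open cone, and `q` the chart, `d` holomorphic
functions on `U` which are invariant under scaling. -/
structure Chart (d : ℕ) (X : Set (EN N)) where
  /-- the parametrization -/
  σ : Vd d → EN N
  /-- the domain -/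
  U : Set (EN N)
  /-- the coordinates -/
  q : EN N → Vd d
  isOpen_U : IsOpen U
  smul_U : ∀ x ∈ U, ∀ c : ℂ, c ≠ 0 → c • x ∈ U
  σ_an : ∀ p ∈ ball (0 : Vd d) 2, AnalyticAt ℂ σ p
  q_an : ∀ x ∈ U, AnalyticAt ℂ q x
  q_smul : ∀ x ∈ U, ∀ c : ℂ, c ≠ 0 → q (c • x) = q x
  σ_mem : ∀ p ∈ ball (0 : Vd d) 2, σ p ∈ X ∧ σ p ∈ U ∧ q (σ p) = p
  surj : ∀ x ∈ X, x ∈ U → q x ∈ ball (0 : Vd d) 2 ∧ ∃ c : ℂ, c ≠ 0 ∧ x = c • σ (q x)

/-- `X` is smooth: there are charts -/
def Charts (d : ℕ) (X : Set (EN N)) : Prop := ∀ x ∈ X, ∃ χ : Chart d X, x ∈ χ.U ∧ χ.q x = 0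

end Pool.Agent.AD

end

section

/-!
# G3 Defs: curves over arcs, symmetric differentials, the functional

`X` is the cone (without `0`) over a projective manifold, `u` a holomorphic map to `ℂ^(k+1) / Λ` (conventions of `TG.Defs`).

* `Cv X Λ u U F h`: `F` is a holomorphic curve in `X` over the set `U` (used for open sets), `h` a lift of `u ∘ F`.
* `SForm X Λ u m`: symmetric differentials of degree `m` on `{(x, y) : u x = y mod Λ}` with values in `O(-1)`.
* `PData`: finitely many symmetric differentials without common zeros outside `D`, quasi-periodic with respect to the weight `wt W y = ∑ |W i y|²`.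
* `PS`: the properties of the real valued function `p (x, v) = max_j |P_j (x, v)|` (metrics of `O(-1)` and of the weight) which are used in the sequel.
* `QD`: the form `Q`, of degree `d`, `|Q x| ≤ |x|^d` on `X`; `Lq Q d x = - log (|Q x| / |x|^d) ≥ 0`.
* `Np = max (0, log (|h'|^m / p (F, F')))`, `Lam = Lq + K Np`, `Mf = max (|h'|, ε p (F, F')^(1/m))`.  (If `h' = 0` then `Np = 0`.  These definitions are used only at
  points where `Ok` holds: `Q (F z) ≠ 0` and `0 < p (F z) (F' z)`.)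
-/

set_option autoImplicit false

open Topology Filter Metric

namespace Pool.Agent.G3

open Pool.Agent.H36.BP (EN fs wd)
open Pool.Agent.H14.PP (IsCone CurveAt Tan)
open Pool.Agent.AD (Vd)
open Pool.Agent.TG (Gd)

variable {N k : ℕ}

/-- `F` is a holomorphic curve in `X` over `U`, and `h` is a lift of `u ∘ F` -/
structure Cv (X : Set (EN N)) (Λ : AddSubgroup (Vd (k + 1))) (u : EN N → Vd (k + 1)) (U : Set ℂ) (F : ℂ → EN N) (h : ℂ → Vd (k + 1)) : Prop where
  F_diff : DifferentiableOn ℂ F U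
  h_diff : DifferentiableOn ℂ h U
  mem : ∀ z ∈ U, F z ∈ X
  lift : ∀ z ∈ U, u (F z) - h z ∈ Λ

/-- A symmetric differential of degree `m` on `{(x, y) : u x = y mod Λ}` with values in `O(-1)`: a function of `y`, a point `x` and a tangent vector `v`. -/
structure SForm (X : Set (EN N)) (Λ : AddSubgroup (Vd (k + 1))) (u : EN N → Vd (k + 1)) (m : ℕ) where
  /-- the form -/
  toFun : Vd (k + 1) → EN N → EN N → ℂ
  add_smul : ∀ y, ∀ x ∈ X, u x - y ∈ Λ → ∀ v, Tan X x v → ∀ a : ℂ, toFun y x (v + a • x) = toFun y x v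
  hom : ∀ y, ∀ x ∈ X, u x - y ∈ Λ → ∀ v, Tan X x v → ∀ a : ℂ, toFun y x (a • v) = a ^ m * toFun y x v
  scale : ∀ y, ∀ x ∈ X, u x - y ∈ Λ → ∀ v, Tan X x v → ∀ c : ℂ, c ≠ 0 → c * toFun y (c • x) (c • v) = toFun y x v
  analytic : ∀ (r : ℕ) (φ : Vd r → EN N) (υ : Vd r → Vd (k + 1)) (p w : Vd r), AnalyticAt ℂ φ p → AnalyticAt ℂ υ p →
    (∀ᶠ q in 𝓝 p, φ q ∈ X ∧ u (φ q) - υ q ∈ Λ) →
    AnalyticAt ℂ (fun q : Vd r × Vd r => toFun (υ q.1) (φ q.1) (fderiv ℂ φ q.1 q.2)) (p, w)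

/-- the value of `p` on the curve `F` -/
noncomputable def pf (p : EN N → EN N → ℝ) (F : ℂ → EN N) (z : ℂ) : ℝ := p (F z) (deriv F z)

/-- `circleAverage (log |F|) z r - log |F z|` -/
noncomputable def TT (F : ℂ → EN N) (z : ℂ) (r : ℝ) : ℝ := Real.circleAverage (fun w => Real.log ‖F w‖) z r - Real.log ‖F z‖

/-- the properties of the function `p` -/
structure PS (X : Set (EN N)) (Λ : AddSubgroup (Vd (k + 1))) (u : EN N → Vd (k + 1)) (D : Set (Vd (k + 1))) (p : EN N → EN N → ℝ) (m : ℕ) (C : ℝ) :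
    Prop where
  m_pos : 1 ≤ m
  C_ge : 1 ≤ C
  nonneg : ∀ x v, 0 ≤ p x v
  hom : ∀ x ∈ X, ∀ v, Tan X x v → ∀ a : ℂ, p x (a • v) = ‖a‖ ^ m * p x v
  le_fs : ∀ x ∈ X, ∀ v, Tan X x v → p x v ≤ C * fs x v ^ m
  ge_fs : ∀ δ : ℝ, 0 < δ → ∃ c : ℝ, 0 < c ∧ ∀ y ∈ Gd D δ, ∀ x ∈ X, u x - y ∈ Λ → ∀ v, Tan X x v → c * fs x v ^ m ≤ p x v
  /-- the derivative of `u` is bounded -/
  du : ∀ (U : Set ℂ) (F : ℂ → EN N) (h : ℂ → Vd (k + 1)), IsOpen U → Cv X Λ u U F h → ∀ z ∈ U, ‖deriv h z‖ ≤ C * fs (F z) (deriv F z)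
  cont : ∀ (U : Set ℂ) (F : ℂ → EN N) (h : ℂ → Vd (k + 1)), IsOpen U → Cv X Λ u U F h → ContinuousOn (pf p F) U
  /-- Jensen's inequality -/
  jensen : ∀ (U : Set ℂ) (F : ℂ → EN N) (h : ℂ → Vd (k + 1)), IsOpen U → Cv X Λ u U F h → ∀ (z : ℂ) (r : ℝ), 0 < r → closedBall z r ⊆ U →
    0 < pf p F z → CircleIntegrable (fun w => Real.log (pf p F w)) z r ∧
    Real.log (pf p F z) + TT F z r ≤ Real.circleAverage (fun w => Real.log (pf p F w)) z r + C * Real.circleAverage (fun w => ‖h w - h z‖ ^ 2) z r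
  /-- the zeros of `p` on a curve are isolated, or `p` is `0` -/
  isol : ∀ (U : Set ℂ) (F : ℂ → EN N) (h : ℂ → Vd (k + 1)), IsOpen U → Cv X Λ u U F h → IsPreconnected U → (∃ z ∈ U, 0 < pf p F z) →
    ∀ z ∈ U, ∀ᶠ w in 𝓝[≠] z, 0 < pf p F w

/-- the form `Q` of degree `d`, `|Q x| ≤ |x|^d` on `X`; it is `0` on the fibres over `D` -/
structure QD (X : Set (EN N)) (Λ : AddSubgroup (Vd (k + 1))) (u : EN N → Vd (k + 1)) (D : Set (Vd (k + 1))) (Q : EN N → ℂ) (d : ℕ) : Prop where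
  d_pos : 1 ≤ d
  diff : Differentiable ℂ Q
  hom : ∀ (c : ℂ) (x : EN N), Q (c • x) = c ^ d * Q x
  bound : ∀ x ∈ X, ‖Q x‖ ≤ ‖x‖ ^ d
  zero : ∀ x ∈ X, ∀ y ∈ D, u x - y ∈ Λ → Q x = 0

end Pool.Agent.G3

end

section

/-!
# TG Gd: basic facts on the points far from `D`, fibres, compactness
-/

set_option autoImplicit false

open Topology Filter Metric

namespace Pool.Agent.TG

open Pool.Agent.H36.BP (EN fs wd)
open Pool.Agent.H14.PP (IsCone CurveAt Tan)
open Pool.Agent.AD (Vd)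

variable {N k : ℕ}

theorem gd_mono {D : Set (Vd (k + 1))} {δ₁ δ₂ : ℝ} (h : δ₁ ≤ δ₂) : Gd D δ₂ ⊆ Gd D δ₁ :=
  fun _ hy b hb => h.trans (hy b hb)

theorem gd_notMem {D : Set (Vd (k + 1))} {δ : ℝ} (h : 0 < δ) {y : Vd (k + 1)} (hy : y ∈ Gd D δ) : y ∉ D := by
  intro hD
  have h1 := hy y hD
  rw [sub_self, norm_zero] at h1
  linarith

theorem gd_closed (D : Set (Vd (k + 1))) (δ : ℝ) : IsClosed (Gd D δ) := by
  have h : Gd D δ = ⋂ b ∈ D, {y : Vd (k + 1) | δ ≤ ‖y - b‖} := by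
    ext y
    simp [Gd]
  rw [h]
  exact isClosed_biInter fun b _ => isClosed_le continuous_const (by fun_prop)

theorem gd_near {D : Set (Vd (k + 1))} {δ r : ℝ} {y w : Vd (k + 1)} (hy : y ∈ Gd D δ) (h : ‖w - y‖ ≤ r) : w ∈ Gd D (δ - r) := by
  intro b hb
  have h1 := hy b hb
  have h2 : ‖y - b‖ ≤ ‖w - b‖ + ‖w - y‖ := by
    have : y - b = (w - b) - (w - y) := by abel
    rw [this]
    exact norm_sub_le _ _
  linarith

variable {X : Set (EN N)} {Λ : AddSubgroup (Vd (k + 1))} {u : EN N → Vd (k + 1)} {D B : Set (Vd (k + 1))}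

theorem ne_zero (hX : IsCone X) {x : EN N} (hx : x ∈ X) : x ≠ 0 := fun h => hX.zero_notMem (h ▸ hx)

end Pool.Agent.TG

end
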