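import Mathlib

/-! The parts of this file: H17.WeightedVar, H56.PR.Loc, H62.FC.Calculus. -/

section

/-!
# Weighted variance of complex numbers
-/

open Complex ComplexConjugate

namespace Pool.Agent.H17

variable {ι : Type} [Fintype ι]

/-- The variance of the complex numbers `x i` with weights `w i / ∑ w`. -/
noncomputable def wVar (w : ι → ℝ) (x : ι → ℂ) : ℝ :=
  ((∑ i, w i * ‖x i‖ ^ 2) * (∑ i, w i) - ‖∑ i, (w i : ℂ) * x i‖ ^ 2) / (∑ i, w i) ^ 2

lemma norm_sub_sq_expand (a b : ℂ) : ‖a - b‖ ^ 2 = ‖a‖ ^ 2 - 2 * (a * conj b).re + ‖b‖ ^ 2 := by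
  rw [Complex.sq_norm, Complex.sq_norm, Complex.sq_norm, Complex.normSq_sub]
  ring

lemma wVar_identity (w : ι → ℝ) (x : ι → ℂ) (c : ℂ) :
    (∑ i, w i * ‖x i - c‖ ^ 2) * (∑ i, w i) =
      ((∑ i, w i * ‖x i‖ ^ 2) * (∑ i, w i) - ‖∑ i, (w i : ℂ) * x i‖ ^ 2) +
        ‖∑ i, (w i : ℂ) * x i - (∑ i, w i : ℝ) * c‖ ^ 2 := by
  have h1 : ∑ i, w i * ‖x i - c‖ ^ 2 = ∑ i, w i * ‖x i‖ ^ 2 -
      2 * ((∑ i, (w i : ℂ) * x i) * conj c).re + (∑ i, w i) * ‖c‖ ^ 2 := by
    rw [Finset.sum_mul, Complex.re_sum, Finset.mul_sum, Finset.sum_mul, ← Finset.sum_sub_distrib,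
      ← Finset.sum_add_distrib]
    refine Finset.sum_congr rfl fun i _ => ?_
    rw [norm_sub_sq_expand]
    have : ((w i : ℂ) * x i * conj c).re = w i * (x i * conj c).re := by
      rw [mul_assoc, Complex.re_ofReal_mul]
    rw [this]
    ring
  rw [h1, norm_sub_sq_expand, norm_mul, Complex.norm_real]
  have h2 : ((∑ i, (w i : ℂ) * x i) * conj ((∑ i, w i : ℝ) * c)).re =
      (∑ i, w i) * ((∑ i, (w i : ℂ) * x i) * conj c).re := by
    rw [map_mul, Complex.conj_ofReal, ← Complex.re_ofReal_mul]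
    congr 1
    ring
  have h3 : ‖(∑ i, w i : ℝ)‖ ^ 2 = (∑ i, w i) ^ 2 := by
    rw [Real.norm_eq_abs, sq_abs]
  rw [h2, mul_pow, h3]
  ring

lemma wVar_eq {w : ι → ℝ} (x : ι → ℂ) (hw : (∑ i, w i) ≠ 0) :
    wVar w x = (∑ i, w i * ‖x i - (∑ i, (w i : ℂ) * x i) / (∑ i, w i : ℝ)‖ ^ 2) / (∑ i, w i) := by
  have h1 := wVar_identity w x ((∑ i, (w i : ℂ) * x i) / (∑ i, w i : ℝ))
  have hw' : ((∑ i, w i : ℝ) : ℂ) ≠ 0 := by exact_mod_cast hw
  rw [mul_div_cancel₀ _ hw', sub_self] at h1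
  simp only [norm_zero] at h1
  unfold wVar
  rw [div_eq_div_iff (pow_ne_zero 2 hw) hw]
  linear_combination -(∑ i, w i) * h1

lemma wVar_nonneg {w : ι → ℝ} (x : ι → ℂ) (hw0 : ∀ i, 0 ≤ w i) (hw : 0 < ∑ i, w i) :
    0 ≤ wVar w x := by
  rw [wVar_eq x hw.ne']
  apply div_nonneg (Finset.sum_nonneg fun i _ => mul_nonneg (hw0 i) (sq_nonneg _)) hw.le

end Pool.Agent.H17

end

section

/-!
Local form of the extension of roots: everything is only given on a disc.
-/

namespace Pool.Agent.H56.PR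

open Topology Filter Set Polynomial Metric

noncomputable section

/-- retraction onto the closed disc of radius `ρ` -/
def retr (ρ : ℝ) (z : ℂ) : ℂ := z / (max 1 (‖z‖ / ρ) : ℝ)

theorem retr_cont {ρ : ℝ} : Continuous (retr ρ) := by
  unfold retr
  refine continuous_id.div (by fun_prop) fun z => ?_
  have : (0 : ℝ) < max 1 (‖z‖ / ρ) := lt_of_lt_of_le one_pos (le_max_left _ _)
  exact_mod_cast this.ne'

theorem retr_norm {ρ : ℝ} (hρ : 0 < ρ) (z : ℂ) : ‖retr ρ z‖ ≤ ρ := by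
  have h1 : (0 : ℝ) < max 1 (‖z‖ / ρ) := lt_of_lt_of_le one_pos (le_max_left _ _)
  rw [retr, norm_div, Complex.norm_real, Real.norm_eq_abs, abs_of_pos h1, div_le_iff₀ h1]
  calc ‖z‖ = ρ * (‖z‖ / ρ) := by field_simp
    _ ≤ ρ * max 1 (‖z‖ / ρ) := by gcongr; exact le_max_right _ _

theorem retr_eq {ρ : ℝ} (hρ : 0 < ρ) {z : ℂ} (hz : ‖z‖ ≤ ρ) : retr ρ z = z := by
  rw [retr, max_eq_left (by rw [div_le_one hρ]; exact hz)]
  simp

/-- a monic family on a disc -/
structure LFam (P : ℂ → ℂ[X]) (d : ℕ) (ρ : ℝ) : Prop where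
  pos : 0 < d
  monic : ∀ z ∈ ball (0 : ℂ) ρ, (P z).Monic
  deg : ∀ z ∈ ball (0 : ℂ) ρ, (P z).natDegree = d
  diff : ∀ i, DifferentiableOn ℂ (fun z => (P z).coeff i) (ball 0 ρ)

variable {P : ℂ → ℂ[X]} {d : ℕ} {ρ : ℝ}

theorem LFam.eval_eq (h : LFam P d ρ) {z : ℂ} (hz : z ∈ ball (0 : ℂ) ρ) (w : ℂ) :
    (P z).eval w = ∑ i ∈ Finset.range (d + 1), (P z).coeff i * w ^ i := by
  rw [eval_eq_sum_range, h.deg z hz]

theorem LFam.deriv_eval_eq (h : LFam P d ρ) {z : ℂ} (hz : z ∈ ball (0 : ℂ) ρ) (w : ℂ) :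
    (P z).derivative.eval w
      = ∑ i ∈ Finset.range d, (P z).coeff (i + 1) * (i + 1) * w ^ i := by
  have h1 : (P z).derivative.natDegree < d := by
    have := natDegree_derivative_lt (p := P z) (by rw [h.deg z hz]; exact h.pos.ne')
    rwa [h.deg z hz] at this
  rw [eval_eq_sum_range' h1]
  refine Finset.sum_congr rfl fun i _ => ?_
  rw [coeff_derivative]

end

end Pool.Agent.H56.PR

end

section

/-! FC Calculus: Borel's calculus lemma. -/

noncomputable section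

namespace Pool.Agent.H62.FC

open Filter Topology MeasureTheory

private theorem Calculus_step {f f' : ℝ → ℝ} {x₀ : ℝ} (hf : ∀ x, HasDerivAt f (f' x) x)
    (hc : Continuous f') (h0 : f x₀ = 0) (hpos : ∀ x, x₀ ≤ x → 0 ≤ f' x) :
    (∀ x, x₀ ≤ x → 0 ≤ f x) ∧ volume {x | x₀ ≤ x ∧ (1 + f x) ^ 2 < f' x} ≤ 1 := by
  have hfc : Continuous f := continuous_iff_continuousAt.2 fun x => (hf x).continuousAt
  have hnn : ∀ x, x₀ ≤ x → 0 ≤ f x := by
    intro x hx
    have h1 := intervalIntegral.integral_eq_sub_of_hasDerivAt (f := f) (f' := f') (a := x₀)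
      (b := x) (fun y _ => hf y) (hc.intervalIntegrable _ _)
    rw [h0, sub_zero] at h1
    rw [← h1]
    exact intervalIntegral.integral_nonneg hx fun y hy => hpos y hy.1
  refine ⟨hnn, ?_⟩
  -- the density
  set g : ℝ → ℝ := fun x => f' x / (1 + f x) ^ 2 with hg
  have hgc : ContinuousOn g (Set.Ici x₀) := by
    refine ContinuousOn.div hc.continuousOn (by fun_prop) ?_
    intro x hx
    have := hnn x hx
    positivity
  have hgnn : ∀ x, x₀ ≤ x → 0 ≤ g x := fun x hx =>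
    div_nonneg (hpos x hx) (sq_nonneg _)
  have hder : ∀ x, x₀ ≤ x → HasDerivAt (fun y => -(1 + f y)⁻¹) (g x) x := by
    intro x hx
    have h1 : 1 + f x ≠ 0 := by
      have := hnn x hx
      positivity
    have h2 := (((hf x).const_add 1).inv h1).neg
    refine h2.congr_deriv ?_
    rw [hg]
    simp only
    rw [neg_div, neg_neg]
  have hbound : ∀ b, x₀ ≤ b →
      volume ({x | x₀ ≤ x ∧ (1 + f x) ^ 2 < f' x} ∩ Set.Ioc x₀ b) ≤ 1 := by
    intro b hb
    have hgi : IntervalIntegrable g volume x₀ b := by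
      refine ContinuousOn.intervalIntegrable (hgc.mono ?_)
      rw [Set.uIcc_of_le hb]
      exact Set.Icc_subset_Ici_self
    have hint : ∫ x in x₀..b, g x = 1 - (1 + f b)⁻¹ := by
      rw [intervalIntegral.integral_eq_sub_of_hasDerivAt (f := fun y => -(1 + f y)⁻¹)
        (fun y hy => hder y (by rw [Set.uIcc_of_le hb] at hy; exact hy.1)) hgi, h0]
      ring
    have hle1 : ∫ x in x₀..b, g x ≤ 1 := by
      rw [hint]
      have : 0 ≤ (1 + f b)⁻¹ := inv_nonneg.2 (by linarith [hnn b hb])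
      linarith
    rw [intervalIntegral.integral_of_le hb] at hle1
    have hgi' : IntegrableOn g (Set.Ioc x₀ b) volume :=
      (intervalIntegrable_iff_integrableOn_Ioc_of_le hb).1 hgi
    have hae : 0 ≤ᵐ[volume.restrict (Set.Ioc x₀ b)] g :=
      (ae_restrict_iff' measurableSet_Ioc).2 (Eventually.of_forall fun x hx => hgnn x hx.1.le)
    have hL : ∫⁻ x in Set.Ioc x₀ b, ENNReal.ofReal (g x) ≤ 1 := by
      rw [← ofReal_integral_eq_lintegral_ofReal hgi' hae]
      exact (ENNReal.ofReal_le_ofReal hle1).trans_eq ENNReal.ofReal_one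
    have hM := mul_meas_ge_le_lintegral₀ (μ := volume.restrict (Set.Ioc x₀ b))
      (f := fun x => ENNReal.ofReal (g x)) hgi'.aestronglyMeasurable.aemeasurable.ennreal_ofReal 1
    rw [one_mul] at hM
    refine le_trans ?_ (hM.trans hL)
    rw [Measure.restrict_apply' measurableSet_Ioc]
    refine measure_mono ?_
    rintro x ⟨⟨hx1, hx2⟩, hx3⟩
    refine ⟨?_, hx3⟩
    show (1 : ENNReal) ≤ ENNReal.ofReal (g x)
    rw [← ENNReal.ofReal_one]
    refine ENNReal.ofReal_le_ofReal ?_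
    have h1 : 0 < 1 + f x := by linarith [hnn x hx1]
    rw [hg]
    simp only
    rw [le_div_iff₀ (by positivity), one_mul]
    exact hx2.le
  set E : Set ℝ := {x | x₀ ≤ x ∧ (1 + f x) ^ 2 < f' x} with hE
  have hmono : Monotone fun m : ℕ => E ∩ Set.Ioc x₀ (x₀ + m) := by
    intro m m' hmm
    refine Set.inter_subset_inter_right _ (Set.Ioc_subset_Ioc_right ?_)
    have : (m : ℝ) ≤ m' := by exact_mod_cast hmm
    linarith
  have hcov : E ⊆ {x₀} ∪ ⋃ m : ℕ, E ∩ Set.Ioc x₀ (x₀ + m) := by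
    intro x hx
    rcases eq_or_lt_of_le hx.1 with h | h
    · exact Or.inl h.symm
    · right
      obtain ⟨m, hm⟩ := exists_nat_ge (x - x₀)
      exact Set.mem_iUnion.2 ⟨m, hx, h, by linarith⟩
  calc volume E ≤ volume ({x₀} ∪ ⋃ m : ℕ, E ∩ Set.Ioc x₀ (x₀ + m)) := measure_mono hcov
    _ ≤ volume {x₀} + volume (⋃ m : ℕ, E ∩ Set.Ioc x₀ (x₀ + m)) := measure_union_le _ _
    _ = volume (⋃ m : ℕ, E ∩ Set.Ioc x₀ (x₀ + m)) := by
        rw [Real.volume_singleton, zero_add]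
    _ = ⨆ m : ℕ, volume (E ∩ Set.Ioc x₀ (x₀ + m)) := hmono.measure_iUnion
    _ ≤ 1 := iSup_le fun m => hbound _ (by
        have : (0 : ℝ) ≤ m := Nat.cast_nonneg m
        linarith)

/-- Borel's calculus lemma. -/
theorem calculus_lemma {G : ℝ → ℝ} {x₀ : ℝ} (hG : ContinuousOn G (Set.Ici x₀))
    (hG0 : ∀ x, x₀ ≤ x → 0 ≤ G x) :
    volume {x | x₀ ≤ x ∧ 4 * (1 + ∫ y in x₀..x, (x - y) * G y) ^ 4 < G x} ≤ 2 := by
  -- a continuous extension
  set K : ℝ → ℝ := fun x => G (max x₀ x) with hK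
  have hKc : Continuous K := by
    have h1 : Continuous fun x : ℝ => max x₀ x := by fun_prop
    exact hG.comp_continuous h1 fun x => Set.mem_Ici.2 (le_max_left _ _)
  have hKG : ∀ x, x₀ ≤ x → K x = G x := fun x hx => by
    rw [hK]
    simp only
    rw [max_eq_right hx]
  have hK0 : ∀ x, 0 ≤ K x := fun x => hG0 _ (le_max_left _ _)
  set P : ℝ → ℝ := fun x => ∫ y in x₀..x, K y with hP
  set Q : ℝ → ℝ := fun x => ∫ y in x₀..x, y * K y with hQ
  have hP' : ∀ x, HasDerivAt P (K x) x := fun x =>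
    intervalIntegral.integral_hasDerivAt_right (hKc.intervalIntegrable _ _)
      (hKc.stronglyMeasurableAtFilter _ _) hKc.continuousAt
  have hyK : Continuous fun y : ℝ => y * K y := continuous_id.mul hKc
  have hQ' : ∀ x, HasDerivAt Q (x * K x) x := fun x =>
    intervalIntegral.integral_hasDerivAt_right (hyK.intervalIntegrable _ _)
      (hyK.stronglyMeasurableAtFilter _ _) hyK.continuousAt
  have hPc : Continuous P := continuous_iff_continuousAt.2 fun x => (hP' x).continuousAt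
  have hP0 : P x₀ = 0 := intervalIntegral.integral_same
  set H : ℝ → ℝ := fun x => x * P x - Q x with hH
  have hH' : ∀ x, HasDerivAt H (P x) x := by
    intro x
    have h1 := ((hasDerivAt_id x).mul (hP' x)).sub (hQ' x)
    refine h1.congr_deriv ?_
    simp only [id]
    ring
  have hH0 : H x₀ = 0 := by
    rw [hH]
    simp only
    rw [hP0, hQ]
    simp only
    rw [intervalIntegral.integral_same]
    ring
  have hHeq : ∀ x, x₀ ≤ x → ∫ y in x₀..x, (x - y) * G y = H x := by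
    intro x hx
    have h1 : ∫ y in x₀..x, (x - y) * G y = ∫ y in x₀..x, (x * K y - y * K y) := by
      refine intervalIntegral.integral_congr fun y hy => ?_
      rw [Set.uIcc_of_le hx] at hy
      show (x - y) * G y = x * K y - y * K y
      rw [hKG y hy.1]
      ring
    have h2 : Continuous fun y : ℝ => x * K y := continuous_const.mul hKc
    rw [h1, intervalIntegral.integral_sub (h2.intervalIntegrable _ _)
      (hyK.intervalIntegrable _ _), intervalIntegral.integral_const_mul]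
  obtain ⟨hPnn, hE2⟩ := Calculus_step (x₀ := x₀) hP' hKc hP0 (fun x _ => hK0 x)
  obtain ⟨hHnn, hE1⟩ := Calculus_step (x₀ := x₀) hH' hPc hH0 hPnn
  have hsub : {x | x₀ ≤ x ∧ 4 * (1 + ∫ y in x₀..x, (x - y) * G y) ^ 4 < G x} ⊆
      {x | x₀ ≤ x ∧ (1 + H x) ^ 2 < P x} ∪ {x | x₀ ≤ x ∧ (1 + P x) ^ 2 < K x} := by
    rintro x ⟨hx, hx2⟩
    by_contra hcon
    rw [Set.mem_union, not_or] at hcon
    have h1 : P x ≤ (1 + H x) ^ 2 := by
      by_contra h
      exact hcon.1 ⟨hx, not_le.1 h⟩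
    have h2 : K x ≤ (1 + P x) ^ 2 := by
      by_contra h
      exact hcon.2 ⟨hx, not_le.1 h⟩
    rw [hHeq x hx, ← hKG x hx] at hx2
    have h3 := hHnn x hx
    have h4 := hPnn x hx
    have h5 : 1 ≤ (1 + H x) ^ 2 := by nlinarith
    have h6 : 1 + P x ≤ 2 * (1 + H x) ^ 2 := by linarith
    have h7 : (1 + P x) ^ 2 ≤ (2 * (1 + H x) ^ 2) ^ 2 :=
      pow_le_pow_left₀ (by linarith) h6 2
    have h8 : (2 * (1 + H x) ^ 2) ^ 2 = 4 * (1 + H x) ^ 4 := by ring
    linarith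
  calc _ ≤ volume ({x | x₀ ≤ x ∧ (1 + H x) ^ 2 < P x} ∪ {x | x₀ ≤ x ∧ (1 + P x) ^ 2 < K x}) :=
        measure_mono hsub
    _ ≤ volume {x | x₀ ≤ x ∧ (1 + H x) ^ 2 < P x} + volume {x | x₀ ≤ x ∧ (1 + P x) ^ 2 < K x} :=
        measure_union_le _ _
    _ ≤ 1 + 1 := add_le_add hE1 hE2
    _ = 2 := by norm_num

end Pool.Agent.H62.FC

end
end
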