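import Pool.Agent.H94.PX2.M01
import Pool.Agent.H94.PX2.M04
import Pool.Agent.H94.PX2.M09
import Pool.Agent.H94.PX2.M10

/-! The parts of this file: G4.K.Defs, AD.T.Defs, H17EF.PNDefs_1, AD.Germ, H36.BP.Brody, H36.BP.GermChart, H92.GGL.NevMero, PX.RExt. -/

section

/-!
# G4 K Defs: local complete intersections of codimension `2`, the Schwarz property; definitions

`RSys U r σ β`: for `x ∈ U` the numbers `β x i` are the zeros of `σ (x, ·)` in the disc of radius `r`, with multiplicities.  `Lc`: adapted coordinates `((z, v), w)` for the set `σ = 0 = ρ`: `w` is a zero of `σ ((z, v), ·)`, and `v` is a zero of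
the norm `∏ j, ρ ((z, v), β (z, v) j)`.  `Sw d Z`: near each point of `Z` there are, for every `T`, `s * T ^ d` linear conditions on holomorphic functions `G` under which `‖G‖` is on `Z` at most `C (3/4) ^ T` times its supremum on `Z`.
`CI Z`: near each of its points `Z` is `{σ = 0 = ρ}`, nowhere dense in `{σ = 0}`.
-/

set_option autoImplicit false

open Topology Filter Metric

namespace Pool.Agent.G4.K

open Pool.Agent.AD (Vd)

/-- the zeros `β x i` of `σ (x, ·)` in the disc of radius `r` -/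
structure RSys {E : Type} [NormedAddCommGroup E] [NormedSpace ℂ E] (U : Set E) (r : ℝ) (σ : E × ℂ → ℂ) {n : ℕ} (β : E → Fin n → ℂ) : Prop where
  op : IsOpen U
  pos : 0 < r
  an : ∀ x ∈ U, ∀ w : ℂ, ‖w‖ ≤ r → AnalyticAt ℂ σ (x, w)
  ne : ∀ x ∈ U, ∀ w : ℂ, ‖w‖ = r → σ (x, w) ≠ 0
  lt : ∀ x ∈ U, ∀ i, ‖β x i‖ < r
  fac : ∀ x ∈ U, ∃ h : ℂ → ℂ, (∀ w : ℂ, ‖w‖ ≤ r → AnalyticAt ℂ h w ∧ h w ≠ 0) ∧ ∀ w : ℂ, ‖w‖ ≤ r → σ (x, w) = (∏ i, (w - β x i)) * h w

theorem RSys.iff {E : Type} [NormedAddCommGroup E] [NormedSpace ℂ E] {U : Set E} {r : ℝ} {σ : E × ℂ → ℂ} {n : ℕ} {β : E → Fin n → ℂ} (R : RSys U r σ β) {x : E} (hx : x ∈ U)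
    {w : ℂ} (hw : ‖w‖ ≤ r) : σ (x, w) = 0 ↔ ∃ i, w = β x i := by
  obtain ⟨h, h1, h2⟩ := R.fac x hx
  rw [h2 w hw, mul_eq_zero, or_iff_left (h1 w hw).2, Finset.prod_eq_zero_iff]
  simp [sub_eq_zero]

/-- adapted coordinates -/
structure Lc {d : ℕ} (σ ρ : (Vd d × ℂ) × ℂ → ℂ) (δ r₁ r₂ : ℝ) (U : Set (Vd d × ℂ)) {n₁ n₂ : ℕ} (α : Vd d → Fin n₁ → ℂ) (β : Vd d × ℂ → Fin n₂ → ℂ) : Prop where
  pos : 0 < δ
  sub : ∀ z ∈ ball (0 : Vd d) δ, ∀ v : ℂ, ‖v‖ ≤ r₁ → (z, v) ∈ U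
  R2 : RSys U r₂ σ β
  an : ∀ x ∈ U, ∀ w : ℂ, ‖w‖ ≤ r₂ → AnalyticAt ℂ ρ (x, w)
  R1 : RSys (ball (0 : Vd d) δ) r₁ (fun x : Vd d × ℂ => ∏ j, ρ (x, β x j)) α

/-- the Schwarz property -/
def Sw {k : ℕ} (d : ℕ) (Z : Set (Vd (k + 1))) : Prop :=
  ∀ y ∈ Z, ∃ (s : ℕ) (C : ℝ), 0 < C ∧ ∃ U ∈ 𝓝 y, ∀ T : ℕ, ∃ Φ : Fin s → (Fin d → Fin T) → (Vd (k + 1) → ℂ) → ℂ,
    (∀ i j (G G' : Vd (k + 1) → ℂ) (c : ℂ), (∀ z, AnalyticAt ℂ G z) → (∀ z, AnalyticAt ℂ G' z) → Φ i j (fun z => G z + c * G' z) = Φ i j G + c * Φ i j G') ∧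
    ∀ (G : Vd (k + 1) → ℂ) (S : ℝ), (∀ z, AnalyticAt ℂ G z) → (∀ z ∈ Z, ‖z - y‖ ≤ 1 → ‖G z‖ ≤ S) → (∀ i j, Φ i j G = 0) → ∀ z ∈ Z, z ∈ U → ‖G z‖ ≤ S * (C * (3 / 4) ^ T)

/-- local complete intersections of codimension `2` -/
def CI {k : ℕ} (Z : Set (Vd (k + 1))) : Prop :=
  ∀ y ∈ Z, ∃ σ ρ : Vd (k + 1) → ℂ, AnalyticAt ℂ σ y ∧ AnalyticAt ℂ ρ y ∧ (∃ᶠ z in 𝓝 y, σ z ≠ 0) ∧ (∀ᶠ z in 𝓝 y, (z ∈ Z ↔ σ z = 0 ∧ ρ z = 0)) ∧
    ∀ᶠ z in 𝓝 y, σ z = 0 → ∃ᶠ z' in 𝓝 z, σ z' = 0 ∧ ρ z' ≠ 0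

end Pool.Agent.G4.K

end

section

/-!
# AD T Defs: symmetric differentials and holomorphic maps to complex tori, in any dimension
-/

set_option autoImplicit false

open Topology Filter

namespace Pool.Agent.AD

open Pool.Agent.H17 (PN)

variable {N : ℕ}

/-- `u` is a holomorphic map from the closed subset `X` of `ℙ^N` to `ℂ^g / Λ`: near every point it is given by `g` holomorphic functions of
the homogeneous coordinates. -/
def IsHolomorphicTorusMap {g : ℕ} (X : Set (PN N)) (Λ : AddSubgroup (Fin g → ℂ)) (u : PN N → (Fin g → ℂ) ⧸ Λ) : Prop :=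
  ∀ (x : Fin (N + 1) → ℂ) (hx : x ≠ 0), Projectivization.mk ℂ x hx ∈ X → ∃ v : (Fin (N + 1) → ℂ) → (Fin g → ℂ), AnalyticAt ℂ v x ∧
    ∀ᶠ y in 𝓝 x, ∀ hy : y ≠ 0, Projectivization.mk ℂ y hy ∈ X → u (Projectivization.mk ℂ y hy) = (v y : (Fin g → ℂ) ⧸ Λ)

end Pool.Agent.AD

end

section

/-!
# EF PNDefs: holomorphic maps from a projective surface to a complex torus
-/

set_option autoImplicit false

open Topology Filter MvPolynomial

noncomputable section

namespace Pool.Agent.H17EF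

open Pool.Agent.H17 (PN VanishesAt HolomorphicInto)

variable {N : ℕ}

/-- The entire curves `f` in `X` with `u (f z) = z` modulo `Λ`. -/
def sections (X : Set (PN N)) (Λ : AddSubgroup ℂ) (u : PN N → ℂ ⧸ Λ) : Set (ℂ → PN N) :=
  {f | HolomorphicInto f Set.univ ∧ (∀ z, f z ∈ X) ∧ ∀ z, u (f z) = (z : ℂ ⧸ Λ)}

end Pool.Agent.H17EF

end
end

section

/-!
# AD Germ: charts from germ-level charts

The proof of `Pool.Agent.H62.EF.exists_chart_of_germ` with `ℂ × ℂ` replaced by `Vd d`.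
-/

set_option autoImplicit false

open Topology Filter Metric

namespace Pool.Agent.AD

open Pool.Agent.H36.BP (EN)

variable {N d : ℕ}

/-- germ-level charts -/
structure IsGerm (X : Set (EN N)) (σ : Vd d → EN N) (τ : EN N → Vd d) : Prop where
  σ_an : AnalyticAt ℂ σ 0
  σ_mem : ∀ᶠ p in 𝓝 (0 : Vd d), σ p ∈ X
  τ_an : AnalyticAt ℂ τ (σ 0)
  left : ∀ᶠ p in 𝓝 (0 : Vd d), τ (σ p) = p
  right : ∀ᶠ y in 𝓝 (σ 0), y ∈ X → ∃ c : ℂ, c ≠ 0 ∧ y = c • σ (τ y)
  inv : ∀ᶠ z in 𝓝 (σ 0, (1 : ℂ)), τ (z.2 • z.1) = τ z.1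

end Pool.Agent.AD

end

section

/-!
# BP Brody: the Brody step

Otherwise `rescale`, `char_bound` (with `R ≤ n`: `Curve K (ball 0 (R+1))`), `limit_curve` give an entire curve `H` with `mt G H 0 ≥ 1`.  If `H` is not constant in projective space then it lies in `B`
(`BrodyMod`) and `mt G H 0 = 0` (`zero`).  If it is constant, `H w = c(w) H 0` for all `w`, then `H' 0` is a multiple of `H 0` (`H' 0 = lim (H w - H 0)/w`, closed line) and `mt G H 0 = 0` (`mt_const`).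
-/

set_option autoImplicit false

namespace Pool.Agent.H36.BP

open Filter Topology Metric

variable {N : ℕ}

variable {K B : Set (EN N)} {G : EN N → EN N → ℝ} {ρ : EN N → ℝ} {M : ℕ} {c₀ C : ℝ}

/-- the derivative of a curve on a line is on the line -/
theorem Brody_deriv_line {H : ℂ → EN N} {z₀ : ℂ} (hH : DifferentiableAt ℂ H z₀) (h : ∀ z, ∃ c : ℂ, H z = c • H z₀) :
    ∃ a : ℂ, deriv H z₀ = a • H z₀ := by
  have hcl : IsClosed ((ℂ ∙ H z₀ : Submodule ℂ (EN N)) : Set (EN N)) := Submodule.closed_of_finiteDimensional _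
  have hmem : deriv H z₀ ∈ (ℂ ∙ H z₀ : Submodule ℂ (EN N)) := by
    have ht := (hasDerivAt_iff_tendsto_slope.mp hH.hasDerivAt)
    refine hcl.mem_of_tendsto ht (Filter.Eventually.of_forall fun z => ?_)
    obtain ⟨c, hc⟩ := h z
    rw [slope_def_module]
    refine Submodule.smul_mem _ _ (Submodule.sub_mem _ ?_ (Submodule.mem_span_singleton_self _))
    rw [hc]
    exact Submodule.smul_mem _ _ (Submodule.mem_span_singleton_self _)
  obtain ⟨a, ha⟩ := Submodule.mem_span_singleton.mp hmem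
  exact ⟨a, ha.symm⟩

end Pool.Agent.H36.BP

end

section

/-!
# BP GermChart: from germ-level charts to charts on the bidisc of radius 2

Let `ℓ` be a linear form with `ℓ (σ 0) = 1`, `σ₁ p = (ℓ (σ p))⁻¹ • σ p`, `σ' p = σ₁ (r p)` for a small `r`, `U = {x : ℓ x ≠ 0, x/ℓ x ∈ W₀, |τ (x/ℓ x)| < 2r}`, `q x = τ (x/ℓ x)/r`.
-/

set_option autoImplicit false

namespace Pool.Agent.H36.BP

open Filter Topology Metric

variable {N : ℕ}

/-- germ-level charts -/
structure IsGermChart (X : Set (EN N)) (σ : ℂ × ℂ → EN N) (τ : EN N → ℂ × ℂ) : Prop where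
  σ_an : AnalyticAt ℂ σ 0
  σ_mem : ∀ᶠ p in 𝓝 (0 : ℂ × ℂ), σ p ∈ X
  τ_an : AnalyticAt ℂ τ (σ 0)
  left : ∀ᶠ p in 𝓝 (0 : ℂ × ℂ), τ (σ p) = p
  right : ∀ᶠ y in 𝓝 (σ 0), y ∈ X → ∃ c : ℂ, c ≠ 0 ∧ y = c • σ (τ y)
  inv : ∀ᶠ z in 𝓝 (σ 0, (1 : ℂ)), τ (z.2 • z.1) = τ z.1

end Pool.Agent.H36.BP

end

section

/-!
# A meromorphic function on a punctured disc with characteristic `O (log (1 / r))`
-/

open Complex MeasureTheory Metric Set Topology Filter

namespace Pool.Agent.H92.GGL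

lemma exists_radius {P : Set ℂ} (hP : P.Finite) (h0 : ∀ s ∈ P, 0 < ‖s‖) :
    ∃ ε : ℝ, 0 < ε ∧ ∀ s ∈ P, ε ≤ ‖s‖ := by
  rcases hP.toFinset.eq_empty_or_nonempty with h | h
  · refine ⟨1, one_pos, fun s hs => ?_⟩
    have : s ∈ hP.toFinset := hP.mem_toFinset.mpr hs
    rw [h] at this
    exact absurd this (Finset.notMem_empty s)
  · obtain ⟨s₀, hs₀, hmin⟩ := hP.toFinset.exists_min_image (fun s => ‖s‖) h
    exact ⟨‖s₀‖, h0 s₀ (hP.mem_toFinset.mp hs₀), fun s hs => hmin s (hP.mem_toFinset.mpr hs)⟩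

/-- The order of the difference with a constant. -/
lemma neg_ordZ_sub_const_le {u : ℂ → ℂ} {s c : ℂ} (hu : MeromorphicAt u s)
    (ho : meromorphicOrderAt u s ≠ ⊤) (hc : meromorphicOrderAt (fun z => u z - c) s ≠ ⊤) :
    max (-(ordZ (fun z => u z - c) s : ℝ)) 0 ≤ max (-(ordZ u s : ℝ)) 0 := by
  have h1 : min (meromorphicOrderAt u s) (meromorphicOrderAt (fun _ : ℂ => -c) s) ≤
      meromorphicOrderAt (fun z => u z - c) s := by
    have h2 := meromorphicOrderAt_add hu (MeromorphicAt.const (-c) s)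
    have h3 : (u + fun _ : ℂ => -c) = fun z => u z - c := by
      funext z
      simp [sub_eq_add_neg]
    rwa [h3] at h2
  have h4 : (0 : WithTop ℤ) ≤ meromorphicOrderAt (fun _ : ℂ => -c) s :=
    (analyticAt_const).meromorphicOrderAt_nonneg
  have h5 : min (ordZ u s) 0 ≤ ordZ (fun z => u z - c) s := by
    have h6 : min (meromorphicOrderAt u s) 0 ≤ meromorphicOrderAt (fun z => u z - c) s :=
      (min_le_min_left _ h4).trans h1
    rw [← ordZ_cast ho, ← ordZ_cast hc] at h6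
    exact_mod_cast h6
  have h7 : (min (ordZ u s : ℝ) 0) ≤ ordZ (fun z => u z - c) s := by exact_mod_cast h5
  refine max_le ?_ (le_max_right _ _)
  rcases le_total (ordZ u s : ℝ) 0 with h8 | h8
  · rw [min_eq_left h8] at h7
    exact le_trans (by linarith) (le_max_left _ _)
  · rw [min_eq_right h8] at h7
    exact le_trans (by linarith) (le_max_right _ _)

end Pool.Agent.H92.GGL

end

section

/-!
# PX RExt: extension of a root of a polynomial to a disc

`Pt c z t = t ^ m + ∑ c i z * t ^ i`, simple roots for `z ≠ 0`; on the circle of radius `ρ` one root is near the continuous function `g`, and only one.  Then this root extends to a holomorphic root on the disc of radius `R`.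
Proof: on the half plane `{ζ | Re ζ < log R}` (convex) the roots of `Pt c (exp ζ)` are given by `m` continuous functions `r i` (`LR/Cover`, `exists_roots_on`, or a direct lifting argument); on the line `Re ζ = log ρ` the index `i` of the root near `g (exp ζ)` does not
depend on `ζ` (connected), so `r i (ζ + 2 π I)` and `r i ζ` agree for `Re ζ = log ρ`, hence everywhere (both are continuous choices of simple roots): `r i ζ = e (exp ζ)` with `e` continuous on the punctured disc, holomorphic (simple roots: implicit function theorem or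
`t - e z` divides), bounded near `0` (bound of the roots by the coefficients): `e` extends.
-/

set_option autoImplicit false

open Topology Filter Metric

namespace Pool.Agent.PX

variable {k d r : ℕ}

/-- the monic polynomial with the coefficients `c i z` -/
def Pt {m : ℕ} (c : Fin m → ℂ → ℂ) (z t : ℂ) : ℂ := t ^ m + ∑ i : Fin m, c i z * t ^ (i : ℕ)

open Polynomial in
/-- `Pt` as a polynomial -/
noncomputable def Pol {m : ℕ} (c : Fin m → ℂ → ℂ) (z : ℂ) : ℂ[X] :=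
  X ^ m + ∑ i : Fin m, C (c i z) * X ^ (i : ℕ)

theorem eval_Pol {m : ℕ} (c : Fin m → ℂ → ℂ) (z t : ℂ) : (Pol c z).eval t = Pt c z t := by
  simp [Pol, Pt, Polynomial.eval_finsetSum]

theorem Pol_monic {m : ℕ} (c : Fin m → ℂ → ℂ) (z : ℂ) : (Pol c z).Monic :=
  Polynomial.monic_X_pow_add (Polynomial.degree_sum_fin_lt _)

theorem Pol_natDegree {m : ℕ} (c : Fin m → ℂ → ℂ) (z : ℂ) : (Pol c z).natDegree = m := by
  have h1 : (Polynomial.X ^ m + ∑ i : Fin m, Polynomial.C (c i z) * Polynomial.X ^ (i : ℕ)).degree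
      = m := by
    rw [Polynomial.degree_add_eq_left_of_degree_lt]
    · exact Polynomial.degree_X_pow m
    · rw [Polynomial.degree_X_pow]
      exact Polynomial.degree_sum_fin_lt _
  exact Polynomial.natDegree_eq_of_degree_eq_some h1

theorem Pol_coeff {m : ℕ} {c : Fin m → ℂ → ℂ} {s : Set ℂ} (hc : ∀ i, DifferentiableOn ℂ (c i) s)
    (j : ℕ) : DifferentiableOn ℂ (fun z => (Pol c z).coeff j) s := by
  simp only [Pol, Polynomial.coeff_add, Polynomial.finsetSum_coeff, Polynomial.coeff_C_mul]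
  refine (differentiableOn_const _).add (DifferentiableOn.fun_sum fun i _ => ?_)
  exact (hc i).mul (differentiableOn_const _)

theorem deriv_Pt {m : ℕ} (c : Fin m → ℂ → ℂ) (z t : ℂ) :
    deriv (Pt c z) t = (Pol c z).derivative.eval t := by
  have h1 : Pt c z = fun t => (Pol c z).eval t := by funext t; rw [eval_Pol]
  rw [h1]
  exact (Pol c z).deriv

theorem Pol_separable {m : ℕ} {c : Fin m → ℂ → ℂ} {z : ℂ}
    (h : ∀ t, Pt c z t = 0 → deriv (Pt c z) t ≠ 0) : (Pol c z).Separable := by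
  rw [Polynomial.Separable, Polynomial.isCoprime_iff_aeval_ne_zero_of_isAlgClosed (k := ℂ) (K := ℂ)]
  intro t
  rw [Polynomial.coe_aeval_eq_eval, eval_Pol, ← deriv_Pt]
  by_cases h0 : Pt c z t = 0
  · exact Or.inr (h t h0)
  · exact Or.inl h0

theorem LFam_Pol {m : ℕ} (hm : 0 < m) {c : Fin m → ℂ → ℂ} {R : ℝ}
    (hc : ∀ i, DifferentiableOn ℂ (c i) (ball 0 R)) : H56.PR.LFam (Pol c) m R :=
  ⟨hm, fun z _ => Pol_monic c z, fun z _ => Pol_natDegree c z, fun j => Pol_coeff hc j⟩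

end Pool.Agent.PX

end
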