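import Pool.Agent.H94.PX2.M01
import Pool.Agent.H94.PX2.M04

/-! The parts of this file: G4.K.Tay, H23.Forms, H23.Omega, H92.GGL.AnnMean, H92.GGL.AnnJensen_1, HE.Nak. -/

section

/-!
# G4 K Tay: `T ^ d` linear conditions under which a holomorphic function of `d` variables has a zero of order `T` at `0`

The Taylor coefficients of exponents `< T` in each variable: for `n < T` the value of `iteratedFDeriv ℂ n G 0` at `(z, …, z)` is a combination of the sums `tco α G` of its values at the families of basis vectors of type `α`, `∑ j, α j = n`.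
-/

set_option autoImplicit false

open Topology Filter Metric

namespace Pool.Agent.G4.K

open Pool.Agent.AD (Vd)

/-- the type of a sequence of indices -/
private def tty {n d : ℕ} (s : Fin n → Fin d) (j : Fin d) : ℕ := (Finset.univ.filter fun i => s i = j).card

private theorem tty_le {n d : ℕ} (s : Fin n → Fin d) (j : Fin d) : tty s j ≤ n := by
  have h := Finset.card_filter_le (Finset.univ : Finset (Fin n)) (fun i => s i = j)
  rw [Finset.card_univ, Fintype.card_fin] at h
  exact h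

private theorem tty_sum {n d : ℕ} (s : Fin n → Fin d) : ∑ j, tty s j = n := by
  have h := Finset.card_eq_sum_card_fiberwise (s := (Finset.univ : Finset (Fin n))) (t := (Finset.univ : Finset (Fin d))) (f := s) (fun _ _ => Finset.mem_coe.2 (Finset.mem_univ _))
  rw [Finset.card_univ, Fintype.card_fin] at h
  exact h.symm

/-- the value of the `n`-th derivative at a family of basis vectors -/
private noncomputable def tde {n d : ℕ} (s : Fin n → Fin d) (G : Vd d → ℂ) : ℂ :=
  iteratedFDeriv ℂ n G 0 fun i => (Pi.single (s i) (1 : ℂ) : Vd d)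

/-- the sum of these values over the families of type `α` -/
private noncomputable def tco {d : ℕ} (n : ℕ) (α : Fin d → ℕ) (G : Vd d → ℂ) : ℂ :=
  ∑ s : Fin n → Fin d, if tty s = α then tde s G else 0

private theorem tde_add {n d : ℕ} (s : Fin n → Fin d) {G G' : Vd d → ℂ} (c : ℂ) (hG : AnalyticAt ℂ G 0) (hG' : AnalyticAt ℂ G' 0) :
    tde s (fun z => G z + c * G' z) = tde s G + c * tde s G' := by
  have h1 : (fun z => G z + c * G' z) = G + c • G' := by
    funext z
    simp
  have h3 : ContDiffAt ℂ (n : ℕ) (c • G') (0 : Vd d) := hG'.contDiffAt.const_smul c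
  rw [tde, h1, iteratedFDeriv_add_apply hG.contDiffAt h3, iteratedFDeriv_const_smul_apply hG'.contDiffAt]
  rfl

private theorem tco_add {n d : ℕ} (α : Fin d → ℕ) {G G' : Vd d → ℂ} (c : ℂ) (hG : AnalyticAt ℂ G 0) (hG' : AnalyticAt ℂ G' 0) :
    tco n α (fun z => G z + c * G' z) = tco n α G + c * tco n α G' := by
  rw [tco, tco, tco, Finset.mul_sum, ← Finset.sum_add_distrib]
  refine Finset.sum_congr rfl fun s _ => ?_
  by_cases h : tty s = α
  · rw [if_pos h, if_pos h, if_pos h, tde_add s c hG hG']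
  · rw [if_neg h, if_neg h, if_neg h]
    simp

private theorem tco_congr {n d : ℕ} (α : Fin d → ℕ) {G G' : Vd d → ℂ} (h : G =ᶠ[𝓝 0] G') : tco n α G = tco n α G' := by
  rw [tco, tco]
  refine Finset.sum_congr rfl fun s _ => ?_
  rw [tde, tde, (h.iteratedFDeriv ℂ n).eq_of_nhds]

private theorem tit {n d T : ℕ} (hn : n < T) {G : Vd d → ℂ} (h : ∀ α : Fin d → Fin T, tco (∑ j, (α j : ℕ)) (fun j => (α j : ℕ)) G = 0) (z : Vd d) :
    (iteratedFDeriv ℂ n G 0 fun _ => z) = 0 := by
  classical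
  have h1 : (iteratedFDeriv ℂ n G 0 fun _ => z) = ∑ s : Fin n → Fin d, (∏ i, z (s i)) * tde s G := by
    have h2 : (fun _ : Fin n => z) = fun _ : Fin n => ∑ j, z j • (Pi.single j (1 : ℂ) : Vd d) := by
      funext _
      exact pi_eq_sum_univ' z
    rw [h2, ContinuousMultilinearMap.map_sum]
    refine Finset.sum_congr rfl fun s _ => ?_
    rw [ContinuousMultilinearMap.map_smul_univ]
    rfl
  rw [h1]
  have h3 : ∀ s : Fin n → Fin d, ∏ i, z (s i) = ∏ j, z j ^ tty s j := by
    intro s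
    rw [← Finset.prod_fiberwise (Finset.univ : Finset (Fin n)) s (fun i => z (s i))]
    refine Finset.prod_congr rfl fun j _ => ?_
    rw [tty, ← Finset.prod_const]
    refine Finset.prod_congr rfl fun i hi => ?_
    rw [(Finset.mem_filter.1 hi).2]
  have h4 : ∑ s : Fin n → Fin d, (∏ i, z (s i)) * tde s G =
      ∑ α ∈ (Finset.univ : Finset (Fin n → Fin d)).image tty, (∏ j, z j ^ α j) * tco n α G := by
    rw [← Finset.sum_fiberwise_of_maps_to (s := (Finset.univ : Finset (Fin n → Fin d))) (t := (Finset.univ : Finset (Fin n → Fin d)).image tty) (g := tty)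
      (fun s hs => Finset.mem_image_of_mem tty hs)]
    refine Finset.sum_congr rfl fun α _ => ?_
    rw [tco, Finset.mul_sum, Finset.sum_filter]
    refine Finset.sum_congr rfl fun s _ => ?_
    by_cases hs : tty s = α
    · rw [if_pos hs, if_pos hs, h3, hs]
    · rw [if_neg hs, if_neg hs, mul_zero]
  rw [h4]
  refine Finset.sum_eq_zero fun α hα => ?_
  obtain ⟨s, _, rfl⟩ := Finset.mem_image.1 hα
  have h5 := h fun j => ⟨tty s j, (tty_le s j).trans_lt hn⟩
  have h6 : (∑ j, ((⟨tty s j, (tty_le s j).trans_lt hn⟩ : Fin T) : ℕ)) = n := tty_sum s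
  rw [h6] at h5
  have h7 : tco n (tty s) G = 0 := h5
  rw [h7, mul_zero]

theorem tay (d T : ℕ) : ∃ Φ : (Fin d → Fin T) → (Vd d → ℂ) → ℂ,
    (∀ i (G G' : Vd d → ℂ) (c : ℂ), AnalyticAt ℂ G 0 → AnalyticAt ℂ G' 0 → Φ i (fun z => G z + c * G' z) = Φ i G + c * Φ i G') ∧
    (∀ i (G G' : Vd d → ℂ), G =ᶠ[𝓝 0] G' → Φ i G = Φ i G') ∧
    ∀ G : Vd d → ℂ, AnalyticAt ℂ G 0 → (∀ i, Φ i G = 0) → ∃ C : ℝ, 0 ≤ C ∧ ∀ᶠ z in 𝓝 (0 : Vd d), ‖G z‖ ≤ C * ‖z‖ ^ T := by
  refine ⟨fun α G => tco (∑ j, (α j : ℕ)) (fun j => (α j : ℕ)) G, fun α G G' c hG hG' => tco_add _ c hG hG',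
    fun α G G' h => tco_congr _ h, fun G hG h => ?_⟩
  obtain ⟨p, r, hp⟩ := hG
  have h1 : ∀ z : Vd d, p.partialSum T z = 0 := by
    intro z
    rw [FormalMultilinearSeries.partialSum]
    refine Finset.sum_eq_zero fun n hn => ?_
    have h2 := hp.factorial_smul z n
    rw [tit (Finset.mem_range.1 hn) h z] at h2
    rw [nsmul_eq_mul] at h2
    exact (mul_eq_zero.1 h2).resolve_left (Nat.cast_ne_zero.2 (Nat.factorial_ne_zero n))
  have h3 := (hp.hasFPowerSeriesAt).isBigO_sub_partialSum_pow T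
  obtain ⟨C, hC, h4⟩ := h3.exists_nonneg
  refine ⟨C, hC, ?_⟩
  filter_upwards [h4.bound] with z hz
  rw [h1 z, sub_zero, zero_add, norm_pow, norm_norm] at hz
  exact hz

end Pool.Agent.G4.K

end

section

set_option linter.style.haveILetI false

noncomputable section

namespace Pool.Agent.H23

section top

variable {K : Type*} [Field K] {M : Type*} [AddCommGroup M] [Module K M] {n : ℕ}
  (b : Module.Basis (Fin n) K M)

lemma ιMulti_eq (v : Fin n → M) :
    exteriorPower.ιMulti K n v = b.det v • exteriorPower.ιMulti K n (fun i => b i) := by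
  have h : (exteriorPower.ιMulti K n : M [⋀^Fin n]→ₗ[K] ⋀[K]^n M) =
      (LinearMap.toSpanSingleton K (⋀[K]^n M) (exteriorPower.ιMulti K n (fun i => b i))).compAlternatingMap
        b.det := by
    apply Module.Basis.ext_alternating b
    intro σ hσ
    have hbij : Function.Bijective σ := (Finite.injective_iff_bijective).1 hσ
    let e : Equiv.Perm (Fin n) := Equiv.ofBijective σ hbij
    have h1 : (fun i => b (σ i)) = (fun i => b i) ∘ e := rfl
    rw [h1, AlternatingMap.map_perm, LinearMap.compAlternatingMap_apply, AlternatingMap.map_perm,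
      Module.Basis.det_self]
    simp
  conv_lhs => rw [h]
  rw [LinearMap.compAlternatingMap_apply, LinearMap.toSpanSingleton_apply]

/-- coordinate of a top form -/
def fc : (⋀[K]^n M) →ₗ[K] K := exteriorPower.alternatingMapLinearEquiv b.det

lemma fc_ιMulti (v : Fin n → M) : fc b (exteriorPower.ιMulti K n v) = b.det v := by
  rw [fc, exteriorPower.alternatingMapLinearEquiv_apply_ιMulti]

lemma fc_self : fc b (exteriorPower.ιMulti K n (fun i => b i)) = 1 := by
  rw [fc_ιMulti]
  exact b.det_self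

lemma eq_fc_smul (ω : ⋀[K]^n M) : ω = fc b ω • exteriorPower.ιMulti K n (fun i => b i) := by
  have hω : ω ∈ Submodule.span K (Set.range (exteriorPower.ιMulti K n (M := M))) := by
    rw [exteriorPower.ιMulti_span]; trivial
  induction hω using Submodule.span_induction with
  | mem x hx =>
    obtain ⟨v, rfl⟩ := hx
    rw [fc_ιMulti]
    exact ιMulti_eq b v
  | zero => simp
  | add x y _ _ hx hy =>
    rw [map_add, add_smul, ← hx, ← hy]
  | smul c x _ hx =>
    rw [map_smul, smul_assoc, ← hx]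

end top

section coords

variable {K : Type} [Field K] [Algebra ℂ K] {n : ℕ}

end coords

section primeDivisor

variable {K : Type} [Field K] [Algebra ℂ K]

end primeDivisor

end Pool.Agent.H23

end
end

section

set_option linter.style.haveILetI false

noncomputable section

namespace Pool.Agent.H23

open scoped TensorProduct

variable {K : Type*} [Field K] [Algebra ℂ K]

lemma exists_poly_of_basis {σ : Type*} {g : σ → K} (hg : IsTranscendenceBasis ℂ g) (a : K) :
    ∃ F : Polynomial (MvPolynomial σ ℂ), F ≠ 0 ∧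
      F.eval₂ (MvPolynomial.aeval g).toRingHom a = 0 := by
  have h1 := hg.isAlgebraic
  obtain ⟨p, hp, hpa⟩ := h1.isAlgebraic a
  let e : Algebra.adjoin ℂ (Set.range g) →+* MvPolynomial σ ℂ :=
    (hg.1.aevalEquiv.symm : Algebra.adjoin ℂ (Set.range g) →+* MvPolynomial σ ℂ)
  have he : (MvPolynomial.aeval g).toRingHom.comp e =
      algebraMap (Algebra.adjoin ℂ (Set.range g)) K := by
    ext x
    have h2 := hg.1.algebraMap_aevalEquiv (hg.1.aevalEquiv.symm x)
    rw [AlgEquiv.apply_symm_apply] at h2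
    exact h2.symm
  refine ⟨p.map e, ?_, ?_⟩
  · rwa [Ne, Polynomial.map_eq_zero_iff]
    exact hg.1.aevalEquiv.symm.injective
  · rw [Polynomial.eval₂_map, he]
    exact hpa

/-- For a transcendence basis `g` of `K/ℂ`, the differentials `dg i` form a basis of `Ω_{K/ℂ}`. -/
theorem exists_basis_kaehler {σ : Type*} {g : σ → K} (hg : IsTranscendenceBasis ℂ g) :
    ∃ b : Module.Basis σ K Ω[K⁄ℂ], ∀ i, b i = KaehlerDifferential.D ℂ K (g i) := by
  classical
  letI alg1 : Algebra (MvPolynomial σ ℂ) K := (MvPolynomial.aeval g).toRingHom.toAlgebra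
  have hmap : ∀ r, algebraMap (MvPolynomial σ ℂ) K r = MvPolynomial.aeval g r := fun _ => rfl
  haveI : FaithfulSMul (MvPolynomial σ ℂ) K := by
    rw [faithfulSMul_iff_algebraMap_injective]
    exact hg.1
  haveI : IsScalarTower ℂ (MvPolynomial σ ℂ) K := by
    apply IsScalarTower.of_algebraMap_eq
    intro c
    rw [hmap, MvPolynomial.algebraMap_eq, MvPolynomial.aeval_C]
  letI alg2 : Algebra (FractionRing (MvPolynomial σ ℂ)) K := FractionRing.liftAlgebra _ K
  haveI : IsScalarTower (MvPolynomial σ ℂ) (FractionRing (MvPolynomial σ ℂ)) K :=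
    inferInstance
  haveI : Algebra.IsAlgebraic (MvPolynomial σ ℂ) K := by
    refine ⟨fun a => ?_⟩
    obtain ⟨F, h1, h2⟩ := exists_poly_of_basis hg a
    exact ⟨F, h1, h2⟩
  haveI : Algebra.IsAlgebraic (FractionRing (MvPolynomial σ ℂ)) K :=
    (IsFractionRing.comap_isAlgebraic_iff (A := (MvPolynomial σ ℂ))).1 this
  haveI : CharZero (FractionRing (MvPolynomial σ ℂ)) :=
    algebraRat.charZero _
  haveI : Algebra.IsSeparable (FractionRing (MvPolynomial σ ℂ)) K := inferInstance
  haveI : Algebra.FormallyEtale (MvPolynomial σ ℂ) (FractionRing (MvPolynomial σ ℂ)) :=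
    Algebra.FormallyEtale.of_isLocalization (nonZeroDivisors _)
  haveI : Algebra.FormallyEtale (FractionRing (MvPolynomial σ ℂ)) K :=
    Algebra.FormallyEtale.of_isSeparable _ K
  haveI : Algebra.FormallyEtale (MvPolynomial σ ℂ) K :=
    Algebra.FormallyEtale.comp _ (FractionRing (MvPolynomial σ ℂ)) _
  let e := KaehlerDifferential.tensorKaehlerEquivOfFormallyEtale ℂ (MvPolynomial σ ℂ) K
  let b := ((KaehlerDifferential.mvPolynomialBasis ℂ σ).baseChange K).map e
  refine ⟨b, fun i => ?_⟩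
  simp only [b, Module.Basis.map_apply, Module.Basis.baseChange_apply,
    KaehlerDifferential.mvPolynomialBasis_apply]
  rw [KaehlerDifferential.tensorKaehlerEquivOfFormallyEtale_apply]
  rw [KaehlerDifferential.mapBaseChange_tmul, one_smul, KaehlerDifferential.map_D, hmap,
    MvPolynomial.aeval_X]

end Pool.Agent.H23

end
end

section

/-!
# Circle means of `log ‖v‖` for a holomorphic function without zeros on an annulus
-/

open Complex MeasureTheory Metric Set Topology Filter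

namespace Pool.Agent.H92.GGL

/-- A continuous logarithm of a holomorphic function is holomorphic. -/
lemma analyticAt_of_exp_eq {h G : ℂ → ℂ} {τ : ℂ} (hh : ContinuousAt h τ) (hG : AnalyticAt ℂ G τ)
    (he : ∀ᶠ w in 𝓝 τ, exp (h w) = G w) : AnalyticAt ℂ h τ := by
  have hG0 : G τ ≠ 0 := by
    rw [← he.self_of_nhds]
    exact exp_ne_zero _
  have h1 : AnalyticAt ℂ (fun w => h τ + log (G w / G τ)) τ := by
    refine analyticAt_const.add (AnalyticAt.clog ?_ ?_)
    · exact hG.div analyticAt_const hG0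
    · rw [div_self hG0]
      exact one_mem_slitPlane
  refine h1.congr ?_
  have h2 : ∀ᶠ w in 𝓝 τ, ‖h w - h τ‖ < Real.pi := by
    have h3 : ContinuousAt (fun w => ‖h w - h τ‖) τ := (hh.sub continuousAt_const).norm
    refine h3.eventually_lt continuousAt_const ?_
    simpa using Real.pi_pos
  filter_upwards [he, h2] with w hw hw2
  have h4 : G w / G τ = exp (h w - h τ) := by
    rw [exp_sub, hw, he.self_of_nhds]
  have h5 := (abs_im_le_norm (h w - h τ)).trans_lt hw2
  rw [abs_lt] at h5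
  rw [h4, log_exp h5.1 h5.2.le]
  ring

/-- **The mean is an affine function of `log r`.** -/
theorem circleAverage_log_norm_affine {v : ℂ → ℂ} {r₁ R₁ : ℝ} (hr₁ : 0 < r₁)
    (hv : ∀ z, r₁ < ‖z‖ → ‖z‖ < R₁ → AnalyticAt ℂ v z)
    (hv0 : ∀ z, r₁ < ‖z‖ → ‖z‖ < R₁ → v z ≠ 0) :
    ∃ a b : ℝ, ∀ r, r₁ < r → r < R₁ →
      Real.circleAverage (fun z => Real.log ‖v z‖) 0 r = a + b * Real.log r := by
  rcases le_or_gt R₁ r₁ with hle | hlt
  · exact ⟨0, 0, fun r h1 h2 => absurd (h1.trans h2) (not_lt.mpr hle)⟩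
  have hR₁ : 0 < R₁ := hr₁.trans hlt
  set V : Set ℂ := {τ | Real.log r₁ < τ.re ∧ τ.re < Real.log R₁} with hV
  have hVo : IsOpen V := by
    refine (isOpen_lt continuous_const continuous_re).inter (isOpen_lt continuous_re continuous_const)
  have hVconv : Convex ℝ V := by
    have h1 : V = {τ : ℂ | Real.log r₁ < τ.re} ∩ {τ : ℂ | τ.re < Real.log R₁} := rfl
    rw [h1]
    exact (convex_halfSpace_re_gt _).inter (convex_halfSpace_re_lt _)
  have hlog : Real.log r₁ < Real.log R₁ := Real.log_lt_log hr₁ hlt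
  have hVne : V.Nonempty := by
    refine ⟨(((Real.log r₁ + Real.log R₁) / 2 : ℝ) : ℂ), ?_, ?_⟩ <;> simp only [ofReal_re] <;> linarith
  have hnorm : ∀ τ ∈ V, r₁ < ‖exp τ‖ ∧ ‖exp τ‖ < R₁ := by
    intro τ hτ
    rw [norm_exp]
    constructor
    · rw [← Real.exp_log hr₁]
      exact Real.exp_lt_exp.mpr hτ.1
    · rw [← Real.exp_log hR₁]
      exact Real.exp_lt_exp.mpr hτ.2
  have hGan : ∀ τ ∈ V, AnalyticAt ℂ (fun τ => v (exp τ)) τ := by
    intro τ hτ
    obtain ⟨h1, h2⟩ := hnorm τ hτ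
    exact (hv _ h1 h2).fun_comp analyticAt_cexp
  have hsc : IsSimplyConnected V := by
    have : ContractibleSpace V := hVconv.contractibleSpace hVne
    exact SimplyConnectedSpace.ofContractible V
  obtain ⟨h, hc, he⟩ := exists_continuousOn_eqOn_exp_comp hsc hVo (g := fun τ => v (exp τ))
    (fun τ hτ => (hGan τ hτ).continuousAt.continuousWithinAt) (by
      rintro ⟨τ, hτ, h0⟩
      obtain ⟨h1, h2⟩ := hnorm τ hτ
      exact hv0 _ h1 h2 h0)
  have hhan : ∀ τ ∈ V, AnalyticAt ℂ h τ := by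
    intro τ hτ
    refine analyticAt_of_exp_eq (hc.continuousAt (hVo.mem_nhds hτ)) (hGan τ hτ) ?_
    filter_upwards [hVo.mem_nhds hτ] with w hw
    exact he hw
  have hshift : ∀ τ ∈ V, τ + 2 * Real.pi * I ∈ V := by
    intro τ hτ
    have h1 : (τ + 2 * Real.pi * I).re = τ.re := by simp
    rw [hV, mem_ofPred_eq, h1]
    exact hτ
  -- the difference is constant
  obtain ⟨δ, hδ⟩ : ∃ δ : ℂ, ∀ τ ∈ V, h (τ + 2 * Real.pi * I) - h τ = δ := by
    have hd : ∀ τ ∈ V, HasDerivAt (fun τ => h (τ + 2 * Real.pi * I) - h τ)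
        (deriv h (τ + 2 * Real.pi * I) - deriv h τ) τ := by
      intro τ hτ
      refine HasDerivAt.sub ?_ (hhan τ hτ).differentiableAt.hasDerivAt
      exact HasDerivAt.comp_add_const τ _ (hhan _ (hshift τ hτ)).differentiableAt.hasDerivAt
    have hexp1 : ∀ τ ∈ V, exp (h (τ + 2 * Real.pi * I) - h τ) = 1 := by
      intro τ hτ
      have h1 := he hτ
      have h2 := he (hshift τ hτ)
      simp only [Function.comp_apply] at h1 h2
      rw [exp_sub, h1, h2, exp_periodic, div_self]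
      rw [← h1]
      exact exp_ne_zero _
    refine hVo.exists_is_const_of_deriv_eq_zero hVconv.isPreconnected
      (f := fun τ => h (τ + 2 * Real.pi * I) - h τ)
      (fun τ hτ => (hd τ hτ).differentiableAt.differentiableWithinAt) ?_
    intro τ hτ
    have h1 := (hd τ hτ).cexp
    have h2 : HasDerivAt (fun τ => exp (h (τ + 2 * Real.pi * I) - h τ)) 0 τ := by
      refine (hasDerivAt_const τ (1 : ℂ)).congr_of_eventuallyEq ?_
      filter_upwards [hVo.mem_nhds hτ] with w hw
      exact hexp1 w hw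
    have h3 := h1.unique h2
    rw [hexp1 τ hτ, one_mul] at h3
    rw [(hd τ hτ).deriv, h3]
    rfl
  -- the mean as an integral of `h`
  have hmemV : ∀ (σ θ : ℝ), Real.log r₁ < σ → σ < Real.log R₁ → (σ : ℂ) + θ * I ∈ V := by
    intro σ θ h1 h2
    rw [hV, mem_ofPred_eq]
    simpa using ⟨h1, h2⟩
  have hmean : ∀ σ : ℝ, Real.log r₁ < σ → σ < Real.log R₁ →
      Real.circleAverage (fun z => Real.log ‖v z‖) 0 (Real.exp σ) =
        (2 * Real.pi)⁻¹ * (∫ θ in (0 : ℝ)..(2 * Real.pi), h (σ + θ * I)).re := by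
    intro σ h1 h2
    have hcont : Continuous fun θ : ℝ => h (σ + θ * I) := by
      rw [continuous_iff_continuousAt]
      intro θ
      exact ContinuousAt.comp (f := fun θ : ℝ => (σ : ℂ) + θ * I) (g := h)
        (hhan _ (hmemV σ θ h1 h2)).continuousAt (by fun_prop)
    rw [Real.circleAverage_def, smul_eq_mul]
    congr 1
    have h3 : ∫ θ in (0 : ℝ)..(2 * Real.pi), Real.log ‖v (circleMap 0 (Real.exp σ) θ)‖ =
        ∫ θ in (0 : ℝ)..(2 * Real.pi), (h (σ + θ * I)).re := by
      refine intervalIntegral.integral_congr fun θ _ => ?_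
      have h4 : circleMap 0 (Real.exp σ) θ = exp (σ + θ * I) := by
        rw [circleMap_zero, exp_add, ofReal_exp]
      have h5 := he (hmemV σ θ h1 h2)
      simp only [Function.comp_apply] at h5
      rw [h4, ← h5, norm_exp, Real.log_exp]
    rw [h3]
    have h6 := (reCLM).intervalIntegral_comp_comm (hcont.intervalIntegrable 0 (2 * Real.pi))
      (μ := volume)
    simpa using h6
  -- Cauchy's theorem
  have hcauchy : ∀ σ₁ σ₂ : ℝ, Real.log r₁ < σ₁ → σ₁ < Real.log R₁ → Real.log r₁ < σ₂ →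
      σ₂ < Real.log R₁ → (∫ θ in (0 : ℝ)..(2 * Real.pi), h (σ₂ + θ * I)) -
        (∫ θ in (0 : ℝ)..(2 * Real.pi), h (σ₁ + θ * I)) = (σ₂ - σ₁) * δ * (-I) := by
    intro σ₁ σ₂ h1 h2 h3 h4
    have hrect := integral_boundary_rect_eq_zero_of_differentiableOn h (σ₁ : ℂ)
      (σ₂ + (2 * Real.pi : ℝ) * I) (by
        intro τ hτ
        apply DifferentiableAt.differentiableWithinAt
        refine (hhan τ ?_).differentiableAt
        have h5 : τ.re ∈ uIcc σ₁ σ₂ := by
          have := hτ.1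
          simpa using this
        rw [hV, mem_ofPred_eq]
        rcases le_total σ₁ σ₂ with h6 | h6
        · rw [uIcc_of_le h6] at h5
          exact ⟨h1.trans_le h5.1, h5.2.trans_lt h4⟩
        · rw [uIcc_of_ge h6] at h5
          exact ⟨h3.trans_le h5.1, h5.2.trans_lt h2⟩)
    have e1 : ((σ₂ : ℂ) + (2 * Real.pi : ℝ) * I).re = σ₂ := by simp
    have e2 : ((σ₂ : ℂ) + (2 * Real.pi : ℝ) * I).im = 2 * Real.pi := by simp
    rw [e1, e2] at hrect
    simp only [ofReal_re, ofReal_im, ofReal_zero, zero_mul, add_zero, smul_eq_mul] at hrect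
    have e3 : ∫ x in σ₁..σ₂, h (x + (2 * Real.pi : ℝ) * I) =
        (∫ x in σ₁..σ₂, h x) + (σ₂ - σ₁) * δ := by
      have h5 : ∫ x in σ₁..σ₂, h (x + (2 * Real.pi : ℝ) * I) = ∫ x in σ₁..σ₂, (h x + δ) := by
        refine intervalIntegral.integral_congr fun x hx => ?_
        have hxV : (x : ℂ) ∈ V := by
          rw [hV, mem_ofPred_eq, ofReal_re]
          rcases le_total σ₁ σ₂ with h6 | h6
          · rw [uIcc_of_le h6] at hx
            exact ⟨h1.trans_le hx.1, hx.2.trans_lt h4⟩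
          · rw [uIcc_of_ge h6] at hx
            exact ⟨h3.trans_le hx.1, hx.2.trans_lt h2⟩
        have h7 := hδ x hxV
        rw [← h7]
        push_cast
        ring
      rw [h5, intervalIntegral.integral_add, intervalIntegral.integral_const]
      · rw [real_smul]
        push_cast
        ring
      · apply ContinuousOn.intervalIntegrable
        intro x hx
        have hxV : (x : ℂ) ∈ V := by
          rw [hV, mem_ofPred_eq, ofReal_re]
          rcases le_total σ₁ σ₂ with h6 | h6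
          · rw [uIcc_of_le h6] at hx
            exact ⟨h1.trans_le hx.1, hx.2.trans_lt h4⟩
          · rw [uIcc_of_ge h6] at hx
            exact ⟨h3.trans_le hx.1, hx.2.trans_lt h2⟩
        exact (ContinuousAt.comp (f := fun x : ℝ => (x : ℂ)) (g := h) (hhan _ hxV).continuousAt
          (by fun_prop)).continuousWithinAt
      · exact intervalIntegrable_const
    rw [e3] at hrect
    have h8 : I * ((∫ θ in (0 : ℝ)..(2 * Real.pi), h (σ₂ + θ * I)) -
        (∫ θ in (0 : ℝ)..(2 * Real.pi), h (σ₁ + θ * I))) = (σ₂ - σ₁) * δ := by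
      linear_combination hrect
    have h9 : I * I = -1 := I_mul_I
    linear_combination (-I) * h8 + ((∫ θ in (0 : ℝ)..(2 * Real.pi), h (σ₂ + θ * I)) -
        (∫ θ in (0 : ℝ)..(2 * Real.pi), h (σ₁ + θ * I))) * h9
  -- conclusion
  set σ₀ : ℝ := (Real.log r₁ + Real.log R₁) / 2 with hσ₀
  have hσ₀1 : Real.log r₁ < σ₀ := by linarith
  have hσ₀2 : σ₀ < Real.log R₁ := by linarith
  refine ⟨(2 * Real.pi)⁻¹ * (∫ θ in (0 : ℝ)..(2 * Real.pi), h (σ₀ + θ * I)).re -
    σ₀ * ((2 * Real.pi)⁻¹ * (δ * (-I)).re), (2 * Real.pi)⁻¹ * (δ * (-I)).re, ?_⟩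
  intro r hr1 hr2
  have hr0 : 0 < r := hr₁.trans hr1
  have h1 : Real.log r₁ < Real.log r := Real.log_lt_log hr₁ hr1
  have h2 : Real.log r < Real.log R₁ := Real.log_lt_log hr0 hr2
  have h3 := hmean (Real.log r) h1 h2
  rw [Real.exp_log hr0] at h3
  rw [h3]
  have h4 := congrArg Complex.re (hcauchy σ₀ (Real.log r) hσ₀1 hσ₀2 h1 h2)
  have h5 : (((Real.log r : ℂ) - σ₀) * δ * (-I)).re = (Real.log r - σ₀) * (δ * (-I)).re := by
    rw [mul_assoc, ← ofReal_sub, re_ofReal_mul]
  rw [h5, sub_re] at h4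
  linear_combination (2 * Real.pi)⁻¹ * h4

end Pool.Agent.H92.GGL

end

section

/-!
# Jensen's formula on a punctured disc
-/

open Complex MeasureTheory Metric Set Topology Filter

namespace Pool.Agent.H92.GGL

/-- The formula on an annulus. -/
lemma circleAverage_annulus {u : ℂ → ℂ} {R₀ r₁ R₁ : ℝ} (hr₁ : 0 < r₁) (hR₁ : R₁ < R₀)
    (hu : ∀ z, 0 < ‖z‖ → ‖z‖ < R₀ → MeromorphicAt u z)
    (ho : ∀ z, 0 < ‖z‖ → ‖z‖ < R₀ → meromorphicOrderAt u z ≠ ⊤)
    (S : Finset ℂ) (hS : ∀ s, s ∈ S ↔ (r₁ < ‖s‖ ∧ ‖s‖ < R₁) ∧ ordZ u s ≠ 0) :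
    ∃ a b : ℝ, ∀ r, r₁ < r → r < R₁ →
      Real.circleAverage (fun z => Real.log ‖u z‖) 0 r =
        a + b * Real.log r + ∑ s ∈ S, ordZ u s * Real.posLog (‖s‖ / r) := by
  set U : Set ℂ := {s : ℂ | r₁ < ‖s‖ ∧ ‖s‖ < R₁} with hU
  have hm : MeromorphicOn u U := fun z hz => hu z (hr₁.trans hz.1) (hz.2.trans hR₁)
  have hdiv : ∀ s, MeromorphicOn.divisor u U s = if s ∈ U then ordZ u s else 0 := by
    intro s
    split_ifs with h
    · rw [MeromorphicOn.divisor_apply hm h]
      rfl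
    · exact Function.locallyFinsuppWithin.apply_eq_zero_of_notMem _ h
  have hsupp : (MeromorphicOn.divisor u U).support ⊆ (S : Set ℂ) := by
    intro s hs
    rw [Function.mem_support, hdiv] at hs
    split_ifs at hs with h
    · exact (hS s).mpr ⟨h, hs⟩
    · exact absurd rfl hs
  have hfin : (MeromorphicOn.divisor u U).support.Finite := S.finite_toSet.subset hsupp
  obtain ⟨v, hv, hv0, hfv⟩ := hm.extract_zeros_poles
    (fun z => ho z (hr₁.trans z.2.1) (z.2.2.trans hR₁)) hfin
  have hlog := MeromorphicOn.extract_zeros_poles_log hv0 hfv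
  obtain ⟨a, b, hab⟩ := circleAverage_log_norm_affine (v := v) hr₁
    (fun z h1 h2 => hv z ⟨h1, h2⟩) (fun z h1 h2 => hv0 ⟨z, h1, h2⟩)
  refine ⟨a, b + ∑ s ∈ S, (ordZ u s : ℝ), ?_⟩
  intro r h1 h2
  have hr0 : 0 < r := hr₁.trans h1
  have hsum : ∑ᶠ s, (fun z : ℂ => (MeromorphicOn.divisor u U s : ℝ) * Real.log ‖z - s‖) =
      fun z => ∑ s ∈ S, (ordZ u s : ℝ) * Real.log ‖z - s‖ := by
    have h3 : ∑ᶠ s, (fun z : ℂ => (MeromorphicOn.divisor u U s : ℝ) * Real.log ‖z - s‖) =
        ∑ s ∈ S, (fun z : ℂ => (MeromorphicOn.divisor u U s : ℝ) * Real.log ‖z - s‖) := by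
      apply finsum_eq_sum_of_support_subset
      intro s hs
      apply hsupp
      rw [Function.mem_support] at hs ⊢
      intro h
      apply hs
      funext z
      rw [h]
      simp
    rw [h3]
    funext z
    rw [Finset.sum_apply]
    refine Finset.sum_congr rfl fun s hs => ?_
    have h4 : s ∈ U := ((hS s).mp hs).1
    rw [hdiv, if_pos h4]
  have hcongr : Real.circleAverage (fun z => Real.log ‖u z‖) 0 r =
      Real.circleAverage ((fun z => ∑ s ∈ S, (ordZ u s : ℝ) * Real.log ‖z - s‖) +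
        fun z => Real.log ‖v z‖) 0 r := by
    apply Real.circleAverage_congr_codiscreteWithin
    · rw [← hsum]
      refine Filter.EventuallyEq.filter_mono (l := codiscreteWithin U) hlog (codiscreteWithin_mono ?_)
      intro z hz
      rw [mem_sphere_zero_iff_norm, abs_of_pos hr0] at hz
      rw [hU, mem_ofPred_eq, hz]
      exact ⟨h1, h2⟩
    · exact hr0.ne'
  have hint1 : ∀ s : ℂ, CircleIntegrable (fun z => Real.log ‖z - s‖) 0 r := fun s =>
    circleIntegrable_log_norm_sub_const r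
  have hint : CircleIntegrable (fun z => ∑ s ∈ S, (ordZ u s : ℝ) * Real.log ‖z - s‖) 0 r := by
    refine CircleIntegrable.fun_sum S fun s _ => ?_
    exact (hint1 s).const_fun_smul (a := (ordZ u s : ℝ))
  have hintv : CircleIntegrable (fun z => Real.log ‖v z‖) 0 r := by
    apply MeromorphicOn.circleIntegrable_log_norm
    intro z hz
    rw [mem_sphere_zero_iff_norm, abs_of_pos hr0] at hz
    refine (hv z ?_).meromorphicAt
    rw [hU, mem_ofPred_eq, hz]
    exact ⟨h1, h2⟩
  rw [hcongr, Real.circleAverage_add hint hintv, hab r h1 h2, Real.circleAverage_fun_sum]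
  · have h4 : ∀ s ∈ S, Real.circleAverage (fun z => (ordZ u s : ℝ) * Real.log ‖z - s‖) 0 r =
        ordZ u s * (Real.log r + Real.posLog (‖s‖ / r)) := by
      intro s _
      have h5 := Real.circleAverage_fun_smul (a := (ordZ u s : ℝ))
        (f := fun z => Real.log ‖z - s‖) (c := 0) (R := r)
      simp only [smul_eq_mul] at h5
      rw [h5, circleAverage_log_norm_sub_const_eq_log_radius_add_posLog hr0.ne', zero_sub, norm_neg,
        inv_mul_eq_div]
    rw [Finset.sum_congr rfl h4]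
    simp only [mul_add, Finset.sum_add_distrib, ← Finset.sum_mul, add_mul]
    ring
  · intro s _
    exact (hint1 s).const_fun_smul (a := (ordZ u s : ℝ))

/-- **Jensen's formula on a punctured disc.** -/
theorem jensen_punctured {u : ℂ → ℂ} {R₀ R₁ : ℝ} (hR₁ : R₁ < R₀)
    (hu : ∀ z, 0 < ‖z‖ → ‖z‖ < R₀ → MeromorphicAt u z)
    (ho : ∀ z, 0 < ‖z‖ → ‖z‖ < R₀ → meromorphicOrderAt u z ≠ ⊤) :
    ∃ A B : ℝ, ∀ r, 0 < r → r < R₁ → ∀ S : Finset ℂ, (∀ s ∈ S, ‖s‖ < R₁) →
      (∀ s, r < ‖s‖ → ‖s‖ < R₁ → ordZ u s ≠ 0 → s ∈ S) →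
      Real.circleAverage (fun z => Real.log ‖u z‖) 0 r =
        A + B * Real.log r + ∑ s ∈ S, ordZ u s * Real.posLog (‖s‖ / r) := by
  classical
  rcases le_or_gt R₁ 0 with hle | hR1pos
  · exact ⟨0, 0, fun r h1 h2 => absurd (h1.trans h2) (not_lt.mpr hle)⟩
  -- the finite sets of zeros
  have hfin : ∀ r : ℝ, 0 < r → {s : ℂ | (r < ‖s‖ ∧ ‖s‖ < R₁) ∧ ordZ u s ≠ 0}.Finite := by
    intro r hr
    refine (finite_ordZ hr hR₁ hu).subset ?_
    rintro s ⟨⟨h1, h2⟩, h3⟩
    exact ⟨h1.le, h2.le, h3⟩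
  -- independence of the set
  have hindep : ∀ r, 0 < r → ∀ S : Finset ℂ, (∀ s ∈ S, ‖s‖ < R₁) →
      (∀ s, r < ‖s‖ → ‖s‖ < R₁ → ordZ u s ≠ 0 → s ∈ S) → ∀ S' : Finset ℂ,
      (∀ s ∈ S', ‖s‖ < R₁) → (∀ s, r < ‖s‖ → ‖s‖ < R₁ → ordZ u s ≠ 0 → s ∈ S') →
      ∑ s ∈ S, ordZ u s * Real.posLog (‖s‖ / r) = ∑ s ∈ S', ordZ u s * Real.posLog (‖s‖ / r) := by
    intro r hr S hS1 hS2 S' hS'1 hS'2
    have hz : ∀ s, (ordZ u s : ℝ) * Real.posLog (‖s‖ / r) ≠ 0 → r < ‖s‖ ∧ ordZ u s ≠ 0 := by
      intro s hs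
      refine ⟨?_, fun h => hs (by rw [h]; simp)⟩
      by_contra h
      apply hs
      have h1 : |‖s‖ / r| ≤ 1 := by
        rw [abs_of_nonneg (by positivity), div_le_one hr]
        exact not_lt.mp h
      rw [Real.posLog_eq_zero_iff _ |>.mpr h1, mul_zero]
    have h1 : ∀ T : Finset ℂ, (∀ s ∈ T, ‖s‖ < R₁) →
        (∀ s, r < ‖s‖ → ‖s‖ < R₁ → ordZ u s ≠ 0 → s ∈ T) →
        ∑ s ∈ T, (ordZ u s : ℝ) * Real.posLog (‖s‖ / r) =
          ∑ s ∈ (hfin r hr).toFinset, (ordZ u s : ℝ) * Real.posLog (‖s‖ / r) := by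
      intro T hT1 hT2
      symm
      apply Finset.sum_subset_zero_on_sdiff
      · intro s hs
        obtain ⟨⟨h1, h2⟩, h3⟩ := (hfin r hr).mem_toFinset.mp hs
        exact hT2 s h1 h2 h3
      · intro s hs
        rw [Finset.mem_sdiff] at hs
        by_contra h
        apply hs.2
        obtain ⟨h2, h3⟩ := hz s h
        exact (hfin r hr).mem_toFinset.mpr ⟨⟨h2, hT1 s hs.1⟩, h3⟩
      · intro s _
        rfl
    rw [h1 S hS1 hS2, h1 S' hS'1 hS'2]
  -- the formula on annuli
  have hann : ∀ r₁ : ℝ, 0 < r₁ → ∃ a b : ℝ, ∀ r, r₁ < r → r < R₁ → ∀ S : Finset ℂ,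
      (∀ s ∈ S, ‖s‖ < R₁) → (∀ s, r < ‖s‖ → ‖s‖ < R₁ → ordZ u s ≠ 0 → s ∈ S) →
      Real.circleAverage (fun z => Real.log ‖u z‖) 0 r =
        a + b * Real.log r + ∑ s ∈ S, ordZ u s * Real.posLog (‖s‖ / r) := by
    intro r₁ hr₁
    obtain ⟨a, b, hab⟩ := circleAverage_annulus hr₁ hR₁ hu ho (hfin r₁ hr₁).toFinset
      (fun s => (hfin r₁ hr₁).mem_toFinset)
    refine ⟨a, b, fun r h1 h2 S hS1 hS2 => ?_⟩
    rw [hab r h1 h2]
    congr 1
    refine hindep r (hr₁.trans h1) _ ?_ ?_ S hS1 hS2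
    · intro s hs
      exact ((hfin r₁ hr₁).mem_toFinset.mp hs).1.2
    · intro s h3 h4 h5
      exact (hfin r₁ hr₁).mem_toFinset.mpr ⟨⟨h1.trans h3, h4⟩, h5⟩
  -- reference points
  obtain ⟨A, B, hAB⟩ := hann (R₁ / 4) (by positivity)
  refine ⟨A, B, fun r h1 h2 S hS1 hS2 => ?_⟩
  obtain ⟨a, b, hab⟩ := hann (min (r / 2) (R₁ / 8)) (by positivity)
  have hmin1 : min (r / 2) (R₁ / 8) < r := (min_le_left _ _).trans_lt (by linarith)
  have hmin2 : min (r / 2) (R₁ / 8) < R₁ / 3 := (min_le_right _ _).trans_lt (by linarith)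
  have hmin3 : min (r / 2) (R₁ / 8) < R₁ / 2 := (min_le_right _ _).trans_lt (by linarith)
  have hT : ∀ (ρ : ℝ) (hρ : 0 < ρ), (∀ s ∈ (hfin ρ hρ).toFinset, ‖s‖ < R₁) ∧
      (∀ s, ρ < ‖s‖ → ‖s‖ < R₁ → ordZ u s ≠ 0 → s ∈ (hfin ρ hρ).toFinset) := by
    intro ρ hρ
    refine ⟨fun s hs => ((hfin ρ hρ).mem_toFinset.mp hs).1.2, fun s h3 h4 h5 => ?_⟩
    exact (hfin ρ hρ).mem_toFinset.mpr ⟨⟨h3, h4⟩, h5⟩
  have h3pos : 0 < R₁ / 3 := by positivity
  have h2pos : 0 < R₁ / 2 := by positivity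
  have e1 := hAB (R₁ / 3) (by linarith) (by linarith) _ (hT _ h3pos).1 (hT _ h3pos).2
  have e2 := hAB (R₁ / 2) (by linarith) (by linarith) _ (hT _ h2pos).1 (hT _ h2pos).2
  have e3 := hab (R₁ / 3) hmin2 (by linarith) _ (hT _ h3pos).1 (hT _ h3pos).2
  have e4 := hab (R₁ / 2) hmin3 (by linarith) _ (hT _ h2pos).1 (hT _ h2pos).2
  have e5 : A + B * Real.log (R₁ / 3) = a + b * Real.log (R₁ / 3) := by linarith
  have e6 : A + B * Real.log (R₁ / 2) = a + b * Real.log (R₁ / 2) := by linarith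
  have e7 : Real.log (R₁ / 3) < Real.log (R₁ / 2) := Real.log_lt_log h3pos (by linarith)
  have e8 : (B - b) * (Real.log (R₁ / 2) - Real.log (R₁ / 3)) = 0 := by linear_combination e6 - e5
  have e9 : B = b := by
    rcases mul_eq_zero.mp e8 with h | h
    · linarith
    · linarith
  have e10 : A = a := by
    rw [e9] at e5
    linarith
  rw [hab r hmin1 h2 S hS1 hS2, e9, e10]

end Pool.Agent.H92.GGL

end

section

/-!
# HE Nak: a relation

`w l`, `l ≤ N`, are elements of a ring `B`, `Q s` forms of degree `e`, `Qt` a form of degree `e` whose value at `w` is a unit, and `(w l) ^ n = ∑ s, b l s (w) * Q s (w)` with forms `b l s` of degree `n - e`.  By Nakayama's lemma there is a polynomial `r` with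
constant coefficient `1` such that `(w l) ^ n'` is annihilated by the value of `r` at the elements `Q s (w) / Qt (w)`.
-/

set_option autoImplicit false

open MvPolynomial

namespace Pool.Agent.HE

theorem hc_mul {σ R : Type*} [CommRing R] {p q : MvPolynomial σ R} {e : ℕ} (hp : p.IsHomogeneous e) (d : ℕ) :
    homogeneousComponent (d + e) (q * p) = homogeneousComponent d q * p := by
  classical
  have h1 : q * p = ∑ k ∈ Finset.range (q.totalDegree + 1), homogeneousComponent k q * p := by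
    rw [← Finset.sum_mul, sum_homogeneousComponent]
  rw [h1, map_sum]
  have h2 : ∀ k ∈ Finset.range (q.totalDegree + 1), homogeneousComponent (d + e) (homogeneousComponent k q * p) =
      if k = d then homogeneousComponent k q * p else 0 := by
    intro k _
    have h3 : (homogeneousComponent k q * p).IsHomogeneous (k + e) := (homogeneousComponent_isHomogeneous k q).mul hp
    rw [homogeneousComponent_of_mem ((mem_homogeneousSubmodule _ _).2 h3)]
    by_cases hk : k = d
    · rw [if_pos (by omega), if_pos hk]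
    · rw [if_neg (by omega), if_neg hk]
  rw [Finset.sum_congr rfl h2, Finset.sum_ite_eq']
  split_ifs with h
  · rfl
  · have h3 : homogeneousComponent d q = 0 := by
      refine homogeneousComponent_eq_zero _ _ ?_
      rw [Finset.mem_range] at h
      omega
    rw [h3, zero_mul]

theorem hc_mul_lt {σ R : Type*} [CommRing R] {p q : MvPolynomial σ R} {e : ℕ} (hp : p.IsHomogeneous e) {d : ℕ} (hd : d < e) :
    homogeneousComponent d (q * p) = 0 := by
  classical
  have h1 : q * p = ∑ k ∈ Finset.range (q.totalDegree + 1), homogeneousComponent k q * p := by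
    rw [← Finset.sum_mul, sum_homogeneousComponent]
  rw [h1, map_sum]
  refine Finset.sum_eq_zero fun k _ => ?_
  have h3 : (homogeneousComponent k q * p).IsHomogeneous (k + e) := (homogeneousComponent_isHomogeneous k q).mul hp
  rw [homogeneousComponent_of_mem ((mem_homogeneousSubmodule _ _).2 h3), if_neg (by omega)]

theorem nak {R₀ B ι : Type} [CommRing R₀] [CommRing B] [Fintype ι] {N : ℕ} (θ₀ : R₀ →+* B) (w : Fin (N + 1) → B) {e n : ℕ} {Q : ι → MvPolynomial (Fin (N + 1)) R₀} {Qt : MvPolynomial (Fin (N + 1)) R₀}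
    (hQt : Qt.IsHomogeneous e) {u : B} (hu : eval₂Hom θ₀ w Qt * u = 1) {b : Fin (N + 1) → ι → MvPolynomial (Fin (N + 1)) R₀} (hn0 : 0 < n) (hn : e ≤ n)
    (hb : ∀ l s, (b l s).IsHomogeneous (n - e)) (hid : ∀ l, w l ^ n = ∑ s, eval₂Hom θ₀ w (b l s) * eval₂Hom θ₀ w (Q s)) :
    ∃ r : MvPolynomial ι R₀, constantCoeff r = 1 ∧ ∀ l, w l ^ ((N + 1) * n) * eval₂Hom θ₀ (fun s => eval₂Hom θ₀ w (Q s) * u) r = 0 := by
  classical
  set Θ : MvPolynomial (Fin (N + 1)) R₀ →+* B := eval₂Hom θ₀ w with hΘ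
  set v : ι → B := fun s => Θ (Q s) * u with hv
  obtain ⟨n', hn'⟩ : ∃ n', n' = (N + 1) * n := ⟨_, rfl⟩
  letI : Algebra (MvPolynomial ι R₀) B := (eval₂Hom θ₀ v).toAlgebra
  have hsmul : ∀ (a : MvPolynomial ι R₀) (x : B), a • x = eval₂Hom θ₀ v a * x := fun a x => rfl
  have hCs : ∀ (c : R₀) (x : B), (C c : MvPolynomial ι R₀) • x = θ₀ c * x := by
    intro c x
    rw [hsmul, coe_eval₂Hom, eval₂_C]
  have hXs : ∀ (s : ι) (x : B), (X s : MvPolynomial ι R₀) • x = v s * x := by
    intro s x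
    rw [hsmul, coe_eval₂Hom, eval₂_X]
  set T : Finset (Fin (N + 1) →₀ ℕ) := Finset.finsuppAntidiag (Finset.univ : Finset (Fin (N + 1))) n' with hT
  have hmemT : ∀ α : Fin (N + 1) →₀ ℕ, α ∈ T ↔ α.degree = n' := by
    intro α
    rw [hT, Finset.mem_finsuppAntidiag, Finsupp.degree_eq_sum]
    exact ⟨fun h => h.1, fun h => ⟨h, Finset.subset_univ _⟩⟩
  set W : Submodule (MvPolynomial ι R₀) B := Submodule.span _ ((fun α : Fin (N + 1) →₀ ℕ => Θ (monomial α 1)) '' (T : Set (Fin (N + 1) →₀ ℕ))) with hW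
  set I : Ideal (MvPolynomial ι R₀) := Ideal.span (Set.range X) with hI
  have hWfg : W.FG := Submodule.fg_def.2 ⟨_, (Finset.finite_toSet T).image _, rfl⟩
  have hdeg : ∀ {P : MvPolynomial (Fin (N + 1)) R₀} {d : ℕ}, P.IsHomogeneous d → ∀ α ∈ P.support, α.degree = d := by
    intro P d hP α hα
    have h1 := hP (mem_support_iff.1 hα)
    have h2 : Finsupp.weight (1 : Fin (N + 1) → ℕ) α = Finsupp.degree α := (congrFun (congrArg DFunLike.coe (Finsupp.degree_eq_weight_one (σ := Fin (N + 1)) (R := ℕ))) α).symm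
    rw [← h2, h1]
  have hc1 : ∀ P : MvPolynomial (Fin (N + 1)) R₀, P.IsHomogeneous n' → Θ P ∈ W := by
    intro P hP
    rw [P.as_sum, map_sum]
    refine Submodule.sum_mem _ fun α hα => ?_
    have h1 : Θ (monomial α (coeff α P)) = (C (coeff α P) : MvPolynomial ι R₀) • Θ (monomial α 1) := by
      have h2 : (monomial α (coeff α P) : MvPolynomial (Fin (N + 1)) R₀) = C (coeff α P) * monomial α 1 := by
        rw [C_mul_monomial, mul_one]
      have h3 : Θ (C (coeff α P)) = θ₀ (coeff α P) := by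
        rw [hΘ, coe_eval₂Hom, eval₂_C]
      rw [hCs, h2, map_mul, h3]
    rw [h1]
    exact Submodule.smul_mem _ _ (Submodule.subset_span ⟨α, (hmemT α).2 (hdeg hP α hα), rfl⟩)
  have hWI : W ≤ I • W := by
    rw [hW, Submodule.span_le]
    rintro _ ⟨α, hα, rfl⟩
    have hα' := (hmemT α).1 hα
    simp only [SetLike.mem_coe]
    rw [← hW]
    have h1 : Θ (monomial α 1) = u * Θ (Qt * monomial α 1) := by
      rw [map_mul]
      linear_combination (-(Θ (monomial α 1))) * hu
    have h2 : (Qt * monomial α 1).IsHomogeneous (e + n') := hQt.mul (isHomogeneous_monomial 1 hα')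
    rw [h1, MvPolynomial.as_sum (Qt * monomial α 1), map_sum, Finset.mul_sum]
    refine Submodule.sum_mem _ fun β hβ => ?_
    have hβ' := hdeg h2 β hβ
    obtain ⟨l, hl⟩ : ∃ l, n ≤ β l := by
      by_contra hcon
      push Not at hcon
      have h3 : β.degree ≤ (N + 1) * (n - 1) := by
        rw [Finsupp.degree_eq_sum]
        refine (Finset.sum_le_sum fun l _ => Nat.le_pred_of_lt (hcon l)).trans ?_
        rw [Finset.sum_const, Finset.card_univ, Fintype.card_fin, smul_eq_mul]
        exact le_rfl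
      have h4 : (N + 1) * (n - 1) < (N + 1) * n := Nat.mul_lt_mul_of_pos_left (by omega) (Nat.succ_pos N)
      omega
    obtain ⟨c, hc⟩ : ∃ c, c = coeff β (Qt * monomial α 1) := ⟨_, rfl⟩
    rw [← hc]
    obtain ⟨β', hβ''⟩ : ∃ β', β = β' + Finsupp.single l n := ⟨β - Finsupp.single l n, by
      ext j
      rw [Finsupp.add_apply, Finsupp.tsub_apply]
      by_cases hj : j = l
      · subst hj
        rw [Finsupp.single_eq_same]
        omega
      · rw [Finsupp.single_eq_of_ne hj]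
        omega⟩
    have hd' : β'.degree = n' + e - n := by
      have h3 : β.degree = β'.degree + n := by
        rw [hβ'', map_add, Finsupp.degree_single]
      omega
    have h3 : (monomial β c : MvPolynomial (Fin (N + 1)) R₀) = monomial β' c * X l ^ n := by
      rw [hβ'', X_pow_eq_monomial, monomial_mul, mul_one]
    have h4 : Θ (X l) = w l := by rw [hΘ, coe_eval₂Hom, eval₂_X]
    have h5 : u * Θ (monomial β c) = ∑ s, (X s : MvPolynomial ι R₀) • Θ (monomial β' c * b l s) := by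
      rw [h3, map_mul, map_pow, h4, hid l, Finset.mul_sum, Finset.mul_sum]
      refine Finset.sum_congr rfl fun s _ => ?_
      rw [hXs, map_mul, hv]
      ring
    rw [h5]
    refine Submodule.sum_mem _ fun s _ => Submodule.smul_mem_smul (Ideal.subset_span ⟨s, rfl⟩) (hc1 _ ?_)
    have h6 := (isHomogeneous_monomial (σ := Fin (N + 1)) c hd').mul (hb l s)
    have h7 : n' + e - n + (n - e) = n' := by
      have : n ≤ n' := by
        rw [hn']
        exact Nat.le_mul_of_pos_left n (Nat.succ_pos N)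
      omega
    rwa [h7] at h6
  obtain ⟨r, hr1, hr2⟩ := Submodule.exists_sub_one_mem_and_smul_eq_zero_of_fg_of_le_smul I W hWfg hWI
  refine ⟨r, ?_, fun l => ?_⟩
  · have h1 : I ≤ RingHom.ker (constantCoeff (σ := ι) (R := R₀)) := by
      rw [hI, Ideal.span_le]
      rintro _ ⟨s, rfl⟩
      simp
    have h2 := h1 hr1
    rw [RingHom.mem_ker, map_sub, map_one, sub_eq_zero] at h2
    exact h2
  · have h1 := hr2 (Θ (monomial (Finsupp.single l n') 1)) (Submodule.subset_span ⟨_, (hmemT _).2 (Finsupp.degree_single l n'), rfl⟩)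
    have h2 : Θ (monomial (Finsupp.single l n') 1) = w l ^ n' := by
      rw [← X_pow_eq_monomial, map_pow, hΘ, coe_eval₂Hom, eval₂_X]
    rw [hsmul, h2, mul_comm] at h1
    rw [← hn']
    exact h1

end Pool.Agent.HE

end
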