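import Pool.Agent.H94.PX2.M06
import Pool.Agent.H94.PX2.M07
import Pool.Agent.H94.PX2.M11
import Pool.Agent.H94.PX2.M17
import Pool.Agent.H94.PX2.M18
import Pool.Agent.H94.PX2.PX.Bas

/-! The parts of this file: H62.FC.CharMero, PX.FibC, PY.Defs, PY.Bas, G3.PS.Jen. -/

section

/-!
# FC, module CharMero: small characteristic implies meromorphic at the puncture
-/

open Complex MeasureTheory Metric Set Topology Filter
open Pool.Agent.H92.GGL

noncomputable section

namespace Pool.Agent.H62.FC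

/-- A set of points of a punctured disc with small counting function for arbitrarily small
radii is finite. -/
private lemma CharMero_finite_of_count {P : Set ℂ} {C D : ℝ} (hP : ∀ s ∈ P, 0 < ‖s‖)
    (h : ∀ r₁, 0 < r₁ → ∃ r, 0 < r ∧ r < r₁ ∧ ∀ S : Finset ℂ, (∀ s ∈ S, s ∈ P) →
      ∑ s ∈ S, Real.posLog (‖s‖ / r) ≤ C - D * Real.log r) : P.Finite := by
  by_contra hinf
  obtain ⟨n₀, hn₀⟩ := exists_nat_gt D
  obtain ⟨S, hSP, hScard⟩ := (Set.not_finite.mp hinf).exists_subset_card_eq (n₀ + 1)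
  have hSne : S.Nonempty := by
    rw [← Finset.card_pos, hScard]
    omega
  obtain ⟨s₀, hs₀, hmin⟩ := S.exists_min_image (fun s => ‖s‖) hSne
  set δ := ‖s₀‖ with hδ
  have hδ0 : 0 < δ := hP s₀ (hSP hs₀)
  set n : ℝ := ((n₀ + 1 : ℕ) : ℝ) with hn
  have hnD : 1 < n - D := by
    rw [hn]
    push_cast
    linarith
  have hnpos : 0 ≤ n := Nat.cast_nonneg _
  set t₀ : ℝ := max (1 + -Real.log δ) (|C - n * Real.log δ| + 1) with ht₀
  obtain ⟨r, hr0, hr1, hr⟩ := h (Real.exp (-t₀)) (Real.exp_pos _)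
  set t : ℝ := -Real.log r with ht
  have hrt : r = Real.exp (-t) := by
    rw [ht, neg_neg, Real.exp_log hr0]
  have htt : t₀ < t := by
    have := Real.log_lt_log hr0 hr1
    rw [Real.log_exp] at this
    linarith
  have ht1 : -Real.log δ < t := by
    have h1 := le_max_left (1 + -Real.log δ) (|C - n * Real.log δ| + 1)
    linarith
  have ht3 : |C - n * Real.log δ| + 1 ≤ t := (le_max_right _ _).trans htt.le
  have hr2 : Real.exp (-t) < δ := by
    rw [← Real.exp_log hδ0]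
    exact Real.exp_lt_exp.mpr (by linarith)
  have h1 := hr S (fun s hs => hSP hs)
  rw [hrt, Real.log_exp] at h1
  have h2 : n * (Real.log δ + t) ≤ ∑ s ∈ S, Real.posLog (‖s‖ / Real.exp (-t)) := by
    have h3 : ∑ _s ∈ S, (Real.log δ + t) = n * (Real.log δ + t) := by
      rw [Finset.sum_const, hScard, nsmul_eq_mul]
    rw [← h3]
    refine Finset.sum_le_sum fun s hs => ?_
    have h4 : δ ≤ ‖s‖ := hmin s hs
    have h5 : Real.log δ + t = Real.log (δ / Real.exp (-t)) := by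
      rw [Real.log_div hδ0.ne' (Real.exp_pos _).ne', Real.log_exp]
      ring
    rw [h5]
    refine le_trans ?_ (le_max_right _ _)
    refine Real.log_le_log (by positivity) ?_
    gcongr
  have h6 : (n - D) * t ≤ C - n * Real.log δ := by linarith
  have h7 : t ≤ (n - D) * t := by
    have : 0 ≤ t := by
      have := abs_nonneg (C - n * Real.log δ)
      linarith
    nlinarith
  have h8 := le_abs_self (C - n * Real.log δ)
  linarith

private theorem CharMero_core {u : ℂ → ℂ} {R₀ R₁ : ℝ} (hR₁0 : 0 < R₁) (hR₁ : R₁ < R₀)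
    (hu : ∀ z, 0 < ‖z‖ → ‖z‖ < R₀ → MeromorphicAt u z) {C D : ℝ}
    (hT : ∀ r₁, 0 < r₁ → ∃ r, 0 < r ∧ r < r₁ ∧ r < R₁ ∧
      ∀ S : Finset ℂ, (∀ s ∈ S, 0 < ‖s‖ ∧ ‖s‖ < R₁) →
      Real.circleAverage (fun z => Real.posLog ‖u z‖) 0 r +
        ∑ s ∈ S, max (-(ordZ u s : ℝ)) 0 * Real.posLog (‖s‖ / r) ≤ C - D * Real.log r) :
    PunctMero u := by
  classical
  set Ω : Set ℂ := {z : ℂ | 0 < ‖z‖ ∧ ‖z‖ < R₀} with hΩ
  have hΩo : IsOpen Ω := isOpen_punctured R₀
  have hm : MeromorphicOn u Ω := fun z hz => hu z hz.1 hz.2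
  -- the constant case
  by_cases hconst : ∃ c, ∃ z ∈ Ω, meromorphicOrderAt (fun z => u z - c) z = ⊤
  · obtain ⟨c, z₀, hz₀, hc⟩ := hconst
    have hmc : MeromorphicOn (fun z => u z - c) Ω := fun z hz =>
      (hm z hz).sub (MeromorphicAt.const c z)
    have hall : ∀ z ∈ Ω, meromorphicOrderAt (fun z => u z - c) z = ⊤ := by
      intro z hz
      by_contra h
      exact (hmc.meromorphicOrderAt_ne_top_of_isPreconnected (isPreconnected_punctured R₀) hz
        hz₀ h) hc
    refine ⟨fun _ => c, MeromorphicAt.const c 0, ?_⟩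
    filter_upwards [punctured_mem (hR₁0.trans hR₁)] with z hz
    have h3 := hall z hz
    rw [meromorphicOrderAt_eq_top_iff] at h3
    filter_upwards [h3] with w hw
    exact sub_eq_zero.mp hw
  push Not at hconst
  have hord : ∀ z ∈ Ω, meromorphicOrderAt u z ≠ ⊤ := by
    intro z hz
    have := hconst 0 z hz
    simpa using this
  have hsub : ∀ s : ℂ, 0 < ‖s‖ → ‖s‖ < R₁ → s ∈ Ω := fun s h1 h2 => ⟨h1, h2.trans hR₁⟩
  -- integrability
  have hsph : ∀ r, 0 < r → r < R₁ → MeromorphicOn u (sphere 0 |r|) := by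
    intro r h1 h2 z hz
    rw [mem_sphere_zero_iff_norm, abs_of_pos h1] at hz
    exact hm z (hsub z (by rw [hz]; exact h1) (by rw [hz]; exact h2))
  have hposnn : ∀ r, 0 < r → r < R₁ → 0 ≤ Real.circleAverage (fun z => Real.posLog ‖u z‖) 0 r := by
    intro r h1 h2
    exact Real.circleAverage_nonneg_of_nonneg fun z _ => Real.posLog_nonneg
  -- finitely many poles
  have hpoles : {s : ℂ | (0 < ‖s‖ ∧ ‖s‖ < R₁) ∧ ordZ u s < 0}.Finite := by
    refine CharMero_finite_of_count (C := C) (D := D) (fun s hs => hs.1.1) ?_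
    intro r₁ hr₁
    obtain ⟨r, h1, h1', h2, hTr⟩ := hT r₁ hr₁
    refine ⟨r, h1, h1', fun S hS => ?_⟩
    have h3 := hTr S (fun s hs => (hS s hs).1)
    have h4 := hposnn r h1 h2
    refine le_trans ?_ (le_trans (by linarith) h3) (b := ∑ s ∈ S, max (-(ordZ u s : ℝ)) 0 *
      Real.posLog (‖s‖ / r))
    refine Finset.sum_le_sum fun s hs => ?_
    have h5 : ordZ u s ≤ -1 := by
      have := (hS s hs).2
      omega
    have h6 : (ordZ u s : ℝ) ≤ -1 := by exact_mod_cast h5
    have h7 : (1 : ℝ) ≤ max (-(ordZ u s : ℝ)) 0 := le_max_of_le_left (by linarith)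
    have h8 : 0 ≤ Real.posLog (‖s‖ / r) := Real.posLog_nonneg
    nlinarith
  -- finitely many zeros of `u - c`
  have hzeros : ∀ c : ℂ, {s : ℂ | (0 < ‖s‖ ∧ ‖s‖ < R₁) ∧ 0 < ordZ (fun z => u z - c) s}.Finite := by
    intro c
    have hmc : ∀ z, 0 < ‖z‖ → ‖z‖ < R₀ → MeromorphicAt (fun z => u z - c) z := fun z h1 h2 =>
      (hu z h1 h2).sub (MeromorphicAt.const c z)
    obtain ⟨A, B, hJ⟩ := jensen_punctured hR₁ hmc (fun z h1 h2 => hconst c z ⟨h1, h2⟩)
    refine CharMero_finite_of_count (C := C + Real.posLog ‖c‖ + Real.log 2 - A) (D := D + B)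
      (fun s hs => hs.1.1) ?_
    intro r₁ hr₁
    obtain ⟨r, h1, h1', h2, hTr⟩ := hT r₁ hr₁
    refine ⟨r, h1, h1', fun S hS => ?_⟩
    have hfin := finite_ordZ (a := r) (b := R₁) h1 hR₁ hmc
    set S' : Finset ℂ := S ∪ hfin.toFinset.filter (fun s => ‖s‖ < R₁) with hS'
    have hS'1 : ∀ s ∈ S', 0 < ‖s‖ ∧ ‖s‖ < R₁ := by
      intro s hs
      rw [hS', Finset.mem_union, Finset.mem_filter, hfin.mem_toFinset] at hs
      rcases hs with hs | hs
      · exact (hS s hs).1
      · exact ⟨h1.trans_le hs.1.1, hs.2⟩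
    have hS'2 : ∀ s, r < ‖s‖ → ‖s‖ < R₁ → ordZ (fun z => u z - c) s ≠ 0 → s ∈ S' := by
      intro s h3 h4 h5
      rw [hS', Finset.mem_union, Finset.mem_filter, hfin.mem_toFinset]
      exact Or.inr ⟨⟨h3.le, h4.le, h5⟩, h4⟩
    have h3 := hJ r h1 h2 S' (fun s hs => (hS'1 s hs).2) hS'2
    have h4 := hTr S' hS'1
    -- comparison of the means
    have hsphc : MeromorphicOn (fun z => u z - c) (sphere 0 |r|) := fun z hz =>
      (hsph r h1 h2 z hz).sub (MeromorphicAt.const c z)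
    have h5 : Real.circleAverage (fun z => Real.log ‖u z - c‖) 0 r ≤
        Real.circleAverage (fun z => Real.posLog ‖u z‖) 0 r + (Real.posLog ‖c‖ + Real.log 2) := by
      have h6 : Real.circleAverage (fun z => Real.posLog ‖u z‖ + (Real.posLog ‖c‖ + Real.log 2)) 0 r =
          Real.circleAverage (fun z => Real.posLog ‖u z‖) 0 r +
            (Real.posLog ‖c‖ + Real.log 2) := by
        rw [Real.circleAverage_fun_add (MeromorphicOn.circleIntegrable_posLog_norm (hsph r h1 h2))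
          (circleIntegrable_const _ _ _), Real.circleAverage_const]
      rw [← h6]
      refine Real.circleAverage_mono (MeromorphicOn.circleIntegrable_log_norm hsphc) ?_ ?_
      · exact (MeromorphicOn.circleIntegrable_posLog_norm (hsph r h1 h2)).fun_add
          (circleIntegrable_const _ _ _)
      · intro z _
        have h7 : Real.log ‖u z - c‖ ≤ Real.posLog ‖u z - c‖ := le_max_right _ _
        have h8 := Real.posLog_norm_add_le (u z) (-c)
        rw [norm_neg, ← sub_eq_add_neg] at h8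
        linarith
    -- comparison of the sums
    have h6 : ∑ s ∈ S, Real.posLog (‖s‖ / r) ≤
        ∑ s ∈ S', (ordZ (fun z => u z - c) s : ℝ) * Real.posLog (‖s‖ / r) +
        ∑ s ∈ S', max (-(ordZ u s : ℝ)) 0 * Real.posLog (‖s‖ / r) := by
      rw [← Finset.sum_add_distrib]
      have h7 : ∑ s ∈ S, Real.posLog (‖s‖ / r) ≤
          ∑ s ∈ S', max (ordZ (fun z => u z - c) s : ℝ) 0 * Real.posLog (‖s‖ / r) := by
        refine le_trans (b := ∑ s ∈ S, max (ordZ (fun z => u z - c) s : ℝ) 0 *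
          Real.posLog (‖s‖ / r)) ?_ ?_
        · refine Finset.sum_le_sum fun s hs => ?_
          have h8 : 1 ≤ ordZ (fun z => u z - c) s := by
            have := (hS s hs).2
            omega
          have h9 : (1 : ℝ) ≤ ordZ (fun z => u z - c) s := by exact_mod_cast h8
          have h10 : (1 : ℝ) ≤ max (ordZ (fun z => u z - c) s : ℝ) 0 := le_max_of_le_left h9
          have h11 : 0 ≤ Real.posLog (‖s‖ / r) := Real.posLog_nonneg
          nlinarith
        · refine Finset.sum_le_sum_of_subset_of_nonneg Finset.subset_union_left ?_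
          intro s _ _
          exact mul_nonneg (le_max_right _ _) Real.posLog_nonneg
      refine h7.trans (Finset.sum_le_sum fun s hs => ?_)
      have hs' := hS'1 s hs
      have h8 := neg_ordZ_sub_const_le (hu s hs'.1 (hs'.2.trans hR₁)) (hord s (hsub s hs'.1 hs'.2))
        (hconst c s (hsub s hs'.1 hs'.2))
      rw [← add_mul]
      refine mul_le_mul_of_nonneg_right ?_ Real.posLog_nonneg
      have h9 : max (ordZ (fun z => u z - c) s : ℝ) 0 = ordZ (fun z => u z - c) s +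
          max (-(ordZ (fun z => u z - c) s : ℝ)) 0 := by
        rcases le_total (ordZ (fun z => u z - c) s : ℝ) 0 with h | h
        · rw [max_eq_right h, max_eq_left (by linarith)]
          ring
        · rw [max_eq_left h, max_eq_right (by linarith)]
          ring
      rw [h9]
      linarith
    linarith
  -- the normal form
  set v : ℂ → ℂ := toMeromorphicNFOn u Ω with hv
  have hvNF : MeromorphicNFOn v Ω := meromorphicNFOn_toMeromorphicNFOn u Ω
  have huv : ∀ z ∈ Ω, u =ᶠ[𝓝[≠] z] v := fun z hz =>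
    (hm.toMeromorphicNFOn_eq_self_on_nhdsNE hz).symm
  obtain ⟨ε₁, hε₁, hε₁P⟩ := exists_radius hpoles (fun s hs => hs.1.1)
  have hnonneg : ∀ z, 0 < ‖z‖ → ‖z‖ < min ε₁ R₁ → 0 ≤ meromorphicOrderAt u z := by
    intro z h1 h2
    have h3 : ‖z‖ < ε₁ := h2.trans_le (min_le_left _ _)
    have h4 : ‖z‖ < R₁ := h2.trans_le (min_le_right _ _)
    by_contra h
    push Not at h
    have h5 : ordZ u z < 0 := by
      rw [← ordZ_cast (hord z (hsub z h1 h4))] at h
      exact_mod_cast h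
    exact absurd (hε₁P z ⟨⟨h1, h4⟩, h5⟩) (not_le.mpr h3)
  have hvan : ∀ z, 0 < ‖z‖ → ‖z‖ < min ε₁ R₁ → AnalyticAt ℂ v z := by
    intro z h1 h2
    have hz : z ∈ Ω := hsub z h1 (h2.trans_le (min_le_right _ _))
    rw [← (hvNF hz).meromorphicOrderAt_nonneg_iff_analyticAt, ← meromorphicOrderAt_congr (huv z hz)]
    exact hnonneg z h1 h2
  have hmin : 0 < min ε₁ R₁ := lt_min hε₁ hR₁0
  have hmero : MeromorphicAt v 0 := by
    refine meromorphicAt_of_omits hmin hvan fun c => ?_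
    obtain ⟨δ, hδ, hδP⟩ := exists_radius (hzeros c) (fun s hs => hs.1.1)
    refine ⟨min δ (min ε₁ R₁), lt_min hδ hmin, fun z h1 h2 hzc => ?_⟩
    have h3 : ‖z‖ < δ := h2.trans_le (min_le_left _ _)
    have h4 : ‖z‖ < min ε₁ R₁ := h2.trans_le (min_le_right _ _)
    have h5 : ‖z‖ < R₁ := h4.trans_le (min_le_right _ _)
    have hz : z ∈ Ω := hsub z h1 h5
    have h6 : AnalyticAt ℂ (fun w => v w - c) z := (hvan z h1 h4).sub analyticAt_const
    have h7 : (fun w => u w - c) =ᶠ[𝓝[≠] z] fun w => v w - c := by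
      filter_upwards [huv z hz] with w hw
      rw [hw]
    have h8 : 0 < ordZ (fun w => u w - c) z := by
      have h9 : 0 < meromorphicOrderAt (fun w => u w - c) z := by
        rw [meromorphicOrderAt_congr h7, ← tendsto_zero_iff_meromorphicOrderAt_pos h6.meromorphicAt]
        have h10 := h6.continuousAt.tendsto
        simp only [hzc, sub_self] at h10
        exact h10.mono_left nhdsWithin_le_nhds
      rw [← ordZ_cast (hconst c z hz)] at h9
      exact_mod_cast h9
    exact absurd (hδP z ⟨⟨h1, h5⟩, h8⟩) (not_le.mpr h3)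
  refine ⟨v, hmero, ?_⟩
  filter_upwards [punctured_mem (hR₁0.trans hR₁)] with z hz
  exact huv z hz

theorem punctMero_of_nevT {R₀ R₁ : ℝ} (h1 : 0 < R₁) (h : R₁ < R₀) {u : ℂ → ℂ}
    (hu : MeroPunct R₀ u) {C : ℝ} {E : Set ℝ} (hE : volume E ≠ ⊤)
    (hT : ∀ x, Real.exp (-x) < R₁ → x ∉ E → nevT u R₁ x ≤ C * (1 + |x|)) : PunctMero u := by
  classical
  refine CharMero_core h1 h hu.mero (C := C) (D := C) ?_
  intro r₁ hr₁
  -- a good radius
  set a : ℝ := max 0 (max (-Real.log r₁) (-Real.log R₁)) with ha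
  obtain ⟨x, hxa, hxE⟩ : ∃ x, a < x ∧ x ∉ E := by
    by_contra hcon
    push Not at hcon
    have h2 : Set.Ioi a ⊆ E := fun x hx => hcon x hx
    have h3 := measure_mono (μ := volume) h2
    rw [Real.volume_Ioi] at h3
    exact hE (top_le_iff.mp h3)
  have hx0 : 0 < x := lt_of_le_of_lt (le_max_left _ _) hxa
  have hxr : -Real.log r₁ < x :=
    lt_of_le_of_lt ((le_max_left _ _).trans (le_max_right _ _)) hxa
  have hxR : -Real.log R₁ < x :=
    lt_of_le_of_lt ((le_max_right _ _).trans (le_max_right _ _)) hxa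
  have hr1 : Real.exp (-x) < r₁ := by
    rw [← Real.exp_log hr₁]
    exact Real.exp_lt_exp.mpr (by linarith)
  have hr2 : Real.exp (-x) < R₁ := by
    rw [← Real.exp_log h1]
    exact Real.exp_lt_exp.mpr (by linarith)
  refine ⟨Real.exp (-x), Real.exp_pos _, hr1, hr2, fun S hS => ?_⟩
  have h2 := hT x hr2 hxE
  rw [abs_of_pos hx0] at h2
  rw [Real.log_exp]
  set r : ℝ := Real.exp (-x) with hr
  have hr0 : 0 < r := Real.exp_pos _
  -- the counting function as a finite sum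
  have hfin := finite_ordZ (a := r) (b := R₁) hr0 h hu.mero
  set T : Finset ℂ := hfin.toFinset.filter (fun s => r < ‖s‖ ∧ ‖s‖ < R₁) with hTd
  have hcnt : cnt (fun s => max (-(ordZ u s : ℝ)) 0) R₁ r =
      ∑ s ∈ T, max (-(ordZ u s : ℝ)) 0 * Real.log (‖s‖ / r) := by
    unfold cnt
    refine finsum_mem_eq_sum_of_inter_support_eq _ ?_
    ext s
    simp only [Set.mem_inter_iff, Function.mem_support, Finset.mem_coe, hTd, Finset.mem_filter,
      Set.Finite.mem_toFinset]
    constructor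
    · rintro ⟨⟨h3, h4⟩, h5⟩
      refine ⟨⟨⟨h3.le, h4.le, ?_⟩, h3, h4⟩, h5⟩
      intro h6
      apply h5
      rw [h6]
      simp
    · rintro ⟨⟨_, h3, h4⟩, h5⟩
      exact ⟨⟨h3, h4⟩, h5⟩
  have hle : ∑ s ∈ S, max (-(ordZ u s : ℝ)) 0 * Real.posLog (‖s‖ / r) ≤
      ∑ s ∈ T, max (-(ordZ u s : ℝ)) 0 * Real.log (‖s‖ / r) := by
    have h3 : ∑ s ∈ T, max (-(ordZ u s : ℝ)) 0 * Real.log (‖s‖ / r) =
        ∑ s ∈ T, max (-(ordZ u s : ℝ)) 0 * Real.posLog (‖s‖ / r) := by
      refine Finset.sum_congr rfl fun s hs => ?_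
      have hs' : r < ‖s‖ := (Finset.mem_filter.mp hs).2.1
      have h4 : Real.posLog (‖s‖ / r) = Real.log (‖s‖ / r) := by
        refine max_eq_right (Real.log_nonneg ?_)
        rw [one_le_div hr0]
        exact hs'.le
      rw [h4]
    rw [h3]
    have h4 : ∑ s ∈ T, max (-(ordZ u s : ℝ)) 0 * Real.posLog (‖s‖ / r) =
        ∑ s ∈ S ∪ T, max (-(ordZ u s : ℝ)) 0 * Real.posLog (‖s‖ / r) := by
      refine Finset.sum_subset Finset.subset_union_right ?_
      intro s hs hsT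
      have hsS : s ∈ S := by
        rcases Finset.mem_union.mp hs with h5 | h5
        · exact h5
        · exact absurd h5 hsT
      have hsn := hS s hsS
      by_cases h5 : r < ‖s‖
      · have h6 : ordZ u s = 0 := by
          by_contra h6
          apply hsT
          rw [hTd, Finset.mem_filter, hfin.mem_toFinset]
          exact ⟨⟨h5.le, hsn.2.le, h6⟩, h5, hsn.2⟩
        rw [h6]
        simp
      · have h6 : Real.posLog (‖s‖ / r) = 0 := by
          rw [Real.posLog_eq_zero_iff, abs_of_nonneg (by positivity), div_le_one hr0]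
          exact not_lt.mp h5
        rw [h6, mul_zero]
    rw [h4]
    exact Finset.sum_le_sum_of_subset_of_nonneg Finset.subset_union_left
      fun s _ _ => mul_nonneg (le_max_right _ _) Real.posLog_nonneg
  have h3 : nevT u R₁ x = Real.circleAverage (fun z => Real.posLog ‖u z‖) 0 r +
      cnt (fun s => max (-(ordZ u s : ℝ)) 0) R₁ r := rfl
  rw [h3, hcnt] at h2
  linarith

end Pool.Agent.H62.FC

end
end

section

/-!
# PX FibC: entire curves in a fibre with three distinct roots; openness of `R3`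

`fib_const`: as `PD.fib` (`cross`, `little_picard`).  `r3_open`: if the form over `y₀` is not `0` and has three distinct roots then so do the forms over the points near `y₀` (Hurwitz / continuity of the roots: choose `b` with `Fo θ y₀ b ≠ 0`, disjoint small discs around the three numbers `t`).
-/

set_option autoImplicit false

open Topology Filter Metric

namespace Pool.Agent.PX

open Pool.Agent.H36.BP (EN fs wd)
open Pool.Agent.H62.EF (MN)
open Pool.Agent.AD (Vd)
open Pool.Agent.TG (Lat)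
open Pool.Agent.G3 (wt)
open Pool.Agent.G4 (Few)

variable {k d r : ℕ}

/-- there are three distinct roots -/
def R3 (θ : Fin (d + 1) → Vd (k + 1) → ℂ) (y : Vd (k + 1)) : Prop :=
  ∃ x₁ x₂ x₃ : EN 1, Fo θ y x₁ = 0 ∧ Fo θ y x₂ = 0 ∧ Fo θ y x₃ = 0 ∧ dt x₁ x₂ ≠ 0 ∧ dt x₁ x₃ ≠ 0 ∧ dt x₂ x₃ ≠ 0

theorem ne_of_dt {x v : EN 1} (h : dt x v ≠ 0) : x ≠ 0 := by
  rintro rfl
  exact h (by simp [dt])

theorem ne_of_dt' {x v : EN 1} (h : dt x v ≠ 0) : v ≠ 0 := by
  rintro rfl
  exact h (by simp [dt])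

theorem coord_diff {G : ℂ → EN 1} (hG : Differentiable ℂ G) (i : Fin 2) : Differentiable ℂ fun z => G z i :=
  ((EuclideanSpace.proj i : EN 1 →L[ℂ] ℂ).differentiable).comp hG

/-- the polynomial `t ↦ Fo θ y (x + t b)` -/
private noncomputable def Pl (θ : Fin (d + 1) → Vd (k + 1) → ℂ) (y : Vd (k + 1)) (x b : EN 1) : Polynomial ℂ :=
  ∑ i : Fin (d + 1), Polynomial.C (θ i y) * ((Polynomial.C (b 0) * Polynomial.X + Polynomial.C (x 0)) ^ (i : ℕ) *
    (Polynomial.C (b 1) * Polynomial.X + Polynomial.C (x 1)) ^ (d - (i : ℕ)))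

private theorem pl_eval (θ : Fin (d + 1) → Vd (k + 1) → ℂ) (y : Vd (k + 1)) (x b : EN 1) (t : ℂ) :
    (Pl θ y x b).eval t = Fo θ y (x + t • b) := by
  unfold Pl Fo
  rw [Polynomial.eval_finsetSum]
  refine Finset.sum_congr rfl fun i _ => ?_
  simp only [Polynomial.eval_mul, Polynomial.eval_C, Polynomial.eval_pow, Polynomial.eval_add, Polynomial.eval_X, PiLp.add_apply, PiLp.smul_apply, smul_eq_mul]
  ring

private theorem lin_deg (a c : ℂ) (n : ℕ) : ((Polynomial.C a * Polynomial.X + Polynomial.C c) ^ n).natDegree ≤ n := by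
  refine Polynomial.natDegree_pow_le.trans ?_
  have := Polynomial.natDegree_linear_le (a := a) (b := c)
  nlinarith

private theorem lin_coeff (a c : ℂ) (n : ℕ) : ((Polynomial.C a * Polynomial.X + Polynomial.C c) ^ n).coeff n = a ^ n := by
  have h := Polynomial.coeff_pow_of_natDegree_le (p := Polynomial.C a * Polynomial.X + Polynomial.C c) (n := 1) (m := n) Polynomial.natDegree_linear_le
  rw [mul_one] at h
  rw [h]
  simp

private theorem pl_deg (θ : Fin (d + 1) → Vd (k + 1) → ℂ) (y : Vd (k + 1)) (x b : EN 1) : (Pl θ y x b).natDegree ≤ d := by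
  unfold Pl
  refine Polynomial.natDegree_sum_le_of_forall_le _ _ fun i _ => ?_
  refine (Polynomial.natDegree_C_mul_le _ _).trans (Polynomial.natDegree_mul_le.trans ?_)
  have h1 := lin_deg (b 0) (x 0) (i : ℕ)
  have h2 := lin_deg (b 1) (x 1) (d - (i : ℕ))
  have h3 : (i : ℕ) ≤ d := by omega
  omega

private theorem pl_coeff (θ : Fin (d + 1) → Vd (k + 1) → ℂ) (y : Vd (k + 1)) (x b : EN 1) : (Pl θ y x b).coeff d = Fo θ y b := by
  unfold Pl Fo
  rw [Polynomial.finsetSum_coeff]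
  refine Finset.sum_congr rfl fun i _ => ?_
  rw [Polynomial.coeff_C_mul]
  have h3 : (i : ℕ) + (d - (i : ℕ)) = d := by omega
  have h := Polynomial.coeff_mul_add_eq_of_natDegree_le (lin_deg (b 0) (x 0) (i : ℕ)) (lin_deg (b 1) (x 1) (d - (i : ℕ)))
  rw [h3] at h
  rw [h, lin_coeff, lin_coeff]
  ring

private theorem prod_low {ε : ℝ} (hε : 0 ≤ ε) (s : Multiset ℂ) (h : ∀ a ∈ s, ε ≤ ‖a‖) : ε ^ s.card ≤ ‖(s.map fun a => -a).prod‖ := by
  induction s using Multiset.induction_on with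
  | empty => simp
  | cons a s ih =>
    rw [Multiset.card_cons, Multiset.map_cons, Multiset.prod_cons, norm_mul, norm_neg, pow_succ, mul_comm]
    exact mul_le_mul (h a (Multiset.mem_cons_self a s)) (ih fun b hb => h b (Multiset.mem_cons_of_mem hb)) (pow_nonneg hε _) (norm_nonneg _)

/-- a root of modulus `< ε` -/
private theorem small_root (θ : Fin (d + 1) → Vd (k + 1) → ℂ) (y : Vd (k + 1)) (x b : EN 1) {ε : ℝ} (hε : 0 < ε) (h : ‖Fo θ y x‖ < ‖Fo θ y b‖ * ε ^ d) :
    ∃ t : ℂ, ‖t‖ < ε ∧ Fo θ y (x + t • b) = 0 := by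
  by_contra hcon
  push Not at hcon
  have hb : Fo θ y b ≠ 0 := by
    intro h0
    rw [h0, norm_zero, zero_mul] at h
    exact absurd h (not_lt.2 (norm_nonneg _))
  have hdeg : (Pl θ y x b).natDegree = d := by
    refine le_antisymm (pl_deg θ y x b) (Polynomial.le_natDegree_of_ne_zero ?_)
    rw [pl_coeff]
    exact hb
  have hlc : (Pl θ y x b).leadingCoeff = Fo θ y b := by
    rw [Polynomial.leadingCoeff, hdeg, pl_coeff]
  have hcard : (Pl θ y x b).roots.card = (Pl θ y x b).natDegree := IsAlgClosed.card_roots_eq_natDegree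
  have hne : Pl θ y x b ≠ 0 := by
    intro h0
    rw [h0, Polynomial.leadingCoeff_zero] at hlc
    exact hb hlc.symm
  have hfac := Polynomial.C_leadingCoeff_mul_prod_multiset_X_sub_C hcard
  have hev : (Pl θ y x b).eval 0 = Fo θ y b * ((Pl θ y x b).roots.map fun a => -a).prod := by
    conv_lhs => rw [← hfac]
    rw [Polynomial.eval_mul, Polynomial.eval_C, hlc, Polynomial.eval_multiset_prod, Multiset.map_map]
    congr 2
    refine Multiset.map_congr rfl fun a _ => ?_
    simp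
  have h0 : (Pl θ y x b).eval 0 = Fo θ y x := by
    rw [pl_eval, zero_smul, add_zero]
  have hlow := prod_low hε.le (Pl θ y x b).roots (fun a ha => by
    by_contra hlt
    refine hcon a (not_le.1 hlt) ?_
    rw [← pl_eval]
    exact (Polynomial.mem_roots hne).1 ha)
  rw [hcard, hdeg] at hlow
  have h1 : ‖Fo θ y b‖ * ε ^ d ≤ ‖Fo θ y x‖ := by
    rw [← h0, hev, norm_mul]
    exact mul_le_mul_of_nonneg_left hlow (norm_nonneg _)
  exact absurd h (not_lt.2 h1)

private theorem fo_cont {θ : Fin (d + 1) → Vd (k + 1) → ℂ} (han : ∀ i, Differentiable ℂ (θ i)) (x : EN 1) : Continuous fun y => Fo θ y x := by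
  have h := (fo_diff han).continuous
  exact h.comp (continuous_id.prodMk continuous_const)

private theorem ex_ne {θ : Fin (d + 1) → Vd (k + 1) → ℂ} {y₀ : Vd (k + 1)} (h0 : ∃ i, θ i y₀ ≠ 0) : ∃ b : EN 1, Fo θ y₀ b ≠ 0 := by
  obtain ⟨i₀, hi⟩ := h0
  let Q : Polynomial ℂ := ∑ i : Fin (d + 1), Polynomial.monomial (i : ℕ) (θ i y₀)
  have hQ : Q ≠ 0 := by
    intro hz
    apply hi
    have h1 : Q.coeff (i₀ : ℕ) = 0 := by rw [hz]; simp
    rw [Polynomial.finsetSum_coeff, Finset.sum_eq_single i₀] at h1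
    · simpa using h1
    · intro j _ hj
      rw [Polynomial.coeff_monomial, if_neg]
      intro he
      exact hj (Fin.ext he)
    · intro h
      exact absurd (Finset.mem_univ _) h
  obtain ⟨t, ht⟩ : ∃ t, Q.eval t ≠ 0 := by
    by_contra hcon
    push Not at hcon
    exact hQ (Polynomial.funext fun t => by rw [hcon t]; simp)
  refine ⟨!₂[t, 1], ?_⟩
  have h1 : Fo θ y₀ !₂[t, 1] = Q.eval t := by
    unfold Fo
    rw [Polynomial.eval_finsetSum]
    refine Finset.sum_congr rfl fun i _ => ?_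
    rw [Polynomial.eval_monomial]
    simp
  rw [h1]
  exact ht

private theorem root_near {θ : Fin (d + 1) → Vd (k + 1) → ℂ} (han : ∀ i, Differentiable ℂ (θ i)) {y₀ : Vd (k + 1)} {x b : EN 1} (hx : Fo θ y₀ x = 0)
    (hb : Fo θ y₀ b ≠ 0) {ε : ℝ} (hε : 0 < ε) : ∀ᶠ y in 𝓝 y₀, ∃ t : ℂ, ‖t‖ < ε ∧ Fo θ y (x + t • b) = 0 := by
  have h1 : Tendsto (fun y => ‖Fo θ y x‖) (𝓝 y₀) (𝓝 ‖Fo θ y₀ x‖) := ((fo_cont han x).norm).tendsto y₀
  have h2 : Tendsto (fun y => ‖Fo θ y b‖ * ε ^ d) (𝓝 y₀) (𝓝 (‖Fo θ y₀ b‖ * ε ^ d)) := (((fo_cont han b).norm).mul continuous_const).tendsto y₀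
  have h3 : ‖Fo θ y₀ x‖ < ‖Fo θ y₀ b‖ * ε ^ d := by
    rw [hx, norm_zero]
    exact mul_pos (norm_pos_iff.2 hb) (pow_pos hε d)
  filter_upwards [h1.eventually_lt h2 h3] with y hy
  exact small_root θ y x b hε hy

private theorem dt_near {x v : EN 1} (h : dt x v ≠ 0) (b : EN 1) : ∃ ε > 0, ∀ s t : ℂ, ‖s‖ < ε → ‖t‖ < ε → dt (x + s • b) (v + t • b) ≠ 0 := by
  have hc : Continuous fun p : ℂ × ℂ => dt (x + p.1 • b) (v + p.2 • b) := by
    simp only [dt, PiLp.add_apply, PiLp.smul_apply, smul_eq_mul]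
    fun_prop
  have h0 : dt (x + (0 : ℂ × ℂ).1 • b) (v + (0 : ℂ × ℂ).2 • b) ≠ 0 := by simpa using h
  obtain ⟨ε, hε, hb⟩ := Metric.eventually_nhds_iff.1 (hc.continuousAt.eventually_ne h0)
  refine ⟨ε, hε, fun s t hs ht => hb (y := (s, t)) ?_⟩
  rw [dist_zero_right, Prod.norm_def]
  exact max_lt hs ht

theorem r3_open {θ : Fin (d + 1) → Vd (k + 1) → ℂ} (han : ∀ i, Differentiable ℂ (θ i)) {y₀ : Vd (k + 1)} (h0 : ∃ i, θ i y₀ ≠ 0) (h3 : R3 θ y₀) : ∀ᶠ y in 𝓝 y₀, R3 θ y := by
  obtain ⟨b, hb⟩ := ex_ne h0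
  obtain ⟨x₁, x₂, x₃, e1, e2, e3, h12, h13, h23⟩ := h3
  obtain ⟨ε₁, p1, q1⟩ := dt_near h12 b
  obtain ⟨ε₂, p2, q2⟩ := dt_near h13 b
  obtain ⟨ε₃, p3, q3⟩ := dt_near h23 b
  have hε : 0 < min ε₁ (min ε₂ ε₃) := lt_min p1 (lt_min p2 p3)
  filter_upwards [root_near han e1 hb hε, root_near han e2 hb hε, root_near han e3 hb hε] with y hy1 hy2 hy3
  obtain ⟨t₁, a1, r1⟩ := hy1
  obtain ⟨t₂, a2, r2⟩ := hy2
  obtain ⟨t₃, a3, r3⟩ := hy3
  simp only [lt_min_iff] at a1 a2 a3
  exact ⟨_, _, _, r1, r2, r3, q1 t₁ t₂ a1.1 a2.1, q2 t₁ t₃ a1.2.1 a3.2.1, q3 t₂ t₃ a2.2.2 a3.2.2⟩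

end Pool.Agent.PX

end

section

/-!
# PY Defs: complements in `A × ℙ¹`, arbitrary tori

As `PX/Defs`, but the torus is arbitrary, there are at least three distinct roots outside `D` (multiple roots are allowed), and there is no entire root over a line.
-/

set_option autoImplicit false

open Topology Filter Metric

namespace Pool.Agent.PY

open Pool.Agent.H36.BP (EN fs wd)
open Pool.Agent.H62.EF (MN)
open Pool.Agent.AD (Vd)
open Pool.Agent.TG (Lat)
open Pool.Agent.G3 (wt)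
open Pool.Agent.PX (Fo Fd dt qf R3)

variable {k d r : ℕ}

/-- the data -/
structure PE (Λ : AddSubgroup (Vd (k + 1))) (D : Set (Vd (k + 1))) (θ : Fin (d + 1) → Vd (k + 1) → ℂ) (W : Fin r → Vd (k + 1) →L[ℂ] ℂ) : Prop where
  lat : Lat Λ
  deg : 1 ≤ d
  an : ∀ i, Differentiable ℂ (θ i)
  per : ∀ l ∈ Λ, ∀ y, ∃ e : ℂ, ‖e‖ * Real.exp (-wt W (y + l)) = Real.exp (-wt W y) ∧ ∀ i, θ i (y + l) = e * θ i y
  pos : ∀ y, (∀ i, W i y = 0) → y = 0
  D_closed : IsClosed D
  D_inv : ∀ y ∈ D, ∀ l ∈ Λ, y + l ∈ D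
  /-- outside `D` there are three distinct roots -/
  three : ∀ y ∉ D, R3 θ y
  /-- outside `D` the form is not `0` -/
  form : ∀ y ∉ D, ∃ i, θ i y ≠ 0
  /-- the lines meet `D` in isolated points -/
  iso : ∀ a : Vd (k + 1), a ≠ 0 → ∀ y : Vd (k + 1), ∀ᶠ z in 𝓝[≠] (0 : ℂ), y + z • a ∉ D
  /-- there is no entire root over a line -/
  noroot : ∀ y a : Vd (k + 1), a ≠ 0 → ∀ G : ℂ → EN 1, Differentiable ℂ G → (∀ z, G z ≠ 0) → (∀ z : ℂ, Fo θ (y + z • a) (G z) = 0) → False

end Pool.Agent.PY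

end

section

/-!
# PY Bas: periodicity and bounds
-/

set_option autoImplicit false

open Topology Filter Metric

namespace Pool.Agent.PY

open Pool.Agent.H36.BP (EN fs wd)
open Pool.Agent.H62.EF (MN pr)
open Pool.Agent.AD (Vd)
open Pool.Agent.TG (Lat)
open Pool.Agent.G3 (wt LLift)
open Pool.Agent.PX

variable {k d r : ℕ}

variable {Λ : AddSubgroup (Vd (k + 1))} {D : Set (Vd (k + 1))} {θ : Fin (d + 1) → Vd (k + 1) → ℂ} {W : Fin r → Vd (k + 1) →L[ℂ] ℂ}

theorem PE.qf_add (P : PE Λ D θ W) {l : Vd (k + 1)} (hl : l ∈ Λ) (y : Vd (k + 1)) (x : EN 1) : qf θ W (y + l) x = qf θ W y x := by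
  obtain ⟨e, he, hθ⟩ := P.per l hl y
  have h1 : Fo θ (y + l) x = e * Fo θ y x := by
    unfold Fo
    rw [Finset.mul_sum]
    refine Finset.sum_congr rfl fun i _ => ?_
    rw [hθ i]
    ring
  unfold qf
  rw [h1, norm_mul, mul_right_comm, he]
  ring

theorem PE.qf_le (P : PE Λ D θ W) : ∃ C : ℝ, 0 < C ∧ ∀ y x, qf θ W y x ≤ C := by
  obtain ⟨R, hR0, hR⟩ := P.lat.cpt
  have hcF : Continuous fun p : Vd (k + 1) × EN 1 => Fo θ p.1 p.2 := (fo_diff P.an).continuous
  have hcW : Continuous fun p : Vd (k + 1) × EN 1 => wt W p.1 := by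
    unfold wt
    refine continuous_finsetSum _ fun i _ => ?_
    exact (((W i).continuous.comp continuous_fst).norm).pow 2
  have hc : Continuous fun p : Vd (k + 1) × EN 1 => ‖Fo θ p.1 p.2‖ * Real.exp (-wt W p.1) :=
    hcF.norm.mul (Real.continuous_exp.comp hcW.neg)
  obtain ⟨C, hC⟩ := ((isCompact_closedBall (0 : Vd (k + 1)) R).prod (isCompact_sphere (0 : EN 1) 1)).exists_bound_of_continuousOn hc.continuousOn
  refine ⟨max C 1, lt_of_lt_of_le one_pos (le_max_right _ _), fun y x => ?_⟩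
  by_cases hx : x = 0
  · have h1 : qf θ W y x = 0 := by
      unfold qf
      rw [hx, norm_zero, zero_pow (by have := P.deg; omega), div_zero]
    rw [h1]
    exact le_trans zero_le_one (le_max_right _ _)
  obtain ⟨l, hl, hlR⟩ := hR y
  have h2 : qf θ W y x = qf θ W (y + -l) x := (P.qf_add (Λ.neg_mem hl) y x).symm
  have hxn : 0 < ‖x‖ := norm_pos_iff.2 hx
  obtain ⟨u, hu⟩ : ∃ u : EN 1, u = ((‖x‖⁻¹ : ℝ) : ℂ) • x := ⟨_, rfl⟩
  have hun : ‖u‖ = 1 := by
    rw [hu, norm_smul, Complex.norm_real, Real.norm_of_nonneg (inv_nonneg.2 hxn.le), inv_mul_cancel₀ hxn.ne']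
  have hxu : x = ((‖x‖ : ℝ) : ℂ) • u := by
    rw [hu, smul_smul, ← Complex.ofReal_mul, mul_inv_cancel₀ hxn.ne', Complex.ofReal_one, one_smul]
  have h3 : qf θ W (y + -l) x = ‖Fo θ (y + -l) u‖ * Real.exp (-wt W (y + -l)) := by
    unfold qf
    conv_lhs => rw [hxu]
    rw [fo_smul, norm_mul, norm_pow, Complex.norm_real, Real.norm_of_nonneg hxn.le, norm_smul, Complex.norm_real, Real.norm_of_nonneg hxn.le, hun, mul_one]
    field_simp
  rw [h2, h3]
  have h4 := hC (y + -l, u) ⟨by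
    rw [mem_closedBall_zero_iff]
    rw [← sub_eq_add_neg]
    exact hlR, by rw [mem_sphere_zero_iff_norm]; exact hun⟩
  rw [Real.norm_of_nonneg (by positivity)] at h4
  exact h4.trans (le_max_left _ _)

/-- translation of a curve by a point of the lattice -/
theorem cp_add (P : PE Λ D θ W) {U : Set ℂ} {w : ℂ → EN 1} {h : ℂ → Vd (k + 1)} (hc : Cp θ U w h) {l : Vd (k + 1)} (hl : l ∈ Λ) : Cp θ U w fun z => h z + l := by
  refine ⟨hc.w_diff, hc.h_diff.add_const l, fun z hz => ?_⟩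
  obtain ⟨e, he, hθ⟩ := P.per l hl (h z)
  have h1 : Fo θ (h z + l) (w z) = e * Fo θ (h z) (w z) := by
    unfold Fo
    rw [Finset.mul_sum]
    refine Finset.sum_congr rfl fun i _ => ?_
    rw [hθ i]
    ring
  rw [h1]
  refine mul_ne_zero ?_ (hc.ne z hz)
  rintro rfl
  rw [norm_zero, zero_mul] at he
  exact (Real.exp_pos _).ne he

end Pool.Agent.PY

end

section

/-!
# G3 PS Jen: Jensen's inequality for `pP`

On the closed disc: `log pP = log (sup_j ‖a_j‖) + log ‖F‖ - wt W (h)`.  Let `j` attain the supremum at the centre `z`, `a = aP .. j`, `a z ≠ 0`.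
`log ‖a z‖ ≤ circleAverage (log ‖a‖) z r` (`AnalyticOnNhd.circleAverage_log_norm`, see `log_norm_le_avg` in `G3/C/LemmaU.lean` on main, or `MeromorphicOn.circleAverage_log_norm`);
`log ‖a‖ ≤ log (sup_j ‖a_j‖)` off the zeros of `a` (finitely many on the circle: use the a.e. version of the monotonicity of the integral).
Circle integrability of `log (sup_j ‖a_j‖)`: it is measurable, bounded above (continuous functions on the compact circle) and `≥ log ‖a‖`, which is circle integrable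
(`circleIntegrable_log_norm_meromorphicOn`).  `log ‖F‖` and `wt W ∘ h` are continuous on the disc.
`circleAverage (wt W ∘ h) z r - wt W (h z) = circleAverage (wt W (h - h z)) z r ≤ (∑ ‖W i‖^2) circleAverage ‖h - h z‖^2` (`|ℓ h|^2 = |ℓ h z|^2 + 2 Re (conj (ℓ h z) (ℓ h - ℓ h z)) + |ℓ (h - h z)|^2`
and the mean value property of the holomorphic function `ℓ ∘ h`).
-/

set_option autoImplicit false

open Topology Filter Metric

namespace Pool.Agent.G3

open Pool.Agent.H36.BP (EN fs wd Sub)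
open Pool.Agent.H14.PP (IsCone CurveAt Tan)
open Pool.Agent.AD (Vd Chart Charts)
open Pool.Agent.TG (Gd)

variable {N k : ℕ} {X : Set (EN N)} {Λ : AddSubgroup (Vd (k + 1))} {u : EN N → Vd (k + 1)} {D : Set (Vd (k + 1))} {m J r : ℕ}
  {W : Fin r → Vd (k + 1) →L[ℂ] ℂ}

end Pool.Agent.G3

end
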