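import Pool.Agent.H94.PX2.M41
import Pool.Agent.H94.PX2.M42

/-! The parts of this file: H62.FC.Cartan, H62.LR.Landau, H92.GGL.SchwarzDisc. -/

section

/-!
# Cartan's theorem at a puncture, for functions with orders divisible by `d`
-/

noncomputable section

namespace Pool.Agent.H62.FC

open Filter Topology MeasureTheory
open Pool.Agent.H92.GGL (ordZ)

/-! ### Determinants -/

private theorem posLog_prod_perm {n : ℕ} (A : Matrix (Fin n) (Fin n) ℂ) (B : Fin n → Fin n → ℝ)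
    (hB : ∀ i j, Real.posLog ‖A i j‖ ≤ B i j) (σ : Equiv.Perm (Fin n)) :
    Real.posLog ‖Equiv.Perm.sign σ • ∏ i, A (σ i) i‖ ≤ ∑ i, ∑ j, B i j := by
  have h1 : ‖Equiv.Perm.sign σ • ∏ i, A (σ i) i‖ = ∏ i, ‖A (σ i) i‖ := by
    rcases Int.units_eq_one_or (Equiv.Perm.sign σ) with h | h
    · rw [h, one_smul, norm_prod]
    · rw [h, Units.neg_smul, one_smul, norm_neg, norm_prod]
  rw [h1, Finset.sum_comm]
  refine (Real.posLog_prod _ _).trans (Finset.sum_le_sum fun i _ => ?_)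
  refine (hB (σ i) i).trans (Finset.single_le_sum (f := fun k => B k i) (fun k _ => ?_)
    (Finset.mem_univ (σ i)))
  exact Real.posLog_nonneg.trans (hB k i)

private theorem posLog_det_le {n : ℕ} (A : Matrix (Fin n) (Fin n) ℂ) (B : Fin n → Fin n → ℝ)
    (hB : ∀ i j, Real.posLog ‖A i j‖ ≤ B i j) :
    Real.posLog ‖A.det‖ ≤ Real.log n.factorial + (n.factorial : ℝ) * ∑ i, ∑ j, B i j := by
  rw [Matrix.det_apply]
  refine (Real.posLog_norm_sum_le _ _).trans ?_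
  have hcard : (Finset.univ : Finset (Equiv.Perm (Fin n))).card = n.factorial := by
    rw [Finset.card_univ, Fintype.card_perm, Fintype.card_fin]
  rw [hcard]
  have h2 : ∑ σ : Equiv.Perm (Fin n), Real.posLog ‖Equiv.Perm.sign σ • ∏ i, A (σ i) i‖ ≤
      ∑ _σ : Equiv.Perm (Fin n), ∑ i, ∑ j, B i j :=
    Finset.sum_le_sum fun σ _ => posLog_prod_perm A B hB σ
  rw [Finset.sum_const, hcard, nsmul_eq_mul] at h2
  linarith

/-- The sum of the logarithmic derivatives. -/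
def Cartan_Q {n : ℕ} (u : Fin n → ℂ → ℂ) (z : ℂ) : ℝ :=
  ∑ i : Fin n, ∑ j : Fin n, Real.posLog ‖iteratedDeriv i (u j) z / u j z‖

private theorem det_star {n : ℕ} {u : Fin n → ℂ → ℂ} {z : ℂ} (h0 : ∀ j, u j z ≠ 0) :
    wronsk u z = (∏ j, u j z) *
      (Matrix.of fun i j : Fin n => iteratedDeriv i (u j) z / u j z).det := by
  rw [← Matrix.det_mul_row]
  unfold wronsk
  congr 1
  ext i j
  simp only [Matrix.of_apply]
  rw [mul_div_cancel₀ _ (h0 j)]

private theorem det_col {n : ℕ} {u : Fin n → ℂ → ℂ} {z : ℂ} (h0 : ∀ j, u j z ≠ 0)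
    (hs : ∀ i : Fin n, ∑ j, iteratedDeriv i (u j) z = if (i : ℕ) = 0 then -1 else 0)
    (j₀ : Fin n) :
    wronsk u z = (∏ j, if j = j₀ then 1 else u j z) *
      (Matrix.of fun i j : Fin n => if j = j₀ then (if (i : ℕ) = 0 then (-1 : ℂ) else 0) else
        iteratedDeriv i (u j) z / u j z).det := by
  rw [← Matrix.det_mul_row]
  unfold wronsk
  have h1 := Matrix.det_updateCol_sum
    (Matrix.of fun i j : Fin n => iteratedDeriv i (u j) z) j₀ (fun _ => 1)
  rw [one_smul] at h1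
  rw [← h1]
  congr 1
  ext i j
  by_cases hj : j = j₀
  · subst hj
    rw [Matrix.updateCol_self]
    simp only [Matrix.of_apply, one_smul, if_true, one_mul]
    exact hs i
  · rw [Matrix.updateCol_ne hj]
    simp only [Matrix.of_apply, if_neg hj]
    rw [mul_div_cancel₀ _ (h0 j)]

private theorem pointwise {n : ℕ} {u : Fin n → ℂ → ℂ} {z : ℂ} (h0 : ∀ j, u j z ≠ 0)
    (hW : wronsk u z ≠ 0)
    (hs : ∀ i : Fin n, ∑ j, iteratedDeriv i (u j) z = if (i : ℕ) = 0 then -1 else 0)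
    (j₀ : Fin n) :
    Real.posLog ‖u j₀ z‖ ≤ (∑ j, Real.log ‖u j z‖) - Real.log ‖wronsk u z‖ +
      (Real.log n.factorial + (n.factorial : ℝ) * Cartan_Q u z) := by
  have hlogu : ∀ j, ‖u j z‖ ≠ 0 := fun j => norm_ne_zero_iff.2 (h0 j)
  rw [Real.posLog_apply]
  refine max_le ?_ ?_
  · have h1 := det_star h0
    have hD : (Matrix.of fun i j : Fin n => iteratedDeriv i (u j) z / u j z).det ≠ 0 := by
      intro h
      rw [h, mul_zero] at h1
      exact hW h1
    have h2 : Real.log ‖wronsk u z‖ = (∑ j, Real.log ‖u j z‖) +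
        Real.log ‖(Matrix.of fun i j : Fin n => iteratedDeriv i (u j) z / u j z).det‖ := by
      rw [h1, norm_mul, norm_prod, Real.log_mul (Finset.prod_ne_zero_iff.2 fun j _ => hlogu j)
        (norm_ne_zero_iff.2 hD), Real.log_prod fun j _ => hlogu j]
    have h3 := posLog_det_le (Matrix.of fun i j : Fin n => iteratedDeriv i (u j) z / u j z)
      (fun i j => Real.posLog ‖iteratedDeriv i (u j) z / u j z‖) (fun i j => le_rfl)
    have h4 : Real.log ‖(Matrix.of fun i j : Fin n => iteratedDeriv i (u j) z / u j z).det‖ ≤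
        Real.posLog ‖(Matrix.of fun i j : Fin n => iteratedDeriv i (u j) z / u j z).det‖ :=
      le_max_right _ _
    unfold Cartan_Q
    linarith
  · have h1 := det_col h0 hs j₀
    set N := (Matrix.of fun i j : Fin n => if j = j₀ then (if (i : ℕ) = 0 then (-1 : ℂ) else 0)
      else iteratedDeriv i (u j) z / u j z) with hN
    have hD : N.det ≠ 0 := by
      intro h
      rw [h, mul_zero] at h1
      exact hW h1
    have hne : ∀ j ∈ (Finset.univ : Finset (Fin n)),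
        ‖(if j = j₀ then (1 : ℂ) else u j z)‖ ≠ 0 := by
      intro j _
      split_ifs
      · simp
      · exact hlogu j
    have h5 : ∑ j, Real.log ‖(if j = j₀ then (1 : ℂ) else u j z)‖ =
        (∑ j, Real.log ‖u j z‖) - Real.log ‖u j₀ z‖ := by
      rw [← Finset.add_sum_erase _ _ (Finset.mem_univ j₀),
        ← Finset.add_sum_erase _ (fun j => Real.log ‖u j z‖) (Finset.mem_univ j₀)]
      rw [if_pos rfl, norm_one, Real.log_one, zero_add, add_sub_cancel_left]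
      refine Finset.sum_congr rfl fun j hj => ?_
      rw [if_neg (Finset.ne_of_mem_erase hj)]
    have h2 : Real.log ‖wronsk u z‖ = (∑ j, Real.log ‖u j z‖) - Real.log ‖u j₀ z‖ +
        Real.log ‖N.det‖ := by
      rw [h1, norm_mul, norm_prod, Real.log_mul (Finset.prod_ne_zero_iff.2 hne)
        (norm_ne_zero_iff.2 hD), Real.log_prod hne, h5]
    have h3 := posLog_det_le N
      (fun i j => Real.posLog ‖iteratedDeriv i (u j) z / u j z‖) (by
        intro i j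
        rw [hN, Matrix.of_apply]
        split_ifs
        · rw [norm_neg, norm_one, Real.posLog_one]
          exact Real.posLog_nonneg
        · rw [norm_zero, Real.posLog_zero]
          exact Real.posLog_nonneg
        · exact le_rfl)
    have h4 : Real.log ‖N.det‖ ≤ Real.posLog ‖N.det‖ := le_max_right _ _
    unfold Cartan_Q
    linarith

/-! ### Means -/

theorem circleIntegrable_sup {f g : ℂ → ℝ} {c : ℂ} {R : ℝ} (hf : CircleIntegrable f c R)
    (hg : CircleIntegrable g c R) : CircleIntegrable (f ⊔ g) c R := by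
  have h : f ⊔ g = (1 / 2 : ℝ) • (f + g + |g - f|) := by
    funext z
    simp only [Pi.sup_apply, Pi.smul_apply, Pi.add_apply, Pi.abs_apply, Pi.sub_apply, smul_eq_mul]
    rw [max_def]
    split_ifs with h1
    · rw [abs_of_nonneg (by linarith)]
      ring
    · rw [abs_of_nonpos (by linarith)]
      ring
  rw [h]
  exact ((hf.add hg).add (hg.sub hf).abs).const_smul

theorem mean_mono {f g : ℂ → ℝ} {x : ℝ} (hf : CircleIntegrable f 0 (Real.exp (-x)))
    (hg : CircleIntegrable g 0 (Real.exp (-x)))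
    (h : ∀ z ∈ Metric.sphere (0 : ℂ) |Real.exp (-x)|, ∀ᶠ ζ in 𝓝[≠] z, f ζ ≤ g ζ) :
    mean f x ≤ mean g x := by
  have h1 : g =ᶠ[codiscreteWithin (Metric.sphere (0 : ℂ) |Real.exp (-x)|)]
      fun z => max (f z) (g z) := by
    rw [Filter.EventuallyEq, Filter.Eventually, mem_codiscreteWithin_iff_forall_mem_nhdsNE]
    intro z hz
    filter_upwards [h z hz] with ζ hζ
    left
    show g ζ = max (f ζ) (g ζ)
    rw [max_eq_right hζ]
  have h2 : mean g x = mean (fun z => max (f z) (g z)) x :=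
    Real.circleAverage_congr_codiscreteWithin h1 (Real.exp_ne_zero _)
  rw [h2]
  exact Real.circleAverage_mono hf (CircleIntegrable.congr_codiscreteWithin h1 hg)
    fun z _ => le_max_left _ _

/-! ### Generic points -/

theorem generic {n : ℕ} {R₀ : ℝ} {u : Fin n → ℂ → ℂ} (hu : ∀ j, MeroPunct R₀ (u j))
    (hW : MeroPunct R₀ (wronsk u))
    (hrel : ∀ z, 0 < ‖z‖ → ‖z‖ < R₀ → ∀ᶠ ζ in 𝓝[≠] z, ∑ j, u j ζ = -1) {z : ℂ}
    (h0 : 0 < ‖z‖) (hz : ‖z‖ < R₀) (j₀ : Fin n) :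
    ∀ᶠ ζ in 𝓝[≠] z, Real.posLog ‖u j₀ ζ‖ ≤
      (∑ j, Real.log ‖u j ζ‖) - Real.log ‖wronsk u ζ‖ +
        (Real.log n.factorial + (n.factorial : ℝ) * Cartan_Q u ζ) := by
  have h1 : ∀ᶠ ζ in 𝓝[≠] z, ∀ j, u j ζ ≠ 0 :=
    Filter.eventually_all.2 fun j =>
      (meromorphicOrderAt_ne_top_iff_eventually_ne_zero ((hu j).mero z h0 hz)).1
        ((hu j).ord z h0 hz)
  have h2 : ∀ᶠ ζ in 𝓝[≠] z, wronsk u ζ ≠ 0 :=
    (meromorphicOrderAt_ne_top_iff_eventually_ne_zero (hW.mero z h0 hz)).1 (hW.ord z h0 hz)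
  have h3 : ∀ᶠ ζ in 𝓝[≠] z, ∀ j, AnalyticAt ℂ (u j) ζ :=
    Filter.eventually_all.2 fun j => ((hu j).mero z h0 hz).eventually_analyticAt
  have h4 : ∀ᶠ ζ in 𝓝[≠] z, ∀ᶠ y in 𝓝 ζ, ∑ j, u j y = -1 := by
    have := eventually_eventually_nhdsWithin.2 (hrel z h0 hz)
    filter_upwards [this, self_mem_nhdsWithin] with ζ hζ hne
    rwa [IsOpen.nhdsWithin_eq isOpen_compl_singleton hne] at hζ
  filter_upwards [h1, h2, h3, h4] with ζ a1 a2 a3 a4
  refine pointwise a1 a2 (fun i => ?_) j₀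
  have e : iteratedDeriv i (fun y => ∑ j, u j y) ζ = ∑ j, iteratedDeriv i (u j) ζ :=
    iteratedDeriv_fun_sum fun j _ => (a3 j).contDiffAt
  rw [← e]
  have h5 : (fun y => ∑ j, u j y) =ᶠ[𝓝 ζ] fun _ => -1 := a4
  rw [(h5.iteratedDeriv i).eq_of_nhds, iteratedDeriv_const]

/-! ### Counting functions -/

theorem exists_T {ι : Type*} [Finite ι] {R₀ R₁ : ℝ} (h : R₁ < R₀) {w : ι → ℂ → ℝ}
    (hw : ∀ i, LocFin R₀ (w i)) {r : ℝ} (hr : 0 < r) :
    ∃ (T : Finset ℂ) (l : ℂ → ℝ), (∀ s ∈ T, r < ‖s‖ ∧ ‖s‖ < R₁ ∧ 0 ≤ l s) ∧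
      ∀ w' : ℂ → ℝ, (∀ s, (∀ i, w i s = 0) → w' s = 0) →
        cnt w' R₁ r = ∑ s ∈ T, w' s * l s := by
  classical
  have hfin : (⋃ i, {s : ℂ | r ≤ ‖s‖ ∧ ‖s‖ ≤ R₁ ∧ w i s ≠ 0}).Finite :=
    Set.finite_iUnion fun i => hw i r R₁ hr h
  refine ⟨hfin.toFinset.filter fun s => r < ‖s‖ ∧ ‖s‖ < R₁, fun s => Real.log (‖s‖ / r),
    fun s hs => ?_, fun w' hw' => ?_⟩
  · rw [Finset.mem_filter] at hs
    refine ⟨hs.2.1, hs.2.2, Real.log_nonneg ?_⟩
    rw [le_div_iff₀ hr, one_mul]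
    exact hs.2.1.le
  · refine cnt_eq_sum (fun s h1 h2 h3 => ?_) hr
    rw [Set.Finite.mem_toFinset, Set.mem_iUnion]
    by_contra hcon
    refine h3 (hw' s fun i => ?_)
    by_contra hi
    exact hcon ⟨i, h1.le, h2.le, hi⟩

theorem linear_bound (A B x : ℝ) : |A + B * x| ≤ (|A| + |B|) * (1 + |x|) := by
  have h1 : |A + B * x| ≤ |A| + |B| * |x| := by
    rw [← abs_mul]
    exact abs_add_le A (B * x)
  have h2 : 0 ≤ |A| * |x| := mul_nonneg (abs_nonneg A) (abs_nonneg x)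
  have h3 : (|A| + |B|) * (1 + |x|) = |A| + |B| * |x| + (|B| + |A| * |x|) := by ring
  rw [h3]
  linarith [abs_nonneg B]

end Pool.Agent.H62.FC

end
end

section

/-!
# LR Landau: holomorphic functions on a disc which omit `0` and `1`

* `landau`, `local_bound`, `harnack3`.
-/

set_option autoImplicit false

open Topology Filter Metric

noncomputable section

namespace Pool.Agent.H62.LR

open Pool.Agent.H92.GGL (wt powVar powSum)
open Pool.Agent.H17 (wVar)

/-- the functions `1, X, X - 1` -/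
def rr (X : ℂ → ℂ) : Fin 3 → ℂ → ℂ := ![fun _ => 1, X, fun z => X z - 1]

def bb : Fin 3 → ℝ := ![0, 3 / 2, 3 / 2]

private theorem rpow_half {x : ℝ} : x ^ (1 / 2 : ℝ) = Real.sqrt x := by
  rw [Real.sqrt_eq_rpow]

private theorem rpow_neg_three_half {x : ℝ} (hx : 0 ≤ x) : x ^ (-(3 / 2) : ℝ) = (Real.sqrt x ^ 3)⁻¹ := by
  rw [Real.rpow_neg hx]
  congr 1
  rw [Real.sqrt_eq_rpow, ← Real.rpow_natCast, ← Real.rpow_mul hx]
  norm_num

theorem wt_eq (X : ℂ → ℂ) (z : ℂ) :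
    wt (1 / 2) 1 bb (rr X) (deriv X) z = ‖deriv X z‖ ^ 2 * (1 + Real.sqrt ‖X z‖ + Real.sqrt ‖X z - 1‖) *
      ((Real.sqrt ‖X z‖ ^ 3)⁻¹ * (Real.sqrt ‖X z - 1‖ ^ 3)⁻¹) := by
  unfold wt powSum
  rw [Real.rpow_one, Fin.sum_univ_three, Fin.prod_univ_three]
  simp only [rr, bb, Matrix.cons_val_zero, Matrix.cons_val_one, Matrix.cons_val]
  rw [norm_one, Real.one_rpow, rpow_half, rpow_half, neg_zero, Real.one_rpow, one_mul, rpow_neg_three_half (norm_nonneg _),
    rpow_neg_three_half (norm_nonneg _)]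

theorem pv_eq {X : ℂ → ℂ} {z : ℂ} (h0 : X z ≠ 0) (h1 : X z ≠ 1) :
    powVar (1 / 2) (rr X) z = ‖deriv X z‖ ^ 2 * (1 + Real.sqrt ‖X z‖ ^ 3 + Real.sqrt ‖X z - 1‖ ^ 3) *
      ((Real.sqrt ‖X z‖ ^ 3)⁻¹ * (Real.sqrt ‖X z - 1‖ ^ 3)⁻¹) / (1 + Real.sqrt ‖X z‖ + Real.sqrt ‖X z - 1‖) ^ 2 := by
  unfold powVar wVar
  have hd : deriv (fun z => X z - 1) z = deriv X z := by
    rw [deriv_sub_const]
  have hd1 : deriv (fun _ : ℂ => (1 : ℂ)) z = 0 := deriv_const _ _
  rw [Fin.sum_univ_three, Fin.sum_univ_three, Fin.sum_univ_three]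
  simp only [rr, Matrix.cons_val_zero, Matrix.cons_val_one, Matrix.cons_val]
  rw [norm_one, Real.one_rpow, rpow_half, rpow_half, hd, hd1, zero_div, norm_zero, mul_zero]
  set s := Real.sqrt ‖X z‖ with hs
  set t := Real.sqrt ‖X z - 1‖ with ht
  have hs0 : 0 < s := Real.sqrt_pos.2 (norm_pos_iff.2 h0)
  have ht0 : 0 < t := Real.sqrt_pos.2 (norm_pos_iff.2 (sub_ne_zero.2 h1))
  have hs2 : ‖X z‖ = s ^ 2 := (Real.sq_sqrt (norm_nonneg _)).symm
  have ht2 : ‖X z - 1‖ = t ^ 2 := (Real.sq_sqrt (norm_nonneg _)).symm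
  -- the identity of Lagrange
  have key : ∀ (u v : ℝ) (a b : ℂ), ((1 * 0 ^ 2 + u * ‖a‖ ^ 2 + v * ‖b‖ ^ 2) * (1 + u + v) - ‖(0 : ℂ) + (u : ℂ) * a + (v : ℂ) * b‖ ^ 2 : ℝ) =
      u * ‖a‖ ^ 2 + v * ‖b‖ ^ 2 + u * v * ‖a - b‖ ^ 2 := by
    intro u v a b
    rw [zero_add]
    simp only [Complex.sq_norm, Complex.normSq_apply, Complex.add_re, Complex.add_im, Complex.mul_re, Complex.mul_im, Complex.sub_re, Complex.sub_im,
      Complex.ofReal_re, Complex.ofReal_im]
    ring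
  have hab : deriv X z / X z - deriv X z / (X z - 1) = -(deriv X z / (X z * (X z - 1))) := by
    have h1' : X z - 1 ≠ 0 := sub_ne_zero.2 h1
    field_simp
    ring
  have h2 := key s t (deriv X z / X z) (deriv X z / (X z - 1))
  have h3 : ((1 : ℝ) * 0 ^ 2 + s * ‖deriv X z / X z‖ ^ 2 + t * ‖deriv X z / (X z - 1)‖ ^ 2) * (1 + s + t) -
      ‖(0 : ℂ) + (s : ℂ) * (deriv X z / X z) + (t : ℂ) * (deriv X z / (X z - 1))‖ ^ 2 =
      ‖deriv X z‖ ^ 2 * (1 + s ^ 3 + t ^ 3) * ((s ^ 3)⁻¹ * (t ^ 3)⁻¹) := by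
    rw [h2, hab, norm_neg, norm_div, norm_div, norm_div, norm_mul, hs2, ht2]
    field_simp
    ring
  rw [← h3]

theorem cube_le {s t : ℝ} (hs : 0 ≤ s) (ht : 0 ≤ t) : (1 + s + t) ^ 3 ≤ 9 * (1 + s ^ 3 + t ^ 3) := by
  have h1 : 0 ≤ (s + t) * (s - t) ^ 2 := by positivity
  have h2 : 0 ≤ (1 + t) * (1 - t) ^ 2 := by positivity
  have h3 : 0 ≤ (1 + s) * (1 - s) ^ 2 := by positivity
  nlinarith [mul_nonneg hs ht, mul_nonneg (mul_nonneg hs ht) (show (0 : ℝ) ≤ 1 by norm_num), sq_nonneg (s - 1), sq_nonneg (t - 1), sq_nonneg (s - t),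
    mul_nonneg hs (sq_nonneg (t - 1)), mul_nonneg ht (sq_nonneg (s - 1)), mul_nonneg hs (sq_nonneg (s - t)), mul_nonneg ht (sq_nonneg (s - t)),
    sq_nonneg (s + t - 2)]

/-- A function which is at most `a` at the centre, with small derivative where it is at most `b`, is at most `b`. -/
theorem stay {X : ℂ → ℂ} {z : ℂ} {r a b D : ℝ} (hX : DifferentiableOn ℂ X (ball z r)) (ha : ‖X z‖ ≤ a)
    (hD : ∀ w ∈ ball z r, ‖X w‖ ≤ b → ‖deriv X w‖ ≤ D) (hD0 : 0 ≤ D) (hab : D * r < b - a) : ∀ w ∈ ball z r, ‖X w‖ ≤ b := by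
  intro w hw
  have hr : 0 < r := by
    rw [mem_ball] at hw
    exact lt_of_le_of_lt dist_nonneg hw
  have hab' : a < b := by nlinarith
  have hwn : ‖w - z‖ < r := by rwa [mem_ball, dist_eq_norm] at hw
  have hγ : ∀ t ∈ Set.Icc (0 : ℝ) 1, z + (t : ℂ) * (w - z) ∈ ball z r := by
    intro t ht
    rw [mem_ball, dist_eq_norm, add_sub_cancel_left, norm_mul, Complex.norm_real, Real.norm_of_nonneg ht.1]
    calc t * ‖w - z‖ ≤ 1 * ‖w - z‖ := mul_le_mul_of_nonneg_right ht.2 (norm_nonneg _)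
      _ < r := by linarith
  have hd : ∀ t ∈ Set.Icc (0 : ℝ) 1, HasDerivAt (fun t : ℝ => X (z + (t : ℂ) * (w - z))) (deriv X (z + (t : ℂ) * (w - z)) * (w - z)) t := by
    intro t ht
    have h1 : HasDerivAt X (deriv X (z + (t : ℂ) * (w - z))) (z + (t : ℂ) * (w - z)) :=
      (hX.differentiableAt (isOpen_ball.mem_nhds (hγ t ht))).hasDerivAt
    have h2 : HasDerivAt (fun t : ℝ => z + (t : ℂ) * (w - z)) (w - z) t := by
      have h3 : HasDerivAt (fun s : ℝ => (s : ℂ)) 1 t := Complex.ofRealCLM.hasDerivAt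
      have h4 := (h3.mul_const (w - z)).const_add z
      rwa [one_mul] at h4
    exact h1.comp_of_eq t h2 rfl
  have key := image_norm_le_of_norm_deriv_right_lt_deriv_boundary (f := fun t : ℝ => X (z + (t : ℂ) * (w - z)))
    (f' := fun t : ℝ => deriv X (z + (t : ℂ) * (w - z)) * (w - z)) (a := 0) (b := 1)
    (fun t ht => (hd t ht).continuousAt.continuousWithinAt) (fun t ht => (hd t ⟨ht.1, ht.2.le⟩).hasDerivWithinAt)
    (B := fun t => a + (b - a) * t) (B' := fun _ => b - a) (by simpa using ha)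
    (fun t => by simpa using ((hasDerivAt_id t).const_mul (b - a)).const_add a) (fun t ht hB => ?_) (x := 1) ⟨zero_le_one, le_rfl⟩
  · simp only [Complex.ofReal_one, one_mul, add_sub_cancel, mul_one] at key
    exact key
  · have hB' : ‖X (z + (t : ℂ) * (w - z))‖ = a + (b - a) * t := hB
    have h1 : ‖X (z + (t : ℂ) * (w - z))‖ ≤ b := by
      rw [hB']
      nlinarith [ht.2]
    have h2 := hD _ (hγ t ⟨ht.1, ht.2.le⟩) h1
    rw [norm_mul]
    calc ‖deriv X (z + (t : ℂ) * (w - z))‖ * ‖w - z‖ ≤ D * r := mul_le_mul h2 hwn.le (norm_nonneg _) hD0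
      _ < b - a := hab

end Pool.Agent.H62.LR

end
end

section

/-!
# An estimate of Ahlfors–Schwarz type on a disc
-/

open Topology Filter Complex

namespace Pool.Agent.H92.GGL

open Pool.Agent.H17

variable {ι : Type} [Fintype ι]

lemma wt_continuousAt' [Nonempty ι] {r : ι → ℂ → ℂ} {g : ℂ → ℂ} {z : ℂ}
    (hr : ∀ i, ContinuousAt (r i) z) (hg : ContinuousAt g z) (κ α : ℝ) (β : ι → ℝ)
    (hz : ∀ i, r i z ≠ 0) : ContinuousAt (wt κ α β r g) z := by
  unfold wt powSum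
  have h1 : ∀ i, ContinuousAt (fun z => ‖r i z‖) z := fun i => (hr i).norm
  have h2 : ContinuousAt (fun z => ‖g z‖) z := hg.norm
  have h3 : ∀ i, ‖r i z‖ ≠ 0 := fun i => norm_ne_zero_iff.mpr (hz i)
  have h4 : ContinuousAt (fun z => ∑ i, ‖r i z‖ ^ κ) z :=
    tendsto_finsetSum _ fun i _ => (h1 i).rpow_const (Or.inl (h3 i))
  have h5 : ContinuousAt (fun z => ∏ i, ‖r i z‖ ^ (-(β i))) z :=
    tendsto_finsetProd _ fun i _ => (h1 i).rpow_const (Or.inl (h3 i))
  refine ((h2.pow 2).mul (h4.rpow_const (Or.inl ?_))).mul h5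
  exact (powSum_pos (κ := κ) hz).ne'

/-- The estimate at the centre of a disc. -/
theorem schwarz_disc_zero [Nonempty ι] {r : ι → ℂ → ℂ} {g : ℂ → ℂ} {κ α : ℝ} {β : ι → ℝ} {ρ : ℕ}
    (hκ : 0 < κ) (hα : 0 < α) (hρ : 0 < ρ) {R : ℝ} (hR : 0 < R) {S : Finset ℂ} (h0 : 0 ∉ S)
    (hr : ∀ z, ‖z‖ ≤ R → z ∉ S → ∀ i, AnalyticAt ℂ (r i) z ∧ r i z ≠ 0)
    (hg : ∀ z, ‖z‖ ≤ R → z ∉ S → AnalyticAt ℂ g z) {C : ℝ} (hC : 0 ≤ C)
    (hbound : ∀ z, ‖z‖ ≤ R → z ∉ S → wt κ α β r g z ≤ C * powVar κ r z ^ ρ)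
    (hloc : ∀ s, ‖s‖ ≤ R → s ∈ S → ∃ B, ∀ᶠ z in 𝓝[≠] s, wt κ α β r g z ≤ B) :
    wt κ α β r g 0 * R ^ (2 * ρ) ≤ C * (8 * ρ / (α * κ ^ 2)) ^ ρ := by
  classical
  have hR0 : ‖(0 : ℂ)‖ ≤ R := by simpa using hR.le
  by_cases hg0 : g 0 = 0
  · have h1 : wt κ α β r g 0 = 0 := by
      unfold wt
      rw [hg0]
      simp
    rw [h1, zero_mul]
    positivity
  have hr0 : ∀ i, r i 0 ≠ 0 := fun i => (hr 0 hR0 h0 i).2
  set w₀ := wt κ α β r g 0 with hw₀
  have hw₀pos : 0 < w₀ := by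
    rw [hw₀]
    unfold wt
    have h1 : 0 < ∏ i, ‖r i 0‖ ^ (-(β i)) := Finset.prod_pos fun i _ =>
      Real.rpow_pos_of_pos (norm_pos_iff.mpr (hr0 i)) _
    have h2 : 0 < powSum κ r 0 ^ α := Real.rpow_pos_of_pos (powSum_pos hr0) _
    have h3 : 0 < ‖g 0‖ := norm_pos_iff.mpr hg0
    positivity
  set D : ℝ := C * (1 / (α * κ ^ 2)) ^ ρ with hD
  have hDnn : 0 ≤ D := by positivity
  have hPpos : ∀ z, z ∉ S → 0 < ∏ s ∈ S, ‖z - s‖ := by
    intro z hz
    refine Finset.prod_pos fun s hs => norm_pos_iff.mpr (sub_ne_zero.mpr ?_)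
    rintro rfl
    exact hz hs
  have key : w₀ * (R ^ 2) ^ (2 * ρ) ≤ D * (8 * ρ * R ^ 2) ^ ρ := by
    refine le_of_forall_pow_mul_le (hPpos 0 h0) (Q := ∏ s ∈ S, (R + ‖s‖)) (by positivity) ?_
    intro k hk
    set Φ : ℂ → ℝ := fun z => wt κ α β r g z ^ k * (R ^ 2 - ‖z‖ ^ 2) ^ (2 * ρ * k) *
      ∏ s ∈ S, ‖z - s‖ with hΦ
    have hΦcont : ContinuousOn Φ (Metric.closedBall (0 : ℂ) R) := by
      intro z hz
      rw [mem_closedBall_zero_iff] at hz
      apply ContinuousAt.continuousWithinAt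
      have hc1 : Continuous fun z : ℂ => (R ^ 2 - ‖z‖ ^ 2) ^ (2 * ρ * k) := by fun_prop
      by_cases hzS : z ∈ S
      · rw [continuousAt_iff_punctured_nhds]
        have hΦz : Φ z = 0 := by
          simp only [hΦ]
          rw [Finset.prod_eq_zero hzS (by simp), mul_zero]
        rw [hΦz]
        obtain ⟨B, hB⟩ := hloc z hz hzS
        have hrest : Tendsto (fun w : ℂ => (R ^ 2 - ‖w‖ ^ 2) ^ (2 * ρ * k) *
            ∏ s ∈ S.erase z, ‖w - s‖) (𝓝[≠] z) (𝓝 ((R ^ 2 - ‖z‖ ^ 2) ^ (2 * ρ * k) *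
            ∏ s ∈ S.erase z, ‖z - s‖)) := by
          have : Continuous fun w : ℂ => (R ^ 2 - ‖w‖ ^ 2) ^ (2 * ρ * k) *
            ∏ s ∈ S.erase z, ‖w - s‖ := by
            refine hc1.mul (continuous_finsetProd _ fun s _ => ?_)
            fun_prop
          exact (this.tendsto z).mono_left nhdsWithin_le_nhds
        have hmain : Tendsto (fun w => wt κ α β r g w ^ k * ‖w - z‖) (𝓝[≠] z) (𝓝 0) := by
          have h1 : Tendsto (fun w : ℂ => (max B 0) ^ k * ‖w - z‖) (𝓝[≠] z)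
              (𝓝 0) := by
            have : Continuous fun w : ℂ => (max B 0) ^ k * ‖w - z‖ := by fun_prop
            have h2 := (this.tendsto z).mono_left (nhdsWithin_le_nhds (s := {z}ᶜ))
            simpa using h2
          refine squeeze_zero' ?_ ?_ h1
          · filter_upwards with w
            have := wt_nonneg κ α β r g w
            positivity
          · filter_upwards [hB] with w hw1
            have h3 : wt κ α β r g w ≤ max B 0 := hw1.trans (le_max_left _ _)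
            have := wt_nonneg κ α β r g w
            gcongr
        have h4 := hmain.mul hrest
        rw [zero_mul] at h4
        refine h4.congr ?_
        intro w
        simp only [hΦ]
        rw [← Finset.mul_prod_erase S _ hzS]
        ring
      · have h1 := wt_continuousAt' (fun i => (hr z hz hzS i).1.continuousAt)
          (hg z hz hzS).continuousAt κ α β (fun i => (hr z hz hzS i).2)
        have hc2 : Continuous fun w : ℂ => ∏ s ∈ S, ‖w - s‖ := by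
          refine continuous_finsetProd _ fun s _ => ?_
          fun_prop
        exact ((h1.pow k).mul hc1.continuousAt).mul hc2.continuousAt
    have h0mem : (0 : ℂ) ∈ Metric.closedBall (0 : ℂ) R := by
      rw [mem_closedBall_zero_iff]
      exact hR0
    obtain ⟨zm, hzm, hmax⟩ := (isCompact_closedBall (0 : ℂ) R).exists_isMaxOn
      ⟨0, h0mem⟩ hΦcont
    have hΦ₀pos : 0 < Φ 0 := by
      simp only [hΦ]
      have := hPpos 0 h0
      rw [norm_zero]
      have h2 : 0 < R ^ 2 - (0 : ℝ) ^ 2 := by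
        have : 0 < R ^ 2 := by positivity
        linarith
      positivity
    have hΦm : Φ 0 ≤ Φ zm := hmax h0mem
    have hΦmpos : 0 < Φ zm := hΦ₀pos.trans_le hΦm
    have hkρ : 2 * ρ * k ≠ 0 := by positivity
    have hzmS : zm ∉ S := by
      intro h
      have : Φ zm = 0 := by
        simp only [hΦ]
        rw [Finset.prod_eq_zero h (by simp), mul_zero]
      linarith
    have hzmR : ‖zm‖ < R := by
      rcases lt_or_eq_of_le (mem_closedBall_zero_iff.mp hzm) with h | h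
      · exact h
      · exfalso
        have : Φ zm = 0 := by
          simp only [hΦ]
          rw [h, sub_self, zero_pow hkρ]
          ring
        linarith
    have hzmr : ∀ i, r i zm ≠ 0 := fun i => (hr zm hzmR.le hzmS i).2
    have hzmg : g zm ≠ 0 := by
      intro h
      have : Φ zm = 0 := by
        simp only [hΦ, wt, h]
        simp [hk.ne']
      linarith
    have hlocmax : IsLocalMax Φ zm := by
      refine hmax.isLocalMax ?_
      exact Filter.mem_of_superset (Metric.isOpen_ball.mem_nhds (by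
        rw [mem_ball_zero_iff]; exact hzmR)) Metric.ball_subset_closedBall
    have hV := powVar_le_at_max (ρ := ρ) hα hκ hk (fun i => (hr zm hzmR.le hzmS i).1)
      (hg zm hzmR.le hzmS) hzmR hzmS hzmr hzmg hlocmax
    have hVnn := powVar_nonneg (κ := κ) hzmr
    have hmm : 0 < R ^ 2 - ‖zm‖ ^ 2 := by
      have := norm_nonneg zm
      nlinarith
    have hw1 : wt κ α β r g zm * (R ^ 2 - ‖zm‖ ^ 2) ^ (2 * ρ) ≤ D * (8 * ρ * R ^ 2) ^ ρ := by
      calc wt κ α β r g zm * (R ^ 2 - ‖zm‖ ^ 2) ^ (2 * ρ)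
          ≤ (C * (8 * ρ * R ^ 2 / (R ^ 2 - ‖zm‖ ^ 2) ^ 2 / (α * κ ^ 2)) ^ ρ) *
              (R ^ 2 - ‖zm‖ ^ 2) ^ (2 * ρ) := by
            gcongr
            refine (hbound zm hzmR.le hzmS).trans ?_
            gcongr
        _ = D * (8 * ρ * R ^ 2) ^ ρ := by
            rw [hD, div_pow, div_pow, div_pow, ← pow_mul, one_pow]
            field_simp
    have hprodle : ∏ s ∈ S, ‖zm - s‖ ≤ ∏ s ∈ S, (R + ‖s‖) := by
      refine Finset.prod_le_prod (fun s _ => norm_nonneg _) fun s hs => ?_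
      refine (norm_sub_le _ _).trans ?_
      linarith
    have e0 : Φ 0 = (w₀ * (R ^ 2) ^ (2 * ρ)) ^ k * ∏ s ∈ S, ‖0 - s‖ := by
      simp only [hΦ]
      rw [mul_pow, ← pow_mul, norm_zero]
      have h9 : R ^ 2 - (0 : ℝ) ^ 2 = R ^ 2 := by ring
      rw [h9]
    have em : Φ zm = (wt κ α β r g zm * (R ^ 2 - ‖zm‖ ^ 2) ^ (2 * ρ)) ^ k *
        ∏ s ∈ S, ‖zm - s‖ := by
      simp only [hΦ]
      rw [mul_pow, ← pow_mul]
    rw [← e0]
    refine hΦm.trans ?_
    rw [em]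
    have hnn := wt_nonneg κ α β r g zm
    have := (hPpos zm hzmS).le
    gcongr
  have hRR : 0 < (R ^ 2) ^ ρ := by positivity
  have e1 : w₀ * (R ^ 2) ^ (2 * ρ) = (w₀ * R ^ (2 * ρ)) * (R ^ 2) ^ ρ := by
    rw [← pow_mul, ← pow_mul, mul_assoc, ← pow_add]
    congr 2
    ring
  have e2 : D * (8 * ρ * R ^ 2) ^ ρ = (C * (8 * ρ / (α * κ ^ 2)) ^ ρ) * (R ^ 2) ^ ρ := by
    rw [hD, mul_pow, div_pow, div_pow, one_pow]
    ring
  rw [e1, e2] at key
  exact le_of_mul_le_mul_right key hRR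

/-- The estimate at the centre of a disc. -/
theorem schwarz_disc [Nonempty ι] {r : ι → ℂ → ℂ} {g : ℂ → ℂ} {κ α : ℝ} {β : ι → ℝ} {ρ : ℕ}
    (hκ : 0 < κ) (hα : 0 < α) (hρ : 0 < ρ) {c : ℂ} {R : ℝ} (hR : 0 < R) {S : Finset ℂ}
    (h0 : c ∉ S) (hr : ∀ z, ‖z - c‖ ≤ R → z ∉ S → ∀ i, AnalyticAt ℂ (r i) z ∧ r i z ≠ 0)
    (hg : ∀ z, ‖z - c‖ ≤ R → z ∉ S → AnalyticAt ℂ g z) {C : ℝ} (hC : 0 ≤ C)
    (hbound : ∀ z, ‖z - c‖ ≤ R → z ∉ S → wt κ α β r g z ≤ C * powVar κ r z ^ ρ)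
    (hloc : ∀ s, ‖s - c‖ ≤ R → s ∈ S → ∃ B, ∀ᶠ z in 𝓝[≠] s, wt κ α β r g z ≤ B) :
    wt κ α β r g c * R ^ (2 * ρ) ≤ C * (8 * ρ / (α * κ ^ 2)) ^ ρ := by
  classical
  have hnorm : ∀ z : ℂ, ‖z‖ ≤ R → ‖(c + z) - c‖ ≤ R := fun z hz => by simpa using hz
  have hmem : ∀ z : ℂ, z ∉ S.image (fun s => s - c) → c + z ∉ S := by
    intro z hz h
    exact hz (Finset.mem_image.mpr ⟨c + z, h, by ring⟩)
  have han : ∀ (f : ℂ → ℂ) (z : ℂ), AnalyticAt ℂ f (c + z) → AnalyticAt ℂ (fun w => f (c + w)) z :=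
    fun f z h => h.fun_comp (analyticAt_const.add analyticAt_id)
  have hwt : ∀ z, wt κ α β (fun i z => r i (c + z)) (fun z => g (c + z)) z =
      wt κ α β r g (c + z) := fun z => rfl
  have hpv : ∀ z, powVar κ (fun i z => r i (c + z)) z = powVar κ r (c + z) := by
    intro z
    unfold powVar
    congr 1
    funext i
    rw [deriv_comp_const_add]
  have h1 := schwarz_disc_zero (r := fun i z => r i (c + z)) (g := fun z => g (c + z)) (β := β)
    hκ hα hρ hR (S := S.image fun s => s - c) (by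
      intro h
      obtain ⟨s, hs, hs'⟩ := Finset.mem_image.mp h
      rw [sub_eq_zero] at hs'
      rw [hs'] at hs
      exact h0 hs) (fun z hz hzS i => ⟨han _ z (hr _ (hnorm z hz) (hmem z hzS) i).1,
        (hr _ (hnorm z hz) (hmem z hzS) i).2⟩) (fun z hz hzS => han _ z (hg _ (hnorm z hz)
        (hmem z hzS))) hC (fun z hz hzS => by
          rw [hwt, hpv]
          exact hbound _ (hnorm z hz) (hmem z hzS)) (fun s hs hsS => by
          obtain ⟨s', hs', hs''⟩ := Finset.mem_image.mp hsS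
          have hs3 : s' = c + s := by rw [← hs'']; ring
          obtain ⟨B, hB⟩ := hloc s' (by rw [hs3]; exact hnorm s hs) hs'
          refine ⟨B, ?_⟩
          rw [hs3] at hB
          have h2 : Tendsto (fun z => c + z) (𝓝[≠] s) (𝓝[≠] (c + s)) := by
            refine tendsto_nhdsWithin_iff.mpr ⟨?_, ?_⟩
            · exact ((continuous_const.add continuous_id).tendsto s).mono_left nhdsWithin_le_nhds
            · filter_upwards [self_mem_nhdsWithin] with z hz h3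
              exact hz (add_left_cancel h3)
          exact h2.eventually hB)
  rw [hwt, add_zero] at h1
  exact h1

end Pool.Agent.H92.GGL

end
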