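import Pool.Agent.H94.PX2.M10
import Pool.Agent.H94.PX2.M17
import Pool.Agent.H94.PX2.M42
import Pool.Agent.H94.PX2.M59

/-! The parts of this file: H62.FC.Nev0_1, H62.FC.IterDeriv, H62.FC.LogDeriv_1. -/

section

/-!
# Nevanlinna theory at a puncture: counting functions and the first main theorem
-/

noncomputable section

namespace Pool.Agent.H62.FC

open Filter Topology MeasureTheory
open Pool.Agent.H92.GGL (ordZ finite_ordZ jensen_punctured)

variable {R₀ R₁ : ℝ}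

private theorem Nev0_exists2 {w w' : ℂ → ℝ} (h : R₁ < R₀) (hw : LocFin R₀ w)
    (hw' : LocFin R₀ w') {r : ℝ} (hr : 0 < r) :
    ∃ T : Finset ℂ, (∀ s, r < ‖s‖ → ‖s‖ < R₁ → w s ≠ 0 → s ∈ T) ∧
      ∀ s, r < ‖s‖ → ‖s‖ < R₁ → w' s ≠ 0 → s ∈ T := by
  classical
  obtain ⟨T, hT⟩ := Nev0_exists h hw hr
  obtain ⟨T', hT'⟩ := Nev0_exists h hw' hr
  exact ⟨T ∪ T', fun s h1 h2 h3 => Finset.mem_union_left _ (hT s h1 h2 h3),
    fun s h1 h2 h3 => Finset.mem_union_right _ (hT' s h1 h2 h3)⟩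

theorem cnt_add {w w' : ℂ → ℝ} (h : R₁ < R₀) (hw : LocFin R₀ w) (hw' : LocFin R₀ w') {r : ℝ}
    (hr : 0 < r) : cnt (fun s => w s + w' s) R₁ r = cnt w R₁ r + cnt w' R₁ r := by
  obtain ⟨T, hT, hT'⟩ := Nev0_exists2 h hw hw' hr
  rw [cnt_eq_sum hT hr, cnt_eq_sum hT' hr, cnt_eq_sum (w := fun s => w s + w' s) (T := T) ?_ hr,
    ← Finset.sum_add_distrib]
  · exact Finset.sum_congr rfl fun s _ => add_mul _ _ _
  · intro s h1 h2 h3
    by_cases h4 : w s = 0
    · refine hT' s h1 h2 fun h5 => h3 ?_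
      rw [h4, h5, add_zero]
    · exact hT s h1 h2 h4

theorem cnt_mul {w : ℂ → ℝ} (c : ℝ) {r : ℝ} (h : R₁ < R₀) (hw : LocFin R₀ w) (hr : 0 < r) :
    cnt (fun s => c * w s) R₁ r = c * cnt w R₁ r := by
  obtain ⟨T, hT⟩ := Nev0_exists h hw hr
  rw [cnt_eq_sum hT hr, cnt_eq_sum (w := fun s => c * w s) (T := T) ?_ hr, Finset.mul_sum]
  · exact Finset.sum_congr rfl fun s _ => mul_assoc _ _ _
  · intro s h1 h2 h3
    refine hT s h1 h2 fun h4 => h3 ?_
    rw [h4, mul_zero]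

theorem cnt_mono {w w' : ℂ → ℝ} (h : R₁ < R₀) (hw : LocFin R₀ w) (hw' : LocFin R₀ w') {r : ℝ}
    (hr : 0 < r) (hle : ∀ s, r < ‖s‖ → ‖s‖ < R₁ → w s ≤ w' s) : cnt w R₁ r ≤ cnt w' R₁ r := by
  obtain ⟨T, hT, hT'⟩ := Nev0_exists2 h hw hw' hr
  rw [cnt_eq_sum hT hr, cnt_eq_sum hT' hr]
  refine Finset.sum_le_sum fun s hs => ?_
  obtain ⟨_, h1, h2⟩ := Finset.mem_filter.mp hs
  refine mul_le_mul_of_nonneg_right (hle s h1 h2) (Real.log_nonneg ?_)
  rw [one_le_div hr]
  exact h1.le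

theorem cnt_nonneg {w : ℂ → ℝ} {r : ℝ} (hr : 0 < r) (hw : ∀ s, 0 ≤ w s) : 0 ≤ cnt w R₁ r := by
  unfold cnt
  refine finsum_nonneg fun s => finsum_nonneg fun hs => ?_
  refine mul_nonneg (hw s) (Real.log_nonneg ?_)
  rw [one_le_div hr]
  exact hs.1.le

theorem MeroPunct.jensen {u : ℂ → ℂ} (hu : MeroPunct R₀ u) (h1 : 0 < R₁) (h : R₁ < R₀) :
    ∃ A B : ℝ, ∀ x, Real.exp (-x) < R₁ →
      mean (fun z => Real.log ‖u z‖) x = A + B * x + cnt (fun s => (ordZ u s : ℝ)) R₁ (Real.exp (-x)) := by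
  classical
  obtain ⟨A, B, hAB⟩ := jensen_punctured h hu.mero hu.ord
  refine ⟨A, -B, fun x hx => ?_⟩
  have hr : 0 < Real.exp (-x) := Real.exp_pos _
  obtain ⟨T, hT⟩ := Nev0_exists h hu.locFin hr
  have hT' : ∀ s, Real.exp (-x) < ‖s‖ → ‖s‖ < R₁ → ordZ u s ≠ 0 →
      s ∈ T.filter (fun s => Real.exp (-x) < ‖s‖ ∧ ‖s‖ < R₁) := by
    intro s h3 h4 h5
    exact Finset.mem_filter.mpr ⟨hT s h3 h4 (by exact_mod_cast h5), h3, h4⟩
  unfold mean
  rw [hAB (Real.exp (-x)) hr hx _ (fun s hs => (Finset.mem_filter.mp hs).2.2) hT',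
    cnt_eq_sum hT hr, Real.log_exp]
  have e : ∀ s ∈ T.filter (fun s => Real.exp (-x) < ‖s‖ ∧ ‖s‖ < R₁),
      (ordZ u s : ℝ) * Real.posLog (‖s‖ / Real.exp (-x)) =
      (ordZ u s : ℝ) * Real.log (‖s‖ / Real.exp (-x)) := by
    intro s hs
    have h3 := (Finset.mem_filter.mp hs).2.1
    have h4 : 1 ≤ |‖s‖ / Real.exp (-x)| := by
      rw [abs_of_nonneg (by positivity), one_le_div hr]
      exact h3.le
    rw [Real.posLog_eq_log h4]
  rw [Finset.sum_congr rfl e]
  ring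

theorem MeroPunct.circleIntegrable_posLog {u : ℂ → ℂ} (hu : MeroPunct R₀ u) {x : ℝ}
    (hx : Real.exp (-x) < R₀) : CircleIntegrable (fun z => Real.posLog ‖u z‖) 0 (Real.exp (-x)) :=
  (Nev0_mem hu hx).circleIntegrable_posLog_norm

theorem MeroPunct.mul {u v : ℂ → ℂ} (hu : MeroPunct R₀ u) (hv : MeroPunct R₀ v) :
    MeroPunct R₀ (fun z => u z * v z) where
  mero z h1 h2 := (hu.mero z h1 h2).mul (hv.mero z h1 h2)
  ord z h1 h2 := by
    have e : meromorphicOrderAt (fun z => u z * v z) z =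
        meromorphicOrderAt u z + meromorphicOrderAt v z :=
      meromorphicOrderAt_mul (hu.mero z h1 h2) (hv.mero z h1 h2)
    rw [e]
    exact WithTop.add_ne_top.mpr ⟨hu.ord z h1 h2, hv.ord z h1 h2⟩

private theorem Nev0_ord_inv (u : ℂ → ℂ) (z : ℂ) :
    meromorphicOrderAt (fun z => (u z)⁻¹) z = -meromorphicOrderAt u z :=
  meromorphicOrderAt_inv

theorem MeroPunct.inv {u : ℂ → ℂ} (hu : MeroPunct R₀ u) : MeroPunct R₀ (fun z => (u z)⁻¹) where
  mero z h1 h2 := (hu.mero z h1 h2).inv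
  ord z h1 h2 := by
    rw [Nev0_ord_inv]
    intro h
    have h3 := hu.ord z h1 h2
    obtain ⟨k, hk⟩ := WithTop.ne_top_iff_exists.mp h3
    rw [← hk] at h
    exact absurd h (by exact WithTop.coe_ne_top (a := -k))

private theorem Nev0_ordZ_inv {u : ℂ → ℂ} {z : ℂ} (h : meromorphicOrderAt u z ≠ ⊤) :
    ordZ (fun z => (u z)⁻¹) z = -ordZ u z := by
  unfold Pool.Agent.H92.GGL.ordZ
  rw [Nev0_ord_inv]
  obtain ⟨k, hk⟩ := WithTop.ne_top_iff_exists.mp h
  rw [← hk]
  have e : -((k : ℤ) : WithTop ℤ) = ((-k : ℤ) : WithTop ℤ) := rfl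
  rw [e, WithTop.untop₀_coe, WithTop.untop₀_coe]

theorem nevT_nonneg (u : ℂ → ℂ) (R₁ x : ℝ) : 0 ≤ nevT u R₁ x := by
  unfold nevT mean
  refine add_nonneg (Real.circleAverage_nonneg_of_nonneg fun z _ => Real.posLog_nonneg)
    (cnt_nonneg (Real.exp_pos _) fun s => le_max_right _ _)

private theorem Nev0_locFin_comp {w : ℂ → ℝ} (hw : LocFin R₀ w) {f : ℝ → ℝ} (hf : f 0 = 0) :
    LocFin R₀ (fun s => f (w s)) := by
  intro r b hr hb
  refine (hw r b hr hb).subset ?_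
  rintro s ⟨h1, h2, h3⟩
  refine ⟨h1, h2, fun h => h3 ?_⟩
  change f (w s) = 0
  rw [h, hf]

private theorem Nev0_cnt_congr {w w' : ℂ → ℝ} {r : ℝ}
    (hle : ∀ s, r < ‖s‖ → ‖s‖ < R₁ → w s = w' s) : cnt w R₁ r = cnt w' R₁ r := by
  unfold cnt
  refine finsum_congr fun s => finsum_congr fun hs => ?_
  rw [hle s hs.1 hs.2]

/-- the characteristic function of the inverse -/
private theorem Nev0_inv {u : ℂ → ℂ} (hu : MeroPunct R₀ u) (h : R₁ < R₀) {x : ℝ}
    (hx : Real.exp (-x) < R₁) :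
    nevT (fun z => (u z)⁻¹) R₁ x = mean (fun z => Real.posLog ‖u z‖⁻¹) x +
      cnt (fun s => max (ordZ u s : ℝ) 0) R₁ (Real.exp (-x)) := by
  unfold nevT
  congr 1
  · congr 1
    funext z
    rw [norm_inv]
  · refine Nev0_cnt_congr fun s h1 h2 => ?_
    rw [Nev0_ordZ_inv (hu.ord s ((Real.exp_pos _).trans h1) (h2.trans h))]
    push_cast
    rw [neg_neg]

/-- first main theorem for `0` and `∞` -/
theorem MeroPunct.nevT_inv {u : ℂ → ℂ} (hu : MeroPunct R₀ u) (h1 : 0 < R₁) (h : R₁ < R₀) :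
    ∃ C : ℝ, ∀ x, Real.exp (-x) < R₁ →
      |nevT (fun z => (u z)⁻¹) R₁ x - nevT u R₁ x| ≤ C * (1 + |x|) := by
  obtain ⟨A, B, hAB⟩ := hu.jensen h1 h
  refine ⟨|A| + |B|, fun x hx => ?_⟩
  have hr : 0 < Real.exp (-x) := Real.exp_pos _
  have hx0 : Real.exp (-x) < R₀ := hx.trans h
  have hJ := hAB x hx
  have e1 : mean (fun z => Real.log ‖u z‖) x = mean (fun z => Real.posLog ‖u z‖) x -
      mean (fun z => Real.posLog ‖u z‖⁻¹) x := by
    unfold mean
    rw [← Real.circleAverage_fun_sub (hu.circleIntegrable_posLog hx0)]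
    · congr 1
      funext z
      rw [Real.posLog_sub_posLog_inv]
    · have := hu.inv.circleIntegrable_posLog hx0
      simpa only [norm_inv] using this
  have e2 : cnt (fun s => max (ordZ u s : ℝ) 0) R₁ (Real.exp (-x)) =
      cnt (fun s => (ordZ u s : ℝ)) R₁ (Real.exp (-x)) +
      cnt (fun s => max (-(ordZ u s : ℝ)) 0) R₁ (Real.exp (-x)) := by
    rw [← cnt_add h hu.locFin (Nev0_locFin_comp (f := fun t => max (-t) 0) hu.locFin (by simp)) hr]
    refine Nev0_cnt_congr fun s _ _ => ?_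
    rcases le_total (ordZ u s : ℝ) 0 with h3 | h3
    · rw [max_eq_right h3, max_eq_left (neg_nonneg.mpr h3), add_neg_cancel]
    · rw [max_eq_left h3, max_eq_right (neg_nonpos.mpr h3), add_zero]
  have e3 : nevT (fun z => (u z)⁻¹) R₁ x - nevT u R₁ x = -(A + B * x) := by
    rw [Nev0_inv hu h hx, nevT, e2]
    rw [e1] at hJ
    linarith
  rw [e3, abs_neg]
  have h4 := abs_nonneg A
  have h5 := abs_nonneg B
  have h6 := abs_nonneg x
  calc |A + B * x| ≤ |A| + |B * x| := abs_add_le _ _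
    _ = |A| + |B| * |x| := by rw [abs_mul]
    _ ≤ (|A| + |B|) * (1 + |x|) := by nlinarith [mul_nonneg h4 h6]

/-- the mean of `|log |u||` and the number of zeros and poles -/
theorem MeroPunct.mean_abs_add_cnt {u : ℂ → ℂ} (hu : MeroPunct R₀ u) (h1 : 0 < R₁) (h : R₁ < R₀) :
    ∃ C : ℝ, ∀ x, Real.exp (-x) < R₁ →
      mean (fun z => |Real.log ‖u z‖|) x + cnt (fun s => |(ordZ u s : ℝ)|) R₁ (Real.exp (-x)) ≤
        2 * nevT u R₁ x + C * (1 + |x|) := by
  obtain ⟨C, hC⟩ := hu.nevT_inv h1 h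
  refine ⟨C, fun x hx => ?_⟩
  have hr : 0 < Real.exp (-x) := Real.exp_pos _
  have hx0 : Real.exp (-x) < R₀ := hx.trans h
  have e1 : mean (fun z => |Real.log ‖u z‖|) x = mean (fun z => Real.posLog ‖u z‖) x +
      mean (fun z => Real.posLog ‖u z‖⁻¹) x := by
    unfold mean
    rw [← Real.circleAverage_fun_add (hu.circleIntegrable_posLog hx0)]
    · congr 1
      funext z
      have h2 := Real.half_mul_log_add_log_abs (x := ‖u z‖)
      have h3 := Real.posLog_sub_posLog_inv (x := ‖u z‖)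
      linarith
    · have := hu.inv.circleIntegrable_posLog hx0
      simpa only [norm_inv] using this
  have e2 : cnt (fun s => |(ordZ u s : ℝ)|) R₁ (Real.exp (-x)) =
      cnt (fun s => max (ordZ u s : ℝ) 0) R₁ (Real.exp (-x)) +
      cnt (fun s => max (-(ordZ u s : ℝ)) 0) R₁ (Real.exp (-x)) := by
    rw [← cnt_add h (Nev0_locFin_comp (f := fun t => max t 0) hu.locFin (by simp))
      (Nev0_locFin_comp (f := fun t => max (-t) 0) hu.locFin (by simp)) hr]
    refine Nev0_cnt_congr fun s _ _ => ?_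
    rcases le_total (ordZ u s : ℝ) 0 with h3 | h3
    · rw [max_eq_right h3, max_eq_left (neg_nonneg.mpr h3), zero_add, abs_of_nonpos h3]
    · rw [max_eq_left h3, max_eq_right (neg_nonpos.mpr h3), add_zero, abs_of_nonneg h3]
  have h2 := (abs_le.mp (hC x hx)).2
  have e3 : mean (fun z => |Real.log ‖u z‖|) x +
      cnt (fun s => |(ordZ u s : ℝ)|) R₁ (Real.exp (-x)) =
      nevT u R₁ x + nevT (fun z => (u z)⁻¹) R₁ x := by
    rw [e1, e2, Nev0_inv hu h hx, nevT]
    ring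
  rw [e3]
  linarith

end Pool.Agent.H62.FC

end
end

section

/-!
# FC: lemma on the logarithmic derivative, higher derivatives
-/

noncomputable section

namespace Pool.Agent.H62.FC

open Filter Topology MeasureTheory
open Pool.Agent.H92.GGL (ordZ)

/-! ### The punctured disc -/

private lemma iterDeriv_preconn (R₀ : ℝ) (hR₀ : 0 < R₀) :
    IsPreconnected {z : ℂ | 0 < ‖z‖ ∧ ‖z‖ < R₀} := by
  have h1 : IsPreconnected ({z : ℂ | z.re < Real.log R₀}) :=
    (convex_halfSpace_re_lt (Real.log R₀)).isPreconnected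
  have h2 := h1.image Complex.exp Complex.continuous_exp.continuousOn
  have h3 : Complex.exp '' {z : ℂ | z.re < Real.log R₀} = {z : ℂ | 0 < ‖z‖ ∧ ‖z‖ < R₀} := by
    ext z
    constructor
    · rintro ⟨w, hw, rfl⟩
      refine ⟨by rw [Complex.norm_exp]; exact Real.exp_pos _, ?_⟩
      rw [Complex.norm_exp]
      calc Real.exp w.re < Real.exp (Real.log R₀) := Real.exp_lt_exp.2 hw
        _ = R₀ := Real.exp_log hR₀
    · rintro ⟨hz0, hz1⟩
      refine ⟨Complex.log z, ?_, Complex.exp_log (norm_pos_iff.1 hz0)⟩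
      change (Complex.log z).re < _
      rw [Complex.log_re]
      exact Real.log_lt_log hz0 hz1
  rwa [h3] at h2

/-- a meromorphic function on the punctured disc is either of finite order everywhere, or it
vanishes off a discrete set -/
lemma iterDeriv_dich {R₀ : ℝ} (hR₀ : 0 < R₀) {w : ℂ → ℂ}
    (hw : ∀ z, 0 < ‖z‖ → ‖z‖ < R₀ → MeromorphicAt w z) :
    MeroPunct R₀ w ∨ ∀ z, 0 < ‖z‖ → ‖z‖ < R₀ → ∀ᶠ ζ in 𝓝[≠] z, w ζ = 0 := by
  by_cases h : ∀ z, 0 < ‖z‖ → ‖z‖ < R₀ → meromorphicOrderAt w z ≠ ⊤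
  · exact Or.inl ⟨hw, h⟩
  · right
    push Not at h
    obtain ⟨z₀, h1, h2, h3⟩ := h
    intro z hz1 hz2
    rw [← meromorphicOrderAt_eq_top_iff]
    by_contra h4
    have hm : MeromorphicOn w {z : ℂ | 0 < ‖z‖ ∧ ‖z‖ < R₀} := fun y hy => hw y hy.1 hy.2
    exact hm.meromorphicOrderAt_ne_top_of_isPreconnected (iterDeriv_preconn R₀ hR₀)
      ⟨hz1, hz2⟩ ⟨h1, h2⟩ h4 h3

/-! ### Means -/

lemma iterDeriv_cod {R₀ x : ℝ} (hx : Real.exp (-x) < R₀) {P : ℂ → Prop}
    (hP : ∀ z, 0 < ‖z‖ → ‖z‖ < R₀ → ∀ᶠ ζ in 𝓝[≠] z, P ζ) :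
    ∀ᶠ z in codiscreteWithin (Metric.sphere (0 : ℂ) |Real.exp (-x)|), P z := by
  rw [Filter.Eventually, mem_codiscreteWithin_iff_forall_mem_nhdsNE]
  intro z hz
  rw [mem_sphere_zero_iff_norm, abs_of_pos (Real.exp_pos _)] at hz
  filter_upwards [hP z (by rw [hz]; exact Real.exp_pos _) (by rw [hz]; exact hx)] with ζ hζ
  exact Or.inl hζ

lemma iterDeriv_mean_mono {f g : ℂ → ℝ} {x : ℝ}
    (hf : CircleIntegrable f 0 (Real.exp (-x))) (hg : CircleIntegrable g 0 (Real.exp (-x)))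
    (h : ∀ᶠ z in codiscreteWithin (Metric.sphere (0 : ℂ) |Real.exp (-x)|), f z ≤ g z) :
    mean f x ≤ mean g x := by
  have he : f =ᶠ[codiscreteWithin (Metric.sphere (0 : ℂ) |Real.exp (-x)|)]
      fun z => min (f z) (g z) := by
    filter_upwards [h] with z hz
    exact (min_eq_left hz).symm
  unfold mean
  rw [Real.circleAverage_congr_codiscreteWithin he (Real.exp_pos _).ne']
  exact Real.circleAverage_mono (hf.congr_codiscreteWithin he) hg fun z _ => min_le_right _ _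

lemma iterDeriv_mean_zero {f : ℂ → ℝ} {x : ℝ}
    (h : ∀ᶠ z in codiscreteWithin (Metric.sphere (0 : ℂ) |Real.exp (-x)|), f z = 0) :
    mean f x = 0 := by
  unfold mean
  have he : f =ᶠ[codiscreteWithin (Metric.sphere (0 : ℂ) |Real.exp (-x)|)] fun _ => 0 := h
  rw [Real.circleAverage_congr_codiscreteWithin he (Real.exp_pos _).ne',
    Real.circleAverage_const]

lemma iterDeriv_mean_add {f g : ℂ → ℝ} {x : ℝ}
    (hf : CircleIntegrable f 0 (Real.exp (-x))) (hg : CircleIntegrable g 0 (Real.exp (-x))) :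
    mean (fun z => f z + g z) x = mean f x + mean g x :=
  Real.circleAverage_fun_add hf hg

lemma iterDeriv_posLog_le {a b c : ℂ} (hb : b ≠ 0) :
    Real.posLog ‖a / c‖ ≤ Real.posLog ‖a / b‖ + Real.posLog ‖b / c‖ := by
  have h : a / c = (a / b) * (b / c) := by
    rw [div_mul_div_comm, mul_comm b c, mul_div_mul_right _ _ hb]
  rw [h, norm_mul]
  exact Real.posLog_mul

/-! ### Orders -/

private lemma iterDeriv_ord_nonneg {f : ℂ → ℂ} {s : ℂ} (hf : MeromorphicAt f s)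
    (h : 0 ≤ meromorphicOrderAt f s) : 0 ≤ meromorphicOrderAt (deriv f) s := by
  have h1 : f =ᶠ[𝓝[≠] s] toMeromorphicNFAt f s := hf.eq_nhdsNE_toMeromorphicNFAt
  have h2 : 0 ≤ meromorphicOrderAt (toMeromorphicNFAt f s) s := by
    rwa [← meromorphicOrderAt_congr h1]
  have h3 : AnalyticAt ℂ (toMeromorphicNFAt f s) s :=
    meromorphicNFAt_toMeromorphicNFAt.meromorphicOrderAt_nonneg_iff_analyticAt.1 h2
  rw [meromorphicOrderAt_congr h1.nhdsNE_deriv]
  exact h3.deriv.meromorphicOrderAt_nonneg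

lemma iterDeriv_mero {u : ℂ → ℂ} {s : ℂ} (hu : MeromorphicAt u s) (l : ℕ) :
    MeromorphicAt (iteratedDeriv l u) s := by
  rw [iteratedDeriv_eq_iterate]
  exact hu.iterated_deriv

private lemma iterDeriv_ord {u : ℂ → ℂ} {s : ℂ} (hu : MeromorphicAt u s) (l : ℕ) :
    (0 ≤ meromorphicOrderAt u s → 0 ≤ meromorphicOrderAt (iteratedDeriv l u) s) ∧
    ∀ n : ℤ, n < 0 → meromorphicOrderAt u s = n →
      meromorphicOrderAt (iteratedDeriv l u) s = ((n - l : ℤ) : WithTop ℤ) := by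
  induction l with
  | zero =>
    rw [iteratedDeriv_zero]
    exact ⟨id, fun n _ hn => by simpa using hn⟩
  | succ l ih =>
    rw [iteratedDeriv_succ]
    refine ⟨fun h => iterDeriv_ord_nonneg (iterDeriv_mero hu l) (ih.1 h), fun n hn hn' => ?_⟩
    have h1 := ih.2 n hn hn'
    have h2 : ((n - l : ℤ) : ℂ) ≠ 0 := by
      have : (n - l : ℤ) ≠ 0 := by omega
      exact_mod_cast this
    rw [meromorphicOrderAt_deriv_eq_sub_one h2 h1]
    congr 1
    push_cast
    ring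

private lemma iterDeriv_pole {u : ℂ → ℂ} {s : ℂ} (hu : MeromorphicAt u s)
    (ho : meromorphicOrderAt u s ≠ ⊤) (l : ℕ)
    (hv : meromorphicOrderAt (iteratedDeriv l u) s ≠ ⊤) :
    max (-(ordZ (iteratedDeriv l u) s : ℝ)) 0 ≤ ((l : ℝ) + 1) * max (-(ordZ u s : ℝ)) 0 := by
  have h1 := Pool.Agent.H92.GGL.ordZ_cast ho
  have h2 := Pool.Agent.H92.GGL.ordZ_cast hv
  obtain ⟨h3, h4⟩ := iterDeriv_ord hu l
  rcases le_or_gt 0 (ordZ u s) with h0 | h0
  · have h5 : 0 ≤ meromorphicOrderAt (iteratedDeriv l u) s := by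
      apply h3
      rw [← h1]
      exact_mod_cast h0
    rw [← h2] at h5
    have h6 : 0 ≤ ordZ (iteratedDeriv l u) s := by exact_mod_cast h5
    have h7 : (0 : ℝ) ≤ (ordZ (iteratedDeriv l u) s : ℝ) := by exact_mod_cast h6
    rw [max_eq_right (by linarith)]
    positivity
  · have h5 := h4 _ h0 h1.symm
    rw [← h2] at h5
    have h6 : ordZ (iteratedDeriv l u) s = ordZ u s - l := by exact_mod_cast h5
    have h7 : (ordZ (iteratedDeriv l u) s : ℝ) = (ordZ u s : ℝ) - l := by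
      rw [h6]; push_cast; ring
    have h8 : (ordZ u s : ℝ) ≤ -1 := by
      have : ordZ u s ≤ -1 := by omega
      exact_mod_cast this
    have hl : (0 : ℝ) ≤ l := Nat.cast_nonneg l
    rw [h7, max_eq_left (by linarith), max_eq_left (by linarith)]
    nlinarith

private lemma iterDeriv_locFin {R₀ : ℝ} {u : ℂ → ℂ} (hu : MeroPunct R₀ u) :
    LocFin R₀ fun s => max (-(ordZ u s : ℝ)) 0 := by
  intro r b hr hb
  refine (MeroPunct.locFin hu r b hr hb).subset ?_
  rintro s ⟨h1, h2, h3⟩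
  refine ⟨h1, h2, fun h0 => h3 ?_⟩
  simp only at h0
  simp [h0]

/-! ### The characteristic of a derivative -/

lemma iterDeriv_nevT {R₀ R₁ : ℝ} (h : R₁ < R₀) {u : ℂ → ℂ}
    (hu : MeroPunct R₀ u) (l : ℕ) (hv : MeroPunct R₀ (iteratedDeriv l u)) {x : ℝ}
    (hx : Real.exp (-x) < R₁) :
    nevT (iteratedDeriv l u) R₁ x ≤ ((l : ℝ) + 1) * nevT u R₁ x +
      mean (fun z => Real.posLog ‖iteratedDeriv l u z / u z‖) x := by
  have hx0 : Real.exp (-x) < R₀ := hx.trans h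
  have iv := MeroPunct.circleIntegrable_posLog hv hx0
  have iu := MeroPunct.circleIntegrable_posLog hu hx0
  have ivu : CircleIntegrable (fun z => Real.posLog ‖iteratedDeriv l u z / u z‖) 0
      (Real.exp (-x)) := by
    have := MeroPunct.circleIntegrable_posLog
      (MeroPunct.mul hv (MeroPunct.inv hu)) hx0
    simpa only [div_eq_mul_inv] using this
  have hm : mean (fun z => Real.posLog ‖iteratedDeriv l u z‖) x ≤
      mean (fun z => Real.posLog ‖iteratedDeriv l u z / u z‖) x +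
        mean (fun z => Real.posLog ‖u z‖) x := by
    rw [← iterDeriv_mean_add ivu iu]
    refine iterDeriv_mean_mono iv (CircleIntegrable.fun_add ivu iu) ?_
    refine iterDeriv_cod hx0 (P := fun z => Real.posLog ‖iteratedDeriv l u z‖ ≤
      Real.posLog ‖iteratedDeriv l u z / u z‖ + Real.posLog ‖u z‖) fun z hz1 hz2 => ?_
    filter_upwards [(meromorphicOrderAt_ne_top_iff_eventually_ne_zero (hu.mero z hz1 hz2)).1
      (hu.ord z hz1 hz2)] with ζ hζ
    have := iterDeriv_posLog_le (a := iteratedDeriv l u ζ) (b := u ζ) (c := 1) hζ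
    simpa using this
  have hu0 : 0 ≤ mean (fun z => Real.posLog ‖u z‖) x :=
    Real.circleAverage_nonneg_of_nonneg fun z _ => Real.posLog_nonneg
  have hc : cnt (fun s => max (-(ordZ (iteratedDeriv l u) s : ℝ)) 0) R₁ (Real.exp (-x)) ≤
      ((l : ℝ) + 1) * cnt (fun s => max (-(ordZ u s : ℝ)) 0) R₁ (Real.exp (-x)) := by
    rw [← cnt_mul _ h (iterDeriv_locFin hu) (Real.exp_pos _)]
    refine cnt_mono h (iterDeriv_locFin hv) ?_ (Real.exp_pos _) fun s hs1 hs2 => ?_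
    · intro r b hr hb
      refine (iterDeriv_locFin hu r b hr hb).subset ?_
      rintro s ⟨g1, g2, g3⟩
      refine ⟨g1, g2, fun h0 => g3 ?_⟩
      simp only at h0
      simp only [h0, mul_zero]
    · have hs0 : 0 < ‖s‖ := (Real.exp_pos _).trans hs1
      have hs3 : ‖s‖ < R₀ := hs2.trans h
      exact iterDeriv_pole (hu.mero s hs0 hs3) (hu.ord s hs0 hs3) l (hv.ord s hs0 hs3)
  have hl : (0 : ℝ) ≤ l := Nat.cast_nonneg l
  unfold nevT
  nlinarith [mul_nonneg hl hu0]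

end Pool.Agent.H62.FC

end
end

section

/-!
# The lemma on the logarithmic derivative at a puncture
-/

open Filter Topology MeasureTheory
open Pool.Agent.H92.GGL (ordZ)

noncomputable section

namespace Pool.Agent.H62.FC

/-! ### The weights -/

/-! ### Integrability on circles -/

/-! ### Pointwise inequality -/

/-! ### Bounds of logarithms -/

/-! ### The limit of the weights -/

/-- Lemma on the logarithmic derivative. -/
theorem MeroPunct.logDeriv_negl {R₀ R₁ : ℝ} (h1 : 0 < R₁) (h : R₁ < R₀) {u : ℂ → ℂ}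
    (hu : MeroPunct R₀ u) :
    Negl R₁ (nevT u R₁) (mean fun z => Real.posLog ‖deriv u z / u z‖) := by
  intro ε hε
  have hR₀ : 0 < R₀ := h1.trans h
  obtain ⟨R', C₀, hR', hR'0, hpot⟩ := potential_ineq hR₀ hu
  obtain ⟨C₁, hC₁⟩ := MeroPunct.mean_abs_add_cnt hu hR' hR'0
  obtain ⟨C₂, hC₂⟩ := nevT_radius h1 h hR' hR'0 hu
  have hpot' : ∀ n : ℕ, _ := fun n => hpot (wn n) n (wn_cont n) (wn_nonneg n) (wn_neg n)
    (Nat.cast_nonneg n) (fun t ht => wn_zero (ht.trans (le_abs_self t))) (wn_integral n)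
  set x₀ : ℝ := -Real.log R' with hx₀
  set G : ℕ → ℝ → ℝ := fun n x =>
    mean (fun z => wn n (Real.log ‖u z‖) * ‖z * deriv u z / u z‖ ^ 2) x with hG
  set Bd : ℝ → ℝ := fun x => mean (fun z => |Real.log ‖u z‖|) x +
    cnt (fun s => |(ordZ u s : ℝ)|) R' (Real.exp (-x)) + |C₀| * (1 + |x|) with hBd
  have hexp : ∀ x, x₀ ≤ x → Real.exp (-x) < R₀ := by
    intro x hx
    have : Real.exp (-x) ≤ R' := by
      rw [← Real.exp_log hR']
      refine Real.exp_le_exp.2 ?_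
      rw [hx₀] at hx
      linarith
    linarith
  have hG0 : ∀ n x, 0 ≤ G n x := fun n x =>
    Real.circleAverage_nonneg_of_nonneg fun z _ => mul_nonneg (wn_nonneg _ _) (sq_nonneg _)
  have hH : ∀ n x, x₀ ≤ x → (∫ y in x₀..x, (x - y) * G n y) ≤ Bd x := by
    intro n x hx
    refine ((hpot' n).2 x hx).trans ?_
    rw [hBd]
    have := le_abs_self C₀
    have := abs_nonneg x
    have h3 : C₀ * (1 + |x|) ≤ |C₀| * (1 + |x|) :=
      mul_le_mul_of_nonneg_right (le_abs_self C₀) (by linarith)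
    show _ ≤ mean (fun z => |Real.log ‖u z‖|) x +
      cnt (fun s => |(ordZ u s : ℝ)|) R' (Real.exp (-x)) + |C₀| * (1 + |x|)
    linarith
  have hH0 : ∀ n x, x₀ ≤ x → 0 ≤ ∫ y in x₀..x, (x - y) * G n y := by
    intro n x hx
    refine intervalIntegral.integral_nonneg hx fun y hy => ?_
    exact mul_nonneg (by linarith [hy.2]) (hG0 n y)
  have hBd0 : ∀ x, x₀ ≤ x → 0 ≤ Bd x := fun x hx => (hH0 0 x hx).trans (hH 0 x hx)
  set En : ℕ → Set ℝ := fun n => {x | x₀ ≤ x ∧ 4 * (1 + Bd x) ^ 4 < G n x} with hEn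
  have hEn2 : ∀ n, volume (En n) ≤ 2 := by
    intro n
    refine (measure_mono ?_).trans (calculus_lemma (hpot' n).1 fun x _ => hG0 n x)
    rintro x ⟨hx, hx2⟩
    refine ⟨hx, lt_of_le_of_lt ?_ hx2⟩
    have h3 := hH n x hx
    have h4 := hH0 n x hx
    refine mul_le_mul_of_nonneg_left (pow_le_pow_left₀ (by linarith) (by linarith) 4) (by norm_num)
  have hmono : Monotone En := by
    intro n m hnm x hx
    refine ⟨hx.1, lt_of_lt_of_le hx.2 ?_⟩
    refine Real.circleAverage_mono (circleIntegrable_wn hu n (hexp x hx.1))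
      (circleIntegrable_wn hu m (hexp x hx.1)) fun z _ => ?_
    exact mul_le_mul_of_nonneg_right (wn_mono hnm _) (sq_nonneg _)
  have hEU : volume (⋃ n, En n) ≤ 2 := by
    rw [hmono.measure_iUnion]
    exact iSup_le hEn2
  set η : ℝ := ε / 6 with hη
  have hη0 : 0 < η := by positivity
  refine ⟨3 + 3 * (η + |Real.log η|) + ε / 2 * abs (2 * C₂ + C₁ + |C₀|),
    (⋃ n, En n) ∪ Set.Icc (-Real.log R₁) x₀, ?_, ?_⟩
  · refine ne_top_of_le_ne_top ?_ (measure_union_le _ _)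
    refine ENNReal.add_ne_top.2 ⟨ne_top_of_le_ne_top (by norm_num) hEU, ?_⟩
    rw [Real.volume_Icc]
    exact ENNReal.ofReal_ne_top
  · intro x hx hxE
    have hx1 : -Real.log R₁ < x := by
      have := Real.log_lt_log (Real.exp_pos _) hx
      rw [Real.log_exp] at this
      linarith
    have hx2 : x₀ < x := by
      by_contra hcon
      exact hxE (Or.inr ⟨hx1.le, not_lt.1 hcon⟩)
    have hx3 : Real.exp (-x) < R' := by
      rw [← Real.exp_log hR']
      refine Real.exp_lt_exp.2 ?_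
      rw [hx₀] at hx2
      linarith
    have hGA : ∀ n, G n x ≤ 4 * (1 + Bd x) ^ 4 := by
      intro n
      by_contra hcon
      exact hxE (Or.inl (Set.mem_iUnion.2 ⟨n, hx2.le, not_le.1 hcon⟩))
    have ht := hBd0 x hx2.le
    have hax : 0 ≤ |x| := abs_nonneg x
    have hcnt : 0 ≤ cnt (fun s => |(ordZ u s : ℝ)|) R' (Real.exp (-x)) :=
      cnt_nonneg (Real.exp_pos _) fun s => abs_nonneg _
    have hB : mean (fun z => |Real.log ‖u z‖|) x ≤ Bd x := by
      have h3 : 0 ≤ |C₀| * (1 + |x|) := by positivity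
      show _ ≤ mean (fun z => |Real.log ‖u z‖|) x +
        cnt (fun s => |(ordZ u s : ℝ)|) R' (Real.exp (-x)) + |C₀| * (1 + |x|)
      linarith
    have hmain := mean_bound hu (hexp x hx2.le) (A := 4 * (1 + Bd x) ^ 4) (B := Bd x)
      (by positivity) hGA hB
    have hlog1 : Real.log (1 + 4 * (1 + Bd x) ^ 4) ≤ 4 + 4 * Real.log (1 + Bd x) := by
      have h3 : 1 + 4 * (1 + Bd x) ^ 4 ≤ 5 * (1 + Bd x) ^ 4 := by
        have : (1 : ℝ) ≤ (1 + Bd x) ^ 4 := one_le_pow₀ (by linarith)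
        linarith
      have h4 := Real.log_le_log (by positivity) h3
      rw [Real.log_mul (by norm_num) (by positivity), Real.log_pow] at h4
      have h5 := Real.log_le_sub_one_of_pos (by norm_num : (0 : ℝ) < 5)
      push_cast at h4
      linarith
    have hlog2 := log_le_eps hη0 ht
    have hT := hC₁ x hx3
    have hT2 := hC₂ x hx hx3
    have hBdle : Bd x ≤ 2 * nevT u R₁ x + (2 * C₂ + C₁ + |C₀|) * (1 + |x|) := by
      show mean (fun z => |Real.log ‖u z‖|) x +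
        cnt (fun s => |(ordZ u s : ℝ)|) R' (Real.exp (-x)) + |C₀| * (1 + |x|) ≤ _
      nlinarith
    have hBdle2 : Bd x ≤ 2 * nevT u R₁ x + abs (2 * C₂ + C₁ + |C₀|) * (1 + |x|) := by
      have : (2 * C₂ + C₁ + |C₀|) * (1 + |x|) ≤ abs (2 * C₂ + C₁ + |C₀|) * (1 + |x|) :=
        mul_le_mul_of_nonneg_right (le_abs_self _) (by linarith)
      linarith
    have h6 : 3 * (η * Bd x) ≤ ε * nevT u R₁ x +
        ε / 2 * abs (2 * C₂ + C₁ + |C₀|) * (1 + |x|) := by
      have h7 := mul_le_mul_of_nonneg_left hBdle2 (by positivity : 0 ≤ 3 * η)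
      rw [hη] at h7 ⊢
      linarith
    have h8 : 0 ≤ 3 * (η + |Real.log η|) * |x| := by positivity
    show mean (fun z => Real.posLog ‖deriv u z / u z‖) x ≤ _
    nlinarith

end Pool.Agent.H62.FC

end
end
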