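import Pool.Agent.H94.PX2.M13
import Pool.Agent.H94.PX2.M19
import Pool.Agent.H94.PX2.M33
import Pool.Agent.H94.PX2.M43
import Pool.Agent.H94.PX2.M60

/-! The parts of this file: H62.FC.IterDeriv_1, H62.FC.Cartan_1, HE.Bor. -/

section

/-!
# FC: lemma on the logarithmic derivative, higher derivatives
-/

noncomputable section

namespace Pool.Agent.H62.FC

open Filter Topology MeasureTheory
open Pool.Agent.H92.GGL (ordZ)

/-! ### The punctured disc -/

/-! ### Means -/

/-! ### Orders -/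

/-! ### The characteristic of a derivative -/

/-- Lemma on the logarithmic derivative, higher derivatives. -/
theorem MeroPunct.iteratedDeriv_negl {R₀ R₁ : ℝ} (h1 : 0 < R₁) (h : R₁ < R₀) {u : ℂ → ℂ}
    (hu : MeroPunct R₀ u) (l : ℕ) :
    Negl R₁ (nevT u R₁) (mean fun z => Real.posLog ‖iteratedDeriv l u z / u z‖) := by
  have hR₀ : 0 < R₀ := h1.trans h
  have hzero : ∀ w : ℂ → ℝ, (∀ x, Real.exp (-x) < R₁ → mean w x = 0) →
      Negl R₁ (nevT u R₁) (mean w) := by
    intro w hw ε hε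
    refine ⟨0, ∅, by simp, fun x hx _ => ?_⟩
    rw [hw x hx]
    have := nevT_nonneg u R₁ x
    positivity
  induction l with
  | zero =>
    refine hzero _ fun x hx => iterDeriv_mean_zero (Eventually.of_forall fun z => ?_)
    rw [iteratedDeriv_zero]
    by_cases hz : u z = 0
    · simp [hz]
    · simp [div_self hz]
  | succ l ih =>
    have hv : ∀ z, 0 < ‖z‖ → ‖z‖ < R₀ → MeromorphicAt (iteratedDeriv l u) z :=
      fun z hz1 hz2 => iterDeriv_mero (hu.mero z hz1 hz2) l
    have hv' : ∀ z, 0 < ‖z‖ → ‖z‖ < R₀ → MeromorphicAt (iteratedDeriv (l + 1) u) z :=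
      fun z hz1 hz2 => iterDeriv_mero (hu.mero z hz1 hz2) (l + 1)
    rcases iterDeriv_dich hR₀ hv' with hM' | hM'
    swap
    · refine hzero _ fun x hx => iterDeriv_mean_zero ?_
      refine iterDeriv_cod (hx.trans h)
        (P := fun z => Real.posLog ‖iteratedDeriv (l + 1) u z / u z‖ = 0) fun z hz1 hz2 => ?_
      filter_upwards [hM' z hz1 hz2] with ζ hζ
      simp [hζ]
    rcases iterDeriv_dich hR₀ hv with hM | hM
    swap
    · exfalso
      have hz1 : (0 : ℝ) < ‖((R₁ : ℝ) : ℂ)‖ := by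
        rw [Complex.norm_real, Real.norm_of_nonneg h1.le]; exact h1
      have hz2 : ‖((R₁ : ℝ) : ℂ)‖ < R₀ := by
        rw [Complex.norm_real, Real.norm_of_nonneg h1.le]; exact h
      apply hM'.ord _ hz1 hz2
      rw [meromorphicOrderAt_eq_top_iff, iteratedDeriv_succ]
      have e1 : iteratedDeriv l u =ᶠ[𝓝[≠] ((R₁ : ℝ) : ℂ)] fun _ => 0 := hM _ hz1 hz2
      filter_upwards [e1.nhdsNE_deriv] with ζ hζ
      rw [hζ, deriv_const]
    intro ε hε
    have hl : (0 : ℝ) ≤ l := Nat.cast_nonneg l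
    obtain ⟨C1, E1, hE1, hb1⟩ := MeroPunct.logDeriv_negl h1 h hM
      (ε / (2 * ((l : ℝ) + 2))) (by positivity)
    obtain ⟨C2, E2, hE2, hb2⟩ := ih 1 one_pos
    obtain ⟨C3, E3, hE3, hb3⟩ := ih (ε / 2) (by positivity)
    refine ⟨(ε / (2 * ((l : ℝ) + 2))) * C2 + C1 + C3, (E1 ∪ E2) ∪ E3, ?_, fun x hx hxE => ?_⟩
    · exact measure_union_ne_top (measure_union_ne_top hE1 hE2) hE3
    · have hx0 : Real.exp (-x) < R₀ := hx.trans h
      have hx1 : x ∉ E1 := fun hh => hxE (Or.inl (Or.inl hh))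
      have hx2 : x ∉ E2 := fun hh => hxE (Or.inl (Or.inr hh))
      have hx3 : x ∉ E3 := fun hh => hxE (Or.inr hh)
      have g1 := hb1 x hx hx1
      have g2 := hb2 x hx hx2
      have g3 := hb3 x hx hx3
      have g4 := iterDeriv_nevT h hu l hM hx
      have i1 : CircleIntegrable (fun z => Real.posLog ‖deriv (iteratedDeriv l u) z /
          iteratedDeriv l u z‖) 0 (Real.exp (-x)) := by
        rw [← iteratedDeriv_succ]
        have := MeroPunct.circleIntegrable_posLog
          (MeroPunct.mul hM' (MeroPunct.inv hM)) hx0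
        simpa only [div_eq_mul_inv] using this
      have i2 : CircleIntegrable (fun z => Real.posLog ‖iteratedDeriv l u z / u z‖) 0
          (Real.exp (-x)) := by
        have := MeroPunct.circleIntegrable_posLog
          (MeroPunct.mul hM (MeroPunct.inv hu)) hx0
        simpa only [div_eq_mul_inv] using this
      have i3 : CircleIntegrable (fun z => Real.posLog ‖iteratedDeriv (l + 1) u z / u z‖) 0
          (Real.exp (-x)) := by
        have := MeroPunct.circleIntegrable_posLog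
          (MeroPunct.mul hM' (MeroPunct.inv hu)) hx0
        simpa only [div_eq_mul_inv] using this
      have g5 : mean (fun z => Real.posLog ‖iteratedDeriv (l + 1) u z / u z‖) x ≤
          mean (fun z => Real.posLog ‖deriv (iteratedDeriv l u) z / iteratedDeriv l u z‖) x +
            mean (fun z => Real.posLog ‖iteratedDeriv l u z / u z‖) x := by
        rw [← iterDeriv_mean_add i1 i2]
        refine iterDeriv_mean_mono i3 (CircleIntegrable.fun_add i1 i2) ?_
        refine iterDeriv_cod hx0 (P := fun z => Real.posLog ‖iteratedDeriv (l + 1) u z / u z‖ ≤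
          Real.posLog ‖deriv (iteratedDeriv l u) z / iteratedDeriv l u z‖ +
            Real.posLog ‖iteratedDeriv l u z / u z‖) fun z hz1 hz2 => ?_
        filter_upwards [(meromorphicOrderAt_ne_top_iff_eventually_ne_zero
          (hM.mero z hz1 hz2)).1 (hM.ord z hz1 hz2)] with ζ hζ
        rw [iteratedDeriv_succ]
        exact iterDeriv_posLog_le hζ
      have hT := nevT_nonneg u R₁ x
      set δ : ℝ := ε / (2 * ((l : ℝ) + 2)) with hδ
      have hδ0 : 0 < δ := by positivity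
      have hδ1 : δ * ((l : ℝ) + 2) = ε / 2 := by
        rw [hδ]; field_simp
      have g6 : δ * nevT (iteratedDeriv l u) R₁ x ≤
          δ * (((l : ℝ) + 2) * nevT u R₁ x + C2 * (1 + |x|)) := by
        refine mul_le_mul_of_nonneg_left ?_ hδ0.le
        nlinarith
      have g7 : δ * (((l : ℝ) + 2) * nevT u R₁ x + C2 * (1 + |x|)) =
          ε / 2 * nevT u R₁ x + δ * C2 * (1 + |x|) := by
        rw [mul_add, ← mul_assoc, hδ1]; ring
      nlinarith

end Pool.Agent.H62.FC

end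
end

section

/-!
# Cartan's theorem at a puncture, for functions with orders divisible by `d`
-/

noncomputable section

namespace Pool.Agent.H62.FC

open Filter Topology MeasureTheory
open Pool.Agent.H92.GGL (ordZ)

/-! ### Determinants -/

/-! ### Means -/

/-! ### Generic points -/

/-! ### Counting functions -/

/-- Cartan's theorem at a puncture, for functions with orders divisible by `d`. -/
theorem cartan_punctMero {n d : ℕ} (hn : 2 ≤ n) (hd : (n + 1) * (n - 1) < d) {R₀ : ℝ}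
    (hR₀ : 0 < R₀) {u : Fin n → ℂ → ℂ} (hu : ∀ j, MeroPunct R₀ (u j))
    (hrel : ∀ z, 0 < ‖z‖ → ‖z‖ < R₀ → ∀ᶠ ζ in 𝓝[≠] z, ∑ j, u j ζ = -1)
    (hind : ∀ (c : Fin n → ℂ) (z : ℂ), 0 < ‖z‖ → ‖z‖ < R₀ →
      (∀ᶠ ζ in 𝓝[≠] z, ∑ j, c j * u j ζ = 0) → c = 0)
    (hdiv : ∀ j z, 0 < ‖z‖ → ‖z‖ < R₀ → (d : ℤ) ∣ ordZ (u j) z) (j : Fin n) :
    PunctMero (u j) := by
  classical
  have : Nonempty (Fin n) := ⟨⟨0, by omega⟩⟩
  obtain ⟨R₁, hR₁⟩ : ∃ R₁, R₁ = R₀ / 2 := ⟨_, rfl⟩
  have h1 : 0 < R₁ := by rw [hR₁]; linarith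
  have h12 : R₁ < R₀ := by rw [hR₁]; linarith
  have hW : MeroPunct R₀ (wronsk u) := wronsk_meroPunct hu hind
  -- numbers
  obtain ⟨n', rfl⟩ : ∃ n', n = n' + 1 := ⟨n - 1, by omega⟩
  rw [Nat.add_sub_cancel] at hd
  have hd0 : 0 < d := by omega
  have hdR : (0 : ℝ) < d := by exact_mod_cast hd0
  have hnd : n' + 1 ≤ d := by
    have := Nat.mul_le_mul_left (n' + 1 + 1) (show 1 ≤ n' by omega)
    omega
  have hdR' : (((n' : ℝ) + 1 + 1) * n') < d := by exact_mod_cast hd
  set κ : ℝ := (n' : ℝ) * (n' + 2) / d with hκ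
  have hκ1 : κ < 1 := by
    rw [hκ, div_lt_one hdR]
    linarith
  have hκd : κ * d = (n' : ℝ) * (n' + 2) := by
    rw [hκ]
    field_simp
  -- the minimum of the orders
  obtain ⟨μ, hμ0, hμj, hμ'⟩ : ∃ μ : ℂ → ℤ, (∀ s, μ s ≤ 0) ∧ (∀ s j, μ s ≤ ordZ (u j) s) ∧
      ∀ s, μ s = 0 ∨ ∃ j, ordZ (u j) s = μ s := by
    refine ⟨fun s => Finset.univ.inf' Finset.univ_nonempty
      (fun o : Option (Fin (n' + 1)) => o.elim 0 (fun j => ordZ (u j) s)),
      fun s => Finset.inf'_le _ (Finset.mem_univ none),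
      fun s j => Finset.inf'_le _ (Finset.mem_univ (some j)), fun s => ?_⟩
    obtain ⟨o, -, ho⟩ := Finset.exists_mem_eq_inf' Finset.univ_nonempty
      (fun o : Option (Fin (n' + 1)) => o.elim 0 (fun j => ordZ (u j) s))
    cases o with
    | none => exact Or.inl ho
    | some j => exact Or.inr ⟨j, ho.symm⟩
  -- the characteristic function
  obtain ⟨G, hG⟩ : ∃ G : ℂ → ℝ, ∀ z, G z =
      Finset.univ.sup' Finset.univ_nonempty (fun j => Real.posLog ‖u j z‖) := ⟨_, fun z => rfl⟩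
  have hGj : ∀ z j, Real.posLog ‖u j z‖ ≤ G z := by
    intro z j
    rw [hG]
    exact Finset.le_sup' (fun j => Real.posLog ‖u j z‖) (Finset.mem_univ j)
  have hG0 : ∀ z, 0 ≤ G z := fun z => Real.posLog_nonneg.trans (hGj z (Classical.arbitrary _))
  -- weights
  have hLoc : ∀ o : Option (Fin (n' + 1)), LocFin R₀
      (fun s => (ordZ (o.elim (wronsk u) u) s : ℝ)) := by
    intro o
    cases o with
    | none => exact MeroPunct.locFin hW
    | some j => exact MeroPunct.locFin (hu j)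
  -- constants
  choose A B hAB using fun j => MeroPunct.jensen (hu j) h1 h12
  obtain ⟨A', B', hAB'⟩ := MeroPunct.jensen hW h1 h12
  obtain ⟨K, hK⟩ : ∃ K : ℝ, K = ((n' + 1).factorial : ℝ) := ⟨_, rfl⟩
  have hK0 : 0 < K := by
    rw [hK]
    exact_mod_cast Nat.factorial_pos _
  obtain ⟨L, hL⟩ : ∃ L : ℝ, L = Real.log ((n' + 1).factorial : ℝ) := ⟨_, rfl⟩
  have hL0 : 0 ≤ L := by
    rw [hL]
    exact Real.log_nonneg (by exact_mod_cast Nat.factorial_pos _)
  have hn1 : (0 : ℝ) < (n' : ℝ) + 1 := by positivity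
  have hε : 0 < (1 - κ) / 2 / (K * ((n' + 1) * (n' + 1))) := by
    have : 0 < 1 - κ := by linarith
    positivity
  choose Cq E hE hq using fun i j : Fin (n' + 1) =>
    MeroPunct.iteratedDeriv_negl h1 h12 (hu j) (i : ℕ) _ hε
  -- the exceptional set
  have hE' : volume (⋃ p : Fin (n' + 1) × Fin (n' + 1), E p.1 p.2) ≠ ⊤ := by
    refine ((measure_iUnion_fintype_le volume _).trans_lt ?_).ne
    exact ENNReal.sum_lt_top.2 fun p _ => lt_top_iff_ne_top.2 (hE p.1 p.2)
  obtain ⟨C₀, hC₀⟩ : ∃ C₀ : ℝ, C₀ = (∑ j, (|A j| + |B j|)) + (|A'| + |B'|) + L +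
    K * (∑ i, ∑ j, |Cq i j|) + (n' : ℝ) / d * ∑ j, (|A j| + |B j|) := ⟨_, rfl⟩
  refine punctMero_of_nevT h1 h12 (hu j) (C := 2 / (1 - κ) * C₀) hE' fun x hx hxE => ?_
  have hxR₀ : Real.exp (-x) < R₀ := hx.trans h12
  have hr : 0 < Real.exp (-x) := Real.exp_pos _
  have hxE' : ∀ i j, x ∉ E i j := fun i j hcon => hxE (Set.mem_iUnion.2 ⟨(i, j), hcon⟩)
  have hsph : ∀ z ∈ Metric.sphere (0 : ℂ) |Real.exp (-x)|, 0 < ‖z‖ ∧ ‖z‖ < R₀ := by
    intro z hz
    rw [mem_sphere_zero_iff_norm, abs_of_pos hr] at hz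
    rw [hz]
    exact ⟨hr, hxR₀⟩
  -- integrability
  have hIG : CircleIntegrable G 0 (Real.exp (-x)) := by
    have h := Finset.sup'_induction (Finset.univ_nonempty (α := Fin (n' + 1)))
      (fun j => fun z => Real.posLog ‖u j z‖)
      (p := fun f : ℂ → ℝ => CircleIntegrable f 0 (Real.exp (-x)))
      (fun f hf g hg => circleIntegrable_sup hf hg)
      (fun j _ => MeroPunct.circleIntegrable_posLog (hu j) hxR₀)
    have e : G = Finset.univ.sup' (Finset.univ_nonempty (α := Fin (n' + 1)))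
        (fun j => fun z => Real.posLog ‖u j z‖) := by
      funext z
      rw [hG, Finset.sup'_apply]
    rw [e]
    exact h
  have hIlog : ∀ j, CircleIntegrable (fun z => Real.log ‖u j z‖) 0 (Real.exp (-x)) :=
    fun j => MeroPunct.circleIntegrable_log (hu j) hxR₀
  have hIW : CircleIntegrable (fun z => Real.log ‖wronsk u z‖) 0 (Real.exp (-x)) :=
    MeroPunct.circleIntegrable_log hW hxR₀
  have hIq : ∀ i j : Fin (n' + 1), CircleIntegrable
      (fun z => Real.posLog ‖iteratedDeriv i (u j) z / u j z‖) 0 (Real.exp (-x)) := by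
    intro i j
    apply MeromorphicOn.circleIntegrable_posLog_norm
    intro z hz
    obtain ⟨hz1, hz2⟩ := hsph z hz
    have hm := (hu j).mero z hz1 hz2
    rw [iteratedDeriv_eq_iterate]
    exact hm.iterated_deriv.fun_div hm
  have hIQ : CircleIntegrable (Cartan_Q u) 0 (Real.exp (-x)) := by
    have e : Cartan_Q u = ∑ i : Fin (n' + 1), ∑ j : Fin (n' + 1),
        fun z => Real.posLog ‖iteratedDeriv i (u j) z / u j z‖ := by
      funext z
      unfold Cartan_Q
      simp only [Finset.sum_apply]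
    rw [e]
    exact CircleIntegrable.sum _ fun i _ => CircleIntegrable.sum _ fun j _ => hIq i j
  have hISum : CircleIntegrable (fun z => ∑ j, Real.log ‖u j z‖) 0 (Real.exp (-x)) := by
    have e : (fun z => ∑ j, Real.log ‖u j z‖) = ∑ j, fun z => Real.log ‖u j z‖ := by
      funext z
      simp only [Finset.sum_apply]
    rw [e]
    exact CircleIntegrable.sum _ fun j _ => hIlog j
  have hISW : CircleIntegrable (fun z => (∑ j, Real.log ‖u j z‖) - Real.log ‖wronsk u z‖) 0
      (Real.exp (-x)) := hISum.sub hIW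
  have hIKQ : CircleIntegrable (fun z => K * Cartan_Q u z) 0 (Real.exp (-x)) :=
    hIQ.const_smul (a := K)
  have hILK : CircleIntegrable (fun z => L + K * Cartan_Q u z) 0 (Real.exp (-x)) :=
    (circleIntegrable_const L 0 _).add hIKQ
  have hIR : CircleIntegrable (fun z => (∑ j, Real.log ‖u j z‖) - Real.log ‖wronsk u z‖ +
      (L + K * Cartan_Q u z)) 0 (Real.exp (-x)) := hISW.add hILK
  -- the mean of `G`
  have hmG : mean G x ≤ (∑ j, mean (fun z => Real.log ‖u j z‖) x) -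
      mean (fun z => Real.log ‖wronsk u z‖) x +
      (L + K * ∑ i : Fin (n' + 1), ∑ j : Fin (n' + 1),
        mean (fun z => Real.posLog ‖iteratedDeriv i (u j) z / u j z‖) x) := by
    have h := mean_mono (x := x) hIG hIR (fun z hz => by
      obtain ⟨hz1, hz2⟩ := hsph z hz
      have := Filter.eventually_all.2 fun j => generic hu hW hrel hz1 hz2 j
      filter_upwards [this] with ζ hζ
      rw [hG, hL, hK]
      exact Finset.sup'_le _ _ fun j _ => hζ j)
    refine h.trans (le_of_eq ?_)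
    unfold mean
    rw [Real.circleAverage_fun_add hISW hILK,
      Real.circleAverage_fun_sub hISum hIW, Real.circleAverage_fun_sum fun j _ => hIlog j,
      Real.circleAverage_fun_add (circleIntegrable_const L 0 _) hIKQ,
      Real.circleAverage_const]
    congr 2
    have e2 : Real.circleAverage (fun z => K * Cartan_Q u z) 0 (Real.exp (-x)) =
        K * Real.circleAverage (Cartan_Q u) 0 (Real.exp (-x)) :=
      Real.circleAverage_fun_smul (a := K)
    rw [e2]
    congr 1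
    unfold Cartan_Q
    rw [Real.circleAverage_fun_sum (fun i _ => ?_)]
    · refine Finset.sum_congr rfl fun i _ => ?_
      exact Real.circleAverage_fun_sum fun j _ => hIq i j
    · have e : (fun z => ∑ j : Fin (n' + 1), Real.posLog ‖iteratedDeriv i (u j) z / u j z‖) =
          ∑ j : Fin (n' + 1), fun z => Real.posLog ‖iteratedDeriv i (u j) z / u j z‖ := by
        funext z
        simp only [Finset.sum_apply]
      rw [e]
      exact CircleIntegrable.sum _ fun j _ => hIq i j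
  have hlogG : ∀ j, mean (fun z => Real.log ‖u j z‖) x ≤ mean G x := fun j =>
    Real.circleAverage_mono (hIlog j) hIG fun z _ => (le_max_right _ _).trans (hGj z j)
  have hposG : ∀ j, mean (fun z => Real.posLog ‖u j z‖) x ≤ mean G x := fun j =>
    Real.circleAverage_mono (MeroPunct.circleIntegrable_posLog (hu j) hxR₀) hIG
      fun z _ => hGj z j
  have hmG0 : 0 ≤ mean G x := Real.circleAverage_nonneg_of_nonneg fun z _ => hG0 z
  -- the counting functions
  obtain ⟨T, l, hT, hcnt⟩ := exists_T h12 hLoc hr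
  have hμz : ∀ s, (∀ o : Option (Fin (n' + 1)), (ordZ (o.elim (wronsk u) u) s : ℝ) = 0) →
      μ s = 0 := by
    intro s hs
    rcases hμ' s with h | ⟨j, h⟩
    · exact h
    · rw [← h]
      exact_mod_cast hs (some j)
  have c1 : ∀ j, cnt (fun s => (ordZ (u j) s : ℝ)) R₁ (Real.exp (-x)) =
      ∑ s ∈ T, (ordZ (u j) s : ℝ) * l s := fun j => hcnt _ fun s hs => hs (some j)
  have c2 : cnt (fun s => (ordZ (wronsk u) s : ℝ)) R₁ (Real.exp (-x)) =
      ∑ s ∈ T, (ordZ (wronsk u) s : ℝ) * l s := hcnt _ fun s hs => hs none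
  have c3 : cnt (fun s => -(μ s : ℝ)) R₁ (Real.exp (-x)) = ∑ s ∈ T, -(μ s : ℝ) * l s :=
    hcnt _ fun s hs => by rw [hμz s hs]; simp
  have c4 : ∀ j, cnt (fun s => max (-(ordZ (u j) s : ℝ)) 0) R₁ (Real.exp (-x)) =
      ∑ s ∈ T, max (-(ordZ (u j) s : ℝ)) 0 * l s := fun j => hcnt _ fun s hs => by
    have h := hs (some j)
    have h' : (ordZ (u j) s : ℝ) = 0 := h
    rw [h']
    simp
  set cμ : ℝ := ∑ s ∈ T, -(μ s : ℝ) * l s with hcμ
  have hcμ0 : 0 ≤ cμ := by
    refine Finset.sum_nonneg fun s hs => mul_nonneg ?_ (hT s hs).2.2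
    have := hμ0 s
    have h' : (μ s : ℝ) ≤ 0 := by exact_mod_cast this
    linarith
  have hnev : ∀ j, nevT (u j) R₁ x ≤ mean G x + cμ := by
    intro j
    unfold nevT
    rw [c4]
    refine add_le_add (hposG j) (Finset.sum_le_sum fun s hs => ?_)
    refine mul_le_mul_of_nonneg_right (max_le ?_ ?_) (hT s hs).2.2
    · have h' : (μ s : ℝ) ≤ ordZ (u j) s := by exact_mod_cast hμj s j
      linarith
    · have h' : (μ s : ℝ) ≤ 0 := by exact_mod_cast hμ0 s
      linarith
  have hloc : (d : ℝ) * ((∑ j, cnt (fun s => (ordZ (u j) s : ℝ)) R₁ (Real.exp (-x))) -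
      cnt (fun s => (ordZ (wronsk u) s : ℝ)) R₁ (Real.exp (-x)) + cμ) ≤
      (n' : ℝ) * ((∑ j, (cnt (fun s => (ordZ (u j) s : ℝ)) R₁ (Real.exp (-x)) + cμ)) + cμ) := by
    have e1 : (∑ j, cnt (fun s => (ordZ (u j) s : ℝ)) R₁ (Real.exp (-x))) -
        cnt (fun s => (ordZ (wronsk u) s : ℝ)) R₁ (Real.exp (-x)) + cμ =
        ∑ s ∈ T, ((∑ j, (ordZ (u j) s : ℝ)) - ordZ (wronsk u) s - μ s) * l s := by
      simp only [c1]
      rw [c2, hcμ, Finset.sum_comm, ← Finset.sum_sub_distrib, ← Finset.sum_add_distrib]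
      refine Finset.sum_congr rfl fun s _ => ?_
      rw [← Finset.sum_mul]
      ring
    have e2 : (∑ j, (cnt (fun s => (ordZ (u j) s : ℝ)) R₁ (Real.exp (-x)) + cμ)) + cμ =
        ∑ s ∈ T, ((∑ j, ((ordZ (u j) s : ℝ) - μ s)) + (0 - μ s)) * l s := by
      simp only [c1]
      rw [hcμ]
      have e3 : ∀ j, (∑ s ∈ T, (ordZ (u j) s : ℝ) * l s) + ∑ s ∈ T, -(μ s : ℝ) * l s =
          ∑ s ∈ T, ((ordZ (u j) s : ℝ) - μ s) * l s := by
        intro j
        rw [← Finset.sum_add_distrib]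
        refine Finset.sum_congr rfl fun s _ => ?_
        ring
      rw [Finset.sum_congr rfl fun j _ => e3 j, Finset.sum_comm, ← Finset.sum_add_distrib]
      refine Finset.sum_congr rfl fun s _ => ?_
      rw [← Finset.sum_mul]
      ring
    rw [e1, e2, Finset.mul_sum, Finset.mul_sum]
    refine Finset.sum_le_sum fun s hs => ?_
    obtain ⟨hs1, hs2, hs3⟩ := hT s hs
    have hs4 : 0 < ‖s‖ := hr.trans hs1
    have hs5 : ‖s‖ < R₀ := hs2.trans h12
    have h := local_estimate (n := n' + 1) (d := d) (by omega) hnd (s := s) (u := u)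
      (fun j => (hu j).mero s hs4 hs5) (fun j => (hu j).ord s hs4 hs5) (hrel s hs4 hs5)
      (hW.ord s hs4 hs5) (fun j => hdiv j s hs4 hs5) (hμ0 s) (hμj s) (hμ' s)
    have h' : (d : ℝ) * ((∑ j, (ordZ (u j) s : ℝ)) - ordZ (wronsk u) s - μ s) ≤
        (n' : ℝ) * ((∑ j, ((ordZ (u j) s : ℝ) - μ s)) + (0 - μ s)) := by
      have e : (((n' + 1 : ℕ) : ℤ) - 1 : ℤ) = n' := by push_cast; ring
      rw [e] at h
      exact_mod_cast h
    rw [← mul_assoc, ← mul_assoc]
    exact mul_le_mul_of_nonneg_right h' hs3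
  -- the conclusion
  have hy : 1 ≤ 1 + |x| := by linarith [abs_nonneg x]
  obtain ⟨y, hyd⟩ : ∃ y, y = 1 + |x| := ⟨_, rfl⟩
  rw [← hyd] at hy ⊢
  obtain ⟨a, ha⟩ : ∃ a, a = ∑ j, (|A j| + |B j|) := ⟨_, rfl⟩
  have hlin : ∀ j, |A j + B j * x| ≤ (|A j| + |B j|) * y := fun j => by
    rw [hyd]
    exact linear_bound _ _ _
  have hlinW : |A' + B' * x| ≤ (|A'| + |B'|) * y := by
    rw [hyd]
    exact linear_bound _ _ _
  have hJ : ∀ j, cnt (fun s => (ordZ (u j) s : ℝ)) R₁ (Real.exp (-x)) =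
      mean (fun z => Real.log ‖u j z‖) x - (A j + B j * x) := fun j => by
    have := hAB j x hx
    linarith
  have hJW := hAB' x hx
  have hsum1 : |∑ j, (A j + B j * x)| ≤ a * y := by
    rw [ha, Finset.sum_mul]
    exact (Finset.abs_sum_le_sum_abs _ _).trans (Finset.sum_le_sum fun j _ => hlin j)
  have hsum2 : (∑ j, (cnt (fun s => (ordZ (u j) s : ℝ)) R₁ (Real.exp (-x)) + cμ)) ≤
      ((n' : ℝ) + 1) * (mean G x + cμ) + a * y := by
    have h2 : ∀ j, cnt (fun s => (ordZ (u j) s : ℝ)) R₁ (Real.exp (-x)) + cμ ≤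
        (mean G x + cμ) + (|A j| + |B j|) * y := by
      intro j
      rw [hJ j]
      have := (abs_le.1 (hlin j)).1
      linarith [hlogG j]
    refine (Finset.sum_le_sum fun j _ => h2 j).trans (le_of_eq ?_)
    rw [Finset.sum_add_distrib, Finset.sum_const, Finset.card_univ, Fintype.card_fin, ha,
      Finset.sum_mul, nsmul_eq_mul]
    push_cast
    ring
  have hq' : K * (∑ i : Fin (n' + 1), ∑ j : Fin (n' + 1),
        mean (fun z => Real.posLog ‖iteratedDeriv i (u j) z / u j z‖) x) ≤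
      (1 - κ) / 2 * (mean G x + cμ) + K * (∑ i, ∑ j, |Cq i j|) * y := by
    have h2 : ∀ i j : Fin (n' + 1),
        mean (fun z => Real.posLog ‖iteratedDeriv i (u j) z / u j z‖) x ≤
        (1 - κ) / 2 / (K * ((n' + 1) * (n' + 1))) * (mean G x + cμ) + |Cq i j| * y := by
      intro i j
      refine (hq i j x hx (hxE' i j)).trans (add_le_add ?_ ?_)
      · exact mul_le_mul_of_nonneg_left (hnev j) hε.le
      · rw [← hyd]
        exact mul_le_mul_of_nonneg_right (le_abs_self _) (by linarith)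
    have h3 : (∑ i : Fin (n' + 1), ∑ j : Fin (n' + 1),
        mean (fun z => Real.posLog ‖iteratedDeriv i (u j) z / u j z‖) x) ≤
        ∑ i : Fin (n' + 1), ∑ j : Fin (n' + 1),
          ((1 - κ) / 2 / (K * ((n' + 1) * (n' + 1))) * (mean G x + cμ) + |Cq i j| * y) :=
      Finset.sum_le_sum fun i _ => Finset.sum_le_sum fun j _ => h2 i j
    refine (mul_le_mul_of_nonneg_left h3 hK0.le).trans (le_of_eq ?_)
    simp only [Finset.sum_add_distrib, Finset.sum_const, Finset.card_univ, Fintype.card_fin,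
      nsmul_eq_mul, ← Finset.sum_mul]
    push_cast
    field_simp
  -- final computation
  obtain ⟨t, ht⟩ : ∃ t, t = mean G x + cμ := ⟨_, rfl⟩
  have ht0 : 0 ≤ t := by rw [ht]; linarith
  have hSc : (∑ j, cnt (fun s => (ordZ (u j) s : ℝ)) R₁ (Real.exp (-x))) =
      (∑ j, mean (fun z => Real.log ‖u j z‖) x) - ∑ j, (A j + B j * x) := by
    rw [← Finset.sum_sub_distrib]
    exact Finset.sum_congr rfl fun j _ => hJ j
  obtain ⟨b, hb⟩ : ∃ b, b = (∑ j, cnt (fun s => (ordZ (u j) s : ℝ)) R₁ (Real.exp (-x))) -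
      cnt (fun s => (ordZ (wronsk u) s : ℝ)) R₁ (Real.exp (-x)) + cμ := ⟨_, rfl⟩
  rw [← hb] at hloc
  have hb2 : b ≤ κ * t + (n' : ℝ) / d * a * y := by
    have h2 : (d : ℝ) * b ≤ (n' : ℝ) * (((n' : ℝ) + 1) * t + a * y + t) := by
      refine hloc.trans (mul_le_mul_of_nonneg_left ?_ (Nat.cast_nonneg _))
      rw [ht]
      linarith
    have h3 : (n' : ℝ) * (((n' : ℝ) + 1) * t + a * y + t) =
        d * (κ * t + (n' : ℝ) / d * a * y) := by
      have : (d : ℝ) * ((n' : ℝ) / d * a * y) = n' * a * y := by field_simp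
      rw [mul_add (d : ℝ), this]
      linear_combination (-t) * hκd
    rw [h3] at h2
    exact le_of_mul_le_mul_left h2 hdR
  have hfin : t ≤ a * y + (|A'| + |B'|) * y + L * y + ((1 - κ) / 2 * t +
      K * (∑ i, ∑ j, |Cq i j|) * y) + (κ * t + (n' : ℝ) / d * a * y) := by
    have hLy : L ≤ L * y := le_mul_of_one_le_right hL0 hy
    rw [← ht] at hq'
    have e1 := (abs_le.1 hsum1).2
    have e2 := (abs_le.1 hlinW).1
    have e3 : t = mean G x + cμ := ht
    linarith
  have hfin2 : (1 - κ) / 2 * t ≤ C₀ * y := by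
    rw [hC₀, ← ha]
    linarith
  refine (hnev j).trans ?_
  rw [← ht]
  have hk : 0 < 1 - κ := by linarith
  have : t = 2 / (1 - κ) * ((1 - κ) / 2 * t) := by field_simp
  rw [this, mul_assoc]
  exact mul_le_mul_of_nonneg_left hfin2 (by positivity)

end Pool.Agent.H62.FC

end
end

section

/-!
# HE Bor: Borel's lemma at a puncture

`y s`, `s ∈ S`, are holomorphic functions without zeros on the punctured disc, with sum `0`.  Then for every `s ∈ S` there is a `t ∈ S`, `t ≠ s`, such that `y t / y s` is meromorphic at `0`: take a minimal `T ⊆ S`, `s ∈ T`, with a relation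
`∑ t ∈ T, c t * y t = 0`, `c t ≠ 0`, and `cartan_punctMero` for the functions `(c t / c s) * (y t / y s)`, `t ∈ T`, `t ≠ s`.
-/

set_option autoImplicit false

open Topology Filter Metric

namespace Pool.Agent.HE

open Pool.Agent.H62.FC (MeroPunct PunctMero cartan_punctMero)
open Pool.Agent.H92.GGL (ordZ)

/-- the punctured disc -/
def pd (R : ℝ) : Set ℂ := {z | 0 < ‖z‖ ∧ ‖z‖ < R}

theorem pd_open (R : ℝ) : IsOpen (pd R) := (isOpen_lt continuous_const continuous_norm).inter (isOpen_lt continuous_norm continuous_const)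

theorem pd_conn (R : ℝ) : IsPreconnected (pd R) := Pool.Agent.H92.GGL.isPreconnected_punctured R

theorem pd_ev {R : ℝ} (hR : 0 < R) : ∀ᶠ z in 𝓝[≠] (0 : ℂ), z ∈ pd R := by
  have h1 : ∀ᶠ z in 𝓝[≠] (0 : ℂ), z ∈ ball (0 : ℂ) R := nhdsWithin_le_nhds (ball_mem_nhds _ hR)
  filter_upwards [h1, self_mem_nhdsWithin] with z h2 h3
  exact ⟨norm_pos_iff.2 h3, by simpa using h2⟩

private theorem Bor_mero {R : ℝ} {f : ℂ → ℂ} (hf : DifferentiableOn ℂ f (pd R)) (h0 : ∀ z ∈ pd R, f z ≠ 0) {z : ℂ} (hz : z ∈ pd R) :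
    MeromorphicAt f z ∧ meromorphicOrderAt f z = 0 := by
  have h1 : AnalyticAt ℂ f z := hf.analyticAt ((pd_open R).mem_nhds hz)
  refine ⟨h1.meromorphicAt, ?_⟩
  rw [h1.meromorphicOrderAt_eq, h1.analyticOrderAt_eq_zero.2 (h0 z hz)]
  rfl

private theorem Bor_congr {R : ℝ} (hR : 0 < R) {f g : ℂ → ℂ} (hf : PunctMero f) (h : ∀ z ∈ pd R, f z = g z) : PunctMero g := by
  refine hf.congr ?_
  filter_upwards [pd_ev hR] with z hz
  have h1 : ∀ᶠ w in 𝓝 z, w ∈ pd R := (pd_open R).mem_nhds hz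
  filter_upwards [nhdsWithin_le_nhds h1] with w hw
  exact h w hw

/-- **Borel's lemma at a puncture.** -/
theorem borel {ι : Type*} {R : ℝ} (hR : 0 < R) (S : Finset ι) {y : ι → ℂ → ℂ} (hy : ∀ s ∈ S, DifferentiableOn ℂ (y s) (pd R)) (hne : ∀ s ∈ S, ∀ z ∈ pd R, y s z ≠ 0)
    (hsum : ∀ z ∈ pd R, ∑ s ∈ S, y s z = 0) {s : ι} (hs : s ∈ S) : ∃ t ∈ S, t ≠ s ∧ PunctMero (fun z => y t z / y s z) := by
  classical
  obtain ⟨z₁, hz₁⟩ : ∃ z₁, z₁ ∈ pd R := by
    refine ⟨((R / 2 : ℝ) : ℂ), ?_⟩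
    have h1 : ‖((R / 2 : ℝ) : ℂ)‖ = R / 2 := by rw [Complex.norm_real, Real.norm_of_nonneg (by positivity)]
    exact ⟨by rw [h1]; positivity, by rw [h1]; linarith⟩
  -- a minimal relation
  set p : Finset ι → Prop := fun T => s ∈ T ∧ ∃ c : ι → ℂ, (∀ t ∈ T, c t ≠ 0) ∧ ∀ z ∈ pd R, ∑ t ∈ T, c t * y t z = 0 with hp
  have hne' : (S.powerset.filter p).Nonempty := by
    refine ⟨S, Finset.mem_filter.2 ⟨Finset.mem_powerset_self S, hs, fun _ => 1, fun _ _ => one_ne_zero, fun z hz => ?_⟩⟩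
    simpa using hsum z hz
  obtain ⟨T, hT, hmin⟩ := Finset.exists_min_image _ Finset.card hne'
  rw [Finset.mem_filter, Finset.mem_powerset] at hT
  obtain ⟨hTS, hsT, c, hc, hrel⟩ := hT
  have hmin' : ∀ T' ⊆ S, p T' → T.card ≤ T'.card := fun T' h1 h2 => hmin T' (Finset.mem_filter.2 ⟨Finset.mem_powerset.2 h1, h2⟩)
  have hcs := hc s hsT
  -- the other indices
  obtain ⟨T', hT'⟩ : ∃ T', T' = T.erase s := ⟨_, rfl⟩
  have hT'T : ∀ t ∈ T', t ∈ T ∧ t ≠ s := by
    intro t ht
    rw [hT', Finset.mem_erase] at ht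
    exact ⟨ht.2, ht.1⟩
  have hsplit : ∀ z, ∑ t ∈ T, c t * y t z = c s * y s z + ∑ t ∈ T', c t * y t z := by
    intro z
    rw [hT']
    exact (Finset.add_sum_erase T (fun t => c t * y t z) hsT).symm
  have hcard0 : 0 < T'.card := by
    rw [Finset.card_pos]
    by_contra hcon
    rw [Finset.not_nonempty_iff_eq_empty] at hcon
    have h1 := hrel z₁ hz₁
    rw [hsplit, hcon, Finset.sum_empty, add_zero] at h1
    exact mul_ne_zero hcs (hne s hs z₁ hz₁) h1
  obtain ⟨n, hn⟩ : ∃ n, n = T'.card := ⟨_, rfl⟩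
  have e : Fin n ≃ T' := (finCongr hn).trans T'.equivFin.symm
  have heT : ∀ i, (e i : ι) ∈ T := fun i => (hT'T _ (e i).2).1
  have hes : ∀ i, (e i : ι) ≠ s := fun i => (hT'T _ (e i).2).2
  obtain ⟨t₀, ht₀⟩ : ∃ t₀, t₀ ∈ T' := Finset.card_pos.1 hcard0
  obtain ⟨i₀, hi₀⟩ : ∃ i₀ : Fin n, (e i₀ : ι) = t₀ := ⟨e.symm ⟨t₀, ht₀⟩, by simp⟩
  have hsumE : ∀ f : ι → ℂ, ∑ i, f (e i) = ∑ t ∈ T', f t := by
    intro f
    rw [← Finset.sum_coe_sort T' f]
    exact Equiv.sum_comp e fun t : T' => f t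
  set u : Fin n → ℂ → ℂ := fun i z => c (e i) / c s * (y (e i) z / y s z) with hu
  have hud : ∀ i, DifferentiableOn ℂ (u i) (pd R) := fun i =>
    ((hy _ (hTS (heT i))).div (hy s hs) fun z hz => hne s hs z hz).const_mul _
  have hune : ∀ i, ∀ z ∈ pd R, u i z ≠ 0 := fun i z hz =>
    mul_ne_zero (div_ne_zero (hc _ (heT i)) hcs) (div_ne_zero (hne _ (hTS (heT i)) z hz) (hne s hs z hz))
  have hu1 : ∀ z ∈ pd R, ∑ i, u i z = -1 := by
    intro z hz
    have h1 := hrel z hz
    rw [hsplit] at h1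
    have h2 : ∑ i, u i z = (∑ t ∈ T', c t * y t z) / (c s * y s z) := by
      rw [Finset.sum_div, ← hsumE fun t => c t * y t z / (c s * y s z)]
      refine Finset.sum_congr rfl fun i _ => ?_
      rw [hu]
      simp only
      rw [div_mul_div_comm]
    have h3 : c s * y s z ≠ 0 := mul_ne_zero hcs (hne s hs z hz)
    rw [h2, div_eq_iff h3]
    linear_combination h1
  -- the conclusion for `u i₀`
  suffices hmain : PunctMero (u i₀) by
    refine ⟨t₀, hTS (hT'T _ ht₀).1, (hT'T _ ht₀).2, ?_⟩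
    refine Bor_congr hR ((PunctMero.const (c s / c t₀)).mul hmain) fun z _ => ?_
    rw [hu]
    simp only
    rw [hi₀]
    have h1 := hc t₀ (hT'T _ ht₀).1
    field_simp
  rcases Nat.lt_or_ge n 2 with hn2 | hn2
  · have hn1 : n = 1 := by omega
    refine Bor_congr hR (PunctMero.const (-1)) fun z hz => ?_
    have h1 := hu1 z hz
    subst hn1
    rw [Fin.sum_univ_one] at h1
    rw [← h1]
    congr 1
    exact Subsingleton.elim _ _
  refine cartan_punctMero hn2 (d := (n + 1) * (n - 1) + 1) (Nat.lt_succ_self _) hR (u := u) (fun j => ?_) (fun z h1 h2 => ?_) (fun c' z h1 h2 hc' => ?_) (fun j z h1 h2 => ?_) i₀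
  · exact ⟨fun z h1 h2 => (Bor_mero (hud j) (hune j) ⟨h1, h2⟩).1, fun z h1 h2 => by rw [(Bor_mero (hud j) (hune j) ⟨h1, h2⟩).2]; exact WithTop.zero_ne_top⟩
  · have h3 : ∀ᶠ w in 𝓝 z, w ∈ pd R := (pd_open R).mem_nhds ⟨h1, h2⟩
    filter_upwards [nhdsWithin_le_nhds h3] with w hw
    exact hu1 w hw
  · -- linear independence
    by_contra hcon
    obtain ⟨j₀, hj₀⟩ : ∃ j₀, c' j₀ ≠ 0 := by
      by_contra h3
      push Not at h3
      exact hcon (funext h3)
    -- the relation holds everywhere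
    have h3 : ∀ w ∈ pd R, ∑ j, c' j * u j w = 0 := by
      have hd : DifferentiableOn ℂ (fun w => ∑ j, c' j * u j w) (pd R) := DifferentiableOn.fun_sum fun j _ => (hud j).const_mul _
      have h4 := (hd.analyticOnNhd (pd_open R)).eqOn_zero_of_preconnected_of_frequently_eq_zero (pd_conn R) (z₀ := z) ⟨h1, h2⟩ hc'.frequently
      exact fun w hw => h4 hw
    -- a shorter relation
    set dd : ι → ℂ := fun t => if h : t ∈ T' then c' (e.symm ⟨t, h⟩) * c t else 0 with hdd
    have hdde : ∀ i, dd (e i) = c' i * c (e i) := by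
      intro i
      rw [hdd]
      simp only
      rw [dif_pos (e i).2]
      simp
    have hdds : dd s = 0 := by
      rw [hdd]
      simp only
      rw [dif_neg]
      rw [hT']
      exact Finset.notMem_erase s T
    have h4 : ∀ w ∈ pd R, ∑ t ∈ T', dd t * y t w = 0 := by
      intro w hw
      have h5 : ∑ t ∈ T', dd t * y t w = (c s * y s w) * ∑ j, c' j * u j w := by
        rw [← hsumE fun t => dd t * y t w, Finset.mul_sum]
        refine Finset.sum_congr rfl fun i _ => ?_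
        rw [hdde, hu]
        simp only
        have h6 := hne s hs w hw
        field_simp
      rw [h5, h3 w hw, mul_zero]
    obtain ⟨t₁, ht₁⟩ : ∃ t₁ : ι, t₁ = (e j₀ : ι) := ⟨_, rfl⟩
    have ht₁T : t₁ ∈ T := by rw [ht₁]; exact heT j₀
    have hdt₁ : dd t₁ ≠ 0 := by
      rw [ht₁, hdde]
      exact mul_ne_zero hj₀ (hc _ (heT j₀))
    set c₂ : ι → ℂ := fun t => c t - c t₁ / dd t₁ * dd t with hc₂
    have hc₂s : c₂ s = c s := by
      rw [hc₂]
      simp only
      rw [hdds, mul_zero, sub_zero]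
    have hc₂t : c₂ t₁ = 0 := by
      rw [hc₂]
      simp only
      rw [div_mul_cancel₀ _ hdt₁, sub_self]
    have hrel₂ : ∀ w ∈ pd R, ∑ t ∈ T, c₂ t * y t w = 0 := by
      intro w hw
      have h5 : ∑ t ∈ T, dd t * y t w = 0 := by
        rw [← Finset.add_sum_erase T (fun t => dd t * y t w) hsT, ← hT', h4 w hw, hdds, zero_mul, add_zero]
      have h6 : ∑ t ∈ T, c₂ t * y t w = ∑ t ∈ T, c t * y t w - c t₁ / dd t₁ * ∑ t ∈ T, dd t * y t w := by
        rw [Finset.mul_sum, ← Finset.sum_sub_distrib]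
        refine Finset.sum_congr rfl fun t _ => ?_
        rw [hc₂]
        ring
      rw [h6, hrel w hw, h5, mul_zero, sub_zero]
    have hsub : T.filter (fun t => c₂ t ≠ 0) ⊆ T := Finset.filter_subset _ _
    have h7 := hmin' (T.filter fun t => c₂ t ≠ 0) (hsub.trans hTS) ⟨Finset.mem_filter.2 ⟨hsT, by rw [hc₂s]; exact hcs⟩, c₂, fun t ht => (Finset.mem_filter.1 ht).2, fun w hw => by
      rw [Finset.sum_filter_of_ne]
      · exact hrel₂ w hw
      · intro t _ ht h8
        exact ht (by rw [h8, zero_mul])⟩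
    have h8 : (T.filter fun t => c₂ t ≠ 0) ⊂ T := by
      refine (Finset.ssubset_iff_of_subset hsub).2 ⟨t₁, ht₁T, ?_⟩
      rw [Finset.mem_filter]
      exact fun h => h.2 hc₂t
    exact absurd (Finset.card_lt_card h8) (not_lt.2 h7)
  · have h3 := (Bor_mero (hud j) (hune j) ⟨h1, h2⟩).2
    have h4 : ordZ (u j) z = 0 := by
      unfold ordZ
      rw [h3]
      rfl
    rw [h4]
    exact dvd_zero _

end Pool.Agent.HE

end
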