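import Pool.Agent.H94.PX2.M01

/-! The parts of this file: G4.Z.CDefs, H62.EF.Defs, H62.EF.Defs_2, G3.LLift, TG.Defs, HE.Defs, PX.Defs. -/

section

/-!
# G4 Z CDefs: the data of block Z, any dimension

`Few Bad a`: the exact hits of `Bad` on the lines of direction `a` are few (density `0`, uniformly).
`Csf`: the finite set of the global sections, holomorphic off `D`, meromorphic everywhere (`mer`: a lift which is not identically `0`; no condition on lines).
`JBw`: bounds for the integrals `JJ (α j)` along short paths in the fibres, with the same weight on both sides.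
`Sit`: all data.  The other definitions (`Lim`, `Arr`, `gg`, `Crs`, `LCT`, `JBd`) are those of `G3/Z`.
-/

set_option autoImplicit false

open Topology Filter Metric

namespace Pool.Agent.G4

open Pool.Agent.AD (Vd)

variable {N k : ℕ}

/-- the exact hits of the lines of direction `a` with `Bad` are few -/
def Few (Bad : Set (Vd (k + 1))) (a : Vd (k + 1)) : Prop :=
  ∀ ε : ℝ, 0 < ε → ∃ C : ℝ, ∀ (y : Vd (k + 1)) (R : ℝ), 0 ≤ R → ∀ S : Finset ℂ, (∀ z ∈ S, ‖z‖ ≤ R ∧ y + z • a ∈ Bad) → (S.card : ℝ) ≤ ε * R ^ 2 + C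

end Pool.Agent.G4

end

section

/-!
# EF Defs: surfaces with a holomorphic map to an elliptic curve

`X` is the cone (without `0`) of a smooth projective surface, in `EN N = ℂ^(N+1)` with the Euclidean norm.  The map to `ℂ / Λ` is
given by a function `u : EN N → ℂ` which is holomorphic modulo `Λ`.  `pr x` is the orthogonal projection to the line of `x`, a
matrix: in this way the projective space is a compact subset of a Euclidean space.
-/

set_option autoImplicit false

open Topology Filter Metric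

namespace Pool.Agent.H62.EF

variable {N : ℕ}

/-- matrices with the Frobenius norm -/
abbrev MN (N : ℕ) : Type := EuclideanSpace ℂ (Fin (N + 1) × Fin (N + 1))

/-- `Λ` is a lattice in `ℂ` -/
structure Lat (Λ : AddSubgroup ℂ) : Prop where
  discrete : ∃ δ : ℝ, 0 < δ ∧ ∀ l ∈ Λ, ‖l‖ < δ → l = 0
  cocompact : ∃ R : ℝ, 0 < R ∧ ∀ z : ℂ, ∃ l ∈ Λ, ‖z - l‖ ≤ R

end Pool.Agent.H62.EF

end

section

/-!
# EF Defs: surfaces with a holomorphic map to an elliptic curve

`X` is the cone (without `0`) of a smooth projective surface, in `EN N = ℂ^(N+1)` with the Euclidean norm.  The map to `ℂ / Λ` is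
given by a function `u : EN N → ℂ` which is holomorphic modulo `Λ`.  `pr x` is the orthogonal projection to the line of `x`, a
matrix: in this way the projective space is a compact subset of a Euclidean space.
-/

set_option autoImplicit false

open Topology Filter Metric

namespace Pool.Agent.H62.EF

open Pool.Agent.H36.BP (EN fs wd)

variable {N : ℕ}

/-- the orthogonal projection to the line of `x` -/
noncomputable def pr (x : EN N) : MN N :=
  WithLp.toLp 2 fun i => x i.1 * (starRingEnd ℂ) (x i.2) / ((‖x‖ ^ 2 : ℝ) : ℂ)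

end Pool.Agent.H62.EF

end

section

/-!
# G3 LLift: local lifts of maps to the projective space
-/

set_option autoImplicit false

open Topology Filter Metric

namespace Pool.Agent.G3

open Pool.Agent.H36.BP (EN fs wd)
open Pool.Agent.H62.EF (MN pr)

/-- `f` has a holomorphic lift near `z` -/
def LLift {N : ℕ} (f : ℂ → MN N) (z : ℂ) : Prop := ∃ Φ : ℂ → EN N, AnalyticAt ℂ Φ z ∧ ∀ᶠ w in 𝓝 z, Φ w ≠ 0 ∧ f w = pr (Φ w)

end Pool.Agent.G3

end

section

/-!
# TG Defs: projective manifolds of dimension `k + 2` over complex tori of dimension `k + 1`, arbitrary singular fibres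

`X` is the cone (without `0`) over a projective manifold of dimension `k + 2`, `u` a holomorphic map to `ℂ^(k+1) / Λ` (a function `u : EN N → Vd (k+1)`
which is holomorphic modulo `Λ`).  `D ⊆ ℂ^(k+1)` is the set of the bad values (closed, `Λ`-invariant, contained in hypersurfaces), `B ⊆ D` the set of the
very bad values, which almost every line avoids.  Over `D \ B` the map `u` is `(x^a y^b, s)` in suitable coordinates.  Charts are `AD.Chart (k + 2) X`
(polydisc of radius `2` for the sup norm); the coordinate `0` is the coordinate along the fibres, the others (`tl p`) those of the base.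
All norms and balls in `Vd (k+1)` are for the sup norm.
-/

set_option autoImplicit false

open Topology Filter Metric

namespace Pool.Agent.TG

open Pool.Agent.H62.EF (MN)
open Pool.Agent.AD (Vd)

variable {N k : ℕ}

/-- `Λ` is a lattice -/
structure Lat (Λ : AddSubgroup (Vd (k + 1))) : Prop where
  disc : ∃ δ : ℝ, 0 < δ ∧ ∀ l ∈ Λ, ‖l‖ < δ → l = 0
  cpt : ∃ R : ℝ, 0 < R ∧ ∀ y : Vd (k + 1), ∃ l ∈ Λ, ‖y - l‖ ≤ R

end Pool.Agent.TG

end

section

/-!
# HE Defs: hyperbolically embedded pairs over complex tori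

`A = ℂ^(k+1) / Λ` is a complex torus.  `X ⊆ A × ℙ^N` is closed (given by the closed set `X ⊆ ℂ^(k+1) × ℂ^(N+1)`, `Λ`-periodic and conical in the second variable), `F j (y, x)`, `j < q`, are entire functions, homogeneous of degree `d j > 0`
in `x` and quasi-periodic in `y`, of weight `wt (W j)`.  `D` is a closed `Λ`-invariant set which meets all lines in isolated points.  Near the fibres over the points `y ∉ D` the `F j` have pieces such that the entire curves of bounded derivative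
in the fibre on which each piece is `0` or has no zeros are constant (`fib`).  The index `j` is ample if `W j` is positive definite; no section of `X` over a line off `D` which is contained in or disjoint from the zeros of each `F j` is contained in the zeros of all ample `F j` (`sec`).
Curves in the complement of the zeros of the `F j` are given by `h : ℂ → Vd (k+1)` and a lift `w : ℂ → EN N` of the component in `ℙ^N` (`Cw`).
-/

set_option autoImplicit false

open Topology Filter Metric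

namespace Pool.Agent.HE

open Pool.Agent.H36.BP (EN fs wd)
open Pool.Agent.H62.EF (MN pr)
open Pool.Agent.AD (Vd)
open Pool.Agent.TG (Lat)
open Pool.Agent.G3 (wt LLift)

variable {N k q r : ℕ}

/-- `Q s`, `s < m`, are pieces of the `F j` near `y₀`: holomorphic for `y` near `y₀`, homogeneous of degree `e s` in `x`, without zeros at the points of `X` at which the `F j` are not `0`, and every entire curve of bounded derivative in the fibre of
`X` over `y₀` on which each `Q s` is `0` or has no zeros is constant -/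
structure Pc (X : Set (Vd (k + 1) × EN N)) (F : Fin q → Vd (k + 1) × EN N → ℂ) (y₀ : Vd (k + 1)) {m : ℕ} (Q : Fin m → Vd (k + 1) × EN N → ℂ) (e : Fin m → ℕ) (ρ : ℝ) : Prop where
  pos : 0 < ρ
  an : ∀ s, DifferentiableOn ℂ (Q s) (ball y₀ ρ ×ˢ Set.univ)
  hom : ∀ s, ∀ y ∈ ball y₀ ρ, ∀ (c : ℂ) (x : EN N), Q s (y, c • x) = c ^ e s * Q s (y, x)
  ne : ∀ s, ∀ y ∈ ball y₀ ρ, ∀ x : EN N, x ≠ 0 → (y, x) ∈ X → (∀ j, F j (y, x) ≠ 0) → Q s (y, x) ≠ 0
  const : ∀ G : ℂ → EN N, Differentiable ℂ G → (∀ z, G z ≠ 0) → (∀ z, (y₀, G z) ∈ X) → (∃ L : ℝ, ∀ z, fs (G z) (deriv G z) ≤ L) →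
    (∀ s, (∀ z, Q s (y₀, G z) = 0) ∨ ∀ z, Q s (y₀, G z) ≠ 0) → ∀ z w, ∃ c : ℂ, G z = c • G w

/-- the data -/
structure HD (Λ : AddSubgroup (Vd (k + 1))) (D : Set (Vd (k + 1))) (X : Set (Vd (k + 1) × EN N)) (F : Fin q → Vd (k + 1) × EN N → ℂ) (d : Fin q → ℕ)
    (W : Fin q → Fin r → Vd (k + 1) →L[ℂ] ℂ) : Prop where
  lat : Lat Λ
  X_closed : IsClosed X
  X_per : ∀ l ∈ Λ, ∀ (y : Vd (k + 1)) (x : EN N), (y, x) ∈ X → (y + l, x) ∈ X
  X_smul : ∀ (c : ℂ) (y : Vd (k + 1)) (x : EN N), (y, x) ∈ X → (y, c • x) ∈ X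
  an : ∀ j, Differentiable ℂ (F j)
  deg : ∀ j, 0 < d j
  hom : ∀ (j : Fin q) (c : ℂ) (y : Vd (k + 1)) (x : EN N), F j (y, c • x) = c ^ d j * F j (y, x)
  per : ∀ j, ∀ l ∈ Λ, ∀ y : Vd (k + 1), ∃ e : ℂ, ‖e‖ * Real.exp (-wt (W j) (y + l)) = Real.exp (-wt (W j) y) ∧ ∀ x : EN N, F j (y + l, x) = e * F j (y, x)
  D_closed : IsClosed D
  D_inv : ∀ y ∈ D, ∀ l ∈ Λ, y + l ∈ D
  /-- the lines meet `D` in isolated points -/
  iso : ∀ a : Vd (k + 1), a ≠ 0 → ∀ y : Vd (k + 1), ∀ᶠ z in 𝓝[≠] (0 : ℂ), y + z • a ∉ D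
  /-- a section of `X` over a line off `D` which is contained in or disjoint from the zeros of each `F j` is not contained in the zeros of all ample `F j` -/
  sec : ∀ (y a : Vd (k + 1)), a ≠ 0 → ∀ g : ℂ → MN N, (∀ z : ℂ, y + z • a ∉ D → LLift g z) → (∀ z : ℂ, y + z • a ∉ D → ∀ x : EN N, x ≠ 0 → pr x = g z → (y + z • a, x) ∈ X) →
    (∀ j, (∀ z : ℂ, y + z • a ∉ D → ∀ x : EN N, x ≠ 0 → pr x = g z → F j (y + z • a, x) = 0) ∨ ∀ z : ℂ, y + z • a ∉ D → ∀ x : EN N, x ≠ 0 → pr x = g z → F j (y + z • a, x) ≠ 0) →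
    ∃ i, (∀ y, (∀ s, W i s y = 0) → y = 0) ∧ ¬ ∀ z : ℂ, y + z • a ∉ D → ∀ x : EN N, x ≠ 0 → pr x = g z → F i (y + z • a, x) = 0
  /-- near the fibres outside `D` there are pieces of the `F j` whose strata contain no curves of bounded derivative -/
  fib : ∀ y₀ ∉ D, ∃ (m : ℕ) (Q : Fin m → Vd (k + 1) × EN N → ℂ) (e : Fin m → ℕ) (ρ : ℝ), Pc X F y₀ Q e ρ

/-- `(h, w)` is over the set `U` a curve in `X` on which the `F j` have no zeros (used for open sets) -/
structure Cw (X : Set (Vd (k + 1) × EN N)) (F : Fin q → Vd (k + 1) × EN N → ℂ) (U : Set ℂ) (w : ℂ → EN N) (h : ℂ → Vd (k + 1)) : Prop where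
  w_diff : DifferentiableOn ℂ w U
  h_diff : DifferentiableOn ℂ h U
  w_ne : ∀ z ∈ U, w z ≠ 0
  mem : ∀ z ∈ U, (h z, w z) ∈ X
  ne : ∀ j, ∀ z ∈ U, F j (h z, w z) ≠ 0

/-- the norm of a form in the metrics -/
noncomputable def qf (F : Vd (k + 1) × EN N → ℂ) (d : ℕ) (W : Fin r → Vd (k + 1) →L[ℂ] ℂ) (y : Vd (k + 1)) (x : EN N) : ℝ :=
  ‖F (y, x)‖ * Real.exp (-wt W y) / ‖x‖ ^ d

theorem Cw.comp {X : Set (Vd (k + 1) × EN N)} {F : Fin q → Vd (k + 1) × EN N → ℂ} {U V : Set ℂ} {w : ℂ → EN N} {h : ℂ → Vd (k + 1)} (hc : Cw X F U w h) {φ : ℂ → ℂ}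
    (hφ : DifferentiableOn ℂ φ V) (hm : Set.MapsTo φ V U) : Cw X F V (fun z => w (φ z)) fun z => h (φ z) :=
  ⟨hc.w_diff.comp hφ hm, hc.h_diff.comp hφ hm, fun z hz => hc.w_ne _ (hm hz), fun z hz => hc.mem _ (hm hz), fun j z hz => hc.ne j _ (hm hz)⟩

end Pool.Agent.HE

end

section

/-!
# PX Defs: complements in `A × ℙ¹`

`A = ℂ^(k+1) / Λ` is a complex torus.  `Fo θ y x = ∑ θ_i(y) x_0^i x_1^(d-i)` is a binary form of degree `d` whose coefficients are entire functions of `y`, quasi-periodic with a common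
factor of the (positive definite) weight `wt W`.  `E = {Fo = 0}`, `U` its complement in `A × ℙ¹`.  Curves in `U` are given by `h : ℂ → Vd (k+1)` and a lift `w : ℂ → EN 1` of the `ℙ¹`-component
(`Cp`).  `D` is a closed `Λ`-invariant set outside which the form has only simple roots; all lines meet `D` in isolated points; `Bad a` is the set of the bad points of `D` for the
direction `a`: at the other points of `D` the set `D` is a smooth hypersurface, transversal to `a`, and the form is not `0`; there are few bad hits (`Few`).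
-/

set_option autoImplicit false

open Topology Filter Metric

namespace Pool.Agent.PX

open Pool.Agent.H36.BP (EN fs wd)
open Pool.Agent.H62.EF (MN)
open Pool.Agent.AD (Vd)
open Pool.Agent.TG (Lat)
open Pool.Agent.G3 (wt)
open Pool.Agent.G4 (Few)

variable {k d r : ℕ}

/-- the binary form `∑ θ_i(y) x_0^i x_1^(d-i)` -/
noncomputable def Fo (θ : Fin (d + 1) → Vd (k + 1) → ℂ) (y : Vd (k + 1)) (x : EN 1) : ℂ := ∑ i : Fin (d + 1), θ i y * x 0 ^ (i : ℕ) * x 1 ^ (d - (i : ℕ))

/-- the derivative of the form at `x` in the direction `v` -/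
noncomputable def Fd (θ : Fin (d + 1) → Vd (k + 1) → ℂ) (y : Vd (k + 1)) (x v : EN 1) : ℂ := fderiv ℂ (Fo θ y) x v

/-- the determinant of two vectors -/
def dt (x v : EN 1) : ℂ := x 0 * v 1 - x 1 * v 0

/-- the data -/
structure PD (Λ : AddSubgroup (Vd (k + 1))) (D : Set (Vd (k + 1))) (Bad : Vd (k + 1) → Set (Vd (k + 1))) (θ : Fin (d + 1) → Vd (k + 1) → ℂ)
    (W : Fin r → Vd (k + 1) →L[ℂ] ℂ) : Prop where
  lat : Lat Λ
  deg : 3 ≤ d
  an : ∀ i, Differentiable ℂ (θ i)
  per : ∀ l ∈ Λ, ∀ y, ∃ e : ℂ, ‖e‖ * Real.exp (-wt W (y + l)) = Real.exp (-wt W y) ∧ ∀ i, θ i (y + l) = e * θ i y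
  pos : ∀ y, (∀ i, W i y = 0) → y = 0
  D_closed : IsClosed D
  D_inv : ∀ y ∈ D, ∀ l ∈ Λ, y + l ∈ D
  /-- outside `D` the roots are simple -/
  simple : ∀ y ∉ D, ∀ x : EN 1, x ≠ 0 → Fo θ y x = 0 → ∃ v, Fd θ y x v ≠ 0
  /-- the lines meet `D` in isolated points -/
  iso : ∀ a : Vd (k + 1), a ≠ 0 → ∀ y : Vd (k + 1), ∀ᶠ z in 𝓝[≠] (0 : ℂ), y + z • a ∉ D
  bad_sub : ∀ a, Bad a ⊆ D
  bad_inv : ∀ a, ∀ β ∈ Bad a, ∀ l ∈ Λ, β + l ∈ Bad a
  few : ∀ a : Vd (k + 1), a ≠ 0 → Few (Bad a) a
  /-- at the good points of `D` the set `D` is smooth and transversal to `a` -/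
  good : ∀ a : Vd (k + 1), a ≠ 0 → ∀ p ∈ D, p ∉ Bad a → ∃ s : Vd (k + 1) → ℂ, AnalyticAt ℂ s p ∧ (∀ᶠ y in 𝓝 p, (y ∈ D ↔ s y = 0)) ∧ fderiv ℂ s p a ≠ 0
  /-- at the good points the form is not `0`, or it is `0` at all points of `D` near the point -/
  form : ∀ a : Vd (k + 1), a ≠ 0 → ∀ p ∉ Bad a, (∃ i, θ i p ≠ 0) ∨ (p ∈ D ∧ ∀ᶠ y in 𝓝 p, y ∈ D → ∀ i, θ i y = 0)

/-- the norm of the form in the metrics -/
noncomputable def qf (θ : Fin (d + 1) → Vd (k + 1) → ℂ) (W : Fin r → Vd (k + 1) →L[ℂ] ℂ) (y : Vd (k + 1)) (x : EN 1) : ℝ :=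
  ‖Fo θ y x‖ * Real.exp (-wt W y) / ‖x‖ ^ d

end Pool.Agent.PX

end
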