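import Pool.Agent.H94.PX2.M01

/-! The parts of this file: G4.RE.Defs, H13.SM.Surf, H36.BP.CirA, H36.BP.CirB, H41.LR.Defs, H41.LR.Mon, H41.LR.Sch, PX.One, TG.Rm. -/

section

/-!
# G4 RE Defs: reduced local equations of analytic hypersurfaces; definitions

`Gd D y a`: at the point `y` the set `D` is a smooth hypersurface, and `a` is not tangent.  `Bd D a`: the other points of `D`.  `dd b S`: the product of the differences `b i - b j`, `i ≠ j` in `S`.  `sc q b`, `sd q b t`: if the roots `b i` have exactly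
`q` values, then `sc q b ≠ 0` and `sd q b t = sc q b * ∏ v, (t - v)`, `v` the different roots; if they have fewer values: `sc q b = 0`.
-/

set_option autoImplicit false

open Topology Filter Metric

namespace Pool.Agent.G4.RE

/-- `D` is smooth at `y` and `a` is not tangent -/
def Gd {V : Type} [NormedAddCommGroup V] [NormedSpace ℂ V] (D : Set V) (y a : V) : Prop :=
  ∃ s : V → ℂ, AnalyticAt ℂ s y ∧ s y = 0 ∧ fderiv ℂ s y a ≠ 0 ∧ ∀ᶠ z in 𝓝 y, (z ∈ D ↔ s z = 0)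

/-- the bad points -/
def Bd {V : Type} [NormedAddCommGroup V] [NormedSpace ℂ V] (D : Set V) (a : V) : Set V := {y | y ∈ D ∧ ¬ Gd D y a}

/-- the product of the differences -/
noncomputable def dd {n : ℕ} (b : Fin n → ℂ) (S : Finset (Fin n)) : ℂ := ∏ p ∈ S.offDiag, (b p.1 - b p.2)

noncomputable def sc {n : ℕ} (q : ℕ) (b : Fin n → ℂ) : ℂ := ∑ S ∈ Finset.powersetCard q Finset.univ, dd b S

noncomputable def sd {n : ℕ} (q : ℕ) (b : Fin n → ℂ) (t : ℂ) : ℂ := ∑ S ∈ Finset.powersetCard q Finset.univ, dd b S * ∏ i ∈ S, (t - b i)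

end Pool.Agent.G4.RE

end

section

/-!
# The cone of a smooth projective surface is a `Surface`

`IsChart` and `Surface` are the definitions of `Pool.Agent.H17BP.Surf`.
-/

open MvPolynomial Topology Filter

noncomputable section

namespace Pool.Agent.H13.SM

variable {N : ℕ} {P : Ideal (MvPolynomial (Fin (N + 1)) ℂ)}

/-- The affine cone of `P` without its vertex. -/
def cone (P : Ideal (MvPolynomial (Fin (N + 1)) ℂ)) : Set (Fin (N + 1) → ℂ) :=
  {x | x ≠ 0 ∧ ∀ Q ∈ P, eval x Q = 0}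

end Pool.Agent.H13.SM

end
end

section

/-!
# BP CirA: approximation on one circle

Trigonometric polynomials are dense in the continuous functions on the circle (`span_fourier_closure_eq_top`, or Stone-Weierstrass on the compact set
`sphere 0 R` with the star subalgebra generated by `z`: on the circle `conj z = R²/z`).  A real continuous function is within `ε` of `Re P`, `P = ∑_{|n| ≤ m} c_n z^n`, and
`Re(c_(-n) z^(-n)) = Re(conj(c_(-n)) R^(-2n) z^n)` on the circle, so `P` can be taken to be a polynomial.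
`trig_approx`: the form needed for the annulus: finitely many coefficients `c 0, ..., c m`, `|φ(R e^(iθ)) - Re ∑ c_n e^(inθ)| ≤ ε`.
-/

set_option autoImplicit false

namespace Pool.Agent.H36.BP

open Filter Topology Metric

variable {N : ℕ}

private theorem CirA_span (g : C(AddCircle (2 * Real.pi), ℂ)) (hg : g ∈ Submodule.span ℂ (Set.range (@fourier (2 * Real.pi)))) :
    ∀ a : ℂ, ∃ p : Polynomial ℂ, ∀ θ : ℝ, (a * g (θ : AddCircle (2 * Real.pi))).re = (p.eval (Complex.exp (θ * Complex.I))).re := by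
  induction hg using Submodule.span_induction with
  | mem x hx =>
    intro a
    obtain ⟨k, rfl⟩ := hx
    have hpi : (Real.pi : ℂ) ≠ 0 := by exact_mod_cast Real.pi_ne_zero
    have hval : ∀ θ : ℝ, (fourier k (θ : AddCircle (2 * Real.pi)) : ℂ) = Complex.exp (k * (θ * Complex.I)) := by
      intro θ
      rw [fourier_coe_apply]
      congr 1
      push_cast
      field_simp
    rcases Int.eq_nat_or_neg k with ⟨n, rfl | rfl⟩
    · refine ⟨Polynomial.C a * Polynomial.X ^ n, fun θ => ?_⟩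
      rw [hval]
      simp only [Polynomial.eval_mul, Polynomial.eval_C, Polynomial.eval_pow, Polynomial.eval_X]
      rw [← Complex.exp_nat_mul]
      push_cast
      rfl
    · refine ⟨Polynomial.C ((starRingEnd ℂ) a) * Polynomial.X ^ n, fun θ => ?_⟩
      rw [hval]
      simp only [Polynomial.eval_mul, Polynomial.eval_C, Polynomial.eval_pow, Polynomial.eval_X]
      rw [← Complex.exp_nat_mul]
      rw [← Complex.conj_re (a * _), map_mul, ← Complex.exp_conj]
      congr 3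
      simp [Complex.conj_ofReal]
  | zero =>
    intro a
    exact ⟨0, fun θ => by simp⟩
  | add x y _ _ hx hy =>
    intro a
    obtain ⟨p, hp⟩ := hx a
    obtain ⟨q, hq⟩ := hy a
    refine ⟨p + q, fun θ => ?_⟩
    rw [ContinuousMap.add_apply, mul_add, Complex.add_re, hp, hq, Polynomial.eval_add, Complex.add_re]
  | smul b x _ hx =>
    intro a
    obtain ⟨p, hp⟩ := hx (a * b)
    refine ⟨p, fun θ => ?_⟩
    rw [← hp, ContinuousMap.smul_apply, smul_eq_mul, mul_assoc]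

theorem trig_approx (φ : ℝ → ℝ) (hφ : Continuous φ) (hper : ∀ θ, φ (θ + 2 * Real.pi) = φ θ) {ε : ℝ} (hε : 0 < ε) :
    ∃ (m : ℕ) (c : ℕ → ℂ), ∀ θ : ℝ, |φ θ - (∑ n ∈ Finset.range (m + 1), c n * Complex.exp (n * (θ * Complex.I))).re| ≤ ε := by
  have : Fact (0 < 2 * Real.pi) := ⟨Real.two_pi_pos⟩
  have hP : Function.Periodic φ (2 * Real.pi) := hper
  have hcont : Continuous (hP.lift) := by
    exact continuous_coinduced_dom.mpr hφ
  let F : C(AddCircle (2 * Real.pi), ℂ) := ⟨fun x => ((hP.lift x : ℝ) : ℂ), Complex.continuous_ofReal.comp hcont⟩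
  have hF : F ∈ (Submodule.span ℂ (Set.range (@fourier (2 * Real.pi)))).topologicalClosure := by
    rw [span_fourier_closure_eq_top]
    trivial
  have hF2 : F ∈ closure ((Submodule.span ℂ (Set.range (@fourier (2 * Real.pi))) : Submodule ℂ C(AddCircle (2 * Real.pi), ℂ)) : Set C(AddCircle (2 * Real.pi), ℂ)) := hF
  obtain ⟨g, hg, hgd⟩ := Metric.mem_closure_iff.mp hF2 ε hε
  obtain ⟨p, hp⟩ := CirA_span g hg 1
  refine ⟨p.natDegree, p.coeff, fun θ => ?_⟩
  have h1 : (∑ n ∈ Finset.range (p.natDegree + 1), p.coeff n * Complex.exp (n * (θ * Complex.I))) = p.eval (Complex.exp (θ * Complex.I)) := by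
    rw [Polynomial.eval_eq_sum_range]
    refine Finset.sum_congr rfl fun n _ => ?_
    rw [← Complex.exp_nat_mul]
  rw [h1, ← hp θ, one_mul]
  have h2 : ‖(F - g) (θ : AddCircle (2 * Real.pi))‖ ≤ ε := by
    refine le_trans (ContinuousMap.norm_coe_le_norm _ _) ?_
    rw [← dist_eq_norm]
    exact hgd.le
  have h3 : φ θ - (g (θ : AddCircle (2 * Real.pi))).re = ((F - g) (θ : AddCircle (2 * Real.pi))).re := by
    rw [ContinuousMap.sub_apply, Complex.sub_re]
    have h4 : F (θ : AddCircle (2 * Real.pi)) = ((φ θ : ℝ) : ℂ) := by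
      change ((hP.lift (θ : AddCircle (2 * Real.pi)) : ℝ) : ℂ) = _
      rw [Function.Periodic.lift_coe]
    rw [h4, Complex.ofReal_re]
  rw [h3]
  exact (Complex.abs_re_le_norm _).trans h2

theorem circle_approx {R : ℝ} (hR : 0 < R) (φ : ℂ → ℝ) (hφ : ContinuousOn φ (sphere (0 : ℂ) R)) {ε : ℝ} (hε : 0 < ε) :
    ∃ g : ℂ → ℂ, Differentiable ℂ g ∧ ∀ z ∈ sphere (0 : ℂ) R, |(g z).re - φ z| ≤ ε := by
  have hmem : ∀ θ : ℝ, ((R : ℂ) * Complex.exp (θ * Complex.I)) ∈ sphere (0 : ℂ) R := by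
    intro θ
    rw [mem_sphere_zero_iff_norm, norm_mul, Complex.norm_exp_ofReal_mul_I, mul_one, Complex.norm_real, Real.norm_eq_abs, abs_of_pos hR]
  have hc : Continuous fun θ : ℝ => φ ((R : ℂ) * Complex.exp (θ * Complex.I)) := by
    refine hφ.comp_continuous ?_ hmem
    exact continuous_const.mul (Complex.continuous_exp.comp (Complex.continuous_ofReal.mul continuous_const))
  have hper : ∀ θ : ℝ, φ ((R : ℂ) * Complex.exp (((θ + 2 * Real.pi : ℝ) : ℂ) * Complex.I)) = φ ((R : ℂ) * Complex.exp ((θ : ℂ) * Complex.I)) := by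
    intro θ
    congr 2
    push_cast
    rw [add_mul]
    exact Complex.exp_periodic _
  obtain ⟨m, c, hmc⟩ := trig_approx (fun θ : ℝ => φ ((R : ℂ) * Complex.exp (θ * Complex.I))) hc hper hε
  refine ⟨fun z => ∑ n ∈ Finset.range (m + 1), c n * (z / R) ^ n, ?_, ?_⟩
  · refine Differentiable.fun_sum fun n _ => ?_
    exact ((differentiable_id.div_const _).pow n).const_mul _
  · intro z hz
    have hRne : (R : ℂ) ≠ 0 := by exact_mod_cast hR.ne'
    have hzn : ‖z‖ = R := mem_sphere_zero_iff_norm.mp hz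
    have hz1 : z = (R : ℂ) * Complex.exp ((z.arg : ℝ) * Complex.I) := by
      conv_lhs => rw [← Complex.norm_mul_exp_arg_mul_I z, hzn]
    have h := hmc z.arg
    have h5 : (∑ n ∈ Finset.range (m + 1), c n * (z / R) ^ n) = ∑ n ∈ Finset.range (m + 1), c n * Complex.exp (n * ((z.arg : ℝ) * Complex.I)) := by
      refine Finset.sum_congr rfl fun n _ => ?_
      have : z / R = Complex.exp ((z.arg : ℝ) * Complex.I) := by
        rw [div_eq_iff hRne, mul_comm]
        exact hz1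
      rw [this, Complex.exp_nat_mul]
    simp only
    rw [h5, abs_sub_comm]
    simp only [← hz1] at h
    exact h

end Pool.Agent.H36.BP

end

section

/-!
# BP CirB: approximation on two circles

`trig_approx` on both circles: `φ(r e^(iθ)) ≈ Re ∑ a_n e^(inθ)`, `φ(R e^(iθ)) ≈ Re ∑ b_n e^(inθ)` (common `m`, pad with zeros).  For `n ≥ 1` the function
`Re(c_n z^n + d_n z^(-n))` has at `z = ρ e^(iθ)` the value `Re((c_n ρ^n + conj(d_n) ρ^(-n)) e^(inθ))`; solve `c_n r^n + conj(d_n) r^(-n) = a_n`,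
`c_n R^n + conj(d_n) R^(-n) = b_n` (determinant `(r/R)^n - (R/r)^n ≠ 0`).  For `n = 0`: real `a`, `b` with `a + b log r = Re a_0`, `a + b log R = Re b_0`.
`g z = a + ∑_{n ≥ 1} (c_n z^n + d_n z^(-n))`.
-/

set_option autoImplicit false

namespace Pool.Agent.H36.BP

open Filter Topology Metric

variable {N : ℕ}

private theorem CirB_key (ρ : ℝ) (c d : ℂ) (n : ℕ) (θ : ℝ) :
    (c * ((ρ : ℂ) * Complex.exp (θ * Complex.I)) ^ n + d * (((ρ : ℂ) * Complex.exp (θ * Complex.I))⁻¹) ^ n).re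
      = ((c * (ρ : ℂ) ^ n + (starRingEnd ℂ) d * ((ρ : ℂ) ^ n)⁻¹) * Complex.exp (n * (θ * Complex.I))).re := by
  have h1 : (c * ((ρ : ℂ) * Complex.exp (θ * Complex.I)) ^ n) = c * (ρ : ℂ) ^ n * Complex.exp (n * (θ * Complex.I)) := by
    rw [mul_pow, ← Complex.exp_nat_mul, mul_assoc]
  have h2 : (starRingEnd ℂ) (d * (((ρ : ℂ) * Complex.exp (θ * Complex.I))⁻¹) ^ n)
      = (starRingEnd ℂ) d * ((ρ : ℂ) ^ n)⁻¹ * Complex.exp (n * (θ * Complex.I)) := by
    have h3 : (((ρ : ℂ) * Complex.exp (θ * Complex.I))⁻¹) ^ n = ((ρ : ℂ) ^ n)⁻¹ * Complex.exp (-(n * (θ * Complex.I))) := by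
      rw [inv_pow, mul_pow, ← Complex.exp_nat_mul, mul_inv, Complex.exp_neg]
    rw [h3, map_mul, map_mul, ← Complex.exp_conj]
    have h4 : (starRingEnd ℂ) (-(n * (θ * Complex.I))) = n * (θ * Complex.I) := by
      simp
    rw [h4, map_inv₀, map_pow, Complex.conj_ofReal, mul_assoc]
  rw [Complex.add_re, h1, add_mul, Complex.add_re]
  congr 1
  rw [← Complex.conj_re, h2]

private theorem CirB_solve {r R : ℝ} (hr : 0 < r) (hrR : r < R) (a b : ℂ) (n : ℕ) (hn : n ≠ 0) :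
    ∃ c d : ℂ, c * (r : ℂ) ^ n + (starRingEnd ℂ) d * ((r : ℂ) ^ n)⁻¹ = a ∧
      c * (R : ℂ) ^ n + (starRingEnd ℂ) d * ((R : ℂ) ^ n)⁻¹ = b := by
  have hR : 0 < R := hr.trans hrR
  have h1 : r ^ n < R ^ n := pow_lt_pow_left₀ hrR hr.le hn
  have h2 : 0 < r ^ n := pow_pos hr n
  have h3 : 0 < R ^ n := pow_pos hR n
  have hr' : ((r : ℂ) ^ n) ≠ 0 := by exact_mod_cast h2.ne'
  have hR' : ((R : ℂ) ^ n) ≠ 0 := by exact_mod_cast h3.ne'
  have hD : ((r : ℂ) ^ n) ^ 2 - ((R : ℂ) ^ n) ^ 2 ≠ 0 := by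
    have : (r ^ n) ^ 2 - (R ^ n) ^ 2 ≠ 0 := by nlinarith
    exact_mod_cast this
  refine ⟨(a * (r : ℂ) ^ n - b * (R : ℂ) ^ n) / (((r : ℂ) ^ n) ^ 2 - ((R : ℂ) ^ n) ^ 2),
    (starRingEnd ℂ) ((r : ℂ) ^ n * (R : ℂ) ^ n * ((r : ℂ) ^ n * b - (R : ℂ) ^ n * a) / (((r : ℂ) ^ n) ^ 2 - ((R : ℂ) ^ n) ^ 2)), ?_, ?_⟩
  · rw [Complex.conj_conj]
    field_simp
    ring
  · rw [Complex.conj_conj]
    field_simp
    ring

private theorem CirB_pad (m m' : ℕ) (hm : m ≤ m') (a : ℕ → ℂ) (f : ℕ → ℂ) :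
    ∑ n ∈ Finset.range (m + 1), a n * f n = ∑ n ∈ Finset.range (m' + 1), (if n ≤ m then a n else 0) * f n := by
  have h : Finset.range (m + 1) ⊆ Finset.range (m' + 1) := by
    intro x hx
    rw [Finset.mem_range] at hx ⊢
    omega
  rw [← Finset.sum_subset h]
  · apply Finset.sum_congr rfl
    intro x hx
    rw [Finset.mem_range] at hx
    rw [if_pos (by omega)]
  · intro x _ hx
    rw [Finset.mem_range] at hx
    rw [if_neg (by omega), zero_mul]

private theorem CirB_circ (φ : ℂ → ℝ) (ρ : ℝ) (hρ : 0 < ρ) (S : Set ℂ) (hS : sphere (0 : ℂ) ρ ⊆ S) (hφ : ContinuousOn φ S)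
    {ε : ℝ} (hε : 0 < ε) :
    ∃ (m : ℕ) (c : ℕ → ℂ), ∀ θ : ℝ, |φ (ρ * Complex.exp (θ * Complex.I)) -
      (∑ n ∈ Finset.range (m + 1), c n * Complex.exp (n * (θ * Complex.I))).re| ≤ ε := by
  apply trig_approx (fun θ : ℝ => φ (ρ * Complex.exp (θ * Complex.I))) _ _ hε
  · apply hφ.comp_continuous
    · fun_prop
    · intro θ
      apply hS
      rw [mem_sphere_zero_iff_norm, norm_mul, Complex.norm_exp_ofReal_mul_I, mul_one, Complex.norm_real, Real.norm_eq_abs, abs_of_pos hρ]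
  · intro θ
    have : Complex.exp (((θ + 2 * Real.pi : ℝ) : ℂ) * Complex.I) = Complex.exp (θ * Complex.I) := by
      have h := Complex.exp_periodic (θ * Complex.I)
      rw [← h]
      congr 1
      push_cast
      ring
    show φ (ρ * Complex.exp (((θ + 2 * Real.pi : ℝ) : ℂ) * Complex.I)) = _
    rw [this]

theorem annulus_approx {r R : ℝ} (hr : 0 < r) (hrR : r < R) (φ : ℂ → ℝ) (hφ : ContinuousOn φ (sphere (0 : ℂ) r ∪ sphere (0 : ℂ) R))
    {ε : ℝ} (hε : 0 < ε) : ∃ (g : ℂ → ℂ) (b : ℝ), DifferentiableOn ℂ g {0}ᶜ ∧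
      ∀ z ∈ sphere (0 : ℂ) r ∪ sphere (0 : ℂ) R, |(g z).re + b * Real.log ‖z‖ - φ z| ≤ ε := by
  have hR : 0 < R := hr.trans hrR
  obtain ⟨m₁, a₁, h₁⟩ := CirB_circ φ r hr _ Set.subset_union_left hφ hε
  obtain ⟨m₂, a₂, h₂⟩ := CirB_circ φ R hR _ Set.subset_union_right hφ hε
  set m := max m₁ m₂ with hm
  set A : ℕ → ℂ := fun n => if n ≤ m₁ then a₁ n else 0 with hA
  set B : ℕ → ℂ := fun n => if n ≤ m₂ then a₂ n else 0 with hB
  have h₁' : ∀ θ : ℝ, |φ (r * Complex.exp (θ * Complex.I)) -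
      (∑ n ∈ Finset.range (m + 1), A n * Complex.exp (n * (θ * Complex.I))).re| ≤ ε := by
    intro θ
    have := h₁ θ
    rw [CirB_pad m₁ m (le_max_left _ _) a₁ (fun n => Complex.exp (n * (θ * Complex.I)))] at this
    exact this
  have h₂' : ∀ θ : ℝ, |φ (R * Complex.exp (θ * Complex.I)) -
      (∑ n ∈ Finset.range (m + 1), B n * Complex.exp (n * (θ * Complex.I))).re| ≤ ε := by
    intro θ
    have := h₂ θ
    rw [CirB_pad m₂ m (le_max_right _ _) a₂ (fun n => Complex.exp (n * (θ * Complex.I)))] at this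
    exact this
  have hex : ∀ n : ℕ, ∃ c d : ℂ, c * (r : ℂ) ^ (n + 1) + (starRingEnd ℂ) d * ((r : ℂ) ^ (n + 1))⁻¹ = A (n + 1) ∧
      c * (R : ℂ) ^ (n + 1) + (starRingEnd ℂ) d * ((R : ℂ) ^ (n + 1))⁻¹ = B (n + 1) :=
    fun n => CirB_solve hr hrR _ _ (n + 1) (Nat.succ_ne_zero n)
  choose c d hc hd using hex
  have hlog : Real.log r < Real.log R := Real.log_lt_log hr hrR
  obtain ⟨a, b, hab1, hab2⟩ : ∃ a b : ℝ, a + b * Real.log r = (A 0).re ∧ a + b * Real.log R = (B 0).re := by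
    refine ⟨(A 0).re - ((B 0).re - (A 0).re) / (Real.log R - Real.log r) * Real.log r,
      ((B 0).re - (A 0).re) / (Real.log R - Real.log r), by ring, ?_⟩
    have : Real.log R - Real.log r ≠ 0 := by linarith
    field_simp
    ring
  set g : ℂ → ℂ := fun z => (a : ℂ) + ∑ n ∈ Finset.range m, (c n * z ^ (n + 1) + d n * (z⁻¹) ^ (n + 1)) with hg
  have hval : ∀ (ρ : ℝ) (C : ℕ → ℂ), 0 < ρ → a + b * Real.log ρ = (C 0).re →
      (∀ n, c n * (ρ : ℂ) ^ (n + 1) + (starRingEnd ℂ) (d n) * ((ρ : ℂ) ^ (n + 1))⁻¹ = C (n + 1)) →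
      ∀ θ : ℝ, (g (ρ * Complex.exp (θ * Complex.I))).re + b * Real.log ρ
        = (∑ n ∈ Finset.range (m + 1), C n * Complex.exp (n * (θ * Complex.I))).re := by
    intro ρ C hρ h0 hC θ
    rw [Finset.sum_range_succ']
    simp only [hg, Complex.add_re, Complex.re_sum, Complex.ofReal_re]
    have e1 : ∀ n ∈ Finset.range m, (c n * ((ρ : ℂ) * Complex.exp (θ * Complex.I)) ^ (n + 1)).re +
        (d n * (((ρ : ℂ) * Complex.exp (θ * Complex.I))⁻¹) ^ (n + 1)).re
        = (C (n + 1) * Complex.exp (((n + 1 : ℕ) : ℂ) * (θ * Complex.I))).re := by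
      intro n _
      rw [← Complex.add_re, CirB_key, hC n]
    rw [Finset.sum_congr rfl e1]
    have e2 : (C 0 * Complex.exp (((0 : ℕ) : ℂ) * (θ * Complex.I))).re = a + b * Real.log ρ := by
      rw [h0]; simp
    rw [e2]
    ring
  refine ⟨g, b, ?_, ?_⟩
  · intro z hz
    have hz0 : z ≠ 0 := hz
    apply DifferentiableAt.differentiableWithinAt
    rw [hg]
    apply DifferentiableAt.const_add
    apply DifferentiableAt.fun_sum
    intro n _
    exact ((differentiableAt_id.pow _).const_mul _).add (((differentiableAt_inv hz0).pow _).const_mul _)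
  · have harg : ∀ (z : ℂ), z = (‖z‖ : ℂ) * Complex.exp (Complex.arg z * Complex.I) := fun z => (Complex.norm_mul_exp_arg_mul_I z).symm
    rintro z (hz | hz)
    · rw [mem_sphere_zero_iff_norm] at hz
      have h3 := h₁' (Complex.arg z)
      have h4 := hval r A hr hab1 hc (Complex.arg z)
      have h5 := harg z
      rw [hz] at h5
      rw [← h5] at h3 h4
      rw [hz, h4, abs_sub_comm]
      exact h3
    · rw [mem_sphere_zero_iff_norm] at hz
      have h3 := h₂' (Complex.arg z)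
      have h4 := hval R B hR hab2 hd (Complex.arg z)
      have h5 := harg z
      rw [hz] at h5
      rw [← h5] at h3 h4
      rw [hz, h4, abs_sub_comm]
      exact h3

end Pool.Agent.H36.BP

end

section

/-!
# LR Defs: Schottky's theorem as a hypothesis
-/

set_option autoImplicit false

open Topology Filter Metric

noncomputable section

namespace Pool.Agent.H41.LR

/-- `f` omits the values `0`, `1` on `U`. -/
def Om (f : ℂ → ℂ) (U : Set ℂ) : Prop := ∀ w ∈ U, f w ≠ 0 ∧ f w ≠ 1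

/-- Schottky's theorem (as a statement). -/
def Schottky : Prop := ∀ M : ℝ, ∃ S : ℝ, ∀ (f : ℂ → ℂ) (z : ℂ) (r : ℝ), 0 < r → DifferentiableOn ℂ f (ball z r) → Om f (ball z r) →
  ‖f z‖ ≤ M → ∀ w ∈ closedBall z (r / 2), ‖f w‖ ≤ S

theorem Om.mono {f : ℂ → ℂ} {U V : Set ℂ} (h : Om f U) (hV : V ⊆ U) : Om f V := fun w hw => h w (hV hw)

theorem Om.inv {f : ℂ → ℂ} {U : Set ℂ} (h : Om f U) : Om (fun w => (f w)⁻¹) U := by
  intro w hw
  obtain ⟨h1, h2⟩ := h w hw
  exact ⟨inv_ne_zero h1, fun h3 => h2 (inv_eq_one.1 h3)⟩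

theorem Om.diff_inv {f : ℂ → ℂ} {U : Set ℂ} (h : Om f U) (hf : DifferentiableOn ℂ f U) : DifferentiableOn ℂ (fun w => (f w)⁻¹) U :=
  hf.inv fun w hw => (h w hw).1

end Pool.Agent.H41.LR

end
end

section

/-!
# LR Mon: Montel's theorem for functions without the values `0`, `1`, along an ultrafilter
-/

set_option autoImplicit false

open Topology Filter Metric

noncomputable section

namespace Pool.Agent.H41.LR

/-- a set which is open, with open complement in a preconnected set -/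
theorem all_of_clopen {Ω A : Set ℂ} (hc : IsPreconnected Ω) (h1 : ∀ z ∈ Ω, z ∈ A → A ∈ 𝓝 z) (h2 : ∀ z ∈ Ω, z ∉ A → Aᶜ ∈ 𝓝 z)
    {z₀ : ℂ} (hz₀ : z₀ ∈ Ω) (hA : z₀ ∈ A) : Ω ⊆ A := by
  have h3 := hc (interior A) (interior Aᶜ) isOpen_interior isOpen_interior (by
    intro z hz
    by_cases h : z ∈ A
    · exact Or.inl (mem_interior_iff_mem_nhds.2 (h1 z hz h))
    · exact Or.inr (mem_interior_iff_mem_nhds.2 (h2 z hz h))) ⟨z₀, hz₀, mem_interior_iff_mem_nhds.2 (h1 z₀ hz₀ hA)⟩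
  intro z hz
  by_contra h
  obtain ⟨w, -, hw1, hw2⟩ := h3 ⟨z, hz, mem_interior_iff_mem_nhds.2 (h2 z hz h)⟩
  exact (interior_subset hw2) (interior_subset hw1)

end Pool.Agent.H41.LR

end
end

section

/-!
# LR Sch: Schottky's theorem from the local statements
-/

set_option autoImplicit false

open Topology Filter Metric

noncomputable section

namespace Pool.Agent.H41.LR

/-- bounded at the centre: bounded on a smaller ball (statement) -/
def LocalBound : Prop := ∀ M : ℝ, ∃ c : ℝ, 0 < c ∧ c ≤ 1 ∧ ∀ (X : ℂ → ℂ) (z : ℂ) (R : ℝ), 0 < R → DifferentiableOn ℂ X (ball z R) →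
    (∀ w ∈ ball z R, X w ≠ 0 ∧ X w ≠ 1) → ‖X z‖ ≤ M → ∀ w ∈ ball z (c * R), ‖X w‖ ≤ M + 1

/-- small at the centre: small on a smaller ball (statement) -/
def Harnack3 : Prop := ∃ c : ℝ, 0 < c ∧ c ≤ 1 ∧ ∀ (X : ℂ → ℂ) (z : ℂ) (R : ℝ), 0 < R → DifferentiableOn ℂ X (ball z R) →
    (∀ w ∈ ball z R, X w ≠ 0 ∧ X w ≠ 1) → ‖X z‖ ≤ 1 / 2 → ∀ w ∈ ball z (c * R), ‖X w‖ ^ 3 ≤ ‖X z‖

/-- **Schottky's theorem** -/
theorem schottky_of (hL : LocalBound) (hH : Harnack3) : Schottky := by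
  intro M
  by_contra hcon
  push Not at hcon
  -- normalised counterexamples
  have hex : ∀ n : ℕ, ∃ (f : ℂ → ℂ) (w : ℂ), DifferentiableOn ℂ f (ball 0 1) ∧ Om f (ball 0 1) ∧ ‖f 0‖ ≤ M ∧ ‖w‖ ≤ 1 / 2 ∧ (n : ℝ) < ‖f w‖ := by
    intro n
    obtain ⟨f, z, r, hr, hd, hO, h0, w, hw, hn⟩ := hcon n
    have hmap : ∀ ζ ∈ ball (0 : ℂ) 1, z + r * ζ ∈ ball z r := by
      intro ζ hζ
      rw [mem_ball_zero_iff] at hζ
      rw [mem_ball_iff_norm, add_sub_cancel_left, norm_mul, Complex.norm_real, Real.norm_eq_abs, abs_of_pos hr]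
      nlinarith
    have hrc : (r : ℂ) ≠ 0 := by exact_mod_cast hr.ne'
    refine ⟨fun ζ => f (z + r * ζ), (w - z) / r, ?_, fun ζ hζ => hO _ (hmap ζ hζ), ?_, ?_, ?_⟩
    · exact hd.comp ((differentiable_const z).add ((differentiable_const (r : ℂ)).mul differentiable_id)).differentiableOn hmap
    · show ‖f (z + r * 0)‖ ≤ M
      rw [mul_zero, add_zero]
      exact h0
    · rw [norm_div, Complex.norm_real, Real.norm_eq_abs, abs_of_pos hr, div_le_iff₀ hr]
      rw [mem_closedBall_iff_norm] at hw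
      linarith
    · show (n : ℝ) < ‖f (z + r * ((w - z) / r))‖
      rw [mul_div_cancel₀ _ hrc]
      have h1 : z + (w - z) = w := by ring
      rw [h1]
      exact hn
  choose f w hd hO h0 hw hn using hex
  set 𝒰 : Ultrafilter ℕ := hyperfilter ℕ with h𝒰
  have hbd : ball (0 : ℂ) 1 ⊆ {z | ∃ M : ℝ, ∀ᶠ n in (𝒰 : Filter ℕ), ‖f n z‖ ≤ M} := by
    refine all_of_clopen (z₀ := 0) (convex_ball (0 : ℂ) 1).isPreconnected ?_ ?_ (mem_ball_self one_pos) ⟨M, Eventually.of_forall h0⟩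
    · rintro z hz ⟨M', hM'⟩
      obtain ⟨c, hc, hc1, hLc⟩ := hL M'
      have hR : 0 < 1 - ‖z‖ := by
        rw [mem_ball_zero_iff] at hz
        linarith
      have hsub : ball z (1 - ‖z‖) ⊆ ball (0 : ℂ) 1 := by
        refine ball_subset_ball' ?_
        rw [dist_zero_right]
        linarith
      refine mem_of_superset (ball_mem_nhds z (mul_pos hc hR)) fun x hx => ⟨M' + 1, ?_⟩
      filter_upwards [hM'] with n h1
      exact hLc (f n) z _ hR ((hd n).mono hsub) (fun y hy => hO n y (hsub hy)) h1 x hx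
    · intro z hz hzA
      obtain ⟨c, hc, hc1, hHc⟩ := hH
      have hR : 0 < 1 - ‖z‖ := by
        rw [mem_ball_zero_iff] at hz
        linarith
      have hsub : ball z (1 - ‖z‖) ⊆ ball (0 : ℂ) 1 := by
        refine ball_subset_ball' ?_
        rw [dist_zero_right]
        linarith
      have hbig : ∀ M' : ℝ, ∀ᶠ n in (𝒰 : Filter ℕ), M' < ‖f n z‖ := by
        intro M'
        by_contra h2
        apply hzA
        refine ⟨M', ?_⟩
        rw [Ultrafilter.eventually_not.symm] at h2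
        exact h2.mono fun n hn => not_lt.1 hn
      have hsub2 : ball z (c * (1 - ‖z‖)) ⊆ ball z (1 - ‖z‖) := ball_subset_ball (by nlinarith)
      refine mem_of_superset (ball_mem_nhds z (mul_pos hc hR)) ?_
      rintro x hx ⟨M', hM'⟩
      obtain ⟨n, h1, h2⟩ := ((hbig (max 2 (|M'| + 1) ^ 3)).and hM').exists
      have hm2 : (2 : ℝ) ≤ max 2 (|M'| + 1) := le_max_left _ _
      have hm3 : |M'| + 1 ≤ max 2 (|M'| + 1) := le_max_right _ _
      have hz0 : 0 < ‖f n z‖ := norm_pos_iff.2 (hO n z hz).1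
      have hx0 : 0 < ‖f n x‖ := norm_pos_iff.2 (hO n x (hsub (hsub2 hx))).1
      have h3 : ‖(f n z)⁻¹‖ ≤ 1 / 2 := by
        rw [norm_inv, one_div]
        refine inv_anti₀ two_pos ?_
        have h4 : (2 : ℝ) ≤ max 2 (|M'| + 1) ^ 3 := by nlinarith [mul_self_nonneg (max 2 (|M'| + 1))]
        linarith
      have h5 := hHc (fun y => (f n y)⁻¹) z _ hR (((hO n).mono hsub).diff_inv ((hd n).mono hsub)) ((hO n).mono hsub).inv h3 x hx
      have h6 : ‖(f n x)⁻¹‖ ^ 3 ≤ ‖(f n z)⁻¹‖ := h5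
      rw [norm_inv, norm_inv] at h6
      have h7 : ‖f n z‖ ≤ ‖f n x‖ ^ 3 := by
        rw [inv_pow] at h6
        exact (inv_le_inv₀ (by positivity) hz0).1 h6
      have h8 : ‖f n x‖ ^ 3 ≤ (max 2 (|M'| + 1)) ^ 3 := by
        refine pow_le_pow_left₀ hx0.le ?_ 3
        have := le_abs_self M'
        linarith
      linarith
  have hwm : ∀ᶠ n in (𝒰 : Filter ℕ), w n ∈ closedBall (0 : ℂ) (1 / 2) := Eventually.of_forall fun n => by
    rw [mem_closedBall_zero_iff]
    exact hw n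
  obtain ⟨a, ha, hlim⟩ := (isCompact_closedBall (0 : ℂ) (1 / 2)).ultrafilter_le_nhds (𝒰.map w) (by
    rw [le_principal_iff]
    exact hwm)
  have ha1 : a ∈ ball (0 : ℂ) 1 := by
    rw [mem_closedBall_zero_iff] at ha
    rw [mem_ball_zero_iff]
    linarith
  obtain ⟨M', hM'⟩ := hbd ha1
  obtain ⟨c, hc, hc1, hLc⟩ := hL M'
  have hR : 0 < 1 - ‖a‖ := by
    rw [mem_ball_zero_iff] at ha1
    linarith
  have hsub : ball a (1 - ‖a‖) ⊆ ball (0 : ℂ) 1 := by
    refine ball_subset_ball' ?_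
    rw [dist_zero_right]
    linarith
  have h1 : ∀ᶠ n in (𝒰 : Filter ℕ), w n ∈ ball a (c * (1 - ‖a‖)) := hlim (ball_mem_nhds a (mul_pos hc hR))
  have h2 : ∀ᶠ n in (𝒰 : Filter ℕ), ‖f n (w n)‖ ≤ M' + 1 := by
    filter_upwards [h1, hM'] with n h3 h4
    exact hLc (f n) a _ hR ((hd n).mono hsub) (fun y hy => hO n y (hsub hy)) h4 (w n) h3
  obtain ⟨N, hN⟩ := exists_nat_gt (M' + 1)
  have h3 : ∀ᶠ n in (𝒰 : Filter ℕ), N ≤ n := by
    have h4 : ∀ᶠ n in (cofinite : Filter ℕ), N ≤ n := by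
      rw [Nat.cofinite_eq_atTop]
      exact eventually_ge_atTop N
    exact h4.filter_mono (hyperfilter_le_cofinite)
  obtain ⟨n, h4, h5⟩ := (h2.and h3).exists
  have h6 := hn n
  have h7 : (N : ℝ) ≤ n := by exact_mod_cast h5
  linarith

end Pool.Agent.H41.LR

end
end

section

/-!
# PX One: arcs near a line meet `D` only once near a good point

`s ∘ γ` has on the disc a derivative near `c = fderiv ℂ s p a ≠ 0` (Cauchy; `s` is `C¹` near `p`), so it is injective on the convex disc, and it has a zero within `ρ / 8` (Banach fixed point of `z - s (γ z) / c`).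
-/

set_option autoImplicit false

open Topology Filter Metric

namespace Pool.Agent.PX

open Pool.Agent.AD (Vd)

variable {k d r : ℕ}

/-- a function on a disc with derivative near `c` and a small value in the centre has exactly one zero -/
private theorem one_zero {f f' : ℂ → ℂ} {c : ℂ} {ρ : ℝ} (hρ : 0 < ρ) (hc : c ≠ 0)
    (hf : ∀ z ∈ ball (0 : ℂ) (2 * ρ), HasDerivAt f (f' z) z)
    (hb : ∀ z ∈ ball (0 : ℂ) (2 * ρ), ‖f' z - c‖ ≤ ‖c‖ / 8) (h0 : ‖f 0‖ ≤ ρ * ‖c‖ / 64) :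
    ∃ z₁ : ℂ, ‖z₁‖ ≤ ρ / 8 ∧ f z₁ = 0 ∧ ∀ z ∈ ball (0 : ℂ) (2 * ρ), f z = 0 → z = z₁ := by
  have hc0 : 0 < ‖c‖ := norm_pos_iff.2 hc
  -- mean value
  have hmv : ∀ z ∈ ball (0 : ℂ) (2 * ρ), ∀ w ∈ ball (0 : ℂ) (2 * ρ),
      ‖(f z - f w) - c * (z - w)‖ ≤ ‖c‖ / 8 * ‖z - w‖ := by
    intro z hz w hw
    have h1 := Convex.norm_image_sub_le_of_norm_hasDerivWithin_le (𝕜 := ℂ)
      (f := fun z => f z - c * z) (f' := fun z => f' z - c) (s := ball (0 : ℂ) (2 * ρ))
      (C := ‖c‖ / 8) (x := w) (y := z)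
      (fun x hx => by
        have h2 := (hf x hx).sub ((hasDerivAt_id x).const_mul c)
        simp only [id, mul_one] at h2
        exact h2.hasDerivWithinAt) hb (convex_ball _ _) hw hz
    calc ‖(f z - f w) - c * (z - w)‖ = ‖(f z - c * z) - (f w - c * w)‖ := by congr 1; ring
      _ ≤ _ := h1
  have hmv' : ∀ z ∈ ball (0 : ℂ) (2 * ρ), ∀ w ∈ ball (0 : ℂ) (2 * ρ),
      ‖(z - f z / c) - (w - f w / c)‖ ≤ 1 / 8 * ‖z - w‖ := by
    intro z hz w hw
    have h1 := hmv z hz w hw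
    have h2 : (z - f z / c) - (w - f w / c) = -(((f z - f w) - c * (z - w)) / c) := by
      field_simp
      ring
    rw [h2, norm_neg, norm_div, div_le_iff₀ hc0]
    linarith
  have hsub : closedBall (0 : ℂ) (ρ / 8) ⊆ ball (0 : ℂ) (2 * ρ) := by
    intro z hz
    rw [mem_closedBall_zero_iff] at hz
    rw [mem_ball_zero_iff]
    linarith
  have h00 : (0 : ℂ) ∈ ball (0 : ℂ) (2 * ρ) := by
    rw [mem_ball_zero_iff, norm_zero]
    linarith
  have hmaps : Set.MapsTo (fun z => z - f z / c) (closedBall (0 : ℂ) (ρ / 8))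
      (closedBall (0 : ℂ) (ρ / 8)) := by
    intro z hz
    have h1 := hmv' z (hsub hz) 0 h00
    rw [mem_closedBall_zero_iff] at hz ⊢
    have h2 : ‖f 0 / c‖ ≤ ρ / 64 := by
      rw [norm_div, div_le_iff₀ hc0]
      linarith
    have h3 : ‖z - f z / c‖ ≤ ‖(z - f z / c) - (0 - f 0 / c)‖ + ‖f 0 / c‖ := by
      calc ‖z - f z / c‖ = ‖((z - f z / c) - (0 - f 0 / c)) + -(f 0 / c)‖ := by congr 1; ring
        _ ≤ _ := (norm_add_le _ _).trans (by rw [norm_neg])
    rw [sub_zero] at h1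
    beta_reduce
    linarith
  have hcon : ContractingWith (1 / 8) (hmaps.restrict (fun z => z - f z / c) _ _) := by
    refine ⟨by norm_num, LipschitzWith.of_dist_le_mul fun z w => ?_⟩
    have h1 := hmv' z.1 (hsub z.2) w.1 (hsub w.2)
    rw [Subtype.dist_eq, Subtype.dist_eq, dist_eq_norm, dist_eq_norm]
    simpa using h1
  obtain ⟨z₁, hz₁, hfix, -⟩ := hcon.exists_fixedPoint' (isClosed_closedBall.isComplete) hmaps
    (x := 0) (by rw [mem_closedBall_zero_iff, norm_zero]; positivity) (edist_ne_top _ _)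
  have hfz : f z₁ = 0 := by
    have h1 : z₁ - f z₁ / c = z₁ := hfix
    have h2 : f z₁ / c = 0 := by linear_combination -h1
    exact (div_eq_zero_iff.1 h2).resolve_right hc
  refine ⟨z₁, mem_closedBall_zero_iff.1 hz₁, hfz, fun z hz hfz' => ?_⟩
  have h1 := hmv' z hz z₁ (hsub hz₁)
  rw [hfz, hfz', zero_div, sub_zero, sub_zero] at h1
  have h2 : ‖z - z₁‖ = 0 := by
    have := norm_nonneg (z - z₁)
    linarith
  exact sub_eq_zero.1 (norm_eq_zero.1 h2)

theorem one_hit {D : Set (Vd (k + 1))} {s : Vd (k + 1) → ℂ} {p a : Vd (k + 1)} (hs : AnalyticAt ℂ s p) (hD : ∀ᶠ y in 𝓝 p, (y ∈ D ↔ s y = 0)) (hp : p ∈ D) (hc : fderiv ℂ s p a ≠ 0) :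
    ∃ ρ₀ : ℝ, 0 < ρ₀ ∧ ∀ ρ : ℝ, 0 < ρ → ρ ≤ ρ₀ → ∃ ε : ℝ, 0 < ε ∧ ∀ γ : ℂ → Vd (k + 1), DifferentiableOn ℂ γ (ball 0 (4 * ρ)) → (∀ z ∈ ball (0 : ℂ) (4 * ρ), ‖γ z - (p + z • a)‖ < ε) →
      ∃ z₁ : ℂ, ‖z₁‖ ≤ ρ / 8 ∧ γ z₁ ∈ D ∧ ∀ z ∈ ball (0 : ℂ) (2 * ρ), γ z ∈ D → z = z₁ := by
  obtain ⟨c, hcdef⟩ : ∃ c, c = fderiv ℂ s p a := ⟨_, rfl⟩
  obtain ⟨L, hL⟩ : ∃ L, L = fderiv ℂ s p := ⟨_, rfl⟩
  rw [← hcdef] at hc
  have hc0 : 0 < ‖c‖ := norm_pos_iff.2 hc
  obtain ⟨η, hη⟩ : ∃ η, η = min 1 (‖c‖ / (16 * (‖a‖ + 1))) := ⟨_, rfl⟩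
  have hη0 : 0 < η := by rw [hη]; positivity
  have hη1 : η ≤ 1 := hη ▸ min_le_left _ _
  have hηa : η * ‖a‖ ≤ ‖c‖ / 16 := by
    have h1 : η ≤ ‖c‖ / (16 * (‖a‖ + 1)) := hη ▸ min_le_right _ _
    have h2 : η * (‖a‖ + 1) ≤ ‖c‖ / 16 := by
      calc η * (‖a‖ + 1) ≤ ‖c‖ / (16 * (‖a‖ + 1)) * (‖a‖ + 1) := by gcongr
        _ = ‖c‖ / 16 := by
          have : ‖a‖ + 1 ≠ 0 := by positivity
          field_simp
    nlinarith [norm_nonneg a]
  have hcont : ∀ᶠ y in 𝓝 p, ‖fderiv ℂ s y - L‖ < η := by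
    have h1 : ContinuousAt (fderiv ℂ s) p := hs.fderiv.continuousAt
    have h2 := (Metric.continuousAt_iff.1 h1) η hη0
    obtain ⟨δ, hδ, h3⟩ := h2
    filter_upwards [Metric.ball_mem_nhds p hδ] with y hy
    have h4 := h3 hy
    rwa [dist_eq_norm, ← hL] at h4
  obtain ⟨R, hR, hball⟩ := Metric.eventually_nhds_iff_ball.1
    ((hs.eventually_analyticAt.and hD).and hcont)
  have hsp : s p = 0 := (hball p (mem_ball_self hR)).1.2.1 hp
  have hfd : ∀ y ∈ ball p R, ‖fderiv ℂ s y‖ ≤ ‖L‖ + 1 := by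
    intro y hy
    have h1 := (hball y hy).2
    calc ‖fderiv ℂ s y‖ = ‖(fderiv ℂ s y - L) + L‖ := by rw [sub_add_cancel]
      _ ≤ ‖fderiv ℂ s y - L‖ + ‖L‖ := norm_add_le _ _
      _ ≤ ‖L‖ + 1 := by linarith
  have hlip : ∀ y ∈ ball p R, ‖s y‖ ≤ (‖L‖ + 1) * ‖y - p‖ := by
    intro y hy
    have h1 := (convex_ball p R).norm_image_sub_le_of_norm_fderiv_le (𝕜 := ℂ) (f := s)
      (C := ‖L‖ + 1) (fun x hx => (hball x hx).1.1.differentiableAt) hfd (mem_ball_self hR) hy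
    rwa [hsp, sub_zero] at h1
  refine ⟨R / (8 * (‖a‖ + 1)), by positivity, fun ρ hρ hρR => ?_⟩
  have hρa : 4 * ρ * ‖a‖ ≤ R / 2 := by
    have h1 : ρ * (8 * (‖a‖ + 1)) ≤ R := by
      rwa [le_div_iff₀ (by positivity)] at hρR
    nlinarith [norm_nonneg a]
  have hL0 : 0 < ‖L‖ + 1 := by positivity
  obtain ⟨ε, hε⟩ : ∃ ε, ε = min (R / 2) (ρ * ‖c‖ / (64 * (‖L‖ + 1))) := ⟨_, rfl⟩
  have hε0 : 0 < ε := by rw [hε]; positivity
  have hεR : ε ≤ R / 2 := hε ▸ min_le_left _ _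
  have hεc : (‖L‖ + 1) * ε ≤ ρ * ‖c‖ / 64 := by
    have h1 : ε ≤ ρ * ‖c‖ / (64 * (‖L‖ + 1)) := hε ▸ min_le_right _ _
    calc (‖L‖ + 1) * ε ≤ (‖L‖ + 1) * (ρ * ‖c‖ / (64 * (‖L‖ + 1))) := by gcongr
      _ = ρ * ‖c‖ / 64 := by field_simp
  refine ⟨ε, hε0, fun γ hγ hγε => ?_⟩
  have hin : ∀ z ∈ ball (0 : ℂ) (4 * ρ), γ z ∈ ball p R := by
    intro z hz
    have h1 := hγε z hz
    rw [mem_ball_zero_iff] at hz
    rw [mem_ball, dist_eq_norm]
    have h2 : ‖z • a‖ ≤ 4 * ρ * ‖a‖ := by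
      rw [norm_smul]
      gcongr
    calc ‖γ z - p‖ = ‖(γ z - (p + z • a)) + z • a‖ := by congr 1; abel
      _ ≤ ‖γ z - (p + z • a)‖ + ‖z • a‖ := norm_add_le _ _
      _ < R := by linarith
  have h24 : ball (0 : ℂ) (2 * ρ) ⊆ ball (0 : ℂ) (4 * ρ) := ball_subset_ball (by linarith)
  have hγd : ∀ z ∈ ball (0 : ℂ) (2 * ρ), HasDerivAt γ (deriv γ z) z := fun z hz =>
    (hγ.differentiableAt (isOpen_ball.mem_nhds (h24 hz))).hasDerivAt
  have hder : ∀ z ∈ ball (0 : ℂ) (2 * ρ), ‖deriv γ z - a‖ ≤ ε / ρ := by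
    intro z hz
    have hsub : closedBall z ρ ⊆ ball (0 : ℂ) (4 * ρ) := by
      intro w hw
      rw [mem_ball_zero_iff] at hz ⊢
      rw [mem_closedBall, dist_eq_norm] at hw
      calc ‖w‖ = ‖(w - z) + z‖ := by rw [sub_add_cancel]
        _ ≤ ‖w - z‖ + ‖z‖ := norm_add_le _ _
        _ < 4 * ρ := by linarith
    have hdδ : DifferentiableOn ℂ (fun w => γ w - (p + w • a)) (ball 0 (4 * ρ)) := by
      refine hγ.sub ?_
      exact ((differentiable_const p).add (differentiable_id.smul_const a)).differentiableOn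
    have h1 := Complex.norm_deriv_le_of_forall_mem_sphere_norm_le (F := Vd (k + 1))
      (f := fun w => γ w - (p + w • a)) (c := z) (R := ρ) (C := ε) hρ
      (hdδ.diffContOnCl_ball hsub) (fun w hw => (hγε w (hsub (sphere_subset_closedBall hw))).le)
    have h2 : HasDerivAt (fun w => γ w - (p + w • a)) (deriv γ z - a) z := by
      have h3 : HasDerivAt (fun w : ℂ => p + w • a) a z := by
        have h4 := ((hasDerivAt_id z).smul_const a).const_add p
        simpa using h4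
      exact (hγd z hz).sub h3
    rwa [h2.deriv] at h1
  obtain ⟨z₁, hz₁, h1, h2⟩ := one_zero (f := fun z => s (γ z))
    (f' := fun z => fderiv ℂ s (γ z) (deriv γ z)) (c := c) hρ hc
    (fun z hz => by
      have h1 := (hball (γ z) (hin z (h24 hz))).1.1.differentiableAt.hasFDerivAt
      exact h1.comp_hasDerivAt z (hγd z hz))
    (fun z hz => by
      have h1 := (hball (γ z) (hin z (h24 hz))).2
      have h2 := hfd (γ z) (hin z (h24 hz))
      have h3 := hder z hz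
      have h4 : fderiv ℂ s (γ z) (deriv γ z) - c =
          (fderiv ℂ s (γ z) - L) a + fderiv ℂ s (γ z) (deriv γ z - a) := by
        rw [hcdef, ← hL, map_sub]
        show _ = (fderiv ℂ s (γ z) a - L a) + _
        ring
      have h5 : ‖(fderiv ℂ s (γ z) - L) a‖ ≤ ‖c‖ / 16 :=
        ((fderiv ℂ s (γ z) - L).le_opNorm a).trans
          ((mul_le_mul_of_nonneg_right h1.le (norm_nonneg a)).trans hηa)
      have h6 : ‖fderiv ℂ s (γ z) (deriv γ z - a)‖ ≤ ‖c‖ / 64 := by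
        refine ((fderiv ℂ s (γ z)).le_opNorm _).trans ?_
        calc ‖fderiv ℂ s (γ z)‖ * ‖deriv γ z - a‖ ≤ (‖L‖ + 1) * (ε / ρ) := by gcongr
          _ = (‖L‖ + 1) * ε / ρ := by ring
          _ ≤ ρ * ‖c‖ / 64 / ρ := by gcongr
          _ = ‖c‖ / 64 := by field_simp
      rw [h4]
      refine (norm_add_le _ _).trans ?_
      linarith)
    (by
      have h00 : (0 : ℂ) ∈ ball (0 : ℂ) (4 * ρ) := by
        rw [mem_ball_zero_iff, norm_zero]
        linarith
      have h1 := hγε 0 h00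
      rw [zero_smul, add_zero] at h1
      refine (hlip (γ 0) (hin 0 h00)).trans ?_
      exact (mul_le_mul_of_nonneg_left h1.le hL0.le).trans hεc)
  refine ⟨z₁, hz₁, ?_, fun z hz hzD => h2 z hz ?_⟩
  · have h3 : z₁ ∈ ball (0 : ℂ) (4 * ρ) := by
      rw [mem_ball_zero_iff]
      linarith
    exact ((hball (γ z₁) (hin z₁ h3)).1.2).2 h1
  · exact ((hball (γ z) (hin z (h24 hz))).1.2).1 hzD

end Pool.Agent.PX

end

section

/-!
# TG Rm: Riemann's extension theorem

`riemann_ext`: `h` analytic at `y₀`, not locally zero, `f` analytic and bounded off `{h = 0}` near `y₀`: `f` extends holomorphically to `y₀` (values in `EN N`).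
Proof: choose `e` with `h (y₀ + t e) ≠ 0` on a circle; the extension is the mean value of `f (y + t e)` on the circle (in one variable the
singularities are removable).
-/

set_option autoImplicit false

open Topology Filter Metric

namespace Pool.Agent.TG

variable {N : ℕ} {E : Type} [NormedAddCommGroup E] [NormedSpace ℂ E]

theorem rem_disc {U : Set ℂ} (hU : IsOpen U) (hUc : IsPreconnected U) {h f : ℂ → ℂ} (hh : ∀ z ∈ U, AnalyticAt ℂ h z) {z₁ : ℂ} (hz₁ : z₁ ∈ U)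
    (hne : h z₁ ≠ 0) (hf : ∀ z ∈ U, h z ≠ 0 → DifferentiableAt ℂ f z) {M : ℝ} (hM : ∀ z ∈ U, h z ≠ 0 → ‖f z‖ ≤ M) :
    ∃ g : ℂ → ℂ, DifferentiableOn ℂ g U ∧ ∀ z ∈ U, h z ≠ 0 → g z = f z := by
  classical
  refine ⟨fun z => if h z = 0 then limUnder (𝓝[≠] z) f else f z, fun z₀ hz₀ => ?_, fun z hz h0 => by simp [h0]⟩
  refine DifferentiableAt.differentiableWithinAt ?_
  by_cases h0 : h z₀ = 0
  · have hiso : ∀ᶠ z in 𝓝[≠] z₀, h z ≠ 0 := by
      rcases (hh z₀ hz₀).eventually_eq_zero_or_eventually_ne_zero with h1 | h1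
      · exact absurd (AnalyticOnNhd.eqOn_zero_of_preconnected_of_eventuallyEq_zero (fun z hz => hh z hz) hUc hz₀ h1 hz₁) hne
      · exact h1
    rw [eventually_nhdsWithin_iff] at hiso
    obtain ⟨r, hr, hb⟩ := Metric.eventually_nhds_iff_ball.mp (hiso.and (hU.mem_nhds hz₀))
    have hd : DifferentiableOn ℂ f (ball z₀ r \ {z₀}) := fun z hz =>
      (hf z (hb z hz.1).2 ((hb z hz.1).1 hz.2)).differentiableWithinAt
    have hbd : BddAbove (norm ∘ f '' (ball z₀ r \ {z₀})) := by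
      refine ⟨M, ?_⟩
      rintro _ ⟨z, hz, rfl⟩
      exact hM z (hb z hz.1).2 ((hb z hz.1).1 hz.2)
    have h2 := Complex.differentiableOn_update_limUnder_of_bddAbove (ball_mem_nhds z₀ hr) hd hbd
    have h3 := h2.differentiableAt (ball_mem_nhds z₀ hr)
    refine h3.congr_of_eventuallyEq ?_
    filter_upwards [ball_mem_nhds z₀ hr] with z hz
    by_cases e : z = z₀
    · subst e
      simp [h0]
    · rw [Function.update_of_ne e]
      simp [(hb z hz).1 e]
  · refine (hf z₀ hz₀ h0).congr_of_eventuallyEq ?_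
    filter_upwards [(hh z₀ hz₀).continuousAt.eventually_ne h0] with z hz
    simp [hz]

end Pool.Agent.TG

end
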