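import Pool.Agent.H94.PX2.M02
import Pool.Agent.H94.PX2.M07
import Pool.Agent.H94.PX2.M11
import Pool.Agent.H94.PX2.M21

/-! The parts of this file: H13.CV.Val, H62.EF.Defs_1, TG.Defs_2, HE.Defs_1. -/

section

/-!
# CV Val: the value of a function at a place

`exists_value`: let `0 ≤ ord f` and suppose that `0 < ord (f - c)` for no `c : ℂ`.  So `ord (f - c) = 0` for all `c` (it is `≥ 0`), in particular `f` is not a constant (`ord 0 = ⊤`), so `f` is
transcendental (`transcendental_of_not_const`).  Every non-zero polynomial in `f` is a constant times a product of factors `f - c` (`IsAlgClosed.splits`,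
`Polynomial.Splits.aeval_eq_prod_aroots` or induction on the degree with a root), so it has order `0`; so all non-zero elements of `L = ℂ(f)` have order `0`
(`IntermediateField.mem_adjoin_simple_iff`).  `K` is finite over `L` (`hK.fin`), so the uniformizer `t` (`oz E t = 1`) is algebraic over `L`; `t⁻¹` is also algebraic over `L`:
there is a monic polynomial `p` over `L` with `p (t⁻¹) = 0`, of degree `n > 0`.  `(t⁻¹) ^ n = - ∑ i < n, p_i (t⁻¹) ^ i` has order `- n`, but the right side has order `≥ - (n - 1)`: contradiction.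

The other lemmas follow from `res_spec` and `res_eq` (uniqueness: `ord (c - c') > 0` with `c ≠ c'` contradicts `ord_const`).
-/

set_option autoImplicit false

open Pool.Agent.H23.Fano (PrimeDivisorOver Form regularForms)

noncomputable section

namespace Pool.Agent.H13.CV

variable {K : Type} [Field K] [Algebra ℂ K] {E E' : Place K} {f g : K}

theorem exists_value (hK : CurveField K) (hf : 0 ≤ E.ord f) : ∃ c : ℂ, 0 < E.ord (f - algebraMap ℂ K c) := by
  by_contra hc
  push Not at hc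
  have h0 : ∀ c : ℂ, E.ord (f - algebraMap ℂ K c) = 0 := fun c =>
    le_antisymm (hc c) (nonneg_sub hf (const_nonneg E c))
  have hne : ∀ c : ℂ, f ≠ algebraMap ℂ K c := by
    intro c hfc
    have h1 := h0 c
    rw [hfc, sub_self, E.ord.map_zero] at h1
    exact WithTop.top_ne_zero h1
  have htr : Transcendental ℂ f := transcendental_of_not_const hne
  -- polynomials in `f` have order `0`
  have hA : ∀ (n : ℕ) (q : Polynomial ℂ), q ≠ 0 → q.natDegree = n → E.ord (Polynomial.aeval f q) = 0 := by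
    intro n
    induction n with
    | zero =>
      intro q hq hn
      rw [Polynomial.eq_C_of_natDegree_eq_zero hn, Polynomial.aeval_C]
      refine ord_const E ?_
      intro h2
      apply hq
      rw [Polynomial.eq_C_of_natDegree_eq_zero hn, h2, Polynomial.C_0]
    | succ n ih =>
      intro q hq hn
      obtain ⟨a, ha⟩ := IsAlgClosed.exists_root q (by
        intro h2
        have h3 : q.natDegree = 0 := Polynomial.natDegree_eq_zero_iff_degree_le_zero.2 (le_of_eq h2)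
        omega)
      obtain ⟨q', hq'⟩ := Polynomial.dvd_iff_isRoot.2 ha
      have hq0 : q' ≠ 0 := by
        rintro rfl
        exact hq (by rw [hq', mul_zero])
      have hdeg : q'.natDegree = n := by
        have h3 := congrArg Polynomial.natDegree hq'
        rw [Polynomial.natDegree_mul (Polynomial.X_sub_C_ne_zero a) hq0, Polynomial.natDegree_X_sub_C] at h3
        omega
      rw [hq', map_mul, E.ord.map_mul, ih q' hq0 hdeg, map_sub, Polynomial.aeval_X, Polynomial.aeval_C, h0 a,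
        add_zero]
  -- elements of `ℂ(f)`
  have hB : ∀ l : K, l ∈ IntermediateField.adjoin ℂ {f} → l ≠ 0 → E.ord l = 0 := by
    intro l hl hl0
    obtain ⟨r, s, hrs⟩ := (IntermediateField.mem_adjoin_simple_iff ℂ l).1 hl
    have hs : Polynomial.aeval f s ≠ 0 := by
      intro h2
      rw [h2, div_zero] at hrs
      exact hl0 hrs
    have hr : Polynomial.aeval f r ≠ 0 := by
      intro h2
      rw [h2, zero_div] at hrs
      exact hl0 hrs
    have hs' : s ≠ 0 := by
      rintro rfl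
      exact hs (map_zero _)
    have hr' : r ≠ 0 := by
      rintro rfl
      exact hr (map_zero _)
    have h3 : l * Polynomial.aeval f s = Polynomial.aeval f r := by
      rw [hrs, div_mul_cancel₀ _ hs]
    have h4 := congrArg E.ord h3
    rw [E.ord.map_mul, hA _ s hs' rfl, hA _ r hr' rfl, add_zero] at h4
    exact h4
  have := hK.fin f htr
  obtain ⟨t, ht0, ht⟩ := exists_uni E
  have hu0 : t⁻¹ ≠ 0 := inv_ne_zero ht0
  have hint : IsIntegral (IntermediateField.adjoin ℂ {f}) t⁻¹ := Algebra.IsIntegral.isIntegral t⁻¹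
  obtain ⟨p, hp, hpe⟩ := hint
  have hoz : ∀ n : ℕ, E.ord (t⁻¹ ^ n) = ((-(n : ℤ) : ℤ) : WithTop ℤ) := by
    intro n
    rw [← coe_oz E (pow_ne_zero n hu0), oz_pow, oz_inv, ht]
    congr 1
    ring
  rw [Polynomial.eval₂_eq_sum_range, Finset.sum_range_succ, hp.coeff_natDegree, map_one, one_mul] at hpe
  have h5 : t⁻¹ ^ p.natDegree = -∑ i ∈ Finset.range p.natDegree,
      (algebraMap (IntermediateField.adjoin ℂ {f}) K) (p.coeff i) * t⁻¹ ^ i := by
    rw [eq_neg_iff_add_eq_zero, add_comm]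
    exact hpe
  have h6 : ((-((p.natDegree : ℤ) - 1) : ℤ) : WithTop ℤ) ≤ E.ord (∑ i ∈ Finset.range p.natDegree,
      (algebraMap (IntermediateField.adjoin ℂ {f}) K) (p.coeff i) * t⁻¹ ^ i) := by
    refine E.ord.map_le_sum fun i hi => ?_
    rw [Finset.mem_range] at hi
    by_cases hz : (algebraMap (IntermediateField.adjoin ℂ {f}) K) (p.coeff i) = 0
    · rw [hz, zero_mul, E.ord.map_zero]
      exact le_top
    · have h7 : E.ord ((algebraMap (IntermediateField.adjoin ℂ {f}) K) (p.coeff i)) = 0 :=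
        hB _ (p.coeff i).2 hz
      rw [E.ord.map_mul, h7, zero_add, hoz]
      rw [WithTop.coe_le_coe]
      omega
  have h8 := hoz p.natDegree
  rw [h5, E.ord.map_neg] at h8
  rw [h8, WithTop.coe_le_coe] at h6
  omega

theorem value_unique {c c' : ℂ} (h : 0 < E.ord (f - algebraMap ℂ K c)) (h' : 0 < E.ord (f - algebraMap ℂ K c')) : c = c' := by
  by_contra hcc
  have h1 := pos_sub h' h
  have h2 : f - algebraMap ℂ K c' - (f - algebraMap ℂ K c) = algebraMap ℂ K (c - c') := by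
    rw [map_sub]
    ring
  rw [h2, ord_const E (sub_ne_zero.2 hcc)] at h1
  exact lt_irrefl _ h1

theorem res_eq {c : ℂ} (h : 0 < E.ord (f - algebraMap ℂ K c)) : res E f = c := by
  classical
  have h1 : ∃ c : ℂ, 0 < E.ord (f - algebraMap ℂ K c) := ⟨c, h⟩
  unfold res
  rw [dif_pos h1]
  exact value_unique h1.choose_spec h

theorem res_spec (hK : CurveField K) (hf : 0 ≤ E.ord f) : 0 < E.ord (f - algebraMap ℂ K (res E f)) := by
  obtain ⟨c, hc⟩ := exists_value hK hf
  rw [res_eq hc]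
  exact hc

theorem res_const (E : Place K) (c : ℂ) : res E (algebraMap ℂ K c) = c := by
  refine res_eq ?_
  rw [sub_self, E.ord.map_zero]
  exact WithTop.coe_lt_top (0 : ℤ)

theorem res_zero (E : Place K) : res E (0 : K) = 0 := by
  have h := res_const E 0
  rwa [map_zero] at h

theorem res_add (hK : CurveField K) (hf : 0 ≤ E.ord f) (hg : 0 ≤ E.ord g) : res E (f + g) = res E f + res E g := by
  refine res_eq ?_
  have h : f + g - algebraMap ℂ K (res E f + res E g) =
      (f - algebraMap ℂ K (res E f)) + (g - algebraMap ℂ K (res E g)) := by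
    rw [map_add]
    ring
  rw [h]
  exact pos_add (res_spec hK hf) (res_spec hK hg)

theorem res_mul (hK : CurveField K) (hf : 0 ≤ E.ord f) (hg : 0 ≤ E.ord g) : res E (f * g) = res E f * res E g := by
  refine res_eq ?_
  have h : f * g - algebraMap ℂ K (res E f * res E g) =
      (f - algebraMap ℂ K (res E f)) * g + (g - algebraMap ℂ K (res E g)) * algebraMap ℂ K (res E f) := by
    rw [map_mul]
    ring
  rw [h]
  exact pos_add (pos_mul (res_spec hK hf) hg) (pos_mul (res_spec hK hg) (const_nonneg E _))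

theorem res_smul (hK : CurveField K) (c : ℂ) (hf : 0 ≤ E.ord f) : res E (c • f) = c * res E f := by
  rw [Algebra.smul_def, res_mul hK (const_nonneg E c) hf, res_const]

theorem res_sum (hK : CurveField K) {ι : Type*} {s : Finset ι} {F : ι → K} (h : ∀ i ∈ s, 0 ≤ E.ord (F i)) :
    res E (∑ i ∈ s, F i) = ∑ i ∈ s, res E (F i) := by
  classical
  induction s using Finset.induction_on with
  | empty => rw [Finset.sum_empty, Finset.sum_empty, res_zero]
  | insert a s ha ih =>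
    rw [Finset.sum_insert ha, Finset.sum_insert ha,
      res_add hK (h a (Finset.mem_insert_self a s)) (nonneg_sum fun i hi => h i (Finset.mem_insert_of_mem hi)),
      ih fun i hi => h i (Finset.mem_insert_of_mem hi)]

theorem res_eq_zero_iff (hK : CurveField K) (hf : 0 ≤ E.ord f) : res E f = 0 ↔ 0 < E.ord f := by
  constructor
  · intro h
    have h1 := res_spec hK hf
    rwa [h, map_zero, sub_zero] at h1
  · intro h
    refine res_eq ?_
    rwa [map_zero, sub_zero]

end Pool.Agent.H13.CV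

end
end

section

/-!
# EF Defs: surfaces with a holomorphic map to an elliptic curve

`X` is the cone (without `0`) of a smooth projective surface, in `EN N = ℂ^(N+1)` with the Euclidean norm.  The map to `ℂ / Λ` is
given by a function `u : EN N → ℂ` which is holomorphic modulo `Λ`.  `pr x` is the orthogonal projection to the line of `x`, a
matrix: in this way the projective space is a compact subset of a Euclidean space.
-/

set_option autoImplicit false

open Topology Filter Metric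

namespace Pool.Agent.H62.EF

open Pool.Agent.H36.BP (EN fs wd)
open Pool.Agent.H14.PP (IsCone Chart Form Tan aCoef)

variable {N : ℕ}

/-- the entire curves (lifts to the cone) with `u (F z) = z` modulo `Λ` -/
def Sec (X : Set (EN N)) (Λ : AddSubgroup ℂ) (u : EN N → ℂ) : Set (ℂ → EN N) :=
  {F | Differentiable ℂ F ∧ (∀ z, F z ∈ X) ∧ ∀ z, u (F z) - z ∈ Λ}

/-- `X` is smooth: there are charts -/
def Charts (X : Set (EN N)) : Prop := ∀ x ∈ X, ∃ χ : Chart X, x ∈ χ.U ∧ χ.q x = 0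

/-- the determinant -/
def det2 (a b : ℂ × ℂ) : ℂ := a.1 * b.2 - a.2 * b.1

/-- a vector in the kernel of the derivative of `υ` at `p` -/
noncomputable def grd (υ : ℂ × ℂ → ℂ) (p : ℂ × ℂ) : ℂ × ℂ := (-(fderiv ℂ υ p (0, 1)), fderiv ℂ υ p (1, 0))

/-- the function which is compared with holomorphic functions -/
noncomputable def rho {Y : Type} [MetricSpace Y] (M : ℕ) (T : Y → ℝ) (f g : ℂ → Y) (z : ℂ) : ℝ := dist (f z) (g z) ^ M * T (f z)

end Pool.Agent.H62.EF

end

section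

/-!
# TG Defs: projective manifolds of dimension `k + 2` over complex tori of dimension `k + 1`, arbitrary singular fibres

`X` is the cone (without `0`) over a projective manifold of dimension `k + 2`, `u` a holomorphic map to `ℂ^(k+1) / Λ` (a function `u : EN N → Vd (k+1)`
which is holomorphic modulo `Λ`).  `D ⊆ ℂ^(k+1)` is the set of the bad values (closed, `Λ`-invariant, contained in hypersurfaces), `B ⊆ D` the set of the
very bad values, which almost every line avoids.  Over `D \ B` the map `u` is `(x^a y^b, s)` in suitable coordinates.  Charts are `AD.Chart (k + 2) X`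
(polydisc of radius `2` for the sup norm); the coordinate `0` is the coordinate along the fibres, the others (`tl p`) those of the base.
All norms and balls in `Vd (k+1)` are for the sup norm.
-/

set_option autoImplicit false

open Topology Filter Metric

namespace Pool.Agent.TG

open Pool.Agent.H36.BP (EN fs wd)
open Pool.Agent.H14.PP (IsCone CurveAt Tan)
open Pool.Agent.H62.EF (MN pr)
open Pool.Agent.AD (Vd Chart Charts IsGerm)

variable {N k : ℕ}

/-- `u` is a holomorphic map from the variety with the cone `X` to `ℂ^(k+1) / Λ` -/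
structure TMap (X : Set (EN N)) (Λ : AddSubgroup (Vd (k + 1))) (u : EN N → Vd (k + 1)) : Prop where
  smul : ∀ x ∈ X, ∀ c : ℂ, c ≠ 0 → u (c • x) - u x ∈ Λ
  loc : ∀ x ∈ X, ∃ v : EN N → Vd (k + 1), AnalyticAt ℂ v x ∧ ∀ᶠ y in 𝓝 x, y ∈ X → u y - v y ∈ Λ

/-- the coordinates `1, …, k + 1` -/
def tl (p : Vd (k + 2)) : Vd (k + 1) := fun i => p i.succ

/-- the model of the bad fibres: `(x, y, s) ↦ (x ^ a * y ^ b, s)` -/
def nm (a b : ℕ) (p : Vd (k + 2)) : Vd (k + 1) := Fin.cons (α := fun _ => ℂ) (p 0 ^ a * p 1 ^ b) fun i : Fin k => p i.succ.succ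

/-- `u` is a submersion at `x`, with value `y`: in suitable coordinates `u` is `y + tl p` -/
def IsStr (X : Set (EN N)) (Λ : AddSubgroup (Vd (k + 1))) (u : EN N → Vd (k + 1)) (x : EN N) (y : Vd (k + 1)) : Prop :=
  ∃ (σ : Vd (k + 2) → EN N) (τ : EN N → Vd (k + 2)), IsGerm X σ τ ∧ σ 0 = x ∧ ∀ᶠ p in 𝓝 (0 : Vd (k + 2)), u (σ p) - (y + tl p) ∈ Λ

/-- in suitable coordinates at `x` the map `u` is `κ (x ^ a * y ^ b, s)` -/
def IsNC (X : Set (EN N)) (Λ : AddSubgroup (Vd (k + 1))) (u : EN N → Vd (k + 1)) (κ : Vd (k + 1) → Vd (k + 1)) (x : EN N) : Prop :=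
  ∃ (σ : Vd (k + 2) → EN N) (τ : EN N → Vd (k + 2)) (a b : ℕ), IsGerm X σ τ ∧ σ 0 = x ∧ 0 < a + b ∧
    ∀ᶠ p in 𝓝 (0 : Vd (k + 2)), u (σ p) - κ (nm a b p) ∈ Λ

/-- `κ` is a system of local coordinates at `y` in which `D` is `{q 0 = 0}` -/
structure IsCoord (D : Set (Vd (k + 1))) (κ : Vd (k + 1) → Vd (k + 1)) (y : Vd (k + 1)) : Prop where
  an : AnalyticAt ℂ κ 0
  zero : κ 0 = y
  inj : Function.Injective (fderiv ℂ κ 0)
  mem_iff : ∀ᶠ q in 𝓝 (0 : Vd (k + 1)), (κ q ∈ D ↔ q 0 = 0)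

/-- the geometric data -/
structure Geo (X : Set (EN N)) (Λ : AddSubgroup (Vd (k + 1))) (u : EN N → Vd (k + 1)) (D B : Set (Vd (k + 1))) : Prop where
  cone : IsCone X
  charts : Charts (k + 2) X
  tor : TMap X Λ u
  lat : Lat Λ
  D_closed : IsClosed D
  D_inv : ∀ y ∈ D, ∀ l ∈ Λ, y + l ∈ D
  D_thin : ∀ y : Vd (k + 1), ∃ h : Vd (k + 1) → ℂ, AnalyticAt ℂ h y ∧ (∀ᶠ z in 𝓝 y, z ∈ D → h z = 0) ∧ ¬ ∀ᶠ z in 𝓝 y, h z = 0
  B_lines : ∀ e : Vd (k + 1), e ≠ 0 → ∀ᵐ y : Vd (k + 1), ∀ z : ℂ, y + z • e ∉ B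
  sub : ∀ y ∉ D, ∀ x ∈ X, u x - y ∈ Λ → IsStr X Λ u x y
  fib : ∀ y ∉ D, ∀ F : ℂ → EN N, Differentiable ℂ F → (∀ z, F z ∈ X) → (∀ z, u (F z) - y ∈ Λ) → (∃ L : ℝ, ∀ z, fs (F z) (deriv F z) ≤ L) →
    ∀ z w, ∃ c : ℂ, F z = c • F w
  nc : ∀ y ∈ D, y ∉ B → ∃ κ : Vd (k + 1) → Vd (k + 1), IsCoord D κ y ∧ ∀ x ∈ X, u x - y ∈ Λ → IsNC X Λ u κ x

/-- a holomorphic `(k+2)`-form on `{(x, y) : u x = y mod Λ}` -/
structure VForm (X : Set (EN N)) (Λ : AddSubgroup (Vd (k + 1))) (u : EN N → Vd (k + 1)) where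
  /-- the form: `toFun y x v` for `u x = y mod Λ` and `k + 2` tangent vectors `v` at `x` -/
  toFun : Vd (k + 1) → EN N → (Fin (k + 2) → EN N) → ℂ
  add_smul : ∀ y, ∀ x ∈ X, u x - y ∈ Λ → ∀ v : Fin (k + 2) → EN N, (∀ i, Tan X x (v i)) → ∀ a : Fin (k + 2) → ℂ,
    toFun y x (fun i => v i + a i • x) = toFun y x v
  det : ∀ y, ∀ x ∈ X, u x - y ∈ Λ → ∀ v : Fin (k + 2) → EN N, (∀ i, Tan X x (v i)) → ∀ A : Matrix (Fin (k + 2)) (Fin (k + 2)) ℂ,
    toFun y x (fun i => ∑ j, A i j • v j) = A.det * toFun y x v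
  scale : ∀ y, ∀ x ∈ X, u x - y ∈ Λ → ∀ v : Fin (k + 2) → EN N, (∀ i, Tan X x (v i)) → ∀ c : ℂ, c ≠ 0 →
    toFun y (c • x) (fun i => c • v i) = toFun y x v
  analytic : ∀ (φ : Vd (k + 2) → EN N) (υ : Vd (k + 2) → Vd (k + 1)) (p : Vd (k + 2)), AnalyticAt ℂ φ p → AnalyticAt ℂ υ p →
    (∀ᶠ q in 𝓝 p, φ q ∈ X ∧ u (φ q) - υ q ∈ Λ) →
    AnalyticAt ℂ (fun q => toFun (υ q) (φ q) fun i => fderiv ℂ φ q (Pi.single i 1)) p

variable {X : Set (EN N)} {Λ : AddSubgroup (Vd (k + 1))} {u : EN N → Vd (k + 1)}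

/-- the coefficient of the form in the chart `χ` with the lift `υ` of `u` -/
noncomputable def tc (α : VForm X Λ u) (χ : Chart (k + 2) X) (υ : Vd (k + 2) → Vd (k + 1)) (p : Vd (k + 2)) : ℂ :=
  α.toFun (υ p) (χ.σ p) fun i => fderiv ℂ χ.σ p (Pi.single i 1)

/-- the form is nowhere locally `0` -/
def Thin (α : VForm X Λ u) : Prop :=
  ∀ (χ : Chart (k + 2) X) (υ : Vd (k + 2) → Vd (k + 1)), ∀ p ∈ ball (0 : Vd (k + 2)) 2, AnalyticAt ℂ υ p →
    (∀ᶠ q in 𝓝 p, u (χ.σ q) - υ q ∈ Λ) → ¬ ∀ᶠ q in 𝓝 p, tc α χ υ q = 0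

/-- the zeros of the form -/
def Zr (α : VForm X Λ u) (y : Vd (k + 1)) (m : MN N) : Prop :=
  ∃ x ∈ X, pr x = m ∧ u x - y ∈ Λ ∧ ∀ v : Fin (k + 2) → EN N, (∀ i, Tan X x (v i)) → α.toFun y x v = 0

/-- the function `c + ρ (tl p)` -/
noncomputable def ms (c : Vd (k + 1)) (ρ : ℝ) (p : Vd (k + 2)) : Vd (k + 1) := c + (ρ : ℂ) • tl p

/-- the chart is straight: `u` is `c + ρ (tl p)` -/
structure Str (Λ : AddSubgroup (Vd (k + 1))) (u : EN N → Vd (k + 1)) (χ : Chart (k + 2) X) (c : Vd (k + 1)) (ρ : ℝ) : Prop where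
  pos : 0 < ρ
  lift : ∀ p ∈ ball (0 : Vd (k + 2)) 2, u (χ.σ p) - ms c ρ p ∈ Λ

/-- `A` is the primitive of the coefficient of the form in the direction of the coordinate `0` -/
structure IsPrim (α : VForm X Λ u) (χ : Chart (k + 2) X) (υ : Vd (k + 2) → Vd (k + 1)) (A : Vd (k + 2) → ℂ) : Prop where
  an : ∀ p ∈ ball (0 : Vd (k + 2)) 2, AnalyticAt ℂ A p
  der : ∀ p ∈ ball (0 : Vd (k + 2)) 2, fderiv ℂ A p (Pi.single 0 1) = tc α χ υ p
  zero : ∀ p ∈ ball (0 : Vd (k + 2)) 2, p 0 = 0 → A p = 0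

/-- the straight chart contains all points near `m₀` of the fibres near `y₀` -/
structure Cap (Λ : AddSubgroup (Vd (k + 1))) (u : EN N → Vd (k + 1)) (χ : Chart (k + 2) X) (c : Vd (k + 1)) (ρ : ℝ) (y₀ : Vd (k + 1)) (m₀ : MN N)
    (r : ℝ) : Prop where
  str : Str Λ u χ c ρ
  cap : ∀ y ∈ closedBall y₀ r, ∀ x ∈ X, u x - y ∈ Λ → dist (pr x) m₀ ≤ r →
    x ∈ χ.U ∧ χ.q x ∈ closedBall (0 : Vd (k + 2)) 1 ∧ ms c ρ (χ.q x) = y

/-- `v` is the integral of `α / dy` from `m` to `m'` along a short path in the fibre over `y` -/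
def IRel (α : VForm X Λ u) (ε : ℝ) (y : Vd (k + 1)) (m m' : MN N) (v : ℂ) : Prop :=
  ∃ (χ : Chart (k + 2) X) (c : Vd (k + 1)) (ρ : ℝ) (A : Vd (k + 2) → ℂ) (p p' : Vd (k + 2)), Str Λ u χ c ρ ∧ IsPrim α χ (ms c ρ) A ∧
    p ∈ ball (0 : Vd (k + 2)) 2 ∧ p' ∈ ball (0 : Vd (k + 2)) 2 ∧ ms c ρ p = y ∧ ms c ρ p' = y ∧ pr (χ.σ p) = m ∧ pr (χ.σ p') = m' ∧
    (∀ θ ∈ Set.Icc (0 : ℝ) 1, dist (pr (χ.σ (p + (θ : ℂ) • (p' - p)))) m ≤ ε) ∧ v = (A p' - A p) / (ρ : ℂ) ^ (k + 1)

open Classical in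
/-- the integral of `α / dy` from `m` to `m'` along a short path in the fibre over `y` -/
noncomputable def II (α : VForm X Λ u) (ε : ℝ) (y : Vd (k + 1)) (m m' : MN N) : ℂ :=
  if h : ∃ v, IRel α ε y m m' v then h.choose else 0

/-- the vector `e` is not tangent to `D` at `p` (no condition if `p ∉ D`) -/
def TransAt (D : Set (Vd (k + 1))) (p e : Vd (k + 1)) : Prop :=
  e ≠ 0 ∧ ∀ κ : Vd (k + 1) → Vd (k + 1), IsCoord D κ p → ∀ q : Vd (k + 1), q 0 = 0 → fderiv ℂ κ 0 q ≠ e

/-- the fibre over `y`, in the projective space -/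
def Fb (X : Set (EN N)) (Λ : AddSubgroup (Vd (k + 1))) (u : EN N → Vd (k + 1)) (y : Vd (k + 1)) : Set (MN N) :=
  {m | ∃ x ∈ X, pr x = m ∧ u x - y ∈ Λ}

/-- the constants of the theory on `Gd D δ` -/
structure Cst (X : Set (EN N)) (Λ : AddSubgroup (Vd (k + 1))) (u : EN N → Vd (k + 1)) (D : Set (Vd (k + 1))) (δ ε ε₀ : ℝ) : Prop where
  δ_pos : 0 < δ
  ε_pos : 0 < ε
  ε₀_pos : 0 < ε₀
  cap : ∀ y₀ ∈ Gd D δ, ∀ m ∈ Fb X Λ u y₀, ∃ (χ : Chart (k + 2) X) (c : Vd (k + 1)) (ρ : ℝ), Cap Λ u χ c ρ y₀ m (3 * ε)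
  rel : ∀ y ∈ Gd D δ, ∀ m ∈ Fb X Λ u y, ∀ m' ∈ Fb X Λ u y, dist m m' ≤ ε₀ → ∀ α : VForm X Λ u, ∃ v, IRel α ε y m m' v

end Pool.Agent.TG

end

section

/-!
# HE Defs: hyperbolically embedded pairs over complex tori

`A = ℂ^(k+1) / Λ` is a complex torus.  `X ⊆ A × ℙ^N` is closed (given by the closed set `X ⊆ ℂ^(k+1) × ℂ^(N+1)`, `Λ`-periodic and conical in the second variable), `F j (y, x)`, `j < q`, are entire functions, homogeneous of degree `d j > 0`
in `x` and quasi-periodic in `y`, of weight `wt (W j)`.  `D` is a closed `Λ`-invariant set which meets all lines in isolated points.  Near the fibres over the points `y ∉ D` the `F j` have pieces such that the entire curves of bounded derivative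
in the fibre on which each piece is `0` or has no zeros are constant (`fib`).  The index `j` is ample if `W j` is positive definite; no section of `X` over a line off `D` which is contained in or disjoint from the zeros of each `F j` is contained in the zeros of all ample `F j` (`sec`).
Curves in the complement of the zeros of the `F j` are given by `h : ℂ → Vd (k+1)` and a lift `w : ℂ → EN N` of the component in `ℙ^N` (`Cw`).
-/

set_option autoImplicit false

open Topology Filter Metric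

namespace Pool.Agent.HE

open Pool.Agent.H36.BP (EN fs wd)
open Pool.Agent.H62.EF (MN pr)
open Pool.Agent.AD (Vd)
open Pool.Agent.TG (Lat Gd)
open Pool.Agent.G3 (wt LLift)

variable {N k q r : ℕ}

/-- the limit situation on the line `z ↦ y + z • a`: curves `(w n, h n)` on larger and larger discs converge to `g` on the line off `D` -/
structure LS (X : Set (Vd (k + 1) × EN N)) (F : Fin q → Vd (k + 1) × EN N → ℂ) (D : Set (Vd (k + 1))) (y a : Vd (k + 1)) (𝒰 : Ultrafilter ℕ) (w : ℕ → ℂ → EN N) (h : ℕ → ℂ → Vd (k + 1))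
    (g : ℂ → MN N) : Prop where
  cv : ∀ R : ℝ, ∀ᶠ n in (𝒰 : Filter ℕ), Cw X F (ball 0 R) (w n) (h n)
  hh : ∀ R ε : ℝ, 0 < ε → ∀ᶠ n in (𝒰 : Filter ℕ), ∀ z ∈ closedBall (0 : ℂ) R, ‖h n z - (y + z • a)‖ < ε
  lift : ∀ z : ℂ, y + z • a ∉ D → LLift g z
  lim : ∀ K : Set ℂ, IsCompact K → (∀ z ∈ K, y + z • a ∉ D) → ∀ ε : ℝ, 0 < ε → ∀ᶠ n in (𝒰 : Filter ℕ), ∀ z ∈ K, dist (pr (w n z)) (g z) < ε

/-- `F j` is `0` on the curve `g` over the line `y + z a`, at the points off `D` -/
def Zr (F : Vd (k + 1) × EN N → ℂ) (D : Set (Vd (k + 1))) (y a : Vd (k + 1)) (g : ℂ → MN N) : Prop :=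
  ∀ z : ℂ, y + z • a ∉ D → ∀ x : EN N, x ≠ 0 → pr x = g z → F (y + z • a, x) = 0

theorem Cw.mono {X : Set (Vd (k + 1) × EN N)} {F : Fin q → Vd (k + 1) × EN N → ℂ} {U V : Set ℂ} {w : ℂ → EN N} {h : ℂ → Vd (k + 1)} (hc : Cw X F U w h) (hV : V ⊆ U) : Cw X F V w h :=
  ⟨hc.w_diff.mono hV, hc.h_diff.mono hV, fun z hz => hc.w_ne z (hV hz), fun z hz => hc.mem z (hV hz), fun j z hz => hc.ne j z (hV hz)⟩

end Pool.Agent.HE

end
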