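import Pool.Agent.H94.PX2.M15
import Pool.Agent.H94.PX2.M17
import Pool.Agent.H94.PX2.M21

/-! The parts of this file: H13.CV.Dx, PX.F.FDefs, HE.FDefs, PX.F.FInt. -/

section

/-!
# CV Dx: the order of the differential of a function

`Form K 1` is the exterior power `⋀¹ Ω_{K/ℂ}`, `Form.mk c a = c • ιMulti (d (a 0))` (`Pool/Agent/H23/Fano.lean`); `Form.mk c a` is additive in `d (a 0)` and `K`-linear in it.  (`Form K 1 ≃ Ω_{K/ℂ}`:
`exteriorPower.oneEquiv`; `exteriorPower.ιMulti` is multilinear: `AlternatingMap.map_update_smul`, `map_update_add` for `Fin 1`.)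
`mk_ne_zero`: see e.g. `Pool/Agent/H62/FC/NotLGT.lean`, `Pool/Agent/H23/Forms.lean`: `d x ≠ 0` for a transcendental element in characteristic `0`: there is a derivation `D` of `K` over `ℂ` with `D x = 1`
(Mathlib: `Differential`... or the library: look for `exists_derivation`, `IsTranscendenceBasis` basis of `Ω`, `Pool.Agent.H23` `mem_regularForms_iff`, `dualDer`).
`mk_inv`: `d x = - x² d (x⁻¹)` (`Derivation.leibniz_inv`).
`exists_eta`: let `oz E t = 1`, `e = oz E x` (may be negative), `u = x * t ^ (-e)` of order `0`: `x = t ^ e * u`, `d x = t ^ (e - 1) • (e u d t + t d u)`, and `η = e u d t + t d u` is a sum of two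
generators of `regularForms`.
`pole_mk`: with `g = t ^ (e - 1)`: `0 ≤ oz E h + m * (e - 1) + p`.
-/

set_option autoImplicit false

open Pool.Agent.H23.Fano (PrimeDivisorOver Form regularForms)
open Pool.Agent.H17LG.Variety (PoleAtMost IsLogGeneralType)

noncomputable section

namespace Pool.Agent.H13.CV

variable {K : Type} [Field K] [Algebra ℂ K]

/-- the form `dx` -/
def dx (x : K) : Form K 1 := Form.mk 1 fun _ => x

/-- a differential as a form -/
private def tf : Ω[K⁄ℂ] →ₗ[K] Form K 1 :=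
  ((exteriorPower.oneEquiv K Ω[K⁄ℂ]).symm : Ω[K⁄ℂ] →ₗ[K] ⋀[K]^1 Ω[K⁄ℂ])

private lemma tf_inj : Function.Injective (tf : Ω[K⁄ℂ] →ₗ[K] Form K 1) :=
  (exteriorPower.oneEquiv K Ω[K⁄ℂ]).symm.injective

private lemma mk_eq (c x : K) :
    Form.mk c (fun _ : Fin 1 => x) = tf (c • KaehlerDifferential.D ℂ K x) := by
  rw [map_smul]
  have h : (exteriorPower.ιMulti K 1 (fun _ : Fin 1 => KaehlerDifferential.D ℂ K x) :
      ⋀[K]^1 Ω[K⁄ℂ]) =
      (exteriorPower.oneEquiv K Ω[K⁄ℂ]).symm (KaehlerDifferential.D ℂ K x) := by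
    rw [LinearEquiv.eq_symm_apply, exteriorPower.oneEquiv_ιMulti]
  exact congrArg (fun w : ⋀[K]^1 Ω[K⁄ℂ] => c • w) h

private lemma dx_eq (x : K) : dx x = tf (KaehlerDifferential.D ℂ K x) := by
  rw [dx, mk_eq, one_smul]

theorem dx_sub_const (x : K) (c : ℂ) : dx (x - algebraMap ℂ K c) = dx x := by
  rw [dx_eq, dx_eq, map_sub, Derivation.map_algebraMap, sub_zero]

theorem dx_ne_zero {x : K} (hx : Transcendental ℂ x) : dx x ≠ 0 := by
  obtain ⟨t, hst, ht⟩ := exists_isTranscendenceBasis_superset (R := ℂ) (s := ({x} : Set K))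
    (algebraicIndependent_unique_type_iff.mpr hx)
  obtain ⟨b, hb⟩ := Pool.Agent.H23.exists_basis_kaehler ht
  have h1 := hb ⟨x, hst rfl⟩
  rw [dx_eq]
  intro h
  have h2 : KaehlerDifferential.D ℂ K x = 0 := tf_inj (h.trans (map_zero _).symm)
  exact b.ne_zero ⟨x, hst rfl⟩ (h1.trans h2)

theorem exists_eta (E : Place K) {x : K} (hx : x ≠ 0) :
    ∃ (t : K) (η : Form K 1), t ≠ 0 ∧ oz E t = 1 ∧ η ∈ regularForms 1 E.localRing ∧ dx x = t ^ (oz E x - 1) • η := by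
  obtain ⟨t, ht, h1⟩ := exists_uni E
  set e : ℤ := oz E x with he
  set u : K := x * t ^ (-e) with hu
  have hte : t ^ (-e) ≠ 0 := zpow_ne_zero _ ht
  have hu0 : u ≠ 0 := mul_ne_zero hx hte
  have hou : oz E u = 0 := by
    rw [hu, oz_mul E hx hte, oz_zpow, h1]
    omega
  have hxu : x = t ^ e * u := by
    rw [hu, mul_left_comm, ← zpow_add₀ ht, add_neg_cancel, zpow_zero, mul_one]
  have hru : 0 ≤ E.ord u := nonneg_iff.2 (Or.inr hou.ge)
  have hrt : 0 ≤ E.ord t := nonneg_iff.2 (Or.inr (by omega))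
  have hre : 0 ≤ E.ord (((e : ℂ) • u : K)) := by
    rw [Algebra.smul_def]
    exact nonneg_mul (const_nonneg E _) hru
  refine ⟨t, Form.mk t (fun _ => u) + Form.mk ((e : ℂ) • u) (fun _ => t), ht, h1, ?_, ?_⟩
  · refine AddSubgroup.add_mem _ (AddSubgroup.subset_closure ?_) (AddSubgroup.subset_closure ?_)
    · exact ⟨t, fun _ => u, hrt, fun _ => hru, rfl⟩
    · exact ⟨(e : ℂ) • u, fun _ => t, hre, fun _ => hrt, rfl⟩
  · rw [mk_eq, mk_eq, ← map_add, ← map_smul, dx_eq]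
    congr 1
    conv_lhs => rw [hxu]
    rw [Derivation.leibniz, Derivation.leibniz_zpow, smul_add, smul_smul, smul_smul]
    have h2 : t ^ (e - 1) * t = t ^ e := by
      rw [← zpow_add_one₀ ht, sub_add_cancel]
    rw [h2]
    congr 1
    rw [← Int.cast_smul_eq_zsmul K, smul_smul, smul_smul]
    congr 1
    rw [Algebra.smul_def, map_intCast]
    ring

/-- a sufficient condition for `h dx ^ m` to have a pole of order at most `p` at `E` -/
theorem pole_mk (E : Place K) {x h : K} (hx : x ≠ 0) {m p : ℕ} (hh : h = 0 ∨ 0 ≤ oz E h + m * (oz E x - 1) + p) : PoleAtMost p E m h (dx x) := by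
  obtain ⟨t, η, ht, h1, hη, hd⟩ := exists_eta E hx
  refine ⟨t ^ (oz E x - 1), η, hη, hd, ?_⟩
  rcases hh with hh | hh
  · rw [hh, zero_mul, E.ord.map_zero]
    exact le_of_le_of_eq le_top (WithTop.top_add _).symm
  · by_cases h0 : h = 0
    · rw [h0, zero_mul, E.ord.map_zero]
      exact le_of_le_of_eq le_top (WithTop.top_add _).symm
    have hg : (t ^ (oz E x - 1)) ^ m ≠ 0 := pow_ne_zero _ (zpow_ne_zero _ ht)
    rw [← coe_oz E (mul_ne_zero h0 hg), oz_mul E h0 hg, oz_pow, oz_zpow, h1, mul_one]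
    have h2 : ((p : ℕ) : WithTop ℤ) = (((p : ℤ)) : WithTop ℤ) := by
      push_cast
      rfl
    rw [h2, ← WithTop.coe_add]
    exact WithTop.coe_le_coe.2 hh

end Pool.Agent.H13.CV

end
end

section

/-!
# PX FDefs: complements of hypersurfaces in `A × ℙ¹`: the definitions of the final theorem

`A = ℂ^n / Λ`, `n = k + 1`, is a complex torus.

* `IsCurveIn`, `IsHyperbolicModulo`, `IsFiniteOver`: for a subset `T` of `A × ℙ^m`, and a set `S` of special points of `A`, the holomorphic curves in `T`; hyperbolicity of `T` modulo the fibres over `S`; and quasi-projective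
  varieties which are quasi-finite over `T`.
* `IsThetaForm`: `θ 0, …, θ d` are sections of a positive line bundle on `A`, that is theta functions on `ℂ^n` with a common factor of automorphy.  `form θ y x = ∑ θ i y * x 0 ^ i * x 1 ^ (d - i)`; the hypersurface
  `E ⊆ A × ℙ¹` is the set of its zeros, `complement Λ θ` its complement.  `ThreePoints θ y`: the fibre over `y` contains three points of `E`; `fewPoints Λ θ`: the set of the other points of `A`.
-/

set_option autoImplicit false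

open Topology Filter MvPolynomial
open Pool.Agent.H17 (PN VanishesAt HolomorphicInto puncturedDisc)
open Pool.Agent.H62.SA (locVar)
open Pool.Agent.H17EF (projVar)
open Pool.Agent.AD (IsHolomorphicTorusMap)
open Pool.Agent.H7.Bir (vals rmap)

noncomputable section

namespace Pool.Agent.PXF

/-- `ℂ^n` -/
abbrev Cn (n : ℕ) : Type := Fin n → ℂ

variable {N k d m : ℕ}

/-- The torus is simple: a complex subspace `W ≠ 0` which is the real span of its lattice points is the whole space. -/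
def IsSimple {n : ℕ} (Λ : AddSubgroup (Cn n)) : Prop :=
  ∀ W : Submodule ℂ (Cn n), W ≠ ⊥ → (∀ v ∈ W, v ∈ Submodule.span ℝ {l : Cn n | l ∈ Λ ∧ l ∈ W}) → W = ⊤

/-- `t` is holomorphic on the open set `U` as a map to the torus. -/
def HolomorphicIntoTorus (Λ : AddSubgroup (Cn (k + 1))) (t : ℂ → Cn (k + 1) ⧸ Λ) (U : Set ℂ) : Prop :=
  ∀ z₀ ∈ U, ∃ h : ℂ → Cn (k + 1), AnalyticAt ℂ h z₀ ∧ ∀ᶠ z in 𝓝 z₀, t z = (h z : Cn (k + 1) ⧸ Λ)

/-- `(t, g)` is a holomorphic map from the open set `U` to the subset `T` of `A × ℙ^m`. -/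
structure IsCurveIn (Λ : AddSubgroup (Cn (k + 1))) (T : Set ((Cn (k + 1) ⧸ Λ) × PN m)) (t : ℂ → Cn (k + 1) ⧸ Λ) (g : ℂ → PN m) (U : Set ℂ) : Prop where
  torus : HolomorphicIntoTorus Λ t U
  proj : HolomorphicInto g U
  mem : ∀ z ∈ U, (t z, g z) ∈ T

/-- Hyperbolicity of the subset `T` of `A × ℙ^m` modulo the fibres over the subset `S` of `A`. -/
structure IsHyperbolicModulo (Λ : AddSubgroup (Cn (k + 1))) (T : Set ((Cn (k + 1) ⧸ Λ) × PN m)) (S : Set (Cn (k + 1) ⧸ Λ)) : Prop where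
  /-- there is a constant `C` such that the component in `A` of every holomorphic map from the unit disc to `T` has derivative at most `C` at `0` -/
  discs : ∃ C : ℝ, ∀ (h : ℂ → Cn (k + 1)) (g : ℂ → PN m), AnalyticAt ℂ h 0 → IsCurveIn Λ T (fun z => (h z : Cn (k + 1) ⧸ Λ)) g (Metric.ball 0 1) → ‖deriv h 0‖ ≤ C
  /-- every entire curve in `T` lies in a fibre, and is constant if this is not a fibre over a point of `S` -/
  entire : ∀ (t : ℂ → Cn (k + 1) ⧸ Λ) (g : ℂ → PN m), IsCurveIn Λ T t g Set.univ → ∀ z w, t z = t w ∧ (t z ∉ S → g z = g w)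
  /-- every holomorphic map from the punctured disc to `T` extends to a holomorphic map from the disc to `A × ℙ^m`, if it does not map into the fibres over `S`; the component in `A` extends in any case -/
  punctured : ∀ (t : ℂ → Cn (k + 1) ⧸ Λ) (g : ℂ → PN m), IsCurveIn Λ T t g puncturedDisc →
    (∃ t' : ℂ → Cn (k + 1) ⧸ Λ, HolomorphicIntoTorus Λ t' (Metric.ball 0 1) ∧ ∀ z ∈ puncturedDisc, t' z = t z) ∧
    ((∃ z ∈ puncturedDisc, t z ∉ S) → ∃ g' : ℂ → PN m, HolomorphicInto g' (Metric.ball 0 1) ∧ ∀ z ∈ puncturedDisc, g' z = g z)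

/-- `U = locVar P G` is a quasi-projective variety, with closure `X` in `ℙ^N`, and `(u, v)` a holomorphic map from `X` to `A × ℙ^m` with finite fibres which maps `U` to `T`; a form on `ℙ^N`, not `0` on `X`, is `0` at the
points over `S`. -/
structure IsFiniteOver (P : Ideal (MvPolynomial (Fin (N + 1)) ℂ)) {s : ℕ} (G : Fin s → MvPolynomial (Fin (N + 1)) ℂ) (Λ : AddSubgroup (Cn (k + 1)))
    (T : Set ((Cn (k + 1) ⧸ Λ) × PN m)) (S : Set (Cn (k + 1) ⧸ Λ)) (u : PN N → Cn (k + 1) ⧸ Λ) (v : PN N → PN m) : Prop where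
  torus : IsHolomorphicTorusMap (projVar P) Λ u
  regular : ∀ x ∈ projVar P, ∃ (D : ℕ) (γ : Fin (m + 1) → MvPolynomial (Fin (N + 1)) ℂ), (∀ i, (γ i).IsHomogeneous D) ∧ vals γ x.rep ≠ 0 ∧
    ∀ x' ∈ projVar P, vals γ x'.rep ≠ 0 → v x' = rmap γ x'
  finite : ∀ x ∈ projVar P, {x' | x' ∈ projVar P ∧ u x' = u x ∧ v x' = v x}.Finite
  maps : ∀ x ∈ locVar P G, (u x, v x) ∈ T
  special : ∃ (e : ℕ) (R : MvPolynomial (Fin (N + 1)) ℂ), R.IsHomogeneous e ∧ R ∉ P ∧ ∀ x ∈ projVar P, u x ∈ S → VanishesAt R x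

/-- The binary form `∑ θ_i(y) x_0^i x_1^(d-i)`. -/
def form (θ : Fin (d + 1) → Cn (k + 1) → ℂ) (y : Cn (k + 1)) (x : Cn 2) : ℂ := ∑ i : Fin (d + 1), θ i y * x 0 ^ (i : ℕ) * x 1 ^ (d - (i : ℕ))

/-- The functions `θ i` are sections of a positive line bundle on the torus. -/
structure IsThetaForm (Λ : AddSubgroup (Cn (k + 1))) (θ : Fin (d + 1) → Cn (k + 1) → ℂ) : Prop where
  holomorphic : ∀ i, Differentiable ℂ (θ i)
  /-- the functions `|θ i y| exp (- ∑ |W j y|²)` are `Λ`-periodic, and the factors of automorphy of the `θ i` are the same for all `i`; the weight is positive definite -/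
  quasiPeriodic : ∃ (r : ℕ) (W : Fin r → Cn (k + 1) →L[ℂ] ℂ), (∀ y, (∀ j, W j y = 0) → y = 0) ∧
    ∀ l ∈ Λ, ∀ y, ∃ e : ℂ, ‖e‖ = Real.exp (∑ j, ‖W j (y + l)‖ ^ 2 - ∑ j, ‖W j y‖ ^ 2) ∧ ∀ i, θ i (y + l) = e * θ i y

/-- Over some point `y` the form has no multiple zeros, and the `θ i` have no common zeros in codimension one. -/
structure IsReduced (θ : Fin (d + 1) → Cn (k + 1) → ℂ) : Prop where
  simpleZeros : ∃ y, ∀ x, x ≠ 0 → form θ y x = 0 → fderiv ℂ (form θ y) x ≠ 0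
  /-- near a common zero of the `θ i` the zeros of `form θ y b`, `b` fixed, are not all common zeros -/
  codimension : ∀ y, (∀ i, θ i y = 0) → ∀ b : Cn 2, ∃ᶠ z in 𝓝 y, form θ z b = 0 ∧ ∃ i, θ i z ≠ 0

/-- The fibre over `y` contains three points of `E`. -/
def ThreePoints (θ : Fin (d + 1) → Cn (k + 1) → ℂ) (y : Cn (k + 1)) : Prop :=
  ∃ x₁ x₂ x₃ : Cn 2, form θ y x₁ = 0 ∧ form θ y x₂ = 0 ∧ form θ y x₃ = 0 ∧ x₁ 0 * x₂ 1 ≠ x₁ 1 * x₂ 0 ∧ x₁ 0 * x₃ 1 ≠ x₁ 1 * x₃ 0 ∧ x₂ 0 * x₃ 1 ≠ x₂ 1 * x₃ 0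

/-- No affine line of `ℂ^n` lies over the set of the points over which there are at most two points of `E`, or a whole fibre; and no entire curve in `E` lies over an affine line. -/
structure HasNoLines (θ : Fin (d + 1) → Cn (k + 1) → ℂ) : Prop where
  threePoints : ∀ a y : Cn (k + 1), a ≠ 0 → ∃ z : ℂ, (∃ i, θ i (y + z • a) ≠ 0) ∧ ThreePoints θ (y + z • a)
  roots : ∀ a y : Cn (k + 1), a ≠ 0 → ¬ ∃ G : ℂ → Cn 2, Differentiable ℂ G ∧ (∀ z, G z ≠ 0) ∧ ∀ z, form θ (y + z • a) (G z) = 0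

/-- The complement of `E` in `A × ℙ¹`. -/
def complement (Λ : AddSubgroup (Cn (k + 1))) (θ : Fin (d + 1) → Cn (k + 1) → ℂ) : Set ((Cn (k + 1) ⧸ Λ) × PN 1) :=
  {q | ∀ y : Cn (k + 1), (y : Cn (k + 1) ⧸ Λ) = q.1 → form θ y q.2.rep ≠ 0}

/-- The set of the points of `A` over which there are at most two points of `E`. -/
def fewPoints (Λ : AddSubgroup (Cn (k + 1))) (θ : Fin (d + 1) → Cn (k + 1) → ℂ) : Set (Cn (k + 1) ⧸ Λ) :=
  {t | ∃ y : Cn (k + 1), (y : Cn (k + 1) ⧸ Λ) = t ∧ ¬ ThreePoints θ y}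

/-- The Kobayashi–Royden metric of the complement of `E` is bounded below near the fibres which contain three points of `E` and are not contained in `E` (the component in `ℙ¹`; homogeneous coordinates `φ`,
Fubini–Study metric). -/
def KobayashiPositive (Λ : AddSubgroup (Cn (k + 1))) (θ : Fin (d + 1) → Cn (k + 1) → ℂ) : Prop :=
  ∀ y, ThreePoints θ y → (∃ i, θ i y ≠ 0) → ∃ C : ℝ, ∀ᶠ y' : Cn (k + 1) in 𝓝 y, ∀ (t : ℂ → Cn (k + 1) ⧸ Λ) (g : ℂ → PN 1) (φ : ℂ → Cn 2), IsCurveIn Λ (complement Λ θ) t g (Metric.ball 0 1) →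
    t 0 = (y' : Cn (k + 1) ⧸ Λ) → AnalyticAt ℂ φ 0 → (∀ᶠ z in 𝓝 (0 : ℂ), ∃ h : φ z ≠ 0, g z = Projectivization.mk ℂ (φ z) h) →
    ‖φ 0 0 * deriv φ 0 1 - φ 0 1 * deriv φ 0 0‖ ≤ C * (‖φ 0 0‖ ^ 2 + ‖φ 0 1‖ ^ 2)

end Pool.Agent.PXF

end
end

section

/-!
# HE FDefs: complements of divisors in families over complex tori: the definitions of the final theorem

`A = ℂ^n / Λ`, `n = k + 1`, is a complex torus, `X` a closed analytic subset of `A × ℙ^m`, that is a family of projective varieties over `A`.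

* `IsHolomorphicForm`: forms in `x ∈ ℂ^(m+1)` whose coefficients are holomorphic functions of `y`; `IsAnalytic`: closed analytic subsets of `A × ℙ^m`; `IsAnalyticIn`: of `A`.
* `IsSemipositive`, `IsAmple`: `F` is a section of `L ⊠ O(d)`, `d > 0`, with `L` a semipositive (positive) line bundle on `A`.
* `IsHyperbolicOff`: the hypotheses on the divisors `{F j = 0}` off the fibres over `S`; `outside`: the complement of the divisors in `X`; `KobayashiPositive`: the Kobayashi–Royden metric is bounded below near the fibres over the complement of `S`.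
-/

set_option autoImplicit false

open Topology Filter MvPolynomial
open Pool.Agent.H17 (PN VanishesAt HolomorphicInto)
open Pool.Agent.PXF (Cn IsSimple IsCurveIn)

noncomputable section

namespace Pool.Agent.HEF

variable {k m q : ℕ}

/-- `F y` is a form of degree `d` in `x ∈ ℂ^(m+1)` whose coefficients are holomorphic functions of `y` in the set `U` (used for open sets). -/
structure IsHolomorphicForm (U : Set (Cn (k + 1))) (F : Cn (k + 1) → MvPolynomial (Fin (m + 1)) ℂ) (d : ℕ) : Prop where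
  homogeneous : ∀ y ∈ U, (F y).IsHomogeneous d
  holomorphic : ∀ α, DifferentiableOn ℂ (fun y => (F y).coeff α) U

/-- `X` is a closed analytic subset of `A × ℙ^m`: near each fibre it is the set of the common zeros of finitely many forms. -/
def IsAnalytic (Λ : AddSubgroup (Cn (k + 1))) (X : Set ((Cn (k + 1) ⧸ Λ) × PN m)) : Prop :=
  ∀ y₀ : Cn (k + 1), ∃ (ρ : ℝ) (s : ℕ) (G : Fin s → Cn (k + 1) → MvPolynomial (Fin (m + 1)) ℂ) (d : Fin s → ℕ), 0 < ρ ∧ (∀ i, IsHolomorphicForm (Metric.ball y₀ ρ) (G i) (d i)) ∧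
    ∀ y ∈ Metric.ball y₀ ρ, ∀ p : PN m, ((y : Cn (k + 1) ⧸ Λ), p) ∈ X ↔ ∀ i, VanishesAt (G i y) p

/-- `S` is a closed analytic subset of `A`. -/
def IsAnalyticIn (Λ : AddSubgroup (Cn (k + 1))) (S : Set (Cn (k + 1) ⧸ Λ)) : Prop :=
  ∀ y₀ : Cn (k + 1), ∃ (s : ℕ) (f : Fin s → Cn (k + 1) → ℂ), (∀ i, AnalyticAt ℂ (f i) y₀) ∧ ∀ᶠ y : Cn (k + 1) in 𝓝 y₀, ((y : Cn (k + 1) ⧸ Λ) ∈ S ↔ ∀ i, f i y = 0)

/-- `F` is a section of `L ⊠ O(d)`, `d > 0`, for a line bundle `L` on `A`: the functions `‖F y x‖ exp (- ∑ ‖W j y‖²)` are `Λ`-periodic. -/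
structure IsSection (Λ : AddSubgroup (Cn (k + 1))) (F : Cn (k + 1) → MvPolynomial (Fin (m + 1)) ℂ) {r : ℕ} (W : Fin r → Cn (k + 1) →L[ℂ] ℂ) : Prop where
  form : ∃ d, 0 < d ∧ IsHolomorphicForm Set.univ F d
  quasiPeriodic : ∀ l ∈ Λ, ∀ y, ∃ e : ℂ, ‖e‖ = Real.exp (∑ j, ‖W j (y + l)‖ ^ 2 - ∑ j, ‖W j y‖ ^ 2) ∧ F (y + l) = C e * F y

/-- The line bundle is semipositive. -/
def IsSemipositive (Λ : AddSubgroup (Cn (k + 1))) (F : Cn (k + 1) → MvPolynomial (Fin (m + 1)) ℂ) : Prop :=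
  ∃ (r : ℕ) (W : Fin r → Cn (k + 1) →L[ℂ] ℂ), IsSection Λ F W

/-- The line bundle is positive. -/
def IsAmple (Λ : AddSubgroup (Cn (k + 1))) (F : Cn (k + 1) → MvPolynomial (Fin (m + 1)) ℂ) : Prop :=
  ∃ (r : ℕ) (W : Fin r → Cn (k + 1) →L[ℂ] ℂ), (∀ y, (∀ j, W j y = 0) → y = 0) ∧ IsSection Λ F W

/-- `g` is an entire curve in `ℙ^m` with bounded derivative (homogeneous coordinates `φ`, Fubini–Study metric). -/
def IsBrodyCurve (g : ℂ → PN m) : Prop :=
  ∃ (φ : ℂ → Cn (m + 1)) (C : ℝ), Differentiable ℂ φ ∧ ∀ z, (∃ h : φ z ≠ 0, g z = Projectivization.mk ℂ (φ z) h) ∧ ∀ i j, ‖φ z i * deriv φ z j - φ z j * deriv φ z i‖ ≤ C * ∑ i, ‖φ z i‖ ^ 2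

/-- Near the fibre over `y₀` the union of the zeros of the `F j` in `X` contains finitely many families of hypersurface sections `{Q i = 0}` of the fibres of `X`, such that all entire curves with bounded derivative in the fibre over `y₀`, contained in or
disjoint from each `{Q i = 0}`, are constant. -/
def HasHyperbolicFibre (Λ : AddSubgroup (Cn (k + 1))) (X : Set ((Cn (k + 1) ⧸ Λ) × PN m)) (F : Fin q → Cn (k + 1) → MvPolynomial (Fin (m + 1)) ℂ) (y₀ : Cn (k + 1)) : Prop :=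
  ∃ (ρ : ℝ) (s : ℕ) (Q : Fin s → Cn (k + 1) → MvPolynomial (Fin (m + 1)) ℂ) (e : Fin s → ℕ), 0 < ρ ∧ (∀ i, IsHolomorphicForm (Metric.ball y₀ ρ) (Q i) (e i)) ∧
    (∀ i, ∀ y ∈ Metric.ball y₀ ρ, ∀ p : PN m, ((y : Cn (k + 1) ⧸ Λ), p) ∈ X → VanishesAt (Q i y) p → ∃ j, VanishesAt (F j y) p) ∧
    ∀ g : ℂ → PN m, IsBrodyCurve g → (∀ z, ((y₀ : Cn (k + 1) ⧸ Λ), g z) ∈ X) → (∀ i, (∀ z, VanishesAt (Q i y₀) (g z)) ∨ ∀ z, ¬ VanishesAt (Q i y₀) (g z)) → ∀ z w, g z = g w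

/-- In the fibre over `y` the union of the zeros of the `F j` contains `2 κ + 1` hypersurface sections of degree `e` in general position: any `κ + 1` of them have no common point. -/
def HasHypersurfaces (Λ : AddSubgroup (Cn (k + 1))) (X : Set ((Cn (k + 1) ⧸ Λ) × PN m)) (F : Fin q → Cn (k + 1) → MvPolynomial (Fin (m + 1)) ℂ) (κ e : ℕ) (y : Cn (k + 1)) : Prop :=
  ∃ Q : Fin (2 * κ + 1) → MvPolynomial (Fin (m + 1)) ℂ, (∀ s, (Q s).IsHomogeneous e) ∧ (∀ s, ∀ p : PN m, ((y : Cn (k + 1) ⧸ Λ), p) ∈ X → VanishesAt (Q s) p → ∃ j, VanishesAt (F j y) p) ∧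
    ∀ I : Finset (Fin (2 * κ + 1)), I.card = κ + 1 → ∀ p : PN m, ((y : Cn (k + 1) ⧸ Λ), p) ∈ X → ∃ s ∈ I, ¬ VanishesAt (Q s) p

/-- `g` is a holomorphic section of `X` over the affine line `z ↦ y + z a`, outside the fibres over `S`, which is contained in or disjoint from the set of zeros of each `F j`. -/
structure IsSectionOver (Λ : AddSubgroup (Cn (k + 1))) (X : Set ((Cn (k + 1) ⧸ Λ) × PN m)) (F : Fin q → Cn (k + 1) → MvPolynomial (Fin (m + 1)) ℂ) (S : Set (Cn (k + 1) ⧸ Λ)) (y a : Cn (k + 1)) (g : ℂ → PN m) :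
    Prop where
  holomorphic : HolomorphicInto g {z | ((y + z • a : Cn (k + 1)) : Cn (k + 1) ⧸ Λ) ∉ S}
  mem : ∀ z : ℂ, ((y + z • a : Cn (k + 1)) : Cn (k + 1) ⧸ Λ) ∉ S → (((y + z • a : Cn (k + 1)) : Cn (k + 1) ⧸ Λ), g z) ∈ X
  inOrOff : ∀ j, (∀ z : ℂ, ((y + z • a : Cn (k + 1)) : Cn (k + 1) ⧸ Λ) ∉ S → VanishesAt (F j (y + z • a)) (g z)) ∨
    ∀ z : ℂ, ((y + z • a : Cn (k + 1)) : Cn (k + 1) ⧸ Λ) ∉ S → ¬ VanishesAt (F j (y + z • a)) (g z)

/-- The hypotheses on the divisors `{F j = 0}` of `X`, hyperbolic outside the fibres over the closed analytic subset `S` of `A`, which contains no image of an affine line of `ℂ^n`. -/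
structure IsHyperbolicOff (Λ : AddSubgroup (Cn (k + 1))) (X : Set ((Cn (k + 1) ⧸ Λ) × PN m)) (F : Fin q → Cn (k + 1) → MvPolynomial (Fin (m + 1)) ℂ) (S : Set (Cn (k + 1) ⧸ Λ)) : Prop where
  analytic : IsAnalytic Λ X
  sections : ∀ j, IsSemipositive Λ (F j)
  special : IsAnalyticIn Λ S
  /-- no line: for example `A` is simple and `S ≠ A` -/
  noLines : (IsSimple Λ ∧ S ≠ Set.univ) ∨ ∀ a y : Cn (k + 1), a ≠ 0 → ∃ z : ℂ, ((y + z • a : Cn (k + 1)) : Cn (k + 1) ⧸ Λ) ∉ S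
  /-- no section: for example the ample divisors have no common point outside the fibres over `S` -/
  noSections : ∀ (y a : Cn (k + 1)) (g : ℂ → PN m), a ≠ 0 → IsSectionOver Λ X F S y a g → ∃ j, IsAmple Λ (F j) ∧ ∃ z : ℂ, ((y + z • a : Cn (k + 1)) : Cn (k + 1) ⧸ Λ) ∉ S ∧ ¬ VanishesAt (F j (y + z • a)) (g z)
  /-- for example the entire curves in the fibres over the complement of `S`, contained in or disjoint from each `{F j = 0}`, are constant (`Q = F`), or the `{Q i = 0}` are `2 κ + 1` hypersurface sections, any `κ + 1` of which have no common point -/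
  fibres : ∀ y : Cn (k + 1), (y : Cn (k + 1) ⧸ Λ) ∉ S → HasHyperbolicFibre Λ X F y
  overSpecial : ∀ y₀ : Cn (k + 1), (y₀ : Cn (k + 1) ⧸ Λ) ∈ S → ∃ κ e, 0 < e ∧ ∀ᶠ y : Cn (k + 1) in 𝓝 y₀, (y : Cn (k + 1) ⧸ Λ) ∉ S → HasHypersurfaces Λ X F κ e y

/-- The complement of the zeros of the `F j` in `X`. -/
def outside (Λ : AddSubgroup (Cn (k + 1))) (X : Set ((Cn (k + 1) ⧸ Λ) × PN m)) (F : Fin q → Cn (k + 1) → MvPolynomial (Fin (m + 1)) ℂ) : Set ((Cn (k + 1) ⧸ Λ) × PN m) :=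
  {x | x ∈ X ∧ ∀ y : Cn (k + 1), (y : Cn (k + 1) ⧸ Λ) = x.1 → ∀ j, ¬ VanishesAt (F j y) x.2}

/-- The Kobayashi–Royden metric of the subset `T` of `A × ℙ^m` is bounded below near the nonempty fibres over the complement of `S` (the component in `ℙ^m`; homogeneous coordinates `φ`, Fubini–Study metric). -/
def KobayashiPositive (Λ : AddSubgroup (Cn (k + 1))) (T : Set ((Cn (k + 1) ⧸ Λ) × PN m)) (S : Set (Cn (k + 1) ⧸ Λ)) : Prop :=
  ∀ y : Cn (k + 1), (y : Cn (k + 1) ⧸ Λ) ∉ S → (∃ p, ((y : Cn (k + 1) ⧸ Λ), p) ∈ T) → ∃ C : ℝ, ∀ᶠ y' : Cn (k + 1) in 𝓝 y, ∀ (t : ℂ → Cn (k + 1) ⧸ Λ) (g : ℂ → PN m) (φ : ℂ → Cn (m + 1)),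
    IsCurveIn Λ T t g (Metric.ball 0 1) → t 0 = (y' : Cn (k + 1) ⧸ Λ) → AnalyticAt ℂ φ 0 → (∀ᶠ z in 𝓝 (0 : ℂ), ∃ h : φ z ≠ 0, g z = Projectivization.mk ℂ (φ z) h) →
    ∀ i j, ‖φ 0 i * deriv φ 0 j - φ 0 j * deriv φ 0 i‖ ≤ C * ∑ i, ‖φ 0 i‖ ^ 2

end Pool.Agent.HEF

end
end

section

/-!
# PX FInt: internal forms of the definitions, used in the proofs for theta forms
-/

set_option autoImplicit false

open Topology Filter MvPolynomial
open Pool.Agent.H17 (PN VanishesAt HolomorphicInto puncturedDisc)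

noncomputable section

namespace Pool.Agent.PXF

variable {k d : ℕ}

/-- The point `(t, p)` of `A × ℙ¹` is not in `E`. -/
def Avoids (Λ : AddSubgroup (Cn (k + 1))) (θ : Fin (d + 1) → Cn (k + 1) → ℂ) (t : Cn (k + 1) ⧸ Λ) (p : PN 1) : Prop :=
  ∀ y : Cn (k + 1), (y : Cn (k + 1) ⧸ Λ) = t → form θ y p.rep ≠ 0

/-- `(t, g)` is a holomorphic map from the open set `U` to the complement of `E` in `A × ℙ¹`. -/
structure IsCurve (Λ : AddSubgroup (Cn (k + 1))) (θ : Fin (d + 1) → Cn (k + 1) → ℂ) (t : ℂ → Cn (k + 1) ⧸ Λ) (g : ℂ → PN 1) (U : Set ℂ) : Prop where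
  torus : HolomorphicIntoTorus Λ t U
  line : HolomorphicInto g U
  avoids : ∀ z ∈ U, Avoids Λ θ (t z) (g z)

theorem isCurve_iff {Λ : AddSubgroup (Cn (k + 1))} {θ : Fin (d + 1) → Cn (k + 1) → ℂ} {t : ℂ → Cn (k + 1) ⧸ Λ} {g : ℂ → PN 1} {U : Set ℂ} :
    IsCurve Λ θ t g U ↔ IsCurveIn Λ (complement Λ θ) t g U :=
  ⟨fun h => ⟨h.torus, h.line, h.avoids⟩, fun h => ⟨h.torus, h.proj, h.mem⟩⟩

end Pool.Agent.PXF

end
end
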