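import Pool.Agent.H94.PX2.M06
import Pool.Agent.H94.PX2.M22
import Pool.Agent.H94.PX2.M24
import Pool.Agent.H94.PX2.M25
import Pool.Agent.H94.PX2.M26
import Pool.Agent.H94.PX2.M27
import Pool.Agent.H94.PX2.M30
import Pool.Agent.H94.PX2.M31
import Pool.Agent.H94.PX2.PX.Bas

/-! The parts of this file: H36.BP.Nodal, H17EF.Bridge, H17EF.Closed, H62.Et.Defs, H62.Et.Hat, PX.F.Crv. -/

section

/-!
# BP Nodal: the nodal theorem for surfaces in `ℙ(V)`

Transport of the metric theorem and of `picard_cone` along a linear isomorphism `V ≃ EN N`.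
-/

set_option autoImplicit false

namespace Pool.Agent.H36.BP

open Filter Topology Metric

open Pool.Agent.H17 (PN HolomorphicInto puncturedDisc)
open Pool.Agent.H17BP (Surface IsChart IsForm NoZeros)

variable {V : Type} [NormedAddCommGroup V] [NormedSpace ℂ V] {N : ℕ}

/-- the point of `ℙ^N` of a point of `ℙ(V)` -/
noncomputable def toPN (L : V ≃L[ℂ] EN N) (p : Projectivization ℂ V) : PN N :=
  Projectivization.mk ℂ (L p.rep).ofLp (ofLp_ne_zero fun h => p.rep_nonzero (L.map_eq_zero_iff.mp h))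

theorem rep_mk {x : V} (hx : x ≠ 0) : ∃ a : ℂ, a ≠ 0 ∧ (Projectivization.mk ℂ x hx).rep = a • x := by
  obtain ⟨a, ha⟩ := Projectivization.exists_smul_eq_mk_rep ℂ x hx
  exact ⟨a, a.ne_zero, by rw [← ha]; rfl⟩

/-! ### transport of the surface -/

theorem isCone_transport (L : V ≃L[ℂ] EN N) {X : Set V} (hX : Surface X) : Pool.Agent.H14.PP.IsCone (L.symm ⁻¹' X : Set (EN N)) := by
  refine ⟨?_, ?_, ?_⟩
  · show L.symm 0 ∉ X
    rw [map_zero]
    exact hX.zero
  · intro x hx c hc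
    show L.symm (c • x) ∈ X
    rw [map_smul]
    exact hX.smul _ hx c hc
  · rw [← closure_subset_iff_isClosed]
    intro y hy
    rw [Set.insert_eq, closure_union, closure_singleton] at hy
    rcases hy with hy | hy
    · exact Or.inl hy
    · by_cases h0 : y = 0
      · exact Or.inl h0
      · right
        have h1 : L.symm y ∈ closure X := by
          have h2 : closure (L.symm ⁻¹' X : Set (EN N)) = L.symm ⁻¹' (closure X) := by
            exact (L.symm.toHomeomorph.preimage_closure X).symm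
          rw [h2] at hy
          exact hy
        exact hX.closed _ h1 fun h => h0 (L.symm.map_eq_zero_iff.mp h)

theorem germ_transport (L : V ≃L[ℂ] EN N) {X : Set V} {σ : ℂ × ℂ → V} {τ : V → ℂ × ℂ} (h : IsChart X σ τ) :
    IsGermChart (L.symm ⁻¹' X : Set (EN N)) (fun p => L (σ p)) (fun y => τ (L.symm y)) := by
  have hL : ∀ᶠ y in 𝓝 (L (σ 0)), (fun y => L.symm y) y = L.symm y := Filter.Eventually.of_forall fun _ => rfl
  have ht : Tendsto (fun y => L.symm y) (𝓝 (L (σ 0))) (𝓝 (σ 0)) := by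
    have := L.symm.continuous.tendsto (L (σ 0))
    rwa [L.symm_apply_apply] at this
  refine ⟨((L : V →L[ℂ] EN N).analyticAt _).comp h.σ_an, ?_, ?_, ?_, ?_, ?_⟩
  · filter_upwards [h.σ_mem] with p hp
    show L.symm (L (σ p)) ∈ X
    rwa [L.symm_apply_apply]
  · have h1 : AnalyticAt ℂ τ ((fun y => L.symm y) (L (σ 0))) := by
      show AnalyticAt ℂ τ (L.symm (L (σ 0)))
      rw [L.symm_apply_apply]; exact h.τ_an
    exact h1.comp ((L.symm : EN N →L[ℂ] V).analyticAt _)
  · filter_upwards [h.left] with p hp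
    rw [L.symm_apply_apply, hp]
  · filter_upwards [ht.eventually h.right] with y hy hyX
    obtain ⟨c, hc, h1⟩ := hy hyX
    refine ⟨c, hc, ?_⟩
    have h2 : L (L.symm y) = L (c • σ (τ (L.symm y))) := congrArg L h1
    rwa [L.apply_symm_apply, map_smul] at h2
  · have ht2 : Tendsto (fun z : EN N × ℂ => (L.symm z.1, z.2)) (𝓝 (L (σ 0), (1 : ℂ))) (𝓝 (σ 0, (1 : ℂ))) := by
      have h1 : Continuous (fun z : EN N × ℂ => (L.symm z.1, z.2)) := (L.symm.continuous.comp continuous_fst).prodMk continuous_snd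
      have h2 := h1.tendsto (L (σ 0), (1 : ℂ))
      simpa using h2
    filter_upwards [ht2.eventually h.inv] with z hz
    rw [map_smul]
    exact hz

end Pool.Agent.H36.BP

end

section

/-!
# EF Bridge: from the projective space to the cone
-/

set_option autoImplicit false

open Topology Filter MvPolynomial Metric

noncomputable section

namespace Pool.Agent.H17EF

open Pool.Agent.H17 (PN VanishesAt HolomorphicInto ZariskiClosedIn)
open Pool.Agent.H62.FC (Homog)
open Pool.Agent.H62.EF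
open Pool.Agent.H17BP (Surface IsChart IsForm NoZeros)
open Pool.Agent.H13.SM (cone)
open Pool.Agent.H36.BP (EN fs wd isCone_transport germ_transport)
open Pool.Agent.H14.PP (IsCone Chart Form)

variable {N : ℕ}

/-- homogeneous coordinates as a Euclidean vector -/
def LE (N : ℕ) : (Fin (N + 1) → ℂ) ≃L[ℂ] EN N := (EuclideanSpace.equiv (Fin (N + 1)) ℂ).symm

/-- the cone in the Euclidean space -/
def coneE (P : Ideal (MvPolynomial (Fin (N + 1)) ℂ)) : Set (EN N) := (LE N).symm ⁻¹' cone P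

theorem mk_mem_projVar {P : Ideal (MvPolynomial (Fin (N + 1)) ℂ)} (hP : Homog P) {x : Fin (N + 1) → ℂ} (hx : x ≠ 0) :
    Projectivization.mk ℂ x hx ∈ projVar P ↔ x ∈ cone P := by
  obtain ⟨a, ha, hrep⟩ := Pool.Agent.H36.BP.rep_mk hx
  constructor
  · intro h
    refine ⟨hx, fun Q hQ => ?_⟩
    rw [← MvPolynomial.sum_homogeneousComponent Q, map_sum]
    refine Finset.sum_eq_zero fun i _ => ?_
    have h1 := h _ (hP Q hQ i) i (homogeneousComponent_isHomogeneous i Q)
    unfold VanishesAt at h1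
    rw [hrep, eval_smul_form' (homogeneousComponent_isHomogeneous i Q)] at h1
    exact (mul_eq_zero.1 h1).resolve_left (pow_ne_zero i ha)
  · intro h Q hQ n hn
    unfold VanishesAt
    rw [hrep, eval_smul_form' hn, h.2 Q hQ, mul_zero]
where
  eval_smul_form' {d : ℕ} {Q : MvPolynomial (Fin (N + 1)) ℂ} (hQ : Q.IsHomogeneous d) (c : ℂ)
      (x : Fin (N + 1) → ℂ) : eval (c • x) Q = c ^ d * eval x Q := by
    rw [MvPolynomial.eval_eq', MvPolynomial.eval_eq', Finset.mul_sum]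
    apply Finset.sum_congr rfl
    intro m hm
    have hdeg : ∑ i, m i = d := by
      have := hQ (MvPolynomial.mem_support_iff.1 hm)
      rw [Finsupp.weight_apply] at this
      simpa [Finsupp.sum_fintype] using this
    have h1 : ∏ i, (c • x) i ^ m i = c ^ d * ∏ i, x i ^ m i := by
      rw [← hdeg, ← Finset.prod_pow_eq_pow_sum, ← Finset.prod_mul_distrib]
      exact Finset.prod_congr rfl fun i _ => by simp [mul_pow]
    rw [h1]
    ring

theorem mem_coneE {P : Ideal (MvPolynomial (Fin (N + 1)) ℂ)} (hP : Homog P) {y : EN N} :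
    y ∈ coneE P ↔ ∃ h : (LE N).symm y ≠ 0, Projectivization.mk ℂ ((LE N).symm y) h ∈ projVar P := by
  constructor
  · intro h
    exact ⟨h.1, (mk_mem_projVar hP h.1).2 h⟩
  · rintro ⟨h, h'⟩
    exact (mk_mem_projVar hP h).1 h'

theorem sub_mem_iff {Λ : AddSubgroup ℂ} {a b : ℂ} : a - b ∈ Λ ↔ ((a : ℂ) : ℂ ⧸ Λ) = (b : ℂ ⧸ Λ) := by
  rw [QuotientAddGroup.eq, ← neg_mem_iff]
  constructor
  · intro h
    convert h using 1
    ring
  · intro h
    convert h using 1
    ring

theorem charts {P : Ideal (MvPolynomial (Fin (N + 1)) ℂ)} (hS : Surface (cone P)) : Charts (coneE P) := by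
  intro x hx
  obtain ⟨σ, τ, hc, h0⟩ := hS.chart ((LE N).symm x) hx
  have hg := germ_transport (LE N) hc
  obtain ⟨χ, h1, h2⟩ := exists_chart_of_germ (isCone_transport (LE N) hS) hg
  have h3 : (LE N) (σ 0) = x := by rw [h0, ContinuousLinearEquiv.apply_symm_apply]
  rw [h3] at h1 h2
  exact ⟨χ, h1, h2⟩

end Pool.Agent.H17EF

end
end

section

/-!
# EF Closed: unions of closed subsets of a projective variety
-/

set_option autoImplicit false

open Topology Filter MvPolynomial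

noncomputable section

namespace Pool.Agent.H17EF

open Pool.Agent.H17 (PN VanishesAt HolomorphicInto ZariskiClosedIn)
open Pool.Agent.H62.FC (Homog)

variable {N : ℕ} {P : Ideal (MvPolynomial (Fin (N + 1)) ℂ)}

/-- A form which is not in the homogeneous prime ideal `P` does not vanish at some point of the variety of `P`. -/
theorem exists_point [hPp : P.IsPrime] (hP : Homog P) (hX : ∃ i, (X i : MvPolynomial (Fin (N + 1)) ℂ) ∉ P)
    {Q : MvPolynomial (Fin (N + 1)) ℂ} (hQP : Q ∉ P) {n : ℕ} (hQ : Q.IsHomogeneous n) : ∃ x ∈ projVar P, ¬ VanishesAt Q x := by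
  obtain ⟨i, hi⟩ := hX
  have h1 : Q * X i ∉ P := fun h => (hPp.mem_or_mem h).elim hQP hi
  obtain ⟨x, hx, hx'⟩ : ∃ x : Fin (N + 1) → ℂ, (∀ R ∈ P, eval x R = 0) ∧ eval x (Q * X i) ≠ 0 := by
    by_contra hcon
    push Not at hcon
    apply h1
    rw [← hPp.radical, ← MvPolynomial.vanishingIdeal_zeroLocus_eq_radical (K := ℂ) P, MvPolynomial.mem_vanishingIdeal_iff]
    intro x hx
    rw [MvPolynomial.mem_zeroLocus_iff] at hx
    rw [MvPolynomial.aeval_eq_eval]
    exact hcon x fun R hR => by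
      have := hx R hR
      rwa [MvPolynomial.aeval_eq_eval] at this
  rw [map_mul, eval_X] at hx'
  have hx0 : x ≠ 0 := by
    rintro rfl
    simp at hx'
  refine ⟨Projectivization.mk ℂ x hx0, (mk_mem_projVar hP hx0).2 ⟨hx0, hx⟩, ?_⟩
  unfold VanishesAt
  obtain ⟨a, ha, hrep⟩ := Pool.Agent.H36.BP.rep_mk hx0
  rw [hrep, mk_mem_projVar.eval_smul_form' hQ]
  exact mul_ne_zero (pow_ne_zero n ha) (left_ne_zero_of_mul hx')

/-- if the variety of `P` is not empty, some coordinate is not in `P` -/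
theorem exists_coord {x : PN N} (hx : x ∈ projVar P) : ∃ i, (X i : MvPolynomial (Fin (N + 1)) ℂ) ∉ P := by
  by_contra hcon
  push Not at hcon
  apply x.rep_nonzero
  funext i
  have := hx _ (hcon i) 1 (isHomogeneous_X ℂ i)
  unfold VanishesAt at this
  simpa using this

end Pool.Agent.H17EF

end
end

section

/-!
# Et Defs: finite etale coverings of projective varieties
-/

set_option autoImplicit false

open Topology Filter MvPolynomial

noncomputable section

namespace Pool.Agent.H62.Et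

open Pool.Agent.H17 (PN VanishesAt HolomorphicInto)
open Pool.Agent.H17EF (projVar LE)
open Pool.Agent.H62.EF (MN pr)

variable {N M : ℕ}

/-- the embedding of the projective space in the space of matrices -/
def pn (x : PN N) : MN N := pr ((LE N) x.rep)

end Pool.Agent.H62.Et

end
end

section

/-!
# Et Hat: the embedding of the projective space in the space of matrices

`pn x = pr ((LE N) x.rep)`.  Everything from Pool.Agent.H62.EF.PrA: `pr_smul`, `pr_eq_iff`, `continuousAt_pr`, `isCompact_pr`, `near_of_pr`.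
* `pn_mk`: `Projectivization.exists_smul_eq_mk_rep` and `pr_smul`.
* `pn_injective`: `pr_eq_iff` and `Projectivization.mk_eq_mk_iff'`, `Projectivization.mk_rep`.
* `pn_near`: `near_of_pr` at `(LE N) x` with the preimage of `U` under `(LE N).symm`; `x' = c • y.rep`.
* `pn_continuousAt`: `pn_mk`, `continuousAt_pr`, congruence near `a` (use `hf.self_of_nhds` for `φ a ≠ 0`).
* `pn_continuous`: `HolomorphicInto f univ` gives local analytic lifts.
* `isCompact_pn`: `pn '' projVar P = pr '' coneE P` (`mem_coneE`), and `coneE P` is a cone which is closed together with `0` (structure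
  `Pool.Agent.H14.PP.IsCone`: zero_notMem, smul_mem, closed; the set `{y | ∀ Q ∈ P, eval ((LE N).symm y) Q = 0}` is closed and equal to `insert 0 (coneE P)`,
  or take closed = zeros of the ideal; if `0` is not a zero of `P` then `P = ⊤` and everything is empty), `isCompact_pr`.
-/

set_option autoImplicit false

open Topology Filter MvPolynomial

noncomputable section

namespace Pool.Agent.H62.Et

open Pool.Agent.H17 (PN VanishesAt HolomorphicInto)
open Pool.Agent.H62.FC (Homog)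
open Pool.Agent.H17EF (projVar LE coneE mem_coneE)
open Pool.Agent.H62.EF (MN pr)

variable {N : ℕ}

private theorem LE_ne {x : Fin (N + 1) → ℂ} (hx : x ≠ 0) : (LE N) x ≠ 0 := by
  intro h
  apply hx
  have := congrArg (LE N).symm h
  rwa [ContinuousLinearEquiv.symm_apply_apply, map_zero] at this

private theorem mk_smul_eq {x : Fin (N + 1) → ℂ} (hx : x ≠ 0) {c : ℂ} (h : c • x ≠ 0) :
    Projectivization.mk ℂ (c • x) h = Projectivization.mk ℂ x hx := by
  rw [Projectivization.mk_eq_mk_iff']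
  exact ⟨c, rfl⟩

theorem pn_mk {x : Fin (N + 1) → ℂ} (hx : x ≠ 0) : pn (Projectivization.mk ℂ x hx) = pr ((LE N) x) := by
  obtain ⟨a, ha, hrep⟩ := Pool.Agent.H36.BP.rep_mk hx
  unfold pn
  rw [hrep, map_smul]
  exact Pool.Agent.H62.EF.pr_smul _ ha

theorem pn_injective : Function.Injective (pn (N := N)) := by
  intro x y h
  have hx := x.rep_nonzero
  have hy := y.rep_nonzero
  obtain ⟨c, hc, e⟩ := (Pool.Agent.H62.EF.pr_eq_iff (LE_ne hx) (LE_ne hy)).1 h
  have e2 : x.rep = c • y.rep := by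
    have := congrArg (LE N).symm e
    rwa [map_smul, ContinuousLinearEquiv.symm_apply_apply, ContinuousLinearEquiv.symm_apply_apply] at this
  rw [← x.mk_rep, ← y.mk_rep, Projectivization.mk_eq_mk_iff']
  exact ⟨c, e2.symm⟩

theorem pn_near {x : Fin (N + 1) → ℂ} (hx : x ≠ 0) {U : Set (Fin (N + 1) → ℂ)} (hU : U ∈ 𝓝 x) :
    ∃ δ : ℝ, 0 < δ ∧ ∀ y : PN N, dist (pn y) (pn (Projectivization.mk ℂ x hx)) < δ → ∃ x' ∈ U, ∃ h : x' ≠ 0, y = Projectivization.mk ℂ x' h := by
  have hU' : (LE N).symm ⁻¹' U ∈ 𝓝 ((LE N) x) := by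
    refine (LE N).symm.continuous.continuousAt.preimage_mem_nhds ?_
    rwa [ContinuousLinearEquiv.symm_apply_apply]
  obtain ⟨δ, hδ, h⟩ := Pool.Agent.H62.EF.near_of_pr (LE_ne hx) hU'
  refine ⟨δ, hδ, fun y hy => ?_⟩
  rw [pn_mk hx] at hy
  obtain ⟨c, hc, hcU⟩ := h ((LE N) y.rep) (LE_ne y.rep_nonzero) hy
  rw [Set.mem_preimage, map_smul, ContinuousLinearEquiv.symm_apply_apply] at hcU
  have h0 : c • y.rep ≠ 0 := smul_ne_zero hc y.rep_nonzero
  refine ⟨c • y.rep, hcU, h0, ?_⟩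
  rw [mk_smul_eq y.rep_nonzero h0, y.mk_rep]

theorem pn_continuousAt {A : Type} [TopologicalSpace A] {φ : A → Fin (N + 1) → ℂ} {a : A} (hφ : ContinuousAt φ a) {f : A → PN N}
    (hf : ∀ᶠ b in 𝓝 a, ∃ h : φ b ≠ 0, f b = Projectivization.mk ℂ (φ b) h) : ContinuousAt (fun b => pn (f b)) a := by
  obtain ⟨h0, -⟩ := hf.self_of_nhds
  have h1 : ContinuousAt (fun b => pr ((LE N) (φ b))) a :=
    ContinuousAt.comp (g := pr) (f := fun b => (LE N) (φ b)) (Pool.Agent.H62.EF.continuousAt_pr (LE_ne h0))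
      ((LE N).continuous.continuousAt.comp hφ)
  refine h1.congr ?_
  filter_upwards [hf] with b hb
  obtain ⟨h, e⟩ := hb
  rw [e, pn_mk h]

theorem pn_continuous {f : ℂ → PN N} (hf : HolomorphicInto f Set.univ) : Continuous fun z => pn (f z) := by
  rw [continuous_iff_continuousAt]
  intro z
  obtain ⟨φ, h1, h2⟩ := hf z (Set.mem_univ z)
  exact pn_continuousAt h1.continuousAt h2

private theorem isCone_coneE {P : Ideal (MvPolynomial (Fin (N + 1)) ℂ)} (hP : Homog P) :
    Pool.Agent.H14.PP.IsCone (coneE P) where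
  zero_notMem h := by
    obtain ⟨h1, -⟩ := (mem_coneE hP).1 h
    exact h1 (map_zero _)
  smul_mem x hx c hc := by
    obtain ⟨h1, h2⟩ := (mem_coneE hP).1 hx
    refine (mem_coneE hP).2 ?_
    have h3 : (LE N).symm (c • x) = c • (LE N).symm x := map_smul _ _ _
    have h4 : (LE N).symm (c • x) ≠ 0 := by
      rw [h3]
      exact smul_ne_zero hc h1
    refine ⟨h4, ?_⟩
    have h5 : Projectivization.mk ℂ ((LE N).symm (c • x)) h4 = Projectivization.mk ℂ ((LE N).symm x) h1 := by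
      rw [Projectivization.mk_eq_mk_iff']
      exact ⟨c, h3.symm⟩
    rw [h5]
    exact h2
  closed := by
    by_cases h0 : ∀ Q ∈ P, eval (0 : Fin (N + 1) → ℂ) Q = 0
    · have e : insert 0 (coneE P) = ⋂ Q ∈ P, {y | eval ((LE N).symm y) Q = 0} := by
        ext y
        rw [Set.mem_insert_iff, Set.mem_iInter₂]
        constructor
        · rintro (rfl | hy)
          · intro Q hQ
            rw [Set.mem_ofPred_eq, map_zero]
            exact h0 Q hQ
          · intro Q hQ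
            exact hy.2 Q hQ
        · intro h
          by_cases hy : (LE N).symm y = 0
          · left
            have := congrArg (LE N) hy
            rwa [ContinuousLinearEquiv.apply_symm_apply, map_zero] at this
          · right
            exact ⟨hy, fun Q hQ => h Q hQ⟩
      rw [e]
      refine isClosed_biInter fun Q _ => ?_
      refine isClosed_eq ?_ continuous_const
      exact (MvPolynomial.continuous_eval Q).comp (LE N).symm.continuous
    · have e : coneE P = ∅ := by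
        rw [Set.eq_empty_iff_forall_notMem]
        intro y hy
        apply h0
        intro Q hQ
        have h1 := hP Q hQ 0
        rw [homogeneousComponent_zero] at h1
        have h2 := hy.2 _ h1
        rw [eval_C] at h2
        have h3 : eval (0 : Fin (N + 1) → ℂ) Q = coeff 0 Q := by
          rw [← constantCoeff_eq, MvPolynomial.eval_zero]
        rw [h3, h2]
      rw [e]
      simp

theorem isCompact_pn {P : Ideal (MvPolynomial (Fin (N + 1)) ℂ)} (hP : Homog P) : IsCompact (pn '' projVar P) := by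
  have e : pn '' projVar P = pr '' coneE P := by
    ext m
    constructor
    · rintro ⟨x, hx, rfl⟩
      refine ⟨(LE N) x.rep, (mem_coneE hP).2 ?_, rfl⟩
      have h1 : (LE N).symm ((LE N) x.rep) = x.rep := ContinuousLinearEquiv.symm_apply_apply _ _
      have h2 : (LE N).symm ((LE N) x.rep) ≠ 0 := by
        rw [h1]
        exact x.rep_nonzero
      refine ⟨h2, ?_⟩
      have h3 : Projectivization.mk ℂ ((LE N).symm ((LE N) x.rep)) h2 = x := by
        refine Eq.trans ?_ x.mk_rep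
        rw [Projectivization.mk_eq_mk_iff']
        exact ⟨1, by rw [one_smul, h1]⟩
      rw [h3]
      exact hx
    · rintro ⟨y, hy, rfl⟩
      obtain ⟨h, h'⟩ := (mem_coneE hP).1 hy
      refine ⟨_, h', ?_⟩
      rw [pn_mk h, ContinuousLinearEquiv.apply_symm_apply]
  rw [e]
  exact Pool.Agent.H62.EF.isCompact_pr (isCone_coneE hP)

end Pool.Agent.H62.Et

end
end

section

/-!
# PX F Crv: lifts of the curves

`Cn (k + 1) = Vd (k + 1) = Fin (k + 1) → ℂ`; `EN 1 = EuclideanSpace ℂ (Fin 2)`; `form θ y x.ofLp = Fo θ y x`.  `torus_disc`, `torus_univ`, `torus_half`: as `glue_disc` in `G3/F/LiftH` (local lifts modulo the discrete subgroup `Λ` glue on discs, on `ℂ` and on the half plane: the derivatives of the local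
lifts agree and have a primitive; the half plane is convex, holomorphic functions on convex open sets have primitives, or use the exhaustion by discs / the map `ζ ↦ (1 + ζ) / (1 - ζ)` from the disc).  `lift_disc`: `TG/Lf`, `disc_lift` for `z ↦ pr (g z)` (or `BP/Lift`, `lift_disc`).
`lift_univ`: `H17.exists_global_lift` or `G3.entire_lift`.
-/

set_option autoImplicit false

open Topology Filter Metric

namespace Pool.Agent.PX

open Pool.Agent.H17 (PN HolomorphicInto puncturedDisc)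
open Pool.Agent.H36.BP (EN fs wd)
open Pool.Agent.H62.EF (MN pr)
open Pool.Agent.AD (Vd)
open Pool.Agent.TG (Lat)
open Pool.Agent.G3 (wt LLift)
open Pool.Agent.PXF (Cn form ThreePoints Avoids HolomorphicIntoTorus IsCurve)

variable {k d : ℕ} {Λ : AddSubgroup (Vd (k + 1))} {θ : Fin (d + 1) → Vd (k + 1) → ℂ}

private theorem dt_iff (x v : EN 1) : dt x v ≠ 0 ↔ x.ofLp 0 * v.ofLp 1 ≠ x.ofLp 1 * v.ofLp 0 := by
  rw [dt, sub_ne_zero]

theorem three_iff (θ : Fin (d + 1) → Vd (k + 1) → ℂ) (y : Vd (k + 1)) : ThreePoints θ y ↔ ∃ x₁ x₂ x₃ : EN 1, Fo θ y x₁ = 0 ∧ Fo θ y x₂ = 0 ∧ Fo θ y x₃ = 0 ∧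
    dt x₁ x₂ ≠ 0 ∧ dt x₁ x₃ ≠ 0 ∧ dt x₂ x₃ ≠ 0 := by
  constructor
  · rintro ⟨x₁, x₂, x₃, h1, h2, h3, h4, h5, h6⟩
    exact ⟨WithLp.toLp 2 x₁, WithLp.toLp 2 x₂, WithLp.toLp 2 x₃, h1, h2, h3, (dt_iff _ _).2 h4, (dt_iff _ _).2 h5, (dt_iff _ _).2 h6⟩
  · rintro ⟨x₁, x₂, x₃, h1, h2, h3, h4, h5, h6⟩
    exact ⟨x₁.ofLp, x₂.ofLp, x₃.ofLp, h1, h2, h3, (dt_iff _ _).1 h4, (dt_iff _ _).1 h5, (dt_iff _ _).1 h6⟩

/-- avoiding `E` in terms of representatives -/
theorem avoids_mk {y : Vd (k + 1)} {x : EN 1} (hx : x.ofLp ≠ 0) (h : Avoids Λ θ (y : Cn (k + 1) ⧸ Λ) (Projectivization.mk ℂ x.ofLp hx)) : Fo θ y x ≠ 0 := by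
  have h1 := h y rfl
  obtain ⟨a, ha⟩ := Projectivization.exists_smul_eq_mk_rep ℂ x.ofLp hx
  rw [← ha] at h1
  intro h2
  apply h1
  have h3 := fo_smul θ y (a : ℂ) x
  rw [h2, mul_zero] at h3
  exact h3

/-- local lifts modulo a discrete subgroup glue on an open connected set where holomorphic functions have primitives -/
private theorem glue {E : Type*} [NormedAddCommGroup E] [NormedSpace ℂ E] {Λ : AddSubgroup E} {δ : ℝ} (hδ : 0 < δ)
    (hΛ : ∀ l ∈ Λ, ‖l‖ < δ → l = 0) {w : ℂ → E} {U : Set ℂ} (hUo : IsOpen U) (hUc : IsPreconnected U) {c : ℂ} (hcc : c ∈ U)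
    (hprim : ∀ ψ : ℂ → E, DifferentiableOn ℂ ψ U → ∃ g : ℂ → E, ∀ z ∈ U, HasDerivAt g (ψ z) z)
    (hloc : ∀ z₀ ∈ U, ∃ h : ℂ → E, AnalyticAt ℂ h z₀ ∧ ∀ᶠ z in 𝓝 z₀, w z - h z ∈ Λ) [CompleteSpace E] :
    ∃ h : ℂ → E, DifferentiableOn ℂ h U ∧ ∀ z ∈ U, w z - h z ∈ Λ := by
  classical
  choose! H hHan hHmem using hloc
  obtain ⟨ψ, hψ⟩ : ∃ ψ : ℂ → E, ψ = fun z => deriv (H z) z := ⟨_, rfl⟩
  -- the local derivatives agree
  have hagree : ∀ z₀ ∈ U, ψ =ᶠ[𝓝 z₀] deriv (H z₀) := by
    intro z₀ hz₀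
    filter_upwards [hUo.mem_nhds hz₀, (hHan z₀ hz₀).eventually_analyticAt, (hHmem z₀ hz₀).eventually_nhds] with z h1 h2 h3
    rw [hψ]
    have h4 : ContinuousAt (fun y => H z y - H z₀ y) z := (hHan z h1).continuousAt.sub h2.continuousAt
    have h5 : ∀ᶠ y in 𝓝 z, ‖(H z y - H z₀ y) - (H z z - H z₀ z)‖ < δ := by
      have h6 : Tendsto (fun y => (H z y - H z₀ y) - (H z z - H z₀ z)) (𝓝 z) (𝓝 ((H z z - H z₀ z) - (H z z - H z₀ z))) := h4.tendsto.sub_const _
      rw [sub_self] at h6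
      have h7 := h6.norm
      rw [norm_zero] at h7
      exact h7.eventually (gt_mem_nhds hδ)
    have h8 : H z =ᶠ[𝓝 z] fun y => H z₀ y + (H z z - H z₀ z) := by
      have h9 := (hHmem z h1).self_of_nhds
      have h10 := h3.self_of_nhds
      filter_upwards [h5, hHmem z h1, h3] with y h11 h12 h13
      have h14 : (H z y - H z₀ y) - (H z z - H z₀ z) ∈ Λ := by
        have h15 := Λ.sub_mem (Λ.sub_mem h13 h12) (Λ.sub_mem h10 h9)
        have h16 : w y - H z₀ y - (w y - H z y) - (w z - H z₀ z - (w z - H z z)) = (H z y - H z₀ y) - (H z z - H z₀ z) := by abel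
        rwa [h16] at h15
      have h17 := hΛ _ h14 h11
      rw [sub_eq_zero, sub_eq_iff_eq_add] at h17
      rw [h17]
      abel
    change deriv (H z) z = deriv (H z₀) z
    rw [h8.deriv_eq, deriv_add_const]
  have hψd : DifferentiableOn ℂ ψ U := by
    intro z₀ hz₀
    have h1 : DifferentiableAt ℂ (deriv (H z₀)) z₀ := (hHan z₀ hz₀).deriv.differentiableAt
    exact (h1.congr_of_eventuallyEq (hagree z₀ hz₀)).differentiableWithinAt
  obtain ⟨g, hg⟩ := hprim ψ hψd
  refine ⟨fun z => g z + (w c - g c), fun z hz => ((hg z hz).differentiableAt.add_const _).differentiableWithinAt, ?_⟩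
  -- the difference is locally constant modulo the subgroup
  have hind : ∀ x ∈ U, ∀ y ∈ U, (w x - g x) - (w y - g y) ∈ Λ := by
    intro x hx y hy
    refine hUc.induction₂ (fun x y => (w x - g x) - (w y - g y) ∈ Λ) ?_ ?_ ?_ hx hy
    · intro z₀ hz₀
      apply mem_nhdsWithin_of_mem_nhds
      have hder : ∀ᶠ z in 𝓝 z₀, HasDerivAt (fun z => H z₀ z - g z) 0 z := by
        filter_upwards [hUo.mem_nhds hz₀, (hHan z₀ hz₀).eventually_analyticAt, hagree z₀ hz₀] with z h1 h2 h3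
        have h4 := h2.differentiableAt.hasDerivAt.sub (hg z h1)
        rwa [h3, sub_self] at h4
      obtain ⟨ε, hε, hball⟩ := Metric.eventually_nhds_iff_ball.1 hder
      have hconst : ∀ z ∈ ball z₀ ε, H z₀ z - g z = H z₀ z₀ - g z₀ := by
        intro z hz
        exact (convex_ball z₀ ε).is_const_of_fderivWithin_eq_zero (𝕜 := ℂ) (f := fun z => H z₀ z - g z)
          (fun y hy => (hball y hy).differentiableAt.differentiableWithinAt)
          (fun y hy => by
            rw [fderivWithin_of_isOpen isOpen_ball hy]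
            ext1
            exact (hball y hy).deriv) hz (mem_ball_self hε)
      have h0 := (hHmem z₀ hz₀).self_of_nhds
      filter_upwards [hHmem z₀ hz₀, isOpen_ball.mem_nhds (mem_ball_self hε)] with z h1 h2
      have h3 := hconst z h2
      have h4 := Λ.sub_mem h0 h1
      have h5 : (w z₀ - g z₀) - (w z - g z) = (w z₀ - H z₀ z₀ - (w z - H z₀ z)) + ((H z₀ z₀ - g z₀) - (H z₀ z - g z)) := by abel
      change (w z₀ - g z₀) - (w z - g z) ∈ Λ
      rw [h5, h3, sub_self, add_zero]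
      exact h4
    · intro x y z _ _ _ h1 h2
      have h3 := Λ.add_mem h1 h2
      have h4 : (w x - g x) - (w z - g z) = ((w x - g x) - (w y - g y)) + ((w y - g y) - (w z - g z)) := by abel
      rw [h4]
      exact h3
    · intro x y _ _ h1
      have h2 := Λ.neg_mem h1
      rwa [neg_sub] at h2
  intro z hz
  have h1 := hind z hz c hcc
  have h2 : w z - (g z + (w c - g c)) = (w z - g z) - (w c - g c) := by abel
  rw [h2]
  exact h1

private theorem mk_iff {a b : Vd (k + 1)} : (a : Cn (k + 1) ⧸ Λ) = (b : Cn (k + 1) ⧸ Λ) ↔ a - b ∈ Λ := by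
  rw [eq_comm, QuotientAddGroup.eq, neg_add_eq_sub]

private theorem torus_glue (hΛ : Lat Λ) {t : ℂ → Cn (k + 1) ⧸ Λ} {U : Set ℂ} (hUo : IsOpen U) (hUc : IsPreconnected U) {c : ℂ} (hcc : c ∈ U)
    (hprim : ∀ ψ : ℂ → Vd (k + 1), DifferentiableOn ℂ ψ U → ∃ g : ℂ → Vd (k + 1), ∀ z ∈ U, HasDerivAt g (ψ z) z) (ht : HolomorphicIntoTorus Λ t U) :
    ∃ h : ℂ → Vd (k + 1), DifferentiableOn ℂ h U ∧ ∀ z ∈ U, t z = (h z : Cn (k + 1) ⧸ Λ) := by
  obtain ⟨δ, hδ, hd⟩ := hΛ.disc
  have hw : ∀ z, ((Quotient.out (t z) : Vd (k + 1)) : Cn (k + 1) ⧸ Λ) = t z := fun z => Quotient.out_eq (t z)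
  obtain ⟨h, h1, h2⟩ := glue hδ hd (w := fun z => (Quotient.out (t z) : Vd (k + 1))) hUo hUc hcc hprim (fun z₀ hz₀ => by
    obtain ⟨h, h1, h2⟩ := ht z₀ hz₀
    refine ⟨h, h1, ?_⟩
    filter_upwards [h2] with z hz
    rw [← mk_iff, hw, hz])
  refine ⟨h, h1, fun z hz => ?_⟩
  rw [← hw z]
  exact mk_iff.2 (h2 z hz)

theorem torus_disc (hΛ : Lat Λ) {t : ℂ → Cn (k + 1) ⧸ Λ} {c : ℂ} {R : ℝ} (ht : HolomorphicIntoTorus Λ t (ball c R)) :
    ∃ h : ℂ → Vd (k + 1), DifferentiableOn ℂ h (ball c R) ∧ ∀ z ∈ ball c R, t z = (h z : Cn (k + 1) ⧸ Λ) := by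
  rcases le_or_gt R 0 with hR | hR
  · refine ⟨fun _ => 0, differentiableOn_const _, fun z hz => ?_⟩
    rw [ball_eq_empty.mpr hR] at hz
    exact hz.elim
  · exact torus_glue hΛ isOpen_ball (convex_ball c R).isPreconnected (mem_ball_self hR) (fun ψ hψ => hψ.isExactOn_ball) ht

theorem torus_univ (hΛ : Lat Λ) {t : ℂ → Cn (k + 1) ⧸ Λ} (ht : HolomorphicIntoTorus Λ t Set.univ) :
    ∃ h : ℂ → Vd (k + 1), Differentiable ℂ h ∧ ∀ z, t z = (h z : Cn (k + 1) ⧸ Λ) := by
  obtain ⟨h, h1, h2⟩ := torus_glue hΛ isOpen_univ isPreconnected_univ (Set.mem_univ 0) (fun ψ hψ => (differentiableOn_univ.1 hψ).isExactOn_univ) ht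
  exact ⟨h, differentiableOn_univ.1 h1, fun z => h2 z (Set.mem_univ z)⟩

/-- the lift of a map of the punctured disc to the half plane -/
theorem torus_half (hΛ : Lat Λ) {t : ℂ → Cn (k + 1) ⧸ Λ} (ht : HolomorphicIntoTorus Λ t puncturedDisc) :
    ∃ h : ℂ → Vd (k + 1), DifferentiableOn ℂ h {ζ | ζ.re < 0} ∧ ∀ ζ : ℂ, ζ.re < 0 → t (Complex.exp ζ) = (h ζ : Cn (k + 1) ⧸ Λ) := by
  -- the Cayley transform
  set φ : ℂ → ℂ := fun ω => -(1 + ω) / (1 - ω) with hφ
  have hne : ∀ ω ∈ ball (0 : ℂ) 1, 1 - ω ≠ 0 := fun ω hω h => by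
    rw [mem_ball_zero_iff, ← sub_eq_zero.1 h, norm_one] at hω
    exact lt_irrefl _ hω
  have hre : ∀ ω ∈ ball (0 : ℂ) 1, (φ ω).re < 0 := by
    intro ω hω
    have h1 : 0 < Complex.normSq (1 - ω) := Complex.normSq_pos.2 (hne ω hω)
    have h2 : ω.re ^ 2 + ω.im ^ 2 < 1 := by
      have h3 : ‖ω‖ ^ 2 < 1 := by
        rw [mem_ball_zero_iff] at hω
        have := norm_nonneg ω
        nlinarith
      rw [← Complex.normSq_eq_norm_sq, Complex.normSq_apply] at h3
      nlinarith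
    have h3 : (φ ω).re = (ω.re ^ 2 + ω.im ^ 2 - 1) / Complex.normSq (1 - ω) := by
      simp only [hφ, Complex.div_re, Complex.neg_re, Complex.add_re, Complex.one_re, Complex.sub_re, Complex.neg_im, Complex.add_im, Complex.one_im, Complex.sub_im]
      rw [← add_div]
      congr 1
      ring
    rw [h3]
    exact div_neg_of_neg_of_pos (by linarith) h1
  have hexp : ∀ ζ : ℂ, ζ.re < 0 → Complex.exp ζ ∈ puncturedDisc := fun ζ hζ => by
    refine ⟨?_, ?_⟩
    · rw [mem_ball_zero_iff, Complex.norm_exp]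
      exact Real.exp_lt_one_iff.2 hζ
    · exact Complex.exp_ne_zero ζ
  have hφa : ∀ ω ∈ ball (0 : ℂ) 1, AnalyticAt ℂ φ ω := fun ω hω =>
    ((analyticAt_const.add analyticAt_id).neg).div (analyticAt_const.sub analyticAt_id) (hne ω hω)
  obtain ⟨h, h1, h2⟩ := torus_disc hΛ (t := fun ω => t (Complex.exp (φ ω))) (c := 0) (R := 1) (fun ω hω => by
    obtain ⟨f, f1, f2⟩ := ht _ (hexp _ (hre ω hω))
    have h3 : AnalyticAt ℂ (fun ω => Complex.exp (φ ω)) ω := (hφa ω hω).cexp
    exact ⟨fun ω => f (Complex.exp (φ ω)), f1.comp_of_eq h3 rfl, h3.continuousAt.eventually f2⟩)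
  have hζ1 : ∀ ζ : ℂ, ζ.re < 0 → ζ - 1 ≠ 0 := fun ζ hζ h => by
    rw [sub_eq_zero.1 h] at hζ
    norm_num at hζ
  have hin : ∀ ζ : ℂ, ζ.re < 0 → (ζ + 1) / (ζ - 1) ∈ ball (0 : ℂ) 1 := fun ζ hζ => by
    rw [mem_ball_zero_iff, norm_div, div_lt_one (norm_pos_iff.2 (hζ1 ζ hζ))]
    refine lt_of_pow_lt_pow_left₀ 2 (norm_nonneg _) ?_
    rw [← Complex.normSq_eq_norm_sq, ← Complex.normSq_eq_norm_sq, Complex.normSq_apply, Complex.normSq_apply]
    simp only [Complex.add_re, Complex.sub_re, Complex.one_re, Complex.add_im, Complex.sub_im, Complex.one_im]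
    nlinarith
  have hinv : ∀ ζ : ℂ, ζ.re < 0 → φ ((ζ + 1) / (ζ - 1)) = ζ := fun ζ hζ => by
    have h3 := hζ1 ζ hζ
    have h4 : 1 - (ζ + 1) / (ζ - 1) = -2 / (ζ - 1) := by
      field_simp
      ring
    have h5 : -(1 + (ζ + 1) / (ζ - 1)) = ζ * (-2 / (ζ - 1)) := by
      field_simp
      ring
    simp only [hφ]
    rw [h4, h5, mul_div_assoc, div_self, mul_one]
    exact div_ne_zero (by norm_num) h3
  refine ⟨fun ζ => h ((ζ + 1) / (ζ - 1)), ?_, fun ζ hζ => ?_⟩
  · refine h1.comp ?_ fun ζ hζ => hin ζ hζ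
    intro ζ hζ
    have e1 : DifferentiableAt ℂ (fun ζ : ℂ => ζ + 1) ζ := differentiableAt_id.add_const 1
    have e2 : DifferentiableAt ℂ (fun ζ : ℂ => ζ - 1) ζ := differentiableAt_id.sub_const 1
    exact (e1.div e2 (hζ1 ζ hζ)).differentiableWithinAt
  · have h3 := h2 _ (hin ζ hζ)
    simp only [hinv ζ hζ] at h3
    exact h3

private theorem ofLp_ne {x : EN 1} (hx : x ≠ 0) : x.ofLp ≠ 0 := by
  intro h
  apply hx
  ext j
  exact congrFun h j

private theorem mk_of_pr {w : EN 1} (hw : w ≠ 0) {p : PN 1} (h : pr (WithLp.toLp 2 p.rep : EN 1) = pr w) : ∃ h' : w.ofLp ≠ 0, p = Projectivization.mk ℂ w.ofLp h' := by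
  have h1 : (WithLp.toLp 2 p.rep : EN 1) ≠ 0 := fun h2 => p.rep_nonzero (by
    funext j
    exact congrArg (fun v : EN 1 => v.ofLp j) h2)
  obtain ⟨c, -, h3⟩ := (Pool.Agent.H62.EF.pr_eq_iff h1 hw).1 h
  refine ⟨ofLp_ne hw, ?_⟩
  rw [← Projectivization.mk_rep p, Projectivization.mk_eq_mk_iff']
  exact ⟨c, by
    have h4 := congrArg (fun v : EN 1 => v.ofLp) h3
    exact h4.symm⟩

/-- local lifts in the language of `LLift` -/
private theorem llift_of' {g : ℂ → PN 1} {z₀ : ℂ} {U : Set ℂ} (hg : HolomorphicInto g U) (hz : z₀ ∈ U) :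
    LLift (fun z => pr (WithLp.toLp 2 (g z).rep : EN 1)) z₀ := by
  obtain ⟨φ, h1, h2⟩ := hg z₀ hz
  refine ⟨fun z => WithLp.toLp 2 (φ z), ?_, ?_⟩
  · exact ((PiLp.continuousLinearEquiv 2 ℂ (fun _ : Fin (1 + 1) => ℂ)).symm.toContinuousLinearMap.analyticAt (φ z₀)).comp h1
  · filter_upwards [h2] with z hz
    obtain ⟨h3, h4⟩ := hz
    have h5 : (WithLp.toLp 2 (φ z) : EN 1) ≠ 0 := fun h6 => h3 (by
      funext j
      exact congrArg (fun v : EN 1 => v.ofLp j) h6)
    refine ⟨h5, ?_⟩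
    obtain ⟨a, ha⟩ := Projectivization.exists_smul_eq_mk_rep ℂ (φ z) h3
    rw [h4, ← ha]
    exact Pool.Agent.H62.EF.pr_smul (WithLp.toLp 2 (φ z) : EN 1) a.ne_zero

/-- the lift of a curve on a disc -/
theorem lift_disc {h : ℂ → Vd (k + 1)} {g : ℂ → PN 1} {c : ℂ} {R : ℝ} (hh : DifferentiableOn ℂ h (ball c R)) (hg : HolomorphicInto g (ball c R))
    (ha : ∀ z ∈ ball c R, Avoids Λ θ (h z : Cn (k + 1) ⧸ Λ) (g z)) {r : ℝ} (hr : r < R) :
    ∃ w : ℂ → EN 1, Cp θ (ball c r) w h ∧ ∀ z ∈ ball c r, ∃ h' : (w z).ofLp ≠ 0, g z = Projectivization.mk ℂ (w z).ofLp h' := by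
  obtain ⟨F, hF, hFg⟩ := Pool.Agent.TG.disc_lift (f := fun z => pr (WithLp.toLp 2 (g (c + z)).rep : EN 1)) (R := R) (fun z hz => by
    have h1 : c + z ∈ ball c R := by
      rw [mem_ball_iff_norm, add_sub_cancel_left, ← mem_ball_zero_iff]
      exact hz
    obtain ⟨Φ, h2, h3⟩ := llift_of' hg h1
    have h4 : AnalyticAt ℂ (fun z : ℂ => c + z) z := analyticAt_const.add analyticAt_id
    exact ⟨fun z => Φ (c + z), h2.comp_of_eq h4 rfl, h4.continuousAt.eventually h3⟩) hr
  have hin : ∀ z ∈ ball c r, z - c ∈ ball (0 : ℂ) r := fun z hz => by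
    rw [mem_ball_zero_iff, ← mem_ball_iff_norm]
    exact hz
  have hmk : ∀ z ∈ ball c r, ∃ h' : (F (z - c)).ofLp ≠ 0, g z = Projectivization.mk ℂ (F (z - c)).ofLp h' := fun z hz => by
    obtain ⟨h1, h2⟩ := hFg _ (hin z hz)
    simp only [add_sub_cancel] at h2
    exact mk_of_pr h1 h2
  refine ⟨fun z => F (z - c), ⟨?_, hh.mono (ball_subset_ball hr.le), fun z hz => ?_⟩, hmk⟩
  · exact hF.comp (differentiable_id.sub_const c).differentiableOn hin
  · obtain ⟨h', h1⟩ := hmk z hz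
    have h2 := ha z (ball_subset_ball hr.le hz)
    rw [h1] at h2
    exact avoids_mk h' h2

theorem lift_univ {h : ℂ → Vd (k + 1)} {g : ℂ → PN 1} (hh : Differentiable ℂ h) (hg : HolomorphicInto g Set.univ)
    (ha : ∀ z, Avoids Λ θ (h z : Cn (k + 1) ⧸ Λ) (g z)) :
    ∃ w : ℂ → EN 1, Differentiable ℂ w ∧ ∀ z, Fo θ (h z) (w z) ≠ 0 ∧ ∃ h' : (w z).ofLp ≠ 0, g z = Projectivization.mk ℂ (w z).ofLp h' := by
  obtain ⟨F, hF, hFg⟩ := Pool.Agent.G3.entire_lift (f := fun z => pr (WithLp.toLp 2 (g z).rep : EN 1)) fun z => llift_of' hg (Set.mem_univ z)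
  refine ⟨F, hF, fun z => ?_⟩
  obtain ⟨h1, h2⟩ := hFg z
  obtain ⟨h', h3⟩ := mk_of_pr h1 h2
  have h4 := ha z
  rw [h3] at h4
  exact ⟨avoids_mk h' h4, h', h3⟩

/-- local lifts in the language of `LLift` -/
theorem llift_of {g : ℂ → PN 1} {z₀ : ℂ} {U : Set ℂ} (hg : HolomorphicInto g U) (hz : z₀ ∈ U) :
    LLift (fun z => pr (WithLp.toLp 2 (g z).rep : EN 1)) z₀ := llift_of' hg hz

end Pool.Agent.PX

end
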