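import Pool.Agent.H94.PX2.M02
import Pool.Agent.H94.PX2.M05

/-! The parts of this file: H13.CV.CubD, H13.CV.CubA, H13.CV.CubX, H13.CV.CubB, H13.CV.CubI, HE.Psi. -/

section

/-!
# CV CubD: the cone of a Weierstrass cubic

`cub α β x = x₁² x₂ - 4 x₀³ + α x₀ x₂² + β x₂³`, its gradient `gr`, the doubling map `dbl` (of degree `4`), the cone `Cub α β` (without `0`), the vector product `cr x v`.
-/

set_option autoImplicit false

open Topology Filter Metric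
open Pool.Agent.H36.BP

noncomputable section

namespace Pool.Agent.H13.CV

/-- the form -/
def cub (α β : ℂ) (x : Fin 3 → ℂ) : ℂ := x 1 ^ 2 * x 2 - 4 * x 0 ^ 3 + α * x 0 * x 2 ^ 2 + β * x 2 ^ 3

/-- its gradient -/
def gr (α β : ℂ) (x : Fin 3 → ℂ) : Fin 3 → ℂ :=
  ![-12 * x 0 ^ 2 + α * x 2 ^ 2, 2 * x 1 * x 2, x 1 ^ 2 + 2 * α * x 0 * x 2 + 3 * β * x 2 ^ 2]

/-- the vector product -/
def cr (x v : Fin 3 → ℂ) : Fin 3 → ℂ := ![x 1 * v 2 - x 2 * v 1, x 2 * v 0 - x 0 * v 2, x 0 * v 1 - x 1 * v 0]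

/-- the doubling map -/
def dbl (α β : ℂ) (x : Fin 3 → ℂ) : Fin 3 → ℂ :=
  ![x 1 * (8 * x 0 * x 1 ^ 2 + 24 * α * x 0 ^ 2 * x 2 + 72 * β * x 0 * x 2 ^ 2 + 2 * α ^ 2 * x 2 ^ 3),
    4 * x 1 ^ 4 - 12 * α * x 0 * x 1 ^ 2 * x 2 - 72 * β * x 1 ^ 2 * x 2 ^ 2 - 36 * α ^ 2 * x 0 ^ 2 * x 2 ^ 2 - 108 * α * β * x 0 * x 2 ^ 3 + (α ^ 3 - 108 * β ^ 2) * x 2 ^ 4,
    32 * x 1 ^ 3 * x 2]

/-- the cone of the cubic, without `0` -/
def Cub (α β : ℂ) : Set (EN 2) := {x | x ≠ 0 ∧ cub α β x.ofLp = 0}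

end Pool.Agent.H13.CV

end
end

section

/-!
# CV CubA: algebra of the doubling map

`gr_ne`: let `cub x = 0`, `gr x = 0`, `x ≠ 0`.  If `x 2 = 0`: `x 0 = 0` (`cub`), `x 1 = 0` (`gr x 2`): contradiction.  If `x 2 ≠ 0`: `x 1 = 0` (`gr x 1`); `u = x 0 / x 2`: `12 u² = α` (`gr x 0`),
`4 u³ - α u - β = 0` (`cub`), so `- 8 u³ = β` and `α³ = 1728 u⁶ = 27 β²`: contradiction.

`cub_dbl`: the polynomial `cub (dbl x)` (degree `12`) is a multiple of `cub x`: divide by `cub x` as a polynomial in `x 0` (leading coefficient `-4`) with a small program, and use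
`linear_combination (quotient) * h`.  (In the affine coordinates `u = x 0 / x 2`, `v = x 1 / x 2`, `v² = 4 u³ - α u - β`: `U = -2 u + (12 u² - α)² / (16 v²) = (4 u v² + 12 α u² + 36 β u + α²) / (16 v²)`,
`V = - v - (12 u² - α) (U - u) / (2 v)`, `V = (4 v⁴ - 12 α u v² - 72 β v² - 36 α² u² - 108 α β u + α³ - 108 β²) / (32 v³)`, so an alternative is: if `x 1 * x 2 ≠ 0` go to affine coordinates and use
`field_simp`; if `x 1 = 0` or `x 2 = 0` check directly.)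

`dbl_ne`: let `dbl x = 0`, `cub x = 0`, `x ≠ 0`.  `x 1 ^ 3 * x 2 = 0`.  If `x 2 = 0` then `x 0 = 0` by `cub`, and `4 x₁⁴ = 0`, so `x = 0`.  If `x 2 ≠ 0`, `x 1 = 0`: with `u = x 0 / x 2`: `4 u³ = α u + β` and
`- 36 α² u² - 108 α β u + α³ - 108 β² = 0`; but `(12 u² - α)³ = 36 α² u² + 108 α β u - α³ + 108 β²` when `4 u³ = α u + β`, so `12 u² = α`, and then `gr x = 0`: contradiction to `gr_ne`.
-/

set_option autoImplicit false

open Topology Filter Metric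
open Pool.Agent.H36.BP

noncomputable section

namespace Pool.Agent.H13.CV

theorem gr_ne {α β : ℂ} (hd : α ^ 3 ≠ 27 * β ^ 2) {x : Fin 3 → ℂ} (hx : x ≠ 0) (hc : cub α β x = 0) : gr α β x ≠ 0 := by
  intro hg
  have h0 : -12 * x 0 ^ 2 + α * x 2 ^ 2 = 0 := by simpa [gr] using congrFun hg 0
  have h1 : 2 * x 1 * x 2 = 0 := by simpa [gr] using congrFun hg 1
  have h2 : x 1 ^ 2 + 2 * α * x 0 * x 2 + 3 * β * x 2 ^ 2 = 0 := by simpa [gr] using congrFun hg 2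
  unfold cub at hc
  by_cases hx2 : x 2 = 0
  · rw [hx2] at h0 h2 hc
    have h3 : x 0 = 0 := by
      have : x 0 ^ 2 = 0 := by linear_combination (-1 / 12 : ℂ) * h0
      exact pow_eq_zero_iff (by norm_num) |>.1 this
    have h4 : x 1 = 0 := by
      have : x 1 ^ 2 = 0 := by linear_combination h2
      exact pow_eq_zero_iff (by norm_num) |>.1 this
    apply hx
    funext i
    fin_cases i
    · exact h3
    · exact h4
    · exact hx2
  · have hx1 : x 1 = 0 := by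
      rcases mul_eq_zero.1 h1 with h | h
      · exact (mul_eq_zero.1 h).resolve_left two_ne_zero
      · exact absurd h hx2
    rw [hx1] at hc
    apply hd
    have h5 : -8 * x 0 ^ 3 = β * x 2 ^ 3 := by linear_combination -hc + x 0 * h0
    have h6 : 12 * x 0 ^ 2 = α * x 2 ^ 2 := by linear_combination -h0
    have h7 : (α ^ 3 - 27 * β ^ 2) * x 2 ^ 6 = 0 := by
      have e1 : (12 * x 0 ^ 2) ^ 3 = (α * x 2 ^ 2) ^ 3 := by rw [h6]
      have e2 : (-8 * x 0 ^ 3) ^ 2 = (β * x 2 ^ 3) ^ 2 := by rw [h5]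
      linear_combination -e1 + 27 * e2
    rcases mul_eq_zero.1 h7 with h | h
    · linear_combination h
    · exact absurd (pow_eq_zero_iff (by norm_num) |>.1 h) hx2

theorem cub_dbl {α β : ℂ} {x : Fin 3 → ℂ} (hc : cub α β x = 0) : cub α β (dbl α β x) = 0 := by
  unfold cub at hc
  have e0 : dbl α β x 0 = x 1 * (8 * x 0 * x 1 ^ 2 + 24 * α * x 0 ^ 2 * x 2 + 72 * β * x 0 * x 2 ^ 2 + 2 * α ^ 2 * x 2 ^ 3) := rfl
  have e1 : dbl α β x 1 = 4 * x 1 ^ 4 - 12 * α * x 0 * x 1 ^ 2 * x 2 - 72 * β * x 1 ^ 2 * x 2 ^ 2 - 36 * α ^ 2 * x 0 ^ 2 * x 2 ^ 2 -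
      108 * α * β * x 0 * x 2 ^ 3 + (α ^ 3 - 108 * β ^ 2) * x 2 ^ 4 := rfl
  have e2 : dbl α β x 2 = 32 * x 1 ^ 3 * x 2 := rfl
  unfold cub
  rw [e0, e1, e2]
  linear_combination ((13824) * x 0 ^ 3 * x 1 ^ 3 * x 2 ^ 3 * α ^ 3 + (13824) * x 0 ^ 2 * x 1 ^ 5 * x 2 ^ 2 * α ^ 2 +
    (124416) * x 0 ^ 2 * x 1 ^ 3 * x 2 ^ 4 * α ^ 2 * β + (4608) * x 0 * x 1 ^ 7 * x 2 * α + (82944) * x 0 * x 1 ^ 5 * x 2 ^ 3 * α * β +
    (-3456) * x 0 * x 1 ^ 3 * x 2 ^ 5 * α ^ 4 + (373248) * x 0 * x 1 ^ 3 * x 2 ^ 5 * α * β ^ 2 + (512) * x 1 ^ 9 +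
    (13824) * x 1 ^ 7 * x 2 ^ 2 * β + (2304) * x 1 ^ 5 * x 2 ^ 4 * α ^ 3 + (124416) * x 1 ^ 5 * x 2 ^ 4 * β ^ 2 +
    (-6912) * x 1 ^ 3 * x 2 ^ 6 * α ^ 3 * β + (373248) * x 1 ^ 3 * x 2 ^ 6 * β ^ 3) * hc

theorem dbl_ne {α β : ℂ} (hd : α ^ 3 ≠ 27 * β ^ 2) {x : Fin 3 → ℂ} (hx : x ≠ 0) (hc : cub α β x = 0) : dbl α β x ≠ 0 := by
  intro h
  have e1 : 4 * x 1 ^ 4 - 12 * α * x 0 * x 1 ^ 2 * x 2 - 72 * β * x 1 ^ 2 * x 2 ^ 2 - 36 * α ^ 2 * x 0 ^ 2 * x 2 ^ 2 -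
      108 * α * β * x 0 * x 2 ^ 3 + (α ^ 3 - 108 * β ^ 2) * x 2 ^ 4 = 0 := congrFun h 1
  have e2 : 32 * x 1 ^ 3 * x 2 = 0 := congrFun h 2
  have hg := gr_ne hd hx hc
  unfold cub at hc
  by_cases hx2 : x 2 = 0
  · rw [hx2] at e1 hc
    have h3 : x 0 = 0 := by
      have : x 0 ^ 3 = 0 := by linear_combination (-1 / 4 : ℂ) * hc
      exact pow_eq_zero_iff (by norm_num) |>.1 this
    have h4 : x 1 = 0 := by
      have : x 1 ^ 4 = 0 := by linear_combination (1 / 4 : ℂ) * e1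
      exact pow_eq_zero_iff (by norm_num) |>.1 this
    apply hx
    funext i
    fin_cases i
    · exact h3
    · exact h4
    · exact hx2
  · have hx1 : x 1 = 0 := by
      rcases mul_eq_zero.1 e2 with h | h
      · exact pow_eq_zero_iff (by norm_num) |>.1 ((mul_eq_zero.1 h).resolve_left (by norm_num))
      · exact absurd h hx2
    rw [hx1] at e1 hc
    have h5 : - 36 * α ^ 2 * x 0 ^ 2 - 108 * α * β * x 0 * x 2 + (α ^ 3 - 108 * β ^ 2) * x 2 ^ 2 = 0 := by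
      have : x 2 ^ 2 * (- 36 * α ^ 2 * x 0 ^ 2 - 108 * α * β * x 0 * x 2 + (α ^ 3 - 108 * β ^ 2) * x 2 ^ 2) = 0 := by
        linear_combination e1
      exact (mul_eq_zero.1 this).resolve_left (pow_ne_zero _ hx2)
    have h6 : (12 * x 0 ^ 2 - α * x 2 ^ 2) ^ 3 = 0 := by
      have hc' : 4 * x 0 ^ 3 = α * x 0 * x 2 ^ 2 + β * x 2 ^ 3 := by linear_combination -hc
      linear_combination (432 * x 0 ^ 3 + 108 * (α * x 0 * x 2 ^ 2 + β * x 2 ^ 3) - 108 * α * x 0 * x 2 ^ 2) * hc' - x 2 ^ 4 * h5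
    have h7 : 12 * x 0 ^ 2 - α * x 2 ^ 2 = 0 := pow_eq_zero_iff (by norm_num) |>.1 h6
    apply hg
    have h8 : 2 * α * x 0 * x 2 + 3 * β * x 2 ^ 2 = 0 := by
      have : x 2 * (2 * α * x 0 * x 2 + 3 * β * x 2 ^ 2) = 0 := by
        linear_combination 3 * hc + x 0 * h7
      exact (mul_eq_zero.1 this).resolve_left hx2
    funext i
    fin_cases i
    · change -12 * x 0 ^ 2 + α * x 2 ^ 2 = 0
      linear_combination -h7
    · change 2 * x 1 * x 2 = 0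
      rw [hx1]; ring
    · change x 1 ^ 2 + 2 * α * x 0 * x 2 + 3 * β * x 2 ^ 2 = 0
      rw [hx1]
      linear_combination h8

end Pool.Agent.H13.CV

end
end

section

/-!
# CV CubX: the derivative of the doubling map

`deriv_affine`: for complex numbers with `v² = 4 u³ - α u - β`, `v ≠ 0`, `u' = 2 l v`, `v' = l (12 u² - α)`: the derivatives of `U`, `V` in the direction `(u', v')` are `4 l V` and `2 l (12 U² - α)`.
Homogeneous version (`cross_dbl`): `x, v ∈ ℂ³`, `cub x = 0`, `x 1 * x 2 ≠ 0`, `cr x v = l • gr x`; `w` is the derivative of `dbl` at `x` in the direction `v`; then `cr (dbl x) w = (2 l) • gr (dbl x)`.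
Here `w` is given explicitly (`ddbl`).  Proof: by homogeneity (`cr (dbl x) (ddbl x x) = 0` as `ddbl x x = 4 dbl x`) one may change `v` by multiples of `x` and assume `v 2 = 0`; scale to `x 2 = 1`; `x = (u, v₁, 1)`,
`v = (u', v', 0)` with `u' = 2 l v₁`, `v' = l (12 u² - α)`.  Then the three identities are polynomial identities modulo `v₁² - 4 u³ + α u + β` (`linear_combination (…) * h`).
Any other proof is fine: e.g. all three components of `x₂ ^ k * (…)` by `linear_combination` with cofactors computed by a program.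
-/

set_option autoImplicit false

open Topology Filter Metric
open Pool.Agent.H36.BP

noncomputable section

namespace Pool.Agent.H13.CV

/-- the derivative of `dbl` at `x` in the direction `v` -/
def ddbl (α β : ℂ) (x v : Fin 3 → ℂ) : Fin 3 → ℂ :=
  ![v 1 * (8 * x 0 * x 1 ^ 2 + 24 * α * x 0 ^ 2 * x 2 + 72 * β * x 0 * x 2 ^ 2 + 2 * α ^ 2 * x 2 ^ 3) +
      x 1 * (8 * v 0 * x 1 ^ 2 + 16 * x 0 * x 1 * v 1 + 48 * α * x 0 * v 0 * x 2 + 24 * α * x 0 ^ 2 * v 2 + 72 * β * v 0 * x 2 ^ 2 + 144 * β * x 0 * x 2 * v 2 +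
        6 * α ^ 2 * x 2 ^ 2 * v 2),
    16 * x 1 ^ 3 * v 1 - 12 * α * (v 0 * x 1 ^ 2 * x 2 + 2 * x 0 * x 1 * v 1 * x 2 + x 0 * x 1 ^ 2 * v 2) - 72 * β * (2 * x 1 * v 1 * x 2 ^ 2 + 2 * x 1 ^ 2 * x 2 * v 2) -
      36 * α ^ 2 * (2 * x 0 * v 0 * x 2 ^ 2 + 2 * x 0 ^ 2 * x 2 * v 2) - 108 * α * β * (v 0 * x 2 ^ 3 + 3 * x 0 * x 2 ^ 2 * v 2) + (α ^ 3 - 108 * β ^ 2) * (4 * x 2 ^ 3 * v 2),
    32 * (3 * x 1 ^ 2 * v 1 * x 2 + x 1 ^ 3 * v 2)]

theorem cross_dbl {α β : ℂ} {x v : Fin 3 → ℂ} {l : ℂ} (hc : cub α β x = 0) (hx : x 1 * x 2 ≠ 0) (hv : cr x v = l • gr α β x) :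
    cr (dbl α β x) (ddbl α β x v) = (2 * l) • gr α β (dbl α β x) := by
  obtain ⟨a, ha⟩ : ∃ a, a = x 0 := ⟨_, rfl⟩
  obtain ⟨b, hb⟩ : ∃ b, b = x 1 := ⟨_, rfl⟩
  obtain ⟨c, hcc⟩ : ∃ c, c = x 2 := ⟨_, rfl⟩
  have hc0 : c ≠ 0 := by
    rw [hcc]
    exact right_ne_zero_of_mul hx
  -- the coordinates of `v`
  obtain ⟨s, hs⟩ : ∃ s, v 2 = s * c := ⟨v 2 / c, by field_simp⟩
  obtain ⟨m, hm⟩ : ∃ m, l = m * c := ⟨l / c, by field_simp⟩
  have h0 := congrFun hv 0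
  have h1 := congrFun hv 1
  simp only [cr, gr, Pi.smul_apply, smul_eq_mul, Matrix.cons_val_zero, Matrix.cons_val_one, ← ha, ← hb, ← hcc, hs, hm] at h0 h1
  have hq : v 1 = s * b + m * (12 * a ^ 2 - α * c ^ 2) := by
    apply mul_left_cancel₀ hc0
    linear_combination -h0
  have hp : v 0 = s * a + m * (2 * b * c) := by
    apply mul_left_cancel₀ hc0
    linear_combination h1
  have hcub : b ^ 2 * c - 4 * a ^ 3 + α * a * c ^ 2 + β * c ^ 3 = 0 := by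
    rw [ha, hb, hcc]
    exact hc
  have hcr : ∀ y w z : Fin 3 → ℂ, y 1 * w 2 - y 2 * w 1 = z 0 → y 2 * w 0 - y 0 * w 2 = z 1 → y 0 * w 1 - y 1 * w 0 = z 2 →
      cr y w = z := by
    intro y w z e0 e1 e2
    funext i
    fin_cases i
    · exact e0
    · exact e1
    · exact e2
  have hD0 : dbl α β x 0 = b * (8 * a * b ^ 2 + 24 * α * a ^ 2 * c + 72 * β * a * c ^ 2 + 2 * α ^ 2 * c ^ 3) := by
    rw [ha, hb, hcc]
    rfl
  have hD1 : dbl α β x 1 = 4 * b ^ 4 - 12 * α * a * b ^ 2 * c - 72 * β * b ^ 2 * c ^ 2 - 36 * α ^ 2 * a ^ 2 * c ^ 2 -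
      108 * α * β * a * c ^ 3 + (α ^ 3 - 108 * β ^ 2) * c ^ 4 := by
    rw [ha, hb, hcc]
    rfl
  have hD2 : dbl α β x 2 = 32 * b ^ 3 * c := by
    rw [hb, hcc]
    rfl
  have hW0 : ddbl α β x v 0 = v 1 * (8 * a * b ^ 2 + 24 * α * a ^ 2 * c + 72 * β * a * c ^ 2 + 2 * α ^ 2 * c ^ 3) +
      b * (8 * v 0 * b ^ 2 + 16 * a * b * v 1 + 48 * α * a * v 0 * c + 24 * α * a ^ 2 * v 2 + 72 * β * v 0 * c ^ 2 +
        144 * β * a * c * v 2 + 6 * α ^ 2 * c ^ 2 * v 2) := by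
    rw [ha, hb, hcc]
    rfl
  have hW1 : ddbl α β x v 1 = 16 * b ^ 3 * v 1 - 12 * α * (v 0 * b ^ 2 * c + 2 * a * b * v 1 * c + a * b ^ 2 * v 2) -
      72 * β * (2 * b * v 1 * c ^ 2 + 2 * b ^ 2 * c * v 2) - 36 * α ^ 2 * (2 * a * v 0 * c ^ 2 + 2 * a ^ 2 * c * v 2) -
      108 * α * β * (v 0 * c ^ 3 + 3 * a * c ^ 2 * v 2) + (α ^ 3 - 108 * β ^ 2) * (4 * c ^ 3 * v 2) := by
    rw [ha, hb, hcc]
    rfl
  have hW2 : ddbl α β x v 2 = 32 * (3 * b ^ 2 * v 1 * c + b ^ 3 * v 2) := by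
    rw [hb, hcc]
    rfl
  apply hcr
  · rw [hW1, hW2, hD1, hD2, hp, hq, hs, hm]
    change _ = 2 * (m * c) * (-12 * dbl α β x 0 ^ 2 + α * dbl α β x 2 ^ 2)
    rw [hD0, hD2]
    linear_combination (m * (6912*a*b^2*c^3*α^2 - 1152*b^4*c^2*α + 10368*b^2*c^4*α*β)) * hcub
  · rw [hW0, hW2, hD0, hD2, hp, hq, hs, hm]
    change _ = 2 * (m * c) * (2 * dbl α β x 1 * dbl α β x 2)
    rw [hD1, hD2]
    linear_combination (m * (4608*a*b^3*c^2*α + 13824*b^3*c^3*β)) * hcub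
  · rw [hW0, hW1, hD0, hD1, hp, hq, hs, hm]
    change _ = 2 * (m * c) * (dbl α β x 1 ^ 2 + 2 * α * dbl α β x 0 * dbl α β x 2 + 3 * β * dbl α β x 2 ^ 2)
    rw [hD0, hD1, hD2]
    linear_combination (m * (-2592*a^3*c^3*α^3 - 1728*a^2*b^2*c^2*α^2 - 15552*a^2*c^4*α^2*β - 1152*a*b^4*c*α + 72*a*c^5*α^4 - 31104*a*c^5*α*β^2 - 96*b^6 - 4320*b^4*c^2*β - 360*b^2*c^4*α^3 + 7776*b^2*c^4*β^2 + 216*c^6*α^3*β - 23328*c^6*β^3)) * hcub

end Pool.Agent.H13.CV

end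
end

section

/-!
# CV CubB: discs in a cubic

`Dsc α β l F`: `F` is a holomorphic disc in the cone, `l` is continuous and nowhere zero, and `F × F' = l • gr F`.
`Dsc.dbl`: `G z = dbl (F z)`, `G' = ddbl (F z) (F' z)` (chain rule, polynomial).  `G z ∈ Cub` by `cub_dbl`, `dbl_ne`.  The identity `cr (G z) (G' z) = 2 l z • gr (G z)` holds where `F₁ F₂ ≠ 0` (`cross_dbl`).  Both
sides are continuous in `z` (on the ball), so it suffices that the zeros of `F₁` and `F₂` are isolated.  If `F₂ = 0` near a point `z₀` then `F₀ = 0` near `z₀` (`cub = 0`), so `F × F' = 0`, contradiction to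
`l ≠ 0`, `gr_ne`.  If `F₁ = 0` near `z₀`, then `F₁' = 0` and the components `0` and `2` of `F × F'` are `F₁ F₂' - F₂ F₁' = 0` and `F₀ F₁' - F₁ F₀' = 0`, and component `1` of `gr F` is `2 F₁ F₂ = 0`; so
`l • gr F = 0`: contradiction.  (`AnalyticAt.eventually_eq_zero_or_eventually_ne_zero`.)
-/

set_option autoImplicit false

open Topology Filter Metric
open Pool.Agent.H36.BP

noncomputable section

namespace Pool.Agent.H13.CV

attribute [-instance] ProperSMul.toContinuousSMul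

/-- a holomorphic disc in the cone of the cubic with `F × F' = l • gr F`, `l` continuous without zeros -/
structure Dsc (α β : ℂ) (l : ℂ → ℂ) (F : ℂ → EN 2) : Prop where
  curve : Curve (Cub α β) (ball 0 1) F
  cont : ContinuousOn l (ball 0 1)
  ne : ∀ z ∈ ball (0 : ℂ) 1, l z ≠ 0
  eq : ∀ z ∈ ball (0 : ℂ) 1, cr (F z).ofLp (deriv F z : EN 2).ofLp = l z • gr α β (F z).ofLp

private theorem CubB_coord {F : ℂ → EN 2} {F' : EN 2} {z : ℂ} (h : HasDerivAt F F' z) (i : Fin 3) :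
    HasDerivAt (fun z => (F z).ofLp i) (F'.ofLp i) z := by
  have h1 := (PiLp.proj 2 (fun _ : Fin 3 => ℂ) i : EN 2 →L[ℂ] ℂ).hasFDerivAt (x := F z)
  exact h1.comp_hasDerivAt z h

private theorem CubB_toLp {G : ℂ → Fin 3 → ℂ} {G' : Fin 3 → ℂ} {z : ℂ} (h : ∀ i, HasDerivAt (fun z => G z i) (G' i) z) :
    HasDerivAt (fun z => (WithLp.toLp 2 (G z) : EN 2)) (WithLp.toLp 2 G') z := by
  have h1 : HasDerivAt G G' z := hasDerivAt_pi.2 h
  have h2 := ((PiLp.continuousLinearEquiv 2 ℂ (fun _ : Fin 3 => ℂ)).symm : (Fin 3 → ℂ) →L[ℂ] EN 2).hasFDerivAt (x := G z)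
  exact h2.comp_hasDerivAt z h1

theorem Dsc.dbl {α β : ℂ} (hd : α ^ 3 ≠ 27 * β ^ 2) {l : ℂ → ℂ} {F : ℂ → EN 2} (h : Dsc α β l F) :
    Dsc α β (fun z => 2 * l z) (fun z => WithLp.toLp 2 (CV.dbl α β (F z).ofLp)) := by
  have hop : IsOpen (ball (0 : ℂ) 1) := isOpen_ball
  obtain ⟨hFd, hFK⟩ := h.curve
  have hder : ∀ z ∈ ball (0 : ℂ) 1, ∀ i, HasDerivAt (fun z => (F z).ofLp i) ((deriv F z : EN 2).ofLp i) z :=
    fun z hz i => CubB_coord ((hFd.differentiableAt (hop.mem_nhds hz)).hasDerivAt) i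
  have hfd : ∀ i, DifferentiableOn ℂ (fun z => (F z).ofLp i) (ball 0 1) :=
    fun i z hz => (hder z hz i).differentiableAt.differentiableWithinAt
  have hfa : ∀ i, ∀ z ∈ ball (0 : ℂ) 1, AnalyticAt ℂ (fun z => (F z).ofLp i) z :=
    fun i z hz => (hfd i).analyticAt (hop.mem_nhds hz)
  have hG : ∀ z ∈ ball (0 : ℂ) 1, HasDerivAt (fun z => (WithLp.toLp 2 (CV.dbl α β (F z).ofLp) : EN 2))
      (WithLp.toLp 2 (ddbl α β (F z).ofLp (deriv F z : EN 2).ofLp)) z := by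
    intro z hz
    refine CubB_toLp fun i => ?_
    have h0 := hder z hz 0
    have h1 := hder z hz 1
    have h2 := hder z hz 2
    fin_cases i
    · have e := h1.mul ((((h0.mul (h1.pow 2)).const_mul 8).add (((h0.pow 2).mul h2).const_mul (24 * α))).add
        ((((h0.mul (h2.pow 2)).const_mul (72 * β))).add ((h2.pow 3).const_mul (2 * α ^ 2))))
      refine (e.congr_of_eventuallyEq (Filter.Eventually.of_forall fun w => ?_)).congr_deriv ?_
      · show (F w).ofLp 1 * (8 * (F w).ofLp 0 * (F w).ofLp 1 ^ 2 + 24 * α * (F w).ofLp 0 ^ 2 * (F w).ofLp 2 + 72 * β * (F w).ofLp 0 * (F w).ofLp 2 ^ 2 + 2 * α ^ 2 * (F w).ofLp 2 ^ 3) = _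
        simp only [Pi.mul_apply, Pi.add_apply, Pi.pow_apply]
        ring
      · simp only [ddbl, Pi.mul_apply, Pi.add_apply, Pi.pow_apply, Fin.zero_eta, Matrix.cons_val_zero]
        push_cast
        ring
    · have e := ((((h1.pow 4).const_mul 4).sub (((h0.mul (h1.pow 2)).mul h2).const_mul (12 * α))).sub
        (((h1.pow 2).mul (h2.pow 2)).const_mul (72 * β))).sub ((((h0.pow 2).mul (h2.pow 2)).const_mul (36 * α ^ 2)).add
          (((h0.mul (h2.pow 3)).const_mul (108 * α * β)).sub ((h2.pow 4).const_mul (α ^ 3 - 108 * β ^ 2))))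
      refine (e.congr_of_eventuallyEq (Filter.Eventually.of_forall fun w => ?_)).congr_deriv ?_
      · show 4 * (F w).ofLp 1 ^ 4 - 12 * α * (F w).ofLp 0 * (F w).ofLp 1 ^ 2 * (F w).ofLp 2 - 72 * β * (F w).ofLp 1 ^ 2 * (F w).ofLp 2 ^ 2 - 36 * α ^ 2 * (F w).ofLp 0 ^ 2 * (F w).ofLp 2 ^ 2
          - 108 * α * β * (F w).ofLp 0 * (F w).ofLp 2 ^ 3 + (α ^ 3 - 108 * β ^ 2) * (F w).ofLp 2 ^ 4 = _
        simp only [Pi.mul_apply, Pi.add_apply, Pi.sub_apply, Pi.pow_apply]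
        ring
      · simp only [ddbl, Pi.mul_apply, Pi.pow_apply, Fin.mk_one, Matrix.cons_val_one, Matrix.cons_val_zero]
        push_cast
        ring
    · have e := ((h1.pow 3).mul h2).const_mul 32
      refine (e.congr_of_eventuallyEq (Filter.Eventually.of_forall fun w => ?_)).congr_deriv ?_
      · show 32 * (F w).ofLp 1 ^ 3 * (F w).ofLp 2 = _
        simp only [Pi.mul_apply, Pi.pow_apply]
        ring
      · show _ = 32 * (3 * (F z).ofLp 1 ^ 2 * (deriv F z : EN 2).ofLp 1 * (F z).ofLp 2 + (F z).ofLp 1 ^ 3 * (deriv F z : EN 2).ofLp 2)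
        simp only [Pi.pow_apply]
        push_cast
        ring
  have hGd : ∀ z ∈ ball (0 : ℂ) 1, deriv (fun z => (WithLp.toLp 2 (CV.dbl α β (F z).ofLp) : EN 2)) z
      = WithLp.toLp 2 (ddbl α β (F z).ofLp (deriv F z : EN 2).ofLp) := fun z hz => (hG z hz).deriv
  have hF0 : ∀ z ∈ ball (0 : ℂ) 1, (F z).ofLp ≠ 0 ∧ cub α β (F z).ofLp = 0 := by
    intro z hz
    obtain ⟨h1, h2⟩ := hFK z hz
    refine ⟨fun h3 => h1 ?_, h2⟩
    ext i
    exact congrFun h3 i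
  -- the first coordinate is not eventually zero
  have hn1 : ∀ z ∈ ball (0 : ℂ) 1, ¬ ∀ᶠ w in 𝓝 z, (F w).ofLp 1 = 0 := by
    intro z hz he
    have e1 : (deriv F z : EN 2).ofLp 1 = 0 := by
      rw [← (hder z hz 1).deriv]
      have : (fun w => (F w).ofLp 1) =ᶠ[𝓝 z] fun _ => (0 : ℂ) := he
      rw [this.deriv_eq]
      simp
    have e2 : (F z).ofLp 1 = 0 := he.self_of_nhds
    have e3 := h.eq z hz
    apply gr_ne hd (hF0 z hz).1 (hF0 z hz).2
    have hl := h.ne z hz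
    have e4 : l z • gr α β (F z).ofLp = 0 := by
      rw [← e3]
      ext i
      have e5 := congrFun e3 1
      fin_cases i
      · show (F z).ofLp 1 * (deriv F z : EN 2).ofLp 2 - (F z).ofLp 2 * (deriv F z : EN 2).ofLp 1 = 0
        rw [e1, e2]; ring
      · have e6 : (gr α β (F z).ofLp) 1 = 2 * (F z).ofLp 1 * (F z).ofLp 2 := rfl
        show cr (F z).ofLp (deriv F z : EN 2).ofLp 1 = 0
        rw [e5]
        show l z * (gr α β (F z).ofLp) 1 = 0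
        rw [e6, e2]; ring
      · show (F z).ofLp 0 * (deriv F z : EN 2).ofLp 1 - (F z).ofLp 1 * (deriv F z : EN 2).ofLp 0 = 0
        rw [e1, e2]; ring
    exact (smul_eq_zero.1 e4).resolve_left hl
  have hn2 : ∀ z ∈ ball (0 : ℂ) 1, ¬ ∀ᶠ w in 𝓝 z, (F w).ofLp 2 = 0 := by
    intro z hz he
    have e1 : (deriv F z : EN 2).ofLp 2 = 0 := by
      rw [← (hder z hz 2).deriv]
      have : (fun w => (F w).ofLp 2) =ᶠ[𝓝 z] fun _ => (0 : ℂ) := he
      rw [this.deriv_eq]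
      simp
    have he0 : ∀ᶠ w in 𝓝 z, (F w).ofLp 0 = 0 := by
      filter_upwards [he, hop.mem_nhds hz] with w hw hwb
      have e := (hF0 w hwb).2
      simp only [cub, hw] at e
      have : (F w).ofLp 0 ^ 3 = 0 := by linear_combination (-1 / 4) * e
      exact pow_eq_zero_iff (by norm_num) |>.1 this
    have e1' : (deriv F z : EN 2).ofLp 0 = 0 := by
      rw [← (hder z hz 0).deriv]
      have : (fun w => (F w).ofLp 0) =ᶠ[𝓝 z] fun _ => (0 : ℂ) := he0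
      rw [this.deriv_eq]
      simp
    have e2 : (F z).ofLp 2 = 0 := he.self_of_nhds
    have e2' : (F z).ofLp 0 = 0 := he0.self_of_nhds
    have e3 := h.eq z hz
    apply gr_ne hd (hF0 z hz).1 (hF0 z hz).2
    have hl := h.ne z hz
    have e4 : l z • gr α β (F z).ofLp = 0 := by
      rw [← e3]
      ext i
      fin_cases i
      · show (F z).ofLp 1 * (deriv F z : EN 2).ofLp 2 - (F z).ofLp 2 * (deriv F z : EN 2).ofLp 1 = 0
        rw [e1, e2]; ring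
      · show (F z).ofLp 2 * (deriv F z : EN 2).ofLp 0 - (F z).ofLp 0 * (deriv F z : EN 2).ofLp 2 = 0
        rw [e1, e2]; ring
      · show (F z).ofLp 0 * (deriv F z : EN 2).ofLp 1 - (F z).ofLp 1 * (deriv F z : EN 2).ofLp 0 = 0
        rw [e1', e2']; ring
    exact (smul_eq_zero.1 e4).resolve_left hl
  have hK : ∀ z ∈ ball (0 : ℂ) 1, (WithLp.toLp 2 (CV.dbl α β (F z).ofLp) : EN 2) ∈ Cub α β := by
    intro z hz
    refine ⟨fun h0 => ?_, cub_dbl (hF0 z hz).2⟩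
    apply dbl_ne hd (hF0 z hz).1 (hF0 z hz).2
    have := congrArg WithLp.ofLp h0
    simpa using this
  refine ⟨⟨fun z hz => (hG z hz).differentiableAt.differentiableWithinAt, hK⟩, continuousOn_const.mul h.cont, fun z hz => mul_ne_zero two_ne_zero (h.ne z hz), ?_⟩
  -- continuity
  have hcF : ∀ i, ContinuousOn (fun z => (F z).ofLp i) (ball 0 1) := fun i => (hfd i).continuousOn
  have hcF' : ∀ i, ContinuousOn (fun z => (deriv F z : EN 2).ofLp i) (ball 0 1) := by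
    intro i
    have h1 : ContinuousOn (deriv fun z => (F z).ofLp i) (ball 0 1) := ((hfd i).deriv hop).continuousOn
    refine h1.congr fun z hz => ?_
    exact (hder z hz i).deriv.symm
  intro z hz
  rw [hGd z hz]
  show cr (CV.dbl α β (F z).ofLp) (ddbl α β (F z).ofLp (deriv F z : EN 2).ofLp) = (2 * l z) • gr α β (CV.dbl α β (F z).ofLp)
  have hev : ∀ᶠ w in 𝓝[≠] z, cr (CV.dbl α β (F w).ofLp) (ddbl α β (F w).ofLp (deriv F w : EN 2).ofLp) = (2 * l w) • gr α β (CV.dbl α β (F w).ofLp) := by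
    have k1 := ((hfa 1 z hz).eventually_eq_zero_or_eventually_ne_zero).resolve_left (hn1 z hz)
    have k2 := ((hfa 2 z hz).eventually_eq_zero_or_eventually_ne_zero).resolve_left (hn2 z hz)
    filter_upwards [k1, k2, mem_nhdsWithin_of_mem_nhds (hop.mem_nhds hz)] with w h1 h2 hw
    exact cross_dbl (hF0 w hw).2 (mul_ne_zero h1 h2) (h.eq w hw)
  have hc0 : ∀ i, ContinuousAt (fun z => (F z).ofLp i) z := fun i => (hcF i).continuousAt (hop.mem_nhds hz)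
  have hc0' : ∀ i, ContinuousAt (fun z => (deriv F z : EN 2).ofLp i) z := fun i => (hcF' i).continuousAt (hop.mem_nhds hz)
  have hcl : ContinuousAt l z := h.cont.continuousAt (hop.mem_nhds hz)
  have a0 := hc0 0
  have a1 := hc0 1
  have a2 := hc0 2
  have b0 := hc0' 0
  have b1 := hc0' 1
  have b2 := hc0' 2
  have hL : ContinuousAt (fun w => cr (CV.dbl α β (F w).ofLp) (ddbl α β (F w).ofLp (deriv F w : EN 2).ofLp)) z := by
    refine continuousAt_pi.2 fun i => ?_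
    fin_cases i <;> simp only [cr, CV.dbl, ddbl, Fin.zero_eta, Fin.mk_one, Fin.reduceFinMk, Matrix.cons_val_zero, Matrix.cons_val_one, Matrix.cons_val] <;> fun_prop
  have hR : ContinuousAt (fun w => (2 * l w) • gr α β (CV.dbl α β (F w).ofLp)) z := by
    refine continuousAt_pi.2 fun i => ?_
    fin_cases i <;> simp only [gr, CV.dbl, Pi.smul_apply, smul_eq_mul, Fin.zero_eta, Fin.mk_one, Fin.reduceFinMk, Matrix.cons_val_zero, Matrix.cons_val_one, Matrix.cons_val] <;> fun_prop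
  have t1 := hL.tendsto.mono_left (nhdsWithin_le_nhds (s := {z}ᶜ))
  have t2 := hR.tendsto.mono_left (nhdsWithin_le_nhds (s := {z}ᶜ))
  exact tendsto_nhds_unique_of_eventuallyEq t1 t2 hev

end Pool.Agent.H13.CV

end
end

section

/-!
# CV CubI: a disc in the cubic

`exists_disc`: let `u₀` with `4 u₀³ - α u₀ - β = 1` (`IsAlgClosed`).  `s z = exp (log (4 (u₀ + z)³ - α (u₀ + z) - β) / 2)` (principal branch) is holomorphic for `|z| < r` (there the argument is in the slit plane), nowhere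
zero, `s² = 4 (u₀ + z)³ - …`.  `F z = (u₀ + r z, s (r z), 1)` on the unit disc (`r > 0` small), `F' = (r, r s', 0)`, `2 s s' = 12 (u₀ + r z)² - α`; `F × F' = (- r s', r, …)`, `gr F = (- (12 u² - α), 2 s, …)`, so
`l = r / (2 s)`; the third component: `u s' r - s r = l (s² + 2 α u + 3 β)`: use `s² = 4 u³ - α u - β`.
-/

set_option autoImplicit false

open Topology Filter Metric
open Pool.Agent.H36.BP

noncomputable section

namespace Pool.Agent.H13.CV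

private theorem CubI_root (α β : ℂ) : ∃ u : ℂ, 4 * u ^ 3 - α * u - β = 1 := by
  have h : ∃ z : ℂ, (Polynomial.C 4 * Polynomial.X ^ 3 - Polynomial.C α * Polynomial.X - Polynomial.C (β + 1) : Polynomial ℂ).IsRoot z := by
    apply Complex.exists_root
    have : (Polynomial.C 4 * Polynomial.X ^ 3 - Polynomial.C α * Polynomial.X - Polynomial.C (β + 1) : Polynomial ℂ).degree = 3 := by
      compute_degree!
    rw [this]
    norm_num
  obtain ⟨z, hz⟩ := h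
  refine ⟨z, ?_⟩
  simp only [Polynomial.IsRoot.def, Polynomial.eval_sub, Polynomial.eval_mul, Polynomial.eval_C, Polynomial.eval_pow, Polynomial.eval_X] at hz
  linear_combination hz

private theorem CubI_toLp {G : ℂ → Fin 3 → ℂ} {G' : Fin 3 → ℂ} {z : ℂ} (h : ∀ i, HasDerivAt (fun z => G z i) (G' i) z) :
    HasDerivAt (fun z => (WithLp.toLp 2 (G z) : EN 2)) (WithLp.toLp 2 G') z := by
  have h1 : HasDerivAt G G' z := hasDerivAt_pi.2 h
  have h2 := ((PiLp.continuousLinearEquiv 2 ℂ (fun _ : Fin 3 => ℂ)).symm : (Fin 3 → ℂ) →L[ℂ] EN 2).hasFDerivAt (x := G z)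
  exact h2.comp_hasDerivAt z h1

theorem exists_disc (α β : ℂ) : ∃ (l : ℂ → ℂ) (F : ℂ → EN 2), Dsc α β l F := by
  obtain ⟨u₀, hu₀⟩ := CubI_root α β
  set p : ℂ → ℂ := fun u => 4 * u ^ 3 - α * u - β with hp
  have hpc : Continuous p := by fun_prop
  -- a small radius
  have h1 : ∀ᶠ u in 𝓝 u₀, p u ∈ Complex.slitPlane := by
    have : p u₀ ∈ Complex.slitPlane := by
      show 4 * u₀ ^ 3 - α * u₀ - β ∈ Complex.slitPlane
      rw [hu₀]
      exact Complex.one_mem_slitPlane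
    exact hpc.continuousAt.eventually (Complex.isOpen_slitPlane.mem_nhds this)
  obtain ⟨r, hr, hb⟩ := Metric.eventually_nhds_iff_ball.1 h1
  set u : ℂ → ℂ := fun z => u₀ + r * z with hu
  set s : ℂ → ℂ := fun z => Complex.exp (Complex.log (p (u z)) / 2) with hs
  have hr0 : (r : ℂ) ≠ 0 := by exact_mod_cast hr.ne'
  have hus : ∀ z ∈ ball (0 : ℂ) 1, p (u z) ∈ Complex.slitPlane := by
    intro z hz
    apply hb
    rw [mem_ball_zero_iff] at hz
    rw [mem_ball, dist_eq_norm]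
    simp only [hu, add_sub_cancel_left, norm_mul, Complex.norm_real, Real.norm_eq_abs, abs_of_pos hr]
    nlinarith
  have hs2 : ∀ z ∈ ball (0 : ℂ) 1, s z ^ 2 = p (u z) := by
    intro z hz
    simp only [hs]
    rw [← Complex.exp_nat_mul]
    have : ((2 : ℕ) : ℂ) * (Complex.log (p (u z)) / 2) = Complex.log (p (u z)) := by push_cast; ring
    rw [this, Complex.exp_log (Complex.slitPlane_ne_zero (hus z hz))]
  have hsn : ∀ z, s z ≠ 0 := fun z => Complex.exp_ne_zero _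
  have hud : ∀ z, HasDerivAt u r z := by
    intro z
    have := ((hasDerivAt_id z).const_mul (r : ℂ)).const_add u₀
    rw [mul_one] at this
    exact this
  have hsd : ∀ z ∈ ball (0 : ℂ) 1, HasDerivAt s ((12 * u z ^ 2 - α) * r / (2 * s z)) z := by
    intro z hz
    have e1 : HasDerivAt (fun w => p (u w)) ((12 * u z ^ 2 - α) * r) z := by
      have := ((((hud z).pow 3).const_mul 4).sub ((hud z).const_mul α)).sub_const β
      refine this.congr_deriv ?_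
      push_cast
      ring
    have e2 := ((e1.clog (hus z hz)).div_const 2).cexp
    refine e2.congr_deriv ?_
    have e3 : Complex.exp (Complex.log (p (u z)) / 2) = s z := rfl
    rw [e3]
    have e4 := hs2 z hz
    have e5 := hsn z
    rw [← e4]
    field_simp
  refine ⟨fun z => r / (2 * s z), fun z => WithLp.toLp 2 ![u z, s z, 1], ?_⟩
  have hF : ∀ z ∈ ball (0 : ℂ) 1, HasDerivAt (fun z => (WithLp.toLp 2 ![u z, s z, 1] : EN 2))
      (WithLp.toLp 2 ![(r : ℂ), (12 * u z ^ 2 - α) * r / (2 * s z), 0]) z := by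
    intro z hz
    refine CubI_toLp fun i => ?_
    fin_cases i
    · exact hud z
    · exact hsd z hz
    · exact hasDerivAt_const z (1 : ℂ)
  have hsc : ContinuousOn s (ball 0 1) := fun z hz => (hsd z hz).continuousAt.continuousWithinAt
  refine ⟨⟨fun z hz => (hF z hz).differentiableAt.differentiableWithinAt, fun z hz => ⟨fun h0 => ?_, ?_⟩⟩, ?_, fun z hz => ?_, fun z hz => ?_⟩
  · have := congrFun (congrArg WithLp.ofLp h0) 2
    exact one_ne_zero (α := ℂ) this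
  · show s z ^ 2 * 1 - 4 * u z ^ 3 + α * u z * 1 ^ 2 + β * 1 ^ 3 = 0
    rw [hs2 z hz]
    show (4 * u z ^ 3 - α * u z - β) * 1 - 4 * u z ^ 3 + α * u z * 1 ^ 2 + β * 1 ^ 3 = 0
    ring
  · exact continuousOn_const.div (continuousOn_const.mul hsc) fun z _ => mul_ne_zero two_ne_zero (hsn z)
  · exact div_ne_zero hr0 (mul_ne_zero two_ne_zero (hsn z))
  · rw [(hF z hz).deriv]
    have e4 : s z ^ 2 = 4 * u z ^ 3 - α * u z - β := hs2 z hz
    have e5 := hsn z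
    ext i
    fin_cases i
    · show s z * 0 - 1 * ((12 * u z ^ 2 - α) * r / (2 * s z)) = r / (2 * s z) * (-12 * u z ^ 2 + α * 1 ^ 2)
      field_simp
      ring
    · show 1 * (r : ℂ) - u z * 0 = r / (2 * s z) * (2 * s z * 1)
      field_simp
      ring
    · show u z * ((12 * u z ^ 2 - α) * r / (2 * s z)) - s z * r = r / (2 * s z) * (s z ^ 2 + 2 * α * u z * 1 + 3 * β * 1 ^ 2)
      field_simp
      linear_combination (-3) * e4

end Pool.Agent.H13.CV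

end
end

section

/-!
# HE Psi: the function `- log qf` along a curve

Adapted from `PX/Psi`.
-/

set_option autoImplicit false

open Topology Filter Metric

namespace Pool.Agent.HE

open Pool.Agent.H36.BP (EN fs wd)
open Pool.Agent.H62.EF (MN pr)
open Pool.Agent.AD (Vd)
open Pool.Agent.TG (Lat)
open Pool.Agent.G3 (wt LLift)

variable {N k q r : ℕ} {Λ : AddSubgroup (Vd (k + 1))} {D : Set (Vd (k + 1))} {X : Set (Vd (k + 1) × EN N)} {F : Fin q → Vd (k + 1) × EN N → ℂ} {d : Fin q → ℕ}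
  {W : Fin q → Fin r → Vd (k + 1) →L[ℂ] ℂ}

/-- the weight is positive definite -/
private theorem Psi_wt_ge {W : Fin r → Vd (k + 1) →L[ℂ] ℂ} (hW : ∀ y, (∀ i, W i y = 0) → y = 0) :
    ∃ c : ℝ, 0 < c ∧ ∀ y : Vd (k + 1), c * ‖y‖ ^ 2 ≤ wt W y := by
  have hcont : Continuous (wt W) := by
    unfold wt
    exact continuous_finsetSum _ fun i _ => ((W i).continuous.norm.pow 2)
  have hpos : ∀ y ∈ sphere (0 : Vd (k + 1)) 1, 0 < wt W y := by
    intro y hy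
    rw [mem_sphere_zero_iff_norm] at hy
    have h0 : 0 ≤ wt W y := Finset.sum_nonneg fun i _ => by positivity
    rcases h0.eq_or_lt with h1 | h1
    · exfalso
      have h2 : ∀ i, W i y = 0 := by
        intro i
        have h3 := (Finset.sum_eq_zero_iff_of_nonneg (s := Finset.univ) (f := fun i => ‖W i y‖ ^ 2) fun i _ => by positivity).1 h1.symm i (Finset.mem_univ i)
        exact norm_eq_zero.1 (pow_eq_zero_iff (two_ne_zero)|>.1 h3)
      rw [hW y h2, norm_zero] at hy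
      exact zero_ne_one hy
    · exact h1
  have hne : (sphere (0 : Vd (k + 1)) 1).Nonempty := by
    refine ⟨fun _ => 1, ?_⟩
    rw [mem_sphere_zero_iff_norm]
    simp [pi_norm_const]
  obtain ⟨y₁, hy₁, hmin⟩ := (isCompact_sphere (0 : Vd (k + 1)) 1).exists_isMinOn hne hcont.continuousOn
  refine ⟨wt W y₁, hpos y₁ hy₁, fun y => ?_⟩
  by_cases hy : y = 0
  · subst hy
    simp [wt]
  · have hn : 0 < ‖y‖ := norm_pos_iff.2 hy
    set c : ℂ := (((‖y‖⁻¹ : ℝ)) : ℂ) with hcd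
    have hcn : ‖c‖ = ‖y‖⁻¹ := by rw [hcd, Complex.norm_real, norm_inv, norm_norm]
    have h1 : c • y ∈ sphere (0 : Vd (k + 1)) 1 := by
      rw [mem_sphere_zero_iff_norm, norm_smul, hcn]
      exact inv_mul_cancel₀ hn.ne'
    have h2 : wt W y₁ ≤ wt W (c • y) := hmin h1
    have h3 : wt W (c • y) = (‖y‖⁻¹) ^ 2 * wt W y := by
      unfold wt
      rw [Finset.mul_sum]
      refine Finset.sum_congr rfl fun i _ => ?_
      rw [map_smul, norm_smul, hcn, mul_pow]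
    rw [h3] at h2
    have h4 := mul_le_mul_of_nonneg_right h2 (by positivity : 0 ≤ ‖y‖ ^ 2)
    have h5 : (‖y‖⁻¹) ^ 2 * wt W y * ‖y‖ ^ 2 = wt W y := by
      field_simp
    rwa [h5] at h4

/-- a curve outside the zeros of one form -/
private structure Cs (f : Vd (k + 1) × EN N → ℂ) (U : Set ℂ) (w : ℂ → EN N) (h : ℂ → Vd (k + 1)) : Prop where
  w_diff : DifferentiableOn ℂ w U
  h_diff : DifferentiableOn ℂ h U
  w_ne : ∀ ⦃z⦄, z ∈ U → w z ≠ 0
  ne : ∀ z ∈ U, f (h z, w z) ≠ 0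

/-- the exponent of the comparison function -/
private noncomputable def Psi_e (W : Fin r → Vd (k + 1) →L[ℂ] ℂ) (y₁ y : Vd (k + 1)) : ℂ :=
  ∑ i, (2 * (starRingEnd ℂ (W i y₁)) * W i y - ((‖W i y₁‖ ^ 2 : ℝ) : ℂ))

/-- the holomorphic comparison function: `‖Psi_H‖ ≤ 1 / qf`, with equality at `(x₁, y₁)` -/
private noncomputable def Psi_H (f : Vd (k + 1) × EN N → ℂ) (d : ℕ) (W : Fin r → Vd (k + 1) →L[ℂ] ℂ) (x₁ : EN N) (y₁ : Vd (k + 1)) (x : EN N)
    (y : Vd (k + 1)) : ℂ :=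
  (innerSL ℂ x₁ x) ^ d * Complex.exp (Psi_e W y₁ y) / (((‖x₁‖ ^ d : ℝ) : ℂ) * f (y, x))

private theorem Psi_e_re (W : Fin r → Vd (k + 1) →L[ℂ] ℂ) (y₁ y : Vd (k + 1)) :
    (Psi_e W y₁ y).re + wt W (y - y₁) = wt W y := by
  unfold Psi_e wt
  rw [Complex.re_sum, ← Finset.sum_add_distrib]
  refine Finset.sum_congr rfl fun i _ => ?_
  rw [map_sub, Complex.sub_re, Complex.ofReal_re, ← Complex.normSq_eq_norm_sq, ← Complex.normSq_eq_norm_sq, ← Complex.normSq_eq_norm_sq,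
    Complex.normSq_apply, Complex.normSq_apply, Complex.normSq_apply]
  simp only [Complex.mul_re, Complex.mul_im, Complex.conj_re, Complex.conj_im, Complex.sub_re, Complex.sub_im, Complex.re_ofNat, Complex.im_ofNat]
  ring

private theorem Psi_H_norm (f : Vd (k + 1) × EN N → ℂ) (d : ℕ) (W : Fin r → Vd (k + 1) →L[ℂ] ℂ) (x₁ : EN N) (y₁ : Vd (k + 1)) (x : EN N)
    (y : Vd (k + 1)) : ‖Psi_H f d W x₁ y₁ x y‖ = ‖innerSL ℂ x₁ x‖ ^ d * Real.exp (Psi_e W y₁ y).re / (‖x₁‖ ^ d * ‖f (y, x)‖) := by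
  unfold Psi_H
  rw [norm_div, norm_mul, norm_mul, norm_pow, Complex.norm_exp, Complex.norm_real, norm_pow, norm_norm]

private theorem Psi_H_le (f : Vd (k + 1) × EN N → ℂ) (d : ℕ) (W : Fin r → Vd (k + 1) →L[ℂ] ℂ) {x₁ : EN N} (hx₁ : x₁ ≠ 0) (y₁ : Vd (k + 1)) {x : EN N}
    (hx : x ≠ 0) {y : Vd (k + 1)} (hF : f (y, x) ≠ 0) :
    ‖Psi_H f d W x₁ y₁ x y‖ * Real.exp (wt W (y - y₁)) * qf f d W y x ≤ 1 := by
  have h1 : 0 < ‖x₁‖ := norm_pos_iff.2 hx₁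
  have h2 : 0 < ‖x‖ := norm_pos_iff.2 hx
  have h3 : 0 < ‖f (y, x)‖ := norm_pos_iff.2 hF
  have e : ‖Psi_H f d W x₁ y₁ x y‖ * Real.exp (wt W (y - y₁)) * qf f d W y x =
      (‖innerSL ℂ x₁ x‖ / (‖x₁‖ * ‖x‖)) ^ d * (Real.exp (Psi_e W y₁ y).re * Real.exp (wt W (y - y₁)) * Real.exp (-wt W y)) := by
    rw [Psi_H_norm]
    unfold qf
    rw [div_pow, mul_pow]
    field_simp
  rw [e, ← Real.exp_add, ← Real.exp_add, Psi_e_re, add_neg_cancel, Real.exp_zero, mul_one]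
  refine pow_le_one₀ (by positivity) ?_
  rw [div_le_one (by positivity)]
  exact norm_inner_le_norm x₁ x

private theorem Psi_H_self (f : Vd (k + 1) × EN N → ℂ) (d : ℕ) (W : Fin r → Vd (k + 1) →L[ℂ] ℂ) {x₁ : EN N} (hx₁ : x₁ ≠ 0) {y₁ : Vd (k + 1)}
    (hF : f (y₁, x₁) ≠ 0) : ‖Psi_H f d W x₁ y₁ x₁ y₁‖ * qf f d W y₁ x₁ = 1 := by
  have h1 : 0 < ‖x₁‖ := norm_pos_iff.2 hx₁
  have h3 : 0 < ‖f (y₁, x₁)‖ := norm_pos_iff.2 hF
  have h4 : ‖innerSL ℂ x₁ x₁‖ = ‖x₁‖ * ‖x₁‖ := by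
    rw [innerSL_apply_apply, inner_self_eq_norm_sq_to_K, norm_pow]
    simp [sq]
  have h5 := Psi_e_re W y₁ y₁
  have h6 : wt W (y₁ - y₁) = 0 := by
    rw [sub_self]
    simp [wt]
  rw [h6, add_zero] at h5
  rw [Psi_H_norm, h4, h5]
  unfold qf
  have e : (‖x₁‖ * ‖x₁‖) ^ d * Real.exp (wt W y₁) / (‖x₁‖ ^ d * ‖f (y₁, x₁)‖) * (‖f (y₁, x₁)‖ * Real.exp (-wt W y₁) / ‖x₁‖ ^ d) =
      Real.exp (wt W y₁) * Real.exp (-wt W y₁) := by
    rw [mul_pow]
    field_simp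
  rw [e, ← Real.exp_add, add_neg_cancel, Real.exp_zero]

private theorem Psi_H_diff {f : Vd (k + 1) × EN N → ℂ} (hf : Differentiable ℂ f) (d : ℕ) (W : Fin r → Vd (k + 1) →L[ℂ] ℂ) {w : ℂ → EN N} {h : ℂ → Vd (k + 1)} {U : Set ℂ} (hc : Cs f U w h) {x₁ : EN N} (hx₁ : x₁ ≠ 0)
    (y₁ : Vd (k + 1)) : DifferentiableOn ℂ (fun z => Psi_H f d W x₁ y₁ (w z) (h z)) U := by
  have h1 : ‖x₁‖ ≠ 0 := norm_ne_zero_iff.2 hx₁
  unfold Psi_H
  have hF : DifferentiableOn ℂ (fun z => f (h z, w z)) U :=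
    hf.comp_differentiableOn (hc.h_diff.prodMk hc.w_diff)
  have he : DifferentiableOn ℂ (fun z => Psi_e W y₁ (h z)) U := by
    unfold Psi_e
    refine DifferentiableOn.fun_sum fun i _ => ?_
    exact (((W i).differentiable.comp_differentiableOn hc.h_diff).const_mul _).sub_const _
  have hi : DifferentiableOn ℂ (fun z => (innerSL ℂ x₁) (w z)) U :=
    (innerSL ℂ x₁).differentiable.comp_differentiableOn hc.w_diff
  refine ((hi.pow d).mul he.cexp).div (hF.const_mul _) fun z hz => ?_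
  refine mul_ne_zero ?_ (hc.ne z hz)
  rw [Ne, Complex.ofReal_eq_zero]
  exact pow_ne_zero d h1

private theorem Psi_qf_pos (f : Vd (k + 1) × EN N → ℂ) (d : ℕ) (W : Fin r → Vd (k + 1) →L[ℂ] ℂ) {x : EN N} (hx : x ≠ 0) {y : Vd (k + 1)}
    (hF : f (y, x) ≠ 0) : 0 < qf f d W y x := by
  have h1 : 0 < ‖x‖ := norm_pos_iff.2 hx
  have h3 : 0 < ‖f (y, x)‖ := norm_pos_iff.2 hF
  unfold qf
  positivity

private theorem Psi_qf_cont {f : Vd (k + 1) × EN N → ℂ} (hf : Differentiable ℂ f) (d : ℕ) (W : Fin r → Vd (k + 1) →L[ℂ] ℂ) {w : ℂ → EN N} {h : ℂ → Vd (k + 1)} {U : Set ℂ} (hc : Cs f U w h) :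
    ContinuousOn (fun z => qf f d W (h z) (w z)) U := by
  have hF : DifferentiableOn ℂ (fun z => f (h z, w z)) U :=
    hf.comp_differentiableOn (hc.h_diff.prodMk hc.w_diff)
  have hcont : Continuous (wt W) := by
    unfold wt
    exact continuous_finsetSum _ fun i _ => ((W i).continuous.norm.pow 2)
  unfold qf
  refine ContinuousOn.div (hF.continuousOn.norm.mul ?_) (hc.w_diff.continuousOn.norm.pow d) fun z hz => ?_
  · exact Real.continuous_exp.comp_continuousOn (hcont.comp_continuousOn hc.h_diff.continuousOn).neg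
  · exact pow_ne_zero d (norm_ne_zero_iff.2 (hc.w_ne hz))

private theorem psi_max {f : Vd (k + 1) × EN N → ℂ} (hf : Differentiable ℂ f) (d : ℕ) (W : Fin r → Vd (k + 1) →L[ℂ] ℂ) {w : ℂ → EN N} {h : ℂ → Vd (k + 1)} {z₀ : ℂ} {s R : ℝ} (hs : 0 < s) (hR : s < R) (hc : Cs f (ball z₀ R) w h) {c : ℝ} (hc0 : 0 < c)
    (hq : ∀ z ∈ sphere z₀ s, c ≤ qf f d W (h z) (w z)) : c ≤ qf f d W (h z₀) (w z₀) := by
  have hz₀ : z₀ ∈ ball z₀ R := mem_ball_self (hs.trans hR)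
  have hw₀ : w z₀ ≠ 0 := hc.w_ne hz₀
  have hcl : closedBall z₀ s ⊆ ball z₀ R := closedBall_subset_ball hR
  have hH := Psi_H_diff hf d W hc hw₀ (h z₀)
  have hH2 : DiffContOnCl ℂ (fun z => Psi_H f d W (w z₀) (h z₀) (w z) (h z)) (ball z₀ s) := by
    refine DifferentiableOn.diffContOnCl ?_
    rw [closure_ball z₀ hs.ne']
    exact hH.mono hcl
  have h1 : ‖Psi_H f d W (w z₀) (h z₀) (w z₀) (h z₀)‖ ≤ 1 / c := by
    refine Complex.norm_le_of_forall_mem_frontier_norm_le isBounded_ball hH2 ?_ (subset_closure (mem_ball_self hs))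
    intro z hz
    rw [frontier_ball z₀ hs.ne'] at hz
    have hzR : z ∈ ball z₀ R := hcl (sphere_subset_closedBall hz)
    have h2 := Psi_H_le f d W hw₀ (h z₀) (hc.w_ne hzR) (hc.ne z hzR)
    rw [le_div_iff₀ hc0]
    have h3 : 1 ≤ Real.exp (wt W (h z - h z₀)) := by
      rw [Real.one_le_exp_iff]
      exact Finset.sum_nonneg fun i _ => by positivity
    calc ‖Psi_H f d W (w z₀) (h z₀) (w z) (h z)‖ * c
        ≤ (‖Psi_H f d W (w z₀) (h z₀) (w z) (h z)‖ * Real.exp (wt W (h z - h z₀))) * qf f d W (h z) (w z) :=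
          mul_le_mul (le_mul_of_one_le_right (norm_nonneg _) h3) (hq z hz) hc0.le (by positivity)
      _ ≤ 1 := h2
  have h4 := Psi_H_self f d W hw₀ (hc.ne z₀ hz₀)
  have h5 : 0 < qf f d W (h z₀) (w z₀) := Psi_qf_pos f d W hw₀ (hc.ne z₀ hz₀)
  have h6 : 1 ≤ 1 / c * qf f d W (h z₀) (w z₀) := h4.symm.le.trans (mul_le_mul_of_nonneg_right h1 h5.le)
  rw [one_div, ← div_eq_inv_mul, le_div_iff₀ hc0, one_mul] at h6
  exact h6

private theorem psi_grow {f : Vd (k + 1) × EN N → ℂ} (hf : Differentiable ℂ f) (d : ℕ) (W : Fin r → Vd (k + 1) →L[ℂ] ℂ) (hpos : ∀ y, (∀ i, W i y = 0) → y = 0) {A : ℝ} (hA : 0 < A) : ∃ c₀ : ℝ, 0 < c₀ ∧ ∀ (w : ℂ → EN N) (h : ℂ → Vd (k + 1)) (s R : ℝ), 0 < s → s < R → Cs f (ball 0 R) w h →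
    (∀ z ∈ ball (0 : ℂ) R, A ≤ ‖deriv h z‖) → ∀ c : ℝ, 0 < c → (∀ z ∈ sphere (0 : ℂ) s, c ≤ qf f d W (h z) (w z)) → c * Real.exp (c₀ * s ^ 2) ≤ qf f d W (h 0) (w 0) := by
  obtain ⟨l, hl, hwt⟩ := Psi_wt_ge hpos
  refine ⟨l * A ^ 2 / 2, by positivity, ?_⟩
  intro w h s R hs hR hc hh c hc0 hq
  set b : ℝ := l * A ^ 2 / 2 with hb
  have hb0 : 0 < b := by positivity
  have hcl : closedBall (0 : ℂ) s ⊆ ball 0 R := closedBall_subset_ball hR
  have hqpos : ∀ z ∈ ball (0 : ℂ) R, 0 < qf f d W (h z) (w z) := fun z hz => Psi_qf_pos f d W (hc.w_ne hz) (hc.ne z hz)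
  have hΦ : ContinuousOn (fun z : ℂ => (qf f d W (h z) (w z))⁻¹ * Real.exp (-(b * ‖z‖ ^ 2))) (closedBall 0 s) := by
    refine ContinuousOn.mul ?_ (by fun_prop)
    exact ((Psi_qf_cont hf d W hc).mono hcl).inv₀ fun z hz => (hqpos z (hcl hz)).ne'
  obtain ⟨z₁, hz₁, hmax⟩ := (isCompact_closedBall (0 : ℂ) s).exists_isMaxOn ⟨0, mem_closedBall_self hs.le⟩ hΦ
  have hz₁R : z₁ ∈ ball (0 : ℂ) R := hcl hz₁
  have hw₁ : w z₁ ≠ 0 := hc.w_ne hz₁R
  rcases (mem_closedBall_zero_iff.1 hz₁).lt_or_eq with hlt | heq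
  · -- an interior maximum
    exfalso
    have hdz : HasDerivAt h (deriv h z₁) z₁ := ((hc.h_diff z₁ hz₁R).differentiableAt (isOpen_ball.mem_nhds hz₁R)).hasDerivAt
    have hA1 := hh z₁ hz₁R
    have hlit := hdz.isLittleO.bound (show (0 : ℝ) < A / 8 by positivity)
    obtain ⟨ρ₁, hρ₁, hball⟩ := Metric.eventually_nhds_iff_ball.1 hlit
    set ρ : ℝ := min (ρ₁ / 2) ((s - ‖z₁‖) / 2) with hρ
    have hρ0 : 0 < ρ := lt_min (by positivity) (by linarith)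
    have hρ1 : ρ < ρ₁ := (min_le_left _ _).trans_lt (by linarith)
    have hρ2 : ρ ≤ (s - ‖z₁‖) / 2 := min_le_right _ _
    have hsub : closedBall z₁ ρ ⊆ closedBall (0 : ℂ) s := by
      intro z hz
      rw [mem_closedBall_zero_iff]
      rw [mem_closedBall, dist_eq_norm] at hz
      have h1 : ‖z‖ ≤ ‖z - z₁‖ + ‖z₁‖ := by
        have := norm_add_le (z - z₁) z₁
        rwa [sub_add_cancel] at this
      linarith
    have hH := Psi_H_diff hf d W hc hw₁ (h z₁)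
    set Ht : ℂ → ℂ := fun z => Psi_H f d W (w z₁) (h z₁) (w z) (h z) * Complex.exp (-(2 * (b : ℂ) * starRingEnd ℂ z₁ * (z - z₁))) with hHt
    have hHtd : DiffContOnCl ℂ Ht (ball z₁ ρ) := by
      refine DifferentiableOn.diffContOnCl ?_
      rw [closure_ball z₁ hρ0.ne']
      refine (hH.mono (hsub.trans hcl)).mul ?_
      fun_prop
    obtain ⟨z₂, hz₂, hm₂⟩ := Complex.exists_mem_frontier_isMaxOn_norm isBounded_ball ⟨z₁, mem_ball_self hρ0⟩ hHtd
    rw [frontier_ball z₁ hρ0.ne'] at hz₂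
    have hle : ‖Ht z₁‖ ≤ ‖Ht z₂‖ := hm₂ (subset_closure (mem_ball_self hρ0))
    have hz₂s : z₂ ∈ closedBall (0 : ℂ) s := hsub (sphere_subset_closedBall hz₂)
    have hz₂R := hcl hz₂s
    have hdist : ‖z₂ - z₁‖ = ρ := by
      rw [mem_sphere, dist_eq_norm] at hz₂
      exact hz₂
    -- the lower bound of the weight
    have hb2 := hball z₂ (by rw [mem_ball, dist_eq_norm, hdist]; exact hρ1)
    rw [hdist] at hb2
    have hlow : 7 / 8 * A * ρ ≤ ‖h z₂ - h z₁‖ := by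
      have h1 : ‖(z₂ - z₁) • deriv h z₁‖ ≤ ‖h z₂ - h z₁‖ + ‖h z₂ - h z₁ - (z₂ - z₁) • deriv h z₁‖ := by
        have := norm_sub_le (h z₂ - h z₁) (h z₂ - h z₁ - (z₂ - z₁) • deriv h z₁)
        rwa [sub_sub_cancel] at this
      rw [norm_smul, hdist] at h1
      have h2 : ρ * A ≤ ρ * ‖deriv h z₁‖ := mul_le_mul_of_nonneg_left hA1 hρ0.le
      nlinarith
    have hwt2 : b * ρ ^ 2 < wt W (h z₂ - h z₁) := by
      have h1 := hwt (h z₂ - h z₁)
      have h2 : (7 / 8 * A * ρ) ^ 2 ≤ ‖h z₂ - h z₁‖ ^ 2 := pow_le_pow_left₀ (by positivity) hlow 2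
      have h3 : l * (7 / 8 * A * ρ) ^ 2 ≤ l * ‖h z₂ - h z₁‖ ^ 2 := mul_le_mul_of_nonneg_left h2 hl.le
      have h4 : b * ρ ^ 2 < l * (7 / 8 * A * ρ) ^ 2 := by
        have h5 : 0 < l * A ^ 2 * ρ ^ 2 := by positivity
        rw [hb]
        nlinarith
      linarith
    have hsq : ‖z₂‖ ^ 2 = ‖z₁‖ ^ 2 + 2 * (starRingEnd ℂ z₁ * (z₂ - z₁)).re + ρ ^ 2 := by
      rw [← hdist, ← Complex.normSq_eq_norm_sq, ← Complex.normSq_eq_norm_sq, ← Complex.normSq_eq_norm_sq, Complex.normSq_apply,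
        Complex.normSq_apply, Complex.normSq_apply]
      simp only [Complex.mul_re, Complex.conj_re, Complex.conj_im, Complex.sub_re, Complex.sub_im]
      ring
    have hHn : ∀ z, ‖Ht z‖ = ‖Psi_H f d W (w z₁) (h z₁) (w z) (h z)‖ * Real.exp (-(2 * b * (starRingEnd ℂ z₁ * (z - z₁)).re)) := by
      intro z
      rw [hHt]
      show ‖_ * _‖ = _
      rw [norm_mul, Complex.norm_exp]
      congr 2
      rw [Complex.neg_re, mul_assoc (2 * (b : ℂ)), Complex.mul_re]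
      simp
    have h1 : ‖Ht z₁‖ = ‖Psi_H f d W (w z₁) (h z₁) (w z₁) (h z₁)‖ := by
      rw [hHn, sub_self, mul_zero, Complex.zero_re, mul_zero, neg_zero, Real.exp_zero, mul_one]
    have h2 := Psi_H_self f d W hw₁ (hc.ne z₁ hz₁R)
    have h3 : (qf f d W (h z₁) (w z₁))⁻¹ = ‖Ht z₁‖ := by
      rw [h1]
      exact (eq_inv_of_mul_eq_one_left h2).symm
    have h4 := Psi_H_le f d W hw₁ (h z₁) (hc.w_ne hz₂R) (hc.ne z₂ hz₂R)
    have h5 : ‖Psi_H f d W (w z₁) (h z₁) (w z₂) (h z₂)‖ * Real.exp (wt W (h z₂ - h z₁)) ≤ (qf f d W (h z₂) (w z₂))⁻¹ := by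
      rw [← one_div, le_div_iff₀ (hqpos z₂ hz₂R)]
      exact h4
    have h6 : (qf f d W (h z₂) (w z₂))⁻¹ * Real.exp (-(b * ‖z₂‖ ^ 2)) ≤ (qf f d W (h z₁) (w z₁))⁻¹ * Real.exp (-(b * ‖z₁‖ ^ 2)) := hmax hz₂s
    have hHpos : 0 < ‖Ht z₁‖ := by
      rw [← h3]
      exact inv_pos.2 (hqpos z₁ hz₁R)
    have h7 : ‖Ht z₂‖ * Real.exp (wt W (h z₂ - h z₁) - b * ρ ^ 2) * Real.exp (-(b * ‖z₁‖ ^ 2)) ≤
        (qf f d W (h z₂) (w z₂))⁻¹ * Real.exp (-(b * ‖z₂‖ ^ 2)) := by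
      refine le_trans (le_of_eq ?_) (mul_le_mul_of_nonneg_right h5 (Real.exp_pos _).le)
      have e : Real.exp (-(2 * b * (starRingEnd ℂ z₁ * (z₂ - z₁)).re)) * Real.exp (wt W (h z₂ - h z₁) - b * ρ ^ 2) * Real.exp (-(b * ‖z₁‖ ^ 2)) =
          Real.exp (wt W (h z₂ - h z₁)) * Real.exp (-(b * ‖z₂‖ ^ 2)) := by
        rw [← Real.exp_add, ← Real.exp_add, ← Real.exp_add]
        congr 1
        rw [hsq]
        ring
      rw [hHn]
      linear_combination ‖Psi_H f d W (w z₁) (h z₁) (w z₂) (h z₂)‖ * e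
    have h8 : ‖Ht z₁‖ * 1 < ‖Ht z₂‖ * Real.exp (wt W (h z₂ - h z₁) - b * ρ ^ 2) := by
      have h9 : 1 < Real.exp (wt W (h z₂ - h z₁) - b * ρ ^ 2) := by
        rw [Real.one_lt_exp_iff]
        linarith
      calc ‖Ht z₁‖ * 1 < ‖Ht z₁‖ * Real.exp (wt W (h z₂ - h z₁) - b * ρ ^ 2) := mul_lt_mul_of_pos_left h9 hHpos
        _ ≤ _ := mul_le_mul_of_nonneg_right hle (Real.exp_pos _).le
    rw [mul_one] at h8
    have h10 := mul_lt_mul_of_pos_right h8 (Real.exp_pos (-(b * ‖z₁‖ ^ 2)))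
    rw [h3] at h6
    linarith
  · have h1 : (qf f d W (h 0) (w 0))⁻¹ * Real.exp (-(b * ‖(0 : ℂ)‖ ^ 2)) ≤ (qf f d W (h z₁) (w z₁))⁻¹ * Real.exp (-(b * ‖z₁‖ ^ 2)) :=
      hmax (mem_closedBall_self hs.le)
    have h0R : (0 : ℂ) ∈ ball (0 : ℂ) R := mem_ball_self (hs.trans hR)
    have h2 : c ≤ qf f d W (h z₁) (w z₁) := hq z₁ (mem_sphere_zero_iff_norm.2 heq)
    have h3 : (qf f d W (h z₁) (w z₁))⁻¹ ≤ c⁻¹ := inv_anti₀ hc0 h2
    rw [norm_zero, heq] at h1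
    have h4 : (qf f d W (h 0) (w 0))⁻¹ ≤ c⁻¹ * Real.exp (-(b * s ^ 2)) := by
      have h5 := mul_le_mul_of_nonneg_right h3 (Real.exp_pos (-(b * s ^ 2))).le
      have h6 : Real.exp (-(b * (0 : ℝ) ^ 2)) = 1 := by simp
      rw [h6, mul_one] at h1
      exact h1.trans h5
    have h5 : c⁻¹ * Real.exp (-(b * s ^ 2)) = (c * Real.exp (b * s ^ 2))⁻¹ := by
      rw [mul_inv, Real.exp_neg]
    rw [h5] at h4
    exact (inv_le_inv₀ (hqpos 0 h0R) (by positivity)).1 h4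

theorem HD.psi_max (P : HD Λ D X F d W) (j : Fin q) {w : ℂ → EN N} {h : ℂ → Vd (k + 1)} {z₀ : ℂ} {s R : ℝ} (hs : 0 < s) (hR : s < R) (hc : Cw X F (ball z₀ R) w h) {c : ℝ} (hc0 : 0 < c)
    (hq : ∀ z ∈ sphere z₀ s, c ≤ qf (F j) (d j) (W j) (h z) (w z)) : c ≤ qf (F j) (d j) (W j) (h z₀) (w z₀) :=
  Pool.Agent.HE.psi_max (P.an j) (d j) (W j) hs hR ⟨hc.w_diff, hc.h_diff, hc.w_ne, hc.ne j⟩ hc0 hq

theorem HD.psi_grow (P : HD Λ D X F d W) (j : Fin q) (hpos : ∀ y, (∀ i, W j i y = 0) → y = 0) {A : ℝ} (hA : 0 < A) : ∃ c₀ : ℝ, 0 < c₀ ∧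
    ∀ (w : ℂ → EN N) (h : ℂ → Vd (k + 1)) (s R : ℝ), 0 < s → s < R → Cw X F (ball 0 R) w h → (∀ z ∈ ball (0 : ℂ) R, A ≤ ‖deriv h z‖) → ∀ c : ℝ, 0 < c →
      (∀ z ∈ sphere (0 : ℂ) s, c ≤ qf (F j) (d j) (W j) (h z) (w z)) → c * Real.exp (c₀ * s ^ 2) ≤ qf (F j) (d j) (W j) (h 0) (w 0) := by
  obtain ⟨c₀, hc₀, h1⟩ := Pool.Agent.HE.psi_grow (P.an j) (d j) (W j) hpos hA
  exact ⟨c₀, hc₀, fun w h s R hs hR hc => h1 w h s R hs hR ⟨hc.w_diff, hc.h_diff, hc.w_ne, hc.ne j⟩⟩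

end Pool.Agent.HE

end
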