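import Pool.Agent.H94.PX2.M06
import Pool.Agent.H94.PX2.M07
import Pool.Agent.H94.PX2.M11
import Pool.Agent.H94.PX2.M23
import Pool.Agent.H94.PX2.M28
import Pool.Agent.H94.PX2.M29

/-! The parts of this file: H62.EF.LimL, HE.Lip_1. -/

section

/-!
# EF LimL: limits of curves with bounded derivative

`F n` is a holomorphic curve in `X` on `ball 0 (ρ n)`, `ρ n → ∞` along the ultrafilter `𝒰`, with `fs (F n z) ((F n)' z) ≤ L` (`L > 0`).

(a) Local: let `z₀ ∈ ℂ`, `r = 1 / (8 L)`.  For `𝒰`-almost all `n` we have `ball z₀ r ⊆ ball 0 (ρ n)`; let `e n = F n z₀ / ‖F n z₀‖`,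
`φ n z = (⟨e n, F n z⟩)⁻¹ • F n z` on `ball z₀ r`.  `pr_lipschitz`: `dist (pr (F n z)) (pr (e n)) ≤ 2 L r = 1/4`, so by `norm_inner_sq`
`‖⟨e n, F n z⟩‖² ≥ ‖F n z‖² / 2`: `φ n` is holomorphic, `‖φ n z‖ ≤ 2`, `⟨e n, φ n z⟩ = 1`.  `e n → e` (compact sphere) and by
`montel_ultrafilter` `φ n → ψ` locally uniformly on `ball z₀ r`, `ψ` holomorphic; `⟨e, ψ z⟩ = 1`, so `ψ z ≠ 0`, and `ψ z ∈ X` because
`insert 0 X` is closed.  `pr (F n z) = pr (φ n z) → pr (ψ z)` (`continuousAt_pr`), and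
`fs (F n z) ((F n)' z) = fs (φ n z) ((φ n)' z) → fs (ψ z) (ψ' z)` (`fs (k x) (k v + a x) = fs x v`, see `H36/BP/MtA.lean` and `WdA.lean`;
`TendstoLocallyUniformlyOn.deriv`).

(b) Global: for every `z` let `y z` be the limit of `pr (F n z)`; by (a) for every `z₀` there is `ψ` holomorphic near `z₀`, without
zeros, with `pr (ψ z) = y z`.  Define `f z : PN N` as the class of `ψ_z z` (the `ψ` chosen at the point `z`); near `z₀`
`f z = [ψ_{z₀} z]` by `pr_eq_iff`, so `f` is `HolomorphicInto` on `univ`; `exists_global_lift` gives an entire lift `G` without zeros,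
`pr (G z) = y z`, `G z = c • ψ z` with `c ≠ 0` near `z₀`, so `G z ∈ X`; `fs (G z) (G' z) = fs (ψ z) (ψ' z)` because `G = a ψ` near `z₀` with `a`
holomorphic without zeros (`a = ⟨e, G⟩`).
-/

set_option autoImplicit false

open Topology Filter Metric

namespace Pool.Agent.H62.EF

open Pool.Agent.H36.BP (EN fs wd)
open Pool.Agent.H14.PP (IsCone)

variable {N : ℕ}

private lemma LimL_ne_zero {X : Set (EN N)} (hX : IsCone X) {x : EN N} (hx : x ∈ X) : x ≠ 0 := by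
  rintro rfl
  exact hX.zero_notMem hx

private lemma LimL_fs_cont {x v : EN N} (hx : x ≠ 0) : ContinuousAt (fun p : EN N × EN N => fs p.1 p.2) (x, v) := by
  unfold fs
  have h1 : ContinuousAt (fun p : EN N × EN N => wd p.1 p.2) (x, v) := Pool.Agent.H36.BP.wd_cont.continuousAt
  have h2 : ContinuousAt (fun p : EN N × EN N => ‖p.1‖ ^ 2) (x, v) := (continuous_fst.norm.pow 2).continuousAt
  exact h1.div h2 (pow_ne_zero 2 (norm_ne_zero_iff.mpr hx))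

private lemma LimL_exists_coord {w : EN N} (hw : w ≠ 0) : ∃ j, w j ≠ 0 := by
  by_contra h
  push Not at h
  apply hw
  ext j
  exact h j

private lemma LimL_coord_an {f : ℂ → EN N} {z : ℂ} (hf : AnalyticAt ℂ f z) (i : Fin (N + 1)) :
    AnalyticAt ℂ (fun w => f w i) z := by
  exact ((EuclideanSpace.proj (𝕜 := ℂ) i : EN N →L[ℂ] ℂ).analyticAt _).comp hf

private lemma LimL_fs_tendsto {x v : EN N} (hx : x ≠ 0) {a b : ℕ → EN N} {l : Filter ℕ} (ha : Tendsto a l (𝓝 x))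
    (hb : Tendsto b l (𝓝 v)) : Tendsto (fun n => fs (a n) (b n)) l (𝓝 (fs x v)) := by
  have h1 := ha.prodMk_nhds hb
  have h2 := (LimL_fs_cont (v := v) hx).tendsto.comp h1
  exact h2

private lemma LimL_fs_eq_aux {f g : ℂ → EN N} {k : ℂ → ℂ} {z : ℂ} (hg : AnalyticAt ℂ g z) (hf0 : f z ≠ 0)
    (hg0 : g z ≠ 0) (hk : AnalyticAt ℂ k z) (h : ∀ᶠ w in 𝓝 z, f w = k w • g w) :
    fs (f z) (deriv f z) = fs (g z) (deriv g z) := by
  have hz : f z = k z • g z := h.self_of_nhds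
  have h0 : k z ≠ 0 := by
    intro h1
    apply hf0
    rw [hz, h1, zero_smul]
  have hd : deriv f z = k z • deriv g z + deriv k z • g z := by
    have h1 : f =ᶠ[𝓝 z] fun w => k w • g w := h
    rw [h1.deriv_eq]
    exact (hk.differentiableAt.hasDerivAt.smul hg.differentiableAt.hasDerivAt).deriv
  rw [hd, hz]
  exact Pool.Agent.H36.BP.fs_inv hg0 _ h0 _

/-- the length of the derivative does not depend on the lift -/
private lemma LimL_fs_eq {f g : ℂ → EN N} {z : ℂ} (hf : AnalyticAt ℂ f z) (hg : AnalyticAt ℂ g z) (hf0 : f z ≠ 0)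
    (hg0 : g z ≠ 0) (h : ∀ᶠ w in 𝓝 z, ∃ c : ℂ, c ≠ 0 ∧ f w = c • g w) : fs (f z) (deriv f z) = fs (g z) (deriv g z) := by
  obtain ⟨l, hl⟩ := LimL_exists_coord hg0
  have hgl := LimL_coord_an hg l
  have hfl := LimL_coord_an hf l
  have ha : AnalyticAt ℂ (fun w => f w l / g w l) z := hfl.div hgl hl
  have he : ∀ᶠ w in 𝓝 z, f w = (f w l / g w l) • g w := by
    filter_upwards [h, hgl.continuousAt.eventually_ne hl] with w h1 h2
    obtain ⟨c, hc, h3⟩ := h1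
    have h4 : f w l = c * g w l := by rw [h3]; rfl
    have h2' : g w l ≠ 0 := h2
    rw [h4, mul_div_assoc, div_self h2', mul_one]
    exact h3
  exact LimL_fs_eq_aux hg hf0 hg0 ha he

private lemma LimL_local {X : Set (EN N)} (hX : IsCone X) {L : ℝ} (hL : 0 < L) (𝒰 : Ultrafilter ℕ) (F : ℕ → ℂ → EN N) (ρ : ℕ → ℝ)
    (hρ : Tendsto ρ 𝒰 atTop) (hF : ∀ᶠ n in (𝒰 : Filter ℕ), DifferentiableOn ℂ (F n) (ball 0 (ρ n)) ∧
      ∀ z ∈ ball (0 : ℂ) (ρ n), F n z ∈ X ∧ fs (F n z) (deriv (F n) z) ≤ L) (z₀ : ℂ) :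
    ∃ (r : ℝ) (φ : ℕ → ℂ → EN N) (ψ : ℂ → EN N), 0 < r ∧
        (∀ᶠ n in (𝒰 : Filter ℕ), DifferentiableOn ℂ (F n) (ball z₀ r) ∧ DifferentiableOn ℂ (φ n) (ball z₀ r) ∧
          ∀ z ∈ ball z₀ r, F n z ∈ X ∧ ∃ c : ℂ, c ≠ 0 ∧ φ n z = c • F n z) ∧
        DifferentiableOn ℂ ψ (ball z₀ r) ∧ (∀ z ∈ ball z₀ r, ψ z ∈ X) ∧
        TendstoLocallyUniformlyOn φ ψ 𝒰 (ball z₀ r) := by
  set r : ℝ := 1 / (8 * L) with hr
  have hr0 : 0 < r := by positivity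
  have hz₀ : z₀ ∈ ball z₀ r := mem_ball_self hr0
  have hev : ∀ᶠ n in (𝒰 : Filter ℕ), DifferentiableOn ℂ (F n) (ball z₀ r) ∧
      ∀ z ∈ ball z₀ r, F n z ∈ X ∧ ‖F n z₀‖ * ‖F n z‖ ≤ 2 * ‖inner ℂ (F n z₀) (F n z)‖ := by
    filter_upwards [hF, hρ.eventually_ge_atTop (‖z₀‖ + r)] with n h1 h2
    obtain ⟨h1, h3⟩ := h1
    have hsub : ball z₀ r ⊆ ball 0 (ρ n) := by
      apply ball_subset_ball'
      rw [dist_zero_right]
      linarith
    refine ⟨h1.mono hsub, fun z hz => ⟨(h3 z (hsub hz)).1, ?_⟩⟩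
    have hx0 : F n z₀ ≠ 0 := LimL_ne_zero hX (h3 z₀ (hsub hz₀)).1
    have hy0 : F n z ≠ 0 := LimL_ne_zero hX (h3 z (hsub hz)).1
    have hlip := pr_lipschitz isOpen_ball (convex_ball z₀ r) (h1.mono hsub)
      (fun w hw => LimL_ne_zero hX (h3 w (hsub hw)).1) (fun w hw => (h3 w (hsub hw)).2) z₀ hz₀ z hz
    have h4 : ‖z₀ - z‖ ≤ r := by
      rw [← dist_eq_norm, dist_comm]
      exact (mem_ball.mp hz).le
    have h5 : dist (pr (F n z₀)) (pr (F n z)) ≤ 1 / 4 := by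
      calc dist (pr (F n z₀)) (pr (F n z)) ≤ 2 * L * ‖z₀ - z‖ := hlip
        _ ≤ 2 * L * r := by gcongr
        _ = 1 / 4 := by rw [hr]; field_simp; norm_num
    have h6 := norm_inner_sq hx0 hy0
    have h7 : dist (pr (F n z₀)) (pr (F n z)) ^ 2 ≤ 1 := by
      have := dist_nonneg (x := pr (F n z₀)) (y := pr (F n z))
      nlinarith
    have h8 : (‖F n z₀‖ * ‖F n z‖) ^ 2 ≤ (2 * ‖inner ℂ (F n z₀) (F n z)‖) ^ 2 := by
      rw [mul_pow, mul_pow, h6]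
      have h9 : 0 ≤ ‖F n z₀‖ ^ 2 * ‖F n z‖ ^ 2 := by positivity
      nlinarith
    exact abs_le_of_sq_le_sq' h8 (by positivity) |>.2
  set φ : ℕ → ℂ → EN N := fun n z => (((‖F n z₀‖ : ℝ) : ℂ) / inner ℂ (F n z₀) (F n z)) • F n z with hφ
  have hev2 : ∀ᶠ n in (𝒰 : Filter ℕ), DifferentiableOn ℂ (F n) (ball z₀ r) ∧ DifferentiableOn ℂ (φ n) (ball z₀ r) ∧
      ∀ z ∈ ball z₀ r, F n z ∈ X ∧ (∃ c : ℂ, c ≠ 0 ∧ φ n z = c • F n z) ∧ ‖φ n z‖ ≤ 2 ∧ 1 ≤ ‖φ n z‖ := by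
    filter_upwards [hev] with n h1
    obtain ⟨h1, h2⟩ := h1
    have hx0 : F n z₀ ≠ 0 := LimL_ne_zero hX (h2 z₀ hz₀).1
    have hxn : 0 < ‖F n z₀‖ := norm_pos_iff.mpr hx0
    have hin : ∀ z ∈ ball z₀ r, (inner ℂ (F n z₀) (F n z) : ℂ) ≠ 0 := by
      intro z hz h
      have h3 := (h2 z hz).2
      have hyn : 0 < ‖F n z‖ := norm_pos_iff.mpr (LimL_ne_zero hX (h2 z hz).1)
      rw [h, norm_zero, mul_zero] at h3
      have : 0 < ‖F n z₀‖ * ‖F n z‖ := mul_pos hxn hyn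
      linarith
    refine ⟨h1, ?_, fun z hz => ⟨(h2 z hz).1, ⟨_, ?_, rfl⟩, ?_, ?_⟩⟩
    · have h3 : DifferentiableOn ℂ (fun z => (inner ℂ (F n z₀) (F n z) : ℂ)) (ball z₀ r) :=
        (innerSL ℂ (F n z₀)).differentiable.comp_differentiableOn h1
      have h4 : DifferentiableOn ℂ (fun z => ((‖F n z₀‖ : ℝ) : ℂ) / (inner ℂ (F n z₀) (F n z) : ℂ)) (ball z₀ r) :=
        (differentiableOn_const _).div h3 hin
      exact h4.smul h1
    · exact div_ne_zero (Complex.ofReal_ne_zero.mpr hxn.ne') (hin z hz)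
    · have h3 := (h2 z hz).2
      have h4 : 0 < ‖(inner ℂ (F n z₀) (F n z) : ℂ)‖ := norm_pos_iff.mpr (hin z hz)
      simp only [hφ]
      rw [norm_smul, norm_div, Complex.norm_real, norm_norm, div_mul_eq_mul_div, div_le_iff₀ h4]
      exact h3
    · have h4 : 0 < ‖(inner ℂ (F n z₀) (F n z) : ℂ)‖ := norm_pos_iff.mpr (hin z hz)
      simp only [hφ]
      rw [norm_smul, norm_div, Complex.norm_real, norm_norm, div_mul_eq_mul_div, le_div_iff₀ h4, one_mul]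
      exact norm_inner_le_norm _ _
  obtain ⟨ψ, hψ, hconv⟩ := Pool.Agent.H17.montel_ultrafilter 𝒰 (F := φ) (a := z₀) (r := r) (B := 2)
    (hev2.mono fun n h => h.2.1) (hev2.mono fun n h z hz => ((h.2.2 z hz).2.2.1))
  refine ⟨r, φ, ψ, hr0, hev2.mono fun n h => ⟨h.1, h.2.1, fun z hz => ⟨(h.2.2 z hz).1, (h.2.2 z hz).2.1⟩⟩, hψ, ?_, hconv⟩
  intro z hz
  have h1 : Tendsto (fun n => φ n z) 𝒰 (𝓝 (ψ z)) := hconv.tendsto_at hz
  have h2 : ψ z ∈ insert 0 X := by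
    refine hX.closed.mem_of_tendsto h1 ?_
    filter_upwards [hev2] with n h
    obtain ⟨h3, ⟨c, hc, h4⟩, -⟩ := h.2.2 z hz
    rw [h4]
    exact Or.inr (hX.smul_mem _ h3 c hc)
  have h3 : 1 ≤ ‖ψ z‖ := by
    refine ge_of_tendsto h1.norm ?_
    filter_upwards [hev2] with n h
    exact (h.2.2 z hz).2.2.2
  rcases h2 with h2 | h2
  · rw [h2, norm_zero] at h3
    linarith
  · exact h2

theorem limit_curves {X : Set (EN N)} (hX : IsCone X) {L : ℝ} (hL : 0 < L) (𝒰 : Ultrafilter ℕ) (F : ℕ → ℂ → EN N) (ρ : ℕ → ℝ)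
    (hρ : Tendsto ρ 𝒰 atTop) (hF : ∀ᶠ n in (𝒰 : Filter ℕ), DifferentiableOn ℂ (F n) (ball 0 (ρ n)) ∧
      ∀ z ∈ ball (0 : ℂ) (ρ n), F n z ∈ X ∧ fs (F n z) (deriv (F n) z) ≤ L) :
    ∃ G : ℂ → EN N, Differentiable ℂ G ∧ (∀ z, G z ∈ X) ∧ (∀ z, Tendsto (fun n => pr (F n z)) 𝒰 (𝓝 (pr (G z)))) ∧
      (∀ z, Tendsto (fun n => fs (F n z) (deriv (F n) z)) 𝒰 (𝓝 (fs (G z) (deriv G z)))) ∧
      ∀ z₀, ∃ (r : ℝ) (φ : ℕ → ℂ → EN N) (ψ : ℂ → EN N), 0 < r ∧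
        (∀ᶠ n in (𝒰 : Filter ℕ), DifferentiableOn ℂ (φ n) (ball z₀ r) ∧ ∀ z ∈ ball z₀ r, ∃ c : ℂ, c ≠ 0 ∧ φ n z = c • F n z) ∧
        DifferentiableOn ℂ ψ (ball z₀ r) ∧ (∀ z ∈ ball z₀ r, ∃ c : ℂ, c ≠ 0 ∧ ψ z = c • G z) ∧
        TendstoLocallyUniformlyOn φ ψ 𝒰 (ball z₀ r) := by
  classical
  choose r φ ψ hr hev hψd hψX hconv using LimL_local hX hL 𝒰 F ρ hρ hF
  have hψ0 : ∀ z₀, ∀ z ∈ ball z₀ (r z₀), ψ z₀ z ≠ 0 := fun z₀ z hz => LimL_ne_zero hX (hψX z₀ z hz)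
  have hself : ∀ z, z ∈ ball z (r z) := fun z => mem_ball_self (hr z)
  have hprl : ∀ z₀, ∀ z ∈ ball z₀ (r z₀), Tendsto (fun n => pr (F n z)) 𝒰 (𝓝 (pr (ψ z₀ z))) := by
    intro z₀ z hz
    have h1 : Tendsto (fun n => φ z₀ n z) 𝒰 (𝓝 (ψ z₀ z)) := (hconv z₀).tendsto_at hz
    have h2 : Tendsto (fun n => pr (φ z₀ n z)) 𝒰 (𝓝 (pr (ψ z₀ z))) :=
      (continuousAt_pr (hψ0 z₀ z hz)).tendsto.comp h1
    refine h2.congr' ?_
    filter_upwards [hev z₀] with n h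
    obtain ⟨-, c, hc, h4⟩ := h.2.2 z hz
    rw [h4, pr_smul _ hc]
  have hψan : ∀ z₀, AnalyticAt ℂ (ψ z₀) z₀ := fun z₀ => (hψd z₀).analyticAt (isOpen_ball.mem_nhds (hself z₀))
  have hofne : ∀ v : EN N, v ≠ 0 → v.ofLp ≠ 0 := by
    intro v hv h
    apply hv
    ext j
    exact congrFun h j
  set f : ℂ → Pool.Agent.H17.PN N := fun z => Projectivization.mk ℂ (ψ z z).ofLp
    (hofne _ (hψ0 z z (hself z))) with hf
  have hfhol : Pool.Agent.H17.HolomorphicInto f Set.univ := by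
    intro z₀ _
    refine ⟨fun w => (ψ z₀ w).ofLp, ?_, ?_⟩
    · rw [analyticAt_pi_iff]
      intro j
      exact LimL_coord_an (hψan z₀) j
    · filter_upwards [isOpen_ball.mem_nhds (hself z₀)] with z hz
      have h2 := hψ0 z₀ z hz
      refine ⟨hofne _ h2, ?_⟩
      have h3 : pr (ψ z z) = pr (ψ z₀ z) := tendsto_nhds_unique (hprl z z (hself z)) (hprl z₀ z hz)
      obtain ⟨c, hc, h4⟩ := (pr_eq_iff (hψ0 z z (hself z)) h2).mp h3
      rw [hf, Projectivization.mk_eq_mk_iff']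
      exact ⟨c, by rw [h4]; rfl⟩
  obtain ⟨x, hx⟩ := Pool.Agent.H17.exists_global_lift hfhol
  set G : ℂ → EN N := fun z => WithLp.toLp 2 (fun j => (x j : ℂ → ℂ) z) with hG
  have hGd : Differentiable ℂ G := by
    have h1 : Differentiable ℂ (fun z => (fun j => (x j : ℂ → ℂ) z)) :=
      differentiable_pi.2 fun j => (x j).diff
    exact (PiLp.continuousLinearEquiv 2 ℂ (fun _ : Fin (N + 1) => ℂ)).symm.differentiable.comp h1
  have hGc : ∀ z, ∃ c : ℂ, c ≠ 0 ∧ ψ z z = c • G z := by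
    intro z
    obtain ⟨h1, h2⟩ := hx z
    obtain ⟨c, hc, h3⟩ := Pool.Agent.H17.mk_eq_mk_cross h2
    refine ⟨c, hc, ?_⟩
    ext j
    exact h3 j
  have hGX : ∀ z, G z ∈ X := by
    intro z
    obtain ⟨c, hc, h1⟩ := hGc z
    have h2 := hX.smul_mem _ (hψX z z (hself z)) c⁻¹ (inv_ne_zero hc)
    rwa [h1, smul_smul, inv_mul_cancel₀ hc, one_smul] at h2
  have hG0 : ∀ z, G z ≠ 0 := fun z => LimL_ne_zero hX (hGX z)
  have hGpr : ∀ z, pr (ψ z z) = pr (G z) := by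
    intro z
    obtain ⟨c, hc, h1⟩ := hGc z
    rw [h1, pr_smul _ hc]
  have hlim : ∀ z, Tendsto (fun n => pr (F n z)) 𝒰 (𝓝 (pr (G z))) := by
    intro z
    rw [← hGpr z]
    exact hprl z z (hself z)
  have hprop : ∀ z₀, ∀ z ∈ ball z₀ (r z₀), ∃ c : ℂ, c ≠ 0 ∧ ψ z₀ z = c • G z := by
    intro z₀ z hz
    exact (pr_eq_iff (hψ0 z₀ z hz) (hG0 z)).mp (tendsto_nhds_unique (hprl z₀ z hz) (hlim z))
  refine ⟨G, hGd, hGX, hlim, ?_, ?_⟩
  · intro z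
    have hzb := isOpen_ball.mem_nhds (hself z)
    have h1 : fs (ψ z z) (deriv (ψ z) z) = fs (G z) (deriv G z) := by
      refine LimL_fs_eq (hψan z) (hGd.analyticAt z) (hψ0 z z (hself z)) (hG0 z) ?_
      filter_upwards [hzb] with w hw
      exact hprop z w hw
    rw [← h1]
    have h2 : Tendsto (fun n => φ z n z) 𝒰 (𝓝 (ψ z z)) := (hconv z).tendsto_at (hself z)
    have hd : TendstoLocallyUniformlyOn (deriv ∘ (φ z)) (deriv (ψ z)) 𝒰 (ball z (r z)) :=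
      (hconv z).deriv ((hev z).mono fun n hn => hn.2.1) isOpen_ball
    have h3 : Tendsto (fun n => deriv (φ z n) z) 𝒰 (𝓝 (deriv (ψ z) z)) := hd.tendsto_at (hself z)
    have h4 : Tendsto (fun n => fs (φ z n z) (deriv (φ z n) z)) 𝒰 (𝓝 (fs (ψ z z) (deriv (ψ z) z))) :=
      LimL_fs_tendsto (hψ0 z z (hself z)) h2 h3
    refine h4.congr' ?_
    filter_upwards [hev z] with n h
    obtain ⟨h5, h6, h7⟩ := h
    have hFX := (h7 z (hself z)).1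
    obtain ⟨c, hc, h8⟩ := (h7 z (hself z)).2
    refine LimL_fs_eq (h6.analyticAt hzb) (h5.analyticAt hzb) ?_ (LimL_ne_zero hX hFX) ?_
    · rw [h8]
      exact smul_ne_zero hc (LimL_ne_zero hX hFX)
    · filter_upwards [hzb] with w hw
      exact (h7 w hw).2
  · intro z₀
    refine ⟨r z₀, φ z₀, ψ z₀, hr z₀, ?_, hψd z₀, hprop z₀, hconv z₀⟩
    filter_upwards [hev z₀] with n h
    exact ⟨h.2.1, fun z hz => (h.2.2 z hz).2⟩

end Pool.Agent.H62.EF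

end

section

/-!
# HE Lip: the curves are Lipschitz over `Gd D δ`

Adapted from `PX/Lip`.
-/

set_option autoImplicit false

open Topology Filter Metric

namespace Pool.Agent.HE

open Pool.Agent.H36.BP (EN fs wd)
open Pool.Agent.H62.EF (MN pr)
open Pool.Agent.AD (Vd)
open Pool.Agent.TG (Lat Gd)
open Pool.Agent.G3 (wt LLift)

variable {N k q r : ℕ} {Λ : AddSubgroup (Vd (k + 1))} {D : Set (Vd (k + 1))} {X : Set (Vd (k + 1) × EN N)} {F : Fin q → Vd (k + 1) × EN N → ℂ} {d : Fin q → ℕ}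
  {W : Fin q → Fin r → Vd (k + 1) →L[ℂ] ℂ}

/-- normalisation: the centre is `0`, the value at the centre is bounded, the disc is small -/
private lemma Lip_norm (P : HD Λ D X F d W) {δ H r₀ s : ℝ} (hs : 0 < s) (hsr : s ≤ r₀) :
    ∃ R : ℝ, 0 < R ∧ ∀ (w : ℂ → EN N) (h : ℂ → Vd (k + 1)) (z : ℂ), Cw X F (ball z r₀) w h → (∀ ζ ∈ ball z r₀, ‖deriv h ζ‖ ≤ H) → h z ∈ Gd D δ →
      ∃ (w' : ℂ → EN N) (h' : ℂ → Vd (k + 1)), Cw X F (ball 0 s) w' h' ∧ (∀ ζ ∈ ball (0 : ℂ) s, ∀ ζ' ∈ ball (0 : ℂ) s, ‖h' ζ - h' ζ'‖ ≤ H * ‖ζ - ζ'‖) ∧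
        h' 0 ∈ Gd D δ ∧ ‖h' 0‖ ≤ R ∧ fs (w' 0) (deriv w' 0) = fs (w z) (deriv w z) := by
  obtain ⟨R, hR0, hR⟩ := P.lat.cpt
  refine ⟨R, hR0, fun w h z hc hd hz => ?_⟩
  obtain ⟨l, hl, hlR⟩ := hR (h z)
  have hmap : Set.MapsTo (fun ζ : ℂ => z + ζ) (ball 0 s) (ball z r₀) := by
    intro ζ hζ
    rw [mem_ball_zero_iff] at hζ
    rw [mem_ball, dist_eq_norm]
    have : z + ζ - z = ζ := by ring
    rw [this]
    linarith
  have hc1 : Cw X F (ball (0 : ℂ) s) (fun ζ => w (z + ζ)) (fun ζ => h (z + ζ)) :=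
    hc.comp (φ := fun ζ : ℂ => z + ζ) (differentiable_id.const_add z).differentiableOn hmap
  have hc2 := Cw.add P hc1 (Λ.neg_mem hl)
  refine ⟨fun ζ => w (z + ζ), fun ζ => h (z + ζ) + -l, hc2, ?_, ?_, ?_, ?_⟩
  · have hder : ∀ ζ ∈ ball (0 : ℂ) s, ‖deriv (fun ζ => h (z + ζ)) ζ‖ ≤ H := by
      intro ζ hζ
      have : deriv (fun ζ => h (z + ζ)) ζ = deriv h (z + ζ) := by
        rw [deriv_comp_const_add]
      rw [this]
      exact hd _ (hmap hζ)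
    intro ζ hζ ζ' hζ'
    have h1 := (convex_ball (0 : ℂ) s).norm_image_sub_le_of_norm_deriv_le (f := fun ζ => h (z + ζ)) (C := H)
      (fun x hx => hc1.h_diff.differentiableAt (isOpen_ball.mem_nhds hx)) hder hζ' hζ
    have h2 : h (z + ζ) + -l - (h (z + ζ') + -l) = h (z + ζ) - h (z + ζ') := by abel
    simp only [h2]
    exact h1
  · simp only [add_zero]
    exact P.gd_add δ (Λ.neg_mem hl) hz
  · simp only [add_zero]
    rwa [← sub_eq_add_neg]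
  · rw [deriv_comp_const_add]
    simp only [add_zero]

theorem HD.lip (P : HD Λ D X F d W) {δ H r₀ : ℝ} (hδ : 0 < δ) (hH : 0 ≤ H) (hr₀ : 0 < r₀) : ∃ L : ℝ, 0 < L ∧ ∀ (w : ℂ → EN N) (h : ℂ → Vd (k + 1)) (z : ℂ),
    Cw X F (ball z r₀) w h → (∀ ζ ∈ ball z r₀, ‖deriv h ζ‖ ≤ H) → h z ∈ Gd D δ → fs (w z) (deriv w z) ≤ L := by
  by_contra hcon
  push Not at hcon
  set s : ℝ := min r₀ (δ / (4 * (H + 1))) with hsdef
  have hH1 : 0 < H + 1 := by linarith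
  have hs : 0 < s := lt_min hr₀ (by positivity)
  have hsr : s ≤ r₀ := min_le_left _ _
  have hHs : H * s ≤ δ / 4 := by
    have h1 : s ≤ δ / (4 * (H + 1)) := min_le_right _ _
    calc H * s ≤ (H + 1) * s := by nlinarith
      _ ≤ (H + 1) * (δ / (4 * (H + 1))) := mul_le_mul_of_nonneg_left h1 hH1.le
      _ = δ / 4 := by
        field_simp
  obtain ⟨R, hR0, hR⟩ := Lip_norm (δ := δ) (H := H) P hs hsr
  have hbig : ∀ n : ℕ, ∃ (f : ℂ → EN N) (h : ℂ → Vd (k + 1)), Cw X F (ball 0 s) f h ∧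
      (∀ ζ ∈ ball (0 : ℂ) s, ∀ ζ' ∈ ball (0 : ℂ) s, ‖h ζ - h ζ'‖ ≤ H * ‖ζ - ζ'‖) ∧ h 0 ∈ Gd D δ ∧ ‖h 0‖ ≤ R ∧
      4 * ((n : ℝ) + 1) / s < fs (f 0) (deriv f 0) := by
    intro n
    obtain ⟨w, h, z, h1, h2, h3, h4⟩ := hcon (4 * ((n : ℝ) + 1) / s) (by positivity)
    obtain ⟨w', h', h5, h6, h7, h8, h9⟩ := hR w h z h1 h2 h3
    exact ⟨w', h', h5, h6, h7, h8, by rw [h9]; exact h4⟩
  choose f h hcp hlip hGd hRn hFb using hbig
  have hF0 : ∀ n, ∀ z ∈ ball (0 : ℂ) s, f n z ≠ 0 := fun n z hz => (hcp n).w_ne z hz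
  have hmul : ∀ z : ℂ, z ∈ ball (0 : ℂ) 1 → (s : ℂ) * z ∈ ball (0 : ℂ) s := by
    intro z hz
    rw [mem_ball_zero_iff] at hz ⊢
    rw [norm_mul, Complex.norm_real, Real.norm_of_nonneg hs.le]
    calc s * ‖z‖ < s * 1 := mul_lt_mul_of_pos_left hz hs
      _ = s := mul_one s
  have hresc : ∀ n : ℕ, ∃ (z₀ : ℂ) (a : ℝ), 4 * ((n : ℝ) + 1) < a ∧
      (∀ ζ ∈ ball (0 : ℂ) (n + 1), ‖z₀ + ((a⁻¹ : ℝ) : ℂ) * ζ‖ ≤ 1 / 2) ∧
      fs (f n ((s : ℂ) * z₀)) (deriv (fun ζ => f n ((s : ℂ) * (z₀ + ((a⁻¹ : ℝ) : ℂ) * ζ))) 0) = 1 ∧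
      ∀ ζ ∈ ball (0 : ℂ) (n + 1), fs (f n ((s : ℂ) * (z₀ + ((a⁻¹ : ℝ) : ℂ) * ζ)))
        (deriv (fun ζ => f n ((s : ℂ) * (z₀ + ((a⁻¹ : ℝ) : ℂ) * ζ))) ζ) ≤ 2 := by
    intro n
    have hd : DifferentiableOn ℂ (fun z => f n ((s : ℂ) * z)) (ball 0 1) :=
      (hcp n).w_diff.comp (differentiable_id.const_mul _).differentiableOn hmul
    refine Pool.Agent.AD.rescale_disc hd (fun z hz => hF0 n _ (hmul z hz)) n ?_
    have h1 : HasDerivAt (fun z : ℂ => (s : ℂ) * z) (s : ℂ) 0 := by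
      simpa using (hasDerivAt_id (0 : ℂ)).const_mul (s : ℂ)
    have h2 : deriv (fun z => f n ((s : ℂ) * z)) 0 = (s : ℂ) • deriv (f n) 0 := by
      have h4 : HasDerivAt (f n) (deriv (f n) 0) ((s : ℂ) * 0) := by
        rw [mul_zero]
        exact ((hcp n).w_diff.differentiableAt (isOpen_ball.mem_nhds (mem_ball_self hs))).hasDerivAt
      exact (h4.scomp 0 h1).deriv
    rw [h2, Pool.Agent.H36.BP.fs_smul_right, Complex.norm_real, Real.norm_of_nonneg hs.le, mul_zero]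
    have h4 := hFb n
    rw [div_lt_iff₀ hs] at h4
    linarith
  choose z₀ a ha hz₀ h1 h2 using hresc
  have ha0 : ∀ n, 0 < a n := fun n => lt_trans (by positivity) (ha n)
  have hz₀n : ∀ n, ‖z₀ n‖ ≤ 1 / 2 := by
    intro n
    have h3 := hz₀ n 0 (mem_ball_self (by positivity))
    rwa [mul_zero, add_zero] at h3
  set g : ℕ → ℂ → EN N := fun n ζ => f n ((s : ℂ) * (z₀ n + (((a n)⁻¹ : ℝ) : ℂ) * ζ)) with hgdef
  set hh : ℕ → ℂ → Vd (k + 1) := fun n ζ => h n ((s : ℂ) * (z₀ n + (((a n)⁻¹ : ℝ) : ℂ) * ζ)) with hhdef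
  have hin : ∀ n : ℕ, ∀ ζ ∈ ball (0 : ℂ) ((n : ℝ) + 1), (s : ℂ) * (z₀ n + (((a n)⁻¹ : ℝ) : ℂ) * ζ) ∈ ball (0 : ℂ) s := by
    intro n ζ hζ
    apply hmul
    rw [mem_ball_zero_iff]
    have h3 := hz₀ n ζ hζ
    linarith
  have hcpg : ∀ n : ℕ, Cw X F (ball 0 ((n : ℝ) + 1)) (g n) (hh n) := by
    intro n
    exact (hcp n).comp (φ := fun ζ => (s : ℂ) * (z₀ n + (((a n)⁻¹ : ℝ) : ℂ) * ζ))
      (((differentiable_id.const_mul _).const_add _).const_mul _).differentiableOn (hin n)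
  have hg0 : ∀ n : ℕ, ∀ ζ ∈ ball (0 : ℂ) ((n : ℝ) + 1), g n ζ ≠ 0 := fun n ζ hζ => hF0 n _ (hin n ζ hζ)
  have hg1 : ∀ n, fs (g n 0) (deriv (g n) 0) = 1 := by
    intro n
    have h3 := h1 n
    rw [hgdef]
    simpa only [mul_zero, add_zero] using h3
  have h0b : ∀ n : ℕ, (0 : ℂ) ∈ ball (0 : ℂ) ((n : ℝ) + 1) := fun n => mem_ball_self (by positivity)
  have hwy : ∀ n, ‖hh n 0 - h n 0‖ ≤ δ / 4 := by
    intro n
    have h3 := hlip n _ (hin n 0 (h0b n)) 0 (mem_ball_self hs)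
    refine h3.trans (le_trans ?_ hHs)
    rw [mul_zero, add_zero, sub_zero, norm_mul, Complex.norm_real, Real.norm_of_nonneg hs.le]
    refine mul_le_mul_of_nonneg_left ?_ hH
    have := hz₀n n
    nlinarith
  have hwG : ∀ n, hh n 0 ∈ Gd D (δ / 2) := by
    intro n
    have h3 := Pool.Agent.TG.gd_near (hGd n) (hwy n)
    exact Pool.Agent.TG.gd_mono (by linarith) h3
  have hwR : ∀ n, hh n 0 ∈ closedBall (0 : Vd (k + 1)) (R + δ / 4) := by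
    intro n
    rw [mem_closedBall_zero_iff]
    have h3 : hh n 0 = h n 0 + (hh n 0 - h n 0) := by abel
    rw [h3]
    exact (norm_add_le _ _).trans (add_le_add (hRn n) (hwy n))
  set 𝒰 : Ultrafilter ℕ := hyperfilter ℕ with h𝒰
  have hle : (𝒰 : Filter ℕ) ≤ atTop := Nat.hyperfilter_le_atTop
  obtain ⟨w₀, -, hw₀⟩ := (isCompact_closedBall (0 : Vd (k + 1)) (R + δ / 4)).ultrafilter_le_nhds (𝒰.map fun n => hh n 0) (by
    rw [Filter.le_principal_iff, Ultrafilter.coe_map, Filter.mem_map]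
    exact Filter.univ_mem' hwR)
  have hwt : Tendsto (fun n => hh n 0) 𝒰 (𝓝 w₀) := hw₀
  have hw₀G : w₀ ∈ Gd D (δ / 2) := (Pool.Agent.TG.gd_closed D (δ / 2)).mem_of_tendsto hwt (Eventually.of_forall hwG)
  have hw₀D : w₀ ∉ D := Pool.Agent.TG.gd_notMem (by positivity) hw₀G
  have hρ : Tendsto (fun n : ℕ => (n : ℝ) + 1) 𝒰 atTop :=
    (tendsto_atTop_add_const_right _ _ tendsto_natCast_atTop_atTop).mono_left hle
  have hainv : Tendsto (fun n => (a n)⁻¹) 𝒰 (𝓝 0) := by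
    have h3 : Tendsto a 𝒰 atTop := by
      refine tendsto_atTop_mono (fun n => ?_) hρ
      have := ha n
      have h4 : (0 : ℝ) ≤ n := Nat.cast_nonneg n
      linarith
    exact tendsto_inv_atTop_zero.comp h3
  obtain ⟨G, hG, hGX, -, hfs, hloc⟩ := Pool.Agent.H62.EF.limit_curves (Pool.Agent.TG.isCone_ne (N := N)) (L := 2) two_pos 𝒰 g (fun n : ℕ => (n : ℝ) + 1) hρ
    (Eventually.of_forall fun n => ⟨(hcpg n).w_diff, fun z hz => ⟨hg0 n z hz, h2 n z hz⟩⟩)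
  have hG0 : ∀ z, G z ≠ 0 := fun z => hGX z
  -- the limit is not constant
  have hone : fs (G 0) (deriv G 0) = 1 := by
    have h3 := hfs 0
    simp only [hg1] at h3
    exact tendsto_nhds_unique h3 tendsto_const_nhds |>.symm ▸ rfl
  -- the base points converge
  have hunif : ∀ R' ε : ℝ, 0 < ε → ∀ᶠ n in (𝒰 : Filter ℕ), ∀ z ∈ closedBall (0 : ℂ) R', ‖hh n z - w₀‖ < ε := by
    intro R' ε hε
    have h5 : Tendsto (fun n => H * (s * (a n)⁻¹ * |R'|)) 𝒰 (𝓝 0) := by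
      have h6 := ((hainv.const_mul s).mul_const |R'|).const_mul H
      rwa [mul_zero, zero_mul, mul_zero] at h6
    have h6 : Tendsto (fun n => ‖hh n 0 - w₀‖) 𝒰 (𝓝 0) := by
      have := (hwt.sub_const w₀).norm
      rwa [sub_self, norm_zero] at this
    filter_upwards [h5.eventually_lt_const (half_pos hε), h6.eventually_lt_const (half_pos hε), hρ.eventually_gt_atTop |R'|] with n hn1 hn2 hn3 z hz
    rw [mem_closedBall_zero_iff] at hz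
    have hz' : ‖z‖ ≤ |R'| := hz.trans (le_abs_self R')
    have hb : z ∈ ball (0 : ℂ) ((n : ℝ) + 1) := by
      rw [mem_ball_zero_iff]
      linarith
    have h7 : (s : ℂ) * (z₀ n + (((a n)⁻¹ : ℝ) : ℂ) * z) - (s : ℂ) * (z₀ n + (((a n)⁻¹ : ℝ) : ℂ) * 0) = (s : ℂ) * (((a n)⁻¹ : ℝ) : ℂ) * z := by
      ring
    have h8 := hlip n _ (hin n _ hb) _ (hin n 0 (h0b n))
    rw [h7, norm_mul, norm_mul, Complex.norm_real, Complex.norm_real, Real.norm_of_nonneg hs.le, Real.norm_of_nonneg (inv_nonneg.mpr (ha0 n).le)] at h8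
    have h9 : H * (s * (a n)⁻¹ * ‖z‖) ≤ H * (s * (a n)⁻¹ * |R'|) := by
      have := inv_nonneg.mpr (ha0 n).le
      gcongr
    have e : hh n z - w₀ = (hh n z - hh n 0) + (hh n 0 - w₀) := by abel
    rw [e]
    refine (norm_add_le _ _).trans_lt ?_
    have h10 : ‖hh n z - hh n 0‖ ≤ H * (s * (a n)⁻¹ * ‖z‖) := h8
    linarith
  have hlim : ∀ (z : ℕ → ℂ) (z₁ : ℂ), Tendsto z 𝒰 (𝓝 z₁) → Tendsto (fun n => hh n (z n)) 𝒰 (𝓝 w₀) := by
    intro z z₁ hz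
    rw [tendsto_iff_norm_sub_tendsto_zero, Metric.tendsto_nhds]
    intro ε hε
    have hzn : ∀ᶠ n in (𝒰 : Filter ℕ), ‖z n‖ < ‖z₁‖ + 1 := hz.norm.eventually_lt_const (by linarith)
    filter_upwards [hzn, hunif (‖z₁‖ + 1) ε hε] with n hn1 hn2
    rw [dist_zero_right, norm_norm]
    exact hn2 _ (by rw [mem_closedBall_zero_iff]; exact hn1.le)
  -- the limit has bounded derivative
  have hbd : ∀ z, fs (G z) (deriv G z) ≤ 2 := by
    intro z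
    refine le_of_tendsto (hfs z) ?_
    filter_upwards [hρ.eventually_gt_atTop ‖z‖] with n hn
    exact h2 n z (by rw [mem_ball_zero_iff]; exact hn)
  -- the limit lies in the fibre
  have hGX' : ∀ z, (w₀, G z) ∈ X := by
    intro z₁
    obtain ⟨r, φ, ψ, hr, hφ, hψ, hψG, hconv⟩ := hloc z₁
    have hz₁b : z₁ ∈ ball z₁ r := mem_ball_self hr
    have h5 : Tendsto (fun n => φ n z₁) 𝒰 (𝓝 (ψ z₁)) := hconv.tendsto_at hz₁b
    have h6 : Tendsto (fun n => (hh n z₁, φ n z₁)) 𝒰 (𝓝 (w₀, ψ z₁)) := (hlim (fun _ => z₁) z₁ tendsto_const_nhds).prodMk_nhds h5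
    have h7 : (w₀, ψ z₁) ∈ X := by
      refine P.X_closed.mem_of_tendsto h6 ?_
      filter_upwards [hφ, hρ.eventually_gt_atTop ‖z₁‖] with n hn hn2
      obtain ⟨c, hc, he⟩ := hn.2 z₁ hz₁b
      rw [he]
      exact P.X_smul c _ _ ((hcpg n).mem z₁ (by rw [mem_ball_zero_iff]; exact hn2))
    obtain ⟨c, hc, he⟩ := hψG z₁ hz₁b
    have h8 : G z₁ = c⁻¹ • ψ z₁ := by rw [he, smul_smul, inv_mul_cancel₀ hc, one_smul]
    rw [h8]
    exact P.X_smul _ _ _ h7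
  obtain ⟨m, Q, e, ρ, hPc⟩ := P.fib w₀ hw₀D
  have hc : ∀ z w : ℂ, ∃ c : ℂ, G z = c • G w :=
    hPc.const G hG hG0 hGX' ⟨2, hbd⟩ fun j => Lip_hur hPc j hcpg hρ (fun R' => (hunif R' ρ hPc.pos).mono fun n hn z hz => by
      rw [mem_ball, dist_eq_norm]
      exact hn z hz) hlim hG hloc
  obtain ⟨b, hb⟩ := Pool.Agent.H36.BP.Brody_deriv_line (hG 0) (fun z => hc z 0)
  have h3 : wd (G 0) (deriv G 0) = 0 := (Pool.Agent.H36.BP.wd_eq_zero (hG0 0)).mpr ⟨b, hb⟩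
  unfold fs at hone
  rw [h3, zero_div] at hone
  exact zero_ne_one hone

end Pool.Agent.HE

end
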