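import Mathlib

/-! The parts of this file: H13.CV.Rat, H17.Montel, H62.FC.Place, H62.Log.Hurwitz. -/

section

/-!
# CV Rat: the orders of the elements of `L = ℂ(x)`

`mem_L_iff`: `IntermediateField.mem_adjoin_simple_iff`.  `mem_poly_iff`: `Algebra.adjoin_singleton_eq_range_aeval`.
`aeval_ord`: `p = X ^ k * p₁` with `k = p.rootMultiplicity 0` and `p₁.eval 0 ≠ 0` (`Polynomial.exists_eq_pow_rootMultiplicity_mul_and_not_dvd`); if `0 < ord_E x` then the value of `p₁ (x)` at `E` is
`p₁.eval 0 ≠ 0` (`res_aeval` with `res E x = 0`, or directly: `p₁ (x) = p₁ (0) + x * r (x)`), so its order is `0`.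
`exists_zpow`: quotient of two polynomials.
`mem_R`: (⇐) `q (x)` has order `0`.  `exists_residue`: let `c = p (x) / q (x)`, `p, q ≠ 0`, with `p = X ^ a * p₁`, `q = X ^ b * q₁`, `p₁ (0), q₁ (0) ≠ 0`; at a place over `x = 0` (it exists by assumption):
`0 ≤ (a - b) * ord x`, so `b ≤ a` and `c = X ^ (a - b) p₁ / q₁ (x)`: a quotient `p₂ (x) / q₁ (x)` with `q₁ (0) ≠ 0`.  `γ = p₂ (0) / q₁ (0)`; the polynomial `p₂ - γ q₁` has value `0` at `0`, so it is
`X * r`, and `c = γ + x * r (x) / q₁ (x)`.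
`poly_inf`: `c = p (x)`, `p ≠ 0` of degree `d`: at a place `E` with `ord x < 0`: `oz E (p (x)) = d * oz E x` (highest term), so `0 ≤ (k + d) * oz E x` and `k = d = 0`.
`regLoc_div_of_pos`, `regLoc_of_nonneg`: `exists_zpow`.
-/

set_option autoImplicit false

noncomputable section

namespace Pool.Agent.H13.CV

variable {K : Type} [Field K] [Algebra ℂ K] {L : IntermediateField ℂ K} {x : K}

theorem mem_poly_iff {c : K} : c ∈ Algebra.adjoin ℂ {x} ↔ ∃ p : Polynomial ℂ, c = Polynomial.aeval x p := by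
  rw [Algebra.adjoin_singleton_eq_range_aeval]
  constructor
  · rintro ⟨p, hp⟩
    exact ⟨p, hp.symm⟩
  · rintro ⟨p, hp⟩
    exact ⟨p, hp.symm⟩

theorem factor {p : Polynomial ℂ} (hp : p ≠ 0) : ∃ p₁ : Polynomial ℂ, p = Polynomial.X ^ p.rootMultiplicity 0 * p₁ ∧ p₁.eval 0 ≠ 0 := by
  obtain ⟨q, h1, h2⟩ := Polynomial.exists_eq_pow_rootMultiplicity_mul_and_not_dvd p hp 0
  refine ⟨q, ?_, ?_⟩
  · simpa using h1
  · intro h
    exact h2 (Polynomial.dvd_iff_isRoot.mpr h)

end Pool.Agent.H13.CV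

end
end

section

/-!
# Limits of bounded holomorphic functions along an ultrafilter
-/

open Topology Filter

namespace Pool.Agent.H17

variable {E : Type} [NormedAddCommGroup E] [NormedSpace ℂ E] [ProperSpace E] [CompleteSpace E]

omit [ProperSpace E] [CompleteSpace E] in
/-- A bounded holomorphic function is Lipschitz on smaller discs. -/
lemma lipschitz_of_bounded {F : ℂ → E} {a : ℂ} {r B : ℝ}
    (hF : DifferentiableOn ℂ F (Metric.ball a r)) (hB : ∀ z ∈ Metric.ball a r, ‖F z‖ ≤ B)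
    {z₀ : ℂ} {ρ : ℝ} (hρ : 0 < ρ) (hz₀ : Metric.ball z₀ (2 * ρ) ⊆ Metric.ball a r)
    {z w : ℂ} (hz : z ∈ Metric.ball z₀ ρ) (hw : w ∈ Metric.ball z₀ ρ) :
    ‖F w - F z‖ ≤ B / (ρ / 2) * ‖w - z‖ := by
  have hsub : ∀ y ∈ Metric.ball z₀ ρ, Metric.closedBall y (ρ / 2) ⊆ Metric.ball a r := by
    intro y hy x hx
    apply hz₀
    rw [Metric.mem_ball] at hy ⊢
    rw [Metric.mem_closedBall] at hx
    calc dist x z₀ ≤ dist x y + dist y z₀ := dist_triangle _ _ _
      _ < 2 * ρ := by linarith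
  refine Convex.norm_image_sub_le_of_norm_deriv_le (s := Metric.ball z₀ ρ) ?_ ?_
    (convex_ball z₀ ρ) hz hw
  · intro y hy
    have h1 : y ∈ Metric.ball a r := hsub y hy (Metric.mem_closedBall_self (by positivity))
    exact (hF y h1).differentiableAt (Metric.isOpen_ball.mem_nhds h1)
  · intro y hy
    refine Complex.norm_deriv_le_of_forall_mem_sphere_norm_le (by positivity) ?_ ?_
    · apply DifferentiableOn.diffContOnCl
      refine hF.mono ?_
      exact (Metric.closure_ball_subset_closedBall).trans (hsub y hy)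
    · intro x hx
      exact hB x (hsub y hy (Metric.sphere_subset_closedBall hx))

/-- **Montel's theorem along an ultrafilter.** -/
theorem montel_ultrafilter {κ : Type*} (𝒰 : Ultrafilter κ) {F : κ → ℂ → E} {a : ℂ} {r B : ℝ}
    (h1 : ∀ᶠ k in (𝒰 : Filter κ), DifferentiableOn ℂ (F k) (Metric.ball a r))
    (h2 : ∀ᶠ k in (𝒰 : Filter κ), ∀ z ∈ Metric.ball a r, ‖F k z‖ ≤ B) :
    ∃ h : ℂ → E, DifferentiableOn ℂ h (Metric.ball a r) ∧
      TendstoLocallyUniformlyOn F h (𝒰 : Filter κ) (Metric.ball a r) := by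
  classical
  have hlim : ∀ z, ∃ l : E, z ∈ Metric.ball a r → Tendsto (fun k => F k z) (𝒰 : Filter κ) (𝓝 l) := by
    intro z
    by_cases hz : z ∈ Metric.ball a r
    · have h3 : ∀ᶠ k in (𝒰 : Filter κ), F k z ∈ Metric.closedBall (0 : E) B := by
        filter_upwards [h2] with k hk
        rw [mem_closedBall_zero_iff]
        exact hk z hz
      obtain ⟨l, -, hl⟩ := (isCompact_closedBall (0 : E) B).ultrafilter_le_nhds
        (𝒰.map fun k => F k z) (by
          rw [le_principal_iff]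
          exact h3)
      exact ⟨l, fun _ => hl⟩
    · exact ⟨0, fun h => absurd h hz⟩
  choose h hh using hlim
  have hconv : TendstoLocallyUniformlyOn F h (𝒰 : Filter κ) (Metric.ball a r) := by
    rw [Metric.tendstoLocallyUniformlyOn_iff]
    intro ε hε z₀ hz₀
    have hrz : dist z₀ a < r := hz₀
    set ρ : ℝ := (r - dist z₀ a) / 2 with hρ
    have hρpos : 0 < ρ := by rw [hρ]; linarith
    have hsub : Metric.ball z₀ (2 * ρ) ⊆ Metric.ball a r := by
      apply Metric.ball_subset_ball'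
      rw [hρ]
      linarith
    set L : ℝ := |B| / (ρ / 2) + 1 with hL
    have hLpos : 0 < L := by positivity
    set η : ℝ := min ρ (ε / (4 * L)) with hη
    have hηpos : 0 < η := by positivity
    have hηρ : η ≤ ρ := min_le_left _ _
    have hηε : L * η ≤ ε / 4 := by
      have : η ≤ ε / (4 * L) := min_le_right _ _
      calc L * η ≤ L * (ε / (4 * L)) := by gcongr
        _ = ε / 4 := by field_simp
    have hlip : ∀ᶠ k in (𝒰 : Filter κ), ∀ z ∈ Metric.ball z₀ η, ‖F k z - F k z₀‖ ≤ ε / 4 := by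
      filter_upwards [h1, h2] with k hk1 hk2 z hz
      have h3 := lipschitz_of_bounded hk1 hk2 hρpos hsub (Metric.mem_ball_self hρpos)
        (Metric.ball_subset_ball hηρ hz)
      have h4 : ‖z - z₀‖ ≤ η := by
        rw [← dist_eq_norm]
        exact (Metric.mem_ball.mp hz).le
      calc ‖F k z - F k z₀‖ ≤ B / (ρ / 2) * ‖z - z₀‖ := h3
        _ ≤ L * η := by
          have h5 : B / (ρ / 2) ≤ L := by
            have : B / (ρ / 2) ≤ |B| / (ρ / 2) := by
              gcongr
              exact le_abs_self B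
            linarith
          calc B / (ρ / 2) * ‖z - z₀‖ ≤ L * ‖z - z₀‖ := by gcongr
            _ ≤ L * η := by gcongr
        _ ≤ ε / 4 := hηε
    refine ⟨Metric.ball z₀ η, mem_nhdsWithin_of_mem_nhds (Metric.ball_mem_nhds z₀ hηpos), ?_⟩
    have hlimlip : ∀ z ∈ Metric.ball z₀ η, ‖h z - h z₀‖ ≤ ε / 4 := by
      intro z hz
      have hza : z ∈ Metric.ball a r := hsub (Metric.ball_subset_ball (by linarith) hz)
      have h3 : Tendsto (fun k => ‖F k z - F k z₀‖) (𝒰 : Filter κ) (𝓝 ‖h z - h z₀‖) :=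
        ((hh z hza).sub (hh z₀ hz₀)).norm
      exact le_of_tendsto h3 (hlip.mono fun k hk => hk z hz)
    have hz₀lim : ∀ᶠ k in (𝒰 : Filter κ), ‖F k z₀ - h z₀‖ < ε / 4 := by
      have h3 := hh z₀ hz₀
      rw [Metric.tendsto_nhds] at h3
      filter_upwards [h3 (ε / 4) (by positivity)] with k hk
      rwa [dist_eq_norm] at hk
    filter_upwards [hlip, hz₀lim] with k hk1 hk2 z hz
    rw [dist_eq_norm]
    have e : h z - F k z = (h z - h z₀) - (F k z₀ - h z₀) - (F k z - F k z₀) := by abel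
    rw [e]
    calc ‖(h z - h z₀) - (F k z₀ - h z₀) - (F k z - F k z₀)‖
        ≤ ‖(h z - h z₀) - (F k z₀ - h z₀)‖ + ‖F k z - F k z₀‖ := norm_sub_le _ _
      _ ≤ ‖h z - h z₀‖ + ‖F k z₀ - h z₀‖ + ‖F k z - F k z₀‖ := by
        gcongr
        exact norm_sub_le _ _
      _ < ε := by
        have := hlimlip z hz
        have := hk1 z hz
        linarith
  refine ⟨h, ?_, hconv⟩
  exact hconv.differentiableOn h1 Metric.isOpen_ball

end Pool.Agent.H17

end

section

/-! Prime divisors of `L(t)`. -/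

noncomputable section

namespace Pool.Agent.H62.FC

open WithZero Cardinal

/-- The additive form of the value group. -/
def Place_phi (x : WithZero (Multiplicative ℤ)) : WithTop ℤ :=
  if x = 0 then ⊤ else ((-(WithZero.log x) : ℤ) : WithTop ℤ)

lemma Place_phi_zero : Place_phi 0 = ⊤ := by simp [Place_phi]

lemma Place_phi_one : Place_phi 1 = 0 := by simp [Place_phi]

lemma Place_phi_exp (n : ℤ) : Place_phi (WithZero.exp n) = ((-n : ℤ) : WithTop ℤ) := by
  simp [Place_phi]

lemma Place_phi_mul (x y : WithZero (Multiplicative ℤ)) :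
    Place_phi (x * y) = Place_phi x + Place_phi y := by
  by_cases hx : x = 0
  · simp [Place_phi, hx]
  by_cases hy : y = 0
  · simp [Place_phi, hy]
  rw [Place_phi, Place_phi, Place_phi, if_neg hx, if_neg hy, if_neg (mul_ne_zero hx hy),
    WithZero.log_mul hx hy, ← WithTop.coe_add]
  congr 1
  ring

lemma Place_phi_anti {x y : WithZero (Multiplicative ℤ)} (h : x ≤ y) :
    Place_phi y ≤ Place_phi x := by
  by_cases hx : x = 0
  · simp [Place_phi, hx]
  have hy : y ≠ 0 := by
    rintro rfl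
    exact hx (le_antisymm h (by simp))
  rw [Place_phi, Place_phi, if_neg hx, if_neg hy, WithTop.coe_le_coe, neg_le_neg_iff,
    WithZero.log_le_log hx hy]
  exact h

lemma Place_phi_nonneg_iff {x : WithZero (Multiplicative ℤ)} : 0 ≤ Place_phi x ↔ x ≤ 1 := by
  refine ⟨fun h => ?_, fun h => by simpa [Place_phi_one] using Place_phi_anti h⟩
  by_cases hx : x = 0
  · rw [hx]; simp
  rw [Place_phi, if_neg hx] at h
  have h1 : (0 : ℤ) ≤ -(WithZero.log x) := by exact_mod_cast h
  have h2 : WithZero.log x ≤ WithZero.log (1 : WithZero (Multiplicative ℤ)) := by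
    rw [WithZero.log_one]; linarith
  exact (WithZero.log_le_log hx one_ne_zero).mp h2

/-- The additive valuation of a `ℤᵐ⁰`-valuation. -/
def Place_add {R : Type*} [CommRing R] (v : Valuation R (WithZero (Multiplicative ℤ))) :
    AddValuation R (WithTop ℤ) :=
  AddValuation.of (fun x => Place_phi (v x)) (by simp [Place_phi_zero])
    (by simp [Place_phi_one])
    (fun x y => by
      rcases le_total (v x) (v y) with h | h
      · exact (min_le_right _ _).trans (Place_phi_anti ((v.map_add x y).trans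
          (max_le h le_rfl)))
      · exact (min_le_left _ _).trans (Place_phi_anti ((v.map_add x y).trans
          (max_le le_rfl h))))
    (fun x y => by rw [map_mul, Place_phi_mul])

lemma Place_add_apply {R : Type*} [CommRing R] (v : Valuation R (WithZero (Multiplicative ℤ)))
    (x : R) : Place_add v x = Place_phi (v x) := rfl

end Pool.Agent.H62.FC

end
end

section

/-!
# Hurwitz' theorem along an ultrafilter
-/

open Topology Filter

namespace Pool.Agent.H62.Log

/-- **Hurwitz' theorem.**  A limit of holomorphic functions without zeros is identically zero or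
has no zeros. -/
theorem hurwitz {α : Type*} (𝒰 : Ultrafilter α) {φ : α → ℂ → ℂ} {ψ : ℂ → ℂ} {a : ℂ} {r : ℝ}
    (h1 : ∀ᶠ k in (𝒰 : Filter α), DifferentiableOn ℂ (φ k) (Metric.ball a r))
    (h2 : ∀ᶠ k in (𝒰 : Filter α), ∀ z ∈ Metric.ball a r, φ k z ≠ 0)
    (hψ : DifferentiableOn ℂ ψ (Metric.ball a r))
    (hconv : ∀ (z : α → ℂ) (z₀ : ℂ), z₀ ∈ Metric.ball a r → Tendsto z (𝒰 : Filter α) (𝓝 z₀) →
      Tendsto (fun k => φ k (z k)) (𝒰 : Filter α) (𝓝 (ψ z₀))) :
    (∀ z ∈ Metric.ball a r, ψ z = 0) ∨ ∀ z ∈ Metric.ball a r, ψ z ≠ 0 := by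
  have han : AnalyticOnNhd ℂ ψ (Metric.ball a r) := hψ.analyticOnNhd Metric.isOpen_ball
  rcases han.eqOn_zero_or_eventually_ne_zero_of_preconnected
    (convex_ball a r).isPreconnected with h0 | h0
  · exact Or.inl h0
  right
  intro z₀ hz₀ hψ0
  have hev : ∀ᶠ z in 𝓝[≠] z₀, ψ z ≠ 0 := by
    rcases (han z₀ hz₀).eventually_eq_zero_or_eventually_ne_zero with h3 | h3
    · exfalso
      have h5 : {z | ψ z ≠ 0} ∈ codiscreteWithin (Metric.ball a r) := h0
      have h6 := (mem_codiscreteWithin.mp h5) z₀ hz₀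
      rw [disjoint_principal_right] at h6
      have h7 : ∀ᶠ z in 𝓝[≠] z₀, z ∈ Metric.ball a r := by
        have := Metric.isOpen_ball.mem_nhds hz₀
        exact nhdsWithin_le_nhds this
      have h8 := h3.filter_mono (nhdsWithin_le_nhds (s := {z₀}ᶜ))
      have h6' : ∀ᶠ z in 𝓝[≠] z₀, z ∈ (Metric.ball a r \ {z | ψ z ≠ 0})ᶜ := h6
      obtain ⟨z, hz1, hz2, hz3⟩ := (h6'.and (h7.and h8)).exists
      exact hz1 ⟨hz2, fun h => h hz3⟩
    · exact h3
  obtain ⟨s, hs0, hs1, hs2⟩ : ∃ s > 0, Metric.closedBall z₀ s ⊆ Metric.ball a r ∧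
      ∀ z ∈ Metric.sphere z₀ s, ψ z ≠ 0 := by
    obtain ⟨s₁, hs₁, hs₁'⟩ := Metric.isOpen_iff.mp Metric.isOpen_ball z₀ hz₀
    obtain ⟨s₂, hs₂, hs₂'⟩ := Metric.mem_nhdsWithin_iff.mp hev
    refine ⟨min s₁ s₂ / 2, by positivity, ?_, ?_⟩
    · refine (Metric.closedBall_subset_ball ?_).trans hs₁'
      have := min_le_left s₁ s₂
      have : 0 < min s₁ s₂ := lt_min hs₁ hs₂
      linarith
    · intro z hz
      have h3 : 0 < min s₁ s₂ := lt_min hs₁ hs₂
      have h4 := min_le_right s₁ s₂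
      rw [mem_sphere_iff_norm] at hz
      refine hs₂' ⟨?_, ?_⟩
      · rw [mem_ball_iff_norm, hz]
        linarith
      · intro h5
        rw [Set.mem_singleton_iff] at h5
        rw [h5, sub_self, norm_zero] at hz
        linarith
  have hcomp : IsCompact (Metric.sphere z₀ s) := isCompact_sphere z₀ s
  have hne : (Metric.sphere z₀ s).Nonempty := NormedSpace.sphere_nonempty.mpr hs0.le
  have hcont : ContinuousOn (fun z => ‖ψ z‖) (Metric.sphere z₀ s) :=
    (hψ.continuousOn.mono (Metric.sphere_subset_closedBall.trans hs1)).norm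
  obtain ⟨z₁, hz₁, hmin⟩ := hcomp.exists_isMinOn hne hcont
  set m : ℝ := ‖ψ z₁‖ with hm
  have hmpos : 0 < m := norm_pos_iff.mpr (hs2 z₁ hz₁)
  have hlow : ∀ᶠ k in (𝒰 : Filter α), ∀ z ∈ Metric.sphere z₀ s, m / 2 ≤ ‖φ k z‖ := by
    by_contra hcon
    rw [← Ultrafilter.eventually_not] at hcon
    push Not at hcon
    choose! w hw using fun (k : α) (h : ∃ z ∈ Metric.sphere z₀ s, ‖φ k z‖ < m / 2) => h
    have hw1 : ∀ᶠ k in (𝒰 : Filter α), w k ∈ Metric.sphere z₀ s := hcon.mono fun k hk => (hw k hk).1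
    have hw2 : ∀ᶠ k in (𝒰 : Filter α), ‖φ k (w k)‖ < m / 2 := hcon.mono fun k hk => (hw k hk).2
    obtain ⟨z', hz'mem, hz'⟩ : ∃ z' ∈ Metric.sphere z₀ s, Tendsto w (𝒰 : Filter α) (𝓝 z') := by
      obtain ⟨l, hl1, hl2⟩ := hcomp.ultrafilter_le_nhds (𝒰.map w) (by
        rw [le_principal_iff]
        exact hw1)
      exact ⟨l, hl1, hl2⟩
    have h3 := (hconv w z' (hs1 (Metric.sphere_subset_closedBall hz'mem)) hz').norm
    have h4 := le_of_tendsto h3 (hw2.mono fun k hk => hk.le)
    have h5 : m ≤ ‖ψ z'‖ := hmin hz'mem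
    linarith
  have hball : Metric.closedBall z₀ s ⊆ Metric.ball a r := hs1
  have hlow2 : ∀ᶠ k in (𝒰 : Filter α), m / 2 ≤ ‖φ k z₀‖ := by
    filter_upwards [h1, h2, hlow] with k hk1 hk2 hk3
    have h3 : DiffContOnCl ℂ (fun z => (φ k z)⁻¹) (Metric.ball z₀ s) := by
      apply DifferentiableOn.diffContOnCl
      have h4 : closure (Metric.ball z₀ s) ⊆ Metric.ball a r :=
        Metric.closure_ball_subset_closedBall.trans hball
      exact (hk1.mono h4).fun_inv fun z hz => hk2 z (h4 hz)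
    have h4 := Complex.norm_le_of_forall_mem_frontier_norm_le (Metric.isBounded_ball) h3
      (C := (m / 2)⁻¹) (by
        intro z hz
        rw [frontier_ball z₀ hs0.ne'] at hz
        rw [norm_inv]
        have := hk3 z hz
        gcongr) (z := z₀) (subset_closure (Metric.mem_ball_self hs0))
    rw [norm_inv] at h4
    have h5 : 0 < ‖φ k z₀‖ := norm_pos_iff.mpr (hk2 z₀ hz₀)
    rwa [inv_le_inv₀ h5 (by positivity)] at h4
  have h3 := (hconv (fun _ => z₀) z₀ hz₀ tendsto_const_nhds).norm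
  have h4 := ge_of_tendsto h3 hlow2
  rw [hψ0, norm_zero] at h4
  linarith

end Pool.Agent.H62.Log

end
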