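import Pool.Agent.H94.PX2.H14.PP.Defs
import Pool.Agent.H94.PX2.M02
import Pool.Agent.H94.PX2.M03
import Pool.Agent.H94.PX2.M05

/-! The parts of this file: HE.Lip, PX.Defs_1, HE.Bas, TG.SmA. -/

section

/-!
# HE Lip: the curves are Lipschitz over `Gd D δ`

Adapted from `PX/Lip`.
-/

set_option autoImplicit false

open Topology Filter Metric

namespace Pool.Agent.HE

open Pool.Agent.H36.BP (EN fs wd)
open Pool.Agent.H62.EF (MN pr)
open Pool.Agent.AD (Vd)
open Pool.Agent.TG (Lat)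
open Pool.Agent.G3 (wt LLift)

variable {N k q r : ℕ} {Λ : AddSubgroup (Vd (k + 1))} {D : Set (Vd (k + 1))} {X : Set (Vd (k + 1) × EN N)} {F : Fin q → Vd (k + 1) × EN N → ℂ} {d : Fin q → ℕ}
  {W : Fin q → Fin r → Vd (k + 1) →L[ℂ] ℂ}

/-- Hurwitz: the piece is identically zero on the limit curve or has no zero -/
lemma Lip_hur {m : ℕ} {Q : Fin m → Vd (k + 1) × EN N → ℂ} {e : Fin m → ℕ} {ρ : ℝ} {w₀ : Vd (k + 1)} (P : Pc X F w₀ Q e ρ) (j : Fin m) {𝒰 : Ultrafilter ℕ} {g : ℕ → ℂ → EN N}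
    {hh : ℕ → ℂ → Vd (k + 1)} {G : ℂ → EN N}
    (hcp : ∀ n : ℕ, Cw X F (ball 0 ((n : ℝ) + 1)) (g n) (hh n)) (hρ : Tendsto (fun n : ℕ => (n : ℝ) + 1) 𝒰 atTop)
    (hun : ∀ R : ℝ, ∀ᶠ n in (𝒰 : Filter ℕ), ∀ z ∈ closedBall (0 : ℂ) R, hh n z ∈ ball w₀ ρ)
    (hlim : ∀ (z : ℕ → ℂ) (z₀ : ℂ), Tendsto z 𝒰 (𝓝 z₀) → Tendsto (fun n => hh n (z n)) 𝒰 (𝓝 w₀)) (hG : Differentiable ℂ G)
    (hloc : ∀ z₀, ∃ (r : ℝ) (φ : ℕ → ℂ → EN N) (ψ : ℂ → EN N), 0 < r ∧
        (∀ᶠ n in (𝒰 : Filter ℕ), DifferentiableOn ℂ (φ n) (ball z₀ r) ∧ ∀ z ∈ ball z₀ r, ∃ c : ℂ, c ≠ 0 ∧ φ n z = c • g n z) ∧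
        DifferentiableOn ℂ ψ (ball z₀ r) ∧ (∀ z ∈ ball z₀ r, ∃ c : ℂ, c ≠ 0 ∧ ψ z = c • G z) ∧
        TendstoLocallyUniformlyOn φ ψ 𝒰 (ball z₀ r)) :
    (∀ z, Q j (w₀, G z) = 0) ∨ ∀ z, Q j (w₀, G z) ≠ 0 := by
  by_cases hex : ∃ z₁, Q j (w₀, G z₁) = 0
  swap
  · right
    intro z hz
    exact hex ⟨z, hz⟩
  left
  obtain ⟨z₁, hz₁⟩ := hex
  obtain ⟨r, φ, ψ, hr, hφ, hψ, hψG, hconv⟩ := hloc z₁
  have hw₀ : w₀ ∈ ball w₀ ρ := mem_ball_self P.pos
  have hop : IsOpen (ball w₀ ρ ×ˢ (Set.univ : Set (EN N))) := isOpen_ball.prod isOpen_univ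
  have hcont : ∀ x : EN N, ContinuousAt (Q j) (w₀, x) := fun x => ((P.an j).differentiableAt (hop.mem_nhds ⟨hw₀, Set.mem_univ x⟩)).continuousAt
  have hpair : Differentiable ℂ fun x : EN N => (w₀, x) := (differentiable_const w₀).prodMk differentiable_id
  have hF0 : Differentiable ℂ fun x : EN N => Q j (w₀, x) := fun x =>
    DifferentiableAt.comp x (g := Q j) (f := fun x : EN N => (w₀, x)) ((P.an j).differentiableAt (hop.mem_nhds ⟨hw₀, Set.mem_univ x⟩)) (hpair x)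
  have hbig : ∀ᶠ n : ℕ in (𝒰 : Filter ℕ), ball z₁ r ⊆ ball (0 : ℂ) ((n : ℝ) + 1) ∧ ∀ z ∈ ball z₁ r, hh n z ∈ ball w₀ ρ := by
    filter_upwards [hρ.eventually_gt_atTop (‖z₁‖ + r), hun (‖z₁‖ + r)] with n hn hn2
    have h1 : ∀ z ∈ ball z₁ r, ‖z‖ < ‖z₁‖ + r := by
      intro z hz
      rw [mem_ball, dist_eq_norm] at hz
      have := norm_add_le (z - z₁) z₁
      rw [sub_add_cancel] at this
      linarith
    refine ⟨fun z hz => ?_, fun z hz => hn2 z ?_⟩
    · rw [mem_ball_zero_iff]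
      have := h1 z hz
      linarith
    · rw [mem_closedBall_zero_iff]
      exact (h1 z hz).le
  have hH := Pool.Agent.H62.Log.hurwitz 𝒰 (φ := fun n z => Q j (hh n z, φ n z)) (ψ := fun z => Q j (w₀, ψ z)) (a := z₁) (r := r)
    (by
      filter_upwards [hφ, hbig] with n hn hb
      have h9 : DifferentiableOn ℂ (fun z => (hh n z, φ n z)) (ball z₁ r) := ((hcp n).h_diff.mono hb.1).prodMk hn.1
      exact (P.an j).comp h9 fun z hz => ⟨hb.2 z hz, Set.mem_univ _⟩)
    (by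
      filter_upwards [hφ, hbig] with n hn hb z hz
      obtain ⟨c, hc, he⟩ := hn.2 z hz
      simp only [he]
      rw [P.hom j _ (hb.2 z hz)]
      exact mul_ne_zero (pow_ne_zero _ hc) (P.ne j _ (hb.2 z hz) _ ((hcp n).w_ne z (hb.1 hz)) ((hcp n).mem z (hb.1 hz)) fun i => (hcp n).ne i z (hb.1 hz)))
    (Differentiable.comp_differentiableOn (g := fun x : EN N => Q j (w₀, x)) (f := ψ) hF0 hψ)
    (by
      intro z z₀ hz₀ hz
      have h1 := hlim z z₀ hz
      have h2 : Tendsto (fun n => φ n (z n)) 𝒰 (𝓝 (ψ z₀)) := by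
        refine hconv.tendsto_comp (hψ.continuousOn.continuousWithinAt hz₀) hz₀ ?_
        rw [tendsto_nhdsWithin_iff]
        exact ⟨hz, hz.eventually (isOpen_ball.mem_nhds hz₀)⟩
      exact Tendsto.comp (g := Q j) (f := fun n => (hh n (z n), φ n (z n))) (hcont (ψ z₀)).tendsto (h1.prodMk_nhds h2))
  have hz₁b : z₁ ∈ ball z₁ r := mem_ball_self hr
  have hloc0 : ∀ z ∈ ball z₁ r, Q j (w₀, G z) = 0 := by
    rcases hH with h | h
    · intro z hz
      obtain ⟨c, hc, he⟩ := hψG z hz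
      have h1 := h z hz
      simp only [he] at h1
      rw [P.hom j _ hw₀] at h1
      exact (mul_eq_zero.mp h1).resolve_left (pow_ne_zero _ hc)
    · exfalso
      obtain ⟨c, hc, he⟩ := hψG z₁ hz₁b
      apply h z₁ hz₁b
      simp only [he]
      rw [P.hom j _ hw₀, hz₁, mul_zero]
  have hf : Differentiable ℂ fun z => Q j (w₀, G z) := Differentiable.comp (g := fun x : EN N => Q j (w₀, x)) (f := G) hF0 hG
  have han : AnalyticOnNhd ℂ (fun z => Q j (w₀, G z)) Set.univ := fun z _ => hf.analyticAt z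
  have h2 := han.eqOn_zero_of_preconnected_of_eventuallyEq_zero isPreconnected_univ (Set.mem_univ z₁)
    (Filter.mem_of_superset (isOpen_ball.mem_nhds hz₁b) fun z hz => hloc0 z hz)
  intro z
  exact h2 (Set.mem_univ z)

end Pool.Agent.HE

end

section

/-!
# PX Defs: complements in `A × ℙ¹`

`A = ℂ^(k+1) / Λ` is a complex torus.  `Fo θ y x = ∑ θ_i(y) x_0^i x_1^(d-i)` is a binary form of degree `d` whose coefficients are entire functions of `y`, quasi-periodic with a common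
factor of the (positive definite) weight `wt W`.  `E = {Fo = 0}`, `U` its complement in `A × ℙ¹`.  Curves in `U` are given by `h : ℂ → Vd (k+1)` and a lift `w : ℂ → EN 1` of the `ℙ¹`-component
(`Cp`).  `D` is a closed `Λ`-invariant set outside which the form has only simple roots; all lines meet `D` in isolated points; `Bad a` is the set of the bad points of `D` for the
direction `a`: at the other points of `D` the set `D` is a smooth hypersurface, transversal to `a`, and the form is not `0`; there are few bad hits (`Few`).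
-/

set_option autoImplicit false

open Topology Filter Metric

namespace Pool.Agent.PX

open Pool.Agent.H36.BP (EN fs wd)
open Pool.Agent.H62.EF (MN pr)
open Pool.Agent.AD (Vd)
open Pool.Agent.TG (Lat)
open Pool.Agent.G3 (wt LLift)
open Pool.Agent.G4 (Few)

variable {k d r : ℕ}

/-- `(h, w)` is a curve in the complement of `{Fo = 0}` over the set `U` (used for open sets) -/
structure Cp (θ : Fin (d + 1) → Vd (k + 1) → ℂ) (U : Set ℂ) (w : ℂ → EN 1) (h : ℂ → Vd (k + 1)) : Prop where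
  w_diff : DifferentiableOn ℂ w U
  h_diff : DifferentiableOn ℂ h U
  ne : ∀ z ∈ U, Fo θ (h z) (w z) ≠ 0

/-- the limit situation on the line `z ↦ y + z • a`: curves `(w n, h n)` on larger and larger discs converge to `g` on the line off `D` -/
structure LS (θ : Fin (d + 1) → Vd (k + 1) → ℂ) (D : Set (Vd (k + 1))) (y a : Vd (k + 1)) (𝒰 : Ultrafilter ℕ) (w : ℕ → ℂ → EN 1) (h : ℕ → ℂ → Vd (k + 1)) (g : ℂ → MN 1) : Prop where
  cv : ∀ R : ℝ, ∀ᶠ n in (𝒰 : Filter ℕ), Cp θ (ball 0 R) (w n) (h n)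
  hh : ∀ R ε : ℝ, 0 < ε → ∀ᶠ n in (𝒰 : Filter ℕ), ∀ z ∈ closedBall (0 : ℂ) R, ‖h n z - (y + z • a)‖ < ε
  lift : ∀ z : ℂ, y + z • a ∉ D → LLift g z
  lim : ∀ K : Set ℂ, IsCompact K → (∀ z ∈ K, y + z • a ∉ D) → ∀ ε : ℝ, 0 < ε → ∀ᶠ n in (𝒰 : Filter ℕ), ∀ z ∈ K, dist (pr (w n z)) (g z) < ε

/-- `g z` is a root of the form over the line `y + z a`, at the points off `D` -/
def Rt (θ : Fin (d + 1) → Vd (k + 1) → ℂ) (D : Set (Vd (k + 1))) (y a : Vd (k + 1)) (g : ℂ → MN 1) : Prop :=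
  ∀ z : ℂ, y + z • a ∉ D → ∀ x : EN 1, x ≠ 0 → pr x = g z → Fo θ (y + z • a) x = 0

/-- `G` is an entire lift of a root over the line `y + z a`; it is a simple root except at the points of `Bad a` -/
structure RL (θ : Fin (d + 1) → Vd (k + 1) → ℂ) (Bad : Vd (k + 1) → Set (Vd (k + 1))) (y a : Vd (k + 1)) (G : ℂ → EN 1) : Prop where
  diff : Differentiable ℂ G
  ne : ∀ z, G z ≠ 0
  root : ∀ z, Fo θ (y + z • a) (G z) = 0
  simple : ∀ z, y + z • a ∉ Bad a → ∃ v, Fd θ (y + z • a) (G z) v ≠ 0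

end Pool.Agent.PX

end

section

/-!
# HE Bas: the forms
-/

set_option autoImplicit false

open Topology Filter Metric

namespace Pool.Agent.HE

open Pool.Agent.H36.BP (EN fs wd)
open Pool.Agent.H62.EF (MN pr)
open Pool.Agent.AD (Vd)
open Pool.Agent.TG (Lat Gd)
open Pool.Agent.G3 (wt LLift)

variable {N k q r : ℕ} {Λ : AddSubgroup (Vd (k + 1))} {D : Set (Vd (k + 1))} {X : Set (Vd (k + 1) × EN N)} {F : Fin q → Vd (k + 1) × EN N → ℂ} {d : Fin q → ℕ}
  {W : Fin q → Fin r → Vd (k + 1) →L[ℂ] ℂ}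

theorem qf_nonneg (f : Vd (k + 1) × EN N → ℂ) (e : ℕ) (V : Fin r → Vd (k + 1) →L[ℂ] ℂ) (y : Vd (k + 1)) (x : EN N) : 0 ≤ qf f e V y x := by
  unfold qf
  positivity

theorem HD.qf_smul (P : HD Λ D X F d W) (j : Fin q) (y : Vd (k + 1)) {c : ℂ} (hc : c ≠ 0) (x : EN N) : qf (F j) (d j) (W j) y (c • x) = qf (F j) (d j) (W j) y x := by
  have h1 : ‖c‖ ^ d j ≠ 0 := pow_ne_zero _ (norm_ne_zero_iff.2 hc)
  unfold qf
  rw [P.hom, norm_mul, norm_pow, norm_smul, mul_pow, mul_assoc, mul_div_mul_left _ _ h1]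

theorem HD.qf_add (P : HD Λ D X F d W) (j : Fin q) {l : Vd (k + 1)} (hl : l ∈ Λ) (y : Vd (k + 1)) (x : EN N) : qf (F j) (d j) (W j) (y + l) x = qf (F j) (d j) (W j) y x := by
  obtain ⟨e, he, h⟩ := P.per j l hl y
  unfold qf
  rw [h, norm_mul, ← he]
  ring

theorem continuous_wt (V : Fin r → Vd (k + 1) →L[ℂ] ℂ) : Continuous (wt V) := by
  unfold wt
  exact continuous_finsetSum _ fun i _ => ((V i).continuous.norm.pow 2)

theorem HD.qf_cont (P : HD Λ D X F d W) (j : Fin q) : ContinuousOn (fun p : Vd (k + 1) × EN N => qf (F j) (d j) (W j) p.1 p.2) {p | p.2 ≠ 0} := by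
  unfold qf
  refine ContinuousOn.div ?_ ?_ fun p hp => pow_ne_zero _ (norm_ne_zero_iff.2 hp)
  · refine Continuous.continuousOn ?_
    have h1 : Continuous fun p : Vd (k + 1) × EN N => F j (p.1, p.2) := (P.an j).continuous
    exact h1.norm.mul (Real.continuous_exp.comp ((continuous_wt (W j)).comp continuous_fst).neg)
  · exact (continuous_snd.norm.pow _).continuousOn

theorem HD.qf_le (P : HD Λ D X F d W) : ∃ C : ℝ, 0 < C ∧ ∀ (j : Fin q) (y : Vd (k + 1)) (x : EN N), qf (F j) (d j) (W j) y x ≤ C := by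
  have h1 : ∀ j : Fin q, ∃ C : ℝ, 0 < C ∧ ∀ (y : Vd (k + 1)) (x : EN N), qf (F j) (d j) (W j) y x ≤ C := by
    intro j
    obtain ⟨R, hR0, hR⟩ := P.lat.cpt
    have hcpt : IsCompact (closedBall (0 : Vd (k + 1)) R ×ˢ sphere (0 : EN N) 1) := (isCompact_closedBall _ _).prod (isCompact_sphere _ _)
    have hc : ContinuousOn (fun p : Vd (k + 1) × EN N => qf (F j) (d j) (W j) p.1 p.2) (closedBall (0 : Vd (k + 1)) R ×ˢ sphere (0 : EN N) 1) := by
      refine (P.qf_cont j).mono ?_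
      rintro ⟨y, x⟩ ⟨-, hx⟩
      simp only [mem_sphere_zero_iff_norm] at hx
      show x ≠ 0
      rintro rfl
      rw [norm_zero] at hx
      exact zero_ne_one hx
    obtain ⟨C, hC⟩ := hcpt.bddAbove_image hc
    refine ⟨max C 1, lt_max_of_lt_right one_pos, fun y x => ?_⟩
    by_cases hx : x = 0
    · subst hx
      have h2 : qf (F j) (d j) (W j) y (0 : EN N) = 0 := by
        unfold qf
        rw [norm_zero, zero_pow (P.deg j).ne', div_zero]
      rw [h2]
      exact le_max_of_le_right zero_le_one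
    obtain ⟨l, hl, hlR⟩ := hR y
    have hn : ‖x‖ ≠ 0 := norm_ne_zero_iff.2 hx
    set c : ℂ := (((‖x‖⁻¹ : ℝ)) : ℂ) with hcd
    have hc0 : c ≠ 0 := by
      rw [hcd, Complex.ofReal_ne_zero]
      exact inv_ne_zero hn
    have h3 : qf (F j) (d j) (W j) y x = qf (F j) (d j) (W j) (y - l) (c • x) := by
      rw [P.qf_smul j _ hc0, ← P.qf_add j hl (y - l), sub_add_cancel]
    rw [h3]
    refine le_max_of_le_left (hC ⟨(y - l, c • x), ⟨?_, ?_⟩, rfl⟩)
    · simpa using hlR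
    · rw [mem_sphere_zero_iff_norm, norm_smul, hcd, Complex.norm_real, norm_inv, norm_norm, inv_mul_cancel₀ hn]
  choose C hC h2 using h1
  refine ⟨∑ j, C j + 1, by have := Finset.sum_nonneg fun j (_ : j ∈ Finset.univ) => (hC j).le; linarith, fun j y x => (h2 j y x).trans ?_⟩
  have := Finset.single_le_sum (f := C) (fun i _ => (hC i).le) (Finset.mem_univ j)
  linarith

/-- translation of a curve by a point of the lattice -/
theorem Cw.add (P : HD Λ D X F d W) {U : Set ℂ} {w : ℂ → EN N} {h : ℂ → Vd (k + 1)} (hc : Cw X F U w h) {l : Vd (k + 1)} (hl : l ∈ Λ) : Cw X F U w fun z => h z + l := by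
  refine ⟨hc.w_diff, hc.h_diff.add_const _, hc.w_ne, fun z hz => P.X_per l hl _ _ (hc.mem z hz), fun j z hz => ?_⟩
  obtain ⟨e, he, h1⟩ := P.per j l hl (h z)
  rw [h1]
  refine mul_ne_zero ?_ (hc.ne j z hz)
  rintro rfl
  rw [norm_zero, zero_mul] at he
  exact (Real.exp_pos _).ne he

/-- `Gd D δ` is periodic -/
theorem HD.gd_add (P : HD Λ D X F d W) (δ : ℝ) {y l : Vd (k + 1)} (hl : l ∈ Λ) (h : y ∈ Gd D δ) : y + l ∈ Gd D δ := by
  intro b hb
  have h1 := h _ (P.D_inv b hb (-l) (Λ.neg_mem hl))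
  have h2 : y - (b + -l) = y + l - b := by abel
  rwa [h2] at h1

theorem HD.qf_pos (P : HD Λ D X F d W) (j : Fin q) {x : EN N} (hx : x ≠ 0) {y : Vd (k + 1)} (hF : F j (y, x) ≠ 0) : 0 < qf (F j) (d j) (W j) y x := by
  have _ := P
  have h1 : 0 < ‖x‖ := norm_pos_iff.2 hx
  have h3 : 0 < ‖F j (y, x)‖ := norm_pos_iff.2 hF
  unfold qf
  positivity

end Pool.Agent.HE

end

section

/-!
# TG SmA: closing up, and a holomorphic vector near a point where its projection is Lipschitz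

`close_lift`: `φ` analytic with `φ y ≠ 0`, `φ y ∈ X` and `u (φ y) = υ y` modulo `Λ` on a dense set: this holds everywhere.
`lip_lift`: `pr ∘ F` Lipschitz where `F ≠ 0` near `y₀`: `[F]` is holomorphic at `y₀`.
-/

set_option autoImplicit false

open Topology Filter Metric

namespace Pool.Agent.TG

open Pool.Agent.H36.BP (EN fs wd)
open Pool.Agent.H14.PP (IsCone)
open Pool.Agent.H62.EF (MN)
open Pool.Agent.AD (Vd)

variable {N k : ℕ} {X : Set (EN N)} {Λ : AddSubgroup (Vd (k + 1))} {u : EN N → Vd (k + 1)}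

theorem lat_isClosed (h : Lat Λ) : IsClosed (Λ : Set (Vd (k + 1))) := by
  obtain ⟨δ, hδ, hd⟩ := h.disc
  rw [← isSeqClosed_iff_isClosed]
  intro x w hx hw
  have h1 := hw.cauchySeq
  rw [Metric.cauchySeq_iff'] at h1
  obtain ⟨n, hn⟩ := h1 δ hδ
  have h2 : ∀ m ≥ n, x m = x n := by
    intro m hm
    have h3 := hd (x m - x n) (Λ.sub_mem (hx m) (hx n)) (by rw [← dist_eq_norm]; exact hn m hm)
    exact sub_eq_zero.mp h3
  have h4 : Tendsto x atTop (𝓝 (x n)) := by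
    refine tendsto_const_nhds.congr' ?_
    filter_upwards [eventually_ge_atTop n] with m hm
    exact (h2 m hm).symm
  rw [tendsto_nhds_unique hw h4]
  exact hx n

theorem isCone_ne : IsCone {x : EN N | x ≠ 0} where
  zero_notMem := fun h => h rfl
  smul_mem := fun _ hx _ hc => smul_ne_zero hc hx
  closed := by
    have : insert (0 : EN N) {x : EN N | x ≠ 0} = Set.univ := by
      ext x
      simp only [Set.mem_insert_iff, Set.mem_ofPred_eq, Set.mem_univ, iff_true]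
      exact em _
    rw [this]
    exact isClosed_univ

end Pool.Agent.TG

end
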