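import Pool.Agent.H94.PX2.M06
import Pool.Agent.H94.PX2.M07
import Pool.Agent.H94.PX2.PX.Bas

/-! The parts of this file: PX.Bas_1, PX.Coef, PX.Cmp, PX.Cmp_1. -/

section

/-!
# PX Bas: the binary form

`fo_smul`, `fd_eq` (explicit derivative: `EuclideanSpace` coordinates are continuous linear maps; `HasFDerivAt.sum`), `fd_euler` (from `fd_eq` or from `fo_smul` by differentiating `c ↦ Fo θ y (c • x)`),
`fd_root` (at a root `x ≠ 0` the linear form `Fd θ y x` is `0` at `x`, so it is a multiple of `dt x`), `qf_add` (periodicity), `qf_le` (compactness of the torus and of the unit sphere), continuity, analyticity.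
-/

set_option autoImplicit false

open Topology Filter Metric

namespace Pool.Agent.PX

open Pool.Agent.H36.BP (EN fs wd)
open Pool.Agent.H62.EF (MN pr)
open Pool.Agent.AD (Vd)
open Pool.Agent.TG (Lat)
open Pool.Agent.G3 (wt LLift)
open Pool.Agent.G4 (Few)

variable {k d r : ℕ}

variable {Λ : AddSubgroup (Vd (k + 1))} {D : Set (Vd (k + 1))} {Bad : Vd (k + 1) → Set (Vd (k + 1))} {θ : Fin (d + 1) → Vd (k + 1) → ℂ}
  {W : Fin r → Vd (k + 1) →L[ℂ] ℂ}

theorem fd_diff {θ : Fin (d + 1) → Vd (k + 1) → ℂ} (han : ∀ i, Differentiable ℂ (θ i)) :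
    Differentiable ℂ fun p : Vd (k + 1) × EN 1 × EN 1 => Fd θ p.1 p.2.1 p.2.2 := by
  have he : (fun p : Vd (k + 1) × EN 1 × EN 1 => Fd θ p.1 p.2.1 p.2.2) = fun p : Vd (k + 1) × EN 1 × EN 1 =>
      ∑ i : Fin (d + 1), θ i p.1 * ((i : ℕ) * p.2.1 0 ^ ((i : ℕ) - 1) * p.2.1 1 ^ (d - (i : ℕ)) * p.2.2 0 +
        ((d - (i : ℕ) : ℕ) : ℂ) * p.2.1 0 ^ (i : ℕ) * p.2.1 1 ^ (d - (i : ℕ) - 1) * p.2.2 1) := by
    funext p; exact fd_eq θ p.1 p.2.1 p.2.2
  rw [he]
  refine Differentiable.fun_sum fun i _ => ?_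
  have hx : Differentiable ℂ fun p : Vd (k + 1) × EN 1 × EN 1 => p.2.1 := differentiable_fst.comp differentiable_snd
  have hv : Differentiable ℂ fun p : Vd (k + 1) × EN 1 × EN 1 => p.2.2 := differentiable_snd.comp differentiable_snd
  have x0 : Differentiable ℂ fun p : Vd (k + 1) × EN 1 × EN 1 => p.2.1 0 := (cdiff 0).comp hx
  have x1 : Differentiable ℂ fun p : Vd (k + 1) × EN 1 × EN 1 => p.2.1 1 := (cdiff 1).comp hx
  have v0 : Differentiable ℂ fun p : Vd (k + 1) × EN 1 × EN 1 => p.2.2 0 := (cdiff 0).comp hv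
  have v1 : Differentiable ℂ fun p : Vd (k + 1) × EN 1 × EN 1 => p.2.2 1 := (cdiff 1).comp hv
  have h2 : Differentiable ℂ fun p : Vd (k + 1) × EN 1 × EN 1 => θ i p.1 := (han i).comp differentiable_fst
  exact h2.mul ((((((x0.pow _).const_mul _).mul (x1.pow _)).mul v0)).add ((((x0.pow _).const_mul _).mul (x1.pow _)).mul v1))

theorem fd_smul (θ : Fin (d + 1) → Vd (k + 1) → ℂ) (hd : 1 ≤ d) (y : Vd (k + 1)) (c : ℂ) (x v : EN 1) : Fd θ y (c • x) v = c ^ (d - 1) * Fd θ y x v := by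
  rw [fd_eq, fd_eq, Finset.mul_sum]
  refine Finset.sum_congr rfl fun i _ => ?_
  have hi : (i : ℕ) ≤ d := Nat.lt_succ_iff.mp i.2
  simp only [PiLp.smul_apply, smul_eq_mul, mul_pow]
  have a1 : ((i : ℕ) : ℂ) * (c ^ ((i : ℕ) - 1) * c ^ (d - (i : ℕ))) = ((i : ℕ) : ℂ) * c ^ (d - 1) := by
    rcases Nat.eq_zero_or_pos (i : ℕ) with h | h
    · simp [h]
    · rw [← pow_add, show (i : ℕ) - 1 + (d - (i : ℕ)) = d - 1 by omega]
  have a2 : ((d - (i : ℕ) : ℕ) : ℂ) * (c ^ (i : ℕ) * c ^ (d - (i : ℕ) - 1)) = ((d - (i : ℕ) : ℕ) : ℂ) * c ^ (d - 1) := by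
    rcases Nat.eq_zero_or_pos (d - (i : ℕ)) with h | h
    · simp [h]
    · rw [← pow_add, show (i : ℕ) + (d - (i : ℕ) - 1) = d - 1 by omega]
  linear_combination θ i y * (x 0 ^ ((i : ℕ) - 1) * x 1 ^ (d - (i : ℕ)) * v 0) * a1 + θ i y * (x 0 ^ (i : ℕ) * x 1 ^ (d - (i : ℕ) - 1) * v 1) * a2

theorem dt_eq_zero {x v : EN 1} (hx : x ≠ 0) : dt x v = 0 ↔ ∃ c : ℂ, v = c • x := by
  constructor
  · intro h
    unfold dt at h
    rcases coord_ne hx with h1 | h1
    · refine ⟨v 0 / x 0, ?_⟩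
      ext i
      fin_cases i
      · simp only [Fin.zero_eta, PiLp.smul_apply, smul_eq_mul]
        field_simp
      · simp only [Fin.mk_one, PiLp.smul_apply, smul_eq_mul]
        field_simp
        linear_combination h
    · refine ⟨v 1 / x 1, ?_⟩
      ext i
      fin_cases i
      · simp only [Fin.zero_eta, PiLp.smul_apply, smul_eq_mul]
        field_simp
        linear_combination -h
      · simp only [Fin.mk_one, PiLp.smul_apply, smul_eq_mul]
        field_simp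
  · rintro ⟨c, rfl⟩
    unfold dt
    simp only [PiLp.smul_apply, smul_eq_mul]
    ring

theorem qf_smul (θ : Fin (d + 1) → Vd (k + 1) → ℂ) (W : Fin r → Vd (k + 1) →L[ℂ] ℂ) (y : Vd (k + 1)) {c : ℂ} (hc : c ≠ 0) (x : EN 1) : qf θ W y (c • x) = qf θ W y x := by
  unfold qf
  have h : ‖c‖ ^ d ≠ 0 := pow_ne_zero _ (norm_ne_zero_iff.mpr hc)
  rw [fo_smul, norm_mul, norm_pow, norm_smul, mul_pow, mul_assoc, mul_div_mul_left _ _ h]

/-- translation of a curve by a point of the lattice -/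
theorem Cp.add (P : PD Λ D Bad θ W) {U : Set ℂ} {w : ℂ → EN 1} {h : ℂ → Vd (k + 1)} (hc : Cp θ U w h) {l : Vd (k + 1)} (hl : l ∈ Λ) : Cp θ U w fun z => h z + l := by
  refine ⟨hc.w_diff, hc.h_diff.add_const l, fun z hz => ?_⟩
  obtain ⟨e, he, h1⟩ := P.per l hl (h z)
  have h2 : Fo θ (h z + l) (w z) = e * Fo θ (h z) (w z) := by
    unfold Fo
    rw [Finset.mul_sum]
    refine Finset.sum_congr rfl fun i _ => ?_
    rw [h1 i]; ring
  rw [h2]
  refine mul_ne_zero ?_ (hc.ne z hz)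
  rintro rfl
  rw [norm_zero, zero_mul] at he
  exact (Real.exp_pos _).ne he

theorem Cp.mono {U V : Set ℂ} {w : ℂ → EN 1} {h : ℂ → Vd (k + 1)} (hc : Cp θ U w h) (hV : V ⊆ U) : Cp θ V w h :=
  ⟨hc.w_diff.mono hV, hc.h_diff.mono hV, fun z hz => hc.ne z (hV hz)⟩

theorem Cp.comp {U V : Set ℂ} {w : ℂ → EN 1} {h : ℂ → Vd (k + 1)} (hc : Cp θ U w h) {φ : ℂ → ℂ} (hφ : DifferentiableOn ℂ φ V) (hm : Set.MapsTo φ V U) :
    Cp θ V (fun z => w (φ z)) fun z => h (φ z) :=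
  ⟨hc.w_diff.comp hφ hm, hc.h_diff.comp hφ hm, fun z hz => hc.ne _ (hm hz)⟩

/-- the lift is not `0` (`d ≥ 1`) -/
theorem Cp.w_ne (hd : 1 ≤ d) {U : Set ℂ} {w : ℂ → EN 1} {h : ℂ → Vd (k + 1)} (hc : Cp θ U w h) {z : ℂ} (hz : z ∈ U) : w z ≠ 0 := by
  intro h0
  refine hc.ne z hz ?_
  have := fo_smul θ (h z) 0 (w z)
  rw [zero_pow (by omega), zero_mul, zero_smul] at this
  rw [h0]; exact this

end Pool.Agent.PX

end

section

/-!
# PX Coef: the form on the line `t • b + e`; the comparison lemma for functions without zeros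

`exists_coef`: binomial theorem.  `no_zero`: `q = B / A` is holomorphic near the closed disc, `‖1 - q‖ < ‖q‖` on the circle, i.e. `1 / 2 < Re q`; maximum principle for `exp (- q)`.
`rt_dt`: the roots near `b`: if `Fo θ y b ≠ 0` every root `x ≠ 0` is a multiple of some `t • b + e`.
-/

set_option autoImplicit false

open Topology Filter Metric

namespace Pool.Agent.PX

open Pool.Agent.H36.BP (EN fs wd)
open Pool.Agent.H62.EF (MN pr)
open Pool.Agent.AD (Vd)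
open Pool.Agent.TG (Lat)
open Pool.Agent.G3 (wt LLift)
open Pool.Agent.G4 (Few)

variable {k d r : ℕ}

/-- the polynomial in `t` of the monomial number `i` at `t • b + e` -/
private noncomputable def mp (d : ℕ) (b e : EN 1) (i : ℕ) : Polynomial ℂ :=
  (Polynomial.C (b 0) * Polynomial.X + Polynomial.C (e 0)) ^ i * (Polynomial.C (b 1) * Polynomial.X + Polynomial.C (e 1)) ^ (d - i)

private theorem mp_eval (b e : EN 1) (i : ℕ) (t : ℂ) : (mp d b e i).eval t = (t • b + e) 0 ^ i * (t • b + e) 1 ^ (d - i) := by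
  simp only [mp, Polynomial.eval_mul, Polynomial.eval_pow, Polynomial.eval_add, Polynomial.eval_C, Polynomial.eval_X, PiLp.add_apply, PiLp.smul_apply, smul_eq_mul]
  rw [mul_comm (b 0), mul_comm (b 1)]

private theorem lin_deg (a c : ℂ) : (Polynomial.C a * Polynomial.X + Polynomial.C c).natDegree ≤ 1 := Polynomial.natDegree_linear_le

private theorem mp_deg (b e : EN 1) {i : ℕ} (hi : i ≤ d) : (mp d b e i).natDegree ≤ d := by
  unfold mp
  refine Polynomial.natDegree_mul_le.trans ?_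
  have h1 : ((Polynomial.C (b 0) * Polynomial.X + Polynomial.C (e 0)) ^ i).natDegree ≤ i := by
    refine Polynomial.natDegree_pow_le.trans ?_
    have := lin_deg (b 0) (e 0)
    nlinarith
  have h2 : ((Polynomial.C (b 1) * Polynomial.X + Polynomial.C (e 1)) ^ (d - i)).natDegree ≤ d - i := by
    refine Polynomial.natDegree_pow_le.trans ?_
    have := lin_deg (b 1) (e 1)
    nlinarith
  omega

private theorem mp_top (b e : EN 1) {i : ℕ} (hi : i ≤ d) : (mp d b e i).coeff d = b 0 ^ i * b 1 ^ (d - i) := by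
  have h1 : ((Polynomial.C (b 0) * Polynomial.X + Polynomial.C (e 0)) ^ i).coeff i = b 0 ^ i := by
    have := Polynomial.coeff_pow_of_natDegree_le (p := Polynomial.C (b 0) * Polynomial.X + Polynomial.C (e 0)) (n := 1) (m := i) (lin_deg _ _)
    simpa using this
  have h2 : ((Polynomial.C (b 1) * Polynomial.X + Polynomial.C (e 1)) ^ (d - i)).coeff (d - i) = b 1 ^ (d - i) := by
    have := Polynomial.coeff_pow_of_natDegree_le (p := Polynomial.C (b 1) * Polynomial.X + Polynomial.C (e 1)) (n := 1) (m := d - i) (lin_deg _ _)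
    simpa using this
  have h3 : ((Polynomial.C (b 0) * Polynomial.X + Polynomial.C (e 0)) ^ i).natDegree ≤ i := by
    refine Polynomial.natDegree_pow_le.trans ?_
    have := lin_deg (b 0) (e 0)
    nlinarith
  have h4 : ((Polynomial.C (b 1) * Polynomial.X + Polynomial.C (e 1)) ^ (d - i)).natDegree ≤ d - i := by
    refine Polynomial.natDegree_pow_le.trans ?_
    have := lin_deg (b 1) (e 1)
    nlinarith
  have h5 := Polynomial.coeff_mul_add_eq_of_natDegree_le h3 h4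
  rw [Nat.add_sub_cancel' hi, h1, h2] at h5
  exact h5

theorem exists_coef {θ : Fin (d + 1) → Vd (k + 1) → ℂ} (han : ∀ i, Differentiable ℂ (θ i)) (b e : EN 1) : ∃ c : Fin d → Vd (k + 1) → ℂ, (∀ i, Differentiable ℂ (c i)) ∧
    ∀ y t, Fo θ y (t • b + e) = Fo θ y b * t ^ d + ∑ i : Fin d, c i y * t ^ (i : ℕ) := by
  refine ⟨fun j y => ∑ i : Fin (d + 1), θ i y * (mp d b e i).coeff (j : ℕ), fun j => ?_, fun y t => ?_⟩
  · exact Differentiable.fun_sum fun i _ => (han i).mul_const _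
  · have h1 : ∀ i : Fin (d + 1), θ i y * (t • b + e) 0 ^ (i : ℕ) * (t • b + e) 1 ^ (d - (i : ℕ)) =
        θ i y * b 0 ^ (i : ℕ) * b 1 ^ (d - (i : ℕ)) * t ^ d + ∑ j : Fin d, θ i y * (mp d b e i).coeff (j : ℕ) * t ^ (j : ℕ) := by
      intro i
      have hi : (i : ℕ) ≤ d := Nat.lt_succ_iff.mp i.2
      rw [mul_assoc, ← mp_eval, Polynomial.eval_eq_sum_range' (Nat.lt_succ_of_le (mp_deg b e hi)), Finset.sum_range_succ, mp_top b e hi, mul_add, add_comm, Finset.sum_range, Finset.mul_sum]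
      congr 1
      · ring
      · exact Finset.sum_congr rfl fun j _ => by ring
    unfold Fo
    rw [Finset.sum_congr rfl fun i _ => h1 i, Finset.sum_add_distrib, ← Finset.sum_mul, Finset.sum_comm]
    congr 1
    exact Finset.sum_congr rfl fun j _ => by rw [Finset.sum_mul]

/-- every root is a multiple of some `t • b + e`, where `b` is not a root -/
theorem rt_dt {θ : Fin (d + 1) → Vd (k + 1) → ℂ} {y : Vd (k + 1)} {b e x : EN 1} (hbe : dt b e ≠ 0) (hb : Fo θ y b ≠ 0) (hx : x ≠ 0) (h : Fo θ y x = 0) :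
    dt b x ≠ 0 ∧ x = (dt b x / dt b e) • ((-(dt e x) / dt b x) • b + e) := by
  have hb0 : b ≠ 0 := by
    rintro rfl
    exact hbe (by simp [dt])
  have h1 : dt b x ≠ 0 := by
    intro h2
    obtain ⟨c, hc⟩ := (dt_eq_zero hb0).mp h2
    have hc0 : c ≠ 0 := by
      rintro rfl
      exact hx (by rw [hc, zero_smul])
    rw [hc, fo_smul] at h
    exact (mul_ne_zero (pow_ne_zero d hc0) hb) h
  refine ⟨h1, ?_⟩
  rw [smul_add, smul_smul, show dt b x / dt b e * (-(dt e x) / dt b x) = -(dt e x) / dt b e by field_simp]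
  ext j
  have h3 : b 0 * e 1 - b 1 * e 0 ≠ 0 := hbe
  fin_cases j
  · simp only [PiLp.add_apply, PiLp.smul_apply, smul_eq_mul, dt, Fin.zero_eta]
    rw [div_mul_eq_mul_div, div_mul_eq_mul_div, ← add_div, eq_div_iff h3]
    ring
  · simp only [PiLp.add_apply, PiLp.smul_apply, smul_eq_mul, dt, Fin.mk_one]
    rw [div_mul_eq_mul_div, div_mul_eq_mul_div, ← add_div, eq_div_iff h3]
    ring

end Pool.Agent.PX

end

section

/-!
# PX Cmp: bounds over `Gd D δ`, by compactness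

Translate `y` by `Λ` to a bounded set (`Lat.cpt`, `PD.per`), scale `x` to the unit sphere; the set of all `(y, x)` with `‖y‖ ≤ R`, `y ∈ Gd D δ`, `‖x‖ = 1` is compact.  For `grad_lo`: on the closed subset `Fo θ y x = 0` the operator norm of
`fderiv ℂ (Fo θ y) x` is positive (`PD.simple`); `κ = Fd θ y x v / dt x v` for `v` orthogonal to `x`, `‖v‖ = ‖x‖`: `|dt x v| = ‖x‖ ^ 2` (for `v = (- conj x_1, conj x_0)`).  Scaling: `κ (c • x) = c ^ (d - 2) κ x`.
-/

set_option autoImplicit false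

open Topology Filter Metric

namespace Pool.Agent.PX

open Pool.Agent.H36.BP (EN fs wd)
open Pool.Agent.H62.EF (MN)
open Pool.Agent.AD (Vd)
open Pool.Agent.TG (Lat Gd)
open Pool.Agent.G3 (wt)
open Pool.Agent.G4 (Few)

variable {k d r : ℕ}

variable {Λ : AddSubgroup (Vd (k + 1))} {D : Set (Vd (k + 1))} {Bad : Vd (k + 1) → Set (Vd (k + 1))} {θ : Fin (d + 1) → Vd (k + 1) → ℂ}
  {W : Fin r → Vd (k + 1) →L[ℂ] ℂ}

theorem wt_cont (W : Fin r → Vd (k + 1) →L[ℂ] ℂ) : Continuous (wt W) := by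
  unfold wt
  exact continuous_finsetSum _ fun i _ => ((W i).continuous.norm.pow 2)

theorem gd_sub (P : PD Λ D Bad θ W) {δ : ℝ} {y l : Vd (k + 1)} (hl : l ∈ Λ) (hy : y ∈ Gd D δ) : y - l ∈ Gd D δ := by
  intro b hb
  have := hy (b + l) (P.D_inv b hb l hl)
  rwa [show y - l - b = y - (b + l) by abel]

theorem gd_not {δ : ℝ} (hδ : 0 < δ) {y : Vd (k + 1)} (hy : y ∈ Gd D δ) : y ∉ D := fun h => by
  have := hy y h
  rw [sub_self, norm_zero] at this
  linarith

theorem gd_closed (D : Set (Vd (k + 1))) (δ : ℝ) : IsClosed (Gd D δ) := by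
  have : Gd D δ = ⋂ b ∈ D, {y | δ ≤ ‖y - b‖} := by
    ext y
    simp [Gd]
  rw [this]
  exact isClosed_biInter fun b _ => isClosed_le continuous_const (by fun_prop)

theorem unit_norm {x : EN 1} (hx : x ≠ 0) : ‖((‖x‖⁻¹ : ℝ) : ℂ) • x‖ = 1 := by
  rw [norm_smul, Complex.norm_real, norm_inv, norm_norm, inv_mul_cancel₀ (norm_ne_zero_iff.2 hx)]

theorem lat_near (P : PD Λ D Bad θ W) : ∃ R : ℝ, 0 < R ∧ ∀ y : Vd (k + 1), ∃ l ∈ Λ, y - l ∈ closedBall (0 : Vd (k + 1)) R := by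
  obtain ⟨R, hR, h⟩ := P.lat.cpt
  refine ⟨R, hR, fun y => ?_⟩
  obtain ⟨l, hl, h1⟩ := h y
  exact ⟨l, hl, by rwa [mem_closedBall, dist_zero_right]⟩

/-- over `Gd D δ` the form is not small at some unit vector -/
theorem PD.big_pt (P : PD Λ D Bad θ W) {δ : ℝ} (hδ : 0 < δ) : ∃ c : ℝ, 0 < c ∧ ∀ y ∈ Gd D δ, ∃ b : EN 1, ‖b‖ = 1 ∧ c ≤ qf θ W y b := by
  obtain ⟨R, hR, hL⟩ := lat_near P
  have hd := P.deg
  have hKc : IsCompact (closedBall (0 : Vd (k + 1)) R ∩ Gd D δ) := (isCompact_closedBall _ _).inter_right (gd_closed D δ)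
  have key : ∃ c : ℝ, 0 < c ∧ ∀ y ∈ closedBall (0 : Vd (k + 1)) R ∩ Gd D δ, ∃ b : EN 1, ‖b‖ = 1 ∧ c ≤ qf θ W y b := by
    refine hKc.induction_on (p := fun s => ∃ c : ℝ, 0 < c ∧ ∀ y ∈ s, ∃ b : EN 1, ‖b‖ = 1 ∧ c ≤ qf θ W y b) ⟨1, one_pos, fun y hy => absurd hy (Set.notMem_empty y)⟩ ?_ ?_ ?_
    · rintro s t hst ⟨c, hc, h⟩
      exact ⟨c, hc, fun y hy => h y (hst hy)⟩
    · rintro s t ⟨c, hc, h⟩ ⟨c', hc', h'⟩
      refine ⟨min c c', lt_min hc hc', fun y hy => ?_⟩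
      rcases hy with hy | hy
      · obtain ⟨b, hb, h1⟩ := h y hy
        exact ⟨b, hb, (min_le_left _ _).trans h1⟩
      · obtain ⟨b, hb, h1⟩ := h' y hy
        exact ⟨b, hb, (min_le_right _ _).trans h1⟩
    · rintro y ⟨-, hy⟩
      have hne : ∃ x : EN 1, Fo θ y x ≠ 0 := by
        by_contra hcon
        push Not at hcon
        have hx : (EuclideanSpace.single 0 1 : EN 1) ≠ 0 := by
          intro h
          have := congrArg (fun w : EN 1 => w 0) h
          simp at this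
        obtain ⟨v, hv⟩ := P.simple y (gd_not hδ hy) _ hx (hcon _)
        apply hv
        have : Fo θ y = fun _ => 0 := funext hcon
        unfold Fd
        rw [this]
        simp
      obtain ⟨x, hx⟩ := hne
      have hx0 : x ≠ 0 := by
        rintro rfl
        apply hx
        have := fo_smul θ y 0 (0 : EN 1)
        rw [smul_zero, zero_pow (by omega), zero_mul] at this
        exact this
      set b : EN 1 := ((‖x‖⁻¹ : ℝ) : ℂ) • x with hb
      have hb1 : ‖b‖ = 1 := unit_norm hx0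
      have hq : 0 < qf θ W y b := by
        unfold qf
        rw [hb1, one_pow, div_one, hb, fo_smul]
        refine mul_pos (norm_pos_iff.2 (mul_ne_zero (pow_ne_zero _ ?_) hx)) (Real.exp_pos _)
        exact_mod_cast inv_ne_zero (norm_ne_zero_iff.2 hx0)
      have hcont : Continuous fun y => qf θ W y b := by
        unfold qf
        have h0 : Continuous fun p : Vd (k + 1) × EN 1 => Fo θ p.1 p.2 := Differentiable.continuous (𝕜 := ℂ) (fo_diff P.an)
        have h1 : Continuous fun y => Fo θ y b :=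
          Continuous.comp (g := fun p : Vd (k + 1) × EN 1 => Fo θ p.1 p.2) (f := fun y : Vd (k + 1) => (y, b)) h0 (continuous_id.prodMk continuous_const)
        exact (h1.norm.mul (Real.continuous_exp.comp (wt_cont W).neg)).div_const _
      refine ⟨{z | qf θ W y b / 2 < qf θ W z b}, mem_nhdsWithin_of_mem_nhds ((isOpen_lt continuous_const hcont).mem_nhds (by simp only [Set.mem_ofPred_eq]; linarith)),
        qf θ W y b / 2, by linarith, fun z hz => ⟨b, hb1, le_of_lt hz⟩⟩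
  obtain ⟨c, hc, h⟩ := key
  refine ⟨c, hc, fun y hy => ?_⟩
  obtain ⟨l, hl, hyl⟩ := hL y
  obtain ⟨b, hb, h1⟩ := h (y - l) ⟨hyl, gd_sub P hl hy⟩
  refine ⟨b, hb, ?_⟩
  rwa [← P.qf_add hl (y - l) b, sub_add_cancel] at h1

/-- `|Fo θ y x|` and the weight -/
theorem PD.fo_le (P : PD Λ D Bad θ W) : ∃ C : ℝ, 0 < C ∧ ∀ y x, ‖Fo θ y x‖ ≤ C * ‖x‖ ^ d * Real.exp (wt W y) := by
  obtain ⟨C, hC, h⟩ := P.qf_le
  have hd := P.deg
  refine ⟨C, hC, fun y x => ?_⟩
  rcases eq_or_ne x 0 with rfl | hx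
  · have h0 : Fo θ y 0 = 0 := by
      have := fo_smul θ y 0 (0 : EN 1)
      rwa [smul_zero, zero_pow (by omega), zero_mul] at this
    rw [h0, norm_zero]
    positivity
  · have hn : 0 < ‖x‖ ^ d := pow_pos (norm_pos_iff.2 hx) d
    have h1 := h y x
    unfold qf at h1
    rw [div_le_iff₀ hn] at h1
    have h2 : ‖Fo θ y x‖ = ‖Fo θ y x‖ * Real.exp (-wt W y) * Real.exp (wt W y) := by
      rw [mul_assoc, ← Real.exp_add, neg_add_cancel, Real.exp_zero, mul_one]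
    rw [h2]
    exact mul_le_mul_of_nonneg_right h1 (Real.exp_pos _).le

end Pool.Agent.PX

end

section

/-!
# PX Cmp: bounds over `Gd D δ`, by compactness

Translate `y` by `Λ` to a bounded set (`Lat.cpt`, `PD.per`), scale `x` to the unit sphere; the set of all `(y, x)` with `‖y‖ ≤ R`, `y ∈ Gd D δ`, `‖x‖ = 1` is compact.  For `grad_lo`: on the closed subset `Fo θ y x = 0` the operator norm of
`fderiv ℂ (Fo θ y) x` is positive (`PD.simple`); `κ = Fd θ y x v / dt x v` for `v` orthogonal to `x`, `‖v‖ = ‖x‖`: `|dt x v| = ‖x‖ ^ 2` (for `v = (- conj x_1, conj x_0)`).  Scaling: `κ (c • x) = c ^ (d - 2) κ x`.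
-/

set_option autoImplicit false

open Topology Filter Metric

namespace Pool.Agent.PX

open Pool.Agent.H36.BP (EN fs wd)
open Pool.Agent.H62.EF (MN pr)
open Pool.Agent.AD (Vd)
open Pool.Agent.TG (Lat Gd)
open Pool.Agent.G3 (wt LLift)
open Pool.Agent.G4 (Few)

variable {k d r : ℕ}

variable {Λ : AddSubgroup (Vd (k + 1))} {D : Set (Vd (k + 1))} {Bad : Vd (k + 1) → Set (Vd (k + 1))} {θ : Fin (d + 1) → Vd (k + 1) → ℂ}
  {W : Fin r → Vd (k + 1) →L[ℂ] ℂ}

/-- the rotated vector -/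
private noncomputable def rot (x : EN 1) : EN 1 := WithLp.toLp 2 ![-(starRingEnd ℂ) (x 1), (starRingEnd ℂ) (x 0)]

private theorem rot_cont : Continuous rot := by
  unfold rot
  refine (PiLp.continuous_toLp 2 _).comp (continuous_pi fun i => ?_)
  fin_cases i
  · exact (Complex.continuous_conj.comp (by fun_prop)).neg
  · exact Complex.continuous_conj.comp (by fun_prop)

private theorem dt_rot (x : EN 1) : dt x (rot x) = ((‖x‖ ^ 2 : ℝ) : ℂ) := by
  have h : ‖x‖ ^ 2 = ‖x 0‖ ^ 2 + ‖x 1‖ ^ 2 := by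
    rw [EuclideanSpace.norm_sq_eq, Fin.sum_univ_two]
  have h0 : x 0 * (starRingEnd ℂ) (x 0) = ((‖x 0‖ ^ 2 : ℝ) : ℂ) := by
    rw [Complex.mul_conj, Complex.normSq_eq_norm_sq]
  have h1 : x 1 * (starRingEnd ℂ) (x 1) = ((‖x 1‖ ^ 2 : ℝ) : ℂ) := by
    rw [Complex.mul_conj, Complex.normSq_eq_norm_sq]
  have e : dt x (rot x) = x 0 * (starRingEnd ℂ) (x 0) + x 1 * (starRingEnd ℂ) (x 1) := by
    simp [dt, rot]
  rw [e, h0, h1, h]
  push_cast
  ring

private theorem rot_smul (c : ℝ) (x : EN 1) : rot ((c : ℂ) • x) = (c : ℂ) • rot x := by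
  ext i
  fin_cases i <;> simp [rot]

private theorem fd_lin (θ : Fin (d + 1) → Vd (k + 1) → ℂ) (y : Vd (k + 1)) (x : EN 1) (c : ℂ) (v : EN 1) :
    Fd θ y x (c • v) = c * Fd θ y x v := by
  simp [Fd]

/-- the form over a translated point -/
private theorem fo_per (P : PD Λ D Bad θ W) {l : Vd (k + 1)} (hl : l ∈ Λ) (y : Vd (k + 1)) :
    ∃ e : ℂ, e ≠ 0 ∧ ‖e‖ * Real.exp (-wt W (y + l)) = Real.exp (-wt W y) ∧ (∀ x, Fo θ (y + l) x = e * Fo θ y x) ∧
      ∀ x v, Fd θ (y + l) x v = e * Fd θ y x v := by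
  obtain ⟨e, he, hθ⟩ := P.per l hl y
  refine ⟨e, ?_, he, fun x => ?_, fun x v => ?_⟩
  · rintro rfl
    rw [norm_zero, zero_mul] at he
    exact (Real.exp_pos _).ne he
  · unfold Fo
    rw [Finset.mul_sum]
    refine Finset.sum_congr rfl fun i _ => ?_
    rw [hθ i]
    ring
  · rw [fd_eq, fd_eq, Finset.mul_sum]
    refine Finset.sum_congr rfl fun i _ => ?_
    rw [hθ i]
    ring

/-- the normalised derivative -/
private noncomputable def gq (θ : Fin (d + 1) → Vd (k + 1) → ℂ) (W : Fin r → Vd (k + 1) →L[ℂ] ℂ) (p : Vd (k + 1) × EN 1) : ℝ :=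
  ‖Fd θ p.1 p.2 (rot p.2)‖ * Real.exp (-wt W p.1)

private theorem gq_cont (P : PD Λ D Bad θ W) : Continuous (gq θ W) := by
  unfold gq
  have h1 : Continuous fun p : Vd (k + 1) × EN 1 => Fd θ p.1 p.2 (rot p.2) := by
    have h2 : Continuous fun p : Vd (k + 1) × EN 1 × EN 1 => Fd θ p.1 p.2.1 p.2.2 := Differentiable.continuous (𝕜 := ℂ) (fd_diff P.an)
    have h3 : Continuous fun p : Vd (k + 1) × EN 1 => (p.1, p.2, rot p.2) := continuous_fst.prodMk (continuous_snd.prodMk (rot_cont.comp continuous_snd))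
    exact Continuous.comp (g := fun p : Vd (k + 1) × EN 1 × EN 1 => Fd θ p.1 p.2.1 p.2.2) (f := fun p : Vd (k + 1) × EN 1 => (p.1, p.2, rot p.2)) h2 h3
  exact h1.norm.mul (Real.continuous_exp.comp ((wt_cont W).comp continuous_fst).neg)

/-- the derivative from its normalised value -/
private theorem kap_eq (P : PD Λ D Bad θ W) {y l : Vd (k + 1)} (hl : l ∈ Λ) {x : EN 1} (hx : x ≠ 0) {κ : ℂ}
    (hκ : ∀ v, Fd θ y x v = κ * dt x v) :
    ‖κ‖ = gq θ W (y - l, ((‖x‖⁻¹ : ℝ) : ℂ) • x) * ‖x‖ ^ (d - 2) * Real.exp (wt W y) := by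
  have hn : 0 < ‖x‖ := norm_pos_iff.2 hx
  have hd := P.deg
  obtain ⟨e, -, he, -, hF⟩ := fo_per P hl (y - l)
  rw [sub_add_cancel] at he hF
  set z : EN 1 := ((‖x‖⁻¹ : ℝ) : ℂ) • x with hz
  have hxz : x = ((‖x‖ : ℝ) : ℂ) • z := by
    rw [hz, smul_smul, ← Complex.ofReal_mul, mul_inv_cancel₀ hn.ne', Complex.ofReal_one, one_smul]
  have h1 : κ * ((‖x‖ ^ 2 : ℝ) : ℂ) = e * (((‖x‖ : ℝ) : ℂ) ^ d * Fd θ (y - l) z (rot z)) := by
    rw [← dt_rot x, ← hκ, hF]
    congr 1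
    conv_lhs => rw [hxz]
    rw [rot_smul, fd_lin, fd_smul θ (by omega)]
    have e1 : ((‖x‖ : ℝ) : ℂ) ^ d = ((‖x‖ : ℝ) : ℂ) * ((‖x‖ : ℝ) : ℂ) ^ (d - 1) := by
      rw [← pow_succ']
      congr 1
      omega
    rw [e1, mul_assoc]
  have h2 : ‖κ‖ * ‖x‖ ^ 2 = ‖e‖ * (‖x‖ ^ d * ‖Fd θ (y - l) z (rot z)‖) := by
    have := congrArg norm h1
    rw [norm_mul, norm_mul, norm_mul, norm_pow, Complex.norm_real, Complex.norm_real, Real.norm_of_nonneg (sq_nonneg _),
      Real.norm_of_nonneg hn.le] at this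
    exact this
  have h3 : ‖e‖ = Real.exp (-wt W (y - l)) * Real.exp (wt W y) := by
    rw [← he, mul_assoc, ← Real.exp_add, neg_add_cancel, Real.exp_zero, mul_one]
  have h4 : ‖x‖ ^ d = ‖x‖ ^ (d - 2) * ‖x‖ ^ 2 := by
    rw [← pow_add]
    congr 1
    omega
  rw [h3, h4] at h2
  have h5 : ‖x‖ ^ 2 ≠ 0 := (pow_pos hn 2).ne'
  apply mul_right_cancel₀ h5
  rw [h2]
  simp only [gq]
  ring

/-- the derivative at the roots is not small over `Gd D δ` -/
theorem PD.grad_lo (P : PD Λ D Bad θ W) {δ : ℝ} (hδ : 0 < δ) : ∃ c : ℝ, 0 < c ∧ ∀ y ∈ Gd D δ, ∀ x : EN 1, x ≠ 0 → Fo θ y x = 0 →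
    ∀ κ : ℂ, (∀ v, Fd θ y x v = κ * dt x v) → c * ‖x‖ ^ (d - 2) * Real.exp (wt W y) ≤ ‖κ‖ := by
  obtain ⟨R, hR, hL⟩ := lat_near P
  set K : Set (Vd (k + 1) × EN 1) := ((closedBall (0 : Vd (k + 1)) R ∩ Gd D δ) ×ˢ sphere (0 : EN 1) 1) ∩ {p | Fo θ p.1 p.2 = 0} with hK
  have hKc : IsCompact K := by
    refine IsCompact.inter_right (((isCompact_closedBall _ _).inter_right (gd_closed D δ)).prod (isCompact_sphere _ _)) ?_
    exact isClosed_eq (Differentiable.continuous (𝕜 := ℂ) (fo_diff P.an)) continuous_const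
  have hpos : ∀ p ∈ K, 0 < gq θ W p := by
    rintro ⟨y, x⟩ ⟨⟨⟨-, hy⟩, hx⟩, h0⟩
    have hx1 : ‖x‖ = 1 := by simpa using hx
    have hx0 : x ≠ 0 := by
      rintro rfl
      rw [norm_zero] at hx1
      exact zero_ne_one hx1
    obtain ⟨κ, hκ⟩ := fd_root θ hx0 h0
    obtain ⟨v, hv⟩ := P.simple y (gd_not hδ hy) x hx0 h0
    have hk : κ ≠ 0 := by
      rintro rfl
      exact hv (by rw [hκ, zero_mul])
    have h1 : Fd θ y x (rot x) = κ := by
      rw [hκ, dt_rot, hx1]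
      simp
    simp only [gq, h1]
    exact mul_pos (norm_pos_iff.2 hk) (Real.exp_pos _)
  have hc : ∃ c : ℝ, 0 < c ∧ ∀ p ∈ K, c ≤ gq θ W p := by
    rcases K.eq_empty_or_nonempty with h | h
    · exact ⟨1, one_pos, fun p hp => by rw [h] at hp; exact absurd hp (Set.notMem_empty p)⟩
    · obtain ⟨p, hp, hmin⟩ := hKc.exists_isMinOn h (gq_cont P).continuousOn
      exact ⟨gq θ W p, hpos p hp, fun q hq => hmin hq⟩
  obtain ⟨c, hc0, hc⟩ := hc
  refine ⟨c, hc0, fun y hy x hx h0 κ hκ => ?_⟩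
  obtain ⟨l, hl, hyl⟩ := hL y
  rw [kap_eq P hl hx hκ]
  obtain ⟨e, he0, -, hF, -⟩ := fo_per P hl (y - l)
  rw [sub_add_cancel] at hF
  have h1 : Fo θ (y - l) (((‖x‖⁻¹ : ℝ) : ℂ) • x) = 0 := by
    rw [fo_smul]
    have := hF x
    rw [h0] at this
    rcases mul_eq_zero.1 this.symm with h | h
    · exact absurd h he0
    · rw [h, mul_zero]
  have h2 := hc (y - l, ((‖x‖⁻¹ : ℝ) : ℂ) • x) ⟨⟨⟨hyl, gd_sub P hl hy⟩, by simpa using unit_norm hx⟩, h1⟩
  have h3 : 0 ≤ ‖x‖ ^ (d - 2) * Real.exp (wt W y) := by positivity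
  calc c * ‖x‖ ^ (d - 2) * Real.exp (wt W y) = c * (‖x‖ ^ (d - 2) * Real.exp (wt W y)) := by ring
    _ ≤ gq θ W (y - l, ((‖x‖⁻¹ : ℝ) : ℂ) • x) * (‖x‖ ^ (d - 2) * Real.exp (wt W y)) := mul_le_mul_of_nonneg_right h2 h3
    _ = _ := by ring

theorem PD.grad_up (P : PD Λ D Bad θ W) : ∃ C : ℝ, 0 < C ∧ ∀ y, ∀ x : EN 1, x ≠ 0 →
    ∀ κ : ℂ, (∀ v, Fd θ y x v = κ * dt x v) → ‖κ‖ ≤ C * ‖x‖ ^ (d - 2) * Real.exp (wt W y) := by
  obtain ⟨R, hR, hL⟩ := lat_near P
  have hKc : IsCompact (closedBall (0 : Vd (k + 1)) R ×ˢ sphere (0 : EN 1) 1) := (isCompact_closedBall _ _).prod (isCompact_sphere _ _)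
  obtain ⟨C, hC⟩ := hKc.exists_bound_of_continuousOn (gq_cont P).continuousOn
  refine ⟨max C 1, lt_of_lt_of_le one_pos (le_max_right _ _), fun y x hx κ hκ => ?_⟩
  obtain ⟨l, hl, hyl⟩ := hL y
  rw [kap_eq P hl hx hκ]
  have h2 := hC (y - l, ((‖x‖⁻¹ : ℝ) : ℂ) • x) ⟨hyl, by simpa using unit_norm hx⟩
  have h3 : 0 ≤ ‖x‖ ^ (d - 2) * Real.exp (wt W y) := by positivity
  have h4 : gq θ W (y - l, ((‖x‖⁻¹ : ℝ) : ℂ) • x) ≤ max C 1 := ((le_abs_self _).trans h2).trans (le_max_left _ _)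
  calc gq θ W (y - l, ((‖x‖⁻¹ : ℝ) : ℂ) • x) * ‖x‖ ^ (d - 2) * Real.exp (wt W y)
      = gq θ W (y - l, ((‖x‖⁻¹ : ℝ) : ℂ) • x) * (‖x‖ ^ (d - 2) * Real.exp (wt W y)) := by ring
    _ ≤ max C 1 * (‖x‖ ^ (d - 2) * Real.exp (wt W y)) := mul_le_mul_of_nonneg_right h4 h3
    _ = _ := by ring

end Pool.Agent.PX

end
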