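import Pool.Agent.H94.PX2.M03
import Pool.Agent.H94.PX2.M05
import Pool.Agent.H94.PX2.M11

/-! The parts of this file: H13.CV.MerO, H17.Modulus, H36.BP.ExtE, H36.BPL.Aff, HE.Bound, PX.RSq. -/

section

/-!
# CV MerO: the field of meromorphic functions, as the fraction field of the ring of entire functions

`ofn z₀ f` is the order at `z₀` of `f`; it is defined with the chosen representation `f = a / b` (`IsLocalization.sec`), `ofn_div` says that it does not depend on the representation: if `a / b = a' / b'` then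
`a b' = a' b` as entire functions, so the meromorphic functions `a / b`, `a' / b'` agree outside the zeros of `b b'` (isolated), so their orders are the same (`meromorphicOrderAt_congr`).
The other lemmas: `meromorphicOrderAt_mul`, `meromorphicOrderAt_add` (`min ≤`), for functions `a / b`.  `ofn z₀ f = ⊤ ↔ f = 0`.
`tr_or_const`: `ℂ` is algebraically closed.
-/

set_option autoImplicit false

open Topology Filter
open Pool.Agent.H17 Pool.Agent.H17.EntFun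

noncomputable section

namespace Pool.Agent.H13.CV

attribute [-instance] Subalgebra.instFaithfulSMulSubtypeMem

/-- the field of meromorphic functions on `ℂ` -/
abbrev Mer : Type := FractionRing EntFun

/-- entire functions as meromorphic functions -/
abbrev toM (a : EntFun) : Mer := algebraMap EntFun Mer a

/-- the order at `z₀` -/
def ofn (z₀ : ℂ) (f : Mer) : WithTop ℤ :=
  meromorphicOrderAt (fun z => ((IsLocalization.sec (nonZeroDivisors EntFun) f).1 : ℂ → ℂ) z / (((IsLocalization.sec (nonZeroDivisors EntFun) f).2 : EntFun) : ℂ → ℂ) z) z₀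

/-- the function `z ↦ a z / b z` -/
private def qf (a b : EntFun) : ℂ → ℂ := fun z => (a : ℂ → ℂ) z / (b : ℂ → ℂ) z

private lemma qf_mero (z₀ : ℂ) (a b : EntFun) : MeromorphicAt (qf a b) z₀ :=
  (a.analyticAt z₀).meromorphicAt.fun_div (b.analyticAt z₀).meromorphicAt

private lemma ev_ne (z₀ : ℂ) {b : EntFun} (hb : b ≠ 0) : ∀ᶠ z in 𝓝[≠] z₀, (b : ℂ → ℂ) z ≠ 0 :=
  eventually_ne_zero_of_entire b.2 ((ne_zero_iff b).mp hb) z₀

private lemma toM_inj : Function.Injective toM := IsFractionRing.injective EntFun Mer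

private lemma toM_ne {b : EntFun} (hb : b ≠ 0) : toM b ≠ 0 := by
  intro h
  exact hb (toM_inj (by rw [h]; exact (map_zero (algebraMap EntFun Mer)).symm))

private lemma mul_val (a b : EntFun) (z : ℂ) : ((a * b : EntFun) : ℂ → ℂ) z = (a : ℂ → ℂ) z * (b : ℂ → ℂ) z := rfl

private lemma add_val (a b : EntFun) (z : ℂ) : ((a + b : EntFun) : ℂ → ℂ) z = (a : ℂ → ℂ) z + (b : ℂ → ℂ) z := rfl

private lemma exists_rep (f : Mer) : ∃ a b : EntFun, b ≠ 0 ∧ f = toM a / toM b := by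
  obtain ⟨a, b, hb, h⟩ := IsFractionRing.div_surjective (A := EntFun) f
  exact ⟨a, b, nonZeroDivisors.ne_zero hb, h.symm⟩

theorem ofn_div (z₀ : ℂ) (a : EntFun) {b : EntFun} (hb : b ≠ 0) : ofn z₀ (toM a / toM b) = meromorphicOrderAt (fun z => (a : ℂ → ℂ) z / (b : ℂ → ℂ) z) z₀ := by
  unfold ofn
  set f : Mer := toM a / toM b with hf
  set a' : EntFun := (IsLocalization.sec (nonZeroDivisors EntFun) f).1 with ha'
  set b' : EntFun := ((IsLocalization.sec (nonZeroDivisors EntFun) f).2 : EntFun) with hb'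
  have hb'0 : b' ≠ 0 := nonZeroDivisors.ne_zero (IsLocalization.sec (nonZeroDivisors EntFun) f).2.2
  have h1 : f * toM b' = toM a' := IsLocalization.sec_spec (nonZeroDivisors EntFun) f
  have h2 : a * b' = a' * b := by
    apply toM_inj
    have hbM := toM_ne hb
    have e1 : toM (a * b') = toM a * toM b' := map_mul _ _ _
    have e2 : toM (a' * b) = toM a' * toM b := map_mul _ _ _
    rw [e1, e2, ← h1, hf, mul_right_comm, div_mul_cancel₀ _ hbM]
  apply meromorphicOrderAt_congr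
  filter_upwards [ev_ne z₀ hb, ev_ne z₀ hb'0] with z hz hz'
  have h3 : (a : ℂ → ℂ) z * (b' : ℂ → ℂ) z = (a' : ℂ → ℂ) z * (b : ℂ → ℂ) z := by
    rw [← mul_val, ← mul_val, h2]
  rw [div_eq_div_iff hz' hz]
  exact h3.symm

private lemma ofn_rep (z₀ : ℂ) (a : EntFun) {b : EntFun} (hb : b ≠ 0) : ofn z₀ (toM a / toM b) = meromorphicOrderAt (qf a b) z₀ :=
  ofn_div z₀ a hb

private lemma toM_one : toM 1 = 1 := map_one (algebraMap EntFun Mer)

private lemma toM_zero : toM 0 = 0 := map_zero (algebraMap EntFun Mer)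

private lemma one_ne : (1 : EntFun) ≠ 0 := one_ne_zero

private lemma ofn_toM (z₀ : ℂ) (a : EntFun) : ofn z₀ (toM a) = meromorphicOrderAt (a : ℂ → ℂ) z₀ := by
  have h := ofn_div z₀ a one_ne
  rw [toM_one, div_one] at h
  rw [h]
  congr 1
  funext z
  have : ((1 : EntFun) : ℂ → ℂ) z = 1 := rfl
  rw [this, div_one]

theorem ofn_zero (z₀ : ℂ) : ofn z₀ 0 = ⊤ := by
  rw [← toM_zero, ofn_toM, meromorphicOrderAt_eq_top_iff]
  exact Filter.Eventually.of_forall fun z => rfl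

theorem ofn_one (z₀ : ℂ) : ofn z₀ 1 = 0 := by
  classical
  rw [← toM_one, ofn_toM]
  have h := meromorphicOrderAt_const z₀ (1 : ℂ)
  rw [if_neg one_ne_zero] at h
  exact h

theorem ofn_add (z₀ : ℂ) (f g : Mer) : min (ofn z₀ f) (ofn z₀ g) ≤ ofn z₀ (f + g) := by
  obtain ⟨a, b, hb, rfl⟩ := exists_rep f
  obtain ⟨c, d, hd, rfl⟩ := exists_rep g
  have h1 : toM a / toM b + toM c / toM d = toM (a * d + b * c) / toM (b * d) := by
    have e1 : toM (a * d + b * c) = toM a * toM d + toM b * toM c := by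
      rw [← map_mul, ← map_mul, ← map_add]
    have e2 : toM (b * d) = toM b * toM d := map_mul _ _ _
    rw [e1, e2, div_add_div _ _ (toM_ne hb) (toM_ne hd)]
  rw [h1, ofn_rep z₀ a hb, ofn_rep z₀ c hd, ofn_rep z₀ _ (mul_ne_zero hb hd)]
  refine (meromorphicOrderAt_add (qf_mero z₀ a b) (qf_mero z₀ c d)).trans (le_of_eq ?_)
  apply meromorphicOrderAt_congr
  filter_upwards [ev_ne z₀ hb, ev_ne z₀ hd] with z hz hz'
  rw [Pi.add_apply]
  unfold qf
  rw [add_val, mul_val, mul_val, mul_val, div_add_div _ _ hz hz']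

theorem ofn_mul (z₀ : ℂ) (f g : Mer) : ofn z₀ (f * g) = ofn z₀ f + ofn z₀ g := by
  obtain ⟨a, b, hb, rfl⟩ := exists_rep f
  obtain ⟨c, d, hd, rfl⟩ := exists_rep g
  have h1 : toM a / toM b * (toM c / toM d) = toM (a * c) / toM (b * d) := by
    have e1 : toM (a * c) = toM a * toM c := map_mul _ _ _
    have e2 : toM (b * d) = toM b * toM d := map_mul _ _ _
    rw [e1, e2, div_mul_div_comm]
  rw [h1, ofn_rep z₀ a hb, ofn_rep z₀ c hd, ofn_rep z₀ _ (mul_ne_zero hb hd),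
    ← meromorphicOrderAt_mul (qf_mero z₀ a b) (qf_mero z₀ c d)]
  congr 1
  funext z
  rw [Pi.mul_apply]
  unfold qf
  rw [mul_val, mul_val, div_mul_div_comm]

/-- the order at `z₀` as a valuation -/
def ordM (z₀ : ℂ) : AddValuation Mer (WithTop ℤ) := AddValuation.of (ofn z₀) (ofn_zero z₀) (ofn_one z₀) (ofn_add z₀) (ofn_mul z₀)

theorem ordM_div (z₀ : ℂ) (a : EntFun) {b : EntFun} (hb : b ≠ 0) : ordM z₀ (toM a / toM b) = meromorphicOrderAt (fun z => (a : ℂ → ℂ) z / (b : ℂ → ℂ) z) z₀ := by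
  exact ofn_div z₀ a hb

theorem ordM_toM (z₀ : ℂ) (a : EntFun) : ordM z₀ (toM a) = meromorphicOrderAt (a : ℂ → ℂ) z₀ := by
  exact ofn_toM z₀ a

theorem ordM_toM_nonneg (z₀ : ℂ) (a : EntFun) : 0 ≤ ordM z₀ (toM a) := by
  rw [ordM_toM]
  exact (a.analyticAt z₀).meromorphicOrderAt_nonneg

theorem ordM_toM_pos (z₀ : ℂ) (a : EntFun) : 0 < ordM z₀ (toM a) ↔ (a : ℂ → ℂ) z₀ = 0 := by
  rw [ordM_toM, ← tendsto_zero_iff_meromorphicOrderAt_pos (a.analyticAt z₀).meromorphicAt]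
  have hc : Tendsto (a : ℂ → ℂ) (𝓝[≠] z₀) (𝓝 ((a : ℂ → ℂ) z₀)) :=
    (a.analyticAt z₀).continuousAt.tendsto.mono_left nhdsWithin_le_nhds
  constructor
  · intro h
    exact tendsto_nhds_unique hc h
  · intro h
    rw [h] at hc
    exact hc

theorem ordM_eq_top (z₀ : ℂ) {f : Mer} : ordM z₀ f = ⊤ ↔ f = 0 := by
  constructor
  · intro h
    obtain ⟨a, b, hb, rfl⟩ := exists_rep f
    rw [ordM_div z₀ a hb, meromorphicOrderAt_eq_top_iff] at h
    by_contra h0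
    have ha : a ≠ 0 := by
      rintro rfl
      apply h0
      rw [toM_zero, zero_div]
    obtain ⟨z, ⟨hz1, hz2⟩, hz3⟩ := ((ev_ne z₀ ha).and (ev_ne z₀ hb)).and h |>.exists
    exact div_ne_zero hz1 hz2 hz3
  · rintro rfl
    exact ofn_zero z₀

theorem algebraMap_eq (c : ℂ) : algebraMap ℂ Mer c = toM (algebraMap ℂ EntFun c) := by
  exact IsScalarTower.algebraMap_apply ℂ EntFun Mer c

theorem ordM_const (z₀ : ℂ) {c : ℂ} (hc : c ≠ 0) : ordM z₀ (algebraMap ℂ Mer c) = 0 := by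
  classical
  rw [algebraMap_eq, ordM_toM]
  have h := meromorphicOrderAt_const z₀ c
  rw [if_neg hc] at h
  exact h

/-- a meromorphic function without pole at `z₀` has a value at `z₀` -/
theorem exists_valueM (z₀ : ℂ) {f : Mer} (hf : 0 ≤ ordM z₀ f) : ∃ c : ℂ, 0 < ordM z₀ (f - algebraMap ℂ Mer c) := by
  obtain ⟨a, b, hb, rfl⟩ := exists_rep f
  have h1 : ordM z₀ (toM a / toM b) = meromorphicOrderAt (qf a b) z₀ := ordM_div z₀ a hb
  rw [h1] at hf
  obtain ⟨c, hc⟩ := tendsto_nhds_of_meromorphicOrderAt_nonneg (qf_mero z₀ a b) hf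
  refine ⟨c, ?_⟩
  have h2 : toM a / toM b - algebraMap ℂ Mer c = toM (a - algebraMap ℂ EntFun c * b) / toM b := by
    have e1 : toM (a - algebraMap ℂ EntFun c * b) = toM a - toM (algebraMap ℂ EntFun c) * toM b := by
      rw [← map_mul, ← map_sub]
    rw [e1, algebraMap_eq, sub_div, mul_div_cancel_right₀ _ (toM_ne hb)]
  have h3 : ordM z₀ (toM (a - algebraMap ℂ EntFun c * b) / toM b) = meromorphicOrderAt (qf (a - algebraMap ℂ EntFun c * b) b) z₀ :=
    ordM_div z₀ _ hb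
  rw [h2, h3, ← tendsto_zero_iff_meromorphicOrderAt_pos (qf_mero z₀ _ b)]
  have h4 : Tendsto (fun z => qf a b z - c) (𝓝[≠] z₀) (𝓝 (c - c)) := hc.sub_const c
  rw [sub_self] at h4
  refine h4.congr' ?_
  filter_upwards [ev_ne z₀ hb] with z hz
  unfold qf
  have e2 : ((a - algebraMap ℂ EntFun c * b : EntFun) : ℂ → ℂ) z = (a : ℂ → ℂ) z - c * (b : ℂ → ℂ) z := rfl
  rw [e2, sub_div, mul_div_cancel_right₀ _ hz]

theorem tr_or_const (f : Mer) : (∃ c : ℂ, f = algebraMap ℂ Mer c) ∨ Transcendental ℂ f := by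
  by_cases h : Transcendental ℂ f
  · exact Or.inr h
  · left
    have halg : IsAlgebraic ℂ f := not_not.mp h
    have hint : IsIntegral ℂ f := halg.isIntegral
    have hdeg : (minpoly ℂ f).degree = 1 :=
      IsAlgClosed.degree_eq_one_of_irreducible ℂ (minpoly.irreducible hint)
    obtain ⟨c, hc⟩ := minpoly.mem_range_of_degree_eq_one ℂ f hdeg
    exact ⟨c, hc.symm⟩

end Pool.Agent.H13.CV

end
end

section

/-!
# The uniform modulus of continuity of holomorphic discs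
-/

open Topology Filter

namespace Pool.Agent.H17

variable {N : ℕ}

/-- Composition with a holomorphic function. -/
lemma HolomorphicInto.comp {f : ℂ → PN N} {V U : Set ℂ} (hf : HolomorphicInto f V) {u : ℂ → ℂ}
    (hu : ∀ z ∈ U, AnalyticAt ℂ u z) (hUV : ∀ z ∈ U, u z ∈ V) :
    HolomorphicInto (fun z => f (u z)) U := by
  intro z₀ hz₀
  obtain ⟨φ, hφ, he⟩ := hf (u z₀) (hUV z₀ hz₀)
  exact ⟨fun z => φ (u z), hφ.comp (hu z₀ hz₀), (hu z₀ hz₀).continuousAt.eventually he⟩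

end Pool.Agent.H17

end

section

/-!
# BP ExtE: the limit at the puncture

For `r = |z₁|/(n+2)` take `θ_n`; `F_n = θ_n F` is bounded by `A` for `|z₁|/(n+2) ≤ |z| ≤ r₁`, `|F_n z₁| ≥ c`.  Along `hyperfilter ℕ` the pointwise limits `H z` exist for `0 < |z| < r₁` (bounded in a finite dimensional space), and by
`montel_ultrafilter` on small discs (`TendstoLocallyUniformlyOn` implies pointwise convergence, so the local limits are `H`) `H` is holomorphic on `0 < |z| < r₁`, `|H z| ≤ A`, `|H z₁| ≥ c`, and `H z` is a multiple of `F z` (closed line).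
`H` is bounded, so it extends to a holomorphic `P` on `|z| < r₁` (`Complex.differentiableOn_update_limUnder_of_bddAbove`, for vector valued functions), `P z₁ ≠ 0`, so `P` does not vanish identically near `0` (identity theorem on the disc),
`P z = z^k Q z`, `Q 0 ≠ 0` (`AnalyticAt.exists_eventuallyEq_pow_smul_nonzero_iff`), `Q z ≠ 0` near `0` and `Q z` is a multiple of `F z`.
-/

set_option autoImplicit false

namespace Pool.Agent.H36.BP

open Filter Topology Metric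

variable {N : ℕ}

theorem puncture_limit {F : ℂ → EN N} (hF : DifferentiableOn ℂ F (ball 0 1 \ {0})) (hF0 : ∀ z ∈ ball (0 : ℂ) 1 \ {0}, F z ≠ 0) {r₁ c A : ℝ} {z₁ : ℂ}
    (hc : 0 < c) (hz1 : 0 < ‖z₁‖) (hz2 : ‖z₁‖ < r₁) (hr1 : r₁ < 1)
    (h : ∀ r : ℝ, 0 < r → r < ‖z₁‖ → ∃ θ : ℂ → ℂ, DifferentiableOn ℂ θ {0}ᶜ ∧
      (∀ z : ℂ, r ≤ ‖z‖ → ‖z‖ ≤ r₁ → ‖θ z • F z‖ ≤ A) ∧ c ≤ ‖θ z₁ • F z₁‖) :
    ∃ Q : ℂ → EN N, AnalyticAt ℂ Q 0 ∧ Q 0 ≠ 0 ∧ ∀ᶠ z in 𝓝[≠] (0 : ℂ), ∃ k : ℂ, k ≠ 0 ∧ Q z = k • F z := by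
  classical
  have hr : ∀ n : ℕ, 0 < ‖z₁‖ / ((n : ℝ) + 2) ∧ ‖z₁‖ / ((n : ℝ) + 2) < ‖z₁‖ := by
    intro n
    have hn : (0 : ℝ) ≤ n := Nat.cast_nonneg n
    refine ⟨by positivity, ?_⟩
    rw [div_lt_iff₀ (by positivity)]
    nlinarith
  choose θ hθd hθb hθc using fun n : ℕ => h (‖z₁‖ / ((n : ℝ) + 2)) (hr n).1 (hr n).2
  set 𝒰 : Ultrafilter ℕ := hyperfilter ℕ with h𝒰
  have h𝒰l : (𝒰 : Filter ℕ) ≤ atTop := by
    rw [← Nat.cofinite_eq_atTop]
    exact hyperfilter_le_cofinite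
  have hsmall : ∀ δ : ℝ, 0 < δ → ∀ᶠ n : ℕ in (𝒰 : Filter ℕ), ‖z₁‖ / ((n : ℝ) + 2) ≤ δ := by
    intro δ hδ
    apply h𝒰l
    have ht : Tendsto (fun n : ℕ => ‖z₁‖ / ((n : ℝ) + 2)) atTop (𝓝 0) :=
      Tendsto.div_atTop tendsto_const_nhds (tendsto_natCast_atTop_atTop.atTop_add tendsto_const_nhds)
    exact (ht.eventually_lt_const hδ).mono fun _ h => h.le
  set Fn : ℕ → ℂ → EN N := fun n z => θ n z • F z with hFn
  -- local discs
  have hloc : ∀ z : ℂ, z ≠ 0 → ‖z‖ < r₁ → ∃ (s : ℝ) (g : ℂ → EN N), 0 < s ∧ ball z s ⊆ ball 0 r₁ \ {0} ∧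
      DifferentiableOn ℂ g (ball z s) ∧ ∀ w ∈ ball z s, Tendsto (fun n => Fn n w) (𝒰 : Filter ℕ) (𝓝 (g w)) := by
    intro z hz hzr
    have hzp : 0 < ‖z‖ := norm_pos_iff.mpr hz
    set s : ℝ := min (‖z‖ / 2) (r₁ - ‖z‖) with hs
    have hs0 : 0 < s := lt_min (by positivity) (by linarith)
    have hw1 : ∀ w ∈ ball z s, ‖z‖ / 2 ≤ ‖w‖ ∧ ‖w‖ < r₁ := by
      intro w hw
      have h1 : ‖w - z‖ < s := by rwa [mem_ball, dist_eq_norm] at hw
      have h2 : s ≤ ‖z‖ / 2 := min_le_left _ _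
      have h3 : s ≤ r₁ - ‖z‖ := min_le_right _ _
      have h4 : ‖z‖ ≤ ‖w‖ + ‖w - z‖ := by
        have := norm_sub_le w (w - z)
        simpa using this
      have h5 : ‖w‖ ≤ ‖z‖ + ‖w - z‖ := by
        have := norm_add_le z (w - z)
        simpa using this
      constructor <;> linarith
    have hsub : ball z s ⊆ ball 0 r₁ \ {0} := by
      intro w hw
      have := hw1 w hw
      refine ⟨by simpa using this.2, ?_⟩
      rintro rfl
      have h1 := this.1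
      rw [norm_zero] at h1
      linarith
    have hsub1 : ball z s ⊆ ball 0 1 \ {0} := fun w hw =>
      ⟨ball_subset_ball hr1.le (hsub hw).1, (hsub hw).2⟩
    obtain ⟨g, hg1, hg2⟩ := Pool.Agent.H17.montel_ultrafilter (E := EN N) 𝒰 (F := Fn) (a := z) (r := s) (B := A)
      (by
        refine Eventually.of_forall fun n => ?_
        refine DifferentiableOn.smul ((hθd n).mono ?_) (hF.mono hsub1)
        intro w hw
        exact (hsub hw).2)
      (by
        filter_upwards [hsmall (‖z‖ / 2) (by positivity)] with n hn w hw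
        exact hθb n w (hn.trans (hw1 w hw).1) (hw1 w hw).2.le)
    exact ⟨s, g, hs0, hsub, hg1, fun w hw => hg2.tendsto_at hw⟩
  -- the limit
  have hlim : ∀ z : ℂ, ∃ l : EN N, z ≠ 0 → ‖z‖ < r₁ → Tendsto (fun n => Fn n z) (𝒰 : Filter ℕ) (𝓝 l) := by
    intro z
    by_cases hz : z ≠ 0 ∧ ‖z‖ < r₁
    · obtain ⟨s, g, hs, -, -, hg⟩ := hloc z hz.1 hz.2
      exact ⟨g z, fun _ _ => hg z (mem_ball_self hs)⟩
    · exact ⟨0, fun h1 h2 => absurd ⟨h1, h2⟩ hz⟩
  choose H hH using hlim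
  have hHd : DifferentiableOn ℂ H (ball 0 r₁ \ {0}) := by
    intro z hz
    have hz0 : z ≠ 0 := hz.2
    have hzr : ‖z‖ < r₁ := by simpa using hz.1
    obtain ⟨s, g, hs, hsub, hgd, hg⟩ := hloc z hz0 hzr
    have heq : H =ᶠ[𝓝 z] g := by
      filter_upwards [ball_mem_nhds z hs] with w hw
      have hw' := hsub hw
      exact tendsto_nhds_unique (hH w hw'.2 (by simpa using hw'.1)) (hg w hw)
    have : DifferentiableAt ℂ g z := (hgd z (mem_ball_self hs)).differentiableAt (ball_mem_nhds z hs)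
    exact (this.congr_of_eventuallyEq heq).differentiableWithinAt
  have hHb : ∀ z ∈ ball (0 : ℂ) r₁ \ {0}, ‖H z‖ ≤ A := by
    intro z hz
    have hz0 : z ≠ 0 := hz.2
    have hzr : ‖z‖ < r₁ := by simpa using hz.1
    refine le_of_tendsto (hH z hz0 hzr).norm ?_
    filter_upwards [hsmall ‖z‖ (norm_pos_iff.mpr hz0)] with n hn
    exact hθb n z hn hzr.le
  have hz10 : z₁ ≠ 0 := norm_pos_iff.mp hz1
  have hHc : c ≤ ‖H z₁‖ := ge_of_tendsto (hH z₁ hz10 hz2).norm (Eventually.of_forall fun n => hθc n)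
  have hHs : ∀ z ∈ ball (0 : ℂ) r₁ \ {0}, ∃ a : ℂ, H z = a • F z := by
    intro z hz
    have hz0 : z ≠ 0 := hz.2
    have hzr : ‖z‖ < r₁ := by simpa using hz.1
    have hcl : IsClosed ((Submodule.span ℂ {F z} : Submodule ℂ (EN N)) : Set (EN N)) :=
      Submodule.closed_of_finiteDimensional _
    have hmem : H z ∈ (Submodule.span ℂ {F z} : Submodule ℂ (EN N)) :=
      hcl.mem_of_tendsto (hH z hz0 hzr) (Eventually.of_forall fun n =>
        Submodule.smul_mem _ _ (Submodule.mem_span_singleton_self _))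
    obtain ⟨a, ha⟩ := Submodule.mem_span_singleton.mp hmem
    exact ⟨a, ha.symm⟩
  have hr0 : 0 < r₁ := hz1.trans hz2
  -- the extension
  set P : ℂ → EN N := Function.update H 0 (limUnder (𝓝[≠] 0) H) with hP
  have hPd : DifferentiableOn ℂ P (ball 0 r₁) := by
    refine Complex.differentiableOn_update_limUnder_of_bddAbove (ball_mem_nhds 0 hr0) hHd ?_
    refine ⟨A, ?_⟩
    rintro _ ⟨z, hz, rfl⟩
    exact hHb z hz
  have hPH : ∀ z : ℂ, z ≠ 0 → P z = H z := fun z hz => Function.update_of_ne hz _ _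
  have hPa : AnalyticOnNhd ℂ P (ball 0 r₁) := hPd.analyticOnNhd isOpen_ball
  have hP0 : ¬ ∀ᶠ z in 𝓝 (0 : ℂ), P z = 0 := by
    intro hev
    have h1 := hPa.eqOn_zero_of_preconnected_of_eventuallyEq_zero (convex_ball (0 : ℂ) r₁).isPreconnected
      (mem_ball_self hr0) hev
    have h2 : P z₁ = 0 := h1 (by simpa using hz2)
    rw [hPH z₁ hz10] at h2
    rw [h2, norm_zero] at hHc
    linarith
  obtain ⟨k, Q, hQa, hQ0, hQ⟩ := (hPa 0 (mem_ball_self hr0)).exists_eventuallyEq_pow_smul_nonzero_iff.mpr hP0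
  refine ⟨Q, hQa, hQ0, ?_⟩
  have hQne : ∀ᶠ z in 𝓝 (0 : ℂ), Q z ≠ 0 := hQa.continuousAt.eventually_ne hQ0
  rw [eventually_nhdsWithin_iff]
  filter_upwards [hQ, hQne, ball_mem_nhds (0 : ℂ) hr0] with z hz1 hz2 hz3 hz4
  have hz0 : z ≠ 0 := hz4
  obtain ⟨a, ha⟩ := hHs z ⟨hz3, hz4⟩
  rw [hPH z hz0, sub_zero] at hz1
  have hzk : z ^ k ≠ 0 := pow_ne_zero _ hz0
  have he : Q z = ((z ^ k)⁻¹ * a) • F z := by
    rw [mul_smul, ← ha, hz1, smul_smul, inv_mul_cancel₀ hzk, one_smul]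
  refine ⟨(z ^ k)⁻¹ * a, ?_, he⟩
  intro h0
  rw [h0, zero_smul] at he
  exact hz2 he

end Pool.Agent.H36.BP

end

section

/-!
# BPL Aff: open parts which are proper over an affine variety

`AffProper X K Φ`: the functions `Φ : K → ℂ^M` (of degree `0`) are holomorphic along curves and tend to infinity at the points of `X \ K`.
-/

set_option autoImplicit false

namespace Pool.Agent.H36.BPL

open Filter Topology Metric
open Pool.Agent.H36.BP (EN Curve)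

/-- `Φ` is a proper map on the open part `K` of the closed cone `X` -/
structure AffProper {V : Type} [NormedAddCommGroup V] [NormedSpace ℂ V] {M : ℕ} (X K : Set V) (Φ : V → Fin M → ℂ) : Prop where
  smul : ∀ x ∈ K, ∀ c : ℂ, c ≠ 0 → Φ (c • x) = Φ x
  cont : ContinuousOn Φ K
  hol : ∀ (F : ℂ → V) (z₀ : ℂ), AnalyticAt ℂ F z₀ → (∀ᶠ z in 𝓝 z₀, F z ∈ K) → AnalyticAt ℂ (fun z => Φ (F z)) z₀
  proper : ∀ x ∈ X, x ∉ K → ∀ R : ℝ, ∀ᶠ y in 𝓝 x, y ∈ K → R < ‖Φ y‖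
  iso : ∀ (F : ℂ → V) (z₀ : ℂ), AnalyticAt ℂ F z₀ → (∀ᶠ z in 𝓝 z₀, F z ∈ X) → (∀ᶠ z in 𝓝 z₀, F z ∉ K) ∨ ∀ᶠ z in 𝓝[≠] z₀, F z ∈ K

variable {N : ℕ}

theorem hur_of_affProper {X K : Set (EN N)} {M : ℕ} {Φ : EN N → Fin M → ℂ} (hX : ∀ x ∈ closure K, x ≠ 0 → x ∈ X)
    (hsm : ∀ x ∈ K, ∀ c : ℂ, c ≠ 0 → c • x ∈ K) (h : AffProper X K Φ) :
    ∀ (l : Filter ℕ), l.NeBot → ∀ (F : ℕ → ℂ → EN N) (H : ℂ → EN N) (k : ℕ) (z₀ : ℂ) (s : ℝ), 0 < s →
    (∀ᶠ n in l, Curve K (Metric.ball z₀ s) (F n)) → DifferentiableOn ℂ H (Metric.ball z₀ s) →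
    TendstoLocallyUniformlyOn F (fun z => (z - z₀) ^ k • H z) l (Metric.ball z₀ s) → H z₀ ≠ 0 → H z₀ ∉ K → ∀ᶠ z in 𝓝 z₀, H z ∉ K := by
  intro l hl F H k z₀ s hs hF hH hlim h0 hK
  have hHa : AnalyticAt ℂ H z₀ := hH.analyticAt (isOpen_ball.mem_nhds (mem_ball_self hs))
  have hsmK : ∀ (x : EN N) (c : ℂ), c ≠ 0 → (c • x ∈ K ↔ x ∈ K) := by
    intro x c hc
    constructor
    · intro h1
      have h2 := hsm _ h1 c⁻¹ (inv_ne_zero hc)
      rwa [smul_smul, inv_mul_cancel₀ hc, one_smul] at h2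
    · intro h1
      exact hsm _ h1 c hc
  -- near `z₀` the curve `H` is in `X`
  have hcl : ∀ z ∈ ball z₀ s, z ≠ z₀ → (z - z₀) ^ k • H z ∈ closure K := by
    intro z hz _
    have h1 : Tendsto (fun n => F n z) l (𝓝 ((z - z₀) ^ k • H z)) := hlim.tendsto_at hz
    refine mem_closure_of_tendsto h1 ?_
    filter_upwards [hF] with n hn
    exact hn.2 z hz
  have hne : ∀ᶠ z in 𝓝 z₀, H z ≠ 0 := hHa.continuousAt.eventually_ne h0
  have hclK : ∀ (x : EN N) (c : ℂ), c ≠ 0 → c • x ∈ closure K → x ∈ closure K := by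
    intro x c hc hx
    have h1 : Continuous (fun y : EN N => c⁻¹ • y) := continuous_const_smul _
    have h2 := map_mem_closure h1 hx (fun y hy => hsm y hy c⁻¹ (inv_ne_zero hc))
    simpa [smul_smul, inv_mul_cancel₀ hc] using h2
  have hclH : ∀ᶠ z in 𝓝 z₀, H z ∈ closure K := by
    have h1 : ∀ᶠ z in 𝓝[≠] z₀, H z ∈ closure K := by
      rw [eventually_nhdsWithin_iff]
      filter_upwards [isOpen_ball.mem_nhds (mem_ball_self hs)] with z hz hzne
      exact hclK _ _ (pow_ne_zero k (sub_ne_zero.mpr hzne)) (hcl z hz hzne)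
    have h2 : H z₀ ∈ closure K := by
      have h3 : Tendsto H (𝓝[≠] z₀) (𝓝 (H z₀)) := hHa.continuousAt.tendsto.mono_left nhdsWithin_le_nhds
      exact isClosed_closure.mem_of_tendsto h3 h1
    have h4 := eventually_nhdsWithin_iff.mp h1
    filter_upwards [h4] with z hz
    by_cases hz0 : z = z₀
    · rw [hz0]; exact h2
    · exact hz hz0
  have hHX : ∀ᶠ z in 𝓝 z₀, H z ∈ X := by
    filter_upwards [hclH, hne] with z h1 h2
    exact hX _ h1 h2
  rcases h.iso H z₀ hHa hHX with h1 | h1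
  · exact h1
  exfalso
  -- a small closed disc
  have hball : ∀ᶠ z in 𝓝 z₀, z ∈ ball z₀ s := isOpen_ball.mem_nhds (mem_ball_self hs)
  obtain ⟨r₀, hr₀, hr₀K⟩ := Metric.eventually_nhds_iff_ball.mp ((eventually_nhdsWithin_iff.mp h1).and hball)
  set r : ℝ := r₀ / 2 with hr
  have hr0 : 0 < r := by rw [hr]; positivity
  have hrlt : r < r₀ := by rw [hr]; linarith
  have hcb : closedBall z₀ r ⊆ ball z₀ r₀ := closedBall_subset_ball hrlt
  have hKr : ∀ z ∈ closedBall z₀ r, z ≠ z₀ → H z ∈ K := fun z hz hne => (hr₀K z (hcb hz)).1 hne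
  have hsr : closedBall z₀ r ⊆ ball z₀ s := fun z hz => (hr₀K z (hcb hz)).2
  -- a uniform bound on the circle
  have hpt : ∀ w ∈ sphere z₀ r, ∃ t ∈ 𝓝 w, ∃ C : ℝ, ∀ᶠ n in l, ∀ z ∈ t, ‖Φ (F n z)‖ ≤ C := by
    intro w hw
    have hwcb : w ∈ closedBall z₀ r := sphere_subset_closedBall hw
    have hwne : w ≠ z₀ := by
      rintro rfl
      rw [mem_sphere, dist_self] at hw
      linarith
    have hws : w ∈ ball z₀ s := hsr hwcb
    have hxK : (w - z₀) ^ k • H w ∈ K := hsm _ (hKr w hwcb hwne) _ (pow_ne_zero k (sub_ne_zero.mpr hwne))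
    have hc : ∀ᶠ y in 𝓝 ((w - z₀) ^ k • H w), y ∈ K → ‖Φ y‖ < ‖Φ ((w - z₀) ^ k • H w)‖ + 1 := by
      have h2 := (h.cont _ hxK).norm.eventually_lt_const (show ‖Φ ((w - z₀) ^ k • H w)‖ < ‖Φ ((w - z₀) ^ k • H w)‖ + 1 by linarith)
      exact eventually_nhdsWithin_iff.mp h2
    obtain ⟨δ, hδ, hδc⟩ := Metric.eventually_nhds_iff.mp hc
    have hGc : ContinuousAt (fun z => (z - z₀) ^ k • H z) w :=
      (((continuous_id.sub continuous_const).pow k).continuousAt).smul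
        ((hH.differentiableAt (isOpen_ball.mem_nhds hws)).continuousAt)
    have hG : ∀ᶠ z in 𝓝 w, dist ((z - z₀) ^ k • H z) ((w - z₀) ^ k • H w) < δ / 2 :=
      Metric.tendsto_nhds.mp hGc (δ / 2) (by positivity)
    obtain ⟨t, ht, htn⟩ := (Metric.tendstoLocallyUniformlyOn_iff.mp hlim) (δ / 2) (by positivity) w hws
    rw [isOpen_ball.nhdsWithin_eq hws] at ht
    refine ⟨t ∩ ({z | dist ((z - z₀) ^ k • H z) ((w - z₀) ^ k • H w) < δ / 2} ∩ ball z₀ s),
      inter_mem ht (inter_mem hG (isOpen_ball.mem_nhds hws)), ‖Φ ((w - z₀) ^ k • H w)‖ + 1, ?_⟩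
    filter_upwards [htn, hF] with n hn1 hn2
    rintro z ⟨hz1, hz2, hz3⟩
    have h3 : dist (F n z) ((w - z₀) ^ k • H w) < δ := by
      have h4 := hn1 z hz1
      rw [dist_comm] at h4
      have h5 : dist ((z - z₀) ^ k • H z) ((w - z₀) ^ k • H w) < δ / 2 := hz2
      calc dist (F n z) ((w - z₀) ^ k • H w) ≤ dist (F n z) ((z - z₀) ^ k • H z) + dist ((z - z₀) ^ k • H z) ((w - z₀) ^ k • H w) :=
            dist_triangle _ _ _
        _ < δ := by linarith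
    exact (hδc h3 (hn2.2 z hz3)).le
  obtain ⟨C, hC⟩ : ∃ C : ℝ, ∀ᶠ n in l, ∀ z ∈ sphere z₀ r, ‖Φ (F n z)‖ ≤ C := by
    refine (isCompact_sphere z₀ r).induction_on (p := fun S => ∃ C : ℝ, ∀ᶠ n in l, ∀ z ∈ S, ‖Φ (F n z)‖ ≤ C) ?_ ?_ ?_ ?_
    · exact ⟨0, Filter.Eventually.of_forall fun n z hz => absurd hz (Set.notMem_empty z)⟩
    · rintro S T hST ⟨C, hC⟩
      exact ⟨C, hC.mono fun n hn z hz => hn z (hST hz)⟩
    · rintro S T ⟨C, hC⟩ ⟨C', hC'⟩
      refine ⟨max C C', ?_⟩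
      filter_upwards [hC, hC'] with n h1 h2
      rintro z (hz | hz)
      · exact (h1 z hz).trans (le_max_left _ _)
      · exact (h2 z hz).trans (le_max_right _ _)
    · intro w hw
      obtain ⟨t, ht, C, hC⟩ := hpt w hw
      exact ⟨t, mem_nhdsWithin_of_mem_nhds ht, C, hC⟩
  -- the bound inside
  have hin : ∀ᶠ n in l, ∀ z ∈ ball z₀ r, ‖Φ (F n z)‖ ≤ C := by
    filter_upwards [hC, hF] with n h1 h2
    intro z hz
    have hd : DifferentiableOn ℂ (fun z => Φ (F n z)) (ball z₀ s) := by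
      intro w hw
      have hFa : AnalyticAt ℂ (F n) w := h2.1.analyticAt (isOpen_ball.mem_nhds hw)
      have hFK : ∀ᶠ z in 𝓝 w, F n z ∈ K := by
        filter_upwards [isOpen_ball.mem_nhds hw] with z hz
        exact h2.2 z hz
      exact (h.hol _ w hFa hFK).differentiableAt.differentiableWithinAt
    have hdc : DiffContOnCl ℂ (fun z => Φ (F n z)) (ball z₀ r) := by
      refine DifferentiableOn.diffContOnCl ?_
      rw [closure_ball z₀ hr0.ne']
      exact hd.mono hsr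
    refine Complex.norm_le_of_forall_mem_frontier_norm_le isBounded_ball hdc (fun w hw => ?_) (subset_closure hz)
    rw [frontier_ball z₀ hr0.ne'] at hw
    exact h1 w hw
  -- the bound for the limit
  have hlimC : ∀ z ∈ ball z₀ r, z ≠ z₀ → ‖Φ (H z)‖ ≤ C := by
    intro z hz hzne
    have hzs : z ∈ ball z₀ s := hsr (ball_subset_closedBall hz)
    have hzK : H z ∈ K := hKr z (ball_subset_closedBall hz) hzne
    have hcne : (z - z₀) ^ k ≠ 0 := pow_ne_zero k (sub_ne_zero.mpr hzne)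
    have hxK : (z - z₀) ^ k • H z ∈ K := hsm _ hzK _ hcne
    have h2 : Tendsto (fun n => F n z) l (𝓝[K] ((z - z₀) ^ k • H z)) := by
      refine tendsto_nhdsWithin_iff.mpr ⟨hlim.tendsto_at hzs, ?_⟩
      filter_upwards [hF] with n hn
      exact hn.2 z hzs
    have h3 : Tendsto (fun n => ‖Φ (F n z)‖) l (𝓝 ‖Φ ((z - z₀) ^ k • H z)‖) := ((h.cont _ hxK).tendsto.comp h2).norm
    rw [h.smul _ hzK _ hcne] at h3
    refine le_of_tendsto h3 ?_
    filter_upwards [hin] with n hn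
    exact hn z hz
  have hprop := h.proper (H z₀) (hHX.self_of_nhds) hK C
  have h4 : ∀ᶠ z in 𝓝[≠] z₀, H z ∈ K → C < ‖Φ (H z)‖ := (hHa.continuousAt.eventually hprop).filter_mono nhdsWithin_le_nhds
  have h5 : ∀ᶠ z in 𝓝[≠] z₀, z ∈ ball z₀ r := (show ∀ᶠ z in 𝓝 z₀, z ∈ ball z₀ r from ball_mem_nhds z₀ hr0).filter_mono nhdsWithin_le_nhds
  obtain ⟨z, hz1, hz2, hz3, hz4⟩ := ((h4.and (h1.and h5)).and self_mem_nhdsWithin).exists.imp fun z hz => (⟨hz.1.1, hz.1.2.1, hz.1.2.2, hz.2⟩ : (H z ∈ K → C < ‖Φ (H z)‖) ∧ H z ∈ K ∧ z ∈ ball z₀ r ∧ z ∈ ({z₀} : Set ℂ)ᶜ)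
  have h6 := hz1 hz2
  have h7 := hlimC z hz3 hz4
  linarith

end Pool.Agent.H36.BPL

end

section

/-!
# HE Bound: the main theorem on discs

Adapted from `PX/Bound`.
-/

set_option autoImplicit false

open Topology Filter Metric

namespace Pool.Agent.HE

open Pool.Agent.H36.BP (EN fs wd)
open Pool.Agent.AD (Vd)

variable {N k q r : ℕ} {Λ : AddSubgroup (Vd (k + 1))} {D : Set (Vd (k + 1))} {X : Set (Vd (k + 1) × EN N)} {F : Fin q → Vd (k + 1) × EN N → ℂ} {d : Fin q → ℕ}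
  {W : Fin q → Fin r → Vd (k + 1) →L[ℂ] ℂ}

/-- Brody's choice of the point. -/
theorem brody_pt {f : ℂ → Vd (k + 1)} (hf : DifferentiableOn ℂ f (ball 0 1)) (h0 : 0 < ‖f 0‖) :
    ∃ z₀ : ℂ, ‖z₀‖ < 1 / 2 ∧ 0 < (1 / 2 - ‖z₀‖) / 2 ∧ (∀ z ∈ ball z₀ ((1 / 2 - ‖z₀‖) / 2), ‖f z‖ ≤ 2 * ‖f z₀‖) ∧
      ‖f 0‖ / 4 ≤ (1 / 2 - ‖z₀‖) / 2 * ‖f z₀‖ := by
  have hcont : ContinuousOn (fun z : ℂ => (1 / 2 - ‖z‖) * ‖f z‖) (closedBall 0 (1 / 2)) := by
    have h1 : ContinuousOn f (closedBall 0 (1 / 2)) := hf.continuousOn.mono (closedBall_subset_ball (by norm_num))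
    exact (continuous_const.sub continuous_norm).continuousOn.mul h1.norm
  obtain ⟨z₀, hz₀, hmax⟩ := (isCompact_closedBall (0 : ℂ) (1 / 2)).exists_isMaxOn ⟨0, by simp⟩ hcont
  have h1 : (1 / 2 : ℝ) * ‖f 0‖ ≤ (1 / 2 - ‖z₀‖) * ‖f z₀‖ := by
    have := hmax (a := 0) (by simp)
    simpa using this
  have h2 : 0 < (1 / 2 - ‖z₀‖) * ‖f z₀‖ := lt_of_lt_of_le (by positivity) h1
  have h3 : 0 < 1 / 2 - ‖z₀‖ := by
    by_contra h
    push Not at h
    have := mul_nonpos_of_nonpos_of_nonneg h (norm_nonneg (f z₀))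
    linarith
  refine ⟨z₀, by linarith, by linarith, fun z hz => ?_, by linarith⟩
  rw [mem_ball_iff_norm] at hz
  have h4 : ‖z‖ ≤ ‖z - z₀‖ + ‖z₀‖ := by
    simpa using norm_add_le (z - z₀) z₀
  have h5 : (1 / 2 - ‖z₀‖) / 2 ≤ 1 / 2 - ‖z‖ := by linarith
  have h6 : (1 / 2 - ‖z‖) * ‖f z‖ ≤ (1 / 2 - ‖z₀‖) * ‖f z₀‖ := hmax (a := z) (by
    rw [mem_closedBall_zero_iff]
    linarith)
  have h7 : (1 / 2 - ‖z₀‖) / 2 * ‖f z‖ ≤ (1 / 2 - ‖z₀‖) * ‖f z₀‖ := (mul_le_mul_of_nonneg_right h5 (norm_nonneg _)).trans h6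
  have h8 : (1 / 2 - ‖z₀‖) * ‖f z‖ ≤ (1 / 2 - ‖z₀‖) * (2 * ‖f z₀‖) := by linarith
  exact le_of_mul_le_mul_left h8 h3

end Pool.Agent.HE

end

section

/-!
# PX RSq: the squarefree part of a polynomial with holomorphic coefficients

The germs of the meromorphic functions at `0` (with respect to an ultrafilter on the punctured neighbourhoods of `0`) are a field of
characteristic `0`.  Over this field let `Q` be the radical of the polynomial: `P = Q S`, `Q ^ N = P T`, `A Q + B Q' = 1`.  These identities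
hold at all points of a punctured disc (a meromorphic function whose germ is `0` vanishes near `0`).  The roots of `Q` are roots of `P`,
so the coefficients of `Q` are bounded near `0` and extend.
-/

set_option autoImplicit false

open Topology Filter Metric

namespace Pool.Agent.PX

variable {k d r : ℕ}

/-! ### The field of meromorphic germs -/

section germs

open Polynomial

/-- the ring of the functions which are meromorphic at `0` -/
private noncomputable def RSq_MF : Subring (ℂ → ℂ) where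
  carrier := {f | MeromorphicAt f 0}
  mul_mem' := fun ha hb => MeromorphicAt.mul ha hb
  one_mem' := MeromorphicAt.const (1 : ℂ) 0
  add_mem' := fun ha hb => MeromorphicAt.add ha hb
  zero_mem' := MeromorphicAt.const (0 : ℂ) 0
  neg_mem' := fun ha => MeromorphicAt.neg ha

variable (𝒰 : Ultrafilter ℂ)

/-- the germs of the meromorphic functions with respect to an ultrafilter -/
private noncomputable def RSq_F : Subfield (Germ (𝒰 : Filter ℂ) ℂ) where
  carrier := {x | ∃ f : ℂ → ℂ, MeromorphicAt f 0 ∧ (f : Germ (𝒰 : Filter ℂ) ℂ) = x}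
  mul_mem' := by
    rintro _ _ ⟨f, hf, rfl⟩ ⟨g, hg, rfl⟩
    exact ⟨f * g, hf.mul hg, rfl⟩
  one_mem' := ⟨1, MeromorphicAt.const (1 : ℂ) 0, rfl⟩
  add_mem' := by
    rintro _ _ ⟨f, hf, rfl⟩ ⟨g, hg, rfl⟩
    exact ⟨f + g, hf.add hg, rfl⟩
  zero_mem' := ⟨0, MeromorphicAt.const (0 : ℂ) 0, rfl⟩
  neg_mem' := by
    rintro _ ⟨f, hf, rfl⟩
    exact ⟨-f, hf.neg, rfl⟩
  inv_mem' := by
    rintro _ ⟨f, hf, rfl⟩
    exact ⟨f⁻¹, hf.inv, rfl⟩

/-- the germ of a function -/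
private noncomputable def RSq_φ : RSq_MF →+* RSq_F 𝒰 where
  toFun f := ⟨((f : ℂ → ℂ) : Germ (𝒰 : Filter ℂ) ℂ), (f : ℂ → ℂ), f.2, rfl⟩
  map_one' := rfl
  map_mul' _ _ := rfl
  map_zero' := rfl
  map_add' _ _ := rfl

private theorem RSq_φ_surj : Function.Surjective (RSq_φ 𝒰) := by
  rintro ⟨_, f, hf, rfl⟩
  exact ⟨⟨f, hf⟩, rfl⟩

/-- the value of a function -/
private noncomputable def RSq_ev (z : ℂ) : RSq_MF →+* ℂ := (Pi.evalRingHom (fun _ : ℂ => ℂ) z).comp RSq_MF.subtype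

private theorem RSq_zero (h𝒰 : (𝒰 : Filter ℂ) ≤ 𝓝[≠] 0) {f : RSq_MF} (hf : RSq_φ 𝒰 f = 0) :
    ∀ᶠ z in 𝓝[≠] (0 : ℂ), RSq_ev z f = 0 := by
  have h1 : ∀ᶠ z in (𝒰 : Filter ℂ), (f : ℂ → ℂ) z = 0 := by
    have h2 : (((f : ℂ → ℂ) : Germ (𝒰 : Filter ℂ) ℂ)) = ((fun _ => (0 : ℂ)) : ℂ → ℂ) :=
      congrArg Subtype.val hf
    exact Germ.coe_eq.1 h2
  rcases f.2.eventually_eq_zero_or_eventually_ne_zero with h3 | h3
  · exact h3
  · exfalso
    obtain ⟨z, hz1, hz2⟩ := (h1.and (h𝒰 h3)).exists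
    exact hz2 hz1

private theorem RSq_pzero (h𝒰 : (𝒰 : Filter ℂ) ≤ 𝓝[≠] 0) {A : RSq_MF[X]} (hA : A.map (RSq_φ 𝒰) = 0) :
    ∀ᶠ z in 𝓝[≠] (0 : ℂ), A.map (RSq_ev z) = 0 := by
  have h1 : ∀ i ∈ Finset.range (A.natDegree + 1), ∀ᶠ z in 𝓝[≠] (0 : ℂ), RSq_ev z (A.coeff i) = 0 := by
    intro i _
    refine RSq_zero 𝒰 h𝒰 ?_
    rw [← coeff_map, hA, coeff_zero]
  rw [← Finset.eventually_all] at h1
  filter_upwards [h1] with z hz
  ext i
  rw [coeff_map, coeff_zero]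
  rcases Nat.lt_or_ge i (A.natDegree + 1) with hi | hi
  · exact hz i (Finset.mem_range.2 hi)
  · rw [coeff_eq_zero_of_natDegree_lt (by omega), map_zero]

private theorem RSq_peq (h𝒰 : (𝒰 : Filter ℂ) ≤ 𝓝[≠] 0) {A B : RSq_MF[X]} (hA : A.map (RSq_φ 𝒰) = B.map (RSq_φ 𝒰)) :
    ∀ᶠ z in 𝓝[≠] (0 : ℂ), A.map (RSq_ev z) = B.map (RSq_ev z) := by
  have h1 := RSq_pzero 𝒰 h𝒰 (A := A - B) (by rw [Polynomial.map_sub, hA, sub_self])
  filter_upwards [h1] with z hz
  rwa [Polynomial.map_sub, sub_eq_zero] at hz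

/-- the algebraic part -/
private theorem RSq_alg (P : RSq_MF[X]) (hP : P.Monic) :
    ∃ Q S T A B : RSq_MF[X], ∃ N : ℕ, Q.Monic ∧ ∀ᶠ z in 𝓝[≠] (0 : ℂ),
      P.map (RSq_ev z) = Q.map (RSq_ev z) * S.map (RSq_ev z) ∧
      Q.map (RSq_ev z) ^ N = P.map (RSq_ev z) * T.map (RSq_ev z) ∧
      A.map (RSq_ev z) * Q.map (RSq_ev z) + B.map (RSq_ev z) * derivative (Q.map (RSq_ev z)) = 1 := by
  classical
  obtain ⟨𝒰, h𝒰⟩ : ∃ 𝒰 : Ultrafilter ℂ, (𝒰 : Filter ℂ) ≤ 𝓝[≠] 0 :=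
    ⟨Ultrafilter.of (𝓝[≠] 0), Ultrafilter.of_le _⟩
  have : CharZero (RSq_F 𝒰) := by
    refine charZero_of_inj_zero fun n hn => ?_
    have h1 : RSq_φ 𝒰 (n : RSq_MF) = 0 := by rw [map_natCast]; exact hn
    obtain ⟨z, hz⟩ := (RSq_zero 𝒰 h𝒰 h1).exists
    rw [map_natCast] at hz
    exact_mod_cast hz
  set P' : (RSq_F 𝒰)[X] := P.map (RSq_φ 𝒰) with hP'
  have hP'm : P'.Monic := hP.map _
  set Q' : (RSq_F 𝒰)[X] := UniqueFactorizationMonoid.radical P' with hQ'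
  have hQm : Q'.Monic := by
    rw [hQ', UniqueFactorizationMonoid.radical]
    refine monic_prod_of_monic _ _ fun q hq => ?_
    have h1 := UniqueFactorizationMonoid.mem_primeFactors.1 hq
    have h2 := UniqueFactorizationMonoid.normalize_normalized_factor q h1
    have h3 : q ≠ 0 := (UniqueFactorizationMonoid.irreducible_of_normalized_factor q h1).ne_zero
    have h4 := monic_normalize h3
    rwa [h2] at h4
  obtain ⟨S', hS'⟩ : Q' ∣ P' := UniqueFactorizationMonoid.radical_dvd_self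
  obtain ⟨N, T', hT'⟩ := UniqueFactorizationMonoid.exists_dvd_radical_self_pow hP'm.ne_zero
  have hsep : Q'.Separable := by
    rw [PerfectField.separable_iff_squarefree]
    exact UniqueFactorizationMonoid.squarefree_radical
  obtain ⟨A', B', hAB⟩ := hsep
  have hsurj := Polynomial.map_surjective (RSq_φ 𝒰) (RSq_φ_surj 𝒰)
  obtain ⟨Q, hQ, -, hQmon⟩ := lifts_and_natDegree_eq_and_monic (f := RSq_φ 𝒰) (p := Q')
    ((mem_lifts _).2 (hsurj Q')) hQm
  obtain ⟨S, hS⟩ := hsurj S'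
  obtain ⟨T, hT⟩ := hsurj T'
  obtain ⟨A, hA⟩ := hsurj A'
  obtain ⟨B, hB⟩ := hsurj B'
  refine ⟨Q, S, T, A, B, N, hQmon, ?_⟩
  have e1 := RSq_peq 𝒰 h𝒰 (A := P) (B := Q * S) (by rw [Polynomial.map_mul, hQ, hS, ← hS'])
  have e2 := RSq_peq 𝒰 h𝒰 (A := Q ^ N) (B := P * T) (by
    rw [Polynomial.map_pow, Polynomial.map_mul, hQ, hT, ← hP', ← hT'])
  have e3 := RSq_peq 𝒰 h𝒰 (A := A * Q + B * derivative Q) (B := 1) (by
    rw [Polynomial.map_add, Polynomial.map_mul, Polynomial.map_mul, ← derivative_map, hQ, hA, hB,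
      Polynomial.map_one, hAB])
  filter_upwards [e1, e2, e3] with z h1 h2 h3
  refine ⟨by rw [h1, Polynomial.map_mul], by rw [← Polynomial.map_pow, h2, Polynomial.map_mul], ?_⟩
  rw [Polynomial.map_add, Polynomial.map_mul, Polynomial.map_mul, ← derivative_map,
    Polynomial.map_one] at h3
  exact h3

end germs

/-- a bound for the roots -/
private theorem RSq_root {m : ℕ} {c : Fin m → ℂ → ℂ} {z : ℂ} {C : ℝ} (hC : ∀ i, ‖c i z‖ ≤ C) (hC0 : 0 ≤ C) {t : ℂ}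
    (ht : Pt c z t = 0) : ‖t‖ ≤ 1 + m * C := by
  by_contra hcon
  push Not at hcon
  have hm : 0 ≤ (m : ℝ) * C := by positivity
  have h1 : 1 < ‖t‖ := by linarith
  have h2 : ‖t‖ ^ m ≤ m * C * ‖t‖ ^ (m - 1) := by
    have h3 : t ^ m = -∑ i : Fin m, c i z * t ^ (i : ℕ) := by
      unfold Pt at ht
      linear_combination ht
    calc ‖t‖ ^ m = ‖∑ i : Fin m, c i z * t ^ (i : ℕ)‖ := by rw [← norm_pow, h3, norm_neg]
      _ ≤ ∑ i : Fin m, ‖c i z * t ^ (i : ℕ)‖ := norm_sum_le _ _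
      _ ≤ ∑ _i : Fin m, C * ‖t‖ ^ (m - 1) := by
          refine Finset.sum_le_sum fun i _ => ?_
          rw [norm_mul, norm_pow]
          exact mul_le_mul (hC i) (pow_le_pow_right₀ h1.le (by omega)) (by positivity) hC0
      _ = m * C * ‖t‖ ^ (m - 1) := by
          rw [Finset.sum_const, Finset.card_univ, Fintype.card_fin, nsmul_eq_mul]
          ring
  rcases Nat.eq_zero_or_pos m with h0 | h0
  · subst h0
    norm_num at h2
  · have h4 : ‖t‖ ^ m = ‖t‖ * ‖t‖ ^ (m - 1) := by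
      rw [← pow_succ']
      congr 1
      omega
    rw [h4] at h2
    have h5 : 0 < ‖t‖ ^ (m - 1) := by positivity
    have h6 := le_of_mul_le_mul_right h2 h5
    linarith

theorem sqfree {m : ℕ} {c : Fin m → ℂ → ℂ} {R : ℝ} (hR : 0 < R) (hc : ∀ i, DifferentiableOn ℂ (c i) (ball 0 R)) : ∃ ρ : ℝ, 0 < ρ ∧ ρ ≤ R ∧ ∃ (m' : ℕ) (c' : Fin m' → ℂ → ℂ),
    (∀ i, DifferentiableOn ℂ (c' i) (ball 0 ρ)) ∧ (∀ z ∈ ball (0 : ℂ) ρ, z ≠ 0 → ∀ t, (Pt c' z t = 0 ↔ Pt c z t = 0)) ∧ ∀ z ∈ ball (0 : ℂ) ρ, z ≠ 0 → ∀ t, Pt c' z t = 0 → deriv (Pt c' z) t ≠ 0 := by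
  classical
  have hball : ball (0 : ℂ) R ∈ 𝓝 (0 : ℂ) := ball_mem_nhds _ hR
  have hcm : ∀ i, MeromorphicAt (c i) 0 := fun i => ((hc i).analyticAt hball).meromorphicAt
  -- the polynomial over the ring of meromorphic functions
  set P : Polynomial RSq_MF := Polynomial.X ^ m + ∑ i : Fin m, Polynomial.C ⟨c i, hcm i⟩ * Polynomial.X ^ (i : ℕ)
    with hPdef
  have hdeg : (∑ i : Fin m, Polynomial.C (⟨c i, hcm i⟩ : RSq_MF) * Polynomial.X ^ (i : ℕ)).degree < (m : WithBot ℕ) :=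
    Polynomial.degree_sum_fin_lt fun i => (⟨c i, hcm i⟩ : RSq_MF)
  have hPm : P.Monic := Polynomial.monic_X_pow_add hdeg
  have hPev : ∀ z t, (P.map (RSq_ev z)).eval t = Pt c z t := by
    intro z t
    rw [hPdef, Polynomial.map_add, Polynomial.map_pow, Polynomial.map_X, Polynomial.map_sum, Polynomial.eval_add,
      Polynomial.eval_pow, Polynomial.eval_X, Polynomial.eval_finsetSum]
    unfold Pt
    congr 1
    refine Finset.sum_congr rfl fun i _ => ?_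
    rw [Polynomial.map_mul, Polynomial.map_C, Polynomial.map_pow, Polynomial.map_X, Polynomial.eval_mul, Polynomial.eval_C,
      Polynomial.eval_pow, Polynomial.eval_X]
    rfl
  obtain ⟨Q, S, T, A, B, N, hQm, hev⟩ := RSq_alg P hPm
  -- the coefficients of `Q`
  have hq : ∀ i, ∀ᶠ z in 𝓝[≠] (0 : ℂ), AnalyticAt ℂ ((Q.coeff i : RSq_MF) : ℂ → ℂ) z :=
    fun i => (Q.coeff i).2.eventually_analyticAt
  have hq' : ∀ᶠ z in 𝓝[≠] (0 : ℂ), ∀ i ∈ Finset.range Q.natDegree,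
      AnalyticAt ℂ ((Q.coeff i : RSq_MF) : ℂ → ℂ) z := by
    rw [Finset.eventually_all]
    exact fun i _ => hq i
  -- a bound for the coefficients of `P`
  obtain ⟨C, hC0, hC⟩ : ∃ C : ℝ, 0 ≤ C ∧ ∀ᶠ z in 𝓝[≠] (0 : ℂ), ∀ i, ‖c i z‖ ≤ C := by
    refine ⟨∑ i, (‖c i 0‖ + 1), Finset.sum_nonneg fun i _ => by positivity, ?_⟩
    rw [eventually_all]
    intro i
    have h1 : ContinuousAt (fun z => ‖c i z‖) 0 := ((hc i).differentiableAt hball).continuousAt.norm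
    have h2 : ∀ᶠ z in 𝓝 (0 : ℂ), ‖c i z‖ < ‖c i 0‖ + 1 := h1.eventually_lt_const (by linarith)
    filter_upwards [h2.filter_mono nhdsWithin_le_nhds] with z hz
    refine hz.le.trans ?_
    exact Finset.single_le_sum (f := fun i => ‖c i 0‖ + 1) (fun i _ => by positivity) (Finset.mem_univ i)
  -- a punctured disc
  obtain ⟨ρ', hρ', hall⟩ := Metric.eventually_nhds_iff_ball.1 (eventually_nhdsWithin_iff.1 ((hev.and hq').and hC))
  obtain ⟨ρ, hρ, hρR, hρρ⟩ : ∃ ρ : ℝ, 0 < ρ ∧ ρ ≤ R ∧ ρ ≤ ρ' := ⟨min R ρ', lt_min hR hρ', min_le_left _ _, min_le_right _ _⟩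
  have hz : ∀ z ∈ ball (0 : ℂ) ρ, z ≠ 0 →
      (((P.map (RSq_ev z) = Q.map (RSq_ev z) * S.map (RSq_ev z) ∧
      Q.map (RSq_ev z) ^ N = P.map (RSq_ev z) * T.map (RSq_ev z) ∧
      A.map (RSq_ev z) * Q.map (RSq_ev z) + B.map (RSq_ev z) * Polynomial.derivative (Q.map (RSq_ev z)) = 1) ∧
      ∀ i ∈ Finset.range Q.natDegree, AnalyticAt ℂ ((Q.coeff i : RSq_MF) : ℂ → ℂ) z) ∧ ∀ i, ‖c i z‖ ≤ C) :=
    fun z hz h0 => hall z (ball_subset_ball hρρ hz) h0
  have hroots : ∀ z ∈ ball (0 : ℂ) ρ, z ≠ 0 → ∀ t, ((Q.map (RSq_ev z)).eval t = 0 ↔ Pt c z t = 0) := by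
    intro z hzb h0 t
    obtain ⟨⟨⟨h1, h2, h3⟩, h4⟩, h5⟩ := hz z hzb h0
    rw [← hPev]
    constructor
    · intro h
      rw [h1, Polynomial.eval_mul, h, zero_mul]
    · intro h
      have h6 : (Q.map (RSq_ev z) ^ N).eval t = 0 := by rw [h2, Polynomial.eval_mul, h, zero_mul]
      rw [Polynomial.eval_pow] at h6
      by_contra h7
      exact pow_ne_zero N h7 h6
  -- the coefficients are bounded
  have hbd : ∀ i ∈ Finset.range Q.natDegree, ∀ z ∈ ball (0 : ℂ) ρ, z ≠ 0 →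
      ‖((Q.coeff i : RSq_MF) : ℂ → ℂ) z‖ ≤ (1 + m * C) ^ (Q.natDegree - i) * Q.natDegree.choose i := by
    intro i _ z hzb h0
    obtain ⟨⟨⟨h1, h2, h3⟩, h4⟩, h5⟩ := hz z hzb h0
    have h6 := Polynomial.coeff_le_of_roots_le (p := Q.map (RSq_ev z)) (f := RingHom.id ℂ) (B := 1 + m * C) i
      (hQm.map _) (IsAlgClosed.splits _) (fun t ht => by
        rw [Polynomial.map_id] at ht
        exact RSq_root h5 hC0 ((hroots z hzb h0 t).1 (Polynomial.isRoot_of_mem_roots ht)))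
    rw [Polynomial.map_id, hQm.natDegree_map, Polynomial.coeff_map] at h6
    exact h6
  -- the extensions of the coefficients
  have hdiff : ∀ i : Fin Q.natDegree, DifferentiableOn ℂ (Function.update ((Q.coeff i : RSq_MF) : ℂ → ℂ) 0
      (limUnder (𝓝[≠] 0) ((Q.coeff i : RSq_MF) : ℂ → ℂ))) (ball 0 ρ) := by
    intro i
    refine Complex.differentiableOn_update_limUnder_of_bddAbove (ball_mem_nhds _ hρ) (fun z hz1 => ?_) ?_
    · obtain ⟨⟨h1, h4⟩, h5⟩ := hz z hz1.1 (by simpa using hz1.2)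
      exact (h4 i (Finset.mem_range.2 i.2)).differentiableAt.differentiableWithinAt
    · refine ⟨(1 + m * C) ^ (Q.natDegree - i) * Q.natDegree.choose i, ?_⟩
      rintro _ ⟨z, hz1, rfl⟩
      exact hbd i (Finset.mem_range.2 i.2) z hz1.1 (by simpa using hz1.2)
  have hPt : ∀ z ∈ ball (0 : ℂ) ρ, z ≠ 0 → Pt (fun (i : Fin Q.natDegree) => Function.update ((Q.coeff i : RSq_MF) : ℂ → ℂ) 0
      (limUnder (𝓝[≠] 0) ((Q.coeff i : RSq_MF) : ℂ → ℂ))) z = fun t => (Q.map (RSq_ev z)).eval t := by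
    intro z hzb h0
    funext t
    have h1 := (hQm.map (RSq_ev z)).as_sum
    rw [hQm.natDegree_map] at h1
    conv_rhs => rw [h1]
    rw [Polynomial.eval_add, Polynomial.eval_pow, Polynomial.eval_X, Polynomial.eval_finsetSum]
    unfold Pt
    congr 1
    rw [Finset.sum_range]
    refine Finset.sum_congr rfl fun i _ => ?_
    beta_reduce
    rw [Polynomial.eval_mul, Polynomial.eval_C, Polynomial.eval_pow, Polynomial.eval_X, Function.update_of_ne h0,
      Polynomial.coeff_map]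
    rfl
  refine ⟨ρ, hρ, hρR, Q.natDegree, _, hdiff, fun z hzb h0 t => ?_, fun z hzb h0 t ht => ?_⟩
  · rw [hPt z hzb h0]
    exact hroots z hzb h0 t
  · rw [hPt z hzb h0] at ht ⊢
    obtain ⟨⟨⟨h1, h2, h3⟩, h4⟩, h5⟩ := hz z hzb h0
    intro h6
    rw [Polynomial.deriv] at h6
    beta_reduce at ht
    have h7 := congrArg (Polynomial.eval t) h3
    rw [Polynomial.eval_add, Polynomial.eval_mul, Polynomial.eval_mul, ht, h6, mul_zero, mul_zero, add_zero,
      Polynomial.eval_one] at h7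
    exact zero_ne_one h7

end Pool.Agent.PX

end
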