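import Pool.Agent.H94.PX2.M04
import Pool.Agent.H94.PX2.M09

/-! The parts of this file: H17GT.Point, H62.FC.LocalEst, H62.FC.Wronsk, H92.GT.ProjPoint. -/

section

/-!
# The generic point of a subvariety of projective space
-/

open MvPolynomial

noncomputable section

namespace Pool.Agent.H17GT

/-- The generic point of a closed subvariety of `ℙ^N` of positive dimension. -/
theorem exists_point {N : ℕ} (P : Ideal (MvPolynomial (Fin (N + 1)) ℂ)) [P.IsPrime] {k : ℕ}
    (z : Fin (k + 1) → functionField P) (hz : IsTranscendenceBasis ℂ z) :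
    ∃ x : Fin (N + 1) → functionField P, x ≠ 0 ∧
      IntermediateField.adjoin ℂ {y | ∃ i j, y = x i / x j} = ⊤ ∧
      IntermediateField.adjoin ℂ (Set.range x) = ⊤ ∧
      ∀ (d : ℕ) (G : MvPolynomial (Fin (N + 1)) ℂ), G.IsHomogeneous d → G ∈ P →
        aeval x G = 0 := by
  classical
  -- some coordinate is nonzero
  obtain ⟨j₀, hj₀⟩ : ∃ j, coordFun P j ≠ 0 := by
    by_contra hcon
    push Not at hcon
    have h1 : functionField P = ⊥ := by
      rw [functionField, IntermediateField.adjoin_eq_bot_iff]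
      rintro y ⟨i, j, rfl⟩
      rw [hcon i, zero_div]
      exact zero_mem _
    have h2 := hz.1.transcendental 0
    apply h2
    have h3 : ((z 0 : functionField P) : FractionRing (MvPolynomial (Fin (N + 1)) ℂ ⧸ P)) ∈
        (⊥ : IntermediateField ℂ (FractionRing (MvPolynomial (Fin (N + 1)) ℂ ⧸ P))) := by
      rw [← h1]
      exact (z 0).2
    obtain ⟨a, ha⟩ := IntermediateField.mem_bot.1 h3
    have h4 : z 0 = algebraMap ℂ (functionField P) a := by
      apply Subtype.ext
      rw [← ha]
      rfl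
    rw [h4]
    exact isAlgebraic_algebraMap a
  have hmem : ∀ i, coordFun P i / coordFun P j₀ ∈ functionField P := fun i =>
    IntermediateField.subset_adjoin _ _ ⟨i, j₀, rfl⟩
  set x : Fin (N + 1) → functionField P := fun i => ⟨coordFun P i / coordFun P j₀, hmem i⟩ with hx
  have hx1 : x j₀ = 1 := by
    apply Subtype.ext
    rw [hx]
    exact div_self hj₀
  have hratio : ∀ i j, ((x i / x j : functionField P) :
      FractionRing (MvPolynomial (Fin (N + 1)) ℂ ⧸ P)) = coordFun P i / coordFun P j := by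
    intro i j
    have h1 : ((x i / x j : functionField P) :
      FractionRing (MvPolynomial (Fin (N + 1)) ℂ ⧸ P)) =
        (coordFun P i / coordFun P j₀) / (coordFun P j / coordFun P j₀) := by
      rw [hx]
      rfl
    rw [h1, div_div_div_cancel_right₀ hj₀]
  have hgen : IntermediateField.adjoin ℂ {y | ∃ i j, y = x i / x j} = ⊤ := by
    rw [← IntermediateField.lift_inj, IntermediateField.lift_adjoin, IntermediateField.lift_top]
    conv_rhs => rw [functionField]
    congr 1
    ext y
    constructor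
    · rintro ⟨y', ⟨i, j, rfl⟩, rfl⟩
      exact ⟨i, j, hratio i j⟩
    · rintro ⟨i, j, rfl⟩
      exact ⟨x i / x j, ⟨i, j, rfl⟩, hratio i j⟩
  refine ⟨x, fun h => ?_, hgen, ?_, ?_⟩
  · have := congrFun h j₀
    rw [hx1] at this
    exact one_ne_zero this
  · rw [eq_top_iff, ← hgen, IntermediateField.adjoin_le_iff]
    rintro y ⟨i, j, rfl⟩
    exact div_mem (IntermediateField.subset_adjoin _ _ ⟨i, rfl⟩)
      (IntermediateField.subset_adjoin _ _ ⟨j, rfl⟩)
  · intro d G hG hGP
    apply Subtype.ext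
    have h1 : ((aeval x G : functionField P) : FractionRing (MvPolynomial (Fin (N + 1)) ℂ ⧸ P)) =
        aeval (fun i => (coordFun P j₀)⁻¹ * coordFun P i) G := by
      have h2 := (MvPolynomial.map_aeval x (functionField P).val.toRingHom G)
      have h3 : ((functionField P).val (aeval x G)) =
          aeval (fun i => (functionField P).val (x i)) G := by
        rw [← MvPolynomial.comp_aeval]
        rfl
      change (functionField P).val (aeval x G) = _
      rw [h3]
      congr 2
      funext i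
      change coordFun P i / coordFun P j₀ = _
      rw [div_eq_inv_mul]
    rw [h1]
    have h4 : aeval (fun i => (coordFun P j₀)⁻¹ * coordFun P i) G =
        (coordFun P j₀)⁻¹ ^ d * aeval (coordFun P) G := by
      rw [aeval_def, aeval_def, eval₂_eq, eval₂_eq, Finset.mul_sum]
      refine Finset.sum_congr rfl fun m hm => ?_
      have h5 : ∑ i ∈ m.support, m i = d := by
        have := hG (mem_support_iff.1 hm)
        rw [Finsupp.weight_apply, Finsupp.sum] at this
        simpa using this
      simp only [mul_pow, Finset.prod_mul_distrib]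
      rw [Finset.prod_pow_eq_pow_sum, h5]
      ring
    rw [h4]
    have h6 : aeval (coordFun P) G = 0 := by
      have h7 : aeval (coordFun P) G =
          algebraMap (MvPolynomial (Fin (N + 1)) ℂ ⧸ P)
            (FractionRing (MvPolynomial (Fin (N + 1)) ℂ ⧸ P)) (Ideal.Quotient.mk P G) := by
        have h8 : (aeval (coordFun P) : MvPolynomial (Fin (N + 1)) ℂ →ₐ[ℂ] _) =
            (IsScalarTower.toAlgHom ℂ (MvPolynomial (Fin (N + 1)) ℂ ⧸ P)
              (FractionRing (MvPolynomial (Fin (N + 1)) ℂ ⧸ P))).comp (Ideal.Quotient.mkₐ ℂ P) := by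
          apply MvPolynomial.algHom_ext
          intro i
          rw [aeval_X]
          rfl
        rw [h8]
        rfl
      rw [h7, Ideal.Quotient.eq_zero_iff_mem.2 hGP, map_zero]
    rw [h6, mul_zero]
    rfl

end Pool.Agent.H17GT

end
end

section

/-!
# The local order of the Wronskian
-/

open Filter Topology MeasureTheory
open Pool.Agent.H92.GGL (ordZ)

noncomputable section

namespace Pool.Agent.H62.FC

/-- `f` vanishes to order at least `b` at `s`, up to the value at `s` -/
def LocalEst_V (s : ℂ) (f : ℂ → ℂ) (b : ℕ) : Prop :=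
  ∃ g : ℂ → ℂ, AnalyticAt ℂ g s ∧ f =ᶠ[𝓝[≠] s] fun z => (z - s) ^ b * g z

theorem LocalEst_congr {s : ℂ} {f f' : ℂ → ℂ} {b : ℕ} (h : LocalEst_V s f b)
    (hf : f' =ᶠ[𝓝[≠] s] f) : LocalEst_V s f' b := by
  obtain ⟨g, hg, hfg⟩ := h
  exact ⟨g, hg, hf.trans hfg⟩

theorem LocalEst_anal_sub (s : ℂ) : AnalyticAt ℂ (fun z : ℂ => z - s) s :=
  analyticAt_id.sub analyticAt_const

theorem LocalEst_mono {s : ℂ} {f : ℂ → ℂ} {b b' : ℕ} (h : LocalEst_V s f b) (hb : b' ≤ b) :
    LocalEst_V s f b' := by
  obtain ⟨g, hg, hfg⟩ := h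
  refine ⟨fun z => (z - s) ^ (b - b') * g z, ((LocalEst_anal_sub s).pow _).mul hg, ?_⟩
  filter_upwards [hfg] with z hz
  rw [hz, ← mul_assoc, ← pow_add]
  congr 2
  omega

theorem LocalEst_mul {s : ℂ} {f f' : ℂ → ℂ} {b b' : ℕ} (h : LocalEst_V s f b)
    (h' : LocalEst_V s f' b') : LocalEst_V s (fun z => f z * f' z) (b + b') := by
  obtain ⟨g, hg, hfg⟩ := h
  obtain ⟨g', hg', hfg'⟩ := h'
  refine ⟨fun z => g z * g' z, hg.mul hg', ?_⟩
  filter_upwards [hfg, hfg'] with z hz hz'
  rw [hz, hz', pow_add]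
  ring

theorem LocalEst_const (s c : ℂ) : LocalEst_V s (fun _ => c) 0 :=
  ⟨fun _ => c, analyticAt_const, by
    filter_upwards with z
    rw [pow_zero, one_mul]⟩

theorem LocalEst_add {s : ℂ} {f f' : ℂ → ℂ} {b : ℕ} (h : LocalEst_V s f b)
    (h' : LocalEst_V s f' b) : LocalEst_V s (fun z => f z + f' z) b := by
  obtain ⟨g, hg, hfg⟩ := h
  obtain ⟨g', hg', hfg'⟩ := h'
  refine ⟨fun z => g z + g' z, hg.add hg', ?_⟩
  filter_upwards [hfg, hfg'] with z hz hz'
  rw [hz, hz']
  ring

theorem LocalEst_zero (s : ℂ) (b : ℕ) : LocalEst_V s (fun _ => 0) b :=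
  ⟨fun _ => 0, analyticAt_const, by
    filter_upwards with z
    rw [mul_zero]⟩

theorem LocalEst_sum {ι : Type*} {s : ℂ} (T : Finset ι) {f : ι → ℂ → ℂ} {b : ℕ}
    (h : ∀ i ∈ T, LocalEst_V s (f i) b) : LocalEst_V s (fun z => ∑ i ∈ T, f i z) b := by
  classical
  induction T using Finset.induction_on with
  | empty => simpa using LocalEst_zero s b
  | insert a T ha ih =>
    have h1 := LocalEst_add (h a (Finset.mem_insert_self a T))
      (ih fun i hi => h i (Finset.mem_insert_of_mem hi))
    refine LocalEst_congr h1 ?_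
    filter_upwards with z
    rw [Finset.sum_insert ha]

theorem LocalEst_prod {ι : Type*} {s : ℂ} (T : Finset ι) {f : ι → ℂ → ℂ} {b : ι → ℕ}
    (h : ∀ i ∈ T, LocalEst_V s (f i) (b i)) :
    LocalEst_V s (fun z => ∏ i ∈ T, f i z) (∑ i ∈ T, b i) := by
  classical
  induction T using Finset.induction_on with
  | empty => simpa using LocalEst_const s 1
  | insert a T ha ih =>
    have h1 := LocalEst_mul (h a (Finset.mem_insert_self a T))
      (ih fun i hi => h i (Finset.mem_insert_of_mem hi))
    rw [Finset.sum_insert ha]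
    refine LocalEst_congr h1 ?_
    filter_upwards with z
    rw [Finset.prod_insert ha]

theorem LocalEst_deriv {s : ℂ} {f : ℂ → ℂ} {b : ℕ} (h : LocalEst_V s f b) :
    LocalEst_V s (deriv f) (b - 1) := by
  obtain ⟨g, hg, hfg⟩ := h
  have h1 := hfg.nhdsNE_deriv
  have h2 : ∀ᶠ z in 𝓝[≠] s, AnalyticAt ℂ g z :=
    hg.eventually_analyticAt.filter_mono nhdsWithin_le_nhds
  rcases b with _ | b
  · refine ⟨deriv g, hg.deriv, ?_⟩
    filter_upwards [h1] with z hz
    rw [hz]
    simp
  · refine ⟨fun z => ((b : ℂ) + 1) * g z + (z - s) * deriv g z,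
      (analyticAt_const.mul hg).add ((LocalEst_anal_sub s).mul hg.deriv), ?_⟩
    filter_upwards [h1, h2] with z hz hgz
    rw [hz]
    have h3 : HasDerivAt (fun z : ℂ => (z - s) ^ (b + 1)) (((b + 1 : ℕ) : ℂ) * (z - s) ^ b) z := by
      have h0 := ((hasDerivAt_id z).sub_const s).fun_pow (b + 1)
      simp only [id_eq, Nat.add_sub_cancel, mul_one] at h0
      exact h0
    have h4 := h3.mul hgz.differentiableAt.hasDerivAt
    have h5 : deriv (fun z => (z - s) ^ (b + 1) * g z) z =
        ((b + 1 : ℕ) : ℂ) * (z - s) ^ b * g z + (z - s) ^ (b + 1) * deriv g z := h4.deriv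
    rw [h5]
    push_cast
    rw [pow_succ]
    ring

theorem LocalEst_iteratedDeriv {s : ℂ} {f : ℂ → ℂ} {b : ℕ} (h : LocalEst_V s f b) (i : ℕ) :
    LocalEst_V s (iteratedDeriv i f) (b - i) := by
  induction i with
  | zero => simpa using h
  | succ i ih =>
    rw [iteratedDeriv_succ]
    have := LocalEst_deriv ih
    rwa [Nat.sub_sub] at this

theorem LocalEst_det {n : ℕ} {s : ℂ} {A : Fin n → Fin n → ℂ → ℂ} {K : Fin n → ℕ}
    (h : ∀ i j, LocalEst_V s (A i j) (K j)) :
    LocalEst_V s (fun z => (Matrix.of fun i j : Fin n => A i j z).det) (∑ j, K j) := by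
  have h1 : LocalEst_V s (fun z => ∑ σ : Equiv.Perm (Fin n),
      ((Equiv.Perm.sign σ : ℤ) : ℂ) * ∏ i, A (σ i) i z) (∑ j, K j) := by
    refine LocalEst_sum _ ?_
    intro σ _
    have h2 := LocalEst_mul (LocalEst_const s ((Equiv.Perm.sign σ : ℤ) : ℂ))
      (LocalEst_prod Finset.univ (f := fun i => A (σ i) i) (b := K) fun i _ => h (σ i) i)
    rwa [zero_add] at h2
  refine LocalEst_congr h1 ?_
  filter_upwards with z
  rw [Matrix.det_apply']
  rfl

theorem LocalEst_wronsk {n : ℕ} {s : ℂ} {φ : Fin n → ℂ → ℂ} {c : Fin n → ℕ}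
    (h : ∀ j, LocalEst_V s (φ j) (c j)) :
    LocalEst_V s (wronsk φ) (∑ j, (c j - (n - 1))) := by
  refine LocalEst_det (A := fun i j => iteratedDeriv i (φ j)) ?_
  intro i j
  refine LocalEst_mono (LocalEst_iteratedDeriv (h j) i) ?_
  have := i.2
  omega

/-- scaling of the Wronskian -/
theorem LocalEst_scale {n : ℕ} {z : ℂ} {h : ℂ → ℂ} {u : Fin n → ℂ → ℂ}
    (hh : ∀ k : ℕ, ContDiffAt ℂ k h z) (hu : ∀ j, ∀ k : ℕ, ContDiffAt ℂ k (u j) z) :
    wronsk (fun j w => h w * u j w) z = h z ^ n * wronsk u z := by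
  have h1 : (Matrix.of fun i j : Fin n => iteratedDeriv i (fun w => h w * u j w) z) =
      (Matrix.of fun i k : Fin n => ((Nat.choose i k : ℕ) : ℂ) * iteratedDeriv (i - k) h z) *
        (Matrix.of fun i j : Fin n => iteratedDeriv i (u j) z) := by
    ext i j
    rw [Matrix.mul_apply]
    simp only [Matrix.of_apply]
    have h2 : (fun w => h w * u j w) = fun w => u j w * h w := by
      funext w
      ring
    rw [h2, iteratedDeriv_fun_mul (hu j i) (hh i)]
    rw [Fin.sum_univ_eq_sum_range (fun k => ((Nat.choose i k : ℕ) : ℂ) *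
      iteratedDeriv (i - k) h z * iteratedDeriv k (u j) z) n]
    have h3 : Finset.range ((i : ℕ) + 1) ⊆ Finset.range n := by
      rw [Finset.range_subset_range]
      exact i.2
    rw [← Finset.sum_subset h3]
    · refine Finset.sum_congr rfl ?_
      intro k _
      ring
    · intro k _ hk
      rw [Finset.mem_range, not_lt] at hk
      rw [Nat.choose_eq_zero_of_lt (by omega)]
      simp
  unfold wronsk
  rw [h1, Matrix.det_mul]
  congr 1
  rw [Matrix.det_of_isLowerTriangular]
  · simp
  · intro i k hik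
    have hik' : (i : ℕ) < k := hik
    simp only [Matrix.of_apply]
    rw [Nat.choose_eq_zero_of_lt hik']
    simp

/-- exchange of a column -/
theorem LocalEst_exchange {n : ℕ} {z : ℂ} {f : Fin n → ℂ → ℂ} {q : ℂ → ℂ} (j₀ : Fin n)
    (hf : ∀ j, ∀ k : ℕ, ContDiffAt ℂ k (f j) z) (hq : q =ᶠ[𝓝 z] fun w => ∑ j, f j w) :
    wronsk (Function.update f j₀ q) z = wronsk f z := by
  have h1 : (Matrix.of fun i j : Fin n => iteratedDeriv i (Function.update f j₀ q j) z) =
      (Matrix.of fun i j : Fin n => iteratedDeriv i (f j) z).updateCol j₀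
        (fun i => ∑ j, (1 : ℂ) • (Matrix.of fun i j : Fin n => iteratedDeriv i (f j) z) i j) := by
    ext i j
    rw [Matrix.updateCol_apply]
    by_cases hj : j = j₀
    · subst hj
      rw [if_pos rfl]
      simp only [Matrix.of_apply, Function.update_self, one_smul]
      rw [hq.iteratedDeriv_eq, iteratedDeriv_fun_sum (fun j _ => hf j i)]
    · rw [if_neg hj]
      simp only [Matrix.of_apply]
      rw [Function.update_of_ne hj]
  unfold wronsk
  rw [h1, Matrix.det_updateCol_sum, one_smul]

theorem LocalEst_num {n d c : ℕ} (hn : 1 ≤ n) (hd : n ≤ d) (hc : (d : ℤ) ∣ (c : ℤ)) :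
    (d : ℤ) * ((c : ℤ) - ((c - (n - 1) : ℕ) : ℤ)) ≤ ((n : ℤ) - 1) * c := by
  rcases Nat.eq_zero_or_pos c with h0 | h0
  · subst h0
    simp
  · have h1 : (d : ℤ) ≤ c := Int.le_of_dvd (by exact_mod_cast h0) hc
    have h2 : n - 1 ≤ c := by omega
    have h3 : ((c - (n - 1) : ℕ) : ℤ) = (c : ℤ) - ((n : ℤ) - 1) := by
      push_cast [Nat.cast_sub h2, Nat.cast_sub hn]
      ring
    rw [h3]
    have h4 : (0 : ℤ) ≤ (n : ℤ) - 1 := by
      have : (1 : ℤ) ≤ n := by exact_mod_cast hn
      linarith
    nlinarith [mul_le_mul_of_nonneg_right h1 h4]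

theorem local_estimate {n d : ℕ} (hn : 1 ≤ n) (hd : n ≤ d) {s : ℂ} {u : Fin n → ℂ → ℂ}
    (hu : ∀ j, MeromorphicAt (u j) s) (huo : ∀ j, meromorphicOrderAt (u j) s ≠ ⊤)
    (hrel : ∀ᶠ z in 𝓝[≠] s, ∑ j, u j z = -1) (hW : meromorphicOrderAt (wronsk u) s ≠ ⊤)
    (hdiv : ∀ j, (d : ℤ) ∣ ordZ (u j) s) {μ : ℤ} (hμ0 : μ ≤ 0) (hμ : ∀ j, μ ≤ ordZ (u j) s)
    (hμ' : μ = 0 ∨ ∃ j, ordZ (u j) s = μ) :
    (d : ℤ) * ((∑ j, ordZ (u j) s) - ordZ (wronsk u) s - μ) ≤
      (n - 1 : ℤ) * ((∑ j, (ordZ (u j) s - μ)) + (0 - μ)) := by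
  obtain ⟨m, hm⟩ : ∃ m : ℕ, (m : ℤ) = -μ := ⟨(-μ).toNat, Int.toNat_of_nonneg (by linarith)⟩
  -- the orders of the scaled functions
  have hb : ∀ j, ∃ b : ℕ, (b : ℤ) = ordZ (u j) s - μ := fun j =>
    ⟨(ordZ (u j) s - μ).toNat, Int.toNat_of_nonneg (by linarith [hμ j])⟩
  choose b hb using hb
  set f : Fin n → ℂ → ℂ := fun j w => (w - s) ^ m * u j w with hf
  have hVf : ∀ j, LocalEst_V s (f j) (b j) := by
    intro j
    have h1 : meromorphicOrderAt (u j) s = ((ordZ (u j) s : ℤ) : WithTop ℤ) := by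
      unfold Pool.Agent.H92.GGL.ordZ
      rw [WithTop.coe_untop₀_of_ne_top (huo j)]
    obtain ⟨g, hg, _, hug⟩ := (meromorphicOrderAt_eq_int_iff (hu j)).1 h1
    refine ⟨g, hg, ?_⟩
    filter_upwards [hug, eventually_mem_nhdsWithin] with z hz hzs
    have hzs' : z - s ≠ 0 := sub_ne_zero.mpr hzs
    show (z - s) ^ m * u j z = _
    rw [hz, smul_eq_mul, ← mul_assoc, ← zpow_natCast, ← zpow_add₀ hzs', ← zpow_natCast]
    congr 2
    rw [hb j, hm]
    ring
  -- the punctured neighbourhood where everything is analytic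
  have han : ∀ᶠ z in 𝓝[≠] s, ∀ j, AnalyticAt ℂ (u j) z := by
    rw [Filter.eventually_all]
    exact fun j => (hu j).eventually_analyticAt
  have hscale : wronsk f =ᶠ[𝓝[≠] s] fun z => ((z - s) ^ m) ^ n * wronsk u z := by
    filter_upwards [han] with z hz
    refine LocalEst_scale (h := fun w => (w - s) ^ m) ?_ ?_
    · intro k
      exact ((contDiffAt_id.sub contDiffAt_const).pow m)
    · intro j k
      exact (hz j).contDiffAt
  -- it is enough to bound the order of the scaled Wronskian
  have main : ∀ c : Fin n → ℕ, (∀ j, (d : ℤ) ∣ (c j : ℤ)) →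
      (∑ j, (c j : ℤ)) = (∑ j, (ordZ (u j) s - μ)) + (0 - μ) →
      LocalEst_V s (wronsk f) (∑ j, (c j - (n - 1))) →
      (d : ℤ) * ((∑ j, ordZ (u j) s) - ordZ (wronsk u) s - μ) ≤
        (n - 1 : ℤ) * ((∑ j, (ordZ (u j) s - μ)) + (0 - μ)) := by
    intro c hc hcs hV
    obtain ⟨g, hg, hWg⟩ := hV
    set C : ℕ := ∑ j, (c j - (n - 1)) with hC
    have h1 : wronsk u =ᶠ[𝓝[≠] s] fun z => (z - s) ^ ((C : ℤ) - m * n) * g z := by
      filter_upwards [hscale, hWg, eventually_mem_nhdsWithin] with z h1 h2 h3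
      have hzs' : z - s ≠ 0 := sub_ne_zero.mpr h3
      rw [h1] at h2
      have h4 : ((z - s) ^ m) ^ n ≠ 0 := pow_ne_zero _ (pow_ne_zero _ hzs')
      have h5 : wronsk u z = (((z - s) ^ m) ^ n)⁻¹ * ((z - s) ^ C * g z) := by
        rw [← h2, ← mul_assoc, inv_mul_cancel₀ h4, one_mul]
      rw [h5, zpow_sub₀ hzs', zpow_natCast, ← pow_mul]
      have h6 : (z - s) ^ ((m : ℤ) * (n : ℤ)) = (z - s) ^ (m * n) := by
        rw [← Nat.cast_mul, zpow_natCast]
      rw [h6]
      field_simp
    have h2 : MeromorphicAt (fun z => (z - s) ^ ((C : ℤ) - m * n)) s :=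
      ((LocalEst_anal_sub s).meromorphicAt).zpow _
    have h3 : meromorphicOrderAt (fun z => (z - s) ^ ((C : ℤ) - m * n)) s =
        (((C : ℤ) - m * n : ℤ) : WithTop ℤ) := by
      rw [meromorphicOrderAt_eq_int_iff h2]
      exact ⟨fun _ => 1, analyticAt_const, one_ne_zero, by
        filter_upwards with z
        rw [smul_eq_mul, mul_one]⟩
    have h4 : (((C : ℤ) - m * n : ℤ) : WithTop ℤ) ≤ meromorphicOrderAt (wronsk u) s := by
      rw [meromorphicOrderAt_congr h1]
      have h5 := meromorphicOrderAt_mul h2 hg.meromorphicAt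
      have h6 : meromorphicOrderAt (fun z => (z - s) ^ ((C : ℤ) - m * n) * g z) s =
          meromorphicOrderAt (fun z => (z - s) ^ ((C : ℤ) - m * n)) s +
            meromorphicOrderAt g s := h5
      rw [h6, h3]
      exact le_add_of_nonneg_right hg.meromorphicOrderAt_nonneg
    have h5 : ((C : ℤ) - m * n : ℤ) ≤ ordZ (wronsk u) s := by
      unfold Pool.Agent.H92.GGL.ordZ
      rw [← WithTop.coe_untop₀_of_ne_top hW] at h4
      exact_mod_cast h4
    have h6 : ∑ j, ((d : ℤ) * ((c j : ℤ) - ((c j - (n - 1) : ℕ) : ℤ))) ≤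
        ∑ j, ((n : ℤ) - 1) * (c j : ℤ) :=
      Finset.sum_le_sum fun j _ => LocalEst_num hn hd (hc j)
    rw [← Finset.mul_sum, ← Finset.mul_sum, Finset.sum_sub_distrib, hcs] at h6
    have h7 : ((C : ℕ) : ℤ) = ∑ j, ((c j - (n - 1) : ℕ) : ℤ) := by
      rw [hC, Nat.cast_sum]
    rw [← h7] at h6
    have h8 : (∑ j, (ordZ (u j) s - μ)) = (∑ j, ordZ (u j) s) - n * μ := by
      rw [Finset.sum_sub_distrib, Finset.sum_const, Finset.card_univ, Fintype.card_fin,
        nsmul_eq_mul]
    refine le_trans ?_ h6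
    refine mul_le_mul_of_nonneg_left ?_ (Int.natCast_nonneg d)
    rw [h8]
    rw [hm] at h5
    linarith
  have hdμ : (d : ℤ) ∣ μ := by
    rcases hμ' with h | ⟨j, hj⟩
    · rw [h]; exact dvd_zero _
    · rw [← hj]; exact hdiv j
  have hdb : ∀ j, (d : ℤ) ∣ (b j : ℤ) := by
    intro j
    rw [hb j]
    exact dvd_sub (hdiv j) hdμ
  rcases hμ' with h0 | ⟨j₀, hj₀⟩
  · refine main b hdb ?_ (LocalEst_wronsk hVf)
    rw [h0, sub_zero, add_zero]
    refine Finset.sum_congr rfl ?_
    intro j _
    rw [hb j, h0]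
  · have hq : wronsk f =ᶠ[𝓝[≠] s]
        wronsk (Function.update f j₀ (fun w => -(w - s) ^ m)) := by
      have hrel' := eventually_nhdsNE_eventually_nhds_iff.2 hrel
      filter_upwards [han, hrel'] with z hz hr
      symm
      refine LocalEst_exchange j₀ ?_ ?_
      · intro j k
        have h1 : ContDiffAt ℂ k (u j) z := (hz j).contDiffAt
        have h2 : ContDiffAt ℂ k (fun w : ℂ => (w - s) ^ m) z :=
          (contDiffAt_id.sub contDiffAt_const).pow m
        exact h2.mul h1
      · filter_upwards [hr] with w hw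
        show -(w - s) ^ m = ∑ j, (w - s) ^ m * u j w
        rw [← Finset.mul_sum, hw]
        ring
    have hV : ∀ j, LocalEst_V s (Function.update f j₀ (fun w => -(w - s) ^ m) j)
        (Function.update b j₀ m j) := by
      intro j
      by_cases hj : j = j₀
      · subst hj
        rw [Function.update_self, Function.update_self]
        refine ⟨fun _ => -1, analyticAt_const, ?_⟩
        filter_upwards with z
        ring
      · rw [Function.update_of_ne hj, Function.update_of_ne hj]
        exact hVf j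
    have hb0 : (b j₀ : ℤ) = 0 := by
      rw [hb j₀, hj₀, sub_self]
    refine main (Function.update b j₀ m) ?_ ?_ (LocalEst_congr (LocalEst_wronsk hV) hq)
    · intro j
      by_cases hj : j = j₀
      · subst hj
        rw [Function.update_self, hm]
        exact (dvd_neg).2 hdμ
      · rw [Function.update_of_ne hj]
        exact hdb j
    · have h1 : (∑ j, (ordZ (u j) s - μ)) = ∑ j, (b j : ℤ) :=
        Finset.sum_congr rfl fun j _ => (hb j).symm
      rw [h1, ← Finset.add_sum_erase Finset.univ _ (Finset.mem_univ j₀),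
        ← Finset.add_sum_erase Finset.univ (fun j => (b j : ℤ)) (Finset.mem_univ j₀), hb0,
        Function.update_self, hm]
      have h2 : ∑ j ∈ Finset.univ.erase j₀, ((Function.update b j₀ m j : ℕ) : ℤ) =
          ∑ j ∈ Finset.univ.erase j₀, (b j : ℤ) := by
        refine Finset.sum_congr rfl ?_
        intro j hj
        rw [Function.update_of_ne (Finset.ne_of_mem_erase hj)]
      rw [h2]
      ring

end Pool.Agent.H62.FC

end
end

section

/-!
# The Wronskian of linearly independent meromorphic functions does not vanish identically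
-/

noncomputable section

namespace Pool.Agent.H62.FC

open Filter Topology MeasureTheory
open Pool.Agent.H92.GGL (ordZ)

private lemma Wronsk_det_analyticAt {n : ℕ} {M : ℂ → Matrix (Fin n) (Fin n) ℂ} {s : ℂ}
    (h : ∀ i j, AnalyticAt ℂ (fun z => M z i j) s) : AnalyticAt ℂ (fun z => (M z).det) s := by
  simp only [Matrix.det_apply']
  refine Finset.analyticAt_fun_sum _ fun σ _ => ?_
  refine analyticAt_const.mul ?_
  exact Finset.analyticAt_fun_prod _ fun i _ => h _ _

private lemma Wronsk_det_meromorphicAt {n : ℕ} {M : ℂ → Matrix (Fin n) (Fin n) ℂ} {s : ℂ}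
    (h : ∀ i j, MeromorphicAt (fun z => M z i j) s) : MeromorphicAt (fun z => (M z).det) s := by
  simp only [Matrix.det_apply']
  refine MeromorphicAt.fun_sum fun σ _ => ?_
  refine (MeromorphicAt.const _ s).mul ?_
  exact MeromorphicAt.fun_prod fun i _ => h _ _

private lemma Wronsk_iterated {f : ℂ → ℂ} {z : ℂ} (hf : AnalyticAt ℂ f z) (n : ℕ) :
    AnalyticAt ℂ (iteratedDeriv n f) z := by
  rw [iteratedDeriv_eq_iterate]
  exact hf.iterated_deriv n

/-- the Wronskian of linearly independent holomorphic functions on a domain -/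
private theorem Wronsk_exists {m : ℕ} (φ : Fin m → ℂ → ℂ) (D : Set ℂ) (hD : IsOpen D)
    (hDp : IsPreconnected D) (hDn : D.Nonempty) (hd : ∀ i, ∀ z ∈ D, AnalyticAt ℂ (φ i) z)
    (hli : ∀ c : Fin m → ℂ, (∀ z ∈ D, ∑ j, c j * φ j z = 0) → c = 0) :
    ∃ z ∈ D, Matrix.det (Matrix.of fun i j : Fin m => iteratedDeriv (i : ℕ) (φ j) z) ≠ 0 := by
  induction m with
  | zero =>
    obtain ⟨z, hz⟩ := hDn
    exact ⟨z, hz, by simp⟩
  | succ m ih =>
    by_contra hcon
    push Not at hcon
    obtain ⟨z₀, hz₀D, hz₀⟩ := ih (fun j => φ j.castSucc) (fun j => hd _) (by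
      intro c hc
      have h1 := hli (Fin.lastCases 0 c) (by
        intro z hz
        simp only [Fin.sum_univ_castSucc, Fin.lastCases_castSucc, Fin.lastCases_last, zero_mul,
          add_zero]
        exact hc z hz)
      funext j
      have h2 := congrFun h1 j.castSucc
      simpa using h2)
    set A : ℂ → Matrix (Fin m) (Fin m) ℂ :=
      fun z => Matrix.of fun i j : Fin m => iteratedDeriv (i : ℕ) (φ j.castSucc) z with hA
    set b : ℂ → Fin m → ℂ := fun z i => iteratedDeriv (i : ℕ) (φ (Fin.last m)) z with hb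
    have hAd : ∀ z ∈ D, AnalyticAt ℂ (fun z => (A z).det) z := fun z hz =>
      Wronsk_det_analyticAt fun i j => Wronsk_iterated (hd _ z hz) _
    set c : Fin m → ℂ → ℂ := fun j z => ((A z).updateCol j (b z)).det / (A z).det with hc
    have hU : ∃ r > 0, ∀ z ∈ Metric.ball z₀ r, z ∈ D ∧ (A z).det ≠ 0 := by
      have h1 : ∀ᶠ z in 𝓝 z₀, z ∈ D ∧ (A z).det ≠ 0 :=
        (hD.eventually_mem hz₀D).and ((hAd z₀ hz₀D).continuousAt.eventually_ne hz₀)
      exact Metric.eventually_nhds_iff_ball.mp h1
    obtain ⟨r, hr, hball⟩ := hU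
    have hcd : ∀ j, ∀ z ∈ D, (A z).det ≠ 0 → DifferentiableAt ℂ (c j) z := by
      intro j z hzD hz
      refine DifferentiableAt.div ?_ (hAd z hzD).differentiableAt hz
      refine (Wronsk_det_analyticAt (M := fun z => (A z).updateCol j (b z))
        fun i k => ?_).differentiableAt
      by_cases hk : k = j
      · subst hk
        simp only [Matrix.updateCol_self]
        exact Wronsk_iterated (hd _ z hzD) _
      · simp only [Matrix.updateCol_ne hk]
        exact Wronsk_iterated (hd _ z hzD) _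
    -- the coefficients solve the linear system
    have hsol : ∀ z, (A z).det ≠ 0 → (A z).mulVec (fun j => c j z) = b z := by
      intro z hz
      have h1 := Matrix.mulVec_cramer (A z) (b z)
      have h2 : (fun j => c j z) = ((A z).det)⁻¹ • Matrix.cramer (A z) (b z) := by
        funext j
        simp only [hc, Pi.smul_apply, Matrix.cramer_apply, smul_eq_mul]
        rw [div_eq_inv_mul]
      rw [h2, Matrix.mulVec_smul, h1, smul_smul, inv_mul_cancel₀ hz, one_smul]
    have hlast : ∀ z ∈ D, (A z).det ≠ 0 →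
        ∑ j, iteratedDeriv m (φ j.castSucc) z * c j z = iteratedDeriv m (φ (Fin.last m)) z := by
      intro z hzD hz
      obtain ⟨v, hv0, hv⟩ := Matrix.exists_mulVec_eq_zero_iff.2 (hcon z hzD)
      have hrow : ∀ i : Fin (m + 1), ∑ j : Fin m, iteratedDeriv (i : ℕ) (φ j.castSucc) z *
          v j.castSucc + iteratedDeriv (i : ℕ) (φ (Fin.last m)) z * v (Fin.last m) = 0 := by
        intro i
        have := congrFun hv i
        simpa [Matrix.mulVec, dotProduct, Fin.sum_univ_castSucc] using this
      have hvl : v (Fin.last m) ≠ 0 := by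
        intro h0
        apply hv0
        have hz' : (fun j : Fin m => v j.castSucc) = 0 := by
          apply Matrix.eq_zero_of_mulVec_eq_zero hz
          funext i
          have := hrow i.castSucc
          rw [h0, mul_zero, add_zero] at this
          simpa [Matrix.mulVec, dotProduct, hA] using this
        funext i
        refine Fin.lastCases h0 (fun j => ?_) i
        exact congrFun hz' j
      have hcv : (fun j => c j z) = fun j : Fin m => - v j.castSucc / v (Fin.last m) := by
        have hdiff : (A z).mulVec ((fun j => c j z) -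
            fun j : Fin m => - v j.castSucc / v (Fin.last m)) = 0 := by
          rw [Matrix.mulVec_sub, hsol z hz, sub_eq_zero]
          funext i
          have h3 := hrow i.castSucc
          simp only [Fin.val_castSucc] at h3
          simp only [hb, hA, Matrix.mulVec, dotProduct, Matrix.of_apply]
          have h4 : ∑ j : Fin m, iteratedDeriv (i : ℕ) (φ j.castSucc) z *
              (-v j.castSucc / v (Fin.last m)) =
              -(∑ j : Fin m, iteratedDeriv (i : ℕ) (φ j.castSucc) z * v j.castSucc) /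
                v (Fin.last m) := by
            rw [← Finset.sum_neg_distrib, Finset.sum_div]
            refine Finset.sum_congr rfl fun j _ => by ring
          rw [h4, eq_div_iff hvl]
          linear_combination h3
        exact sub_eq_zero.1 (Matrix.eq_zero_of_mulVec_eq_zero hz hdiff)
      have h5 := hrow (Fin.last m)
      simp only [Fin.val_last] at h5
      have h6 : ∀ j, c j z = - v j.castSucc / v (Fin.last m) := fun j => congrFun hcv j
      have h7 : ∑ j, iteratedDeriv m (φ j.castSucc) z * c j z =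
          -(∑ j : Fin m, iteratedDeriv m (φ j.castSucc) z * v j.castSucc) / v (Fin.last m) := by
        rw [← Finset.sum_neg_distrib, Finset.sum_div]
        refine Finset.sum_congr rfl fun j _ => by rw [h6]; ring
      rw [h7, div_eq_iff hvl]
      linear_combination -h5
    have hall : ∀ i ≤ m, ∀ z ∈ D, (A z).det ≠ 0 →
        ∑ j, iteratedDeriv i (φ j.castSucc) z * c j z = iteratedDeriv i (φ (Fin.last m)) z := by
      intro i hi z hzD hz
      rcases hi.lt_or_eq with hi' | rfl
      · have := congrFun (hsol z hz) ⟨i, hi'⟩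
        simpa [Matrix.mulVec, dotProduct, hA, hb] using this
      · exact hlast z hzD hz
    have hderiv : ∀ j, ∀ z ∈ Metric.ball z₀ r, deriv (c j) z = 0 := by
      intro j₀ z hzb
      obtain ⟨hzD, hz⟩ := hball z hzb
      have hzero : (A z).mulVec (fun j => deriv (c j) z) = 0 := by
        funext i
        have hev : (fun w => ∑ j, iteratedDeriv (i : ℕ) (φ j.castSucc) w * c j w) =ᶠ[𝓝 z]
            iteratedDeriv (i : ℕ) (φ (Fin.last m)) := by
          filter_upwards [Metric.isOpen_ball.mem_nhds hzb] with w hw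
          exact hall i i.2.le w (hball w hw).1 (hball w hw).2
        have h1 := hev.deriv_eq
        have h2 : deriv (fun w => ∑ j, iteratedDeriv (i : ℕ) (φ j.castSucc) w * c j w) z =
            ∑ j, (iteratedDeriv ((i : ℕ) + 1) (φ j.castSucc) z * c j z +
              iteratedDeriv (i : ℕ) (φ j.castSucc) z * deriv (c j) z) := by
          rw [deriv_fun_sum]
          · refine Finset.sum_congr rfl fun j _ => ?_
            rw [deriv_fun_mul (Wronsk_iterated (hd _ z hzD) _).differentiableAt (hcd j z hzD hz),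
              iteratedDeriv_succ]
          · intro j _
            exact (Wronsk_iterated (hd _ z hzD) _).differentiableAt.mul (hcd j z hzD hz)
        have h3 := hall ((i : ℕ) + 1) i.2 z hzD hz
        rw [h2, Finset.sum_add_distrib, h3, ← iteratedDeriv_succ] at h1
        have h4 : ∑ j, iteratedDeriv (i : ℕ) (φ j.castSucc) z * deriv (c j) z = 0 := by
          linear_combination h1
        simpa [Matrix.mulVec, dotProduct, hA] using h4
      exact congrFun (Matrix.eq_zero_of_mulVec_eq_zero hz hzero) j₀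
    have hconst : ∀ j, ∀ z ∈ Metric.ball z₀ r, c j z = c j z₀ := by
      intro j z hz
      exact (Metric.isOpen_ball.is_const_of_deriv_eq_zero (convex_ball z₀ r).isPreconnected
        (fun w hw => (hcd j w (hball w hw).1 (hball w hw).2).differentiableWithinAt)
        (fun w hw => hderiv j w hw) hz (Metric.mem_ball_self hr))
    -- identity theorem
    have hid : ∀ z ∈ D, ∑ j, φ j.castSucc z * c j z₀ = φ (Fin.last m) z := by
      have h1 : AnalyticOnNhd ℂ (fun z => ∑ j, φ j.castSucc z * c j z₀) D := by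
        intro z hz
        exact Finset.analyticAt_fun_sum _ fun j _ => (hd _ z hz).mul analyticAt_const
      have h2 : AnalyticOnNhd ℂ (φ (Fin.last m)) D := fun z hz => hd _ z hz
      have h3 : (fun z => ∑ j, φ j.castSucc z * c j z₀) =ᶠ[𝓝 z₀] φ (Fin.last m) := by
        filter_upwards [Metric.ball_mem_nhds z₀ hr] with z hz
        have h4 := hall 0 (Nat.zero_le _) z (hball z hz).1 (hball z hz).2
        simp only [iteratedDeriv_zero] at h4
        rw [← h4]
        exact Finset.sum_congr rfl fun j _ => by rw [hconst j z hz]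
      intro z hz
      exact h1.eqOn_of_preconnected_of_eventuallyEq h2 hDp hz₀D h3 hz
    have hsum := congrFun (hli (Fin.lastCases (-1) fun j => c j z₀) (by
        intro z hz
        simp only [Fin.sum_univ_castSucc, Fin.lastCases_castSucc, Fin.lastCases_last]
        have := hid z hz
        rw [← this]
        have h5 : ∑ j, c j z₀ * φ j.castSucc z = ∑ j, φ j.castSucc z * c j z₀ :=
          Finset.sum_congr rfl fun j _ => mul_comm _ _
        rw [h5]; ring)) (Fin.last m)
    simp at hsum

theorem wronsk_meroPunct {R₀ : ℝ} {n : ℕ} {u : Fin n → ℂ → ℂ} (hu : ∀ j, MeroPunct R₀ (u j))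
    (hind : ∀ (c : Fin n → ℂ) (z : ℂ), 0 < ‖z‖ → ‖z‖ < R₀ →
      (∀ᶠ ζ in 𝓝[≠] z, ∑ j, c j * u j ζ = 0) → c = 0) : MeroPunct R₀ (wronsk u) where
  mero z h1 h2 := by
    refine Wronsk_det_meromorphicAt fun i j => ?_
    have h3 : MeromorphicAt (iteratedDeriv (i : ℕ) (u j)) z := by
      rw [iteratedDeriv_eq_iterate]
      exact ((hu j).mero z h1 h2).iterated_deriv
    exact h3
  ord z h1 h2 := by
    intro htop
    rw [meromorphicOrderAt_eq_top_iff] at htop
    have han : ∀ᶠ ζ in 𝓝[≠] z, ∀ j, AnalyticAt ℂ (u j) ζ := by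
      rw [eventually_all]
      exact fun j => ((hu j).mero z h1 h2).eventually_analyticAt
    have hR : ∀ᶠ ζ in 𝓝[≠] z, 0 < ‖ζ‖ ∧ ‖ζ‖ < R₀ := by
      refine eventually_nhdsWithin_of_eventually_nhds ?_
      exact (continuous_norm.continuousAt.eventually_const_lt h1).and
        (continuous_norm.continuousAt.eventually_lt_const h2)
    have hall := (htop.and han).and hR
    rw [eventually_nhdsWithin_iff, Metric.eventually_nhds_iff_ball] at hall
    obtain ⟨ε, hε, hball⟩ := hall
    set z₁ : ℂ := z + ((ε / 2 : ℝ) : ℂ) with hz₁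
    have hz₁n : ‖z₁ - z‖ = ε / 2 := by
      rw [hz₁, add_sub_cancel_left, Complex.norm_real, Real.norm_of_nonneg (by positivity)]
    have hsub : ∀ ζ ∈ Metric.ball z₁ (ε / 2), ζ ∈ Metric.ball z ε ∧ ζ ∈ ({z}ᶜ : Set ℂ) := by
      intro ζ hζ
      rw [mem_ball_iff_norm] at hζ
      constructor
      · rw [mem_ball_iff_norm]
        calc ‖ζ - z‖ = ‖(ζ - z₁) + (z₁ - z)‖ := by ring_nf
          _ ≤ ‖ζ - z₁‖ + ‖z₁ - z‖ := norm_add_le _ _
          _ < ε / 2 + ε / 2 := by rw [hz₁n]; linarith
          _ = ε := by ring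
      · intro h
        rw [Set.mem_singleton_iff] at h
        rw [h, norm_sub_rev, hz₁n] at hζ
        exact lt_irrefl _ hζ
    have hmem : z₁ ∈ Metric.ball z₁ (ε / 2) := Metric.mem_ball_self (by positivity)
    obtain ⟨ζ, hζ, hne⟩ := Wronsk_exists u (Metric.ball z₁ (ε / 2)) Metric.isOpen_ball
      (convex_ball _ _).isPreconnected ⟨z₁, hmem⟩
      (fun j ζ hζ => (hball ζ (hsub ζ hζ).1 (hsub ζ hζ).2).1.2 j) (by
        intro c hc
        have h3 := hball z₁ (hsub z₁ hmem).1 (hsub z₁ hmem).2
        refine hind c z₁ h3.2.1 h3.2.2 ?_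
        refine eventually_nhdsWithin_of_eventually_nhds ?_
        filter_upwards [Metric.isOpen_ball.mem_nhds hmem] with ζ hζ
        exact hc ζ hζ)
    exact hne (hball ζ (hsub ζ hζ).1 (hsub ζ hζ).2).1.1

end Pool.Agent.H62.FC

end
end

section

/-!
# The generic point of a closed subvariety of projective space
-/

open MvPolynomial
open Pool.Agent.H17GT (coordFun functionField)

noncomputable section

namespace Pool.Agent.H92.GT.Proj

variable {N : ℕ}

lemma aeval_scale {K : Type} [Field K] [Algebra ℂ K] {G : MvPolynomial (Fin (N + 1)) ℂ} {n : ℕ}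
    (hG : G.IsHomogeneous n) (c : K) (x : Fin (N + 1) → K) :
    aeval (fun i => c * x i) G = c ^ n * aeval x G := by
  rw [aeval_def, aeval_def, eval₂_eq, eval₂_eq, Finset.mul_sum]
  refine Finset.sum_congr rfl fun m hm => ?_
  have h5 : ∑ i ∈ m.support, m i = n := by
    have := hG (mem_support_iff.1 hm)
    rw [Finsupp.weight_apply, Finsupp.sum] at this
    simpa using this
  simp only [mul_pow, Finset.prod_mul_distrib]
  rw [Finset.prod_pow_eq_pow_sum, h5]
  ring

lemma aeval_coordFun_eq_zero_iff (P : Ideal (MvPolynomial (Fin (N + 1)) ℂ)) [P.IsPrime]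
    (G : MvPolynomial (Fin (N + 1)) ℂ) : aeval (coordFun P) G = 0 ↔ G ∈ P := by
  have h7 : aeval (coordFun P) G =
      algebraMap (MvPolynomial (Fin (N + 1)) ℂ ⧸ P)
        (FractionRing (MvPolynomial (Fin (N + 1)) ℂ ⧸ P)) (Ideal.Quotient.mk P G) := by
    have h8 : (aeval (coordFun P) : MvPolynomial (Fin (N + 1)) ℂ →ₐ[ℂ] _) =
        (IsScalarTower.toAlgHom ℂ (MvPolynomial (Fin (N + 1)) ℂ ⧸ P)
          (FractionRing (MvPolynomial (Fin (N + 1)) ℂ ⧸ P))).comp (Ideal.Quotient.mkₐ ℂ P) := by
      apply MvPolynomial.algHom_ext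
      intro i
      rw [aeval_X]
      rfl
    rw [h8]
    rfl
  rw [h7, ← Ideal.Quotient.eq_zero_iff_mem]
  exact map_eq_zero_iff _ (IsFractionRing.injective (MvPolynomial (Fin (N + 1)) ℂ ⧸ P)
    (FractionRing (MvPolynomial (Fin (N + 1)) ℂ ⧸ P)))

/-- The generic point, normalised at a coordinate. -/
theorem proj_point (P : Ideal (MvPolynomial (Fin (N + 1)) ℂ)) [P.IsPrime] {j₀ : Fin (N + 1)}
    (hj₀ : coordFun P j₀ ≠ 0) :
    ∃ x : Fin (N + 1) → functionField P, x j₀ = 1 ∧
      IntermediateField.adjoin ℂ (Set.range x) = ⊤ ∧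
      ∀ (n : ℕ) (G : MvPolynomial (Fin (N + 1)) ℂ), G.IsHomogeneous n →
        (aeval x G = 0 ↔ G ∈ P) := by
  classical
  have hmem : ∀ i, coordFun P i / coordFun P j₀ ∈ functionField P := fun i =>
    IntermediateField.subset_adjoin _ _ ⟨i, j₀, rfl⟩
  set x : Fin (N + 1) → functionField P := fun i => ⟨coordFun P i / coordFun P j₀, hmem i⟩ with hx
  have hx1 : x j₀ = 1 := by
    apply Subtype.ext
    rw [hx]
    exact div_self hj₀
  have hratio : ∀ i j, ((x i / x j : functionField P) :
      FractionRing (MvPolynomial (Fin (N + 1)) ℂ ⧸ P)) = coordFun P i / coordFun P j := by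
    intro i j
    have h1 : ((x i / x j : functionField P) :
      FractionRing (MvPolynomial (Fin (N + 1)) ℂ ⧸ P)) =
        (coordFun P i / coordFun P j₀) / (coordFun P j / coordFun P j₀) := by
      rw [hx]
      rfl
    rw [h1, div_div_div_cancel_right₀ hj₀]
  have hgen : IntermediateField.adjoin ℂ {y | ∃ i j, y = x i / x j} = ⊤ := by
    rw [← IntermediateField.lift_inj, IntermediateField.lift_adjoin, IntermediateField.lift_top]
    conv_rhs => rw [functionField]
    congr 1
    ext y
    constructor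
    · rintro ⟨y', ⟨i, j, rfl⟩, rfl⟩
      exact ⟨i, j, hratio i j⟩
    · rintro ⟨i, j, rfl⟩
      exact ⟨x i / x j, ⟨i, j, rfl⟩, hratio i j⟩
  refine ⟨x, hx1, ?_, ?_⟩
  · rw [eq_top_iff, ← hgen, IntermediateField.adjoin_le_iff]
    rintro y ⟨i, j, rfl⟩
    exact div_mem (IntermediateField.subset_adjoin _ _ ⟨i, rfl⟩)
      (IntermediateField.subset_adjoin _ _ ⟨j, rfl⟩)
  · intro n G hG
    have h1 : ((aeval x G : functionField P) : FractionRing (MvPolynomial (Fin (N + 1)) ℂ ⧸ P)) =
        aeval (fun i => (coordFun P j₀)⁻¹ * coordFun P i) G := by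
      have h3 : ((functionField P).val (aeval x G)) =
          aeval (fun i => (functionField P).val (x i)) G := by
        rw [← MvPolynomial.comp_aeval]
        rfl
      change (functionField P).val (aeval x G) = _
      rw [h3]
      congr 2
      funext i
      change coordFun P i / coordFun P j₀ = _
      rw [div_eq_inv_mul]
    rw [aeval_scale hG] at h1
    rw [← aeval_coordFun_eq_zero_iff]
    constructor
    · intro h0
      rw [h0] at h1
      exact (mul_eq_zero.1 h1.symm).resolve_left (pow_ne_zero _ (inv_ne_zero hj₀))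
    · intro h0
      apply Subtype.ext
      rw [h1, h0, mul_zero]
      rfl

/-- Some coordinate does not vanish. -/
lemma exists_coordFun_ne_zero (P : Ideal (MvPolynomial (Fin (N + 1)) ℂ)) [P.IsPrime] {k : ℕ}
    (z : Fin (k + 1) → functionField P) (hz : IsTranscendenceBasis ℂ z) :
    ∃ j, coordFun P j ≠ 0 := by
  by_contra hcon
  push Not at hcon
  have h1 : functionField P = ⊥ := by
    rw [functionField, IntermediateField.adjoin_eq_bot_iff]
    rintro y ⟨i, j, rfl⟩
    rw [hcon i, zero_div]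
    exact zero_mem _
  have h2 := hz.1.transcendental 0
  apply h2
  have h3 : ((z 0 : functionField P) : FractionRing (MvPolynomial (Fin (N + 1)) ℂ ⧸ P)) ∈
      (⊥ : IntermediateField ℂ (FractionRing (MvPolynomial (Fin (N + 1)) ℂ ⧸ P))) := by
    rw [← h1]
    exact (z 0).2
  obtain ⟨a, ha⟩ := IntermediateField.mem_bot.1 h3
  have h4 : z 0 = algebraMap ℂ (functionField P) a := by
    apply Subtype.ext
    rw [← ha]
    rfl
  rw [h4]
  exact isAlgebraic_algebraMap a

end Pool.Agent.H92.GT.Proj

end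
end
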