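import Pool.Agent.H94.PX2.M08
import Pool.Agent.H94.PX2.M12
import Pool.Agent.H94.PX2.M16
import Pool.Agent.H94.PX2.M19

/-! The parts of this file: H7.Qup.Hom, PX.R3c, PY.Front, PY.Circ. -/

section

/-!
# Qup Hom: the embedding of the function fields given by a dominant regular map
-/

set_option autoImplicit false

open MvPolynomial

noncomputable section

namespace Pool.Agent.H7.Qup

open Pool.Agent.H17GT (coordFun)
open Pool.Agent.H17LG.Variety (FunField ratio)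
open Pool.Agent.H17R (gen gen_eq_zero_iff ratio_self adjoin_ratio coordFun_ne_zero_iff)
open Pool.Agent.H7.Bir (exists_form aeval_comp aeval_div)

variable {N M : ℕ}

/-- A homomorphism from a function field with given values at the coordinates. -/
theorem exists_hom_val {Q : Ideal (MvPolynomial (Fin (N + 1)) ℂ)} [Q.IsPrime] {j : Fin (N + 1)} (hj : coordFun Q j ≠ 0)
    {L : Type} [Field L] [Algebra ℂ L] {x : Fin (N + 1) → L} (hx : x j = 1)
    (h : ∀ (n : ℕ) (R : MvPolynomial (Fin (N + 1)) ℂ), R.IsHomogeneous n → (aeval x R = 0 ↔ R ∈ Q)) :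
    ∃ e : FunField Q →ₐ[ℂ] L, ∀ i, e (ratio Q i j) = x i := by
  set ξ : Fin (N + 1) → FunField Q := fun i => ratio Q i j with hξ
  have hker : ∀ R : MvPolynomial (Fin (N + 1)) ℂ, aeval ξ R = 0 ↔ aeval x R = 0 := by
    intro R
    obtain ⟨D, h1⟩ := exists_form j R
    obtain ⟨R', h2, h3⟩ := h1 D le_rfl
    rw [← h3 _ ξ (ratio_self hj), ← h3 _ x hx, h D R' h2]
    exact gen_eq_zero_iff hj h2
  set f : MvPolynomial (Fin (N + 1)) ℂ →ₐ[ℂ] (aeval ξ : MvPolynomial (Fin (N + 1)) ℂ →ₐ[ℂ] FunField Q).range :=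
    (aeval ξ : MvPolynomial (Fin (N + 1)) ℂ →ₐ[ℂ] FunField Q).rangeRestrict with hf
  have hfs : Function.Surjective f := AlgHom.rangeRestrict_surjective _
  have hfv : ∀ R, ((f R : (aeval ξ : MvPolynomial (Fin (N + 1)) ℂ →ₐ[ℂ] FunField Q).range) : FunField Q) = aeval ξ R := fun R => rfl
  have hle : RingHom.ker f.toRingHom ≤ RingHom.ker (aeval x : MvPolynomial (Fin (N + 1)) ℂ →ₐ[ℂ] L).toRingHom := by
    intro R hR
    have h1 : f R = 0 := hR
    have h2 : aeval ξ R = 0 := by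
      rw [← hfv, h1]
      rfl
    exact (hker R).1 h2
  set g := AlgHom.liftOfSurjective f hfs (aeval x) hle with hg
  have hgv : ∀ R, g (f R) = aeval x R := fun R => AlgHom.liftOfSurjective_apply f hfs (aeval x) hle R
  have hgi : Function.Injective g := by
    rw [injective_iff_map_eq_zero]
    intro a ha
    obtain ⟨R, rfl⟩ := hfs a
    rw [hgv] at ha
    exact Subtype.ext ((hker R).2 ha)
  have hfr : IsFractionRing (aeval ξ : MvPolynomial (Fin (N + 1)) ℂ →ₐ[ℂ] FunField Q).range (FunField Q) := by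
    refine IsFractionRing.of_field _ _ fun z => ?_
    have hz : z ∈ IntermediateField.adjoin ℂ (Set.range ξ) := by
      rw [adjoin_ratio hj]
      trivial
    obtain ⟨r, s, hrs⟩ := (IntermediateField.mem_adjoin_range_iff ℂ ξ z).1 hz
    exact ⟨f r, f s, hrs⟩
  refine ⟨IsFractionRing.liftAlgHom hgi, fun i => ?_⟩
  rw [IsFractionRing.liftAlgHom_apply]
  have h1 : ratio Q i j = algebraMap (aeval ξ : MvPolynomial (Fin (N + 1)) ℂ →ₐ[ℂ] FunField Q).range (FunField Q) (f (X i)) := by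
    change _ = aeval ξ (X i)
    rw [aeval_X]
  rw [h1, IsFractionRing.lift_algebraMap]
  change g (f (X i)) = _
  rw [hgv, aeval_X]

end Pool.Agent.H7.Qup

end
end

section

/-!
# PX R3c: the forms over a disc have three distinct roots near every point, or nowhere

`r3_near`: as in `Hit` divide the form by a power of `z - z₀`, choose `b`; `sqfree`: the number of the roots is constant for `z ≠ z₀` near `z₀`.  `r3_conn`: the set of the `z` in the disc with `∃ᶠ z' in 𝓝[≠] z, R3 θ (H z')` is open and closed in the disc (`r3_near`), and contains `z₁` (`r3_open`).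
-/

set_option autoImplicit false

open Topology Filter Metric

namespace Pool.Agent.PX

open Pool.Agent.H36.BP (EN fs wd)
open Pool.Agent.H62.EF (MN pr)
open Pool.Agent.AD (Vd)
open Pool.Agent.TG (Lat)
open Pool.Agent.G3 (wt LLift)
open Pool.Agent.G4 (Few)

variable {k d r : ℕ}

/-- the number of the distinct roots of a polynomial with simple roots is its degree -/
private theorem card_iff {m : ℕ} {c : Fin m → ℂ → ℂ} {z : ℂ} (hs : ∀ t, Pt c z t = 0 → deriv (Pt c z) t ≠ 0) :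
    (∃ t₁ t₂ t₃ : ℂ, Pt c z t₁ = 0 ∧ Pt c z t₂ = 0 ∧ Pt c z t₃ = 0 ∧ t₁ ≠ t₂ ∧ t₁ ≠ t₃ ∧ t₂ ≠ t₃) ↔ 3 ≤ m := by
  classical
  set q : Polynomial ℂ := ∑ i : Fin m, Polynomial.C (c i z) * Polynomial.X ^ (i : ℕ) with hq
  set p : Polynomial ℂ := Polynomial.X ^ m + q with hp
  have hqd : q.degree < m := by
    rw [hq, Polynomial.degree_lt_iff_coeff_zero]
    intro j hj
    rw [Polynomial.finsetSum_coeff]
    refine Finset.sum_eq_zero fun i _ => ?_
    rw [Polynomial.coeff_C_mul_X_pow, if_neg]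
    have := i.2
    omega
  have hpm : p.Monic := Polynomial.monic_X_pow_add hqd
  have hpd : p.natDegree = m := by
    rw [hp, Polynomial.natDegree_eq_of_degree_eq_some]
    rw [Polynomial.degree_add_eq_left_of_degree_lt, Polynomial.degree_X_pow]
    rwa [Polynomial.degree_X_pow]
  have hpe : ∀ t, p.eval t = Pt c z t := fun t => by
    simp only [hp, hq, Pt, Polynomial.eval_add, Polynomial.eval_pow, Polynomial.eval_X, Polynomial.eval_finsetSum, Polynomial.eval_mul, Polynomial.eval_C]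
  have hmem : ∀ t, t ∈ p.roots.toFinset ↔ Pt c z t = 0 := fun t => by
    rw [Multiset.mem_toFinset, Polynomial.mem_roots hpm.ne_zero, Polynomial.IsRoot.def, hpe]
  have hcard : p.roots.toFinset.card = m := by
    have h1 : p.roots.Nodup := by
      rw [Multiset.nodup_iff_count_le_one]
      intro t
      rw [Polynomial.count_roots]
      by_contra h2
      rw [not_le, Polynomial.one_lt_rootMultiplicity_iff_isRoot hpm.ne_zero] at h2
      obtain ⟨h3, h4⟩ := h2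
      rw [Polynomial.IsRoot.def, hpe] at h3
      refine hs t h3 ?_
      have h5 : Pt c z = fun t => p.eval t := funext fun t => (hpe t).symm
      rw [h5, Polynomial.deriv]
      exact h4
    rw [Multiset.toFinset_card_of_nodup h1, ← hpd]
    exact (Polynomial.splits_iff_card_roots.1 (IsAlgClosed.splits p))
  have h3 : 3 ≤ m ↔ 2 < p.roots.toFinset.card := by
    rw [hcard]
    exact Iff.rfl
  rw [h3]
  constructor
  · rintro ⟨t₁, t₂, t₃, h1, h2, h3, h4, h5, h6⟩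
    exact Finset.two_lt_card_iff.2 ⟨t₁, t₂, t₃, (hmem _).2 h1, (hmem _).2 h2, (hmem _).2 h3, h4, h5, h6⟩
  · intro h
    obtain ⟨t₁, t₂, t₃, h1, h2, h3, h4, h5, h6⟩ := Finset.two_lt_card_iff.1 h
    exact ⟨t₁, t₂, t₃, (hmem _).1 h1, (hmem _).1 h2, (hmem _).1 h3, h4, h5, h6⟩

/-- three distinct roots on the line `t • b + e` -/
private theorem r3_iff {θ : Fin (d + 1) → Vd (k + 1) → ℂ} {y : Vd (k + 1)} {b e : EN 1} (hbe : dt b e ≠ 0) (hb : Fo θ y b ≠ 0) :
    R3 θ y ↔ ∃ t₁ t₂ t₃ : ℂ, Fo θ y (t₁ • b + e) = 0 ∧ Fo θ y (t₂ • b + e) = 0 ∧ Fo θ y (t₃ • b + e) = 0 ∧ t₁ ≠ t₂ ∧ t₁ ≠ t₃ ∧ t₂ ≠ t₃ := by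
  constructor
  · rintro ⟨x₁, x₂, x₃, h1, h2, h3, h12, h13, h23⟩
    have hz : ∀ v : EN 1, dt (0 : EN 1) v = 0 ∧ dt v (0 : EN 1) = 0 := fun v => by simp [dt]
    have hx1 : x₁ ≠ 0 := by rintro rfl; exact h12 (hz _).1
    have hx2 : x₂ ≠ 0 := by rintro rfl; exact h12 (hz _).2
    have hx3 : x₃ ≠ 0 := by rintro rfl; exact h13 (hz _).2
    obtain ⟨a1, e1⟩ := rt_dt hbe hb hx1 h1
    obtain ⟨a2, e2⟩ := rt_dt hbe hb hx2 h2
    obtain ⟨a3, e3⟩ := rt_dt hbe hb hx3 h3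
    have key : ∀ x : EN 1, Fo θ y x = 0 → dt b x ≠ 0 → x = (dt b x / dt b e) • ((-(dt e x) / dt b x) • b + e) → Fo θ y ((-(dt e x) / dt b x) • b + e) = 0 := by
      intro x hx ha hxe
      rw [hxe, fo_smul] at hx
      rcases mul_eq_zero.1 hx with h | h
      · exact absurd h (pow_ne_zero _ (div_ne_zero ha hbe))
      · exact h
    have dist : ∀ x x' : EN 1, dt x x' ≠ 0 → dt b x ≠ 0 → dt b x' ≠ 0 → -(dt e x) / dt b x ≠ -(dt e x') / dt b x' := by
      intro x x' hxx hx hx' h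
      rw [div_eq_div_iff hx hx'] at h
      have h4 : dt b e * dt x x' = 0 := by
        have h5 : dt b e * dt x x' = dt b x * dt e x' - dt b x' * dt e x := by simp only [dt]; ring
        rw [h5]
        linear_combination h
      exact (mul_ne_zero hbe hxx) h4
    exact ⟨_, _, _, key x₁ h1 a1 e1, key x₂ h2 a2 e2, key x₃ h3 a3 e3, dist _ _ h12 a1 a2, dist _ _ h13 a1 a3, dist _ _ h23 a2 a3⟩
  · rintro ⟨t₁, t₂, t₃, h1, h2, h3, h12, h13, h23⟩
    have key : ∀ s t : ℂ, s ≠ t → dt (s • b + e) (t • b + e) ≠ 0 := by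
      intro s t hst
      have h4 : dt (s • b + e) (t • b + e) = (s - t) * dt b e := by
        simp only [dt, PiLp.add_apply, PiLp.smul_apply, smul_eq_mul]
        ring
      rw [h4]
      exact mul_ne_zero (sub_ne_zero.2 hst) hbe
    exact ⟨_, _, _, h1, h2, h3, key _ _ h12, key _ _ h13, key _ _ h23⟩

/-- the universal form -/
private def un (d : ℕ) : Fin (d + 1) → Vd (d + 1) → ℂ := fun i y => y i

private theorem un_diff (i : Fin (d + 1)) : Differentiable ℂ (un d i) := differentiable_apply i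

/-- a nonzero form is not `0` at some `(t, 1)` -/
private theorem exists_b {y : Vd (d + 1)} (hy : y ≠ 0) : ∃ b e : EN 1, dt b e ≠ 0 ∧ Fo (un d) y b ≠ 0 := by
  by_contra hcon
  push Not at hcon
  refine hy (funext fun i => ?_)
  set p : Polynomial ℂ := ∑ i : Fin (d + 1), Polynomial.C (y i) * Polynomial.X ^ (i : ℕ) with hp
  have h1 : p = 0 := by
    refine Polynomial.funext fun t => ?_
    have h2 := hcon (WithLp.toLp 2 ![t, 1]) (WithLp.toLp 2 ![1, 0]) (by simp [dt])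
    simp only [Fo, un] at h2
    simp only [hp, Polynomial.eval_finsetSum, Polynomial.eval_mul, Polynomial.eval_C, Polynomial.eval_pow, Polynomial.eval_X, Polynomial.eval_zero]
    rw [← h2]
    refine Finset.sum_congr rfl fun i _ => ?_
    simp
  have h3 : p.coeff (i : ℕ) = y i := by
    rw [hp, Polynomial.finsetSum_coeff]
    rw [Finset.sum_eq_single i]
    · simp
    · intro j _ hj
      rw [Polynomial.coeff_C_mul_X_pow, if_neg]
      intro h
      exact hj (Fin.ext h.symm)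
    · intro h
      exact absurd (Finset.mem_univ i) h
  rw [← h3, h1]
  simp

/-- the coefficients, divided by a power of `z - z₀` -/
private theorem exists_f {g : Fin (d + 1) → ℂ → ℂ} {z₀ : ℂ} (hg : ∀ i, AnalyticAt ℂ (g i) z₀) (hn : ∀ᶠ z in 𝓝[≠] z₀, ∃ i, g i z ≠ 0) :
    ∃ (m : ℕ) (f : ℂ → Vd (d + 1)), AnalyticAt ℂ f z₀ ∧ f z₀ ≠ 0 ∧ ∀ᶠ z in 𝓝 z₀, ∀ i, g i z = (z - z₀) ^ m * f z i := by
  classical
  obtain ⟨j₀, _, hj₀⟩ := Finset.exists_min_image (Finset.univ : Finset (Fin (d + 1))) (fun i => analyticOrderAt (g i) z₀) Finset.univ_nonempty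
  have h1 : analyticOrderAt (g j₀) z₀ ≠ ⊤ := by
    intro h
    have h2 : ∀ i, ∀ᶠ z in 𝓝 z₀, g i z = 0 := fun i => by
      rw [← analyticOrderAt_eq_top]
      have := hj₀ i (Finset.mem_univ i)
      rw [h] at this
      exact top_le_iff.1 this
    have h3 : ∀ᶠ z in 𝓝[≠] z₀, ∀ i, g i z = 0 := (eventually_all.2 h2).filter_mono nhdsWithin_le_nhds
    obtain ⟨z, ⟨i, hi⟩, h4⟩ := (hn.and h3).exists
    exact hi (h4 i)
  obtain ⟨m, hm⟩ := ENat.ne_top_iff_exists.1 h1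
  have h2 : ∀ i, ∃ f : ℂ → ℂ, AnalyticAt ℂ f z₀ ∧ (∀ᶠ z in 𝓝 z₀, g i z = (z - z₀) ^ m * f z) ∧ (i = j₀ → f z₀ ≠ 0) := by
    intro i
    by_cases hi : i = j₀
    · subst hi
      obtain ⟨f, f1, f2, f3⟩ := ((hg i).analyticOrderAt_eq_natCast).1 hm.symm
      exact ⟨f, f1, f3, fun _ => f2⟩
    · have h3 : (m : ℕ∞) ≤ analyticOrderAt (g i) z₀ := by
        rw [hm]
        exact hj₀ i (Finset.mem_univ i)
      obtain ⟨f, f1, f3⟩ := (natCast_le_analyticOrderAt (hg i)).1 h3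
      exact ⟨f, f1, f3, fun h => absurd h hi⟩
  choose f f1 f2 f3 using h2
  refine ⟨m, fun z i => f i z, analyticAt_pi_iff.2 f1, fun h => f3 j₀ rfl (congrFun h j₀), eventually_all.2 f2⟩

theorem r3_near {θ : Fin (d + 1) → Vd (k + 1) → ℂ} (han : ∀ i, Differentiable ℂ (θ i)) {H : ℂ → Vd (k + 1)} {z₀ : ℂ} (hH : AnalyticAt ℂ H z₀) (hn : ∀ᶠ z in 𝓝[≠] z₀, ∃ i, θ i (H z) ≠ 0)
    (h3 : ∃ᶠ z in 𝓝[≠] z₀, R3 θ (H z)) : ∀ᶠ z in 𝓝[≠] z₀, R3 θ (H z) := by
  obtain ⟨m, f, hf, hf0, hfe⟩ := exists_f (g := fun i z => θ i (H z)) (fun i => by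
    rw [Complex.analyticAt_iff_eventually_differentiableAt]
    filter_upwards [hH.eventually_analyticAt] with z hz
    exact (han i (H z)).comp z hz.differentiableAt) hn
  obtain ⟨b, e, hbe, hb⟩ := exists_b hf0
  -- comparison of the two forms
  have hR : ∀ᶠ z in 𝓝[≠] z₀, (R3 θ (H z) ↔ R3 (un d) (f z)) := by
    filter_upwards [hfe.filter_mono nhdsWithin_le_nhds, self_mem_nhdsWithin] with z h1 h2
    have h4 : (z - z₀) ^ m ≠ 0 := pow_ne_zero _ (sub_ne_zero.2 h2)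
    have h5 : ∀ x, Fo θ (H z) x = (z - z₀) ^ m * Fo (un d) (f z) x := fun x => by
      simp only [Fo, un, Finset.mul_sum, h1, mul_assoc]
    have h6 : ∀ x, Fo θ (H z) x = 0 ↔ Fo (un d) (f z) x = 0 := fun x => by
      rw [h5, mul_eq_zero, or_iff_right h4]
    simp only [R3, h6]
  obtain ⟨c, hc, hce⟩ := exists_coef (θ := un d) un_diff b e
  have hFb : Differentiable ℂ fun y : Vd (d + 1) => Fo (un d) y b := by
    unfold Fo
    exact Differentiable.fun_sum fun i _ => ((un_diff i).mul_const _).mul_const _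
  have hev : ∀ᶠ z in 𝓝 z₀, DifferentiableAt ℂ f z ∧ Fo (un d) (f z) b ≠ 0 := by
    refine (hf.eventually_analyticAt.mono fun z hz => hz.differentiableAt).and ?_
    exact ((hFb (f z₀)).continuousAt.comp hf.continuousAt).eventually_ne hb
  obtain ⟨R, hR0, hball⟩ := Metric.eventually_nhds_iff_ball.1 hev
  have hin : ∀ z ∈ ball (0 : ℂ) R, z₀ + z ∈ ball z₀ R := fun z hz => by
    rw [mem_ball_zero_iff] at hz
    rw [mem_ball_iff_norm, add_sub_cancel_left]
    exact hz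
  have hC : ∀ i, DifferentiableOn ℂ (fun z => c i (f (z₀ + z)) / Fo (un d) (f (z₀ + z)) b) (ball 0 R) := by
    intro i z hz
    obtain ⟨e1, e2⟩ := hball _ (hin z hz)
    have e3 : DifferentiableAt ℂ (fun z : ℂ => f (z₀ + z)) z := e1.comp z ((differentiableAt_const _).add differentiableAt_id)
    exact (((hc i _).comp z e3).div ((hFb _).comp z e3) e2).differentiableWithinAt
  obtain ⟨ρ, hρ, hρR, m', c', hc1, hc2, hc3⟩ := sqfree hR0 hC
  have hPt : ∀ z ∈ ball (0 : ℂ) R, ∀ t, (Fo (un d) (f (z₀ + z)) (t • b + e) = 0 ↔ Pt (fun i z => c i (f (z₀ + z)) / Fo (un d) (f (z₀ + z)) b) z t = 0) := by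
    intro z hz t
    have e2 := (hball _ (hin z hz)).2
    have e3 : Fo (un d) (f (z₀ + z)) (t • b + e) = Fo (un d) (f (z₀ + z)) b * Pt (fun i z => c i (f (z₀ + z)) / Fo (un d) (f (z₀ + z)) b) z t := by
      rw [hce, Pt, mul_add, Finset.mul_sum]
      congr 1
      refine Finset.sum_congr rfl fun i _ => ?_
      field_simp
    rw [e3, mul_eq_zero, or_iff_right e2]
  have hiff : ∀ z ∈ ball (0 : ℂ) ρ, z ≠ 0 → (R3 (un d) (f (z₀ + z)) ↔ 3 ≤ m') := by
    intro z hz hz0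
    have hzR : z ∈ ball (0 : ℂ) R := ball_subset_ball hρR hz
    rw [r3_iff hbe (hball _ (hin z hzR)).2, ← card_iff (hc3 z hz hz0)]
    simp only [hPt z hzR, hc2 z hz hz0]
  have hiff' : ∀ᶠ z in 𝓝[≠] z₀, (R3 (un d) (f z) ↔ 3 ≤ m') := by
    filter_upwards [mem_nhdsWithin_of_mem_nhds (ball_mem_nhds z₀ hρ), self_mem_nhdsWithin] with z h1 h2
    have h4 := hiff (z - z₀) (by rw [mem_ball_zero_iff, ← mem_ball_iff_norm]; exact h1) (sub_ne_zero.2 h2)
    rwa [add_sub_cancel] at h4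
  obtain ⟨z, h1, h2, h4⟩ := (h3.and_eventually (hR.and hiff')).exists
  have h5 : 3 ≤ m' := h4.1 (h2.1 h1)
  filter_upwards [hR, hiff'] with w e1 e2
  exact e1.2 (e2.2 h5)

/-- a property which holds in a punctured neighbourhood of `z` holds in punctured neighbourhoods of the points near `z` -/
private theorem ev_ev {p : ℂ → Prop} {z : ℂ} (h : ∀ᶠ z' in 𝓝[≠] z, p z') : ∀ᶠ w in 𝓝 z, ∀ᶠ z' in 𝓝[≠] w, p z' := by
  have h1 := eventually_eventually_nhdsWithin.2 h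
  rw [eventually_nhdsWithin_iff] at h1
  filter_upwards [h1] with w hw
  by_cases hwz : w = z
  · rw [hwz]
    exact h
  · have h2 := hw hwz
    rw [isOpen_compl_singleton.nhdsWithin_eq hwz] at h2
    exact h2.filter_mono nhdsWithin_le_nhds

theorem r3_conn {θ : Fin (d + 1) → Vd (k + 1) → ℂ} (han : ∀ i, Differentiable ℂ (θ i)) {H : ℂ → Vd (k + 1)} (hH : DifferentiableOn ℂ H (ball 0 1)) (hn : ∀ z ∈ ball (0 : ℂ) 1, z ≠ 0 → ∃ i, θ i (H z) ≠ 0)
    {z₁ : ℂ} (hz₁ : z₁ ∈ ball (0 : ℂ) 1) (hz₁0 : z₁ ≠ 0) (h3 : R3 θ (H z₁)) : ∀ᶠ z in 𝓝[≠] (0 : ℂ), R3 θ (H z) := by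
  have hHa : ∀ z ∈ ball (0 : ℂ) 1, AnalyticAt ℂ H z := fun z hz => hH.analyticAt (isOpen_ball.mem_nhds hz)
  have hn' : ∀ z ∈ ball (0 : ℂ) 1, ∀ᶠ z' in 𝓝[≠] z, ∃ i, θ i (H z') ≠ 0 := by
    intro z hz
    have h1 : ∀ᶠ z' in 𝓝[≠] z, z' ≠ 0 := by
      by_cases hz0 : z = 0
      · rw [hz0]
        exact self_mem_nhdsWithin
      · exact mem_nhdsWithin_of_mem_nhds (isOpen_ne.mem_nhds hz0)
    filter_upwards [h1, mem_nhdsWithin_of_mem_nhds (isOpen_ball.mem_nhds hz)] with z' e1 e2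
    exact hn z' e2 e1
  set u : Set ℂ := {z | z ∈ ball (0 : ℂ) 1 ∧ ∀ᶠ z' in 𝓝[≠] z, R3 θ (H z')} with hu
  have hsub : ball (0 : ℂ) 1 ⊆ u := by
    refine (convex_ball (0 : ℂ) 1).isPreconnected.subset_of_closure_inter_subset ?_ ?_ ?_
    · rw [isOpen_iff_mem_nhds]
      rintro z ⟨h1, h2⟩
      filter_upwards [isOpen_ball.mem_nhds h1, ev_ev h2] with w e1 e2
      exact ⟨e1, e2⟩
    · refine ⟨z₁, hz₁, hz₁, ?_⟩
      exact ((hHa z₁ hz₁).continuousAt.eventually (r3_open han (hn z₁ hz₁ hz₁0) h3)).filter_mono nhdsWithin_le_nhds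
    · rintro z ⟨h1, h2⟩
      refine ⟨h2, r3_near han (hHa z h2) (hn' z h2) ?_⟩
      intro h4
      obtain ⟨w, e1, e2⟩ := ((mem_closure_iff_frequently.1 h1).and_eventually (ev_ev h4)).exists
      obtain ⟨z', f1, f2⟩ := (e1.2.and e2).exists
      exact f2 f1
  exact (hsub (mem_ball_self one_pos)).2

end Pool.Agent.PX

end

section

/-!
# PY Front: the data

`D` is the set of the points over which the form is `0` or has at most two distinct roots: closed (`r3_open`), invariant; a line which is not contained in `D` meets `D` in isolated points (`r3_near`, connectedness).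
-/

set_option autoImplicit false

open Topology Filter Metric

namespace Pool.Agent.PY

open Pool.Agent.H36.BP (EN fs wd)
open Pool.Agent.H62.EF (MN pr)
open Pool.Agent.AD (Vd)
open Pool.Agent.TG (Lat)
open Pool.Agent.G3 (wt LLift)
open Pool.Agent.PX

variable {k d r : ℕ}

/-- the exceptional set: the form is `0` or has at most two distinct roots -/
def D2 (θ : Fin (d + 1) → Vd (k + 1) → ℂ) : Set (Vd (k + 1)) := {y | ¬((∃ i, θ i y ≠ 0) ∧ R3 θ y)}

theorem d2_open {θ : Fin (d + 1) → Vd (k + 1) → ℂ} (han : ∀ i, Differentiable ℂ (θ i)) {y : Vd (k + 1)} (hy : y ∉ D2 θ) : ∀ᶠ y' in 𝓝 y, y' ∉ D2 θ := by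
  have h : (∃ i, θ i y ≠ 0) ∧ R3 θ y := not_not.1 hy
  obtain ⟨⟨i, hi⟩, h3⟩ := h
  filter_upwards [(han i).continuous.continuousAt.eventually_ne hi, r3_open han ⟨i, hi⟩ h3] with y' h1 h2
  exact not_not.2 ⟨⟨i, h1⟩, h2⟩

theorem d2_closed {θ : Fin (d + 1) → Vd (k + 1) → ℂ} (han : ∀ i, Differentiable ℂ (θ i)) : IsClosed (D2 θ) := by
  rw [← isOpen_compl_iff, isOpen_iff_eventually]
  intro y hy
  exact d2_open han hy

/-- a line which is not contained in `D2` meets it in isolated points -/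
theorem d2_iso {θ : Fin (d + 1) → Vd (k + 1) → ℂ} (han : ∀ i, Differentiable ℂ (θ i)) {y a : Vd (k + 1)} (h : ∃ z : ℂ, y + z • a ∉ D2 θ) (z₀ : ℂ) :
    ∀ᶠ z in 𝓝[≠] z₀, y + z • a ∉ D2 θ := by
  have hline : Differentiable ℂ fun z : ℂ => y + z • a := by fun_prop
  -- the points off `D2` are open on the line
  have hop : ∀ z : ℂ, y + z • a ∉ D2 θ → ∀ᶠ z' in 𝓝 z, y + z' • a ∉ D2 θ := fun z hz =>
    hline.continuous.continuousAt.eventually (d2_open han hz)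
  -- frequently implies eventually
  have hfe : ∀ z : ℂ, (∃ᶠ z' in 𝓝[≠] z, y + z' • a ∉ D2 θ) → ∀ᶠ z' in 𝓝[≠] z, y + z' • a ∉ D2 θ := by
    intro z hz
    have hfr : ∃ᶠ z' in 𝓝[≠] z, (∃ i, θ i (y + z' • a) ≠ 0) ∧ R3 θ (y + z' • a) := hz.mono fun z' h => not_not.1 h
    have hn : ∀ᶠ z' in 𝓝[≠] z, ∃ i, θ i (y + z' • a) ≠ 0 := by
      by_contra hcon
      have hall : ∀ i, ∀ᶠ z' in 𝓝[≠] z, θ i (y + z' • a) = 0 := by
        intro i
        have hai : AnalyticAt ℂ (fun z : ℂ => θ i (y + z • a)) z := ((han i).comp hline).analyticAt z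
        rcases hai.eventually_eq_zero_or_eventually_ne_zero with h1 | h1
        · exact h1.filter_mono nhdsWithin_le_nhds
        · exact absurd (h1.mono fun z' h => ⟨i, h⟩) hcon
      obtain ⟨z', ⟨⟨i, hi⟩, -⟩, h2⟩ := (hfr.and_eventually (eventually_all.2 hall)).exists
      exact hi (h2 i)
    have h3 := r3_near han (H := fun z : ℂ => y + z • a) (hline.analyticAt z) hn (hfr.mono fun z' h => h.2)
    filter_upwards [hn, h3] with z' h1 h2
    exact not_not.2 ⟨h1, h2⟩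
  set S : Set ℂ := {z | ∀ᶠ z' in 𝓝[≠] z, y + z' • a ∉ D2 θ} with hS
  have hSo : IsOpen S := by
    rw [isOpen_iff_eventually]
    intro z hz
    have h1 : ∀ᶠ z' in 𝓝 z, z' ≠ z → y + z' • a ∉ D2 θ := eventually_nhdsWithin_iff.1 hz
    filter_upwards [h1] with z' hz'
    by_cases he : z' = z
    · rw [he]
      exact hz
    · exact (hop z' (hz' he)).filter_mono nhdsWithin_le_nhds
  have hSc : IsClosed S := by
    rw [← isOpen_compl_iff, isOpen_iff_eventually]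
    intro z hz
    have h1 : ∀ᶠ z' in 𝓝[≠] z, y + z' • a ∈ D2 θ := by
      by_contra hcon
      exact hz (hfe z (not_eventually.1 hcon))
    have h2 : ∀ᶠ z' in 𝓝 z, ∀ᶠ z'' in 𝓝 z', z'' ≠ z → y + z'' • a ∈ D2 θ := (eventually_nhdsWithin_iff.1 h1).eventually_nhds
    filter_upwards [h2] with z' hz'
    by_cases he : z' = z
    · rw [he]
      exact hz
    · intro hz''
      have h3 : ∀ᶠ z'' in 𝓝[≠] z', y + z'' • a ∉ D2 θ := hz''
      have h4 : ∀ᶠ z'' in 𝓝[≠] z', z'' ≠ z → y + z'' • a ∈ D2 θ := hz'.filter_mono nhdsWithin_le_nhds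
      have h5 : ∀ᶠ z'' in 𝓝[≠] z', z'' ≠ z := mem_nhdsWithin_of_mem_nhds (isOpen_ne.mem_nhds he)
      obtain ⟨z'', h6, h7, h8⟩ := (h3.and (h4.and h5)).exists
      exact h6 (h7 h8)
  have hSn : S.Nonempty := by
    obtain ⟨z, hz⟩ := h
    exact ⟨z, (hop z hz).filter_mono nhdsWithin_le_nhds⟩
  have hSu : S = Set.univ := IsClopen.eq_univ ⟨hSc, hSo⟩ hSn
  have : z₀ ∈ S := by
    rw [hSu]
    exact Set.mem_univ _
  exact this

theorem exists_pe {Λ : AddSubgroup (Vd (k + 1))} {θ : Fin (d + 1) → Vd (k + 1) → ℂ} {W : Fin r → Vd (k + 1) →L[ℂ] ℂ} (hΛ : Lat Λ) (han : ∀ i, Differentiable ℂ (θ i))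
    (hper : ∀ l ∈ Λ, ∀ y, ∃ e : ℂ, ‖e‖ * Real.exp (-wt W (y + l)) = Real.exp (-wt W y) ∧ ∀ i, θ i (y + l) = e * θ i y) (hpos : ∀ y, (∀ i, W i y = 0) → y = 0)
    (hL : ∀ a : Vd (k + 1), a ≠ 0 → ∀ y, ∃ z : ℂ, (∃ i, θ i (y + z • a) ≠ 0) ∧ R3 θ (y + z • a))
    (hR : ∀ a : Vd (k + 1), a ≠ 0 → ∀ y, ¬ ∃ G : ℂ → EN 1, Differentiable ℂ G ∧ (∀ z, G z ≠ 0) ∧ ∀ z : ℂ, Fo θ (y + z • a) (G z) = 0) :
    PE Λ (D2 θ) θ W where
  lat := hΛ
  deg := by
    obtain ⟨a, ha⟩ := exists_ne (0 : Vd (k + 1))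
    obtain ⟨z, ⟨i, hi⟩, x₁, -, -, h1, -⟩ := hL a ha 0
    by_contra hd
    have hd0 : d = 0 := by omega
    subst hd0
    have hi0 : i = 0 := Fin.ext (by have := i.2; simp)
    apply hi
    unfold Fo at h1
    simpa [hi0] using h1
  an := han
  per := hper
  pos := hpos
  D_closed := d2_closed han
  D_inv := by
    intro y hy l hl h
    apply hy
    obtain ⟨⟨i, hi⟩, x₁, x₂, x₃, h1, h2, h3, h4⟩ := h
    obtain ⟨e, he, hθ⟩ := hper l hl y
    have he0 : e ≠ 0 := by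
      rintro rfl
      rw [norm_zero, zero_mul] at he
      exact (Real.exp_pos _).ne he
    have hF : ∀ x, Fo θ (y + l) x = e * Fo θ y x := by
      intro x
      unfold Fo
      rw [Finset.mul_sum]
      refine Finset.sum_congr rfl fun i _ => ?_
      rw [hθ i]
      ring
    rw [hF] at h1 h2 h3
    refine ⟨⟨i, fun h => hi (by rw [hθ, h, mul_zero])⟩, x₁, x₂, x₃, (mul_eq_zero.1 h1).resolve_left he0, (mul_eq_zero.1 h2).resolve_left he0, (mul_eq_zero.1 h3).resolve_left he0, h4⟩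
  three := fun y hy => (not_not.1 hy).2
  form := fun y hy => (not_not.1 hy).1
  iso := by
    intro a ha y
    obtain ⟨z, hz⟩ := hL a ha y
    exact d2_iso han ⟨z, not_not.2 hz⟩ 0
  noroot := fun y a ha G hG h0 hr => hR a ha y ⟨G, hG, h0, hr⟩

end Pool.Agent.PY

end

section

/-!
# PY Circ: circles over `Gd D δ`

As `G4/A/GeoC` (`GeoC_circ`), for all directions with `A₁ ≤ ‖a‖ ≤ A₂` at once: for fixed `(y₀, a₀)` almost all circles around `0` avoid the countable set of the hits; distance `≥ 2 δ` by compactness; the same circle works for `(y, a)` near `(y₀, a₀)`; finitely many pairs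
suffice (`y` modulo `Λ`).
-/

set_option autoImplicit false

open Topology Filter Metric

namespace Pool.Agent.PY

open Pool.Agent.H36.BP (EN fs wd)
open Pool.Agent.H62.EF (MN)
open Pool.Agent.AD (Vd)
open Pool.Agent.TG (Lat Gd)
open Pool.Agent.G3 (wt)
open Pool.Agent.PX

variable {k d r : ℕ}

variable {Λ : AddSubgroup (Vd (k + 1))} {D : Set (Vd (k + 1))} {θ : Fin (d + 1) → Vd (k + 1) → ℂ}
  {W : Fin r → Vd (k + 1) →L[ℂ] ℂ}

private theorem Circ_iso {a : Vd (k + 1)} (hi : ∀ y : Vd (k + 1), ∀ᶠ z in 𝓝[≠] (0 : ℂ), y + z • a ∉ D) (y : Vd (k + 1)) (z₀ : ℂ) :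
    ∃ ε : ℝ, 0 < ε ∧ ∀ z : ℂ, z ≠ z₀ → ‖z - z₀‖ < ε → y + z • a ∉ D := by
  have h1 := hi (y + z₀ • a)
  rw [eventually_nhdsWithin_iff, Metric.eventually_nhds_iff] at h1
  obtain ⟨ε, hε, h2⟩ := h1
  refine ⟨ε, hε, fun z hz hlt => ?_⟩
  have h3 := h2 (y := z - z₀) (by rw [dist_zero_right]; exact hlt) (by
    simp only [Set.mem_compl_iff, Set.mem_singleton_iff]
    exact sub_ne_zero.2 hz)
  have e : y + z₀ • a + (z - z₀) • a = y + z • a := by rw [sub_smul]; abel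
  rwa [e] at h3

private theorem Circ_countable {a : Vd (k + 1)} (hi : ∀ y : Vd (k + 1), ∀ᶠ z in 𝓝[≠] (0 : ℂ), y + z • a ∉ D) (y : Vd (k + 1)) :
    {z : ℂ | y + z • a ∈ D}.Countable := by
  set S : Set ℂ := {z : ℂ | y + z • a ∈ D} with hS
  have hd : DiscreteTopology S := by
    rw [discreteTopology_subtype_iff]
    intro z hz
    obtain ⟨ε, hε, h⟩ := Circ_iso hi y z
    rw [← disjoint_iff, Filter.disjoint_principal_right, mem_nhdsWithin]
    refine ⟨ball z ε, isOpen_ball, mem_ball_self hε, ?_⟩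
    rintro w ⟨hw1, hw2⟩ hwS
    exact h w hw2 (by rw [← dist_eq_norm]; exact hw1) hwS
  have : Countable S := by
    have := hd
    exact countable_of_Lindelof_of_discrete
  exact this

private theorem Circ_dist {a : Vd (k + 1)} (hD : IsClosed D) {K : Set ℂ} (hK : IsCompact K) (y : Vd (k + 1)) (h : ∀ z ∈ K, y + z • a ∉ D) :
    ∃ c : ℝ, 0 < c ∧ ∀ z ∈ K, y + z • a ∈ Gd D c := by
  have hc : IsCompact ((fun z : ℂ => y + z • a) '' K) := hK.image (by fun_prop)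
  have hdis : Disjoint ((fun z : ℂ => y + z • a) '' K) D := by
    rw [Set.disjoint_left]
    rintro _ ⟨z, hz, rfl⟩
    exact h z hz
  obtain ⟨c, hc0, hd2⟩ := hdis.exists_thickenings hc hD
  refine ⟨c, hc0, fun z hz b hb => ?_⟩
  by_contra hlt
  push Not at hlt
  refine (Set.disjoint_left.1 hd2) (a := b) ?_ ?_
  · rw [mem_thickening_iff]
    exact ⟨y + z • a, ⟨z, hz, rfl⟩, by rw [dist_comm, dist_eq_norm]; exact hlt⟩
  · rw [mem_thickening_iff]
    exact ⟨b, hb, by rw [dist_self]; exact hc0⟩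

private theorem Circ_circle {a : Vd (k + 1)} (hD : IsClosed D) (hi : ∀ y : Vd (k + 1), ∀ᶠ z in 𝓝[≠] (0 : ℂ), y + z • a ∉ D) (y : Vd (k + 1)) {r₁ r₂ : ℝ} (h12 : r₁ < r₂) :
    ∃ s : ℝ, r₁ < s ∧ s < r₂ ∧ ∃ c : ℝ, 0 < c ∧ ∀ z : ℂ, ‖z‖ = s → y + z • a ∈ Gd D c := by
  have h1 : ((fun z : ℂ => ‖z‖) '' {z : ℂ | y + z • a ∈ D}).Countable := (Circ_countable hi y).image _
  have h2 : ¬ (Set.Ioo r₁ r₂).Countable := by
    intro h
    have h3 : Set.Ioo r₁ r₂ = ∅ ∨ r₂ ≤ r₁ := by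
      by_contra hcon
      push Not at hcon
      have := Cardinal.mk_Ioo_real hcon.2
      have h4 := Cardinal.le_aleph0_iff_set_countable.2 h
      rw [this] at h4
      exact absurd h4 (not_le.2 Cardinal.aleph0_lt_continuum)
    rcases h3 with h3 | h3
    · exact (Set.nonempty_Ioo.2 h12).ne_empty h3
    · linarith
  have h3 : ∃ s ∈ Set.Ioo r₁ r₂, s ∉ (fun z : ℂ => ‖z‖) '' {z : ℂ | y + z • a ∈ D} := by
    by_contra hcon
    push Not at hcon
    exact h2 (h1.mono fun s hs => hcon s hs)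
  obtain ⟨s, hs, hs2⟩ := h3
  have hK : IsCompact (sphere (0 : ℂ) s) := isCompact_sphere 0 s
  obtain ⟨c, hc, hc2⟩ := Circ_dist (a := a) hD hK y (fun z hz hzD => hs2 ⟨z, hzD, by rwa [mem_sphere_zero_iff_norm] at hz⟩)
  exact ⟨s, hs.1, hs.2, c, hc, fun z hz => hc2 z (by rwa [mem_sphere_zero_iff_norm])⟩

theorem PE.circ (P : PE Λ D θ W) {A₁ A₂ ρ : ℝ} (hA₁ : 0 < A₁) (hρ : 0 < ρ) : ∃ δ : ℝ, 0 < δ ∧ ∀ y a : Vd (k + 1), A₁ ≤ ‖a‖ → ‖a‖ ≤ A₂ →
    ∃ s : ℝ, 0 < s ∧ s ≤ ρ ∧ ∀ z : ℂ, ‖z‖ = s → y + z • a ∈ Gd D δ := by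
  obtain ⟨R, hR, hcov⟩ := P.lat.cpt
  have hcpt : IsCompact (closedBall (0 : Vd (k + 1)) R ×ˢ (closedBall (0 : Vd (k + 1)) A₂ ∩ {a : Vd (k + 1) | A₁ ≤ ‖a‖})) :=
    (isCompact_closedBall _ _).prod ((isCompact_closedBall _ _).inter_right (isClosed_le continuous_const continuous_norm))
  have h1 : ∃ δ : ℝ, 0 < δ ∧ ∀ p ∈ closedBall (0 : Vd (k + 1)) R ×ˢ (closedBall (0 : Vd (k + 1)) A₂ ∩ {a : Vd (k + 1) | A₁ ≤ ‖a‖}),
      ∃ s : ℝ, 0 < s ∧ s ≤ ρ ∧ ∀ z : ℂ, ‖z‖ = s → p.1 + z • p.2 ∈ Gd D δ := by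
    refine hcpt.induction_on (p := fun S : Set (Vd (k + 1) × Vd (k + 1)) => ∃ δ : ℝ, 0 < δ ∧ ∀ p ∈ S,
      ∃ s : ℝ, 0 < s ∧ s ≤ ρ ∧ ∀ z : ℂ, ‖z‖ = s → p.1 + z • p.2 ∈ Gd D δ) ?_ ?_ ?_ ?_
    · exact ⟨1, one_pos, fun p hp => absurd hp (Set.notMem_empty p)⟩
    · rintro S T hST ⟨δ, hδ, hQ⟩
      exact ⟨δ, hδ, fun p hp => hQ p (hST hp)⟩
    · rintro S T ⟨δ, hδ, hQ⟩ ⟨δ', hδ', hQ'⟩
      refine ⟨min δ δ', lt_min hδ hδ', fun p hp => ?_⟩
      rcases hp with hp | hp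
      · obtain ⟨s, h1, h2, h3⟩ := hQ p hp
        exact ⟨s, h1, h2, fun z hz b hb => (min_le_left _ _).trans (h3 z hz b hb)⟩
      · obtain ⟨s, h1, h2, h3⟩ := hQ' p hp
        exact ⟨s, h1, h2, fun z hz b hb => (min_le_right _ _).trans (h3 z hz b hb)⟩
    · rintro ⟨y₀, a₀⟩ ⟨_, _, ha₀⟩
      have ha0 : a₀ ≠ 0 := norm_pos_iff.1 (hA₁.trans_le ha₀)
      obtain ⟨s, h1, h2, c, hc, h3⟩ := Circ_circle (a := a₀) P.D_closed (P.iso a₀ ha0) y₀ hρ
      have hopen : (ball y₀ (c / 4) ×ˢ ball a₀ (c / (4 * s))) ∈ 𝓝 (y₀, a₀) :=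
        prod_mem_nhds (ball_mem_nhds _ (by positivity)) (ball_mem_nhds _ (by positivity))
      refine ⟨_, mem_nhdsWithin_of_mem_nhds hopen, c / 2, by linarith, ?_⟩
      rintro ⟨y, a⟩ ⟨hy, ha⟩
      refine ⟨s, h1, h2.le, fun z hz b hb => ?_⟩
      rw [mem_ball, dist_eq_norm] at hy ha
      simp only at hy ha ⊢
      have h4 := h3 z hz b hb
      have h5 : ‖y₀ + z • a₀ - b‖ ≤ ‖y + z • a - b‖ + (‖y - y₀‖ + ‖z‖ * ‖a - a₀‖) := by
        have e : y₀ + z • a₀ - b = (y + z • a - b) - ((y - y₀) + z • (a - a₀)) := by rw [smul_sub]; abel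
        rw [e]
        refine (norm_sub_le _ _).trans ?_
        gcongr
        refine (norm_add_le _ _).trans ?_
        rw [norm_smul]
      have h6 : ‖z‖ * ‖a - a₀‖ ≤ c / 4 := by
        rw [hz]
        have h7 : s * ‖a - a₀‖ ≤ s * (c / (4 * s)) := by gcongr
        have h8 : s * (c / (4 * s)) = c / 4 := by field_simp
        linarith
      linarith
  obtain ⟨δ, hδ, hQ⟩ := h1
  refine ⟨δ, hδ, fun y a ha1 ha2 => ?_⟩
  obtain ⟨l, hl, hlR⟩ := hcov y
  obtain ⟨s, h1, h2, h3⟩ := hQ (y - l, a) ⟨by simpa using hlR, by simpa using ha2, ha1⟩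
  refine ⟨s, h1, h2, fun z hz b hb => ?_⟩
  have h4 := h3 z hz _ (P.D_inv b hb (-l) (Λ.neg_mem hl))
  have e : y - l + z • a - (b + -l) = y + z • a - b := by abel
  simp only at h4
  rwa [e] at h4

end Pool.Agent.PY

end
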