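import Pool.Agent.H94.PX2.M13
import Pool.Agent.H94.PX2.M15
import Pool.Agent.H94.PX2.M24
import Pool.Agent.H94.PX2.M25
import Pool.Agent.H94.PX2.M27
import Pool.Agent.H94.PX2.M33

/-! The parts of this file: G4.K.E1, H17BP.Model, H17GT.Defs_1, H17LG.Defs, AD.T.Torus, AD.T.Proj, H41.LR.Pic, H17BP.ConstV, H62.FC.CurveIdeal, H62.FC.Trdeg, H17BP.TrdegLt, PY.Bound. -/

section

/-!
# G4 K E1: in one variable a local complete intersection of codimension `2` is empty

`Vd 1 = Fin 1 → ℂ`.  The zeros of `σ` near `y` are isolated (`∃ᶠ z, σ z ≠ 0`), so near `y` the only zero is `y`, and `∃ᶠ z' in 𝓝 y, σ z' = 0 ∧ ρ z' ≠ 0` gives `ρ y ≠ 0`.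
-/

set_option autoImplicit false

open Topology Filter Metric

namespace Pool.Agent.G4.K

open Pool.Agent.AD (Vd)

private theorem fin_one (i : Fin (0 + 1)) : i = 0 := by
  omega

private theorem isolated_zero {y : Vd (0 + 1)} {σ : Vd (0 + 1) → ℂ} (hσ : AnalyticAt ℂ σ y) (hne : ∃ᶠ z in 𝓝 y, σ z ≠ 0) : ∀ᶠ z in 𝓝 y, σ z = 0 → z = y := by
  let L : ℂ →L[ℂ] Vd (0 + 1) := ContinuousLinearMap.pi (fun _ => ContinuousLinearMap.id ℂ ℂ)
  have hL : ∀ w, L w = fun _ => w := fun w => rfl
  have hLy : L (y 0) = y := by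
    funext i
    rw [hL, fin_one i]
  have hLz : ∀ z : Vd (0 + 1), L (z 0) = z := by
    intro z
    funext i
    rw [hL, fin_one i]
  have hc : Continuous (fun z : Vd (0 + 1) => z 0) := continuous_apply 0
  have ht : Tendsto (fun z : Vd (0 + 1) => z 0) (𝓝 y) (𝓝 (y 0)) := hc.tendsto y
  have han : AnalyticAt ℂ (fun w : ℂ => σ (L w)) (y 0) := by
    have h1 : AnalyticAt ℂ σ (L (y 0)) := by rw [hLy]; exact hσ
    exact h1.comp (L.analyticAt (y 0))
  rcases han.eventually_eq_zero_or_eventually_ne_zero with h0 | h0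
  · exfalso
    apply hne
    filter_upwards [ht.eventually h0] with z hz
    rw [hLz] at hz
    exact not_not.mpr hz
  · rw [eventually_nhdsWithin_iff] at h0
    filter_upwards [ht.eventually h0] with z hz hz0
    by_contra hzy
    apply hz
    · intro hz1
      apply hzy
      rw [← hLz z, ← hLz y]
      rw [Set.mem_singleton_iff] at hz1
      rw [hz1]
    · rw [hLz]
      exact hz0

theorem ci_one {Z : Set (Vd (0 + 1))} (h : CI Z) : Z = ∅ := by
  rw [Set.eq_empty_iff_forall_notMem]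
  intro y hy
  obtain ⟨σ, ρ, hσ, -, hne, hZ, hfr⟩ := h y hy
  have h1 : σ y = 0 ∧ ρ y = 0 := hZ.self_of_nhds.mp hy
  have h2 := hfr.self_of_nhds h1.1
  have h3 := isolated_zero hσ hne
  obtain ⟨z, hz, hz'⟩ := (h2.and_eventually h3).exists
  have h4 : z = y := hz' hz.1
  rw [h4] at hz
  exact hz.2 h1.2

end Pool.Agent.G4.K

end

section

/-!
# Holomorphic curves in a closed surface, the induction hypothesis

Holomorphic maps into `ℙ(V)` are given by functions with values in `V ∖ {0}`, which are not required to be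
continuous, see `HolP`.
-/

open Topology Filter

noncomputable section

namespace Pool.Agent.H17BP

variable {V : Type} [NormedAddCommGroup V] [NormedSpace ℂ V]

/-- The two vectors are proportional. -/
def Pr (x y : V) : Prop := ∃ c : ℂ, c ≠ 0 ∧ x = c • y

/-- The function `f` is, near `z₀`, proportional to a holomorphic function without zeros, that is, `f` defines a
holomorphic map to `ℙ(V)`. -/
def HolP (f : ℂ → V) (z₀ : ℂ) : Prop :=
  ∃ F : ℂ → V, AnalyticAt ℂ F z₀ ∧ F z₀ ≠ 0 ∧ ∀ᶠ z in 𝓝 z₀, Pr (f z) (F z)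

/-- Every holomorphic map from `ℂ` to the projective set with the cone `X` which is not a map into `B` is
constant. -/
def Brody (X B : Set V) : Prop :=
  ∀ f : ℂ → V, (∀ z, HolP f z) → (∀ z, f z ∈ X) → (∃ z, f z ∉ B) → ∀ z w, Pr (f z) (f w)

/-- The subset `B` of `X` is the set of the common zeros of the forms `Q i` of degree `D`, and near every point
it is the set of the zeros of one of these forms. -/
structure Eqs (X B : Set V) {κ : Type} (Q : κ → V → ℂ) (D : ℕ) : Prop where
  pos : 1 ≤ D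
  an : ∀ i x, AnalyticAt ℂ (Q i) x
  smul : ∀ i (c : ℂ) x, Q i (c • x) = c ^ D * Q i x
  mem_iff : ∀ x, x ∈ B ↔ x ∈ X ∧ ∀ i, Q i x = 0
  gen : ∀ x ∈ X, ∃ i, ∀ᶠ y in 𝓝 x, y ∈ X → Q i y = 0 → y ∈ B

/-- A closed surface with a curve `B` in it, a section `Ω` of `m K - j H` without zeros outside `B`, such that
every holomorphic map from `ℂ` which is not a map into `B` is constant. -/
structure Model (X B : Set V) (m j : ℕ) (Ω : V → V → V → ℂ) {κ : Type} (Q : κ → V → ℂ) (D : ℕ) :
    Prop where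
  surf : Surface X
  one_m : 1 ≤ m
  one_j : 1 ≤ j
  form : IsForm X m j Ω
  noZeros : NoZeros X B Ω
  eqs : Eqs X B Q D
  thin : ∀ σ τ, IsChart X σ τ → ∃ᶠ p in 𝓝 (0 : ℂ × ℂ), σ p ∉ B
  brody : Brody X B

/-- At the point `x` the curve `B` has a local equation which becomes a monomial after at most `n` blow-ups over
every point. -/
def ResAt (X B : Set V) (x : V) (n : ℕ) : Prop :=
  ∃ σ τ g, IsChart X σ τ ∧ σ 0 = x ∧ LocalEq B σ g ∧ ResN n g

end Pool.Agent.H17BP

end
end

section

/-!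
# Varieties of general type, in terms of their function field
-/

open MvPolynomial
open Pool.Agent.H23 (RatForm regularForms PrimeDivisorOver)

noncomputable section

namespace Pool.Agent.H17GT

section FunctionField

variable {K : Type} [Field K] [Algebra ℂ K] {k : ℕ}

/-- Let `K` be the function field of a variety of dimension `k`, let `ω` be a rational `k`-form and
`f ∈ K`. The rational `m`-canonical form `f ω^m` is regular along the prime divisor `E`: one has
`ω = g η` with `η` regular along `E` and `f g ^ m` regular along `E`. -/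
def RegularAlong (E : PrimeDivisorOver K k) (m : ℕ) (f : K) (ω : RatForm K k) : Prop :=
  ∃ (g : K) (η : RatForm K k), η ∈ regularForms k E.localRing ∧ ω = g • η ∧ 0 ≤ E.ord (f * g ^ m)

end FunctionField

end Pool.Agent.H17GT

end
end

section

/-!
# Varieties of log general type, in terms of their function field
-/

open MvPolynomial
open Pool.Agent.H23 (RatForm regularForms PrimeDivisorOver)
open Pool.Agent.H17GT (RegularAlong coordFun functionField)

noncomputable section

namespace Pool.Agent.H17LG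

section FunctionField

variable {K : Type} [Field K] [Algebra ℂ K] {k : ℕ}

/-- The rational `m`-canonical form `f ω^m` has at most logarithmic poles along the prime divisor
`E`: one has `ω = g η` with `η` regular along `E` and `f g ^ m` has a pole of order at most `m`
along `E`. -/
def LogRegularAlong (E : PrimeDivisorOver K k) (m : ℕ) (f : K) (ω : RatForm K k) : Prop :=
  ∃ (g : K) (η : RatForm K k), η ∈ regularForms k E.localRing ∧ ω = g • η ∧
    0 ≤ E.ord (f * g ^ m) + m

/-- Let `U` be a variety of dimension `k` with function field `K`, and let `B` be the set of the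
prime divisors over `K` whose centre lies in the boundary of a compactification of `U`. The variety
`U` is of log general type: for some `m ≥ 1` there are `m`-canonical forms `f₀ ω^m, …, f_r ω^m`,
regular along all prime divisors outside `B`, with at most logarithmic poles along the prime
divisors in `B`, which define a generically finite rational map. -/
def IsLogGeneralType (B : PrimeDivisorOver K k → Prop) : Prop :=
  ∃ m : ℕ, 1 ≤ m ∧ ∃ ω : RatForm K k, ω ≠ 0 ∧ ∃ (r : ℕ) (f : Fin (r + 1) → K), f 0 ≠ 0 ∧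
    (∀ i, ∀ E : PrimeDivisorOver K k, (¬ B E → RegularAlong E m (f i) ω) ∧
      (B E → LogRegularAlong E m (f i) ω)) ∧
    Algebra.IsAlgebraic (IntermediateField.adjoin ℂ (Set.range fun i => f i / f 0)) K

end FunctionField

/-- The function `x_i / x_j` on the subvariety of `ℙ^N` given by `P`. -/
def ratio {N : ℕ} (P : Ideal (MvPolynomial (Fin (N + 1)) ℂ)) [P.IsPrime] (i j : Fin (N + 1)) :
    functionField P :=
  ⟨coordFun P i / coordFun P j, IntermediateField.subset_adjoin _ _ ⟨i, j, rfl⟩⟩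

end Pool.Agent.H17LG

end
end

section

/-!
# AD T Torus: holomorphic maps to complex tori

`u : X → ℂ^g / Λ` is holomorphic, `Λ` discrete.  The components of `du` are symmetric differentials of degree one; an entire curve `F` with
`du (F') = 0` lies in a fibre of `u`.
-/

set_option autoImplicit false

open Topology Filter Metric MvPolynomial

namespace Pool.Agent.AD

attribute [-instance] ProperSMul.toContinuousSMul

open Pool.Agent.H36.BP (EN fs wd)

variable {N g : ℕ}

/-- `u` is a holomorphic map from the variety with the cone `X` to `ℂ^g / Λ` -/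
structure TorusMapV (X : Set (EN N)) (Λ : AddSubgroup (Fin g → ℂ)) (u : EN N → (Fin g → ℂ)) : Prop where
  smul : ∀ x ∈ X, ∀ c : ℂ, c ≠ 0 → u (c • x) - u x ∈ Λ
  loc : ∀ x ∈ X, ∃ v : EN N → (Fin g → ℂ), AnalyticAt ℂ v x ∧ ∀ᶠ y in 𝓝 x, y ∈ X → u y - v y ∈ Λ

/-- a discrete subgroup -/
def DiscreteSub (Λ : AddSubgroup (Fin g → ℂ)) : Prop := ∃ δ : ℝ, 0 < δ ∧ ∀ l ∈ Λ, ‖l‖ < δ → l = 0

variable {X : Set (EN N)} {Λ : AddSubgroup (Fin g → ℂ)} {u : EN N → (Fin g → ℂ)}

end Pool.Agent.AD

end

section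

/-!
# AD T Proj: pseudo-lengths from holomorphic maps to tori and from symmetric differentials, on projective manifolds
-/

set_option autoImplicit false

open Topology Filter Metric MvPolynomial

noncomputable section

namespace Pool.Agent.AD

open Pool.Agent.H36.BP (EN fs wd)

variable {N g : ℕ} {P : Ideal (MvPolynomial (Fin (N + 1)) ℂ)}

theorem discreteSub_of (Λ : AddSubgroup (Fin g → ℂ)) [DiscreteTopology Λ] : DiscreteSub Λ := by
  have h1 : ({0} : Set Λ) ∈ 𝓝 (0 : Λ) := by
    rw [nhds_discrete]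
    exact Set.mem_singleton 0
  obtain ⟨δ, hδ, h⟩ := Metric.mem_nhds_iff.1 h1
  refine ⟨δ, hδ, fun l hl hn => ?_⟩
  have h2 : (⟨l, hl⟩ : Λ) ∈ ball (0 : Λ) δ := by
    rw [mem_ball, Subtype.dist_eq]
    simpa [dist_eq_norm] using hn
  have h3 := h h2
  rw [Set.mem_singleton_iff] at h3
  exact congrArg Subtype.val h3

end Pool.Agent.AD

end
end

section

/-!
# LR Pic: functions without the values `0`, `1` on a punctured disc are meromorphic at the centre
-/

set_option autoImplicit false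

open Topology Filter Metric

noncomputable section

namespace Pool.Agent.H41.LR

/-- On small circles `f` or `1 / f` is bounded by a universal constant. -/
theorem circle_or (hS : Schottky) : ∃ S : ℝ, ∀ (f : ℂ → ℂ) (b : ℂ) (r : ℝ), 0 < r → DifferentiableOn ℂ f (ball b r \ {b}) → Om f (ball b r \ {b}) →
    ∀ ρ : ℝ, 0 < ρ → ρ * Real.exp 14 < r → (∀ w ∈ sphere b ρ, ‖f w‖ ≤ S) ∨ (∀ w ∈ sphere b ρ, ‖(f w)⁻¹‖ ≤ S) := by
  obtain ⟨S, hS⟩ := hS 1
  refine ⟨S, ?_⟩
  have key : ∀ (f : ℂ → ℂ) (b : ℂ) (r : ℝ), 0 < r → DifferentiableOn ℂ f (ball b r \ {b}) → Om f (ball b r \ {b}) →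
      ∀ ρ : ℝ, 0 < ρ → ρ * Real.exp 14 < r → ‖f (b + ρ)‖ ≤ 1 → ∀ w ∈ sphere b ρ, ‖f w‖ ≤ S := by
    intro f b r hr hf hO ρ hρ hρr h1 w hw
    set e : ℂ → ℂ := fun ζ => b + Complex.exp ζ with he
    have hmap : ∀ ζ ∈ ball ((Real.log ρ : ℝ) : ℂ) 14, e ζ ∈ ball b r \ {b} := by
      intro ζ hζ
      refine ⟨?_, ?_⟩
      · rw [mem_ball_iff_norm, he]
        show ‖b + Complex.exp ζ - b‖ < r
        rw [add_sub_cancel_left, Complex.norm_exp]
        have h2 : ζ.re < Real.log ρ + 14 := by
          rw [mem_ball_iff_norm] at hζ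
          have h3 := (Complex.abs_re_le_norm (ζ - ((Real.log ρ : ℝ) : ℂ))).trans_lt hζ
          rw [Complex.sub_re, Complex.ofReal_re] at h3
          linarith [(abs_lt.1 h3).2]
        calc Real.exp ζ.re < Real.exp (Real.log ρ + 14) := Real.exp_lt_exp.2 h2
          _ = ρ * Real.exp 14 := by rw [Real.exp_add, Real.exp_log hρ]
          _ < r := hρr
      · intro h2
        have h3 : b + Complex.exp ζ = b := h2
        rw [add_eq_left] at h3
        exact Complex.exp_ne_zero _ h3
    have hd : DifferentiableOn ℂ (fun ζ => f (e ζ)) (ball ((Real.log ρ : ℝ) : ℂ) 14) :=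
      hf.comp ((differentiable_const b).add Complex.differentiable_exp).differentiableOn hmap
    have hO' : Om (fun ζ => f (e ζ)) (ball ((Real.log ρ : ℝ) : ℂ) 14) := fun ζ hζ => hO _ (hmap ζ hζ)
    have h0 : ‖f (e ((Real.log ρ : ℝ) : ℂ))‖ ≤ 1 := by
      have h2 : e ((Real.log ρ : ℝ) : ℂ) = b + ρ := by
        show b + Complex.exp ((Real.log ρ : ℝ) : ℂ) = b + ρ
        rw [← Complex.ofReal_exp, Real.exp_log hρ]
      rw [h2]
      exact h1
    have h2 := hS (fun ζ => f (e ζ)) ((Real.log ρ : ℝ) : ℂ) 14 (by norm_num) hd hO' h0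
    rw [mem_sphere_iff_norm] at hw
    have hwb : w - b ≠ 0 := by
      intro h3
      rw [h3, norm_zero] at hw
      linarith
    have h3 : e (Complex.log (w - b)) = w := by
      show b + Complex.exp (Complex.log (w - b)) = w
      rw [Complex.exp_log hwb]
      ring
    have h4 := h2 (Complex.log (w - b)) (by
      rw [mem_closedBall, dist_eq_norm]
      have h5 : Complex.log (w - b) - ((Real.log ρ : ℝ) : ℂ) = ((Complex.arg (w - b) : ℝ) : ℂ) * Complex.I := by
        apply Complex.ext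
        · rw [Complex.sub_re, Complex.log_re, hw, Complex.ofReal_re, sub_self]
          simp
        · rw [Complex.sub_im, Complex.log_im, Complex.ofReal_im, sub_zero]
          simp
      rw [h5, norm_mul, Complex.norm_I, mul_one, Complex.norm_real, Real.norm_eq_abs]
      have h6 := Complex.abs_arg_le_pi (w - b)
      have h7 := Real.pi_lt_d2
      linarith)
    rw [← h3]
    exact h4
  intro f b r hr hf hO ρ hρ hρr
  by_cases h : ‖f (b + ρ)‖ ≤ 1
  · exact Or.inl (key f b r hr hf hO ρ hρ hρr h)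
  · right
    push Not at h
    refine key (fun w => (f w)⁻¹) b r hr (hO.diff_inv hf) hO.inv ρ hρ hρr ?_
    show ‖(f (b + ρ))⁻¹‖ ≤ 1
    rw [norm_inv]
    exact inv_le_one_of_one_le₀ h.le

/-- A bounded holomorphic function on a punctured disc is meromorphic. -/
theorem mero_of_bdd {f : ℂ → ℂ} {b : ℂ} {r S : ℝ} (hr : 0 < r) (hf : DifferentiableOn ℂ f (ball b r \ {b}))
    (hb : ∀ w ∈ ball b r \ {b}, ‖f w‖ ≤ S) : MeromorphicAt f b := by
  have h1 := Complex.differentiableOn_update_limUnder_of_bddAbove (ball_mem_nhds b hr) hf ⟨S, by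
    rintro _ ⟨w, hw, rfl⟩
    exact hb w hw⟩
  have h2 : AnalyticAt ℂ (Function.update f b (limUnder (𝓝[≠] b) f)) b := h1.analyticAt (ball_mem_nhds b hr)
  refine h2.meromorphicAt.congr ?_
  have h3 : ∀ᶠ w in 𝓝[≠] b, w ≠ b := self_mem_nhdsWithin
  filter_upwards [h3] with w hw
  exact Function.update_of_ne hw _ _

/-- the maximum principle on a ring -/
theorem ring_bdd {f : ℂ → ℂ} {b : ℂ} {r S ρ₁ ρ₂ : ℝ} (hf : DifferentiableOn ℂ f (ball b r \ {b})) (h1 : 0 < ρ₁) (h2 : ρ₂ < r)
    (hb1 : ∀ w ∈ sphere b ρ₁, ‖f w‖ ≤ S) (hb2 : ∀ w ∈ sphere b ρ₂, ‖f w‖ ≤ S) {z : ℂ} (hz1 : ρ₁ ≤ ‖z - b‖) (hz2 : ‖z - b‖ ≤ ρ₂) :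
    ‖f z‖ ≤ S := by
  rcases hz1.eq_or_lt with he | hl
  · exact hb1 z (by rw [mem_sphere_iff_norm]; exact he.symm)
  rcases hz2.eq_or_lt with he | hl'
  · exact hb2 z (by rw [mem_sphere_iff_norm]; exact he)
  set U : Set ℂ := {w | ρ₁ < ‖w - b‖ ∧ ‖w - b‖ < ρ₂} with hU
  have hcont : Continuous fun w : ℂ => ‖w - b‖ := (continuous_id.sub continuous_const).norm
  have hcl : closure U ⊆ {w | ρ₁ ≤ ‖w - b‖ ∧ ‖w - b‖ ≤ ρ₂} := by
    refine closure_minimal (fun w hw => ⟨hw.1.le, hw.2.le⟩) ?_
    exact (isClosed_le continuous_const hcont).inter (isClosed_le hcont continuous_const)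
  have hUo : IsOpen U := (isOpen_lt continuous_const hcont).inter (isOpen_lt hcont continuous_const)
  have hUb : Bornology.IsBounded U := by
    refine (isBounded_ball (x := b) (r := ρ₂)).subset ?_
    intro w hw
    rw [mem_ball_iff_norm]
    exact hw.2
  have hd : DiffContOnCl ℂ f U := by
    refine DifferentiableOn.diffContOnCl (hf.mono fun w hw => ?_)
    obtain ⟨h3, h4⟩ := hcl hw
    refine ⟨by rw [mem_ball_iff_norm]; linarith, ?_⟩
    intro h5
    rw [Set.mem_singleton_iff] at h5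
    rw [h5, sub_self, norm_zero] at h3
    linarith
  refine Complex.norm_le_of_forall_mem_frontier_norm_le hUb hd ?_ (subset_closure ⟨hl, hl'⟩)
  intro w hw
  rw [frontier, hUo.interior_eq] at hw
  obtain ⟨h3, h4⟩ := hcl hw.1
  have h5 : ¬ (ρ₁ < ‖w - b‖ ∧ ‖w - b‖ < ρ₂) := hw.2
  rcases h3.eq_or_lt with h6 | h6
  · exact hb1 w (by rw [mem_sphere_iff_norm]; exact h6.symm)
  · rcases h4.eq_or_lt with h7 | h7
    · exact hb2 w (by rw [mem_sphere_iff_norm]; exact h7)
    · exact absurd ⟨h6, h7⟩ h5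

/-- **Picard's theorem**: a function without the values `0`, `1` on a punctured disc is meromorphic at the centre. -/
theorem picard (hS : Schottky) {f : ℂ → ℂ} {b : ℂ} {r : ℝ} (hr : 0 < r) (hf : DifferentiableOn ℂ f (ball b r \ {b}))
    (hO : Om f (ball b r \ {b})) : MeromorphicAt f b := by
  obtain ⟨S, hS⟩ := circle_or hS
  have hE : 0 < Real.exp 14 := Real.exp_pos _
  have hE1 : 1 ≤ Real.exp 14 := Real.one_le_exp (by norm_num)
  set r' : ℝ := r / (2 * Real.exp 14) with hr'
  have hr'0 : 0 < r' := by positivity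
  have hr'e : ∀ ρ, ρ < r' → ρ * Real.exp 14 < r := by
    intro ρ hρ
    have h1 : ρ * Real.exp 14 < r' * Real.exp 14 := mul_lt_mul_of_pos_right hρ hE
    have h2 : r' * Real.exp 14 = r / 2 := by
      rw [hr']
      field_simp
    linarith
  have hr'r : r' < r := by
    rw [hr', div_lt_iff₀ (by positivity)]
    nlinarith
  by_cases hA : ∀ ρ₀ : ℝ, 0 < ρ₀ → ∃ ρ, 0 < ρ ∧ ρ < ρ₀ ∧ ∀ w ∈ sphere b ρ, ‖f w‖ ≤ S
  · obtain ⟨ρ₂, h20, h2r, hb2⟩ := hA r' hr'0
    refine mero_of_bdd (r := ρ₂) (S := S) h20 (hf.mono fun w hw => ⟨ball_subset_ball (by linarith) hw.1, hw.2⟩) ?_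
    intro w hw
    have hw0 : 0 < ‖w - b‖ := norm_pos_iff.2 (sub_ne_zero.2 hw.2)
    obtain ⟨ρ₁, h10, h1r, hb1⟩ := hA ‖w - b‖ hw0
    have hw2 := hw.1
    rw [mem_ball_iff_norm] at hw2
    exact ring_bdd hf h10 (by linarith) hb1 hb2 h1r.le hw2.le
  · push Not at hA
    obtain ⟨ρ₀, hρ₀, hA⟩ := hA
    set ρ' : ℝ := min ρ₀ r' with hρ'
    have hρ'0 : 0 < ρ' := lt_min hρ₀ hr'0
    have h1 : MeromorphicAt (fun w => (f w)⁻¹) b := by
      refine mero_of_bdd (r := ρ') (S := S) hρ'0 ((hO.diff_inv hf).mono fun w hw => ⟨ball_subset_ball ?_ hw.1, hw.2⟩) ?_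
      · exact (min_le_right _ _).trans hr'r.le
      · intro w hw
        have hw0 : 0 < ‖w - b‖ := norm_pos_iff.2 (sub_ne_zero.2 hw.2)
        have hw2 := hw.1
        rw [mem_ball_iff_norm] at hw2
        rcases hS f b r hr hf hO ‖w - b‖ hw0 (hr'e _ (hw2.trans_le (min_le_right _ _))) with h3 | h3
        · obtain ⟨w', hw', hlt⟩ := hA ‖w - b‖ hw0 (hw2.trans_le (min_le_left _ _))
          exact absurd (h3 w' hw') (not_le.2 hlt)
        · exact h3 w (by rw [mem_sphere_iff_norm])
    have h2 := h1.inv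
    refine h2.congr ?_
    filter_upwards with w
    show ((f w)⁻¹)⁻¹ = f w
    exact inv_inv _

end Pool.Agent.H41.LR

end
end

section

/-!
# A variety of dimension `0` is a point

`FunField Q` is algebraic over `ℂ` (`IsTranscendenceBasis` with the empty family: e.g.
`IsTranscendenceBasis.isAlgebraic`, the subalgebra adjoined by the empty range is `⊥`), so every element of it is in the
range of `algebraMap` (`IsAlgClosed.algebraMap_bijective_of_isIntegral` or `IsAlgClosed.algebraMap_surjective_of_isAlgebraic`).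
Let `X j ∉ Q`, so `coordFun Q j ≠ 0` (`Pool.Agent.H92.GT.Proj.aeval_coordFun_eq_zero_iff Q (X j)`).
`Pool.Agent.H92.GT.Proj.proj_point Q hj` gives `y` in `functionField Q` with `y j = 1` and `aeval y G = 0 ↔ G ∈ Q` for forms
`G`.  `y i = algebraMap c_i`; the form `X i - C c_i * X j` has `aeval y = y i - c_i y j = 0`, so it is in `Q`, and every point
`x` of the variety satisfies `x i = c_i * x j`, so `x.rep = x.rep j • c`, `x.rep j ≠ 0`: `x` is the point given by `c`.
-/

open Topology Filter MvPolynomial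

noncomputable section

namespace Pool.Agent.H17BP

open Pool.Agent.H17LG.Variety (FunField)
open Pool.Agent.H62.FC (Homog)

variable {N : ℕ} {Q : Ideal (MvPolynomial (Fin (N + 1)) ℂ)}

theorem eq_of_trdeg_zero [Q.IsPrime] (hQ : Homog Q) (hX : ∃ i, (X i : MvPolynomial (Fin (N + 1)) ℂ) ∉ Q)
    (hz : ∃ z : Fin 0 → FunField Q, IsTranscendenceBasis ℂ z) :
    ∀ x ∈ variety Q, ∀ y ∈ variety Q, x = y := by
  have _ := hQ
  obtain ⟨j, hj⟩ := hX
  obtain ⟨z, hz⟩ := hz
  have hcj : Pool.Agent.H17GT.coordFun Q j ≠ 0 := by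
    intro h
    apply hj
    rw [← Pool.Agent.H92.GT.Proj.aeval_coordFun_eq_zero_iff Q (X j), aeval_X]
    exact h
  obtain ⟨y, hy1, -, hker⟩ := Pool.Agent.H92.GT.Proj.proj_point Q hcj
  have halg : Algebra.IsAlgebraic ℂ (FunField Q) := hz.isEmpty_iff_isAlgebraic.1 inferInstance
  have halg' : Algebra.IsAlgebraic ℂ (Pool.Agent.H17GT.functionField Q) := halg
  have hsurj : Function.Surjective (algebraMap ℂ (Pool.Agent.H17GT.functionField Q)) :=
    (IsAlgClosed.algebraMap_bijective_of_isIntegral (k := ℂ)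
      (K := Pool.Agent.H17GT.functionField Q)).2
  choose c hc using fun i => hsurj (y i)
  have hform : ∀ i, (X i - C (c i) * X j : MvPolynomial (Fin (N + 1)) ℂ).IsHomogeneous 1 := by
    intro i
    refine (isHomogeneous_X ℂ i).sub ?_
    have h := (isHomogeneous_C (Fin (N + 1)) (c i)).mul (isHomogeneous_X ℂ j)
    simpa using h
  have hmem : ∀ i, (X i - C (c i) * X j : MvPolynomial (Fin (N + 1)) ℂ) ∈ Q := by
    intro i
    rw [← hker 1 _ (hform i), map_sub, map_mul, aeval_X, aeval_X, hy1, mul_one, aeval_C, hc i,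
      sub_self]
  have hrep : ∀ x ∈ variety Q, x.rep j ≠ 0 ∧ x.rep = x.rep j • c := by
    intro x hx
    have h1 : x.rep = x.rep j • c := by
      funext i
      have h2 : eval x.rep (X i - C (c i) * X j) = 0 := hx.1 _ (hmem i) 1 (hform i)
      rw [map_sub, map_mul, eval_X, eval_X, eval_C, sub_eq_zero] at h2
      rw [Pi.smul_apply, smul_eq_mul, h2]
      ring
    refine ⟨fun h2 => x.rep_nonzero ?_, h1⟩
    rw [h1, h2, zero_smul]
  intro x hx x' hx'
  obtain ⟨h1, h2⟩ := hrep x hx
  obtain ⟨h3, h4⟩ := hrep x' hx'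
  rw [← x.mk_rep, ← x'.mk_rep, Projectivization.mk_eq_mk_iff']
  refine ⟨x.rep j / x'.rep j, ?_⟩
  rw [h4, h2, smul_smul]
  congr 1
  simp only [Pi.smul_apply, smul_eq_mul]
  have h5 : c j ≠ 0 := by
    intro h6
    apply h1
    have := congrFun h2 j
    rw [Pi.smul_apply, smul_eq_mul, h6, mul_zero] at this
    exact this
  have h6 : c j = 1 := by
    have h7 : algebraMap ℂ (Pool.Agent.H17GT.functionField Q) (c j) = algebraMap ℂ _ 1 := by
      rw [hc j, hy1, map_one]
    exact (algebraMap ℂ (Pool.Agent.H17GT.functionField Q)).injective h7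
  rw [h6, mul_one, mul_one]
  exact div_mul_cancel₀ _ h3

end Pool.Agent.H17BP

end
end

section

/-!
# Fermat covers: subvarieties which are not of log general type

The closures of the monomial curves are rational curves stable under a one-parameter group, so they
are not of log general type.
-/

open MvPolynomial Topology Filter
open Pool.Agent.H17GT (coordFun functionField)
open Pool.Agent.H17LG.Variety (FunField)

noncomputable section

namespace Pool.Agent.H62.FC

variable {N : ℕ} {κ : Type} {A : κ → MvPolynomial (Fin (N + 1)) ℂ} {e : κ → ℕ}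
  {O : Finset (Fin (N + 1))} {P : Ideal (MvPolynomial (Fin (N + 1)) ℂ)}

variable {a : Fin (N + 1) → ℂ} {n : Fin (N + 1) → ℤ}

open scoped IntermediateField.algebraAdjoinAdjoin in
lemma exists_fin_basis_aux {K : Type} [Field K] [Algebra ℂ K] {m : ℕ} {x : Fin m → K}
    (hgen : IntermediateField.adjoin ℂ (Set.range x) = ⊤) :
    ∃ (w : ℕ) (z : Fin w → K), IsTranscendenceBasis ℂ z := by
  have halg : Algebra.IsAlgebraic (IntermediateField.adjoin ℂ (Set.range x)) K := by
    rw [hgen]
    exact ⟨fun f => isAlgebraic_algebraMap (⟨f, IntermediateField.mem_top⟩ :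
      (⊤ : IntermediateField ℂ K))⟩
  have h1 : Algebra.IsAlgebraic (Algebra.adjoin ℂ (Set.range x)) K :=
    (IsFractionRing.comap_isAlgebraic_iff (A := Algebra.adjoin ℂ (Set.range x))
      (K := IntermediateField.adjoin ℂ (Set.range x)) (C := K)).mpr halg
  obtain ⟨u, hu, hub⟩ := exists_isTranscendenceBasis_subset (R := ℂ) (Set.range x)
  have h3 : Finite u := (Set.finite_range x).subset hu
  let eqv : Fin (Nat.card u) ≃ u := (Finite.equivFin u).symm
  refine ⟨Nat.card u, (Subtype.val : u → K) ∘ eqv, ?_⟩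
  rw [isTranscendenceBasis_equiv]
  exact hub

/-- The function field of a projective variety has a finite transcendence basis. -/
lemma exists_fin_basis [P.IsPrime] (hne : ∃ i, X i ∉ P) :
    ∃ (w : ℕ) (z : Fin w → FunField P), IsTranscendenceBasis ℂ z := by
  obtain ⟨j, hj⟩ := hne
  have hj' : coordFun P j ≠ 0 := by
    intro h0
    apply hj
    rw [← Pool.Agent.H92.GT.Proj.aeval_coordFun_eq_zero_iff P (X j), aeval_X]
    exact h0
  obtain ⟨x, -, hgen, -⟩ := Pool.Agent.H92.GT.Proj.proj_point P hj'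
  exact exists_fin_basis_aux hgen

end Pool.Agent.H62.FC

end
end

section

/-!
# Fermat covers: the dimension is monotone

For homogeneous prime ideals `P ≤ Q` the transcendence degree of the function field of `Q` is at
most the transcendence degree of the function field of `P`: coordinates whose ratios are
algebraically independent on the variety of `Q` have the same property on the variety of `P`.
-/

noncomputable section

namespace Pool.Agent.H62.FC

open MvPolynomial
open Pool.Agent.H17GT (coordFun)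
open Pool.Agent.H17LG.Variety (FunField)

variable {N : ℕ} {P : Ideal (MvPolynomial (Fin (N + 1)) ℂ)}

/-- Coordinates which are algebraically independent on the smaller variety are so on the larger
one. -/
private lemma Trdeg_indep {K L : Type} [Field K] [Algebra ℂ K] [Field L] [Algebra ℂ L] {k : ℕ}
    {j : Fin (N + 1)} {x : Fin (N + 1) → K} {y : Fin (N + 1) → L} (hx : x j = 1) (hy : y j = 1)
    (h : ∀ (n : ℕ) (G : MvPolynomial (Fin (N + 1)) ℂ), G.IsHomogeneous n → aeval x G = 0 →
      aeval y G = 0) {J : Fin k → Fin (N + 1)} (hJ : AlgebraicIndependent ℂ fun i => y (J i)) :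
    AlgebraicIndependent ℂ fun i => x (J i) := by
  rw [algebraicIndependent_iff] at hJ ⊢
  intro p hp
  apply hJ
  set Af : Fin (k + 1) → MvPolynomial (Fin (N + 1)) ℂ := Fin.cons (X j) fun i => X (J i) with hAf
  have hAfhom : ∀ i, IsWeightedHomogeneous (1 : Fin (N + 1) → ℕ) (Af i) 1 := by
    intro i
    refine Fin.cases ?_ (fun i => ?_) i
    · exact isHomogeneous_X ℂ j
    · exact isHomogeneous_X ℂ (J i)
  have key : ∀ {K : Type} [Field K] [Algebra ℂ K] {x : Fin (N + 1) → K}, x j = 1 →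
      aeval x (Pool.Agent.H92.GT.hmg p Af) = aeval (fun i => x (J i)) p := by
    intro K _ _ x hx
    rw [Pool.Agent.H92.GT.map_hmg]
    have h0 : aeval x (Af 0) = 1 := by
      change aeval x (X j) = 1
      rw [aeval_X, hx]
    rw [Pool.Agent.H92.GT.hmg_eq p (by rw [h0]; exact one_ne_zero), h0, one_pow, one_mul]
    congr 2
    funext i
    change aeval x (X (J i)) / 1 = x (J i)
    rw [aeval_X, div_one]
  rw [← key hy]
  exact h _ _ (Pool.Agent.H92.GT.hmg_isWeightedHomogeneous p hAfhom) (by rw [key hx, hp])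

theorem trdeg_mono [P.IsPrime] {Q : Ideal (MvPolynomial (Fin (N + 1)) ℂ)} [Q.IsPrime]
    (hP : Homog P) (hQ : Homog Q) (hPQ : P ≤ Q) {r w : ℕ} (hr : ∃ z : Fin r → FunField P,
      IsTranscendenceBasis ℂ z) (hw : ∃ z : Fin w → FunField Q, IsTranscendenceBasis ℂ z) :
    w ≤ r := by
  rcases w with - | w
  · exact Nat.zero_le _
  obtain ⟨z, hz⟩ := hw
  obtain ⟨z', hz'⟩ := hr
  obtain ⟨j, hj⟩ := Pool.Agent.H92.GT.Proj.exists_coordFun_ne_zero Q (k := w) z hz
  have hj' : coordFun P j ≠ 0 := by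
    intro h0
    apply hj
    have h1 := (Pool.Agent.H92.GT.Proj.aeval_coordFun_eq_zero_iff P (X j)).1
      (by rw [aeval_X]; exact h0)
    have h2 := (Pool.Agent.H92.GT.Proj.aeval_coordFun_eq_zero_iff Q (X j)).2 (hPQ h1)
    rwa [aeval_X] at h2
  obtain ⟨y, hy1, hygen, hyker⟩ := Pool.Agent.H92.GT.Proj.proj_point Q hj
  obtain ⟨x, hx1, -, hxker⟩ := Pool.Agent.H92.GT.Proj.proj_point P hj'
  have halg : Algebra.IsAlgebraic (IntermediateField.adjoin ℂ (Set.range y))
      (H17GT.functionField Q) := by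
    rw [hygen]
    exact ⟨fun f => isAlgebraic_algebraMap (⟨f, IntermediateField.mem_top⟩ :
      (⊤ : IntermediateField ℂ (H17GT.functionField Q)))⟩
  obtain ⟨J, hJ⟩ := Pool.Agent.H92.GT.exists_index halg (z := z) hz
  have hind : AlgebraicIndependent ℂ fun i => x (J i) :=
    Trdeg_indep hx1 hy1 (fun n G hG h => (hyker n G hG).2 (hPQ ((hxker n G hG).1 h))) hJ.1
  have h1 := hind.cardinalMk_le_trdeg
  have h2 := IsTranscendenceBasis.cardinalMk_eq_trdeg (R := ℂ) (A := H17GT.functionField P)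
    (x := z') hz'
  rw [← h2, Cardinal.mk_fin, Cardinal.mk_fin, Nat.cast_le] at h1
  exact h1

end Pool.Agent.H62.FC

end
end

section

/-!
# The dimension of a proper closed subvariety is smaller

Start as in the proof of `trdeg_mono` (`Pool/Agent/H62/FC/Trdeg.lean`): `j` with `coordFun Q j ≠ 0` (from `hX`:
`aeval_coordFun_eq_zero_iff Q (X j)`), so `coordFun P j ≠ 0`; `proj_point` gives `y` in `K_Q = functionField Q` and `x` in
`K_P = functionField P` with `y j = 1`, `x j = 1`, and `aeval y G = 0 ↔ G ∈ Q`, `aeval x G = 0 ↔ G ∈ P` for forms `G`;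
`exists_index` (needs `halg`) gives `J : Fin w → Fin (N + 1)` such that `y ∘ J` is a transcendence basis of `K_Q`, and
`x ∘ J` is algebraically independent (`Trdeg_indep` is private there: copy it).

(a) For ALL polynomials `H` (not only forms): `aeval x H = 0 → aeval y H = 0`: let `d` be the total degree of `H`; the form
`H' = ∑ k ≤ d, X j ^ (d - k) * homogeneousComponent k H` has degree `d` and `aeval x H' = aeval x H` as `x j = 1`, the same for
`y` (`sum_homogeneousComponent`).  So `H' ∈ P ≤ Q` and `aeval y H = 0`.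

(b) By `trdeg_mono`, `w ≤ r`.  Suppose `w = r`.  There is `F ∈ Q`, `F ∉ P`, and by `Homog Q` one may take `F` a form (some
homogeneous component of `F` is not in `P`, all are in `Q`).  `f = aeval x F ≠ 0` and `aeval y F = 0`.  `f` is algebraic
over `A = Algebra.adjoin ℂ (range (x ∘ J))`, because `x ∘ J` is algebraically independent with `w = r = trdeg` elements
(otherwise `f` together with `x ∘ J` would be algebraically independent with `r + 1` elements:
`AlgebraicIndependent.cardinalMk_le_trdeg`; or: a finite algebraically independent family with `trdeg` elements is a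
transcendence basis).  As `f ≠ 0` and `A` is a domain: there is a polynomial `q` over `A` with `q.coeff 0 ≠ 0` and
`aeval f q = 0` (`exists_nonzero_coeff_and_aeval_eq_zero`).  Every coefficient of `q` is `aeval (x ∘ J) (c i)` with
`c i : MvPolynomial (Fin w) ℂ`, `c 0 ≠ 0`.  Let `H = ∑ i, rename J (c i) * F ^ i`: `aeval x H = 0`, so by (a)
`aeval y H = 0`; but `aeval y F = 0`, so `aeval y H = aeval (y ∘ J) (c 0) ≠ 0` (independence of `y ∘ J`): contradiction.
-/

open MvPolynomial
open Pool.Agent.H17GT (coordFun)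
open Pool.Agent.H17LG.Variety (FunField)
open Pool.Agent.H62.FC (Homog trdeg_mono)

noncomputable section

namespace Pool.Agent.H17BP

variable {N : ℕ} {P Q : Ideal (MvPolynomial (Fin (N + 1)) ℂ)}

/-- Coordinates which are algebraically independent on the smaller variety are so on the larger
one. -/
private lemma TrdegLt_indep {K L : Type} [Field K] [Algebra ℂ K] [Field L] [Algebra ℂ L] {k : ℕ}
    {x : Fin (N + 1) → K} {y : Fin (N + 1) → L}
    (h : ∀ G : MvPolynomial (Fin (N + 1)) ℂ, aeval x G = 0 → aeval y G = 0)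
    {J : Fin k → Fin (N + 1)} (hJ : AlgebraicIndependent ℂ fun i => y (J i)) :
    AlgebraicIndependent ℂ fun i => x (J i) := by
  rw [algebraicIndependent_iff] at hJ ⊢
  intro p hp
  apply hJ
  have h1 : aeval y (rename J p) = 0 := by
    apply h
    rw [aeval_rename]
    exact hp
  rw [aeval_rename] at h1
  exact h1

private lemma TrdegLt_hom {K L : Type} [Field K] [Algebra ℂ K] [Field L] [Algebra ℂ L]
    {j : Fin (N + 1)} {x : Fin (N + 1) → K} {y : Fin (N + 1) → L} (hx : x j = 1) (hy : y j = 1)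
    (h : ∀ (n : ℕ) (G : MvPolynomial (Fin (N + 1)) ℂ), G.IsHomogeneous n → aeval x G = 0 →
      aeval y G = 0) (H : MvPolynomial (Fin (N + 1)) ℂ) (hH : aeval x H = 0) : aeval y H = 0 := by
  have key : ∀ {K : Type} [Field K] [Algebra ℂ K] {x : Fin (N + 1) → K}, x j = 1 →
      aeval x (∑ k ∈ Finset.range (H.totalDegree + 1),
        X j ^ (H.totalDegree - k) * homogeneousComponent k H) = aeval x H := by
    intro K _ _ x hx
    conv_rhs => rw [← MvPolynomial.sum_homogeneousComponent H]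
    rw [map_sum, map_sum]
    refine Finset.sum_congr rfl fun k _ => ?_
    rw [map_mul, map_pow, aeval_X, hx, one_pow, one_mul]
  rw [← key hy]
  refine h H.totalDegree _ ?_ (by rw [key hx, hH])
  apply MvPolynomial.IsHomogeneous.sum
  intro d hd
  have h1 : d ≤ H.totalDegree := Nat.lt_succ_iff.1 (Finset.mem_range.1 hd)
  have h2 := (MvPolynomial.isHomogeneous_X_pow (R := ℂ) j (H.totalDegree - d)).mul
    (MvPolynomial.homogeneousComponent_isHomogeneous d H)
  rwa [Nat.sub_add_cancel h1] at h2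

private lemma TrdegLt_core {K L : Type} [Field K] [Algebra ℂ K] [Field L] [Algebra ℂ L] {w : ℕ}
    {x : Fin (N + 1) → K} {y : Fin (N + 1) → L} {J : Fin w → Fin (N + 1)}
    (hxJ : IsTranscendenceBasis ℂ fun i => x (J i)) (hyJ : AlgebraicIndependent ℂ fun i => y (J i))
    (hxy : ∀ H : MvPolynomial (Fin (N + 1)) ℂ, aeval x H = 0 → aeval y H = 0)
    {F : MvPolynomial (Fin (N + 1)) ℂ} (hF : aeval x F ≠ 0) (hF' : aeval y F = 0) : False := by
  have halg := hxJ.isAlgebraic
  obtain ⟨q, hq0, hq⟩ := (halg.isAlgebraic (aeval x F)).exists_nonzero_coeff_and_aeval_eq_zero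
    (mem_nonZeroDivisors_of_ne_zero hF)
  have hc : ∀ u : Algebra.adjoin ℂ (Set.range fun i => x (J i)),
      ∃ c : MvPolynomial (Fin w) ℂ, aeval (fun i => x (J i)) c = (u : K) := by
    have h1 : ∀ u ∈ Algebra.adjoin ℂ (Set.range fun i => x (J i)),
        ∃ c : MvPolynomial (Fin w) ℂ, aeval (fun i => x (J i)) c = u := by
      intro u hu
      rw [Algebra.adjoin_range_eq_range_aeval] at hu
      exact hu
    exact fun u => h1 _ u.2
  choose c hc using hc
  have h1 : aeval x (∑ i ∈ Finset.range (q.natDegree + 1), rename J (c (q.coeff i)) * F ^ i) = 0 := by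
    rw [map_sum, ← hq, Polynomial.aeval_eq_sum_range]
    refine Finset.sum_congr rfl fun i _ => ?_
    rw [map_mul, map_pow, aeval_rename, Algebra.smul_def]
    congr 1
    exact hc _
  have h2 := hxy _ h1
  rw [map_sum, Finset.sum_range_succ', Finset.sum_eq_zero, zero_add, map_mul, map_pow, pow_zero,
    mul_one, aeval_rename] at h2
  · rw [algebraicIndependent_iff] at hyJ
    have h3 : c (q.coeff 0) = 0 := hyJ _ h2
    have h4 := hc (q.coeff 0)
    rw [h3, map_zero] at h4
    exact hq0 (Subtype.ext h4.symm)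
  · intro i _
    rw [map_mul, map_pow, hF', zero_pow (Nat.succ_ne_zero i), mul_zero]

theorem trdeg_lt [P.IsPrime] [Q.IsPrime] (hP : Homog P) (hQ : Homog Q) (hPQ : P ≤ Q) (hne : ¬ Q ≤ P)
    (hX : ∃ i, (X i : MvPolynomial (Fin (N + 1)) ℂ) ∉ Q) {r w : ℕ}
    (hr : ∃ z : Fin r → FunField P, IsTranscendenceBasis ℂ z)
    (hw : ∃ z : Fin w → FunField Q, IsTranscendenceBasis ℂ z) : w < r := by
  refine lt_of_le_of_ne (trdeg_mono hP hQ hPQ hr hw) ?_
  rintro rfl
  obtain ⟨z, hz⟩ := hw
  obtain ⟨z', hz'⟩ := hr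
  obtain ⟨j, hj0⟩ := hX
  have hj : coordFun Q j ≠ 0 := by
    intro h0
    exact hj0 ((Pool.Agent.H92.GT.Proj.aeval_coordFun_eq_zero_iff Q (X j)).1
      (by rw [aeval_X]; exact h0))
  have hj' : coordFun P j ≠ 0 := by
    intro h0
    apply hj
    have h1 := (Pool.Agent.H92.GT.Proj.aeval_coordFun_eq_zero_iff P (X j)).1
      (by rw [aeval_X]; exact h0)
    have h2 := (Pool.Agent.H92.GT.Proj.aeval_coordFun_eq_zero_iff Q (X j)).2 (hPQ h1)
    rwa [aeval_X] at h2
  obtain ⟨y, hy1, hygen, hyker⟩ := Pool.Agent.H92.GT.Proj.proj_point Q hj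
  obtain ⟨x, hx1, -, hxker⟩ := Pool.Agent.H92.GT.Proj.proj_point P hj'
  have halg : Algebra.IsAlgebraic (IntermediateField.adjoin ℂ (Set.range y))
      (H17GT.functionField Q) := by
    rw [hygen]
    exact ⟨fun f => isAlgebraic_algebraMap (⟨f, IntermediateField.mem_top⟩ :
      (⊤ : IntermediateField ℂ (H17GT.functionField Q)))⟩
  obtain ⟨J, hJ⟩ := Pool.Agent.H92.GT.exists_index halg (z := z) hz
  have hxy : ∀ H : MvPolynomial (Fin (N + 1)) ℂ, aeval x H = 0 → aeval y H = 0 :=
    TrdegLt_hom hx1 hy1 fun n G hG h => (hyker n G hG).2 (hPQ ((hxker n G hG).1 h))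
  have hind : AlgebraicIndependent ℂ fun i => x (J i) := TrdegLt_indep hxy hJ.1
  have h2 := IsTranscendenceBasis.cardinalMk_eq_trdeg (R := ℂ) (A := H17GT.functionField P)
    (x := z') hz'
  have hbasis : IsTranscendenceBasis ℂ fun i => x (J i) :=
    hind.isTranscendenceBasis_of_trdeg_le_of_finite h2.ge
  obtain ⟨F₀, hF₀Q, hF₀P⟩ := Set.not_subset.1 hne
  obtain ⟨n, hn⟩ : ∃ n, homogeneousComponent n F₀ ∉ P := by
    by_contra hcon
    push Not at hcon
    apply hF₀P
    change F₀ ∈ P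
    rw [← MvPolynomial.sum_homogeneousComponent F₀]
    exact Ideal.sum_mem _ fun i _ => hcon i
  have hFQ := hQ F₀ hF₀Q n
  exact TrdegLt_core hbasis hJ.1 hxy
    (fun h => hn ((hxker n _ (homogeneousComponent_isHomogeneous n F₀)).1 h))
    ((hyker n _ (homogeneousComponent_isHomogeneous n F₀)).2 hFQ)

end Pool.Agent.H17BP

end
end

section

/-!
# PY Bound: the main theorem on discs

Brody's reparametrisation for the function `‖h'‖`: if `‖h' 0‖ = M` is large there is `z₀` and `s` with `‖h' z₀‖ s ≥ M / 4`, `closedBall z₀ s ⊆ ball 0 1`, `‖h'‖ ≤ 2 ‖h' z₀‖` on `ball z₀ s` (maximum of `(1/2 - ‖z‖) ‖h' z‖` or of `(1 - ‖z‖ ^ 2) ‖h' z‖` on a smaller closed disc).  Put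
`H ζ = h (z₀ + ζ / ‖h' z₀‖)`: `‖H' 0‖ = 1`, `‖H'‖ ≤ 2` on the disc of radius `M / 4`; Cauchy: `‖H'' ‖ ≤ 8 · 2 / M ..`, so `‖H' ζ - H' 0‖ ≤ η` for `‖ζ‖ < R` if `M ≥ C R / η`.  `no_long` with `A₁ = A₂ = 1`, `a = H' 0`.
-/

set_option autoImplicit false

open Topology Filter Metric

namespace Pool.Agent.PY

open Pool.Agent.AD (Vd)

variable {k d r : ℕ}

variable {Λ : AddSubgroup (Vd (k + 1))} {D : Set (Vd (k + 1))} {θ : Fin (d + 1) → Vd (k + 1) → ℂ}
  {W : Fin r → Vd (k + 1) →L[ℂ] ℂ}

/-- Brody's choice of the point. -/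
theorem brody_pt {f : ℂ → Vd (k + 1)} (hf : DifferentiableOn ℂ f (ball 0 1)) (h0 : 0 < ‖f 0‖) :
    ∃ z₀ : ℂ, ‖z₀‖ < 1 / 2 ∧ 0 < (1 / 2 - ‖z₀‖) / 2 ∧ (∀ z ∈ ball z₀ ((1 / 2 - ‖z₀‖) / 2), ‖f z‖ ≤ 2 * ‖f z₀‖) ∧
      ‖f 0‖ / 4 ≤ (1 / 2 - ‖z₀‖) / 2 * ‖f z₀‖ := by
  have hcont : ContinuousOn (fun z : ℂ => (1 / 2 - ‖z‖) * ‖f z‖) (closedBall 0 (1 / 2)) := by
    have h1 : ContinuousOn f (closedBall 0 (1 / 2)) := hf.continuousOn.mono (closedBall_subset_ball (by norm_num))
    exact (continuous_const.sub continuous_norm).continuousOn.mul h1.norm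
  obtain ⟨z₀, hz₀, hmax⟩ := (isCompact_closedBall (0 : ℂ) (1 / 2)).exists_isMaxOn ⟨0, by simp⟩ hcont
  have h1 : (1 / 2 : ℝ) * ‖f 0‖ ≤ (1 / 2 - ‖z₀‖) * ‖f z₀‖ := by
    have := hmax (a := 0) (by simp)
    simpa using this
  have h2 : 0 < (1 / 2 - ‖z₀‖) * ‖f z₀‖ := lt_of_lt_of_le (by positivity) h1
  have h3 : 0 < 1 / 2 - ‖z₀‖ := by
    by_contra h
    push Not at h
    have := mul_nonpos_of_nonpos_of_nonneg h (norm_nonneg (f z₀))
    linarith
  refine ⟨z₀, by linarith, by linarith, fun z hz => ?_, by linarith⟩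
  rw [mem_ball_iff_norm] at hz
  have h4 : ‖z‖ ≤ ‖z - z₀‖ + ‖z₀‖ := by
    simpa using norm_add_le (z - z₀) z₀
  have h5 : (1 / 2 - ‖z₀‖) / 2 ≤ 1 / 2 - ‖z‖ := by linarith
  have h6 : (1 / 2 - ‖z‖) * ‖f z‖ ≤ (1 / 2 - ‖z₀‖) * ‖f z₀‖ := hmax (a := z) (by
    rw [mem_closedBall_zero_iff]
    linarith)
  have h7 : (1 / 2 - ‖z₀‖) / 2 * ‖f z‖ ≤ (1 / 2 - ‖z₀‖) * ‖f z₀‖ := (mul_le_mul_of_nonneg_right h5 (norm_nonneg _)).trans h6
  have h8 : (1 / 2 - ‖z₀‖) * ‖f z‖ ≤ (1 / 2 - ‖z₀‖) * (2 * ‖f z₀‖) := by linarith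
  exact le_of_mul_le_mul_left h8 h3

end Pool.Agent.PY

end
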