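import Pool.Agent.H94.PX2.M06
import Pool.Agent.H94.PX2.M12
import Pool.Agent.H94.PX2.M13
import Pool.Agent.H94.PX2.M21
import Pool.Agent.H94.PX2.M27
import Pool.Agent.H94.PX2.M35
import Pool.Agent.H94.PX2.M36
import Pool.Agent.H94.PX2.PX.Bas

/-! The parts of this file: H36.BPL.Defs, H62.Qe.Ext, H7.Qup.Main, H13.CV.FunF, H22.TB.Defs, PX.BD, TG.SaA, TG.SaDefs, TG.FDefs, PX.FrA. -/

section

/-!
# BPL: open surfaces in projective spaces, in terms of their cones

`X` is the cone of a smooth closed surface, `K` the cone over the complement of a curve `D` in it.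
-/

set_option autoImplicit false

namespace Pool.Agent.H36.BPL

open Filter Topology Metric

variable {V : Type} [NormedAddCommGroup V] [NormedSpace ℂ V]

/-- `K` is the complement in `X` of a curve which is locally given by one equation. -/
structure OpenPart (X K : Set V) : Prop where
  sub : K ⊆ X
  smul : ∀ x ∈ K, ∀ c : ℂ, c ≠ 0 → c • x ∈ K
  eqn : ∀ x ∈ X, ∃ h : V → ℂ, AnalyticAt ℂ h x ∧ ∀ᶠ y in 𝓝 x, y ∈ X → (y ∉ K ↔ h y = 0)

/-- `g` is holomorphic near `p` and vanishes on the preimage of `X ∖ K` under `φ` -/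
def VanOff (K : Set V) (φ : ℂ × ℂ → V) (p : ℂ × ℂ) (g : ℂ × ℂ → ℂ) : Prop :=
  AnalyticAt ℂ g p ∧ ∀ᶠ y in 𝓝 p, φ y ∉ K → g y = 0

/-- The form `Ω` on `K` has poles of order at most `e` along `X ∖ K`: the pull back of `Ω` to `ℂ²` becomes holomorphic when it is multiplied with `e`
functions which vanish on the preimage of `X ∖ K`. -/
def PoleLE (X K : Set V) (e : ℕ) (Ω : V → V → V → ℂ) : Prop :=
  ∀ (φ : ℂ × ℂ → V) (p : ℂ × ℂ), AnalyticAt ℂ φ p → (∀ᶠ y in 𝓝 p, φ y ∈ X) → ∀ G : List (ℂ × ℂ → ℂ), G.length = e →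
    (∀ g ∈ G, VanOff K φ p g) → ∃ b : ℂ × ℂ → ℂ, AnalyticAt ℂ b p ∧
      ∀ᶠ y in 𝓝 p, φ y ∈ K → b y = (G.map fun g => g y).prod * Ω (φ y) (fderiv ℂ φ y (1, 0)) (fderiv ℂ φ y (0, 1))

theorem OpenPart.rel {X K : Set V} (h : OpenPart X K) : ∀ x ∈ K, ∀ᶠ y in 𝓝 x, y ∈ X → y ∈ K := by
  intro x hx
  obtain ⟨g, hg, he⟩ := h.eqn x (h.sub hx)
  have h1 : g x ≠ 0 := fun h0 => ((he.self_of_nhds (h.sub hx)).mpr h0) hx
  filter_upwards [he, hg.continuousAt.eventually_ne h1] with y hy hy2 hyX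
  by_contra h2
  exact hy2 ((hy hyX).mp h2)

theorem AffProper.closed (X : Set V) (hX : ∀ x ∈ X, ∀ c : ℂ, c ≠ 0 → c • x ∈ X) : AffProper X X (fun _ : V => (0 : Fin 0 → ℂ)) where
  smul _ _ _ _ := rfl
  cont := continuousOn_const
  hol _ _ _ _ := analyticAt_const
  proper x hx hxK := absurd hx hxK
  iso F z₀ _ hF := Or.inr (hF.filter_mono nhdsWithin_le_nhds)

end Pool.Agent.H36.BPL

end

section

/-!
# Qe Ext: extension of holomorphic maps of the punctured disc
-/

set_option autoImplicit false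

open Topology Filter MvPolynomial

noncomputable section

namespace Pool.Agent.H62.Qe

open Pool.Agent.H17 (PN VanishesAt HolomorphicInto puncturedDisc vanishesAt_mk_iff)
open Pool.Agent.H17EF (projVar)
open Pool.Agent.H7.Bir (vals rmap rmap_mk vals_smul)

variable {N M : ℕ}

/-- If `f (z ^ k)` is given by holomorphic homogeneous coordinates near `0` then `f` extends to the disc. -/
theorem extend_of_pow {f : ℂ → PN N} (hf : HolomorphicInto f puncturedDisc) {k : ℕ} (hk : 1 ≤ k) {Φ : ℂ → Fin (N + 1) → ℂ}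
    (hΦ : ContinuousAt Φ 0) (hΦ0 : Φ 0 ≠ 0) (hΦf : ∀ᶠ z in 𝓝 (0 : ℂ), z ≠ 0 → ∃ h : Φ z ≠ 0, f (z ^ k) = Projectivization.mk ℂ (Φ z) h) :
    ∃ g : ℂ → PN N, HolomorphicInto g (Metric.ball 0 1) ∧ ∀ z ∈ puncturedDisc, g z = f z := by
  classical
  obtain ⟨j, hj⟩ : ∃ j, Φ 0 j ≠ 0 := by
    by_contra hcon
    push Not at hcon
    exact hΦ0 (funext hcon)
  set S : ℂ → Fin (N + 1) → ℂ := fun w => ((f w).rep j)⁻¹ • (f w).rep with hS
  -- ratios of homogeneous coordinates
  have hSmk : ∀ (w : ℂ) (x : Fin (N + 1) → ℂ) (hx : x ≠ 0), f w = Projectivization.mk ℂ x hx → S w = (x j)⁻¹ • x := by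
    intro w x hx h
    obtain ⟨a, ha⟩ := Projectivization.exists_smul_eq_mk_rep ℂ x hx
    have h1 : (f w).rep = (a : ℂ) • x := by rw [h]; exact ha.symm
    rw [hS]
    simp only [h1, Pi.smul_apply, smul_eq_mul]
    rw [smul_smul, mul_inv, mul_comm (a : ℂ)⁻¹, mul_assoc, inv_mul_cancel₀ a.ne_zero, mul_one]
  -- a punctured neighbourhood on which the coordinates are controlled
  have h1 : ContinuousAt (fun z => (Φ z j)⁻¹ • Φ z) 0 := by
    have h2 : ContinuousAt (fun z => Φ z j) 0 := (continuous_apply j).continuousAt.comp hΦ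
    exact (h2.inv₀ hj).smul hΦ
  have h2 : ∀ᶠ z in 𝓝 (0 : ℂ), ‖(Φ z j)⁻¹ • Φ z‖ < ‖(Φ 0 j)⁻¹ • Φ 0‖ + 1 :=
    h1.norm.eventually_lt continuousAt_const (lt_add_one _)
  have h3 : ∀ᶠ z in 𝓝 (0 : ℂ), Φ z j ≠ 0 := ((continuous_apply j).continuousAt.comp hΦ).eventually_ne hj
  obtain ⟨ρ, hρ, hρb⟩ := Metric.eventually_nhds_iff_ball.1 ((hΦf.and h2).and h3)
  set r : ℝ := min (ρ ^ k) 1 with hr
  have hr0 : 0 < r := lt_min (pow_pos hρ k) one_pos
  have hroot : ∀ w ∈ Metric.ball (0 : ℂ) r \ {0}, ∃ z ∈ Metric.ball (0 : ℂ) ρ, z ≠ 0 ∧ z ^ k = w := by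
    intro w hw
    obtain ⟨z, hz⟩ := IsAlgClosed.exists_pow_nat_eq w (by omega : 0 < k)
    refine ⟨z, ?_, ?_, hz⟩
    · rw [mem_ball_zero_iff]
      by_contra hcon
      push Not at hcon
      have h4 : ρ ^ k ≤ ‖z‖ ^ k := pow_le_pow_left₀ hρ.le hcon k
      rw [← norm_pow, hz] at h4
      have h5 : ‖w‖ < r := by
        rw [← mem_ball_zero_iff]
        exact hw.1
      exact absurd (lt_of_lt_of_le h5 (min_le_left _ _)) (not_lt.2 h4)
    · rintro rfl
      apply hw.2
      rw [Set.mem_singleton_iff, ← hz, zero_pow (by omega)]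
  have hmem : ∀ w ∈ Metric.ball (0 : ℂ) r \ {0}, w ∈ puncturedDisc := fun w hw =>
    ⟨Metric.ball_subset_ball (min_le_right _ _) hw.1, hw.2⟩
  have hval : ∀ w ∈ Metric.ball (0 : ℂ) r \ {0}, (f w).rep j ≠ 0 ∧ ‖S w‖ ≤ ‖(Φ 0 j)⁻¹ • Φ 0‖ + 1 := by
    intro w hw
    obtain ⟨z, hz, hz0, hzw⟩ := hroot w hw
    obtain ⟨⟨h4, h5⟩, h6⟩ := hρb z hz
    obtain ⟨h7, h8⟩ := h4 hz0
    rw [hzw] at h8
    refine ⟨?_, ?_⟩
    · obtain ⟨a, ha⟩ := Projectivization.exists_smul_eq_mk_rep ℂ (Φ z) h7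
      have h9 : (f w).rep = (a : ℂ) • Φ z := by rw [h8]; exact ha.symm
      rw [h9]
      exact mul_ne_zero a.ne_zero h6
    · rw [hSmk w _ h7 h8]
      exact h5.le
  have hd : DifferentiableOn ℂ S (Metric.ball (0 : ℂ) r \ {0}) := by
    intro w hw
    obtain ⟨φ, h4, h5⟩ := hf w (hmem w hw)
    have h6 : φ w j ≠ 0 := by
      obtain ⟨h7, h8⟩ := h5.self_of_nhds
      obtain ⟨a, ha⟩ := Projectivization.exists_smul_eq_mk_rep ℂ (φ w) h7
      have h9 : (f w).rep = (a : ℂ) • φ w := by rw [h8]; exact ha.symm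
      have h10 := (hval w hw).1
      rw [h9] at h10
      exact right_ne_zero_of_mul h10
    have h7 : AnalyticAt ℂ (fun z => (φ z j)⁻¹ • φ z) w := by
      have h8 : AnalyticAt ℂ (fun z => φ z j) w := analyticAt_pi_iff.1 h4 j
      exact (h8.inv h6).smul h4
    refine DifferentiableAt.differentiableWithinAt (h7.differentiableAt.congr_of_eventuallyEq ?_)
    filter_upwards [h5] with z hz
    obtain ⟨h8, h9⟩ := hz
    exact hSmk z _ h8 h9
  have hb : BddAbove (norm ∘ S '' (Metric.ball (0 : ℂ) r \ {0})) := by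
    refine ⟨‖(Φ 0 j)⁻¹ • Φ 0‖ + 1, ?_⟩
    rintro _ ⟨w, hw, rfl⟩
    exact (hval w hw).2
  have hu := Complex.differentiableOn_update_limUnder_of_bddAbove (Metric.ball_mem_nhds (0 : ℂ) hr0) hd hb
  set S' : ℂ → Fin (N + 1) → ℂ := Function.update S 0 (limUnder (𝓝[≠] 0) S) with hS'
  have hS'a : AnalyticAt ℂ S' 0 := hu.analyticAt (Metric.ball_mem_nhds (0 : ℂ) hr0)
  have hS'eq : ∀ w, w ≠ 0 → S' w = S w := fun w hw => Function.update_of_ne hw _ _
  have hS'j : ∀ᶠ w in 𝓝[≠] (0 : ℂ), S' w j = 1 := by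
    have h4 : Metric.ball (0 : ℂ) r \ {0} ∈ 𝓝[≠] (0 : ℂ) := sdiff_mem_nhdsWithin_compl (Metric.ball_mem_nhds _ hr0) _
    filter_upwards [h4] with w hw
    rw [hS'eq w hw.2]
    exact inv_mul_cancel₀ (hval w hw).1
  have hS'0 : S' 0 j = 1 := by
    have h4 : Tendsto (fun w => S' w j) (𝓝[≠] (0 : ℂ)) (𝓝 (S' 0 j)) :=
      ((continuous_apply j).continuousAt.comp hS'a.continuousAt).tendsto.mono_left nhdsWithin_le_nhds
    have h5 : Tendsto (fun w => S' w j) (𝓝[≠] (0 : ℂ)) (𝓝 1) := tendsto_const_nhds.congr' (hS'j.mono fun w hw => hw.symm)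
    exact tendsto_nhds_unique h4 h5
  have hne : S' 0 ≠ 0 := by
    intro h
    rw [h] at hS'0
    exact zero_ne_one hS'0
  have hS'ne : ∀ᶠ w in 𝓝 (0 : ℂ), S' w ≠ 0 := hS'a.continuousAt.eventually_ne hne
  refine ⟨fun w => if w = 0 then Projectivization.mk ℂ (S' 0) hne else f w, fun w₀ hw₀ => ?_, fun w hw => if_neg hw.2⟩
  by_cases h0 : w₀ = 0
  · subst h0
    refine ⟨S', hS'a, ?_⟩
    filter_upwards [hS'ne, Metric.ball_mem_nhds (0 : ℂ) hr0] with w h4 h5
    refine ⟨h4, ?_⟩
    by_cases hw : w = 0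
    · subst hw
      rw [if_pos rfl]
    · rw [if_neg hw, ← Projectivization.mk_rep (f w), Projectivization.mk_eq_mk_iff']
      have h6 := (hval w ⟨h5, hw⟩).1
      refine ⟨(f w).rep j, ?_⟩
      rw [hS'eq w hw]
      show (f w).rep j • (((f w).rep j)⁻¹ • (f w).rep) = (f w).rep
      rw [smul_smul, mul_inv_cancel₀ h6, one_smul]
  · obtain ⟨φ, h4, h5⟩ := hf w₀ ⟨hw₀, h0⟩
    refine ⟨φ, h4, ?_⟩
    filter_upwards [h5, isOpen_ne.mem_nhds h0] with w h6 h7
    rw [if_neg h7]
    exact h6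

/-- If a lift `g` of `f (z ^ k)` extends to the disc, then `f` extends. -/
theorem extend_of_lift {P : Ideal (MvPolynomial (Fin (N + 1)) ℂ)} {P' : Ideal (MvPolynomial (Fin (M + 1)) ℂ)} {p : PN M → PN N}
    (hp : IsReg P P' p) {f : ℂ → PN N} (hf : HolomorphicInto f puncturedDisc) {k : ℕ} (hk : 1 ≤ k) {g ĝ : ℂ → PN M}
    (hgX : ∀ z ∈ puncturedDisc, g z ∈ projVar P') (hgf : ∀ z ∈ puncturedDisc, p (g z) = f (z ^ k))
    (hĝ : HolomorphicInto ĝ (Metric.ball 0 1)) (hgg : ∀ z ∈ puncturedDisc, ĝ z = g z) :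
    ∃ g₀ : ℂ → PN N, HolomorphicInto g₀ (Metric.ball 0 1) ∧ ∀ z ∈ puncturedDisc, g₀ z = f z := by
  obtain ⟨ψ, hψ, hψg⟩ := hĝ 0 (Metric.mem_ball_self one_pos)
  obtain ⟨hψ0, hψ0g⟩ := hψg.self_of_nhds
  have hD : ∀ᶠ z in 𝓝 (0 : ℂ), z ≠ 0 → z ∈ puncturedDisc := by
    filter_upwards [Metric.ball_mem_nhds (0 : ℂ) one_pos] with z h1 h2
    exact ⟨h1, h2⟩
  -- the value at `0` belongs to `X'`
  have h0X : ĝ 0 ∈ projVar P' := by
    intro Q hQ n hn
    rw [hψ0g, vanishesAt_mk_iff hn]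
    have h1 : Tendsto (fun z => eval (ψ z) Q) (𝓝[≠] (0 : ℂ)) (𝓝 (eval (ψ 0) Q)) := by
      have h2 : ContinuousAt (fun z => eval (ψ z) Q) 0 :=
        ContinuousAt.comp (g := fun x => eval x Q) (f := ψ) (MvPolynomial.continuous_eval Q).continuousAt hψ.continuousAt
      exact h2.tendsto.mono_left nhdsWithin_le_nhds
    have h2 : Tendsto (fun z => eval (ψ z) Q) (𝓝[≠] (0 : ℂ)) (𝓝 0) := by
      refine tendsto_const_nhds.congr' ?_
      rw [EventuallyEq, eventually_nhdsWithin_iff]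
      filter_upwards [hψg, hD] with z h3 h4 h5
      obtain ⟨h6, h7⟩ := h3
      have h8 := hgX z (h4 h5)
      rw [← hgg z (h4 h5), h7] at h8
      have h9 := h8 Q hQ n hn
      rw [vanishesAt_mk_iff hn] at h9
      exact h9.symm
    exact tendsto_nhds_unique h1 h2
  obtain ⟨D, γ, hγ, hγ0, hγp⟩ := hp.regular (ĝ 0) h0X
  have hrep : ∀ (x : Fin (M + 1) → ℂ) (hx : x ≠ 0), vals γ (Projectivization.mk ℂ x hx).rep ≠ 0 ↔ vals γ x ≠ 0 := by
    intro x hx
    obtain ⟨a, ha⟩ := Projectivization.exists_smul_eq_mk_rep ℂ x hx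
    have h1 : (Projectivization.mk ℂ x hx).rep = (a : ℂ) • x := ha.symm
    rw [h1, vals_smul hγ]
    constructor
    · intro h h2
      rw [h2, smul_zero] at h
      exact h rfl
    · exact fun h => smul_ne_zero (pow_ne_zero _ a.ne_zero) h
  have hv0 : vals γ (ψ 0) ≠ 0 := by
    rw [← hrep _ hψ0, ← hψ0g]
    exact hγ0
  have hvc : ContinuousAt (fun z => vals γ (ψ z)) 0 := by
    have hc : Continuous fun x : Fin (M + 1) → ℂ => vals γ x := continuous_pi fun i => MvPolynomial.continuous_eval (γ i)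
    exact ContinuousAt.comp (g := fun x => vals γ x) (f := ψ) hc.continuousAt hψ.continuousAt
  refine extend_of_pow hf hk hvc hv0 ?_
  filter_upwards [hψg, hD, hvc.eventually_ne hv0] with z h1 h2 h3 h4
  obtain ⟨h5, h6⟩ := h1
  refine ⟨h3, ?_⟩
  have h7 : ĝ z ∈ projVar P' := by
    rw [hgg z (h2 h4)]
    exact hgX z (h2 h4)
  have h8 : vals γ (ĝ z).rep ≠ 0 := by
    rw [h6, hrep _ h5]
    exact h3
  rw [← hgf z (h2 h4), ← hgg z (h2 h4), hγp _ h7 h8, h6, rmap_mk hγ h5 h3]

end Pool.Agent.H62.Qe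

end
end

section

/-!
# Qup Main: the properties of the conjecture go up along dominant regular maps of quasi-projective surfaces

`open_dominant`: let `p : U' → U` be a dominant regular map of quasi-projective surfaces.  If `U` has the four properties then so has `U'`.
-/

set_option autoImplicit false

open Topology Filter MvPolynomial

noncomputable section

namespace Pool.Agent.H7.Qup

open Pool.Agent.H17 (PN VanishesAt HolomorphicInto puncturedDisc ZariskiClosedIn)
open Pool.Agent.H17LG.Variety (FunField IsLogGeneralType)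
open Pool.Agent.H62.SA (locVar OnBd)
open Pool.Agent.H7.Bir (vals rmap)

variable {N M : ℕ} {P : Ideal (MvPolynomial (Fin (N + 1)) ℂ)} {P' : Ideal (MvPolynomial (Fin (M + 1)) ℂ)} {s s' : ℕ}
  {G : Fin s → MvPolynomial (Fin (N + 1)) ℂ} {G' : Fin s' → MvPolynomial (Fin (M + 1)) ℂ} {p : PN M → PN N}

theorem IsDominantMap.nonempty [P.IsPrime] (hp : IsDominantMap P P' G G' p) : (locVar P' G').Nonempty := by
  by_contra hcon
  rw [Set.not_nonempty_iff_eq_empty] at hcon
  refine (Ideal.ne_top_iff_one P).1 (Ideal.IsPrime.ne_top inferInstance) (hp.dense 1 0 (isHomogeneous_one _ _) fun y hy => ?_)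
  rw [hcon] at hy
  exact absurd hy (Set.notMem_empty y)

end Pool.Agent.H7.Qup

end
end

section

/-!
# CV FunF: the function field of a curve in projective space

`FunField Q` is generated over `ℂ` by the finitely many functions `ratio Q i j`.  `exists_tr`: the member of the transcendence basis.  `fin`: let `x` be transcendental.  The transcendence degree is `1`, so `x` is
a transcendence basis (`AlgebraicIndependent.isTranscendenceBasis_of_trdeg_le_of_finite` or similar, see the proof of `trdeg_lt` in `Pool/Agent/H17BP/TrdegLt.lean`), and `K` is algebraic over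
`ℂ(x)` and generated by finitely many elements, so it is finite over `ℂ(x)` (`IntermediateField.finiteDimensional_adjoin`, `IntermediateField.finiteDimensional_of_exists_…`,
`IntermediateField.essFiniteType`, `Algebra.IsAlgebraic` + `Algebra.EssFiniteType` → `Module.Finite`: `Algebra.finite_of_essFiniteType_of_isAlgebraic`-like; there is also
`Pool.Agent.H23` material with `[Algebra.EssFiniteType ℂ K]`).
-/

set_option autoImplicit false

open MvPolynomial
open Pool.Agent.H17LG.Variety (FunField IsLogGeneralType)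

noncomputable section

namespace Pool.Agent.H13.CV

variable {N : ℕ}

private lemma funF_core {K : Type} [Field K] [Algebra ℂ K] (y : Fin (N + 1) → K)
    (hy : IntermediateField.adjoin ℂ (Set.range y) = ⊤) {z : Fin 1 → K} (hz : IsTranscendenceBasis ℂ z) :
    CurveField K := by
  refine ⟨⟨z 0, hz.1.transcendental 0⟩, fun x hx => ?_⟩
  have hind : AlgebraicIndependent ℂ (fun _ : Fin 1 => x) := algebraicIndependent_unique_type_iff.2 hx
  have h2 := IsTranscendenceBasis.cardinalMk_eq_trdeg (R := ℂ) (A := K) (x := z) hz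
  have hbasis : IsTranscendenceBasis ℂ fun _ : Fin 1 => x :=
    hind.isTranscendenceBasis_of_trdeg_le_of_finite h2.ge
  have halg := hbasis.isAlgebraic_field
  have hr : Set.range (fun _ : Fin 1 => x) = {x} := Set.range_const
  rw [hr] at halg
  have hfin : FiniteDimensional (IntermediateField.adjoin ℂ {x})
      (IntermediateField.adjoin (IntermediateField.adjoin ℂ {x}) (Set.range y)) :=
    IntermediateField.finiteDimensional_adjoin fun u _ => (halg.isAlgebraic u).isIntegral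
  have htop : IntermediateField.adjoin (IntermediateField.adjoin ℂ {x}) (Set.range y) = ⊤ := by
    rw [eq_top_iff]
    intro u _
    have hu : u ∈ IntermediateField.adjoin ℂ (Set.range y) := by
      rw [hy]
      exact IntermediateField.mem_top
    have hle : IntermediateField.adjoin ℂ (Set.range y) ≤
        (IntermediateField.adjoin (IntermediateField.adjoin ℂ {x}) (Set.range y)).restrictScalars ℂ := by
      rw [IntermediateField.adjoin_le_iff]
      exact IntermediateField.subset_adjoin (IntermediateField.adjoin ℂ {x}) (Set.range y)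
    exact hle hu
  rw [htop] at hfin
  exact FiniteDimensional.of_surjective
    ((⊤ : IntermediateField (IntermediateField.adjoin ℂ {x}) K).val.toLinearMap)
    (fun u => ⟨⟨u, IntermediateField.mem_top⟩, rfl⟩)

theorem curveField_funField (Q : Ideal (MvPolynomial (Fin (N + 1)) ℂ)) [Q.IsPrime] (hz : ∃ z : Fin 1 → FunField Q, IsTranscendenceBasis ℂ z) :
    CurveField (FunField Q) := by
  obtain ⟨z, hz⟩ := hz
  obtain ⟨j, hj⟩ := Pool.Agent.H92.GT.Proj.exists_coordFun_ne_zero Q (k := 0) z hz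
  obtain ⟨y, -, hygen, -⟩ := Pool.Agent.H92.GT.Proj.proj_point Q hj
  exact funF_core (K := FunField Q) y hygen hz

end Pool.Agent.H13.CV

end
end

section

/-!
# TB Defs: three of the properties of the Green-Griffiths-Lang conjecture, and (iv) for curves
-/

set_option autoImplicit false

open MvPolynomial

noncomputable section

namespace Pool.Agent.H22.TB

open Pool.Agent.H17 (PN VanishesAt HolomorphicInto puncturedDisc ZariskiClosedIn)

variable {N : ℕ}

/-- The Zariski closure in `X` of the set `D`. -/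
def closureIn (X D : Set (PN N)) : Set (PN N) :=
  {x | x ∈ X ∧ ∀ (Q : MvPolynomial (Fin (N + 1)) ℂ) (e : ℕ), Q.IsHomogeneous e → (∀ y ∈ D, VanishesAt Q y) → VanishesAt Q x}

end Pool.Agent.H22.TB

end
end

section

/-!
# PX BD: the data of the final part

Only these consequences of the main theorem on discs are used in part F (`PD.bd`, file `PX/BDp.lean`, gives them for the data `PD`).
-/

set_option autoImplicit false

open Topology Filter Metric

namespace Pool.Agent.PX

open Pool.Agent.H36.BP (EN fs wd)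
open Pool.Agent.AD (Vd)
open Pool.Agent.TG (Lat)

variable {k d : ℕ}

/-- the data of the final part: quasi-periodicity and the bound for discs -/
structure BD (Λ : AddSubgroup (Vd (k + 1))) (θ : Fin (d + 1) → Vd (k + 1) → ℂ) : Prop where
  lat : Lat Λ
  deg : 1 ≤ d
  an : ∀ i, Differentiable ℂ (θ i)
  per : ∀ l ∈ Λ, ∀ y, ∃ e : ℂ, e ≠ 0 ∧ ∀ i, θ i (y + l) = e * θ i y
  bound : ∃ C : ℝ, 0 < C ∧ ∀ (w : ℂ → EN 1) (h : ℂ → Vd (k + 1)), Cp θ (ball 0 1) w h → ‖deriv h 0‖ ≤ C

end Pool.Agent.PX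

end

section

/-!
# TG SaA: entire curves of order two in varieties over complex tori are mapped to affine curves

`F : ℂ → EN N` is an entire function, zeros allowed, with `F z ∈ X` if `F z ≠ 0` and `log |F z| ≤ C (1 + |z|²)`.
-/

set_option autoImplicit false

open Topology Filter Metric

noncomputable section

namespace Pool.Agent.TG

open Pool.Agent.H36.BP (EN fs wd)

variable {N n : ℕ}

theorem en_coord_ne {w : EN N} (hw : w ≠ 0) : ∃ j, w j ≠ 0 := by
  by_contra h
  push Not at h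
  apply hw
  ext j
  exact h j

theorem en_coord_an {f : ℂ → EN N} {z : ℂ} (hf : AnalyticAt ℂ f z) (i : Fin (N + 1)) : AnalyticAt ℂ (fun w => f w i) z :=
  ((EuclideanSpace.proj (𝕜 := ℂ) i : EN N →L[ℂ] ℂ).analyticAt _).comp hf

/-- the Fubini-Study length of the derivative of a multiple -/
theorem fs_smul_fun {f g : ℂ → EN N} {z : ℂ} (hf : AnalyticAt ℂ f z) (hg : AnalyticAt ℂ g z) (hf0 : f z ≠ 0) (hg0 : g z ≠ 0)
    (h : ∀ᶠ w in 𝓝 z, ∃ c : ℂ, f w = c • g w) : fs (f z) (deriv f z) = fs (g z) (deriv g z) := by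
  obtain ⟨l, hl⟩ := en_coord_ne hg0
  have hgl := en_coord_an hg l
  have hfl := en_coord_an hf l
  obtain ⟨k, hk⟩ : ∃ k : ℂ → ℂ, k = fun w => f w l / g w l := ⟨_, rfl⟩
  have ha : AnalyticAt ℂ k z := by
    rw [hk]
    exact hfl.div hgl hl
  have he : ∀ᶠ w in 𝓝 z, f w = k w • g w := by
    filter_upwards [h, hgl.continuousAt.eventually_ne hl] with w h1 h2
    obtain ⟨c, h3⟩ := h1
    have h4 : f w l = c * g w l := by rw [h3]; rfl
    have h2' : g w l ≠ 0 := h2
    rw [hk]
    simp only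
    rw [h4, mul_div_assoc, div_self h2', mul_one]
    exact h3
  have hz : f z = k z • g z := he.self_of_nhds
  have h0 : k z ≠ 0 := by
    intro h1
    apply hf0
    rw [hz, h1, zero_smul]
  have hd : deriv f z = k z • deriv g z + deriv k z • g z := by
    have h1 : f =ᶠ[𝓝 z] fun w => k w • g w := he
    rw [h1.deriv_eq]
    exact (ha.differentiableAt.hasDerivAt.smul hg.differentiableAt.hasDerivAt).deriv
  rw [hd, hz]
  exact Pool.Agent.H36.BP.fs_inv hg0 _ h0 _

end Pool.Agent.TG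

end
end

section

/-!
# TG SaDefs: rational maps from semi-abelian varieties to projective varieties over complex tori, the definitions
-/

set_option autoImplicit false

open MvPolynomial
open Pool.Agent.H17 (PN VanishesAt)
open Pool.Agent.H22.TB (closureIn)

noncomputable section

namespace Pool.Agent.TG

variable {N : ℕ}

/-- The maps `F` and `F'` to `ℂ^(N+1)` represent the same map to `ℙ^N`. -/
def SameProjMap {g : ℕ} (F F' : (Fin g → ℂ) → Fin (N + 1) → ℂ) : Prop := ∀ z i j, F z i * F' z j = F z j * F' z i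

/-- The set of the points `[F z]`, `F z ≠ 0`. -/
def imageOf {g : ℕ} (F : (Fin g → ℂ) → Fin (N + 1) → ℂ) : Set (PN N) := {x | ∃ z, ∃ h : F z ≠ 0, x = Projectivization.mk ℂ (F z) h}

/-- A meromorphic map from `ℂ^g` to `ℙ^N` of the type of the rational maps from semi-abelian varieties: it is given by entire functions `F = (F 0, …, F N)`, not all
zero, with `|F z| ≤ exp (C (1 + |z|²))`; `T` is a complex subspace with `|F (z + t)| ≤ exp (C (1 + |t|))` for `t` in `T`, `C` depending on `z`; `L` is a group of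
periods, and `T` and `L` span `ℂ^g` over `ℝ`.  (For a rational map from the semi-abelian variety `A = ℂ^g / L` the subspace `T` is the Lie algebra of the torus part of `A`.) -/
structure SabMap (N : ℕ) where
  /-- the dimension -/
  g : ℕ
  /-- the entire functions -/
  F : (Fin g → ℂ) → Fin (N + 1) → ℂ
  differentiable : Differentiable ℂ F
  ne_zero : ∃ z, F z ≠ 0
  growth : ∃ C : ℝ, ∀ z, ‖F z‖ ≤ Real.exp (C * (1 + ‖z‖ ^ 2))
  /-- the directions of the torus part -/
  T : Submodule ℂ (Fin g → ℂ)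
  torus : ∀ z, ∃ C : ℝ, ∀ t ∈ T, ‖F (z + t)‖ ≤ Real.exp (C * (1 + ‖t‖))
  /-- the periods -/
  L : AddSubgroup (Fin g → ℂ)
  periodic : ∀ l ∈ L, SameProjMap (fun z => F (z + l)) F
  span : T.restrictScalars ℝ ⊔ Submodule.span ℝ (L : Set (Fin g → ℂ)) = ⊤

/-- The union of the images of the non-constant maps into `X`. -/
def sabUnion (X : Set (PN N)) : Set (PN N) :=
  {x | ∃ S : SabMap N, imageOf S.F ⊆ X ∧ (∃ y ∈ imageOf S.F, ∃ z ∈ imageOf S.F, y ≠ z) ∧ x ∈ imageOf S.F}

/-- The special set of `X`: the Zariski closure in `X` of the union of the images of the non-constant maps into `X`. -/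
def sabSpecialSet (X : Set (PN N)) : Set (PN N) := closureIn X (sabUnion X)

/-- `W` is the tangent space of a complex subtorus of `ℂ^n / Λ`: the real span of `Λ ∩ W` is `W`. -/
def IsSubtorus {n : ℕ} (Λ : AddSubgroup (Fin n → ℂ)) (W : Submodule ℂ (Fin n → ℂ)) : Prop :=
  W.restrictScalars ℝ ≤ Submodule.span ℝ {l : Fin n → ℂ | l ∈ Λ ∧ l ∈ W}

/-- The torus `ℂ^n / Λ` is simple: it has no subtori other than `0` and itself. -/
def SimpleTorus {n : ℕ} (Λ : AddSubgroup (Fin n → ℂ)) : Prop := ∀ W : Submodule ℂ (Fin n → ℂ), IsSubtorus Λ W → W = ⊥ ∨ W = ⊤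

/-- The meromorphic maps from `ℂ^n` to the variety `X` over the torus `ℂ^n / Λ`: the entire functions `F : ℂ^n → ℂ^(N+1)`, not identically `0`, with `[F y] ∈ X` and
`u [F y] = y` modulo `Λ` if `F y ≠ 0`. -/
def merSections {n : ℕ} (X : Set (PN N)) (Λ : AddSubgroup (Fin n → ℂ)) (u : PN N → (Fin n → ℂ) ⧸ Λ) : Set ((Fin n → ℂ) → Fin (N + 1) → ℂ) :=
  {F | Differentiable ℂ F ∧ (∃ y, F y ≠ 0) ∧
    ∀ y, ∀ h : F y ≠ 0, Projectivization.mk ℂ (F y) h ∈ X ∧ u (Projectivization.mk ℂ (F y) h) = (y : (Fin n → ℂ) ⧸ Λ)}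

/-- The four types of maps `S` into the variety `X` over the torus `ℂ^n / Λ`; `D` is the set of the bad values of `u`: `S` lies in a fibre over a point of `D`; or `S` is constant;
or `u ∘ S` is an affine map onto a translate of a subtorus which is not `0` and not the whole torus; or `u ∘ S` is an affine map onto the torus and `S` is the
composition of this map and a meromorphic map over the torus. -/
def SabCases {n : ℕ} (X : Set (PN N)) (Λ : AddSubgroup (Fin n → ℂ)) (u : PN N → (Fin n → ℂ) ⧸ Λ) (D : Set (Fin n → ℂ)) (S : SabMap N) : Prop :=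
  (∃ b ∈ D, ∀ x ∈ imageOf S.F, u x = (b : (Fin n → ℂ) ⧸ Λ)) ∨
  (∀ x ∈ imageOf S.F, ∀ y ∈ imageOf S.F, x = y) ∨
  ∃ (B : (Fin S.g → ℂ) →ₗ[ℂ] (Fin n → ℂ)) (c : Fin n → ℂ),
    (∀ z, ∀ h : S.F z ≠ 0, u (Projectivization.mk ℂ (S.F z) h) = ((B z + c : Fin n → ℂ) : (Fin n → ℂ) ⧸ Λ)) ∧
    (IsSubtorus Λ (LinearMap.range B) ∧ LinearMap.range B ≠ ⊥ ∧ LinearMap.range B ≠ ⊤ ∨
      Function.Surjective B ∧ ∃ Φ ∈ merSections X Λ u, SameProjMap S.F fun z => Φ (B z + c))

end Pool.Agent.TG

end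
end

section

/-!
# TG FDefs: projective manifolds over complex tori, with arbitrary singular fibres, and maps from semi-abelian varieties

`X` is a smooth projective variety of dimension `n + 1`, `n = k + 1`, `u` a holomorphic map from `X` to a complex torus `ℂ^n / Λ`.  `D ⊆ ℂ^n` is a `Λ`-invariant analytic
subset outside which `u` is a submersion, and whose fibres outside `D` contain no entire curves with bounded derivative; outside the small set `B` the set `D` is smooth and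
the map `u` is `(x^a y^b, s)` in suitable local coordinates.
-/

set_option autoImplicit false

open Topology Filter MvPolynomial
open Pool.Agent.H17 (PN VanishesAt)
open Pool.Agent.H62.FC (Homog)
open Pool.Agent.H17LG.Variety (FunField)
open Pool.Agent.H17EF (projVar)
open Pool.Agent.TG (SabMap imageOf SabCases SimpleTorus merSections SameProjMap sabSpecialSet)

noncomputable section

namespace Pool.Agent.TGF

variable {N k g : ℕ}

/-- `Cn n` is `ℂ^n`. -/
abbrev Cn (n : ℕ) : Type := Fin n → ℂ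

/-- The point with the homogeneous coordinates `x` is a point of `X` over `y`. -/
def Over (X : Set (PN N)) (Λ : AddSubgroup (Cn (k + 1))) (u : PN N → Cn (k + 1) ⧸ Λ) (y : Cn (k + 1)) (x : Cn (N + 1)) : Prop :=
  ∃ h : x ≠ 0, Projectivization.mk ℂ x h ∈ X ∧ u (Projectivization.mk ℂ x h) = (y : Cn (k + 1) ⧸ Λ)

/-- `σ` is a local parametrisation of the manifold `X` (of dimension `k + 2`) at the point `x`, given by homogeneous coordinates. -/
structure IsParam (X : Set (PN N)) (x : PN N) (σ : Cn (k + 2) → Cn (N + 1)) : Prop where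
  holomorphic : AnalyticAt ℂ σ 0
  point : ∃ h : σ 0 ≠ 0, Projectivization.mk ℂ (σ 0) h = x
  mem : ∀ᶠ p in 𝓝 (0 : Cn (k + 2)), ∃ h : σ p ≠ 0, Projectivization.mk ℂ (σ p) h ∈ X
  immersion : ∀ (v : Cn (k + 2)) (a : ℂ), fderiv ℂ σ 0 v = a • σ 0 → v = 0

/-- In suitable local coordinates of `X` at `x` the map `u` is `p ↦ y + (p 1, …, p (k + 1))`. -/
def Submersion (X : Set (PN N)) (Λ : AddSubgroup (Cn (k + 1))) (u : PN N → Cn (k + 1) ⧸ Λ) (y : Cn (k + 1)) (x : PN N) : Prop :=
  ∃ σ : Cn (k + 2) → Cn (N + 1), IsParam X x σ ∧ ∀ᶠ p in 𝓝 (0 : Cn (k + 2)), Over X Λ u (y + fun i => p i.succ) (σ p)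

/-- In suitable local coordinates of `X` at `x` the map `u` is `p ↦ κ (p 0 ^ a * p 1 ^ b, p 2, …, p (k + 1))`. -/
def NormalCrossing (X : Set (PN N)) (Λ : AddSubgroup (Cn (k + 1))) (u : PN N → Cn (k + 1) ⧸ Λ) (κ : Cn (k + 1) → Cn (k + 1)) (x : PN N) : Prop :=
  ∃ (σ : Cn (k + 2) → Cn (N + 1)) (a b : ℕ), IsParam X x σ ∧ 0 < a + b ∧
    ∀ᶠ p in 𝓝 (0 : Cn (k + 2)), Over X Λ u (κ (Fin.cons (p 0 ^ a * p 1 ^ b) fun i : Fin k => p i.succ.succ)) (σ p)

/-- `κ` is (the inverse of) a system of local coordinates of `ℂ^(k+1)` at `y` in which `D` is the hyperplane `q 0 = 0`. -/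
structure IsCoord (D : Set (Cn (k + 1))) (κ : Cn (k + 1) → Cn (k + 1)) (y : Cn (k + 1)) : Prop where
  holomorphic : AnalyticAt ℂ κ 0
  point : κ 0 = y
  immersion : ∀ v, fderiv ℂ κ 0 v = 0 → v = 0
  mem_iff : ∀ᶠ q in 𝓝 (0 : Cn (k + 1)), (κ q ∈ D ↔ q 0 = 0)

/-- `Z` is a (closed) analytic subset of `ℂ^n`: near every point of `ℂ^n` it is the common zero set of finitely many holomorphic functions. -/
def IsAnalyticSubset {n : ℕ} (Z : Set (Cn n)) : Prop :=
  ∀ y : Cn n, ∃ (m : ℕ) (h : Cn n → Cn m), AnalyticAt ℂ h y ∧ ∀ᶠ z in 𝓝 y, (z ∈ Z ↔ h z = 0)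

/-- The conclusion, for the variety `X` of dimension `k + 2` given by `P`: the meromorphic maps from `ℂ^(k+1)` to `X` over the torus are finitely many, periodic, and
algebraic, and the maps from semi-abelian varieties to `X` come from these maps, from fibres over `D`, or from proper subtori. -/
structure TorusFibration (P : Ideal (MvPolynomial (Fin (N + 1)) ℂ)) [P.IsPrime] (Λ : AddSubgroup (Cn (k + 1))) (u : PN N → Cn (k + 1) ⧸ Λ)
    (D : Set (Cn (k + 1))) (Q : MvPolynomial (Fin (N + 1)) ℂ) : Prop where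
  /-- there are finitely many meromorphic maps `ℂ^(k+1) → X` over the torus -/
  finite : ∃ s : Set (Cn (k + 1) → Cn (N + 1)), s.Finite ∧ s ⊆ merSections (projVar P) Λ u ∧
    ∀ Φ ∈ merSections (projVar P) Λ u, ∃ Ψ ∈ s, SameProjMap Φ Ψ
  /-- they are invariant under `M Λ` -/
  periodic : ∃ M : ℕ, 1 ≤ M ∧ ∀ Φ ∈ merSections (projVar P) Λ u, ∀ l ∈ Λ, SameProjMap Φ fun y => Φ (y + M • l)
  /-- the form `Q` is not `0` on `X` -/
  form : (∃ e, Q.IsHomogeneous e) ∧ Q ∉ P
  /-- it is `0` on the fibres over `D` -/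
  singular : ∀ x ∈ projVar P, (∃ y ∈ D, u x = (y : Cn (k + 1) ⧸ Λ)) → VanishesAt Q x
  /-- it is `0` on the images of the meromorphic maps over the torus -/
  sections : ∀ Φ ∈ merSections (projVar P) Λ u, ∀ y, eval (Φ y) Q = 0
  /-- the maps from semi-abelian varieties -/
  maps : ∀ S : SabMap N, imageOf S.F ⊆ projVar P → SabCases (projVar P) Λ u D S
  /-- if the torus is simple, the special set is contained in the hypersurface `Q = 0` -/
  special : SimpleTorus Λ → ∀ x ∈ sabSpecialSet (projVar P), VanishesAt Q x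
  /-- if the torus is simple, the special set of every variety `Y` of the same dimension with a dominant rational map to `X` is a proper subset of `Y`, and so is the
  special set of every closed subvariety of `Y` which is not contained in a certain proper closed subset `{T = 0}` of `Y` -/
  models : SimpleTorus Λ → ∀ (M : ℕ) (P' : Ideal (MvPolynomial (Fin (M + 1)) ℂ)) [P'.IsPrime], Homog P' →
    (∃ z : Fin (k + 2) → FunField P', IsTranscendenceBasis ℂ z) → Nonempty (FunField P →ₐ[ℂ] FunField P') →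
    sabSpecialSet (projVar P') ≠ projVar P' ∧ ∃ T : MvPolynomial (Fin (M + 1)) ℂ, (∃ e, T.IsHomogeneous e) ∧ T ∉ P' ∧
      ∀ (R : Ideal (MvPolynomial (Fin (M + 1)) ℂ)) [R.IsPrime], Homog R → P' ≤ R → T ∉ R → sabSpecialSet (projVar R) ≠ projVar R

end Pool.Agent.TGF

end
end

section

/-!
# PX FrA: the resultant of the two partial derivatives of the form

`dl θ y = 0` iff the form `Fo θ y` has a multiple root (or is `0`), and `dl θ` is entire.
-/

set_option autoImplicit false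

open Topology Filter Metric Polynomial

namespace Pool.Agent.PX

open Pool.Agent.H36.BP (EN fs wd)
open Pool.Agent.AD (Vd)

variable {k d : ℕ}

/-- the derivative in the first variable, at `(t, 1)` -/
noncomputable def dp (θ : Fin (d + 1) → Vd (k + 1) → ℂ) (y : Vd (k + 1)) : ℂ[X] := ∑ i : Fin (d + 1), C (((i : ℕ) : ℂ) * θ i y) * X ^ ((i : ℕ) - 1)

/-- the derivative in the second variable, at `(t, 1)` -/
noncomputable def dq (θ : Fin (d + 1) → Vd (k + 1) → ℂ) (y : Vd (k + 1)) : ℂ[X] := ∑ i : Fin (d + 1), C (((d - (i : ℕ) : ℕ) : ℂ) * θ i y) * X ^ (i : ℕ)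

/-- the resultant of the two partial derivatives -/
noncomputable def dl (θ : Fin (d + 1) → Vd (k + 1) → ℂ) (y : Vd (k + 1)) : ℂ := resultant (dp θ y) (dq θ y) (d - 1) (d - 1)

private theorem dp_coeff (θ : Fin (d + 1) → Vd (k + 1) → ℂ) (y : Vd (k + 1)) (n : ℕ) :
    (dp θ y).coeff n = ∑ i : Fin (d + 1), if n = (i : ℕ) - 1 then ((i : ℕ) : ℂ) * θ i y else 0 := by
  unfold dp
  rw [finset_sum_coeff]
  refine Finset.sum_congr rfl fun i _ => ?_
  rw [coeff_C_mul_X_pow]

private theorem dq_coeff (θ : Fin (d + 1) → Vd (k + 1) → ℂ) (y : Vd (k + 1)) (n : ℕ) :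
    (dq θ y).coeff n = ∑ i : Fin (d + 1), if n = (i : ℕ) then ((d - (i : ℕ) : ℕ) : ℂ) * θ i y else 0 := by
  unfold dq
  rw [finset_sum_coeff]
  refine Finset.sum_congr rfl fun i _ => ?_
  rw [coeff_C_mul_X_pow]

private theorem dp_deg (θ : Fin (d + 1) → Vd (k + 1) → ℂ) (y : Vd (k + 1)) : (dp θ y).natDegree ≤ d - 1 := by
  unfold dp
  refine natDegree_sum_le_of_forall_le _ _ fun i _ => ?_
  refine (natDegree_C_mul_X_pow_le _ _).trans ?_
  have := i.2
  omega

private theorem dq_deg (θ : Fin (d + 1) → Vd (k + 1) → ℂ) (y : Vd (k + 1)) : (dq θ y).natDegree ≤ d - 1 := by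
  unfold dq
  refine natDegree_sum_le_of_forall_le _ _ fun i _ => ?_
  by_cases h : (i : ℕ) = d
  · rw [h, Nat.sub_self, Nat.cast_zero, zero_mul, C_0, zero_mul, natDegree_zero]
    exact Nat.zero_le _
  · refine (natDegree_C_mul_X_pow_le _ _).trans ?_
    have := i.2
    omega

/-- the resultant is `0` iff there is a common root, perhaps at infinity -/
private theorem res_iff {p q : ℂ[X]} {m : ℕ} (hm : 1 ≤ m) (hp : p.natDegree ≤ m) (hq : q.natDegree ≤ m) :
    resultant p q m m = 0 ↔ (p.coeff m = 0 ∧ q.coeff m = 0) ∨ ∃ t, p.eval t = 0 ∧ q.eval t = 0 := by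
  have hlt : ∀ {r : ℂ[X]}, r.natDegree ≤ m → r.coeff m = 0 → r.natDegree < m := by
    intro r hr h0
    refine lt_of_le_of_ne hr fun h => ?_
    have h1 : r.leadingCoeff = 0 := by
      rw [leadingCoeff, h]
      exact h0
    rw [leadingCoeff_eq_zero] at h1
    rw [h1, natDegree_zero] at h
    omega
  have hcop : ∀ {p q : ℂ[X]}, p ≠ 0 ∨ q ≠ 0 → (resultant p q = 0 ↔ ∃ t, p.eval t = 0 ∧ q.eval t = 0) := by
    intro p q hne
    rw [resultant_eq_zero_iff, isCoprime_iff_aeval_ne_zero_of_isAlgClosed ℂ ℂ]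
    constructor
    · rintro ⟨-, h⟩
      push Not at h
      obtain ⟨t, h1, h2⟩ := h
      exact ⟨t, by simpa using h1, by simpa using h2⟩
    · rintro ⟨t, h1, h2⟩
      refine ⟨hne, fun h => ?_⟩
      rcases h t with h3 | h3
      · exact h3 (by simpa using h1)
      · exact h3 (by simpa using h2)
  by_cases h1 : p.coeff m = 0
  · by_cases h2 : q.coeff m = 0
    · rw [resultant_eq_zero_of_lt_lt _ _ _ _ (hlt hp h1) (hlt hq h2)]
      simp [h1, h2]
    · have hqm : q.natDegree = m := le_antisymm hq (le_natDegree_of_ne_zero h2)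
      obtain ⟨c, hc⟩ := Nat.exists_eq_add_of_le hp
      have e1 : resultant p q m m = (-1) ^ (m * c) * q.coeff m ^ c * resultant p q p.natDegree m := by
        conv_lhs => rw [hc]
        rw [resultant_add_left_deg _ _ _ _ _ le_rfl, ← hc]
      have e2 : resultant p q p.natDegree m = resultant p q := by rw [hqm]
      have hq0 : q ≠ 0 := by
        rintro rfl
        exact h2 (coeff_zero _)
      rw [e1, e2, mul_eq_zero, or_iff_right (mul_ne_zero (pow_ne_zero _ (by norm_num)) (pow_ne_zero _ h2)), hcop (Or.inr hq0)]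
      simp [h2]
  · have hpm : p.natDegree = m := le_antisymm hp (le_natDegree_of_ne_zero h1)
    obtain ⟨c, hc⟩ := Nat.exists_eq_add_of_le hq
    have e1 : resultant p q m m = p.coeff m ^ c * resultant p q m q.natDegree := by
      conv_lhs => rw [hc]
      rw [← hc, hc, resultant_add_right_deg _ _ _ _ _ le_rfl]
    have e2 : resultant p q m q.natDegree = resultant p q := by rw [hpm]
    have hp0 : p ≠ 0 := by
      rintro rfl
      exact h1 (coeff_zero _)
    rw [e1, e2, mul_eq_zero, or_iff_right (pow_ne_zero _ h1), hcop (Or.inl hp0)]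
    simp [h1]

private theorem dp_ev (θ : Fin (d + 1) → Vd (k + 1) → ℂ) (y : Vd (k + 1)) (t : ℂ) : (dp θ y).eval t = ∑ i : Fin (d + 1), (((i : ℕ) : ℂ) * θ i y) * t ^ ((i : ℕ) - 1) := by
  unfold dp
  rw [eval_finset_sum]
  refine Finset.sum_congr rfl fun i _ => ?_
  simp

private theorem dq_ev (θ : Fin (d + 1) → Vd (k + 1) → ℂ) (y : Vd (k + 1)) (t : ℂ) : (dq θ y).eval t = ∑ i : Fin (d + 1), (((d - (i : ℕ) : ℕ) : ℂ) * θ i y) * t ^ (i : ℕ) := by
  unfold dq
  rw [eval_finset_sum]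
  refine Finset.sum_congr rfl fun i _ => ?_
  simp

/-- the first partial derivative -/
private noncomputable def dA (θ : Fin (d + 1) → Vd (k + 1) → ℂ) (y : Vd (k + 1)) (a b : ℂ) : ℂ := ∑ i : Fin (d + 1), θ i y * ((i : ℕ) * a ^ ((i : ℕ) - 1) * b ^ (d - (i : ℕ)))

/-- the second partial derivative -/
private noncomputable def dB (θ : Fin (d + 1) → Vd (k + 1) → ℂ) (y : Vd (k + 1)) (a b : ℂ) : ℂ := ∑ i : Fin (d + 1), θ i y * (((d - (i : ℕ) : ℕ) : ℂ) * a ^ (i : ℕ) * b ^ (d - (i : ℕ) - 1))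

private theorem fd_ab (θ : Fin (d + 1) → Vd (k + 1) → ℂ) (y : Vd (k + 1)) (x v : EN 1) : Fd θ y x v = dA θ y (x 0) (x 1) * v 0 + dB θ y (x 0) (x 1) * v 1 := by
  rw [fd_eq]
  unfold dA dB
  rw [Finset.sum_mul, Finset.sum_mul, ← Finset.sum_add_distrib]
  refine Finset.sum_congr rfl fun i _ => ?_
  ring

private theorem dA_one (hd : 3 ≤ d) (θ : Fin (d + 1) → Vd (k + 1) → ℂ) (y : Vd (k + 1)) (t b : ℂ) : dA θ y (b * t) b = b ^ (d - 1) * (dp θ y).eval t := by
  rw [dp_ev]
  unfold dA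
  rw [Finset.mul_sum]
  refine Finset.sum_congr rfl fun i _ => ?_
  by_cases h0 : (i : ℕ) = 0
  · rw [h0]
    simp
  · have h1 : d - 1 = ((i : ℕ) - 1) + (d - (i : ℕ)) := by
      have := i.2
      omega
    rw [h1, pow_add, mul_pow]
    ring

private theorem dB_one (hd : 3 ≤ d) (θ : Fin (d + 1) → Vd (k + 1) → ℂ) (y : Vd (k + 1)) (t b : ℂ) : dB θ y (b * t) b = b ^ (d - 1) * (dq θ y).eval t := by
  rw [dq_ev]
  unfold dB
  rw [Finset.mul_sum]
  refine Finset.sum_congr rfl fun i _ => ?_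
  by_cases h0 : (i : ℕ) = d
  · rw [h0]
    simp
  · have h1 : d - 1 = (i : ℕ) + (d - (i : ℕ) - 1) := by
      have := i.2
      omega
    rw [h1, pow_add, mul_pow]
    ring

private theorem dA_zero (hd : 3 ≤ d) (θ : Fin (d + 1) → Vd (k + 1) → ℂ) (y : Vd (k + 1)) (a : ℂ) : dA θ y a 0 = a ^ (d - 1) * (dp θ y).coeff (d - 1) := by
  rw [dp_coeff]
  unfold dA
  rw [Finset.mul_sum]
  refine Finset.sum_congr rfl fun i _ => ?_
  by_cases h0 : (i : ℕ) = d
  · rw [h0]
    simp
    ring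
  · have h1 : d - (i : ℕ) ≠ 0 := by
      have := i.2
      omega
    have h2 : ¬ d - 1 = (i : ℕ) - 1 := by
      have := i.2
      omega
    rw [if_neg h2, zero_pow h1]
    ring

private theorem dB_zero (hd : 3 ≤ d) (θ : Fin (d + 1) → Vd (k + 1) → ℂ) (y : Vd (k + 1)) (a : ℂ) : dB θ y a 0 = a ^ (d - 1) * (dq θ y).coeff (d - 1) := by
  rw [dq_coeff]
  unfold dB
  rw [Finset.mul_sum]
  refine Finset.sum_congr rfl fun i _ => ?_
  by_cases h0 : (i : ℕ) = d
  · have h2 : ¬ d - 1 = (i : ℕ) := by omega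
    rw [if_neg h2, h0]
    simp
  · by_cases h2 : d - 1 = (i : ℕ)
    · rw [if_pos h2]
      have h3 : d - (i : ℕ) - 1 = 0 := by omega
      rw [h3, pow_zero, ← h2]
      ring
    · have h1 : d - (i : ℕ) - 1 ≠ 0 := by
        have := i.2
        omega
      rw [if_neg h2, zero_pow h1]
      ring

theorem dl_iff (hd : 3 ≤ d) (θ : Fin (d + 1) → Vd (k + 1) → ℂ) (y : Vd (k + 1)) : dl θ y = 0 ↔ ∃ x : EN 1, x ≠ 0 ∧ Fo θ y x = 0 ∧ ∀ v, Fd θ y x v = 0 := by
  unfold dl
  rw [res_iff (by omega) (dp_deg θ y) (dq_deg θ y)]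
  have hfo : ∀ x : EN 1, (∀ v, Fd θ y x v = 0) → Fo θ y x = 0 := by
    intro x h
    have h1 := fd_euler θ y x
    rw [h x] at h1
    have h2 : (d : ℂ) ≠ 0 := by
      have : d ≠ 0 := by omega
      exact_mod_cast this
    exact (mul_eq_zero.1 h1.symm).resolve_left h2
  constructor
  · rintro (⟨h1, h2⟩ | ⟨t, h1, h2⟩)
    · have hx : ∀ v, Fd θ y (WithLp.toLp 2 ![1, 0] : EN 1) v = 0 := by
        intro v
        rw [fd_ab]
        have e0 : (WithLp.toLp 2 ![(1 : ℂ), 0] : EN 1) 0 = 1 := rfl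
        have e1 : (WithLp.toLp 2 ![(1 : ℂ), 0] : EN 1) 1 = 0 := rfl
        rw [e0, e1, dA_zero hd, dB_zero hd, h1, h2]
        ring
      refine ⟨WithLp.toLp 2 ![1, 0], fun h => ?_, hfo _ hx, hx⟩
      have := congrArg (fun x : EN 1 => x 0) h
      simp at this
    · have hx : ∀ v, Fd θ y (WithLp.toLp 2 ![t, 1] : EN 1) v = 0 := by
        intro v
        rw [fd_ab]
        have e0 : (WithLp.toLp 2 ![t, (1 : ℂ)] : EN 1) 0 = 1 * t := (one_mul t).symm
        have e1 : (WithLp.toLp 2 ![t, (1 : ℂ)] : EN 1) 1 = 1 := rfl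
        rw [e0, e1, dA_one hd, dB_one hd, h1, h2]
        ring
      refine ⟨WithLp.toLp 2 ![t, 1], fun h => ?_, hfo _ hx, hx⟩
      have := congrArg (fun x : EN 1 => x 1) h
      simp at this
  · rintro ⟨x, hx, -, h⟩
    have hA : dA θ y (x 0) (x 1) = 0 := by
      have h1 := h (WithLp.toLp 2 ![1, 0])
      rw [fd_ab] at h1
      simpa using h1
    have hB : dB θ y (x 0) (x 1) = 0 := by
      have h1 := h (WithLp.toLp 2 ![0, 1])
      rw [fd_ab] at h1
      simpa using h1
    by_cases h1 : x 1 = 0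
    · have h0 : x 0 ≠ 0 := by
        intro h0
        apply hx
        ext i
        fin_cases i
        · exact h0
        · exact h1
      rw [h1, dA_zero hd] at hA
      rw [h1, dB_zero hd] at hB
      exact Or.inl ⟨(mul_eq_zero.1 hA).resolve_left (pow_ne_zero _ h0), (mul_eq_zero.1 hB).resolve_left (pow_ne_zero _ h0)⟩
    · have h0 : x 0 = x 1 * (x 0 / x 1) := by field_simp
      rw [h0, dA_one hd] at hA
      rw [h0, dB_one hd] at hB
      exact Or.inr ⟨x 0 / x 1, (mul_eq_zero.1 hA).resolve_left (pow_ne_zero _ h1), (mul_eq_zero.1 hB).resolve_left (pow_ne_zero _ h1)⟩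

/-- entire functions are analytic -/
theorem an_vd {m : ℕ} {f : Vd m → ℂ} (hf : Differentiable ℂ f) (y : Vd m) : AnalyticAt ℂ f y := by
  have h2 : ∀ᶠ z in 𝓝 y, ‖f z‖ < ‖f y‖ + 1 := (hf.continuous.norm.continuousAt).eventually_lt_const (by linarith)
  obtain ⟨r, hr, hb⟩ := Metric.eventually_nhds_iff_ball.1 h2
  refine Pool.Agent.TN.osgood_pi hr (M := ‖f y‖ + 1) (fun z hz => (hb z hz).le) fun z _ l => ?_
  have h3 : Differentiable ℂ fun t : ℂ => z + t • (Pi.single l 1 : Vd m) := by fun_prop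
  exact (hf.comp h3) 0

theorem dl_an {θ : Fin (d + 1) → Vd (k + 1) → ℂ} (han : ∀ i, Differentiable ℂ (θ i)) (y : Vd (k + 1)) : AnalyticAt ℂ (dl θ) y := by
  have hθ : ∀ i, AnalyticAt ℂ (θ i) y := fun i => an_vd (han i) y
  have hp : ∀ n, AnalyticAt ℂ (fun y => (dp θ y).coeff n) y := by
    intro n
    simp only [dp_coeff]
    refine Finset.analyticAt_fun_sum _ fun i _ => ?_
    split_ifs
    · exact analyticAt_const.mul (hθ i)
    · exact analyticAt_const
  have hq : ∀ n, AnalyticAt ℂ (fun y => (dq θ y).coeff n) y := by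
    intro n
    simp only [dq_coeff]
    refine Finset.analyticAt_fun_sum _ fun i _ => ?_
    split_ifs
    · exact analyticAt_const.mul (hθ i)
    · exact analyticAt_const
  have hM : ∀ i j : Fin (d - 1 + (d - 1)), AnalyticAt ℂ (fun y => sylvester (dp θ y) (dq θ y) (d - 1) (d - 1) i j) y := by
    intro i j
    refine Fin.addCases (fun j => ?_) (fun j => ?_) j
    · simp only [sylvester, Matrix.of_apply, Fin.addCases_left]
      split_ifs
      · exact hq _
      · exact analyticAt_const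
    · simp only [sylvester, Matrix.of_apply, Fin.addCases_right]
      split_ifs
      · exact hp _
      · exact analyticAt_const
  have e : dl θ = fun y => (sylvester (dp θ y) (dq θ y) (d - 1) (d - 1)).det := rfl
  rw [e]
  simp only [Matrix.det_apply']
  refine Finset.analyticAt_fun_sum _ fun σ _ => ?_
  exact analyticAt_const.mul (Finset.analyticAt_fun_prod _ fun i _ => hM _ _)

end Pool.Agent.PX

end
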