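import Pool.Agent.H94.PX2.M02
import Pool.Agent.H94.PX2.M10

/-! The parts of this file: H56.PR.Near, H56.PR.Sim, G4.H.Defs, G4.H.Bas. -/

section

/-!
Roots near an almost root of a monic polynomial, and uniqueness.
-/

namespace Pool.Agent.H56.PR

open Topology Filter Set Polynomial Metric

noncomputable section

theorem near_root {p : ℂ[X]} (hm : p.Monic) {g : ℂ} {δ : ℝ} (hδ : 0 < δ)
    (h : ‖p.eval g‖ < δ ^ p.natDegree) : ∃ w, p.eval w = 0 ∧ ‖w - g‖ < δ := by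
  by_contra hcon
  push Not at hcon
  have hs : p.Splits := IsAlgClosed.splits p
  have h1 := hs.eval_eq_prod_roots_of_monic hm g
  have h2 : p.roots.card = p.natDegree := hs.natDegree_eq_card_roots.symm
  have h3 : ∀ m : Multiset ℂ, (∀ w ∈ m, δ ≤ ‖g - w‖) →
      δ ^ m.card ≤ ‖(m.map fun w => g - w).prod‖ := by
    intro m
    induction m using Multiset.induction_on with
    | empty => simp
    | cons a m ih =>
      intro hm'
      rw [Multiset.card_cons, Multiset.map_cons, Multiset.prod_cons, norm_mul, pow_succ, mul_comm]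
      exact mul_le_mul (hm' a (Multiset.mem_cons_self a m))
        (ih fun w hw => hm' w (Multiset.mem_cons_of_mem hw)) (by positivity) (norm_nonneg _)
  have h4 := h3 p.roots fun w hw => by
    rw [norm_sub_rev]
    exact hcon w (isRoot_of_mem_roots hw)
  rw [h2, ← h1] at h4
  exact absurd h (not_lt.2 h4)

theorem mean_value {p : ℂ[X]} {g κ : ℂ} {δ η : ℝ}
    (h : ∀ w ∈ closedBall g δ, ‖p.derivative.eval w - κ‖ ≤ η) {w₁ w₂ : ℂ}
    (h1 : w₁ ∈ closedBall g δ) (h2 : w₂ ∈ closedBall g δ) :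
    ‖p.eval w₂ - p.eval w₁ - κ * (w₂ - w₁)‖ ≤ η * ‖w₂ - w₁‖ := by
  have h3 := (convex_closedBall g δ).norm_image_sub_le_of_norm_hasDerivWithin_le
    (f := fun w => p.eval w - κ * w) (f' := fun w => p.derivative.eval w - κ) (C := η)
    (fun w _ => by
      have := ((p.hasDerivAt w).sub ((hasDerivAt_id w).const_mul κ)).hasDerivWithinAt
        (s := closedBall g δ)
      rw [mul_one] at this
      exact this) h h1 h2
  have h4 : p.eval w₂ - p.eval w₁ - κ * (w₂ - w₁)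
      = (p.eval w₂ - κ * w₂) - (p.eval w₁ - κ * w₁) := by ring
  rw [h4]
  exact h3

theorem near_unique {p : ℂ[X]} {g κ : ℂ} {δ η : ℝ} (hη : η < ‖κ‖)
    (h : ∀ w ∈ closedBall g δ, ‖p.derivative.eval w - κ‖ ≤ η) {w₁ w₂ : ℂ}
    (h1 : w₁ ∈ closedBall g δ) (h2 : w₂ ∈ closedBall g δ) (he : p.eval w₁ = p.eval w₂) :
    w₁ = w₂ := by
  have h3 := mean_value h h1 h2
  rw [he, sub_self, zero_sub, norm_neg, norm_mul] at h3
  by_contra hne
  have h4 : 0 < ‖w₂ - w₁‖ := norm_pos_iff.2 (sub_ne_zero.2 (Ne.symm hne))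
  exact absurd (le_of_mul_le_mul_right h3 h4) (not_le.2 hη)

/-- nearby roots over a compact set, continuous -/
theorem exists_near {K : Set ℂ} {P : ℂ → ℂ[X]} {d : ℕ} {g κ : ℂ → ℂ} {δ η : ℝ}
    (hm : ∀ z ∈ K, (P z).Monic) (hdeg : ∀ z ∈ K, (P z).natDegree = d)
    (hcont : ContinuousOn (fun q : ℂ × ℂ => (P q.1).eval q.2) (K ×ˢ univ))
    (hg : ContinuousOn g K) (hη : ∀ z ∈ K, η < ‖κ z‖)
    (h : ∀ z ∈ K, ∀ w ∈ closedBall (g z) δ, ‖(P z).derivative.eval w - κ z‖ ≤ η)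
    {ε : ℝ} (hε : 0 < ε) (hεδ : ε ≤ δ) (hs : ∀ z ∈ K, ‖(P z).eval (g z)‖ < ε ^ d) :
    ∃ e : ℂ → ℂ, ContinuousOn e K ∧ (∀ z ∈ K, (P z).eval (e z) = 0) ∧
      ∀ z ∈ K, ‖e z - g z‖ < ε := by
  classical
  have h1 : ∀ z ∈ K, ∃ w, (P z).eval w = 0 ∧ ‖w - g z‖ < ε := fun z hz =>
    near_root (hm z hz) hε (by rw [hdeg z hz]; exact hs z hz)
  choose! e he1 he2 using h1
  refine ⟨e, ?_, he1, he2⟩
  intro z₀ hz₀
  -- cluster points of `e` at `z₀`
  rw [ContinuousWithinAt, tendsto_iff_ultrafilter]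
  intro F hF
  have hFK : K ∈ F := hF self_mem_nhdsWithin
  have hF0 : (F : Filter ℂ) ≤ 𝓝 z₀ := hF.trans nhdsWithin_le_nhds
  have hgF : Tendsto g F (𝓝 (g z₀)) := (hg z₀ hz₀).mono_left hF
  have hb : ∀ᶠ z in F, e z ∈ closedBall (g z₀) (2 * ε + 1) := by
    filter_upwards [hFK, hgF.eventually (ball_mem_nhds (g z₀) one_pos)] with z h2 h3
    rw [mem_closedBall_iff_norm]
    have h4 : ‖e z - g z₀‖ ≤ ‖e z - g z‖ + ‖g z - g z₀‖ := norm_sub_le_norm_sub_add_norm_sub _ _ _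
    have h5 := he2 z h2
    rw [dist_eq_norm] at h3
    linarith
  obtain ⟨w, hw1, hw2⟩ := (isCompact_closedBall (g z₀) (2 * ε + 1)).ultrafilter_le_nhds
    (F.map e) (le_principal_iff.2 hb)
  have hw2' : Tendsto e F (𝓝 w) := hw2
  have hcw : (P z₀).eval w = 0 := by
    have h6 : ContinuousWithinAt (fun q : ℂ × ℂ => (P q.1).eval q.2) (K ×ˢ univ) (z₀, w) :=
      hcont _ ⟨hz₀, mem_univ _⟩
    have h7 : Tendsto (fun z => (z, e z)) F (𝓝[K ×ˢ univ] (z₀, w)) := by
      rw [nhdsWithin, tendsto_inf]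
      refine ⟨(show Tendsto id F (𝓝 z₀) from hF0).prodMk_nhds hw2', ?_⟩
      rw [tendsto_principal]
      filter_upwards [hFK] with z hz
      exact ⟨hz, mem_univ _⟩
    have h8 := h6.tendsto.comp h7
    have h9 : Tendsto (fun z => (P z).eval (e z)) F (𝓝 0) := by
      refine tendsto_const_nhds.congr' ?_
      filter_upwards [hFK] with z hz
      exact (he1 z hz).symm
    exact tendsto_nhds_unique h8 h9
  have hwg : ‖w - g z₀‖ ≤ ε := by
    refine le_of_tendsto ((hw2'.sub hgF).norm) ?_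
    filter_upwards [hFK] with z hz
    exact (he2 z hz).le
  have : w = e z₀ := near_unique (hη z₀ hz₀) (h z₀ hz₀)
    (mem_closedBall_iff_norm.2 (hwg.trans hεδ))
    (mem_closedBall_iff_norm.2 ((he2 z₀ hz₀).le.trans hεδ)) (by rw [hcw, he1 z₀ hz₀])
  rw [← this]
  exact hw2'

end

end Pool.Agent.H56.PR

end

section

/-!
A limit of zero free sections is a simple root at a good hit (one variable form).
-/

namespace Pool.Agent.H56.PR

open Topology Filter Set Polynomial Metric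

noncomputable section

/-- homogenisation of degree `d` -/
def hom (d : ℕ) (p : ℂ[X]) (a b : ℂ) : ℂ := ∑ i ∈ Finset.range (d + 1), p.coeff i * a ^ i * b ^ (d - i)

theorem hom_eq {d : ℕ} {p : ℂ[X]} (hp : p.natDegree = d) {a b : ℂ} (hb : b ≠ 0) :
    hom d p a b = b ^ d * p.eval (a / b) := by
  rw [eval_eq_sum_range, hp, hom, Finset.mul_sum]
  refine Finset.sum_congr rfl fun i hi => ?_
  have hi' : i ≤ d := Nat.lt_succ_iff.1 (Finset.mem_range.1 hi)
  have : b ^ d = b ^ i * b ^ (d - i) := by rw [← pow_add, Nat.add_sub_cancel' hi']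
  rw [div_pow, this]
  field_simp

theorem hom_zero {d : ℕ} {p : ℂ[X]} (hm : p.Monic) (hp : p.natDegree = d) (a : ℂ) :
    hom d p a 0 = a ^ d := by
  rw [hom, Finset.sum_range_succ, Finset.sum_eq_zero, zero_add]
  · have : p.coeff d = 1 := by rw [← hp]; exact hm
    simp [this]
  · intro i hi
    have : d - i ≠ 0 := by have := Finset.mem_range.1 hi; omega
    simp [this]

variable {P : ℂ → ℂ[X]} {d : ℕ} {ρ : ℝ}

theorem LFam.cont_eval (h : LFam P d ρ) :
    ContinuousOn (fun q : ℂ × ℂ => (P q.1).eval q.2) (ball 0 ρ ×ˢ univ) := by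
  have h1 : ContinuousOn (fun q : ℂ × ℂ => ∑ i ∈ Finset.range (d + 1), (P q.1).coeff i * q.2 ^ i)
      (ball 0 ρ ×ˢ univ) := by
    refine continuousOn_finsetSum _ fun i _ => ?_
    exact ((h.diff i).continuousOn.comp continuousOn_fst fun q hq => hq.1).mul
      (continuousOn_snd.pow i)
  refine h1.congr fun q hq => ?_
  exact h.eval_eq hq.1 q.2

theorem LFam.cont_deriv (h : LFam P d ρ) :
    ContinuousOn (fun q : ℂ × ℂ => (P q.1).derivative.eval q.2) (ball 0 ρ ×ˢ univ) := by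
  have h1 : ContinuousOn (fun q : ℂ × ℂ => ∑ i ∈ Finset.range d,
      (P q.1).coeff (i + 1) * (i + 1) * q.2 ^ i) (ball 0 ρ ×ˢ univ) := by
    refine continuousOn_finsetSum _ fun i _ => ?_
    exact (((h.diff (i + 1)).continuousOn.comp continuousOn_fst fun q hq => hq.1).mul
      continuousOn_const).mul (continuousOn_snd.pow i)
  refine h1.congr fun q hq => ?_
  exact h.deriv_eval_eq hq.1 q.2

theorem LFam.diff_deriv (h : LFam P d ρ) {E : ℂ → ℂ} {s : Set ℂ} (hs : s ⊆ ball 0 ρ)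
    (hE : DifferentiableOn ℂ E s) :
    DifferentiableOn ℂ (fun z => (P z).derivative.eval (E z)) s := by
  have h1 : DifferentiableOn ℂ (fun z => ∑ i ∈ Finset.range d,
      (P z).coeff (i + 1) * (i + 1) * E z ^ i) s := by
    refine DifferentiableOn.fun_sum fun i _ => ?_
    exact (((h.diff (i + 1)).mono hs).mul (differentiableOn_const _)).mul (hE.pow i)
  exact h1.congr fun z hz => h.deriv_eval_eq (hs hz) (E z)

theorem LFam.diff_hom (h : LFam P d ρ) {A B : ℂ → ℂ} {s : Set ℂ} (hs : s ⊆ ball 0 ρ)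
    (hA : DifferentiableOn ℂ A s) (hB : DifferentiableOn ℂ B s) :
    DifferentiableOn ℂ (fun z => hom d (P z) (A z) (B z)) s := by
  unfold hom
  refine DifferentiableOn.fun_sum fun i _ => ?_
  exact (((h.diff i).mono hs).mul (hA.pow i)).mul (hB.pow (d - i))

/-- **one approximating family**: if `w = A/B` and the root `E` of `P` are near the root on the
circle, and `hom P A B` has no zero, then `P' (E)` is bounded below in the disc. -/
theorem LFam.lower (h : LFam P d ρ) {r m δ : ℝ} (hr : 0 < r) (hrρ : r < ρ) (hm : 0 < m)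
    {g κ E A B : ℂ → ℂ}
    (hE : AnalyticOnNhd ℂ E (closedBall 0 r))
    (hE0 : ∀ z ∈ closedBall (0 : ℂ) r, (P z).eval (E z) = 0)
    (hEg : ∀ z ∈ closedBall (0 : ℂ) r, ‖E z - g z‖ ≤ δ)
    (hκm : ∀ z ∈ sphere (0 : ℂ) r, m ≤ ‖κ z‖)
    (hder : ∀ z ∈ closedBall (0 : ℂ) r, ∀ w ∈ closedBall (g z) δ,
      ‖(P z).derivative.eval w - κ z‖ ≤ m / 8)
    (hA : DifferentiableOn ℂ A (ball 0 ρ)) (hB : DifferentiableOn ℂ B (ball 0 ρ))
    (hF : ∀ z ∈ ball (0 : ℂ) ρ, hom d (P z) (A z) (B z) ≠ 0)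
    (hAB : ∀ z ∈ sphere (0 : ℂ) r, B z ≠ 0 ∧ ‖A z / B z - g z‖ ≤ δ) :
    ∀ z ∈ closedBall (0 : ℂ) r, m / 2 ≤ ‖κ z‖ := by
  have hsub : closedBall (0 : ℂ) r ⊆ ball 0 ρ := closedBall_subset_ball hrρ
  have hsc : sphere (0 : ℂ) r ⊆ closedBall 0 r := sphere_subset_closedBall
  have hEd : DifferentiableOn ℂ E (closedBall 0 r) := hE.differentiableOn
  set κ' : ℂ → ℂ := fun z => (P z).derivative.eval (E z) with hκ'
  have hκ'd : DifferentiableOn ℂ κ' (closedBall 0 r) := h.diff_deriv hsub hEd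
  have hκκ : ∀ z ∈ closedBall (0 : ℂ) r, ‖κ' z - κ z‖ ≤ m / 8 := fun z hz =>
    hder z hz _ (mem_closedBall_iff_norm.2 (hEg z hz))
  have hκ'm : ∀ z ∈ sphere (0 : ℂ) r, 7 / 8 * m ≤ ‖κ' z‖ := by
    intro z hz
    have h1 := hκκ z (hsc hz)
    have h2 := hκm z hz
    have h3 : ‖κ z‖ ≤ ‖κ' z‖ + ‖κ' z - κ z‖ := by
      have := norm_sub_le (κ' z) (κ' z - κ z)
      rwa [sub_sub_cancel] at this
    linarith
  set G : ℂ → ℂ := fun z => κ' z * (A z - E z * B z) * B z ^ (d - 1) / hom d (P z) (A z) (B z)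
    with hG
  have hGd : DifferentiableOn ℂ G (closedBall 0 r) := by
    refine DifferentiableOn.div ?_ (h.diff_hom hsub (hA.mono hsub) (hB.mono hsub))
      fun z hz => hF z (hsub hz)
    exact (hκ'd.mul ((hA.mono hsub).sub (hEd.mul (hB.mono hsub)))).mul ((hB.mono hsub).pow _)
  have hfr : frontier (ball (0 : ℂ) r) = sphere 0 r := frontier_ball _ hr.ne'
  have hcl : closure (ball (0 : ℂ) r) = closedBall 0 r := closure_ball _ hr.ne'
  have hDC : ∀ f : ℂ → ℂ, DifferentiableOn ℂ f (closedBall 0 r) →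
      DiffContOnCl ℂ f (ball 0 r) := fun f hf =>
    DifferentiableOn.diffContOnCl (by rw [hcl]; exact hf)
  -- on the circle
  have hGs : ∀ z ∈ sphere (0 : ℂ) r, ‖G z - 1‖ ≤ 2 / 5 := by
    intro z hz
    obtain ⟨hB0, hw⟩ := hAB z hz
    set w := A z / B z with hwdef
    have hz' := hsc hz
    have hne := hF z (hsub hz')
    have hh : hom d (P z) (A z) (B z) = B z ^ d * (P z).eval w :=
      hom_eq (h.deg z (hsub hz')) hB0
    have hPw : (P z).eval w ≠ 0 := by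
      intro h0; rw [hh, h0, mul_zero] at hne; exact hne rfl
    have hAw : A z = w * B z := by rw [hwdef, div_mul_cancel₀ _ hB0]
    have hBd : B z ^ d = B z * B z ^ (d - 1) := by
      rw [← pow_succ', Nat.sub_add_cancel h.pos]
    have hGz : G z = κ' z * (w - E z) / (P z).eval w := by
      simp only [hG]
      rw [hh, hAw, hBd]
      have : B z ^ (d - 1) ≠ 0 := pow_ne_zero _ hB0
      field_simp
    have h1 := mean_value (hder z hz') (mem_closedBall_iff_norm.2 (hEg z hz'))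
      (mem_closedBall_iff_norm.2 hw)
    rw [hE0 z hz', sub_zero] at h1
    have h2 : ‖(P z).eval w - κ' z * (w - E z)‖ ≤ m / 4 * ‖w - E z‖ := by
      have h3 : (P z).eval w - κ' z * (w - E z)
          = ((P z).eval w - κ z * (w - E z)) - (κ' z - κ z) * (w - E z) := by ring
      rw [h3]
      refine (norm_sub_le _ _).trans ?_
      rw [norm_mul]
      have := mul_le_mul_of_nonneg_right (hκκ z hz') (norm_nonneg (w - E z))
      linarith
    have h4 : 5 / 8 * m * ‖w - E z‖ ≤ ‖(P z).eval w‖ := by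
      have h5 : ‖κ' z * (w - E z)‖ ≤ ‖(P z).eval w‖ + ‖(P z).eval w - κ' z * (w - E z)‖ := by
        have := norm_sub_le ((P z).eval w) ((P z).eval w - κ' z * (w - E z))
        rwa [sub_sub_cancel] at this
      rw [norm_mul] at h5
      have h6 := mul_le_mul_of_nonneg_right (hκ'm z hz) (norm_nonneg (w - E z))
      linarith
    have h7 : G z - 1 = -((P z).eval w - κ' z * (w - E z)) / (P z).eval w := by
      rw [hGz]; field_simp; ring
    rw [h7, norm_div, norm_neg, div_le_iff₀ (norm_pos_iff.2 hPw)]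
    nlinarith
  have hGb : ∀ z ∈ closedBall (0 : ℂ) r, ‖G z - 1‖ ≤ 2 / 5 := by
    intro z hz
    refine Complex.norm_le_of_forall_mem_frontier_norm_le isBounded_ball
      (hDC (fun z => G z - 1) (hGd.sub (differentiableOn_const _))) (C := 2 / 5) ?_
      (by rw [hcl]; exact hz)
    intro z hz
    rw [hfr] at hz
    exact hGs z hz
  have hκ'0 : ∀ z ∈ closedBall (0 : ℂ) r, κ' z ≠ 0 := by
    intro z hz h0
    have h1 := hGb z hz
    have h2 : G z = 0 := by simp only [hG, h0]; simp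
    rw [h2, zero_sub, norm_neg, norm_one] at h1
    norm_num at h1
  have hinv : ∀ z ∈ closedBall (0 : ℂ) r, ‖(κ' z)⁻¹‖ ≤ (7 / 8 * m)⁻¹ := by
    intro z hz
    refine Complex.norm_le_of_forall_mem_frontier_norm_le isBounded_ball
      (hDC (fun z => (κ' z)⁻¹) (hκ'd.inv hκ'0)) (C := (7 / 8 * m)⁻¹) ?_
      (by rw [hcl]; exact hz)
    intro z hz
    rw [hfr] at hz
    rw [norm_inv]
    exact inv_anti₀ (by positivity) (hκ'm z hz)
  intro z hz
  have h1 := hinv z hz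
  rw [norm_inv, inv_le_inv₀ (norm_pos_iff.2 (hκ'0 z hz)) (by positivity)] at h1
  have h2 := hκκ z hz
  have h3 : ‖κ' z‖ ≤ ‖κ z‖ + ‖κ' z - κ z‖ := by
    have := norm_add_le (κ z) (κ' z - κ z)
    rwa [add_sub_cancel] at this
  linarith

end

end Pool.Agent.H56.PR

end

section

/-!
# G4 H Defs: few bad hits, by theta functions; definitions

`ThF Γ W e`: theta factors `e l y` of the weight `wt W` for the lattice `Γ`, with the cocycle property.  `lv b c`: the vector `∑ c i b i`, `b` a real basis in `Γ`, `c` integral.  `ThM b W e M f`: `f` is a theta function of the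
weight `M wt W` for the lattice spanned by `b`.  `dir a f`: the derivative in the direction `a`.  `Cov d Z`: near each of its points `Z` is the union of the images of finitely many holomorphic maps from the unit polydisc of `ℂ^d`.
-/

set_option autoImplicit false

open Topology Filter Metric

namespace Pool.Agent.G4.H

open Pool.Agent.AD (Vd)
open Pool.Agent.TG (Lat)
open Pool.Agent.G3 (wt)

variable {k r : ℕ}

/-- theta factors of the weight `wt W` -/
structure ThF (Γ : AddSubgroup (Vd (k + 1))) (W : Fin r → Vd (k + 1) →L[ℂ] ℂ) (e : Vd (k + 1) → Vd (k + 1) → ℂ) : Prop where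
  lat : Lat Γ
  pos : ∀ y, (∀ i, W i y = 0) → y = 0
  an : ∀ l ∈ Γ, ∀ y, AnalyticAt ℂ (e l) y
  nrm : ∀ l ∈ Γ, ∀ y, ‖e l y‖ = Real.exp (wt W y - wt W (y + l))
  coc : ∀ l ∈ Γ, ∀ l' ∈ Γ, ∀ y, e (l + l') y = e l (y + l') * e l' y

/-- real bases of `ℂ^(k+1)` -/
abbrev RB (k : ℕ) : Type := Module.Basis (Fin (2 * (k + 1))) ℝ (Vd (k + 1))

/-- the integral combinations of the basis -/
noncomputable def lv (b : RB k) (c : Fin (2 * (k + 1)) → ℤ) : Vd (k + 1) := ∑ i, (c i : ℝ) • b i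

/-- the Gaussian with the peak `p`: `‖pk W M p y‖ * exp (- M wt y) = exp (- M wt (y - p))` -/
noncomputable def pk (W : Fin r → Vd (k + 1) →L[ℂ] ℂ) (M : ℕ) (p y : Vd (k + 1)) : ℂ :=
  Complex.exp ((M : ℂ) * ∑ i, (2 * (starRingEnd ℂ) (W i p) * W i y - (starRingEnd ℂ) (W i p) * W i p))

/-- the theta series with the peaks `p - lv b c` -/
noncomputable def th (b : RB k) (W : Fin r → Vd (k + 1) →L[ℂ] ℂ) (e : Vd (k + 1) → Vd (k + 1) → ℂ) (M : ℕ) (p y : Vd (k + 1)) : ℂ :=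
  ∑' c : Fin (2 * (k + 1)) → ℤ, e (lv b c) y ^ M * pk W M p (y + lv b c)

/-- theta functions of the weight `M wt W` for the lattice spanned by `b` -/
structure ThM (b : RB k) (e : Vd (k + 1) → Vd (k + 1) → ℂ) (M : ℕ) (f : Vd (k + 1) → ℂ) : Prop where
  an : ∀ y, AnalyticAt ℂ f y
  per : ∀ (c : Fin (2 * (k + 1)) → ℤ) (y : Vd (k + 1)), e (lv b c) y ^ M * f (y + lv b c) = f y

/-- the derivative in the direction `a` -/
noncomputable def dir (a : Vd (k + 1)) (f : Vd (k + 1) → ℂ) (y : Vd (k + 1)) : ℂ := fderiv ℂ f y a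

end Pool.Agent.G4.H

end

section

/-!
# G4 H Bas: real bases in lattices

`exists_rb`: the lattice `Γ` contains a real basis (`Γ` spans `ℂ^(k+1)` over `ℝ`: a proper real subspace does not have all points within distance `R`).  `lv_mem`, `lv_add`.  `lv_red`: every point is within distance `R` of a point `lv b c`.
`lv_mul`: for `Γ ≤ Λ`, `b` in `Γ`: there is `m ≥ 1` with `m l ∈ {lv b c}` for all `l ∈ Λ` (`Λ / {lv b c}` is finite: the representatives within distance `R` of `0` are finitely many, `Λ` is discrete).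
`lv_low`: `‖lv b c‖ ≥ κ * ∑ |c i|`.
-/

set_option autoImplicit false

open Topology Filter Metric

namespace Pool.Agent.G4.H

open Pool.Agent.AD (Vd)
open Pool.Agent.TG (Lat)
open Pool.Agent.G3 (wt)

variable {k r : ℕ} {Λ Γ : AddSubgroup (Vd (k + 1))}

private theorem Bas_span {n : ℕ} {L : AddSubgroup (Vd n)} {R : ℝ} (h : ∀ y : Vd n, ∃ l ∈ L, ‖y - l‖ ≤ R) :
    Submodule.span ℝ (L : Set (Vd n)) = ⊤ := by
  by_contra hne
  obtain ⟨f, hf, hle⟩ := Submodule.exists_le_ker_of_lt_top _ (lt_top_iff_ne_top.2 hne)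
  obtain ⟨y, hy⟩ : ∃ y, f y ≠ 0 := by
    by_contra hcon
    push Not at hcon
    exact hf (LinearMap.ext hcon)
  set g := LinearMap.toContinuousLinearMap f with hg
  obtain ⟨l, hl, hyl⟩ := h (((‖g‖ * R + 1) / f y) • y)
  have h1 : f l = 0 := hle (Submodule.subset_span hl)
  have h2 : f (((‖g‖ * R + 1) / f y) • y - l) = ‖g‖ * R + 1 := by
    rw [map_sub, h1, map_smul, smul_eq_mul, sub_zero, div_mul_cancel₀ _ hy]
  have h3 : ‖g (((‖g‖ * R + 1) / f y) • y - l)‖ ≤ ‖g‖ * R :=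
    (g.le_opNorm _).trans (mul_le_mul_of_nonneg_left hyl (norm_nonneg _))
  have h4 : g (((‖g‖ * R + 1) / f y) • y - l) = ‖g‖ * R + 1 := h2
  rw [h4] at h3
  have h5 := (le_abs_self (‖g‖ * R + 1)).trans h3
  linarith

theorem exists_rb (hΓ : Lat Γ) : ∃ b : RB k, ∀ i, b i ∈ Γ := by
  obtain ⟨R, -, hR⟩ := hΓ.cpt
  have hs : ⊤ ≤ Submodule.span ℝ (Γ : Set (Vd (k + 1))) := (Bas_span hR).ge
  let B := Module.Basis.ofSpan hs
  have hB : ∀ i, B i ∈ (Γ : Set (Vd (k + 1))) := fun i =>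
    Module.Basis.ofSpan_subset hs (Set.mem_range_self i)
  letI := FiniteDimensional.fintypeBasisIndex B
  have hc : Fintype.card ((linearIndepOn_empty ℝ (id : Vd (k + 1) → Vd (k + 1))).extend (Set.empty_subset (Γ : Set (Vd (k + 1))))) =
      2 * (k + 1) := by
    rw [← Module.finrank_eq_card_basis B, finrank_real_of_complex, Module.finrank_fin_fun]
  refine ⟨B.reindex (Fintype.equivFinOfCardEq hc), fun i => ?_⟩
  rw [Module.Basis.reindex_apply]
  exact hB _

theorem lv_mem {b : RB k} (hb : ∀ i, b i ∈ Γ) (c : Fin (2 * (k + 1)) → ℤ) : lv b c ∈ Γ := by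
  refine AddSubgroup.sum_mem _ fun i _ => ?_
  rw [Int.cast_smul_eq_zsmul]
  exact AddSubgroup.zsmul_mem _ (hb i) (c i)

theorem lv_add (b : RB k) (c c' : Fin (2 * (k + 1)) → ℤ) : lv b (c + c') = lv b c + lv b c' := by
  unfold lv
  rw [← Finset.sum_add_distrib]
  refine Finset.sum_congr rfl fun i _ => ?_
  rw [Pi.add_apply, Int.cast_add, add_smul]

private theorem Bas_eq (b : RB k) (c : Fin (2 * (k + 1)) → ℤ) : lv b c = b.equivFun.symm fun i => (c i : ℝ) := by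
  rw [Module.Basis.equivFun_symm_apply]
  rfl

private theorem Bas_nsmul (b : RB k) (n : ℕ) (c : Fin (2 * (k + 1)) → ℤ) : n • lv b c = lv b (n • c) := by
  rw [Bas_eq, Bas_eq, ← map_nsmul]
  congr 1
  funext i
  simp

private theorem Bas_sub (b : RB k) (c c' : Fin (2 * (k + 1)) → ℤ) : lv b c - lv b c' = lv b (c - c') := by
  rw [Bas_eq, Bas_eq, Bas_eq, ← map_sub]
  congr 1
  funext i
  simp

theorem lv_red (b : RB k) : ∃ R : ℝ, 0 < R ∧ ∀ y : Vd (k + 1), ∃ c : Fin (2 * (k + 1)) → ℤ, ‖y - lv b c‖ ≤ R := by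
  have h0 : (0 : ℝ) ≤ ∑ i, ‖b i‖ := Finset.sum_nonneg fun _ _ => norm_nonneg _
  refine ⟨∑ i, ‖b i‖ + 1, by linarith, fun y => ⟨fun i => ⌊b.equivFun y i⌋, ?_⟩⟩
  have h1 : y - lv b (fun i => ⌊b.equivFun y i⌋) = ∑ i, Int.fract (b.equivFun y i) • b i := by
    conv_lhs => rw [← b.sum_equivFun y]
    unfold lv
    rw [← Finset.sum_sub_distrib]
    refine Finset.sum_congr rfl fun i _ => ?_
    rw [← sub_smul]
    simp only [b.sum_equivFun]
    rfl
  rw [h1]
  have h2 : ‖∑ i, Int.fract (b.equivFun y i) • b i‖ ≤ ∑ i, ‖b i‖ := by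
    refine (norm_sum_le _ _).trans (Finset.sum_le_sum fun i _ => ?_)
    rw [norm_smul, Real.norm_eq_abs, abs_of_nonneg (Int.fract_nonneg _)]
    exact mul_le_of_le_one_left (norm_nonneg _) (Int.fract_lt_one _).le
  linarith

theorem lv_low (b : RB k) : ∃ κ : ℝ, 0 < κ ∧ ∀ c : Fin (2 * (k + 1)) → ℤ, κ * ∑ i, |(c i : ℝ)| ≤ ‖lv b c‖ := by
  obtain ⟨K, hK, ha⟩ := LinearMap.exists_antilipschitzWith (b.equivFun.symm : (Fin (2 * (k + 1)) → ℝ) →ₗ[ℝ] Vd (k + 1))
    (LinearEquiv.ker _)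
  have hK' : (0 : ℝ) < K := hK
  have hn : (0 : ℝ) < 2 * (k + 1) := by positivity
  refine ⟨(2 * (k + 1) * K)⁻¹, by positivity, fun c => ?_⟩
  rw [inv_mul_le_iff₀ (by positivity)]
  have h1 := ha.le_mul_dist (fun i => (c i : ℝ)) 0
  rw [map_zero, dist_zero_right, dist_zero_right] at h1
  have h2 : ‖(fun i => (c i : ℝ))‖ ≤ K * ‖lv b c‖ := by
    rw [Bas_eq]
    exact h1
  have h3 : ∑ i, |(c i : ℝ)| ≤ ∑ _i : Fin (2 * (k + 1)), ‖(fun i => (c i : ℝ))‖ :=
    Finset.sum_le_sum fun i _ => norm_le_pi_norm (fun i => (c i : ℝ)) i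
  rw [Finset.sum_const, Finset.card_univ, Fintype.card_fin, nsmul_eq_mul] at h3
  push_cast at h3
  calc ∑ i, |(c i : ℝ)| ≤ 2 * (k + 1) * ‖(fun i => (c i : ℝ))‖ := h3
    _ ≤ 2 * (k + 1) * (K * ‖lv b c‖) := mul_le_mul_of_nonneg_left h2 hn.le
    _ = 2 * (k + 1) * K * ‖lv b c‖ := by ring

private theorem Bas_fin {L : AddSubgroup (Vd (k + 1))} (hL : Lat L) (R : ℝ) : {l | l ∈ L ∧ ‖l‖ ≤ R}.Finite := by
  obtain ⟨δ, hδ, hd⟩ := hL.disc
  obtain ⟨t, -, htf, ht⟩ := (isCompact_closedBall (0 : Vd (k + 1)) R).finite_cover_balls (half_pos hδ)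
  have h1 : {l | l ∈ L ∧ ‖l‖ ≤ R} ⊆ ⋃ x ∈ t, {l | l ∈ L ∧ l ∈ ball x (δ / 2)} := by
    rintro l ⟨hl, hn⟩
    have h2 := ht (mem_closedBall_zero_iff.2 hn)
    obtain ⟨x, hx, hlx⟩ := Set.mem_iUnion₂.1 h2
    exact Set.mem_iUnion₂.2 ⟨x, hx, hl, hlx⟩
  refine (htf.biUnion fun x _ => ?_).subset h1
  refine Set.Subsingleton.finite fun l hl l' hl' => ?_
  have h2 : ‖l - l'‖ < δ := by
    rw [← dist_eq_norm]
    have h3 := dist_triangle_right l l' x
    have h4 := mem_ball.1 hl.2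
    have h5 := mem_ball.1 hl'.2
    linarith
  exact sub_eq_zero.1 (hd _ (L.sub_mem hl.1 hl'.1) h2)

theorem lv_mul (hΛ : Lat Λ) {b : RB k} (hb : ∀ i, b i ∈ Λ) : ∃ m : ℕ, 1 ≤ m ∧ ∀ l ∈ Λ, ∃ c : Fin (2 * (k + 1)) → ℤ, m • l = lv b c := by
  obtain ⟨R, hR, hred⟩ := lv_red b
  have hF := Bas_fin hΛ R
  set F := hF.toFinset with hFd
  refine ⟨F.card.factorial, Nat.one_le_iff_ne_zero.2 (Nat.factorial_ne_zero _), fun l hl => ?_⟩
  choose c hc using fun j : ℕ => hred (j • l)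
  have hmaps : ∀ j ∈ Finset.range (F.card + 1), j • l - lv b (c j) ∈ F := by
    intro j _
    rw [hFd, Set.Finite.mem_toFinset]
    exact ⟨Λ.sub_mem (Λ.nsmul_mem hl j) (lv_mem hb _), hc j⟩
  obtain ⟨i, hi, j, hj, hij, he⟩ := Finset.exists_ne_map_eq_of_card_lt_of_maps_to
    (by rw [Finset.card_range]; exact Nat.lt_succ_self _) hmaps
  have key : ∀ i j : ℕ, i < j → j < F.card + 1 → i • l - lv b (c i) = j • l - lv b (c j) →
      ∃ c' : Fin (2 * (k + 1)) → ℤ, F.card.factorial • l = lv b c' := by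
    intro i j hij hj he
    have h1 : (j - i) • l = lv b (c j - c i) := by
      rw [← Bas_sub, sub_nsmul l hij.le]
      have h2 : j • l = i • l - lv b (c i) + lv b (c j) := by
        rw [he, sub_add_cancel]
      rw [h2]
      abel
    obtain ⟨q, hq⟩ := Nat.dvd_factorial (Nat.sub_pos_of_lt hij) (by omega : j - i ≤ F.card)
    refine ⟨q • (c j - c i), ?_⟩
    rw [← Bas_nsmul, ← h1, smul_smul, mul_comm, ← hq]
  rw [Finset.mem_range] at hi hj
  rcases lt_or_gt_of_ne hij with h | h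
  · exact key i j h hj he
  · exact key j i h hi he.symm

/-- the weight is positive definite -/
theorem wt_low {W : Fin r → Vd (k + 1) →L[ℂ] ℂ} (hW : ∀ y, (∀ i, W i y = 0) → y = 0) : ∃ c₀ : ℝ, 0 < c₀ ∧ ∀ y, c₀ * ‖y‖ ^ 2 ≤ wt W y := by
  let T : Vd (k + 1) →ₗ[ℂ] (Fin r → ℂ) := LinearMap.pi fun i => (W i : Vd (k + 1) →ₗ[ℂ] ℂ)
  have hT : LinearMap.ker T = ⊥ := by
    rw [LinearMap.ker_eq_bot']
    intro y hy
    exact hW y fun i => congrFun hy i
  obtain ⟨K, hK, ha⟩ := LinearMap.exists_antilipschitzWith T hT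
  have hK' : (0 : ℝ) < K := hK
  refine ⟨((K : ℝ) ^ 2)⁻¹, by positivity, fun y => ?_⟩
  rw [inv_mul_le_iff₀ (by positivity)]
  have h1 := ha.le_mul_dist y 0
  rw [map_zero, dist_zero_right, dist_zero_right] at h1
  have hw : 0 ≤ wt W y := Finset.sum_nonneg fun i _ => sq_nonneg _
  have h2 : ‖T y‖ ≤ Real.sqrt (wt W y) := by
    refine (pi_norm_le_iff_of_nonneg (Real.sqrt_nonneg _)).2 fun i => ?_
    refine Real.le_sqrt_of_sq_le ?_
    exact Finset.single_le_sum (f := fun i => ‖W i y‖ ^ 2) (fun _ _ => sq_nonneg _) (Finset.mem_univ i)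
  have h3 : ‖y‖ ≤ K * Real.sqrt (wt W y) := h1.trans (mul_le_mul_of_nonneg_left h2 hK'.le)
  calc ‖y‖ ^ 2 ≤ (K * Real.sqrt (wt W y)) ^ 2 := pow_le_pow_left₀ (norm_nonneg _) h3 2
    _ = K ^ 2 * wt W y := by rw [mul_pow, Real.sq_sqrt hw]

end Pool.Agent.G4.H

end
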