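import Pool.Agent.H94.PX2.M11
import Pool.Agent.H94.PX2.M14
import Pool.Agent.H94.PX2.M27

/-! The parts of this file: G4.K.Rs, G4.K.Sy. -/

section

/-!
# G4 K Rs: existence of root systems

One variable: `f` analytic at the points of the closed disc, not `0` on the circle: `f w = ∏ (w - b i) * h w`, `h` analytic and not `0` on the closed disc (finitely many zeros; divide them out one after the other).
The number of the zeros of `σ (x, ·)` is `(2 π i)⁻¹ ∮ deriv (σ (x, ·)) w / σ (x, w)`, continuous in `x` near `x₀` (`H22.HF.analyticAt_circleIntegral`) and an integer, so constant on a small ball.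
-/

set_option autoImplicit false

open Topology Filter Metric

namespace Pool.Agent.G4.K

open Pool.Agent.AD (Vd)

variable {E : Type} [NormedAddCommGroup E] [NormedSpace ℂ E] [FiniteDimensional ℂ E]

omit [FiniteDimensional ℂ E] in
/-- the partial derivative with respect to the last variable -/
private theorem rs_deriv {σ : E × ℂ → ℂ} {x : E} {w : ℂ} (h : AnalyticAt ℂ σ (x, w)) : deriv (fun t : ℂ => σ (x, t)) w = fderiv ℂ σ (x, w) (0, 1) := by
  have h1 : HasFDerivAt σ (fderiv ℂ σ (x, w)) (x, w) := h.differentiableAt.hasFDerivAt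
  have h2 : HasDerivAt (fun t : ℂ => (x, t)) ((0 : E), (1 : ℂ)) w := (hasDerivAt_const w x).prodMk (hasDerivAt_id w)
  exact (h1.comp_hasDerivAt w h2).deriv

omit [FiniteDimensional ℂ E] in
/-- one parameter value: the factorisation, and the number of the factors -/
private theorem rs_one {σ : E × ℂ → ℂ} {x : E} {r : ℝ} (hr : 0 < r) (han : ∀ w : ℂ, ‖w‖ ≤ r → AnalyticAt ℂ σ (x, w)) (hne : ∀ w : ℂ, ‖w‖ = r → σ (x, w) ≠ 0) :
    ∃ (n : ℕ) (b : Fin n → ℂ), (∀ i, ‖b i‖ < r) ∧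
      (∃ h : ℂ → ℂ, (∀ w : ℂ, ‖w‖ ≤ r → AnalyticAt ℂ h w ∧ h w ≠ 0) ∧ ∀ w : ℂ, ‖w‖ ≤ r → σ (x, w) = (∏ i, (w - b i)) * h w) ∧
      (∮ t in C(0, r), fderiv ℂ σ (x, t) (0, 1) / σ (x, t)) = 2 * Real.pi * Complex.I * n := by
  have hφ : ∀ t ∈ closedBall (0 : ℂ) r, AnalyticAt ℂ (fun w : ℂ => σ (x, w)) t := fun t ht =>
    (han t (mem_closedBall_zero_iff.1 ht)).comp_of_eq (analyticAt_const.prod analyticAt_id) rfl
  obtain ⟨n, b, h, hb, hh, hf⟩ := Pool.Agent.H22.HF.exists_fac hr hφ fun t ht => hne t (mem_sphere_zero_iff_norm.1 ht)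
  refine ⟨n, b, hb, ⟨h, fun w hw => hh w (mem_closedBall_zero_iff.2 hw), fun w hw => (hf w (mem_closedBall_zero_iff.2 hw)).self_of_nhds⟩, ?_⟩
  have h1 := Pool.Agent.H22.HF.power_sum hr hb hh hf (H := fun _ => 1) fun _ _ => analyticAt_const
  have h2 : (∮ t in C(0, r), fderiv ℂ σ (x, t) (0, 1) / σ (x, t)) = ∮ t in C(0, r), (1 : ℂ) * deriv (fun w : ℂ => σ (x, w)) t / σ (x, t) := by
    refine circleIntegral.integral_congr hr.le fun t ht => ?_
    rw [one_mul, rs_deriv (han t (mem_sphere_zero_iff_norm.1 ht).le)]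
  rw [h2, h1]
  simp

theorem exists_rsys {σ : E × ℂ → ℂ} {x₀ : E} {r : ℝ} (hr : 0 < r) (han : ∀ w : ℂ, ‖w‖ ≤ r → AnalyticAt ℂ σ (x₀, w)) (hne : ∀ w : ℂ, ‖w‖ = r → σ (x₀, w) ≠ 0) :
    ∃ (δ : ℝ) (n : ℕ) (β : E → Fin n → ℂ), 0 < δ ∧ RSys (ball x₀ δ) r σ β := by
  classical
  obtain ⟨u₁, v₁, hu₁, _, hpu₁, htv₁, huv₁⟩ := generalized_tube_lemma (isCompact_singleton (x := x₀)) (isCompact_closedBall (0 : ℂ) r) (isOpen_analyticAt ℂ σ) (by
    rintro ⟨p, t⟩ ⟨hp, ht⟩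
    simp only [Set.mem_singleton_iff] at hp
    subst hp
    exact han t (mem_closedBall_zero_iff.1 ht))
  have hWo : IsOpen {q : E × ℂ | AnalyticAt ℂ σ q ∧ σ q ≠ 0} := by
    rw [isOpen_iff_mem_nhds]
    rintro q ⟨h1, h2⟩
    exact h1.eventually_analyticAt.and (h1.continuousAt.eventually_ne h2)
  obtain ⟨u₂, v₂, hu₂, _, hpu₂, htv₂, huv₂⟩ := generalized_tube_lemma (isCompact_singleton (x := x₀)) (isCompact_sphere (0 : ℂ) r) hWo (by
    rintro ⟨p, t⟩ ⟨hp, ht⟩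
    simp only [Set.mem_singleton_iff] at hp
    subst hp
    have ht' : ‖t‖ = r := mem_sphere_zero_iff_norm.1 ht
    exact ⟨han t ht'.le, hne t ht'⟩)
  have hA : ∀ x ∈ u₁, ∀ w : ℂ, ‖w‖ ≤ r → AnalyticAt ℂ σ (x, w) := fun x hx w hw => huv₁ ⟨hx, htv₁ (mem_closedBall_zero_iff.2 hw)⟩
  have hN : ∀ x ∈ u₂, ∀ w : ℂ, ‖w‖ = r → σ (x, w) ≠ 0 := fun x hx w hw => (huv₂ ⟨hx, htv₂ (mem_sphere_zero_iff_norm.2 hw)⟩).2
  obtain ⟨n, b₀, _, _, hn⟩ := rs_one (x := x₀) hr han hne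
  have hI : AnalyticAt ℂ (fun x : E => ∮ t in C(0, r), (fun q : E × ℂ => fderiv ℂ σ q (0, 1) / σ q) (x, t)) x₀ := by
    refine Pool.Agent.H22.HF.analyticAt_circleIntegral (E := E) (F := fun q : E × ℂ => fderiv ℂ σ q (0, 1) / σ q) hr fun t ht => ?_
    have ht' : ‖t‖ = r := mem_sphere_zero_iff_norm.1 ht
    have h1 : AnalyticAt ℂ (fun q : E × ℂ => fderiv ℂ σ q ((0 : E), (1 : ℂ))) (x₀, t) :=
      ((ContinuousLinearMap.apply ℂ ℂ ((0 : E), (1 : ℂ))).analyticAt _).comp (han t ht'.le).fderiv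
    exact h1.div (han t ht'.le) (hne t ht')
  have hpi : 0 < 2 * Real.pi := by positivity
  have hev : ∀ᶠ x in 𝓝 x₀, x ∈ u₁ ∧ x ∈ u₂ ∧ ‖(∮ t in C(0, r), fderiv ℂ σ (x, t) (0, 1) / σ (x, t)) - 2 * Real.pi * Complex.I * n‖ < 2 * Real.pi := by
    have h1 := hI.continuousAt
    rw [Metric.continuousAt_iff] at h1
    obtain ⟨ε, hε, h2⟩ := h1 (2 * Real.pi) hpi
    filter_upwards [hu₁.mem_nhds (hpu₁ rfl), hu₂.mem_nhds (hpu₂ rfl), ball_mem_nhds x₀ hε] with x e1 e2 e3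
    refine ⟨e1, e2, ?_⟩
    have h3 := h2 e3
    rw [dist_eq_norm] at h3
    simp only [hn] at h3
    exact h3
  obtain ⟨δ, hδ, hball⟩ := Metric.eventually_nhds_iff_ball.1 hev
  have hx : ∀ x ∈ ball x₀ δ, ∃ b : Fin n → ℂ, (∀ i, ‖b i‖ < r) ∧
      ∃ h : ℂ → ℂ, (∀ w : ℂ, ‖w‖ ≤ r → AnalyticAt ℂ h w ∧ h w ≠ 0) ∧ ∀ w : ℂ, ‖w‖ ≤ r → σ (x, w) = (∏ i, (w - b i)) * h w := by
    intro x hx
    obtain ⟨e1, e2, e3⟩ := hball x hx
    obtain ⟨m, b, f1, f2, f3⟩ := rs_one hr (hA x e1) (hN x e2)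
    have hmn : m = n := by
      rw [f3, ← mul_sub, norm_mul] at e3
      have h4 : ‖(2 * Real.pi * Complex.I : ℂ)‖ = 2 * Real.pi := by
        simp [abs_of_pos Real.pi_pos]
      have h5 : ‖(m : ℂ) - n‖ < 1 := by
        rw [h4] at e3
        by_contra h6
        nlinarith [not_lt.1 h6]
      have h6 : ((m : ℂ) - n) = (((m : ℤ) - (n : ℤ) : ℤ) : ℂ) := by push_cast; ring
      rw [h6, Complex.norm_intCast] at h5
      have h7 : |((m : ℤ) - (n : ℤ) : ℤ)| < 1 := by exact_mod_cast h5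
      rw [Int.abs_lt_one_iff] at h7
      omega
    subst hmn
    exact ⟨b, f1, f2⟩
  choose! β hβ using hx
  exact ⟨δ, n, β, hδ, isOpen_ball, hr, fun x hx => hA x (hball x hx).1, fun x hx => hN x (hball x hx).2.1, fun x hx => (hβ x hx).1, fun x hx => (hβ x hx).2⟩

end Pool.Agent.G4.K

end

section

/-!
# G4 K Sy: the norm is holomorphic

For `x ∈ U` and `F` analytic on the closed disc: `∑ i, F (x, β x i) = (2 π i)⁻¹ ∮ F (x, w) (deriv (σ (x, ·)) w / σ (x, w))` (logarithmic derivative of the factorisation, Cauchy), analytic in `x` (`H22.HF.analyticAt_circleIntegral`).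
With `F ^ p`: the power sums of the `F (x, β x i)` are analytic; by Newton's identities (`MvPolynomial.mul_esymm_eq_sum`) the elementary symmetric functions are analytic; the norm is the last one.
-/

set_option autoImplicit false

open Topology Filter Metric

namespace Pool.Agent.G4.K

open Pool.Agent.AD (Vd)

/-- the normalised contour integral -/
private noncomputable def syA {E : Type} [NormedAddCommGroup E] [NormedSpace ℂ E] (g : E × ℂ → ℂ) (ρ : ℝ) (H : E × ℂ → ℂ) (p : E) : ℂ :=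
  (2 * Real.pi * Complex.I)⁻¹ * ∮ t in C(0, ρ), H (p, t) * fderiv ℂ g (p, t) (0, 1) / g (p, t)

private theorem syA_analytic {E : Type} [NormedAddCommGroup E] [NormedSpace ℂ E] [FiniteDimensional ℂ E] {g H : E × ℂ → ℂ} {ρ : ℝ} (hρ : 0 < ρ) {p : E}
    (hg : ∀ t ∈ sphere (0 : ℂ) ρ, AnalyticAt ℂ g (p, t)) (hH : ∀ t ∈ sphere (0 : ℂ) ρ, AnalyticAt ℂ H (p, t)) (hn : ∀ t ∈ sphere (0 : ℂ) ρ, g (p, t) ≠ 0) :
    AnalyticAt ℂ (syA g ρ H) p := by
  unfold syA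
  refine analyticAt_const.mul (H22.HF.analyticAt_circleIntegral (F := fun z => H z * fderiv ℂ g z (0, 1) / g z) hρ ?_)
  intro t ht
  refine ((hH t ht).mul ?_).div (hg t ht) (hn t ht)
  exact (ContinuousLinearMap.analyticAt (ContinuousLinearMap.apply ℂ ℂ ((0, 1) : E × ℂ)) _).comp (hg t ht).fderiv

private theorem syA_eq {E : Type} [NormedAddCommGroup E] [NormedSpace ℂ E] [FiniteDimensional ℂ E] {g H : E × ℂ → ℂ} {ρ : ℝ} (hρ : 0 < ρ) {p : E}
    (hg : ∀ t ∈ closedBall (0 : ℂ) ρ, AnalyticAt ℂ g (p, t)) (hH : ∀ t ∈ closedBall (0 : ℂ) ρ, AnalyticAt ℂ H (p, t))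
    {w : ℂ → ℂ} {ν : ℕ} {r : Fin ν → ℂ} (hr : ∀ i, ‖r i‖ < ρ) (hw : ∀ t ∈ closedBall (0 : ℂ) ρ, AnalyticAt ℂ w t ∧ w t ≠ 0)
    (hφ : ∀ t ∈ closedBall (0 : ℂ) ρ, (fun t => g (p, t)) =ᶠ[𝓝 t] fun t => (∏ i, (t - r i)) * w t) :
    syA g ρ H p = ∑ i, H (p, r i) := by
  have hin : ∀ t : ℂ, AnalyticAt ℂ (fun t : ℂ => ((p, t) : E × ℂ)) t := fun t => analyticAt_const.prod analyticAt_id
  have hps := H22.HF.power_sum (H := fun t => H (p, t)) hρ hr hw hφ (fun t ht => (hH t ht).comp (hin t))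
  have hint : (∮ t in C(0, ρ), H (p, t) * fderiv ℂ g (p, t) (0, 1) / g (p, t)) = ∮ t in C(0, ρ), H (p, t) * deriv (fun t => g (p, t)) t / g (p, t) := by
    refine circleIntegral.integral_congr hρ.le (fun t ht => ?_)
    have h1 : HasFDerivAt g (fderiv ℂ g (p, t)) (p, t) := (hg t (sphere_subset_closedBall ht)).differentiableAt.hasFDerivAt
    have h2 : HasDerivAt (fun t : ℂ => ((p, t) : E × ℂ)) ((0, 1) : E × ℂ) t := (hasDerivAt_const t p).prodMk (hasDerivAt_id t)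
    have h3 : HasDerivAt (fun t => g (p, t)) (fderiv ℂ g (p, t) (0, 1)) t := h1.comp_hasDerivAt t h2
    simp only [h3.deriv]
  unfold syA
  rw [hint, hps, ← mul_assoc, inv_mul_cancel₀, one_mul]
  exact Complex.two_pi_I_ne_zero

/-- two functions which are analytic at the points of a closed disc and equal on it are equal near its points -/
private theorem eventuallyEq_closedBall {f g : ℂ → ℂ} {ρ : ℝ} (hρ : 0 < ρ) (hf : ∀ t ∈ closedBall (0 : ℂ) ρ, AnalyticAt ℂ f t) (hg : ∀ t ∈ closedBall (0 : ℂ) ρ, AnalyticAt ℂ g t)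
    (h : ∀ t ∈ closedBall (0 : ℂ) ρ, f t = g t) {t : ℂ} (ht : t ∈ closedBall (0 : ℂ) ρ) : f =ᶠ[𝓝 t] g := by
  refine ((hf t ht).frequently_eq_iff_eventually_eq (hg t ht)).1 ?_
  have hcl : t ∈ closure (ball (0 : ℂ) ρ \ {t}) := by
    have h1 : closedBall (0 : ℂ) ρ ⊆ closure (ball (0 : ℂ) ρ) := by
      rw [closure_ball (0 : ℂ) hρ.ne']
    have h2 : Dense ({t}ᶜ : Set ℂ) := dense_compl_singleton t
    have h3 : ball (0 : ℂ) ρ ⊆ closure (ball (0 : ℂ) ρ ∩ {t}ᶜ) := h2.open_subset_closure_inter isOpen_ball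
    have h4 : ball (0 : ℂ) ρ \ {t} = ball (0 : ℂ) ρ ∩ {t}ᶜ := rfl
    rw [h4]
    exact closure_minimal h3 isClosed_closure (h1 ht)
  rw [mem_closure_iff_frequently] at hcl
  rw [frequently_nhdsWithin_iff]
  refine hcl.mono fun z hz => ⟨h z (ball_subset_closedBall hz.1), hz.2⟩

variable {E : Type} [NormedAddCommGroup E] [NormedSpace ℂ E] [FiniteDimensional ℂ E] {U : Set E} {r : ℝ} {σ : E × ℂ → ℂ} {n : ℕ} {β : E → Fin n → ℂ}

theorem RSys.norm_an (R : RSys U r σ β) {F : E × ℂ → ℂ} (hF : ∀ x ∈ U, ∀ w : ℂ, ‖w‖ ≤ r → AnalyticAt ℂ F (x, w)) : ∀ x ∈ U, AnalyticAt ℂ (fun x => ∏ i, F (x, β x i)) x := by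
  intro x₀ hx₀
  obtain ⟨P, hP⟩ := H22.HF.esymm_newton n
  have key : ∀ x ∈ U, ∀ k : ℕ, syA σ r (fun z => F z ^ (k + 1)) x = ∑ i, F (x, β x i) ^ (k + 1) := by
    intro x hx k
    obtain ⟨h, h1, h2⟩ := R.fac x hx
    have hin : ∀ t : ℂ, AnalyticAt ℂ (fun t : ℂ => ((x, t) : E × ℂ)) t := fun t => analyticAt_const.prod analyticAt_id
    refine syA_eq R.pos (fun t ht => R.an x hx t (mem_closedBall_zero_iff.1 ht)) (fun t ht => (hF x hx t (mem_closedBall_zero_iff.1 ht)).pow _) (R.lt x hx)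
      (fun t ht => h1 t (mem_closedBall_zero_iff.1 ht)) (fun t ht => ?_)
    refine eventuallyEq_closedBall R.pos ?_ ?_ ?_ ht
    · intro t ht
      exact AnalyticAt.comp (g := σ) (f := fun t : ℂ => ((x, t) : E × ℂ)) (R.an x hx t (mem_closedBall_zero_iff.1 ht)) (hin t)
    · intro t ht
      refine AnalyticAt.mul ?_ (h1 t (mem_closedBall_zero_iff.1 ht)).1
      exact Finset.analyticAt_fun_prod _ (fun i _ => analyticAt_id.sub analyticAt_const)
    · intro t ht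
      exact h2 t (mem_closedBall_zero_iff.1 ht)
  have han : ∀ k : ℕ, AnalyticAt ℂ (syA σ r (fun z => F z ^ (k + 1))) x₀ := by
    intro k
    refine syA_analytic R.pos (fun t ht => R.an x₀ hx₀ t ?_) (fun t ht => (hF x₀ hx₀ t ?_).pow _) (fun t ht => R.ne x₀ hx₀ t (mem_sphere_zero_iff_norm.1 ht))
    · exact (mem_sphere_zero_iff_norm.1 ht).le
    · exact (mem_sphere_zero_iff_norm.1 ht).le
  have hev : (fun x => ∏ i, F (x, β x i)) =ᶠ[𝓝 x₀] fun x => MvPolynomial.aeval (fun k : Fin n => syA σ r (fun z => F z ^ ((k : ℕ) + 1)) x) P := by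
    filter_upwards [R.op.mem_nhds hx₀] with x hx
    rw [hP (fun i => F (x, β x i)), MvPolynomial.aeval_eq_eval]
    congr 1
    simp only [key x hx]
  refine AnalyticAt.congr (AnalyticAt.aeval_mvPolynomial (fun k : Fin n => han (k : ℕ)) P) hev.symm

end Pool.Agent.G4.K

end
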