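import Pool.Agent.H94.PX2.M15
import Pool.Agent.H94.PX2.M24
import Pool.Agent.H94.PX2.M33
import Pool.Agent.H94.PX2.M38
import Pool.Agent.H94.PX2.M39

/-! The parts of this file: AD.T.NCDefs, H17G.PNG, G4.RE.Sym, H23.GU.Defs, H17BP.MapIdeal, PX.FrB. -/

section

/-!
# AD T NCDefs: the four properties, finitely many curves
-/

open MvPolynomial
open Pool.Agent.H17 (PN VanishesAt ZariskiClosedIn HolomorphicInto puncturedDisc)
open Pool.Agent.H17EF (projVar)

noncomputable section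

namespace Pool.Agent.AD.NC

variable {N s : ℕ}

/-- `X ∖ D`: the complement in the closed subvariety `X` of `ℙ^N` given by `P` of the hypersurfaces `{G i = 0}`. If there
are no `G i`, this is `X`. -/
def complement (P : Ideal (MvPolynomial (Fin (N + 1)) ℂ)) (G : Fin s → MvPolynomial (Fin (N + 1)) ℂ) : Set (PN N) :=
  {x | x ∈ projVar P ∧ ∀ i, ¬ VanishesAt (G i) x}

end Pool.Agent.AD.NC

end
end

section

/-!
# G PNG: projective surfaces with a holomorphic map to an elliptic curve, definitions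
-/

set_option autoImplicit false

open Topology Filter MvPolynomial

noncomputable section

namespace Pool.Agent.H17G

open Pool.Agent.H17 (PN VanishesAt HolomorphicInto)

variable {N : ℕ}

/-- The point of `X` with the homogeneous coordinates `x` lies over `z`: the pair is a point of the covering `{(x, z) : u x = z mod Λ}` of `X`. -/
def Over (X : Set (PN N)) (Λ : AddSubgroup ℂ) (u : PN N → ℂ ⧸ Λ) (z : ℂ) (x : Fin (N + 1) → ℂ) : Prop :=
  ∃ h : x ≠ 0, Projectivization.mk ℂ x h ∈ X ∧ u (Projectivization.mk ℂ x h) = (z : ℂ ⧸ Λ)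

/-- `v` is a tangent vector at `x` of the affine cone over `X`. -/
def IsTangent (X : Set (PN N)) (x v : Fin (N + 1) → ℂ) : Prop :=
  ∃ γ : ℂ → Fin (N + 1) → ℂ, AnalyticAt ℂ γ 0 ∧ γ 0 = x ∧ deriv γ 0 = v ∧ ∀ᶠ z in 𝓝 (0 : ℂ), ∃ h : γ z ≠ 0, Projectivization.mk ℂ (γ z) h ∈ X

/-- The form `Ω` is `0` at all points of the fibre over `z`. -/
def VanishesOver (X : Set (PN N)) (Λ : AddSubgroup ℂ) (u : PN N → ℂ ⧸ Λ)
    (Ω : ℂ → (Fin (N + 1) → ℂ) → (Fin (N + 1) → ℂ) → (Fin (N + 1) → ℂ) → ℂ) (z : ℂ) : Prop :=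
  ∀ x, Over X Λ u z x → ∀ v w, IsTangent X x v → IsTangent X x w → Ω z x v w = 0

/-- The form `Ω` is `0` on no nonempty open set. -/
def IsNowhereZero (X : Set (PN N)) (Λ : AddSubgroup ℂ) (u : PN N → ℂ ⧸ Λ)
    (Ω : ℂ → (Fin (N + 1) → ℂ) → (Fin (N + 1) → ℂ) → (Fin (N + 1) → ℂ) → ℂ) : Prop :=
  ∀ z x, Over X Λ u z x → ∃ᶠ q in 𝓝 (z, x), Over X Λ u q.1 q.2 ∧ ∃ v w, IsTangent X q.2 v ∧ IsTangent X q.2 w ∧ Ω q.1 q.2 v w ≠ 0

end Pool.Agent.H17G

end
end

section

/-!
# G4 RE Sym: symmetric functions of the zeros are holomorphic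

`∏ i, (t - β x i)` is analytic in `x` for each `t` (`RSys.norm_an`), so the elementary symmetric functions of the `β x i` are (coefficients by interpolation at `t = 0, …, n`), so `MvPolynomial.eval (β x) p` is analytic for each symmetric `p`
(`MvPolynomial.esymmAlgEquiv`: `p` is a polynomial in the elementary symmetric polynomials).  `sc q b = eval b p`, `sd q b t = eval b p_t` with symmetric `p`, `p_t`; `sd q b t` is a polynomial of degree `≤ q` in `t`, so it is the interpolation of its values at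
`t = 0, …, q` (`Lagrange.eq_interpolate`), which gives the analyticity in `(x, t)`.
-/

set_option autoImplicit false

open Topology Filter Metric

namespace Pool.Agent.G4.RE

open Pool.Agent.G4.K (RSys)

variable {E : Type} [NormedAddCommGroup E] [NormedSpace ℂ E] [FiniteDimensional ℂ E] {U : Set E} {r : ℝ} {σ : E × ℂ → ℂ} {n : ℕ} {β : E → Fin n → ℂ}

private noncomputable def pol {n : ℕ} (b : Fin n → ℂ) : Polynomial ℂ := ∏ i, (Polynomial.X - Polynomial.C (b i))

private theorem pol_eval {n : ℕ} (b : Fin n → ℂ) (z : ℂ) : (pol b).eval z = ∏ i, (z - b i) := by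
  simp [pol, Polynomial.eval_prod]

private theorem pol_deg {n : ℕ} (b : Fin n → ℂ) : (pol b).natDegree = n := by
  rw [pol, Polynomial.natDegree_prod_of_monic _ _ (fun i _ => Polynomial.monic_X_sub_C _)]
  simp

private theorem pol_sum {n : ℕ} (b : Fin n → ℂ) (z : ℂ) : ∏ i, (z - b i) = ∑ k ∈ Finset.range (n + 1), (pol b).coeff k * z ^ k := by
  rw [← pol_eval, Polynomial.eval_eq_sum_range, pol_deg]

private theorem coeff_eq {n : ℕ} (b : Fin n → ℂ) (k : ℕ) : (pol b).coeff k =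
    ∑ j ∈ Finset.range (n + 1), (∏ i, ((j : ℂ) - b i)) * (Lagrange.basis (Finset.range (n + 1)) (fun j : ℕ => (j : ℂ)) j).coeff k := by
  have h := Lagrange.eq_interpolate (s := Finset.range (n + 1)) (v := fun j : ℕ => (j : ℂ)) (f := pol b)
    (fun a _ b _ hab => Nat.cast_injective hab) (by
      refine Polynomial.degree_le_natDegree.trans_lt ?_
      rw [pol_deg, Finset.card_range]
      exact_mod_cast Nat.lt_succ_self n)
  conv_lhs => rw [h]
  rw [Lagrange.interpolate_apply, Polynomial.finsetSum_coeff]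
  refine Finset.sum_congr rfl fun j _ => ?_
  rw [Polynomial.coeff_C_mul, pol_eval]

private theorem coeff_an (R : RSys U r σ β) (k : ℕ) {x : E} (hx : x ∈ U) : AnalyticAt ℂ (fun x => (pol (β x)).coeff k) x := by
  have h : (fun x => (pol (β x)).coeff k) = fun x => ∑ j ∈ Finset.range (n + 1), (∏ i, ((j : ℂ) - β x i)) *
      (Lagrange.basis (Finset.range (n + 1)) (fun j : ℕ => (j : ℂ)) j).coeff k := funext fun x => coeff_eq _ _
  rw [h]
  refine Finset.analyticAt_fun_sum _ fun j _ => ?_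
  exact (R.norm_an (F := fun p => (j : ℂ) - p.2) (fun x _ w _ => analyticAt_const.sub analyticAt_snd) x hx).mul analyticAt_const

private theorem esymm_eq {n : ℕ} (b : Fin n → ℂ) {j : ℕ} (hj : j ≤ n) :
    MvPolynomial.aeval b (MvPolynomial.esymm (Fin n) ℂ j) = (-1) ^ j * (pol b).coeff (n - j) := by
  rw [MvPolynomial.aeval_esymm_eq_multiset_esymm]
  have hc : Multiset.card (Finset.univ.val.map b) = n := by simp
  have h := Multiset.prod_X_sub_C_coeff (Finset.univ.val.map b) (k := n - j) (by rw [hc]; exact Nat.sub_le _ _)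
  have hp : ((Finset.univ.val.map b).map fun t => Polynomial.X - Polynomial.C t).prod = pol b := by
    rw [Multiset.map_map]
    rfl
  rw [hp, hc, Nat.sub_sub_self hj] at h
  rw [h, ← mul_assoc, ← mul_pow]
  norm_num

theorem sym_an (R : RSys U r σ β) {p : MvPolynomial (Fin n) ℂ} (hp : p.IsSymmetric) : ∀ x ∈ U, AnalyticAt ℂ (fun x => MvPolynomial.eval (β x) p) x := by
  intro x hx
  set q := (MvPolynomial.esymmAlgEquiv (Fin n) ℂ (Fintype.card_fin n)).symm ⟨p, hp⟩ with hq
  have h1 : MvPolynomial.aeval (fun i : Fin n => MvPolynomial.esymm (Fin n) ℂ (i + 1)) q = p := by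
    have h2 : MvPolynomial.esymmAlgEquiv (Fin n) ℂ (Fintype.card_fin n) q = ⟨p, hp⟩ := by rw [hq, AlgEquiv.apply_symm_apply]
    have h3 := congrArg Subtype.val h2
    rw [← MvPolynomial.esymmAlgHom_apply]
    exact h3
  have h2 : (fun x => MvPolynomial.eval (β x) p) = fun x => MvPolynomial.aeval (fun i : Fin n => (-1 : ℂ) ^ ((i : ℕ) + 1) * (pol (β x)).coeff (n - (i + 1))) q := by
    funext y
    have h3 : MvPolynomial.eval (β y) p = MvPolynomial.aeval (β y) p := rfl
    rw [h3]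
    conv_lhs => rw [← h1]
    have h4 : (MvPolynomial.aeval (β y)) ((MvPolynomial.aeval fun i : Fin n => MvPolynomial.esymm (Fin n) ℂ (i + 1)) q) =
        MvPolynomial.aeval (fun i : Fin n => MvPolynomial.aeval (β y) (MvPolynomial.esymm (Fin n) ℂ (i + 1))) q := by
      rw [← AlgHom.comp_apply, MvPolynomial.comp_aeval]
    rw [h4]
    congr 2
    funext i
    exact esymm_eq (β y) i.2
  rw [h2]
  exact AnalyticAt.aeval_mvPolynomial (fun i => analyticAt_const.mul (coeff_an R _ hx)) q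

/-- the discriminant polynomial of a set of variables -/
private noncomputable def ddp {n : ℕ} (S : Finset (Fin n)) : MvPolynomial (Fin n) ℂ := ∏ p ∈ S.offDiag, (MvPolynomial.X p.1 - MvPolynomial.X p.2)

private theorem ddp_eval {n : ℕ} (S : Finset (Fin n)) (b : Fin n → ℂ) : MvPolynomial.eval b (ddp S) = dd b S := by
  simp [ddp, dd, map_prod]

private theorem ddp_rename {n : ℕ} (e : Equiv.Perm (Fin n)) (S : Finset (Fin n)) : MvPolynomial.rename e (ddp S) = ddp (S.map e.toEmbedding) := by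
  rw [ddp, ddp, map_prod]
  refine Finset.prod_bij (fun p _ => (e p.1, e p.2)) ?_ ?_ ?_ ?_
  · intro p hp
    rw [Finset.mem_offDiag] at hp ⊢
    exact ⟨Finset.mem_map_of_mem _ hp.1, Finset.mem_map_of_mem _ hp.2.1, fun h => hp.2.2 (e.injective h)⟩
  · intro p _ p' _ h
    rw [Prod.mk.injEq] at h
    exact Prod.ext (e.injective h.1) (e.injective h.2)
  · intro p hp
    rw [Finset.mem_offDiag] at hp
    obtain ⟨h1, h2, h3⟩ := hp
    rw [Finset.mem_map] at h1 h2
    obtain ⟨a, ha, ha'⟩ := h1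
    obtain ⟨c, hc, hc'⟩ := h2
    refine ⟨(a, c), ?_, Prod.ext ha' hc'⟩
    rw [Finset.mem_offDiag]
    refine ⟨ha, hc, fun h => h3 ?_⟩
    rw [← ha', ← hc', show a = c from h]
  · intro p _
    simp

private theorem sum_map {n q : ℕ} {M : Type} [AddCommMonoid M] (e : Equiv.Perm (Fin n)) (f : Finset (Fin n) → M) :
    ∑ S ∈ Finset.powersetCard q Finset.univ, f (S.map e.toEmbedding) = ∑ S ∈ Finset.powersetCard q (Finset.univ : Finset (Fin n)), f S := by
  refine Finset.sum_bij (fun S _ => S.map e.toEmbedding) ?_ ?_ ?_ (fun _ _ => rfl)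
  · intro S hS
    rw [Finset.mem_powersetCard] at hS ⊢
    exact ⟨Finset.subset_univ _, by rw [Finset.card_map]; exact hS.2⟩
  · intro S _ S' _ h
    exact Finset.map_injective _ h
  · intro S hS
    rw [Finset.mem_powersetCard] at hS
    refine ⟨S.map e.symm.toEmbedding, ?_, ?_⟩
    · rw [Finset.mem_powersetCard]
      exact ⟨Finset.subset_univ _, by rw [Finset.card_map]; exact hS.2⟩
    · ext i
      simp

private noncomputable def scp (n q : ℕ) : MvPolynomial (Fin n) ℂ := ∑ S ∈ Finset.powersetCard q Finset.univ, ddp S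

private theorem scp_sym (n q : ℕ) : (scp n q).IsSymmetric := by
  intro e
  rw [scp, map_sum]
  simp only [ddp_rename]
  exact sum_map e fun S => ddp S

private theorem scp_eval {n : ℕ} (q : ℕ) (b : Fin n → ℂ) : MvPolynomial.eval b (scp n q) = sc q b := by
  simp only [scp, sc, map_sum, ddp_eval]

private noncomputable def sdp (n q : ℕ) (t : ℂ) : MvPolynomial (Fin n) ℂ := ∑ S ∈ Finset.powersetCard q Finset.univ, ddp S * ∏ i ∈ S, (MvPolynomial.C t - MvPolynomial.X i)

private theorem sdp_sym (n q : ℕ) (t : ℂ) : (sdp n q t).IsSymmetric := by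
  intro e
  rw [sdp, map_sum]
  simp only [map_mul, ddp_rename]
  refine Eq.trans (Finset.sum_congr rfl fun S _ => ?_) (sum_map e fun S => ddp S * ∏ i ∈ S, (MvPolynomial.C t - MvPolynomial.X i))
  rw [map_prod, Finset.prod_map]
  simp

private theorem sdp_eval {n : ℕ} (q : ℕ) (b : Fin n → ℂ) (t : ℂ) : MvPolynomial.eval b (sdp n q t) = sd q b t := by
  simp only [sdp, sd, map_sum, map_mul, ddp_eval, map_prod, map_sub, MvPolynomial.eval_C, MvPolynomial.eval_X]

theorem sc_an (R : RSys U r σ β) (q : ℕ) : ∀ x ∈ U, AnalyticAt ℂ (fun x => sc q (β x)) x := by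
  intro x hx
  have h := sym_an R (scp_sym n q) x hx
  simpa only [scp_eval] using h

/-- `sd q b` as a polynomial -/
private noncomputable def sdq {n : ℕ} (q : ℕ) (b : Fin n → ℂ) : Polynomial ℂ := ∑ S ∈ Finset.powersetCard q Finset.univ, Polynomial.C (dd b S) * ∏ i ∈ S, (Polynomial.X - Polynomial.C (b i))

private theorem sdq_eval {n : ℕ} (q : ℕ) (b : Fin n → ℂ) (t : ℂ) : (sdq q b).eval t = sd q b t := by
  simp only [sdq, sd, Polynomial.eval_finsetSum, Polynomial.eval_mul, Polynomial.eval_C, Polynomial.eval_prod, Polynomial.eval_sub, Polynomial.eval_X]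

private theorem sdq_deg {n : ℕ} (q : ℕ) (b : Fin n → ℂ) : (sdq q b).degree < (Finset.range (q + 1)).card := by
  rw [Finset.card_range]
  refine lt_of_le_of_lt (Polynomial.degree_sum_le _ _) ?_
  rw [Finset.sup_lt_iff (by exact_mod_cast WithBot.bot_lt_coe _)]
  intro S hS
  rw [Finset.mem_powersetCard] at hS
  have h1 : (Polynomial.C (dd b S) * ∏ i ∈ S, (Polynomial.X - Polynomial.C (b i))).natDegree ≤ q := by
    refine (Polynomial.natDegree_C_mul_le _ _).trans ?_
    rw [Polynomial.natDegree_prod_of_monic _ _ (fun i _ => Polynomial.monic_X_sub_C _)]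
    simp [hS.2]
  refine lt_of_le_of_lt Polynomial.degree_le_natDegree ?_
  exact_mod_cast Nat.lt_succ_of_le h1

private theorem sd_int {n : ℕ} (q : ℕ) (b : Fin n → ℂ) (t : ℂ) :
    sd q b t = ∑ j ∈ Finset.range (q + 1), sd q b (j : ℂ) * (Lagrange.basis (Finset.range (q + 1)) (fun j : ℕ => (j : ℂ)) j).eval t := by
  have h := Lagrange.eq_interpolate (s := Finset.range (q + 1)) (v := fun j : ℕ => (j : ℂ)) (f := sdq q b)
    (fun a _ b _ hab => Nat.cast_injective hab) (sdq_deg q b)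
  rw [← sdq_eval q b t]
  conv_lhs => rw [h]
  rw [Lagrange.interpolate_apply, Polynomial.eval_finsetSum]
  refine Finset.sum_congr rfl fun j _ => ?_
  rw [Polynomial.eval_mul, Polynomial.eval_C, sdq_eval]

theorem sd_an (R : RSys U r σ β) (q : ℕ) : ∀ x ∈ U, ∀ t : ℂ, AnalyticAt ℂ (fun p : E × ℂ => sd q (β p.1) p.2) (x, t) := by
  intro x hx t
  have h : (fun p : E × ℂ => sd q (β p.1) p.2) = fun p : E × ℂ => ∑ j ∈ Finset.range (q + 1), sd q (β p.1) (j : ℂ) *
      (Lagrange.basis (Finset.range (q + 1)) (fun j : ℕ => (j : ℂ)) j).eval p.2 := funext fun p => sd_int q (β p.1) p.2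
  rw [h]
  refine Finset.analyticAt_fun_sum _ fun j _ => ?_
  have h1 : AnalyticAt ℂ (fun x => sd q (β x) (j : ℂ)) x := by
    have h2 := sym_an R (sdp_sym n q (j : ℂ)) x hx
    simpa only [sdp_eval] using h2
  refine (h1.comp_of_eq (analyticAt_fst (p := (x, t))) rfl).mul ?_
  exact (AnalyticOnNhd.eval_polynomial (A := ℂ) _ t (Set.mem_univ t)).comp_of_eq (analyticAt_snd (p := (x, t))) rfl

theorem pr_an (R : RSys U r σ β) : ∀ x ∈ U, ∀ t : ℂ, AnalyticAt ℂ (fun p : E × ℂ => ∏ i, (p.2 - β p.1 i)) (x, t) := by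
  intro x hx t
  have h : (fun p : E × ℂ => ∏ i, (p.2 - β p.1 i)) = fun p => ∑ k ∈ Finset.range (n + 1), (pol (β p.1)).coeff k * p.2 ^ k := funext fun p => pol_sum _ _
  rw [h]
  refine Finset.analyticAt_fun_sum _ fun k _ => ?_
  exact ((coeff_an R k hx).comp_of_eq (analyticAt_fst (p := (x, t))) rfl).mul (analyticAt_snd.pow k)

end Pool.Agent.G4.RE

end

section

/-!
# GU Defs: finite étale coverings of projective varieties
-/

set_option autoImplicit false

open Topology Filter MvPolynomial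

noncomputable section

namespace Pool.Agent.H23.GU

open Pool.Agent.H17 (PN)
open Pool.Agent.H17EF (projVar)

variable {N M : ℕ}

/-- `p` is a finite étale covering `X' → X` of projective varieties: a surjective regular map which is locally injective and has local holomorphic
sections through every point of `X'`. -/
structure IsEtaleCovering (P : Ideal (MvPolynomial (Fin (N + 1)) ℂ)) (P' : Ideal (MvPolynomial (Fin (M + 1)) ℂ)) (p : PN M → PN N) : Prop where
  /-- `p` maps `X'` to `X` -/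
  maps : ∀ y ∈ projVar P', p y ∈ projVar P
  /-- `p` is surjective -/
  surj : ∀ x ∈ projVar P, ∃ y ∈ projVar P', p y = x
  /-- near every point of `X'` the map `p` is given by forms of the same degree -/
  regular : ∀ y ∈ projVar P', ∃ (D : ℕ) (γ : Fin (N + 1) → MvPolynomial (Fin (M + 1)) ℂ), (∀ i, (γ i).IsHomogeneous D) ∧
    (∃ i, eval y.rep (γ i) ≠ 0) ∧ ∀ y' ∈ projVar P', ∀ h : (fun i => eval y'.rep (γ i)) ≠ 0, p y' = Projectivization.mk ℂ (fun i => eval y'.rep (γ i)) h
  /-- `p` is locally injective -/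
  locInj : ∀ (y : Fin (M + 1) → ℂ) (hy : y ≠ 0), Projectivization.mk ℂ y hy ∈ projVar P' → ∀ᶠ q in 𝓝 (y, y), ∀ (h : q.1 ≠ 0) (h' : q.2 ≠ 0),
    Projectivization.mk ℂ q.1 h ∈ projVar P' → Projectivization.mk ℂ q.2 h' ∈ projVar P' →
      p (Projectivization.mk ℂ q.1 h) = p (Projectivization.mk ℂ q.2 h') → Projectivization.mk ℂ q.1 h = Projectivization.mk ℂ q.2 h'
  /-- local holomorphic sections -/
  locSec : ∀ (y : Fin (M + 1) → ℂ) (hy : y ≠ 0), Projectivization.mk ℂ y hy ∈ projVar P' →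
    ∃ (x : Fin (N + 1) → ℂ) (hx : x ≠ 0) (τ : (Fin (N + 1) → ℂ) → Fin (M + 1) → ℂ), p (Projectivization.mk ℂ y hy) = Projectivization.mk ℂ x hx ∧
      AnalyticAt ℂ τ x ∧ τ x = y ∧ ∀ᶠ x' in 𝓝 x, ∀ h : x' ≠ 0, Projectivization.mk ℂ x' h ∈ projVar P →
        ∃ h' : τ x' ≠ 0, Projectivization.mk ℂ (τ x') h' ∈ projVar P' ∧ p (Projectivization.mk ℂ (τ x') h') = Projectivization.mk ℂ x' h

end Pool.Agent.H23.GU

end
end

section

/-!
# The ideal of a holomorphic map

`mapIdeal f U`: the polynomials which vanish on the cone over `f U`.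

* `mem_mapIdeal_form`: `eval_smul_form`; `VanishesAt Q x` is `eval x.rep Q = 0`; take `c = 1` for one direction.
* `mapIdeal_homog`: for fixed `z ∈ U`: `eval (c • x) Q = ∑ k, c ^ k * eval x (homogeneousComponent k Q)` is a polynomial in `c`
  which vanishes for all `c`, so all coefficients vanish (e.g. `Polynomial.funext`, or the lemma
  `Pool.Agent.H62.FC.eval_homogeneousComponent_eq_zero` in `Pool/Agent/H62/FC/CurveIdeal.lean`).
* `mapIdeal_isPrime`: `1` is not in it (`U ≠ ∅`).  Let `A * B ∈ I`, `A ∉ I`, `B ∉ I`.  There are homogeneous components `A_k`,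
  `B_l` not in `I` (`sum_homogeneousComponent`, ideal), i.e. `VanishesAt A_k (f z)` fails for some `z ∈ U`.  For a form `R` the set
  of the `z₀ ∈ U` with `VanishesAt R (f z)` for all `z` near `z₀` is open, and so is the set of the `z₀ ∈ U` with
  `¬ VanishesAt R (f z)` for all `z ≠ z₀` near `z₀`; they cover `U` (local lift `φ` of `f`, `z ↦ eval (φ z) R` is analytic at
  `z₀`, `AnalyticAt.eventually_eq_zero_or_eventually_ne_zero`, `vanishesAt_mk`); `U` is preconnected, so one of them is `U`;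
  if `R ∉ I` it is the second one.  So near a point `z₀ ∈ U`, for `z ≠ z₀`, both `A_k` and `B_l` do not vanish at `f z`.  For
  such a `z ∈ U` the polynomials `c ↦ eval (c • x) A`, `c ↦ eval (c • x) B` (`x = (f z).rep`) are not zero (their coefficients at
  `c ^ k`, `c ^ l` are `eval x A_k ≠ 0`, `eval x B_l ≠ 0`), their product is zero for all `c`: contradiction.
-/

open Topology Filter MvPolynomial

noncomputable section

namespace Pool.Agent.H17BP

open Pool.Agent.H17 (PN VanishesAt ZariskiClosedIn HolomorphicInto puncturedDisc)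
open Pool.Agent.H62.FC (Homog)

variable {N : ℕ} {f : ℂ → PN N} {U : Set ℂ}

/-- The ideal of the polynomials which vanish on the cone over `f U`. -/
def mapIdeal (f : ℂ → PN N) (U : Set ℂ) : Ideal (MvPolynomial (Fin (N + 1)) ℂ) where
  carrier := {Q | ∀ z ∈ U, ∀ c : ℂ, eval (c • (f z).rep) Q = 0}
  add_mem' := by
    intro A B hA hB z hz c
    rw [map_add, hA z hz c, hB z hz c, add_zero]
  zero_mem' := by
    intro z _ c
    rw [map_zero]
  smul_mem' := by
    intro A B hB z hz c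
    rw [smul_eq_mul, map_mul, hB z hz c, mul_zero]

/-- The polynomial `c ↦ Q (c x)`. -/
private def MapIdeal_poly (x : Fin (N + 1) → ℂ) (Q : MvPolynomial (Fin (N + 1)) ℂ) : Polynomial ℂ :=
  ∑ k ∈ Finset.range (Q.totalDegree + 1), Polynomial.C (eval x (homogeneousComponent k Q)) * Polynomial.X ^ k

private lemma MapIdeal_poly_eval (x : Fin (N + 1) → ℂ) (Q : MvPolynomial (Fin (N + 1)) ℂ) (c : ℂ) :
    (MapIdeal_poly x Q).eval c = eval (c • x) Q := by
  conv_rhs => rw [← MvPolynomial.sum_homogeneousComponent Q]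
  rw [MapIdeal_poly, Polynomial.eval_finsetSum, map_sum]
  refine Finset.sum_congr rfl fun k _ => ?_
  rw [eval_smul_form (homogeneousComponent_isHomogeneous k Q)]
  rw [Polynomial.eval_mul, Polynomial.eval_C, Polynomial.eval_pow, Polynomial.eval_X, mul_comm]

private lemma MapIdeal_poly_coeff (x : Fin (N + 1) → ℂ) (Q : MvPolynomial (Fin (N + 1)) ℂ) (n : ℕ) :
    (MapIdeal_poly x Q).coeff n = eval x (homogeneousComponent n Q) := by
  rw [MapIdeal_poly, Polynomial.finsetSum_coeff]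
  simp only [Polynomial.coeff_C_mul, Polynomial.coeff_X_pow]
  by_cases hn : n ∈ Finset.range (Q.totalDegree + 1)
  · rw [Finset.sum_eq_single n]
    · simp
    · intro b _ hb
      rw [if_neg hb.symm, mul_zero]
    · intro h
      exact absurd hn h
  · rw [Finset.sum_eq_zero, homogeneousComponent_eq_zero, map_zero]
    · rw [Finset.mem_range] at hn
      omega
    · intro k hk
      rw [if_neg, mul_zero]
      rintro rfl
      exact hn hk

private lemma MapIdeal_comp {x : Fin (N + 1) → ℂ} {Q : MvPolynomial (Fin (N + 1)) ℂ}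
    (h : ∀ c : ℂ, eval (c • x) Q = 0) (n : ℕ) : eval x (homogeneousComponent n Q) = 0 := by
  have h1 : MapIdeal_poly x Q = 0 := by
    apply Polynomial.funext
    intro c
    rw [MapIdeal_poly_eval, h c, Polynomial.eval_zero]
  rw [← MapIdeal_poly_coeff, h1, Polynomial.coeff_zero]

theorem mem_mapIdeal_form {d : ℕ} {Q : MvPolynomial (Fin (N + 1)) ℂ} (hQ : Q.IsHomogeneous d) :
    Q ∈ mapIdeal f U ↔ ∀ z ∈ U, VanishesAt Q (f z) := by
  constructor
  · intro h z hz
    have h1 := h z hz 1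
    rw [one_smul] at h1
    exact h1
  · intro h z hz c
    have h1 : eval (f z).rep Q = 0 := h z hz
    rw [eval_smul_form hQ, h1, mul_zero]

theorem mapIdeal_homog : Homog (mapIdeal f U) := by
  intro Q hQ n z hz c
  rw [eval_smul_form (homogeneousComponent_isHomogeneous n Q), MapIdeal_comp (hQ z hz) n, mul_zero]

private lemma MapIdeal_analytic {φ : ℂ → Fin (N + 1) → ℂ} {z₀ : ℂ} (hφ : AnalyticAt ℂ φ z₀)
    (R : MvPolynomial (Fin (N + 1)) ℂ) : AnalyticAt ℂ (fun z => eval (φ z) R) z₀ := by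
  have hi : ∀ i, AnalyticAt ℂ (fun z => φ z i) z₀ := fun i =>
    (ContinuousLinearMap.proj (R := ℂ) (φ := fun _ : Fin (N + 1) => ℂ) i).analyticAt _ |>.comp hφ
  induction R using MvPolynomial.induction_on with
  | C a =>
    simp only [eval_C]
    exact analyticAt_const
  | add p q hp hq =>
    simp only [map_add]
    exact hp.add hq
  | mul_X p i hp =>
    simp only [map_mul, eval_X]
    exact hp.mul (hi i)

private lemma MapIdeal_notMem (hUc : IsPreconnected U) (hf : HolomorphicInto f U)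
    {d : ℕ} {R : MvPolynomial (Fin (N + 1)) ℂ} (hR : R.IsHomogeneous d) (hRI : R ∉ mapIdeal f U) {z₀ : ℂ}
    (hz₀ : z₀ ∈ U) : ∀ᶠ z in 𝓝[≠] z₀, ¬ VanishesAt R (f z) := by
  have hu : IsOpen {x : ℂ | ∀ᶠ z in 𝓝 x, VanishesAt R (f z)} := isOpen_setOfPred_eventually_nhds
  have hv : IsOpen {x : ℂ | ∀ᶠ z in 𝓝[≠] x, ¬ VanishesAt R (f z)} := isOpen_setOfPred_eventually_nhdsWithin
  have hcov : U ⊆ {x : ℂ | ∀ᶠ z in 𝓝 x, VanishesAt R (f z)} ∪
      {x : ℂ | ∀ᶠ z in 𝓝[≠] x, ¬ VanishesAt R (f z)} := by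
    intro z₁ hz₁
    obtain ⟨φ, hφ, he⟩ := hf z₁ hz₁
    rcases (MapIdeal_analytic hφ R).eventually_eq_zero_or_eventually_ne_zero with h | h
    · left
      change ∀ᶠ z in 𝓝 z₁, VanishesAt R (f z)
      filter_upwards [h, he] with z h1 h2
      obtain ⟨h3, h4⟩ := h2
      rw [h4, vanishesAt_mk hR]
      exact h1
    · right
      change ∀ᶠ z in 𝓝[≠] z₁, ¬ VanishesAt R (f z)
      filter_upwards [h, he.filter_mono nhdsWithin_le_nhds] with z h1 h2
      obtain ⟨h3, h4⟩ := h2
      rw [h4, vanishesAt_mk hR]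
      exact h1
  by_contra hcon
  have h1 : z₀ ∈ {x : ℂ | ∀ᶠ z in 𝓝 x, VanishesAt R (f z)} := (hcov hz₀).resolve_right hcon
  apply hRI
  rw [mem_mapIdeal_form hR]
  intro z hz
  rcases hcov hz with h2 | h2
  · have h3 : ∀ᶠ w in 𝓝 z, VanishesAt R (f w) := h2
    exact h3.self_of_nhds
  · exfalso
    obtain ⟨w, -, hw1, hw2⟩ := hUc _ _ hu hv hcov ⟨z₀, hz₀, h1⟩ ⟨z, hz, h2⟩
    have h3 : ∀ᶠ z in 𝓝 w, VanishesAt R (f z) := hw1
    have h4 : ∀ᶠ z in 𝓝[≠] w, ¬ VanishesAt R (f z) := hw2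
    obtain ⟨t, ht1, ht2⟩ := ((h3.filter_mono nhdsWithin_le_nhds).and h4).exists
    exact ht2 ht1

theorem mapIdeal_isPrime (hUo : IsOpen U) (hUc : IsPreconnected U) (hne : U.Nonempty) (hf : HolomorphicInto f U) :
    (mapIdeal f U).IsPrime := by
  obtain ⟨z₀, hz₀⟩ := hne
  have hcomp : ∀ A : MvPolynomial (Fin (N + 1)) ℂ, A ∉ mapIdeal f U →
      ∃ k, homogeneousComponent k A ∉ mapIdeal f U := by
    intro A hA
    by_contra hcon
    push Not at hcon
    apply hA
    rw [← MvPolynomial.sum_homogeneousComponent A]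
    exact Ideal.sum_mem _ fun i _ => hcon i
  refine ⟨?_, ?_⟩
  · intro htop
    have h1 : (1 : MvPolynomial (Fin (N + 1)) ℂ) ∈ mapIdeal f U := by
      rw [htop]
      trivial
    have h2 := h1 z₀ hz₀ 1
    rw [map_one] at h2
    exact one_ne_zero h2
  · intro A B hAB
    by_contra hcon
    push Not at hcon
    obtain ⟨k, hk⟩ := hcomp A hcon.1
    obtain ⟨l, hl⟩ := hcomp B hcon.2
    have h1 := MapIdeal_notMem hUc hf (homogeneousComponent_isHomogeneous k A) hk hz₀
    have h2 := MapIdeal_notMem hUc hf (homogeneousComponent_isHomogeneous l B) hl hz₀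
    have h3' : ∀ᶠ z in 𝓝 z₀, z ∈ U := hUo.mem_nhds hz₀
    have h3 : ∀ᶠ z in 𝓝[≠] z₀, z ∈ U := h3'.filter_mono nhdsWithin_le_nhds
    obtain ⟨z, ⟨h4, h5⟩, h6⟩ := ((h1.and h2).and h3).exists
    have h7 : MapIdeal_poly (f z).rep A * MapIdeal_poly (f z).rep B = 0 := by
      apply Polynomial.funext
      intro c
      rw [Polynomial.eval_mul, MapIdeal_poly_eval, MapIdeal_poly_eval, ← map_mul, Polynomial.eval_zero]
      exact hAB z h6 c
    rcases mul_eq_zero.1 h7 with h8 | h8
    · apply h4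
      change eval (f z).rep (homogeneousComponent k A) = 0
      rw [← MapIdeal_poly_coeff, h8, Polynomial.coeff_zero]
    · apply h5
      change eval (f z).rep (homogeneousComponent l B) = 0
      rw [← MapIdeal_poly_coeff, h8, Polynomial.coeff_zero]

theorem exists_X_notMem (hne : U.Nonempty) : ∃ i, (X i : MvPolynomial (Fin (N + 1)) ℂ) ∉ mapIdeal f U := by
  obtain ⟨z, hz⟩ := hne
  by_contra hcon
  push Not at hcon
  apply (f z).rep_nonzero
  funext i
  have h1 := hcon i z hz 1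
  rw [one_smul, eval_X] at h1
  exact h1

theorem mem_variety_mapIdeal {z : ℂ} (hz : z ∈ U) : f z ∈ variety (mapIdeal f U) := by
  refine ⟨fun Q hQ n hn => (mem_mapIdeal_form hn).1 hQ z hz, fun m => m.elim0⟩

theorem le_mapIdeal {P : Ideal (MvPolynomial (Fin (N + 1)) ℂ)} (hP : Homog P) (h : ∀ z ∈ U, f z ∈ variety P) :
    P ≤ mapIdeal f U := by
  intro Q hQ
  rw [← MvPolynomial.sum_homogeneousComponent Q]
  refine Ideal.sum_mem _ fun i _ => ?_
  rw [mem_mapIdeal_form (homogeneousComponent_isHomogeneous i Q)]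
  exact fun z hz => (h z hz).1 _ (hP Q hQ i) i (homogeneousComponent_isHomogeneous i Q)

end Pool.Agent.H17BP

end
end

section

/-!
# PX FrB: the theta factors, and two vectors `b`, `b'` for which `Fo θ · b` and `Fo θ · b'` have no common zeros in codimension one
-/

set_option autoImplicit false

open Topology Filter Metric Polynomial

namespace Pool.Agent.PX

open Pool.Agent.H36.BP (EN fs wd)
open Pool.Agent.AD (Vd)
open Pool.Agent.TG (Lat)
open Pool.Agent.G3 (wt)
open Pool.Agent.G4.H (ThF)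

variable {k d r : ℕ}

private theorem id_thm {m : ℕ} {f : Vd m → ℂ} (hf : ∀ y, AnalyticAt ℂ f y) {y₀ : Vd m} (h : ∀ᶠ y in 𝓝 y₀, f y = 0) (y : Vd m) : f y = 0 :=
  AnalyticOnNhd.eqOn_zero_of_preconnected_of_eventuallyEq_zero (f := f) (U := Set.univ) (fun z _ => hf z) isPreconnected_univ (Set.mem_univ y₀) h (Set.mem_univ y)

/-- entire functions with the same modulus -/
private theorem same_norm {m : ℕ} {f g : Vd m → ℂ} (hf : ∀ y, AnalyticAt ℂ f y) (hg : ∀ y, AnalyticAt ℂ g y) (hfg : ∀ y, ‖f y‖ = ‖g y‖) (h0 : ∃ y, g y ≠ 0) :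
    ∃ c : ℂ, ‖c‖ = 1 ∧ ∀ y, f y = c * g y := by
  obtain ⟨y₀, hy₀⟩ := h0
  have hq : AnalyticAt ℂ (fun y => f y / g y) y₀ := (hf y₀).div (hg y₀) hy₀
  have hn : ∀ᶠ y in 𝓝 y₀, ‖f y / g y‖ = 1 := by
    filter_upwards [(hg y₀).continuousAt.eventually_ne hy₀] with y hy
    rw [norm_div, hfg y, div_self (norm_ne_zero_iff.2 hy)]
  rcases hq.eventually_constant_or_nhds_le_map_nhds with h | h
  · refine ⟨f y₀ / g y₀, hn.self_of_nhds, fun y => ?_⟩
    have h1 : ∀ᶠ y in 𝓝 y₀, f y - f y₀ / g y₀ * g y = 0 := by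
      filter_upwards [h, (hg y₀).continuousAt.eventually_ne hy₀] with y hy hy2
      rw [← hy, div_mul_cancel₀ _ hy2, sub_self]
    exact sub_eq_zero.1 (id_thm (f := fun y => f y - f y₀ / g y₀ * g y) (fun y => (hf y).sub (analyticAt_const.mul (hg y))) h1 y)
  · exfalso
    have h1 : ∀ᶠ w in 𝓝 (f y₀ / g y₀), ‖w‖ = 1 := h hn
    have h2 : Tendsto (fun t : ℝ => ((1 + t : ℝ) : ℂ) * (f y₀ / g y₀)) (𝓝 0) (𝓝 (f y₀ / g y₀)) := by
      have h3 : ContinuousAt (fun t : ℝ => ((1 + t : ℝ) : ℂ) * (f y₀ / g y₀)) 0 := by fun_prop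
      have h4 := h3.tendsto
      simpa using h4
    have h5 := h2.eventually h1
    obtain ⟨ε, hε, h6⟩ := Metric.eventually_nhds_iff_ball.1 h5
    have h7 := h6 (ε / 2) (by rw [mem_ball_zero_iff, Real.norm_of_nonneg (by positivity)]; linarith)
    rw [norm_mul, hn.self_of_nhds, mul_one, Complex.norm_real, Real.norm_of_nonneg (by positivity)] at h7
    linarith

/-- the exponent of the theta factor -/
private noncomputable def ax (W : Fin r → Vd (k + 1) →L[ℂ] ℂ) (l y : Vd (k + 1)) : ℂ := ∑ i, (2 * (starRingEnd ℂ) (W i l) * W i y + (starRingEnd ℂ) (W i l) * W i l)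

private theorem ax_re (W : Fin r → Vd (k + 1) →L[ℂ] ℂ) (l y : Vd (k + 1)) : (ax W l y).re = wt W (y + l) - wt W y := by
  unfold ax wt
  rw [Complex.re_sum, ← Finset.sum_sub_distrib]
  refine Finset.sum_congr rfl fun i _ => ?_
  rw [map_add, Complex.sq_norm, Complex.sq_norm, Complex.normSq_apply, Complex.normSq_apply]
  simp only [Complex.add_re, Complex.add_im, Complex.mul_re, Complex.mul_im, Complex.conj_re, Complex.conj_im]
  norm_num
  ring

private theorem ax_an (W : Fin r → Vd (k + 1) →L[ℂ] ℂ) (l y : Vd (k + 1)) : AnalyticAt ℂ (ax W l) y := by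
  unfold ax
  refine Finset.analyticAt_fun_sum _ fun i _ => ?_
  exact (analyticAt_const.mul ((W i).analyticAt y)).add analyticAt_const

theorem exists_thf {Λ : AddSubgroup (Vd (k + 1))} {W : Fin r → Vd (k + 1) →L[ℂ] ℂ} (hΛ : Lat Λ) (hpos : ∀ y, (∀ i, W i y = 0) → y = 0) {f : Vd (k + 1) → ℂ} (hf : ∀ y, AnalyticAt ℂ f y) (h0 : ∃ y, f y ≠ 0)
    (hper : ∀ l ∈ Λ, ∀ y, ‖f (y + l)‖ * Real.exp (-wt W (y + l)) = ‖f y‖ * Real.exp (-wt W y)) : ∃ e : Vd (k + 1) → Vd (k + 1) → ℂ, ThF Λ W e := by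
  classical
  have hfl : ∀ l y, AnalyticAt ℂ (fun y => f (y + l)) y := fun l y => AnalyticAt.fun_comp (g := f) (hf _) (analyticAt_id.add analyticAt_const)
  have key : ∀ l : Vd (k + 1), ∃ c : ℂ, l ∈ Λ → (‖c‖ = 1 ∧ ∀ y, f (y + l) * Complex.exp (-ax W l y) = c * f y) := by
    intro l
    by_cases hl : l ∈ Λ
    · obtain ⟨c, hc1, hc2⟩ := same_norm (f := fun y => f (y + l) * Complex.exp (-ax W l y)) (g := f) (fun y => (hfl l y).mul ((ax_an W l y).neg).cexp) hf (by
        intro y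
        have h1 := hper l hl y
        rw [norm_mul, Complex.norm_exp, Complex.neg_re, ax_re]
        have h2 : Real.exp (-(wt W (y + l) - wt W y)) = Real.exp (-wt W (y + l)) * Real.exp (wt W y) := by
          rw [← Real.exp_add]
          congr 1
          ring
        rw [h2, ← mul_assoc, h1, mul_assoc, ← Real.exp_add, neg_add_cancel, Real.exp_zero, mul_one]) h0
      exact ⟨c, fun _ => ⟨hc1, hc2⟩⟩
    · exact ⟨1, fun h => absurd h hl⟩
  choose c hc using key
  have hE : ∀ l ∈ Λ, ∀ y, (c l)⁻¹ * Complex.exp (-ax W l y) * f (y + l) = f y := by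
    intro l hl y
    obtain ⟨h1, h2⟩ := hc l hl
    have h3 : c l ≠ 0 := by
      intro h
      rw [h, norm_zero] at h1
      exact zero_ne_one h1
    have h4 := h2 y
    calc (c l)⁻¹ * Complex.exp (-ax W l y) * f (y + l) = (c l)⁻¹ * (f (y + l) * Complex.exp (-ax W l y)) := by ring
      _ = f y := by rw [h4, inv_mul_cancel_left₀ h3]
  have hEan : ∀ l y, AnalyticAt ℂ (fun y => (c l)⁻¹ * Complex.exp (-ax W l y)) y := fun l y => analyticAt_const.mul ((ax_an W l y).neg).cexp
  refine ⟨fun l y => (c l)⁻¹ * Complex.exp (-ax W l y), hΛ, hpos, fun l _ y => hEan l y, ?_, ?_⟩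
  · intro l hl y
    rw [norm_mul, norm_inv, (hc l hl).1, inv_one, one_mul, Complex.norm_exp, Complex.neg_re, ax_re]
    congr 1
    ring
  · intro l hl l' hl' y
    obtain ⟨y₁, hy₁⟩ := h0
    have hll := Λ.add_mem hl hl'
    have h1 : ∀ y, ((c (l + l'))⁻¹ * Complex.exp (-ax W (l + l') y) - (c l)⁻¹ * Complex.exp (-ax W l (y + l')) * ((c l')⁻¹ * Complex.exp (-ax W l' y))) * f (y + (l + l')) = 0 := by
      intro y
      have e1 := hE (l + l') hll y
      have e2 := hE l hl (y + l')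
      have e3 := hE l' hl' y
      have e4 : y + (l + l') = y + l' + l := by abel
      rw [e4] at e1 ⊢
      linear_combination e1 - (c l')⁻¹ * Complex.exp (-ax W l' y) * e2 - e3
    have h2 : ∀ᶠ y in 𝓝 (y₁ - (l + l')), ((c (l + l'))⁻¹ * Complex.exp (-ax W (l + l') y) - (c l)⁻¹ * Complex.exp (-ax W l (y + l')) * ((c l')⁻¹ * Complex.exp (-ax W l' y))) = 0 := by
      have h3 : f (y₁ - (l + l') + (l + l')) ≠ 0 := by rwa [sub_add_cancel]
      filter_upwards [(hfl (l + l') (y₁ - (l + l'))).continuousAt.eventually_ne h3] with y hy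
      exact (mul_eq_zero.1 (h1 y)).resolve_right hy
    have h3 := id_thm (f := fun y => (c (l + l'))⁻¹ * Complex.exp (-ax W (l + l') y) - (c l)⁻¹ * Complex.exp (-ax W l (y + l')) * ((c l')⁻¹ * Complex.exp (-ax W l' y)))
      (fun y => (hEan (l + l') y).sub ((AnalyticAt.fun_comp (g := fun y => (c l)⁻¹ * Complex.exp (-ax W l y)) (hEan l _) (analyticAt_id.add analyticAt_const)).mul (hEan l' y))) h2 y
    exact sub_eq_zero.1 h3

/-- the vector `(t, 1)` -/
private noncomputable def tv (t : ℂ) : EN 1 := WithLp.toLp 2 ![t, 1]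

private theorem fo_tv (θ : Fin (d + 1) → Vd (k + 1) → ℂ) (y : Vd (k + 1)) (t : ℂ) : Fo θ y (tv t) = ∑ i : Fin (d + 1), θ i y * t ^ (i : ℕ) := by
  unfold Fo
  refine Finset.sum_congr rfl fun i _ => ?_
  have e0 : tv t 0 = t := rfl
  have e1 : tv t 1 = 1 := rfl
  rw [e0, e1, one_pow, mul_one]

private theorem fin_tv {θ : Fin (d + 1) → Vd (k + 1) → ℂ} {y : Vd (k + 1)} (h : ∃ i, θ i y ≠ 0) : {t : ℂ | Fo θ y (tv t) = 0}.Finite := by
  obtain ⟨i, hi⟩ := h
  set p : ℂ[X] := ∑ i : Fin (d + 1), C (θ i y) * X ^ (i : ℕ) with hp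
  have hpi : p.coeff (i : ℕ) = θ i y := by
    rw [hp, finset_sum_coeff, Finset.sum_eq_single i]
    · simp
    · intro j _ hj
      rw [coeff_C_mul_X_pow, if_neg]
      intro h
      exact hj (Fin.ext h.symm)
    · intro h
      exact absurd (Finset.mem_univ i) h
  have hp0 : p ≠ 0 := by
    intro h
    rw [h, coeff_zero] at hpi
    exact hi hpi.symm
  refine (p.roots.toFinset.finite_toSet).subset fun t ht => ?_
  rw [Finset.mem_coe, Multiset.mem_toFinset, mem_roots hp0, IsRoot.def, hp, eval_finset_sum]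
  simp only [eval_mul, eval_C, eval_pow, eval_X]
  rw [← fo_tv]
  exact ht

theorem exists_bb {θ : Fin (d + 1) → Vd (k + 1) → ℂ} (hnv : ∀ y, (∀ i, θ i y = 0) → ∀ b : EN 1, ∃ᶠ z in 𝓝 y, Fo θ z b = 0 ∧ ∃ i, θ i z ≠ 0) (h0 : ∃ y, ∃ i, θ i y ≠ 0) :
    ∃ b b' : EN 1, (∃ y, Fo θ y b ≠ 0) ∧ ∀ y, Fo θ y b = 0 → ∃ᶠ z in 𝓝 y, Fo θ z b = 0 ∧ Fo θ z b' ≠ 0 := by
  obtain ⟨y₀, hy₀⟩ := h0
  obtain ⟨t, ht⟩ : ∃ t : ℂ, t ∉ {t : ℂ | Fo θ y₀ (tv t) = 0} := by
    by_contra hn
    push Not at hn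
    exact Set.infinite_univ ((fin_tv hy₀).subset fun t _ => hn t)
  set S : Set (Vd (k + 1)) := {z | Fo θ z (tv t) = 0 ∧ ∃ i, θ i z ≠ 0} with hS
  obtain ⟨Q, hQS, hQc, hQd⟩ := (TopologicalSpace.IsSeparable.of_separableSpace S).exists_countable_dense_subset
  have hc : (⋃ z ∈ Q, {t : ℂ | Fo θ z (tv t) = 0}).Countable := hQc.biUnion fun z hz => (fin_tv (hQS hz).2).countable
  obtain ⟨t', ht'⟩ : ∃ t' : ℂ, t' ∉ ⋃ z ∈ Q, {t : ℂ | Fo θ z (tv t) = 0} := by
    by_contra hn
    push Not at hn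
    exact not_countable_complex (hc.mono fun t _ => hn t)
  refine ⟨tv t, tv t', ⟨y₀, ht⟩, fun y hy => ?_⟩
  have h1 : y ∈ closure S := by
    by_cases hy2 : ∃ i, θ i y ≠ 0
    · exact subset_closure ⟨hy, hy2⟩
    · push Not at hy2
      exact mem_closure_iff_frequently.2 (hnv y hy2 (tv t))
  have h2 : y ∈ closure Q := closure_minimal hQd isClosed_closure h1
  refine (mem_closure_iff_frequently.1 h2).mono fun z hz => ⟨(hQS hz).1, fun h => ht' ?_⟩
  exact Set.mem_biUnion hz h

end Pool.Agent.PX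

end
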