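import Pool.Agent.H94.PX2.M04
import Pool.Agent.H94.PX2.M10

/-! The parts of this file: H17.AhlforsCore, H92.GGL.Vanish. -/

section

/-!
# The pointwise inequality behind the Ahlfors–Schwarz lemma

If `Re H + α log ∑ exp (Re Lᵢ) + β log (R² - |z|²)` has a local maximum at `z₀`, with `H`, `Lᵢ`
holomorphic, then the curvature term of the middle summand is bounded by that of the last one.
-/

open Topology Filter Complex ComplexConjugate

namespace Pool.Agent.H17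

/-- Second derivative test at a local maximum. -/
lemma second_deriv_nonpos {f f' : ℝ → ℝ} {c : ℝ} (h1 : ∀ᶠ s in 𝓝 (0 : ℝ), HasDerivAt f (f' s) s)
    (h2 : HasDerivAt f' c 0) (hmax : IsLocalMax f 0) : c ≤ 0 := by
  by_contra hc
  push Not at hc
  have hd0 : f' 0 = 0 := hmax.hasDerivAt_eq_zero h1.self_of_nhds
  have hde : deriv f =ᶠ[𝓝 0] f' := h1.mono fun s hs => hs.deriv
  have hdd : deriv (deriv f) 0 = c := by
    rw [hde.deriv_eq, h2.deriv]
  have hmin : IsLocalMin f 0 := isLocalMin_of_deriv_deriv_pos (by rw [hdd]; exact hc)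
    (by rw [h1.self_of_nhds.deriv, hd0]) h1.self_of_nhds.continuousAt
  have hconst : f =ᶠ[𝓝 0] fun _ => f 0 := by
    filter_upwards [hmin, hmax] with s h3 h4
    exact le_antisymm h4 h3
  have h5 : deriv f =ᶠ[𝓝 0] fun _ => (0 : ℝ) := by
    have := hconst.deriv
    refine this.trans ?_
    refine Eventually.of_forall fun s => ?_
    simp
  have h6 : deriv (deriv f) 0 = 0 := by
    rw [h5.deriv_eq]; simp
  rw [hdd] at h6
  linarith

/-- The real part of a holomorphic function along a real line. -/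
lemma hasDerivAt_re_line {L : ℂ → ℂ} {L' : ℂ} {z₀ v : ℂ} {s : ℝ}
    (h : HasDerivAt L L' (z₀ + s * v)) :
    HasDerivAt (fun t : ℝ => (L (z₀ + t * v)).re) (L' * v).re s := by
  have hγ : HasDerivAt (fun t : ℝ => z₀ + (t : ℂ) * v) v s := by
    have h0 : HasDerivAt (fun t : ℝ => (t : ℂ)) 1 s := Complex.ofRealCLM.hasDerivAt
    simpa using (h0.mul_const v).const_add z₀
  have h1 : HasDerivAt (fun t : ℝ => L (z₀ + (t : ℂ) * v)) (v • L') s := by
    have := HasDerivAt.scomp s h hγ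
    exact this
  have h2 := (Complex.reCLM.hasFDerivAt.comp_hasDerivAt s h1)
  have h3 : Complex.reCLM (v • L') = (L' * v).re := by
    simp [mul_comm]
  rw [← h3]
  exact h2

lemma hasDerivAt_line {L : ℂ → ℂ} (z₀ v : ℂ) (hL : AnalyticAt ℂ L z₀) :
    (∀ᶠ s : ℝ in 𝓝 (0 : ℝ), HasDerivAt (fun t : ℝ => (L (z₀ + t * v)).re)
      (deriv L (z₀ + s * v) * v).re s) ∧
    HasDerivAt (fun s : ℝ => (deriv L (z₀ + s * v) * v).re) (deriv (deriv L) z₀ * v * v).re 0 := by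
  constructor
  · have hev : ∀ᶠ z in 𝓝 z₀, HasDerivAt L (deriv L z) z :=
      hL.eventually_analyticAt.mono fun z hz => hz.differentiableAt.hasDerivAt
    have hcont : Tendsto (fun s : ℝ => z₀ + (s : ℂ) * v) (𝓝 0) (𝓝 z₀) := by
      have : Continuous (fun s : ℝ => z₀ + (s : ℂ) * v) := by fun_prop
      have h := this.tendsto 0
      simpa using h
    filter_upwards [hcont.eventually hev] with s hs
    exact hasDerivAt_re_line hs
  · have h2 : HasDerivAt (fun z => deriv L z * v) (deriv (deriv L) z₀ * v) z₀ :=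
      (hL.deriv.differentiableAt.hasDerivAt).mul_const v
    have h3 : HasDerivAt (fun z => deriv L z * v) (deriv (deriv L) z₀ * v) (z₀ + (0 : ℝ) * v) := by
      simpa using h2
    exact hasDerivAt_re_line h3

/-- The second derivative along a line of the function considered in the main lemma. -/
lemma second_deriv_line {ι : Type} [Fintype ι] [Nonempty ι] {z₀ v : ℂ} {R α β : ℝ} {H : ℂ → ℂ}
    {L : ι → ℂ → ℂ}
    (hH : AnalyticAt ℂ H z₀) (hL : ∀ i, AnalyticAt ℂ (L i) z₀) (hz : ‖z₀‖ < R)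
    (hmax : IsLocalMax (fun z => (H z).re + α * Real.log (∑ i, Real.exp (L i z).re) +
      β * Real.log (R ^ 2 - ‖z‖ ^ 2)) z₀) :
    (deriv (deriv H) z₀ * v * v).re +
      α * (((∑ i, Real.exp (L i z₀).re * ((deriv (L i) z₀ * v).re ^ 2 +
          (deriv (deriv (L i)) z₀ * v * v).re)) * (∑ i, Real.exp (L i z₀).re) -
        (∑ i, Real.exp (L i z₀).re * (deriv (L i) z₀ * v).re) ^ 2) /
          (∑ i, Real.exp (L i z₀).re) ^ 2) +
      β * ((-2 * ‖v‖ ^ 2 * (R ^ 2 - ‖z₀‖ ^ 2) - (2 * (z₀ * conj v).re) ^ 2) /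
        (R ^ 2 - ‖z₀‖ ^ 2) ^ 2) ≤ 0 := by
  classical
  -- the restriction to the line
  obtain ⟨hH1, hH2⟩ := hasDerivAt_line z₀ v hH
  have hL1 : ∀ᶠ s : ℝ in 𝓝 (0 : ℝ), ∀ i, HasDerivAt (fun t : ℝ => (L i (z₀ + t * v)).re)
      (deriv (L i) (z₀ + s * v) * v).re s :=
    eventually_all.mpr fun i => (hasDerivAt_line z₀ v (hL i)).1
  have hL2 : ∀ i, HasDerivAt (fun s : ℝ => (deriv (L i) (z₀ + s * v) * v).re)
      (deriv (deriv (L i)) z₀ * v * v).re 0 := fun i => (hasDerivAt_line z₀ v (hL i)).2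
  have hL0 : ∀ i, HasDerivAt (fun t : ℝ => (L i (z₀ + t * v)).re)
      (deriv (L i) (z₀ + (0 : ℝ) * v) * v).re 0 := fun i => hL1.self_of_nhds i
  set h : ι → ℝ → ℝ := fun i t => (L i (z₀ + t * v)).re with hh
  set h' : ι → ℝ → ℝ := fun i t => (deriv (L i) (z₀ + t * v) * v).re with hh'
  set M : ℝ → ℝ := fun t => R ^ 2 - (‖z₀‖ ^ 2 + 2 * t * (z₀ * conj v).re + t ^ 2 * ‖v‖ ^ 2) with hM
  set M' : ℝ → ℝ := fun t => - (2 * (z₀ * conj v).re + 2 * t * ‖v‖ ^ 2) with hM'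
  have hnorm : ∀ t : ℝ, ‖z₀ + (t : ℂ) * v‖ ^ 2 = ‖z₀‖ ^ 2 + 2 * t * (z₀ * conj v).re
      + t ^ 2 * ‖v‖ ^ 2 := by
    intro t
    rw [Complex.sq_norm, Complex.normSq_add, Complex.sq_norm, Complex.sq_norm, Complex.normSq_mul,
      Complex.normSq_ofReal, map_mul, Complex.conj_ofReal]
    have : (z₀ * ((t : ℂ) * conj v)).re = t * (z₀ * conj v).re := by
      rw [← Complex.re_ofReal_mul]
      congr 1
      ring
    rw [this]
    ring
  have hMd : ∀ t, HasDerivAt M (M' t) t := by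
    intro t
    have h1 : HasDerivAt (fun t : ℝ => 2 * t * (z₀ * conj v).re) (2 * (z₀ * conj v).re) t := by
      simpa using ((hasDerivAt_id t).const_mul (2 : ℝ)).mul_const ((z₀ * conj v).re)
    have h2 : HasDerivAt (fun t : ℝ => t ^ 2 * ‖v‖ ^ 2) (2 * t * ‖v‖ ^ 2) t := by
      simpa using (hasDerivAt_pow 2 t).mul_const (‖v‖ ^ 2)
    have h3 := (((hasDerivAt_const t (‖z₀‖ ^ 2)).add h1).add h2).const_sub (R ^ 2)
    refine h3.congr_deriv ?_
    simp [hM']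
  have hM'd : HasDerivAt M' (-(2 * ‖v‖ ^ 2)) 0 := by
    have h1 : HasDerivAt (fun t : ℝ => 2 * t * ‖v‖ ^ 2) (2 * ‖v‖ ^ 2) 0 := by
      simpa using ((hasDerivAt_id (0 : ℝ)).const_mul (2 : ℝ)).mul_const (‖v‖ ^ 2)
    have h3 := ((hasDerivAt_const (0 : ℝ) (2 * (z₀ * conj v).re)).add h1).neg
    refine h3.congr_deriv ?_
    simp
  have hM0 : M 0 = R ^ 2 - ‖z₀‖ ^ 2 := by simp [hM]
  have hMpos : 0 < M 0 := by
    rw [hM0]
    have := norm_nonneg z₀
    nlinarith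
  have hMev : ∀ᶠ t in 𝓝 (0 : ℝ), 0 < M t :=
    (hMd 0).continuousAt.eventually (lt_mem_nhds hMpos)
  set u : ℝ → ℝ := fun t => ∑ i, Real.exp (h i t) with hu
  set u' : ℝ → ℝ := fun t => ∑ i, Real.exp (h i t) * h' i t with hu'
  have hupos : ∀ t, 0 < u t := fun t => Finset.sum_pos (fun i _ => Real.exp_pos _)
    Finset.univ_nonempty
  have hud : ∀ᶠ s in 𝓝 (0 : ℝ), HasDerivAt u (u' s) s := by
    filter_upwards [hL1] with s hs
    exact HasDerivAt.fun_sum fun i _ => (hs i).exp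
  have hu'd : HasDerivAt u' (∑ i, (Real.exp (h i 0) * h' i 0 * h' i 0 +
      Real.exp (h i 0) * (deriv (deriv (L i)) z₀ * v * v).re)) 0 := by
    exact HasDerivAt.fun_sum fun i _ => ((hL0 i).exp).mul (hL2 i)
  have hφ1 : ∀ᶠ s : ℝ in 𝓝 (0 : ℝ), HasDerivAt (fun t : ℝ => (H (z₀ + t * v)).re +
      α * Real.log (u t) + β * Real.log (M t))
      ((deriv H (z₀ + s * v) * v).re + α * (u' s / u s) + β * (M' s / M s)) s := by
    filter_upwards [hH1, hud, hMev] with s h1 h2 h3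
    exact (h1.add ((h2.log (hupos s).ne').const_mul α)).add
      (((hMd s).log h3.ne').const_mul β)
  have hφ2 : HasDerivAt (fun s : ℝ => (deriv H (z₀ + s * v) * v).re + α * (u' s / u s) +
      β * (M' s / M s)) ((deriv (deriv H) z₀ * v * v).re +
      α * (((∑ i, (Real.exp (h i 0) * h' i 0 * h' i 0 +
      Real.exp (h i 0) * (deriv (deriv (L i)) z₀ * v * v).re)) * u 0 - u' 0 * u' 0) / u 0 ^ 2) +
      β * ((-(2 * ‖v‖ ^ 2) * M 0 - M' 0 * M' 0) / M 0 ^ 2)) 0 := by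
    exact (hH2.add ((hu'd.div hud.self_of_nhds (hupos 0).ne').const_mul α)).add
      ((hM'd.div (hMd 0) hMpos.ne').const_mul β)
  have hloc : IsLocalMax (fun t : ℝ => (H (z₀ + t * v)).re +
      α * Real.log (u t) + β * Real.log (M t)) 0 := by
    have hcont : Tendsto (fun s : ℝ => z₀ + (s : ℂ) * v) (𝓝 0) (𝓝 z₀) := by
      have : Continuous (fun s : ℝ => z₀ + (s : ℂ) * v) := by fun_prop
      have h := this.tendsto 0
      simpa using h
    have h1 := hcont.eventually hmax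
    filter_upwards [h1] with t ht
    have e1 : ∀ t : ℝ, M t = R ^ 2 - ‖z₀ + (t : ℂ) * v‖ ^ 2 := by
      intro t
      rw [hnorm t]
    rw [e1, e1]
    simpa [hu, hh] using ht
  have hfin := second_deriv_nonpos hφ1 hφ2 hloc
  have e0 : ∀ i, h i 0 = (L i z₀).re := by
    intro i; simp [hh]
  have e0' : ∀ i, h' i 0 = (deriv (L i) z₀ * v).re := by
    intro i; simp [hh']
  have eu : u 0 = ∑ i, Real.exp (L i z₀).re := by simp [hu, e0]
  have eu' : u' 0 = ∑ i, Real.exp (L i z₀).re * (deriv (L i) z₀ * v).re := by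
    simp only [hu', e0, e0']
  have eM' : M' 0 = - (2 * (z₀ * conj v).re) := by simp [hM']
  rw [eu, eu', eM', hM0] at hfin
  simp only [e0, e0'] at hfin
  convert hfin using 5
  · congr 2
    · apply Finset.sum_congr rfl
      intro i _
      ring
    · ring
  · ring
  · ring

lemma split_identity (a1 a2 S1 S2 T1 T2 U m n1 n2 α β : ℝ) (h : a1 + a2 = 0) :
    α * (((S1 + S2) * U - (T1 + T2)) / U ^ 2) + β * ((n1 + n2) / m ^ 2) =
      (a1 + α * ((S1 * U - T1) / U ^ 2) + β * (n1 / m ^ 2)) +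
        (a2 + α * ((S2 * U - T2) / U ^ 2) + β * (n2 / m ^ 2)) := by
  linear_combination -h

/-- **Core inequality.** -/
theorem core_inequality {ι : Type} [Fintype ι] [Nonempty ι] {z₀ : ℂ} {R α β : ℝ} {H : ℂ → ℂ}
    {L : ι → ℂ → ℂ}
    (hH : AnalyticAt ℂ H z₀) (hL : ∀ i, AnalyticAt ℂ (L i) z₀) (hz : ‖z₀‖ < R)
    (hmax : IsLocalMax (fun z => (H z).re + α * Real.log (∑ i, Real.exp (L i z).re) +
      β * Real.log (R ^ 2 - ‖z‖ ^ 2)) z₀) :
    α * (((∑ i, Real.exp (L i z₀).re * ‖deriv (L i) z₀‖ ^ 2) * (∑ i, Real.exp (L i z₀).re) -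
        ‖∑ i, (Real.exp (L i z₀).re : ℂ) * deriv (L i) z₀‖ ^ 2) /
          (∑ i, Real.exp (L i z₀).re) ^ 2) ≤
      β * (4 * R ^ 2 / (R ^ 2 - ‖z₀‖ ^ 2) ^ 2) := by
  have h1 := second_deriv_line (v := 1) hH hL hz hmax
  have h2 := second_deriv_line (v := Complex.I) hH hL hz hmax
  have hm : 0 < R ^ 2 - ‖z₀‖ ^ 2 := by
    have := norm_nonneg z₀
    nlinarith
  set m := R ^ 2 - ‖z₀‖ ^ 2 with hmdef
  set E : ι → ℝ := fun i => Real.exp (L i z₀).re with hE
  set U : ℝ := ∑ i, E i with hU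
  have hUpos : 0 < U := Finset.sum_pos (fun i _ => Real.exp_pos _) Finset.univ_nonempty
  have e1 : (deriv (deriv H) z₀ * 1 * 1).re + (deriv (deriv H) z₀ * Complex.I * Complex.I).re = 0 := by
    simp
  have e2 : (∑ i, E i * ((deriv (L i) z₀ * 1).re ^ 2 + (deriv (deriv (L i)) z₀ * 1 * 1).re)) +
      (∑ i, E i * ((deriv (L i) z₀ * Complex.I).re ^ 2 +
        (deriv (deriv (L i)) z₀ * Complex.I * Complex.I).re)) =
      ∑ i, E i * ‖deriv (L i) z₀‖ ^ 2 := by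
    rw [← Finset.sum_add_distrib]
    refine Finset.sum_congr rfl fun i _ => ?_
    rw [Complex.sq_norm, Complex.normSq_apply]
    simp
    ring
  have e3 : (∑ i, E i * (deriv (L i) z₀ * 1).re) ^ 2 +
      (∑ i, E i * (deriv (L i) z₀ * Complex.I).re) ^ 2 =
      ‖∑ i, (E i : ℂ) * deriv (L i) z₀‖ ^ 2 := by
    rw [Complex.sq_norm, Complex.normSq_apply, Complex.re_sum, Complex.im_sum]
    have a1 : ∀ i, ((E i : ℂ) * deriv (L i) z₀).re = E i * (deriv (L i) z₀ * 1).re := by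
      intro i; simp
    have a2 : ∀ i, ((E i : ℂ) * deriv (L i) z₀).im = - (E i * (deriv (L i) z₀ * Complex.I).re) := by
      intro i; simp
    simp_rw [a1, a2]
    rw [Finset.sum_neg_distrib]
    ring
  have e4 : (2 * (z₀ * conj (1 : ℂ)).re) ^ 2 + (2 * (z₀ * conj Complex.I).re) ^ 2 = 4 * ‖z₀‖ ^ 2 := by
    rw [Complex.sq_norm, Complex.normSq_apply]
    simp
    ring
  have hsum := add_le_add h1 h2
  have key : α * (((∑ i, E i * ‖deriv (L i) z₀‖ ^ 2) * U -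
        ‖∑ i, (E i : ℂ) * deriv (L i) z₀‖ ^ 2) / U ^ 2) + β * (-(4 * R ^ 2) / m ^ 2) ≤ 0 := by
    refine le_trans (le_of_eq ?_) (hsum.trans (by simp))
    rw [← e2, ← e3]
    have e5 : -(4 * R ^ 2) = (-2 * ‖(1 : ℂ)‖ ^ 2 * m - (2 * (z₀ * conj (1 : ℂ)).re) ^ 2) +
        (-2 * ‖Complex.I‖ ^ 2 * m - (2 * (z₀ * conj Complex.I).re) ^ 2) := by
      have : R ^ 2 = m + ‖z₀‖ ^ 2 := by rw [hmdef]; ring
      rw [this]
      simp only [norm_one, Complex.norm_I]
      linear_combination e4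
    rw [e5]
    exact split_identity _ _ _ _ _ _ _ _ _ _ _ _ e1
  have : β * (-(4 * R ^ 2) / m ^ 2) = - (β * (4 * R ^ 2 / m ^ 2)) := by ring
  rw [this] at key
  linarith

end Pool.Agent.H17

end

section

/-!
# A vanishing theorem of Ahlfors–Schwarz type with real exponents

`r i` are entire functions (none identically zero), `U = ∑ |r i|^κ`, `V` is the variance of the
logarithmic derivatives `r i' / r i` with weights `|r i|^κ / U`.  If `g` is entire,
`W = |g|^2 U^α ∏ |r i|^(-β i)` satisfies `W ≤ C V^ρ` with `α > 0` and `W` is locally bounded,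
then `g = 0`.
-/

open Topology Filter Complex

namespace Pool.Agent.H92.GGL

open Pool.Agent.H17

variable {ι : Type} [Fintype ι]

/-- `∑ |r i|^κ`. -/
noncomputable def powSum (κ : ℝ) (r : ι → ℂ → ℂ) (z : ℂ) : ℝ := ∑ i, ‖r i z‖ ^ κ

/-- The variance of the logarithmic derivatives with weights `|r i|^κ`. -/
noncomputable def powVar (κ : ℝ) (r : ι → ℂ → ℂ) (z : ℂ) : ℝ :=
  wVar (fun i => ‖r i z‖ ^ κ) (fun i => deriv (r i) z / r i z)

/-- `|g|^2 U^α ∏ |r i|^(-β i)`. -/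
noncomputable def wt (κ α : ℝ) (β : ι → ℝ) (r : ι → ℂ → ℂ) (g : ℂ → ℂ) (z : ℂ) : ℝ :=
  ‖g z‖ ^ 2 * powSum κ r z ^ α * ∏ i, ‖r i z‖ ^ (-(β i))

lemma powSum_pos [Nonempty ι] {κ : ℝ} {r : ι → ℂ → ℂ} {z : ℂ} (h : ∀ i, r i z ≠ 0) :
    0 < powSum κ r z := by
  unfold powSum
  exact Finset.sum_pos (fun i _ => Real.rpow_pos_of_pos (norm_pos_iff.mpr (h i)) _)
    Finset.univ_nonempty

lemma powSum_nonneg (κ : ℝ) (r : ι → ℂ → ℂ) (z : ℂ) : 0 ≤ powSum κ r z := by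
  unfold powSum
  positivity

lemma wt_nonneg (κ α : ℝ) (β : ι → ℝ) (r : ι → ℂ → ℂ) (g : ℂ → ℂ) (z : ℂ) :
    0 ≤ wt κ α β r g z := by
  unfold wt
  have := powSum_nonneg κ r z
  have : 0 ≤ ∏ i, ‖r i z‖ ^ (-(β i)) := Finset.prod_nonneg fun i _ => by positivity
  positivity

lemma powVar_nonneg {κ : ℝ} {r : ι → ℂ → ℂ} {z : ℂ} [Nonempty ι] (h : ∀ i, r i z ≠ 0) :
    0 ≤ powVar κ r z :=
  wVar_nonneg _ (fun i => by positivity)
    (Finset.sum_pos (fun i _ => Real.rpow_pos_of_pos (norm_pos_iff.mpr (h i)) _)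
      Finset.univ_nonempty)

/-- The estimate at an interior maximum. -/
lemma powVar_le_at_max [Nonempty ι] {r : ι → ℂ → ℂ} {g : ℂ → ℂ} {κ α : ℝ} {β : ι → ℝ}
    {k ρ : ℕ} (hα : 0 < α) (hκ : 0 < κ)
    (hk : 0 < k) {R : ℝ} {S : Finset ℂ} {z₀ : ℂ} (hr : ∀ i, AnalyticAt ℂ (r i) z₀)
    (hg : AnalyticAt ℂ g z₀) (hz : ‖z₀‖ < R) (hS : z₀ ∉ S) (hr0 : ∀ i, r i z₀ ≠ 0)
    (hg0 : g z₀ ≠ 0)
    (hmax : IsLocalMax (fun z => wt κ α β r g z ^ k * (R ^ 2 - ‖z‖ ^ 2) ^ (2 * ρ * k) *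
      ∏ s ∈ S, ‖z - s‖) z₀) :
    powVar κ r z₀ ≤ 8 * ρ * R ^ 2 / (R ^ 2 - ‖z₀‖ ^ 2) ^ 2 / (α * κ ^ 2) := by
  classical
  choose L hL hLe hLd using fun i => exists_local_log (hr i) (hr0 i)
  obtain ⟨G, hG, hGe, -⟩ := exists_local_log hg hg0
  have hsub : ∀ s : S, AnalyticAt ℂ (fun z => z - (s : ℂ)) z₀ := fun s =>
    analyticAt_id.sub analyticAt_const
  have hsub0 : ∀ s : S, z₀ - (s : ℂ) ≠ 0 := fun s h => hS (by
    rw [sub_eq_zero] at h; rw [h]; exact s.2)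
  choose P hP hPe hPd using fun s : S => exists_local_log (hsub s) (hsub0 s)
  set H : ℂ → ℂ := fun z => 2 * k * G z - k * ∑ i, (β i : ℂ) * L i z + ∑ s : S, P s z with hH
  have hHan : AnalyticAt ℂ H z₀ := by
    refine ((analyticAt_const.mul hG).sub (analyticAt_const.mul ?_)).add ?_
    · exact Finset.analyticAt_fun_sum _ fun i _ => analyticAt_const.mul (hL i)
    · exact Finset.analyticAt_fun_sum _ fun s _ => hP s
  set L' : ι → ℂ → ℂ := fun i z => (κ : ℂ) * L i z with hL'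
  have hL'an : ∀ i, AnalyticAt ℂ (L' i) z₀ := fun i => analyticAt_const.mul (hL i)
  have hmpos : ∀ᶠ z in 𝓝 z₀, 0 < R ^ 2 - ‖z‖ ^ 2 := by
    have hc : ContinuousAt (fun z : ℂ => R ^ 2 - ‖z‖ ^ 2) z₀ := by fun_prop
    refine hc.eventually (lt_mem_nhds ?_)
    have := norm_nonneg z₀
    nlinarith
  have hLre : ∀ i z, (L' i z).re = κ * (L i z).re := fun i z => by
    simp only [hL']
    rw [Complex.re_ofReal_mul]
  -- the function is the exponential of the function in the core inequality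
  have hexp : ∀ᶠ z in 𝓝 z₀, wt κ α β r g z ^ k * (R ^ 2 - ‖z‖ ^ 2) ^ (2 * ρ * k) *
      ∏ s ∈ S, ‖z - s‖ = Real.exp ((H z).re + (k * α) * Real.log (∑ i, Real.exp (L' i z).re) +
        (2 * ρ * k : ℕ) * Real.log (R ^ 2 - ‖z‖ ^ 2)) := by
    filter_upwards [eventually_all.mpr hLe, hGe, eventually_all.mpr hPe, hmpos]
      with z h1 h2 h3 h4
    have n1 : ∀ i, ‖r i z‖ = Real.exp (L i z).re := fun i => by
      rw [h1 i, Complex.norm_exp]
    have n1' : ∀ (i : ι) (c : ℝ), ‖r i z‖ ^ c = Real.exp (c * (L i z).re) := fun i c => by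
      rw [n1 i, ← Real.exp_mul, mul_comm]
    have n2 : ‖g z‖ = Real.exp (G z).re := by rw [h2, Complex.norm_exp]
    have n3 : ∀ s : S, ‖z - s‖ = Real.exp (P s z).re := fun s => by
      rw [h3 s, Complex.norm_exp]
    have hUeq : powSum κ r z = ∑ i, Real.exp (L' i z).re := by
      unfold powSum
      refine Finset.sum_congr rfl fun i _ => ?_
      rw [n1', hLre]
    have hUpos : 0 < ∑ i, Real.exp (L' i z).re :=
      Finset.sum_pos (fun i _ => Real.exp_pos _) Finset.univ_nonempty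
    have hprodr : ∏ i, ‖r i z‖ ^ (-(β i)) = Real.exp (-∑ i, β i * (L i z).re) := by
      simp_rw [n1']
      rw [← Real.exp_sum]
      congr 1
      rw [← Finset.sum_neg_distrib]
      exact Finset.sum_congr rfl fun i _ => by ring
    have hprodS : ∏ s ∈ S, ‖z - s‖ = Real.exp (∑ s : S, (P s z).re) := by
      rw [← Finset.prod_coe_sort S, Real.exp_sum]
      exact Finset.prod_congr rfl fun s _ => n3 s
    have hHre : (H z).re = 2 * k * (G z).re - k * ∑ i, β i * (L i z).re +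
        ∑ s : S, (P s z).re := by
      simp only [hH, Complex.add_re, Complex.sub_re, Complex.re_sum]
      have c1 : ((2 : ℂ) * (k : ℂ) * G z).re = 2 * k * (G z).re := by
        have : (2 : ℂ) * (k : ℂ) = ((2 * k : ℝ) : ℂ) := by push_cast; ring
        rw [this, Complex.re_ofReal_mul]
      have c2 : ((k : ℂ) * ∑ i, (β i : ℂ) * L i z).re = k * ∑ i, β i * (L i z).re := by
        have : (k : ℂ) = ((k : ℝ) : ℂ) := by push_cast; ring
        rw [this, Complex.re_ofReal_mul, Complex.re_sum]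
        simp_rw [Complex.re_ofReal_mul]
      rw [c1, c2]
    unfold wt
    rw [hUeq, hprodr, hprodS, n2]
    have d0 : (∑ i, Real.exp (L' i z).re) ^ α =
        Real.exp (α * Real.log (∑ i, Real.exp (L' i z).re)) := by
      rw [Real.rpow_def_of_pos hUpos, mul_comm]
    have d2 : Real.exp ((2 * ρ * k : ℕ) * Real.log (R ^ 2 - ‖z‖ ^ 2)) =
        (R ^ 2 - ‖z‖ ^ 2) ^ (2 * ρ * k) := by
      rw [Real.exp_nat_mul, Real.exp_log h4]
    rw [d0, ← d2, ← Real.exp_nat_mul, ← Real.exp_add, ← Real.exp_add, ← Real.exp_nat_mul,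
      ← Real.exp_add, ← Real.exp_add, hHre]
    congr 1
    push_cast
    ring
  have hmax' : IsLocalMax (fun z => (H z).re + (k * α) *
      Real.log (∑ i, Real.exp (L' i z).re) +
        ((2 * ρ * k : ℕ) : ℝ) * Real.log (R ^ 2 - ‖z‖ ^ 2)) z₀ := by
    filter_upwards [hmax, hexp] with z h1 h2
    rw [h2, hexp.self_of_nhds] at h1
    exact Real.exp_le_exp.mp h1
  have hcore := core_inequality hHan hL'an hz hmax'
  have q1 : ∀ i, Real.exp (L' i z₀).re = ‖r i z₀‖ ^ κ := fun i => by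
    rw [hLre, (hLe i).self_of_nhds, Complex.norm_exp, ← Real.exp_mul, mul_comm]
  have q2 : ∀ i, deriv (L' i) z₀ = (κ : ℂ) * (deriv (r i) z₀ / r i z₀) := fun i => by
    simp only [hL']
    rw [deriv_const_mul _ (hL i).differentiableAt, hLd]
  simp_rw [q1, q2] at hcore
  have e1 : (((∑ i, ‖r i z₀‖ ^ κ * ‖(κ : ℂ) * (deriv (r i) z₀ / r i z₀)‖ ^ 2) *
      (∑ i, ‖r i z₀‖ ^ κ) -
        ‖∑ i, ((‖r i z₀‖ ^ κ : ℝ) : ℂ) * ((κ : ℂ) * (deriv (r i) z₀ / r i z₀))‖ ^ 2) /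
          (∑ i, ‖r i z₀‖ ^ κ) ^ 2) = κ ^ 2 * powVar κ r z₀ := by
    unfold powVar wVar
    have f1 : ∑ i, ‖r i z₀‖ ^ κ * ‖(κ : ℂ) * (deriv (r i) z₀ / r i z₀)‖ ^ 2 =
        κ ^ 2 * ∑ i, ‖r i z₀‖ ^ κ * ‖deriv (r i) z₀ / r i z₀‖ ^ 2 := by
      rw [Finset.mul_sum]
      refine Finset.sum_congr rfl fun i _ => ?_
      rw [norm_mul, Complex.norm_real, mul_pow, Real.norm_eq_abs, sq_abs]
      ring
    have f2 : ∑ i, ((‖r i z₀‖ ^ κ : ℝ) : ℂ) * ((κ : ℂ) * (deriv (r i) z₀ / r i z₀)) =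
        (κ : ℂ) * ∑ i, ((‖r i z₀‖ ^ κ : ℝ) : ℂ) * (deriv (r i) z₀ / r i z₀) := by
      rw [Finset.mul_sum]
      exact Finset.sum_congr rfl fun i _ => by ring
    rw [f1, f2, norm_mul, mul_pow, Complex.norm_real, Real.norm_eq_abs, sq_abs]
    ring
  rw [e1] at hcore
  have hkpos : (0 : ℝ) < k := by exact_mod_cast hk
  have hm : 0 < R ^ 2 - ‖z₀‖ ^ 2 := hmpos.self_of_nhds
  rw [le_div_iff₀ (by positivity)]
  push_cast at hcore
  have h6 : (k : ℝ) * (powVar κ r z₀ * (α * κ ^ 2)) ≤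
      k * (8 * ρ * R ^ 2 / (R ^ 2 - ‖z₀‖ ^ 2) ^ 2) := by
    calc (k : ℝ) * (powVar κ r z₀ * (α * κ ^ 2)) = k * α * (κ ^ 2 * powVar κ r z₀) := by ring
      _ ≤ 2 * ρ * k * (4 * R ^ 2 / (R ^ 2 - ‖z₀‖ ^ 2) ^ 2) := hcore
      _ = _ := by ring
  exact le_of_mul_le_mul_left h6 hkpos

end Pool.Agent.H92.GGL

end
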