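import Pool.Agent.H94.PX2.M08
import Pool.Agent.H94.PX2.M14
import Pool.Agent.H94.PX2.M19
import Pool.Agent.H94.PX2.M22
import Pool.Agent.H94.PX2.M24
import Pool.Agent.H94.PX2.M43

/-! The parts of this file: H62.LR.Landau_1, H41.LR.Schottky, PX.FibC_1, PY.Fib_1. -/

section

/-!
# LR Landau: holomorphic functions on a disc which omit `0` and `1`

* `landau`, `local_bound`, `harnack3`.
-/

set_option autoImplicit false

open Topology Filter Metric

noncomputable section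

namespace Pool.Agent.H62.LR

open Pool.Agent.H92.GGL (wt powVar powSum schwarz_disc)
open Pool.Agent.H17 (wVar)

/-- The basic estimate. -/
theorem basic {X : ℂ → ℂ} {z : ℂ} {R : ℝ} (hR : 0 < R) (hX : DifferentiableOn ℂ X (ball z R)) (h01 : ∀ w ∈ ball z R, X w ≠ 0 ∧ X w ≠ 1) :
    R ^ 2 * (‖deriv X z‖ ^ 2 * (1 + Real.sqrt ‖X z‖ + Real.sqrt ‖X z - 1‖)) ≤ 1152 * (Real.sqrt ‖X z‖ ^ 3 * Real.sqrt ‖X z - 1‖ ^ 3) := by
  have hsub : ∀ w : ℂ, ‖w - z‖ ≤ R / 2 → w ∈ ball z R := by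
    intro w hw
    rw [mem_ball, dist_eq_norm]
    linarith
  have han : ∀ w : ℂ, ‖w - z‖ ≤ R / 2 → AnalyticAt ℂ X w := fun w hw => hX.analyticAt (isOpen_ball.mem_nhds (hsub w hw))
  have key := schwarz_disc (r := rr X) (g := deriv X) (κ := 1 / 2) (α := 1) (β := bb) (ρ := 1) (by norm_num) one_pos one_pos (c := z) (R := R / 2)
    (by positivity) (S := ∅) (Finset.notMem_empty _) (fun w hw _ i => ?_) (fun w hw _ => (han w hw).deriv) (C := 9) (by norm_num) (fun w hw _ => ?_)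
    (fun s _ hs => absurd hs (Finset.notMem_empty _))
  · rw [wt_eq] at key
    have h0 := (h01 z (mem_ball_self hR)).1
    have h1 := (h01 z (mem_ball_self hR)).2
    set s := Real.sqrt ‖X z‖ with hs
    set t := Real.sqrt ‖X z - 1‖ with ht
    have hs0 : 0 < s := Real.sqrt_pos.2 (norm_pos_iff.2 h0)
    have ht0 : 0 < t := Real.sqrt_pos.2 (norm_pos_iff.2 (sub_ne_zero.2 h1))
    have h3 : ‖deriv X z‖ ^ 2 * (1 + s + t) * ((s ^ 3)⁻¹ * (t ^ 3)⁻¹) * (R / 2) ^ (2 * 1) =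
        (R ^ 2 * (‖deriv X z‖ ^ 2 * (1 + s + t))) / (4 * (s ^ 3 * t ^ 3)) := by
      field_simp
      ring
    rw [h3, div_le_iff₀ (by positivity)] at key
    refine key.trans (le_of_eq ?_)
    norm_num
    ring
  · fin_cases i
    · exact ⟨analyticAt_const, one_ne_zero⟩
    · exact ⟨han w hw, (h01 w (hsub w hw)).1⟩
    · exact ⟨(han w hw).sub analyticAt_const, sub_ne_zero.2 (h01 w (hsub w hw)).2⟩
  · have h0 := (h01 w (hsub w hw)).1
    have h1 := (h01 w (hsub w hw)).2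
    rw [wt_eq, pv_eq h0 h1, pow_one]
    set s := Real.sqrt ‖X w‖ with hs
    set t := Real.sqrt ‖X w - 1‖ with ht
    have hs0 : 0 < s := Real.sqrt_pos.2 (norm_pos_iff.2 h0)
    have ht0 : 0 < t := Real.sqrt_pos.2 (norm_pos_iff.2 (sub_ne_zero.2 h1))
    have hc := cube_le hs0.le ht0.le
    rw [← mul_div_assoc, le_div_iff₀ (by positivity)]
    have h4 : 0 ≤ ‖deriv X w‖ ^ 2 * ((s ^ 3)⁻¹ * (t ^ 3)⁻¹) := by positivity
    calc ‖deriv X w‖ ^ 2 * (1 + s + t) * ((s ^ 3)⁻¹ * (t ^ 3)⁻¹) * (1 + s + t) ^ 2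
        = ‖deriv X w‖ ^ 2 * ((s ^ 3)⁻¹ * (t ^ 3)⁻¹) * (1 + s + t) ^ 3 := by ring
      _ ≤ ‖deriv X w‖ ^ 2 * ((s ^ 3)⁻¹ * (t ^ 3)⁻¹) * (9 * (1 + s ^ 3 + t ^ 3)) := mul_le_mul_of_nonneg_left hc h4
      _ = 9 * (‖deriv X w‖ ^ 2 * (1 + s ^ 3 + t ^ 3) * ((s ^ 3)⁻¹ * (t ^ 3)⁻¹)) := by ring

/-- Landau's theorem for the spherical derivative. -/
theorem landau48 {X : ℂ → ℂ} {z : ℂ} {R : ℝ} (hR : 0 < R) (hX : DifferentiableOn ℂ X (ball z R)) (h01 : ∀ w ∈ ball z R, X w ≠ 0 ∧ X w ≠ 1) :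
    R * ‖deriv X z‖ ≤ 48 * (1 + ‖X z‖ ^ 2) := by
  have key := basic hR hX h01
  set s := Real.sqrt ‖X z‖ with hs
  set t := Real.sqrt ‖X z - 1‖ with ht
  have hs0 : 0 ≤ s := Real.sqrt_nonneg _
  have ht0 : 0 ≤ t := Real.sqrt_nonneg _
  have hs2 : ‖X z‖ = s ^ 2 := (Real.sq_sqrt (norm_nonneg _)).symm
  have ht2 : t ^ 2 ≤ 1 + s ^ 2 := by
    rw [ht, Real.sq_sqrt (norm_nonneg _), ← hs2]
    have := norm_sub_le (X z) 1
    rw [norm_one] at this
    linarith
  have h1 : R ^ 2 * ‖deriv X z‖ ^ 2 ≤ 1152 * (s ^ 3 * t ^ 2) := by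
    have h2 : 0 < 1 + s + t := by positivity
    have h3 : 1152 * (s ^ 3 * t ^ 3) ≤ 1152 * (s ^ 3 * t ^ 2) * (1 + s + t) := by
      have h4 : 0 ≤ 1152 * (s ^ 3 * t ^ 2) := by positivity
      nlinarith [mul_nonneg h4 hs0]
    have h5 : R ^ 2 * ‖deriv X z‖ ^ 2 * (1 + s + t) ≤ 1152 * (s ^ 3 * t ^ 2) * (1 + s + t) := by
      calc R ^ 2 * ‖deriv X z‖ ^ 2 * (1 + s + t) = R ^ 2 * (‖deriv X z‖ ^ 2 * (1 + s + t)) := by ring
        _ ≤ _ := key.trans h3
    exact le_of_mul_le_mul_right h5 h2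
  have h6 : R ^ 2 * ‖deriv X z‖ ^ 2 ≤ (48 * (1 + s ^ 4)) ^ 2 := by
    refine h1.trans ?_
    have h7 : s ^ 3 ≤ 1 + s ^ 4 := by nlinarith [sq_nonneg (s ^ 2 - s), sq_nonneg (s - 1), sq_nonneg (s + 1), sq_nonneg (s ^ 2 - 1), mul_nonneg hs0 hs0]
    have h8 : t ^ 2 ≤ 2 * (1 + s ^ 4) := by nlinarith [sq_nonneg (s ^ 2 - 1)]
    have h9 : s ^ 3 * t ^ 2 ≤ (1 + s ^ 4) * (2 * (1 + s ^ 4)) := mul_le_mul h7 h8 (by positivity) (by positivity)
    nlinarith
  rw [hs2]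
  have h10 : (R * ‖deriv X z‖) ^ 2 ≤ (48 * (1 + (s ^ 2) ^ 2)) ^ 2 := by
    have e1 : (s ^ 2) ^ 2 = s ^ 4 := by ring
    rw [mul_pow, e1]
    exact h6
  exact le_of_sq_le_sq h10 (by positivity)

/-- the derivative at the points of the ball of half the radius -/
theorem landau_half {X : ℂ → ℂ} {z : ℂ} {R : ℝ} (hR : 0 < R) (hX : DifferentiableOn ℂ X (ball z R)) (h01 : ∀ w ∈ ball z R, X w ≠ 0 ∧ X w ≠ 1)
    {w : ℂ} (hw : w ∈ ball z (R / 2)) : ‖deriv X w‖ ≤ 96 / R * (1 + ‖X w‖ ^ 2) := by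
  have hsub : ball w (R / 2) ⊆ ball z R := by
    refine ball_subset_ball' ?_
    rw [mem_ball] at hw
    linarith
  have h1 := landau48 (half_pos hR) (hX.mono hsub) fun u hu => h01 u (hsub hu)
  rw [div_mul_eq_mul_div, le_div_iff₀ hR]
  linarith

/-- bounded at the centre: bounded on a smaller ball -/
theorem local_bound (M : ℝ) : ∃ c : ℝ, 0 < c ∧ c ≤ 1 ∧ ∀ (X : ℂ → ℂ) (z : ℂ) (R : ℝ), 0 < R → DifferentiableOn ℂ X (ball z R) →
    (∀ w ∈ ball z R, X w ≠ 0 ∧ X w ≠ 1) → ‖X z‖ ≤ M → ∀ w ∈ ball z (c * R), ‖X w‖ ≤ M + 1 := by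
  set D : ℝ := 96 * (1 + (M + 1) ^ 2) with hD
  have hD1 : 96 ≤ D := by
    rw [hD]
    nlinarith [sq_nonneg (M + 1)]
  refine ⟨1 / (2 * D), by positivity, ?_, fun X z R hR hX h01 hM => ?_⟩
  · rw [div_le_one (by positivity)]
    linarith
  have hc : 1 / (2 * D) * R ≤ R / 2 := by
    rw [div_mul_eq_mul_div, one_mul, div_le_div_iff₀ (by positivity) (by norm_num)]
    nlinarith
  have hsub : ball z (1 / (2 * D) * R) ⊆ ball z (R / 2) := ball_subset_ball hc
  have hsub' : ball z (1 / (2 * D) * R) ⊆ ball z R := ball_subset_ball (by linarith)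
  have hM1 : 0 ≤ M + 1 := by linarith [norm_nonneg (X z)]
  refine stay (a := M) (b := M + 1) (D := D / R) (hX.mono hsub') hM (fun w hw hwb => ?_) (by positivity) ?_
  · refine (landau_half hR hX h01 (hsub hw)).trans ?_
    have h1 : ‖X w‖ ^ 2 ≤ (M + 1) ^ 2 := pow_le_pow_left₀ (norm_nonneg _) hwb 2
    calc 96 / R * (1 + ‖X w‖ ^ 2) ≤ 96 / R * (1 + (M + 1) ^ 2) := by gcongr
      _ = D / R := by rw [hD]; ring
  · have h1 : D / R * (1 / (2 * D) * R) = 1 / 2 := by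
      field_simp
    rw [h1]
    norm_num

/-- small at the centre: small on a smaller ball -/
theorem harnack3 : ∃ c : ℝ, 0 < c ∧ c ≤ 1 ∧ ∀ (X : ℂ → ℂ) (z : ℂ) (R : ℝ), 0 < R → DifferentiableOn ℂ X (ball z R) →
    (∀ w ∈ ball z R, X w ≠ 0 ∧ X w ≠ 1) → ‖X z‖ ≤ 1 / 2 → ∀ w ∈ ball z (c * R), ‖X w‖ ^ 3 ≤ ‖X z‖ := by
  refine ⟨1 / 1600, by norm_num, by norm_num, fun X z R hR hX h01 hM w hw => ?_⟩
  have hr : 0 < R / 800 := by positivity
  have hsub : ball z (R / 800) ⊆ ball z (R / 2) := ball_subset_ball (by linarith)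
  have hsub' : ball z (R / 800) ⊆ ball z R := ball_subset_ball (by linarith)
  have h34 : ∀ w ∈ ball z (R / 800), ‖X w‖ ≤ 3 / 4 := by
    refine stay (a := 1 / 2) (b := 3 / 4) (D := 150 / R) (hX.mono hsub') hM (fun w hw hwb => ?_) (by positivity) ?_
    · refine (landau_half hR hX h01 (hsub hw)).trans ?_
      have h1 : ‖X w‖ ^ 2 ≤ (3 / 4) ^ 2 := pow_le_pow_left₀ (norm_nonneg _) hwb 2
      calc 96 / R * (1 + ‖X w‖ ^ 2) ≤ 96 / R * (1 + (3 / 4) ^ 2) := by gcongr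
        _ = 150 / R := by ring
    · have h1 : 150 / R * (R / 800) = 150 / 800 := by field_simp
      rw [h1]
      norm_num
  obtain ⟨G, hG, hGe⟩ := Pool.Agent.H24.Growth.exists_log isOpen_ball (convex_ball z (R / 800)) ⟨z, mem_ball_self hr⟩ (hX.mono hsub')
    fun w hw => (h01 w (hsub' hw)).1
  have hre : ∀ w ∈ ball z (R / 800), (-G w).re = -Real.log ‖X w‖ := by
    intro w hw
    rw [← hGe w hw, Complex.norm_exp, Real.log_exp, Complex.neg_re]
  have hpos : ∀ w ∈ ball z (R / 800), 0 < (-G w).re := by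
    intro w hw
    rw [hre w hw]
    have h2 : Real.log ‖X w‖ < 0 := Real.log_neg (norm_pos_iff.2 (h01 w (hsub' hw)).1) (by linarith [h34 w hw])
    linarith
  have hwn : ‖w - z‖ < R / 1600 := by
    rw [mem_ball, dist_eq_norm] at hw
    linarith
  have hw' : w ∈ ball z (R / 800) := by
    rw [mem_ball, dist_eq_norm]
    linarith
  have key := Pool.Agent.EG.LE.harnack (H := fun w => -G w) hr hG.neg hpos hw'
  have hzb : z ∈ ball z (R / 800) := mem_ball_self hr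
  have h3 : (1 / 3 : ℝ) ≤ (R / 800 - ‖w - z‖) / (R / 800 + ‖w - z‖) := by
    rw [le_div_iff₀ (by positivity)]
    linarith
  have h4 : -Real.log ‖X z‖ * (1 / 3) ≤ -Real.log ‖X w‖ := by
    rw [← hre z hzb, ← hre w hw']
    exact (mul_le_mul_of_nonneg_left h3 (hpos z hzb).le).trans key
  have hXz : 0 < ‖X z‖ := norm_pos_iff.2 (h01 z (mem_ball_self hR)).1
  have hXw : 0 < ‖X w‖ := norm_pos_iff.2 (h01 w (hsub' hw')).1
  have h5 : Real.log (‖X w‖ ^ 3) ≤ Real.log ‖X z‖ := by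
    rw [Real.log_pow]
    push_cast
    linarith
  exact (Real.log_le_log_iff (by positivity) hXz).1 h5

end Pool.Agent.H62.LR

end
end

section

/-!
# LR Schottky: Schottky's theorem
-/

set_option autoImplicit false

open Topology Filter Metric

noncomputable section

namespace Pool.Agent.H41.LR

/-- **Schottky's theorem.** -/
theorem schottky : Schottky := schottky_of Pool.Agent.H62.LR.local_bound Pool.Agent.H62.LR.harnack3

/-- **Picard's little theorem.** -/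
theorem little_picard {f : ℂ → ℂ} (hf : Differentiable ℂ f) (hO : ∀ z, f z ≠ 0 ∧ f z ≠ 1) (z w : ℂ) : f z = f w := by
  obtain ⟨S, hS⟩ := schottky ‖f 0‖
  refine hf.apply_eq_apply_of_bounded ?_ z w
  refine (isBounded_iff_forall_norm_le).2 ⟨S, ?_⟩
  rintro _ ⟨x, rfl⟩
  refine hS f 0 (2 * (‖x‖ + 1)) (by positivity) hf.differentiableOn (fun y _ => hO y) le_rfl x ?_
  rw [mem_closedBall_zero_iff]
  linarith

end Pool.Agent.H41.LR

end
end

section

/-!
# PX FibC: entire curves in a fibre with three distinct roots; openness of `R3`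

`fib_const`: as `PD.fib` (`cross`, `little_picard`).  `r3_open`: if the form over `y₀` is not `0` and has three distinct roots then so do the forms over the points near `y₀` (Hurwitz / continuity of the roots: choose `b` with `Fo θ y₀ b ≠ 0`, disjoint small discs around the three numbers `t`).
-/

set_option autoImplicit false

open Topology Filter Metric

namespace Pool.Agent.PX

open Pool.Agent.H36.BP (EN fs wd)
open Pool.Agent.H62.EF (MN pr)
open Pool.Agent.AD (Vd)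
open Pool.Agent.TG (Lat)
open Pool.Agent.G3 (wt LLift)
open Pool.Agent.G4 (Few)

variable {k d r : ℕ}

/-- an entire curve in a fibre with three distinct roots is constant -/
theorem fib_const {θ : Fin (d + 1) → Vd (k + 1) → ℂ} {y : Vd (k + 1)} (h3 : R3 θ y) {G : ℂ → EN 1} (hG : Differentiable ℂ G) (hF : ∀ z, Fo θ y (G z) ≠ 0) (z w : ℂ) :
    ∃ c : ℂ, G z = c • G w := by
  obtain ⟨x₁, x₂, x₃, e1, e2, e3, h12, h13, h23⟩ := h3
  have key : ∀ x : EN 1, x ≠ 0 → Fo θ y x = 0 → ∀ u, dt x (G u) ≠ 0 := by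
    intro x hx hx0 u h0
    obtain ⟨c, hc⟩ := (dt_eq_zero hx).1 h0
    apply hF u
    rw [hc, fo_smul, hx0, mul_zero]
  have k1 := key x₁ (ne_of_dt h12) e1
  have k2 := key x₂ (ne_of_dt h23) e2
  have k3 := key x₃ (ne_of_dt' h23) e3
  have hd : ∀ x : EN 1, Differentiable ℂ fun u => dt x (G u) := by
    intro x
    unfold dt
    exact ((coord_diff hG 1).const_mul _).sub ((coord_diff hG 0).const_mul _)
  have h21 : dt x₂ x₁ ≠ 0 := by
    intro h
    apply h12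
    simp only [dt] at h ⊢
    linear_combination -h
  have hf : Differentiable ℂ fun u => dt x₁ (G u) * dt x₂ x₃ / (dt x₃ (G u) * dt x₂ x₁) :=
    ((hd x₁).mul_const _).div ((hd x₃).mul_const _) fun u => mul_ne_zero (k3 u) h21
  have hp := Pool.Agent.H41.LR.little_picard hf (fun u => cross h12 h13 h23 (k1 u) (k2 u) (k3 u)) z w
  rw [div_eq_div_iff (mul_ne_zero (k3 z) h21) (mul_ne_zero (k3 w) h21)] at hp
  have hw : G w ≠ 0 := ne_of_dt' (k1 w)
  have h0 : dt (G w) (G z) = 0 := by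
    have h1 : dt x₁ (G z) * dt x₃ (G w) = dt x₁ (G w) * dt x₃ (G z) := by
      have h2 : (dt x₂ x₃ * dt x₂ x₁) * (dt x₁ (G z) * dt x₃ (G w) - dt x₁ (G w) * dt x₃ (G z)) = 0 := by
        linear_combination hp
      have h3 := (mul_eq_zero.1 h2).resolve_left (mul_ne_zero h23 h21)
      exact sub_eq_zero.1 h3
    have h2 : dt x₁ x₃ * dt (G w) (G z) = 0 := by
      simp only [dt] at h1 ⊢
      linear_combination -h1
    exact (mul_eq_zero.1 h2).resolve_left h13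
  exact (dt_eq_zero hw).1 h0

end Pool.Agent.PX

end

section

/-!
# PY Fib: the fibres outside `D`

`fib`: `fib_const`.  `fibE`: the coordinate `t = - dt e (G z) / dt b (G z)` is a root of a fixed polynomial, so bounded: Liouville.
-/

set_option autoImplicit false

open Topology Filter Metric

namespace Pool.Agent.PY

open Pool.Agent.H36.BP (EN fs wd)
open Pool.Agent.H62.EF (MN pr)
open Pool.Agent.AD (Vd)
open Pool.Agent.TG (Lat)
open Pool.Agent.G3 (wt LLift)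
open Pool.Agent.PX

variable {k d r : ℕ}

variable {Λ : AddSubgroup (Vd (k + 1))} {D : Set (Vd (k + 1))} {θ : Fin (d + 1) → Vd (k + 1) → ℂ} {W : Fin r → Vd (k + 1) →L[ℂ] ℂ}

theorem PE.fib (P : PE Λ D θ W) {y : Vd (k + 1)} (hy : y ∉ D) {G : ℂ → EN 1} (hG : Differentiable ℂ G) (hF : ∀ z, Fo θ y (G z) ≠ 0) (z w : ℂ) :
    ∃ c : ℂ, G z = c • G w :=
  fib_const (P.three y hy) hG hF z w

end Pool.Agent.PY

end
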