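import Mathlib

/-! The parts of this file: H56.PR.Cov, H56.PR.Lift, H60.OC.Defs, H60.OC.Root, H60.OC.RootAna, LR.RootLoc, LR.Cover. -/

section

/-!
The roots of a monic polynomial with analytic coefficients form a covering where
the polynomial is separable.
-/

namespace Pool.Agent.H56.PR

open Topology Filter Set Polynomial

noncomputable section

/-- monic polynomials of degree `d`, continuous in `z`, analytic and separable over `U` -/
structure Fam (P : ℂ → ℂ[X]) (d : ℕ) (U : Set ℂ) : Prop where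
  pos : 0 < d
  monic : ∀ z, (P z).Monic
  deg : ∀ z, (P z).natDegree = d
  cont : ∀ i, Continuous fun z => (P z).coeff i
  op : IsOpen U
  an : ∀ i, AnalyticOnNhd ℂ (fun z => (P z).coeff i) U
  sep : ∀ z ∈ U, (P z).Separable

/-- the map whose fibres over `U × {0}` are the roots -/
def Ph (P : ℂ → ℂ[X]) (q : ℂ × ℂ) : ℂ × ℂ := (q.1, (P q.1).eval q.2)

variable {P : ℂ → ℂ[X]} {d : ℕ} {U : Set ℂ}

theorem Fam.eval_eq (h : Fam P d U) (z w : ℂ) :
    (P z).eval w = ∑ i ∈ Finset.range (d + 1), (P z).coeff i * w ^ i := by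
  rw [eval_eq_sum_range, h.deg]

theorem Fam.coeff_top (h : Fam P d U) (z : ℂ) : (P z).coeff d = 1 := by
  have := h.monic z
  rw [Monic, leadingCoeff, h.deg] at this
  exact this

theorem Fam.eval_eq' (h : Fam P d U) (z w : ℂ) :
    (P z).eval w = w ^ d + ∑ i ∈ Finset.range d, (P z).coeff i * w ^ i := by
  rw [h.eval_eq, Finset.sum_range_succ, h.coeff_top, one_mul, add_comm]

theorem Fam.continuous_eval (h : Fam P d U) :
    Continuous fun q : ℂ × ℂ => (P q.1).eval q.2 := by
  simp only [h.eval_eq]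
  refine continuous_finsetSum _ fun i _ => ?_
  exact ((h.cont i).comp continuous_fst).mul (continuous_snd.pow i)

theorem Fam.continuous_Ph (h : Fam P d U) : Continuous (Ph P) :=
  continuous_fst.prodMk h.continuous_eval

theorem Fam.bound (h : Fam P d U) {M N : ℝ} (hM : ∀ z, ‖z‖ ≤ N → ∀ i < d, ‖(P z).coeff i‖ ≤ M)
    (z w : ℂ) (hz : ‖z‖ ≤ N) (hc : ‖(P z).eval w‖ ≤ N) : ‖w‖ ≤ max 1 (N + d * M) := by
  by_contra hcon
  rw [not_le, max_lt_iff] at hcon
  obtain ⟨h1, h2⟩ := hcon
  have hd := h.pos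
  have h3 : w ^ d = (P z).eval w - ∑ i ∈ Finset.range d, (P z).coeff i * w ^ i := by
    rw [h.eval_eq']; ring
  have h4 : ‖w‖ ^ d ≤ N + ∑ i ∈ Finset.range d, ‖(P z).coeff i * w ^ i‖ := by
    rw [← norm_pow, h3]
    refine (norm_sub_le _ _).trans (add_le_add hc (norm_sum_le _ _))
  have h5 : ∑ i ∈ Finset.range d, ‖(P z).coeff i * w ^ i‖
      ≤ ∑ i ∈ Finset.range d, M * ‖w‖ ^ (d - 1) := by
    refine Finset.sum_le_sum fun i hi => ?_
    rw [Finset.mem_range] at hi
    rw [norm_mul, norm_pow]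
    have hM0 : 0 ≤ M := (norm_nonneg _).trans (hM z hz i hi)
    exact mul_le_mul (hM z hz i hi) (pow_le_pow_right₀ h1.le (by omega)) (by positivity) hM0
  rw [Finset.sum_const, Finset.card_range, nsmul_eq_mul] at h5
  have hN : 0 ≤ N := (norm_nonneg _).trans hz
  have h6 : N ≤ N * ‖w‖ ^ (d - 1) := le_mul_of_one_le_right hN (one_le_pow₀ h1.le)
  have h7 : ‖w‖ ^ d = ‖w‖ * ‖w‖ ^ (d - 1) := by
    rw [← pow_succ', Nat.sub_add_cancel hd]
  have h8 : ‖w‖ * ‖w‖ ^ (d - 1) ≤ (N + d * M) * ‖w‖ ^ (d - 1) := by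
    rw [← h7]; nlinarith
  have h9 : 0 < ‖w‖ ^ (d - 1) := by positivity
  exact absurd (le_of_mul_le_mul_right h8 h9) (not_le.2 h2)

theorem Fam.proper (h : Fam P d U) : IsProperMap (Ph P) := by
  rw [isProperMap_iff_isCompact_preimage]
  refine ⟨h.continuous_Ph, fun K hK => ?_⟩
  obtain ⟨N, hN⟩ := hK.isBounded.exists_norm_le
  have hN' : ∀ q ∈ K, ‖q.1‖ ≤ N ∧ ‖q.2‖ ≤ N := fun q hq =>
    ⟨(norm_fst_le q).trans (hN q hq), (norm_snd_le q).trans (hN q hq)⟩
  have hM : ∃ M : ℝ, ∀ z, ‖z‖ ≤ N → ∀ i < d, ‖(P z).coeff i‖ ≤ M := by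
    have : ∀ i, ∃ M : ℝ, ∀ z, ‖z‖ ≤ N → ‖(P z).coeff i‖ ≤ M := by
      intro i
      obtain ⟨M, hM⟩ := (isCompact_closedBall (0 : ℂ) N).exists_bound_of_continuousOn
        (h.cont i).continuousOn
      exact ⟨M, fun z hz => hM z (by simpa using hz)⟩
    choose M hM using this
    refine ⟨∑ i ∈ Finset.range d, |M i|, fun z hz i hi => ?_⟩
    refine (hM i z hz).trans ((le_abs_self _).trans ?_)
    exact Finset.single_le_sum (f := fun i => |M i|) (fun j _ => abs_nonneg _)
      (Finset.mem_range.2 hi)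
  obtain ⟨M, hM⟩ := hM
  refine IsCompact.of_isClosed_subset (isCompact_closedBall (0 : ℂ × ℂ)
    (max N (max 1 (N + d * M)))) (hK.isClosed.preimage h.continuous_Ph) ?_
  intro q hq
  have hq' := hN' _ hq
  rw [mem_closedBall_zero_iff, Prod.norm_def]
  refine max_le_max hq'.1 ?_
  exact h.bound hM q.1 q.2 hq'.1 hq'.2

theorem Fam.analyticAt (h : Fam P d U) {q : ℂ × ℂ} (hq : q.1 ∈ U) :
    AnalyticAt ℂ (fun q : ℂ × ℂ => (P q.1).eval q.2) q := by
  simp only [h.eval_eq]
  refine Finset.analyticAt_fun_sum _ fun i _ => ?_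
  refine AnalyticAt.mul ?_ (analyticAt_snd.pow i)
  exact AnalyticAt.comp (g := fun z => (P z).coeff i) (h.an i q.1 hq) analyticAt_fst

theorem Fam.local_homeo (h : Fam P d U) {q : ℂ × ℂ} (hq : q.1 ∈ U)
    (h0 : (P q.1).eval q.2 = 0) :
    ∃ e : OpenPartialHomeomorph (ℂ × ℂ) (ℂ × ℂ), q ∈ e.source ∧ e = Ph P ∧
      DifferentiableAt ℂ e.symm (e q) := by
  have han := h.analyticAt hq
  have hst := han.hasStrictFDerivAt
  set L := fderiv ℂ (fun q : ℂ × ℂ => (P q.1).eval q.2) q with hL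
  have hB : L (0, 1) = (P q.1).derivative.eval q.2 := by
    have h1 : HasDerivAt (fun w : ℂ => (q.1, w)) ((0 : ℂ), (1 : ℂ)) q.2 :=
      (hasDerivAt_const _ _).prodMk (hasDerivAt_id _)
    have h2 := hst.hasFDerivAt.comp_hasDerivAt_of_eq (f := fun w : ℂ => (q.1, w)) q.2 h1 (by simp)
    exact h2.unique ((P q.1).hasDerivAt q.2)
  have hB0 : L (0, 1) ≠ 0 := by
    rw [hB]
    intro h1
    obtain ⟨a, b, hab⟩ := h.sep _ hq
    have h2 := congrArg (eval q.2) hab
    simp [h0, h1] at h2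
  set B := L (0, 1)
  set A := L (1, 0)
  have hLxy : ∀ v : ℂ × ℂ, L v = v.1 * A + v.2 * B := by
    intro v
    have : v = v.1 • ((1 : ℂ), (0 : ℂ)) + v.2 • ((0 : ℂ), (1 : ℂ)) := by
      ext <;> simp
    conv_lhs => rw [this]
    rw [map_add, map_smul, map_smul, smul_eq_mul, smul_eq_mul]
  let E : (ℂ × ℂ) ≃L[ℂ] (ℂ × ℂ) := ContinuousLinearEquiv.equivOfInverse
    ((ContinuousLinearMap.fst ℂ ℂ ℂ).prod L)
    ((ContinuousLinearMap.fst ℂ ℂ ℂ).prod
      (B⁻¹ • (ContinuousLinearMap.snd ℂ ℂ ℂ - A • ContinuousLinearMap.fst ℂ ℂ ℂ)))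
    (by
      intro v
      ext
      · simp
      · simp [hLxy]; field_simp; ring)
    (by
      intro v
      ext
      · simp
      · simp [hLxy]; field_simp; ring)
  have hst2 : HasStrictFDerivAt (Ph P) (E : (ℂ × ℂ) →L[ℂ] (ℂ × ℂ)) q := by
    have : HasStrictFDerivAt (Ph P) ((ContinuousLinearMap.fst ℂ ℂ ℂ).prod L) q :=
      hasStrictFDerivAt_fst.prodMk hst
    exact this
  refine ⟨hst2.toOpenPartialHomeomorph (Ph P), hst2.mem_toOpenPartialHomeomorph_source,
    hst2.toOpenPartialHomeomorph_coe, ?_⟩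
  have h5 := hst2.to_localInverse
  have h6 := h5.hasFDerivAt.differentiableAt
  exact h6

/-- **The covering of roots.** -/
theorem Fam.covering (h : Fam P d U) :
    IsCoveringMapOn (Ph P) {q | q.1 ∈ U ∧ q.2 = 0} := by
  refine IsClosedMap.isCoveringMapOn_of_isLocalHomeomorphOn h.proper.isClosedMap ?_ ?_
  · rintro ⟨z, c⟩ ⟨hz, hc⟩
    have h1 : (Ph P) ⁻¹' {(z, c)} ⊆ (fun w => (z, w)) '' {w | w ∈ (P z).roots.toFinset} := by
      rintro ⟨z', w⟩ hw
      rw [mem_preimage, mem_singleton_iff, Ph, Prod.mk.injEq] at hw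
      obtain ⟨h2, h3⟩ := hw
      simp only at h2 h3 hc
      subst h2
      refine ⟨w, ?_, rfl⟩
      rw [mem_ofPred_eq, Multiset.mem_toFinset, mem_roots (h.monic z').ne_zero, IsRoot.def, h3, hc]
    exact ((Finset.finite_toSet _).image _).subset h1
  · rintro q ⟨hq, h0⟩
    obtain ⟨e, h1, h2, -⟩ := h.local_homeo (q := q) hq h0
    exact ⟨e, h1, h2.symm⟩

/-- a continuous root is holomorphic -/
theorem Fam.differentiableAt (h : Fam P d U) {V : Set ℂ} (hV : IsOpen V) (hVU : V ⊆ U)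
    {e : ℂ → ℂ} (he : ContinuousOn e V) (h0 : ∀ z ∈ V, (P z).eval (e z) = 0) :
    DifferentiableOn ℂ e V := by
  intro z hz
  refine DifferentiableAt.differentiableWithinAt ?_
  obtain ⟨E, h1, h2, h3⟩ := h.local_homeo (q := (z, e z)) (hVU hz) (h0 z hz)
  have hce : ContinuousAt (fun z => (z, e z)) z :=
    continuousAt_id.prodMk (he.continuousAt (hV.mem_nhds hz))
  have h4 : ∀ᶠ z' in 𝓝 z, (z', e z') ∈ E.source :=
    hce.eventually (E.open_source.mem_nhds h1)
  have h5 : ∀ᶠ z' in 𝓝 z, e z' = (E.symm (z', 0)).2 := by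
    filter_upwards [h4, hV.mem_nhds hz] with z' h6 h7
    have h8 : E (z', e z') = (z', 0) := by
      rw [h2, Ph]; simp [h0 z' h7]
    rw [← h8, E.left_inv h6]
  have h9 : E (z, e z) = (z, 0) := by
    rw [h2, Ph]; simp [h0 z hz]
  rw [h9] at h3
  have h10 : DifferentiableAt ℂ (fun z' : ℂ => (E.symm (z', 0)).2) z := by
    have h11 : DifferentiableAt ℂ (fun z' : ℂ => (z', (0 : ℂ))) z := by fun_prop
    exact (DifferentiableAt.comp z h3 h11).snd
  exact h10.congr_of_eventuallyEq h5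

end

end Pool.Agent.H56.PR

end

section

/-!
Lifting along convex sets, and the extension of a single valued root over an isolated
point of non-separability.
-/

namespace Pool.Agent.H56.PR

open Topology Filter Set Polynomial Metric

noncomputable section

variable {P : ℂ → ℂ[X]} {d : ℕ} {U : Set ℂ}

theorem Fam.lift_uniq (h : Fam P d U) {A : Type*} [TopologicalSpace A] [SimplyConnectedSpace A]
    [LocallyPathConnectedSpace A] (f : C(A, ℂ)) (hf : ∀ a, f a ∈ U) (a₀ : A) (w₀ : ℂ)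
    (h0 : (P (f a₀)).eval w₀ = 0) :
    ∃! e : C(A, ℂ), e a₀ = w₀ ∧ ∀ a, (P (f a)).eval (e a) = 0 := by
  obtain ⟨F, ⟨hF1, hF2⟩, hF3⟩ := h.covering.existsUnique_continuousMap_lifts
    (⟨fun a => (f a, 0), by fun_prop⟩ : C(A, ℂ × ℂ)) (a₀ := a₀) (e₀ := (f a₀, w₀))
    (by simp [Ph, h0]) (fun a => ⟨hf a, rfl⟩)
  have hF4 : ∀ a, (F a).1 = f a ∧ (P (f a)).eval (F a).2 = 0 := by
    intro a
    have := congrFun hF2 a
    simp only [Function.comp_apply, Ph, ContinuousMap.coe_mk, Prod.mk.injEq] at this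
    refine ⟨this.1, ?_⟩
    rw [← this.1]; exact this.2
  refine ⟨⟨fun a => (F a).2, by fun_prop⟩, ⟨by simp [hF1], fun a => (hF4 a).2⟩, ?_⟩
  rintro e ⟨he1, he2⟩
  have := hF3 ⟨fun a => (f a, e a), by fun_prop⟩ ⟨by simp [he1], by funext a; simp [Ph, he2]⟩
  ext a
  have := congrArg (fun G : C(A, ℂ × ℂ) => (G a).2) this
  simpa using this

section conv

variable {E : Type*} [NormedAddCommGroup E] [NormedSpace ℝ E] {S : Set E}

theorem Fam.exists_on (h : Fam P d U) (hSo : IsOpen S) (hSc : Convex ℝ S) {f : E → ℂ}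
    (hf : ContinuousOn f S) (hfU : MapsTo f S U) {s₀ : E} (hs₀ : s₀ ∈ S) {w₀ : ℂ}
    (hw₀ : (P (f s₀)).eval w₀ = 0) :
    ∃ e : E → ℂ, ContinuousOn e S ∧ e s₀ = w₀ ∧ ∀ s ∈ S, (P (f s)).eval (e s) = 0 := by
  have : ContractibleSpace S := hSc.contractibleSpace ⟨s₀, hs₀⟩
  have : LocallyPathConnectedSpace S := hSo.locallyPathConnectedSpace
  obtain ⟨e, ⟨he1, he2⟩, -⟩ := h.lift_uniq (A := S) ⟨S.domRestrict f, hf.domRestrict⟩
    (fun a => hfU a.2) ⟨s₀, hs₀⟩ w₀ (by simpa using hw₀)
  classical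
  refine ⟨fun s => if hs : s ∈ S then e ⟨s, hs⟩ else 0, ?_, by simp [hs₀, he1], ?_⟩
  · rw [continuousOn_iff_continuous_domRestrict]
    refine e.continuous.congr fun a => ?_
    simp
  · intro s hs
    have := he2 ⟨s, hs⟩
    simpa [hs] using this

theorem Fam.eqOn_on (h : Fam P d U) (hSo : IsOpen S) (hSc : Convex ℝ S) {f : E → ℂ}
    (hf : ContinuousOn f S) (hfU : MapsTo f S U) {e e' : E → ℂ} (he : ContinuousOn e S)
    (he' : ContinuousOn e' S) (hr : ∀ s ∈ S, (P (f s)).eval (e s) = 0)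
    (hr' : ∀ s ∈ S, (P (f s)).eval (e' s) = 0) {s₀ : E} (hs₀ : s₀ ∈ S) (heq : e s₀ = e' s₀) :
    EqOn e e' S := by
  have : ContractibleSpace S := hSc.contractibleSpace ⟨s₀, hs₀⟩
  have : LocallyPathConnectedSpace S := hSo.locallyPathConnectedSpace
  have hu := (h.lift_uniq (A := S) ⟨S.domRestrict f, hf.domRestrict⟩
    (fun a => hfU a.2) ⟨s₀, hs₀⟩ (e s₀) (by simpa using hr s₀ hs₀)).unique
    (y₁ := ⟨S.domRestrict e, he.domRestrict⟩) (y₂ := ⟨S.domRestrict e', he'.domRestrict⟩)
    ⟨by simp, fun a => by simpa using hr a a.2⟩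
    ⟨by simp [heq], fun a => by simpa using hr' a a.2⟩
  intro s hs
  have := congrArg (fun G : C(S, ℂ) => G ⟨s, hs⟩) hu
  simpa using this

end conv

/-- the logarithm along a circle around an interior point -/
def lg (c : ℂ) (r : ℝ) (θ : ℝ) : ℂ :=
  Real.log r + θ * Complex.I + Complex.log (1 + c / r * Complex.exp (-(θ * Complex.I)))

theorem slit {c : ℂ} {r : ℝ} (hc : ‖c‖ < r) (θ : ℝ) :
    1 + c / r * Complex.exp (-(θ * Complex.I)) ∈ Complex.slitPlane := by
  have hr : 0 < r := (norm_nonneg _).trans_lt hc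
  apply Complex.mem_slitPlane_of_norm_lt_one
  rw [norm_mul, norm_div, ← neg_mul, ← Complex.ofReal_neg, Complex.norm_exp_ofReal_mul_I, mul_one,
    Complex.norm_real, Real.norm_eq_abs, abs_of_pos hr, div_lt_one hr]
  exact hc

theorem exp_lg {c : ℂ} {r : ℝ} (hc : ‖c‖ < r) (θ : ℝ) :
    Complex.exp (lg c r θ) = circleMap c r θ := by
  have hr : 0 < r := (norm_nonneg _).trans_lt hc
  rw [lg, Complex.exp_add, Complex.exp_add, Complex.exp_log (Complex.slitPlane_ne_zero (slit hc θ)),
    ← Complex.ofReal_exp, Real.exp_log hr, circleMap, mul_add, mul_one, add_comm]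
  congr 1
  have h1 : (r : ℂ) ≠ 0 := by exact_mod_cast hr.ne'
  have h2 : Complex.exp (θ * Complex.I) * Complex.exp (-(θ * Complex.I)) = 1 := by
    rw [← Complex.exp_add, add_neg_cancel, Complex.exp_zero]
  calc r * Complex.exp (θ * Complex.I) * (c / r * Complex.exp (-(θ * Complex.I)))
      = (r / r) * c * (Complex.exp (θ * Complex.I) * Complex.exp (-(θ * Complex.I))) := by ring
    _ = c := by rw [h2, div_self h1]; ring

theorem continuous_lg {c : ℂ} {r : ℝ} (hc : ‖c‖ < r) : Continuous (lg c r) := by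
  unfold lg
  refine Continuous.add (by fun_prop) ?_
  exact Continuous.clog (by fun_prop) fun θ => slit hc θ

theorem lg_two_pi (c : ℂ) (r : ℝ) :
    lg c r (2 * Real.pi) = lg c r 0 + 2 * Real.pi * Complex.I := by
  have h1 : Complex.exp (-(2 * Real.pi * Complex.I)) = 1 := by
    rw [Complex.exp_neg, Complex.exp_two_pi_mul_I, inv_one]
  unfold lg
  push_cast
  rw [h1]
  simp
  ring

/-- **A single valued root extends over an isolated bad point.** -/
theorem Fam.root_ext (h : Fam P d U) {ρ : ℝ} (hU : ball 0 ρ \ {0} ⊆ U) {c : ℂ} {r : ℝ}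
    (hc : ‖c‖ < r) (hr : ‖c‖ + r < ρ) {e : ℂ → ℂ} (he : ContinuousOn e (sphere c r))
    (h0 : ∀ z ∈ sphere c r, (P z).eval (e z) = 0) :
    ∃ E : ℂ → ℂ, DifferentiableOn ℂ E (ball 0 ρ) ∧ (∀ z ∈ sphere c r, E z = e z) ∧
      ∀ z ∈ ball 0 ρ, (P z).eval (E z) = 0 := by
  have hr0 : 0 < r := (norm_nonneg _).trans_lt hc
  have hρ : 0 < ρ := by have := norm_nonneg c; linarith
  set S : Set ℂ := {ζ | ζ.re < Real.log ρ} with hS
  have hSo : IsOpen S := isOpen_lt Complex.continuous_re continuous_const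
  have hSc : Convex ℝ S := convex_halfSpace_lt Complex.reLm.isLinear _
  have hexp : ∀ ζ ∈ S, Complex.exp ζ ∈ ball (0 : ℂ) ρ \ {0} := by
    intro ζ hζ
    refine ⟨?_, Complex.exp_ne_zero ζ⟩
    rw [mem_ball_zero_iff, Complex.norm_exp]
    calc Real.exp ζ.re < Real.exp (Real.log ρ) := Real.exp_lt_exp.2 hζ
      _ = ρ := Real.exp_log hρ
  have hmS : ∀ ζ, Complex.exp ζ ∈ ball (0 : ℂ) ρ → ζ ∈ S := by
    intro ζ hζ
    rw [mem_ball_zero_iff, Complex.norm_exp] at hζ
    exact (Real.lt_log_iff_exp_lt hρ).2 hζ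
  have hsph : ∀ z ∈ sphere c r, z ∈ ball (0 : ℂ) ρ := by
    intro z hz
    rw [mem_ball_zero_iff]
    have h1 : ‖z‖ ≤ ‖c‖ + ‖z - c‖ := by
      have := norm_add_le c (z - c)
      rwa [add_sub_cancel] at this
    rw [mem_sphere_iff_norm] at hz
    linarith
  have hcir : ∀ θ, circleMap c r θ ∈ sphere c r := fun θ => circleMap_mem_sphere c hr0.le θ
  have hlgS : ∀ θ, lg c r θ ∈ S := fun θ => hmS _ (by rw [exp_lg hc]; exact hsph _ (hcir θ))
  have hfU : MapsTo Complex.exp S U := fun ζ hζ => hU (hexp ζ hζ)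
  obtain ⟨G, hG1, hG2, hG3⟩ := h.exists_on hSo hSc Complex.continuous_exp.continuousOn hfU
    (hlgS 0) (w₀ := e (circleMap c r 0)) (by rw [exp_lg hc]; exact h0 _ (hcir 0))
  -- along the circle
  have hG4 : ∀ θ : ℝ, G (lg c r θ) = e (circleMap c r θ) := by
    have := h.eqOn_on (S := (univ : Set ℝ)) isOpen_univ convex_univ
      (f := circleMap c r) (continuous_circleMap c r).continuousOn
      (fun θ _ => by rw [← exp_lg hc]; exact hfU (hlgS θ))
      (e := fun θ => G (lg c r θ)) (e' := fun θ => e (circleMap c r θ))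
      (hG1.comp (continuous_lg hc).continuousOn fun θ _ => hlgS θ)
      (he.comp (continuous_circleMap c r).continuousOn fun θ _ => hcir θ)
      (fun θ _ => by rw [← exp_lg hc]; exact hG3 _ (hlgS θ))
      (fun θ _ => h0 _ (hcir θ)) (s₀ := 0) (mem_univ _) hG2
    exact fun θ => this (mem_univ θ)
  -- periodicity
  have hper0 : G (lg c r 0 + 2 * Real.pi * Complex.I) = G (lg c r 0) := by
    rw [← lg_two_pi, hG4, hG4]
    congr 1
    simp [circleMap]
  have hsh : ∀ ζ ∈ S, ζ + 2 * Real.pi * Complex.I ∈ S := by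
    intro ζ hζ
    simpa [hS] using hζ
  have hper : ∀ ζ ∈ S, G (ζ + 2 * Real.pi * Complex.I) = G ζ := by
    have hexp2 : ∀ ζ : ℂ, Complex.exp (ζ + 2 * Real.pi * Complex.I) = Complex.exp ζ := fun ζ => by
      rw [Complex.exp_add, Complex.exp_two_pi_mul_I, mul_one]
    have := h.eqOn_on hSo hSc Complex.continuous_exp.continuousOn hfU
      (e := fun ζ => G (ζ + 2 * Real.pi * Complex.I)) (e' := G)
      (hG1.comp (by fun_prop) hsh) hG1
      (fun ζ hζ => by rw [← hexp2]; exact hG3 _ (hsh ζ hζ)) hG3 (hlgS 0) hper0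
    exact fun ζ hζ => this hζ
  have hperN : ∀ (n : ℕ), ∀ ζ ∈ S, G (ζ + n * (2 * Real.pi * Complex.I)) = G ζ := by
    intro n
    induction n with
    | zero => intro ζ _; simp
    | succ n ih =>
      intro ζ hζ
      have h1 : ζ + n * (2 * Real.pi * Complex.I) ∈ S := by simpa [hS] using hζ
      have h2 := hper _ h1
      rw [ih ζ hζ] at h2
      rw [← h2]
      congr 1
      push_cast
      ring
  have hperZ : ∀ ζ ∈ S, ∀ ζ' ∈ S, Complex.exp ζ = Complex.exp ζ' → G ζ = G ζ' := by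
    intro ζ hζ ζ' hζ' hee
    obtain ⟨n, hn⟩ := Complex.exp_eq_exp_iff_exists_int.1 hee
    rcases Int.eq_nat_or_neg n with ⟨m, rfl | rfl⟩
    · rw [hn]
      exact hperN m ζ' hζ'
    · have : ζ' = ζ + m * (2 * Real.pi * Complex.I) := by
        rw [hn]; push_cast; ring
      rw [this]
      exact (hperN m ζ hζ).symm
  -- descend
  set E₀ : ℂ → ℂ := fun z => G (Complex.log z) with hE₀
  have hE₀eq : ∀ ζ ∈ S, E₀ (Complex.exp ζ) = G ζ := by
    intro ζ hζ
    refine hperZ _ (hmS _ ?_) _ hζ ?_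
    · rw [Complex.exp_log (Complex.exp_ne_zero _)]
      exact (hexp ζ hζ).1
    · exact Complex.exp_log (Complex.exp_ne_zero _)
  have hlogS : ∀ z ∈ ball (0 : ℂ) ρ \ {0}, Complex.log z ∈ S := by
    rintro z ⟨hz, hz0⟩
    exact hmS _ (by rw [Complex.exp_log hz0]; exact hz)
  have hE₀root : ∀ z ∈ ball (0 : ℂ) ρ \ {0}, (P z).eval (E₀ z) = 0 := by
    intro z hz
    have := hG3 _ (hlogS z hz)
    rwa [Complex.exp_log hz.2] at this
  have hopen : IsOpen (ball (0 : ℂ) ρ \ {0}) := isOpen_ball.sdiff isClosed_singleton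
  have hE₀cont : ContinuousOn E₀ (ball 0 ρ \ {0}) := by
    intro z₁ hz₁
    refine ContinuousAt.continuousWithinAt ?_
    have hz10 : z₁ ≠ 0 := hz₁.2
    have hB : ContinuousAt (fun z => Complex.log (z / z₁) + Complex.log z₁) z₁ := by
      refine ContinuousAt.add (ContinuousAt.clog (by fun_prop) ?_) continuousAt_const
      rw [div_self hz10]; exact Complex.one_mem_slitPlane
    have hBv : Complex.log (z₁ / z₁) + Complex.log z₁ = Complex.log z₁ := by
      rw [div_self hz10, Complex.log_one, zero_add]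
    have hGc : ContinuousAt G (Complex.log (z₁ / z₁) + Complex.log z₁) := by
      rw [hBv]; exact hG1.continuousAt (hSo.mem_nhds (hlogS z₁ hz₁))
    have hcomp : ContinuousAt (fun z => G (Complex.log (z / z₁) + Complex.log z₁)) z₁ :=
      ContinuousAt.comp (f := fun z => Complex.log (z / z₁) + Complex.log z₁) hGc hB
    refine hcomp.congr ?_
    filter_upwards [hopen.mem_nhds hz₁] with z hz
    have hz0 : z ≠ 0 := hz.2
    have he1 : Complex.exp (Complex.log (z / z₁) + Complex.log z₁) = z := by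
      rw [Complex.exp_add, Complex.exp_log (div_ne_zero hz0 hz10), Complex.exp_log hz10,
        div_mul_cancel₀ _ hz10]
    have hmem : Complex.log (z / z₁) + Complex.log z₁ ∈ S := hmS _ (by rw [he1]; exact hz.1)
    rw [← hE₀eq _ hmem, he1]
  have hE₀diff : DifferentiableOn ℂ E₀ (ball 0 ρ \ {0}) :=
    h.differentiableAt hopen hU hE₀cont hE₀root
  -- bounded near 0
  have hM : ∃ M : ℝ, ∀ z ∈ ball (0 : ℂ) ρ \ {0}, ‖E₀ z‖ ≤ M := by
    have : ∀ i, ∃ M : ℝ, ∀ z, ‖z‖ ≤ ρ → ‖(P z).coeff i‖ ≤ M := by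
      intro i
      obtain ⟨M, hM⟩ := (isCompact_closedBall (0 : ℂ) ρ).exists_bound_of_continuousOn
        (h.cont i).continuousOn
      exact ⟨M, fun z hz => hM z (by simpa using hz)⟩
    choose M hM using this
    refine ⟨max 1 (ρ + d * ∑ i ∈ Finset.range d, |M i|), fun z hz => ?_⟩
    refine h.bound (N := ρ) ?_ z (E₀ z) ?_ ?_
    · intro z hz i hi
      refine (hM i z hz).trans ((le_abs_self _).trans ?_)
      exact Finset.single_le_sum (f := fun i => |M i|) (fun j _ => abs_nonneg _)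
        (Finset.mem_range.2 hi)
    · exact (mem_ball_zero_iff.1 hz.1).le
    · rw [hE₀root z hz, norm_zero]; exact hρ.le
  obtain ⟨M, hM⟩ := hM
  have hE := Complex.differentiableOn_update_limUnder_of_bddAbove
    (isOpen_ball.mem_nhds (mem_ball_self hρ)) hE₀diff
    (⟨M, by rintro _ ⟨z, hz, rfl⟩; exact hM z hz⟩ : BddAbove (norm ∘ E₀ '' (ball 0 ρ \ {0})))
  set E := Function.update E₀ 0 (limUnder (𝓝[≠] 0) E₀) with hEdef
  have hEeq : ∀ z ≠ 0, E z = E₀ z := fun z hz => Function.update_of_ne hz _ _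
  refine ⟨E, hE, ?_, ?_⟩
  · intro z hz
    obtain ⟨θ, rfl⟩ : ∃ θ : ℝ, circleMap c r θ = z := by
      have : z ∈ range (circleMap c r) := by
        rw [range_circleMap, abs_of_pos hr0]; exact hz
      exact this
    have hne : circleMap c r θ ≠ 0 := by rw [← exp_lg hc]; exact Complex.exp_ne_zero _
    rw [hEeq _ hne, ← hG4, ← hE₀eq _ (hlgS θ), exp_lg hc]
  · intro z hz
    by_cases hz0 : z = 0
    · subst hz0
      have hEc : ContinuousAt E 0 := (hE.differentiableAt
        (isOpen_ball.mem_nhds (mem_ball_self hρ))).continuousAt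
      have h1 : ContinuousAt (fun z => (P z).eval (E z)) 0 :=
        (h.continuous_eval.continuousAt (x := ((0 : ℂ), E 0))).comp_of_eq
          (f := fun z => (z, E z)) (continuousAt_id.prodMk hEc) rfl
      have h2 : Tendsto (fun z => (P z).eval (E z)) (𝓝[≠] 0) (𝓝 0) := by
        refine tendsto_const_nhds.congr' ?_
        have h3 : ball (0 : ℂ) ρ ∈ 𝓝[≠] (0 : ℂ) :=
          mem_nhdsWithin_of_mem_nhds (isOpen_ball.mem_nhds (mem_ball_self hρ))
        filter_upwards [h3, self_mem_nhdsWithin] with z h4 h5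
        rw [hEeq z h5, hE₀root z ⟨h4, h5⟩]
      exact tendsto_nhds_unique (h1.tendsto.mono_left nhdsWithin_le_nhds) h2
    · rw [hEeq z hz0]; exact hE₀root z ⟨hz, hz0⟩

end

end Pool.Agent.H56.PR

end

section

/-!
# OC Defs: ordered configurations and discriminant level sets

`P_z = X^n + z_1 X^(n-1) + ... + z_n`; `SG n` is the level set `z_1 = 0`, discriminant `1`; `MF k` is the set of the
ordered configurations `x` with `sum x = 0`, `prod_(i<j) (x_i - x_j) = 1`.
-/

set_option autoImplicit false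

open Polynomial Filter Topology

noncomputable section

namespace Pool.Agent.H60.OC

/-- The polynomial `X^n + z_1 X^(n-1) + ... + z_n` (the coordinate `z_(i+1)` is `z i`). -/
def poly {n : ℕ} (z : Fin n → ℂ) : ℂ[X] := X ^ n + ∑ i : Fin n, C (z i) * X ^ (n - 1 - (i : ℕ))

/-- `x` is a list of the roots of `P_z`, with multiplicities. -/
def IsRoots {n : ℕ} (x z : Fin n → ℂ) : Prop := poly z = ∏ i, (X - C (x i))

end Pool.Agent.H60.OC

end
end

section

/-!
# OC Root: coefficients and roots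
-/

set_option autoImplicit false

open Filter Topology Polynomial

noncomputable section

namespace Pool.Agent.H60.OC

theorem roots_eval {n : ℕ} {x z : Fin n → ℂ} (h : IsRoots x z) (i : Fin n) : (poly z).eval (x i) = 0 := by
  rw [h, eval_prod]
  exact Finset.prod_eq_zero (Finset.mem_univ i) (by simp)

/-- Two lists of the roots: a permutation, if one of them has no repetitions. -/
theorem exists_perm {n : ℕ} {x x' z : Fin n → ℂ} (h : IsRoots x z) (h' : IsRoots x' z) (hx : Function.Injective x') :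
    ∃ σ : Equiv.Perm (Fin n), x' = fun i => x (σ i) := by
  have h1 : ∀ i, ∃ j, x' i = x j := by
    intro i
    have h2 := roots_eval h' i
    rw [h, eval_prod] at h2
    obtain ⟨j, -, hj⟩ := Finset.prod_eq_zero_iff.1 h2
    rw [eval_sub, eval_X, eval_C] at hj
    exact ⟨j, sub_eq_zero.1 hj⟩
  choose g hg using h1
  have hgi : Function.Injective g := by
    intro i j hij
    apply hx
    rw [hg i, hg j, hij]
  exact ⟨Equiv.ofBijective g (Finite.injective_iff_bijective.1 hgi), funext hg⟩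

end Pool.Agent.H60.OC

end
end

section

/-!
# OC RootAna: continuous simple roots are holomorphic
-/

set_option autoImplicit false

open Filter Topology Polynomial

noncomputable section

namespace Pool.Agent.H60.OC

theorem root_diff {n : ℕ} {a ρ : ℂ → (Fin n → ℂ)} {w₁ : ℂ} (ha : DifferentiableAt ℂ a w₁) (hρ : ContinuousAt ρ w₁)
    (hr : ∀ᶠ w in 𝓝 w₁, IsRoots (ρ w) (a w)) (hi : Function.Injective (ρ w₁)) (i : Fin n) :
    DifferentiableAt ℂ (fun w => ρ w i) w₁ := by
  classical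
  have hρj : ∀ j, ContinuousAt (fun w => ρ w j) w₁ := fun j => continuousAt_pi.1 hρ j
  have haj : ∀ j, DifferentiableAt ℂ (fun w => a w j) w₁ := fun j => differentiableAt_pi.1 ha j
  set R : ℂ → ℂ := fun w => ∏ j ∈ Finset.univ.erase i, (ρ w i - ρ w₁ j) with hR
  have hRc : ContinuousAt R w₁ := by
    rw [hR]
    exact tendsto_finsetProd _ fun j _ => (hρj i).sub continuousAt_const
  have hR0 : R w₁ ≠ 0 := Finset.prod_ne_zero_iff.2 fun j hj => sub_ne_zero.2 fun h =>
    (Finset.ne_of_mem_erase hj) (hi h).symm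
  have hRe : ∀ᶠ w in 𝓝 w₁, R w ≠ 0 := hRc.eventually_ne hR0
  have key : ∀ᶠ w in 𝓝 w₁, (ρ w i - ρ w₁ i) * R w = -∑ j : Fin n, (a w j - a w₁ j) * ρ w i ^ (n - 1 - (j : ℕ)) := by
    have h1 := hr.self_of_nhds
    filter_upwards [hr] with w hw
    have h2 : (poly (a w₁)).eval (ρ w i) = (ρ w i - ρ w₁ i) * R w := by
      rw [h1, eval_prod, ← Finset.mul_prod_erase Finset.univ _ (Finset.mem_univ i)]
      simp [hR]
    have h3 := roots_eval hw i
    rw [← h2]
    have h4 : (poly (a w₁)).eval (ρ w i) = (poly (a w₁)).eval (ρ w i) - (poly (a w)).eval (ρ w i) := by rw [h3, sub_zero]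
    rw [h4]
    unfold poly
    simp only [eval_add, eval_pow, eval_X, eval_finsetSum, eval_mul, eval_C]
    rw [add_sub_add_left_eq_sub, ← Finset.sum_sub_distrib, ← Finset.sum_neg_distrib]
    refine Finset.sum_congr rfl fun j _ => ?_
    ring
  have hlim : HasDerivAt (fun w => ρ w i) (-∑ j : Fin n, deriv (fun w => a w j) w₁ * ρ w₁ i ^ (n - 1 - (j : ℕ)) * (R w₁)⁻¹) w₁ := by
    rw [hasDerivAt_iff_tendsto_slope]
    have h1 : Tendsto (fun w => -∑ j : Fin n, slope (fun w => a w j) w₁ w * ρ w i ^ (n - 1 - (j : ℕ)) * (R w)⁻¹) (𝓝[≠] w₁)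
        (𝓝 (-∑ j : Fin n, deriv (fun w => a w j) w₁ * ρ w₁ i ^ (n - 1 - (j : ℕ)) * (R w₁)⁻¹)) := by
      refine (tendsto_finsetSum _ fun j _ => ?_).neg
      refine Tendsto.mul (Tendsto.mul (hasDerivAt_iff_tendsto_slope.1 (haj j).hasDerivAt) ?_) ?_
      · exact (((hρj i).pow _).tendsto).mono_left nhdsWithin_le_nhds
      · exact ((hRc.inv₀ hR0).tendsto).mono_left nhdsWithin_le_nhds
    refine h1.congr' ?_
    have h2 : ∀ᶠ w in 𝓝[≠] w₁, w ∈ ({w₁}ᶜ : Set ℂ) := self_mem_nhdsWithin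
    filter_upwards [h2, nhdsWithin_le_nhds key, nhdsWithin_le_nhds hRe] with w hw hk hRw
    have hne : w - w₁ ≠ 0 := sub_ne_zero.2 hw
    rw [slope_def_field, eq_div_iff hne]
    refine mul_right_cancel₀ hRw ?_
    rw [hk, neg_mul, neg_mul, Finset.sum_mul, Finset.sum_mul]
    congr 1
    refine Finset.sum_congr rfl fun j _ => ?_
    rw [slope_def_field]
    field_simp
  exact hlim.differentiableAt

end Pool.Agent.H60.OC

end
end

section

/-!
# LR RootLoc: continuous choice of the roots, local form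

`roots_local`.  Let `r` be the (distinct) roots at `y₀`, `δ > 0` with `2 δ ≤ |r_i - r_j|` for `i ≠ j`.  `z ↦ (poly z).eval w`
is continuous in `z` (for fixed `w`), and `(poly (H y)).eval (r i) = ∏_j (r i - r'_j)` for every root list `r'` of `H y`,
so `|(poly (H y)).eval (r i)| < ε^n` forces some `|r i - r'_j| < ε`.  So for `y` near `y₀` every disc
`ball (r i) δ` contains a root `r'_j` of `H y`; the discs are disjoint, there are `n` of them, so each contains exactly
one root; `ρ y i` = the root in the disc with centre `r i` (choose).  `V` = the set of `y` with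
`|(poly (H y)).eval (r i)| < δ^n` for all `i` (open, contains `y₀`).  Continuity of `ρ` at a point `y₁` of `V`: the roots
of `H y₁` are `ρ y₁ i` (distinct); for small `ε` with `ball (ρ y₁ i) ε ⊆ ball (r i) δ` and `y` near `y₁` there is a root of
`H y` in `ball (ρ y₁ i) ε`, it is in `ball (r i) δ`, so it is `ρ y i`.  (For `n = 0` everything is trivial.)
-/

set_option autoImplicit false

open Topology Filter Polynomial

noncomputable section

namespace Pool.Agent.LR

open Pool.Agent.H60.OC (poly IsRoots)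

theorem rl_eval {n : ℕ} {r z : Fin n → ℂ} (h : IsRoots r z) (w : ℂ) :
    (poly z).eval w = ∏ j, (w - r j) := by
  rw [h, eval_prod]
  exact Finset.prod_congr rfl fun j _ => by simp

theorem rl_near {n : ℕ} {r z : Fin n → ℂ} (h : IsRoots r z) (w : ℂ) {ε : ℝ} (hε : 0 < ε)
    (hw : ‖(poly z).eval w‖ < ε ^ n) : ∃ j, ‖w - r j‖ < ε := by
  by_contra hcon
  push Not at hcon
  rw [rl_eval h, norm_prod] at hw
  have h1 : ε ^ n = ∏ _j : Fin n, ε := by simp
  rw [h1] at hw
  exact absurd hw (not_lt.mpr (Finset.prod_le_prod (fun _ _ => hε.le) fun j _ => hcon j))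

theorem rl_cont {n : ℕ} (w : ℂ) : Continuous fun z : Fin n → ℂ => (poly z).eval w := by
  unfold poly
  simp only [eval_add, eval_pow, eval_X, eval_finsetSum, eval_mul, eval_C]
  fun_prop

theorem rl_delta {n : ℕ} {r : Fin n → ℂ} (hr : Function.Injective r) :
    ∃ δ : ℝ, 0 < δ ∧ ∀ i j, ‖r i - r j‖ < 2 * δ → i = j := by
  classical
  rcases ((Finset.univ : Finset (Fin n × Fin n)).filter fun p => p.1 ≠ p.2).eq_empty_or_nonempty
    with h | h
  · refine ⟨1, one_pos, fun i j _ => ?_⟩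
    by_contra hne
    have : (i, j) ∈ ((Finset.univ : Finset (Fin n × Fin n)).filter fun p => p.1 ≠ p.2) := by
      rw [Finset.mem_filter]
      exact ⟨Finset.mem_univ _, hne⟩
    rw [h] at this
    exact absurd this (Finset.notMem_empty _)
  · obtain ⟨p, hp, hmin⟩ := Finset.exists_min_image _ (fun p : Fin n × Fin n => ‖r p.1 - r p.2‖) h
    rw [Finset.mem_filter] at hp
    have hpos : 0 < ‖r p.1 - r p.2‖ := norm_pos_iff.mpr (sub_ne_zero.mpr fun h => hp.2 (hr h))
    refine ⟨‖r p.1 - r p.2‖ / 2, by positivity, fun i j hij => ?_⟩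
    by_contra hne
    have h1 := hmin (i, j) (by
      rw [Finset.mem_filter]
      exact ⟨Finset.mem_univ _, hne⟩)
    simp only at h1
    linarith

theorem roots_local {Y : Type} [TopologicalSpace Y] {n : ℕ} {H : Y → (Fin n → ℂ)} (hH : Continuous H)
    (hd : ∀ y, ∃ r, IsRoots r (H y) ∧ Function.Injective r) (y₀ : Y) :
    ∃ (V : Set Y) (ρ : Y → (Fin n → ℂ)), IsOpen V ∧ y₀ ∈ V ∧ ContinuousOn ρ V ∧ ∀ y ∈ V, IsRoots (ρ y) (H y) := by
  classical
  choose r' hr' hri' using hd
  obtain ⟨δ, hδ, hsep⟩ := rl_delta (hri' y₀)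
  obtain ⟨r, hr⟩ : ∃ r, r = r' y₀ := ⟨_, rfl⟩
  rw [← hr] at hsep
  have hev : ∀ w, Continuous fun y => ‖(poly (H y)).eval w‖ := fun w => ((rl_cont w).comp hH).norm
  have hτ : ∀ y, ∃ τ : Fin n → Fin n, (∀ i, ‖(poly (H y)).eval (r i)‖ < δ ^ n) →
      ∀ i, ‖r i - r' y (τ i)‖ < δ := by
    intro y
    by_cases hy : ∀ i, ‖(poly (H y)).eval (r i)‖ < δ ^ n
    · have h1 : ∀ i, ∃ j, ‖r i - r' y j‖ < δ := fun i => rl_near (hr' y) (r i) hδ (hy i)
      choose τ hτ using h1
      exact ⟨τ, fun _ => hτ⟩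
    · exact ⟨id, fun h => absurd h hy⟩
  choose τ hτ using hτ
  have hinj : ∀ y, (∀ i, ‖(poly (H y)).eval (r i)‖ < δ ^ n) → Function.Injective (τ y) := by
    intro y hy i j hij
    apply hsep
    have h1 := hτ y hy i
    have h2 := hτ y hy j
    rw [hij] at h1
    have h3 : r i - r j = (r i - r' y (τ y j)) - (r j - r' y (τ y j)) := by ring
    rw [h3]
    refine lt_of_le_of_lt (norm_sub_le _ _) ?_
    linarith
  refine ⟨{y | ∀ i, ‖(poly (H y)).eval (r i)‖ < δ ^ n}, fun y i => r' y (τ y i), ?_, ?_, ?_, ?_⟩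
  · rw [Set.ofPred_forall]
    exact isOpen_iInter_of_finite fun i => isOpen_lt (hev (r i)) continuous_const
  · intro i
    rw [hr, Pool.Agent.H60.OC.roots_eval (hr' y₀) i, norm_zero]
    positivity
  · intro y₁ hy₁
    have hy₁' : ∀ i, ‖(poly (H y₁)).eval (r i)‖ < δ ^ n := hy₁
    refine ContinuousAt.continuousWithinAt ?_
    refine continuousAt_pi.mpr fun i => ?_
    rw [Metric.continuousAt_iff']
    intro ε hε
    obtain ⟨e, he⟩ : ∃ e, e = min ε (δ - ‖r i - r' y₁ (τ y₁ i)‖) := ⟨_, rfl⟩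
    have he0 : 0 < e := by
      rw [he]
      exact lt_min hε (by linarith [hτ y₁ hy₁' i])
    have h1 : ∀ᶠ y in 𝓝 y₁, ‖(poly (H y)).eval (r' y₁ (τ y₁ i))‖ < e ^ n := by
      refine (hev _).continuousAt.eventually_lt continuousAt_const ?_
      rw [Pool.Agent.H60.OC.roots_eval (hr' y₁) _, norm_zero]
      positivity
    have h2 : ∀ᶠ y in 𝓝 y₁, ∀ i, ‖(poly (H y)).eval (r i)‖ < δ ^ n := by
      rw [Filter.eventually_all]
      intro i
      exact (hev _).continuousAt.eventually_lt continuousAt_const (hy₁' i)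
    filter_upwards [h1, h2] with y hy1 hy2
    obtain ⟨j, hj⟩ := rl_near (hr' y) _ he0 hy1
    obtain ⟨i', hi'⟩ := (Finite.injective_iff_surjective.mp (hinj y hy2)) j
    have h3 : ‖r i - r' y j‖ < δ := by
      have e1 : r i - r' y j = (r i - r' y₁ (τ y₁ i)) + (r' y₁ (τ y₁ i) - r' y j) := by ring
      rw [e1]
      refine lt_of_le_of_lt (norm_add_le _ _) ?_
      have h4 : e ≤ δ - ‖r i - r' y₁ (τ y₁ i)‖ := by rw [he]; exact min_le_right _ _
      linarith
    have h5 := hτ y hy2 i'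
    rw [hi'] at h5
    have h6 : i = i' := by
      apply hsep
      have e1 : r i - r i' = (r i - r' y j) - (r i' - r' y j) := by ring
      rw [e1]
      refine lt_of_le_of_lt (norm_sub_le _ _) ?_
      linarith
    rw [dist_eq_norm, h6, hi', ← h6, norm_sub_rev]
    exact lt_of_lt_of_le hj (by rw [he]; exact min_le_left _ _)
  · intro y hy
    have hb : Function.Bijective (τ y) := Finite.injective_iff_bijective.mp (hinj y hy)
    have h1 := hr' y
    unfold IsRoots at h1 ⊢
    rw [h1]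
    exact (Function.Bijective.prod_comp hb fun j => (X - C (r' y j) : ℂ[X])).symm

end Pool.Agent.LR

end
end

section

/-!
# LR Cover: continuous choice of the roots, global form

`exists_perm_on`.  For `x ∈ W` there is a permutation `s_x` with `ρ' x (s_x j) = ρ x j` (`OC.exists_perm`: two root lists of
the same polynomial; `ρ x` injective), unique as `ρ' x` is injective.  For fixed `s` the set of the `x ∈ W` with
`s_x = s` is relatively closed (the equations `ρ' x (s j) = ρ x j`), and `W` is a finite disjoint union of these sets, so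
each is relatively clopen; `W` is preconnected, so `s_x` is constant on `W`.

`roots_simply`.  `E' = {p : Y × (Fin n → ℂ) | IsRoots p.2 (H p.1)} → Y` is a covering map (`IsCoveringMap`): over the open
set `V` of `roots_local` the map `V × Perm (Fin n) → E'`, `(y, s) ↦ (y, ρ y ∘ s)` is a homeomorphism onto the preimage of
`V` (`OC.exists_perm`; continuity of the inverse: the permutation is locally constant, as `ρ y` is injective and
continuous).  Then lift `id : Y → Y` with `IsCoveringMap.existsUnique_continuousMap_lifts` (`Y` simply connected, locally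
path connected).  Alternative: the covering `{p : Y × ℂ | (poly (H p.1)).eval p.2 = 0} → Y` with `n` sheets and `n` lifts.
If `Y` is simply connected it is nonempty, choose the base point.

`exists_roots_on`: apply this to the subtype `U` (an open star-shaped set: contractible, so simply connected; open in a
normed space, so locally path connected) and extend `ρ` by `0` outside `U`.
-/

set_option autoImplicit false

open Topology Filter Polynomial

noncomputable section

namespace Pool.Agent.LR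

open Pool.Agent.H60.OC (poly IsRoots)

/-- A root list is injective if some root list of the same polynomial is. -/
theorem cv_inj {n : ℕ} {x x' z : Fin n → ℂ} (h : IsRoots x z) (h' : IsRoots x' z)
    (hx : Function.Injective x') : Function.Injective x := by
  obtain ⟨σ, hσ⟩ := Pool.Agent.H60.OC.exists_perm h h' hx
  intro i j hij
  have h1 : x' (σ.symm i) = x' (σ.symm j) := by
    rw [hσ]
    simpa using hij
  exact σ.symm.injective (hx h1)

/-- The permutation matching two root lists, in the other direction. -/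
theorem cv_perm {n : ℕ} {x x' z : Fin n → ℂ} (h : IsRoots x z) (h' : IsRoots x' z)
    (hx : Function.Injective x) : ∃ s : Equiv.Perm (Fin n), ∀ j, x' (s j) = x j := by
  obtain ⟨σ, hσ⟩ := Pool.Agent.H60.OC.exists_perm h' h hx
  exact ⟨σ, fun j => (congrFun hσ j).symm⟩

/-- The set where a fixed permutation matches: relatively closed. -/
theorem cv_closed {Y : Type} [TopologicalSpace Y] {n : ℕ} {ρ ρ' : Y → (Fin n → ℂ)}
    (hc : Continuous ρ) (hc' : Continuous ρ') (s : Equiv.Perm (Fin n)) :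
    IsClosed {x | ∀ j, ρ' x (s j) = ρ x j} := by
  have e : {x | ∀ j, ρ' x (s j) = ρ x j} = ⋂ j, {x | ρ' x (s j) = ρ x j} := by
    ext x
    simp
  rw [e]
  exact isClosed_iInter fun j =>
    isClosed_eq ((continuous_apply (s j)).comp hc') ((continuous_apply j).comp hc)

/-- The set where a fixed permutation matches is clopen. -/
theorem cv_clopen {Y : Type} [TopologicalSpace Y] {n : ℕ} {ρ ρ' : Y → (Fin n → ℂ)}
    (hc : Continuous ρ) (hc' : Continuous ρ') {H : Y → (Fin n → ℂ)}
    (hr : ∀ x, IsRoots (ρ x) (H x)) (hr' : ∀ x, IsRoots (ρ' x) (H x))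
    (hi : ∀ x, Function.Injective (ρ x)) (s : Equiv.Perm (Fin n)) :
    IsClopen {x | ∀ j, ρ' x (s j) = ρ x j} := by
  refine ⟨cv_closed hc hc' s, ?_⟩
  rw [← isClosed_compl_iff]
  have e : {x | ∀ j, ρ' x (s j) = ρ x j}ᶜ =
      ⋃ t ∈ {t : Equiv.Perm (Fin n) | t ≠ s}, {x | ∀ j, ρ' x (t j) = ρ x j} := by
    ext x
    simp only [Set.mem_compl_iff, Set.mem_iUnion, Set.mem_ofPred_eq, exists_prop]
    constructor
    · intro hx
      obtain ⟨t, ht⟩ := cv_perm (hr x) (hr' x) (hi x)
      refine ⟨t, fun hts => hx ?_, ht⟩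
      rw [← hts]
      exact ht
    · rintro ⟨t, hts, ht⟩ hs
      apply hts
      have hi' : Function.Injective (ρ' x) := cv_inj (hr' x) (hr x) (hi x)
      ext1 j
      exact hi' ((ht j).trans (hs j).symm)
  rw [e]
  exact (Set.toFinite _).isClosed_biUnion fun t _ => cv_closed hc hc' t

theorem exists_perm_on {Y : Type} [TopologicalSpace Y] {n : ℕ} {W : Set Y} (hW : IsPreconnected W)
    {ρ ρ' : Y → (Fin n → ℂ)} (hc : ContinuousOn ρ W) (hc' : ContinuousOn ρ' W) {H : Y → (Fin n → ℂ)}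
    (hr : ∀ x ∈ W, IsRoots (ρ x) (H x)) (hr' : ∀ x ∈ W, IsRoots (ρ' x) (H x))
    (hi : ∀ x ∈ W, Function.Injective (ρ x)) :
    ∃ s : Equiv.Perm (Fin n), ∀ x ∈ W, ∀ j, ρ' x (s j) = ρ x j := by
  rcases W.eq_empty_or_nonempty with rfl | ⟨x₀, hx₀⟩
  · exact ⟨1, fun x hx => absurd hx (Set.notMem_empty x)⟩
  · obtain ⟨s, hs⟩ := cv_perm (hr x₀ hx₀) (hr' x₀ hx₀) (hi x₀ hx₀)
    have : PreconnectedSpace W := isPreconnected_iff_preconnectedSpace.1 hW
    have hcl : IsClopen {x : W | ∀ j, ρ' x (s j) = ρ x j} :=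
      cv_clopen (Y := W) (ρ := fun x : W => ρ x) (ρ' := fun x : W => ρ' x)
        (continuousOn_iff_continuous_domRestrict.1 hc) (continuousOn_iff_continuous_domRestrict.1 hc')
        (H := fun x : W => H x) (fun x => hr x x.2) (fun x => hr' x x.2) (fun x => hi x x.2) s
    have huniv := hcl.eq_univ ⟨⟨x₀, hx₀⟩, hs⟩
    refine ⟨s, fun x hx => ?_⟩
    have : (⟨x, hx⟩ : W) ∈ {x : W | ∀ j, ρ' x (s j) = ρ x j} := by
      rw [huniv]
      exact Set.mem_univ _
    exact this

/-- The space of ordered root lists. -/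
def CE {Y : Type} {n : ℕ} (H : Y → (Fin n → ℂ)) : Type :=
  {p : Y × (Fin n → ℂ) // IsRoots p.2 (H p.1)}

instance {Y : Type} [TopologicalSpace Y] {n : ℕ} (H : Y → (Fin n → ℂ)) : TopologicalSpace (CE H) :=
  inferInstanceAs (TopologicalSpace {p : Y × (Fin n → ℂ) // IsRoots p.2 (H p.1)})

/-- The projection. -/
def cpr {Y : Type} {n : ℕ} (H : Y → (Fin n → ℂ)) : CE H → Y := fun p => p.1.1

theorem cpr_cont {Y : Type} [TopologicalSpace Y] {n : ℕ} (H : Y → (Fin n → ℂ)) :
    Continuous (cpr H) := continuous_fst.comp continuous_subtype_val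

theorem csd_cont {Y : Type} [TopologicalSpace Y] {n : ℕ} (H : Y → (Fin n → ℂ)) :
    Continuous (fun p : CE H => p.1.2) := continuous_snd.comp continuous_subtype_val

theorem isRoots_perm {n : ℕ} {r z : Fin n → ℂ} (h : IsRoots r z) (s : Equiv.Perm (Fin n)) :
    IsRoots (fun j => r (s j)) z := by
  unfold IsRoots at h ⊢
  rw [h]
  exact (Equiv.prod_comp s fun j => (X - C (r j) : ℂ[X])).symm

/-- The permutation part of the trivialisation is locally constant. -/
theorem cv_locconst {Z : Type} [TopologicalSpace Z] {n : ℕ} {a b : Z → (Fin n → ℂ)}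
    (ha : Continuous a) (hb : Continuous b) {H : Z → (Fin n → ℂ)}
    (hr : ∀ x, IsRoots (a x) (H x)) (hr' : ∀ x, IsRoots (b x) (H x))
    (hi : ∀ x, Function.Injective (a x)) (g : Z → Equiv.Perm (Fin n))
    (hg : ∀ x j, b x (g x j) = a x j) :
    ∀ s, IsOpen (g ⁻¹' {s}) := by
  intro s
  have e : g ⁻¹' {s} = {x | ∀ j, b x (s j) = a x j} := by
    ext x
    simp only [Set.mem_preimage, Set.mem_singleton_iff, Set.mem_ofPred_eq]
    constructor
    · intro h j
      rw [← h]
      exact hg x j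
    · intro h
      have hi' : Function.Injective (b x) := cv_inj (hr' x) (hr x) (hi x)
      ext1 j
      exact hi' ((hg x j).trans (h j).symm)
  rw [e]
  exact (cv_clopen ha hb hr hr' hi s).2

theorem cv_even {Y : Type} [TopologicalSpace Y] {n : ℕ} {H : Y → (Fin n → ℂ)} (hH : Continuous H)
    (hd : ∀ y, ∃ r, IsRoots r (H y) ∧ Function.Injective r) (y₀ : Y) :
    IsEvenlyCovered (cpr H) y₀ (cpr H ⁻¹' {y₀}) := by
  classical
  obtain ⟨V, ρ, hV, hy₀, hρ, hr⟩ := roots_local hH hd y₀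
  let _ : TopologicalSpace (Equiv.Perm (Fin n)) := ⊥
  have : DiscreteTopology (Equiv.Perm (Fin n)) := ⟨rfl⟩
  have hρc : Continuous fun y : V => ρ y := continuousOn_iff_continuous_domRestrict.1 hρ
  have hinj : ∀ p : CE H, Function.Injective p.1.2 := fun p => by
    obtain ⟨r, h1, h2⟩ := hd p.1.1
    exact cv_inj p.2 h1 h2
  have hg : ∀ p : cpr H ⁻¹' V, ∃ s : Equiv.Perm (Fin n), ∀ j, ρ (cpr H p.1) (s j) = p.1.1.2 j :=
    fun p => cv_perm p.1.2 (hr _ p.2) (hinj p.1)
  choose g hg using hg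
  have hgo : ∀ s, IsOpen (g ⁻¹' {s}) :=
    cv_locconst (Z := cpr H ⁻¹' V) (a := fun p => p.1.1.2) (b := fun p => ρ (cpr H p.1))
      ((csd_cont H).comp continuous_subtype_val)
      (hρc.comp (f := fun p : cpr H ⁻¹' V => (⟨cpr H p.1, p.2⟩ : V))
        (((cpr_cont H).comp continuous_subtype_val).subtype_mk _))
      (H := fun p => H (cpr H p.1)) (fun p => p.1.2) (fun p => hr _ p.2) (fun p => hinj p.1) g hg
  have hgc : Continuous g := continuous_discrete_rng.2 hgo
  have hρi : ∀ y ∈ V, Function.Injective (ρ y) := fun y hy => by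
    obtain ⟨r, h1, h2⟩ := hd y
    exact cv_inj (hr y hy) h1 h2
  have hE : IsEvenlyCovered (cpr H) y₀ (Equiv.Perm (Fin n)) := by
    refine ⟨inferInstance, V, hy₀, hV, hV.preimage (cpr_cont H),
      { toFun := fun p => (⟨cpr H p.1, p.2⟩, g p)
        invFun := fun q => ⟨⟨(q.1.1, fun j => ρ q.1.1 (q.2 j)), isRoots_perm (hr _ q.1.2) q.2⟩, q.1.2⟩
        left_inv := ?_
        right_inv := ?_
        continuous_toFun := ?_
        continuous_invFun := ?_ }, fun _ => rfl⟩
    · intro p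
      apply Subtype.ext
      apply Subtype.ext
      refine Prod.ext rfl ?_
      funext j
      exact hg p j
    · rintro ⟨y, s⟩
      refine Prod.ext rfl ?_
      ext1 j
      have h1 := hg ⟨⟨(y.1, fun j => ρ y.1 (s j)), isRoots_perm (hr _ y.2) s⟩, y.2⟩ j
      exact hρi y.1 y.2 h1
    · exact (((cpr_cont H).comp continuous_subtype_val).subtype_mk _).prodMk hgc
    · refine Continuous.subtype_mk (Continuous.subtype_mk ?_ _) _
      refine Continuous.prodMk (continuous_subtype_val.comp continuous_fst) ?_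
      rw [continuous_prod_of_discrete_right]
      intro s
      exact continuous_pi fun j => (continuous_apply (s j)).comp hρc
  exact hE.to_isEvenlyCovered_preimage

theorem roots_simply {Y : Type} [TopologicalSpace Y] [SimplyConnectedSpace Y] [LocallyPathConnectedSpace Y] {n : ℕ}
    {H : Y → (Fin n → ℂ)} (hH : Continuous H) (hd : ∀ y, ∃ r, IsRoots r (H y) ∧ Function.Injective r) :
    ∃ ρ : Y → (Fin n → ℂ), Continuous ρ ∧ ∀ y, IsRoots (ρ y) (H y) := by
  have hcov : IsCoveringMap (cpr H) := fun y => cv_even hH hd y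
  obtain ⟨y₀⟩ : Nonempty Y := inferInstance
  obtain ⟨r, hr, -⟩ := hd y₀
  obtain ⟨F, ⟨-, hF⟩, -⟩ := hcov.existsUnique_continuousMap_lifts (ContinuousMap.id Y) y₀
    (⟨(y₀, r), hr⟩ : CE H) rfl
  refine ⟨fun y => (F y).1.2, (csd_cont H).comp F.continuous, fun y => ?_⟩
  have h1 : (F y).1.1 = y := congrFun hF y
  have h2 := (F y).2
  rw [h1] at h2
  exact h2

end Pool.Agent.LR

end
end
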