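import Pool.Agent.H94.PX2.M11
import Pool.Agent.H94.PX2.M14
import Pool.Agent.H94.PX2.M45

/-! The parts of this file: PX.RPow, HE.TrA, HE.TrB, HE.TrC. -/

section

/-!
# PX RPow: Puiseux expansion

On the half plane `Re ζ < log R` the simple roots of `Pt c (exp ζ)` are `m` continuous functions (`LR/Cover`, `roots_simply`), permuted by `ζ ↦ ζ + 2 π I`; the `N`-th power of the permutation is the identity for `N = m!`; so they are functions of `τ = exp (ζ / N)`, holomorphic off `0`, bounded: they extend.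
-/

set_option autoImplicit false

open Topology Filter Metric Polynomial

namespace Pool.Agent.PX

open Pool.Agent.H60.OC (poly IsRoots)

theorem rp_eval {m : ℕ} (c : Fin m → ℂ → ℂ) (z t : ℂ) :
    Pt c z t = (poly (fun i => c (Fin.rev i) z)).eval t := by
  unfold Pt poly
  simp only [eval_add, eval_pow, eval_X, eval_finsetSum, eval_mul, eval_C]
  congr 1
  rw [← Equiv.sum_comp Fin.revPerm]
  refine Finset.sum_congr rfl fun i _ => ?_
  have h : ((Fin.revPerm i : Fin m) : ℕ) = m - 1 - (i : ℕ) := by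
    rw [Fin.revPerm_apply, Fin.val_rev]
    omega
  rw [h]
  rfl

theorem rp_low {m : ℕ} (z : Fin m → ℂ) : (∑ i : Fin m, C (z i) * X ^ (m - 1 - (i : ℕ)) : ℂ[X]).degree < m := by
  have h1 : (∑ i : Fin m, C (z i) * X ^ (m - 1 - (i : ℕ)) : ℂ[X]) = ∑ i : Fin m, C (z (Fin.rev i)) * X ^ (i : ℕ) := by
    rw [← Equiv.sum_comp Fin.revPerm]
    refine Finset.sum_congr rfl fun i _ => ?_
    have h : m - 1 - ((Fin.revPerm i : Fin m) : ℕ) = (i : ℕ) := by
      rw [Fin.revPerm_apply, Fin.val_rev]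
      have := i.2
      omega
    rw [h]
    rfl
  rw [h1]
  exact degree_sum_fin_lt _

theorem rp_monic {m : ℕ} (z : Fin m → ℂ) : (poly z).Monic := monic_X_pow_add (rp_low z)

theorem rp_deg {m : ℕ} (z : Fin m → ℂ) : (poly z).natDegree = m := by
  have h : (poly z).degree = m := by
    unfold poly
    rw [degree_add_eq_left_of_degree_lt, degree_X_pow]
    rw [degree_X_pow]
    exact rp_low z
  exact natDegree_eq_of_degree_eq_some h

/-- a polynomial with simple roots has an injective root list -/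
theorem rp_list {m : ℕ} (z : Fin m → ℂ) (hs : ∀ t, (poly z).eval t = 0 → (derivative (poly z)).eval t ≠ 0) :
    ∃ r : Fin m → ℂ, IsRoots r z ∧ Function.Injective r := by
  have hsp : (poly z).roots.card = m := by
    exact (splits_iff_card_roots.1 (IsAlgClosed.splits (poly z))).trans (rp_deg z)
  have hne : poly z ≠ 0 := (rp_monic z).ne_zero
  have hnd : (poly z).roots.Nodup := by
    rw [Multiset.nodup_iff_count_le_one]
    intro t
    rw [count_roots]
    by_contra hlt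
    push Not at hlt
    rw [one_lt_rootMultiplicity_iff_isRoot hne] at hlt
    exact hs t hlt.1 hlt.2
  obtain ⟨l, hl⟩ := Quot.exists_rep (poly z).roots
  have hl' : (l : Multiset ℂ) = (poly z).roots := hl
  have hlen : l.length = m := by
    rw [← hsp, ← hl']
    rfl
  subst hlen
  refine ⟨fun i => l.get i, ?_, ?_⟩
  · unfold IsRoots
    have h2 := (IsAlgClosed.splits (poly z)).eq_prod_roots_of_monic (rp_monic z)
    rw [h2, ← hl', Multiset.map_coe, Multiset.prod_coe]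
    conv_lhs => rw [← List.ofFn_get l]
    rw [List.map_ofFn, List.prod_ofFn]
    rfl
  · have h3 : l.Nodup := by
      rw [← Multiset.coe_nodup, hl']
      exact hnd
    exact List.nodup_iff_injective_get.1 h3

/-- the half plane -/
def HP (R : ℝ) : Set ℂ := {ζ | ζ.re < Real.log R}

theorem hp_open (R : ℝ) : IsOpen (HP R) := isOpen_lt Complex.continuous_re continuous_const

theorem hp_convex (R : ℝ) : Convex ℝ (HP R) := convex_halfSpace_re_lt _

theorem hp_exp {R : ℝ} (hR : 0 < R) {ζ : ℂ} (h : ζ ∈ HP R) : Complex.exp ζ ∈ ball (0 : ℂ) R := by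
  rw [mem_ball_zero_iff, Complex.norm_exp, ← Real.lt_log_iff_exp_lt hR]
  exact h

theorem rp_half {m : ℕ} {c : Fin m → ℂ → ℂ} {R : ℝ} (hR : 0 < R) (hc : ∀ i, DifferentiableOn ℂ (c i) (ball 0 R))
    (hs : ∀ z ∈ ball (0 : ℂ) R, z ≠ 0 → ∀ t, Pt c z t = 0 → deriv (Pt c z) t ≠ 0) :
    ∃ ρ : ℂ → (Fin m → ℂ), ContinuousOn ρ (HP R) ∧
      ∀ ζ ∈ HP R, IsRoots (ρ ζ) (fun i => c (Fin.rev i) (Complex.exp ζ)) ∧ Function.Injective (ρ ζ) := by
  classical
  have hd : ∀ ζ ∈ HP R, ∃ r, IsRoots r (fun i : Fin m => c (Fin.rev i) (Complex.exp ζ)) ∧ Function.Injective r := by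
    intro ζ hζ
    refine rp_list _ fun t ht => ?_
    have h1 := hs _ (hp_exp hR hζ) (Complex.exp_ne_zero ζ) t (by rw [rp_eval]; exact ht)
    have h2 : Pt c (Complex.exp ζ) = fun t => (poly (fun i => c (Fin.rev i) (Complex.exp ζ))).eval t := by
      funext t
      exact rp_eval c _ t
    rw [h2, Polynomial.deriv] at h1
    exact h1
  have hne : (HP R).Nonempty := by
    refine ⟨((Real.log R - 1 : ℝ) : ℂ), ?_⟩
    show (((Real.log R - 1 : ℝ) : ℂ)).re < Real.log R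
    rw [Complex.ofReal_re]
    linarith
  have hcon : ContractibleSpace (HP R) := (hp_convex R).contractibleSpace hne
  have hloc : LocallyPathConnectedSpace (HP R) := (hp_open R).locallyPathConnectedSpace
  have hcont : Continuous fun ζ : HP R => (fun i : Fin m => c (Fin.rev i) (Complex.exp ζ)) := by
    refine continuous_pi fun i => ?_
    have h1 : ContinuousOn (fun ζ : ℂ => c (Fin.rev i) (Complex.exp ζ)) (HP R) :=
      (hc (Fin.rev i)).continuousOn.comp Complex.continuous_exp.continuousOn fun ζ hζ => hp_exp hR hζ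
    exact continuousOn_iff_continuous_domRestrict.1 h1
  obtain ⟨ρ, hρ, hr⟩ := Pool.Agent.LR.roots_simply (Y := HP R) hcont (fun ζ => hd ζ ζ.2)
  refine ⟨fun ζ => if h : ζ ∈ HP R then ρ ⟨ζ, h⟩ else 0, ?_, fun ζ hζ => ?_⟩
  · rw [continuousOn_iff_continuous_domRestrict]
    refine hρ.congr fun x => ?_
    simp [Set.domRestrict]
  · simp only [dif_pos hζ]
    refine ⟨hr ⟨ζ, hζ⟩, ?_⟩
    obtain ⟨r, h1, h2⟩ := hd ζ hζ
    exact Pool.Agent.LR.cv_inj (hr ⟨ζ, hζ⟩) h1 h2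

theorem hp_add {R : ℝ} {ζ : ℂ} (x : ℝ) : ζ + x * (2 * Real.pi * Complex.I) ∈ HP R ↔ ζ ∈ HP R := by
  have h : (ζ + x * (2 * Real.pi * Complex.I)).re = ζ.re := by
    simp
  unfold HP
  rw [Set.mem_ofPred_eq, Set.mem_ofPred_eq, h]

theorem rp_per {m : ℕ} {c : Fin m → ℂ → ℂ} {R : ℝ} {ρ : ℂ → (Fin m → ℂ)} (hρ : ContinuousOn ρ (HP R))
    (hr : ∀ ζ ∈ HP R, IsRoots (ρ ζ) (fun i => c (Fin.rev i) (Complex.exp ζ)) ∧ Function.Injective (ρ ζ)) :
    ∃ N : ℕ, 0 < N ∧ ∀ ζ ∈ HP R, ∀ k : ℤ, ρ (ζ + k * (N * (2 * Real.pi * Complex.I))) = ρ ζ := by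
  have hin : ∀ ζ ∈ HP R, ζ + 2 * Real.pi * Complex.I ∈ HP R := by
    intro ζ hζ
    have h := (hp_add (R := R) (ζ := ζ) 1).2 hζ
    simpa using h
  obtain ⟨s, hs⟩ := Pool.Agent.LR.exists_perm_on (W := HP R) (hp_convex R).isPreconnected (ρ := ρ)
    (ρ' := fun ζ => ρ (ζ + 2 * Real.pi * Complex.I)) (H := fun ζ i => c (Fin.rev i) (Complex.exp ζ)) hρ
    (hρ.comp (by fun_prop) hin) (fun x hx => (hr x hx).1) (fun x hx => by
      have h1 := (hr _ (hin x hx)).1
      rw [Complex.exp_periodic x] at h1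
      exact h1) (fun x hx => (hr x hx).2)
  have hpow : ∀ n : ℕ, ∀ ζ ∈ HP R, ∀ j, ρ (ζ + n * (2 * Real.pi * Complex.I)) ((s ^ n) j) = ρ ζ j := by
    intro n
    induction n with
    | zero => intro ζ _ j; simp
    | succ n ih =>
      intro ζ hζ j
      have h1 : ζ + n * (2 * Real.pi * Complex.I) ∈ HP R := by
        have h := (hp_add (R := R) (ζ := ζ) n).2 hζ
        simpa using h
      have h2 := hs _ h1 ((s ^ n) j)
      have h3 : ζ + ((n + 1 : ℕ) : ℂ) * (2 * Real.pi * Complex.I) = ζ + n * (2 * Real.pi * Complex.I) + 2 * Real.pi * Complex.I := by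
        push_cast
        ring
      rw [h3, pow_succ', Equiv.Perm.mul_apply]
      exact h2.trans (ih ζ hζ j)
  refine ⟨orderOf s, orderOf_pos s, ?_⟩
  have hN : ∀ ζ ∈ HP R, ρ (ζ + (orderOf s) * (2 * Real.pi * Complex.I)) = ρ ζ := by
    intro ζ hζ
    funext j
    have h1 := hpow (orderOf s) ζ hζ j
    rw [pow_orderOf_eq_one] at h1
    exact h1
  have hNat : ∀ n : ℕ, ∀ ζ ∈ HP R, ρ (ζ + n * ((orderOf s) * (2 * Real.pi * Complex.I))) = ρ ζ := by
    intro n
    induction n with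
    | zero => intro ζ _; simp
    | succ n ih =>
      intro ζ hζ
      have h1 : ζ + n * ((orderOf s) * (2 * Real.pi * Complex.I)) ∈ HP R := by
        have h := (hp_add (R := R) (ζ := ζ) (n * orderOf s)).2 hζ
        push_cast at h
        rw [mul_assoc] at h
        exact h
      have h3 : ζ + ((n + 1 : ℕ) : ℂ) * ((orderOf s) * (2 * Real.pi * Complex.I)) =
          ζ + n * ((orderOf s) * (2 * Real.pi * Complex.I)) + (orderOf s) * (2 * Real.pi * Complex.I) := by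
        push_cast
        ring
      rw [h3, hN _ h1, ih ζ hζ]
  intro ζ hζ k
  obtain ⟨n, rfl | rfl⟩ := k.eq_nat_or_neg
  · exact_mod_cast hNat n ζ hζ
  · have h1 : ζ + ((-(n : ℤ) : ℤ) : ℂ) * ((orderOf s) * (2 * Real.pi * Complex.I)) ∈ HP R := by
      have h := (hp_add (R := R) (ζ := ζ) (-(n * orderOf s))).2 hζ
      push_cast at h ⊢
      have e : ζ + -(n : ℂ) * ((orderOf s) * (2 * Real.pi * Complex.I)) = ζ + -((n : ℂ) * (orderOf s)) * (2 * Real.pi * Complex.I) := by ring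
      rw [e]
      exact h
    rw [← hNat n _ h1]
    congr 1
    push_cast
    ring

theorem rp_bound {m : ℕ} {a : Fin m → ℂ} {M : ℝ} (hM : ∀ i, ‖a i‖ ≤ M) {t : ℂ} (ht : t ^ m + ∑ i : Fin m, a i * t ^ (i : ℕ) = 0) :
    ‖t‖ ≤ 1 + m * M := by
  rcases m with _ | m
  · simp at ht
  by_contra hlt
  push Not at hlt
  have hM0 : 0 ≤ M := (norm_nonneg _).trans (hM 0)
  have h1 : 1 ≤ ‖t‖ := by
    have : 0 ≤ ((m + 1 : ℕ) : ℝ) * M := by positivity
    linarith
  have h2 : t ^ (m + 1) = -∑ i : Fin (m + 1), a i * t ^ (i : ℕ) := by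
    linear_combination ht
  have h3 : ‖t‖ ^ (m + 1) ≤ ((m + 1 : ℕ) : ℝ) * M * ‖t‖ ^ m := by
    rw [← norm_pow, h2, norm_neg]
    refine (norm_sum_le _ _).trans ?_
    have h4 : ∀ i : Fin (m + 1), ‖a i * t ^ (i : ℕ)‖ ≤ M * ‖t‖ ^ m := by
      intro i
      rw [norm_mul, norm_pow]
      refine mul_le_mul (hM i) (pow_le_pow_right₀ h1 (Nat.lt_succ_iff.1 i.2)) (by positivity) hM0
    refine (Finset.sum_le_sum fun i _ => h4 i).trans ?_
    rw [Finset.sum_const, Finset.card_univ, Fintype.card_fin, nsmul_eq_mul]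
    exact le_of_eq (by ring)
  have h5 : 0 < ‖t‖ ^ m := by positivity
  have h6 : ‖t‖ ≤ ((m + 1 : ℕ) : ℝ) * M := by
    rw [pow_succ'] at h3
    exact le_of_mul_le_mul_right h3 h5
  linarith

/-- the root at `τ ≠ 0`, `ζ` any point over `τ` -/
theorem rp_log {m : ℕ} {R : ℝ} {ρ : ℂ → (Fin m → ℂ)} {N : ℕ} (hN : 0 < N)
    (hp : ∀ ζ ∈ HP R, ∀ k : ℤ, ρ (ζ + k * (N * (2 * Real.pi * Complex.I))) = ρ ζ) {τ ζ : ℂ} (hτ : τ ≠ 0) (hζ : ζ ∈ HP R)
    (h : Complex.exp (ζ / N) = τ) : N * Complex.log τ ∈ HP R ∧ ρ (N * Complex.log τ) = ρ ζ := by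
  have hN' : (N : ℂ) ≠ 0 := by exact_mod_cast hN.ne'
  have h1 : Complex.exp (Complex.log τ) = Complex.exp (ζ / N) := by rw [Complex.exp_log hτ, h]
  obtain ⟨k, hk⟩ := Complex.exp_eq_exp_iff_exists_int.1 h1
  have h2 : N * Complex.log τ = ζ + k * (N * (2 * Real.pi * Complex.I)) := by
    rw [hk]
    field_simp
  refine ⟨?_, ?_⟩
  · rw [h2]
    have h3 := (hp_add (R := R) (ζ := ζ) (k * N)).2 hζ
    push_cast at h3
    rw [mul_assoc] at h3
    exact h3
  · rw [h2, hp ζ hζ k]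

theorem rp_mem {R : ℝ} {N : ℕ} {τ : ℂ} (hτ : τ ≠ 0) (h : ‖τ‖ ^ N < R) :
    (N : ℂ) * Complex.log τ ∈ HP R := by
  have h1 : ((N : ℂ) * Complex.log τ).re = N * Real.log ‖τ‖ := by
    rw [← Complex.ofReal_natCast, Complex.re_ofReal_mul, Complex.log_re]
  show ((N : ℂ) * Complex.log τ).re < Real.log R
  rw [h1, ← Real.log_pow]
  exact Real.log_lt_log (by positivity) h

theorem roots_pow {m : ℕ} {c : Fin m → ℂ → ℂ} {R : ℝ} (hR : 0 < R) (hc : ∀ i, DifferentiableOn ℂ (c i) (ball 0 R))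
    (hs : ∀ z ∈ ball (0 : ℂ) R, z ≠ 0 → ∀ t, Pt c z t = 0 → deriv (Pt c z) t ≠ 0) : ∃ N : ℕ, 0 < N ∧ ∃ ρ : ℝ, 0 < ρ ∧ ρ ^ N ≤ R ∧ ∃ e : Fin m → ℂ → ℂ, (∀ i, DifferentiableOn ℂ (e i) (ball 0 ρ)) ∧
      ∀ τ ∈ ball (0 : ℂ) ρ, ∀ t, Pt c (τ ^ N) t = ∏ i, (t - e i τ) := by
  classical
  obtain ⟨r, hrc, hr⟩ := rp_half hR hc hs
  obtain ⟨N, hN, hp⟩ := rp_per hrc hr
  have hN' : (N : ℂ) ≠ 0 := by exact_mod_cast hN.ne'
  obtain ⟨ρ, hρ, hρN⟩ : ∃ ρ : ℝ, 0 < ρ ∧ ρ ^ N = R / 2 :=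
    ⟨(R / 2) ^ ((N : ℝ)⁻¹), by positivity, Real.rpow_inv_natCast_pow (by positivity) hN.ne'⟩
  have hlt : ∀ τ ∈ ball (0 : ℂ) ρ, ‖τ‖ ^ N < R / 2 := by
    intro τ hτ
    rw [← hρN]
    exact pow_lt_pow_left₀ (mem_ball_zero_iff.1 hτ) (norm_nonneg _) hN.ne'
  have hltR : ∀ τ ∈ ball (0 : ℂ) ρ, ‖τ‖ ^ N < R := fun τ hτ => (hlt τ hτ).trans (by linarith)
  have hpowb : ∀ τ ∈ ball (0 : ℂ) ρ, τ ^ N ∈ ball (0 : ℂ) R := fun τ hτ => by
    rw [mem_ball_zero_iff, norm_pow]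
    exact hltR τ hτ
  -- the roots on the punctured disc
  obtain ⟨f, hf⟩ : ∃ f : Fin m → ℂ → ℂ, f = fun i τ => r (N * Complex.log τ) i := ⟨_, rfl⟩
  have hexp : ∀ τ : ℂ, τ ≠ 0 → Complex.exp (N * Complex.log τ) = τ ^ N := by
    intro τ hτ
    rw [Complex.exp_nat_mul, Complex.exp_log hτ]
  have hprod : ∀ τ ∈ ball (0 : ℂ) ρ, τ ≠ 0 → ∀ t, Pt c (τ ^ N) t = ∏ i, (t - f i τ) := by
    intro τ hτ h0 t
    have h1 := (hr _ (rp_mem h0 (hltR τ hτ))).1
    rw [hexp τ h0] at h1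
    rw [rp_eval, Pool.Agent.LR.rl_eval h1, hf]
  have hdiff : ∀ i, DifferentiableOn ℂ (f i) (ball 0 ρ \ {0}) := by
    intro i τ₀ hτ₀
    have h0 : τ₀ ≠ 0 := hτ₀.2
    refine DifferentiableAt.differentiableWithinAt ?_
    have hm : (N : ℂ) * Complex.log τ₀ ∈ HP R := rp_mem h0 (hltR τ₀ hτ₀.1)
    -- the root function is differentiable
    have h1 : DifferentiableAt ℂ (fun ζ => r ζ i) (N * Complex.log τ₀) := by
      refine Pool.Agent.H60.OC.root_diff (a := fun ζ i => c (Fin.rev i) (Complex.exp ζ)) ?_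
        (hrc.continuousAt ((hp_open R).mem_nhds hm)) ?_ (hr _ hm).2 i
      · refine differentiableAt_pi.2 fun j => ?_
        have h2 : DifferentiableAt ℂ (c (Fin.rev j)) (Complex.exp (N * Complex.log τ₀)) :=
          (hc (Fin.rev j)).differentiableAt (isOpen_ball.mem_nhds (hp_exp hR hm))
        exact h2.comp (N * Complex.log τ₀) Complex.differentiable_exp.differentiableAt
      · filter_upwards [(hp_open R).mem_nhds hm] with ζ hζ using (hr ζ hζ).1
    -- the branch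
    obtain ⟨b, hb⟩ : ∃ b : ℂ → ℂ, b = fun τ => N * (Complex.log (τ / τ₀) + Complex.log τ₀) := ⟨_, rfl⟩
    have hb0 : b τ₀ = N * Complex.log τ₀ := by
      rw [hb]
      simp [div_self h0]
    have hbd : DifferentiableAt ℂ b τ₀ := by
      rw [hb]
      have h3 : DifferentiableAt ℂ (fun τ => Complex.log (τ / τ₀)) τ₀ := by
        refine DifferentiableAt.clog (by fun_prop) ?_
        rw [div_self h0]
        exact Complex.one_mem_slitPlane
      fun_prop
    have h4 : DifferentiableAt ℂ (fun τ => r (b τ) i) τ₀ := by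
      have h5 : DifferentiableAt ℂ (fun ζ => r ζ i) (b τ₀) := by rw [hb0]; exact h1
      exact h5.comp τ₀ hbd
    refine h4.congr_of_eventuallyEq ?_
    have h6 : ∀ᶠ τ in 𝓝 τ₀, b τ ∈ HP R :=
      hbd.continuousAt.eventually ((hp_open R).mem_nhds (by rw [hb0]; exact hm))
    have h7 : ∀ᶠ τ in 𝓝 τ₀, τ ≠ 0 := isOpen_ne.mem_nhds h0
    filter_upwards [h6, h7] with τ h8 h9
    have h10 : Complex.exp (b τ / N) = τ := by
      have e : b τ / N = Complex.log (τ / τ₀) + Complex.log τ₀ := by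
        rw [hb]
        field_simp
      rw [e, Complex.exp_add, Complex.exp_log (div_ne_zero h9 h0), Complex.exp_log h0]
      field_simp
    rw [hf]
    exact congrFun (rp_log hN hp h9 h8 h10).2 i
  -- bounded
  obtain ⟨M, hM⟩ : ∃ M : ℝ, ∀ i, ∀ z ∈ closedBall (0 : ℂ) (R / 2), ‖c i z‖ ≤ M := by
    have h1 : ∀ i, ∃ M : ℝ, ∀ z ∈ closedBall (0 : ℂ) (R / 2), ‖c i z‖ ≤ M := fun i =>
      (isCompact_closedBall (0 : ℂ) (R / 2)).exists_bound_of_continuousOn
        ((hc i).continuousOn.mono (closedBall_subset_ball (by linarith)))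
    choose M hM using h1
    refine ⟨∑ i, |M i|, fun i z hz => (hM i z hz).trans ((le_abs_self _).trans ?_)⟩
    exact Finset.single_le_sum (f := fun i => |M i|) (fun j _ => abs_nonneg _) (Finset.mem_univ i)
  have hbdd : ∀ i, ∀ τ ∈ ball (0 : ℂ) ρ \ {0}, ‖f i τ‖ ≤ 1 + m * M := by
    intro i τ hτ
    have h1 := hprod τ hτ.1 hτ.2 (f i τ)
    rw [Finset.prod_eq_zero (Finset.mem_univ i) (sub_self _)] at h1
    refine rp_bound (a := fun i => c i (τ ^ N)) (fun j => hM j _ ?_) h1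
    rw [mem_closedBall_zero_iff, norm_pow]
    exact (hlt τ hτ.1).le
  refine ⟨N, hN, ρ, hρ, by rw [hρN]; linarith, fun i => Function.update (f i) 0 (limUnder (𝓝[≠] (0 : ℂ)) (f i)), fun i => ?_, ?_⟩
  · refine Complex.differentiableOn_update_limUnder_of_bddAbove (ball_mem_nhds 0 hρ) (hdiff i) ?_
    refine ⟨1 + m * M, ?_⟩
    rintro _ ⟨τ, hτ, rfl⟩
    exact hbdd i τ hτ
  · have hE : ∀ i, DifferentiableOn ℂ (Function.update (f i) 0 (limUnder (𝓝[≠] (0 : ℂ)) (f i))) (ball 0 ρ) := fun i => by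
      refine Complex.differentiableOn_update_limUnder_of_bddAbove (ball_mem_nhds 0 hρ) (hdiff i) ?_
      refine ⟨1 + m * M, ?_⟩
      rintro _ ⟨τ, hτ, rfl⟩
      exact hbdd i τ hτ
    intro τ hτ t
    by_cases h0 : τ = 0
    · subst h0
      have h1 : ContinuousAt (fun τ : ℂ => Pt c (τ ^ N) t) 0 := by
        unfold Pt
        have h2 : ∀ i, ContinuousAt (fun τ : ℂ => c i (τ ^ N)) 0 := by
          intro i
          have h3 : ContinuousAt (c i) ((0 : ℂ) ^ N) :=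
            ((hc i).differentiableAt (isOpen_ball.mem_nhds (hpowb 0 hτ))).continuousAt
          exact ContinuousAt.comp (f := fun τ : ℂ => τ ^ N) h3 (by fun_prop)
        exact continuousAt_const.add (tendsto_finsetSum _ fun i _ => (h2 i).mul continuousAt_const)
      have h4 : ContinuousAt (fun τ : ℂ => ∏ i, (t - Function.update (f i) 0 (limUnder (𝓝[≠] (0 : ℂ)) (f i)) τ)) 0 := by
        refine tendsto_finsetProd _ fun i _ => ?_
        exact continuousAt_const.sub ((hE i).differentiableAt (isOpen_ball.mem_nhds hτ)).continuousAt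
      have h5 : Tendsto (fun τ : ℂ => Pt c (τ ^ N) t) (𝓝[≠] 0) (𝓝 (Pt c ((0 : ℂ) ^ N) t)) :=
        h1.tendsto.mono_left nhdsWithin_le_nhds
      have h6 := h4.tendsto.mono_left (nhdsWithin_le_nhds (s := {(0 : ℂ)}ᶜ))
      refine tendsto_nhds_unique h5 (h6.congr' ?_)
      have h7 : ∀ᶠ τ in 𝓝[≠] (0 : ℂ), τ ∈ ball (0 : ℂ) ρ := nhdsWithin_le_nhds (ball_mem_nhds 0 hρ)
      have h8 : ∀ᶠ τ in 𝓝[≠] (0 : ℂ), τ ∈ ({(0 : ℂ)}ᶜ : Set ℂ) := self_mem_nhdsWithin
      filter_upwards [h7, h8] with τ h9 h10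
      rw [hprod τ h9 h10 t]
      refine Finset.prod_congr rfl fun i _ => ?_
      rw [Function.update_of_ne h10]
    · rw [hprod τ hτ h0 t]
      refine Finset.prod_congr rfl fun i _ => ?_
      beta_reduce
      rw [Function.update_of_ne h0]

end Pool.Agent.PX

end

section

/-!
# HE TrA: roots of separable polynomials over the field of germs, after a substitution `τ ^ M`
-/

set_option autoImplicit false

open Topology Filter Metric Polynomial

namespace Pool.Agent.HE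

open Pool.Agent.PX (Pt roots_pow)

variable {𝒰 𝒱 : Ultrafilter ℂ}

theorem pzero (h𝒰 : (𝒰 : Filter ℂ) ≤ 𝓝[≠] 0) {A : MF[X]} (hA : A.map (φg 𝒰) = 0) : ∀ᶠ z in 𝓝[≠] (0 : ℂ), A.map (ev z) = 0 := by
  have h1 : ∀ i ∈ Finset.range (A.natDegree + 1), ∀ᶠ z in 𝓝[≠] (0 : ℂ), ev z (A.coeff i) = 0 := by
    intro i _
    refine φg_zero h𝒰 ?_
    rw [← coeff_map, hA, coeff_zero]
  rw [← Finset.eventually_all] at h1
  filter_upwards [h1] with z hz
  ext i
  rw [coeff_map, coeff_zero]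
  rcases Nat.lt_or_ge i (A.natDegree + 1) with hi | hi
  · exact hz i (Finset.mem_range.2 hi)
  · rw [coeff_eq_zero_of_natDegree_lt (by omega), map_zero]

theorem peq (h𝒰 : (𝒰 : Filter ℂ) ≤ 𝓝[≠] 0) {A B : MF[X]} (hA : A.map (φg 𝒰) = B.map (φg 𝒰)) : ∀ᶠ z in 𝓝[≠] (0 : ℂ), A.map (ev z) = B.map (ev z) := by
  have h1 := pzero h𝒰 (A := A - B) (by rw [Polynomial.map_sub, hA, sub_self])
  filter_upwards [h1] with z hz
  rwa [Polynomial.map_sub, sub_eq_zero] at hz

/-- a root after the substitution -/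
theorem exists_root_pb (h𝒰 : (𝒰 : Filter ℂ) ≤ 𝓝[≠] 0) (h𝒱 : (𝒱 : Filter ℂ) ≤ 𝓝[≠] 0) {p : (Fg 𝒰)[X]} (hp : p.Monic) (hsep : p.Separable) (hdeg : 0 < p.natDegree) :
    ∃ (M : ℕ) (hM : 0 < M) (β : Fg 𝒱), (p.map (pbF h𝒰 h𝒱 hM)).eval β = 0 := by
  classical
  obtain ⟨A', B', hAB⟩ := hsep
  have hsurj := Polynomial.map_surjective (φg 𝒰) (φg_surj 𝒰)
  obtain ⟨P, hP, hPd, hPm⟩ := lifts_and_natDegree_eq_and_monic (f := φg 𝒰) (p := p) ((mem_lifts _).2 (hsurj p)) hp
  obtain ⟨A, hA⟩ := hsurj A'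
  obtain ⟨B, hB⟩ := hsurj B'
  have e3 := peq h𝒰 (A := A * P + B * derivative P) (B := 1) (by
    rw [Polynomial.map_add, Polynomial.map_mul, Polynomial.map_mul, ← derivative_map, hP, hA, hB, Polynomial.map_one, hAB])
  obtain ⟨m, hm⟩ : ∃ m, m = P.natDegree := ⟨_, rfl⟩
  have hm0 : 0 < m := by rw [hm, hPd]; exact hdeg
  -- the orders of the poles
  have hn : ∀ i, ∃ n : ℕ, AnalyticAt ℂ (fun z : ℂ => z ^ n * (P.coeff i : ℂ → ℂ) z) 0 := by
    intro i
    obtain ⟨n, h1⟩ := (P.coeff i).2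
    refine ⟨n, ?_⟩
    simpa using h1
  choose n hn using hn
  obtain ⟨K, hK⟩ : ∃ K : ℕ, ∀ i < m, n i ≤ K := ⟨∑ i ∈ Finset.range m, n i, fun i hi => Finset.single_le_sum (f := n) (fun _ _ => Nat.zero_le _) (Finset.mem_range.2 hi)⟩
  obtain ⟨c, hc⟩ : ∃ c : Fin m → ℂ → ℂ, c = fun (i : Fin m) (z : ℂ) => z ^ (K * (m - (i : ℕ))) * (P.coeff (i : ℕ) : ℂ → ℂ) z := ⟨_, rfl⟩
  have hcan : ∀ i, AnalyticAt ℂ (c i) 0 := by
    intro i
    have h1 : n i ≤ K * (m - i) := by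
      have h2 := hK i i.2
      have h3 : 1 ≤ m - (i : ℕ) := by have := i.2; omega
      calc n i ≤ K * 1 := by omega
        _ ≤ K * (m - i) := Nat.mul_le_mul_left K h3
    have h2 : c i = fun z => z ^ (K * (m - i) - n i) * (z ^ n i * (P.coeff i : ℂ → ℂ) z) := by
      rw [hc]
      funext z
      simp only
      rw [← mul_assoc, ← pow_add, Nat.sub_add_cancel h1]
    rw [h2]
    exact (analyticAt_id.pow _).mul (hn i)
  -- the rescaled polynomial
  have hPt : ∀ z t, z ≠ 0 → Pt c z t = z ^ (K * m) * (P.map (ev z)).eval (t / z ^ K) := by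
    intro z t hz
    have hzK : z ^ K ≠ 0 := pow_ne_zero K hz
    have h1 := (hPm.map (ev z)).as_sum
    rw [hPm.natDegree_map, ← hm] at h1
    rw [h1, Polynomial.eval_add, Polynomial.eval_pow, Polynomial.eval_X, Polynomial.eval_finsetSum, Finset.sum_range, mul_add, Finset.mul_sum]
    unfold Pt
    congr 1
    · rw [div_pow, ← pow_mul]
      field_simp
    · refine Finset.sum_congr rfl fun i _ => ?_
      rw [Polynomial.eval_mul, Polynomial.eval_C, Polynomial.eval_pow, Polynomial.eval_X, Polynomial.coeff_map, hc]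
      simp only
      have h2 : K * m = K * (m - i) + K * i := by
        rw [← Nat.mul_add, Nat.sub_add_cancel i.2.le]
      rw [h2, pow_add, div_pow, ← pow_mul, ev_apply]
      have h3 : z ^ (K * (i : ℕ)) ≠ 0 := pow_ne_zero _ hz
      field_simp
  have hall : ∀ᶠ z in 𝓝[≠] (0 : ℂ), (∀ i, DifferentiableAt ℂ (c i) z) ∧ (A * P + B * derivative P).map (ev z) = (1 : MF[X]).map (ev z) := by
    have h1 : ∀ᶠ z in 𝓝 (0 : ℂ), ∀ i, DifferentiableAt ℂ (c i) z := by
      rw [Filter.eventually_all]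
      intro i
      filter_upwards [(hcan i).eventually_analyticAt] with z hz using hz.differentiableAt
    filter_upwards [nhdsWithin_le_nhds h1, e3] with z h2 h3 using ⟨h2, h3⟩
  obtain ⟨R, hR, hR'⟩ := Metric.eventually_nhds_iff_ball.1 (eventually_nhdsWithin_iff.1 hall)
  obtain ⟨N, hN, ρ, hρ, hρN, e, he, heq⟩ := roots_pow (c := c) hR (fun i z hz => by
      by_cases h0 : z = 0
      · rw [h0]
        exact (hcan i).differentiableAt.differentiableWithinAt
      · exact ((hR' z hz h0).1 i).differentiableWithinAt) (fun z hz h0 t ht => by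
      have h1 := (hR' z hz h0).2
      rw [Polynomial.map_add, Polynomial.map_mul, Polynomial.map_mul, Polynomial.map_one, ← derivative_map] at h1
      have hz0 : z ^ (K * m) ≠ 0 := pow_ne_zero _ h0
      rw [hPt z t h0] at ht
      have h2 := (mul_eq_zero.1 ht).resolve_left hz0
      have h3 := congrArg (Polynomial.eval (t / z ^ K)) h1
      rw [Polynomial.eval_add, Polynomial.eval_mul, Polynomial.eval_mul, h2, mul_zero, zero_add, Polynomial.eval_one] at h3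
      have h4 : (derivative (P.map (ev z))).eval (t / z ^ K) ≠ 0 := by
        intro h5
        rw [h5, mul_zero] at h3
        exact zero_ne_one h3
      have h5 : HasDerivAt (Pt c z) (z ^ (K * m) * ((derivative (P.map (ev z))).eval (t / z ^ K) * (1 / z ^ K))) t := by
        have h6 : Pt c z = fun t => z ^ (K * m) * (P.map (ev z)).eval (t / z ^ K) := funext fun t => hPt z t h0
        rw [h6]
        refine HasDerivAt.const_mul _ ?_
        have h7 : HasDerivAt (fun t : ℂ => t / z ^ K) (1 / z ^ K) t := (hasDerivAt_id t).div_const _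
        exact (Polynomial.hasDerivAt (P.map (ev z)) (t / z ^ K)).comp t h7
      rw [h5.deriv]
      exact mul_ne_zero hz0 (mul_ne_zero h4 (one_div_ne_zero (pow_ne_zero K h0))))
  -- the root
  obtain ⟨β, hβ⟩ : ∃ β : ℂ → ℂ, β = fun τ => e ⟨0, hm0⟩ τ / (τ ^ N) ^ K := ⟨_, rfl⟩
  have hβm : MeromorphicAt β 0 := by
    rw [hβ]
    have h1 : AnalyticAt ℂ (e ⟨0, hm0⟩) 0 := (he ⟨0, hm0⟩).analyticAt (ball_mem_nhds _ hρ)
    exact h1.meromorphicAt.div ((analyticAt_id.pow N).pow K).meromorphicAt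
  refine ⟨N, hN, φg 𝒱 ⟨β, hβm⟩, ?_⟩
  have h1 : (p.map (pbF h𝒰 h𝒱 hN)).eval (φg 𝒱 ⟨β, hβm⟩) = φg 𝒱 ((P.map (pb N hN)).eval ⟨β, hβm⟩) := by
    have h2 : p.map (pbF h𝒰 h𝒱 hN) = (P.map (pb N hN)).map (φg 𝒱) := by
      rw [← hP, Polynomial.map_map, Polynomial.map_map]
      congr 1
      ext x
      rw [RingHom.comp_apply, pbF_φg]
      rfl
    rw [h2, Polynomial.eval_map, Polynomial.eval₂_at_apply]
  rw [h1]
  refine φg_of h𝒱 ?_
  have h2 : ∀ᶠ τ in 𝓝[≠] (0 : ℂ), τ ∈ ball (0 : ℂ) ρ := nhdsWithin_le_nhds (ball_mem_nhds _ hρ)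
  filter_upwards [h2, self_mem_nhdsWithin] with τ hτ hτ0
  have hτN : τ ^ N ≠ 0 := pow_ne_zero N hτ0
  have h3 := heq τ hτ (e ⟨0, hm0⟩ τ)
  rw [Finset.prod_eq_zero (Finset.mem_univ ⟨0, hm0⟩) (sub_self _), hPt _ _ hτN] at h3
  have h4 := (mul_eq_zero.1 h3).resolve_left (pow_ne_zero _ hτN)
  have h5 : ev τ ((P.map (pb N hN)).eval ⟨β, hβm⟩) = (P.map (ev (τ ^ N))).eval (ev τ ⟨β, hβm⟩) := by
    rw [Polynomial.eval_map, Polynomial.hom_eval₂, Polynomial.eval_map]
    congr 1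
  rw [h5]
  have h6 : ev τ ⟨β, hβm⟩ = e ⟨0, hm0⟩ τ / (τ ^ N) ^ K := congrFun hβ τ
  rw [h6]
  exact h4

end Pool.Agent.HE

end

section

/-!
# HE TrB: transfer

Every finitely generated algebra over the field `Fg 𝒰` of meromorphic germs has a homomorphism to `Fg 𝒱` which is a substitution `τ ^ M` on `Fg 𝒰`: a maximal ideal (Zariski's lemma), a primitive element, and `exists_root_pb`.
-/

set_option autoImplicit false

open Topology Filter Metric Polynomial

namespace Pool.Agent.HE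

variable {𝒰 𝒱 : Ultrafilter ℂ}

theorem transfer (h𝒰 : (𝒰 : Filter ℂ) ≤ 𝓝[≠] 0) (h𝒱 : (𝒱 : Filter ℂ) ≤ 𝓝[≠] 0) (A : Type) [CommRing A] [Nontrivial A] [Algebra (Fg 𝒰) A] [Algebra.FiniteType (Fg 𝒰) A] :
    ∃ (M : ℕ) (hM : 0 < M) (Ψ : A →+* Fg 𝒱), ∀ x : Fg 𝒰, Ψ (algebraMap (Fg 𝒰) A x) = pbF h𝒰 h𝒱 hM x := by
  classical
  have := Fg_charZero h𝒰
  obtain ⟨I, hI⟩ := Ideal.exists_maximal A
  let _ : Field (A ⧸ I) := Ideal.Quotient.field I
  have : Module.Finite (Fg 𝒰) (A ⧸ I) := finite_of_finite_type_of_isJacobsonRing (Fg 𝒰) (A ⧸ I)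
  let pb' := Field.powerBasisOfFiniteOfSeparable (Fg 𝒰) (A ⧸ I)
  have hint : IsIntegral (Fg 𝒰) pb'.gen := Algebra.IsIntegral.isIntegral _
  obtain ⟨M, hM, β, hβ⟩ := exists_root_pb h𝒰 h𝒱 (minpoly.monic hint) (Algebra.IsSeparable.isSeparable (Fg 𝒰) pb'.gen) (minpoly.natDegree_pos hint)
  let _ : Algebra (Fg 𝒰) (Fg 𝒱) := (pbF h𝒰 h𝒱 hM).toAlgebra
  have h1 : Polynomial.aeval β (minpoly (Fg 𝒰) pb'.gen) = 0 := by
    rw [Polynomial.aeval_def, ← Polynomial.eval_map]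
    exact hβ
  refine ⟨M, hM, (pb'.lift β h1).toRingHom.comp (Ideal.Quotient.mk I), fun x => ?_⟩
  exact (pb'.lift β h1).commutes x

end Pool.Agent.HE

end

section

/-!
# HE TrC: transfer of forms

`q s z`, `s < m`, are arbitrary forms of degree `e`, `z` near `0`; on the zeros of the `G i`, `q s`, `s ∈ S t`, also `f t` is `0`.  Then there are forms `Q s` with coefficients meromorphic at `0` which have over `τ ^ M` the same properties, in the form of
polynomial identities.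
-/

set_option autoImplicit false

open Topology Filter Metric MvPolynomial

namespace Pool.Agent.HE

variable {𝒰 𝒱 : Ultrafilter ℂ}

/-- Nullstellensatz for finite families -/
theorem nss {L σ ι : Type} [Field L] [IsAlgClosed L] [Finite σ] [Fintype ι] (p : ι → MvPolynomial σ L) (f : MvPolynomial σ L) (h : ∀ x : σ → L, (∀ i, eval x (p i) = 0) → eval x f = 0) :
    ∃ (n : ℕ) (c : ι → MvPolynomial σ L), ∑ i, c i * p i = f ^ n := by
  have h1 : f ∈ vanishingIdeal L (zeroLocus L (Ideal.span (Set.range p))) := by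
    rw [mem_vanishingIdeal_iff]
    intro x hx
    rw [zeroLocus_span] at hx
    exact h x fun i => hx _ ⟨i, rfl⟩
  rw [vanishingIdeal_zeroLocus_eq_radical] at h1
  obtain ⟨n, hn⟩ := h1
  exact ⟨n, Ideal.mem_span_range_iff_exists_fun.1 hn⟩

/-- evaluation of germs -/
theorem eval_gr {σ : Type} (P : MvPolynomial σ (ℂ → ℂ)) (x : σ → ℂ → ℂ) :
    eval (fun i => gr 𝒰 (x i)) (P.map (gr 𝒰)) = gr 𝒰 fun z => eval (fun i => x i z) (P.map (Pi.evalRingHom (fun _ : ℂ => ℂ) z)) := by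
  have h1 : (fun z => eval (fun i => x i z) (P.map (Pi.evalRingHom (fun _ : ℂ => ℂ) z))) = eval x P := by
    funext z
    rw [eval_map]
    have h2 := MvPolynomial.eval₂_comp_right (Pi.evalRingHom (fun _ : ℂ => ℂ) z) (RingHom.id _) x P
    rw [MvPolynomial.map_id] at h2
    exact h2.symm
  rw [h1, eval_map]
  have h2 := MvPolynomial.eval₂_comp_right (gr 𝒰) (RingHom.id _) x P
  rw [MvPolynomial.map_id] at h2
  exact h2.symm

/-- the family of forms as one polynomial -/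
noncomputable def fam {σ : Type} [Fintype σ] [DecidableEq σ] (e : ℕ) (q : ℂ → MvPolynomial σ ℂ) : MvPolynomial σ (ℂ → ℂ) :=
  ∑ α ∈ Finset.finsuppAntidiag (Finset.univ : Finset σ) e, monomial α fun z => coeff α (q z)

theorem fam_hom {σ : Type} [Fintype σ] [DecidableEq σ] (e : ℕ) (q : ℂ → MvPolynomial σ ℂ) : (fam e q).IsHomogeneous e := by
  refine IsHomogeneous.sum _ _ _ fun α hα => isHomogeneous_monomial _ ?_
  rw [Finset.mem_finsuppAntidiag] at hα
  rw [← hα.1, Finsupp.degree_eq_sum]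

theorem fam_ev {σ : Type} [Fintype σ] [DecidableEq σ] {e : ℕ} {q : ℂ → MvPolynomial σ ℂ} {z : ℂ} (h : (q z).IsHomogeneous e) : (fam e q).map (Pi.evalRingHom (fun _ : ℂ => ℂ) z) = q z := by
  unfold fam
  rw [map_sum]
  have h1 : ∀ α, MvPolynomial.map (Pi.evalRingHom (fun _ : ℂ => ℂ) z) (monomial α fun z => coeff α (q z)) = monomial α (coeff α (q z)) := fun α => map_monomial _ _ _
  simp_rw [h1]
  conv_rhs => rw [(q z).as_sum]
  symm
  refine Finset.sum_subset (fun α hα => ?_) fun α _ hα => ?_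
  · rw [Finset.mem_finsuppAntidiag]
    have h2 := h (mem_support_iff.1 hα)
    refine ⟨?_, Finset.subset_univ _⟩
    have h3 : Finsupp.weight (1 : σ → ℕ) α = Finsupp.degree α := (congrFun (congrArg DFunLike.coe (Finsupp.degree_eq_weight_one (σ := σ) (R := ℕ))) α).symm
    rw [← h2, h3, Finsupp.degree_eq_sum]
  · rw [notMem_support_iff.1 hα, monomial_zero]

/-- equality of germs of polynomials -/
theorem mpeq (h𝒰 : (𝒰 : Filter ℂ) ≤ 𝓝[≠] 0) {σ : Type} {A B : MvPolynomial σ MF} (hA : A.map (φg 𝒰) = B.map (φg 𝒰)) : ∀ᶠ z in 𝓝[≠] (0 : ℂ), A.map (ev z) = B.map (ev z) := by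
  have h0 : ∀ {A : MvPolynomial σ MF}, A.map (φg 𝒰) = 0 → ∀ᶠ z in 𝓝[≠] (0 : ℂ), A.map (ev z) = 0 := by
    intro A hA
    have h1 : ∀ α ∈ A.support, ∀ᶠ z in 𝓝[≠] (0 : ℂ), ev z (A.coeff α) = 0 := by
      intro α _
      refine φg_zero h𝒰 ?_
      rw [← coeff_map, hA, coeff_zero]
    rw [← Finset.eventually_all] at h1
    filter_upwards [h1] with z hz
    ext α
    rw [coeff_map, coeff_zero]
    by_cases hα : α ∈ A.support
    · exact hz α hα
    · rw [notMem_support_iff.1 hα, map_zero]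
  have h1 := h0 (A := A - B) (by rw [map_sub, hA, sub_self])
  filter_upwards [h1] with z hz
  rwa [map_sub, sub_eq_zero] at hz

theorem transfer_forms {N m g e : ℕ} {T : Type} [Fintype T] (G : Fin g → MvPolynomial (Fin (N + 1)) MF) (q : Fin m → ℂ → MvPolynomial (Fin (N + 1)) ℂ) (hq : ∀ s, ∀ᶠ z in 𝓝[≠] (0 : ℂ), (q s z).IsHomogeneous e)
    (S : T → Finset (Fin m)) (f : T → MvPolynomial (Fin (N + 1)) MF)
    (hf : ∀ t, ∀ᶠ z in 𝓝[≠] (0 : ℂ), ∀ x, (∀ i, eval x ((G i).map (ev z)) = 0) → (∀ s ∈ S t, eval x (q s z) = 0) → eval x ((f t).map (ev z)) = 0) :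
    ∃ M : ℕ, 0 < M ∧ ∃ Q : Fin m → MvPolynomial (Fin (N + 1)) MF, (∀ s, ∀ᶠ τ in 𝓝[≠] (0 : ℂ), ((Q s).map (ev τ)).IsHomogeneous e) ∧
      ∀ t, ∃ (n : ℕ) (c : Fin g → MvPolynomial (Fin (N + 1)) MF) (b : Fin m → MvPolynomial (Fin (N + 1)) MF), ∀ᶠ τ in 𝓝[≠] (0 : ℂ),
        ∑ i, (c i).map (ev τ) * (G i).map (ev (τ ^ M)) + ∑ s ∈ S t, (b s).map (ev τ) * (Q s).map (ev τ) = (f t).map (ev (τ ^ M)) ^ n := by
  classical
  obtain ⟨𝒰, h𝒰⟩ : ∃ 𝒰 : Ultrafilter ℂ, (𝒰 : Filter ℂ) ≤ 𝓝[≠] 0 := ⟨Ultrafilter.of (𝓝[≠] 0), Ultrafilter.of_le _⟩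
  have := Gm_closed 𝒰
  -- the forms over the field of germs
  set ψ : MF →+* Gm 𝒰 := (gr 𝒰).comp MF.subtype with hψ
  obtain ⟨QL, hQL⟩ : ∃ QL : Fin m → MvPolynomial (Fin (N + 1)) (Gm 𝒰), QL = fun s => (fam e (q s)).map (gr 𝒰) := ⟨_, rfl⟩
  have hψmap : ∀ P : MvPolynomial (Fin (N + 1)) MF, P.map ψ = (P.map MF.subtype).map (gr 𝒰) := fun P => by rw [hψ, MvPolynomial.map_map]
  have hevmap : ∀ (P : MvPolynomial (Fin (N + 1)) MF) (z : ℂ), (P.map MF.subtype).map (Pi.evalRingHom (fun _ : ℂ => ℂ) z) = P.map (ev z) := fun P z => by rw [MvPolynomial.map_map]; rfl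
  -- Nullstellensatz
  have h1 : ∀ t, ∃ (n : ℕ) (c : Fin g → MvPolynomial (Fin (N + 1)) (Gm 𝒰)) (b : Fin m → MvPolynomial (Fin (N + 1)) (Gm 𝒰)),
      ∑ i, c i * (G i).map ψ + ∑ s ∈ S t, b s * QL s = (f t).map ψ ^ n := by
    intro t
    obtain ⟨n, c, hc⟩ := nss (ι := Fin g ⊕ (S t)) (Sum.elim (fun i => (G i).map ψ) fun s => QL s) ((f t).map ψ) (fun x hx => by
      have hrep : ∀ i, ∃ y : ℂ → ℂ, gr 𝒰 y = x i := fun i => gr_surj 𝒰 (x i)
      choose y hy using hrep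
      have hxy : x = fun i => gr 𝒰 (y i) := funext fun i => (hy i).symm
      have h2 : ∀ i, ∀ᶠ z in (𝒰 : Filter ℂ), eval (fun j => y j z) ((G i).map (ev z)) = 0 := by
        intro i
        have h3 := hx (Sum.inl i)
        rw [Sum.elim_inl, hxy, hψmap, eval_gr, ← map_zero (gr 𝒰), gr_eq] at h3
        filter_upwards [h3] with z hz
        rw [hevmap] at hz
        exact hz
      have h4 : ∀ s ∈ S t, ∀ᶠ z in (𝒰 : Filter ℂ), eval (fun j => y j z) (q s z) = 0 := by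
        intro s hs
        have h3 := hx (Sum.inr ⟨s, hs⟩)
        rw [Sum.elim_inr, hxy, hQL] at h3
        simp only at h3
        rw [eval_gr, ← map_zero (gr 𝒰), gr_eq] at h3
        filter_upwards [h3, h𝒰 (hq s)] with z hz hz'
        rw [fam_ev hz'] at hz
        exact hz
      rw [hxy, hψmap, eval_gr, ← map_zero (gr 𝒰), gr_eq]
      have h5 : ∀ᶠ z in (𝒰 : Filter ℂ), ∀ i, eval (fun j => y j z) ((G i).map (ev z)) = 0 := Filter.eventually_all.2 h2
      have h6 : ∀ᶠ z in (𝒰 : Filter ℂ), ∀ s ∈ S t, eval (fun j => y j z) (q s z) = 0 := (Finset.eventually_all (S t)).2 h4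
      filter_upwards [h5, h6, h𝒰 (hf t)] with z h7 h8 h9
      rw [hevmap]
      exact h9 _ h7 h8)
    refine ⟨n, fun i => c (Sum.inl i), fun s => if h : s ∈ S t then c (Sum.inr ⟨s, h⟩) else 0, ?_⟩
    rw [← hc, Fintype.sum_sum_type]
    congr 1
    rw [← Finset.sum_coe_sort (S t)]
    refine Finset.sum_congr rfl fun s _ => ?_
    beta_reduce
    rw [dif_pos s.2]
    rfl
  choose n c b hcb using h1
  -- the algebra
  set C : Set (Gm 𝒰) := (⋃ s, ((QL s).coeffs : Set (Gm 𝒰))) ∪ ((⋃ t, ⋃ i, ((c t i).coeffs : Set (Gm 𝒰))) ∪ ⋃ t, ⋃ s, ((b t s).coeffs : Set (Gm 𝒰))) with hC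
  have hCf : C.Finite := by
    refine (Set.finite_iUnion fun s => Finset.finite_toSet _).union (Set.Finite.union ?_ ?_)
    · exact Set.finite_iUnion fun t => Set.finite_iUnion fun i => Finset.finite_toSet _
    · exact Set.finite_iUnion fun t => Set.finite_iUnion fun i => Finset.finite_toSet _
  set A : Subalgebra (Fg 𝒰) (Gm 𝒰) := Algebra.adjoin (Fg 𝒰) C with hA
  have hAft : Algebra.FiniteType (Fg 𝒰) A := (Subalgebra.fg_iff_finiteType A).1 (Subalgebra.fg_def.2 ⟨C, hCf, rfl⟩)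
  obtain ⟨M, hM, Ψ, hΨ⟩ := transfer h𝒰 h𝒰 A
  have hlift : ∀ P : MvPolynomial (Fin (N + 1)) (Gm 𝒰), (P.coeffs : Set (Gm 𝒰)) ⊆ C → ∃ P' : MvPolynomial (Fin (N + 1)) A, P'.map A.val.toRingHom = P := by
    intro P hP
    refine mem_range_map_iff_coeffs_subset.2 fun x hx => ?_
    exact ⟨⟨x, Algebra.subset_adjoin (hP hx)⟩, rfl⟩
  have h2 : ∀ s, ∃ P' : MvPolynomial (Fin (N + 1)) A, P'.map A.val.toRingHom = QL s := fun s => hlift _ fun x hx => Or.inl (Set.mem_iUnion.2 ⟨s, hx⟩)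
  have h3 : ∀ t i, ∃ P' : MvPolynomial (Fin (N + 1)) A, P'.map A.val.toRingHom = c t i := fun t i => hlift _ fun x hx => Or.inr (Or.inl (Set.mem_iUnion.2 ⟨t, Set.mem_iUnion.2 ⟨i, hx⟩⟩))
  have h4 : ∀ t s, ∃ P' : MvPolynomial (Fin (N + 1)) A, P'.map A.val.toRingHom = b t s := fun t s => hlift _ fun x hx => Or.inr (Or.inr (Set.mem_iUnion.2 ⟨t, Set.mem_iUnion.2 ⟨s, hx⟩⟩))
  choose QA hQA using h2
  choose cA hcA using h3
  choose bA hbA using h4
  have hinj : Function.Injective (MvPolynomial.map (σ := Fin (N + 1)) A.val.toRingHom) := MvPolynomial.map_injective _ Subtype.val_injective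
  set χ : MF →+* A := (algebraMap (Fg 𝒰) A).comp (φg 𝒰) with hχ
  have hχψ : A.val.toRingHom.comp χ = ψ := rfl
  have hid : ∀ t, ∑ i, cA t i * (G i).map χ + ∑ s ∈ S t, bA t s * QA s = (f t).map χ ^ n t := by
    intro t
    apply hinj
    rw [map_add, map_sum, map_sum, map_pow, MvPolynomial.map_map, hχψ, ← hcb t]
    congr 1
    · refine Finset.sum_congr rfl fun i _ => ?_
      rw [map_mul, MvPolynomial.map_map, hχψ, hcA]
    · refine Finset.sum_congr rfl fun s _ => ?_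
      rw [map_mul, hbA, hQA]
  -- the homomorphism
  have hsurj : Function.Surjective (MvPolynomial.map (σ := Fin (N + 1)) (φg 𝒰)) := MvPolynomial.map_surjective _ (φg_surj 𝒰)
  have hΨχ : Ψ.comp χ = (φg 𝒰).comp (pb M hM) := by
    ext x
    rw [RingHom.comp_apply, hχ, RingHom.comp_apply, hΨ, pbF_φg]
    rfl
  have h5 : ∀ s, ∃ P : MvPolynomial (Fin (N + 1)) MF, P.map (φg 𝒰) = (QA s).map Ψ := fun s => hsurj _
  have h6 : ∀ t i, ∃ P : MvPolynomial (Fin (N + 1)) MF, P.map (φg 𝒰) = (cA t i).map Ψ := fun t i => hsurj _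
  have h7 : ∀ t s, ∃ P : MvPolynomial (Fin (N + 1)) MF, P.map (φg 𝒰) = (bA t s).map Ψ := fun t i => hsurj _
  choose Q hQ using h5
  choose c' hc' using h6
  choose b' hb' using h7
  have hpbev : ∀ (P : MvPolynomial (Fin (N + 1)) MF) (τ : ℂ), (P.map (pb M hM)).map (ev τ) = P.map (ev (τ ^ M)) := by
    intro P τ
    rw [MvPolynomial.map_map]
    rfl
  refine ⟨M, hM, Q, fun s => ?_, fun t => ⟨n t, c' t, b' t, ?_⟩⟩
  · -- homogeneous
    have h8 : ((Q s).map (φg 𝒰)).IsHomogeneous e := by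
      rw [hQ]
      refine IsHomogeneous.map ?_ Ψ
      have h9 : (QL s).IsHomogeneous e := by
        rw [hQL]
        exact IsHomogeneous.map (fam_hom e (q s)) _
      rw [← hQA s] at h9
      exact h9.of_map Subtype.val_injective
    have h9 : ∀ α ∈ (Q s).support, ∀ᶠ τ in 𝓝[≠] (0 : ℂ), Finsupp.weight 1 α ≠ e → ev τ ((Q s).coeff α) = 0 := by
      intro α _
      by_cases hα : Finsupp.weight 1 α = e
      · exact Filter.Eventually.of_forall fun τ h => absurd hα h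
      · have h10 : φg 𝒰 ((Q s).coeff α) = 0 := by
          rw [← coeff_map]
          by_contra hne
          exact hα (h8 hne)
        filter_upwards [φg_zero h𝒰 h10] with τ hτ _ using hτ
    rw [← Finset.eventually_all] at h9
    filter_upwards [h9] with τ hτ α hα
    rw [coeff_map] at hα
    by_contra hne
    refine hα ?_
    by_cases hs : α ∈ (Q s).support
    · exact hτ α hs hne
    · rw [notMem_support_iff.1 hs, map_zero]
  · have h8 : (∑ i, c' t i * (G i).map (pb M hM) + ∑ s ∈ S t, b' t s * Q s).map (φg 𝒰) = (((f t).map (pb M hM)) ^ n t).map (φg 𝒰) := by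
      have h9 := congrArg (MvPolynomial.map Ψ) (hid t)
      rw [map_add, map_sum, map_sum, map_pow, MvPolynomial.map_map, hΨχ] at h9
      rw [map_add, map_sum, map_sum, map_pow, MvPolynomial.map_map, ← h9]
      congr 1
      · refine Finset.sum_congr rfl fun i _ => ?_
        rw [map_mul, map_mul, MvPolynomial.map_map, MvPolynomial.map_map, hΨχ, hc']
      · refine Finset.sum_congr rfl fun s _ => ?_
        rw [map_mul, map_mul, hb', hQ]
    filter_upwards [mpeq h𝒰 h8] with τ hτ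
    rw [map_add, map_sum, map_sum, map_pow, hpbev] at hτ
    rw [← hτ]
    congr 1
    · refine Finset.sum_congr rfl fun i _ => ?_
      rw [map_mul, hpbev]
    · refine Finset.sum_congr rfl fun s _ => ?_
      rw [map_mul]

end Pool.Agent.HE

end
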