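import Pool.Agent.H94.PX2.M32
import Pool.Agent.H94.PX2.M34
import Pool.Agent.H94.PX2.M37
import Pool.Agent.H94.PX2.M40
import Pool.Agent.H94.PX2.M44
import Pool.Agent.H94.PX2.M46

/-! The parts of this file: PX.F.CDefs, PX.S.Tr, PX.PicF, PX.F.Dsc, PX.F.Poly. -/

section

/-!
# PX F CDefs: reduced hypersurfaces of `A × ℙ¹`

`F y` is a binary form of degree `d ≥ 3` whose coefficients are theta functions of `y`, of a positive line bundle on the simple torus `A`.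
-/

set_option autoImplicit false

open Topology Filter MvPolynomial
open Pool.Agent.H17 (PN VanishesAt)
open Pool.Agent.PXF (Cn IsSimple)

noncomputable section

namespace Pool.Agent.HEF

variable {k : ℕ}

/-- The binary form `f` has at least three zeros. -/
def HasThreeZeros (f : MvPolynomial (Fin 2) ℂ) : Prop :=
  ∃ p₁ p₂ p₃ : PN 1, VanishesAt f p₁ ∧ VanishesAt f p₂ ∧ VanishesAt f p₃ ∧ p₁ ≠ p₂ ∧ p₁ ≠ p₃ ∧ p₂ ≠ p₃

/-- The set of the other points of `A`. -/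
def fewZeros (Λ : AddSubgroup (Cn (k + 1))) (F : Cn (k + 1) → MvPolynomial (Fin 2) ℂ) : Set (Cn (k + 1) ⧸ Λ) :=
  {t | ∃ y : Cn (k + 1), (y : Cn (k + 1) ⧸ Λ) = t ∧ ¬ HasThreeZeros (F y)}

/-- The divisor `{F = 0}` of `A × ℙ¹`, `A` simple, of degree `d ≥ 3` over `A`, is ample, has no multiple component and contains no hypersurface `Γ × ℙ¹`. -/
structure IsReducedDivisor (Λ : AddSubgroup (Cn (k + 1))) (F : Cn (k + 1) → MvPolynomial (Fin 2) ℂ) (d : ℕ) : Prop where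
  simple : IsSimple Λ
  degree : 3 ≤ d
  form : IsHolomorphicForm Set.univ F d
  ample : IsAmple Λ F
  /-- over some point `y` the form has no multiple zeros -/
  simpleZeros : ∃ y, ∀ x : Cn 2, x ≠ 0 → eval x (F y) = 0 → ∃ i, eval x (pderiv i (F y)) ≠ 0
  /-- near a point where the form is `0` the zeros of `F y b`, `b` fixed, are not all such points -/
  codimension : ∀ y, F y = 0 → ∀ b : Cn 2, ∃ᶠ z in 𝓝 y, eval b (F z) = 0 ∧ F z ≠ 0

end Pool.Agent.HEF

end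
end

section

/-!
# PX S Tr: the definitions of the final theorem and the definitions used in the proof
-/

set_option autoImplicit false

open Topology Filter MvPolynomial
open Pool.Agent.H17 (PN VanishesAt HolomorphicInto)
open Pool.Agent.H62.SA (locVar)

noncomputable section

namespace Pool.Agent.COT

variable {k m q N d : ℕ} {Λ : Sub k} {T : Set (Prd Λ m)} {S : Set (Torus Λ)} {X : Set (Prd Λ m)} {F : Fin q → Poly k m}

theorem IsCurveIn.to {t : ℂ → Torus Λ} {g : ℂ → PN m} {U : Set ℂ} (h : IsCurveIn Λ T t g U) : PXF.IsCurveIn Λ T t g U := ⟨h.torus, h.proj, h.mem⟩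

theorem hyperbolic_of (h : PXF.IsHyperbolicModulo Λ T S) : IsHyperbolicModulo Λ T S where
  discs := by
    obtain ⟨C, hC⟩ := h.discs
    exact ⟨C, fun f g hf hg => hC f g hf hg.to⟩
  entire := fun t g hg => h.entire t g hg.to
  punctured := fun t g hg => h.punctured t g hg.to

theorem hyperbolic_to (h : IsHyperbolicModulo Λ T S) : PXF.IsHyperbolicModulo Λ T S where
  discs := by
    obtain ⟨C, hC⟩ := h.discs
    exact ⟨C, fun f g hf hg => hC f g hf ⟨hg.torus, hg.proj, hg.mem⟩⟩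
  entire := fun t g hg => h.entire t g ⟨hg.torus, hg.proj, hg.mem⟩
  punctured := fun t g hg => h.punctured t g ⟨hg.torus, hg.proj, hg.mem⟩

theorem kobayashi_of (h : HEF.KobayashiPositive Λ T S) : KobayashiPositive Λ T S := by
  intro y hy hp
  obtain ⟨C, hC⟩ := h y hy hp
  exact ⟨C, hC.mono fun y' hy' t g φ hg => hy' t g φ hg.to⟩

theorem IsFiniteOver.to {P : Ideal (MvPolynomial (Fin (N + 1)) ℂ)} {s : ℕ} {G : Fin s → MvPolynomial (Fin (N + 1)) ℂ} {u : PN N → Torus Λ} {v : PN N → PN m} (h : IsFiniteOver P G Λ T S u v) :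
    PXF.IsFiniteOver P G Λ T S u v := ⟨h.torus, h.regular, h.finite, h.maps, h.special⟩

theorem IsHolomorphicForm.to {U : Set (Cn (k + 1))} {F : Poly k m} (h : IsHolomorphicForm U F d) : HEF.IsHolomorphicForm U F d := ⟨h.homogeneous, h.holomorphic⟩

theorem IsSection.to {F : Poly k m} {r : ℕ} {W : Fin r → Cn (k + 1) →L[ℂ] ℂ} (h : IsSection Λ F W) : HEF.IsSection Λ F W := by
  obtain ⟨d, hd, hF⟩ := h.form
  exact ⟨⟨d, hd, hF.to⟩, h.quasiPeriodic⟩

theorem ample_to {F : Poly k m} (h : IsAmple Λ F) : HEF.IsAmple Λ F := by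
  obtain ⟨r, W, hW, h⟩ := h
  exact ⟨r, W, hW, h.to⟩

theorem semi_to {F : Poly k m} (h : IsSemipositive Λ F) : HEF.IsSemipositive Λ F := by
  obtain ⟨r, W, h⟩ := h
  exact ⟨r, W, h.to⟩

theorem analytic_to (h : IsAnalytic Λ X) : HEF.IsAnalytic Λ X := by
  intro y₀
  obtain ⟨ρ, s, G, d, hρ, hG, hX⟩ := h y₀
  exact ⟨ρ, s, G, d, hρ, fun i => (hG i).to, hX⟩

theorem fibre_to {y₀ : Cn (k + 1)} (h : HasHyperbolicFibre Λ X F y₀) : HEF.HasHyperbolicFibre Λ X F y₀ := by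
  obtain ⟨ρ, s, Q, e, hρ, hQ, hX, h⟩ := h
  exact ⟨ρ, s, Q, e, hρ, fun i => (hQ i).to, hX, h⟩

theorem IsReducedDivisor.to {F : Poly k 1} (h : IsReducedDivisor Λ F d) : HEF.IsReducedDivisor Λ F d :=
  ⟨h.simple, h.degree, h.form.to, ample_to h.ample, h.simpleZeros, h.codimension⟩

theorem IsHyperbolicOff.to (h : IsHyperbolicOff Λ X F S) : HEF.IsHyperbolicOff Λ X F S where
  analytic := analytic_to h.analytic
  sections := fun j => semi_to (h.sections j)
  special := h.special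
  noLines := h.noLines
  noSections := fun y a g ha hg => by
    obtain ⟨j, hj, z, hz, hv⟩ := h.noSections y a g ha ⟨hg.holomorphic, hg.mem, hg.inOrOff⟩
    exact ⟨j, ample_to hj, z, hz, hv⟩
  fibres := fun y hy => fibre_to (h.fibres y hy)
  overSpecial := h.overSpecial

end Pool.Agent.COT

end
end

section

/-!
# PX PicF: maps of the punctured disc, the component in `ℙ¹`

Near `0` divide the form `Fo θ (H z)` by `z ^ j` so that it is not `0` at `z = 0`, choose `b`, `e`: all roots are `t • b + e` with bounded `t` (`Coef`), `t` a root of a monic polynomial with holomorphic coefficients; `sqfree`, `roots_pow`: for `z = τ ^ N` there are at least three distinct holomorphic root functions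
`e_i τ`, distinct for `τ ≠ 0`; the cross ratio of `g (τ ^ N)` with three of them omits `0`, `1` (`cross`), so it is meromorphic at `0` (`H41.LR.picard`, `schottky`), so `g (τ ^ N)` has a lift which is meromorphic at `0`, so `g` has a limit at `0` (`core`); in a suitable coordinate
of `ℙ¹` the function `g z` is bounded on the punctured disc, so it extends (`fin_ext`).
-/

set_option autoImplicit false

open Topology Filter Metric

namespace Pool.Agent.PX

open Pool.Agent.H36.BP (EN fs wd)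
open Pool.Agent.H62.EF (MN pr)
open Pool.Agent.AD (Vd)
open Pool.Agent.TG (Lat)
open Pool.Agent.G3 (wt LLift)
open Pool.Agent.G4 (Few)

variable {k d r : ℕ}

private theorem pr_coord (v : EN 1) (a i : Fin 2) (hi : v i ≠ 0) : pr v (a, i) / pr v (i, i) = v a / v i := by
  have hv : v ≠ 0 := by
    rintro rfl
    exact hi rfl
  have hn : ((‖v‖ ^ 2 : ℝ) : ℂ) ≠ 0 := by
    have := norm_pos_iff.2 hv
    exact_mod_cast (by positivity : (‖v‖ ^ 2 : ℝ) ≠ 0)
  have hc : (starRingEnd ℂ) (v i) ≠ 0 := by simpa using hi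
  show v a * (starRingEnd ℂ) (v i) / ((‖v‖ ^ 2 : ℝ) : ℂ) / (v i * (starRingEnd ℂ) (v i) / ((‖v‖ ^ 2 : ℝ) : ℂ)) = v a / v i
  field_simp

private theorem pr_ii (v : EN 1) (i : Fin 2) (hv : v ≠ 0) : pr v (i, i) = 0 ↔ v i = 0 := by
  have hn : ((‖v‖ ^ 2 : ℝ) : ℂ) ≠ 0 := by
    have := norm_pos_iff.2 hv
    exact_mod_cast (by positivity : (‖v‖ ^ 2 : ℝ) ≠ 0)
  constructor
  · intro h
    have h1 : v i * (starRingEnd ℂ) (v i) / ((‖v‖ ^ 2 : ℝ) : ℂ) = 0 := h
    rw [div_eq_zero_iff, mul_eq_zero] at h1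
    rcases h1 with (h1 | h1) | h1
    · exact h1
    · simpa using h1
    · exact absurd h1 hn
  · intro h
    show v i * (starRingEnd ℂ) (v i) / ((‖v‖ ^ 2 : ℝ) : ℂ) = 0
    rw [h]
    simp

/-- A curve in `ℙ¹` on a punctured disc which has a limit extends. -/
private theorem fin_ext {g : ℂ → MN 1} {R : ℝ} (hR : 0 < R) (hl : ∀ z ∈ ball (0 : ℂ) R, z ≠ 0 → LLift g z) {v : EN 1} (hv : v ≠ 0) (ht : Tendsto g (𝓝[≠] 0) (𝓝 (pr v))) :
    ∃ ρ : ℝ, 0 < ρ ∧ ∃ G : ℂ → EN 1, DifferentiableOn ℂ G (ball 0 ρ) ∧ (∀ z ∈ ball (0 : ℂ) ρ, G z ≠ 0) ∧ ∀ z ∈ ball (0 : ℂ) ρ, z ≠ 0 → g z = pr (G z) := by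
  obtain ⟨i, hi⟩ : ∃ i, v i ≠ 0 := by
    by_contra h
    push Not at h
    exact hv (by ext i; simpa using h i)
  have h1 : pr v (i, i) ≠ 0 := fun h => hi ((pr_ii v i hv).1 h)
  have hap : ∀ p : Fin 2 × Fin 2, Tendsto (fun z => g z p) (𝓝[≠] 0) (𝓝 (pr v p)) := by
    intro p
    have hc : Continuous fun x : MN 1 => x p := by fun_prop
    exact (hc.tendsto (pr v)).comp ht
  have h3 : ∀ᶠ z in 𝓝[≠] (0 : ℂ), g z (i, i) ≠ 0 := (hap (i, i)).eventually_ne h1
  rw [eventually_nhdsWithin_iff, Metric.eventually_nhds_iff_ball] at h3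
  obtain ⟨ε, hε, h3⟩ := h3
  set G₀ : ℂ → EN 1 := fun z => WithLp.toLp 2 fun a => g z (a, i) / g z (i, i) with hG₀
  set L : EN 1 := WithLp.toLp 2 fun a => pr v (a, i) / pr v (i, i) with hL
  set G : ℂ → EN 1 := Function.update G₀ 0 L with hG
  have hGz : ∀ z, z ≠ 0 → G z = G₀ z := fun z hz => Function.update_of_ne hz _ _
  have hG0 : G 0 = L := Function.update_self _ _ _
  have hlim : Tendsto G₀ (𝓝[≠] 0) (𝓝 L) := by
    have e : Tendsto (fun z => (fun a => g z (a, i) / g z (i, i) : Fin 2 → ℂ)) (𝓝[≠] 0) (𝓝 fun a => pr v (a, i) / pr v (i, i)) := by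
      rw [tendsto_pi_nhds]
      exact fun a => (hap (a, i)).div (hap (i, i)) h1
    exact ((PiLp.continuous_toLp 2 (fun _ : Fin 2 => ℂ)).tendsto _).comp e
  have hcont : ContinuousAt G 0 := continuousAt_update_same.2 hlim
  have hd : ∀ z ∈ ball (0 : ℂ) (min ε R), z ≠ 0 → DifferentiableAt ℂ G z := by
    intro z hz hz0
    obtain ⟨Φ, hΦ, hev⟩ := hl z (ball_subset_ball (min_le_right _ _) hz) hz0
    have hne : g z (i, i) ≠ 0 := h3 z (ball_subset_ball (min_le_left _ _) hz) hz0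
    have hz1 := hev.self_of_nhds
    have hΦi : Φ z i ≠ 0 := by
      intro h
      rw [hz1.2] at hne
      exact hne ((pr_ii _ i hz1.1).2 h)
    have hΦc : ∀ a, AnalyticAt ℂ (fun w => Φ w a) z := by
      intro a
      exact ((EuclideanSpace.proj (𝕜 := ℂ) a).analyticAt _).comp hΦ
    have hΦi' : ∀ᶠ w in 𝓝 z, Φ w i ≠ 0 := (hΦc i).continuousAt.eventually_ne hΦi
    have hd1 : DifferentiableAt ℂ (fun w => (WithLp.toLp 2 fun a => Φ w a / Φ w i : EN 1)) z := by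
      rw [differentiableAt_euclidean]
      intro a
      exact ((hΦc a).differentiableAt).div ((hΦc i).differentiableAt) hΦi
    refine hd1.congr_of_eventuallyEq ?_
    filter_upwards [hev, hΦi', (isOpen_compl_singleton (x := (0 : ℂ))).mem_nhds hz0] with w hw1 hw2 hw3
    rw [hGz w hw3]
    show (WithLp.toLp 2 fun a => g w (a, i) / g w (i, i) : EN 1) = _
    rw [hw1.2]
    congr 1
    ext a
    exact pr_coord _ a i hw2
  have hGi : ∀ z ∈ ball (0 : ℂ) (min ε R), G z i = 1 := by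
    intro z hz
    by_cases hz0 : z = 0
    · rw [hz0, hG0]
      show pr v (i, i) / pr v (i, i) = 1
      exact div_self h1
    · rw [hGz z hz0]
      show g z (i, i) / g z (i, i) = 1
      exact div_self (h3 z (ball_subset_ball (min_le_left _ _) hz) hz0)
  refine ⟨min ε R, lt_min hε hR, G, ?_, ?_, ?_⟩
  · refine (Complex.differentiableOn_compl_singleton_and_continuousAt_iff (ball_mem_nhds 0 (lt_min hε hR))).1 ⟨?_, hcont⟩
    intro z hz
    exact (hd z hz.1 hz.2).differentiableWithinAt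
  · intro z hz h
    have := hGi z hz
    rw [h] at this
    simp at this
  · intro z hz hz0
    obtain ⟨Φ, hΦ, hev⟩ := hl z (ball_subset_ball (min_le_right _ _) hz) hz0
    have hne : g z (i, i) ≠ 0 := h3 z (ball_subset_ball (min_le_left _ _) hz) hz0
    have hz1 := hev.self_of_nhds
    have hΦi : Φ z i ≠ 0 := by
      intro h
      rw [hz1.2] at hne
      exact hne ((pr_ii _ i hz1.1).2 h)
    have e : G z = (Φ z i)⁻¹ • Φ z := by
      rw [hGz z hz0]
      ext a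
      show g z (a, i) / g z (i, i) = (Φ z i)⁻¹ * Φ z a
      rw [hz1.2, pr_coord _ a i hΦi, div_eq_inv_mul]
    rw [e, Pool.Agent.H62.EF.pr_smul _ (inv_ne_zero hΦi)]
    exact hz1.2

/-- the form with the coordinates as coefficients -/
private def tu (d : ℕ) : Fin (d + 1) → Vd (d + 1) → ℂ := fun i y => y i

private theorem tu_diff (d : ℕ) : ∀ i, Differentiable ℂ (tu d i) := fun i => by
  unfold tu
  fun_prop

private theorem tu_smul (d : ℕ) (c : ℂ) (y : Vd (d + 1)) (x : EN 1) : Fo (tu d) (c • y) x = c * Fo (tu d) y x := by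
  unfold Fo tu
  rw [Finset.mul_sum]
  refine Finset.sum_congr rfl fun i _ => ?_
  simp only [Pi.smul_apply, smul_eq_mul]
  ring

/-- the cross ratio argument: recover a vector -/
private theorem cross_vec {x₁ x₂ x₃ v : EN 1} (h21 : dt x₂ x₁ ≠ 0) (h3 : dt x₃ v ≠ 0) :
    dt x₂ x₃ • x₁ - (dt x₁ v * dt x₂ x₃ / (dt x₃ v * dt x₂ x₁) * dt x₂ x₁) • x₃ = (dt x₂ x₃ * dt x₃ x₁ / dt x₃ v) • v := by
  have e : dt x₁ v * dt x₂ x₃ / (dt x₃ v * dt x₂ x₁) * dt x₂ x₁ = dt x₁ v * dt x₂ x₃ / dt x₃ v := by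
    field_simp
  rw [e]
  have key : dt x₃ v • (dt x₂ x₃ • x₁ - (dt x₁ v * dt x₂ x₃ / dt x₃ v) • x₃) = dt x₃ v • ((dt x₂ x₃ * dt x₃ x₁ / dt x₃ v) • v) := by
    rw [smul_sub, smul_smul, smul_smul, smul_smul]
    have e1 : dt x₃ v * (dt x₁ v * dt x₂ x₃ / dt x₃ v) = dt x₁ v * dt x₂ x₃ := by field_simp
    have e2 : dt x₃ v * (dt x₂ x₃ * dt x₃ x₁ / dt x₃ v) = dt x₂ x₃ * dt x₃ x₁ := by field_simp
    rw [e1, e2]
    ext a
    fin_cases a
    · simp [dt]
      ring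
    · simp [dt]
      ring
  exact smul_right_injective _ h3 key

private theorem dt_lin (b e : EN 1) (s t : ℂ) : dt (s • b + e) (t • b + e) = (s - t) * dt b e := by
  simp [dt]
  ring

/-- the product with a double root has derivative zero -/
private theorem deriv_prod_dbl {m : ℕ} (a : Fin m → ℂ) {i j : Fin m} (hij : i ≠ j) (h : a i = a j) : deriv (fun t => ∏ l, (t - a l)) (a i) = 0 := by
  have e : (fun t => ∏ l, (t - a l)) = fun t => (t - a i) * ((t - a i) * ∏ l ∈ (Finset.univ.erase i).erase j, (t - a l)) := by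
    funext t
    rw [← Finset.mul_prod_erase Finset.univ _ (Finset.mem_univ i), ← Finset.mul_prod_erase (Finset.univ.erase i) _ (Finset.mem_erase.2 ⟨hij.symm, Finset.mem_univ j⟩), h]
  rw [e]
  set q : ℂ → ℂ := fun t => ∏ l ∈ (Finset.univ.erase i).erase j, (t - a l) with hq
  have hqd : DifferentiableAt ℂ q (a i) := by
    rw [hq]
    fun_prop
  have h1 : HasDerivAt (fun t => t - a i) 1 (a i) := (hasDerivAt_id _).sub_const _
  have h2 := h1.mul (h1.mul hqd.hasDerivAt)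
  have h3 : (fun t => (t - a i) * ((t - a i) * q t)) = (fun t => t - a i) * ((fun t => t - a i) * q) := rfl
  rw [h3, h2.deriv]
  simp

private theorem core {g : ℂ → MN 1} {B : ℂ → Vd (d + 1)} {R : ℝ} (hR : 0 < R) (hB : DifferentiableOn ℂ B (ball 0 R)) (hB0 : B 0 ≠ 0)
    (hl : ∀ z ∈ ball (0 : ℂ) R, z ≠ 0 → LLift g z) (hg : ∀ z ∈ ball (0 : ℂ) R, z ≠ 0 → ∀ x : EN 1, x ≠ 0 → pr x = g z → Fo (tu d) (B z) x ≠ 0)
    (h3 : ∀ z ∈ ball (0 : ℂ) R, z ≠ 0 → R3 (tu d) (B z)) : ∃ v : EN 1, v ≠ 0 ∧ Tendsto g (𝓝[≠] 0) (𝓝 (pr v)) := by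
  -- the point `b`
  obtain ⟨b, e, hb, hbe⟩ : ∃ b e : EN 1, Fo (tu d) (B 0) b ≠ 0 ∧ dt b e ≠ 0 := by
    by_contra h
    push Not at h
    apply hB0
    have hp : (∑ i : Fin (d + 1), Polynomial.C (B 0 i) * Polynomial.X ^ (i : ℕ)) = (0 : Polynomial ℂ) := by
      apply Polynomial.funext
      intro s
      by_contra hs
      have h1 : Fo (tu d) (B 0) (WithLp.toLp 2 ![s, 1]) ≠ 0 := by
        intro h2
        apply hs
        rw [Polynomial.eval_zero, Polynomial.eval_finsetSum]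
        refine Eq.trans ?_ h2
        show _ = ∑ i : Fin (d + 1), B 0 i * s ^ (i : ℕ) * (1 : ℂ) ^ (d - (i : ℕ))
        refine Finset.sum_congr rfl fun i _ => ?_
        rw [Polynomial.eval_mul, Polynomial.eval_C, Polynomial.eval_pow, Polynomial.eval_X, one_pow, mul_one]
      have h2 := h _ (WithLp.toLp 2 ![1, 0]) h1
      simp [dt] at h2
    funext i
    have h1 := congrArg (fun p => Polynomial.coeff p (i : ℕ)) hp
    simp only [Polynomial.finsetSum_coeff, Polynomial.coeff_C_mul, Polynomial.coeff_X_pow, Polynomial.coeff_zero] at h1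
    rw [Finset.sum_eq_single i] at h1
    · simpa using h1
    · intro j _ hj
      have : (i : ℕ) ≠ (j : ℕ) := fun h => hj (Fin.ext h.symm)
      simp [this]
    · intro h2
      exact absurd (Finset.mem_univ _) h2
  obtain ⟨c0, hc0, hco⟩ := exists_coef (tu_diff d) b e
  set β : ℂ → ℂ := fun z => Fo (tu d) (B z) b with hβ
  have hβd : DifferentiableOn ℂ β (ball 0 R) := by
    have h1 := fo_diff (tu_diff d)
    have h2 : DifferentiableOn ℂ (fun z => (B z, b)) (ball 0 R) := hB.prodMk (differentiableOn_const b)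
    have h4 : DifferentiableOn ℂ ((fun p : Vd (d + 1) × EN 1 => Fo (tu d) p.1 p.2) ∘ fun z => (B z, b)) (ball 0 R) := h1.comp_differentiableOn h2
    exact h4
  have hβ0 : ∀ᶠ z in 𝓝 (0 : ℂ), β z ≠ 0 := ((hβd.differentiableAt (ball_mem_nhds 0 hR)).continuousAt).eventually_ne hb
  obtain ⟨R₁, hR₁, hR₁R, hβn⟩ : ∃ R₁ : ℝ, 0 < R₁ ∧ R₁ ≤ R ∧ ∀ z ∈ ball (0 : ℂ) R₁, β z ≠ 0 := by
    obtain ⟨ε, hε, h⟩ := Metric.eventually_nhds_iff_ball.1 hβ0
    exact ⟨min ε R, lt_min hε hR, min_le_right _ _, fun z hz => h z (ball_subset_ball (min_le_left _ _) hz)⟩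
  set c : Fin d → ℂ → ℂ := fun i z => c0 i (B z) / β z with hc
  have hcd : ∀ i, DifferentiableOn ℂ (c i) (ball 0 R₁) := fun i =>
    (((hc0 i).comp_differentiableOn (hB.mono (ball_subset_ball hR₁R)))).div (hβd.mono (ball_subset_ball hR₁R)) hβn
  have hPt : ∀ z ∈ ball (0 : ℂ) R₁, ∀ t, Fo (tu d) (B z) (t • b + e) = β z * Pt c z t := by
    intro z hz t
    have h1 := hβn z hz
    rw [hco]
    unfold Pt
    rw [mul_add, Finset.mul_sum]
    congr 1
    refine Finset.sum_congr rfl fun i _ => ?_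
    rw [hc]
    field_simp
  obtain ⟨ρ, hρ, hρR, m', c', hc'd, hroots, hsimple⟩ := sqfree hR₁ hcd
  obtain ⟨N, hN, ρ', hρ', hρN, E, hE, hprod⟩ := roots_pow hρ hc'd hsimple
  have hpw : ∀ τ ∈ ball (0 : ℂ) ρ', τ ^ N ∈ ball (0 : ℂ) ρ := by
    intro τ hτ
    rw [mem_ball_zero_iff] at hτ ⊢
    rw [norm_pow]
    exact (pow_lt_pow_left₀ hτ (norm_nonneg _) hN.ne').trans_le hρN
  have hpwR₁ : ∀ τ ∈ ball (0 : ℂ) ρ', τ ^ N ∈ ball (0 : ℂ) R₁ := fun τ hτ => ball_subset_ball hρR (hpw τ hτ)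
  have hpwR : ∀ τ ∈ ball (0 : ℂ) ρ', τ ^ N ∈ ball (0 : ℂ) R := fun τ hτ => ball_subset_ball hR₁R (hpwR₁ τ hτ)
  -- distinct roots
  have hdist : ∀ τ ∈ ball (0 : ℂ) ρ', τ ≠ 0 → ∀ i j, i ≠ j → E i τ ≠ E j τ := by
    intro τ hτ hτ0 i j hij h
    have h1 : Pt c' (τ ^ N) (E i τ) = 0 := by
      rw [hprod τ hτ]
      exact Finset.prod_eq_zero (Finset.mem_univ i) (sub_self _)
    have h2 := hsimple (τ ^ N) (hpw τ hτ) (pow_ne_zero _ hτ0) _ h1
    apply h2
    have h4 : Pt c' (τ ^ N) = fun t => ∏ l, (t - E l τ) := funext fun t => hprod τ hτ t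
    rw [h4]
    exact deriv_prod_dbl (fun l => E l τ) hij h
  -- three indices
  obtain ⟨i₁, i₂, i₃, h12, h13, h23⟩ : ∃ i₁ i₂ i₃ : Fin m', i₁ ≠ i₂ ∧ i₁ ≠ i₃ ∧ i₂ ≠ i₃ := by
    have hτ : ((ρ' / 2 : ℝ) : ℂ) ∈ ball (0 : ℂ) ρ' := by
      rw [mem_ball_zero_iff, Complex.norm_real, Real.norm_eq_abs, abs_of_pos (by positivity)]
      linarith
    have hτ0 : ((ρ' / 2 : ℝ) : ℂ) ≠ 0 := by
      exact_mod_cast (by positivity : (ρ' / 2 : ℝ) ≠ 0)
    set τ : ℂ := ((ρ' / 2 : ℝ) : ℂ)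
    obtain ⟨x₁, x₂, x₃, f1, f2, f3, d12, d13, d23⟩ := h3 (τ ^ N) (hpwR τ hτ) (pow_ne_zero _ hτ0)
    have key : ∀ x : EN 1, x ≠ 0 → Fo (tu d) (B (τ ^ N)) x = 0 → ∃ i, ∃ c : ℂ, x = c • (E i τ • b + e) := by
      intro x hx hF
      obtain ⟨-, h2⟩ := rt_dt (d := d) hbe (hβn _ (hpwR₁ τ hτ)) hx hF
      set t := -(dt e x) / dt b x with ht
      have hc0 : dt b x / dt b e ≠ 0 := by
        intro h
        rw [h, zero_smul] at h2
        exact hx h2
      have h5 : Fo (tu d) (B (τ ^ N)) (t • b + e) = 0 := by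
        rw [h2, fo_smul] at hF
        exact (mul_eq_zero.1 hF).resolve_left (pow_ne_zero _ hc0)
      rw [hPt _ (hpwR₁ τ hτ)] at h5
      have h6 := (mul_eq_zero.1 h5).resolve_left (hβn _ (hpwR₁ τ hτ))
      have h7 := (hroots _ (hpw τ hτ) (pow_ne_zero _ hτ0) t).2 h6
      rw [hprod τ hτ, Finset.prod_eq_zero_iff] at h7
      obtain ⟨i, -, hi⟩ := h7
      exact ⟨i, dt b x / dt b e, by rw [← sub_eq_zero.1 hi]; exact h2⟩
    have n1 : x₁ ≠ 0 := by
      rintro rfl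
      simp [dt] at d12
    have n2 : x₂ ≠ 0 := by
      rintro rfl
      simp [dt] at d12
    have n3 : x₃ ≠ 0 := by
      rintro rfl
      simp [dt] at d13
    obtain ⟨j₁, a₁, e₁⟩ := key x₁ n1 f1
    obtain ⟨j₂, a₂, e₂⟩ := key x₂ n2 f2
    obtain ⟨j₃, a₃, e₃⟩ := key x₃ n3 f3
    refine ⟨j₁, j₂, j₃, ?_, ?_, ?_⟩
    · rintro rfl
      rw [e₁, e₂] at d12
      simp [dt] at d12
      apply d12
      ring
    · rintro rfl
      rw [e₁, e₃] at d13
      simp [dt] at d13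
      apply d13
      ring
    · rintro rfl
      rw [e₂, e₃] at d23
      simp [dt] at d23
      apply d23
      ring
  set x₁ : ℂ → EN 1 := fun τ => E i₁ τ • b + e with hx₁
  set x₂ : ℂ → EN 1 := fun τ => E i₂ τ • b + e with hx₂
  set x₃ : ℂ → EN 1 := fun τ => E i₃ τ • b + e with hx₃
  have hxF : ∀ i, ∀ τ ∈ ball (0 : ℂ) ρ', τ ≠ 0 → Fo (tu d) (B (τ ^ N)) (E i τ • b + e) = 0 := by
    intro i τ hτ hτ0
    rw [hPt _ (hpwR₁ τ hτ)]
    have h1 : Pt c' (τ ^ N) (E i τ) = 0 := by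
      rw [hprod τ hτ]
      exact Finset.prod_eq_zero (Finset.mem_univ i) (sub_self _)
    rw [(hroots _ (hpw τ hτ) (pow_ne_zero _ hτ0) _).1 h1, mul_zero]
  -- the lift
  have hv : ∀ z : ℂ, ∃ v : EN 1, z ∈ ball (0 : ℂ) R → z ≠ 0 → v ≠ 0 ∧ pr v = g z := by
    intro z
    by_cases hz : z ∈ ball (0 : ℂ) R ∧ z ≠ 0
    · obtain ⟨Φ, -, hev⟩ := hl z hz.1 hz.2
      exact ⟨Φ z, fun _ _ => ⟨hev.self_of_nhds.1, hev.self_of_nhds.2.symm⟩⟩
    · exact ⟨0, fun h1 h2 => absurd ⟨h1, h2⟩ hz⟩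
  choose v hv using hv
  have hxne : ∀ i τ, E i τ • b + e ≠ 0 := by
    intro i τ h
    have h1 : dt b (E i τ • b + e) = dt b e := by
      simp [dt]
      ring
    rw [h] at h1
    apply hbe
    rw [← h1]
    simp [dt]
  -- `dt` of a root and a lift is not zero
  have hdt : ∀ i, ∀ τ ∈ ball (0 : ℂ) ρ', τ ≠ 0 → ∀ w : EN 1, w ≠ 0 → pr w = g (τ ^ N) → dt (E i τ • b + e) w ≠ 0 := by
    intro i τ hτ hτ0 w hw hpw' h
    obtain ⟨a, ha⟩ := (dt_eq_zero (hxne i τ)).1 h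
    have h1 := hg _ (hpwR τ hτ) (pow_ne_zero _ hτ0) w hw hpw'
    apply h1
    rw [ha, fo_smul, hxF i τ hτ hτ0, mul_zero]
  set C : ℂ → ℂ := fun τ => dt (x₁ τ) (v (τ ^ N)) * dt (x₂ τ) (x₃ τ) / (dt (x₃ τ) (v (τ ^ N)) * dt (x₂ τ) (x₁ τ)) with hC
  have hdiff12 : ∀ τ ∈ ball (0 : ℂ) ρ', τ ≠ 0 → ∀ i j, i ≠ j → dt (E i τ • b + e) (E j τ • b + e) ≠ 0 := by
    intro τ hτ hτ0 i j hij
    rw [dt_lin]
    exact mul_ne_zero (sub_ne_zero.2 (hdist τ hτ hτ0 i j hij)) hbe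
  have hEd : ∀ i, ∀ τ ∈ ball (0 : ℂ) ρ', DifferentiableAt ℂ (E i) τ := fun i τ hτ => (hE i).differentiableAt (isOpen_ball.mem_nhds hτ)
  have hCd : DifferentiableOn ℂ C (ball 0 ρ' \ {0}) := by
    intro τ hτ
    have hτ0 : τ ≠ 0 := hτ.2
    obtain ⟨Φ, hΦ, hev⟩ := hl (τ ^ N) (hpwR τ hτ.1) (pow_ne_zero _ hτ0)
    have hpc : ContinuousAt (fun w : ℂ => w ^ N) τ := (continuous_pow N).continuousAt
    have hev' : ∀ᶠ w in 𝓝 τ, Φ (w ^ N) ≠ 0 ∧ g (w ^ N) = pr (Φ (w ^ N)) := hpc.eventually hev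
    have hΦd : DifferentiableAt ℂ (fun w : ℂ => Φ (w ^ N)) τ := by
      have h1 : DifferentiableAt ℂ (fun w : ℂ => w ^ N) τ := by fun_prop
      exact DifferentiableAt.comp τ (g := Φ) (f := fun w : ℂ => w ^ N) hΦ.differentiableAt h1
    have hΦa : ∀ a, DifferentiableAt ℂ (fun w : ℂ => Φ (w ^ N) a) τ := fun a => (differentiableAt_euclidean.1 hΦd) a
    have hself := hev'.self_of_nhds
    have hd1 : DifferentiableAt ℂ (fun w => dt (x₁ w) (Φ (w ^ N)) * dt (x₂ w) (x₃ w) / (dt (x₃ w) (Φ (w ^ N)) * dt (x₂ w) (x₁ w))) τ := by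
      have e1 := hEd i₁ τ hτ.1
      have e2 := hEd i₂ τ hτ.1
      have e3 := hEd i₃ τ hτ.1
      have q0 := hΦa 0
      have q1 := hΦa 1
      refine DifferentiableAt.div ?_ ?_ (mul_ne_zero (hdt i₃ τ hτ.1 hτ0 _ hself.1 hself.2.symm) (hdiff12 τ hτ.1 hτ0 i₂ i₁ h12.symm))
      · simp only [dt, hx₁, hx₂, hx₃, PiLp.add_apply, PiLp.smul_apply, smul_eq_mul]
        fun_prop
      · simp only [dt, hx₁, hx₂, hx₃, PiLp.add_apply, PiLp.smul_apply, smul_eq_mul]
        fun_prop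
    refine (hd1.congr_of_eventuallyEq ?_).differentiableWithinAt
    filter_upwards [hev', (isOpen_ball.sdiff isClosed_singleton).mem_nhds hτ] with w hw1 hw2
    have hw0 : w ≠ 0 := hw2.2
    have hvw := hv (w ^ N) (hpwR w hw2.1) (pow_ne_zero _ hw0)
    obtain ⟨a, ha, hae⟩ := (Pool.Agent.H62.EF.pr_eq_iff hvw.1 hw1.1).1 (hvw.2.trans hw1.2)
    have ds : ∀ x : EN 1, dt x (a • Φ (w ^ N)) = a * dt x (Φ (w ^ N)) := by
      intro x
      simp [dt]
      ring
    show dt (x₁ w) (v (w ^ N)) * dt (x₂ w) (x₃ w) / (dt (x₃ w) (v (w ^ N)) * dt (x₂ w) (x₁ w)) = _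
    rw [hae, ds, ds]
    have n1 := hdt i₃ w hw2.1 hw0 _ hw1.1 hw1.2.symm
    have n2 := hdiff12 w hw2.1 hw0 i₂ i₁ h12.symm
    rw [mul_assoc, mul_assoc, mul_div_mul_left _ _ ha]
  have hCO : Pool.Agent.H41.LR.Om C (ball 0 ρ' \ {0}) := by
    intro τ hτ
    have hτ0 : τ ≠ 0 := hτ.2
    have hvw := hv (τ ^ N) (hpwR τ hτ.1) (pow_ne_zero _ hτ0)
    exact cross (hdiff12 τ hτ.1 hτ0 i₁ i₂ h12) (hdiff12 τ hτ.1 hτ0 i₁ i₃ h13) (hdiff12 τ hτ.1 hτ0 i₂ i₃ h23)
      (hdt i₁ τ hτ.1 hτ0 _ hvw.1 hvw.2) (hdt i₂ τ hτ.1 hτ0 _ hvw.1 hvw.2) (hdt i₃ τ hτ.1 hτ0 _ hvw.1 hvw.2)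
  have hCm : MeromorphicAt C 0 := Pool.Agent.H41.LR.picard Pool.Agent.H41.LR.schottky hρ' hCd hCO
  -- the meromorphic lift
  set V : ℂ → EN 1 := fun τ => dt (x₂ τ) (x₃ τ) • x₁ τ - (C τ * dt (x₂ τ) (x₁ τ)) • x₃ τ with hV
  have hVv : ∀ τ ∈ ball (0 : ℂ) ρ', τ ≠ 0 → V τ ≠ 0 ∧ pr (V τ) = g (τ ^ N) := by
    intro τ hτ hτ0
    have hvw := hv (τ ^ N) (hpwR τ hτ) (pow_ne_zero _ hτ0)
    have n3 := hdt i₃ τ hτ hτ0 _ hvw.1 hvw.2
    have n21 := hdiff12 τ hτ hτ0 i₂ i₁ h12.symm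
    have n23 := hdiff12 τ hτ hτ0 i₂ i₃ h23
    have n31 := hdiff12 τ hτ hτ0 i₃ i₁ h13.symm
    have e1 : V τ = (dt (x₂ τ) (x₃ τ) * dt (x₃ τ) (x₁ τ) / dt (x₃ τ) (v (τ ^ N))) • v (τ ^ N) := cross_vec n21 n3
    have e2 : dt (x₂ τ) (x₃ τ) * dt (x₃ τ) (x₁ τ) / dt (x₃ τ) (v (τ ^ N)) ≠ 0 := div_ne_zero (mul_ne_zero n23 n31) n3
    rw [e1]
    exact ⟨smul_ne_zero e2 hvw.1, by rw [Pool.Agent.H62.EF.pr_smul _ e2]; exact hvw.2⟩
  have hxa : ∀ i, AnalyticAt ℂ (fun τ => (E i τ • b + e : EN 1)) 0 := by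
    intro i
    have h1 : AnalyticAt ℂ (E i) 0 := (hE i).analyticAt (ball_mem_nhds 0 hρ')
    exact (h1.smul analyticAt_const).add analyticAt_const
  have hdta : ∀ i j, AnalyticAt ℂ (fun τ => dt (E i τ • b + e) (E j τ • b + e)) 0 := by
    intro i j
    have h1 : AnalyticAt ℂ (E i) 0 := (hE i).analyticAt (ball_mem_nhds 0 hρ')
    have h2 : AnalyticAt ℂ (E j) 0 := (hE j).analyticAt (ball_mem_nhds 0 hρ')
    have h4 : (fun τ => dt (E i τ • b + e) (E j τ • b + e)) = fun τ => (E i τ - E j τ) * dt b e := funext fun τ => dt_lin b e _ _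
    rw [h4]
    exact (h1.sub h2).mul analyticAt_const
  have hVm : MeromorphicAt V 0 :=
    ((hdta i₂ i₃).meromorphicAt.smul (hxa i₁).meromorphicAt).sub ((hCm.mul (hdta i₂ i₁).meromorphicAt).smul (hxa i₃).meromorphicAt)
  have hVt : meromorphicOrderAt V 0 ≠ ⊤ := by
    intro h
    rw [meromorphicOrderAt_eq_top_iff] at h
    have h5 : ∀ᶠ τ in 𝓝[≠] (0 : ℂ), τ ∈ ball (0 : ℂ) ρ' ∧ τ ≠ 0 :=
      (eventually_nhdsWithin_of_eventually_nhds (ball_mem_nhds 0 hρ')).and self_mem_nhdsWithin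
    obtain ⟨τ, h6, h7⟩ := (h.and h5).exists
    exact (hVv τ h7.1 h7.2).1 h6
  obtain ⟨V', hV'a, hV'0, hV'e⟩ := (meromorphicOrderAt_ne_top_iff hVm).1 hVt
  refine ⟨V' 0, hV'0, ?_⟩
  -- the limit along the covering
  have hlim : Tendsto (fun τ : ℂ => g (τ ^ N)) (𝓝[≠] 0) (𝓝 (pr (V' 0))) := by
    have h1 : Tendsto (fun τ => pr (V' τ)) (𝓝[≠] 0) (𝓝 (pr (V' 0))) := by
      have h2 : ContinuousAt (fun τ => pr (V' τ)) 0 := ContinuousAt.comp (g := pr) (f := V') (Pool.Agent.H62.EF.continuousAt_pr hV'0) hV'a.continuousAt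
      exact h2.tendsto.mono_left nhdsWithin_le_nhds
    refine h1.congr' ?_
    have h5 : ∀ᶠ τ in 𝓝[≠] (0 : ℂ), τ ∈ ball (0 : ℂ) ρ' ∧ τ ≠ 0 :=
      (eventually_nhdsWithin_of_eventually_nhds (ball_mem_nhds 0 hρ')).and self_mem_nhdsWithin
    filter_upwards [hV'e, h5] with τ h6 h7
    rw [← (hVv τ h7.1 h7.2).2, h6, Pool.Agent.H62.EF.pr_smul _ (zpow_ne_zero _ (sub_ne_zero.2 h7.2))]
  rw [Metric.tendsto_nhdsWithin_nhds] at hlim ⊢
  intro ε hε
  obtain ⟨δ, hδ, h⟩ := hlim ε hε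
  refine ⟨δ ^ N, by positivity, ?_⟩
  intro z hz hzd
  obtain ⟨τ, hτ⟩ := IsAlgClosed.exists_pow_nat_eq z hN
  rw [← hτ]
  have hz0 : z ≠ 0 := hz
  apply h
  · intro h0
    rw [Set.mem_singleton_iff] at h0
    rw [h0, zero_pow hN.ne'] at hτ
    exact hz0 hτ.symm
  · rw [dist_zero_right] at hzd ⊢
    rw [← hτ, norm_pow] at hzd
    exact lt_of_pow_lt_pow_left₀ N hδ.le hzd

private theorem Fo_tu {θ : Fin (d + 1) → Vd (k + 1) → ℂ} (y : Vd (k + 1)) (x : EN 1) : Fo (tu d) (fun i => θ i y) x = Fo θ y x := rfl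

theorem fib_ext {θ : Fin (d + 1) → Vd (k + 1) → ℂ} (han : ∀ i, Differentiable ℂ (θ i)) {H : ℂ → Vd (k + 1)} {R : ℝ} (hR : 0 < R) (hH : DifferentiableOn ℂ H (ball 0 R)) {g : ℂ → MN 1}
    (hl : ∀ z ∈ ball (0 : ℂ) R, z ≠ 0 → LLift g z) (hg : ∀ z ∈ ball (0 : ℂ) R, z ≠ 0 → ∀ x : EN 1, x ≠ 0 → pr x = g z → Fo θ (H z) x ≠ 0) (h3 : ∀ᶠ z in 𝓝[≠] (0 : ℂ), R3 θ (H z)) :
    ∃ ρ : ℝ, 0 < ρ ∧ ∃ G : ℂ → EN 1, DifferentiableOn ℂ G (ball 0 ρ) ∧ (∀ z ∈ ball (0 : ℂ) ρ, G z ≠ 0) ∧ ∀ z ∈ ball (0 : ℂ) ρ, z ≠ 0 → g z = pr (G z) := by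
  set A : ℂ → Vd (d + 1) := fun z i => θ i (H z) with hA
  have hAa : AnalyticAt ℂ A 0 := by
    have h1 : DifferentiableOn ℂ A (ball 0 R) := differentiableOn_pi.2 fun i => (han i).comp_differentiableOn hH
    exact h1.analyticAt (ball_mem_nhds 0 hR)
  have hne : ∀ z ∈ ball (0 : ℂ) R, z ≠ 0 → A z ≠ 0 := by
    intro z hz hz0 h
    obtain ⟨Φ, -, hev⟩ := hl z hz hz0
    have h1 := hev.self_of_nhds
    apply hg z hz hz0 (Φ z) h1.1 h1.2.symm
    rw [← Fo_tu]
    have h2 : (fun i => θ i (H z)) = (0 : Vd (d + 1)) := h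
    rw [h2]
    simp [Fo, tu]
  have hnz : ¬ ∀ᶠ z in 𝓝 (0 : ℂ), A z = 0 := by
    intro h
    have h5 : ∀ᶠ z in 𝓝[≠] (0 : ℂ), z ∈ ball (0 : ℂ) R ∧ z ≠ 0 :=
      (eventually_nhdsWithin_of_eventually_nhds (ball_mem_nhds 0 hR)).and self_mem_nhdsWithin
    obtain ⟨z, h6, h7⟩ := ((eventually_nhdsWithin_of_eventually_nhds h).and h5).exists
    exact hne z h7.1 h7.2 h6
  obtain ⟨n, B, hBa, hB0, hBe⟩ := (hAa.exists_eventuallyEq_pow_smul_nonzero_iff).2 hnz
  have hall : ∀ᶠ z in 𝓝 (0 : ℂ), AnalyticAt ℂ B z ∧ A z = (z - 0) ^ n • B z ∧ (z ≠ 0 → R3 θ (H z)) := by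
    have h1 := hBa.eventually_analyticAt
    have h2 := eventually_nhdsWithin_iff.1 h3
    filter_upwards [h1, hBe, h2] with z q1 q2 q3
    exact ⟨q1, q2, fun hz => q3 hz⟩
  obtain ⟨ε, hε, hall⟩ := Metric.eventually_nhds_iff_ball.1 hall
  have hFB : ∀ z ∈ ball (0 : ℂ) (min ε R), ∀ x : EN 1, Fo θ (H z) x = z ^ n * Fo (tu d) (B z) x := by
    intro z hz x
    have h1 := (hall z (ball_subset_ball (min_le_left _ _) hz)).2.1
    rw [sub_zero] at h1
    rw [← Fo_tu, ← tu_smul, ← h1]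
  obtain ⟨v, hv, hlim⟩ := core (g := g) (B := B) (R := min ε R) (lt_min hε hR)
    (fun z hz => (hall z (ball_subset_ball (min_le_left _ _) hz)).1.differentiableAt.differentiableWithinAt) hB0
    (fun z hz hz0 => hl z (ball_subset_ball (min_le_right _ _) hz) hz0)
    (fun z hz hz0 x hx hxg h => hg z (ball_subset_ball (min_le_right _ _) hz) hz0 x hx hxg (by rw [hFB z hz, h, mul_zero]))
    (fun z hz hz0 => by
      obtain ⟨x₁, x₂, x₃, f1, f2, f3, d12, d13, d23⟩ := (hall z (ball_subset_ball (min_le_left _ _) hz)).2.2 hz0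
      rw [hFB z hz] at f1 f2 f3
      have hzn : z ^ n ≠ 0 := pow_ne_zero _ hz0
      exact ⟨x₁, x₂, x₃, (mul_eq_zero.1 f1).resolve_left hzn, (mul_eq_zero.1 f2).resolve_left hzn, (mul_eq_zero.1 f3).resolve_left hzn, d12, d13, d23⟩)
  exact fin_ext hR hl hv hlim

end Pool.Agent.PX

end

section

/-!
# PX F Dsc: discs

`torus_disc` (the given `h` differs from the lift near `0` by an element of `Λ`, so the derivatives at `0` agree), `lift_disc` on the disc of radius `1 / 2` (rescaled to the unit disc: `Cp.comp`), `BD.bound`; constant `2 C`.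
-/

set_option autoImplicit false

open Topology Filter Metric MvPolynomial

namespace Pool.Agent.PX

open Pool.Agent.H17 (PN VanishesAt HolomorphicInto puncturedDisc ZariskiClosedIn)
open Pool.Agent.H17LG.Variety (FunField IsLogGeneralType)
open Pool.Agent.H62.SA (locVar OnBd)
open Pool.Agent.H17EF (projVar)
open Pool.Agent.H36.BP (EN fs wd)
open Pool.Agent.H62.EF (MN pr)
open Pool.Agent.AD (Vd IsHolomorphicTorusMap)
open Pool.Agent.TG (Lat)
open Pool.Agent.G3 (wt LLift)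
open Pool.Agent.G4 (Few)
open Pool.Agent.PXF (Cn form IsSimple IsThetaForm IsReduced HasNoLines ThreePoints Avoids HolomorphicIntoTorus IsCurve IsCurveIn IsHyperbolicModulo IsFiniteOver complement fewPoints KobayashiPositive)

variable {N k d r : ℕ} {Λ : AddSubgroup (Vd (k + 1))} {D : Set (Vd (k + 1))} {Bad : Vd (k + 1) → Set (Vd (k + 1))} {θ : Fin (d + 1) → Vd (k + 1) → ℂ}
  {W : Fin r → Vd (k + 1) →L[ℂ] ℂ}

theorem BD.discs (B : BD Λ θ) : ∃ C : ℝ, ∀ (h : ℂ → Cn (k + 1)) (g : ℂ → PN 1), IsCurve Λ θ (fun z => (h z : Cn (k + 1) ⧸ Λ)) g (ball 0 1) → AnalyticAt ℂ h 0 → ‖deriv h 0‖ ≤ C := by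
  obtain ⟨C, hC, hb⟩ := B.bound
  refine ⟨2 * C, fun h g hc han => ?_⟩
  obtain ⟨h1, hd, he⟩ := torus_disc B.lat hc.torus
  have h0 : (0 : ℂ) ∈ ball (0 : ℂ) 1 := mem_ball_self one_pos
  have hmem : ∀ z ∈ ball (0 : ℂ) 1, h z - h1 z ∈ Λ := by
    intro z hz
    have h2 := he z hz
    rw [eq_comm, QuotientAddGroup.eq, neg_add_eq_sub] at h2
    exact h2
  obtain ⟨δ, hδ, hdisc⟩ := B.lat.disc
  have hd1 : DifferentiableAt ℂ h1 0 := (hd 0 h0).differentiableAt (isOpen_ball.mem_nhds h0)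
  have hev : h =ᶠ[𝓝 0] fun z => h1 z + (h 0 - h1 0) := by
    have hcont : ContinuousAt (fun z => h z - h1 z - (h 0 - h1 0)) 0 := (han.continuousAt.sub hd1.continuousAt).sub continuousAt_const
    have h3 : ∀ᶠ z in 𝓝 (0 : ℂ), ‖h z - h1 z - (h 0 - h1 0)‖ < δ := by
      have h4 := hcont.norm.tendsto
      simp only [sub_self, norm_zero] at h4
      exact h4.eventually (gt_mem_nhds hδ)
    filter_upwards [h3, isOpen_ball.mem_nhds h0] with z hz hz1
    have h5 := hdisc _ (Λ.sub_mem (hmem z hz1) (hmem 0 h0)) hz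
    rw [sub_eq_zero] at h5
    rw [← h5]
    abel
  have hder : deriv h 0 = deriv h1 0 := by
    rw [hev.deriv_eq, deriv_add_const]
  obtain ⟨w, hw, -⟩ := lift_disc (Λ := Λ) (θ := θ) hd hc.line (fun z hz => by
    rw [← he z hz]
    exact hc.avoids z hz) (r := 1 / 2) (by norm_num)
  have hφ : Set.MapsTo (fun z : ℂ => z / 2) (ball 0 1) (ball 0 (1 / 2)) := by
    intro z hz
    rw [mem_ball_zero_iff] at hz ⊢
    rw [norm_div]
    have : ‖(2 : ℂ)‖ = 2 := by norm_num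
    rw [this]
    linarith
  have h6 := hb _ _ (hw.comp (φ := fun z : ℂ => z / 2) (differentiable_id.div_const 2).differentiableOn hφ)
  have h7 : deriv (fun z : ℂ => h1 (z / 2)) 0 = (2 : ℂ)⁻¹ • deriv h1 0 := by
    have h8 : HasDerivAt (fun z : ℂ => z / 2) ((1 : ℂ) / 2) 0 := (hasDerivAt_id (0 : ℂ)).div_const 2
    have h9 : HasDerivAt h1 (deriv h1 0) ((0 : ℂ) / 2) := by
      rw [zero_div]
      exact hd1.hasDerivAt
    have h10 := h9.scomp (0 : ℂ) h8
    rw [one_div] at h10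
    exact h10.deriv
  rw [h7, norm_smul, norm_inv] at h6
  have h11 : ‖(2 : ℂ)‖ = 2 := by norm_num
  rw [h11] at h6
  rw [hder]
  linarith

end Pool.Agent.PX

end

section

/-!
# PX F Poly: the theorem for `A × ℙ¹` in terms of polynomials
-/

set_option autoImplicit false

open Topology Filter Metric MvPolynomial

namespace Pool.Agent.PX

open Pool.Agent.H17 (PN VanishesAt HolomorphicInto puncturedDisc)
open Pool.Agent.PXF (Cn IsSimple IsThetaForm IsReduced ThreePoints IsCurveIn IsHyperbolicModulo complement fewPoints)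
open Pool.Agent.HEF (HasThreeZeros fewZeros IsReducedDivisor IsAmple IsSection IsHolomorphicForm outside)

variable {k d : ℕ} {Λ : AddSubgroup (Cn (k + 1))}

/-- the exponent `(i, d - i)` -/
noncomputable def ex (d i : ℕ) : Fin 2 →₀ ℕ := Finsupp.single 0 i + Finsupp.single 1 (d - i)

@[simp] theorem ex_zero (d i : ℕ) : ex d i 0 = i := by simp [ex]

@[simp] theorem ex_one (d i : ℕ) : ex d i 1 = d - i := by simp [ex]

theorem ex_inj (d : ℕ) : Function.Injective fun i : Fin (d + 1) => ex d i := by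
  intro i j h
  have h1 := congrArg (fun m : Fin 2 →₀ ℕ => m 0) h
  simpa [Fin.ext_iff] using h1

/-- the coefficients -/
noncomputable def tht (d : ℕ) (F : Cn (k + 1) → MvPolynomial (Fin 2) ℂ) (i : Fin (d + 1)) (y : Cn (k + 1)) : ℂ := (F y).coeff (ex d i)

theorem mem_ex {f : MvPolynomial (Fin 2) ℂ} (hf : f.IsHomogeneous d) {m : Fin 2 →₀ ℕ} (hm : f.coeff m ≠ 0) : ∃ i : Fin (d + 1), ex d i = m := by
  have h1 : m.degree = d := by
    have h0 := hf hm
    have h2 : Finsupp.degree m = Finsupp.weight (fun _ => 1) m := DFunLike.congr_fun (Finsupp.degree_eq_weight_one (σ := Fin 2) (R := ℕ)) m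
    exact h2.trans h0
  have h2 : m 0 + m 1 = d := by
    rw [← h1, Finsupp.degree_eq_sum, Fin.sum_univ_two]
  refine ⟨⟨m 0, by omega⟩, ?_⟩
  ext i
  fin_cases i
  · simp
  · simp only [Fin.mk_one, ex_one]
    omega

theorem eval_ex {f : MvPolynomial (Fin 2) ℂ} (hf : f.IsHomogeneous d) (x : Cn 2) :
    eval x f = ∑ i : Fin (d + 1), f.coeff (ex d i) * x 0 ^ (i : ℕ) * x 1 ^ (d - (i : ℕ)) := by
  classical
  rw [eval_eq', Finset.sum_subset (s₂ := Finset.univ.image fun i : Fin (d + 1) => ex d i), Finset.sum_image fun i _ j _ h => ex_inj d h]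
  · refine Finset.sum_congr rfl fun i _ => ?_
    rw [Fin.prod_univ_two, ex_zero, ex_one, mul_assoc]
  · intro m hm
    obtain ⟨i, hi⟩ := mem_ex hf (mem_support_iff.1 hm)
    exact Finset.mem_image.2 ⟨i, Finset.mem_univ _, hi⟩
  · intro m _ hm
    rw [notMem_support_iff.1 hm, zero_mul]

theorem eval_form {F : Cn (k + 1) → MvPolynomial (Fin 2) ℂ} {y : Cn (k + 1)} (hF : (F y).IsHomogeneous d) (x : Cn 2) : PXF.form (tht d F) y x = eval x (F y) :=
  (eval_ex hF x).symm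

theorem eq_zero_iff {F : Cn (k + 1) → MvPolynomial (Fin 2) ℂ} {y : Cn (k + 1)} (hF : (F y).IsHomogeneous d) : F y ≠ 0 ↔ ∃ i, tht d F i y ≠ 0 := by
  constructor
  · intro h
    obtain ⟨m, hm⟩ := ne_zero_iff.1 h
    obtain ⟨i, hi⟩ := mem_ex hF hm
    exact ⟨i, by rw [tht, hi]; exact hm⟩
  · rintro ⟨i, hi⟩ h
    exact hi (by rw [tht, h, coeff_zero])

theorem vanishes_iff {f : MvPolynomial (Fin 2) ℂ} (hf : f.IsHomogeneous d) {x : Cn 2} (hx : x ≠ 0) : VanishesAt f (Projectivization.mk ℂ x hx) ↔ eval x f = 0 :=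
  Pool.Agent.H17.vanishesAt_mk_iff hf x hx

theorem mk_ne {x y : Cn 2} (hx : x ≠ 0) (hy : y ≠ 0) : Projectivization.mk ℂ x hx ≠ Projectivization.mk ℂ y hy ↔ x 0 * y 1 ≠ x 1 * y 0 := by
  rw [not_iff_not, Projectivization.mk_eq_mk_iff']
  constructor
  · rintro ⟨a, ha⟩
    rw [← ha]
    simp only [Pi.smul_apply, smul_eq_mul]
    ring
  · intro h
    by_cases h0 : y 0 = 0
    · have h1 : y 1 ≠ 0 := by
        intro h1
        apply hy
        ext i
        fin_cases i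
        · exact h0
        · exact h1
      refine ⟨x 1 / y 1, ?_⟩
      ext i
      fin_cases i
      · simp only [Fin.zero_eta, Pi.smul_apply, smul_eq_mul, h0, mul_zero]
        rw [h0, mul_zero] at h
        exact ((mul_eq_zero.1 h).resolve_right h1).symm
      · simp only [Fin.mk_one, Pi.smul_apply, smul_eq_mul]
        field_simp
    · refine ⟨x 0 / y 0, ?_⟩
      ext i
      fin_cases i
      · simp only [Fin.zero_eta, Pi.smul_apply, smul_eq_mul]
        field_simp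
      · simp only [Fin.mk_one, Pi.smul_apply, smul_eq_mul]
        field_simp
        rw [h, mul_comm]

theorem three_zeros_iff {F : Cn (k + 1) → MvPolynomial (Fin 2) ℂ} {y : Cn (k + 1)} (hF : (F y).IsHomogeneous d) : HasThreeZeros (F y) ↔ ThreePoints (tht d F) y := by
  unfold HasThreeZeros ThreePoints
  constructor
  · rintro ⟨p₁, p₂, p₃, h1, h2, h3, h4, h5, h6⟩
    refine ⟨p₁.rep, p₂.rep, p₃.rep, ?_, ?_, ?_, ?_, ?_, ?_⟩
    · rw [eval_form hF]; exact h1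
    · rw [eval_form hF]; exact h2
    · rw [eval_form hF]; exact h3
    · rw [← mk_ne p₁.rep_nonzero p₂.rep_nonzero, p₁.mk_rep, p₂.mk_rep]; exact h4
    · rw [← mk_ne p₁.rep_nonzero p₃.rep_nonzero, p₁.mk_rep, p₃.mk_rep]; exact h5
    · rw [← mk_ne p₂.rep_nonzero p₃.rep_nonzero, p₂.mk_rep, p₃.mk_rep]; exact h6
  · rintro ⟨x₁, x₂, x₃, h1, h2, h3, h4, h5, h6⟩
    have hx₁ : x₁ ≠ 0 := by
      rintro rfl
      simp at h4
    have hx₂ : x₂ ≠ 0 := by
      rintro rfl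
      simp at h4
    have hx₃ : x₃ ≠ 0 := by
      rintro rfl
      simp at h5
    rw [eval_form hF] at h1 h2 h3
    exact ⟨Projectivization.mk ℂ x₁ hx₁, Projectivization.mk ℂ x₂ hx₂, Projectivization.mk ℂ x₃ hx₃, (vanishes_iff hF hx₁).2 h1, (vanishes_iff hF hx₂).2 h2,
      (vanishes_iff hF hx₃).2 h3, (mk_ne hx₁ hx₂).2 h4, (mk_ne hx₁ hx₃).2 h5, (mk_ne hx₂ hx₃).2 h6⟩

/-- The derivative of the evaluation map of a polynomial. -/
theorem hasFDerivAt_eval {ι : Type} [Fintype ι] (p : MvPolynomial ι ℂ) (w : ι → ℂ) :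
    HasFDerivAt (fun y : ι → ℂ => eval y p) (∑ i, eval w (pderiv i p) • (ContinuousLinearMap.proj i : (ι → ℂ) →L[ℂ] ℂ)) w := by
  classical
  induction p using MvPolynomial.induction_on with
  | C a =>
    have h := hasFDerivAt_const (𝕜 := ℂ) a w
    have h2 : HasFDerivAt (fun y : ι → ℂ => eval y (C a : MvPolynomial ι ℂ)) (0 : (ι → ℂ) →L[ℂ] ℂ) w := by
      simpa using h
    refine h2.congr_fderiv ?_
    ext v
    simp
  | add p q hp hq =>
    have h := hp.add hq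
    have h2 : (fun y : ι → ℂ => eval y (p + q)) = (fun y => eval y p) + fun y => eval y q := by
      funext y
      exact map_add _ _ _
    rw [h2]
    refine h.congr_fderiv ?_
    ext v
    simp [Finset.sum_add_distrib, add_mul]
  | mul_X p n hp =>
    have h1 : HasFDerivAt (fun y : ι → ℂ => y n) (ContinuousLinearMap.proj n : (ι → ℂ) →L[ℂ] ℂ) w := hasFDerivAt_apply n w
    have h := hp.mul h1
    have h2 : (fun y : ι → ℂ => eval y (p * X n)) = (fun y => eval y p) * fun y => y n := by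
      funext y
      simp only [map_mul, eval_X, Pi.mul_apply]
    rw [h2]
    refine h.congr_fderiv ?_
    ext v
    simp only [Derivation.leibniz, pderiv_X, smul_eq_mul, map_add, map_mul, eval_X,
      FunLike.coe_add, FunLike.coe_smul, Pi.add_apply, Pi.smul_apply, ContinuousLinearMap.proj_apply,
      sum_apply, add_mul]
    rw [Finset.sum_add_distrib]
    congr 1
    · rw [Finset.sum_eq_single n]
      · simp
      · intro b _ hb
        simp [hb.symm]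
      · intro h; exact absurd (Finset.mem_univ n) h
    · rw [Finset.mul_sum]
      exact Finset.sum_congr rfl fun i _ => by ring

theorem thetaForm_of {F : Cn (k + 1) → MvPolynomial (Fin 2) ℂ} (hF : IsHolomorphicForm Set.univ F d) (ha : IsAmple Λ F) : IsThetaForm Λ (tht d F) := by
  obtain ⟨r, W, hW, -, hq⟩ := ha
  refine ⟨fun i => differentiableOn_univ.1 (hF.holomorphic _), r, W, hW, fun l hl y => ?_⟩
  obtain ⟨e, he, h1⟩ := hq l hl y
  refine ⟨e, he, fun i => ?_⟩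
  rw [tht, h1, coeff_C_mul, tht]

theorem reduced_of {F : Cn (k + 1) → MvPolynomial (Fin 2) ℂ} (h : IsReducedDivisor Λ F d) : IsReduced (tht d F) := by
  have hh : ∀ y, (F y).IsHomogeneous d := fun y => h.form.homogeneous y (Set.mem_univ y)
  constructor
  · obtain ⟨y, hy⟩ := h.simpleZeros
    refine ⟨y, fun x hx h0 => ?_⟩
    rw [eval_form (hh y)] at h0
    obtain ⟨i, hi⟩ := hy x hx h0
    have h1 : PXF.form (tht d F) y = fun x => eval x (F y) := funext fun x => eval_form (hh y) x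
    rw [h1, (hasFDerivAt_eval (F y) x).fderiv]
    intro h2
    apply hi
    have h3 := congrArg (fun L : (Fin 2 → ℂ) →L[ℂ] ℂ => L (Pi.single i 1)) h2
    fin_cases i
    · simpa [Fin.sum_univ_two] using h3
    · simpa [Fin.sum_univ_two] using h3
  · intro y hy b
    have h1 : F y = 0 := by
      by_contra hne
      obtain ⟨i, hi⟩ := (eq_zero_iff (hh y)).1 hne
      exact hi (hy i)
    refine (h.codimension y h1 b).mono fun z hz => ⟨?_, (eq_zero_iff (hh z)).1 hz.2⟩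
    rw [eval_form (hh z)]
    exact hz.1

theorem outside_eq {F : Cn (k + 1) → MvPolynomial (Fin 2) ℂ} (hF : IsHolomorphicForm Set.univ F d) : outside Λ Set.univ (fun _ : Fin 1 => F) = complement Λ (tht d F) := by
  ext q
  constructor
  · intro h y hy
    rw [eval_form (hF.homogeneous y (Set.mem_univ y))]
    exact h.2 y hy 0
  · intro h
    refine ⟨Set.mem_univ _, fun y hy _ h1 => h y hy ?_⟩
    rw [eval_form (hF.homogeneous y (Set.mem_univ y))]
    exact h1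

theorem few_eq {F : Cn (k + 1) → MvPolynomial (Fin 2) ℂ} (hF : IsHolomorphicForm Set.univ F d) : fewZeros Λ F = fewPoints Λ (tht d F) := by
  ext t
  exact exists_congr fun y => and_congr_right fun _ => not_congr (three_zeros_iff (hF.homogeneous y (Set.mem_univ y)))

end Pool.Agent.PX

end
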