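import Pool.Agent.H94.PX2.M31
import Pool.Agent.H94.PX2.M34
import Pool.Agent.H94.PX2.M37

/-! The parts of this file: PX.F.Comp, PX.F.YBr, PX.Ext, TG.GuL, PX.F.Clu. -/

section

/-!
# PX F Comp: the curves in `T` defined by a curve in a variety over it

`u ∘ f` and `v ∘ f` are holomorphic (`IsFiniteOver.torus`, `regular`: near `z₀` the curve `f` has homogeneous coordinates `φ`, `vals γ (φ z) ≠ 0` and `v (f z) = mk (vals γ (φ z))`).
-/

set_option autoImplicit false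

open Topology Filter Metric MvPolynomial

namespace Pool.Agent.PX

open Pool.Agent.H17 (PN VanishesAt HolomorphicInto puncturedDisc ZariskiClosedIn)
open Pool.Agent.H17LG.Variety (FunField IsLogGeneralType)
open Pool.Agent.H62.SA (locVar OnBd)
open Pool.Agent.H17EF (projVar)
open Pool.Agent.AD (Vd IsHolomorphicTorusMap)
open Pool.Agent.PXF (Cn form IsSimple IsThetaForm IsReduced HasNoLines ThreePoints HolomorphicIntoTorus IsCurveIn IsHyperbolicModulo IsFiniteOver complement fewPoints KobayashiPositive)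

variable {N k d r : ℕ} {Λ : AddSubgroup (Vd (k + 1))} {D : Set (Vd (k + 1))} {Bad : Vd (k + 1) → Set (Vd (k + 1))} {θ : Fin (d + 1) → Vd (k + 1) → ℂ}
  {W : Fin r → Vd (k + 1) →L[ℂ] ℂ}

theorem curve_of {P : Ideal (MvPolynomial (Fin (N + 1)) ℂ)} {s m : ℕ} {G : Fin s → MvPolynomial (Fin (N + 1)) ℂ} {T : Set ((Cn (k + 1) ⧸ Λ) × PN m)} {S : Set (Cn (k + 1) ⧸ Λ)}
    {u : PN N → Cn (k + 1) ⧸ Λ} {v : PN N → PN m} (h : IsFiniteOver P G Λ T S u v)
    {f : ℂ → PN N} {U : Set ℂ} (hf : HolomorphicInto f U) (hU : IsOpen U) (hfU : ∀ z ∈ U, f z ∈ locVar P G) : IsCurveIn Λ T (fun z => u (f z)) (fun z => v (f z)) U := by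
  have hX : ∀ z ∈ U, f z ∈ projVar P := fun z hz => (hfU z hz).1
  refine ⟨?_, ?_, fun z hz => h.maps _ (hfU z hz)⟩
  · intro z₀ hz₀
    obtain ⟨φ, hφ, he⟩ := hf z₀ hz₀
    obtain ⟨h0, h1⟩ := he.self_of_nhds
    obtain ⟨w, hw, hwe⟩ := h.torus (φ z₀) h0 (by rw [← h1]; exact hX z₀ hz₀)
    refine ⟨fun z => w (φ z), hw.comp hφ, ?_⟩
    filter_upwards [he, hφ.continuousAt.eventually hwe, hU.mem_nhds hz₀] with z h2 h3 h4
    obtain ⟨h5, h6⟩ := h2
    have h7 := h3 h5 (by rw [← h6]; exact hX z h4)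
    rw [← h6] at h7
    exact h7
  · intro z₀ hz₀
    obtain ⟨φ, hφ, he⟩ := hf z₀ hz₀
    obtain ⟨D₀, γ, hγ, h0, h1⟩ := h.regular (f z₀) (hX z₀ hz₀)
    have hrep : ∀ z, (∃ h : φ z ≠ 0, f z = Projectivization.mk ℂ (φ z) h) → ∃ c : ℂ, c ≠ 0 ∧ (f z).rep = c • φ z := by
      rintro z ⟨h2, h3⟩
      obtain ⟨a, ha⟩ := Projectivization.exists_smul_eq_mk_rep ℂ (φ z) h2
      exact ⟨a, a.ne_zero, by rw [h3]; exact ha.symm⟩
    have hvals : ∀ z, (∃ h : φ z ≠ 0, f z = Projectivization.mk ℂ (φ z) h) →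
        (Pool.Agent.H7.Bir.vals γ (f z).rep ≠ 0 ↔ Pool.Agent.H7.Bir.vals γ (φ z) ≠ 0) := by
      intro z hz
      obtain ⟨c, hc, h2⟩ := hrep z hz
      rw [h2, Pool.Agent.H7.Bir.vals_smul hγ, smul_ne_zero_iff]
      exact ⟨fun h => h.2, fun h => ⟨pow_ne_zero _ hc, h⟩⟩
    have hΨ : AnalyticAt ℂ (fun z => Pool.Agent.H7.Bir.vals γ (φ z)) z₀ := by
      rw [analyticAt_pi_iff]
      intro i
      have h2 : AnalyticAt ℂ (fun z => MvPolynomial.aeval (φ z) (γ i)) z₀ :=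
        AnalyticAt.aeval_mvPolynomial (fun i => analyticAt_pi_iff.mp hφ i) (γ i)
      exact h2
    refine ⟨fun z => Pool.Agent.H7.Bir.vals γ (φ z), hΨ, ?_⟩
    have h2 : Pool.Agent.H7.Bir.vals γ (φ z₀) ≠ 0 := (hvals z₀ he.self_of_nhds).1 h0
    filter_upwards [he, hΨ.continuousAt.eventually_ne h2, hU.mem_nhds hz₀] with z h3 h4 h5
    refine ⟨h4, ?_⟩
    have h6 := h1 (f z) (hX z h5) ((hvals z h3).2 h4)
    obtain ⟨h7, h8⟩ := h3
    rw [h8, Pool.Agent.H7.Bir.rmap_mk hγ h7 h4, ← h8] at h6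
    exact h6

end Pool.Agent.PX

end

section

/-!
# PX F YBr: entire curves in varieties over `T`

`curve_of`, `IsHyperbolicModulo.entire`: if some `f z₀` is not a zero of `R` then `u (f z₀) ∉ S`, so `u ∘ f` and `v ∘ f` are constant, `f` has values in a finite set (`finite`), and is constant (continuous on a connected set; for example for a form separating the points).
-/

set_option autoImplicit false

open Topology Filter Metric MvPolynomial

namespace Pool.Agent.PX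

open Pool.Agent.H17 (PN VanishesAt HolomorphicInto puncturedDisc ZariskiClosedIn)
open Pool.Agent.H17LG.Variety (FunField IsLogGeneralType)
open Pool.Agent.H62.FC (Homog)
open Pool.Agent.H62.SA (locVar OnBd)
open Pool.Agent.H17EF (projVar)
open Pool.Agent.H36.BP (EN fs wd)
open Pool.Agent.AD (Vd IsHolomorphicTorusMap)
open Pool.Agent.PXF (Cn form IsSimple IsThetaForm IsReduced HasNoLines ThreePoints HolomorphicIntoTorus IsCurveIn IsHyperbolicModulo IsFiniteOver complement fewPoints KobayashiPositive)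

variable {N k d r : ℕ} {Λ : AddSubgroup (Vd (k + 1))} {D : Set (Vd (k + 1))} {Bad : Vd (k + 1) → Set (Vd (k + 1))} {θ : Fin (d + 1) → Vd (k + 1) → ℂ}
  {W : Fin r → Vd (k + 1) →L[ℂ] ℂ}

/-- A holomorphic curve which is in a finite set near `z₀` is constant near `z₀`. -/
private theorem locally_const_aux {f : ℂ → PN N} {z₀ : ℂ} (hf : HolomorphicInto f {z₀}) {S : Set (PN N)} (hS : S.Finite) (h : ∀ᶠ z in 𝓝 z₀, f z ∈ S) :
    ∀ᶠ z in 𝓝 z₀, f z = f z₀ := by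
  obtain ⟨φ, hφ, he⟩ := hf z₀ rfl
  obtain ⟨h0, hf0⟩ := he.self_of_nhds
  obtain ⟨j, hj⟩ : ∃ j, φ z₀ j ≠ 0 := by
    by_contra hcon
    push Not at hcon
    exact h0 (funext hcon)
  have hφi : ∀ i, AnalyticAt ℂ (fun z => φ z i) z₀ := fun i => analyticAt_pi_iff.1 hφ i
  have hH : AnalyticAt ℂ (fun z => fun i => φ z i / φ z j) z₀ := analyticAt_pi_iff.2 fun i => (hφi i).div (hφi j) hj
  obtain ⟨r, hr, hb⟩ := Metric.eventually_nhds_iff_ball.1 (((hH.eventually_analyticAt.and he).and h).and ((hφi j).continuousAt.eventually_ne hj))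
  let T : Set (Fin (N + 1) → ℂ) := (fun (x : PN N) i => x.rep i / x.rep j) '' S
  have hT : T.Finite := hS.image _
  have hmaps : ∀ z ∈ ball z₀ r, (fun i => φ z i / φ z j) ∈ T := by
    intro z hz
    obtain ⟨⟨⟨h1, h2⟩, h3⟩, h4⟩ := hb z hz
    obtain ⟨h5, h6⟩ := h2
    have hmk : Projectivization.mk ℂ (Projectivization.mk ℂ (φ z) h5).rep (Projectivization.rep_nonzero _) = Projectivization.mk ℂ (φ z) h5 := Projectivization.mk_rep _
    obtain ⟨κ, hκr⟩ := (Projectivization.mk_eq_mk_iff' ℂ _ _ _ _).1 hmk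
    have hκ : κ ≠ 0 := by
      rintro rfl
      apply Projectivization.rep_nonzero (Projectivization.mk ℂ (φ z) h5)
      rw [← hκr, zero_smul]
    refine ⟨f z, h3, ?_⟩
    funext i
    simp only
    rw [h6, ← hκr, Pi.smul_apply, Pi.smul_apply, smul_eq_mul, smul_eq_mul, mul_div_mul_left _ _ hκ]
  have hcont : ContinuousOn (fun z => fun i => φ z i / φ z j) (ball z₀ r) := fun z hz => (hb z hz).1.1.1.continuousAt.continuousWithinAt
  obtain ⟨y, -, hy⟩ := (convex_ball z₀ r).isPreconnected.eqOn_const_of_mapsTo hT.isDiscrete hcont (fun z hz => hmaps z hz)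
    ⟨_, hmaps z₀ (mem_ball_self hr)⟩
  filter_upwards [ball_mem_nhds z₀ hr] with z hz
  obtain ⟨⟨⟨-, h2⟩, -⟩, h4⟩ := hb z hz
  obtain ⟨h5, h6⟩ := h2
  rw [h6, hf0, Projectivization.mk_eq_mk_iff']
  refine ⟨φ z j / φ z₀ j, ?_⟩
  have h7 := (hy hz).trans (hy (mem_ball_self hr)).symm
  funext i
  have h8 := congrFun h7 i
  simp only at h8
  rw [div_eq_div_iff h4 hj] at h8
  rw [Pi.smul_apply, smul_eq_mul]
  field_simp
  linear_combination -h8

theorem y_brody {P : Ideal (MvPolynomial (Fin (N + 1)) ℂ)} (hP : Homog P) {s m : ℕ} {G : Fin s → MvPolynomial (Fin (N + 1)) ℂ} {T : Set ((Cn (k + 1) ⧸ Λ) × PN m)} {S : Set (Cn (k + 1) ⧸ Λ)}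
    (H : IsHyperbolicModulo Λ T S) {u : PN N → Cn (k + 1) ⧸ Λ} {v : PN N → PN m} (h : IsFiniteOver P G Λ T S u v)
    {R : MvPolynomial (Fin (N + 1)) ℂ} (hR : ∀ x ∈ projVar P, u x ∈ S → VanishesAt R x)
    {f : ℂ → PN N} (hf : HolomorphicInto f Set.univ) (hfU : ∀ z, f z ∈ locVar P G) (hne : ∃ z w, f z ≠ f w) (z : ℂ) : VanishesAt R (f z) := by
  by_contra hz
  have hproj : ∀ w, f w ∈ projVar P := fun w => (hfU w).1
  have hc : IsCurveIn Λ T (fun z => u (f z)) (fun z => v (f z)) Set.univ := curve_of h hf isOpen_univ fun w _ => hfU w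
  have hent := H.entire _ _ hc
  have hS : u (f z) ∉ S := fun hS => hz (hR (f z) (hproj z) hS)
  have hfin := h.finite (f z) (hproj z)
  have hmem : ∀ w, f w ∈ {x' | x' ∈ projVar P ∧ u x' = u (f z) ∧ v x' = v (f z)} :=
    fun w => ⟨hproj w, (hent z w).1.symm, ((hent z w).2 hS).symm⟩
  have hloc : ∀ᶠ w in 𝓝 (0 : ℂ), f w = f 0 :=
    locally_const_aux (fun w _ => hf w (Set.mem_univ w)) hfin (Filter.Eventually.of_forall hmem)
  have hall := Pool.Agent.H36.BP.const_identity isPreconnected_univ hf (Set.mem_univ (0 : ℂ)) hloc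
  obtain ⟨a, b, hab⟩ := hne
  exact hab ((hall a (Set.mem_univ a)).trans (hall b (Set.mem_univ b)).symm)

end Pool.Agent.PX

end

section

/-!
# PX Ext: maps of the punctured disc, the component in the torus

`v` is holomorphic modulo `Λ` on the punctured disc, given by `h` on the half plane `Re ζ < 0` (`v (exp ζ) = h ζ` mod `Λ`); `bound` on discs of radius `- Re ζ / 2` gives `‖h' ζ‖ ≤ C / |Re ζ|`, so `h (ζ + 2 π I) - h ζ ∈ Λ` is `0` for `Re ζ` very negative, so for all `ζ` (identity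
theorem).  `h ζ = H (exp ζ)`, `‖H z‖ ≤ C (1 + |log z|)` near `0`: `H` extends.
-/

set_option autoImplicit false

open Topology Filter Metric

namespace Pool.Agent.PX

open Pool.Agent.H36.BP (EN fs wd)
open Pool.Agent.H62.EF (MN pr)
open Pool.Agent.AD (Vd)
open Pool.Agent.TG (Lat)
open Pool.Agent.G3 (wt LLift)
open Pool.Agent.G4 (Few)

variable {k d : ℕ} {Λ : AddSubgroup (Vd (k + 1))} {θ : Fin (d + 1) → Vd (k + 1) → ℂ}

/-- the bound of the derivative on the half plane -/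
theorem BD.ext_deriv (B : BD Λ θ) {h : ℂ → Vd (k + 1)}
    (hc : ∀ ζ : ℂ, ζ.re < 0 → ∃ w : ℂ → EN 1, Cp θ (ball ζ (-ζ.re / 2)) w h) :
    ∃ C : ℝ, 0 < C ∧ ∀ ζ : ℂ, ζ.re < 0 → ‖deriv h ζ‖ ≤ C / (-ζ.re) := by
  obtain ⟨C, hC, hb⟩ := B.bound
  refine ⟨2 * C, by positivity, fun ζ hζ => ?_⟩
  obtain ⟨w, hw⟩ := hc ζ hζ
  obtain ⟨r, hr⟩ : ∃ r : ℝ, r = -ζ.re / 2 := ⟨_, rfl⟩
  have hr0 : 0 < r := by rw [hr]; linarith
  rw [← hr] at hw
  have hmaps : Set.MapsTo (fun z : ℂ => ζ + (r : ℂ) * z) (ball (0 : ℂ) 1) (ball ζ r) := by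
    intro z hz
    rw [mem_ball_zero_iff] at hz
    rw [mem_ball, dist_eq_norm, add_sub_cancel_left, norm_mul, Complex.norm_real,
      Real.norm_of_nonneg hr0.le]
    nlinarith
  have hda : Differentiable ℂ (fun z : ℂ => ζ + (r : ℂ) * z) := by fun_prop
  have hCp : Cp θ (ball 0 1) (fun z => w (ζ + (r : ℂ) * z)) (fun z => h (ζ + (r : ℂ) * z)) :=
    ⟨hw.w_diff.comp hda.differentiableOn hmaps, hw.h_diff.comp hda.differentiableOn hmaps,
      fun z hz => hw.ne _ (hmaps hz)⟩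
  have h1 := hb _ _ hCp
  have h2 : deriv (fun z : ℂ => h (ζ + (r : ℂ) * z)) 0 = (r : ℂ) • deriv h ζ := by
    have hd : HasDerivAt h (deriv h ζ) ζ :=
      (hw.h_diff.differentiableAt (isOpen_ball.mem_nhds (mem_ball_self hr0))).hasDerivAt
    have ha : HasDerivAt (fun z : ℂ => ζ + (r : ℂ) * z) (r : ℂ) 0 := by
      simpa using ((hasDerivAt_id (0 : ℂ)).const_mul (r : ℂ)).const_add ζ
    have hd' : HasDerivAt h (deriv h ζ) (ζ + (r : ℂ) * 0) := by simpa using hd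
    exact (HasDerivAt.scomp (0 : ℂ) hd' ha).deriv
  rw [h2, norm_smul, Complex.norm_real, Real.norm_of_nonneg hr0.le] at h1
  rw [le_div_iff₀ (by linarith)]
  have h3 : -ζ.re = 2 * r := by rw [hr]; ring
  rw [h3]
  nlinarith [norm_nonneg (deriv h ζ)]

theorem BD.base_ext (B : BD Λ θ) {h : ℂ → Vd (k + 1)} (hc : ∀ ζ : ℂ, ζ.re < 0 → ∃ w : ℂ → EN 1, Cp θ (ball ζ (-ζ.re / 2)) w h) (hp : ∀ ζ : ℂ, ζ.re < 0 → h (ζ + 2 * Real.pi * Complex.I) - h ζ ∈ Λ) :
    ∃ H : ℂ → Vd (k + 1), DifferentiableOn ℂ H (ball 0 1) ∧ ∀ ζ : ℂ, ζ.re < 0 → h ζ = H (Complex.exp ζ) := by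
  obtain ⟨C, hC, hb⟩ := B.ext_deriv hc
  obtain ⟨δ, hδ, hdisc⟩ := B.lat.disc
  have hre : ∀ ζ : ℂ, (ζ + 2 * Real.pi * Complex.I).re = ζ.re := by
    intro ζ
    simp
  have hdiff : ∀ ζ : ℂ, ζ.re < 0 → DifferentiableAt ℂ h ζ := by
    intro ζ hζ
    obtain ⟨w, hw⟩ := hc ζ hζ
    exact hw.h_diff.differentiableAt (isOpen_ball.mem_nhds (mem_ball_self (by linarith)))
  have hlip : ∀ ρ : ℝ, 0 < ρ → ∀ x y : ℂ, x.re ≤ -ρ → y.re ≤ -ρ → ‖h y - h x‖ ≤ C / ρ * ‖y - x‖ := by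
    intro ρ hρ x y hx hy
    refine Convex.norm_image_sub_le_of_norm_deriv_le (s := {c : ℂ | c.re ≤ -ρ}) (𝕜 := ℂ)
      (fun z hz => hdiff z (lt_of_le_of_lt hz (by linarith))) ?_ (convex_halfSpace_re_le _) hx hy
    intro z hz
    have hz' : z.re ≤ -ρ := hz
    refine (hb z (by linarith)).trans ?_
    exact div_le_div_of_nonneg_left hC.le hρ (by linarith)
  -- the periods
  have hopen : IsOpen {c : ℂ | c.re < 0} := isOpen_lt Complex.continuous_re continuous_const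
  have hper : ∀ ζ : ℂ, ζ.re < 0 → h (ζ + 2 * Real.pi * Complex.I) = h ζ := by
    obtain ⟨ρ, hρ⟩ : ∃ ρ : ℝ, ρ = 2 * Real.pi * C / δ + 1 := ⟨_, rfl⟩
    have hπ := Real.pi_pos
    have hρ0 : 0 < ρ := by rw [hρ]; positivity
    have hnear : ∀ ζ : ℂ, ζ.re ≤ -ρ → h (ζ + 2 * Real.pi * Complex.I) - h ζ = 0 := by
      intro ζ hζ
      refine hdisc _ (hp ζ (by linarith)) ?_
      refine (hlip ρ hρ0 ζ (ζ + 2 * Real.pi * Complex.I) hζ (by rw [hre]; exact hζ)).trans_lt ?_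
      have e : ‖ζ + 2 * Real.pi * Complex.I - ζ‖ = 2 * Real.pi := by
        rw [add_sub_cancel_left, norm_mul, norm_mul, Complex.norm_I, Complex.norm_real,
          Real.norm_of_nonneg hπ.le]
        simp
      rw [e, div_mul_eq_mul_div, div_lt_iff₀ hρ0, hρ]
      have : δ * (2 * Real.pi * C / δ) = 2 * Real.pi * C := by field_simp
      nlinarith
    have hg : DifferentiableOn ℂ (fun ζ => h (ζ + 2 * Real.pi * Complex.I) - h ζ)
        {c : ℂ | c.re < 0} := by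
      intro ζ hζ
      have hζ' : ζ.re < 0 := hζ
      have hd1 : DifferentiableAt ℂ (fun ζ : ℂ => h (ζ + 2 * Real.pi * Complex.I)) ζ :=
        DifferentiableAt.comp ζ (hdiff (ζ + 2 * Real.pi * Complex.I) (by rw [hre]; exact hζ'))
          (by fun_prop)
      exact (hd1.sub (hdiff ζ hζ')).differentiableWithinAt
    have hz0 : ((-(ρ + 1) : ℝ) : ℂ) ∈ {c : ℂ | c.re < 0} := by
      show ((-(ρ + 1) : ℝ) : ℂ).re < 0
      rw [Complex.ofReal_re]
      linarith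
    have hev : (fun ζ => h (ζ + 2 * Real.pi * Complex.I) - h ζ) =ᶠ[𝓝 ((-(ρ + 1) : ℝ) : ℂ)] 0 := by
      have ho : IsOpen {c : ℂ | c.re < -ρ} := isOpen_lt Complex.continuous_re continuous_const
      have hm : ((-(ρ + 1) : ℝ) : ℂ) ∈ {c : ℂ | c.re < -ρ} := by
        show ((-(ρ + 1) : ℝ) : ℂ).re < -ρ
        rw [Complex.ofReal_re]
        linarith
      filter_upwards [ho.mem_nhds hm] with ζ hζ
      exact hnear ζ (le_of_lt hζ)
    have hpc : IsPreconnected {c : ℂ | c.re < 0} := (convex_halfSpace_re_lt 0).isPreconnected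
    have := (hg.analyticOnNhd hopen).eqOn_zero_of_preconnected_of_eventuallyEq_zero hpc hz0 hev
    intro ζ hζ
    exact sub_eq_zero.1 (this hζ)
  have hperZ : ∀ (n : ℤ) (ζ : ℂ), ζ.re < 0 → h (ζ + n * (2 * Real.pi * Complex.I)) = h ζ := by
    have hreN : ∀ (n : ℤ) (ζ : ℂ), (ζ + n * (2 * Real.pi * Complex.I)).re = ζ.re := by
      intro n ζ
      simp
    intro n
    induction n using Int.induction_on with
    | zero => intro ζ _; simp
    | succ n ih =>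
      intro ζ hζ
      have e : ζ + ((n : ℤ) + 1 : ℤ) * (2 * Real.pi * Complex.I) =
          (ζ + (n : ℤ) * (2 * Real.pi * Complex.I)) + 2 * Real.pi * Complex.I := by
        push_cast
        ring
      rw [e, hper _ (by rw [hreN]; exact hζ), ih ζ hζ]
    | pred n ih =>
      intro ζ hζ
      have e : ζ + (-(n : ℤ)) * (2 * Real.pi * Complex.I) =
          (ζ + (-(n : ℤ) - 1 : ℤ) * (2 * Real.pi * Complex.I)) + 2 * Real.pi * Complex.I := by
        push_cast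
        ring
      have h1 := ih ζ hζ
      have e' : ζ + ((-(n : ℤ) : ℤ) : ℂ) * (2 * Real.pi * Complex.I) =
          (ζ + (-(n : ℤ) - 1 : ℤ) * (2 * Real.pi * Complex.I)) + 2 * Real.pi * Complex.I := by
        rw [← e]
        push_cast
        ring
      rw [e', hper _ (by rw [hreN]; exact hζ)] at h1
      exact h1
  -- the function on the punctured disc
  obtain ⟨H₀, hH₀⟩ : ∃ H₀ : ℂ → Vd (k + 1), H₀ = fun z => h (Complex.log z) := ⟨_, rfl⟩
  have hexp : ∀ ζ : ℂ, ζ.re < 0 → H₀ (Complex.exp ζ) = h ζ := by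
    intro ζ hζ
    obtain ⟨n, hn⟩ := Complex.exp_eq_exp_iff_exists_int.1
      (Complex.exp_log (Complex.exp_ne_zero ζ))
    rw [hH₀]
    show h (Complex.log (Complex.exp ζ)) = h ζ
    rw [hn]
    exact hperZ n ζ hζ
  have hd0 : DifferentiableOn ℂ H₀ (ball 0 1 \ {0}) := by
    rintro z₀ ⟨hz1, hz2⟩
    have hz0 : z₀ ≠ 0 := hz2
    have hzn : ‖z₀‖ < 1 := mem_ball_zero_iff.1 hz1
    have hlog : (Complex.log z₀).re < 0 := by
      rw [Complex.log_re]
      exact Real.log_neg (norm_pos_iff.2 hz0) hzn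
    have hev : H₀ =ᶠ[𝓝 z₀] fun z => h (Complex.log z₀ + Complex.log (z / z₀)) := by
      have h1 : ∀ᶠ z in 𝓝 z₀, z ≠ 0 := isOpen_ne.mem_nhds hz0
      have h2 : ∀ᶠ z in 𝓝 z₀, z ∈ ball (0 : ℂ) 1 := isOpen_ball.mem_nhds hz1
      filter_upwards [h1, h2] with z h1 h2
      have e1 : Complex.exp (Complex.log z₀ + Complex.log (z / z₀)) = z := by
        rw [Complex.exp_add, Complex.exp_log hz0, Complex.exp_log (div_ne_zero h1 hz0),
          mul_div_cancel₀ z hz0]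
      have e2 : (Complex.log z₀ + Complex.log (z / z₀)).re < 0 := by
        rw [Complex.add_re, Complex.log_re, Complex.log_re, norm_div,
          Real.log_div (norm_ne_zero_iff.2 h1) (norm_ne_zero_iff.2 hz0)]
        have := Real.log_neg (norm_pos_iff.2 h1) (mem_ball_zero_iff.1 h2)
        linarith
      rw [← hexp _ e2, e1]
    refine (DifferentiableAt.congr_of_eventuallyEq ?_ hev).differentiableWithinAt
    have hin : DifferentiableAt ℂ (fun z : ℂ => Complex.log z₀ + Complex.log (z / z₀)) z₀ := by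
      refine (differentiableAt_const _).add (DifferentiableAt.clog (by fun_prop) ?_)
      rw [div_self hz0]
      exact Complex.one_mem_slitPlane
    refine DifferentiableAt.comp z₀ (g := h) (hdiff _ ?_) hin
    rw [div_self hz0, Complex.log_one, add_zero]
    exact hlog
  -- growth at `0`
  have hgr : (fun z => H₀ z - H₀ 0) =o[𝓝[≠] (0 : ℂ)] fun z => (z - 0)⁻¹ := by
    have hbig : (fun z => H₀ z - H₀ 0) =O[𝓝[≠] (0 : ℂ)] fun z : ℂ =>
        C * (|Real.log ‖z‖| + Real.pi + 1) + ‖h (-1)‖ + ‖H₀ 0‖ := by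
      refine Asymptotics.IsBigO.of_bound 1 ?_
      have h1 : ∀ᶠ z in 𝓝[≠] (0 : ℂ), z ≠ 0 := self_mem_nhdsWithin
      have h2 : ∀ᶠ z in 𝓝[≠] (0 : ℂ), z ∈ ball (0 : ℂ) (Real.exp (-1)) :=
        nhdsWithin_le_nhds (isOpen_ball.mem_nhds (mem_ball_self (Real.exp_pos _)))
      filter_upwards [h1, h2] with z h1 h2
      have hn : ‖z‖ < Real.exp (-1) := mem_ball_zero_iff.1 h2
      have hl : (Complex.log z).re ≤ -1 := by
        rw [Complex.log_re, Real.log_le_iff_le_exp (norm_pos_iff.2 h1)]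
        exact hn.le
      have h3 := hlip 1 one_pos (-1) (Complex.log z) (by simp) hl
      have h4 : ‖Complex.log z‖ ≤ |Real.log ‖z‖| + Real.pi := by
        refine (Complex.norm_le_abs_re_add_abs_im _).trans ?_
        rw [Complex.log_re, Complex.log_im]
        exact add_le_add le_rfl (Complex.abs_arg_le_pi z)
      have h5 : ‖Complex.log z - -1‖ ≤ |Real.log ‖z‖| + Real.pi + 1 := by
        rw [sub_neg_eq_add]
        refine (norm_add_le _ _).trans ?_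
        rw [norm_one]
        linarith
      have h6 : ‖H₀ z‖ ≤ C * (|Real.log ‖z‖| + Real.pi + 1) + ‖h (-1)‖ := by
        have e : H₀ z = (h (Complex.log z) - h (-1)) + h (-1) := by
          rw [hH₀, sub_add_cancel]
        rw [e]
        refine (norm_add_le _ _).trans (add_le_add (h3.trans ?_) le_rfl)
        rw [div_one]
        exact mul_le_mul_of_nonneg_left h5 hC.le
      have h7 : 0 ≤ C * (|Real.log ‖z‖| + Real.pi + 1) + ‖h (-1)‖ + ‖H₀ 0‖ := by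
        have := Real.pi_pos
        positivity
      rw [one_mul, Real.norm_of_nonneg h7]
      refine (norm_sub_le _ _).trans ?_
      linarith
    refine hbig.trans_isLittleO ?_
    rw [← Asymptotics.isLittleO_norm_right]
    refine Asymptotics.isLittleO_of_tendsto' ?_ ?_
    · filter_upwards [self_mem_nhdsWithin] with z hz h0
      have hz0 : z ≠ 0 := hz
      rw [sub_zero, norm_inv, inv_eq_zero, norm_eq_zero] at h0
      exact absurd h0 hz0
    · have ht : Tendsto (fun x : ℝ => C * |x * Real.log x| +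
          (C * (Real.pi + 1) + ‖h (-1)‖ + ‖H₀ 0‖) * x) (𝓝 0) (𝓝 0) := by
        have hcont : Continuous (fun x : ℝ => C * |x * Real.log x| +
          (C * (Real.pi + 1) + ‖h (-1)‖ + ‖H₀ 0‖) * x) := by
          have := Real.continuous_mul_log
          fun_prop
        have := hcont.tendsto 0
        simpa using this
      have hn : Tendsto (fun z : ℂ => ‖z‖) (𝓝[≠] 0) (𝓝 0) := by
        have : Tendsto (fun z : ℂ => ‖z‖) (𝓝 0) (𝓝 ‖(0 : ℂ)‖) := continuous_norm.tendsto 0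
        rw [norm_zero] at this
        exact this.mono_left nhdsWithin_le_nhds
      refine (ht.comp hn).congr fun z => ?_
      show C * |‖z‖ * Real.log ‖z‖| + (C * (Real.pi + 1) + ‖h (-1)‖ + ‖H₀ 0‖) * ‖z‖ = _
      rw [sub_zero, norm_inv, div_inv_eq_mul, abs_mul, abs_norm]
      ring
  refine ⟨Function.update H₀ 0 (limUnder (𝓝[≠] 0) H₀),
    Complex.differentiableOn_update_limUnder_of_isLittleO (isOpen_ball.mem_nhds
      (mem_ball_self one_pos)) hd0 hgr, fun ζ hζ => ?_⟩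
  rw [Function.update_of_ne (Complex.exp_ne_zero ζ), hexp ζ hζ]

end Pool.Agent.PX

end

section

/-!
# TG GuL: glue: charts, the torus map, lattices, the entire curves in the fibres
-/

set_option autoImplicit false

open Topology Filter MvPolynomial
open Pool.Agent.H17 (PN VanishesAt)
open Pool.Agent.H62.FC (Homog)
open Pool.Agent.H17LG.Variety (FunField)
open Pool.Agent.H17EF (projVar)
open Pool.Agent.H36.BP (EN fs)
open Pool.Agent.AD (Vd discreteSub_of)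
open Pool.Agent.TG (Lat)

noncomputable section

namespace Pool.Agent.TGF

variable {N k : ℕ} {P : Ideal (MvPolynomial (Fin (N + 1)) ℂ)} {Λ Γ : AddSubgroup (Cn (k + 1))} {u : PN N → Cn (k + 1) ⧸ Λ} {D B : Set (Cn (k + 1))}

/-- a spanning subgroup is cocompact -/
theorem gu_cocompact {n : ℕ} {Λ : AddSubgroup (Fin n → ℂ)} (h : Submodule.span ℝ (Λ : Set (Fin n → ℂ)) = ⊤) :
    ∃ C : ℝ, 0 < C ∧ ∀ b : Fin n → ℂ, ∃ l ∈ Λ, ‖b - l‖ ≤ C := by
  classical
  obtain ⟨T, hTs, hT⟩ : ∃ T : Finset (Fin n → ℂ), (T : Set (Fin n → ℂ)) ⊆ (Λ : Set (Fin n → ℂ)) ∧ Submodule.span ℝ (T : Set (Fin n → ℂ)) = ⊤ := by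
    have h1 : (Submodule.span ℝ (Λ : Set (Fin n → ℂ))).FG := by
      rw [h]
      exact Module.Finite.fg_top
    obtain ⟨T, hTs, hT⟩ := (Submodule.fg_span_iff_fg_span_finset_subset _).1 h1
    exact ⟨T, hTs, by rw [← hT, h]⟩
  refine ⟨(∑ t ∈ T, ‖t‖) + 1, by positivity, fun b => ?_⟩
  have hb : b ∈ Submodule.span ℝ (T : Set (Fin n → ℂ)) := by rw [hT]; trivial
  obtain ⟨c, -, hc⟩ := Submodule.mem_span_finset.1 hb
  refine ⟨∑ t ∈ T, ⌊c t⌋ • t, Λ.sum_mem fun t ht => Λ.zsmul_mem (hTs ht) _, ?_⟩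
  refine le_trans ?_ (le_add_of_nonneg_right zero_le_one)
  rw [← hc, ← Finset.sum_sub_distrib]
  refine (norm_sum_le _ _).trans (Finset.sum_le_sum fun t _ => ?_)
  have h2 : c t • t - ⌊c t⌋ • t = (Int.fract (c t)) • t := by
    rw [Int.fract, sub_smul]
    congr 1
    exact (Int.cast_smul_eq_zsmul ℝ _ _).symm
  rw [h2, norm_smul, Real.norm_of_nonneg (Int.fract_nonneg _)]
  exact mul_le_of_le_one_left (norm_nonneg _) (Int.fract_lt_one _).le

theorem gu_lat (Λ : AddSubgroup (Cn (k + 1))) [DiscreteTopology Λ] (hspan : Submodule.span ℝ (Λ : Set (Cn (k + 1))) = ⊤) : Lat Λ :=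
  ⟨discreteSub_of Λ, gu_cocompact hspan⟩

end Pool.Agent.TGF

end
end

section

/-!
# PX F Clu: a curve on the punctured disc with finitely many limit points extends

`u ∘ f` and `v ∘ f` have the limits `t' 0`, `g' 0`; by compactness of `projVar P` all limit points of `f` at `0` (of unit vectors of homogeneous coordinates) are points `x` of `projVar P` with `u x = t' 0`, `v x = g' 0` (continuity of `u`, `v`: local formulas), finitely many; the punctured discs are connected, so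
there is only one limit point; in an affine chart around it the coordinates of `f` are bounded and holomorphic, so they extend.
-/

set_option autoImplicit false

open Topology Filter Metric MvPolynomial

namespace Pool.Agent.PX

open Pool.Agent.H17 (PN VanishesAt HolomorphicInto puncturedDisc ZariskiClosedIn)
open Pool.Agent.H17LG.Variety (FunField IsLogGeneralType)
open Pool.Agent.H62.FC (Homog)
open Pool.Agent.H62.SA (locVar OnBd)
open Pool.Agent.H17EF (projVar)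
open Pool.Agent.H36.BP (EN fs wd)
open Pool.Agent.H62.EF (MN)
open Pool.Agent.AD (Vd IsHolomorphicTorusMap)
open Pool.Agent.TG (Lat)
open Pool.Agent.PXF (Cn form IsSimple IsThetaForm IsReduced HasNoLines ThreePoints HolomorphicIntoTorus IsCurveIn IsHyperbolicModulo IsFiniteOver complement fewPoints KobayashiPositive)
open Pool.Agent.H7.Bir (vals rmap)

variable {N k d r : ℕ} {Λ : AddSubgroup (Vd (k + 1))} {D : Set (Vd (k + 1))} {Bad : Vd (k + 1) → Set (Vd (k + 1))} {θ : Fin (d + 1) → Vd (k + 1) → ℂ}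
  {W : Fin r → Vd (k + 1) →L[ℂ] ℂ}

/-- the cross product norm -/
private noncomputable def Clu_cr (a w : Fin (N + 1) → ℂ) : ℝ := ∑ i, ∑ j, ‖w i * a j - w j * a i‖

private theorem Clu_cr_smul (a w : Fin (N + 1) → ℂ) (c : ℂ) : Clu_cr a (c • w) = ‖c‖ * Clu_cr a w := by
  unfold Clu_cr
  rw [Finset.mul_sum]
  refine Finset.sum_congr rfl fun i _ => ?_
  rw [Finset.mul_sum]
  refine Finset.sum_congr rfl fun j _ => ?_
  rw [← norm_mul]
  congr 1
  simp only [Pi.smul_apply, smul_eq_mul]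
  ring

private theorem Clu_cr_cont (a : Fin (N + 1) → ℂ) : Continuous (Clu_cr a) := by
  unfold Clu_cr
  fun_prop

private theorem Clu_prop {M : ℕ} {a w : Fin (M + 1) → ℂ} {j : Fin (M + 1)} (ha : a j ≠ 0) (h : ∀ i j, w i * a j = w j * a i) : w = (w j / a j) • a := by
  funext i
  rw [Pi.smul_apply, smul_eq_mul, div_mul_eq_mul_div, eq_div_iff ha]
  exact h i j

private theorem Clu_cr_zero {a w : Fin (N + 1) → ℂ} {j : Fin (N + 1)} (ha : a j ≠ 0) (h : Clu_cr a w = 0) : w = (w j / a j) • a := by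
  refine Clu_prop ha fun i j => ?_
  unfold Clu_cr at h
  rw [Finset.sum_eq_zero_iff_of_nonneg (fun i _ => Finset.sum_nonneg fun j _ => norm_nonneg _)] at h
  have h1 := h i (Finset.mem_univ _)
  rw [Finset.sum_eq_zero_iff_of_nonneg (fun j _ => norm_nonneg _)] at h1
  exact sub_eq_zero.1 (norm_eq_zero.1 (h1 j (Finset.mem_univ _)))

private theorem Clu_cr_self (a : Fin (N + 1) → ℂ) : Clu_cr a a = 0 := by
  unfold Clu_cr
  refine Finset.sum_eq_zero fun i _ => Finset.sum_eq_zero fun j _ => ?_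
  rw [mul_comm, sub_self, norm_zero]

/-- a continuous function with finitely many limit values has a limit -/
private theorem Clu_lim {F : ℂ → ℝ} (hF : ContinuousOn F puncturedDisc) {T : Set ℝ} (hT : T.Finite)
    (h : ∀ 𝒰 : Ultrafilter ℂ, (𝒰 : Filter ℂ) ≤ 𝓝[≠] 0 → ∃ t ∈ T, Tendsto F 𝒰 (𝓝 t))
    (𝒰₀ : Ultrafilter ℂ) (h₀ : (𝒰₀ : Filter ℂ) ≤ 𝓝[≠] 0) {t₀ : ℝ} (ht₀ : Tendsto F 𝒰₀ (𝓝 t₀)) : Tendsto F (𝓝[≠] 0) (𝓝 t₀) := by
  have key : ∀ (𝒰 𝒱 : Ultrafilter ℂ) (s t : ℝ), (𝒰 : Filter ℂ) ≤ 𝓝[≠] 0 → (𝒱 : Filter ℂ) ≤ 𝓝[≠] 0 → Tendsto F 𝒰 (𝓝 s) → Tendsto F 𝒱 (𝓝 t) → ¬ s < t := by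
    intro 𝒰 𝒱 s t h𝒰 h𝒱 hs ht hst
    obtain ⟨c, hc1, hc2⟩ := ((Set.Ioo_infinite hst).sdiff hT).nonempty
    have hfreq : ∃ᶠ z in 𝓝[≠] (0 : ℂ), F z = c := by
      rw [Filter.frequently_iff]
      intro U hU
      obtain ⟨ε, hε, hεU⟩ := Metric.mem_nhdsWithin_iff.1 hU
      have hR : 0 < min ε 1 := lt_min hε one_pos
      have hA : {z : ℂ | 0 < ‖z‖ ∧ ‖z‖ < min ε 1} ∈ 𝓝[≠] (0 : ℂ) := by
        refine Metric.mem_nhdsWithin_iff.2 ⟨min ε 1, hR, fun z hz => ⟨norm_pos_iff.2 hz.2, ?_⟩⟩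
        exact mem_ball_zero_iff.1 hz.1
      obtain ⟨z, hz1, hz2⟩ := ((hs.eventually_lt_const hc1.1).and (h𝒰 hA)).exists
      obtain ⟨z', hz1', hz2'⟩ := ((ht.eventually_const_lt hc1.2).and (h𝒱 hA)).exists
      have hsub : {z : ℂ | 0 < ‖z‖ ∧ ‖z‖ < min ε 1} ⊆ puncturedDisc := fun y hy =>
        ⟨mem_ball_zero_iff.2 (lt_of_lt_of_le hy.2 (min_le_right _ _)), norm_pos_iff.1 hy.1⟩
      obtain ⟨y, hy, hyc⟩ := (Pool.Agent.H92.GGL.isPreconnected_punctured (min ε 1)).intermediate_value hz2 hz2' (hF.mono hsub) ⟨hz1.le, hz1'.le⟩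
      exact ⟨y, hεU ⟨mem_ball_zero_iff.2 (lt_of_lt_of_le hy.2 (min_le_left _ _)), norm_pos_iff.1 hy.1⟩, hyc⟩
    have : (𝓝[≠] (0 : ℂ) ⊓ 𝓟 {z | F z = c}).NeBot := Filter.frequently_mem_iff_neBot.1 hfreq
    obtain ⟨t', ht', hl⟩ := h (Ultrafilter.of (𝓝[≠] (0 : ℂ) ⊓ 𝓟 {z | F z = c})) ((Ultrafilter.of_le _).trans inf_le_left)
    have h1 : ∀ᶠ z in (Ultrafilter.of (𝓝[≠] (0 : ℂ) ⊓ 𝓟 {z | F z = c}) : Filter ℂ), c = F z := by
      have h2 : {z | F z = c} ∈ (Ultrafilter.of (𝓝[≠] (0 : ℂ) ⊓ 𝓟 {z | F z = c}) : Filter ℂ) := (Ultrafilter.of_le _) (mem_inf_of_right (mem_principal_self _))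
      filter_upwards [h2] with z hz
      exact hz.symm
    have h3 : t' = c := tendsto_nhds_unique hl (tendsto_const_nhds.congr' h1)
    exact hc2 (h3 ▸ ht')
  rw [tendsto_iff_ultrafilter]
  intro 𝒰 h𝒰
  obtain ⟨t₁, -, ht₁⟩ := h 𝒰 h𝒰
  have h1 := key 𝒰 𝒰₀ t₁ t₀ h𝒰 h₀ ht₁ ht₀
  have h2 := key 𝒰₀ 𝒰 t₀ t₁ h₀ h𝒰 ht₀ ht₁
  have h3 : t₁ = t₀ := le_antisymm (not_lt.1 h2) (not_lt.1 h1)
  rw [← h3]
  exact ht₁

/-- the representative of norm one -/
private noncomputable def Clu_w (x : PN N) : Fin (N + 1) → ℂ := (‖x.rep‖ : ℂ)⁻¹ • x.rep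

private theorem Clu_w_norm (x : PN N) : ‖Clu_w x‖ = 1 := by
  have h := norm_ne_zero_iff.2 x.rep_nonzero
  rw [Clu_w, norm_smul, norm_inv, Complex.norm_real, norm_norm, inv_mul_cancel₀ h]

private theorem Clu_w_ne (x : PN N) : Clu_w x ≠ 0 := by
  intro h
  have h1 := Clu_w_norm x
  rw [h, norm_zero] at h1
  exact zero_ne_one h1

private theorem Clu_mk_w (x : PN N) : Projectivization.mk ℂ (Clu_w x) (Clu_w_ne x) = x := by
  have h := norm_ne_zero_iff.2 x.rep_nonzero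
  conv_rhs => rw [← Projectivization.mk_rep x]
  rw [Projectivization.mk_eq_mk_iff']
  exact ⟨(‖x.rep‖ : ℂ)⁻¹, rfl⟩

/-- the function `cr a` on points given by any homogeneous coordinates -/
private theorem Clu_cr_w (a : Fin (N + 1) → ℂ) {x : PN N} {y : Fin (N + 1) → ℂ} (hy : y ≠ 0) (hx : x = Projectivization.mk ℂ y hy) : Clu_cr a (Clu_w x) = ‖y‖⁻¹ * Clu_cr a y := by
  have h1 : Projectivization.mk ℂ x.rep x.rep_nonzero = Projectivization.mk ℂ y hy := by rw [Projectivization.mk_rep, hx]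
  rw [Projectivization.mk_eq_mk_iff'] at h1
  obtain ⟨c, hc⟩ := h1
  have hc0 : c ≠ 0 := by
    rintro rfl
    rw [zero_smul] at hc
    exact x.rep_nonzero hc.symm
  rw [Clu_w, ← hc, norm_smul, smul_smul, Clu_cr_smul, norm_mul, norm_inv, Complex.norm_real, Real.norm_eq_abs, abs_of_nonneg (by positivity)]
  have h2 : ‖y‖ ≠ 0 := norm_ne_zero_iff.2 hy
  have h3 : ‖c‖ ≠ 0 := norm_ne_zero_iff.2 hc0
  field_simp

private theorem Clu_disc_mem : puncturedDisc ∈ 𝓝[≠] (0 : ℂ) := sdiff_mem_nhdsWithin_compl (Metric.ball_mem_nhds _ one_pos) _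

/-- the limit points of the curve -/
private theorem Clu_point {P : Ideal (MvPolynomial (Fin (N + 1)) ℂ)} {s m : ℕ} {G : Fin s → MvPolynomial (Fin (N + 1)) ℂ} (hΛ : Lat Λ) {T : Set ((Cn (k + 1) ⧸ Λ) × PN m)} {S : Set (Cn (k + 1) ⧸ Λ)}
    {u : PN N → Cn (k + 1) ⧸ Λ} {v : PN N → PN m} (h : IsFiniteOver P G Λ T S u v)
    {f : ℂ → PN N} (hfU : ∀ z ∈ puncturedDisc, f z ∈ projVar P) {t' : ℂ → Cn (k + 1) ⧸ Λ} {g' : ℂ → PN m} (ht : HolomorphicIntoTorus Λ t' (ball 0 1))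
    (hg : HolomorphicInto g' (ball 0 1)) (htf : ∀ z ∈ puncturedDisc, t' z = u (f z)) (hgf : ∀ z ∈ puncturedDisc, g' z = v (f z))
    (𝒰 : Ultrafilter ℂ) (h𝒰 : (𝒰 : Filter ℂ) ≤ 𝓝[≠] 0) {w : Fin (N + 1) → ℂ} (hw : w ≠ 0) (hlim : Tendsto (fun z => Clu_w (f z)) 𝒰 (𝓝 w)) :
    Projectivization.mk ℂ w hw ∈ projVar P ∧ u (Projectivization.mk ℂ w hw) = t' 0 ∧ v (Projectivization.mk ℂ w hw) = g' 0 := by
  have hpd : ∀ᶠ z in (𝒰 : Filter ℂ), z ∈ puncturedDisc := h𝒰 Clu_disc_mem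
  have h0 : (𝒰 : Filter ℂ) ≤ 𝓝 0 := h𝒰.trans nhdsWithin_le_nhds
  have hX : Projectivization.mk ℂ w hw ∈ projVar P := by
    intro Q hQ n hn
    rw [Pool.Agent.H17.vanishesAt_mk_iff hn]
    have h1 : Tendsto (fun z => eval (Clu_w (f z)) Q) 𝒰 (𝓝 (eval w Q)) := ((MvPolynomial.continuous_eval Q).tendsto w).comp hlim
    have h2 : ∀ᶠ z in (𝒰 : Filter ℂ), 0 = eval (Clu_w (f z)) Q := by
      filter_upwards [hpd] with z hz
      have h3 := hfU z hz Q hQ n hn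
      rw [← Clu_mk_w (f z), Pool.Agent.H17.vanishesAt_mk_iff hn] at h3
      exact h3.symm
    exact tendsto_nhds_unique h1 (tendsto_const_nhds.congr' h2)
  refine ⟨hX, ?_, ?_⟩
  · obtain ⟨V, hV, hVu⟩ := h.torus w hw hX
    obtain ⟨H, hH, hHt⟩ := ht 0 (Metric.mem_ball_self one_pos)
    have h1 : ∀ᶠ z in (𝒰 : Filter ℂ), H z - V (Clu_w (f z)) ∈ (Λ : Set (Cn (k + 1))) := by
      filter_upwards [hpd, hlim.eventually hVu, h0 hHt] with z h2 h3 h4
      have h5 := h3 (Clu_w_ne _) (by rw [Clu_mk_w]; exact hfU z h2)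
      rw [Clu_mk_w, ← htf z h2] at h5
      rw [h4] at h5
      have h6 : ((V (Clu_w (f z)) : Cn (k + 1)) : Cn (k + 1) ⧸ Λ) = (H z : Cn (k + 1) ⧸ Λ) := h5.symm
      rw [QuotientAddGroup.eq] at h6
      rw [SetLike.mem_coe]
      have h7 : H z - V (Clu_w (f z)) = -V (Clu_w (f z)) + H z := by abel
      rw [h7]
      exact h6
    have h2 : Tendsto (fun z => H z - V (Clu_w (f z))) 𝒰 (𝓝 (H 0 - V w)) := (hH.continuousAt.tendsto.mono_left h0).sub (hV.continuousAt.tendsto.comp hlim)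
    have h3 : H 0 - V w ∈ (Λ : Set (Cn (k + 1))) := (Pool.Agent.TG.lat_isClosed hΛ).mem_of_tendsto h2 h1
    have h4 : u (Projectivization.mk ℂ w hw) = (V w : Cn (k + 1) ⧸ Λ) := hVu.self_of_nhds hw hX
    rw [h4, hHt.self_of_nhds, QuotientAddGroup.eq]
    have h7 : -V w + H 0 = H 0 - V w := by abel
    rw [h7]
    exact h3
  · obtain ⟨D, γ, hγ, hγ0, hγv⟩ := h.regular _ hX
    obtain ⟨ψ, hψ, hψg⟩ := hg 0 (Metric.mem_ball_self one_pos)
    obtain ⟨hψ0, hψ1⟩ := hψg.self_of_nhds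
    -- nonvanishing of `vals γ`
    have hval : ∀ (y : Fin (N + 1) → ℂ) (hy : y ≠ 0), vals γ (Projectivization.mk ℂ y hy).rep ≠ 0 ↔ vals γ y ≠ 0 := by
      intro y hy
      obtain ⟨a, ha⟩ := Projectivization.exists_smul_eq_mk_rep ℂ y hy
      rw [← ha]
      have h1 : (a • y : Fin (N + 1) → ℂ) = (a : ℂ) • y := rfl
      rw [h1, Pool.Agent.H7.Bir.vals_smul hγ, Ne, smul_eq_zero, not_or]
      exact ⟨fun h => h.2, fun h => ⟨pow_ne_zero _ a.ne_zero, h⟩⟩
    have hw1 : vals γ w ≠ 0 := (hval w hw).1 hγ0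
    have hvc : Continuous (vals γ) := continuous_pi fun i => MvPolynomial.continuous_eval (γ i)
    have hvl : Tendsto (fun z => vals γ (Clu_w (f z))) 𝒰 (𝓝 (vals γ w)) := (hvc.tendsto w).comp hlim
    have hψl : Tendsto ψ 𝒰 (𝓝 (ψ 0)) := hψ.continuousAt.tendsto.mono_left h0
    have hcr : ∀ᶠ z in (𝒰 : Filter ℂ), ∀ i j, vals γ (Clu_w (f z)) i * ψ z j = vals γ (Clu_w (f z)) j * ψ z i := by
      filter_upwards [hpd, hvl.eventually_ne hw1, h0 hψg] with z h1 h2 h3 i j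
      obtain ⟨h4, h5⟩ := h3
      have h6 := hγv (f z) (hfU z h1) (by
        rw [← Clu_mk_w (f z)]
        exact (hval _ _).2 h2)
      rw [← hgf z h1, h5, ← Clu_mk_w (f z), Pool.Agent.H7.Bir.rmap_mk hγ (Clu_w_ne _) h2, Projectivization.mk_eq_mk_iff'] at h6
      obtain ⟨c, hc⟩ := h6
      have h7 : ∀ i, ψ z i = c * vals γ (Clu_w (f z)) i := fun i => by rw [← hc]; rfl
      rw [h7 i, h7 j]
      ring
    have hcr0 : ∀ i j, vals γ w i * ψ 0 j = vals γ w j * ψ 0 i := by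
      intro i j
      have h1 : Tendsto (fun z => vals γ (Clu_w (f z)) i * ψ z j) 𝒰 (𝓝 (vals γ w i * ψ 0 j)) :=
        (((continuous_apply i).tendsto _).comp hvl).mul (((continuous_apply j).tendsto _).comp hψl)
      have h2 : Tendsto (fun z => vals γ (Clu_w (f z)) j * ψ z i) 𝒰 (𝓝 (vals γ w j * ψ 0 i)) :=
        (((continuous_apply j).tendsto _).comp hvl).mul (((continuous_apply i).tendsto _).comp hψl)
      exact tendsto_nhds_unique h1 (h2.congr' (hcr.mono fun z hz => (hz i j).symm))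
    obtain ⟨j, hj⟩ : ∃ j, ψ 0 j ≠ 0 := by
      by_contra hcon
      push Not at hcon
      exact hψ0 (funext hcon)
    have h1 := Clu_prop hj hcr0
    rw [hγv _ hX hγ0, Pool.Agent.H7.Bir.rmap_mk hγ hw hw1, hψ1, Projectivization.mk_eq_mk_iff']
    exact ⟨_, h1.symm⟩

theorem ext_of_finite {P : Ideal (MvPolynomial (Fin (N + 1)) ℂ)} (hP : Homog P) {s m : ℕ} {G : Fin s → MvPolynomial (Fin (N + 1)) ℂ} (hΛ : Lat Λ) {T : Set ((Cn (k + 1) ⧸ Λ) × PN m)} {S : Set (Cn (k + 1) ⧸ Λ)}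
    {u : PN N → Cn (k + 1) ⧸ Λ} {v : PN N → PN m} (h : IsFiniteOver P G Λ T S u v)
    {f : ℂ → PN N} (hf : HolomorphicInto f puncturedDisc) (hfU : ∀ z ∈ puncturedDisc, f z ∈ projVar P) {t' : ℂ → Cn (k + 1) ⧸ Λ} {g' : ℂ → PN m} (ht : HolomorphicIntoTorus Λ t' (ball 0 1))
    (hg : HolomorphicInto g' (ball 0 1)) (htf : ∀ z ∈ puncturedDisc, t' z = u (f z)) (hgf : ∀ z ∈ puncturedDisc, g' z = v (f z)) :
    ∃ f' : ℂ → PN N, HolomorphicInto f' (ball 0 1) ∧ ∀ z ∈ puncturedDisc, f' z = f z := by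
  classical
  have hsph : ∀ 𝒰 : Ultrafilter ℂ, ∃ w : Fin (N + 1) → ℂ, ‖w‖ = 1 ∧ Tendsto (fun z => Clu_w (f z)) 𝒰 (𝓝 w) := by
    intro 𝒰
    have h1 := (isCompact_sphere (0 : Fin (N + 1) → ℂ) 1).ultrafilter_le_nhds (𝒰.map fun z => Clu_w (f z)) (by
      rw [le_principal_iff]
      refine Filter.mem_map.2 (Filter.Eventually.of_forall fun z => ?_)
      show Clu_w (f z) ∈ sphere (0 : Fin (N + 1) → ℂ) 1
      rw [mem_sphere_zero_iff_norm]
      exact Clu_w_norm _)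
    obtain ⟨w, hw, hlim⟩ := h1
    exact ⟨w, mem_sphere_zero_iff_norm.1 hw, hlim⟩
  have hne : ∀ w : Fin (N + 1) → ℂ, ‖w‖ = 1 → w ≠ 0 := by
    rintro w hw rfl
    rw [norm_zero] at hw
    exact zero_ne_one hw
  -- a first limit point
  set 𝒰₀ : Ultrafilter ℂ := Ultrafilter.of (𝓝[≠] (0 : ℂ)) with h𝒰₀
  have hle₀ : (𝒰₀ : Filter ℂ) ≤ 𝓝[≠] 0 := Ultrafilter.of_le _
  obtain ⟨a, ha1, halim⟩ := hsph 𝒰₀
  have ha : a ≠ 0 := hne a ha1
  obtain ⟨haX, hau, hav⟩ := Clu_point hΛ h hfU ht hg htf hgf 𝒰₀ hle₀ ha halim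
  have hfin := h.finite _ haX
  rw [hau, hav] at hfin
  obtain ⟨j, hj⟩ : ∃ j, a j ≠ 0 := by
    by_contra hcon
    push Not at hcon
    exact ha (funext hcon)
  -- the function `cr a`
  have hcont : ContinuousOn (fun z => Clu_cr a (Clu_w (f z))) puncturedDisc := by
    intro z₀ hz₀
    obtain ⟨φ, hφ, hφf⟩ := hf z₀ hz₀
    have h1 : φ z₀ ≠ 0 := hφf.self_of_nhds.1
    have h2 : ContinuousAt (fun z => ‖φ z‖⁻¹ * Clu_cr a (φ z)) z₀ :=
      (hφ.continuousAt.norm.inv₀ (norm_ne_zero_iff.2 h1)).mul ((Clu_cr_cont a).continuousAt.comp hφ.continuousAt)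
    refine (h2.congr ?_).continuousWithinAt
    filter_upwards [hφf] with z hz
    exact (Clu_cr_w a hz.1 hz.2).symm
  have hall : ∀ 𝒰 : Ultrafilter ℂ, (𝒰 : Filter ℂ) ≤ 𝓝[≠] 0 → ∃ t ∈ (fun x : PN N => Clu_cr a (Clu_w x)) '' {x' | x' ∈ projVar P ∧ u x' = t' 0 ∧ v x' = g' 0}, Tendsto (fun z => Clu_cr a (Clu_w (f z))) 𝒰 (𝓝 t) := by
    intro 𝒰 h𝒰
    obtain ⟨w, hw1, hlim⟩ := hsph 𝒰
    refine ⟨_, ⟨Projectivization.mk ℂ w (hne w hw1), Clu_point hΛ h hfU ht hg htf hgf 𝒰 h𝒰 (hne w hw1) hlim, rfl⟩, ?_⟩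
    show Tendsto _ _ (𝓝 (Clu_cr a (Clu_w (Projectivization.mk ℂ w (hne w hw1)))))
    rw [Clu_cr_w a (hne w hw1) rfl, hw1, inv_one, one_mul]
    exact ((Clu_cr_cont a).tendsto w).comp hlim
  have hlim0 : Tendsto (fun z => Clu_cr a (Clu_w (f z))) (𝓝[≠] 0) (𝓝 0) := by
    refine Clu_lim hcont (hfin.image _) hall 𝒰₀ hle₀ ?_
    have h1 := ((Clu_cr_cont a).tendsto a).comp halim
    rw [Clu_cr_self] at h1
    exact h1
  -- the coordinates in the chart
  have hch : Tendsto (fun z => (Clu_w (f z) j)⁻¹ • Clu_w (f z)) (𝓝[≠] (0 : ℂ)) (𝓝 ((a j)⁻¹ • a)) := by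
    rw [tendsto_iff_ultrafilter]
    intro 𝒰 h𝒰
    obtain ⟨w, hw1, hlim⟩ := hsph 𝒰
    have h1 : Clu_cr a w = 0 := tendsto_nhds_unique (((Clu_cr_cont a).tendsto w).comp hlim) (hlim0.mono_left h𝒰)
    have h2 := Clu_cr_zero hj h1
    have h3 : w j ≠ 0 := by
      intro h4
      rw [h4, zero_div, zero_smul] at h2
      exact hne w hw1 h2
    have h4 : (w j)⁻¹ • w = (a j)⁻¹ • a := by
      conv_lhs => rw [h2]
      rw [Pi.smul_apply, smul_eq_mul, div_mul_cancel₀ _ hj, smul_smul]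
      congr 1
      field_simp
    rw [← h4]
    exact ((((continuous_apply j).tendsto _).comp hlim).inv₀ h3).smul hlim
  have hjne : ∀ᶠ z in 𝓝[≠] (0 : ℂ), Clu_w (f z) j ≠ 0 := by
    have h1 : Tendsto (fun z => ((Clu_w (f z) j)⁻¹ • Clu_w (f z)) j) (𝓝[≠] (0 : ℂ)) (𝓝 (((a j)⁻¹ • a) j)) := ((continuous_apply j).tendsto _).comp hch
    have h2 : ((a j)⁻¹ • a) j ≠ 0 := by
      rw [Pi.smul_apply, smul_eq_mul, inv_mul_cancel₀ hj]
      exact one_ne_zero
    filter_upwards [h1.eventually_ne h2] with z hz h3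
    rw [Pi.smul_apply, h3, inv_zero, zero_smul] at hz
    exact hz rfl
  refine Pool.Agent.H62.Qe.extend_of_pow hf le_rfl (Φ := Function.update (fun z => (Clu_w (f z) j)⁻¹ • Clu_w (f z)) 0 ((a j)⁻¹ • a)) ?_ ?_ ?_
  · rw [continuousAt_update_same]
    exact hch
  · rw [Function.update_self]
    exact smul_ne_zero (inv_ne_zero hj) ha
  · rw [eventually_nhdsWithin_iff] at hjne
    filter_upwards [hjne] with z h1 h2
    have h3 : (Clu_w (f z) j)⁻¹ • Clu_w (f z) ≠ 0 := smul_ne_zero (inv_ne_zero (h1 h2)) (Clu_w_ne _)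
    have h4 : Function.update (fun z => (Clu_w (f z) j)⁻¹ • Clu_w (f z)) 0 ((a j)⁻¹ • a) z = (Clu_w (f z) j)⁻¹ • Clu_w (f z) := Function.update_of_ne h2 _ _
    refine ⟨by rw [h4]; exact h3, ?_⟩
    rw [pow_one]
    conv_lhs => rw [← Clu_mk_w (f z)]
    rw [Projectivization.mk_eq_mk_iff']
    refine ⟨Clu_w (f z) j, ?_⟩
    rw [h4, smul_smul, mul_inv_cancel₀ (h1 h2), one_smul]

end Pool.Agent.PX

end
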