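import Pool.Agent.H94.PX2.M39

/-! The parts of this file: G4.K.Dv, G4.K.Hz, G4.K.Nz, G4.K.Co. -/

section

/-!
# G4 K Dv: division with remainder

`P x ζ = ∏ i, (ζ - β x i) = ∑ k, c k x ζ ^ k`, the `c k` are analytic on `U` (interpolation: `c k x` is a fixed linear combination of the values `P x 0, …, P x n`, which are analytic by `norm_an`).
`A j G x = (2 π i)⁻¹ ∮ ζ in C(0, r), G (x, ζ) B j x ζ / P x ζ` with `B j x ζ = ∑ k > j, c k x * ζ ^ (k - 1 - j)`, so that `∑ j, A j G x w ^ j = (2 π i)⁻¹ ∮ G (x, ζ) (P x ζ - P x w) / (P x ζ (ζ - w))`, which is `G (x, w)` if `P x w = 0` (Cauchy).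
-/

set_option autoImplicit false

open Topology Filter Metric

namespace Pool.Agent.G4.K

open Pool.Agent.AD (Vd)

private noncomputable def pol {n : ℕ} (b : Fin n → ℂ) : Polynomial ℂ := ∏ i, (Polynomial.X - Polynomial.C (b i))

private theorem pol_eval {n : ℕ} (b : Fin n → ℂ) (z : ℂ) : (pol b).eval z = ∏ i, (z - b i) := by
  simp [pol, Polynomial.eval_prod]

private theorem pol_deg {n : ℕ} (b : Fin n → ℂ) : (pol b).natDegree = n := by
  rw [pol, Polynomial.natDegree_prod_of_monic _ _ (fun i _ => Polynomial.monic_X_sub_C _)]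
  simp

private theorem pol_sum {n : ℕ} (b : Fin n → ℂ) (z : ℂ) : ∏ i, (z - b i) = ∑ k ∈ Finset.range (n + 1), (pol b).coeff k * z ^ k := by
  rw [← pol_eval, Polynomial.eval_eq_sum_range, pol_deg]

private theorem coeff_eq {n : ℕ} (b : Fin n → ℂ) (k : ℕ) : (pol b).coeff k =
    ∑ j ∈ Finset.range (n + 1), (∏ i, ((j : ℂ) - b i)) * (Lagrange.basis (Finset.range (n + 1)) (fun j : ℕ => (j : ℂ)) j).coeff k := by
  have h := Lagrange.eq_interpolate (s := Finset.range (n + 1)) (v := fun j : ℕ => (j : ℂ)) (f := pol b)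
    (fun a _ b _ hab => Nat.cast_injective hab) (by
      refine Polynomial.degree_le_natDegree.trans_lt ?_
      rw [pol_deg, Finset.card_range]
      exact_mod_cast Nat.lt_succ_self n)
  conv_lhs => rw [h]
  rw [Lagrange.interpolate_apply, Polynomial.finsetSum_coeff]
  refine Finset.sum_congr rfl fun j _ => ?_
  rw [Polynomial.coeff_C_mul, pol_eval]

private noncomputable def Bj {n : ℕ} (b : Fin n → ℂ) (j : ℕ) (ζ : ℂ) : ℂ :=
  ∑ k ∈ Finset.range (n + 1), if j < k then (pol b).coeff k * ζ ^ (k - 1 - j) else 0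

private theorem Bj_sum {n : ℕ} (b : Fin n → ℂ) {w : ℂ} (hw : ∏ i, (w - b i) = 0) (ζ : ℂ) :
    (∑ j : Fin n, Bj b j ζ * w ^ (j : ℕ)) * (ζ - w) = ∏ i, (ζ - b i) := by
  have h1 : ∏ i, (ζ - b i) = ∏ i, (ζ - b i) - ∏ i, (w - b i) := by rw [hw, sub_zero]
  rw [h1, pol_sum, pol_sum, ← Finset.sum_sub_distrib]
  simp only [Bj, Finset.sum_mul]
  rw [Finset.sum_comm]
  refine Finset.sum_congr rfl fun k hk => ?_
  have hk' : k ≤ n := Nat.lt_succ_iff.1 (Finset.mem_range.1 hk)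
  rw [Fin.sum_univ_eq_sum_range (fun j => (if j < k then (pol b).coeff k * ζ ^ (k - 1 - j) else 0) * w ^ j * (ζ - w)) n]
  rw [← Finset.sum_subset (Finset.range_subset_range.2 hk') (fun j _ hj => by
    rw [if_neg (by simpa using hj)]; simp)]
  have h2 := geom_sum₂_mul w ζ k
  have h3 : ∑ j ∈ Finset.range k, (if j < k then (pol b).coeff k * ζ ^ (k - 1 - j) else 0) * w ^ j * (ζ - w) =
      -((pol b).coeff k * ((∑ j ∈ Finset.range k, w ^ j * ζ ^ (k - 1 - j)) * (w - ζ))) := by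
    rw [Finset.sum_mul, Finset.mul_sum, ← Finset.sum_neg_distrib]
    refine Finset.sum_congr rfl fun j hj => ?_
    rw [if_pos (Finset.mem_range.1 hj)]
    ring
  rw [h3, h2]
  ring

variable {E : Type} [NormedAddCommGroup E] [NormedSpace ℂ E] [FiniteDimensional ℂ E] {U : Set E} {r : ℝ} {σ : E × ℂ → ℂ} {n : ℕ} {β : E → Fin n → ℂ}

private theorem coeff_an (R : RSys U r σ β) (k : ℕ) {x : E} (hx : x ∈ U) : AnalyticAt ℂ (fun x => (pol (β x)).coeff k) x := by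
  have h : (fun x => (pol (β x)).coeff k) = fun x => ∑ j ∈ Finset.range (n + 1), (∏ i, ((j : ℂ) - β x i)) *
      (Lagrange.basis (Finset.range (n + 1)) (fun j : ℕ => (j : ℂ)) j).coeff k := funext fun x => coeff_eq _ _
  rw [h]
  refine Finset.analyticAt_fun_sum _ fun j _ => ?_
  exact (R.norm_an (F := fun p => (j : ℂ) - p.2) (fun x _ w _ => analyticAt_const.sub analyticAt_snd) x hx).mul analyticAt_const

private theorem P_an (R : RSys U r σ β) {x : E} (hx : x ∈ U) (ζ : ℂ) : AnalyticAt ℂ (fun p : E × ℂ => ∏ i, (p.2 - β p.1 i)) (x, ζ) := by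
  have h : (fun p : E × ℂ => ∏ i, (p.2 - β p.1 i)) = fun p => ∑ k ∈ Finset.range (n + 1), (pol (β p.1)).coeff k * p.2 ^ k := funext fun p => pol_sum _ _
  rw [h]
  refine Finset.analyticAt_fun_sum _ fun k _ => ?_
  exact ((coeff_an R k hx).comp_of_eq (analyticAt_fst (p := (x, ζ))) rfl).mul (analyticAt_snd.pow k)

private theorem B_an (R : RSys U r σ β) (j : ℕ) {x : E} (hx : x ∈ U) (ζ : ℂ) : AnalyticAt ℂ (fun p : E × ℂ => Bj (β p.1) j p.2) (x, ζ) := by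
  unfold Bj
  refine Finset.analyticAt_fun_sum _ fun k _ => ?_
  by_cases h : j < k
  · simp only [if_pos h]
    exact ((coeff_an R k hx).comp_of_eq (analyticAt_fst (p := (x, ζ))) rfl).mul (analyticAt_snd.pow _)
  · simp only [if_neg h]
    exact analyticAt_const

omit [FiniteDimensional ℂ E] in
private theorem P_ne (R : RSys U r σ β) {x : E} (hx : x ∈ U) {ζ : ℂ} (hζ : ζ ∈ sphere (0 : ℂ) r) : ∏ i, (ζ - β x i) ≠ 0 := by
  rw [Finset.prod_ne_zero_iff]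
  intro i _ h
  have h1 := R.lt x hx i
  rw [← sub_eq_zero.1 h, mem_sphere_zero_iff_norm.1 hζ] at h1
  exact lt_irrefl _ h1

private theorem int_an (R : RSys U r σ β) (j : ℕ) {G : E × ℂ → ℂ} (hG : ∀ x ∈ U, ∀ w : ℂ, ‖w‖ ≤ r → AnalyticAt ℂ G (x, w)) {x : E} (hx : x ∈ U) :
    ∀ ζ ∈ sphere (0 : ℂ) r, AnalyticAt ℂ (fun p : E × ℂ => G p * (Bj (β p.1) j p.2 / ∏ i, (p.2 - β p.1 i))) (x, ζ) := by
  intro ζ hζ
  have h1 : ‖ζ‖ ≤ r := (mem_sphere_zero_iff_norm.1 hζ).le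
  exact (hG x hx ζ h1).mul ((B_an R j hx ζ).div (P_an R hx ζ) (P_ne R hx hζ))

private theorem int_ok (R : RSys U r σ β) (j : ℕ) {G : E × ℂ → ℂ} (hG : ∀ x ∈ U, ∀ w : ℂ, ‖w‖ ≤ r → AnalyticAt ℂ G (x, w)) {x : E} (hx : x ∈ U) :
    CircleIntegrable (fun ζ => G (x, ζ) * (Bj (β x) j ζ / ∏ i, (ζ - β x i))) 0 r := by
  refine ContinuousOn.circleIntegrable R.pos.le ?_
  intro ζ hζ
  have h1 := (int_an R j hG hx ζ hζ).continuousAt
  exact (h1.comp (f := fun ζ : ℂ => (x, ζ)) (Continuous.prodMk_right x).continuousAt).continuousWithinAt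

theorem RSys.div (R : RSys U r σ β) : ∃ A : Fin n → (E × ℂ → ℂ) → E → ℂ,
    (∀ j (G : E × ℂ → ℂ), (∀ x ∈ U, ∀ w : ℂ, ‖w‖ ≤ r → AnalyticAt ℂ G (x, w)) → ∀ x ∈ U, AnalyticAt ℂ (A j G) x) ∧
    (∀ j (G G' : E × ℂ → ℂ) (c : ℂ), (∀ x ∈ U, ∀ w : ℂ, ‖w‖ ≤ r → AnalyticAt ℂ G (x, w)) → (∀ x ∈ U, ∀ w : ℂ, ‖w‖ ≤ r → AnalyticAt ℂ G' (x, w)) →
      ∀ x ∈ U, A j (fun p => G p + c * G' p) x = A j G x + c * A j G' x) ∧
    (∀ j (G G' : E × ℂ → ℂ), ∀ x ∈ U, (∀ w : ℂ, ‖w‖ ≤ r → G (x, w) = G' (x, w)) → A j G x = A j G' x) ∧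
    ∀ G : E × ℂ → ℂ, (∀ x ∈ U, ∀ w : ℂ, ‖w‖ ≤ r → AnalyticAt ℂ G (x, w)) → ∀ x ∈ U, ∀ i, G (x, β x i) = ∑ j, A j G x * β x i ^ (j : ℕ) := by
  refine ⟨fun j G x => (2 * (Real.pi : ℂ) * Complex.I)⁻¹ * ∮ ζ in C(0, r), G (x, ζ) * (Bj (β x) j ζ / ∏ i, (ζ - β x i)), ?_, ?_, ?_, ?_⟩
  · intro j G hG x hx
    exact analyticAt_const.mul (Pool.Agent.H22.HF.analyticAt_circleIntegral (F := fun p : E × ℂ => G p * (Bj (β p.1) j p.2 / ∏ i, (p.2 - β p.1 i))) R.pos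
      (int_an R j hG hx))
  · intro j G G' c hG hG' x hx
    have h1 : (∮ ζ in C(0, r), (fun p : E × ℂ => G p + c * G' p) (x, ζ) * (Bj (β x) j ζ / ∏ i, (ζ - β x i))) =
        (∮ ζ in C(0, r), G (x, ζ) * (Bj (β x) j ζ / ∏ i, (ζ - β x i))) + c * ∮ ζ in C(0, r), G' (x, ζ) * (Bj (β x) j ζ / ∏ i, (ζ - β x i)) := by
      rw [← circleIntegral.integral_const_mul, ← circleIntegral.integral_add (int_ok R j hG hx) (by
        simpa [CircleIntegrable, mul_assoc] using (int_ok R j hG' hx).const_mul c)]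
      refine circleIntegral.integral_congr R.pos.le fun ζ _ => ?_
      ring
    change (2 * (Real.pi : ℂ) * Complex.I)⁻¹ * (∮ ζ in C(0, r), (fun p : E × ℂ => G p + c * G' p) (x, ζ) * (Bj (β x) j ζ / ∏ i, (ζ - β x i))) = _
    rw [h1]
    ring
  · intro j G G' x _ h
    have h1 : (∮ ζ in C(0, r), G (x, ζ) * (Bj (β x) j ζ / ∏ i, (ζ - β x i))) = ∮ ζ in C(0, r), G' (x, ζ) * (Bj (β x) j ζ / ∏ i, (ζ - β x i)) := by
      refine circleIntegral.integral_congr R.pos.le fun ζ hζ => ?_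
      rw [h ζ (mem_sphere_zero_iff_norm.1 hζ).le]
    change _ * (∮ ζ in C(0, r), G (x, ζ) * (Bj (β x) j ζ / ∏ i, (ζ - β x i))) = _
    rw [h1]
  · intro G hG x hx i
    have hw : ∏ l, (β x i - β x l) = 0 := Finset.prod_eq_zero (Finset.mem_univ i) (sub_self _)
    have hpi : (2 * (Real.pi : ℂ) * Complex.I) ≠ 0 := by
      simp [Real.pi_ne_zero]
    have h1 : (∮ ζ in C(0, r), (ζ - β x i)⁻¹ • G (x, ζ)) = (2 * (Real.pi : ℂ) * Complex.I) • G (x, β x i) := by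
      refine DiffContOnCl.circleIntegral_sub_inv_smul ?_ ?_
      · refine DifferentiableOn.diffContOnCl ?_
        rw [closure_ball _ R.pos.ne']
        intro ζ hζ
        have h2 := (hG x hx ζ (mem_closedBall_zero_iff.1 hζ)).differentiableAt
        exact (h2.comp (f := fun ζ : ℂ => (x, ζ)) ζ ((differentiableAt_const _).prodMk differentiableAt_id)).differentiableWithinAt
      · exact mem_ball_zero_iff.2 (R.lt x hx i)
    have h2 : (∮ ζ in C(0, r), (ζ - β x i)⁻¹ • G (x, ζ)) = ∮ ζ in C(0, r), ∑ j : Fin n, G (x, ζ) * (Bj (β x) j ζ / ∏ i, (ζ - β x i)) * β x i ^ (j : ℕ) := by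
      refine circleIntegral.integral_congr R.pos.le fun ζ hζ => ?_
      have h3 := Bj_sum (β x) hw ζ
      have h4 := P_ne R hx hζ
      have h5 : ζ - β x i ≠ 0 := by
        intro h6
        exact h4 (Finset.prod_eq_zero (Finset.mem_univ i) h6)
      change (ζ - β x i)⁻¹ * G (x, ζ) = ∑ j : Fin n, G (x, ζ) * (Bj (β x) j ζ / ∏ i, (ζ - β x i)) * β x i ^ (j : ℕ)
      have h6 : ∑ j : Fin n, G (x, ζ) * (Bj (β x) j ζ / ∏ i, (ζ - β x i)) * β x i ^ (j : ℕ) =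
          G (x, ζ) * ((∑ j : Fin n, Bj (β x) j ζ * β x i ^ (j : ℕ)) / ∏ i, (ζ - β x i)) := by
        rw [Finset.sum_div, Finset.mul_sum]
        refine Finset.sum_congr rfl fun j _ => ?_
        ring
      rw [h6, mul_comm, ← h3]
      congr 1
      have h7 : (∑ j : Fin n, Bj (β x) j ζ * β x i ^ (j : ℕ)) ≠ 0 := by
        intro h8
        rw [h8, zero_mul] at h3
        exact h4 h3.symm
      field_simp
    rw [h2, circleIntegral.integral_fun_sum (fun j _ => by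
      simpa [CircleIntegrable] using (int_ok R j hG hx).mul_const (β x i ^ (j : ℕ)))] at h1
    change G (x, β x i) = ∑ j : Fin n, (2 * (Real.pi : ℂ) * Complex.I)⁻¹ * (∮ ζ in C(0, r), G (x, ζ) * (Bj (β x) j ζ / ∏ i, (ζ - β x i))) * β x i ^ (j : ℕ)
    rw [← inv_mul_cancel_left₀ hpi (G (x, β x i)), ← smul_eq_mul (2 * (Real.pi : ℂ) * Complex.I), ← h1, Finset.mul_sum]
    refine Finset.sum_congr rfl fun j _ => ?_
    have h9 : (∮ ζ in C(0, r), G (x, ζ) * (Bj (β x) j ζ / ∏ i, (ζ - β x i)) * β x i ^ (j : ℕ)) =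
        β x i ^ (j : ℕ) * ∮ ζ in C(0, r), G (x, ζ) * (Bj (β x) j ζ / ∏ i, (ζ - β x i)) := by
      rw [← circleIntegral.integral_const_mul]
      refine circleIntegral.integral_congr R.pos.le fun ζ _ => ?_
      exact mul_comm (G (x, ζ) * (Bj (β x) j ζ / ∏ i, (ζ - β x i))) (β x i ^ (j : ℕ))
    rw [h9]
    ring

end Pool.Agent.G4.K

end

section

/-!
# G4 K Hz: zeros persist

`hz` (Hurwitz): `f (x₀, w₀) = 0`, `f (x₀, ·)` not `0` near `w₀`, `w ≠ w₀`: for `x` near `x₀` the function `f (x, ·)` has a zero near `w₀` (otherwise the maximum principle for `1 / f (x, ·)` on a disc bounds `‖f (x, w₀)‖` below by the minimum of `‖f (x, ·)‖` on the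
circle).  `opn`: the common zeros `((z, v), w)` of `σ`, `ρ` persist: root system of `σ` around `w = b` with a small radius (`exists_rsys` for `σ (x, b + w)`), the norm of `ρ` (`norm_an`), and `hz` for the norm.
-/

set_option autoImplicit false

open Topology Filter Metric

namespace Pool.Agent.G4.K

open Pool.Agent.AD (Vd)

variable {E : Type} [NormedAddCommGroup E] [NormedSpace ℂ E] [FiniteDimensional ℂ E]

/-- shift of the last variable -/
private theorem shift_an {f : E × ℂ → ℂ} {b : ℂ} {x : E} {w : ℂ} (h : AnalyticAt ℂ f (x, b + w)) :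
    AnalyticAt ℂ (fun y : E × ℂ => f (y.1, b + y.2)) (x, w) := by
  have hg : AnalyticAt ℂ (fun y : E × ℂ => ((y.1, b + y.2) : E × ℂ)) (x, w) :=
    analyticAt_fst.prod (analyticAt_const.add analyticAt_snd)
  exact AnalyticAt.comp' (g := f) (f := fun y : E × ℂ => ((y.1, b + y.2) : E × ℂ)) h hg

private theorem an_near {f : E × ℂ → ℂ} {x₀ : E} {b : ℂ} (hf : AnalyticAt ℂ f (x₀, b)) :
    ∃ η > 0, ∀ x : E, ‖x - x₀‖ < η → ∀ w : ℂ, ‖w‖ < η → AnalyticAt ℂ f (x, b + w) := by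
  obtain ⟨η, hη, h⟩ := Metric.eventually_nhds_iff.1 hf.eventually_analyticAt
  refine ⟨η, hη, fun x hx w hw => h ?_⟩
  rw [Prod.dist_eq, max_lt_iff, dist_eq_norm, dist_eq_norm]
  exact ⟨hx, by simpa using hw⟩

theorem hz {f : E × ℂ → ℂ} {x₀ : E} {w₀ : ℂ} (hf : AnalyticAt ℂ f (x₀, w₀)) (h0 : f (x₀, w₀) = 0) (hne : ∀ᶠ w in 𝓝[≠] w₀, f (x₀, w) ≠ 0) {ε : ℝ} (hε : 0 < ε) :
    ∀ᶠ x in 𝓝 x₀, ∃ w, ‖w - w₀‖ < ε ∧ f (x, w) = 0 := by
  obtain ⟨η, hη, h1⟩ := an_near hf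
  rw [eventually_nhdsWithin_iff, Metric.eventually_nhds_iff] at hne
  obtain ⟨η', hη', h2⟩ := hne
  set r : ℝ := min (min η η') ε / 2 with hr
  have hm : 0 < min (min η η') ε := lt_min (lt_min hη hη') hε
  have hr0 : 0 < r := by
    rw [hr]
    linarith
  have hr1 : r < η := by
    have : min (min η η') ε ≤ η := (min_le_left _ _).trans (min_le_left _ _)
    rw [hr]
    linarith
  have hr2 : r < η' := by
    have : min (min η η') ε ≤ η' := (min_le_left _ _).trans (min_le_right _ _)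
    rw [hr]
    linarith
  have hr3 : r < ε := by
    have : min (min η η') ε ≤ ε := min_le_right _ _
    rw [hr]
    linarith
  obtain ⟨δ, n, β, hδ, R⟩ := exists_rsys (σ := fun y : E × ℂ => f (y.1, w₀ + y.2)) (x₀ := x₀) hr0
    (fun w hw => shift_an (h1 x₀ (by simpa using hη) w (lt_of_le_of_lt hw hr1)))
    (fun w hw => h2 (by rw [dist_eq_norm, add_sub_cancel_left, hw]; exact hr2) (by
      intro h3
      have h4 : w = 0 := by
        have h5 : w₀ + w = w₀ := h3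
        simpa using h5
      rw [h4, norm_zero] at hw
      exact hr0.ne hw))
  have hx₀ : x₀ ∈ ball x₀ δ := mem_ball_self hδ
  have h3 : (fun y : E × ℂ => f (y.1, w₀ + y.2)) (x₀, 0) = 0 := by
    show f (x₀, w₀ + 0) = 0
    rw [add_zero]
    exact h0
  obtain ⟨i, _⟩ := (R.iff hx₀ (by simpa using hr0.le)).1 h3
  refine Filter.mem_of_superset (ball_mem_nhds x₀ hδ) fun x hx => ?_
  refine ⟨w₀ + β x i, ?_, ?_⟩
  · rw [add_sub_cancel_left]
    exact (R.lt x hx i).trans hr3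
  · exact (R.iff hx (R.lt x hx i).le).2 ⟨i, rfl⟩

/-- a smaller base -/
private theorem rsys_mono {U U' : Set E} {r : ℝ} {σ : E × ℂ → ℂ} {n : ℕ} {β : E → Fin n → ℂ}
    (R : RSys U r σ β) (hU : IsOpen U') (h : U' ⊆ U) : RSys U' r σ β :=
  ⟨hU, R.pos, fun x hx => R.an x (h hx), fun x hx => R.ne x (h hx), fun x hx => R.lt x (h hx),
    fun x hx => R.fac x (h hx)⟩

theorem opn {σ ρ : (E × ℂ) × ℂ → ℂ} {z₀ : E} {a b : ℂ} (hσ : AnalyticAt ℂ σ ((z₀, a), b)) (hρ : AnalyticAt ℂ ρ ((z₀, a), b)) (h1 : σ ((z₀, a), b) = 0) (h2 : ρ ((z₀, a), b) = 0)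
    (h3 : ∀ᶠ w in 𝓝[≠] b, σ ((z₀, a), w) ≠ 0) {ε₀ : ℝ} (hε₀ : 0 < ε₀) (h4 : ∀ᶠ v in 𝓝[≠] a, ∀ w : ℂ, ‖w - b‖ < ε₀ → σ ((z₀, v), w) = 0 → ρ ((z₀, v), w) ≠ 0) {ε : ℝ} (hε : 0 < ε) :
    ∀ᶠ z in 𝓝 z₀, ∃ v w : ℂ, ‖v - a‖ < ε ∧ ‖w - b‖ < ε ∧ σ ((z, v), w) = 0 ∧ ρ ((z, v), w) = 0 := by
  obtain ⟨η, hη, k1⟩ := an_near hσ
  obtain ⟨η', hη', k2⟩ := an_near hρ
  rw [eventually_nhdsWithin_iff, Metric.eventually_nhds_iff] at h3
  obtain ⟨η'', hη'', k3⟩ := h3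
  set m : ℝ := min (min (min η η') η'') (min ε ε₀) with hmdef
  have hm : 0 < m := lt_min (lt_min (lt_min hη hη') hη'') (lt_min hε hε₀)
  have m1 : m ≤ η := (min_le_left _ _).trans ((min_le_left _ _).trans (min_le_left _ _))
  have m2 : m ≤ η' := (min_le_left _ _).trans ((min_le_left _ _).trans (min_le_right _ _))
  have m3 : m ≤ η'' := (min_le_left _ _).trans (min_le_right _ _)
  have m4 : m ≤ ε := (min_le_right _ _).trans (min_le_left _ _)
  have m5 : m ≤ ε₀ := (min_le_right _ _).trans (min_le_right _ _)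
  have hr0 : 0 < m / 2 := by linarith
  obtain ⟨δ, n, β, hδ, R⟩ := exists_rsys (σ := fun y : (E × ℂ) × ℂ => σ (y.1, b + y.2))
    (x₀ := (z₀, a)) hr0
    (fun w hw => shift_an (k1 (z₀, a) (by simpa using hη) w (by linarith)))
    (fun w hw => k3 (by rw [dist_eq_norm, add_sub_cancel_left, hw]; linarith) (by
      intro h5
      have h6 : w = 0 := by
        have h7 : b + w = b := h5
        simpa using h7
      rw [h6, norm_zero] at hw
      exact hr0.ne hw))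
  set δ' : ℝ := min δ m with hδ'
  have hδ'0 : 0 < δ' := lt_min hδ hm
  have R' := rsys_mono R (isOpen_ball (x := ((z₀, a) : E × ℂ)) (ε := δ'))
    (ball_subset_ball (min_le_left _ _))
  set N : E × ℂ → ℂ := fun x => ∏ i, (fun y : (E × ℂ) × ℂ => ρ (y.1, b + y.2)) (x, β x i) with hN
  have hNan : ∀ x ∈ ball ((z₀, a) : E × ℂ) δ', AnalyticAt ℂ N x := by
    refine R'.norm_an fun x hx w hw => shift_an (k2 x ?_ w (by linarith))
    rw [mem_ball, dist_eq_norm] at hx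
    have : δ' ≤ m := min_le_right _ _
    linarith
  have hx₀ : ((z₀, a) : E × ℂ) ∈ ball ((z₀, a) : E × ℂ) δ' := mem_ball_self hδ'0
  have e1 : (fun y : (E × ℂ) × ℂ => σ (y.1, b + y.2)) ((z₀, a), 0) = 0 := by
    show σ ((z₀, a), b + 0) = 0
    rw [add_zero]
    exact h1
  obtain ⟨i, hi⟩ := (R'.iff hx₀ (by simpa using hr0.le)).1 e1
  have hN0 : N (z₀, a) = 0 := by
    rw [hN]
    refine Finset.prod_eq_zero (Finset.mem_univ i) ?_
    show ρ ((z₀, a), b + β (z₀, a) i) = 0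
    rw [← hi, add_zero]
    exact h2
  have hNne : ∀ᶠ v in 𝓝[≠] a, N (z₀, v) ≠ 0 := by
    have h5 : ∀ᶠ v in 𝓝[≠] a, v ∈ ball a δ' :=
      Filter.Eventually.filter_mono nhdsWithin_le_nhds (ball_mem_nhds a hδ'0)
    refine (h4.and h5).mono fun v hv => ?_
    have hx : ((z₀, v) : E × ℂ) ∈ ball ((z₀, a) : E × ℂ) δ' := by
      rw [mem_ball, Prod.dist_eq, dist_self, max_lt_iff]
      exact ⟨hδ'0, hv.2⟩
    rw [hN]
    refine Finset.prod_ne_zero_iff.2 fun j _ => ?_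
    refine hv.1 (b + β (z₀, v) j) ?_ ((R'.iff hx (R'.lt _ hx j).le).2 ⟨j, rfl⟩)
    rw [add_sub_cancel_left]
    have := R'.lt _ hx j
    linarith
  have h6 := hz (hNan _ hx₀) hN0 hNne (lt_min hε hδ'0)
  have h7 : ∀ᶠ z in 𝓝 z₀, z ∈ ball z₀ δ' := ball_mem_nhds z₀ hδ'0
  refine (h6.and h7).mono ?_
  rintro z ⟨⟨v, hv, hNv⟩, hz'⟩
  have hx : ((z, v) : E × ℂ) ∈ ball ((z₀, a) : E × ℂ) δ' := by
    rw [mem_ball, Prod.dist_eq, max_lt_iff]
    exact ⟨hz', by rw [dist_eq_norm]; exact hv.trans_le (min_le_right _ _)⟩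
  rw [hN] at hNv
  obtain ⟨j, _, hj⟩ := Finset.prod_eq_zero_iff.1 hNv
  refine ⟨v, b + β (z, v) j, hv.trans_le (min_le_left _ _), ?_,
    (R'.iff hx (R'.lt _ hx j).le).2 ⟨j, rfl⟩, hj⟩
  rw [add_sub_cancel_left]
  have := R'.lt _ hx j
  linarith

end Pool.Agent.G4.K

end

section

/-!
# G4 K Nz: the norm is not `0`

Let `V ⊆ U` be an open neighbourhood of `x₀` on which the norm vanishes, and `ν x` the number of the `i` with `ρ (x, β x i) = 0`, `ν x ≥ 1`.  `∏ i, (ρ (x, β x i) + λ) = ∑ k, c k x λ ^ k` with continuous `c k` (interpolation, `norm_an`),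
`ν x = min {k | c k x ≠ 0}`.  Let `x₁ ∈ V` with `ν x₁ = ν` minimal on `V`; on `V`: `c k = 0` for `k < ν`, so the product is `λ ^ ν * Q (x, λ)` with `Q` continuous and `Q (x₁, 0) = c ν x₁ ≠ 0`.
Take `i₀` with `ρ (x₁, β x₁ i₀) = 0`; by `hd` there are points `p` near `(x₁, β x₁ i₀)` with `σ p = 0`, `ρ p ≠ 0`; at `λ = - ρ p` the product vanishes, so `Q (p.1, - ρ p) = 0`, against the continuity of `Q`.
-/

set_option autoImplicit false

open Topology Filter Metric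

namespace Pool.Agent.G4.K

open Pool.Agent.AD (Vd)

open Polynomial in
/-- `∏ i, (X + a i)` -/
private noncomputable def pp {n : ℕ} (a : Fin n → ℂ) : ℂ[X] := ∏ i, (X + C (a i))

open Polynomial in
private theorem pp_eval {n : ℕ} (a : Fin n → ℂ) (t : ℂ) : (pp a).eval t = ∏ i, (a i + t) := by
  rw [pp, eval_prod]
  refine Finset.prod_congr rfl fun i _ => ?_
  simp [add_comm]

open Polynomial in
private theorem pp_deg {n : ℕ} (a : Fin n → ℂ) : (pp a).natDegree ≤ n := by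
  rw [pp]
  refine (natDegree_prod_le _ _).trans ?_
  refine (Finset.sum_le_sum (g := fun _ => 1) fun i _ => ?_).trans (by simp)
  exact (natDegree_X_add_C _).le

open Polynomial in
/-- interpolation -/
private theorem pp_coeff {n : ℕ} (k : ℕ) : ∃ L : ℕ → ℂ, ∀ a : Fin n → ℂ, (pp a).coeff k = ∑ j ∈ Finset.range (n + 1), (∏ i, (a i + (j : ℂ))) * L j := by
  refine ⟨fun j => (Lagrange.basis (Finset.range (n + 1)) (fun j : ℕ => (j : ℂ)) j).coeff k, fun a => ?_⟩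
  have hinj : Set.InjOn (fun j : ℕ => (j : ℂ)) (Finset.range (n + 1) : Set ℕ) := fun a _ b _ h => by
    have h' : (a : ℂ) = (b : ℂ) := h
    exact_mod_cast h'
  have hdeg : (pp a).degree < (Finset.range (n + 1)).card := by
    rw [Finset.card_range]
    refine lt_of_le_of_lt degree_le_natDegree ?_
    exact_mod_cast Nat.lt_succ_of_le (pp_deg a)
  conv_lhs => rw [Lagrange.eq_interpolate hinj hdeg, Lagrange.interpolate_apply]
  rw [finsetSum_coeff]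
  refine Finset.sum_congr rfl fun j _ => ?_
  rw [coeff_C_mul, pp_eval]

open Polynomial in
private theorem pp_split {n : ℕ} (a : Fin n → ℂ) : pp a = X ^ (Finset.univ.filter fun i => a i = 0).card * ∏ i ∈ Finset.univ.filter (fun i => ¬ a i = 0), (X + C (a i)) := by
  rw [pp, ← Finset.prod_filter_mul_prod_filter_not Finset.univ (fun i => a i = 0)]
  congr 1
  rw [← Finset.prod_const]
  refine Finset.prod_congr rfl fun i hi => ?_
  rw [(Finset.mem_filter.1 hi).2]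
  simp

open Polynomial in
private theorem pp_ne {n : ℕ} (a : Fin n → ℂ) : (pp a).coeff (Finset.univ.filter fun i => a i = 0).card ≠ 0 := by
  rw [pp_split a]
  have h := coeff_X_pow_mul (∏ i ∈ Finset.univ.filter (fun i => ¬ a i = 0), (X + C (a i))) (Finset.univ.filter fun i => a i = 0).card 0
  rw [zero_add] at h
  rw [h, coeff_zero_eq_eval_zero, eval_prod, Finset.prod_ne_zero_iff]
  intro i hi
  simpa using (Finset.mem_filter.1 hi).2

open Polynomial in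
private theorem pp_dvd {n : ℕ} (a : Fin n → ℂ) {m : ℕ} (hm : m ≤ (Finset.univ.filter fun i => a i = 0).card) (t : ℂ) :
    ∏ i, (a i + t) = t ^ m * ∑ k ∈ Finset.range (n + 1), (pp a).coeff (k + m) * t ^ k := by
  obtain ⟨q, hq⟩ : (X : ℂ[X]) ^ m ∣ pp a := by
    rw [pp_split a]
    exact (pow_dvd_pow _ hm).mul_right _
  have h1 : ∀ k, (pp a).coeff (k + m) = q.coeff k := fun k => by rw [hq, coeff_X_pow_mul]
  have h2 : q.natDegree < n + 1 := by
    rcases eq_or_ne q 0 with h | h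
    · simp [h]
    · have h3 := pp_deg a
      rw [hq, natDegree_mul (pow_ne_zero _ X_ne_zero) h, natDegree_X_pow] at h3
      omega
  simp only [h1]
  rw [← eval_eq_sum_range' h2, ← pp_eval, hq, eval_mul, eval_pow, eval_X]

variable {E : Type} [NormedAddCommGroup E] [NormedSpace ℂ E] [FiniteDimensional ℂ E] {U : Set E} {r : ℝ} {σ : E × ℂ → ℂ} {n : ℕ} {β : E → Fin n → ℂ}

theorem RSys.norm_ne (R : RSys U r σ β) {ρ : E × ℂ → ℂ} (hρ : ∀ x ∈ U, ∀ w : ℂ, ‖w‖ ≤ r → AnalyticAt ℂ ρ (x, w))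
    (hd : ∀ x ∈ U, ∀ w : ℂ, ‖w‖ < r → σ (x, w) = 0 → ∃ᶠ p in 𝓝 (x, w), σ p = 0 ∧ ρ p ≠ 0) {x₀ : E} (hx₀ : x₀ ∈ U) : ∃ᶠ x in 𝓝 x₀, ∏ i, ρ (x, β x i) ≠ 0 := by
  intro hcon
  have hcon' : ∀ᶠ x in 𝓝 x₀, ∏ i, ρ (x, β x i) = 0 := hcon.mono fun x h => not_not.1 h
  obtain ⟨V, hV, hVo, hxV⟩ := _root_.eventually_nhds_iff.1 (hcon'.and (R.op.mem_nhds hx₀))
  -- the minimal number of zeros
  obtain ⟨x₁, hx₁, hmin⟩ : ∃ x₁ ∈ V, ∀ x ∈ V, (Finset.univ.filter fun i => ρ (x₁, β x₁ i) = 0).card ≤ (Finset.univ.filter fun i => ρ (x, β x i) = 0).card := by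
    have hne : (Set.image (fun x => (Finset.univ.filter fun i => ρ (x, β x i) = 0).card) V).Nonempty := ⟨_, x₀, hxV, rfl⟩
    obtain ⟨x₁, h1, h2⟩ := Nat.sInf_mem hne
    refine ⟨x₁, h1, fun x hx => ?_⟩
    have := Nat.sInf_le (Set.mem_image_of_mem (fun x => (Finset.univ.filter fun i => ρ (x, β x i) = 0).card) hx)
    simp only at h2 this
    omega
  set m := (Finset.univ.filter fun i => ρ (x₁, β x₁ i) = 0).card with hm
  have hx₁U := (hV x₁ hx₁).2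
  -- continuity of the coefficients
  have hcc : ∀ k, ContinuousAt (fun x => (pp fun i => ρ (x, β x i)).coeff k) x₁ := by
    intro k
    obtain ⟨L, hL⟩ := pp_coeff (n := n) k
    simp only [hL]
    refine tendsto_finsetSum _ fun j _ => ?_
    have := R.norm_an (F := fun p => ρ p + (j : ℂ)) (fun x hx w hw => (hρ x hx w hw).add analyticAt_const) x₁ hx₁U
    exact this.continuousAt.tendsto.mul tendsto_const_nhds
  have hQ : ContinuousAt (fun y : E × ℂ => ∑ k ∈ Finset.range (n + 1), (pp fun i => ρ (y.1, β y.1 i)).coeff (k + m) * y.2 ^ k) (x₁, (0 : ℂ)) := by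
    refine tendsto_finsetSum _ fun k _ => ?_
    have h1 : ContinuousAt (fun y : E × ℂ => (pp fun i => ρ (y.1, β y.1 i)).coeff (k + m)) (x₁, (0 : ℂ)) :=
      ContinuousAt.comp (f := fun y : E × ℂ => y.1) (g := fun x => (pp fun i => ρ (x, β x i)).coeff (k + m)) (hcc (k + m)) continuousAt_fst
    exact h1.tendsto.mul (continuousAt_snd.tendsto.pow k)
  have hQ0 : ∑ k ∈ Finset.range (n + 1), (pp fun i => ρ (x₁, β x₁ i)).coeff (k + m) * (0 : ℂ) ^ k ≠ 0 := by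
    rw [Finset.sum_eq_single 0]
    · simpa using pp_ne (fun i => ρ (x₁, β x₁ i))
    · intro k _ hk
      simp [hk]
    · intro h
      simp at h
  -- a zero
  obtain ⟨i₀, -, hi₀⟩ := Finset.prod_eq_zero_iff.1 (hV x₁ hx₁).1
  have hw := R.lt x₁ hx₁U i₀
  have hσ : σ (x₁, β x₁ i₀) = 0 := (R.iff hx₁U hw.le).2 ⟨i₀, rfl⟩
  have hf := hd x₁ hx₁U _ hw hσ
  have hρc : ContinuousAt ρ (x₁, β x₁ i₀) := (hρ x₁ hx₁U _ hw.le).continuousAt
  have hev : ∀ᶠ p : E × ℂ in 𝓝 (x₁, β x₁ i₀), ∑ k ∈ Finset.range (n + 1), (pp fun i => ρ (p.1, β p.1 i)).coeff (k + m) * (-ρ p) ^ k ≠ 0 := by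
    have h1 : Tendsto (fun p : E × ℂ => (p.1, -ρ p)) (𝓝 (x₁, β x₁ i₀)) (𝓝 (x₁, (0 : ℂ))) := by
      have h2 : Tendsto (fun p : E × ℂ => -ρ p) (𝓝 (x₁, β x₁ i₀)) (𝓝 0) := by
        have := hρc.tendsto.neg
        rwa [hi₀, neg_zero] at this
      exact continuousAt_fst.tendsto.prodMk_nhds h2
    exact (hQ.tendsto.comp h1).eventually_ne hQ0
  have hevV : ∀ᶠ p : E × ℂ in 𝓝 (x₁, β x₁ i₀), p.1 ∈ V := continuousAt_fst.eventually (hVo.mem_nhds hx₁)
  have hevr : ∀ᶠ p : E × ℂ in 𝓝 (x₁, β x₁ i₀), ‖p.2‖ < r := continuousAt_snd.norm.eventually (gt_mem_nhds hw)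
  obtain ⟨p, ⟨hp1, hp2⟩, hp3, hp4, hp5⟩ := (hf.and_eventually (hev.and (hevV.and hevr))).exists
  obtain ⟨i, hi⟩ := (R.iff (hV p.1 hp4).2 hp5.le).1 (show σ (p.1, p.2) = 0 from hp1)
  have h0 : ∏ i, (ρ (p.1, β p.1 i) + -ρ p) = 0 := by
    refine Finset.prod_eq_zero (Finset.mem_univ i) ?_
    rw [← hi]
    exact add_neg_cancel _
  rw [pp_dvd (fun i => ρ (p.1, β p.1 i)) (hmin p.1 hp4) (-ρ p)] at h0
  rcases mul_eq_zero.1 h0 with h | h
  · exact hp2 (neg_eq_zero.1 (eq_zero_of_pow_eq_zero h))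
  · exact hp3 h

end Pool.Agent.G4.K

end

section

/-!
# G4 K Co: existence of adapted coordinates

`d + 1 = k`.  A vector `e₂` with `σ (y + w e₂)` not `0` near `w = 0`; an isomorphism `ℂ^k × ℂ ≃ ℂ^(k+1)`, `(x, w) ↦ … + w e₂`; `r₂` small, `exists_rsys`; the norm `N x` of `ρ` (`norm_an`) is not `0` near `0` (`norm_ne`); `e₁ ∈ ℂ^k` with `N (v e₁)` not `0` near
`v = 0`; an isomorphism `ℂ^d × ℂ ≃ ℂ^k`, `(z, v) ↦ … + v e₁`; `r₁` small, `exists_rsys`.  Compose the isomorphisms (`RSys` is transported by the linear isomorphism of the parameters).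
-/

set_option autoImplicit false

open Topology Filter Metric

namespace Pool.Agent.G4.K

open Pool.Agent.AD (Vd)

/-- a direction in which an analytic function is not `0` -/
private theorem exists_dir {E : Type} [NormedAddCommGroup E] [NormedSpace ℂ E] {f : E → ℂ} {y : E} (hf : AnalyticAt ℂ f y) (h : ∃ᶠ z in 𝓝 y, f z ≠ 0) :
    ∃ e : E, ∀ᶠ w in 𝓝[≠] (0 : ℂ), f (y + w • e) ≠ 0 := by
  obtain ⟨r, hr, hB⟩ := Metric.eventually_nhds_iff_ball.1 hf.eventually_analyticAt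
  obtain ⟨z, hz, hzB⟩ := (h.and_eventually (ball_mem_nhds y hr)).exists
  refine ⟨z - y, ?_⟩
  have hline : ∀ w : ℂ, AnalyticAt ℂ (fun w : ℂ => y + w • (z - y)) w := fun w => by fun_prop
  set S : Set ℂ := (fun w : ℂ => y + w • (z - y)) ⁻¹' ball y r with hS
  have hSc : Convex ℝ S := by
    intro a ha b hb s t hs ht hst
    have ha' : ‖a • (z - y)‖ < r := by simpa [hS, mem_ball_iff_norm] using ha
    have hb' : ‖b • (z - y)‖ < r := by simpa [hS, mem_ball_iff_norm] using hb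
    have h1 : ‖(s • a + t • b) • (z - y)‖ ≤ s * ‖a • (z - y)‖ + t * ‖b • (z - y)‖ := by
      rw [add_smul, smul_assoc, smul_assoc]
      refine (norm_add_le _ _).trans (le_of_eq ?_)
      rw [norm_smul s (a • (z - y)), norm_smul t (b • (z - y)), Real.norm_of_nonneg hs, Real.norm_of_nonneg ht]
    have h2 : s * ‖a • (z - y)‖ + t * ‖b • (z - y)‖ < r := by
      rcases hs.eq_or_lt with h0 | h0
      · subst h0
        have : t = 1 := by linarith
        subst this; simpa using hb'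
      · nlinarith [mul_lt_mul_of_pos_left ha' h0, mul_le_mul_of_nonneg_left hb'.le ht]
    simpa [hS, mem_ball_iff_norm] using h1.trans_lt h2
  have h0S : (0 : ℂ) ∈ S := by simp [hS, hr]
  have h1S : (1 : ℂ) ∈ S := by simpa [hS] using hzB
  have han : AnalyticOnNhd ℂ (fun w : ℂ => f (y + w • (z - y))) S := fun w hw => (hB _ hw).comp_of_eq (hline w) rfl
  rcases (han 0 h0S).eventually_eq_zero_or_eventually_ne_zero with h2 | h2
  · exact absurd (by simpa using han.eqOn_zero_of_preconnected_of_eventuallyEq_zero hSc.isPreconnected h0S h2 h1S) hz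
  · exact h2

/-- linear coordinates `(x, w) ↦ … + w e` -/
private theorem exists_coord {E : Type} [NormedAddCommGroup E] [NormedSpace ℂ E] [FiniteDimensional ℂ E] {m : ℕ} (hm : Module.finrank ℂ E = m + 1) {e : E} (he : e ≠ 0) :
    ∃ T : (Vd m × ℂ) ≃L[ℂ] E, ∀ w : ℂ, T (0, w) = w • e := by
  obtain ⟨W, hW⟩ := Submodule.exists_isCompl (Submodule.span ℂ {e})
  have h1 : Module.finrank ℂ (Submodule.span ℂ {e}) = 1 := finrank_span_singleton he
  have h2 : Module.finrank ℂ W = m := by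
    have := Submodule.finrank_add_eq_of_isCompl hW
    omega
  have h3 : Module.finrank ℂ (Vd m) = Module.finrank ℂ W := by rw [h2]; simp
  let A : Vd m ≃ₗ[ℂ] W := LinearEquiv.ofFinrankEq _ _ h3
  let B : ℂ ≃ₗ[ℂ] Submodule.span ℂ {e} := LinearEquiv.toSpanNonzeroSingleton ℂ E e he
  let T : (Vd m × ℂ) ≃ₗ[ℂ] E := (A.prodCongr B).trans (Submodule.prodEquivOfIsCompl W (Submodule.span ℂ {e}) hW.symm)
  refine ⟨T.toContinuousLinearEquiv, fun w => ?_⟩
  have h4 : (B w : E) = w • e := by simp [B]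
  simp [T, h4]

/-- a small radius -/
private theorem exists_rad {f : ℂ → Prop} (h : ∀ᶠ w in 𝓝[≠] (0 : ℂ), f w) {c : ℝ} (hc : 0 < c) : ∃ r : ℝ, 0 < r ∧ r < c ∧ ∀ w : ℂ, ‖w‖ = r → f w := by
  rw [eventually_nhdsWithin_iff, Metric.eventually_nhds_iff_ball] at h
  obtain ⟨t, ht, h⟩ := h
  refine ⟨min t c / 2, by positivity, ?_, fun w hw => h w ?_ ?_⟩
  · have := min_le_right t c
    have := lt_min ht hc
    linarith
  · rw [mem_ball_zero_iff, hw]
    have := min_le_left t c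
    have := lt_min ht hc
    linarith
  · intro h0
    rw [h0, norm_zero] at hw
    have := lt_min ht hc
    linarith

private theorem RSys.mono {E : Type} [NormedAddCommGroup E] [NormedSpace ℂ E] {U U' : Set E} {r : ℝ} {σ : E × ℂ → ℂ} {n : ℕ} {β : E → Fin n → ℂ} (R : RSys U r σ β) (h : U' ⊆ U) (ho : IsOpen U') :
    RSys U' r σ β :=
  ⟨ho, R.pos, fun x hx => R.an x (h hx), fun x hx => R.ne x (h hx), fun x hx => R.lt x (h hx), fun x hx => R.fac x (h hx)⟩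

theorem exists_lc {k d : ℕ} (hk : d + 1 = k) {σ ρ : Vd (k + 1) → ℂ} {y : Vd (k + 1)} (hσ : AnalyticAt ℂ σ y) (hρ : AnalyticAt ℂ ρ y) (h1 : σ y = 0) (h2 : ρ y = 0)
    (h3 : ∃ᶠ z in 𝓝 y, σ z ≠ 0) (h4 : ∀ᶠ z in 𝓝 y, σ z = 0 → ∃ᶠ z' in 𝓝 z, σ z' = 0 ∧ ρ z' ≠ 0) {ε : ℝ} (hε : 0 < ε) :
    ∃ (L : ((Vd d × ℂ) × ℂ) ≃L[ℂ] Vd (k + 1)) (δ r₁ r₂ : ℝ) (U : Set (Vd d × ℂ)) (n₁ n₂ : ℕ) (α : Vd d → Fin n₁ → ℂ) (β : Vd d × ℂ → Fin n₂ → ℂ),
      Lc (fun p => σ (y + L p)) (fun p => ρ (y + L p)) δ r₁ r₂ U α β ∧ ∀ p : (Vd d × ℂ) × ℂ, ‖p.1.1‖ < δ → ‖p.1.2‖ ≤ r₁ → ‖p.2‖ ≤ r₂ → ‖L p‖ < ε := by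
  obtain ⟨e₂, he₂⟩ := exists_dir hσ h3
  have hne₂ : e₂ ≠ 0 := by
    rintro rfl
    obtain ⟨w, hw⟩ := he₂.exists
    simp [h1] at hw
  obtain ⟨T₂, hT₂⟩ := exists_coord (m := k) (by simp) hne₂
  -- the neighbourhood in which everything happens
  obtain ⟨η, hη, hB⟩ := Metric.eventually_nhds_iff_ball.1 ((hσ.eventually_analyticAt.and hρ.eventually_analyticAt).and h4)
  have hcont : ∀ᶠ p in 𝓝 (0 : Vd k × ℂ), ‖T₂ p‖ < min η ε := by
    have : Tendsto (fun p => ‖T₂ p‖) (𝓝 0) (𝓝 0) := by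
      have := (T₂.continuous.norm).tendsto (0 : Vd k × ℂ)
      simpa using this
    exact this.eventually (gt_mem_nhds (lt_min hη hε))
  obtain ⟨c₂, hc₂, hcB⟩ := Metric.eventually_nhds_iff_ball.1 hcont
  have hcB' : ∀ (x : Vd k) (w : ℂ), ‖x‖ < c₂ → ‖w‖ < c₂ → ‖T₂ (x, w)‖ < min η ε := fun x w hx hw =>
    hcB (x, w) (by rw [mem_ball_zero_iff, Prod.norm_def]; exact max_lt hx hw)
  obtain ⟨r₂, hr₂, hr₂c, hr₂n⟩ := exists_rad he₂ hc₂
  have hmem : ∀ (x : Vd k) (w : ℂ), ‖x‖ < c₂ → ‖w‖ ≤ r₂ → y + T₂ (x, w) ∈ ball y η := fun x w hx hw => by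
    rw [mem_ball_iff_norm, add_sub_cancel_left]
    exact (hcB' x w hx (hw.trans_lt hr₂c)).trans_le (min_le_left _ _)
  have haff : ∀ p : Vd k × ℂ, AnalyticAt ℂ (fun p => y + T₂ p) p := fun p => analyticAt_const.add (T₂.analyticAt p)
  have hσa : ∀ (x : Vd k) (w : ℂ), ‖x‖ < c₂ → ‖w‖ ≤ r₂ → AnalyticAt ℂ (fun p => σ (y + T₂ p)) (x, w) := fun x w hx hw =>
    ((hB _ (hmem x w hx hw)).1.1).comp_of_eq (haff (x, w)) rfl
  have hρa : ∀ (x : Vd k) (w : ℂ), ‖x‖ < c₂ → ‖w‖ ≤ r₂ → AnalyticAt ℂ (fun p => ρ (y + T₂ p)) (x, w) := fun x w hx hw =>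
    ((hB _ (hmem x w hx hw)).1.2).comp_of_eq (haff (x, w)) rfl
  have h0c : ‖(0 : Vd k)‖ < c₂ := by simpa using hc₂
  obtain ⟨δ₂, n₂, β, hδ₂, R₂⟩ := exists_rsys (σ := fun p : Vd k × ℂ => σ (y + T₂ p)) (x₀ := 0) hr₂ (fun w hw => hσa 0 w h0c hw) (fun w hw => by
    simp only [hT₂]; exact hr₂n w hw)
  -- shrink the parameters
  set c : ℝ := min δ₂ c₂ with hc
  have hcpos : 0 < c := lt_min hδ₂ hc₂
  have hcx : ∀ x : Vd k, x ∈ ball (0 : Vd k) c → ‖x‖ < c₂ := fun x hx => (mem_ball_zero_iff.1 hx).trans_le (min_le_right _ _)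
  have R₂' : RSys (ball (0 : Vd k) c) r₂ (fun p : Vd k × ℂ => σ (y + T₂ p)) β := R₂.mono (ball_subset_ball (min_le_left _ _)) isOpen_ball
  have hρU : ∀ x ∈ ball (0 : Vd k) c, ∀ w : ℂ, ‖w‖ ≤ r₂ → AnalyticAt ℂ (fun p => ρ (y + T₂ p)) (x, w) := fun x hx w hw => hρa x w (hcx x hx) hw
  have hdU : ∀ x ∈ ball (0 : Vd k) c, ∀ w : ℂ, ‖w‖ < r₂ → σ (y + T₂ (x, w)) = 0 → ∃ᶠ p in 𝓝 (x, w), σ (y + T₂ p) = 0 ∧ ρ (y + T₂ p) ≠ 0 := by
    intro x hx w hw h0
    have h5 := (hB _ (hmem x w (hcx x hx) hw.le)).2 h0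
    -- transport along the homeomorphism
    have h6 : Tendsto (fun z => T₂.symm (z - y)) (𝓝 (y + T₂ (x, w))) (𝓝 (x, w)) := by
      have : Continuous fun z => T₂.symm (z - y) := T₂.symm.continuous.comp (continuous_id.sub continuous_const)
      have h7 := this.tendsto (y + T₂ (x, w))
      simpa using h7
    refine h6.frequently (h5.mono fun z' hz' => ?_)
    simpa using hz'
  have h0U : (0 : Vd k) ∈ ball (0 : Vd k) c := by simpa using hcpos
  -- the norm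
  have hNan : ∀ x ∈ ball (0 : Vd k) c, AnalyticAt ℂ (fun x => ∏ j, ρ (y + T₂ (x, β x j))) x := R₂'.norm_an (F := fun p => ρ (y + T₂ p)) hρU
  have hNne : ∃ᶠ x in 𝓝 (0 : Vd k), ∏ j, ρ (y + T₂ (x, β x j)) ≠ 0 := R₂'.norm_ne (ρ := fun p => ρ (y + T₂ p)) hρU hdU h0U
  obtain ⟨e₁, he₁⟩ := exists_dir (hNan 0 h0U) hNne
  have hN0 : ∏ j, ρ (y + T₂ ((0 : Vd k), β 0 j)) = 0 := by
    obtain ⟨j, hj⟩ := (R₂'.iff h0U (w := 0) (by simpa using hr₂.le)).1 (by
      have : T₂ ((0 : Vd k), (0 : ℂ)) = 0 := by rw [hT₂]; simp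
      simp only [this, add_zero, h1])
    refine Finset.prod_eq_zero (Finset.mem_univ j) ?_
    rw [← hj, hT₂]
    simpa using h2
  have hne₁ : e₁ ≠ 0 := by
    rintro rfl
    obtain ⟨w, hw⟩ := he₁.exists
    simp only [smul_zero, add_zero] at hw
    exact hw hN0
  obtain ⟨T₁, hT₁⟩ := exists_coord (m := d) (E := Vd k) (by simp [hk]) hne₁
  have hcont₁ : ∀ᶠ p in 𝓝 (0 : Vd d × ℂ), ‖T₁ p‖ < c := by
    have : Tendsto (fun p => ‖T₁ p‖) (𝓝 0) (𝓝 0) := by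
      have := (T₁.continuous.norm).tendsto (0 : Vd d × ℂ)
      simpa using this
    exact this.eventually (gt_mem_nhds hcpos)
  obtain ⟨c₁, hc₁, hcB₁⟩ := Metric.eventually_nhds_iff_ball.1 hcont₁
  have hcB₁' : ∀ (z : Vd d) (v : ℂ), ‖z‖ < c₁ → ‖v‖ < c₁ → T₁ (z, v) ∈ ball (0 : Vd k) c := fun z v hz hv => by
    rw [mem_ball_zero_iff]
    exact hcB₁ (z, v) (by rw [mem_ball_zero_iff, Prod.norm_def]; exact max_lt hz hv)
  obtain ⟨r₁, hr₁, hr₁c, hr₁n⟩ := exists_rad he₁ hc₁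
  have hNan₁ : ∀ (z : Vd d) (v : ℂ), ‖z‖ < c₁ → ‖v‖ ≤ r₁ → AnalyticAt ℂ (fun x : Vd d × ℂ => ∏ j, ρ (y + T₂ (T₁ x, β (T₁ x) j))) (z, v) := fun z v hz hv =>
    (hNan _ (hcB₁' z v hz (hv.trans_lt hr₁c))).comp (T₁.analyticAt (z, v))
  obtain ⟨δ₁, n₁, α, hδ₁, R₁⟩ := exists_rsys (σ := fun x : Vd d × ℂ => ∏ j, ρ (y + T₂ (T₁ x, β (T₁ x) j))) (x₀ := 0) hr₁
    (fun v hv => hNan₁ 0 v (by simpa using hc₁) hv) (fun v hv => by
      have := hr₁n v hv
      simp only [zero_add] at this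
      simpa only [hT₁] using this)
  refine ⟨(T₁.prodCongr (ContinuousLinearEquiv.refl ℂ ℂ)).trans T₂, min δ₁ c₁, r₁, r₂, T₁ ⁻¹' ball 0 c, n₁, n₂, α, fun x => β (T₁ x), ⟨lt_min hδ₁ hc₁, ?_, ?_, ?_, ?_⟩, ?_⟩
  · intro z hz v hv
    exact hcB₁' z v ((mem_ball_zero_iff.1 hz).trans_le (min_le_right _ _)) (hv.trans_lt hr₁c)
  · refine ⟨isOpen_ball.preimage T₁.continuous, hr₂, fun x hx w hw => ?_, fun x hx w hw => ?_, fun x hx i => R₂'.lt _ hx i, fun x hx => R₂'.fac _ hx⟩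
    · have h5 := R₂'.an (T₁ x) hx w hw
      exact h5.comp_of_eq ((T₁.prodCongr (ContinuousLinearEquiv.refl ℂ ℂ)).analyticAt (x, w)) rfl
    · exact R₂'.ne (T₁ x) hx w hw
  · intro x hx w hw
    have h5 := hρU (T₁ x) hx w hw
    exact h5.comp_of_eq ((T₁.prodCongr (ContinuousLinearEquiv.refl ℂ ℂ)).analyticAt (x, w)) rfl
  · exact R₁.mono (ball_subset_ball (min_le_left _ _)) isOpen_ball
  · intro p hp1 hp2 hp3
    have h5 : T₁ p.1 ∈ ball (0 : Vd k) c := hcB₁' p.1.1 p.1.2 (hp1.trans_le (min_le_right _ _)) (hp2.trans_lt hr₁c)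
    exact (hcB' (T₁ p.1) p.2 (hcx _ h5) (hp3.trans_lt hr₂c)).trans_le (min_le_right _ _)

end Pool.Agent.G4.K

end
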