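import Pool.Agent.H94.PX2.G4.Simp
import Pool.Agent.H94.PX2.M15
import Pool.Agent.H94.PX2.M26
import Pool.Agent.H94.PX2.M33
import Pool.Agent.H94.PX2.M39
import Pool.Agent.H94.PX2.M51

/-! The parts of this file: G4.RE.R2, H13.CV.Lgt, HE.Long, HE.Circ, G3.A.Defs, PX.NoR. -/

section

/-!
# G4 RE R2: a double zero splits

If `∂ₜ g (x, t) ≠ 0` then `g (x', ·)` is injective near `t` for `x'` near `x` (strict differentiability).  `exists_rsys` for `(x', w) ↦ s (x', t + w)` at `x` with a small radius: at `x' = x` all zeros are `0`, so `s (x, t + w) = w ^ n * h w`, `h 0 ≠ 0`, and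
`n ≥ 2` by `h0`, `hd`; for `x'` near `x` with `c x' ≠ 0` the zeros `β x' 0`, `β x' 1` are different (otherwise the derivative is `0` there, against `h1`), and both are zeros of `g (x', t + ·)` (`hgs`).
-/

set_option autoImplicit false

open Topology Filter Metric

namespace Pool.Agent.G4.RE

open Pool.Agent.G4.K (RSys)

variable {E : Type} [NormedAddCommGroup E] [NormedSpace ℂ E] [FiniteDimensional ℂ E]

/-- a double zero: the derivative vanishes -/
private theorem r2_dbl {F h : ℂ → ℂ} {n : ℕ} {b : Fin n → ℂ} {i j : Fin n} (hij : i ≠ j) (hb : b i = b j) (hh : DifferentiableAt ℂ h (b i)) (hF : ∀ᶠ w in 𝓝 (b i), F w = (∏ k, (w - b k)) * h w) :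
    deriv F (b i) = 0 := by
  have h1 : F =ᶠ[𝓝 (b i)] fun w => (w - b i) * ((w - b i) * ((∏ k ∈ (Finset.univ.erase i).erase j, (w - b k)) * h w)) := by
    filter_upwards [hF] with w hw
    rw [hw, ← Finset.mul_prod_erase Finset.univ (fun k => w - b k) (Finset.mem_univ i), ← Finset.mul_prod_erase (Finset.univ.erase i) (fun k => w - b k) (Finset.mem_erase.2 ⟨hij.symm, Finset.mem_univ j⟩), ← hb]
    ring
  rw [h1.deriv_eq]
  have h2 : DifferentiableAt ℂ (fun w => (w - b i) * ((∏ k ∈ (Finset.univ.erase i).erase j, (w - b k)) * h w)) (b i) := by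
    refine (differentiableAt_id.sub_const _).mul (DifferentiableAt.mul ?_ hh)
    refine DifferentiableAt.fun_finsetProd fun k _ => differentiableAt_id.sub_const _
  have h3 : HasDerivAt (fun w : ℂ => w - b i) 1 (b i) := (hasDerivAt_id _).sub_const _
  have h4 := (h3.mul h2.hasDerivAt).deriv
  refine h4.trans ?_
  simp

omit [FiniteDimensional ℂ E] in
/-- injectivity of `g (x', ·)` near `t` -/
private theorem r2_inj {g : E × ℂ → ℂ} {x : E} {t : ℂ} (hg : AnalyticAt ℂ g (x, t)) (hd : deriv (fun t => g (x, t)) t ≠ 0) :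
    ∃ η > 0, ∀ x' : E, ‖x' - x‖ < η → ∀ a b : ℂ, ‖a - t‖ < η → ‖b - t‖ < η → g (x', a) = 0 → g (x', b) = 0 → a = b := by
  have h1 : HasStrictFDerivAt g (fderiv ℂ g (x, t)) (x, t) := hg.hasStrictFDerivAt
  have h2 : deriv (fun t => g (x, t)) t = fderiv ℂ g (x, t) (0, 1) := by
    have h3 : HasDerivAt (fun t : ℂ => (x, t)) ((0 : E), (1 : ℂ)) t := (hasDerivAt_const t x).prodMk (hasDerivAt_id t)
    exact (h1.hasFDerivAt.comp_hasDerivAt t h3).deriv
  rw [h2] at hd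
  have h3 : 0 < ‖fderiv ℂ g (x, t) (0, 1)‖ := norm_pos_iff.2 hd
  have h4 := h1.isLittleO.def (half_pos h3)
  rw [nhds_prod_eq] at h4
  obtain ⟨U, hU, h5⟩ := (Filter.eventually_prod_self_iff (r := fun p q : E × ℂ => ‖g p - g q - (fderiv ℂ g (x, t)) (p - q)‖ ≤ ‖fderiv ℂ g (x, t) (0, 1)‖ / 2 * ‖p - q‖)).1 h4
  obtain ⟨η, hη, h6⟩ := Metric.mem_nhds_iff.1 hU
  refine ⟨η, hη, fun x' hx' a b ha hb e1 e2 => ?_⟩
  have h7 : ∀ c : ℂ, ‖c - t‖ < η → ((x', c) : E × ℂ) ∈ U := fun c hc => h6 (by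
    rw [mem_ball, Prod.dist_eq, max_lt_iff, dist_eq_norm, dist_eq_norm]
    exact ⟨hx', hc⟩)
  have h8 := h5 (x', a) (h7 a ha) (x', b) (h7 b hb)
  have h9 : ((x', a) : E × ℂ) - (x', b) = (a - b) • ((0 : E), (1 : ℂ)) := by
    simp
  rw [e1, e2, h9, map_smul, sub_zero, zero_sub, norm_neg, norm_smul, norm_smul] at h8
  have h10 : ‖((0 : E), (1 : ℂ))‖ = 1 := by
    rw [Prod.norm_def]
    simp
  rw [h10, mul_one] at h8
  by_contra h11
  have h12 : 0 < ‖a - b‖ := norm_pos_iff.2 (sub_ne_zero.2 h11)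
  nlinarith

/-- a double zero splits -/
theorem rd_two {s g : E × ℂ → ℂ} {c : E → ℂ} {x : E} {t : ℂ} (hs : AnalyticAt ℂ s (x, t)) (h0 : s (x, t) = 0) (hz : ∀ᶠ t' in 𝓝[≠] t, s (x, t') ≠ 0) (hc : ∃ᶠ x' in 𝓝 x, c x' ≠ 0)
    (h1 : ∀ᶠ p : E × ℂ in 𝓝 (x, t), c p.1 ≠ 0 → s p = 0 → deriv (fun t => s (p.1, t)) p.2 ≠ 0) (hd : deriv (fun t => s (x, t)) t = 0) (hg : AnalyticAt ℂ g (x, t)) (hgs : ∀ᶠ p in 𝓝 (x, t), (g p = 0 ↔ s p = 0)) :
    deriv (fun t => g (x, t)) t = 0 := by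
  by_contra hgd
  obtain ⟨η₁, hη₁, k1⟩ := r2_inj hg hgd
  obtain ⟨η₂, hη₂, k2⟩ := Metric.eventually_nhds_iff.1 (hs.eventually_analyticAt.and (h1.and hgs))
  rw [eventually_nhdsWithin_iff, Metric.eventually_nhds_iff] at hz
  obtain ⟨η₃, hη₃, k3⟩ := hz
  set η : ℝ := min (min η₁ η₂) η₃ with hη
  have hη0 : 0 < η := lt_min (lt_min hη₁ hη₂) hη₃
  have m1 : η ≤ η₁ := (min_le_left _ _).trans (min_le_left _ _)
  have m2 : η ≤ η₂ := (min_le_left _ _).trans (min_le_right _ _)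
  have m3 : η ≤ η₃ := min_le_right _ _
  have hr : 0 < η / 2 := by linarith
  have hdist : ∀ x' : E, ‖x' - x‖ < η → ∀ w : ℂ, ‖w‖ < η → dist ((x', t + w) : E × ℂ) (x, t) < η₂ := by
    intro x' hx' w hw
    rw [Prod.dist_eq, max_lt_iff, dist_eq_norm, dist_eq_norm]
    exact ⟨hx'.trans_le m2, by simpa using hw.trans_le m2⟩
  have hxx : ‖x - x‖ < η := by simpa using hη0
  obtain ⟨δ, n, β, hδ, R⟩ := Pool.Agent.G4.K.exists_rsys (σ := fun y : E × ℂ => s (y.1, t + y.2)) (x₀ := x) hr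
    (fun w hw => by
      have h2 : AnalyticAt ℂ s (x, t + w) := (k2 (hdist x hxx w (by linarith))).1
      have h3 : AnalyticAt ℂ (fun y : E × ℂ => ((y.1, t + y.2) : E × ℂ)) (x, w) := analyticAt_fst.prod (analyticAt_const.add analyticAt_snd)
      exact AnalyticAt.fun_comp (g := s) (f := fun y : E × ℂ => ((y.1, t + y.2) : E × ℂ)) h2 h3)
    (fun w hw => k3 (by rw [dist_eq_norm, add_sub_cancel_left, hw]; linarith) (by
      intro h5
      have h6 : w = 0 := by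
        have h7 : t + w = t := h5
        simpa using h7
      rw [h6, norm_zero] at hw
      exact hr.ne hw))
  have hzero : ∀ x' ∈ ball x δ, ∀ i, s (x', t + β x' i) = 0 := fun x' hx' i => (R.iff hx' (R.lt x' hx' i).le).2 ⟨i, rfl⟩
  have hshift : ∀ (x' : E) (w : ℂ), deriv (fun w => s (x', t + w)) w = deriv (fun t => s (x', t)) (t + w) := fun x' w => by
    rw [← deriv_comp_const_add]
  have hx : x ∈ ball x δ := mem_ball_self hδ
  -- at `x` all the zeros are `0`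
  have hb0 : ∀ i, β x i = 0 := by
    intro i
    by_contra h2
    refine k3 (y := t + β x i) ?_ ?_ (hzero x hx i)
    · rw [dist_eq_norm, add_sub_cancel_left]
      have := R.lt x hx i
      linarith
    · simpa using h2
  obtain ⟨h, f1, f2⟩ := R.fac x hx
  have hn : 2 ≤ n := by
    by_contra h2
    have h3 : n = 0 ∨ n = 1 := by omega
    rcases h3 with h3 | h3
    · subst h3
      have h4 := f2 0 (by simpa using hr.le)
      simp only [Finset.univ_eq_empty, Finset.prod_empty, one_mul, add_zero] at h4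
      exact (f1 0 (by simpa using hr.le)).2 (h4.symm.trans h0)
    · subst h3
      have h4 : (fun w => s (x, t + w)) =ᶠ[𝓝 0] fun w => w * h w := by
        filter_upwards [ball_mem_nhds (0 : ℂ) hr] with w hw
        have h5 := f2 w (mem_ball_zero_iff.1 hw).le
        simp only [Fin.prod_univ_one, hb0, sub_zero] at h5
        exact h5
      have h6 := h4.deriv_eq
      rw [hshift, add_zero, hd] at h6
      have h7 : HasDerivAt (fun w : ℂ => w * h w) (1 * h 0 + 0 * deriv h 0) 0 :=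
        (hasDerivAt_id (0 : ℂ)).mul (f1 0 (by simpa using hr.le)).1.differentiableAt.hasDerivAt
      rw [h7.deriv, one_mul, zero_mul, add_zero] at h6
      exact (f1 0 (by simpa using hr.le)).2 h6.symm
  -- a near point with `c x' ≠ 0`
  obtain ⟨x', hcx, hx'⟩ := (hc.and_eventually (ball_mem_nhds x (lt_min hδ hη0))).exists
  have hxδ : x' ∈ ball x δ := ball_subset_ball (min_le_left _ _) hx'
  have hxη : ‖x' - x‖ < η := by
    rw [← dist_eq_norm]
    exact (mem_ball.1 hx').trans_le (min_le_right _ _)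
  have hlt : ∀ i, ‖β x' i‖ < η := fun i => by
    have := R.lt x' hxδ i
    linarith
  have hgz : ∀ i, g (x', t + β x' i) = 0 := fun i => ((k2 (hdist x' hxη _ (hlt i))).2.2).2 (hzero x' hxδ i)
  set i₀ : Fin n := ⟨0, by omega⟩ with hi₀
  set i₁ : Fin n := ⟨1, by omega⟩ with hi₁
  have hne : i₀ ≠ i₁ := by
    rw [hi₀, hi₁]
    simp
  have heq : β x' i₀ = β x' i₁ := by
    have h2 := k1 x' (hxη.trans_le m1) (t + β x' i₀) (t + β x' i₁) (by rw [add_sub_cancel_left]; exact (hlt _).trans_le m1) (by rw [add_sub_cancel_left]; exact (hlt _).trans_le m1) (hgz _) (hgz _)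
    exact add_left_cancel h2
  obtain ⟨h', f1', f2'⟩ := R.fac x' hxδ
  have h2 : deriv (fun w => s (x', t + w)) (β x' i₀) = 0 := by
    refine r2_dbl hne heq (f1' _ (R.lt x' hxδ i₀).le).1.differentiableAt ?_
    filter_upwards [isOpen_ball.mem_nhds (mem_ball_zero_iff.2 (R.lt x' hxδ i₀))] with w hw
    exact f2' w (mem_ball_zero_iff.1 hw).le
  rw [hshift] at h2
  exact (k2 (hdist x' hxη _ (hlt i₀))).2.1 hcx (hzero x' hxδ i₀) h2

end Pool.Agent.G4.RE

end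

section

/-!
# CV Lgt: pluricanonical forms

`pole_mul_pow`: `ω = g • η`, `0 ≤ ord (h * g ^ 1)`; the same `g`, `η`: `f * h ^ m * g ^ m = f * (h * g) ^ m`.
`lgt_of_forms`: in the definition of `IsLogGeneralType` take `r = 1`, `f = ![f₀, f₁]`.  `K` is finite over `ℂ(f₁ / f₀)` (`hK.fin`), so it is algebraic over `ℂ(f₀ / f₀, f₁ / f₀)`.
-/

set_option autoImplicit false

open Pool.Agent.H23.Fano (PrimeDivisorOver Form regularForms)
open Pool.Agent.H17LG.Variety (PoleAtMost IsLogGeneralType)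

noncomputable section

namespace Pool.Agent.H13.CV

variable {K : Type} [Field K] [Algebra ℂ K]

theorem pole_mul_pow {E : Place K} {h f : K} {ω : Form K 1} {m p : ℕ} (hh : PoleAtMost 0 E 1 h ω) (hf : 0 ≤ E.ord f + p) : PoleAtMost p E m (f * h ^ m) ω := by
  obtain ⟨g, η, hη, hω, h0⟩ := hh
  refine ⟨g, η, hη, hω, ?_⟩
  have h1 : (0 : WithTop ℤ) ≤ E.ord (h * g) := by
    simpa using h0
  have h2 : f * h ^ m * g ^ m = f * (h * g) ^ m := by
    rw [mul_pow, mul_assoc]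
  have h3 : (0 : WithTop ℤ) ≤ E.ord ((h * g) ^ m) := by
    rw [E.ord.map_pow]
    exact nsmul_nonneg h1 m
  rw [h2, E.ord.map_mul]
  calc (0 : WithTop ℤ) ≤ E.ord f + p := hf
    _ = E.ord f + 0 + p := by rw [add_zero]
    _ ≤ E.ord f + E.ord ((h * g) ^ m) + p := by
      gcongr

/-- two pluricanonical forms with a non-constant ratio -/
theorem lgt_of_forms (hK : CurveField K) {B : Place K → Prop} {ω : Form K 1} (hω : ω ≠ 0) {m : ℕ} (hm : 1 ≤ m) {f₀ f₁ : K} (hf₀ : f₀ ≠ 0)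
    (htr : Transcendental ℂ (f₁ / f₀)) (h₀ : ∀ E, (¬ B E → PoleAtMost 0 E m f₀ ω) ∧ (B E → PoleAtMost m E m f₀ ω))
    (h₁ : ∀ E, (¬ B E → PoleAtMost 0 E m f₁ ω) ∧ (B E → PoleAtMost m E m f₁ ω)) : IsLogGeneralType B := by
  refine ⟨m, hm, ω, hω, 1, ![f₀, f₁], by simpa using hf₀, ?_, ?_⟩
  · intro i E
    fin_cases i
    · exact h₀ E
    · exact h₁ E
  · have he : IntermediateField.adjoin ℂ (Set.range fun i : Fin (1 + 1) => (![f₀, f₁] : Fin 2 → K) i / (![f₀, f₁] : Fin 2 → K) 0)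
        = IntermediateField.adjoin ℂ {f₁ / f₀} := by
      apply le_antisymm
      · rw [IntermediateField.adjoin_le_iff]
        rintro _ ⟨i, rfl⟩
        fin_cases i
        · have : (f₀ / f₀ : K) ∈ IntermediateField.adjoin ℂ {f₁ / f₀} := by
            rw [div_self hf₀]
            exact one_mem _
          simpa using this
        · have : (f₁ / f₀ : K) ∈ IntermediateField.adjoin ℂ {f₁ / f₀} :=
            IntermediateField.subset_adjoin _ _ rfl
          simpa using this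
      · apply IntermediateField.adjoin.mono
        rintro _ rfl
        exact ⟨1, by simp⟩
    rw [he]
    have := hK.fin _ htr
    exact Algebra.IsAlgebraic.of_finite _ _

end Pool.Agent.H13.CV

end
end

section

/-!
# HE Long: no long curves

`claim`: for every set `J` of indices, on a long curve which starts over `Gd D δ` some `F j`, `j ∈ J`, is not small at `0`; by downward induction on `J`.  If `J` contains all ample indices this is `nosec`.  Otherwise there is an ample `i ∉ J`;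
if all `F j`, `j ∈ J`, are very small at `0` then they are small at all points over `Gd D δ'` of a large disc (`spread`), so `F i` is not small there by the claim for `J ∪ {i}`, so at all points of the disc by the maximum principle (`circ`, `psi_max`),
against `psi_grow` and `qf_le`.  The claim for `J = ∅` says that there are no long curves.
-/

set_option autoImplicit false

open Topology Filter Metric

namespace Pool.Agent.HE

open Pool.Agent.H36.BP (EN fs wd)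
open Pool.Agent.H62.EF (MN pr)
open Pool.Agent.AD (Vd)
open Pool.Agent.TG (Lat)
open Pool.Agent.G3 (wt LLift)

variable {N k q r : ℕ} {Λ : AddSubgroup (Vd (k + 1))} {D : Set (Vd (k + 1))} {X : Set (Vd (k + 1) × EN N)} {F : Fin q → Vd (k + 1) × EN N → ℂ} {d : Fin q → ℕ}
  {W : Fin q → Fin r → Vd (k + 1) →L[ℂ] ℂ}

/-- the mean value inequality -/
theorem Long_mv {h : ℂ → Vd (k + 1)} {a : Vd (k + 1)} {R η : ℝ} (hd : DifferentiableOn ℂ h (ball 0 R))
    (hη : ∀ z ∈ ball (0 : ℂ) R, ‖deriv h z - a‖ ≤ η) (x y : ℂ) (hx : x ∈ ball (0 : ℂ) R) (hy : y ∈ ball (0 : ℂ) R) :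
    ‖h y - h x - (y - x) • a‖ ≤ η * ‖y - x‖ := by
  have hdf : ∀ z ∈ ball (0 : ℂ) R, DifferentiableAt ℂ h z := fun z hz => hd.differentiableAt (isOpen_ball.mem_nhds hz)
  have h1 : ∀ z ∈ ball (0 : ℂ) R, HasDerivAt (fun z => h z - z • a) (deriv h z - a) z := by
    intro z hz
    have h2 := (hdf z hz).hasDerivAt.sub ((hasDerivAt_id z).smul_const a)
    rw [one_smul] at h2
    exact h2
  have h3 := Convex.norm_image_sub_le_of_norm_hasDerivWithin_le (f := fun z => h z - z • a) (fun z hz => (h1 z hz).hasDerivWithinAt) hη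
    (convex_ball 0 R) hx hy
  have h4 : h y - h x - (y - x) • a = (h y - y • a) - (h x - x • a) := by
    rw [sub_smul]
    abel
  rw [h4]
  exact h3

theorem Long_pos (c : Fin q → ℝ) (hc : ∀ j, 0 < c j) : ∃ m : ℝ, 0 < m ∧ ∀ j, m ≤ c j := by
  have h0 : ∀ j, 0 < (c j)⁻¹ := fun j => inv_pos.2 (hc j)
  have h1 : 0 < ∑ j, (c j)⁻¹ + 1 := by
    have := Finset.sum_nonneg fun j (_ : j ∈ Finset.univ) => (h0 j).le
    linarith
  refine ⟨(∑ j, (c j)⁻¹ + 1)⁻¹, inv_pos.2 h1, fun j => ?_⟩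
  rw [inv_le_comm₀ h1 (hc j)]
  have := Finset.single_le_sum (f := fun j => (c j)⁻¹) (fun i _ => (h0 i).le) (Finset.mem_univ j)
  linarith

/-- a long curve -/
structure Lg (X : Set (Vd (k + 1) × EN N)) (F : Fin q → Vd (k + 1) × EN N → ℂ) (A₁ A₂ R η : ℝ) (w : ℂ → EN N) (h : ℂ → Vd (k + 1)) (a : Vd (k + 1)) : Prop where
  a1 : A₁ ≤ ‖a‖
  a2 : ‖a‖ ≤ A₂
  cw : Cw X F (ball 0 R) w h
  der : ∀ z ∈ ball (0 : ℂ) R, ‖deriv h z - a‖ ≤ η

theorem Lg.shift {A₁ A₂ R η R' η' : ℝ} {w : ℂ → EN N} {h : ℂ → Vd (k + 1)} {a : Vd (k + 1)} (L : Lg X F A₁ A₂ R η w h a) {z₀ : ℂ} (hz₀ : ‖z₀‖ + R' ≤ R) (hη : η ≤ η') :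
    Lg X F A₁ A₂ R' η' (fun z => w (z₀ + z)) (fun z => h (z₀ + z)) a := by
  have hm : Set.MapsTo (fun z : ℂ => z₀ + z) (ball 0 R') (ball 0 R) := by
    intro z hz
    rw [mem_ball_zero_iff] at hz ⊢
    calc ‖z₀ + z‖ ≤ ‖z₀‖ + ‖z‖ := norm_add_le _ _
      _ < R := by linarith
  refine ⟨L.a1, L.a2, L.cw.comp (by fun_prop) hm, fun z hz => ?_⟩
  rw [deriv_comp_const_add]
  exact (L.der _ (hm hz)).trans hη

end Pool.Agent.HE

end

section

/-!
# HE Circ: circles over `Gd D δ`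

Copy of `PX/Circ`.
-/

set_option autoImplicit false

open Topology Filter Metric

namespace Pool.Agent.HE

open Pool.Agent.H36.BP (EN fs wd)
open Pool.Agent.H62.EF (MN pr)
open Pool.Agent.AD (Vd)
open Pool.Agent.TG (Lat Gd)
open Pool.Agent.G3 (wt LLift)

variable {N k q r : ℕ} {Λ : AddSubgroup (Vd (k + 1))} {D : Set (Vd (k + 1))} {X : Set (Vd (k + 1) × EN N)} {F : Fin q → Vd (k + 1) × EN N → ℂ} {d : Fin q → ℕ}
  {W : Fin q → Fin r → Vd (k + 1) →L[ℂ] ℂ}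

private theorem Circ_iso {a : Vd (k + 1)} (hi : ∀ y : Vd (k + 1), ∀ᶠ z in 𝓝[≠] (0 : ℂ), y + z • a ∉ D) (y : Vd (k + 1)) (z₀ : ℂ) :
    ∃ ε : ℝ, 0 < ε ∧ ∀ z : ℂ, z ≠ z₀ → ‖z - z₀‖ < ε → y + z • a ∉ D := by
  have h1 := hi (y + z₀ • a)
  rw [eventually_nhdsWithin_iff, Metric.eventually_nhds_iff] at h1
  obtain ⟨ε, hε, h2⟩ := h1
  refine ⟨ε, hε, fun z hz hlt => ?_⟩
  have h3 := h2 (y := z - z₀) (by rw [dist_zero_right]; exact hlt) (by
    simp only [Set.mem_compl_iff, Set.mem_singleton_iff]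
    exact sub_ne_zero.2 hz)
  have e : y + z₀ • a + (z - z₀) • a = y + z • a := by rw [sub_smul]; abel
  rwa [e] at h3

private theorem Circ_countable {a : Vd (k + 1)} (hi : ∀ y : Vd (k + 1), ∀ᶠ z in 𝓝[≠] (0 : ℂ), y + z • a ∉ D) (y : Vd (k + 1)) :
    {z : ℂ | y + z • a ∈ D}.Countable := by
  set S : Set ℂ := {z : ℂ | y + z • a ∈ D} with hS
  have hd : DiscreteTopology S := by
    rw [discreteTopology_subtype_iff]
    intro z hz
    obtain ⟨ε, hε, h⟩ := Circ_iso hi y z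
    rw [← disjoint_iff, Filter.disjoint_principal_right, mem_nhdsWithin]
    refine ⟨ball z ε, isOpen_ball, mem_ball_self hε, ?_⟩
    rintro w ⟨hw1, hw2⟩ hwS
    exact h w hw2 (by rw [← dist_eq_norm]; exact hw1) hwS
  have : Countable S := by
    have := hd
    exact countable_of_Lindelof_of_discrete
  exact this

private theorem Circ_dist {a : Vd (k + 1)} (hD : IsClosed D) {K : Set ℂ} (hK : IsCompact K) (y : Vd (k + 1)) (h : ∀ z ∈ K, y + z • a ∉ D) :
    ∃ c : ℝ, 0 < c ∧ ∀ z ∈ K, y + z • a ∈ Gd D c := by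
  have hc : IsCompact ((fun z : ℂ => y + z • a) '' K) := hK.image (by fun_prop)
  have hdis : Disjoint ((fun z : ℂ => y + z • a) '' K) D := by
    rw [Set.disjoint_left]
    rintro _ ⟨z, hz, rfl⟩
    exact h z hz
  obtain ⟨c, hc0, hd2⟩ := hdis.exists_thickenings hc hD
  refine ⟨c, hc0, fun z hz b hb => ?_⟩
  by_contra hlt
  push Not at hlt
  refine (Set.disjoint_left.1 hd2) (a := b) ?_ ?_
  · rw [mem_thickening_iff]
    exact ⟨y + z • a, ⟨z, hz, rfl⟩, by rw [dist_comm, dist_eq_norm]; exact hlt⟩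
  · rw [mem_thickening_iff]
    exact ⟨b, hb, by rw [dist_self]; exact hc0⟩

private theorem Circ_circle {a : Vd (k + 1)} (hD : IsClosed D) (hi : ∀ y : Vd (k + 1), ∀ᶠ z in 𝓝[≠] (0 : ℂ), y + z • a ∉ D) (y : Vd (k + 1)) {r₁ r₂ : ℝ} (h12 : r₁ < r₂) :
    ∃ s : ℝ, r₁ < s ∧ s < r₂ ∧ ∃ c : ℝ, 0 < c ∧ ∀ z : ℂ, ‖z‖ = s → y + z • a ∈ Gd D c := by
  have h1 : ((fun z : ℂ => ‖z‖) '' {z : ℂ | y + z • a ∈ D}).Countable := (Circ_countable hi y).image _
  have h2 : ¬ (Set.Ioo r₁ r₂).Countable := by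
    intro h
    have h3 : Set.Ioo r₁ r₂ = ∅ ∨ r₂ ≤ r₁ := by
      by_contra hcon
      push Not at hcon
      have := Cardinal.mk_Ioo_real hcon.2
      have h4 := Cardinal.le_aleph0_iff_set_countable.2 h
      rw [this] at h4
      exact absurd h4 (not_le.2 Cardinal.aleph0_lt_continuum)
    rcases h3 with h3 | h3
    · exact (Set.nonempty_Ioo.2 h12).ne_empty h3
    · linarith
  have h3 : ∃ s ∈ Set.Ioo r₁ r₂, s ∉ (fun z : ℂ => ‖z‖) '' {z : ℂ | y + z • a ∈ D} := by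
    by_contra hcon
    push Not at hcon
    exact h2 (h1.mono fun s hs => hcon s hs)
  obtain ⟨s, hs, hs2⟩ := h3
  have hK : IsCompact (sphere (0 : ℂ) s) := isCompact_sphere 0 s
  obtain ⟨c, hc, hc2⟩ := Circ_dist (a := a) hD hK y (fun z hz hzD => hs2 ⟨z, hzD, by rwa [mem_sphere_zero_iff_norm] at hz⟩)
  exact ⟨s, hs.1, hs.2, c, hc, fun z hz => hc2 z (by rwa [mem_sphere_zero_iff_norm])⟩

theorem HD.circ (P : HD Λ D X F d W) {A₁ A₂ ρ : ℝ} (hA₁ : 0 < A₁) (hρ : 0 < ρ) : ∃ δ : ℝ, 0 < δ ∧ ∀ y a : Vd (k + 1), A₁ ≤ ‖a‖ → ‖a‖ ≤ A₂ →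
    ∃ s : ℝ, 0 < s ∧ s ≤ ρ ∧ ∀ z : ℂ, ‖z‖ = s → y + z • a ∈ Gd D δ := by
  obtain ⟨R, hR, hcov⟩ := P.lat.cpt
  have hcpt : IsCompact (closedBall (0 : Vd (k + 1)) R ×ˢ (closedBall (0 : Vd (k + 1)) A₂ ∩ {a : Vd (k + 1) | A₁ ≤ ‖a‖})) :=
    (isCompact_closedBall _ _).prod ((isCompact_closedBall _ _).inter_right (isClosed_le continuous_const continuous_norm))
  have h1 : ∃ δ : ℝ, 0 < δ ∧ ∀ p ∈ closedBall (0 : Vd (k + 1)) R ×ˢ (closedBall (0 : Vd (k + 1)) A₂ ∩ {a : Vd (k + 1) | A₁ ≤ ‖a‖}),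
      ∃ s : ℝ, 0 < s ∧ s ≤ ρ ∧ ∀ z : ℂ, ‖z‖ = s → p.1 + z • p.2 ∈ Gd D δ := by
    refine hcpt.induction_on (p := fun S : Set (Vd (k + 1) × Vd (k + 1)) => ∃ δ : ℝ, 0 < δ ∧ ∀ p ∈ S,
      ∃ s : ℝ, 0 < s ∧ s ≤ ρ ∧ ∀ z : ℂ, ‖z‖ = s → p.1 + z • p.2 ∈ Gd D δ) ?_ ?_ ?_ ?_
    · exact ⟨1, one_pos, fun p hp => absurd hp (Set.notMem_empty p)⟩
    · rintro S T hST ⟨δ, hδ, hQ⟩
      exact ⟨δ, hδ, fun p hp => hQ p (hST hp)⟩
    · rintro S T ⟨δ, hδ, hQ⟩ ⟨δ', hδ', hQ'⟩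
      refine ⟨min δ δ', lt_min hδ hδ', fun p hp => ?_⟩
      rcases hp with hp | hp
      · obtain ⟨s, h1, h2, h3⟩ := hQ p hp
        exact ⟨s, h1, h2, fun z hz b hb => (min_le_left _ _).trans (h3 z hz b hb)⟩
      · obtain ⟨s, h1, h2, h3⟩ := hQ' p hp
        exact ⟨s, h1, h2, fun z hz b hb => (min_le_right _ _).trans (h3 z hz b hb)⟩
    · rintro ⟨y₀, a₀⟩ ⟨_, _, ha₀⟩
      have ha0 : a₀ ≠ 0 := norm_pos_iff.1 (hA₁.trans_le ha₀)
      obtain ⟨s, h1, h2, c, hc, h3⟩ := Circ_circle (a := a₀) P.D_closed (P.iso a₀ ha0) y₀ hρ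
      have hopen : (ball y₀ (c / 4) ×ˢ ball a₀ (c / (4 * s))) ∈ 𝓝 (y₀, a₀) :=
        prod_mem_nhds (ball_mem_nhds _ (by positivity)) (ball_mem_nhds _ (by positivity))
      refine ⟨_, mem_nhdsWithin_of_mem_nhds hopen, c / 2, by linarith, ?_⟩
      rintro ⟨y, a⟩ ⟨hy, ha⟩
      refine ⟨s, h1, h2.le, fun z hz b hb => ?_⟩
      rw [mem_ball, dist_eq_norm] at hy ha
      simp only at hy ha ⊢
      have h4 := h3 z hz b hb
      have h5 : ‖y₀ + z • a₀ - b‖ ≤ ‖y + z • a - b‖ + (‖y - y₀‖ + ‖z‖ * ‖a - a₀‖) := by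
        have e : y₀ + z • a₀ - b = (y + z • a - b) - ((y - y₀) + z • (a - a₀)) := by rw [smul_sub]; abel
        rw [e]
        refine (norm_sub_le _ _).trans ?_
        gcongr
        refine (norm_add_le _ _).trans ?_
        rw [norm_smul]
      have h6 : ‖z‖ * ‖a - a₀‖ ≤ c / 4 := by
        rw [hz]
        have h7 : s * ‖a - a₀‖ ≤ s * (c / (4 * s)) := by gcongr
        have h8 : s * (c / (4 * s)) = c / 4 := by field_simp
        linarith
      linarith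
  obtain ⟨δ, hδ, hQ⟩ := h1
  refine ⟨δ, hδ, fun y a ha1 ha2 => ?_⟩
  obtain ⟨l, hl, hlR⟩ := hcov y
  obtain ⟨s, h1, h2, h3⟩ := hQ (y - l, a) ⟨by simpa using hlR, by simpa using ha2, ha1⟩
  refine ⟨s, h1, h2, fun z hz b hb => ?_⟩
  have h4 := h3 z hz _ (P.D_inv b hb (-l) (Λ.neg_mem hl))
  have e : y - l + z • a - (b + -l) = y + z • a - b := by abel
  simp only at h4
  rwa [e] at h4

end Pool.Agent.HE

end

section

/-!
# G3 A Defs: curves over the lines of one direction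

`a` is a direction (sup norm `1`), `Bad` the set of the bad points for this direction (`Ba D B a`: points of `B` and points where `a` is tangent to `D`).

* `Hc X Λ u a y`: the entire curves over the line `y + ℂ a`, as maps to the projective space (`MN N`).
* `Frm`: finitely many forms `α j` with theta factors for `Γ ≤ Λ` (`Tht`), without common zeros outside `D` (`Sepa`); `Dec`: decay `|α j| ≤ C₀ exp (- c₀ |y|²)`.
* `NL`: normalised lifts of the curves in `Hc` (from block P).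
* `LG`: the geometry of the lines of direction `a`; `LC`: the constants `ρ`, `δ`; `Co`: the core.
* `CRL`: crossing for the lines near a line through a good point (from block X); `DA`: all data for the direction `a`.
* `Tb`, `ToE`, `Sht`: the real subspace `E`, the closure of `ℂ a`, and the sheets over `b + E`.
* `Lm`: convergence of curves `f n` over `y n + ℂ a` to a curve `g` over `y₀ + ℂ a`, locally uniformly outside `D`.
-/

set_option autoImplicit false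

open Topology Filter Metric

namespace Pool.Agent.G3.A

open Pool.Agent.H36.BP (EN fs wd)
open Pool.Agent.H14.PP (IsCone CurveAt Tan)
open Pool.Agent.H62.EF (MN pr)
open Pool.Agent.AD (Vd Chart Charts IsGerm)
open Pool.Agent.TG
open Pool.Agent.G3.C (Gc)

variable {N k : ℕ}

/-- the entire curves in `X` over the line `y + ℂ a`, as maps to the projective space -/
def Hc (X : Set (EN N)) (Λ : AddSubgroup (Vd (k + 1))) (u : EN N → Vd (k + 1)) (a y : Vd (k + 1)) : Set (ℂ → MN N) :=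
  {f | ∃ F ∈ Gc X Λ u a y, f = fun z => pr (F z)}

/-- the form `α` decays -/
def Dec {X : Set (EN N)} {Λ : AddSubgroup (Vd (k + 1))} {u : EN N → Vd (k + 1)} (α : VForm X Λ u) (c₀ C₀ : ℝ) : Prop :=
  ∀ y, ∀ x ∈ X, u x - y ∈ Λ → ∀ v : Fin (k + 2) → EN N, (∀ i, Tan X x (v i)) → (∀ i, ‖v i‖ ≤ ‖x‖) →
    ‖α.toFun y x v‖ ≤ C₀ * Real.exp (-(c₀ * ‖y‖ ^ 2))

/-- the forms `α j` have no common zero outside `D` -/
def Sepa {X : Set (EN N)} {Λ : AddSubgroup (Vd (k + 1))} {u : EN N → Vd (k + 1)} (D : Set (Vd (k + 1))) {J : ℕ} (α : Fin J → VForm X Λ u) : Prop :=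
  ∀ y ∉ D, ∀ x ∈ X, u x - y ∈ Λ → ∃ j, ∃ v : Fin (k + 2) → EN N, (∀ i, Tan X x (v i)) ∧ (α j).toFun y x v ≠ 0

/-- normalised lifts of the curves over the lines of direction `a` -/
def NL (X : Set (EN N)) (Λ : AddSubgroup (Vd (k + 1))) (u : EN N → Vd (k + 1)) (D : Set (Vd (k + 1))) (a : Vd (k + 1)) : Prop :=
  ∀ δ : ℝ, 0 < δ → ∃ c : ℝ, 0 < c ∧ ∀ y, ∀ f ∈ Hc X Λ u a y, ∀ z₀ : ℂ, ∃ F : ℂ → EN N, DifferentiableOn ℂ F (ball z₀ 2) ∧
    (∀ z ∈ ball z₀ 2, F z ∈ X ∧ f z = pr (F z) ∧ ‖F z‖ ≤ 1) ∧ ∀ z ∈ closedBall z₀ 1, y + z • a ∈ Gd D δ → c ≤ ‖F z‖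

/-- the geometry of the lines of direction `a` -/
structure LG (Λ : AddSubgroup (Vd (k + 1))) (D Bad : Set (Vd (k + 1))) (a : Vd (k + 1)) : Prop where
  norm : ‖a‖ = 1
  lat : Lat Λ
  D_closed : IsClosed D
  D_inv : ∀ y ∈ D, ∀ l ∈ Λ, y + l ∈ D
  bad_sub : Bad ⊆ D
  bad_inv : ∀ β ∈ Bad, ∀ l ∈ Λ, β + l ∈ Bad
  bad_fin : ∃ S : Set (Vd (k + 1)), S.Finite ∧ ∀ β ∈ Bad, ∃ s ∈ S, β - s ∈ Λ
  iso : ∀ y : Vd (k + 1), ∀ᶠ z in 𝓝[≠] (0 : ℂ), y + z • a ∉ D
  rank : ∃ ω : ℂ, ‖ω‖ = 1 ∧ ∀ z : ℂ, z • a ∈ Λ → ((starRingEnd ℂ) ω * z).im = 0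

/-- the core: points of distance at least `2 δ` from `D` and at least `ρ / 2` from the bad points -/
def Co (D Bad : Set (Vd (k + 1))) (δ ρ : ℝ) : Set (Vd (k + 1)) := {y | y ∈ Gd D (2 * δ) ∧ ∀ β ∈ Bad, ρ / 2 ≤ ‖y - β‖}

/-- the constants of the geometry of the lines of direction `a` -/
structure LC (D Bad : Set (Vd (k + 1))) (a : Vd (k + 1)) (ρ δ : ℝ) : Prop where
  norm : ‖a‖ = 1
  D_closed : IsClosed D
  bad_sub : Bad ⊆ D
  ρ_pos : 0 < ρ
  ρ_le : ρ ≤ 1 / 4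
  δ_pos : 0 < δ
  δ_le : 8 * δ ≤ ρ
  sep : ∀ β ∈ Bad, ∀ β' ∈ Bad, β ≠ β' → 8 * ρ ≤ ‖β - β'‖
  iso : ∀ y : Vd (k + 1), ∀ᶠ z in 𝓝[≠] (0 : ℂ), y + z • a ∉ D
  /-- the discs around the bad points contain no other hits -/
  ann : ∀ β ∈ Bad, ∀ z : ℂ, ρ / 4 ≤ ‖z‖ → ‖z‖ ≤ ρ → β + z • a ∈ Gd D (2 * δ)
  /-- small circles -/
  circ : ∀ y : Vd (k + 1), ∃ r : ℝ, 0 < r ∧ r < ρ / 2 ∧ ∀ z : ℂ, ‖z‖ = r → y + z • a ∈ Gd D (2 * δ)
  /-- circles in the core -/
  circC : ∀ y : Vd (k + 1), ∃ r : ℝ, 0 < r ∧ r ≤ 2 * ρ ∧ ∀ z : ℂ, ‖z‖ = r → y + z • a ∈ Gd D (4 * δ) ∧ ∀ β ∈ Bad, 3 / 4 * ρ ≤ ‖y + z • a - β‖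
  /-- the exact bad hits of a line are in a strip -/
  strip : ∀ y : Vd (k + 1), ∃ (ω : ℂ) (M : ℝ), ‖ω‖ = 1 ∧ ∀ z : ℂ, y + z • a ∈ Bad → |((starRingEnd ℂ) ω * z).im| ≤ M

/-- crossing for the lines near the line `p + ℂ a` -/
def CRL (X : Set (EN N)) (Λ : AddSubgroup (Vd (k + 1))) (u : EN N → Vd (k + 1)) (D : Set (Vd (k + 1))) (a p : Vd (k + 1)) : Prop :=
  ∀ η : ℝ, 0 < η → ∃ s₀ ρ₀ : ℝ, 0 < s₀ ∧ s₀ ≤ η ∧ 0 < ρ₀ ∧ ∀ δ ε ε₀ : ℝ, Cst X Λ u D δ ε ε₀ → ∃ ε₁ : ℝ, 0 < ε₁ ∧ ε₁ ≤ ε₀ ∧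
    ∀ p' ∈ ball p ρ₀, (∀ z : ℂ, s₀ / 4 ≤ ‖z‖ → ‖z‖ ≤ s₀ → p' + z • a ∈ Gd D δ) → ∀ (α : VForm X Λ u) (F H : ℂ → EN N),
      DifferentiableOn ℂ F (ball 0 (2 * s₀)) → (∀ z ∈ ball (0 : ℂ) (2 * s₀), F z ∈ X ∧ u (F z) - (p' + z • a) ∈ Λ) →
      DifferentiableOn ℂ H (ball 0 (2 * s₀)) → (∀ z ∈ ball (0 : ℂ) (2 * s₀), H z ∈ X ∧ u (H z) - (p' + z • a) ∈ Λ) →
      (∀ z : ℂ, s₀ / 4 ≤ ‖z‖ → ‖z‖ ≤ s₀ → dist (pr (F z)) (pr (H z)) ≤ ε₁) →
      ∃ J : ℂ → ℂ, DifferentiableOn ℂ J (ball 0 s₀) ∧ ∀ z : ℂ, s₀ / 4 < ‖z‖ → ‖z‖ < s₀ → J z = II α ε (p' + z • a) (pr (F z)) (pr (H z))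

/-- the data of block (A) for the direction `a` -/
structure DA (X : Set (EN N)) (Λ : AddSubgroup (Vd (k + 1))) (u : EN N → Vd (k + 1)) (D B Bad : Set (Vd (k + 1))) (a : Vd (k + 1)) {J : ℕ}
    (α : Fin J → VForm X Λ u) (c₀ C₀ ρ δ : ℝ) : Prop where
  geo : Geo X Λ u D B
  lg : LG Λ D Bad a
  lc : LC D Bad a ρ δ
  nl : NL X Λ u D a
  c_pos : 0 < c₀
  C_pos : 0 < C₀
  dec : ∀ j, Dec (α j) c₀ C₀
  sep : Sepa D α
  cr : ∀ p ∈ D, p ∉ Bad → CRL X Λ u D a p
  good : ∀ p ∈ D, p ∉ Bad → p ∉ B ∧ TransAt D p a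

end Pool.Agent.G3.A

end

section

/-!
# PX NoR: there is no such root

`ustar` (`G4/U/UStar`) with `E = {z | y + z a ∈ Bad a}` and `κ z = max_j |G_j z| ^ (d - 2) / ‖K z‖ * exp (wt W (y + z a))`, `K` from `exists_kap`; `K z ≠ 0` off `E` (`RL.simple`).  Over `Gd D δ'`: `κ ≤ 1 / c` (`grad_lo`).
At the points away from `E` the function `κ` satisfies a strict maximum principle on small circles (`kmax`); near `E` it is multiplied by `∏ (z' - e) ^ (M + 1)` (`mult`).  Normalise `‖a‖ = 1` (`G (z / ‖a‖)`), constants `ρ`, `δ` from `exists_lc` for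
`LG Λ D (Bad a) (a / ‖a‖)`.  The conclusion `κ = 0` contradicts `κ > 0`.
-/

set_option autoImplicit false

open Topology Filter Metric

namespace Pool.Agent.PX

open Pool.Agent.H36.BP (EN fs wd)
open Pool.Agent.H62.EF (MN pr)
open Pool.Agent.AD (Vd)
open Pool.Agent.TG (Lat Gd)
open Pool.Agent.G3 (wt)
open Pool.Agent.G4.A (LG LC)

variable {k d r : ℕ}

variable {Λ : AddSubgroup (Vd (k + 1))} {D : Set (Vd (k + 1))} {Bad : Vd (k + 1) → Set (Vd (k + 1))} {θ : Fin (d + 1) → Vd (k + 1) → ℂ}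
  {W : Fin r → Vd (k + 1) →L[ℂ] ℂ}

/-- the weighted norm of a vector of functions -/
noncomputable def kp (W : Fin r → Vd (k + 1) →L[ℂ] ℂ) (F : Fin 2 → ℂ → ℂ) (y a : Vd (k + 1)) (x : ℂ) : ℝ :=
  ‖(fun j => F j x : Fin 2 → ℂ)‖ * Real.exp (wt W (y + x • a))

theorem kp_nonneg (F : Fin 2 → ℂ → ℂ) (y a : Vd (k + 1)) (x : ℂ) : 0 ≤ kp W F y a x := mul_nonneg (norm_nonneg _) (Real.exp_pos _).le

private theorem nsq_add (A h : ℂ) : ‖A + h‖ ^ 2 = ‖A‖ ^ 2 + (2 * (starRingEnd ℂ) A * h).re + ‖h‖ ^ 2 := by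
  rw [Complex.sq_norm, Complex.sq_norm, Complex.sq_norm, Complex.normSq_apply, Complex.normSq_apply, Complex.normSq_apply]
  simp only [Complex.add_re, Complex.add_im, Complex.mul_re, Complex.mul_im, Complex.conj_re, Complex.conj_im, Complex.re_ofNat, Complex.im_ofNat]
  ring

/-- the weight along a line is a quadratic polynomial -/
private theorem qexp (W : Fin r → Vd (k + 1) →L[ℂ] ℂ) (y a : Vd (k + 1)) (z : ℂ) :
    ∃ L : ℂ, ∀ h : ℂ, wt W (y + (z + h) • a) = wt W (y + z • a) + (L * h).re + wt W a * ‖h‖ ^ 2 := by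
  refine ⟨∑ i, 2 * (starRingEnd ℂ) (W i (y + z • a)) * W i a, fun h => ?_⟩
  simp only [wt]
  rw [Finset.sum_mul, Complex.re_sum, Finset.sum_mul, ← Finset.sum_add_distrib, ← Finset.sum_add_distrib]
  refine Finset.sum_congr rfl fun i _ => ?_
  have e : W i (y + (z + h) • a) = W i (y + z • a) + h * W i a := by
    rw [add_smul, ← add_assoc, map_add, map_smul, smul_eq_mul]
  rw [e, nsq_add, norm_mul, mul_pow]
  have e2 : 2 * (starRingEnd ℂ) (W i (y + z • a)) * (h * W i a) = 2 * (starRingEnd ℂ) (W i (y + z • a)) * W i a * h := by ring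
  rw [e2]
  ring

/-- the maximum principle -/
theorem kmax {F : Fin 2 → ℂ → ℂ} {y a : Vd (k + 1)} {z : ℂ} {s s' : ℝ} (hs : 0 < s) (hs' : s < s') (hF : ∀ j, ∀ x ∈ closedBall z s, DifferentiableAt ℂ (F j) x)
    {g : ℂ → ℂ} (hg : DifferentiableOn ℂ g (ball z s')) {S : ℝ} (hS : ∀ w : ℂ, dist w z = s → kp W F y a w * ‖g w‖ ≤ S) :
    kp W F y a z * ‖g z‖ ≤ Real.exp (-(wt W a * s ^ 2)) * S := by
  obtain ⟨L, hL⟩ := qexp W y a z
  have hQL : ∀ x : ℂ, dist x z = s → wt W (y + x • a) = wt W (y + z • a) + (L * (x - z)).re + wt W a * s ^ 2 := by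
    intro x hx
    have h1 := hL (x - z)
    rw [add_sub_cancel] at h1
    rw [← dist_eq_norm, hx] at h1
    exact h1
  have hS0 : 0 ≤ S := by
    have h1 := hS (z + s) (by rw [dist_eq_norm, add_sub_cancel_left, Complex.norm_real, Real.norm_eq_abs, abs_of_pos hs])
    exact (mul_nonneg (kp_nonneg F y a _) (norm_nonneg _)).trans h1
  have hj : ∀ j, ‖F j z‖ * ‖g z‖ ≤ Real.exp (-wt W (y + z • a) - wt W a * s ^ 2) * S := by
    intro j
    set H : ℂ → ℂ := fun x => F j x * g x * Complex.exp (L * (x - z)) with hH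
    have hHd : DiffContOnCl ℂ H (ball z s) := by
      have h1 : ∀ x ∈ closedBall z s, DifferentiableAt ℂ H x := by
        intro x hx
        have h2 : DifferentiableAt ℂ g x := hg.differentiableAt (isOpen_ball.mem_nhds (closedBall_subset_ball hs' hx))
        have h3 : DifferentiableAt ℂ (fun x : ℂ => Complex.exp (L * (x - z))) x := by fun_prop
        exact ((hF j x hx).mul h2).mul h3
      refine ⟨fun x hx => (h1 x (ball_subset_closedBall hx)).differentiableWithinAt, ?_⟩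
      rw [closure_ball z hs.ne']
      exact fun x hx => (h1 x hx).continuousAt.continuousWithinAt
    have h4 : ‖H z‖ ≤ Real.exp (-wt W (y + z • a) - wt W a * s ^ 2) * S := by
      refine Complex.norm_le_of_forall_mem_frontier_norm_le isBounded_ball hHd (fun x hx => ?_) (subset_closure (mem_ball_self hs))
      rw [frontier_ball z hs.ne'] at hx
      have hxr : dist x z = s := mem_sphere.1 hx
      have h5 := hS x hxr
      have h6 : ‖H x‖ = ‖F j x‖ * ‖g x‖ * Real.exp (L * (x - z)).re := by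
        rw [hH]
        simp only
        rw [norm_mul, norm_mul, Complex.norm_exp]
      have h7 : (L * (x - z)).re = wt W (y + x • a) + (-wt W (y + z • a) - wt W a * s ^ 2) := by
        rw [hQL x hxr]
        ring
      rw [h6, h7, Real.exp_add]
      have h8 : ‖F j x‖ ≤ ‖(fun j => F j x : Fin 2 → ℂ)‖ := norm_le_pi_norm (fun j => F j x : Fin 2 → ℂ) j
      calc ‖F j x‖ * ‖g x‖ * (Real.exp (wt W (y + x • a)) * Real.exp (-wt W (y + z • a) - wt W a * s ^ 2))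
          ≤ ‖(fun j => F j x : Fin 2 → ℂ)‖ * ‖g x‖ * (Real.exp (wt W (y + x • a)) * Real.exp (-wt W (y + z • a) - wt W a * s ^ 2)) := by gcongr
        _ = Real.exp (-wt W (y + z • a) - wt W a * s ^ 2) * (kp W F y a x * ‖g x‖) := by
            rw [kp]
            ring
        _ ≤ Real.exp (-wt W (y + z • a) - wt W a * s ^ 2) * S := mul_le_mul_of_nonneg_left h5 (Real.exp_pos _).le
    have h5 : ‖H z‖ = ‖F j z‖ * ‖g z‖ := by
      rw [hH]
      simp only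
      rw [sub_self, mul_zero, Complex.exp_zero, mul_one, norm_mul]
    rwa [h5] at h4
  have hall : ‖(fun j => F j z : Fin 2 → ℂ)‖ * ‖g z‖ ≤ Real.exp (-wt W (y + z • a) - wt W a * s ^ 2) * S := by
    rcases eq_or_ne (g z) 0 with h0 | h0
    · rw [h0, norm_zero, mul_zero]
      positivity
    · have hg0 : 0 < ‖g z‖ := norm_pos_iff.2 h0
      rw [← le_div_iff₀ hg0, pi_norm_le_iff_of_nonneg (by positivity)]
      intro j
      rw [le_div_iff₀ hg0]
      exact hj j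
  have e : Real.exp (-wt W (y + z • a) - wt W a * s ^ 2) = Real.exp (-(wt W a * s ^ 2)) * (Real.exp (wt W (y + z • a)))⁻¹ := by
    rw [← Real.exp_neg, ← Real.exp_add]
    congr 1
    ring
  calc kp W F y a z * ‖g z‖ = (‖(fun j => F j z : Fin 2 → ℂ)‖ * ‖g z‖) * Real.exp (wt W (y + z • a)) := by
        rw [kp]
        ring
    _ ≤ (Real.exp (-wt W (y + z • a) - wt W a * s ^ 2) * S) * Real.exp (wt W (y + z • a)) := mul_le_mul_of_nonneg_right hall (Real.exp_pos _).le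
    _ = Real.exp (-(wt W a * s ^ 2)) * S := by
        rw [e]
        have := (Real.exp_pos (wt W (y + z • a))).ne'
        field_simp

private theorem fin_of_card {T : Set ℂ} {b : ℝ} (h : ∀ S : Finset ℂ, (∀ z ∈ S, z ∈ T) → (S.card : ℝ) ≤ b) : T.Finite ∧ (T.ncard : ℝ) ≤ b := by
  have hf : T.Finite := by
    by_contra hinf
    obtain ⟨S, hST, hSc⟩ := Set.Infinite.exists_subset_card_eq hinf (⌊b⌋₊ + 1)
    have h1 := h S (fun z hz => hST hz)
    rw [hSc] at h1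
    push_cast at h1
    have := Nat.lt_floor_add_one b
    linarith
  refine ⟨hf, ?_⟩
  have h1 := h hf.toFinset (fun z hz => hf.mem_toFinset.1 hz)
  rwa [← Set.ncard_eq_toFinset_card T hf] at h1

theorem few_ncard {B : Set (Vd (k + 1))} {a : Vd (k + 1)} (hL : LG Λ D B a) (y : Vd (k + 1)) {ε : ℝ} (hε : 0 < ε) :
    ∃ C : ℝ, ∀ (z : ℂ) (R : ℝ), 0 ≤ R → ({x : ℂ | y + x • a ∈ B} ∩ closedBall z R).Finite ∧
    ((({x : ℂ | y + x • a ∈ B} ∩ closedBall z R).ncard : ℕ) : ℝ) ≤ ε * R ^ 2 + C := by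
  obtain ⟨C, hC⟩ := hL.few ε hε
  refine ⟨C, fun z R hR => fin_of_card fun S hS => ?_⟩
  have h1 := hC (y + z • a) R hR (S.image fun x => x - z) (fun x hx => by
    obtain ⟨x', hx', rfl⟩ := Finset.mem_image.1 hx
    obtain ⟨h2, h3⟩ := hS x' hx'
    rw [mem_closedBall, dist_eq_norm] at h3
    have e : y + z • a + (x' - z) • a = y + x' • a := by rw [sub_smul]; abel
    exact ⟨h3, by rw [e]; exact h2⟩)
  rwa [Finset.card_image_of_injective S (fun x x' h => by simpa using h)] at h1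

/-- the product which removes the poles -/
theorem div_diff {P₁ K : ℂ → ℂ} (hP : Differentiable ℂ P₁) (hK : Differentiable ℂ K) {M : ℕ} {x : ℂ} (hM : analyticOrderAt K x ≤ (M : ℕ∞))
    (hx : K x ≠ 0 ∨ ∃ Q : ℂ → ℂ, Differentiable ℂ Q ∧ ∀ w, P₁ w = (w - x) ^ (M + 1) * Q w) : DifferentiableAt ℂ (fun w => P₁ w / K w) x := by
  rcases hx with hx | ⟨Q, hQ, hPQ⟩
  · exact (hP x).div (hK x) hx
  · have hKa : AnalyticAt ℂ K x := hK.analyticAt x
    have hne : analyticOrderAt K x ≠ ⊤ := fun h => by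
      rw [h] at hM
      exact absurd hM (by simp)
    obtain ⟨m, hm⟩ := ENat.ne_top_iff_exists.1 hne
    have hmM : m ≤ M := by
      rw [← hm] at hM
      exact_mod_cast hM
    obtain ⟨K₁, hK₁, hK₁0, hKK⟩ := hKa.analyticOrderAt_eq_natCast.1 hm.symm
    have h1 : DifferentiableAt ℂ (fun w => (w - x) ^ (M + 1 - m) * Q w / K₁ w) x := by
      refine DifferentiableAt.div (DifferentiableAt.mul (by fun_prop) (hQ x)) hK₁.differentiableAt hK₁0
    refine h1.congr_of_eventuallyEq ?_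
    filter_upwards [hKK, hK₁.continuousAt.eventually_ne hK₁0] with w hw hw0
    rw [hPQ, hw, smul_eq_mul]
    by_cases hwx : w = x
    · subst hwx
      have h2 : M + 1 - m ≠ 0 := by omega
      simp [h2]
    · have h2 : (w - x) ^ m ≠ 0 := pow_ne_zero _ (sub_ne_zero.2 hwx)
      have h3 : (w - x) ^ (M + 1) = (w - x) ^ m * (w - x) ^ (M + 1 - m) := by
        rw [← pow_add]
        congr 1
        omega
      rw [h3]
      field_simp

end Pool.Agent.PX

end
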