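import Pool.Agent.H94.PX2.M24
import Pool.Agent.H94.PX2.M27

/-! The parts of this file: G4.K.Cf, G4.RE.Alg, G4.RE.Riem, G4.K.Cb. -/

section

/-!
# G4 K Cf: the coefficients of `∏ i, (A x i + s (t - g x i))`

A polynomial in `s`, `t` of degrees `≤ n` (`n = card ι`); its coefficients are fixed linear combinations of its values at `s, t ∈ {0, …, n}` (Lagrange interpolation), so analytic in `x`.  Let `m` be the minimum over `x ∈ ball 0 δ` of the number of the
`i` with `A x i = 0`, and `Q b x` the coefficient of `s ^ m t ^ b`.  If exactly `m` of the `A x i` are `0`, the coefficient of `s ^ m` is `(∏_{A x i ≠ 0} A x i) ∏_{A x i = 0} (t - g x i)`; if more than `m` are `0`, it is `0`.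
-/

set_option autoImplicit false

open Topology Filter Metric

namespace Pool.Agent.G4.K

open Polynomial in
/-- the coefficient of `s ^ a` -/
private noncomputable def RR {ι : Type} [Fintype ι] [DecidableEq ι] (A g : ι → ℂ) (a : ℕ) : Polynomial ℂ :=
  ∑ T ∈ Finset.powersetCard a Finset.univ, (∏ i ∈ T, (X - C (g i))) * C (∏ i ∈ Finset.univ \ T, A i)

private theorem RR_eval {ι : Type} [Fintype ι] [DecidableEq ι] (A g : ι → ℂ) (a : ℕ) (t : ℂ) :
    (RR A g a).eval t = ∑ T ∈ Finset.powersetCard a Finset.univ, (∏ i ∈ T, (t - g i)) * ∏ i ∈ Finset.univ \ T, A i := by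
  unfold RR
  rw [Polynomial.eval_finsetSum]
  refine Finset.sum_congr rfl fun T _ => ?_
  rw [Polynomial.eval_mul, Polynomial.eval_C, Polynomial.eval_prod]
  congr 1
  exact Finset.prod_congr rfl fun i _ => by rw [Polynomial.eval_sub, Polynomial.eval_X, Polynomial.eval_C]

private theorem RR_sum {ι : Type} [Fintype ι] [DecidableEq ι] (A g : ι → ℂ) (s t : ℂ) :
    ∏ i, (A i + s * (t - g i)) = ∑ a ∈ Finset.range (Fintype.card ι + 1), (RR A g a).eval t * s ^ a := by
  have h1 : ∏ i, (A i + s * (t - g i)) = ∏ i, (s * (t - g i) + A i) := Finset.prod_congr rfl fun i _ => add_comm _ _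
  rw [h1, Finset.prod_add, Finset.sum_powerset, Finset.card_univ]
  refine Finset.sum_congr rfl fun a _ => ?_
  rw [RR_eval, Finset.sum_mul]
  refine Finset.sum_congr rfl fun T hT => ?_
  rw [Finset.prod_mul_distrib, Finset.prod_const, (Finset.mem_powersetCard.1 hT).2]
  ring

private theorem RR_deg {ι : Type} [Fintype ι] [DecidableEq ι] (A g : ι → ℂ) (a : ℕ) : (RR A g a).natDegree ≤ a := by
  unfold RR
  refine Polynomial.natDegree_sum_le_of_forall_le _ _ fun T hT => ?_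
  refine (Polynomial.natDegree_mul_C_le _ _).trans ?_
  refine (Polynomial.natDegree_prod_le _ _).trans ?_
  rw [← (Finset.mem_powersetCard.1 hT).2, Finset.card_eq_sum_ones]
  exact Finset.sum_le_sum fun i _ => (Polynomial.natDegree_X_sub_C (g i)).le

/-- the coefficients of the Lagrange basis -/
private noncomputable def lc (n j b : ℕ) : ℂ :=
  (Lagrange.basis (Finset.range (n + 1)) (fun j : ℕ => (j : ℂ)) j).coeff b

private theorem coeff_interp {n : ℕ} {p : Polynomial ℂ} (hp : p.natDegree ≤ n) (b : ℕ) :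
    p.coeff b = ∑ j ∈ Finset.range (n + 1), p.eval (j : ℂ) * lc n j b := by
  have h1 : p.degree < (Finset.range (n + 1)).card := by
    rw [Finset.card_range]
    exact lt_of_le_of_lt (Polynomial.natDegree_le_iff_degree_le.1 hp) (by exact_mod_cast Nat.lt_succ_self n)
  have h2 := Lagrange.eq_interpolate (s := Finset.range (n + 1)) (v := fun j : ℕ => (j : ℂ))
    (fun a _ b _ h => Nat.cast_injective h) h1
  conv_lhs => rw [h2]
  rw [Lagrange.interpolate_apply, Polynomial.finsetSum_coeff]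
  exact Finset.sum_congr rfl fun j _ => by rw [Polynomial.coeff_C_mul]; rfl

private theorem RR_coeff {ι : Type} [Fintype ι] [DecidableEq ι] (A g : ι → ℂ) {a : ℕ} (ha : a ≤ Fintype.card ι) (b : ℕ) :
    (RR A g a).coeff b = ∑ j ∈ Finset.range (Fintype.card ι + 1), (∑ k ∈ Finset.range (Fintype.card ι + 1),
      (∏ i, (A i + (k : ℂ) * ((j : ℂ) - g i))) * lc (Fintype.card ι) k a) * lc (Fintype.card ι) j b := by
  rw [coeff_interp ((RR_deg A g a).trans ha) b]
  refine Finset.sum_congr rfl fun j _ => ?_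
  congr 1
  set p : Polynomial ℂ := ∑ a ∈ Finset.range (Fintype.card ι + 1), Polynomial.C ((RR A g a).eval (j : ℂ)) * Polynomial.X ^ a with hp
  have h1 : p.natDegree ≤ Fintype.card ι := by
    rw [hp]
    refine Polynomial.natDegree_sum_le_of_forall_le _ _ fun c hc => ?_
    refine (Polynomial.natDegree_C_mul_X_pow_le _ _).trans ?_
    exact Nat.lt_succ_iff.1 (Finset.mem_range.1 hc)
  have h2 : p.coeff a = (RR A g a).eval (j : ℂ) := by
    rw [hp, Polynomial.finsetSum_coeff, Finset.sum_eq_single a]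
    · rw [Polynomial.coeff_C_mul, Polynomial.coeff_X_pow_self, mul_one]
    · intro c _ hc
      rw [Polynomial.coeff_C_mul, Polynomial.coeff_X_pow, if_neg (Ne.symm hc), mul_zero]
    · intro h
      exact absurd (Finset.mem_range.2 (Nat.lt_succ_iff.2 ha)) h
  have h3 : ∀ s : ℂ, p.eval s = ∏ i, (A i + s * ((j : ℂ) - g i)) := by
    intro s
    rw [RR_sum, hp, Polynomial.eval_finsetSum]
    exact Finset.sum_congr rfl fun c _ => by rw [Polynomial.eval_mul, Polynomial.eval_C, Polynomial.eval_pow, Polynomial.eval_X]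
  rw [← h2, coeff_interp h1 a]
  exact Finset.sum_congr rfl fun k _ => by rw [h3]

private theorem RR_zero {ι : Type} [Fintype ι] [DecidableEq ι] (A g : ι → ℂ) (J : Finset ι) (hJ : ∀ i, i ∈ J ↔ A i = 0) {a : ℕ}
    (T : Finset ι) (hT : T.card = a) (h : a < J.card ∨ (a = J.card ∧ T ≠ J)) : ∏ i ∈ Finset.univ \ T, A i = 0 := by
  have h1 : ¬ J ⊆ T := by
    intro h1
    rcases h with h | ⟨h, h'⟩
    · exact absurd (Finset.card_le_card h1) (by omega)
    · exact h' (Finset.eq_of_subset_of_card_le h1 (by omega)).symm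
  obtain ⟨i, hi, hi'⟩ := Finset.not_subset.1 h1
  exact Finset.prod_eq_zero (Finset.mem_sdiff.2 ⟨Finset.mem_univ i, hi'⟩) ((hJ i).1 hi)

open Polynomial in
private theorem RR_card {ι : Type} [Fintype ι] [DecidableEq ι] (A g : ι → ℂ) (J : Finset ι) (hJ : ∀ i, i ∈ J ↔ A i = 0) :
    RR A g J.card = (∏ i ∈ J, (X - C (g i))) * C (∏ i ∈ Finset.univ \ J, A i) := by
  unfold RR
  rw [Finset.sum_eq_single J]
  · intro T hT hne
    rw [RR_zero A g J hJ T (Finset.mem_powersetCard.1 hT).2 (Or.inr ⟨rfl, hne⟩), C_0, mul_zero]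
  · intro h
    exact absurd (Finset.mem_powersetCard.2 ⟨Finset.subset_univ J, rfl⟩) h

private theorem RR_lt {ι : Type} [Fintype ι] [DecidableEq ι] (A g : ι → ℂ) (J : Finset ι) (hJ : ∀ i, i ∈ J ↔ A i = 0) {a : ℕ}
    (ha : a < J.card) : RR A g a = 0 := by
  unfold RR
  refine Finset.sum_eq_zero fun T hT => ?_
  rw [RR_zero A g J hJ T (Finset.mem_powersetCard.1 hT).2 (Or.inl ha), Polynomial.C_0, mul_zero]

private theorem RR_top {ι : Type} [Fintype ι] [DecidableEq ι] (A g : ι → ℂ) (J : Finset ι) (hJ : ∀ i, i ∈ J ↔ A i = 0) :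
    (RR A g J.card).coeff J.card = ∏ i ∈ Finset.univ \ J, A i := by
  rw [RR_card A g J hJ, Polynomial.coeff_mul_C]
  have h1 : (∏ i ∈ J, (Polynomial.X - Polynomial.C (g i))).Monic := Polynomial.monic_prod_of_monic _ _ fun i _ => Polynomial.monic_X_sub_C _
  have h2 : (∏ i ∈ J, (Polynomial.X - Polynomial.C (g i))).natDegree = J.card := by
    rw [Polynomial.natDegree_prod_of_monic _ _ fun i _ => Polynomial.monic_X_sub_C _, Finset.card_eq_sum_ones]
    exact Finset.sum_congr rfl fun i _ => Polynomial.natDegree_X_sub_C (g i)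
  rw [← h2, h1.coeff_natDegree, one_mul]

theorem cf_alg {E : Type} [NormedAddCommGroup E] [NormedSpace ℂ E] {ι : Type} [Fintype ι] {δ : ℝ} (hδ : 0 < δ) {A g : E → ι → ℂ}
    (hP : ∀ s t : ℂ, ∀ x ∈ ball (0 : E) δ, AnalyticAt ℂ (fun x => ∏ i, (A x i + s * (t - g x i))) x) :
    ∃ (m : ℕ) (Q : ℕ → E → ℂ), m ≤ Fintype.card ι ∧ (∀ b, ∀ x ∈ ball (0 : E) δ, AnalyticAt ℂ (Q b) x) ∧ (∃ x ∈ ball (0 : E) δ, Q m x ≠ 0) ∧
      ∀ x ∈ ball (0 : E) δ, Q m x ≠ 0 → ∃ J : Finset ι, (∀ i, i ∈ J ↔ A x i = 0) ∧ J.card = m ∧ ∀ t : ℂ, ∑ b ∈ Finset.range (m + 1), Q b x * t ^ b = Q m x * ∏ i ∈ J, (t - g x i) := by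
  classical
  set Z : E → Finset ι := fun x => Finset.univ.filter fun i => A x i = 0 with hZ
  have hZm : ∀ x i, i ∈ Z x ↔ A x i = 0 := fun x i => by
    rw [hZ]
    simp
  have hex : ∃ k, ∃ x ∈ ball (0 : E) δ, (Z x).card = k := ⟨_, 0, mem_ball_self hδ, rfl⟩
  obtain ⟨x₀, hx₀, hm⟩ := Nat.find_spec hex
  have hmin : ∀ x ∈ ball (0 : E) δ, Nat.find hex ≤ (Z x).card := fun x hx => Nat.find_min' hex ⟨x, hx, rfl⟩
  set m := Nat.find hex
  have hmn : m ≤ Fintype.card ι := by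
    rw [← hm]
    exact Finset.card_le_univ _
  have hne : ∀ x, ∏ i ∈ Finset.univ \ Z x, A x i ≠ 0 := by
    intro x
    rw [Finset.prod_ne_zero_iff]
    intro i hi h0
    exact (Finset.mem_sdiff.1 hi).2 ((hZm x i).2 h0)
  refine ⟨m, fun b x => (RR (A x) (g x) m).coeff b, hmn, ?_, ⟨x₀, hx₀, ?_⟩, ?_⟩
  · intro b x hx
    have h1 : (fun x => (RR (A x) (g x) m).coeff b) = fun x => ∑ j ∈ Finset.range (Fintype.card ι + 1),
        (∑ k ∈ Finset.range (Fintype.card ι + 1), (∏ i, (A x i + (k : ℂ) * ((j : ℂ) - g x i))) * lc (Fintype.card ι) k m) *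
          lc (Fintype.card ι) j b := funext fun x => RR_coeff (A x) (g x) hmn b
    show AnalyticAt ℂ (fun x => (RR (A x) (g x) m).coeff b) x
    rw [h1]
    refine Finset.analyticAt_fun_sum _ fun j _ => ?_
    refine AnalyticAt.mul ?_ analyticAt_const
    refine Finset.analyticAt_fun_sum _ fun k _ => ?_
    exact (hP (k : ℂ) (j : ℂ) x hx).mul analyticAt_const
  · show (RR (A x₀) (g x₀) m).coeff m ≠ 0
    rw [← hm, RR_top (A x₀) (g x₀) (Z x₀) (hZm x₀)]
    exact hne x₀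
  · intro x hx hQ
    have h1 : (Z x).card = m := by
      refine le_antisymm ?_ (hmin x hx)
      by_contra h
      apply hQ
      show (RR (A x) (g x) m).coeff m = 0
      rw [RR_lt (A x) (g x) (Z x) (hZm x) (by omega), Polynomial.coeff_zero]
    refine ⟨Z x, hZm x, h1, fun t => ?_⟩
    have h2 : (RR (A x) (g x) m).coeff m = ∏ i ∈ Finset.univ \ Z x, A x i := by
      rw [← h1]
      exact RR_top (A x) (g x) (Z x) (hZm x)
    have h3 := RR_deg (A x) (g x) m
    show ∑ b ∈ Finset.range (m + 1), (RR (A x) (g x) m).coeff b * t ^ b = (RR (A x) (g x) m).coeff m * _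
    rw [← Polynomial.eval_eq_sum_range' (Nat.lt_succ_of_le h3), h2]
    have h4 : RR (A x) (g x) m = (∏ i ∈ Z x, (Polynomial.X - Polynomial.C (g x i))) * Polynomial.C (∏ i ∈ Finset.univ \ Z x, A x i) := by
      rw [← h1]
      exact RR_card (A x) (g x) (Z x) (hZm x)
    rw [h4, Polynomial.eval_mul, Polynomial.eval_C, Polynomial.eval_prod, mul_comm]
    congr 1
    exact Finset.prod_congr rfl fun i _ => by rw [Polynomial.eval_sub, Polynomial.eval_X, Polynomial.eval_C]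

end Pool.Agent.G4.K

end

section

/-!
# G4 RE Alg: the different roots

If `b` is not injective on `S` then `dd b S = 0`.  If `b` has `q` values and is injective on `S`, `S.card = q`, then `S.image b = univ.image b`, so `dd b S = ∏ p ∈ (univ.image b).offDiag, (p.1 - p.2)` and `∏ i ∈ S, (t - b i) = ∏ v ∈ univ.image b, (t - v)`;
there is such an `S`.  If `b` has fewer than `q` values, `b` is not injective on `S`.
-/

set_option autoImplicit false

namespace Pool.Agent.G4.RE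

variable {n q : ℕ} {b : Fin n → ℂ}

/-- not injective: the product of the differences is `0` -/
private theorem dd_zero {S : Finset (Fin n)} (h : ¬ Set.InjOn b S) : dd b S = 0 := by
  unfold Set.InjOn at h
  push Not at h
  obtain ⟨i, hi, j, hj, hij, hne⟩ := h
  exact Finset.prod_eq_zero (i := (i, j)) (Finset.mem_offDiag.2 ⟨hi, hj, hne⟩) (sub_eq_zero.2 hij)

private theorem img_eq {S : Finset (Fin n)} (hS : S.card = q) (h : (Finset.univ.image b).card = q) (hi : Set.InjOn b S) : S.image b = Finset.univ.image b := by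
  refine Finset.eq_of_subset_of_card_le (Finset.image_subset_image (Finset.subset_univ S)) ?_
  rw [Finset.card_image_of_injOn hi, hS, h]

private theorem dd_eq {S : Finset (Fin n)} (hS : S.card = q) (h : (Finset.univ.image b).card = q) (hi : Set.InjOn b S) :
    dd b S = ∏ p ∈ (Finset.univ.image b).offDiag, (p.1 - p.2) := by
  rw [← img_eq hS h hi]
  unfold dd
  refine Finset.prod_nbij (fun p => (b p.1, b p.2)) ?_ ?_ ?_ fun _ _ => rfl
  · rintro ⟨i, j⟩ hp
    rw [Finset.mem_offDiag] at hp ⊢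
    exact ⟨Finset.mem_image_of_mem b hp.1, Finset.mem_image_of_mem b hp.2.1, fun e => hp.2.2 (hi hp.1 hp.2.1 e)⟩
  · rintro ⟨i, j⟩ hp ⟨i', j'⟩ hp' e
    rw [Finset.mem_coe, Finset.mem_offDiag] at hp hp'
    simp only [Prod.mk.injEq] at e ⊢
    exact ⟨hi hp.1 hp'.1 e.1, hi hp.2.1 hp'.2.1 e.2⟩
  · rintro ⟨v, w⟩ hp
    rw [Finset.mem_coe, Finset.mem_offDiag] at hp
    obtain ⟨h1, h2, h3⟩ := hp
    obtain ⟨i, hi', e1⟩ := Finset.mem_image.1 h1
    obtain ⟨j, hj', e2⟩ := Finset.mem_image.1 h2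
    refine ⟨(i, j), ?_, by simp only [e1, e2]⟩
    rw [Finset.mem_coe, Finset.mem_offDiag]
    refine ⟨hi', hj', fun e => h3 ?_⟩
    rw [← e1, ← e2, show i = j from e]

private theorem exists_inj (h : (Finset.univ.image b).card = q) : ∃ S : Finset (Fin n), S.card = q ∧ Set.InjOn b S := by
  classical
  have h1 : ∀ v ∈ Finset.univ.image b, ∃ i, b i = v := fun v hv => by
    obtain ⟨i, _, e⟩ := Finset.mem_image.1 hv
    exact ⟨i, e⟩
  rcases isEmpty_or_nonempty (Fin n) with hn | hn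
  · refine ⟨∅, ?_, fun i hi => absurd hi (by simp)⟩
    rw [← h, Finset.univ_eq_empty, Finset.image_empty, Finset.card_empty, Finset.card_empty]
  · choose! g hg using h1
    refine ⟨(Finset.univ.image b).image g, ?_, ?_⟩
    · rw [Finset.card_image_of_injOn, h]
      intro v hv w hw e
      rw [← hg v hv, ← hg w hw, e]
    · intro i hi j hj e
      rw [Finset.mem_coe] at hi hj
      obtain ⟨v, hv, rfl⟩ := Finset.mem_image.1 hi
      obtain ⟨w, hw, rfl⟩ := Finset.mem_image.1 hj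
      rw [hg v hv, hg w hw] at e
      rw [e]

theorem sc_ne (h : (Finset.univ.image b).card = q) : sc q b ≠ 0 := by
  classical
  obtain ⟨S₀, h1, h2⟩ := exists_inj h
  have h3 : sc q b = ((Finset.powersetCard q Finset.univ).filter fun S : Finset (Fin n) => Set.InjOn b S).card • ∏ p ∈ (Finset.univ.image b).offDiag, (p.1 - p.2) := by
    unfold sc
    rw [← Finset.sum_filter_of_ne (p := fun S : Finset (Fin n) => Set.InjOn b S) fun S _ hS => by
      by_contra h4
      exact hS (dd_zero h4)]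
    refine Finset.sum_eq_card_nsmul fun S hS => ?_
    rw [Finset.mem_filter, Finset.mem_powersetCard] at hS
    exact dd_eq hS.1.2 h hS.2
  rw [h3]
  refine smul_ne_zero ?_ ?_
  · refine (Finset.card_pos.2 ⟨S₀, ?_⟩).ne'
    rw [Finset.mem_filter, Finset.mem_powersetCard]
    exact ⟨⟨Finset.subset_univ _, h1⟩, h2⟩
  · refine Finset.prod_ne_zero_iff.2 fun p hp => ?_
    exact sub_ne_zero.2 (Finset.mem_offDiag.1 hp).2.2

theorem sd_eq (h : (Finset.univ.image b).card = q) (t : ℂ) : sd q b t = sc q b * ∏ v ∈ Finset.univ.image b, (t - v) := by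
  unfold sd sc
  rw [Finset.sum_mul]
  refine Finset.sum_congr rfl fun S hS => ?_
  by_cases hi : Set.InjOn b S
  · rw [← img_eq (Finset.mem_powersetCard.1 hS).2 h hi, Finset.prod_image hi]
  · rw [dd_zero hi, zero_mul, zero_mul]

private theorem not_inj {S : Finset (Fin n)} (hS : S.card = q) (h : (Finset.univ.image b).card < q) : ¬ Set.InjOn b S := by
  intro hi
  have h1 := Finset.card_le_card (Finset.image_subset_image (f := b) (Finset.subset_univ S))
  rw [Finset.card_image_of_injOn hi, hS] at h1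
  omega

theorem sc_zero (h : (Finset.univ.image b).card < q) : sc q b = 0 :=
  Finset.sum_eq_zero fun _ hS => dd_zero (not_inj (Finset.mem_powersetCard.1 hS).2 h)

theorem sd_zero (h : (Finset.univ.image b).card < q) (t : ℂ) : sd q b t = 0 :=
  Finset.sum_eq_zero fun S hS => by rw [dd_zero (not_inj (Finset.mem_powersetCard.1 hS).2 h), zero_mul]

/-- bounds for the product of the different roots -/
theorem img_le {r : ℝ} (hr : 0 < r) (hb : ∀ i, ‖b i‖ ≤ r) (h : (Finset.univ.image b).card = q) (t : ℂ) :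
    ‖∏ v ∈ Finset.univ.image b, (t - v)‖ ≤ (‖t‖ + r) ^ q ∧ ‖∏ i, (t - b i)‖ ≤ (1 + ‖t‖ + r) ^ (n * n) * ‖∏ v ∈ Finset.univ.image b, (t - v)‖ ∧
      ‖∏ v ∈ Finset.univ.image b, (t - v)‖ ^ n ≤ (1 + ‖t‖ + r) ^ (n * n) * ‖∏ i, (t - b i)‖ := by
  classical
  have ht : 0 ≤ ‖t‖ := norm_nonneg t
  have hA : ∀ v ∈ Finset.univ.image b, ‖t - v‖ ≤ ‖t‖ + r := fun v hv => by
    obtain ⟨i, _, rfl⟩ := Finset.mem_image.1 hv
    exact (norm_sub_le _ _).trans (by linarith [hb i])
  have hB1 : 1 ≤ 1 + ‖t‖ + r := by linarith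
  have hA' : ∀ v ∈ Finset.univ.image b, ‖t - v‖ ≤ 1 + ‖t‖ + r := fun v hv => (hA v hv).trans (by linarith)
  have hq : q ≤ n := by
    have := Finset.card_image_le (s := (Finset.univ : Finset (Fin n))) (f := b)
    rw [h, Finset.card_univ, Fintype.card_fin] at this
    exact this
  set m : ℂ → ℕ := fun v => (Finset.univ.filter fun i => b i = v).card with hm
  have hm1 : ∀ v ∈ Finset.univ.image b, 1 ≤ m v := fun v hv => by
    obtain ⟨i, _, e⟩ := Finset.mem_image.1 hv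
    exact Finset.card_pos.2 ⟨i, Finset.mem_filter.2 ⟨Finset.mem_univ i, e⟩⟩
  have hm2 : ∀ v, m v ≤ n := fun v => by
    have := Finset.card_le_univ (Finset.univ.filter fun i => b i = v)
    rwa [Fintype.card_fin] at this
  have hP : ∏ i, (t - b i) = ∏ v ∈ Finset.univ.image b, (t - v) ^ m v := Finset.prod_comp (fun v : ℂ => t - v) b
  have hpw : ∀ k l : ℕ, k ≤ l → (1 + ‖t‖ + r) ^ k ≤ (1 + ‖t‖ + r) ^ l := fun k l hkl => pow_le_pow_right₀ hB1 hkl
  have hBq : ∏ _v ∈ Finset.univ.image b, (1 + ‖t‖ + r) ^ n ≤ (1 + ‖t‖ + r) ^ (n * n) := by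
    rw [Finset.prod_const, h, ← pow_mul]
    exact hpw _ _ (Nat.mul_le_mul le_rfl hq)
  refine ⟨?_, ?_, ?_⟩
  · rw [norm_prod, ← h, ← Finset.prod_const]
    exact Finset.prod_le_prod (fun v _ => norm_nonneg _) hA
  · rw [hP, norm_prod, norm_prod]
    calc ∏ v ∈ Finset.univ.image b, ‖(t - v) ^ m v‖ ≤ ∏ v ∈ Finset.univ.image b, ((1 + ‖t‖ + r) ^ n * ‖t - v‖) := by
          refine Finset.prod_le_prod (fun v _ => norm_nonneg _) fun v hv => ?_
          obtain ⟨k, hk⟩ := Nat.exists_eq_add_of_le' (hm1 v hv)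
          rw [norm_pow, hk, pow_succ]
          refine mul_le_mul_of_nonneg_right ?_ (norm_nonneg _)
          exact (pow_le_pow_left₀ (norm_nonneg _) (hA' v hv) k).trans (hpw _ _ (by have := hm2 v; omega))
      _ = (∏ _v ∈ Finset.univ.image b, (1 + ‖t‖ + r) ^ n) * ∏ v ∈ Finset.univ.image b, ‖t - v‖ := Finset.prod_mul_distrib
      _ ≤ _ := mul_le_mul_of_nonneg_right hBq (Finset.prod_nonneg fun v _ => norm_nonneg _)
  · rw [hP, norm_prod, norm_prod, ← Finset.prod_pow]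
    calc ∏ v ∈ Finset.univ.image b, ‖t - v‖ ^ n ≤ ∏ v ∈ Finset.univ.image b, ((1 + ‖t‖ + r) ^ n * ‖(t - v) ^ m v‖) := by
          refine Finset.prod_le_prod (fun v _ => pow_nonneg (norm_nonneg _) _) fun v hv => ?_
          rw [norm_pow]
          have h1 : ‖t - v‖ ^ n = ‖t - v‖ ^ (n - m v) * ‖t - v‖ ^ m v := by
            rw [← pow_add, Nat.sub_add_cancel (hm2 v)]
          rw [h1]
          refine mul_le_mul_of_nonneg_right ?_ (pow_nonneg (norm_nonneg _) _)
          exact (pow_le_pow_left₀ (norm_nonneg _) (hA' v hv) _).trans (hpw _ _ (Nat.sub_le _ _))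
      _ = (∏ _v ∈ Finset.univ.image b, (1 + ‖t‖ + r) ^ n) * ∏ v ∈ Finset.univ.image b, ‖(t - v) ^ m v‖ := Finset.prod_mul_distrib
      _ ≤ _ := mul_le_mul_of_nonneg_right hBq (Finset.prod_nonneg fun v _ => norm_nonneg _)

end Pool.Agent.G4.RE

end

section

/-!
# G4 RE Riem: a quotient which is bounded is holomorphic

Let `x₁` near `x₀` with `c x₁ ≠ 0`, `v = x₁ - x₀`: `z ↦ c (x₀ + z v)` is not `0` near `z = 0` (identity theorem on a disc), so it is not `0` on a small circle `‖z‖ = ρ`, and then `c (x + z v) ≠ 0` there for all `x` near `x₀`.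
`s (x, t) = (2 π i)⁻¹ ∮ N (x + z v, t) / c (x + z v) dz / z`, analytic (`H22.HF.analyticAt_circleIntegral`).  If `c x ≠ 0`: `z ↦ N (x + z v, t) / c (x + z v)` is bounded and holomorphic on the disc off finitely many points `≠ 0`, so it extends
(`Complex.differentiableOn_update_limUnder_of_bddAbove`, near each of the points), and `s (x, t) = N (x, t) / c x` by Cauchy.  If `c x = 0` both sides are `0` (`hb`).
-/

set_option autoImplicit false

open Topology Filter Metric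

namespace Pool.Agent.G4.RE

/-- Cauchy's formula at the centre for a bounded quotient. -/
private theorem riem_disc {f g : ℂ → ℂ} {ρ K : ℝ} (hρ : 0 < ρ) (hf : ∀ z ∈ closedBall (0 : ℂ) ρ, AnalyticAt ℂ f z) (hg : ∀ z ∈ closedBall (0 : ℂ) ρ, AnalyticAt ℂ g z)
    (h0 : ∀ z ∈ sphere (0 : ℂ) ρ, g z ≠ 0) (hb : ∀ᶠ z in 𝓝ˢ (closedBall (0 : ℂ) ρ), ‖f z‖ ≤ K * ‖g z‖) (hg0 : g 0 ≠ 0) :
    (∮ z in C(0, ρ), (f z / g z) / z) = 2 * Real.pi * Complex.I * (f 0 / g 0) := by
  classical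
  have hne : ∀ z ∈ closedBall (0 : ℂ) ρ, ∀ᶠ w in 𝓝[≠] z, g w ≠ 0 := by
    intro z hz
    rcases (hg z hz).eventually_eq_zero_or_eventually_ne_zero with h | h
    · exfalso
      have h1 := AnalyticOnNhd.eqOn_zero_of_preconnected_of_eventuallyEq_zero (f := g) (U := closedBall (0 : ℂ) ρ) hg
        (convex_closedBall (0 : ℂ) ρ).isPreconnected hz h
      exact hg0 (h1 (mem_closedBall_self hρ.le))
    · exact h
  set q : ℂ → ℂ := fun z => f z / g z with hq
  set G : ℂ → ℂ := fun z => if g z = 0 then limUnder (𝓝[≠] z) q else q z with hG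
  have hGd : ∀ z ∈ closedBall (0 : ℂ) ρ, DifferentiableAt ℂ G z := by
    intro z hz
    have hfz : ∀ᶠ w in 𝓝 z, AnalyticAt ℂ f w := (hf z hz).eventually_analyticAt
    have hgz : ∀ᶠ w in 𝓝 z, AnalyticAt ℂ g w := (hg z hz).eventually_analyticAt
    by_cases hz0 : g z = 0
    · have hbz : ∀ᶠ w in 𝓝 z, ‖f w‖ ≤ K * ‖g w‖ := (eventually_nhdsSet_iff_forall.1 hb) z hz
      have h1 : ∀ᶠ w in 𝓝 z, w ≠ z → g w ≠ 0 := eventually_nhdsWithin_iff.1 (hne z hz)
      obtain ⟨ε, hε, h2⟩ := Metric.eventually_nhds_iff_ball.1 (((hfz.and hgz).and hbz).and h1)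
      have hd : DifferentiableOn ℂ q (ball z ε \ {z}) := by
        intro w hw
        have h3 := h2 w hw.1
        exact (h3.1.1.1.differentiableAt.div h3.1.1.2.differentiableAt (h3.2 hw.2)).differentiableWithinAt
      have hbd : BddAbove (norm ∘ q '' (ball z ε \ {z})) := by
        refine ⟨K, ?_⟩
        rintro _ ⟨w, hw, rfl⟩
        have h3 := h2 w hw.1
        have h4 : 0 < ‖g w‖ := norm_pos_iff.2 (h3.2 hw.2)
        simp only [Function.comp, hq, norm_div]
        rw [div_le_iff₀ h4]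
        exact h3.1.2
      have h5 := Complex.differentiableOn_update_limUnder_of_bddAbove (ball_mem_nhds z hε) hd hbd
      have h6 : DifferentiableAt ℂ (Function.update q z (limUnder (𝓝[≠] z) q)) z :=
        h5.differentiableAt (ball_mem_nhds z hε)
      refine h6.congr_of_eventuallyEq ?_
      filter_upwards [ball_mem_nhds z hε] with w hw
      by_cases hwz : w = z
      · subst hwz
        rw [Function.update_self]
        simp only [hG, if_pos hz0]
      · rw [Function.update_of_ne hwz]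
        simp only [hG, if_neg ((h2 w hw).2 hwz)]
    · have h1 : ∀ᶠ w in 𝓝 z, g w ≠ 0 := (hg z hz).continuousAt.eventually_ne hz0
      have h2 : DifferentiableAt ℂ q z := (hf z hz).differentiableAt.div (hg z hz).differentiableAt hz0
      refine h2.congr_of_eventuallyEq ?_
      filter_upwards [h1] with w hw
      simp only [hG, if_neg hw]
  have hdc : DiffContOnCl ℂ G (ball 0 ρ) := by
    refine DifferentiableOn.diffContOnCl ?_
    rw [closure_ball _ hρ.ne']
    exact fun z hz => (hGd z hz).differentiableWithinAt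
  have h1 := hdc.circleIntegral_sub_inv_smul (mem_ball_self hρ)
  have h2 : (∮ z in C(0, ρ), (f z / g z) / z) = ∮ z in C(0, ρ), (z - 0)⁻¹ • G z := by
    refine circleIntegral.integral_congr hρ.le ?_
    intro z hz
    have h3 := h0 z hz
    simp only [hG, if_neg h3, hq, sub_zero, smul_eq_mul]
    rw [div_eq_mul_inv (f z / g z) z, mul_comm]
  rw [h2, h1, smul_eq_mul]
  simp only [hG, if_neg hg0, hq]

variable {E : Type} [NormedAddCommGroup E] [NormedSpace ℂ E] [FiniteDimensional ℂ E]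

theorem riem {c : E → ℂ} {N : E × ℂ → ℂ} {U : Set E} (hU : IsOpen U) {x₀ : E} (hx : x₀ ∈ U) (hc : ∀ x ∈ U, AnalyticAt ℂ c x) (hN : ∀ x ∈ U, ∀ t : ℂ, AnalyticAt ℂ N (x, t)) (hne : ∃ᶠ x in 𝓝 x₀, c x ≠ 0) {C : ℂ → ℝ}
    (hb : ∀ x ∈ U, ∀ t : ℂ, ‖N (x, t)‖ ≤ C t * ‖c x‖) : ∃ δ : ℝ, 0 < δ ∧ ball x₀ δ ⊆ U ∧ ∃ s : E × ℂ → ℂ, ∀ x ∈ ball x₀ δ, ∀ t : ℂ, AnalyticAt ℂ s (x, t) ∧ s (x, t) * c x = N (x, t) := by
  classical
  obtain ⟨R, hR, hRU⟩ := Metric.isOpen_iff.1 hU x₀ hx
  obtain ⟨x₁, hx₁c, hx₁⟩ : ∃ x₁, c x₁ ≠ 0 ∧ x₁ ∈ ball x₀ (R / 2) :=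
    (hne.and_eventually (ball_mem_nhds x₀ (half_pos hR))).exists
  obtain ⟨v, hv⟩ : ∃ v : E, v = x₁ - x₀ := ⟨_, rfl⟩
  have hvn : ‖v‖ < R / 2 := by
    rw [hv, ← dist_eq_norm]
    exact hx₁
  have hmem : ∀ x ∈ ball x₀ (R / 2), ∀ z : ℂ, ‖z‖ ≤ 1 → x + z • v ∈ U := by
    intro x hx z hz
    refine hRU ?_
    rw [mem_ball, dist_eq_norm] at hx ⊢
    have h1 : x + z • v - x₀ = (x - x₀) + z • v := by abel
    rw [h1]
    have h2 : ‖z • v‖ ≤ ‖v‖ := by
      rw [norm_smul]
      exact mul_le_of_le_one_left (norm_nonneg _) hz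
    linarith [norm_add_le (x - x₀) (z • v)]
  have hx₀ : x₀ ∈ ball x₀ (R / 2) := mem_ball_self (half_pos hR)
  have hlin : ∀ x : E, ∀ z : ℂ, AnalyticAt ℂ (fun w : ℂ => x + w • v) z := by
    intro x z
    fun_prop
  have hline : ∀ x : E, ∀ z : ℂ, x + z • v ∈ U → AnalyticAt ℂ (fun w : ℂ => c (x + w • v)) z := by
    intro x z h
    exact (hc _ h).fun_comp_of_eq (hlin x z) rfl
  have h0 : ∀ᶠ z in 𝓝[≠] (0 : ℂ), c (x₀ + z • v) ≠ 0 := by
    have h00 : x₀ + (0 : ℂ) • v ∈ U := hmem x₀ hx₀ 0 (by simp)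
    rcases (hline x₀ 0 h00).eventually_eq_zero_or_eventually_ne_zero with h | h
    · exfalso
      have h1 := AnalyticOnNhd.eqOn_zero_of_preconnected_of_eventuallyEq_zero (f := fun w : ℂ => c (x₀ + w • v))
        (U := closedBall (0 : ℂ) 1) (fun z hz => hline x₀ z (hmem x₀ hx₀ z (by simpa using hz)))
        (convex_closedBall (0 : ℂ) 1).isPreconnected (mem_closedBall_self zero_le_one) h
      have h2 : (1 : ℂ) ∈ closedBall (0 : ℂ) 1 := by simp
      have h3 := h1 h2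
      simp only [one_smul, Pi.zero_apply] at h3
      refine hx₁c ?_
      rw [← h3, hv]
      congr 1
      abel
    · exact h
  obtain ⟨ρ, hρ0, hρ1, hρ⟩ : ∃ ρ : ℝ, 0 < ρ ∧ ρ ≤ 1 ∧ ∀ z ∈ sphere (0 : ℂ) ρ, c (x₀ + z • v) ≠ 0 := by
    have h1 : ∀ᶠ z in 𝓝 (0 : ℂ), z ≠ 0 → c (x₀ + z • v) ≠ 0 := eventually_nhdsWithin_iff.1 h0
    obtain ⟨ε, hε, h2⟩ := Metric.eventually_nhds_iff_ball.1 h1
    have h3 : 0 < min (ε / 2) 1 := lt_min (half_pos hε) one_pos
    refine ⟨min (ε / 2) 1, h3, min_le_right _ _, fun z hz => ?_⟩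
    have hz' : ‖z‖ = min (ε / 2) 1 := by simpa using hz
    refine h2 z ?_ ?_
    · rw [mem_ball_zero_iff, hz']
      exact lt_of_le_of_lt (min_le_left _ _) (half_lt_self hε)
    · intro h4
      rw [h4, norm_zero] at hz'
      linarith
  have hball : ∀ z ∈ closedBall (0 : ℂ) ρ, ‖z‖ ≤ 1 := by
    intro z hz
    have h1 : ‖z‖ ≤ ρ := by simpa using hz
    linarith
  obtain ⟨δ, hδ0, hδR, hδ⟩ : ∃ δ : ℝ, 0 < δ ∧ δ ≤ R / 2 ∧ ∀ x ∈ ball x₀ δ, ∀ z ∈ sphere (0 : ℂ) ρ, c (x + z • v) ≠ 0 := by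
    have h1 : ∀ᶠ x in 𝓝 x₀, ∀ z ∈ sphere (0 : ℂ) ρ, c (x + z • v) ≠ 0 := by
      refine IsCompact.eventually_forall_of_forall_eventually (isCompact_sphere (0 : ℂ) ρ) ?_
      intro z hz
      have h2 : ContinuousAt (fun p : E × ℂ => c (p.1 + p.2 • v)) (x₀, z) := by
        have h3 : ContinuousAt c (x₀ + z • v) := (hc _ (hmem x₀ hx₀ z (hball z (sphere_subset_closedBall hz)))).continuousAt
        have h4 : ContinuousAt (fun p : E × ℂ => p.1 + p.2 • v) (x₀, z) := by fun_prop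
        exact ContinuousAt.comp (f := fun p : E × ℂ => p.1 + p.2 • v) (g := c) h3 h4
      exact h2.eventually_ne (hρ z hz)
    obtain ⟨ε, hε, h2⟩ := Metric.eventually_nhds_iff_ball.1 h1
    refine ⟨min ε (R / 2), lt_min hε (half_pos hR), min_le_right _ _, fun x hx z hz => ?_⟩
    exact h2 x (ball_subset_ball (min_le_left _ _) hx) z hz
  have hsub : ball x₀ δ ⊆ ball x₀ (R / 2) := ball_subset_ball hδR
  refine ⟨δ, hδ0, hsub.trans ((ball_subset_ball (by linarith)).trans hRU),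
    fun p => (2 * Real.pi * Complex.I)⁻¹ * ∮ z in C(0, ρ), (N (p.1 + z • v, p.2) / c (p.1 + z • v)) / z, ?_⟩
  intro x hx t
  have hx' : x ∈ ball x₀ (R / 2) := hsub hx
  have hxU : x ∈ U := by
    have h1 := hmem x hx' 0 (by simp)
    simpa using h1
  constructor
  · refine analyticAt_const.mul ?_
    refine H22.HF.analyticAt_circleIntegral
      (F := fun p : (E × ℂ) × ℂ => (N (p.1.1 + p.2 • v, p.1.2) / c (p.1.1 + p.2 • v)) / p.2) hρ0 ?_
    intro z hz
    have hz1 : ‖z‖ ≤ 1 := hball z (sphere_subset_closedBall hz)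
    have hz0 : z ≠ 0 := by
      intro h
      have h1 : ‖z‖ = ρ := by simpa using hz
      rw [h, norm_zero] at h1
      linarith
    have h5 : AnalyticAt ℂ (fun p : (E × ℂ) × ℂ => p.2) ((x, t), z) := analyticAt_snd
    have h6 : AnalyticAt ℂ (fun p : (E × ℂ) × ℂ => p.1.1) ((x, t), z) :=
      analyticAt_fst.fun_comp_of_eq (g := fun p : E × ℂ => p.1) (y := (x, t)) analyticAt_fst rfl
    have h7 : AnalyticAt ℂ (fun p : (E × ℂ) × ℂ => p.1.2) ((x, t), z) :=
      analyticAt_snd.fun_comp_of_eq (g := fun p : E × ℂ => p.2) (y := (x, t)) analyticAt_fst rfl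
    have h1 : AnalyticAt ℂ (fun p : (E × ℂ) × ℂ => p.1.1 + p.2 • v) ((x, t), z) := h6.add (h5.smul analyticAt_const)
    have h2 : AnalyticAt ℂ (fun p : (E × ℂ) × ℂ => (p.1.1 + p.2 • v, p.1.2)) ((x, t), z) := h1.prod h7
    have h3 : AnalyticAt ℂ (fun p : (E × ℂ) × ℂ => N (p.1.1 + p.2 • v, p.1.2)) ((x, t), z) :=
      (hN _ (hmem x hx' z hz1) t).fun_comp_of_eq h2 rfl
    have h4 : AnalyticAt ℂ (fun p : (E × ℂ) × ℂ => c (p.1.1 + p.2 • v)) ((x, t), z) :=
      (hc _ (hmem x hx' z hz1)).fun_comp_of_eq h1 rfl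
    exact (h3.div h4 (hδ x hx z hz)).div h5 hz0
  · by_cases hcx : c x = 0
    · have h1 := hb x hxU t
      rw [hcx, norm_zero, mul_zero] at h1
      rw [hcx, mul_zero, eq_comm, ← norm_eq_zero]
      exact le_antisymm h1 (norm_nonneg _)
    · have hfz : ∀ z ∈ closedBall (0 : ℂ) ρ, AnalyticAt ℂ (fun z => N (x + z • v, t)) z := by
        intro z hz
        have h2 : AnalyticAt ℂ (fun w : ℂ => (x + w • v, t)) z := by fun_prop
        exact (hN _ (hmem x hx' z (hball z hz)) t).fun_comp_of_eq h2 rfl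
      have hgz : ∀ z ∈ closedBall (0 : ℂ) ρ, AnalyticAt ℂ (fun z => c (x + z • v)) z :=
        fun z hz => hline x z (hmem x hx' z (hball z hz))
      have h1 := riem_disc (f := fun z => N (x + z • v, t)) (g := fun z => c (x + z • v)) (K := C t) hρ0 hfz hgz
        (fun z hz => hδ x hx z hz) ?_ (by simpa using hcx)
      · simp only [zero_smul, add_zero] at h1
        show (2 * Real.pi * Complex.I)⁻¹ * (∮ z in C(0, ρ), (N (x + z • v, t) / c (x + z • v)) / z) * c x = N (x, t)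
        rw [h1]
        have hpi : (2 * Real.pi * Complex.I : ℂ) ≠ 0 := Complex.two_pi_I_ne_zero
        field_simp
      · rw [eventually_nhdsSet_iff_forall]
        intro z hz
        have h2 : ContinuousAt (fun w : ℂ => x + w • v) z := (hlin x z).continuousAt
        have h3 : ∀ᶠ w in 𝓝 z, x + w • v ∈ U := h2.eventually_mem (hU.mem_nhds (hmem x hx' z (hball z hz)))
        filter_upwards [h3] with w hw
        exact hb _ hw t

end Pool.Agent.G4.RE

end

section

/-!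
# G4 K Cb: the Schwarz lemma for the zeros

`m`, `Q` from `cf_alg`.  For `Q m x ≠ 0` and `k ≤ m`: `q k x = Q (m - k) x / Q m x = ± e_k (g x i, i ∈ J)`, `‖q k x‖ ≤ 2 ^ m S ^ k`, and `‖q k x‖ ≤ 2 ^ m (C ‖x‖ ^ T) ^ k` near `0`.  By `TG.riemann_one` `q k` extends holomorphically to the ball (the extension is
analytic, with the same bounds, by density).  One variable Schwarz lemma on the lines `t ↦ t x` (`‖x‖ < δ`, `t` in the disc of radius `δ / ‖x‖`): `‖q k x‖ ≤ 2 ^ m S ^ k (‖x‖ / δ) ^ (k T)`.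
The `g x i` are the zeros of the monic polynomial with the coefficients `q k x`: `‖g x i‖ ≤ (m + 1) 2 ^ m S (‖x‖ / δ) ^ T`.
-/

set_option autoImplicit false

open Topology Filter Metric

namespace Pool.Agent.G4.K

/-- coefficients of a product of linear factors -/
private theorem cf_coef {ι : Type} (J : Finset ι) (γ : ι → ℂ) {m : ℕ} (hJ : J.card = m) {q : ℕ → ℂ} {a : ℂ} (ha : a ≠ 0)
    (h : ∀ t : ℂ, ∑ b ∈ Finset.range (m + 1), q b * t ^ b = a * ∏ i ∈ J, (t - γ i)) {B : ℝ} (hB : ∀ i ∈ J, ‖γ i‖ ≤ B) (b : ℕ) (hb : b ≤ m) :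
    ‖q b / a‖ ≤ 2 ^ m * B ^ (m - b) := by
  classical
  set p : Polynomial ℂ := ∏ i ∈ J, (Polynomial.X - Polynomial.C (γ i)) with hp
  have hmon : p.Monic := Polynomial.monic_prod_of_monic _ _ fun i _ => Polynomial.monic_X_sub_C _
  have hdeg : p.natDegree = m := by
    rw [hp, Polynomial.natDegree_prod_of_monic _ _ fun i _ => Polynomial.monic_X_sub_C _]
    simp [hJ]
  have hspl : p.Splits := Polynomial.Splits.prod fun i _ => Polynomial.Splits.X_sub_C _
  have hroots : ∀ z ∈ (Polynomial.map (RingHom.id ℂ) p).roots, ‖z‖ ≤ B := by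
    intro z hz
    rw [Polynomial.map_id, Polynomial.mem_roots hmon.ne_zero, Polynomial.IsRoot.def, hp, Polynomial.eval_prod, Finset.prod_eq_zero_iff] at hz
    obtain ⟨i, hi, h0⟩ := hz
    simp only [Polynomial.eval_sub, Polynomial.eval_X, Polynomial.eval_C] at h0
    rw [sub_eq_zero.mp h0]
    exact hB i hi
  have heq : (∑ b ∈ Finset.range (m + 1), Polynomial.C (q b / a) * Polynomial.X ^ b) = p := by
    refine Polynomial.funext fun t => ?_
    rw [Polynomial.eval_finsetSum, hp, Polynomial.eval_prod]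
    simp only [Polynomial.eval_mul, Polynomial.eval_C, Polynomial.eval_pow, Polynomial.eval_X, Polynomial.eval_sub]
    have h1 := h t
    have h2 : ∑ b ∈ Finset.range (m + 1), q b / a * t ^ b = (∑ b ∈ Finset.range (m + 1), q b * t ^ b) / a := by
      rw [Finset.sum_div]
      exact Finset.sum_congr rfl fun b _ => by ring
    rw [h2, h1]
    field_simp
  have hc : p.coeff b = q b / a := by
    rw [← heq, Polynomial.finsetSum_coeff]
    simp only [Polynomial.coeff_C_mul_X_pow]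
    rw [Finset.sum_ite_eq]
    simp [Nat.lt_succ_of_le hb]
  have hspl' : (Polynomial.map (RingHom.id ℂ) p).Splits := by
    rw [Polynomial.map_id]
    exact hspl
  have h3 := Polynomial.coeff_le_of_roots_le (f := RingHom.id ℂ) (B := B) b hmon hspl' hroots
  rw [Polynomial.map_id, hc, hdeg] at h3
  by_cases hB0 : 0 ≤ B
  · refine h3.trans ?_
    have h4 : (m.choose b : ℝ) ≤ 2 ^ m := by
      exact_mod_cast Nat.choose_le_two_pow m b
    rw [mul_comm]
    exact mul_le_mul_of_nonneg_right h4 (pow_nonneg hB0 _)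
  · have hJ0 : J = ∅ := by
      refine Finset.eq_empty_of_forall_notMem fun i hi => hB0 ((norm_nonneg _).trans (hB i hi))
    have hm0 : m = 0 := by rw [← hJ, hJ0, Finset.card_empty]
    subst hm0
    have hb0 : b = 0 := by omega
    subst hb0
    simpa using h3

/-- zeros of a monic polynomial with small coefficients -/
private theorem cf_root {m : ℕ} {γ : ℂ} {q : ℕ → ℂ} {K ρ : ℝ} (hK : 1 ≤ K) (hρ : 0 ≤ ρ) (hq : ∀ b, b < m → ‖q b‖ ≤ K * ρ ^ (m - b))
    (h : γ ^ m = - ∑ b ∈ Finset.range m, q b * γ ^ b) (hm : 0 < m) : ‖γ‖ ≤ (m + 1) * K * ρ := by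
  by_contra hcon
  push Not at hcon
  have hm1 : (1 : ℝ) ≤ (m : ℝ) + 1 := by
    have : (0 : ℝ) ≤ (m : ℝ) := Nat.cast_nonneg _
    linarith only
  have hρle : ρ ≤ ‖γ‖ := by
    have h1 : ρ ≤ (m + 1) * K * ρ := by
      have h2 : 1 ≤ ((m : ℝ) + 1) * K := by nlinarith only [hK]
      nlinarith only [hρ, h2]
    linarith
  have hγ : 0 < ‖γ‖ := by
    have : 0 ≤ (m + 1) * K * ρ := by positivity
    linarith only [hcon, this]
  have h1 : ‖γ‖ ^ m ≤ ∑ b ∈ Finset.range m, K * ρ * ‖γ‖ ^ (m - 1) := by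
    rw [← norm_pow, h, norm_neg]
    refine (norm_sum_le _ _).trans (Finset.sum_le_sum fun b hb => ?_)
    rw [Finset.mem_range] at hb
    rw [norm_mul, norm_pow]
    have h2 : ρ ^ (m - b) = ρ * ρ ^ (m - 1 - b) := by
      rw [← pow_succ']
      congr 1
      omega
    have h3 : ρ ^ (m - 1 - b) * ‖γ‖ ^ b ≤ ‖γ‖ ^ (m - 1) := by
      calc ρ ^ (m - 1 - b) * ‖γ‖ ^ b ≤ ‖γ‖ ^ (m - 1 - b) * ‖γ‖ ^ b :=
            mul_le_mul_of_nonneg_right (pow_le_pow_left₀ hρ hρle _) (by positivity)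
        _ = ‖γ‖ ^ (m - 1) := by
            rw [← pow_add]
            congr 1
            omega
    calc ‖q b‖ * ‖γ‖ ^ b ≤ K * ρ ^ (m - b) * ‖γ‖ ^ b := mul_le_mul_of_nonneg_right (hq b hb) (by positivity)
      _ = K * ρ * (ρ ^ (m - 1 - b) * ‖γ‖ ^ b) := by rw [h2]; ring
      _ ≤ K * ρ * ‖γ‖ ^ (m - 1) := mul_le_mul_of_nonneg_left h3 (by positivity)
  rw [Finset.sum_const, Finset.card_range, nsmul_eq_mul] at h1
  have h4 : ‖γ‖ ^ m = ‖γ‖ * ‖γ‖ ^ (m - 1) := by
    rw [← pow_succ']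
    congr 1
    omega
  rw [h4] at h1
  have h5 : 0 < ‖γ‖ ^ (m - 1) := by positivity
  have h6 : ‖γ‖ ≤ m * (K * ρ) := by
    have : ‖γ‖ * ‖γ‖ ^ (m - 1) ≤ (m * (K * ρ)) * ‖γ‖ ^ (m - 1) := by linarith
    exact le_of_mul_le_mul_right this h5
  have h7 : (m : ℝ) * (K * ρ) ≤ (m + 1) * K * ρ := by
    have : 0 ≤ K * ρ := by positivity
    nlinarith only [hcon, h6, this]
  linarith

/-- one variable: a quotient, bounded, with a zero of order `n` at `0` -/
private theorem cf_line {R : ℝ} (hR : 2 < R) {h p : ℂ → ℂ} (hh : ∀ z ∈ ball (0 : ℂ) R, AnalyticAt ℂ h z) (hp : ∀ z ∈ ball (0 : ℂ) R, AnalyticAt ℂ p z)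
    (h1 : h 1 ≠ 0) {B B' η : ℝ} (hη : 0 < η) {n : ℕ} (hB : ∀ z ∈ ball (0 : ℂ) R, h z ≠ 0 → ‖p z / h z‖ ≤ B)
    (hB' : ∀ z ∈ ball (0 : ℂ) η, z ∈ ball (0 : ℂ) R → h z ≠ 0 → ‖p z / h z‖ ≤ B' * ‖z‖ ^ n) : ‖p 1 / h 1‖ ≤ B * (1 / 2) ^ n := by
  have h1R : (1 : ℂ) ∈ ball (0 : ℂ) R := by
    rw [mem_ball_zero_iff, norm_one]
    linarith
  have hB0 : 0 ≤ B := (norm_nonneg _).trans (hB 1 h1R h1)
  obtain ⟨G, hG, hGf⟩ := Pool.Agent.TG.rem_disc (U := ball (0 : ℂ) R) isOpen_ball (convex_ball _ _).isPreconnected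
    (h := fun z => z * h z) (f := fun z => p z / h z / z ^ n) (fun z hz => analyticAt_id.mul (hh z hz)) h1R (by simpa using h1)
    (fun z hz h0 => by
      have hz0 : z ≠ 0 := left_ne_zero_of_mul h0
      have hh0 : h z ≠ 0 := right_ne_zero_of_mul h0
      exact ((hp z hz).differentiableAt.div (hh z hz).differentiableAt hh0).div (differentiableAt_id.pow n) (pow_ne_zero _ hz0))
    (M := max B' (B / η ^ n)) (fun z hz h0 => by
      have hz0 : z ≠ 0 := left_ne_zero_of_mul h0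
      have hh0 : h z ≠ 0 := right_ne_zero_of_mul h0
      have hzn : 0 < ‖z‖ ^ n := by
        have := norm_pos_iff.mpr hz0
        positivity
      rw [norm_div, norm_pow]
      by_cases hzη : z ∈ ball (0 : ℂ) η
      · refine le_trans ?_ (le_max_left _ _)
        rw [div_le_iff₀ hzn]
        exact hB' z hzη hz hh0
      · refine le_trans ?_ (le_max_right _ _)
        rw [mem_ball_zero_iff, not_lt] at hzη
        exact div_le_div₀ hB0 (hB z hz hh0) (by positivity) (pow_le_pow_left₀ hη.le hzη n))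
  have hfreq : ∀ z ∈ ball (0 : ℂ) R, ∃ᶠ w in 𝓝 z, w ∈ ball (0 : ℂ) R ∧ w * h w ≠ 0 := by
    intro z hz
    by_contra hcon
    rw [not_frequently] at hcon
    have h2 : ∀ᶠ w in 𝓝 z, w * h w = 0 := by
      filter_upwards [hcon, isOpen_ball.mem_nhds hz] with w hw hwR
      by_contra h3
      exact hw ⟨hwR, h3⟩
    have h4 := AnalyticOnNhd.eqOn_zero_of_preconnected_of_eventuallyEq_zero (U := ball (0 : ℂ) R) (f := fun w => w * h w)
      (fun w hw => analyticAt_id.mul (hh w hw)) (convex_ball _ _).isPreconnected hz h2 h1R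
    simp only [one_mul, Pi.zero_apply] at h4
    exact h1 h4
  have hcl : ∀ z ∈ ball (0 : ℂ) R, ‖G z‖ * ‖z‖ ^ n ≤ B := by
    intro z hz
    have hc : ContinuousAt G z := (hG.differentiableAt (isOpen_ball.mem_nhds hz)).continuousAt
    have hc2 : Tendsto (fun w : ℂ => ‖G w‖ * ‖w‖ ^ n) (𝓝 z) (𝓝 (‖G z‖ * ‖z‖ ^ n)) :=
      hc.norm.mul (continuous_norm.continuousAt.pow n)
    refine le_of_tendsto_of_frequently hc2 ((hfreq z hz).mono fun w hw => ?_)
    have hz0 : w ≠ 0 := left_ne_zero_of_mul hw.2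
    have hh0 : h w ≠ 0 := right_ne_zero_of_mul hw.2
    have hzn : 0 < ‖w‖ ^ n := by
      have := norm_pos_iff.mpr hz0
      positivity
    rw [hGf w hw.1 hw.2, norm_div, norm_pow, div_mul_cancel₀ _ hzn.ne']
    exact hB w hw.1 hh0
  have hsub : closedBall (0 : ℂ) 2 ⊆ ball (0 : ℂ) R := closedBall_subset_ball hR
  have hmax : ‖G 1‖ ≤ B * (1 / 2) ^ n := by
    refine Complex.norm_le_of_forall_mem_frontier_norm_le (U := ball (0 : ℂ) 2) isBounded_ball ?_ (fun z hz => ?_) ?_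
    · refine DifferentiableOn.diffContOnCl ?_
      rw [closure_ball _ (by norm_num)]
      exact hG.mono hsub
    · rw [frontier_ball _ (by norm_num), mem_sphere_zero_iff_norm] at hz
      have hz2 : z ∈ ball (0 : ℂ) R := hsub (by rw [mem_closedBall_zero_iff, hz])
      have h5 := hcl z hz2
      rw [hz] at h5
      have h6 : (0 : ℝ) < 2 ^ n := by positivity
      rw [one_div, inv_pow, ← div_eq_mul_inv, le_div_iff₀ h6]
      exact h5
    · rw [closure_ball _ (by norm_num), mem_closedBall_zero_iff, norm_one]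
      norm_num
  have h7 : G 1 = p 1 / h 1 := by
    rw [hGf 1 h1R (by simpa using h1)]
    simp
  rw [← h7]
  exact hmax

theorem cf_bd {E : Type} [NormedAddCommGroup E] [NormedSpace ℂ E] [FiniteDimensional ℂ E] {ι : Type} [Fintype ι] {δ : ℝ} (hδ : 0 < δ) {A g : E → ι → ℂ}
    (hP : ∀ s t : ℂ, ∀ x ∈ ball (0 : E) δ, AnalyticAt ℂ (fun x => ∏ i, (A x i + s * (t - g x i))) x) {S : ℝ} (hS : ∀ x ∈ ball (0 : E) δ, ∀ i, A x i = 0 → ‖g x i‖ ≤ S)
    {T : ℕ} {C : ℝ} (hT : ∀ᶠ x in 𝓝 (0 : E), ∀ i, A x i = 0 → ‖g x i‖ ≤ C * ‖x‖ ^ T) :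
    ∃ c : E → ℂ, (∀ x ∈ ball (0 : E) δ, AnalyticAt ℂ c x) ∧ (∃ x ∈ ball (0 : E) δ, c x ≠ 0) ∧
      ∀ x ∈ ball (0 : E) (δ / 2), c x ≠ 0 → ∀ i, A x i = 0 → ‖g x i‖ ≤ S * ((Fintype.card ι + 1) * 2 ^ Fintype.card ι * (1 / 2) ^ T) := by
  classical
  obtain ⟨m, Q, hm, hQan, hQne, hQ⟩ := cf_alg hδ hP
  refine ⟨Q m, hQan m, hQne, fun x hx hx0 i hi => ?_⟩
  have hxδ : x ∈ ball (0 : E) δ := ball_subset_ball (by linarith only [hδ]) hx
  rw [mem_ball_zero_iff] at hx
  obtain ⟨J, hJ, hJc, hJp⟩ := hQ x hxδ hx0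
  have hiJ : i ∈ J := (hJ i).mpr hi
  have hmpos : 0 < m := by
    rw [← hJc]
    exact Finset.card_pos.mpr ⟨i, hiJ⟩
  have hS0 : 0 ≤ S := (norm_nonneg _).trans (hS x hxδ i hi)
  -- general bound of the quotients
  have hquo : ∀ y ∈ ball (0 : E) δ, Q m y ≠ 0 → ∀ B : ℝ, (∀ j, A y j = 0 → ‖g y j‖ ≤ B) → ∀ b, b ≤ m → ‖Q b y / Q m y‖ ≤ 2 ^ m * B ^ (m - b) := by
    intro y hy hy0 B hB b hb
    obtain ⟨J', hJ', hJc', hJp'⟩ := hQ y hy hy0
    exact cf_coef J' (g y) hJc' hy0 (q := fun b => Q b y) hJp' (fun j hj => hB j ((hJ' j).mp hj)) b hb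
  -- the neighbourhood of `0`
  obtain ⟨ε, hε, hεT⟩ := Metric.eventually_nhds_iff_ball.mp hT
  have hcoef : ∀ b, b < m → ‖Q b x / Q m x‖ ≤ 2 ^ m * (S * (1 / 2) ^ T) ^ (m - b) := by
    intro b hb
    set R : ℝ := 2 + (δ - 2 * ‖x‖) / (‖x‖ + 1) with hR
    have hx1 : 0 < ‖x‖ + 1 := by positivity
    have hRpos : 2 < R := by
      have : 0 < (δ - 2 * ‖x‖) / (‖x‖ + 1) := div_pos (by linarith only [hx]) hx1
      linarith only [this]
    have hRx : R * ‖x‖ ≤ δ := by
      have h1 : (δ - 2 * ‖x‖) / (‖x‖ + 1) * ‖x‖ ≤ δ - 2 * ‖x‖ := by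
        rw [div_mul_eq_mul_div, div_le_iff₀ hx1]
        have : 0 ≤ δ - 2 * ‖x‖ := by linarith
        nlinarith only [hx, norm_nonneg x]
      rw [hR, add_mul]
      linarith
    have hmem : ∀ z ∈ ball (0 : ℂ) R, z • x ∈ ball (0 : E) δ := by
      intro z hz
      rw [mem_ball_zero_iff] at hz ⊢
      rw [norm_smul]
      by_cases hx0' : ‖x‖ = 0
      · rw [hx0', mul_zero]
        exact hδ
      · have : 0 < ‖x‖ := lt_of_le_of_ne (norm_nonneg _) (Ne.symm hx0')
        calc ‖z‖ * ‖x‖ < R * ‖x‖ := mul_lt_mul_of_pos_right hz this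
          _ ≤ δ := hRx
    have hlin : ∀ z : ℂ, AnalyticAt ℂ (fun z : ℂ => z • x) z := fun z => analyticAt_id.smul analyticAt_const
    have key := cf_line hRpos (h := fun z : ℂ => Q m (z • x)) (p := fun z : ℂ => Q b (z • x))
      (fun z hz => AnalyticAt.fun_comp (hQan m _ (hmem z hz)) (hlin z)) (fun z hz => AnalyticAt.fun_comp (hQan b _ (hmem z hz)) (hlin z))
      (by simpa using hx0) (B := 2 ^ m * S ^ (m - b)) (B' := 2 ^ m * (C * ‖x‖ ^ T) ^ (m - b)) (η := ε / (‖x‖ + 1)) (div_pos hε hx1) (n := T * (m - b))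
      (fun z hz h0 => hquo _ (hmem z hz) h0 S (fun j hj => hS _ (hmem z hz) j hj) b hb.le)
      (fun z hz hzR h0 => by
        have h2 : z • x ∈ ball (0 : E) ε := by
          rw [mem_ball_zero_iff] at hz ⊢
          rw [norm_smul]
          rw [lt_div_iff₀ hx1] at hz
          nlinarith only [hz, norm_nonneg z, norm_nonneg x]
        have h3 := hquo _ (hmem z hzR) h0 (C * ‖z • x‖ ^ T) (fun j hj => hεT _ h2 j hj) b hb.le
        refine h3.trans (le_of_eq ?_)
        rw [norm_smul, mul_pow, mul_assoc, pow_mul]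
        rw [← mul_pow]
        congr 1
        ring)
    simp only [one_smul] at key
    refine key.trans (le_of_eq ?_)
    rw [mul_pow, pow_mul]
    ring
  have hρ0 : 0 ≤ S * (1 / 2) ^ T := by positivity
  have hroot : (g x i) ^ m = - ∑ b ∈ Finset.range m, (Q b x / Q m x) * (g x i) ^ b := by
    have h1 := hJp (g x i)
    rw [Finset.prod_eq_zero hiJ (sub_self _), mul_zero, Finset.sum_range_succ] at h1
    have h2 : ∑ b ∈ Finset.range m, Q b x / Q m x * g x i ^ b = (∑ b ∈ Finset.range m, Q b x * g x i ^ b) / Q m x := by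
      rw [Finset.sum_div]
      exact Finset.sum_congr rfl fun b _ => by ring
    rw [h2, eq_comm, neg_eq_iff_eq_neg, div_eq_iff hx0, eq_comm]
    rw [← eq_neg_iff_add_eq_zero] at h1
    rw [h1]
    ring
  have hfin := cf_root (m := m) (γ := g x i) (q := fun b => Q b x / Q m x) (K := 2 ^ m) (ρ := S * (1 / 2) ^ T) (one_le_pow₀ (by norm_num)) hρ0
    (fun b hb => hcoef b hb) hroot hmpos
  refine hfin.trans ?_
  have hmc : (m : ℝ) ≤ Fintype.card ι := by exact_mod_cast hm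
  have h2m : (2 : ℝ) ^ m ≤ 2 ^ Fintype.card ι := pow_le_pow_right₀ (by norm_num) hm
  have h8 : ((m : ℝ) + 1) * 2 ^ m ≤ (Fintype.card ι + 1) * 2 ^ Fintype.card ι :=
    mul_le_mul (by linarith only [hmc]) h2m (by positivity) (by positivity)
  calc ((m : ℝ) + 1) * 2 ^ m * (S * (1 / 2) ^ T) ≤ (Fintype.card ι + 1) * 2 ^ Fintype.card ι * (S * (1 / 2) ^ T) :=
        mul_le_mul_of_nonneg_right h8 hρ0
    _ = S * ((Fintype.card ι + 1) * 2 ^ Fintype.card ι * (1 / 2) ^ T) := by ring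

end Pool.Agent.G4.K

end
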