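import Pool.Agent.H94.PX2.M17
import Pool.Agent.H94.PX2.M40
import Pool.Agent.H94.PX2.M49
import Pool.Agent.H94.PX2.M52
import Pool.Agent.H94.PX2.M53

/-! The parts of this file: G4.RE.Rx, G4.RE.Rd, G4.K.Sl, G4.K.Sz. -/

section

/-!
# G4 RE Rx: existence of the reduced equation, in coordinates

`exists_rsys` for `f` at `0` (a small radius `r`): roots `β x i`, `x ∈ U = ball 0 δ₀`; `q` the maximal number of different roots over `U`; `c x = sc q (β x)`, `N (x, t) = sd q (β x) t`: `c` is not `0` near any point of `U` (`sc_ne`, identity theorem on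
the ball), and `‖N (x, t)‖ ≤ (‖t‖ + r) ^ q * ‖c x‖` (`sd_eq`, `img_le`, `sc_zero`, `sd_zero`).  `s` from `riem` at `0`: `s (x, t) = ∏ v, (t - v)` (different roots) if `c x ≠ 0`.
`s (x, t) = 0` iff `∏ i, (t - β x i) = 0` for all `x` near `0` and all `t`: `‖∏ i, (t - β x i)‖ ≤ C ‖s (x, t)‖`, `‖s (x, t)‖ ^ n ≤ C ‖∏ i, (t - β x i)‖` by `img_le` if `c x ≠ 0`, in general by continuity in `x` (`pr_an`); so `s (x, ·)` has finitely
many zeros, and for `‖t‖ < r` they are the zeros of `f (x, ·)` (`RSys.iff`).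
-/

set_option autoImplicit false

open Topology Filter Metric

namespace Pool.Agent.G4.RE

open Pool.Agent.G4.K (RSys)

variable {E : Type} [NormedAddCommGroup E] [NormedSpace ℂ E] [FiniteDimensional ℂ E]

omit [FiniteDimensional ℂ E] in
/-- a radius -/
private theorem rx_rad {f : E × ℂ → ℂ} (hf : AnalyticAt ℂ f (0, 0)) (hl : ∀ᶠ w in 𝓝[≠] (0 : ℂ), f (0, w) ≠ 0) :
    ∃ r : ℝ, 0 < r ∧ (∀ w : ℂ, ‖w‖ ≤ r → AnalyticAt ℂ f (0, w)) ∧ ∀ w : ℂ, ‖w‖ = r → f (0, w) ≠ 0 := by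
  have h1 : ∀ᶠ w : ℂ in 𝓝 0, AnalyticAt ℂ f (0, w) := by
    have h2 : Tendsto (fun w : ℂ => ((0 : E), w)) (𝓝 0) (𝓝 (0, 0)) := (Continuous.prodMk_right (0 : E)).continuousAt
    exact h2.eventually hf.eventually_analyticAt
  have h2 : ∀ᶠ w : ℂ in 𝓝 0, w ≠ 0 → f (0, w) ≠ 0 := eventually_nhdsWithin_iff.1 hl
  obtain ⟨ε, hε, h3⟩ := Metric.eventually_nhds_iff_ball.1 (h1.and h2)
  have h4 : ∀ w : ℂ, ‖w‖ ≤ ε / 2 → w ∈ ball (0 : ℂ) ε := fun w hw => by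
    rw [mem_ball_zero_iff]
    linarith
  refine ⟨ε / 2, by positivity, fun w hw => (h3 w (h4 w hw)).1, fun w hw => (h3 w (h4 w hw.le)).2 ?_⟩
  intro h5
  rw [h5, norm_zero] at hw
  linarith

/-- simple zeros -/
private theorem rx_deriv {S : Finset ℂ} {g : ℂ → ℂ} (hg : ∀ t, g t = ∏ v ∈ S, (t - v)) {t : ℂ} (ht : g t = 0) : deriv g t ≠ 0 := by
  have h0 : t ∈ S := by
    rw [hg, Finset.prod_eq_zero_iff] at ht
    obtain ⟨v, hv, h1⟩ := ht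
    rw [sub_eq_zero.1 h1]
    exact hv
  have h1 : g = fun t' => (t' - t) * ∏ v ∈ S.erase t, (t' - v) := by
    funext t'
    rw [hg]
    exact (Finset.mul_prod_erase S (fun v => t' - v) h0).symm
  have h2 : DifferentiableAt ℂ (fun t' : ℂ => ∏ v ∈ S.erase t, (t' - v)) t := by
    have h3 : ∀ v ∈ S.erase t, DifferentiableAt ℂ (fun t' : ℂ => t' - v) t := fun v _ => differentiableAt_id.sub_const v
    exact DifferentiableAt.fun_finsetProd h3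
  have h3 := ((hasDerivAt_id t).sub_const t).mul h2.hasDerivAt
  have h4 : deriv g t = ∏ v ∈ S.erase t, (t - v) := by
    rw [h1]
    refine h3.deriv.trans ?_
    simp
  rw [h4, Finset.prod_ne_zero_iff]
  intro v hv
  rw [sub_ne_zero]
  exact (Finset.ne_of_mem_erase hv).symm

/-- off a finite set near a point -/
private theorem rx_fin {F : Set ℂ} (hF : F.Finite) (t : ℂ) : ∀ᶠ t' in 𝓝[≠] t, t' ∉ F := by
  have h1 : (F \ {t})ᶜ ∈ 𝓝 t := (hF.subset Set.sdiff_subset).isClosed.isOpen_compl.mem_nhds (by simp)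
  filter_upwards [mem_nhdsWithin_of_mem_nhds h1, self_mem_nhdsWithin] with t' h2 h3 h4
  exact h2 ⟨h4, h3⟩

/-- a bounded function with natural values has a maximum -/
private theorem rx_max {X : Type} (g : X → ℕ) {n : ℕ} (hg : ∀ x, g x ≤ n) {U : Set X} {x₀ : X} (hx₀ : x₀ ∈ U) : ∃ x₁ ∈ U, ∀ x ∈ U, g x ≤ g x₁ := by
  classical
  have hex : ∃ k, ∃ x ∈ U, n - g x = k := ⟨_, x₀, hx₀, rfl⟩
  obtain ⟨x₁, hx₁, hk⟩ := Nat.find_spec hex
  refine ⟨x₁, hx₁, fun x hx => ?_⟩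
  have h1 : Nat.find hex ≤ n - g x := Nat.find_min' hex ⟨x, hx, rfl⟩
  rw [← hk] at h1
  have h2 := hg x
  have h3 := hg x₁
  omega

/-- existence of the reduced polynomial -/
theorem rd_ex {f : E × ℂ → ℂ} (hf : AnalyticAt ℂ f (0, 0)) (hl : ∀ᶠ w in 𝓝[≠] (0 : ℂ), f (0, w) ≠ 0) :
    ∃ (δ r : ℝ) (c : E → ℂ) (s : E × ℂ → ℂ), 0 < δ ∧ 0 < r ∧ (∀ x ∈ ball (0 : E) δ, AnalyticAt ℂ c x ∧ ∃ᶠ x' in 𝓝 x, c x' ≠ 0) ∧
      (∀ x ∈ ball (0 : E) δ, ∀ t : ℂ, AnalyticAt ℂ s (x, t)) ∧ (∀ x ∈ ball (0 : E) δ, ∀ t : ℂ, ‖t‖ < r → (s (x, t) = 0 ↔ f (x, t) = 0)) ∧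
      (∀ x ∈ ball (0 : E) δ, ∀ t : ℂ, ∀ᶠ t' in 𝓝[≠] t, s (x, t') ≠ 0) ∧
      ∀ x ∈ ball (0 : E) δ, c x ≠ 0 → ∀ t : ℂ, s (x, t) = 0 → deriv (fun t => s (x, t)) t ≠ 0 := by
  obtain ⟨r, hr, hfr, hfn⟩ := rx_rad hf hl
  obtain ⟨δ₀, n, β, hδ₀, R⟩ := Pool.Agent.G4.K.exists_rsys hr hfr hfn
  -- the maximal number of different roots
  have hcn : ∀ x, (Finset.univ.image (β x)).card ≤ n := fun x =>
    Finset.card_image_le.trans (by simp)
  obtain ⟨x₁, hx₁, hmax'⟩ := rx_max (fun x => (Finset.univ.image (β x)).card) hcn (mem_ball_self hδ₀ : (0 : E) ∈ ball (0 : E) δ₀)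
  set q := (Finset.univ.image (β x₁)).card with hq
  have hmax : ∀ x ∈ ball (0 : E) δ₀, (Finset.univ.image (β x)).card ≤ q := hmax'
  have hcan := sc_an R q
  have hNan := sd_an R q
  have hne : ∀ x ∈ ball (0 : E) δ₀, ∃ᶠ x' in 𝓝 x, sc q (β x') ≠ 0 := by
    intro x hx h1
    have h2 : (fun x => sc q (β x)) =ᶠ[𝓝 x] 0 := by
      filter_upwards [h1] with x' h3
      exact not_not.1 h3
    have h3 : AnalyticOnNhd ℂ (fun x => sc q (β x)) (ball (0 : E) δ₀) := fun x hx => hcan x hx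
    have h4 := h3.eqOn_zero_of_preconnected_of_eventuallyEq_zero (convex_ball (0 : E) δ₀).isPreconnected hx h2 hx₁
    exact sc_ne rfl h4
  have hbd : ∀ x ∈ ball (0 : E) δ₀, ∀ t : ℂ, ‖(fun p : E × ℂ => sd q (β p.1) p.2) (x, t)‖ ≤ (‖t‖ + r) ^ q * ‖sc q (β x)‖ := by
    intro x hx t
    rcases (hmax x hx).lt_or_eq with h1 | h1
    · simp only
      rw [sd_zero h1, sc_zero h1]
      simp
    · simp only
      rw [sd_eq h1, norm_mul, mul_comm]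
      exact mul_le_mul_of_nonneg_right (img_le hr (fun i => (R.lt x hx i).le) h1 t).1 (norm_nonneg _)
  obtain ⟨δ, hδ, hsub, s, hs⟩ := riem isOpen_ball (mem_ball_self hδ₀) hcan hNan (hne 0 (mem_ball_self hδ₀)) hbd
  -- the values where `c x ≠ 0`
  have hval : ∀ x ∈ ball (0 : E) δ, sc q (β x) ≠ 0 → (Finset.univ.image (β x)).card = q ∧ ∀ t, s (x, t) = ∏ v ∈ Finset.univ.image (β x), (t - v) := by
    intro x hx hc
    have h1 : (Finset.univ.image (β x)).card = q := by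
      rcases (hmax x (hsub hx)).lt_or_eq with h1 | h1
      · exact absurd (sc_zero h1) hc
      · exact h1
    refine ⟨h1, fun t => ?_⟩
    have h2 := (hs x hx t).2
    simp only at h2
    rw [sd_eq h1, mul_comm (sc q (β x))] at h2
    exact mul_right_cancel₀ hc h2
  have hcontS : ∀ x ∈ ball (0 : E) δ, ∀ t, ContinuousAt (fun x => s (x, t)) x := by
    intro x hx t
    exact ContinuousAt.comp (g := s) (f := fun x : E => (x, t)) (hs x hx t).1.continuousAt (Continuous.prodMk_left t).continuousAt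
  have hcontP : ∀ x ∈ ball (0 : E) δ, ∀ t, ContinuousAt (fun x => ∏ i, (t - β x i)) x := by
    intro x hx t
    exact ContinuousAt.comp (g := fun p : E × ℂ => ∏ i, (p.2 - β p.1 i)) (f := fun x : E => (x, t)) (pr_an R x (hsub hx) t).continuousAt (Continuous.prodMk_left t).continuousAt
  have hfreq : ∀ x ∈ ball (0 : E) δ, ∃ᶠ x' in 𝓝 x, x' ∈ ball (0 : E) δ ∧ sc q (β x') ≠ 0 := by
    intro x hx
    exact ((hne x (hsub hx)).and_eventually (isOpen_ball.mem_nhds hx)).mono fun x' h => ⟨h.2, h.1⟩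
  have hle1 : ∀ x ∈ ball (0 : E) δ, ∀ t, ‖∏ i, (t - β x i)‖ ≤ (1 + ‖t‖ + r) ^ (n * n) * ‖s (x, t)‖ := by
    intro x hx t
    have h1 : Tendsto (fun x' => ‖∏ i, (t - β x' i)‖ - (1 + ‖t‖ + r) ^ (n * n) * ‖s (x', t)‖) (𝓝 x) (𝓝 (‖∏ i, (t - β x i)‖ - (1 + ‖t‖ + r) ^ (n * n) * ‖s (x, t)‖)) :=
      (hcontP x hx t).norm.sub (continuousAt_const.mul (hcontS x hx t).norm)
    have h2 : ‖∏ i, (t - β x i)‖ - (1 + ‖t‖ + r) ^ (n * n) * ‖s (x, t)‖ ≤ 0 := by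
      refine le_of_tendsto_of_frequently h1 ((hfreq x hx).mono fun x' h => ?_)
      obtain ⟨h3, h4⟩ := hval x' h.1 h.2
      rw [h4]
      have := (img_le hr (fun i => (R.lt x' (hsub h.1) i).le) h3 t).2.1
      linarith
    linarith
  have hle2 : ∀ x ∈ ball (0 : E) δ, ∀ t, ‖s (x, t)‖ ^ n ≤ (1 + ‖t‖ + r) ^ (n * n) * ‖∏ i, (t - β x i)‖ := by
    intro x hx t
    have h1 : Tendsto (fun x' => ‖s (x', t)‖ ^ n - (1 + ‖t‖ + r) ^ (n * n) * ‖∏ i, (t - β x' i)‖) (𝓝 x) (𝓝 (‖s (x, t)‖ ^ n - (1 + ‖t‖ + r) ^ (n * n) * ‖∏ i, (t - β x i)‖)) :=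
      ((hcontS x hx t).norm.pow n).sub (continuousAt_const.mul (hcontP x hx t).norm)
    have h2 : ‖s (x, t)‖ ^ n - (1 + ‖t‖ + r) ^ (n * n) * ‖∏ i, (t - β x i)‖ ≤ 0 := by
      refine le_of_tendsto_of_frequently h1 ((hfreq x hx).mono fun x' h => ?_)
      obtain ⟨h3, h4⟩ := hval x' h.1 h.2
      rw [h4]
      have := (img_le hr (fun i => (R.lt x' (hsub h.1) i).le) h3 t).2.2
      linarith
    linarith
  have hiff : ∀ x ∈ ball (0 : E) δ, ∀ t, s (x, t) = 0 ↔ ∃ i, t = β x i := by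
    intro x hx t
    have h0 : (∏ i, (t - β x i)) = 0 ↔ ∃ i, t = β x i := by
      rw [Finset.prod_eq_zero_iff]
      simp [sub_eq_zero]
    rw [← h0]
    constructor
    · intro h
      have h1 := hle1 x hx t
      rw [h, norm_zero, mul_zero] at h1
      exact norm_le_zero_iff.1 h1
    · intro h
      have h1 := hle2 x hx t
      rw [h, norm_zero, mul_zero] at h1
      have h2 : ‖s (x, t)‖ ^ n = 0 := le_antisymm h1 (by positivity)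
      exact norm_eq_zero.1 (eq_zero_of_pow_eq_zero h2)
  refine ⟨δ, r, fun x => sc q (β x), s, hδ, hr, fun x hx => ⟨hcan x (hsub hx), hne x (hsub hx)⟩, fun x hx t => (hs x hx t).1, fun x hx t ht => ?_, fun x hx t => ?_, fun x hx hc t ht => ?_⟩
  · rw [hiff x hx t, R.iff (hsub hx) ht.le]
  · filter_upwards [rx_fin (Set.finite_range (β x)) t] with t' h1 h2
    obtain ⟨i, hi⟩ := (hiff x hx t').1 h2
    exact h1 ⟨i, hi.symm⟩
  · exact rx_deriv (hval x hx hc).2 ht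

end Pool.Agent.G4.RE

end

section

/-!
# G4 RE Rd: the reduced equation, in coordinates

If `s (x, t) = 0` there are `x'` near `x` with `c x' ≠ 0`, and `t'` near `t` with `s (x', t') = 0` (`K.hz`); the zeros of `s (x', ·)` are simple.
-/

set_option autoImplicit false

open Topology Filter Metric

namespace Pool.Agent.G4.RE

open Pool.Agent.G4.K (RSys)

variable {E : Type} [NormedAddCommGroup E] [NormedSpace ℂ E] [FiniteDimensional ℂ E]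

private theorem der_eq {s : E × ℂ → ℂ} {p : E × ℂ} (hs : AnalyticAt ℂ s p) : fderiv ℂ s p (0, 1) = deriv (fun t => s (p.1, t)) p.2 := by
  have h1 : HasDerivAt (fun t : ℂ => ((p.1, t) : E × ℂ)) ((0 : E), (1 : ℂ)) p.2 := (hasDerivAt_const p.2 p.1).prodMk (hasDerivAt_id p.2)
  have h2 : HasFDerivAt s (fderiv ℂ s p) (p.1, p.2) := hs.differentiableAt.hasFDerivAt
  exact (h2.comp_hasDerivAt p.2 h1).deriv.symm

theorem red {f : E × ℂ → ℂ} (hf : AnalyticAt ℂ f (0, 0)) (hl : ∀ᶠ w in 𝓝[≠] (0 : ℂ), f (0, w) ≠ 0) :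
    ∃ s : E × ℂ → ℂ, AnalyticAt ℂ s (0, 0) ∧ ∀ᶠ p in 𝓝 (0 : E × ℂ), (s p = 0 ↔ f p = 0) ∧ (s p = 0 → ∃ᶠ p' in 𝓝 p, s p' = 0 ∧ fderiv ℂ s p' (0, 1) ≠ 0) ∧
      (s p = 0 → fderiv ℂ s p (0, 1) = 0 → ¬ Gd {p | f p = 0} p (0, 1)) := by
  obtain ⟨δ, r, c, s, hδ, hr, hc, hs, hsf, hiso, hsimp⟩ := rd_ex hf hl
  refine ⟨s, hs 0 (mem_ball_self hδ) 0, ?_⟩
  have hU : IsOpen (ball (0 : E) δ ×ˢ ball (0 : ℂ) r) := isOpen_ball.prod isOpen_ball
  have hmem : (0 : E × ℂ) ∈ ball (0 : E) δ ×ˢ ball (0 : ℂ) r := ⟨mem_ball_self hδ, mem_ball_self hr⟩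
  filter_upwards [hU.mem_nhds hmem] with p hp
  obtain ⟨hpx, hpt⟩ := hp
  have hpt' : ‖p.2‖ < r := mem_ball_zero_iff.1 hpt
  have hball : ∀ᶠ p' : E × ℂ in 𝓝 p, p'.1 ∈ ball (0 : E) δ ∧ ‖p'.2‖ < r := by
    filter_upwards [hU.mem_nhds (show p ∈ ball (0 : E) δ ×ˢ ball (0 : ℂ) r from ⟨hpx, hpt⟩)] with p' hp'
    exact ⟨hp'.1, mem_ball_zero_iff.1 hp'.2⟩
  refine ⟨hsf p.1 hpx p.2 hpt', fun h0 => ?_, fun h0 hd hg => ?_⟩
  · -- density
    rw [frequently_iff]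
    intro W hW
    obtain ⟨ε, hε, hεW⟩ := Metric.mem_nhds_iff.1 hW
    have h1 := K.hz (f := s) (x₀ := p.1) (w₀ := p.2) (hs p.1 hpx p.2) h0 (hiso p.1 hpx p.2) hε
    have h2 : ∀ᶠ x in 𝓝 p.1, x ∈ ball (0 : E) δ := isOpen_ball.mem_nhds hpx
    have h3 : ∀ᶠ x in 𝓝 p.1, x ∈ ball p.1 ε := ball_mem_nhds _ hε
    obtain ⟨x, hcx, ⟨w, hw1, hw2⟩, hx1, hx2⟩ := ((hc p.1 hpx).2.and_eventually (h1.and (h2.and h3))).exists
    refine ⟨(x, w), hεW ?_, hw2, ?_⟩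
    · rw [← ball_prod_same]
      exact ⟨hx2, by rw [mem_ball, dist_eq_norm]; exact hw1⟩
    · rw [der_eq (hs x hx1 w)]
      exact hsimp x hx1 hcx w hw2
  · obtain ⟨g, hg1, hg2, hg3, hg4⟩ := hg
    rw [der_eq hg1] at hg3
    refine hg3 ?_
    rw [der_eq (hs p.1 hpx p.2)] at hd
    refine rd_two (s := s) (c := c) (x := p.1) (t := p.2) (hs p.1 hpx p.2) h0 (hiso p.1 hpx p.2) (hc p.1 hpx).2 ?_ hd hg1 ?_
    · filter_upwards [hball] with p' hp' h1 h2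
      exact hsimp p'.1 hp'.1 h1 p'.2 h2
    · filter_upwards [hg4, hball] with p' h1 h2
      exact h1.symm.trans (hsf p'.1 h2.1 p'.2 h2.2).symm

end Pool.Agent.G4.RE

end

section

/-!
# G4 K Sl: the Schwarz property in adapted coordinates

`ι = Fin n₁ × Fin n₂`, `pt z (i, j) = ((z, α z i), β (z, α z i) j)`.  `A²`, `A¹` from `RSys.div` for `R2`, `R1`; `b i j G z = A¹ i (A² j G) z` is analytic on `ball 0 δ` and linear in `G`, and `G (pt z (i, j)) = ∑ i' j', b i' j' G z (α z i) ^ i' (β … j) ^ j'`.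
Conditions: `tay` for the `b i j G`.  Then `‖G (pt z ι)‖ ≤ C ‖z‖ ^ T` near `0`, and `cf_bd` with `A z ι = ρ (pt z ι)`, `g z ι = G (pt z ι)` (`hP`: `norm_an` for `R2` and `F = ρ + s (t - G)`, then for `R1`; `Fintype.prod_prod_type`) gives the bound at the points
over `z` with `c z ≠ 0` (`RSys.iff` for `R2`, `R1`: such a point is a `pt z ι`).  The other points are limits of such points: the set `c ≠ 0` is dense in the ball (identity theorem), and `opn` (`h3`: the zeros of `σ ((z, v), ·)` are the `β (z, v) j`; `h4`: the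
zeros of the norm of `ρ` on `(z, ·)` are the `α z i`).
-/

set_option autoImplicit false

open Topology Filter Metric

namespace Pool.Agent.G4.K

open Pool.Agent.AD (Vd)

private theorem sl_ne {ι : Type} [Finite ι] (f : ι → ℂ) (b : ℂ) : ∀ᶠ w in 𝓝[≠] b, ∀ i, w ≠ f i := by
  have h : {x : ℂ | x ∈ Set.range f ∧ x ≠ b}.Finite := (Set.finite_range f).subset (fun x hx => hx.1)
  have h1 : {x : ℂ | x ∈ Set.range f ∧ x ≠ b}ᶜ ∈ 𝓝 b := h.isClosed.isOpen_compl.mem_nhds (fun hx => hx.2 rfl)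
  filter_upwards [mem_nhdsWithin_of_mem_nhds h1, self_mem_nhdsWithin] with w hw hwb i hi
  exact hw ⟨⟨i, hi.symm⟩, hwb⟩

private theorem sl_nn (b : ℂ) {r : ℝ} (hb : ‖b‖ < r) : ∀ᶠ w in 𝓝[≠] b, ‖w‖ ≤ r := by
  have h : {w : ℂ | ‖w‖ < r} ∈ 𝓝 b := (isOpen_lt continuous_norm continuous_const).mem_nhds hb
  filter_upwards [mem_nhdsWithin_of_mem_nhds h] with w hw
  exact le_of_lt hw

theorem sw_lc {d : ℕ} {σ ρ : (Vd d × ℂ) × ℂ → ℂ} {δ r₁ r₂ : ℝ} {U : Set (Vd d × ℂ)} {n₁ n₂ : ℕ} {α : Vd d → Fin n₁ → ℂ} {β : Vd d × ℂ → Fin n₂ → ℂ} (H : Lc σ ρ δ r₁ r₂ U α β)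
    (T : ℕ) : ∃ Φ : Fin (n₁ * n₂) → (Fin d → Fin T) → ((Vd d × ℂ) × ℂ → ℂ) → ℂ,
      (∀ i j (G G' : (Vd d × ℂ) × ℂ → ℂ) (c : ℂ), (∀ z, AnalyticAt ℂ G z) → (∀ z, AnalyticAt ℂ G' z) → Φ i j (fun z => G z + c * G' z) = Φ i j G + c * Φ i j G') ∧
      ∀ (G : (Vd d × ℂ) × ℂ → ℂ) (S : ℝ), (∀ z, AnalyticAt ℂ G z) →
        (∀ p : (Vd d × ℂ) × ℂ, ‖p.1.1‖ < δ → ‖p.1.2‖ < r₁ → ‖p.2‖ < r₂ → σ p = 0 → ρ p = 0 → ‖G p‖ ≤ S) → (∀ i j, Φ i j G = 0) →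
        ∀ p : (Vd d × ℂ) × ℂ, ‖p.1.1‖ < δ / 2 → ‖p.1.2‖ < r₁ → ‖p.2‖ < r₂ → σ p = 0 → ρ p = 0 → ‖G p‖ ≤ S * (((n₁ * n₂ : ℕ) + 1) * 2 ^ (n₁ * n₂) * (1 / 2) ^ T) := by
  classical
  have hsub := H.sub
  obtain ⟨A2, A2an, A2lin, A2cong, A2val⟩ := H.R2.div
  obtain ⟨A1, A1an, A1lin, A1cong, A1val⟩ := H.R1.div
  obtain ⟨Ψ, Ψlin, Ψcong, Ψbd⟩ := tay d T
  have h0 : (0 : Vd d) ∈ ball (0 : Vd d) δ := mem_ball_self H.pos
  have hball : ball (0 : Vd d) δ ∈ 𝓝 (0 : Vd d) := isOpen_ball.mem_nhds h0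
  -- analyticity of the coefficients
  have hA2 : ∀ G : (Vd d × ℂ) × ℂ → ℂ, (∀ z, AnalyticAt ℂ G z) → ∀ j, ∀ x ∈ ball (0 : Vd d) δ, ∀ w : ℂ, ‖w‖ ≤ r₁ → AnalyticAt ℂ (A2 j G) (x, w) :=
    fun G hG j x hx w hw => A2an j G (fun _ _ _ _ => hG _) _ (hsub x hx w hw)
  have hbA : ∀ G : (Vd d × ℂ) × ℂ → ℂ, (∀ z, AnalyticAt ℂ G z) → ∀ i j, ∀ x ∈ ball (0 : Vd d) δ, AnalyticAt ℂ (A1 i (A2 j G)) x :=
    fun G hG i j x hx => A1an i _ (hA2 G hG j) x hx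
  have hblin : ∀ (G G' : (Vd d × ℂ) × ℂ → ℂ) (c : ℂ), (∀ z, AnalyticAt ℂ G z) → (∀ z, AnalyticAt ℂ G' z) → ∀ i j, ∀ x ∈ ball (0 : Vd d) δ,
      A1 i (A2 j (fun z => G z + c * G' z)) x = A1 i (A2 j G) x + c * A1 i (A2 j G') x := by
    intro G G' c hG hG' i j x hx
    rw [A1cong i (A2 j (fun z => G z + c * G' z)) (fun p => A2 j G p + c * A2 j G' p) x hx
      (fun w hw => A2lin j G G' c (fun _ _ _ _ => hG _) (fun _ _ _ _ => hG' _) (x, w) (hsub x hx w hw))]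
    exact A1lin i _ _ c (hA2 G hG j) (hA2 G' hG' j) x hx
  refine ⟨fun e k G => Ψ k (A1 (finProdFinEquiv.symm e).1 (A2 (finProdFinEquiv.symm e).2 G)), ?_, ?_⟩
  · intro e k G G' c hG hG'
    have h1 : A1 (finProdFinEquiv.symm e).1 (A2 (finProdFinEquiv.symm e).2 (fun z => G z + c * G' z)) =ᶠ[𝓝 0]
        fun z => A1 (finProdFinEquiv.symm e).1 (A2 (finProdFinEquiv.symm e).2 G) z + c * A1 (finProdFinEquiv.symm e).1 (A2 (finProdFinEquiv.symm e).2 G') z := by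
      filter_upwards [hball] with x hx
      exact hblin G G' c hG hG' _ _ x hx
    show Ψ k _ = Ψ k _ + c * Ψ k _
    rw [Ψcong k _ _ h1]
    exact Ψlin k _ _ c (hbA G hG _ _ 0 h0) (hbA G' hG' _ _ 0 h0)
  intro G S hG hGS hΦ
  -- the points over z
  have hpt : ∀ z ∈ ball (0 : Vd d) δ, ∀ i, (z, α z i) ∈ U := fun z hz i => hsub z hz _ (H.R1.lt z hz i).le
  -- the coefficients vanish to order T
  have hb : ∀ i j, ∃ C : ℝ, 0 ≤ C ∧ ∀ᶠ z in 𝓝 (0 : Vd d), ‖A1 i (A2 j G) z‖ ≤ C * ‖z‖ ^ T := by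
    intro i j
    refine Ψbd _ (hbA G hG i j 0 h0) (fun k => ?_)
    have := hΦ (finProdFinEquiv (i, j)) k
    simpa using this
  choose C hC0 hC using hb
  have hCe : ∀ᶠ z in 𝓝 (0 : Vd d), ∀ i j, ‖A1 i (A2 j G) z‖ ≤ C i j * ‖z‖ ^ T :=
    eventually_all.2 fun i => eventually_all.2 fun j => hC i j
  have hT : ∀ᶠ z in 𝓝 (0 : Vd d), ∀ ij : Fin n₁ × Fin n₂, ρ ((z, α z ij.1), β (z, α z ij.1) ij.2) = 0 →
      ‖G ((z, α z ij.1), β (z, α z ij.1) ij.2)‖ ≤ (∑ j : Fin n₂, ∑ i : Fin n₁, C i j * r₁ ^ (i : ℕ) * r₂ ^ (j : ℕ)) * ‖z‖ ^ T := by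
    filter_upwards [hCe, hball] with z hz hzb ij _
    have hU := hpt z hzb ij.1
    have e1 : G ((z, α z ij.1), β (z, α z ij.1) ij.2) = ∑ j, A2 j G (z, α z ij.1) * β (z, α z ij.1) ij.2 ^ (j : ℕ) :=
      A2val G (fun _ _ _ _ => hG _) _ hU ij.2
    have e2 : ∀ j, A2 j G (z, α z ij.1) = ∑ i, A1 i (A2 j G) z * α z ij.1 ^ (i : ℕ) :=
      fun j => A1val (A2 j G) (hA2 G hG j) z hzb ij.1
    rw [e1, Finset.sum_mul]
    refine (norm_sum_le _ _).trans (Finset.sum_le_sum fun j _ => ?_)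
    rw [e2 j, Finset.sum_mul, Finset.sum_mul]
    refine (norm_sum_le _ _).trans (Finset.sum_le_sum fun i _ => ?_)
    rw [norm_mul, norm_mul, norm_pow, norm_pow]
    have ha : ‖α z ij.1‖ ^ (i : ℕ) ≤ r₁ ^ (i : ℕ) := pow_le_pow_left₀ (norm_nonneg _) (H.R1.lt z hzb ij.1).le _
    have hbb : ‖β (z, α z ij.1) ij.2‖ ^ (j : ℕ) ≤ r₂ ^ (j : ℕ) := pow_le_pow_left₀ (norm_nonneg _) (H.R2.lt _ hU ij.2).le _
    have hr₁ := H.R1.pos
    have hr₂ := H.R2.pos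
    calc ‖A1 i (A2 j G) z‖ * ‖α z ij.1‖ ^ (i : ℕ) * ‖β (z, α z ij.1) ij.2‖ ^ (j : ℕ)
        ≤ (C i j * ‖z‖ ^ T) * r₁ ^ (i : ℕ) * r₂ ^ (j : ℕ) := by
          have h1 : 0 ≤ C i j * ‖z‖ ^ T := mul_nonneg (hC0 i j) (by positivity)
          gcongr
          exact hz i j
      _ = C i j * r₁ ^ (i : ℕ) * r₂ ^ (j : ℕ) * ‖z‖ ^ T := by ring
  have hP : ∀ s t : ℂ, ∀ x ∈ ball (0 : Vd d) δ, AnalyticAt ℂ (fun x => ∏ ij : Fin n₁ × Fin n₂,
      (ρ ((x, α x ij.1), β (x, α x ij.1) ij.2) + s * (t - G ((x, α x ij.1), β (x, α x ij.1) ij.2)))) x := by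
    intro s t x hx
    have hN : ∀ x ∈ U, AnalyticAt ℂ (fun x => ∏ j, (ρ (x, β x j) + s * (t - G (x, β x j)))) x :=
      H.R2.norm_an (F := fun p => ρ p + s * (t - G p)) (fun x hx w hw => (H.an x hx w hw).add (analyticAt_const.mul (analyticAt_const.sub (hG _))))
    have hM := H.R1.norm_an (F := fun y => ∏ j, (ρ (y, β y j) + s * (t - G (y, β y j)))) (fun z hz w hw => hN _ (hsub z hz w hw)) x hx
    simpa only [Fintype.prod_prod_type] using hM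
  have hS : ∀ x ∈ ball (0 : Vd d) δ, ∀ ij : Fin n₁ × Fin n₂, ρ ((x, α x ij.1), β (x, α x ij.1) ij.2) = 0 → ‖G ((x, α x ij.1), β (x, α x ij.1) ij.2)‖ ≤ S := by
    intro x hx ij h
    have hU := hpt x hx ij.1
    exact hGS _ (by simpa using hx) (H.R1.lt x hx ij.1) (H.R2.lt _ hU ij.2) ((H.R2.iff hU (H.R2.lt _ hU ij.2).le).2 ⟨ij.2, rfl⟩) h
  obtain ⟨c, hc1, ⟨x₁, hx₁, hcx₁⟩, hc3⟩ := cf_bd H.pos hP hS hT
  -- dense open set
  have hfreq : ∀ z ∈ ball (0 : Vd d) δ, ∃ᶠ z' in 𝓝 z, c z' ≠ 0 := by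
    intro z hz h
    refine hcx₁ ?_
    have hcon : AnalyticOnNhd ℂ c (ball (0 : Vd d) δ) := hc1
    have := hcon.eqOn_zero_of_preconnected_of_eventuallyEq_zero (convex_ball (0 : Vd d) δ).isPreconnected hz
      (by filter_upwards [h] with y hy; simpa using hy)
    exact this hx₁
  rintro ⟨⟨z₀, a⟩, b⟩ hz₀ ha hb hσ0 hρ0
  simp only at hz₀ ha hb
  have hz₀δ : z₀ ∈ ball (0 : Vd d) δ := by
    have : δ / 2 < δ := half_lt_self H.pos
    simpa using hz₀.trans this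
  have hU₀ : (z₀, a) ∈ U := hsub z₀ hz₀δ a ha.le
  have h3 : ∀ᶠ w in 𝓝[≠] b, σ ((z₀, a), w) ≠ 0 := by
    filter_upwards [sl_ne (β (z₀, a)) b, sl_nn b hb] with w h1 h2 h4
    obtain ⟨i, hi⟩ := (H.R2.iff hU₀ h2).1 h4
    exact h1 i hi
  have h4 : ∀ᶠ v in 𝓝[≠] a, ∀ w : ℂ, ‖w - b‖ < r₂ - ‖b‖ → σ ((z₀, v), w) = 0 → ρ ((z₀, v), w) ≠ 0 := by
    filter_upwards [sl_ne (α z₀) a, sl_nn a ha] with v h1 h2 w hw h5 h6
    have hUv : (z₀, v) ∈ U := hsub z₀ hz₀δ v h2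
    have hw' : ‖w‖ ≤ r₂ := by
      have : ‖w‖ ≤ ‖w - b‖ + ‖b‖ := by simpa using norm_add_le (w - b) b
      linarith
    obtain ⟨j, hj⟩ := (H.R2.iff hUv hw').1 h5
    have h7 : ∏ j, ρ ((z₀, v), β (z₀, v) j) = 0 := Finset.prod_eq_zero (Finset.mem_univ j) (by rw [← hj]; exact h6)
    obtain ⟨i, hi⟩ := (H.R1.iff hz₀δ h2).1 h7
    exact h1 i hi
  by_contra hcon
  rw [not_le] at hcon
  have hM : (S * (((Fintype.card (Fin n₁ × Fin n₂) : ℕ) + 1) * 2 ^ Fintype.card (Fin n₁ × Fin n₂) * (1 / 2) ^ T) : ℝ)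
      = S * (((n₁ * n₂ : ℕ) + 1) * 2 ^ (n₁ * n₂) * (1 / 2) ^ T) := by
    rw [Fintype.card_prod, Fintype.card_fin, Fintype.card_fin]
  have hopen : {p : (Vd d × ℂ) × ℂ | S * (((n₁ * n₂ : ℕ) + 1) * 2 ^ (n₁ * n₂) * (1 / 2) ^ T) < ‖G p‖ ∧ ‖p.1.1‖ < δ / 2 ∧ ‖p.1.2‖ < r₁ ∧ ‖p.2‖ < r₂} ∈ 𝓝 ((z₀, a), b) := by
    have c1 : ContinuousAt (fun p => ‖G p‖) ((z₀, a), b) := (hG _).continuousAt.norm
    filter_upwards [c1.eventually (lt_mem_nhds hcon),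
      (isOpen_lt (f := fun p : (Vd d × ℂ) × ℂ => ‖p.1.1‖) (by fun_prop) continuous_const).mem_nhds hz₀,
      (isOpen_lt (f := fun p : (Vd d × ℂ) × ℂ => ‖p.1.2‖) (by fun_prop) continuous_const).mem_nhds ha,
      (isOpen_lt (f := fun p : (Vd d × ℂ) × ℂ => ‖p.2‖) (by fun_prop) continuous_const).mem_nhds hb] with p h1 h2 h3 h4
    exact ⟨h1, h2, h3, h4⟩
  obtain ⟨ε, hε, hεb⟩ := Metric.mem_nhds_iff.1 hopen
  have hop := opn (H.R2.an _ hU₀ b hb.le) (H.an _ hU₀ b hb.le) hσ0 hρ0 h3 (sub_pos.2 hb) h4 hε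
  obtain ⟨z, hcz, ⟨v, w, hv, hw, hσ, hρ⟩, hzε⟩ := ((hfreq z₀ hz₀δ).and_eventually (hop.and (ball_mem_nhds z₀ hε))).exists
  have hmem : (((z, v), w) : (Vd d × ℂ) × ℂ) ∈ ball (((z₀, a), b) : (Vd d × ℂ) × ℂ) ε := by
    rw [mem_ball, Prod.dist_eq, Prod.dist_eq]
    refine max_lt (max_lt hzε ?_) ?_
    · simpa [dist_eq_norm] using hv
    · simpa [dist_eq_norm] using hw
  obtain ⟨k1, k2, k3, k4⟩ := hεb hmem
  simp only at k1 k2 k3 k4
  have hzδ2 : z ∈ ball (0 : Vd d) (δ / 2) := by simpa using k2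
  have hzδ : z ∈ ball (0 : Vd d) δ := ball_subset_ball (half_lt_self H.pos).le hzδ2
  have hUz : (z, v) ∈ U := hsub z hzδ v k3.le
  obtain ⟨j, hj⟩ := (H.R2.iff hUz k4.le).1 hσ
  have h7 : ∏ j, ρ ((z, v), β (z, v) j) = 0 := Finset.prod_eq_zero (Finset.mem_univ j) (by rw [← hj]; exact hρ)
  obtain ⟨i, hi⟩ := (H.R1.iff hzδ k3.le).1 h7
  have hfin := hc3 z hzδ2 hcz (i, j)
  simp only at hfin
  rw [← hi, ← hj] at hfin
  have hle := hfin hρ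
  rw [hM] at hle
  exact absurd hle (not_le.2 k1)

end Pool.Agent.G4.K

end

section

/-!
# G4 K Sz: local complete intersections of codimension `2` have the Schwarz property
-/

set_option autoImplicit false

open Topology Filter Metric

namespace Pool.Agent.G4.K

open Pool.Agent.AD (Vd)

theorem sw_of_ci {k d : ℕ} (hk : d + 1 = k) {Z : Set (Vd (k + 1))} (hZ : CI Z) : Sw d Z := by
  intro y hy
  obtain ⟨σ, ρ, hσ, hρ, h1, h2, h3⟩ := hZ y hy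
  obtain ⟨ε, hε, hε2⟩ := Metric.eventually_nhds_iff_ball.1 h2
  have hy0 := (hε2 y (mem_ball_self hε)).1 hy
  obtain ⟨L, δ, r₁, r₂, U, n₁, n₂, α, β, H, hL⟩ := exists_lc hk hσ hρ hy0.1 hy0.2 h1 h3 (ε := min ε 1) (lt_min hε one_pos)
  have han : ∀ G : Vd (k + 1) → ℂ, (∀ z, AnalyticAt ℂ G z) → ∀ z, AnalyticAt ℂ (fun p : (Vd d × ℂ) × ℂ => G (y + L p)) z := by
    intro G hG z
    exact AnalyticAt.fun_comp (hG _) (analyticAt_const.add ((L : ((Vd d × ℂ) × ℂ) →L[ℂ] Vd (k + 1)).analyticAt z))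
  refine ⟨n₁ * n₂, ((n₁ * n₂ : ℕ) + 1) * 2 ^ (n₁ * n₂), by positivity, {z | ‖(L.symm (z - y)).1.1‖ < δ / 2 ∧ ‖(L.symm (z - y)).1.2‖ < r₁ ∧ ‖(L.symm (z - y)).2‖ < r₂}, ?_, fun T => ?_⟩
  · have hc : Continuous fun z : Vd (k + 1) => L.symm (z - y) := L.symm.continuous.comp (continuous_id.sub continuous_const)
    have ho : IsOpen {z : Vd (k + 1) | ‖(L.symm (z - y)).1.1‖ < δ / 2 ∧ ‖(L.symm (z - y)).1.2‖ < r₁ ∧ ‖(L.symm (z - y)).2‖ < r₂} :=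
      (isOpen_lt (continuous_norm.comp (continuous_fst.comp (continuous_fst.comp hc))) continuous_const).inter
        ((isOpen_lt (continuous_norm.comp (continuous_snd.comp (continuous_fst.comp hc))) continuous_const).inter (isOpen_lt (continuous_norm.comp (continuous_snd.comp hc)) continuous_const))
    refine ho.mem_nhds ?_
    have h4 := H.pos
    have h5 := H.R1.pos
    have h6 := H.R2.pos
    simp [h4, h5, h6]
  · obtain ⟨Φ, hΦ1, hΦ2⟩ := sw_lc H T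
    refine ⟨fun i j G => Φ i j fun p => G (y + L p), fun i j G G' c hG hG' => hΦ1 i j _ _ c (han G hG) (han G' hG'), fun G S hG hS h0 z hz hzU => ?_⟩
    have hS0 : 0 ≤ S := (norm_nonneg _).trans (hS y hy (by simp))
    have key := hΦ2 (fun p => G (y + L p)) S (han G hG) (fun p hp1 hp2 hp3 hp4 hp5 => by
      have h4 := hL p hp1 hp2.le hp3.le
      refine hS _ ((hε2 (y + L p) ?_).2 ⟨hp4, hp5⟩) ?_
      · rw [mem_ball, dist_eq_norm, add_sub_cancel_left]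
        exact h4.trans_le (min_le_left _ _)
      · rw [add_sub_cancel_left]
        exact (h4.trans_le (min_le_right _ _)).le) h0 (L.symm (z - y)) hzU.1 hzU.2.1 hzU.2.2
    have h4 : y + L (L.symm (z - y)) = z := by
      rw [ContinuousLinearEquiv.apply_symm_apply]
      abel
    simp only [h4] at key
    have h5 : ‖z - y‖ < min ε 1 := by
      have h6 := hL (L.symm (z - y)) (hzU.1.trans (by linarith [H.pos])) hzU.2.1.le hzU.2.2.le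
      rwa [ContinuousLinearEquiv.apply_symm_apply] at h6
    have h6 := (hε2 z (by rw [mem_ball, dist_eq_norm]; exact h5.trans_le (min_le_left _ _))).1 hz
    refine (key h6.1 h6.2).trans (mul_le_mul_of_nonneg_left (mul_le_mul_of_nonneg_left ?_ (by positivity)) hS0)
    exact pow_le_pow_left₀ (by norm_num) (by norm_num) T

end Pool.Agent.G4.K

end
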