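import Pool.Agent.H94.PX2.M05
import Pool.Agent.H94.PX2.M27
import Pool.Agent.H94.PX2.M38

/-! The parts of this file: G4.H.Dir, PX.Circ, G4.H.Ser, G4.H.Dim. -/

section

/-!
# G4 H Dir: the derivatives in the direction `a`

`dir_iter_per`: if the derivatives of `f` of the orders `< j` vanish at `y` and at `y + lv b c`, then those of order `j` transform with the factor (the functions `z ↦ f (y + z a)` and `z ↦ f (y + lv b c + z a)` have zeros of order `≥ j` at `0`).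
`dir_zero`: the order of the zero of `z ↦ f (y + z a)`.
-/

set_option autoImplicit false

open Topology Filter Metric

namespace Pool.Agent.G4.H

open Pool.Agent.AD (Vd)
open Pool.Agent.G3 (wt)

variable {k r : ℕ} {a : Vd (k + 1)} {f g : Vd (k + 1) → ℂ}

private lemma dir_an1 (hf : ∀ y, AnalyticAt ℂ f y) : ∀ y, AnalyticAt ℂ (dir a f) y := by
  intro y
  have h1 : AnalyticAt ℂ (fderiv ℂ f) y := (hf y).fderiv
  exact ((ContinuousLinearMap.apply ℂ ℂ a).analyticAt (fderiv ℂ f y)).comp h1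

theorem dir_an (hf : ∀ y, AnalyticAt ℂ f y) (j : ℕ) : ∀ y, AnalyticAt ℂ ((dir a)^[j] f) y := by
  induction j with
  | zero => simpa using hf
  | succ j ih =>
    rw [Function.iterate_succ_apply']
    exact dir_an1 ih

theorem dir_lin (hf : ∀ y, AnalyticAt ℂ f y) (hg : ∀ y, AnalyticAt ℂ g y) (c : ℂ) (j : ℕ) :
    (dir a)^[j] (fun y => f y + c * g y) = fun y => (dir a)^[j] f y + c * (dir a)^[j] g y := by
  induction j with
  | zero => simp
  | succ j ih =>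
    rw [Function.iterate_succ_apply', ih, Function.iterate_succ_apply', Function.iterate_succ_apply']
    funext y
    have h1 : DifferentiableAt ℂ ((dir a)^[j] f) y := (dir_an hf j y).differentiableAt
    have h2 : DifferentiableAt ℂ ((dir a)^[j] g) y := (dir_an hg j y).differentiableAt
    have h3 := (h1.hasFDerivAt.add (h2.hasFDerivAt.const_mul c)).fderiv
    have h4 : fderiv ℂ (fun y => (dir a)^[j] f y + c * (dir a)^[j] g y) y = fderiv ℂ ((dir a)^[j] f) y + c • fderiv ℂ ((dir a)^[j] g) y := h3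
    simp only [dir, h4]
    rfl

private lemma hasDeriv_line {F : Vd (k + 1) → ℂ} (hF : ∀ y, AnalyticAt ℂ F y) (y : Vd (k + 1)) (z : ℂ) : HasDerivAt (fun w : ℂ => F (y + w • a)) (dir a F (y + z • a)) z := by
  have h1 : HasFDerivAt F (fderiv ℂ F (y + z • a)) (y + z • a) := (hF _).differentiableAt.hasFDerivAt
  have h2 : HasDerivAt (fun w : ℂ => y + w • a) a z := by
    have h3 : HasDerivAt (fun w : ℂ => w • a) ((1 : ℂ) • a) z := (hasDerivAt_id z).smul_const a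
    rw [one_smul] at h3
    exact h3.const_add y
  exact h1.comp_hasDerivAt z h2

private lemma diff_line {F : Vd (k + 1) → ℂ} (hF : ∀ y, AnalyticAt ℂ F y) (y : Vd (k + 1)) : Differentiable ℂ (fun w : ℂ => F (y + w • a)) :=
  fun z => (hasDeriv_line hF y z).differentiableAt

theorem dir_line (hf : ∀ y, AnalyticAt ℂ f y) (j : ℕ) (y : Vd (k + 1)) (z : ℂ) : iteratedDeriv j (fun w : ℂ => f (y + w • a)) z = (dir a)^[j] f (y + z • a) := by
  induction j generalizing z with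
  | zero => simp
  | succ j ih =>
    rw [iteratedDeriv_succ, Function.iterate_succ_apply']
    have h1 : iteratedDeriv j (fun w : ℂ => f (y + w • a)) = fun w : ℂ => (dir a)^[j] f (y + w • a) := funext ih
    rw [h1]
    exact (hasDeriv_line (dir_an hf j) y z).deriv

private lemma iter_pow (z₀ : ℂ) (l : ℕ) : ∀ G : ℂ → ℂ, Differentiable ℂ G → iteratedDeriv l (fun z => (z - z₀) ^ l * G z) z₀ = (l.factorial : ℂ) * G z₀ := by
  induction l with
  | zero => intro G _; simp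
  | succ l ih =>
    intro G hG
    rw [iteratedDeriv_succ']
    have h1 : deriv (fun z => (z - z₀) ^ (l + 1) * G z) = fun z => (z - z₀) ^ l * (((l : ℂ) + 1) * G z + (z - z₀) * deriv G z) := by
      funext z
      have h2 : HasDerivAt (fun z : ℂ => (z - z₀) ^ (l + 1)) (((l + 1 : ℕ) : ℂ) * (z - z₀) ^ l * 1) z := by
        exact ((hasDerivAt_id z).sub_const z₀).pow (l + 1)
      have h3 := (h2.mul (hG z).hasDerivAt).deriv
      have h4 : deriv (fun z => (z - z₀) ^ (l + 1) * G z) z = ((l + 1 : ℕ) : ℂ) * (z - z₀) ^ l * 1 * G z + (z - z₀) ^ (l + 1) * deriv G z := h3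
      rw [h4]
      push_cast
      ring
    rw [h1, ih (fun z => ((l : ℂ) + 1) * G z + (z - z₀) * deriv G z)]
    · simp [Nat.factorial_succ]
      ring
    · have h5 : Differentiable ℂ (deriv G) := by
        intro z
        exact ((hG.analyticAt z).deriv).differentiableAt
      exact (hG.const_mul _).add (((differentiable_id).sub_const z₀).mul h5)

private lemma div_one {G : ℂ → ℂ} (hG : Differentiable ℂ G) {z₀ : ℂ} (h0 : G z₀ = 0) : ∃ g : ℂ → ℂ, Differentiable ℂ g ∧ ∀ z, G z = (z - z₀) * g z := by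
  refine ⟨dslope G z₀, ?_, fun z => ?_⟩
  · have h1 : DifferentiableOn ℂ (dslope G z₀) Set.univ := (Complex.differentiableOn_dslope Filter.univ_mem).2 hG.differentiableOn
    exact differentiableOn_univ.1 h1
  · have h2 := sub_smul_dslope G z₀ z
    rw [smul_eq_mul, h0, sub_zero] at h2
    exact h2.symm

private lemma div_pow {φ : ℂ → ℂ} (hφ : Differentiable ℂ φ) {z₀ : ℂ} (l : ℕ) (h : ∀ j < l, iteratedDeriv j φ z₀ = 0) : ∃ g : ℂ → ℂ, Differentiable ℂ g ∧ ∀ z, φ z = (z - z₀) ^ l * g z := by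
  induction l with
  | zero => exact ⟨φ, hφ, fun z => by simp⟩
  | succ l ih =>
    obtain ⟨g, hg, h1⟩ := ih fun j hj => h j (by omega)
    have h2 : φ = fun z => (z - z₀) ^ l * g z := funext h1
    have h3 := h l (by omega)
    rw [h2, iter_pow z₀ l g hg] at h3
    have h4 : g z₀ = 0 := by
      rcases mul_eq_zero.1 h3 with h5 | h5
      · exact absurd h5 (by exact_mod_cast Nat.factorial_ne_zero l)
      · exact h5
    obtain ⟨g', hg', h6⟩ := div_one hg h4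
    refine ⟨g', hg', fun z => ?_⟩
    rw [h1 z, h6 z]
    ring

/-- if the derivatives of order `< l` vanish at `y + z₀ a` then `z ↦ f (y + z a)` is divisible by `(z - z₀) ^ l` -/
theorem dir_zero (hf : ∀ y, AnalyticAt ℂ f y) {l : ℕ} {y : Vd (k + 1)} {z₀ : ℂ} (h : ∀ j < l, (dir a)^[j] f (y + z₀ • a) = 0) :
    ∃ g : ℂ → ℂ, Differentiable ℂ g ∧ ∀ z, f (y + z • a) = (z - z₀) ^ l * g z :=
  div_pow (diff_line hf y) l fun j hj => by rw [dir_line hf j y z₀]; exact h j hj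

theorem dir_iter_per {h : Vd (k + 1) → ℂ} (hh : ∀ y, AnalyticAt ℂ h y) (hf : ∀ y, AnalyticAt ℂ f y) {v : Vd (k + 1)} (hper : ∀ y, h y * f (y + v) = f y) {j : ℕ} {y : Vd (k + 1)}
    (h0 : ∀ i < j, (dir a)^[i] f (y + v) = 0) : h y * (dir a)^[j] f (y + v) = (dir a)^[j] f y := by
  obtain ⟨G, hG, h1⟩ := dir_zero (a := a) hf (l := j) (y := y + v) (z₀ := 0) (by simpa using h0)
  have h2 : (fun w : ℂ => f (y + v + w • a)) = fun w : ℂ => (w - 0) ^ j * G w := funext h1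
  have h3 : (fun w : ℂ => f (y + w • a)) = fun w : ℂ => (w - 0) ^ j * (h (y + w • a) * G w) := by
    funext w
    rw [← hper (y + w • a)]
    have : y + w • a + v = y + v + w • a := by abel
    rw [this, h1 w]
    ring
  have h4 := dir_line (a := a) hf j (y + v) 0
  have h5 := dir_line (a := a) hf j y 0
  rw [h2, iter_pow 0 j G hG] at h4
  rw [h3, iter_pow 0 j (fun w : ℂ => h (y + w • a) * G w) ((diff_line hh y).mul hG)] at h5
  simp only [zero_smul, add_zero] at h4 h5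
  rw [← h4, ← h5]
  ring

end Pool.Agent.G4.H

end

section

/-!
# PX Circ: circles over `Gd D δ`

As `G4/A/GeoC` (`GeoC_circ`), for all directions with `A₁ ≤ ‖a‖ ≤ A₂` at once: for fixed `(y₀, a₀)` almost all circles around `0` avoid the countable set of the hits; distance `≥ 2 δ` by compactness; the same circle works for `(y, a)` near `(y₀, a₀)`; finitely many pairs
suffice (`y` modulo `Λ`).
-/

set_option autoImplicit false

open Topology Filter Metric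

namespace Pool.Agent.PX

open Pool.Agent.H36.BP (EN fs wd)
open Pool.Agent.H62.EF (MN)
open Pool.Agent.AD (Vd)
open Pool.Agent.TG (Lat Gd)
open Pool.Agent.G3 (wt)
open Pool.Agent.G4 (Few)

variable {k d r : ℕ}

variable {Λ : AddSubgroup (Vd (k + 1))} {D : Set (Vd (k + 1))} {Bad : Vd (k + 1) → Set (Vd (k + 1))} {θ : Fin (d + 1) → Vd (k + 1) → ℂ}
  {W : Fin r → Vd (k + 1) →L[ℂ] ℂ}

private theorem Circ_iso {a : Vd (k + 1)} (hi : ∀ y : Vd (k + 1), ∀ᶠ z in 𝓝[≠] (0 : ℂ), y + z • a ∉ D) (y : Vd (k + 1)) (z₀ : ℂ) :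
    ∃ ε : ℝ, 0 < ε ∧ ∀ z : ℂ, z ≠ z₀ → ‖z - z₀‖ < ε → y + z • a ∉ D := by
  have h1 := hi (y + z₀ • a)
  rw [eventually_nhdsWithin_iff, Metric.eventually_nhds_iff] at h1
  obtain ⟨ε, hε, h2⟩ := h1
  refine ⟨ε, hε, fun z hz hlt => ?_⟩
  have h3 := h2 (y := z - z₀) (by rw [dist_zero_right]; exact hlt) (by
    simp only [Set.mem_compl_iff, Set.mem_singleton_iff]
    exact sub_ne_zero.2 hz)
  have e : y + z₀ • a + (z - z₀) • a = y + z • a := by rw [sub_smul]; abel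
  rwa [e] at h3

private theorem Circ_countable {a : Vd (k + 1)} (hi : ∀ y : Vd (k + 1), ∀ᶠ z in 𝓝[≠] (0 : ℂ), y + z • a ∉ D) (y : Vd (k + 1)) :
    {z : ℂ | y + z • a ∈ D}.Countable := by
  set S : Set ℂ := {z : ℂ | y + z • a ∈ D} with hS
  have hd : DiscreteTopology S := by
    rw [discreteTopology_subtype_iff]
    intro z hz
    obtain ⟨ε, hε, h⟩ := Circ_iso hi y z
    rw [← disjoint_iff, Filter.disjoint_principal_right, mem_nhdsWithin]
    refine ⟨ball z ε, isOpen_ball, mem_ball_self hε, ?_⟩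
    rintro w ⟨hw1, hw2⟩ hwS
    exact h w hw2 (by rw [← dist_eq_norm]; exact hw1) hwS
  have : Countable S := by
    have := hd
    exact countable_of_Lindelof_of_discrete
  exact this

private theorem Circ_dist {a : Vd (k + 1)} (hD : IsClosed D) {K : Set ℂ} (hK : IsCompact K) (y : Vd (k + 1)) (h : ∀ z ∈ K, y + z • a ∉ D) :
    ∃ c : ℝ, 0 < c ∧ ∀ z ∈ K, y + z • a ∈ Gd D c := by
  have hc : IsCompact ((fun z : ℂ => y + z • a) '' K) := hK.image (by fun_prop)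
  have hdis : Disjoint ((fun z : ℂ => y + z • a) '' K) D := by
    rw [Set.disjoint_left]
    rintro _ ⟨z, hz, rfl⟩
    exact h z hz
  obtain ⟨c, hc0, hd2⟩ := hdis.exists_thickenings hc hD
  refine ⟨c, hc0, fun z hz b hb => ?_⟩
  by_contra hlt
  push Not at hlt
  refine (Set.disjoint_left.1 hd2) (a := b) ?_ ?_
  · rw [mem_thickening_iff]
    exact ⟨y + z • a, ⟨z, hz, rfl⟩, by rw [dist_comm, dist_eq_norm]; exact hlt⟩
  · rw [mem_thickening_iff]
    exact ⟨b, hb, by rw [dist_self]; exact hc0⟩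

private theorem Circ_circle {a : Vd (k + 1)} (hD : IsClosed D) (hi : ∀ y : Vd (k + 1), ∀ᶠ z in 𝓝[≠] (0 : ℂ), y + z • a ∉ D) (y : Vd (k + 1)) {r₁ r₂ : ℝ} (h12 : r₁ < r₂) :
    ∃ s : ℝ, r₁ < s ∧ s < r₂ ∧ ∃ c : ℝ, 0 < c ∧ ∀ z : ℂ, ‖z‖ = s → y + z • a ∈ Gd D c := by
  have h1 : ((fun z : ℂ => ‖z‖) '' {z : ℂ | y + z • a ∈ D}).Countable := (Circ_countable hi y).image _
  have h2 : ¬ (Set.Ioo r₁ r₂).Countable := by
    intro h
    have h3 : Set.Ioo r₁ r₂ = ∅ ∨ r₂ ≤ r₁ := by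
      by_contra hcon
      push Not at hcon
      have := Cardinal.mk_Ioo_real hcon.2
      have h4 := Cardinal.le_aleph0_iff_set_countable.2 h
      rw [this] at h4
      exact absurd h4 (not_le.2 Cardinal.aleph0_lt_continuum)
    rcases h3 with h3 | h3
    · exact (Set.nonempty_Ioo.2 h12).ne_empty h3
    · linarith
  have h3 : ∃ s ∈ Set.Ioo r₁ r₂, s ∉ (fun z : ℂ => ‖z‖) '' {z : ℂ | y + z • a ∈ D} := by
    by_contra hcon
    push Not at hcon
    exact h2 (h1.mono fun s hs => hcon s hs)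
  obtain ⟨s, hs, hs2⟩ := h3
  have hK : IsCompact (sphere (0 : ℂ) s) := isCompact_sphere 0 s
  obtain ⟨c, hc, hc2⟩ := Circ_dist (a := a) hD hK y (fun z hz hzD => hs2 ⟨z, hzD, by rwa [mem_sphere_zero_iff_norm] at hz⟩)
  exact ⟨s, hs.1, hs.2, c, hc, fun z hz => hc2 z (by rwa [mem_sphere_zero_iff_norm])⟩

theorem PD.circ (P : PD Λ D Bad θ W) {A₁ A₂ ρ : ℝ} (hA₁ : 0 < A₁) (hρ : 0 < ρ) : ∃ δ : ℝ, 0 < δ ∧ ∀ y a : Vd (k + 1), A₁ ≤ ‖a‖ → ‖a‖ ≤ A₂ →
    ∃ s : ℝ, 0 < s ∧ s ≤ ρ ∧ ∀ z : ℂ, ‖z‖ = s → y + z • a ∈ Gd D δ := by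
  obtain ⟨R, hR, hcov⟩ := P.lat.cpt
  have hcpt : IsCompact (closedBall (0 : Vd (k + 1)) R ×ˢ (closedBall (0 : Vd (k + 1)) A₂ ∩ {a : Vd (k + 1) | A₁ ≤ ‖a‖})) :=
    (isCompact_closedBall _ _).prod ((isCompact_closedBall _ _).inter_right (isClosed_le continuous_const continuous_norm))
  have h1 : ∃ δ : ℝ, 0 < δ ∧ ∀ p ∈ closedBall (0 : Vd (k + 1)) R ×ˢ (closedBall (0 : Vd (k + 1)) A₂ ∩ {a : Vd (k + 1) | A₁ ≤ ‖a‖}),
      ∃ s : ℝ, 0 < s ∧ s ≤ ρ ∧ ∀ z : ℂ, ‖z‖ = s → p.1 + z • p.2 ∈ Gd D δ := by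
    refine hcpt.induction_on (p := fun S : Set (Vd (k + 1) × Vd (k + 1)) => ∃ δ : ℝ, 0 < δ ∧ ∀ p ∈ S,
      ∃ s : ℝ, 0 < s ∧ s ≤ ρ ∧ ∀ z : ℂ, ‖z‖ = s → p.1 + z • p.2 ∈ Gd D δ) ?_ ?_ ?_ ?_
    · exact ⟨1, one_pos, fun p hp => absurd hp (Set.notMem_empty p)⟩
    · rintro S T hST ⟨δ, hδ, hQ⟩
      exact ⟨δ, hδ, fun p hp => hQ p (hST hp)⟩
    · rintro S T ⟨δ, hδ, hQ⟩ ⟨δ', hδ', hQ'⟩
      refine ⟨min δ δ', lt_min hδ hδ', fun p hp => ?_⟩
      rcases hp with hp | hp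
      · obtain ⟨s, h1, h2, h3⟩ := hQ p hp
        exact ⟨s, h1, h2, fun z hz b hb => (min_le_left _ _).trans (h3 z hz b hb)⟩
      · obtain ⟨s, h1, h2, h3⟩ := hQ' p hp
        exact ⟨s, h1, h2, fun z hz b hb => (min_le_right _ _).trans (h3 z hz b hb)⟩
    · rintro ⟨y₀, a₀⟩ ⟨_, _, ha₀⟩
      have ha0 : a₀ ≠ 0 := norm_pos_iff.1 (hA₁.trans_le ha₀)
      obtain ⟨s, h1, h2, c, hc, h3⟩ := Circ_circle (a := a₀) P.D_closed (P.iso a₀ ha0) y₀ hρ
      have hopen : (ball y₀ (c / 4) ×ˢ ball a₀ (c / (4 * s))) ∈ 𝓝 (y₀, a₀) :=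
        prod_mem_nhds (ball_mem_nhds _ (by positivity)) (ball_mem_nhds _ (by positivity))
      refine ⟨_, mem_nhdsWithin_of_mem_nhds hopen, c / 2, by linarith, ?_⟩
      rintro ⟨y, a⟩ ⟨hy, ha⟩
      refine ⟨s, h1, h2.le, fun z hz b hb => ?_⟩
      rw [mem_ball, dist_eq_norm] at hy ha
      simp only at hy ha ⊢
      have h4 := h3 z hz b hb
      have h5 : ‖y₀ + z • a₀ - b‖ ≤ ‖y + z • a - b‖ + (‖y - y₀‖ + ‖z‖ * ‖a - a₀‖) := by
        have e : y₀ + z • a₀ - b = (y + z • a - b) - ((y - y₀) + z • (a - a₀)) := by rw [smul_sub]; abel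
        rw [e]
        refine (norm_sub_le _ _).trans ?_
        gcongr
        refine (norm_add_le _ _).trans ?_
        rw [norm_smul]
      have h6 : ‖z‖ * ‖a - a₀‖ ≤ c / 4 := by
        rw [hz]
        have h7 : s * ‖a - a₀‖ ≤ s * (c / (4 * s)) := by gcongr
        have h8 : s * (c / (4 * s)) = c / 4 := by field_simp
        linarith
      linarith
  obtain ⟨δ, hδ, hQ⟩ := h1
  refine ⟨δ, hδ, fun y a ha1 ha2 => ?_⟩
  obtain ⟨l, hl, hlR⟩ := hcov y
  obtain ⟨s, h1, h2, h3⟩ := hQ (y - l, a) ⟨by simpa using hlR, by simpa using ha2, ha1⟩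
  refine ⟨s, h1, h2, fun z hz b hb => ?_⟩
  have h4 := h3 z hz _ (P.D_inv b hb (-l) (Λ.neg_mem hl))
  have e : y - l + z • a - (b + -l) = y + z • a - b := by abel
  simp only at h4
  rwa [e] at h4

end Pool.Agent.PX

end

section

/-!
# G4 H Ser: the theta series

`pk_norm`: `‖pk W M p y‖ * exp (- M wt y) = exp (- M wt (y - p))`.  `term_norm`: so the terms of the series satisfy `‖e (lv b c) y ^ M * pk W M p (y + lv b c)‖ * exp (- M wt y) = exp (- M wt (y + lv b c - p))`.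
`gsum`: `∑ c, exp (- M wt (y + lv b c - p))` converges, locally uniformly in `y` (`wt_low`, `lv_low`: `wt (y + lv b c - p) ≥ c₀ (κ ∑ |c i| - R)²₊ ≥ κ' ∑ |c i| - R'`).
`th_thm`: `th b W e M p` is analytic (locally uniform limit of analytic functions: differentiable by `hasFDerivAt_tsum` with Cauchy bounds, or restrict to finite sums and use a Weierstrass theorem of the library) and quasi-periodic: from `ThF.coc`
`e (lv b c') y ^ M * e (lv b c) (y + lv b c') ^ M = e (lv b (c + c')) y ^ M`, reindex the sum.  `th_norm`: the bound by the sum of the norms; `th_diag`: the term with `y + lv b c = p` has size `1`.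
-/

set_option autoImplicit false

open Topology Filter Metric

namespace Pool.Agent.G4.H

open Pool.Agent.AD (Vd)
open Pool.Agent.TG (Lat)
open Pool.Agent.G3 (wt)

variable {k r : ℕ} {Γ : AddSubgroup (Vd (k + 1))} {W : Fin r → Vd (k + 1) →L[ℂ] ℂ} {e : Vd (k + 1) → Vd (k + 1) → ℂ} {b : RB k} {M : ℕ}

theorem pk_norm (W : Fin r → Vd (k + 1) →L[ℂ] ℂ) (M : ℕ) (p y : Vd (k + 1)) : ‖pk W M p y‖ * Real.exp (-(M * wt W y)) = Real.exp (-(M * wt W (y - p))) := by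
  unfold pk wt
  rw [Complex.norm_exp, ← Real.exp_add]
  congr 1
  have e1 : ((M : ℂ) * ∑ i, (2 * (starRingEnd ℂ) (W i p) * W i y - (starRingEnd ℂ) (W i p) * W i p)).re =
      (M : ℝ) * ∑ i, (2 * (starRingEnd ℂ) (W i p) * W i y - (starRingEnd ℂ) (W i p) * W i p).re := by
    rw [← Complex.re_sum, ← Complex.re_ofReal_mul, Complex.ofReal_natCast]
  rw [e1, ← mul_neg, ← mul_neg, ← mul_add, ← Finset.sum_neg_distrib, ← Finset.sum_neg_distrib, ← Finset.sum_add_distrib]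
  congr 1
  refine Finset.sum_congr rfl fun i _ => ?_
  rw [map_sub, ← Complex.normSq_eq_norm_sq, ← Complex.normSq_eq_norm_sq]
  simp only [Complex.normSq_apply, Complex.sub_re, Complex.sub_im, Complex.mul_re, Complex.mul_im, Complex.conj_re, Complex.conj_im, Complex.re_ofNat, Complex.im_ofNat]
  ring

theorem term_norm (T : ThF Γ W e) (hb : ∀ i, b i ∈ Γ) (M : ℕ) (p y : Vd (k + 1)) (c : Fin (2 * (k + 1)) → ℤ) :
    ‖e (lv b c) y ^ M * pk W M p (y + lv b c)‖ * Real.exp (-(M * wt W y)) = Real.exp (-(M * wt W (y + lv b c - p))) := by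
  rw [norm_mul, norm_pow, T.nrm _ (lv_mem hb c) y, ← pk_norm W M p (y + lv b c), ← Real.exp_nat_mul]
  have e1 : Real.exp ((M : ℝ) * (wt W y - wt W (y + lv b c))) = Real.exp (-(M * wt W (y + lv b c))) * Real.exp (M * wt W y) := by
    rw [← Real.exp_add]
    congr 1
    ring
  have e2 : Real.exp ((M : ℝ) * wt W y) * Real.exp (-(M * wt W y)) = 1 := by
    rw [← Real.exp_add, add_neg_cancel, Real.exp_zero]
  rw [e1]
  calc Real.exp (-(M * wt W (y + lv b c))) * Real.exp (M * wt W y) * ‖pk W M p (y + lv b c)‖ * Real.exp (-(M * wt W y))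
      = ‖pk W M p (y + lv b c)‖ * Real.exp (-(M * wt W (y + lv b c))) * (Real.exp ((M : ℝ) * wt W y) * Real.exp (-(M * wt W y))) := by ring
    _ = _ := by rw [e2, mul_one]

private theorem ser_prod (g : ℤ → ℝ) (hg0 : ∀ k, 0 ≤ g k) (hs : Summable g) (n : ℕ) :
    Summable fun k : Fin n → ℤ => ∏ j, g (k j) := by
  induction n with
  | zero => exact Summable.of_finite
  | succ n ih =>
    rw [← (Fin.consEquiv fun _ : Fin (n + 1) => ℤ).summable_iff]
    have h1 := hs.mul_of_nonneg ih hg0 (fun k => Finset.prod_nonneg fun j _ => hg0 _)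
    refine h1.congr fun k => ?_
    simp [Fin.prod_univ_succ, Fin.consEquiv]

private theorem ser_int {a : ℝ} (ha : 0 < a) : Summable fun k : ℤ => Real.exp (-(a * |(k : ℝ)|)) := by
  have h0 : Summable fun n : ℕ => Real.exp (-a) ^ n := by
    refine summable_geometric_of_lt_one (Real.exp_pos _).le ?_
    rw [Real.exp_lt_one_iff]
    linarith
  have h1 : ∀ n : ℕ, Real.exp (-(a * (n : ℝ))) = Real.exp (-a) ^ n := fun n => by
    rw [← Real.exp_nat_mul]
    congr 1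
    ring
  refine Summable.of_nat_of_neg ?_ ?_
  · simp only [Int.cast_natCast, Nat.abs_cast, h1]
    exact h0
  · simp only [Int.cast_neg, Int.cast_natCast, abs_neg, Nat.abs_cast, h1]
    exact h0

private theorem ser_sum {a : ℝ} (ha : 0 < a) (n : ℕ) : Summable fun c : Fin n → ℤ => Real.exp (-(a * ∑ i, |(c i : ℝ)|)) := by
  have e : (fun c : Fin n → ℤ => Real.exp (-(a * ∑ i, |(c i : ℝ)|))) = fun c : Fin n → ℤ => ∏ i, Real.exp (-(a * |(c i : ℝ)|)) := by
    funext c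
    rw [← Real.exp_sum, Finset.mul_sum, ← Finset.sum_neg_distrib]
  rw [e]
  exact ser_prod (fun k => Real.exp (-(a * |(k : ℝ)|))) (fun k => (Real.exp_pos _).le) (ser_int ha) n

/-- the weights of the translates grow -/
private theorem ser_wt (hW : ∀ y, (∀ i, W i y = 0) → y = 0) (b : RB k) (R : ℝ) :
    ∃ α β : ℝ, 0 < α ∧ ∀ y : Vd (k + 1), ‖y‖ ≤ R → ∀ c, α * ∑ i, |(c i : ℝ)| - β ≤ wt W (y + lv b c) := by
  obtain ⟨c₀, hc₀, h0⟩ := wt_low hW
  obtain ⟨κ, hκ, h1⟩ := lv_low b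
  refine ⟨2 * c₀ * κ, c₀ * (2 * R + 1), by positivity, fun y hy c => ?_⟩
  have h2 := h0 (y + lv b c)
  have h3 := h1 c
  have h4 : ‖lv b c‖ ≤ ‖y + lv b c‖ + ‖y‖ := by
    calc ‖lv b c‖ = ‖(y + lv b c) - y‖ := by rw [add_sub_cancel_left]
      _ ≤ _ := norm_sub_le _ _
  have h5 : 2 * ‖y + lv b c‖ - 1 ≤ ‖y + lv b c‖ ^ 2 := by nlinarith only [sq_nonneg (‖y + lv b c‖ - 1)]
  have h6 : 2 * (κ * ∑ i, |(c i : ℝ)| - R) - 1 ≤ ‖y + lv b c‖ ^ 2 := by linarith only [hy, h3, h4, h5]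
  calc 2 * c₀ * κ * ∑ i, |(c i : ℝ)| - c₀ * (2 * R + 1) = c₀ * (2 * (κ * ∑ i, |(c i : ℝ)| - R) - 1) := by ring
    _ ≤ c₀ * ‖y + lv b c‖ ^ 2 := mul_le_mul_of_nonneg_left h6 hc₀.le
    _ ≤ _ := h2

/-- for large `s` the terms with `c ≠ 0` are small -/
theorem gsum_small (hW : ∀ y, (∀ i, W i y = 0) → y = 0) (b : RB k) : ∃ K : ℕ, 1 ≤ K ∧ ∀ s : ℝ, K ≤ s →
    ∀ S : Finset (Fin (2 * (k + 1)) → ℤ), (0 : Fin (2 * (k + 1)) → ℤ) ∉ S → ∑ c ∈ S, Real.exp (-(s * wt W (lv b c))) ≤ 1 / 4 := by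
  obtain ⟨c₀, hc₀, h0⟩ := wt_low hW
  obtain ⟨κ, hκ, h1⟩ := lv_low b
  set a : ℝ := c₀ * κ ^ 2 with ha
  have ha0 : 0 < a := by positivity
  have hsm := ser_sum ha0 (2 * (k + 1))
  set C : ℝ := ∑' c : Fin (2 * (k + 1)) → ℤ, Real.exp (-(a * ∑ i, |(c i : ℝ)|)) with hC
  have hC0 : 0 ≤ C := tsum_nonneg fun c => (Real.exp_pos _).le
  refine ⟨⌈4 * C / a⌉₊ + 1, by omega, fun s hs S hS => ?_⟩
  have hs1 : 4 * C / a + 1 ≤ s := by
    refine le_trans ?_ hs
    push_cast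
    linarith only [Nat.le_ceil (4 * C / a)]
  have hs2 : 4 * C ≤ (s - 1) * a := by
    rw [← div_le_iff₀ ha0]
    linarith only [hs1]
  have hs3 : 1 ≤ s := by
    have : 0 ≤ 4 * C / a := by positivity
    linarith only [hs1, this]
  have hterm : ∀ c ∈ S, Real.exp (-(s * wt W (lv b c))) ≤ Real.exp (-((s - 1) * a)) * Real.exp (-(a * ∑ i, |(c i : ℝ)|)) := by
    intro c hc
    rw [← Real.exp_add]
    refine Real.exp_le_exp.2 ?_
    have hne : c ≠ 0 := fun h => hS (h ▸ hc)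
    have hS1 : 1 ≤ ∑ i, |(c i : ℝ)| := by
      obtain ⟨i, hi⟩ := Function.ne_iff.1 hne
      have h2 : (1 : ℝ) ≤ |(c i : ℝ)| := by
        have h3 : (1 : ℤ) ≤ |c i| := Int.one_le_abs hi
        have h4 : ((1 : ℤ) : ℝ) ≤ ((|c i| : ℤ) : ℝ) := Int.cast_le.2 h3
        rw [Int.cast_abs, Int.cast_one] at h4
        exact h4
      exact h2.trans (Finset.single_le_sum (f := fun i => |(c i : ℝ)|) (fun j _ => abs_nonneg _) (Finset.mem_univ i))
    set t : ℝ := ∑ i, |(c i : ℝ)| with ht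
    have h2 : a * t ^ 2 ≤ wt W (lv b c) := by
      have h3 : (κ * t) ^ 2 ≤ ‖lv b c‖ ^ 2 := pow_le_pow_left₀ (by positivity) (h1 c) 2
      calc a * t ^ 2 = c₀ * (κ * t) ^ 2 := by rw [ha]; ring
        _ ≤ c₀ * ‖lv b c‖ ^ 2 := mul_le_mul_of_nonneg_left h3 hc₀.le
        _ ≤ _ := h0 _
    have h3 : a * t ≤ a * t ^ 2 := by
      refine mul_le_mul_of_nonneg_left ?_ ha0.le
      nlinarith only [hS1]
    have h4 : s * (a * t) ≤ s * wt W (lv b c) := mul_le_mul_of_nonneg_left (h3.trans h2) (by linarith)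
    have h5 : (s - 1) * a ≤ (s - 1) * a * t := by
      refine le_mul_of_one_le_right ?_ hS1
      exact mul_nonneg (by linarith) ha0.le
    nlinarith only [h4, h5]
  calc ∑ c ∈ S, Real.exp (-(s * wt W (lv b c))) ≤ ∑ c ∈ S, Real.exp (-((s - 1) * a)) * Real.exp (-(a * ∑ i, |(c i : ℝ)|)) := Finset.sum_le_sum hterm
    _ = Real.exp (-((s - 1) * a)) * ∑ c ∈ S, Real.exp (-(a * ∑ i, |(c i : ℝ)|)) := by rw [Finset.mul_sum]
    _ ≤ Real.exp (-((s - 1) * a)) * C := by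
        refine mul_le_mul_of_nonneg_left ?_ (Real.exp_pos _).le
        exact hsm.sum_le_tsum S fun c _ => (Real.exp_pos _).le
    _ ≤ 1 / 4 := by
        rw [Real.exp_neg, inv_mul_le_iff₀ (Real.exp_pos _)]
        have h6 := Real.add_one_le_exp ((s - 1) * a)
        linarith only [hs2, h6]

private theorem ser_pk_diff (W : Fin r → Vd (k + 1) →L[ℂ] ℂ) (M : ℕ) (p : Vd (k + 1)) : Differentiable ℂ (pk W M p) := by
  unfold pk
  refine Complex.differentiable_exp.comp ?_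
  refine (Differentiable.const_mul ?_ _)
  refine Differentiable.fun_sum fun i _ => ?_
  exact ((W i).differentiable.const_mul _).sub_const _

/-- the terms are holomorphic -/
private theorem ser_term (T : ThF Γ W e) (hb : ∀ i, b i ∈ Γ) (M : ℕ) (p : Vd (k + 1)) (c : Fin (2 * (k + 1)) → ℤ) :
    Differentiable ℂ fun y => e (lv b c) y ^ M * pk W M p (y + lv b c) := by
  have h1 : Differentiable ℂ (e (lv b c)) := fun y => (T.an _ (lv_mem hb c) y).differentiableAt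
  have h2 : Differentiable ℂ fun y : Vd (k + 1) => pk W M p (y + lv b c) :=
    (ser_pk_diff W M p).comp (differentiable_id.add_const _)
  exact (h1.pow M).mul h2

/-- bounds of the terms, uniform on a ball -/
private theorem ser_bound (T : ThF Γ W e) (hb : ∀ i, b i ∈ Γ) (hM : 1 ≤ M) (p w : Vd (k + 1)) :
    ∃ v : (Fin (2 * (k + 1)) → ℤ) → ℝ, Summable v ∧ ∀ c, ∀ y ∈ ball w 1, ‖e (lv b c) y ^ M * pk W M p (y + lv b c)‖ ≤ v c := by
  obtain ⟨α, β, hα, h⟩ := ser_wt T.pos b (‖w - p‖ + 1)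
  have hM0 : (0 : ℝ) < M := by exact_mod_cast hM
  set B : ℝ := ∑ i, (‖W i‖ * (‖w‖ + 1)) ^ 2 with hB
  have hBw : ∀ y ∈ ball w 1, wt W y ≤ B := by
    intro y hy
    rw [mem_ball, dist_eq_norm] at hy
    refine Finset.sum_le_sum fun i _ => ?_
    refine pow_le_pow_left₀ (norm_nonneg _) (((W i).le_opNorm y).trans ?_) 2
    refine mul_le_mul_of_nonneg_left ?_ (norm_nonneg _)
    calc ‖y‖ = ‖(y - w) + w‖ := by rw [sub_add_cancel]
      _ ≤ ‖y - w‖ + ‖w‖ := norm_add_le _ _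
      _ ≤ ‖w‖ + 1 := by linarith
  refine ⟨fun c => Real.exp (M * B + M * β) * Real.exp (-(M * α * ∑ i, |(c i : ℝ)|)),
    (ser_sum (mul_pos hM0 hα) (2 * (k + 1))).mul_left _, fun c y hy => ?_⟩
  have h1 := term_norm T hb M p y c
  have h2 : ‖e (lv b c) y ^ M * pk W M p (y + lv b c)‖ = Real.exp (-(M * wt W (y + lv b c - p))) * Real.exp (M * wt W y) := by
    rw [← h1, mul_assoc, ← Real.exp_add, neg_add_cancel, Real.exp_zero, mul_one]
  rw [h2, ← Real.exp_add]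
  show _ ≤ Real.exp (M * B + M * β) * Real.exp (-(M * α * ∑ i, |(c i : ℝ)|))
  rw [← Real.exp_add]
  refine Real.exp_le_exp.2 ?_
  have h3 : ‖y - p‖ ≤ ‖w - p‖ + 1 := by
    rw [mem_ball, dist_eq_norm] at hy
    calc ‖y - p‖ = ‖(y - w) + (w - p)‖ := by rw [sub_add_sub_cancel]
      _ ≤ ‖y - w‖ + ‖w - p‖ := norm_add_le _ _
      _ ≤ ‖w - p‖ + 1 := by linarith only [hy]
  have h4 := mul_le_mul_of_nonneg_left (h (y - p) h3 c) hM0.le
  have h5 := mul_le_mul_of_nonneg_left (hBw y hy) hM0.le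
  have h6 : y - p + lv b c = y + lv b c - p := by abel
  rw [h6] at h4
  linarith only [h4, h5]

theorem th_thm (T : ThF Γ W e) (hb : ∀ i, b i ∈ Γ) (hM : 1 ≤ M) (p : Vd (k + 1)) : ThM b e M (th b W e M p) := by
  refine ⟨fun w => ?_, fun c y => ?_⟩
  · obtain ⟨v, hv, hvb⟩ := ser_bound T hb hM p w
    refine Pool.Agent.TN.osgood_pi (r := 1) (M := ∑' c, v c) one_pos (fun y hy => ?_) fun y hy l => ?_
    · exact tsum_of_norm_bounded hv.hasSum fun c => hvb c y hy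
    · obtain ⟨s, hs, hsb⟩ := Metric.isOpen_iff.1 (isOpen_ball (x := w) (ε := 1)) y hy
      have hmaps : Set.MapsTo (fun t : ℂ => y + t • (Pi.single l 1 : Vd (k + 1))) (ball 0 s) (ball w 1) := by
        intro t ht
        apply hsb
        rw [mem_ball, dist_eq_norm, add_sub_cancel_left, norm_smul]
        rw [mem_ball, dist_zero_right] at ht
        have h1 : ‖(Pi.single l 1 : Vd (k + 1))‖ ≤ 1 := by
          refine (pi_norm_le_iff_of_nonneg zero_le_one).2 fun j => ?_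
          by_cases hj : j = l
          · subst hj
            simp
          · simp [Pi.single_eq_of_ne hj]
        calc ‖t‖ * ‖(Pi.single l 1 : Vd (k + 1))‖ ≤ ‖t‖ * 1 := by gcongr
          _ < s := by rw [mul_one]; exact ht
      have h2 : DifferentiableOn ℂ (fun t : ℂ => ∑' c : Fin (2 * (k + 1)) → ℤ,
          (e (lv b c) (y + t • (Pi.single l 1 : Vd (k + 1))) ^ M * pk W M p ((y + t • (Pi.single l 1 : Vd (k + 1))) + lv b c))) (ball 0 s) := by
        refine Complex.differentiableOn_tsum_of_summable_norm hv (fun c => ?_) isOpen_ball fun c t ht => hvb c _ (hmaps ht)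
        have h4 : Differentiable ℂ (fun t : ℂ => y + t • (Pi.single l 1 : Vd (k + 1))) := by fun_prop
        exact ((ser_term T hb M p c).comp h4).differentiableOn
      exact h2.differentiableAt (isOpen_ball.mem_nhds (mem_ball_self hs))
  · unfold th
    rw [← tsum_mul_left, ← (Equiv.addRight c).tsum_eq fun c'' : Fin (2 * (k + 1)) → ℤ => e (lv b c'') y ^ M * pk W M p (y + lv b c'')]
    refine tsum_congr fun c' => ?_
    rw [Equiv.coe_addRight, lv_add, T.coc _ (lv_mem hb c') _ (lv_mem hb c) y, mul_pow, add_comm (lv b c') (lv b c), ← add_assoc]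
    ring

theorem th_summable (T : ThF Γ W e) (hb : ∀ i, b i ∈ Γ) (hM : 1 ≤ M) (p y : Vd (k + 1)) :
    Summable fun c : Fin (2 * (k + 1)) → ℤ => ‖e (lv b c) y ^ M * pk W M p (y + lv b c)‖ := by
  obtain ⟨v, hv, hvb⟩ := ser_bound T hb hM p y
  exact Summable.of_nonneg_of_le (fun c => norm_nonneg _) (fun c => hvb c y (mem_ball_self one_pos)) hv

end Pool.Agent.G4.H

end

section

/-!
# G4 H Dim: the dimension of the space of the theta functions of weight `M wt W` is at least `m ^ (2 (k + 1))`, `M = K m²`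

`b`, `K` from `exists_rb`, `gsum_small`.  `p j = (1 / m) lv b j`, `j : Fin (2 (k + 1)) → Fin m`, `M = K * m ^ 2`.  For `x : (Fin (2 (k + 1)) → Fin m) → ℂ`, `f = ∑ j, x j • th b W e M (p j)`; take `j₀` with `‖x j‖ ≤ ‖x j₀‖` for all `j`; at `y = p j₀`:
the term `(j₀, c = 0)` of `∑ j, x j ∑' c, …` has normalised size `‖x j₀‖`; the other terms `(j, c)` have total size `≤ ‖x j₀‖ ∑ exp (- M wt (p j₀ + lv b c - p j))`, `p j₀ + lv b c - p j = (1 / m) lv b (j₀ - j + m c)`, `(j, c) ↦ j₀ - j + m c`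
injective and `≠ 0`, `M wt ((1 / m) v) = K wt v`: by `gsum_small` `≤ ‖x j₀‖ / 4`.  So `f (p j₀) ≠ 0` if `x ≠ 0`.  With fewer than `m ^ (2 (k + 1))` linear conditions there is `x ≠ 0` which satisfies all of them.
-/

set_option autoImplicit false

open Topology Filter Metric

namespace Pool.Agent.G4.H

open Pool.Agent.AD (Vd)
open Pool.Agent.TG (Lat)
open Pool.Agent.G3 (wt)

variable {k r : ℕ} {Γ : AddSubgroup (Vd (k + 1))} {W : Fin r → Vd (k + 1) →L[ℂ] ℂ} {e : Vd (k + 1) → Vd (k + 1) → ℂ}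

private theorem lv_comb (b : RB k) {m : ℕ} (hm : 1 ≤ m) (i j c : Fin (2 * (k + 1)) → ℤ) :
    (1 / (m : ℝ)) • lv b j + lv b c - (1 / (m : ℝ)) • lv b i = (1 / (m : ℝ)) • lv b (fun a => j a - i a + m * c a) := by
  have hm' : (m : ℝ) ≠ 0 := by exact_mod_cast (by omega : m ≠ 0)
  simp only [lv, Finset.smul_sum, ← Finset.sum_add_distrib, ← Finset.sum_sub_distrib, smul_smul, ← add_smul, ← sub_smul]
  refine Finset.sum_congr rfl fun a _ => ?_
  congr 1
  push_cast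
  field_simp
  ring

private theorem wt_div (W : Fin r → Vd (k + 1) →L[ℂ] ℂ) {m : ℕ} (hm : 1 ≤ m) (K : ℕ) (v : Vd (k + 1)) :
    ((K * m ^ 2 : ℕ) : ℝ) * wt W ((1 / (m : ℝ)) • v) = K * wt W v := by
  have hm' : (m : ℝ) ≠ 0 := by exact_mod_cast (by omega : m ≠ 0)
  have : wt W ((1 / (m : ℝ)) • v) = (1 / (m : ℝ)) ^ 2 * wt W v := by
    simp only [wt, Finset.mul_sum]
    refine Finset.sum_congr rfl fun i _ => ?_
    rw [ContinuousLinearMap.map_smul_of_tower, norm_smul, mul_pow, Real.norm_eq_abs, sq_abs]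
  rw [this]
  push_cast
  field_simp

private theorem idx_inj {ι : Type} {m : ℕ} (j i i' : ι → Fin m) (c c' : ι → ℤ)
    (h : (fun a => ((j a : ℕ) : ℤ) - ((i a : ℕ) : ℤ) + m * c a) = fun a => ((j a : ℕ) : ℤ) - ((i' a : ℕ) : ℤ) + m * c' a) : i = i' ∧ c = c' := by
  have h1 : ∀ a, ((i a : ℕ) : ℤ) - ((i' a : ℕ) : ℤ) = m * (c a - c' a) := fun a => by
    have := congrFun h a
    linarith
  have h2 : ∀ a, c a = c' a := by
    intro a
    have hi := (i a).2
    have hi' := (i' a).2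
    have e := h1 a
    by_contra hne
    rcases lt_or_gt_of_ne hne with hlt | hgt
    · have : (m : ℤ) * (c a - c' a) ≤ m * (-1) := mul_le_mul_of_nonneg_left (by omega) (by omega)
      omega
    · have : (m : ℤ) * 1 ≤ m * (c a - c' a) := mul_le_mul_of_nonneg_left (by omega) (by omega)
      omega
  refine ⟨?_, funext h2⟩
  funext a
  have e := h1 a
  rw [h2 a, sub_self, mul_zero] at e
  exact Fin.ext (by omega)

private theorem lv_zero (b : RB k) : lv b 0 = 0 := by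
  simp [lv]

private theorem main_bd (T : ThF Γ W e) {b : RB k} (hb : ∀ i, b i ∈ Γ) {K m : ℕ} (hm : 1 ≤ m)
    (hK : ∀ s : ℝ, K ≤ s → ∀ S : Finset (Fin (2 * (k + 1)) → ℤ), (0 : Fin (2 * (k + 1)) → ℤ) ∉ S → ∑ c ∈ S, Real.exp (-(s * wt W (lv b c))) ≤ 1 / 4)
    (x : (Fin (2 * (k + 1)) → Fin m) → ℂ) (j₀ : Fin (2 * (k + 1)) → Fin m) (hj : ∀ i, ‖x i‖ ≤ ‖x j₀‖) (S : Finset (Fin (2 * (k + 1)) → ℤ)) (hS : {0} ⊆ S)
    (p : (Fin (2 * (k + 1)) → Fin m) → Vd (k + 1)) (hp : ∀ i, p i = (1 / (m : ℝ)) • lv b (fun a => ((i a : ℕ) : ℤ))) :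
    ‖x j₀‖ * (3 / 4) ≤ ‖∑ c ∈ S, ∑ i, x i * (e (lv b c) (p j₀) ^ (K * m ^ 2) * pk W (K * m ^ 2) (p i) (p j₀ + lv b c))‖ * Real.exp (-(((K * m ^ 2 : ℕ) : ℝ) * wt W (p j₀))) := by
  classical
  set M : ℕ := K * m ^ 2 with hM
  set E : ℝ := Real.exp (-((M : ℝ) * wt W (p j₀))) with hE
  have hE0 : 0 < E := Real.exp_pos _
  set t : (Fin (2 * (k + 1)) → Fin m) × (Fin (2 * (k + 1)) → ℤ) → ℂ := fun q => x q.1 * (e (lv b q.2) (p j₀) ^ M * pk W M (p q.1) (p j₀ + lv b q.2)) with ht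
  have hsum : ∑ c ∈ S, ∑ i, x i * (e (lv b c) (p j₀) ^ M * pk W M (p i) (p j₀ + lv b c)) = ∑ q ∈ (Finset.univ : Finset (Fin (2 * (k + 1)) → Fin m)) ×ˢ S, t q := by
    rw [Finset.sum_product_right]
  have hmem : (j₀, (0 : Fin (2 * (k + 1)) → ℤ)) ∈ (Finset.univ : Finset (Fin (2 * (k + 1)) → Fin m)) ×ˢ S := by
    simp only [Finset.mem_product, Finset.mem_univ, true_and]
    exact hS (by simp)
  have htn : ∀ q, ‖t q‖ * E = ‖x q.1‖ * Real.exp (-(K * wt W (lv b (fun a => ((j₀ a : ℕ) : ℤ) - ((q.1 a : ℕ) : ℤ) + m * q.2 a)))) := by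
    intro q
    rw [ht]
    simp only
    rw [norm_mul, mul_assoc, hE, term_norm T hb M (p q.1) (p j₀) q.2, hp j₀, hp q.1, lv_comb b hm, hM, wt_div W hm]
  have h0 : ‖t (j₀, 0)‖ * E = ‖x j₀‖ := by
    rw [htn]
    have : (fun a => ((j₀ a : ℕ) : ℤ) - ((j₀ a : ℕ) : ℤ) + m * (0 : Fin (2 * (k + 1)) → ℤ) a) = 0 := by
      funext a; simp
    simp only [this, lv_zero]
    simp [wt]
  have hrest : ‖∑ q ∈ ((Finset.univ : Finset (Fin (2 * (k + 1)) → Fin m)) ×ˢ S).erase (j₀, 0), t q‖ * E ≤ ‖x j₀‖ * (1 / 4) := by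
    calc ‖∑ q ∈ ((Finset.univ : Finset (Fin (2 * (k + 1)) → Fin m)) ×ˢ S).erase (j₀, 0), t q‖ * E
        ≤ (∑ q ∈ ((Finset.univ : Finset (Fin (2 * (k + 1)) → Fin m)) ×ˢ S).erase (j₀, 0), ‖t q‖) * E := mul_le_mul_of_nonneg_right (norm_sum_le _ _) hE0.le
      _ = ∑ q ∈ ((Finset.univ : Finset (Fin (2 * (k + 1)) → Fin m)) ×ˢ S).erase (j₀, 0), ‖x q.1‖ * Real.exp (-(K * wt W (lv b (fun a => ((j₀ a : ℕ) : ℤ) - ((q.1 a : ℕ) : ℤ) + m * q.2 a)))) := by
          rw [Finset.sum_mul]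
          exact Finset.sum_congr rfl fun q _ => htn q
      _ ≤ ∑ q ∈ ((Finset.univ : Finset (Fin (2 * (k + 1)) → Fin m)) ×ˢ S).erase (j₀, 0), ‖x j₀‖ * Real.exp (-(K * wt W (lv b (fun a => ((j₀ a : ℕ) : ℤ) - ((q.1 a : ℕ) : ℤ) + m * q.2 a)))) :=
          Finset.sum_le_sum fun q _ => mul_le_mul_of_nonneg_right (hj q.1) (Real.exp_pos _).le
      _ = ‖x j₀‖ * ∑ v ∈ (((Finset.univ : Finset (Fin (2 * (k + 1)) → Fin m)) ×ˢ S).erase (j₀, 0)).image (fun q a => ((j₀ a : ℕ) : ℤ) - ((q.1 a : ℕ) : ℤ) + m * q.2 a), Real.exp (-(K * wt W (lv b v))) := by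
          rw [← Finset.mul_sum, Finset.sum_image]
          intro q _ q' _ hqq
          obtain ⟨h1, h2⟩ := idx_inj j₀ q.1 q'.1 q.2 q'.2 hqq
          exact Prod.ext h1 h2
      _ ≤ ‖x j₀‖ * (1 / 4) := by
          refine mul_le_mul_of_nonneg_left (hK K le_rfl _ ?_) (norm_nonneg _)
          intro hmem0
          obtain ⟨q, hq, hq0⟩ := Finset.mem_image.1 hmem0
          have hq1 := (Finset.mem_erase.1 hq).1
          apply hq1
          have : (fun a => ((j₀ a : ℕ) : ℤ) - ((q.1 a : ℕ) : ℤ) + m * q.2 a) = fun a => ((j₀ a : ℕ) : ℤ) - ((j₀ a : ℕ) : ℤ) + m * (0 : Fin (2 * (k + 1)) → ℤ) a := by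
            rw [hq0]; funext a; simp
          obtain ⟨h1, h2⟩ := idx_inj j₀ q.1 j₀ q.2 0 this
          exact Prod.ext h1 h2
  rw [hsum, ← Finset.add_sum_erase _ _ hmem]
  have htri : ‖t (j₀, 0)‖ - ‖∑ q ∈ ((Finset.univ : Finset (Fin (2 * (k + 1)) → Fin m)) ×ˢ S).erase (j₀, 0), t q‖ ≤ ‖t (j₀, 0) + ∑ q ∈ ((Finset.univ : Finset (Fin (2 * (k + 1)) → Fin m)) ×ˢ S).erase (j₀, 0), t q‖ := by
    have := norm_sub_le (t (j₀, 0) + ∑ q ∈ ((Finset.univ : Finset (Fin (2 * (k + 1)) → Fin m)) ×ˢ S).erase (j₀, 0), t q) (∑ q ∈ ((Finset.univ : Finset (Fin (2 * (k + 1)) → Fin m)) ×ˢ S).erase (j₀, 0), t q)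
    rw [add_sub_cancel_right] at this
    linarith
  have := mul_le_mul_of_nonneg_right htri hE0.le
  rw [sub_mul] at this
  linarith

private theorem lin_sum (Φ : (Vd (k + 1) → ℂ) → ℂ)
    (hΦ : ∀ (f g : Vd (k + 1) → ℂ) (c : ℂ), (∀ y, AnalyticAt ℂ f y) → (∀ y, AnalyticAt ℂ g y) → Φ (fun y => f y + c * g y) = Φ f + c * Φ g)
    {ι : Type} (s : Finset ι) (x : ι → ℂ) (g : ι → Vd (k + 1) → ℂ) (hg : ∀ i, ∀ y, AnalyticAt ℂ (g i) y) :
    Φ (fun y => ∑ i ∈ s, x i * g i y) = ∑ i ∈ s, x i * Φ (g i) := by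
  classical
  induction s using Finset.induction_on with
  | empty =>
    have := hΦ (fun _ => 0) (fun _ => 0) (-1) (fun y => analyticAt_const) (fun y => analyticAt_const)
    simp only [mul_zero, add_zero] at this
    simp only [Finset.sum_empty]
    linear_combination this
  | insert a s ha ih =>
    have hs : ∀ y, AnalyticAt ℂ (fun y => ∑ i ∈ s, x i * g i y) y := fun y =>
      Finset.analyticAt_fun_sum s fun i _ => analyticAt_const.mul (hg i y)
    have := hΦ (fun y => ∑ i ∈ s, x i * g i y) (g a) (x a) hs (hg a)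
    rw [ih] at this
    have hfun : (fun y => ∑ i ∈ insert a s, x i * g i y) = fun y => ∑ i ∈ s, x i * g i y + x a * g a y := by
      funext y
      rw [Finset.sum_insert ha]
      ring
    rw [hfun, this, Finset.sum_insert ha]
    ring

theorem theta_ex (T : ThF Γ W e) {b : RB k} (hb : ∀ i, b i ∈ Γ) : ∃ K : ℕ, 1 ≤ K ∧ ∀ m : ℕ, 1 ≤ m → ∀ (J : Type) [Fintype J] (Φ : J → (Vd (k + 1) → ℂ) → ℂ),
    (∀ j (f g : Vd (k + 1) → ℂ) (c : ℂ), (∀ y, AnalyticAt ℂ f y) → (∀ y, AnalyticAt ℂ g y) → Φ j (fun y => f y + c * g y) = Φ j f + c * Φ j g) →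
    Fintype.card J < m ^ (2 * (k + 1)) → ∃ f : Vd (k + 1) → ℂ, ThM b e (K * m ^ 2) f ∧ (∃ y, f y ≠ 0) ∧ ∀ j, Φ j f = 0 := by
  classical
  obtain ⟨K, hK1, hK⟩ := gsum_small T.pos b
  refine ⟨K, hK1, fun m hm J _ Φ hΦ hcard => ?_⟩
  have hM1 : 1 ≤ K * m ^ 2 := Nat.one_le_iff_ne_zero.2 (by positivity)
  set p : (Fin (2 * (k + 1)) → Fin m) → Vd (k + 1) := fun i => (1 / (m : ℝ)) • lv b (fun a => ((i a : ℕ) : ℤ)) with hp
  set θ : (Fin (2 * (k + 1)) → Fin m) → Vd (k + 1) → ℂ := fun i => th b W e (K * m ^ 2) (p i) with hθ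
  have hθm : ∀ i, ThM b e (K * m ^ 2) (θ i) := fun i => th_thm T hb hM1 (p i)
  let L : ((Fin (2 * (k + 1)) → Fin m) → ℂ) →ₗ[ℂ] (J → ℂ) :=
    { toFun := fun x j => ∑ i, x i * Φ j (θ i)
      map_add' := fun x x' => by
        funext j; simp only [Pi.add_apply, add_mul, Finset.sum_add_distrib]
      map_smul' := fun c x => by
        funext j; simp only [Pi.smul_apply, smul_eq_mul, RingHom.id_apply, Finset.mul_sum, mul_assoc] }
  have hker : LinearMap.ker L ≠ ⊥ := by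
    apply LinearMap.ker_ne_bot_of_finrank_lt
    simpa [Module.finrank_fintype_fun_eq_card, Fintype.card_fun] using hcard
  obtain ⟨x, hxL, hx0⟩ := (Submodule.ne_bot_iff _).1 hker
  have hLx : ∀ j, ∑ i, x i * Φ j (θ i) = 0 := fun j => congrFun (LinearMap.mem_ker.1 hxL) j
  refine ⟨fun y => ∑ i, x i * θ i y, ⟨?_, ?_⟩, ?_, ?_⟩
  · exact fun y => Finset.analyticAt_fun_sum _ fun i _ => analyticAt_const.mul ((hθm i).an y)
  · intro c y
    rw [Finset.mul_sum]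
    refine Finset.sum_congr rfl fun i _ => ?_
    rw [← (hθm i).per c y]
    ring
  · obtain ⟨i₁, hi₁⟩ := Function.ne_iff.1 hx0
    have : Nonempty (Fin (2 * (k + 1)) → Fin m) := ⟨i₁⟩
    obtain ⟨j₀, hj₀⟩ := Finite.exists_max (fun i => ‖x i‖)
    have hxj : 0 < ‖x j₀‖ := lt_of_lt_of_le (norm_pos_iff.2 hi₁) (hj₀ i₁)
    refine ⟨p j₀, ?_⟩
    have hs : HasSum (fun c => ∑ i, x i * (e (lv b c) (p j₀) ^ (K * m ^ 2) * pk W (K * m ^ 2) (p i) (p j₀ + lv b c))) (∑ i, x i * θ i (p j₀)) := by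
      apply hasSum_sum
      intro i _
      exact ((th_summable T hb hM1 (p i) (p j₀)).of_norm.hasSum).mul_left (x i)
    have ht : Tendsto (fun S : Finset (Fin (2 * (k + 1)) → ℤ) => ‖∑ c ∈ S, ∑ i, x i * (e (lv b c) (p j₀) ^ (K * m ^ 2) * pk W (K * m ^ 2) (p i) (p j₀ + lv b c))‖ * Real.exp (-(((K * m ^ 2 : ℕ) : ℝ) * wt W (p j₀)))) atTop
        (𝓝 (‖∑ i, x i * θ i (p j₀)‖ * Real.exp (-(((K * m ^ 2 : ℕ) : ℝ) * wt W (p j₀))))) := (Tendsto.norm hs).mul_const _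
    have hge := ge_of_tendsto ht ((eventually_ge_atTop {0}).mono fun S hS => main_bd T hb hm hK x j₀ hj₀ S hS p (fun i => rfl))
    intro h0
    replace h0 : ∑ i, x i * θ i (p j₀) = 0 := h0
    rw [h0, norm_zero, zero_mul] at hge
    linarith
  · intro j
    rw [lin_sum (Φ j) (hΦ j) Finset.univ x θ fun i y => (hθm i).an y]
    exact hLx j

end Pool.Agent.G4.H

end
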