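import Pool.Agent.H94.PX2.G4.Simp
import Pool.Agent.H94.PX2.M08
import Pool.Agent.H94.PX2.M38

/-! The parts of this file: G4.H.Lb, PX.Kap, PX.Lip. -/

section

/-!
# G4 H Lb: lower and upper bounds of a theta function on the lines

`f ≠ 0` a theta function of weight `M wt W`: `{f = 0}` is analytic, invariant under `m Λ` (`lv_mul`, `ThM.per`, the factors are not `0`), so it contains no line (`G4.no_line` with `D = ∅`).  The functions `‖f y‖ exp (- M wt y)` and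
`y ↦ max over ‖z‖ ≤ 1 of ‖f (y + z a)‖ exp (- M wt (y + z a))` are continuous (or: lower semicontinuous) and invariant under the `lv b c`, so bounded above, resp. below by a positive constant (`lv_red`).
-/

set_option autoImplicit false

open Topology Filter Metric

namespace Pool.Agent.G4.H

open Pool.Agent.AD (Vd)
open Pool.Agent.TG (Lat)
open Pool.Agent.G3 (wt)

variable {k r : ℕ} {Λ Γ : AddSubgroup (Vd (k + 1))} {W : Fin r → Vd (k + 1) →L[ℂ] ℂ} {e : Vd (k + 1) → Vd (k + 1) → ℂ} {b : RB k} {M : ℕ} {f : Vd (k + 1) → ℂ}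

theorem thm_norm (T : ThF Γ W e) (hb : ∀ i, b i ∈ Γ) (hf : ThM b e M f) (c : Fin (2 * (k + 1)) → ℤ) (y : Vd (k + 1)) :
    ‖f (y + lv b c)‖ * Real.exp (-(M * wt W (y + lv b c))) = ‖f y‖ * Real.exp (-(M * wt W y)) := by
  have h1 := hf.per c y
  have h2 := T.nrm (lv b c) (lv_mem hb c) y
  rw [← h1, norm_mul, norm_pow, h2, ← Real.exp_nat_mul]
  have h3 : Real.exp (-(M * wt W (y + lv b c))) =
      Real.exp (M * (wt W y - wt W (y + lv b c))) * Real.exp (-(M * wt W y)) := by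
    rw [← Real.exp_add]
    congr 1
    ring
  rw [h3]
  ring

/-- the weight is continuous -/
private theorem wt_cont (W : Fin r → Vd (k + 1) →L[ℂ] ℂ) : Continuous fun y : Vd (k + 1) => wt W y := by
  unfold wt
  exact continuous_finsetSum _ fun i _ => ((W i).continuous.norm).pow 2

/-- the invariant function is continuous -/
private theorem g_cont (hf : ThM b e M f) : Continuous fun y : Vd (k + 1) => ‖f y‖ * Real.exp (-(M * wt W y)) := by
  have h1 : Continuous f := continuous_iff_continuousAt.2 fun y => (hf.an y).continuousAt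
  exact h1.norm.mul (Real.continuous_exp.comp (continuous_const.mul (wt_cont W)).neg)

theorem thm_up (T : ThF Γ W e) (hb : ∀ i, b i ∈ Γ) (hf : ThM b e M f) : ∃ B : ℝ, 0 < B ∧ ∀ y, ‖f y‖ ≤ B * Real.exp (M * wt W y) := by
  obtain ⟨R, hR, hred⟩ := lv_red b
  obtain ⟨B, hB⟩ := (isCompact_closedBall (0 : Vd (k + 1)) R).exists_bound_of_continuousOn
    (g_cont (W := W) hf).continuousOn
  refine ⟨max B 1, lt_max_of_lt_right one_pos, fun y => ?_⟩
  obtain ⟨c, hc⟩ := hred y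
  have h1 := thm_norm T hb hf c (y - lv b c)
  rw [sub_add_cancel] at h1
  have h2 := hB (y - lv b c) (by rwa [mem_closedBall_zero_iff])
  rw [Real.norm_of_nonneg (by positivity), ← h1] at h2
  have h3 : ‖f y‖ = ‖f y‖ * Real.exp (-(M * wt W y)) * Real.exp (M * wt W y) := by
    rw [mul_assoc, ← Real.exp_add, neg_add_cancel, Real.exp_zero, mul_one]
  rw [h3]
  exact mul_le_mul_of_nonneg_right (h2.trans (le_max_left _ _)) (Real.exp_pos _).le

/-- the theta function does not vanish on a disc of a line -/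
private theorem ex_ne (T : ThF Γ W e) (hb : ∀ i, b i ∈ Γ) (hΛ : Lat Λ) (hs : Simp Λ) (hle : Γ ≤ Λ) (hf : ThM b e M f) (h0 : ∃ y, f y ≠ 0) {a : Vd (k + 1)}
    (ha : a ≠ 0) (y : Vd (k + 1)) : ∃ z : ℂ, ‖z‖ ≤ 1 ∧ f (y + z • a) ≠ 0 := by
  by_contra hcon
  push Not at hcon
  have han : AnalyticOnNhd ℂ (fun z : ℂ => f (y + z • a)) Set.univ := by
    intro z _
    have h1 : AnalyticAt ℂ (fun z : ℂ => y + z • a) z := by fun_prop
    exact AnalyticAt.fun_comp (g := f) (f := fun z : ℂ => y + z • a) (hf.an _) h1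
  have hz : ∀ z : ℂ, f (y + z • a) = 0 := by
    have h1 : ∀ᶠ z in 𝓝 (0 : ℂ), f (y + z • a) = 0 := by
      filter_upwards [ball_mem_nhds (0 : ℂ) one_pos] with z hz
      exact hcon z (mem_ball_zero_iff.1 hz).le
    have h2 := han.eqOn_zero_of_preconnected_of_eventuallyEq_zero isPreconnected_univ (Set.mem_univ (0 : ℂ)) h1
    exact fun z => h2 (Set.mem_univ z)
  obtain ⟨m, hm, hmul⟩ := lv_mul hΛ (b := b) fun i => hle (hb i)
  obtain ⟨y₀, hy₀⟩ := h0
  refine hy₀ ?_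
  have h3 := no_line (D := ∅) (Z := {y | f y = 0}) hΛ hs isClosed_empty (fun y hy => absurd hy (Set.notMem_empty y))
    (fun a _ b z => Eventually.of_forall fun w => Set.notMem_empty _) ?_ hm ?_ ha (a := a) (b := y) ?_ y₀ (Set.notMem_empty y₀)
  · exact h3
  · intro x _
    refine ⟨1, fun z _ => f z, ?_, Eventually.of_forall fun z => ?_⟩
    · exact AnalyticAt.pi fun _ => hf.an x
    · constructor
      · intro h
        funext i
        exact h
      · intro h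
        exact congrFun h 0
  · intro x hx l hl
    obtain ⟨c, hc⟩ := hmul l hl
    have h4 := thm_norm T hb hf c x
    have hx' : f x = 0 := hx
    rw [hx', norm_zero, zero_mul] at h4
    show f (x + m • l) = 0
    rw [hc]
    exact norm_eq_zero.1 ((mul_eq_zero.1 h4).resolve_right (Real.exp_pos _).ne')
  · intro z
    right
    show f (z • a + y) = 0
    rw [add_comm]
    exact hz z

theorem thm_low (T : ThF Γ W e) (hb : ∀ i, b i ∈ Γ) (hΛ : Lat Λ) (hs : Simp Λ) (hle : Γ ≤ Λ) (hf : ThM b e M f) (h0 : ∃ y, f y ≠ 0) {a : Vd (k + 1)} (ha : a ≠ 0) :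
    ∃ m₀ : ℝ, 0 < m₀ ∧ ∀ y, ∃ z₁ : ℂ, ‖z₁‖ ≤ 1 ∧ m₀ * Real.exp (M * wt W (y + z₁ • a)) ≤ ‖f (y + z₁ • a)‖ := by
  obtain ⟨R, hR, hred⟩ := lv_red b
  have hcpt := isCompact_closedBall (0 : Vd (k + 1)) R
  have hg := g_cont (W := W) hf
  have h1 : ∃ m₀ : ℝ, 0 < m₀ ∧ ∀ y ∈ closedBall (0 : Vd (k + 1)) R, ∃ z₁ : ℂ, ‖z₁‖ ≤ 1 ∧
      m₀ ≤ ‖f (y + z₁ • a)‖ * Real.exp (-(M * wt W (y + z₁ • a))) := by
    refine hcpt.induction_on (p := fun s => ∃ m₀ : ℝ, 0 < m₀ ∧ ∀ y ∈ s, ∃ z₁ : ℂ, ‖z₁‖ ≤ 1 ∧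
      m₀ ≤ ‖f (y + z₁ • a)‖ * Real.exp (-(M * wt W (y + z₁ • a)))) ?_ ?_ ?_ ?_
    · exact ⟨1, one_pos, fun y hy => absurd hy (Set.notMem_empty y)⟩
    · rintro s t hst ⟨m₀, hm, h⟩
      exact ⟨m₀, hm, fun y hy => h y (hst hy)⟩
    · rintro s t ⟨m₀, hm, h⟩ ⟨m₁, hm', h'⟩
      refine ⟨min m₀ m₁, lt_min hm hm', ?_⟩
      rintro y (hy | hy)
      · obtain ⟨z, hz, h2⟩ := h y hy
        exact ⟨z, hz, (min_le_left _ _).trans h2⟩
      · obtain ⟨z, hz, h2⟩ := h' y hy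
        exact ⟨z, hz, (min_le_right _ _).trans h2⟩
    · intro y _
      obtain ⟨z, hz, h2⟩ := ex_ne T hb hΛ hs hle hf h0 ha y
      have h3 : 0 < ‖f (y + z • a)‖ * Real.exp (-(M * wt W (y + z • a))) :=
        mul_pos (norm_pos_iff.2 h2) (Real.exp_pos _)
      have h4 : Continuous fun y : Vd (k + 1) => ‖f (y + z • a)‖ * Real.exp (-(M * wt W (y + z • a))) :=
        hg.comp (continuous_id.add continuous_const)
      have h5 := h4.continuousAt.eventually_const_lt (half_lt_self h3)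
      refine ⟨{y' | ‖f (y + z • a)‖ * Real.exp (-(M * wt W (y + z • a))) / 2 <
        ‖f (y' + z • a)‖ * Real.exp (-(M * wt W (y' + z • a)))}, mem_nhdsWithin_of_mem_nhds h5, _, half_pos h3, ?_⟩
      intro y' hy'
      exact ⟨z, hz, le_of_lt hy'⟩
  obtain ⟨m₀, hm, h⟩ := h1
  refine ⟨m₀, hm, fun y => ?_⟩
  obtain ⟨c, hc⟩ := hred y
  obtain ⟨z, hz, h2⟩ := h (y - lv b c) (by rwa [mem_closedBall_zero_iff])
  refine ⟨z, hz, ?_⟩
  have h3 := thm_norm T hb hf c (y - lv b c + z • a)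
  have h4 : y - lv b c + z • a + lv b c = y + z • a := by abel
  rw [h4] at h3
  rw [← h3] at h2
  have h5 := mul_le_mul_of_nonneg_right h2 (Real.exp_pos (M * wt W (y + z • a))).le
  rwa [mul_assoc (‖f (y + z • a)‖), ← Real.exp_add, neg_add_cancel, Real.exp_zero, mul_one] at h5

/-- the weight on a line -/
theorem wt_line (W : Fin r → Vd (k + 1) →L[ℂ] ℂ) (y a : Vd (k + 1)) (z₁ : ℂ) :
    ∃ c : ℂ, ∀ z : ℂ, wt W (y + z • a) = wt W (y + z₁ • a) + 2 * (c * (z - z₁)).re + wt W a * ‖z - z₁‖ ^ 2 := by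
  refine ⟨∑ i, (starRingEnd ℂ) (W i (y + z₁ • a)) * W i a, fun z => ?_⟩
  unfold wt
  have h1 : ∀ A B t : ℂ, ‖A + t * B‖ ^ 2 = ‖A‖ ^ 2 + 2 * ((starRingEnd ℂ) A * B * t).re + ‖B‖ ^ 2 * ‖t‖ ^ 2 := by
    intro A B t
    rw [← Complex.normSq_eq_norm_sq, ← Complex.normSq_eq_norm_sq, ← Complex.normSq_eq_norm_sq, ← Complex.normSq_eq_norm_sq]
    simp only [Complex.normSq_apply, Complex.add_re, Complex.add_im, Complex.mul_re, Complex.mul_im, Complex.conj_re, Complex.conj_im]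
    ring
  have h2 : ∀ i, ‖W i (y + z • a)‖ ^ 2 = ‖W i (y + z₁ • a)‖ ^ 2 + 2 * ((starRingEnd ℂ) (W i (y + z₁ • a)) * W i a * (z - z₁)).re +
      ‖W i a‖ ^ 2 * ‖z - z₁‖ ^ 2 := by
    intro i
    rw [← h1]
    congr 2
    have h3 : y + z • a = (y + z₁ • a) + (z - z₁) • a := by
      rw [sub_smul]
      abel
    rw [h3, map_add, map_smul, smul_eq_mul]
  have h3 : ((∑ i, (starRingEnd ℂ) (W i (y + z₁ • a)) * W i a) * (z - z₁)).re = ∑ i, ((starRingEnd ℂ) (W i (y + z₁ • a)) * W i a * (z - z₁)).re := by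
    rw [Finset.sum_mul, Complex.re_sum]
  rw [Finset.sum_congr rfl fun i _ => h2 i, Finset.sum_add_distrib, Finset.sum_add_distrib, ← Finset.sum_mul, ← Finset.mul_sum, h3]

end Pool.Agent.G4.H

end

section

/-!
# PX Kap: the function `κ` along a root

Near a point where `G z 0 ≠ 0` put `K z = Fd θ (y + z a) (G z) e₁ / G z 0` (`dt (G z) e₁ = G z 0`), otherwise with `e₀`; `fd_root`; `K z` is unique, so the local functions fit together.
-/

set_option autoImplicit false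

open Topology Filter Metric

namespace Pool.Agent.PX

open Pool.Agent.H36.BP (EN fs wd)
open Pool.Agent.H62.EF (MN pr)
open Pool.Agent.AD (Vd)
open Pool.Agent.TG (Lat)
open Pool.Agent.G3 (wt LLift)
open Pool.Agent.G4 (Few)

variable {k d r : ℕ}

variable {Λ : AddSubgroup (Vd (k + 1))} {D : Set (Vd (k + 1))} {Bad : Vd (k + 1) → Set (Vd (k + 1))} {θ : Fin (d + 1) → Vd (k + 1) → ℂ}
  {W : Fin r → Vd (k + 1) →L[ℂ] ℂ}

theorem PD.exists_kap (P : PD Λ D Bad θ W) {y a : Vd (k + 1)} {G : ℂ → EN 1} (hG : Differentiable ℂ G) (h0 : ∀ z, G z ≠ 0) (hr : ∀ z : ℂ, Fo θ (y + z • a) (G z) = 0) :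
    ∃ K : ℂ → ℂ, Differentiable ℂ K ∧ ∀ (z : ℂ) (v : EN 1), Fd θ (y + z • a) (G z) v = K z * dt (G z) v := by
  choose K hK using fun z => fd_root θ (h0 z) (hr z)
  refine ⟨K, fun z₀ => ?_, hK⟩
  have hF : ∀ e : EN 1, DifferentiableAt ℂ (fun z : ℂ => Fd θ (y + z • a) (G z) e) z₀ := by
    intro e
    have h1 : DifferentiableAt ℂ (fun z : ℂ => ((y + z • a, G z, e) : Vd (k + 1) × EN 1 × EN 1)) z₀ :=
      ((differentiableAt_const y).add (differentiableAt_id.smul_const a)).prodMk ((hG z₀).prodMk (differentiableAt_const e))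
    exact ((fd_diff P.an) (y + z₀ • a, G z₀, e)).comp z₀ h1
  have hc : ∀ i : Fin 2, DifferentiableAt ℂ (fun z : ℂ => G z i) z₀ := fun i =>
    (EuclideanSpace.proj (𝕜 := ℂ) (ι := Fin 2) i).differentiableAt.comp z₀ (hG z₀)
  have hor : G z₀ 0 ≠ 0 ∨ G z₀ 1 ≠ 0 := by
    by_contra hcon
    push Not at hcon
    apply h0 z₀
    ext i
    fin_cases i
    · exact hcon.1
    · exact hcon.2
  rcases hor with h | h
  · have hev : ∀ᶠ z in 𝓝 z₀, G z 0 ≠ 0 := (hc 0).continuousAt.eventually_ne h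
    have hq : DifferentiableAt ℂ (fun z : ℂ => Fd θ (y + z • a) (G z) (EuclideanSpace.single 1 1) / G z 0) z₀ :=
      (hF _).div (hc 0) h
    refine hq.congr_of_eventuallyEq ?_
    filter_upwards [hev] with z hz
    rw [hK z]
    simp only [dt, PiLp.single_apply]
    field_simp
    simp
  · have hev : ∀ᶠ z in 𝓝 z₀, G z 1 ≠ 0 := (hc 1).continuousAt.eventually_ne h
    have hq : DifferentiableAt ℂ (fun z : ℂ => - Fd θ (y + z • a) (G z) (EuclideanSpace.single 0 1) / G z 1) z₀ :=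
      (hF _).neg.div (hc 1) h
    refine hq.congr_of_eventuallyEq ?_
    filter_upwards [hev] with z hz
    rw [hK z]
    simp only [dt, PiLp.single_apply]
    field_simp
    simp

end Pool.Agent.PX

end

section

/-!
# PX Lip: the curves are Lipschitz over `Gd D δ`

As `TG/Zl` (`curve_bound`), with `N = 1` and the cone `{x | x ≠ 0}`: `AD.rescale_disc`, `H62.EF.limit_curves`.  The discs are shrunk to radius `min r₀ (δ / (4 (H + 1)))`, so that `h` stays in `Gd D (δ / 2)`; translate by `Λ` (`Cp.add`).  The limit `G` of the rescaled curves lies in the fibre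
over a point `y₀ ∉ D`; by Hurwitz `Fo θ y₀ (G z)` is identically `0` or has no zero (`Fo θ (h n ..) (φ n z)` has no zero, `φ n` the local lifts of `limit_curves`, converges locally uniformly to `Fo θ y₀ (ψ z)`): `fib`, `fibE`; contradiction with `fs (G 0) (G' 0) = 1`.
-/

set_option autoImplicit false

open Topology Filter Metric

namespace Pool.Agent.PX

open Pool.Agent.H36.BP (EN fs wd)
open Pool.Agent.H62.EF (MN pr)
open Pool.Agent.AD (Vd)
open Pool.Agent.TG (Lat Gd)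
open Pool.Agent.G3 (wt LLift)
open Pool.Agent.G4 (Few)

variable {k d r : ℕ}

variable {Λ : AddSubgroup (Vd (k + 1))} {D : Set (Vd (k + 1))} {Bad : Vd (k + 1) → Set (Vd (k + 1))} {θ : Fin (d + 1) → Vd (k + 1) → ℂ}
  {W : Fin r → Vd (k + 1) →L[ℂ] ℂ}

private lemma Lip_gd (P : PD Λ D Bad θ W) (δ : ℝ) {y l : Vd (k + 1)} (hl : l ∈ Λ) (h : y ∈ Gd D δ) : y + l ∈ Gd D δ := by
  intro b hb
  have h1 := h _ (P.D_inv b hb (-l) (Λ.neg_mem hl))
  have h2 : y - (b + -l) = y + l - b := by abel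
  rwa [h2] at h1

/-- normalisation: the centre is `0`, the value at the centre is bounded, the disc is small -/
lemma Lip_norm (P : PD Λ D Bad θ W) {δ H r₀ s : ℝ} (hs : 0 < s) (hsr : s ≤ r₀) :
    ∃ R : ℝ, 0 < R ∧ ∀ (w : ℂ → EN 1) (h : ℂ → Vd (k + 1)) (z : ℂ), Cp θ (ball z r₀) w h → (∀ ζ ∈ ball z r₀, ‖deriv h ζ‖ ≤ H) → h z ∈ Gd D δ →
      ∃ (w' : ℂ → EN 1) (h' : ℂ → Vd (k + 1)), Cp θ (ball 0 s) w' h' ∧ (∀ ζ ∈ ball (0 : ℂ) s, ∀ ζ' ∈ ball (0 : ℂ) s, ‖h' ζ - h' ζ'‖ ≤ H * ‖ζ - ζ'‖) ∧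
        h' 0 ∈ Gd D δ ∧ ‖h' 0‖ ≤ R ∧ fs (w' 0) (deriv w' 0) = fs (w z) (deriv w z) := by
  obtain ⟨R, hR0, hR⟩ := P.lat.cpt
  refine ⟨R, hR0, fun w h z hc hd hz => ?_⟩
  obtain ⟨l, hl, hlR⟩ := hR (h z)
  have hmap : Set.MapsTo (fun ζ : ℂ => z + ζ) (ball 0 s) (ball z r₀) := by
    intro ζ hζ
    rw [mem_ball_zero_iff] at hζ
    rw [mem_ball, dist_eq_norm]
    have : z + ζ - z = ζ := by ring
    rw [this]
    linarith
  have hc1 : Cp θ (ball (0 : ℂ) s) (fun ζ => w (z + ζ)) (fun ζ => h (z + ζ)) :=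
    hc.comp (φ := fun ζ : ℂ => z + ζ) (differentiable_id.const_add z).differentiableOn hmap
  have hc2 := Cp.add P hc1 (Λ.neg_mem hl)
  refine ⟨fun ζ => w (z + ζ), fun ζ => h (z + ζ) + -l, hc2, ?_, ?_, ?_, ?_⟩
  · have hder : ∀ ζ ∈ ball (0 : ℂ) s, ‖deriv (fun ζ => h (z + ζ)) ζ‖ ≤ H := by
      intro ζ hζ
      have : deriv (fun ζ => h (z + ζ)) ζ = deriv h (z + ζ) := by
        rw [deriv_comp_const_add]
      rw [this]
      exact hd _ (hmap hζ)
    intro ζ hζ ζ' hζ'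
    have h1 := (convex_ball (0 : ℂ) s).norm_image_sub_le_of_norm_deriv_le (f := fun ζ => h (z + ζ)) (C := H)
      (fun x hx => hc1.h_diff.differentiableAt (isOpen_ball.mem_nhds hx)) hder hζ' hζ
    have h2 : h (z + ζ) + -l - (h (z + ζ') + -l) = h (z + ζ) - h (z + ζ') := by abel
    simp only [h2]
    exact h1
  · simp only [add_zero]
    exact Lip_gd P δ (Λ.neg_mem hl) hz
  · simp only [add_zero]
    rwa [← sub_eq_add_neg]
  · rw [deriv_comp_const_add]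
    simp only [add_zero]

/-- Hurwitz: the form is identically zero on the limit curve or has no zero -/
lemma Lip_hur (P : PD Λ D Bad θ W) {𝒰 : Ultrafilter ℕ} {g : ℕ → ℂ → EN 1} {hh : ℕ → ℂ → Vd (k + 1)} {w₀ : Vd (k + 1)} {G : ℂ → EN 1}
    (hcp : ∀ n : ℕ, Cp θ (ball 0 ((n : ℝ) + 1)) (g n) (hh n)) (hρ : Tendsto (fun n : ℕ => (n : ℝ) + 1) 𝒰 atTop)
    (hlim : ∀ (z : ℕ → ℂ) (z₀ : ℂ), Tendsto z 𝒰 (𝓝 z₀) → Tendsto (fun n => hh n (z n)) 𝒰 (𝓝 w₀)) (hG : Differentiable ℂ G)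
    (hloc : ∀ z₀, ∃ (r : ℝ) (φ : ℕ → ℂ → EN 1) (ψ : ℂ → EN 1), 0 < r ∧
        (∀ᶠ n in (𝒰 : Filter ℕ), DifferentiableOn ℂ (φ n) (ball z₀ r) ∧ ∀ z ∈ ball z₀ r, ∃ c : ℂ, c ≠ 0 ∧ φ n z = c • g n z) ∧
        DifferentiableOn ℂ ψ (ball z₀ r) ∧ (∀ z ∈ ball z₀ r, ∃ c : ℂ, c ≠ 0 ∧ ψ z = c • G z) ∧
        TendstoLocallyUniformlyOn φ ψ 𝒰 (ball z₀ r)) :
    (∀ z, Fo θ w₀ (G z) = 0) ∨ ∀ z, Fo θ w₀ (G z) ≠ 0 := by
  by_cases hex : ∃ z₁, Fo θ w₀ (G z₁) = 0
  swap
  · right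
    intro z hz
    exact hex ⟨z, hz⟩
  left
  obtain ⟨z₁, hz₁⟩ := hex
  obtain ⟨r, φ, ψ, hr, hφ, hψ, hψG, hconv⟩ := hloc z₁
  have hcont : Continuous fun p : Vd (k + 1) × EN 1 => Fo θ p.1 p.2 := (fo_diff P.an).continuous
  have hpair : Differentiable ℂ fun x : EN 1 => (w₀, x) := (differentiable_const w₀).prodMk differentiable_id
  have hF0 : Differentiable ℂ fun x : EN 1 => Fo θ w₀ x :=
    Differentiable.comp (g := fun p : Vd (k + 1) × EN 1 => Fo θ p.1 p.2) (f := fun x : EN 1 => (w₀, x)) (fo_diff P.an) hpair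
  have hbig : ∀ᶠ n : ℕ in (𝒰 : Filter ℕ), ball z₁ r ⊆ ball (0 : ℂ) ((n : ℝ) + 1) := by
    filter_upwards [hρ.eventually_gt_atTop (‖z₁‖ + r)] with n hn z hz
    rw [mem_ball, dist_eq_norm] at hz
    rw [mem_ball_zero_iff]
    have := norm_add_le (z - z₁) z₁
    rw [sub_add_cancel] at this
    linarith
  have hH := Pool.Agent.H62.Log.hurwitz 𝒰 (φ := fun n z => Fo θ (hh n z) (φ n z)) (ψ := fun z => Fo θ w₀ (ψ z)) (a := z₁) (r := r)
    (by
      filter_upwards [hφ, hbig] with n hn hb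
      have h9 : DifferentiableOn ℂ (fun z => (hh n z, φ n z)) (ball z₁ r) := ((hcp n).h_diff.mono hb).prodMk hn.1
      exact Differentiable.comp_differentiableOn (g := fun p : Vd (k + 1) × EN 1 => Fo θ p.1 p.2) (f := fun z => (hh n z, φ n z)) (fo_diff P.an) h9)
    (by
      filter_upwards [hφ, hbig] with n hn hb z hz
      obtain ⟨c, hc, he⟩ := hn.2 z hz
      simp only [he]
      rw [fo_smul]
      exact mul_ne_zero (pow_ne_zero _ hc) ((hcp n).ne z (hb hz)))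
    (Differentiable.comp_differentiableOn (g := fun x : EN 1 => Fo θ w₀ x) (f := ψ) hF0 hψ)
    (by
      intro z z₀ hz₀ hz
      have h1 := hlim z z₀ hz
      have h2 : Tendsto (fun n => φ n (z n)) 𝒰 (𝓝 (ψ z₀)) := by
        refine hconv.tendsto_comp (hψ.continuousOn.continuousWithinAt hz₀) hz₀ ?_
        rw [tendsto_nhdsWithin_iff]
        exact ⟨hz, hz.eventually (isOpen_ball.mem_nhds hz₀)⟩
      exact Tendsto.comp (g := fun p : Vd (k + 1) × EN 1 => Fo θ p.1 p.2) (f := fun n => (hh n (z n), φ n (z n))) (hcont.tendsto (w₀, ψ z₀)) (h1.prodMk_nhds h2))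
  have hz₁b : z₁ ∈ ball z₁ r := mem_ball_self hr
  have hloc0 : ∀ z ∈ ball z₁ r, Fo θ w₀ (G z) = 0 := by
    rcases hH with h | h
    · intro z hz
      obtain ⟨c, hc, he⟩ := hψG z hz
      have h1 := h z hz
      simp only [he] at h1
      rw [fo_smul] at h1
      exact (mul_eq_zero.mp h1).resolve_left (pow_ne_zero _ hc)
    · exfalso
      obtain ⟨c, hc, he⟩ := hψG z₁ hz₁b
      apply h z₁ hz₁b
      simp only [he]
      rw [fo_smul, hz₁, mul_zero]
  have hf : Differentiable ℂ fun z => Fo θ w₀ (G z) := Differentiable.comp (g := fun x : EN 1 => Fo θ w₀ x) (f := G) hF0 hG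
  have han : AnalyticOnNhd ℂ (fun z => Fo θ w₀ (G z)) Set.univ := fun z _ => hf.analyticAt z
  have h2 := han.eqOn_zero_of_preconnected_of_eventuallyEq_zero isPreconnected_univ (Set.mem_univ z₁)
    (Filter.mem_of_superset (isOpen_ball.mem_nhds hz₁b) fun z hz => hloc0 z hz)
  intro z
  exact h2 (Set.mem_univ z)

end Pool.Agent.PX

end
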