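import Pool.Agent.H94.PX2.M34
import Pool.Agent.H94.PX2.M37
import Pool.Agent.H94.PX2.M54
import Pool.Agent.H94.PX2.M57

/-! The parts of this file: G4.RE.Main, PX.Front. -/

section

/-!
# G4 RE Main: the bad points of an analytic hypersurface are a local complete intersection
-/

set_option autoImplicit false

open Topology Filter Metric

namespace Pool.Agent.G4.RE

open Pool.Agent.AD (Vd)
open Pool.Agent.TG (Lat)
open Pool.Agent.G3 (wt)
open Pool.Agent.G4.H
open Pool.Agent.G4.K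

variable {k r : ℕ} {D : Set (Vd (k + 1))}

theorem bd_cl (hD : IsClosed D) (a : Vd (k + 1)) : IsClosed (Bd D a) := by
  rw [← isOpen_compl_iff, isOpen_iff_mem_nhds]
  intro y hy
  by_cases hyD : y ∈ D
  · have hg : Gd D y a := by
      by_contra hn
      exact hy ⟨hyD, hn⟩
    obtain ⟨s, hs, -, hsa, hsD⟩ := hg
    have h1 : ∀ᶠ z in 𝓝 y, fderiv ℂ s z a ≠ 0 := by
      have h2 : ContinuousAt (fun z => fderiv ℂ s z a) y :=
        (((ContinuousLinearMap.apply ℂ ℂ a).analyticAt _).comp hs.fderiv).continuousAt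
      exact h2.eventually_ne hsa
    filter_upwards [h1, hs.eventually_analyticAt, hsD.eventually_nhds] with z hz1 hz2 hz3 hz4
    exact hz4.2 ⟨s, hz2, hz3.self_of_nhds.1 hz4.1, hz1, hz3⟩
  · filter_upwards [hD.isOpen_compl.mem_nhds hyD] with z hz hz2
    exact hz hz2.1

theorem bd_inv {Λ : AddSubgroup (Vd (k + 1))} (hD : ∀ y ∈ D, ∀ l ∈ Λ, y + l ∈ D) (a : Vd (k + 1)) : ∀ y ∈ Bd D a, ∀ l ∈ Λ, y + l ∈ Bd D a := by
  intro y hy l hl
  refine ⟨hD y hy.1 l hl, ?_⟩
  rintro ⟨s, hs, hs0, hsa, hsD⟩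
  refine hy.2 ⟨fun z => s (z + l), ?_, hs0, ?_, ?_⟩
  · exact AnalyticAt.fun_comp hs (analyticAt_id.add analyticAt_const)
  · rw [fderiv_comp_add_right]
    exact hsa
  · have h1 : Tendsto (fun z : Vd (k + 1) => z + l) (𝓝 y) (𝓝 (y + l)) := by
      have h2 : ContinuousAt (fun z : Vd (k + 1) => z + l) y := by fun_prop
      exact h2
    filter_upwards [h1.eventually hsD] with z hz
    rw [← hz]
    constructor
    · exact fun h => hD z h l hl
    · intro h
      have h2 := hD (z + l) h (-l) (Λ.neg_mem hl)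
      rwa [add_neg_cancel_right] at h2

private theorem exists_coord {k : ℕ} {e : Vd (k + 1)} (he : e ≠ 0) :
    ∃ T : (Vd k × ℂ) ≃L[ℂ] Vd (k + 1), T (0, 1) = e := by
  obtain ⟨W, hW⟩ := Submodule.exists_isCompl (Submodule.span ℂ {e})
  have h1 : Module.finrank ℂ (Submodule.span ℂ {e}) = 1 := finrank_span_singleton he
  have h2 : Module.finrank ℂ W = k := by
    have := Submodule.finrank_add_eq_of_isCompl hW
    have h3 : Module.finrank ℂ (Vd (k + 1)) = k + 1 := by simp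
    omega
  have h3 : Module.finrank ℂ (Vd k) = Module.finrank ℂ W := by rw [h2]; simp
  let A : Vd k ≃ₗ[ℂ] W := LinearEquiv.ofFinrankEq _ _ h3
  let B : ℂ ≃ₗ[ℂ] Submodule.span ℂ {e} := LinearEquiv.toSpanNonzeroSingleton ℂ (Vd (k + 1)) e he
  let T : (Vd k × ℂ) ≃ₗ[ℂ] Vd (k + 1) := (A.prodCongr B).trans (Submodule.prodEquivOfIsCompl W (Submodule.span ℂ {e}) hW.symm)
  refine ⟨T.toContinuousLinearEquiv, ?_⟩
  have h4 : (B 1 : Vd (k + 1)) = (1 : ℂ) • e := by simp [B]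
  simp [T, h4]

private theorem gd_comp {V V' : Type} [NormedAddCommGroup V] [NormedSpace ℂ V] [NormedAddCommGroup V'] [NormedSpace ℂ V'] {D : Set V} {y a : V} (L : V' ≃L[ℂ] V) (c : V) (h : Gd D y a) :
    Gd {p | c + L p ∈ D} (L.symm (y - c)) (L.symm a) := by
  obtain ⟨s, hs, hs0, hsa, hsD⟩ := h
  have h0 : c + L (L.symm (y - c)) = y := by
    rw [ContinuousLinearEquiv.apply_symm_apply]
    abel
  have hL : ∀ p, AnalyticAt ℂ (fun p => c + L p) p := fun p => analyticAt_const.add ((L : V' →L[ℂ] V).analyticAt p)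
  refine ⟨fun p => s (c + L p), ?_, ?_, ?_, ?_⟩
  · refine AnalyticAt.fun_comp (g := s) ?_ (hL _)
    rw [h0]
    exact hs
  · simp only [h0]
    exact hs0
  · have h1 : HasFDerivAt (fun p => c + L p) (L : V' →L[ℂ] V) (L.symm (y - c)) := (L : V' →L[ℂ] V).hasFDerivAt.const_add c
    have h2 : HasFDerivAt s (fderiv ℂ s y) (c + L (L.symm (y - c))) := by
      rw [h0]
      exact hs.differentiableAt.hasFDerivAt
    have h3 : HasFDerivAt (fun p => s (c + L p)) ((fderiv ℂ s y).comp (L : V' →L[ℂ] V)) (L.symm (y - c)) :=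
      HasFDerivAt.comp (g := s) (f := fun p => c + L p) _ h2 h1
    have h4 : fderiv ℂ (fun p => s (c + L p)) (L.symm (y - c)) = (fderiv ℂ s y).comp (L : V' →L[ℂ] V) := h3.fderiv
    rw [h4]
    simpa using hsa
  · have h1 : Tendsto (fun p => c + L p) (𝓝 (L.symm (y - c))) (𝓝 y) := by
      have h2 := (hL (L.symm (y - c))).continuousAt.tendsto
      rwa [h0] at h2
    exact h1.eventually hsD

theorem ci_bd (hD : ∀ y ∈ D, ∃ δ : Vd (k + 1) → ℂ, AnalyticAt ℂ δ y ∧ ∀ᶠ z in 𝓝 y, (z ∈ D ↔ δ z = 0)) {a : Vd (k + 1)} (ha : a ≠ 0) (hl : ∀ y ∈ D, ∀ᶠ z : ℂ in 𝓝[≠] 0, y + z • a ∉ D) : CI (Bd D a) := by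
  intro y hy
  obtain ⟨δ, hδ, hδD⟩ := hD y hy.1
  obtain ⟨L, hL⟩ := exists_coord ha
  have hLan : ∀ p, AnalyticAt ℂ (fun p => y + L p) p := fun p => analyticAt_const.add ((L : (Vd k × ℂ) →L[ℂ] Vd (k + 1)).analyticAt p)
  have hLt : Tendsto (fun p => y + L p) (𝓝 0) (𝓝 y) := by
    have h2 := (hLan 0).continuousAt.tendsto
    simpa using h2
  have hline : Tendsto (fun w : ℂ => ((0 : Vd k), w)) (𝓝[≠] 0) (𝓝 0) := by
    have h1 : ContinuousAt (fun w : ℂ => ((0 : Vd k), w)) 0 := by fun_prop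
    exact h1.tendsto.mono_left nhdsWithin_le_nhds
  have hLw : ∀ w : ℂ, y + L ((0 : Vd k), w) = y + w • a := by
    intro w
    rw [← hL, ← map_smul]
    simp
  have hf : AnalyticAt ℂ (fun p => δ (y + L p)) (0, 0) := by
    refine AnalyticAt.fun_comp (g := δ) ?_ (hLan _)
    have h1 : y + L ((0 : Vd k), (0 : ℂ)) = y := by
      have h2 : L ((0 : Vd k), (0 : ℂ)) = 0 := map_zero L
      rw [h2, add_zero]
    rw [h1]
    exact hδ
  have hf0 : ∀ᶠ w in 𝓝[≠] (0 : ℂ), δ (y + L ((0 : Vd k), w)) ≠ 0 := by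
    filter_upwards [hl y hy.1, (hLt.comp hline).eventually hδD] with w hw1 hw2 hw3
    refine hw1 ?_
    rw [← hLw w]
    exact hw2.2 hw3
  obtain ⟨s, hs, hs2⟩ := red (f := fun p => δ (y + L p)) hf hf0
  have hMan : ∀ z, AnalyticAt ℂ (fun z => L.symm (z - y)) z := by
    intro z
    have h1 : AnalyticAt ℂ (fun z : Vd (k + 1) => z - y) z := analyticAt_id.sub analyticAt_const
    exact AnalyticAt.fun_comp ((L.symm : Vd (k + 1) →L[ℂ] (Vd k × ℂ)).analyticAt _) h1
  have hMt : ∀ z, Tendsto (fun z => L.symm (z - y)) (𝓝 z) (𝓝 (L.symm (z - y))) := fun z => (hMan z).continuousAt.tendsto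
  have hM0 : L.symm (y - y) = 0 := by simp
  have hLM : ∀ z, y + L (L.symm (z - y)) = z := by
    intro z
    rw [ContinuousLinearEquiv.apply_symm_apply]
    abel
  have hML : ∀ p, L.symm (y + L p - y) = p := by
    intro p
    rw [add_sub_cancel_left, ContinuousLinearEquiv.symm_apply_apply]
  -- the equation
  have hσ : AnalyticAt ℂ (fun z => s (L.symm (z - y))) y := by
    refine AnalyticAt.fun_comp (g := s) ?_ (hMan y)
    rw [hM0]
    exact hs
  have hMty : Tendsto (fun z => L.symm (z - y)) (𝓝 y) (𝓝 0) := by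
    have := hMt y
    rwa [hM0] at this
  have hsan : ∀ᶠ z in 𝓝 y, AnalyticAt ℂ s (L.symm (z - y)) := hMty.eventually hs.eventually_analyticAt
  have hder : ∀ z, AnalyticAt ℂ s (L.symm (z - y)) → fderiv ℂ (fun z => s (L.symm (z - y))) z a = fderiv ℂ s (L.symm (z - y)) (0, 1) := by
    intro z hz
    have h1 : HasFDerivAt (fun z : Vd (k + 1) => L.symm (z - y)) (L.symm : Vd (k + 1) →L[ℂ] (Vd k × ℂ)) z :=
      (L.symm : Vd (k + 1) →L[ℂ] (Vd k × ℂ)).hasFDerivAt.comp z ((hasFDerivAt_id z).sub_const y)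
    have h2 := (hz.differentiableAt.hasFDerivAt.comp z h1).fderiv
    have h3 : fderiv ℂ (fun z => s (L.symm (z - y))) z = (fderiv ℂ s (L.symm (z - y))).comp (L.symm : Vd (k + 1) →L[ℂ] (Vd k × ℂ)) := h2
    rw [h3, ← hL]
    simp
  have hev := hMty.eventually hs2
  refine ⟨fun z => s (L.symm (z - y)), fun z => fderiv ℂ (fun z => s (L.symm (z - y))) z a, hσ, ((ContinuousLinearMap.apply ℂ ℂ a).analyticAt _).comp hσ.fderiv, ?_, ?_, ?_⟩
  · -- not identically zero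
    have h1 : Tendsto (fun w : ℂ => y + w • a) (𝓝[≠] 0) (𝓝 y) := by
      have h2 : ContinuousAt (fun w : ℂ => y + w • a) 0 := by fun_prop
      have h3 := h2.tendsto
      rw [zero_smul, add_zero] at h3
      exact h3.mono_left nhdsWithin_le_nhds
    refine h1.frequently (Eventually.frequently ?_)
    filter_upwards [hl y hy.1, h1.eventually hδD, h1.eventually hev] with w hw1 hw2 hw3
    intro hw4
    refine hw1 (hw2.2 ?_)
    have h4 := hw3.1.1 hw4
    rwa [hLM] at h4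
  · filter_upwards [hδD.eventually_nhds, hev, hsan, hMty.eventually hs2.eventually_nhds] with z hz1 hz2 hz3 hz4
    have hzD := hz1.self_of_nhds
    have h1 : s (L.symm (z - y)) = 0 ↔ z ∈ D := by
      rw [hz2.1, hLM, hzD]
    have hDs : ∀ᶠ z' in 𝓝 z, (z' ∈ D ↔ s (L.symm (z' - y)) = 0) := by
      filter_upwards [hz1, (hMt z).eventually hz4] with z' h2 h3
      rw [h2, h3.1, hLM]
    rw [hder z hz3]
    constructor
    · intro hzb
      have h0 : s (L.symm (z - y)) = 0 := h1.2 hzb.1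
      refine ⟨h0, ?_⟩
      by_contra hne
      refine hzb.2 ⟨fun z => s (L.symm (z - y)), AnalyticAt.fun_comp (g := s) hz3 (hMan z), h0, ?_, hDs⟩
      rw [hder z hz3]
      exact hne
    · rintro ⟨h0, hd⟩
      refine ⟨h1.1 h0, fun hg => ?_⟩
      have h2 := gd_comp L y hg
      have ha' : L.symm a = (0, 1) := by rw [← hL, ContinuousLinearEquiv.symm_apply_apply]
      rw [ha'] at h2
      refine hz2.2.2 h0 hd ?_
      obtain ⟨g, hg1, hg2, hg3, hg4⟩ := h2
      refine ⟨g, hg1, hg2, hg3, ?_⟩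
      have h3 : Tendsto (fun p => y + L p) (𝓝 (L.symm (z - y))) (𝓝 z) := by
        have h4 := (hLan (L.symm (z - y))).continuousAt.tendsto
        rwa [hLM] at h4
      filter_upwards [hg4, h3.eventually hz1] with p hp1 hp2
      rw [← hp1]
      exact hp2.symm
  · filter_upwards [hev, hMty.eventually hs.eventually_analyticAt.eventually_nhds] with z hz1 hz2 hz3
    have h1 := hz1.2.1 hz3
    have h3 : Tendsto (fun p => y + L p) (𝓝 (L.symm (z - y))) (𝓝 z) := by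
      have h4 := (hLan (L.symm (z - y))).continuousAt.tendsto
      rwa [hLM] at h4
    refine h3.frequently ((h1.and_eventually hz2).mono ?_)
    rintro p ⟨⟨hp1, hp2⟩, hp3⟩
    rw [hML]
    refine ⟨hp1, ?_⟩
    have h5 := hder (y + L p)
    rw [hML] at h5
    rw [h5 hp3]
    exact hp2

theorem few_bd {Γ Λ : AddSubgroup (Vd (k + 1))} {W : Fin r → Vd (k + 1) →L[ℂ] ℂ} {e : Vd (k + 1) → Vd (k + 1) → ℂ} (T : ThF Γ W e) (hΛ : Lat Λ) (hs : Simp Λ) (hle : Γ ≤ Λ) (hc : IsClosed D) (hi : ∀ y ∈ D, ∀ l ∈ Λ, y + l ∈ D)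
    (hD : ∀ y ∈ D, ∃ δ : Vd (k + 1) → ℂ, AnalyticAt ℂ δ y ∧ ∀ᶠ z in 𝓝 y, (z ∈ D ↔ δ z = 0)) (hL : LDi D) {a : Vd (k + 1)} (ha : a ≠ 0) : Few (Bd D a) a := by
  have h1 : CI (Bd D a) := ci_bd hD ha fun y _ => by
    filter_upwards [hL a ha y 0] with w hw
    rwa [add_comm (w • a) y] at hw
  refine few_sw T hΛ hs hle (bd_cl hc a) (bd_inv hi a) ?_ ha
  rcases k with _ | d
  · exact Or.inl (ci_one h1)
  · exact Or.inr ⟨d, rfl, sw_of_ci rfl h1⟩

theorem few_two {Γ Λ : AddSubgroup (Vd (k + 1))} {W : Fin r → Vd (k + 1) →L[ℂ] ℂ} {e : Vd (k + 1) → Vd (k + 1) → ℂ} (T : ThF Γ W e) (hΛ : Lat Λ) (hs : Simp Λ) (hle : Γ ≤ Λ) {f g : Vd (k + 1) → ℂ}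
    (hf : ∀ y, AnalyticAt ℂ f y) (hg : ∀ y, AnalyticAt ℂ g y) (hf0 : ∃ y, f y ≠ 0) (hi : ∀ y, f y = 0 → g y = 0 → ∀ l ∈ Λ, f (y + l) = 0 ∧ g (y + l) = 0)
    (hd : ∀ y, f y = 0 → ∃ᶠ z in 𝓝 y, f z = 0 ∧ g z ≠ 0) {a : Vd (k + 1)} (ha : a ≠ 0) : Few {y | f y = 0 ∧ g y = 0} a := by
  have h1 : CI {y | f y = 0 ∧ g y = 0} := by
    intro y hy
    refine ⟨f, g, hf y, hg y, ?_, Eventually.of_forall fun z => Iff.rfl, Eventually.of_forall fun z hz => hd z hz⟩
    by_contra hn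
    have h2 : ∀ᶠ z in 𝓝 y, f z = 0 := by
      rw [Filter.not_frequently] at hn
      filter_upwards [hn] with z hz
      exact not_not.1 hz
    obtain ⟨y₁, hy₁⟩ := hf0
    have h3 := AnalyticOnNhd.eqOn_zero_of_preconnected_of_eventuallyEq_zero (f := f) (U := Set.univ) (fun z _ => hf z) isPreconnected_univ (Set.mem_univ y) h2
    exact hy₁ (h3 (Set.mem_univ y₁))
  have hcf : Continuous f := continuous_iff_continuousAt.2 fun y => (hf y).continuousAt
  have hcg : Continuous g := continuous_iff_continuousAt.2 fun y => (hg y).continuousAt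
  have hcl : IsClosed {y | f y = 0 ∧ g y = 0} := (isClosed_eq hcf continuous_const).inter (isClosed_eq hcg continuous_const)
  refine few_sw T hΛ hs hle hcl (fun y hy l hl => hi y hy.1 hy.2 l hl) ?_ ha
  rcases k with _ | d
  · exact Or.inl (ci_one h1)
  · exact Or.inr ⟨d, rfl, sw_of_ci rfl h1⟩

end Pool.Agent.G4.RE

end

section

/-!
# PX Front: the data from a theta function

`D = {y | Fo θ y has a multiple root or is 0} = {δ = 0}`, `δ` entire (resultant of the two partial derivatives).  `iso`: a line in `D` is excluded by `Simp` (`G4/Simp`).  `Bad a = Bd ∪ B0`: `Bd` = the points `y ∈ D` without a local equation `s` of `D` with `fderiv ℂ s y a ≠ 0`, a local complete intersection (reduced local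
equations of `D`, helper14's block RE), so few (`G4/K`); `B0 = {y | Fo θ y b = 0 = Fo θ y b'}` for suitable `b, b'` (Baire: `NV`), a local complete intersection, so few.
-/

set_option autoImplicit false

open Topology Filter Metric

namespace Pool.Agent.PX

open Pool.Agent.H36.BP (EN fs wd)
open Pool.Agent.H62.EF (MN)
open Pool.Agent.AD (Vd)
open Pool.Agent.TG (Lat Gd)
open Pool.Agent.G3 (wt)
open Pool.Agent.G4 (Few Simp)

variable {k d r : ℕ}

/-- the coefficients have no common zeros in codimension one -/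
def NV (θ : Fin (d + 1) → Vd (k + 1) → ℂ) : Prop :=
  ∀ y, (∀ i, θ i y = 0) → ∀ b : EN 1, ∃ᶠ z in 𝓝 y, Fo θ z b = 0 ∧ ∃ i, θ i z ≠ 0

private theorem few_uni {a : Vd (k + 1)} {Z₁ Z₂ Z : Set (Vd (k + 1))} (h1 : Few Z₁ a) (h2 : Few Z₂ a) (h : Z ⊆ Z₁ ∪ Z₂) : Few Z a := by
  classical
  intro ε hε
  obtain ⟨C₁, hC₁⟩ := h1 (ε / 2) (half_pos hε)
  obtain ⟨C₂, hC₂⟩ := h2 (ε / 2) (half_pos hε)
  refine ⟨C₁ + C₂, fun y R hR S hS => ?_⟩
  have e1 : S.card ≤ (S.filter fun z => y + z • a ∈ Z₁).card + (S.filter fun z => y + z • a ∈ Z₂).card := by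
    rw [← Finset.card_union_add_card_inter]
    refine le_add_right (Finset.card_le_card fun z hz => ?_)
    rw [Finset.mem_union, Finset.mem_filter, Finset.mem_filter]
    rcases h (hS z hz).2 with h3 | h3
    · exact Or.inl ⟨hz, h3⟩
    · exact Or.inr ⟨hz, h3⟩
  have e2 := hC₁ y R hR (S.filter fun z => y + z • a ∈ Z₁) fun z hz => ⟨(hS z (Finset.mem_filter.1 hz).1).1, (Finset.mem_filter.1 hz).2⟩
  have e3 := hC₂ y R hR (S.filter fun z => y + z • a ∈ Z₂) fun z hz => ⟨(hS z (Finset.mem_filter.1 hz).1).1, (Finset.mem_filter.1 hz).2⟩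
  have e4 : (S.card : ℝ) ≤ ((S.filter fun z => y + z • a ∈ Z₁).card : ℝ) + ((S.filter fun z => y + z • a ∈ Z₂).card : ℝ) := by
    exact_mod_cast e1
  linarith

private theorem fo_per {θ : Fin (d + 1) → Vd (k + 1) → ℂ} {y l : Vd (k + 1)} {e : ℂ} (h : ∀ i, θ i (y + l) = e * θ i y) (x : EN 1) : Fo θ (y + l) x = e * Fo θ y x := by
  unfold Fo
  rw [Finset.mul_sum]
  refine Finset.sum_congr rfl fun i _ => ?_
  rw [h i]
  ring

private theorem fd_per {θ : Fin (d + 1) → Vd (k + 1) → ℂ} {y l : Vd (k + 1)} {e : ℂ} (h : ∀ i, θ i (y + l) = e * θ i y) (x v : EN 1) : Fd θ (y + l) x v = e * Fd θ y x v := by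
  rw [fd_eq, fd_eq, Finset.mul_sum]
  refine Finset.sum_congr rfl fun i _ => ?_
  rw [h i]
  ring

theorem exists_pd {Λ : AddSubgroup (Vd (k + 1))} {θ : Fin (d + 1) → Vd (k + 1) → ℂ} {W : Fin r → Vd (k + 1) →L[ℂ] ℂ} (hΛ : Lat Λ) (hs : Simp Λ) (hd : 3 ≤ d) (han : ∀ i, Differentiable ℂ (θ i))
    (hper : ∀ l ∈ Λ, ∀ y, ∃ e : ℂ, ‖e‖ * Real.exp (-wt W (y + l)) = Real.exp (-wt W y) ∧ ∀ i, θ i (y + l) = e * θ i y) (hpos : ∀ y, (∀ i, W i y = 0) → y = 0) (hnv : NV θ)
    {y₀ : Vd (k + 1)} (h0 : ∀ x : EN 1, x ≠ 0 → Fo θ y₀ x = 0 → ∃ v, Fd θ y₀ x v ≠ 0) :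
    ∃ (D : Set (Vd (k + 1))) (Bad : Vd (k + 1) → Set (Vd (k + 1))), PD Λ D Bad θ W := by
  have hcont : Continuous (dl θ) := continuous_iff_continuousAt.2 fun y => (dl_an han y).continuousAt
  obtain ⟨D, hD⟩ : ∃ D : Set (Vd (k + 1)), D = {y | dl θ y = 0} := ⟨_, rfl⟩
  have hmem : ∀ y, y ∈ D ↔ dl θ y = 0 := fun y => by rw [hD]; exact Iff.rfl
  have hDc : IsClosed D := by
    rw [hD]
    exact isClosed_eq hcont continuous_const
  have hDi : ∀ y ∈ D, ∀ l ∈ Λ, y + l ∈ D := by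
    intro y hy l hl
    rw [hmem, dl_iff hd] at hy ⊢
    obtain ⟨x, hx, h1, h2⟩ := hy
    obtain ⟨e, -, he⟩ := hper l hl y
    refine ⟨x, hx, ?_, fun v => ?_⟩
    · rw [fo_per he, h1, mul_zero]
    · rw [fd_per he, h2 v, mul_zero]
  have hy₀ : y₀ ∉ D := by
    rw [hmem, dl_iff hd]
    rintro ⟨x, hx, h1, h2⟩
    obtain ⟨v, hv⟩ := h0 x hx h1
    exact hv (h2 v)
  have hAn : Pool.Agent.G4.AnOff ∅ D := by
    intro y _
    refine ⟨1, fun z _ => dl θ z, analyticAt_pi_iff.2 fun _ => dl_an han y, Eventually.of_forall fun z => ?_⟩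
    rw [hmem]
    constructor
    · intro h
      funext _
      exact h
    · intro h
      exact congrFun h 0
  have hL : Pool.Agent.G4.LDi D := Pool.Agent.G4.ldi_of hΛ hs hAn hDi hy₀
  have hne₀ : ∃ i, θ i y₀ ≠ 0 := by
    by_contra hn
    push Not at hn
    refine hy₀ ?_
    rw [hmem, dl_iff hd]
    refine ⟨WithLp.toLp 2 ![1, 0], fun h => ?_, ?_, fun v => ?_⟩
    · have := congrArg (fun x : EN 1 => x 0) h
      simp at this
    · unfold Fo
      exact Finset.sum_eq_zero fun i _ => by rw [hn i]; ring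
    · rw [fd_eq]
      exact Finset.sum_eq_zero fun i _ => by rw [hn i]; ring
  obtain ⟨b, b', hb, hbb⟩ := exists_bb hnv ⟨y₀, hne₀⟩
  have hfo : ∀ x : EN 1, ∀ y, AnalyticAt ℂ (fun y => Fo θ y x) y := by
    intro x y
    unfold Fo
    exact Finset.analyticAt_fun_sum _ fun i _ => ((an_vd (han i) y).mul analyticAt_const).mul analyticAt_const
  obtain ⟨e, T⟩ : ∃ e : Vd (k + 1) → Vd (k + 1) → ℂ, Pool.Agent.G4.H.ThF Λ W e := by
    refine exists_thf hΛ hpos (f := fun y => Fo θ y b) (hfo b) hb fun l hl y => ?_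
    obtain ⟨c, hc1, hc2⟩ := hper l hl y
    rw [fo_per hc2, norm_mul, mul_assoc, mul_comm ‖Fo θ y b‖ (Real.exp _), ← mul_assoc, hc1, mul_comm]
  have hfew2 : ∀ a : Vd (k + 1), a ≠ 0 → Few {y | Fo θ y b = 0 ∧ Fo θ y b' = 0} a := by
    intro a ha
    refine Pool.Agent.G4.RE.few_two T hΛ hs le_rfl (hfo b) (hfo b') hb (fun y h1 h2 l hl => ?_) hbb ha
    obtain ⟨c, -, hc2⟩ := hper l hl y
    rw [fo_per hc2, fo_per hc2, h1, h2, mul_zero]
    exact ⟨rfl, rfl⟩
  have hfew1 : ∀ a : Vd (k + 1), a ≠ 0 → Few (Pool.Agent.G4.RE.Bd D a) a := fun a ha =>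
    Pool.Agent.G4.RE.few_bd T hΛ hs le_rfl hDc hDi (fun y _ => ⟨dl θ, dl_an han y, Eventually.of_forall hmem⟩) hL ha
  refine ⟨D, fun a => Pool.Agent.G4.RE.Bd D a ∪ {y | ∀ i, θ i y = 0}, ?_⟩
  refine ⟨hΛ, hd, han, hper, hpos, hDc, hDi, ?_, ?_, ?_, ?_, ?_, ?_, ?_⟩
  · intro y hy x hx hx0
    by_contra hn
    push Not at hn
    exact hy ((hmem y).2 ((dl_iff hd θ y).2 ⟨x, hx, hx0, hn⟩))
  · intro a ha y
    filter_upwards [hL a ha y 0] with z hz
    rwa [add_comm (z • a) y] at hz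
  · rintro a y (hy | hy)
    · exact hy.1
    · rw [hmem, dl_iff hd]
      refine ⟨WithLp.toLp 2 ![1, 0], fun h => ?_, ?_, fun v => ?_⟩
      · have := congrArg (fun x : EN 1 => x 0) h
        simp at this
      · unfold Fo
        exact Finset.sum_eq_zero fun i _ => by rw [hy i]; ring
      · rw [fd_eq]
        exact Finset.sum_eq_zero fun i _ => by rw [hy i]; ring
  · rintro a y (hy | hy) l hl
    · exact Or.inl (Pool.Agent.G4.RE.bd_inv hDi a y hy l hl)
    · refine Or.inr fun i => ?_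
      obtain ⟨c, -, hc2⟩ := hper l hl y
      rw [hc2 i, hy i, mul_zero]
  · intro a ha
    refine few_uni (hfew1 a ha) (hfew2 a ha) ?_
    rintro y (hy | hy)
    · exact Or.inl hy
    · refine Or.inr ⟨?_, ?_⟩
      · show Fo θ y b = 0
        unfold Fo
        exact Finset.sum_eq_zero fun i _ => by rw [hy i]; ring
      · show Fo θ y b' = 0
        unfold Fo
        exact Finset.sum_eq_zero fun i _ => by rw [hy i]; ring
  · intro a ha p hp hpb
    have h1 : Pool.Agent.G4.RE.Gd D p a := by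
      by_contra hn
      exact hpb (Or.inl ⟨hp, hn⟩)
    obtain ⟨s, hs1, -, hs3, hs4⟩ := h1
    exact ⟨s, hs1, hs4, hs3⟩
  · intro a ha p hpb
    left
    by_contra hn
    push Not at hn
    exact hpb (Or.inr hn)

end Pool.Agent.PX

end
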