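import Pool.Agent.H94.PX2.M26
import Pool.Agent.H94.PX2.M51

/-! The parts of this file: G3.P.Ult, HE.Lim. -/

section

/-!
# G3 P Ult: ultralimits of curves in projective space

`ult`: a sequence of holomorphic curves (eventually defined on compact subsets of the open set `U`) which is equicontinuous at each point of `U` has, along an ultrafilter, a
limit `f : ℂ → MN N`; the convergence is uniform on compact subsets of `U` and `f` has local holomorphic lifts in `U`.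
Plan: the projection matrices `pr x`, `x ≠ 0`, lie in the compact set `{m : ‖m‖ ≤ 1}` (`MN N` is finite dimensional), so `f z` := the limit along `𝒰` exists; equicontinuity gives
local uniform convergence (finite covers).  Local lifts at `z₀`: `f z₀ = pr v` for a unit vector `v` (take `x_n = F n z₀ / ‖F n z₀‖`, ultralimit `v` on the compact sphere);
near `z₀` and for `𝒰`-many `n` the functions `⟨v, F n z⟩⁻¹ F n z = nv v (pr (F n z))` (`nv`, `nv_pr`, `nv_continuousAt` in `G3/C/EDefs`) are holomorphic, and they converge uniformly near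
`z₀` to `nv v (f z)`, so the limit is holomorphic (`TendstoLocallyUniformlyOn.differentiableOn`) and `pr (nv v (f z)) = f z`.
-/

set_option autoImplicit false

open Topology Filter Metric

namespace Pool.Agent.G3

open Pool.Agent.H36.BP (EN fs wd)
open Pool.Agent.H14.PP (IsCone CurveAt Tan)
open Pool.Agent.H62.EF (MN pr)
open Pool.Agent.AD (Vd)

variable {N k : ℕ} {X : Set (EN N)} {Λ : AddSubgroup (Vd (k + 1))} {u : EN N → Vd (k + 1)} {D : Set (Vd (k + 1))} {p : EN N → EN N → ℝ} {m : ℕ} {C : ℝ}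

/-- the set of the projection matrices of lines is compact -/
private theorem ult_compact : IsCompact ((pr : EN N → MN N) '' sphere (0 : EN N) 1) := by
  refine (isCompact_sphere (0 : EN N) 1).image_of_continuousOn fun x hx => ?_
  have hx0 : x ≠ 0 := by
    rintro rfl
    simp at hx
  exact (Pool.Agent.H62.EF.continuousAt_pr hx0).continuousWithinAt

private theorem ult_mem {x : EN N} (hx : x ≠ 0) : pr x ∈ (pr : EN N → MN N) '' sphere (0 : EN N) 1 := by
  have hn : ‖x‖ ≠ 0 := norm_ne_zero_iff.mpr hx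
  have hc : (((‖x‖⁻¹ : ℝ)) : ℂ) ≠ 0 := by
    exact_mod_cast inv_ne_zero hn
  refine ⟨(((‖x‖⁻¹ : ℝ)) : ℂ) • x, ?_, Pool.Agent.H62.EF.pr_smul x hc⟩
  rw [mem_sphere_zero_iff_norm, norm_smul, Complex.norm_real, norm_inv, norm_norm]
  exact inv_mul_cancel₀ hn

/-- the limit at one point -/
private theorem ult_point (𝒰 : Ultrafilter ℕ) (x : ℕ → EN N) (hx : ∀ᶠ n in (𝒰 : Filter ℕ), x n ≠ 0) :
    ∃ y : EN N, y ≠ 0 ∧ Tendsto (fun n => pr (x n)) (𝒰 : Filter ℕ) (𝓝 (pr y)) := by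
  have h1 : ((𝒰.map fun n => pr (x n) : Ultrafilter (MN N)) : Filter (MN N)) ≤
      𝓟 ((pr : EN N → MN N) '' sphere (0 : EN N) 1) := by
    rw [Ultrafilter.coe_map, le_principal_iff, mem_map]
    filter_upwards [hx] with n hn
    exact ult_mem hn
  obtain ⟨m, ⟨y, hy, rfl⟩, hm⟩ := ult_compact.ultrafilter_le_nhds _ h1
  refine ⟨y, ?_, hm⟩
  rintro rfl
  simp at hy

theorem ult (𝒰 : Ultrafilter ℕ) {U : Set ℂ} (hU : IsOpen U) (F : ℕ → ℂ → EN N)
    (hF : ∀ z ∈ U, ∃ s : ℝ, 0 < s ∧ ∀ᶠ n in (𝒰 : Filter ℕ), DifferentiableOn ℂ (F n) (ball z s) ∧ ∀ w ∈ ball z s, F n w ≠ 0)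
    (hq : ∀ z ∈ U, ∀ ε : ℝ, 0 < ε → ∃ s : ℝ, 0 < s ∧ ∀ᶠ n in (𝒰 : Filter ℕ), ∀ w ∈ ball z s, dist (pr (F n w)) (pr (F n z)) ≤ ε) :
    ∃ f : ℂ → MN N, (∀ z ∈ U, LLift f z) ∧
      ∀ K ⊆ U, IsCompact K → ∀ ε : ℝ, 0 < ε → ∀ᶠ n in (𝒰 : Filter ℕ), ∀ z ∈ K, dist (pr (F n z)) (f z) < ε := by
  classical
  have hne : ∀ z ∈ U, ∀ᶠ n in (𝒰 : Filter ℕ), F n z ≠ 0 := by
    intro z hz
    obtain ⟨s, hs, h⟩ := hF z hz
    filter_upwards [h] with n hn
    exact hn.2 z (mem_ball_self hs)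
  have hpt : ∀ z, ∃ y : EN N, z ∈ U → y ≠ 0 ∧
      Tendsto (fun n => pr (F n z)) (𝒰 : Filter ℕ) (𝓝 (pr y)) := by
    intro z
    by_cases hz : z ∈ U
    · obtain ⟨y, h1, h2⟩ := ult_point 𝒰 (fun n => F n z) (hne z hz)
      exact ⟨y, fun _ => ⟨h1, h2⟩⟩
    · exact ⟨0, fun h => absurd h hz⟩
  choose g hg using hpt
  -- local uniform convergence
  have hloc : ∀ z₀ ∈ U, ∀ ε : ℝ, 0 < ε → ∃ s : ℝ, 0 < s ∧ ball z₀ s ⊆ U ∧
      (∀ w ∈ ball z₀ s, dist (pr (g w)) (pr (g z₀)) ≤ ε) ∧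
      ∀ᶠ n in (𝒰 : Filter ℕ), ∀ w ∈ ball z₀ s, dist (pr (g w)) (pr (F n w)) < 4 * ε := by
    intro z₀ hz₀ ε hε
    obtain ⟨s₁, hs₁, h1⟩ := hq z₀ hz₀ ε hε
    obtain ⟨s₂, hs₂, h2⟩ := Metric.isOpen_iff.1 hU z₀ hz₀
    have hU' : ball z₀ (min s₁ s₂) ⊆ U := (ball_subset_ball (min_le_right _ _)).trans h2
    have hd : ∀ w ∈ ball z₀ (min s₁ s₂), dist (pr (g w)) (pr (g z₀)) ≤ ε := by
      intro w hw
      have h3 := (hg w (hU' hw)).2
      have h4 := (hg z₀ hz₀).2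
      refine le_of_tendsto (h3.dist h4) ?_
      filter_upwards [h1] with n hn
      exact hn w (ball_subset_ball (min_le_left _ _) hw)
    refine ⟨min s₁ s₂, lt_min hs₁ hs₂, hU', hd, ?_⟩
    have h4 := (Metric.tendsto_nhds.1 (hg z₀ hz₀).2) ε hε
    filter_upwards [h1, h4] with n hn1 hn4 w hw
    have h5 := hd w hw
    have h6 := hn1 w (ball_subset_ball (min_le_left _ _) hw)
    calc dist (pr (g w)) (pr (F n w)) ≤ dist (pr (g w)) (pr (g z₀)) + dist (pr (g z₀)) (pr (F n w)) :=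
          dist_triangle _ _ _
      _ ≤ dist (pr (g w)) (pr (g z₀)) + (dist (pr (g z₀)) (pr (F n z₀)) + dist (pr (F n z₀)) (pr (F n w))) := by
          gcongr
          exact dist_triangle _ _ _
      _ < 4 * ε := by
          rw [dist_comm (pr (g z₀)) (pr (F n z₀)), dist_comm (pr (F n z₀)) (pr (F n w))]
          linarith
  refine ⟨fun z => pr (g z), ?_, ?_⟩
  · intro z₀ hz₀
    set v := g z₀ with hv
    have hv0 : v ≠ 0 := (hg z₀ hz₀).1
    have hnd : C.nd v (pr v) ≠ 0 := (C.nd_pr_ne hv0).2 (inner_self_ne_zero.2 hv0)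
    obtain ⟨δ, hδ, hδO⟩ := Metric.isOpen_iff.1 (isOpen_ne.preimage (C.nd_cont v)) (pr v) hnd
    have hcomp : IsCompact (closedBall (pr v) (δ / 2)) := isCompact_closedBall _ _
    have hO : ∀ m ∈ closedBall (pr v) (δ / 2), C.nd v m ≠ 0 := by
      intro m hm
      exact hδO (closedBall_subset_ball (by linarith) hm)
    have huc : UniformContinuousOn (C.nv v) (closedBall (pr v) (δ / 2)) :=
      hcomp.uniformContinuousOn_of_continuous fun m hm => (C.nv_continuousAt (hO m hm)).continuousWithinAt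
    rw [Metric.uniformContinuousOn_iff] at huc
    obtain ⟨s₁, hs₁, hsU, hd1, hd2⟩ := hloc z₀ hz₀ (δ / 16) (by linarith)
    obtain ⟨s₂, hs₂, hd3⟩ := hF z₀ hz₀
    have hmemg : ∀ w ∈ ball z₀ s₁, pr (g w) ∈ closedBall (pr v) (δ / 2) := by
      intro w hw
      rw [mem_closedBall]
      have := hd1 w hw
      linarith
    have hmemF : ∀ᶠ n in (𝒰 : Filter ℕ), ∀ w ∈ ball z₀ s₁, pr (F n w) ∈ closedBall (pr v) (δ / 2) := by
      filter_upwards [hd2] with n hn w hw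
      rw [mem_closedBall]
      have h1 := hd1 w hw
      have h2 := hn w hw
      calc dist (pr (F n w)) (pr v) ≤ dist (pr (F n w)) (pr (g w)) + dist (pr (g w)) (pr v) := dist_triangle _ _ _
        _ ≤ δ / 2 := by
            rw [dist_comm (pr (F n w)) (pr (g w))]
            linarith
    set s := min s₁ s₂ with hs
    have hs0 : 0 < s := lt_min hs₁ hs₂
    have hb1 : ball z₀ s ⊆ ball z₀ s₁ := ball_subset_ball (min_le_left _ _)
    have hb2 : ball z₀ s ⊆ ball z₀ s₂ := ball_subset_ball (min_le_right _ _)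
    have hdiff : ∀ᶠ n in (𝒰 : Filter ℕ), DifferentiableOn ℂ (fun w => C.nv v (pr (F n w))) (ball z₀ s) := by
      filter_upwards [hmemF, hd3] with n hn1 hn2
      have h1 : ∀ w ∈ ball z₀ s, inner ℂ v (F n w) ≠ (0 : ℂ) := fun w hw =>
        (C.nd_pr_ne (hn2.2 w (hb2 hw))).1 (hO _ (hn1 w (hb1 hw)))
      have h2 : DifferentiableOn ℂ (fun w => (inner ℂ v (F n w) : ℂ)⁻¹ • F n w) (ball z₀ s) := by
        have h3 : DifferentiableOn ℂ (F n) (ball z₀ s) := hn2.1.mono hb2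
        have h4 : DifferentiableOn ℂ (fun w => (inner ℂ v (F n w) : ℂ)) (ball z₀ s) :=
          ((innerSL ℂ v).differentiable.comp_differentiableOn h3)
        exact (h4.inv h1).smul h3
      exact h2.congr fun w hw => C.nv_pr (h1 w hw)
    have hlu : TendstoLocallyUniformlyOn (fun n w => C.nv v (pr (F n w))) (fun w => C.nv v (pr (g w)))
        (𝒰 : Filter ℕ) (ball z₀ s) := by
      rw [Metric.tendstoLocallyUniformlyOn_iff]
      intro ε hε w₀ hw₀
      obtain ⟨η, hη, huc'⟩ := huc ε hε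
      obtain ⟨s₃, hs₃, -, -, h3⟩ := hloc w₀ (hsU (hb1 hw₀)) (η / 4) (by linarith)
      refine ⟨ball z₀ s ∩ ball w₀ s₃, ?_, ?_⟩
      · exact inter_mem self_mem_nhdsWithin (mem_nhdsWithin_of_mem_nhds (ball_mem_nhds w₀ hs₃))
      · filter_upwards [h3, hmemF] with n hn1 hn2 w hw
        refine huc' _ (hmemg w (hb1 hw.1)) _ (hn2 w (hb1 hw.1)) ?_
        have := hn1 w hw.2
        linarith
    have hΦ : DifferentiableOn ℂ (fun w => C.nv v (pr (g w))) (ball z₀ s) :=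
      hlu.differentiableOn hdiff isOpen_ball
    refine ⟨fun w => C.nv v (pr (g w)), hΦ.analyticAt (ball_mem_nhds z₀ hs0), ?_⟩
    filter_upwards [ball_mem_nhds z₀ hs0] with w hw
    have hw0 : g w ≠ 0 := (hg w (hsU (hb1 hw))).1
    have hi : inner ℂ v (g w) ≠ (0 : ℂ) := (C.nd_pr_ne hw0).1 (hO _ (hmemg w (hb1 hw)))
    refine ⟨?_, (C.pr_nv hi).symm⟩
    rw [C.nv_pr hi]
    exact smul_ne_zero (inv_ne_zero hi) hw0
  · have hlu : TendstoLocallyUniformlyOn (fun n w => pr (F n w)) (fun w => pr (g w)) (𝒰 : Filter ℕ) U := by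
      rw [Metric.tendstoLocallyUniformlyOn_iff]
      intro ε hε w₀ hw₀
      obtain ⟨s₃, hs₃, -, -, h3⟩ := hloc w₀ hw₀ (ε / 4) (by linarith)
      refine ⟨ball w₀ s₃, mem_nhdsWithin_of_mem_nhds (ball_mem_nhds w₀ hs₃), ?_⟩
      filter_upwards [h3] with n hn w hw
      have := hn w hw
      linarith
    intro K hK hKc ε hε
    have h1 := (tendstoLocallyUniformlyOn_iff_forall_isCompact hU).1 hlu K hK hKc
    rw [Metric.tendstoUniformlyOn_iff] at h1
    filter_upwards [h1 ε hε] with n hn z hz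
    rw [dist_comm]
    exact hn z hz

end Pool.Agent.G3

end

section

/-!
# HE Lim: limits of curves on lines

Adapted from `PX/Lim`.
-/

set_option autoImplicit false

open Topology Filter Metric

namespace Pool.Agent.HE

open Pool.Agent.H36.BP (EN fs wd)
open Pool.Agent.H62.EF (MN pr)
open Pool.Agent.AD (Vd)
open Pool.Agent.TG (Lat Gd)
open Pool.Agent.G3 (wt LLift)

variable {N k q r : ℕ} {Λ : AddSubgroup (Vd (k + 1))} {D : Set (Vd (k + 1))} {X : Set (Vd (k + 1) × EN N)} {F : Fin q → Vd (k + 1) × EN N → ℂ} {d : Fin q → ℕ}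
  {W : Fin q → Fin r → Vd (k + 1) →L[ℂ] ℂ}

/-- a point outside of the closed set `D` has positive distance from `D` -/
theorem Lim_gd {D : Set (Vd (k + 1))} (hD : IsClosed D) {y : Vd (k + 1)} (hy : y ∉ D) : ∃ δ : ℝ, 0 < δ ∧ y ∈ Gd D δ := by
  have h1 : Dᶜ ∈ 𝓝 y := hD.isOpen_compl.mem_nhds hy
  obtain ⟨δ, hδ, h⟩ := Metric.mem_nhds_iff.mp h1
  refine ⟨δ, hδ, fun b hb => ?_⟩
  by_contra hlt
  push Not at hlt
  have hb' : b ∈ ball y δ := by
    rw [mem_ball, dist_comm, dist_eq_norm]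
    exact hlt
  exact h hb' hb

/-- Cauchy's estimate for the derivatives -/
theorem Lim_deriv {g : ℂ → Vd (k + 1)} {y a : Vd (k + 1)} {r ε : ℝ} {V : Set ℂ} (hV : IsOpen V) (hr : closedBall (0 : ℂ) (r + 1) ⊆ V)
    (hg : DifferentiableOn ℂ g V) (hε : ∀ z ∈ closedBall (0 : ℂ) (r + 1), ‖g z - (y + z • a)‖ < ε) {z : ℂ} (hz : z ∈ closedBall (0 : ℂ) r) :
    ‖deriv g z‖ ≤ ε + ‖a‖ := by
  have hH : Differentiable ℂ fun z : ℂ => y + z • a := by fun_prop
  have hsub : closedBall z 1 ⊆ closedBall (0 : ℂ) (r + 1) := by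
    refine closedBall_subset_closedBall' ?_
    have := mem_closedBall.mp hz
    linarith
  have hgd : DifferentiableOn ℂ g (closedBall z 1) := hg.mono (hsub.trans hr)
  have hd : DiffContOnCl ℂ (fun w => g w - (y + w • a)) (ball z 1) := by
    have h1 : DifferentiableOn ℂ (fun w => g w - (y + w • a)) (closedBall z 1) := hgd.sub hH.differentiableOn
    have h2 : DifferentiableOn ℂ (fun w => g w - (y + w • a)) (closure (ball z 1)) := h1.mono closure_ball_subset_closedBall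
    exact h2.diffContOnCl
  have h1 := Complex.norm_deriv_le_of_forall_mem_sphere_norm_le (c := z) one_pos hd (C := ε) fun w hw =>
    (hε w (hsub (sphere_subset_closedBall hw))).le
  have hgz : DifferentiableAt ℂ g z := hg.differentiableAt (hV.mem_nhds (hr (hsub (mem_closedBall_self zero_le_one))))
  have hHz : deriv (fun z : ℂ => y + z • a) z = a := by
    have h2 : HasDerivAt (fun z : ℂ => y + z • a) ((1 : ℂ) • a) z := ((hasDerivAt_id z).smul_const a).const_add y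
    rw [h2.deriv, one_smul]
  rw [deriv_fun_sub hgz (hH z), div_one, hHz] at h1
  have h3 := norm_add_le (deriv g z - a) a
  rw [sub_add_cancel] at h3
  linarith

private theorem Lim_countable (P : HD Λ D X F d W) {a : Vd (k + 1)} (ha : a ≠ 0) (y : Vd (k + 1)) : {z : ℂ | y + z • a ∈ D}.Countable := by
  have h : ∀ z ∈ {z : ℂ | y + z • a ∈ D}, ∀ᶠ w in 𝓝[≠] z, w ∉ {z : ℂ | y + z • a ∈ D} := by
    intro z _
    have h1 := P.iso a ha (y + z • a)
    rw [eventually_nhdsWithin_iff, Metric.eventually_nhds_iff] at h1 ⊢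
    obtain ⟨ε, hε, h1⟩ := h1
    refine ⟨ε, hε, fun w hw hwz => ?_⟩
    have h2 : w - z ∈ ({0}ᶜ : Set ℂ) := fun h3 => hwz (sub_eq_zero.1 h3)
    have h3 := @h1 (w - z) (by rwa [dist_zero_right, ← dist_eq_norm]) h2
    intro h4
    refine h3 ?_
    have h5 : y + z • a + (w - z) • a = y + w • a := by rw [sub_smul]; abel
    rw [h5]
    exact h4
  have hd : DiscreteTopology {z : ℂ | y + z • a ∈ D} := by
    rw [discreteTopology_subtype_iff]
    intro z hz
    rw [Filter.inf_principal_eq_bot]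
    exact h z hz
  rw [← Set.countable_coe_iff]
  exact countable_of_Lindelof_of_discrete

private theorem Lim_tend {f₀ : Vd (k + 1) × EN N → ℂ} (hF : Continuous f₀) {l : Filter ℕ} {f : ℕ → Vd (k + 1)} {g : ℕ → EN N}
    {p : Vd (k + 1)} {q : EN N} (hf : Tendsto f l (𝓝 p)) (hg : Tendsto g l (𝓝 q)) : Tendsto (fun n => f₀ (f n, g n)) l (𝓝 (f₀ (p, q))) := by
  have h1 : Tendsto (fun n => (f n, g n)) l (𝓝 (p, q)) := hf.prodMk_nhds hg
  have h2 := (hF.tendsto (p, q)).comp h1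
  exact h2

private theorem Lim_dich {U : Set ℂ} (hU : IsPreconnected U) {p : ℂ → Prop}
    (h : ∀ z₀ ∈ U, ∃ r : ℝ, 0 < r ∧ ((∀ z ∈ ball z₀ r, p z) ∨ ∀ z ∈ ball z₀ r, ¬ p z)) {z₀ : ℂ} (hz₀ : z₀ ∈ U) (hp₀ : p z₀) : ∀ z ∈ U, p z := by
  set V : Set ℂ := {z | ∀ᶠ w in 𝓝 z, p w} with hV
  have hVo : IsOpen V := by
    rw [isOpen_iff_mem_nhds]
    intro z hz
    exact hz.eventually_nhds
  have hpV : ∀ z ∈ U, p z → z ∈ V := by
    intro z hz hp
    obtain ⟨r, hr, h1 | h1⟩ := h z hz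
    · exact Filter.eventually_of_mem (isOpen_ball.mem_nhds (mem_ball_self hr)) h1
    · exact absurd hp (h1 z (mem_ball_self hr))
  have hsub : U ⊆ V := by
    refine hU.subset_of_closure_inter_subset hVo ⟨z₀, hz₀, hpV z₀ hz₀ hp₀⟩ ?_
    rintro z ⟨hzc, hz⟩
    obtain ⟨r, hr, h1 | h1⟩ := h z hz
    · exact hpV z hz (h1 z (mem_ball_self hr))
    · obtain ⟨w, hw1, hw2⟩ := _root_.mem_closure_iff.1 hzc (ball z r) isOpen_ball (mem_ball_self hr)
      exact absurd hw2.self_of_nhds (h1 w hw1)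
  exact fun z hz => (hsub hz : z ∈ V).self_of_nhds

theorem HD.ls_zr (P : HD Λ D X F d W) (j : Fin q) {y a : Vd (k + 1)} (ha : a ≠ 0) {𝒰 : Ultrafilter ℕ} {w : ℕ → ℂ → EN N} {h : ℕ → ℂ → Vd (k + 1)} {g : ℂ → MN N}
    (S : LS X F D y a 𝒰 w h g) {z₀ : ℂ} (hz₀ : y + z₀ • a ∉ D) {x : EN N} (hx : x ≠ 0) (hxg : pr x = g z₀) (h0 : F j (y + z₀ • a, x) = 0) : Zr (F j) D y a g := by
  classical
  have hHc : Continuous fun z : ℂ => y + z • a := by fun_prop
  have hHd : Differentiable ℂ fun z : ℂ => y + z • a := by fun_prop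
  have hUo : IsOpen {z : ℂ | y + z • a ∉ D} := P.D_closed.isOpen_compl.preimage hHc
  have hUc : IsPreconnected {z : ℂ | y + z • a ∉ D} :=
    (Set.Countable.isConnected_compl_of_one_lt_rank (E := ℂ) (by rw [Complex.rank_real_complex]; exact_mod_cast one_lt_two)
      (Lim_countable P ha y)).isPreconnected
  have hF : Differentiable ℂ (F j) := P.an j
  -- two lifts of the same line
  have hpr : ∀ (z : ℂ) {v x : EN N}, v ≠ 0 → x ≠ 0 → pr x = pr v → F j (y + z • a, v) = 0 → F j (y + z • a, x) = 0 := by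
    intro z v x hv hx hxv hF0
    obtain ⟨c, -, hc⟩ := (Pool.Agent.H62.EF.pr_eq_iff hx hv).mp hxv
    rw [hc, P.hom, hF0, mul_zero]
  have hgcont : ∀ z : ℂ, y + z • a ∉ D → ContinuousAt g z := by
    intro z hz
    obtain ⟨Φ, hΦ, hΦe⟩ := S.lift z hz
    have h1 : ContinuousAt (fun v => pr (Φ v)) z := (Pool.Agent.H62.EF.continuousAt_pr hΦe.self_of_nhds.1).comp hΦ.continuousAt
    exact h1.congr (hΦe.mono fun v hv => hv.2.symm)
  refine Lim_dich hUc (p := fun z => ∀ x : EN N, x ≠ 0 → pr x = g z → F j (y + z • a, x) = 0) ?_ hz₀ ?_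
  swap
  · intro x' hx' hxg'
    exact hpr z₀ hx hx' (hxg'.trans hxg.symm) h0
  intro z₁ hz₁
  obtain ⟨Φ, hΦ, hΦe⟩ := S.lift z₁ hz₁
  obtain ⟨v, hv⟩ : ∃ v, v = Φ z₁ := ⟨_, rfl⟩
  have hv0 : v ≠ 0 := by rw [hv]; exact hΦe.self_of_nhds.1
  have hin : ∀ᶠ z in 𝓝 z₁, (inner ℂ v (Φ z) : ℂ) ≠ 0 := by
    have h1 : ContinuousAt (fun z => (inner ℂ v (Φ z) : ℂ)) z₁ := continuousAt_const.inner hΦ.continuousAt
    refine h1.eventually_ne ?_
    rw [← hv]
    exact inner_self_ne_zero.2 hv0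
  have hUe : ∀ᶠ z in 𝓝 z₁, y + z • a ∉ D := hUo.mem_nhds hz₁
  obtain ⟨r₀, hr₀, hr⟩ := Metric.eventually_nhds_iff_ball.1 ((hΦe.and hin).and (hUe.and hΦ.eventually_analyticAt))
  obtain ⟨r, hrdef⟩ : ∃ r : ℝ, r = r₀ / 2 := ⟨_, rfl⟩
  have hr0 : 0 < r := by rw [hrdef]; positivity
  have hKr : closedBall z₁ r ⊆ ball z₁ r₀ := closedBall_subset_ball (by rw [hrdef]; linarith)
  have hbr : ball z₁ r ⊆ closedBall z₁ r := ball_subset_closedBall
  have hK : IsCompact (closedBall z₁ r) := isCompact_closedBall _ _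
  have hgpr : ∀ z ∈ closedBall z₁ r, Φ z ≠ 0 ∧ g z = pr (Φ z) ∧ (inner ℂ v (Φ z) : ℂ) ≠ 0 ∧ y + z • a ∉ D := fun z hz =>
    ⟨(hr z (hKr hz)).1.1.1, (hr z (hKr hz)).1.1.2, (hr z (hKr hz)).1.2, (hr z (hKr hz)).2.1⟩
  have hnv : ∀ z ∈ closedBall z₁ r, Pool.Agent.G3.C.nv v (g z) = (inner ℂ v (Φ z) : ℂ)⁻¹ • Φ z := by
    intro z hz
    rw [(hgpr z hz).2.1, Pool.Agent.G3.C.nv_pr (hgpr z hz).2.2.1]
  have hnd : ∀ z ∈ closedBall z₁ r, Pool.Agent.G3.C.nd v (g z) ≠ 0 := by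
    intro z hz
    rw [(hgpr z hz).2.1]
    exact (Pool.Agent.G3.C.nd_pr_ne (hgpr z hz).1).2 (hgpr z hz).2.2.1
  -- the curves near `z₁`
  obtain ⟨ε, hε, hεs⟩ : ∃ ε : ℝ, 0 < ε ∧ thickening ε (g '' closedBall z₁ r) ⊆ {m : MN N | Pool.Agent.G3.C.nd v m ≠ 0} := by
    refine (hK.image_of_continuousOn fun z hz => (hgcont z (hgpr z hz).2.2.2).continuousWithinAt).exists_thickening_subset_open
      (isOpen_ne.preimage (Pool.Agent.G3.C.nd_cont v)) ?_
    rintro m ⟨z, hz, rfl⟩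
    exact hnd z hz
  have hcurve : ∀ᶠ n in (𝒰 : Filter ℕ), Cw X F (ball z₁ r) (w n) (h n) := by
    filter_upwards [S.cv (‖z₁‖ + r)] with n hn
    refine hn.mono fun z hz => ?_
    rw [mem_ball, dist_zero_right]
    have h1 : dist z z₁ < r := mem_ball.mp hz
    have h2 := norm_le_norm_add_norm_sub' z z₁
    rw [← dist_eq_norm] at h2
    linarith
  have hin2 : ∀ᶠ n in (𝒰 : Filter ℕ), ∀ z ∈ ball z₁ r, w n z ≠ 0 ∧ (inner ℂ v (w n z) : ℂ) ≠ 0 := by
    filter_upwards [hcurve, S.lim (closedBall z₁ r) hK (fun z hz => (hgpr z hz).2.2.2) ε hε] with n h1 h2 z hz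
    have h3 : w n z ≠ 0 := h1.w_ne _ hz
    refine ⟨h3, (Pool.Agent.G3.C.nd_pr_ne h3).1 (hεs ?_)⟩
    rw [mem_thickening_iff]
    exact ⟨g z, ⟨z, hbr hz, rfl⟩, h2 z (hbr hz)⟩
  have hkey := Pool.Agent.H62.Log.hurwitz 𝒰 (a := z₁) (r := r) (φ := fun n z => F j (h n z, Pool.Agent.G3.C.nv v (pr (w n z))))
    (ψ := fun z => F j (y + z • a, Pool.Agent.G3.C.nv v (g z))) ?_ ?_ ?_ ?_
  · refine ⟨r, hr0, ?_⟩
    rcases hkey with hk | hk
    · left
      intro z hz x' hx' hxg'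
      have h1 : F j (y + z • a, Pool.Agent.G3.C.nv v (g z)) = 0 := hk z hz
      rw [hnv z (hbr hz)] at h1
      refine hpr z (smul_ne_zero (inv_ne_zero (hgpr z (hbr hz)).2.2.1) (hgpr z (hbr hz)).1) hx' ?_ h1
      rw [Pool.Agent.H62.EF.pr_smul _ (inv_ne_zero (hgpr z (hbr hz)).2.2.1), hxg', (hgpr z (hbr hz)).2.1]
    · right
      intro z hz hp
      refine hk z hz ?_
      show F j (y + z • a, Pool.Agent.G3.C.nv v (g z)) = 0
      rw [hnv z (hbr hz)]
      refine hp _ (smul_ne_zero (inv_ne_zero (hgpr z (hbr hz)).2.2.1) (hgpr z (hbr hz)).1) ?_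
      rw [Pool.Agent.H62.EF.pr_smul _ (inv_ne_zero (hgpr z (hbr hz)).2.2.1), (hgpr z (hbr hz)).2.1]
  · filter_upwards [hcurve, hin2] with n h1 h2
    have h4 : DifferentiableOn ℂ (fun z => (inner ℂ v (w n z) : ℂ)) (ball z₁ r) := (innerSL ℂ v).differentiable.comp_differentiableOn h1.w_diff
    have h5 : DifferentiableOn ℂ (fun z => (inner ℂ v (w n z) : ℂ)⁻¹ • w n z) (ball z₁ r) := (h4.inv fun z hz => (h2 z hz).2).smul h1.w_diff
    have h6 : DifferentiableOn ℂ (fun z => F j (h n z, (inner ℂ v (w n z) : ℂ)⁻¹ • w n z)) (ball z₁ r) := hF.comp_differentiableOn (h1.h_diff.prodMk h5)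
    exact h6.congr fun z hz => by simp only [Pool.Agent.G3.C.nv_pr (h2 z hz).2]
  · filter_upwards [hcurve, hin2] with n h1 h2 z hz
    simp only [Pool.Agent.G3.C.nv_pr (h2 z hz).2]
    rw [P.hom]
    exact mul_ne_zero (pow_ne_zero _ (inv_ne_zero (h2 z hz).2)) (h1.ne j z hz)
  · have h3 : DifferentiableOn ℂ Φ (ball z₁ r) := fun z hz => (hr z (hKr (hbr hz))).2.2.differentiableAt.differentiableWithinAt
    have h4 : DifferentiableOn ℂ (fun z => (inner ℂ v (Φ z) : ℂ)) (ball z₁ r) := (innerSL ℂ v).differentiable.comp_differentiableOn h3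
    have h5 : DifferentiableOn ℂ (fun z => (inner ℂ v (Φ z) : ℂ)⁻¹ • Φ z) (ball z₁ r) := (h4.inv fun z hz => (hgpr z (hbr hz)).2.2.1).smul h3
    have h6 : DifferentiableOn ℂ (fun z : ℂ => F j (y + z • a, (inner ℂ v (Φ z) : ℂ)⁻¹ • Φ z)) (ball z₁ r) :=
      hF.comp_differentiableOn (hHd.differentiableOn.prodMk h5)
    exact h6.congr fun z hz => by simp only [hnv z (hbr hz)]
  · intro zs z' hz' hzs
    have hbn : ∀ᶠ n in (𝒰 : Filter ℕ), zs n ∈ ball z₁ r := hzs.eventually (isOpen_ball.mem_nhds hz')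
    have e1 : Tendsto (fun n => h n (zs n)) (𝒰 : Filter ℕ) (𝓝 (y + z' • a)) := by
      have h1 : Tendsto (fun n => y + zs n • a) (𝒰 : Filter ℕ) (𝓝 (y + z' • a)) := (hHc.tendsto z').comp hzs
      have h2 : Tendsto (fun n => h n (zs n) - (y + zs n • a)) (𝒰 : Filter ℕ) (𝓝 0) := by
        rw [Metric.tendsto_nhds]
        intro ε' hε'
        filter_upwards [hbn, S.hh (‖z₁‖ + r) ε' hε'] with n hn1 hn2
        rw [dist_zero_right]
        refine hn2 _ ?_
        rw [mem_closedBall, dist_zero_right]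
        have h1 : dist (zs n) z₁ < r := mem_ball.mp hn1
        have h2 := norm_le_norm_add_norm_sub' (zs n) z₁
        rw [← dist_eq_norm] at h2
        linarith
      have h3 := h2.add h1
      simp only [sub_add_cancel, zero_add] at h3
      exact h3
    have e2 : Tendsto (fun n => pr (w n (zs n))) (𝒰 : Filter ℕ) (𝓝 (g z')) := by
      have h1 : Tendsto (fun n => g (zs n)) (𝒰 : Filter ℕ) (𝓝 (g z')) := (hgcont z' (hgpr z' (hbr hz')).2.2.2).tendsto.comp hzs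
      refine h1.congr_dist ?_
      rw [Metric.tendsto_nhds]
      intro ε' hε'
      filter_upwards [hbn, S.lim (closedBall z₁ r) hK (fun z hz => (hgpr z hz).2.2.2) ε' hε'] with n hn1 hn2
      rw [dist_zero_right, Real.norm_of_nonneg dist_nonneg, dist_comm]
      exact hn2 _ (hbr hn1)
    have e3 : Tendsto (fun n => Pool.Agent.G3.C.nv v (pr (w n (zs n)))) (𝒰 : Filter ℕ) (𝓝 (Pool.Agent.G3.C.nv v (g z'))) :=
      (Pool.Agent.G3.C.nv_continuousAt (hnd z' (hbr hz'))).tendsto.comp e2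
    exact Lim_tend hF.continuous e1 e3

end Pool.Agent.HE

end
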