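import Pool.Agent.H94.PX2.M08
import Pool.Agent.H94.PX2.M16
import Pool.Agent.H94.PX2.M25
import Pool.Agent.H94.PX2.M51

/-! The parts of this file: H7.Bir.Main, PX.Lim. -/

section

/-!
# Bir Main: the properties of the Green–Griffiths–Lang conjecture are birationally invariant

`bir_four`: let `P` and `P'` be homogeneous prime ideals whose function fields are isomorphic over `ℂ`.  If the variety of `P` has the properties of
the conjecture (with an exceptional set `Ξ`), then so has the variety of `P'`.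
-/

set_option autoImplicit false

open Topology Filter MvPolynomial

noncomputable section

namespace Pool.Agent.H7.Bir

open Pool.Agent.H17 (PN VanishesAt HolomorphicInto puncturedDisc vanishesAt_mk_iff ZariskiClosedIn)
open Pool.Agent.H17GT (coordFun)
open Pool.Agent.H17LG.Variety (FunField IsLogGeneralType)
open Pool.Agent.H17R (coordFun_ne_zero_iff)

variable {N M : ℕ}

theorem punctured_open : IsOpen puncturedDisc := Metric.isOpen_ball.sdiff isClosed_singleton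

/-- The value of a composed form. -/
theorem eval_comp (γ : Fin (N + 1) → MvPolynomial (Fin (M + 1)) ℂ) (R : MvPolynomial (Fin (N + 1)) ℂ) (x : Fin (M + 1) → ℂ) :
    eval x (aeval γ R) = eval (vals γ x) R := by
  have h1 := aeval_comp (K := ℂ) x γ R
  exact h1

/-- A form vanishes at the image of a point if and only if its composition with the rational map vanishes. -/
theorem vanishesAt_rmap {γ : Fin (N + 1) → MvPolynomial (Fin (M + 1)) ℂ} {y : PN M} (hy : vals γ y.rep ≠ 0) {n : ℕ}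
    {R : MvPolynomial (Fin (N + 1)) ℂ} (hR : R.IsHomogeneous n) : VanishesAt R (rmap γ y) ↔ VanishesAt (aeval γ R) y := by
  unfold rmap
  rw [dif_pos hy, vanishesAt_mk_iff hR]
  unfold VanishesAt
  rw [eval_comp]

section

variable {P : Ideal (MvPolynomial (Fin (N + 1)) ℂ)} {P' : Ideal (MvPolynomial (Fin (M + 1)) ℂ)} {D D' : ℕ}
  {α : Fin (M + 1) → MvPolynomial (Fin (N + 1)) ℂ} {γ : Fin (N + 1) → MvPolynomial (Fin (M + 1)) ℂ} {j : Fin (N + 1)}
  {j' : Fin (M + 1)}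

end

end Pool.Agent.H7.Bir

end
end

section

/-!
# PX Lim: limits of curves on lines

`exists_ls`: `G3.ult` for `U = {z | y + z • a ∉ D}` (open; complement closed discrete by `iso`), equicontinuity from `lip` (`‖deriv (h n)‖` is bounded by Cauchy: `hh`), as in `G3/P/Cls` (`closed_arcs`).
`ls_rt`: Hurwitz on the connected open set `U` (the complement of a closed countable set in `ℂ` is connected): locally `Fo θ (h n z) (φ n z)`, `φ n` lifts without zero, converges to `Fo θ (y + z a) (φ z)`.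
-/

set_option autoImplicit false

open Topology Filter Metric

namespace Pool.Agent.PX

open Pool.Agent.H36.BP (EN fs wd)
open Pool.Agent.H62.EF (MN pr)
open Pool.Agent.AD (Vd)
open Pool.Agent.TG (Lat Gd)
open Pool.Agent.G3 (wt LLift)
open Pool.Agent.G4 (Few)

variable {k d r : ℕ}

variable {Λ : AddSubgroup (Vd (k + 1))} {D : Set (Vd (k + 1))} {Bad : Vd (k + 1) → Set (Vd (k + 1))} {θ : Fin (d + 1) → Vd (k + 1) → ℂ}
  {W : Fin r → Vd (k + 1) →L[ℂ] ℂ}

/-- a point outside of the closed set `D` has positive distance from `D` -/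
theorem Lim_gd {D : Set (Vd (k + 1))} (hD : IsClosed D) {y : Vd (k + 1)} (hy : y ∉ D) : ∃ δ : ℝ, 0 < δ ∧ y ∈ Gd D δ := by
  have h1 : Dᶜ ∈ 𝓝 y := hD.isOpen_compl.mem_nhds hy
  obtain ⟨δ, hδ, h⟩ := Metric.mem_nhds_iff.mp h1
  refine ⟨δ, hδ, fun b hb => ?_⟩
  by_contra hlt
  push Not at hlt
  have hb' : b ∈ ball y δ := by
    rw [mem_ball, dist_comm, dist_eq_norm]
    exact hlt
  exact h hb' hb

/-- Cauchy's estimate for the derivatives -/
theorem Lim_deriv {g : ℂ → Vd (k + 1)} {y a : Vd (k + 1)} {r ε : ℝ} {V : Set ℂ} (hV : IsOpen V) (hr : closedBall (0 : ℂ) (r + 1) ⊆ V)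
    (hg : DifferentiableOn ℂ g V) (hε : ∀ z ∈ closedBall (0 : ℂ) (r + 1), ‖g z - (y + z • a)‖ < ε) {z : ℂ} (hz : z ∈ closedBall (0 : ℂ) r) :
    ‖deriv g z‖ ≤ ε + ‖a‖ := by
  have hH : Differentiable ℂ fun z : ℂ => y + z • a := by fun_prop
  have hsub : closedBall z 1 ⊆ closedBall (0 : ℂ) (r + 1) := by
    refine closedBall_subset_closedBall' ?_
    have := mem_closedBall.mp hz
    linarith
  have hgd : DifferentiableOn ℂ g (closedBall z 1) := hg.mono (hsub.trans hr)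
  have hd : DiffContOnCl ℂ (fun w => g w - (y + w • a)) (ball z 1) := by
    have h1 : DifferentiableOn ℂ (fun w => g w - (y + w • a)) (closedBall z 1) := hgd.sub hH.differentiableOn
    have h2 : DifferentiableOn ℂ (fun w => g w - (y + w • a)) (closure (ball z 1)) := h1.mono closure_ball_subset_closedBall
    exact h2.diffContOnCl
  have h1 := Complex.norm_deriv_le_of_forall_mem_sphere_norm_le (c := z) one_pos hd (C := ε) fun w hw =>
    (hε w (hsub (sphere_subset_closedBall hw))).le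
  have hgz : DifferentiableAt ℂ g z := hg.differentiableAt (hV.mem_nhds (hr (hsub (mem_closedBall_self zero_le_one))))
  have hHz : deriv (fun z : ℂ => y + z • a) z = a := by
    have h2 : HasDerivAt (fun z : ℂ => y + z • a) ((1 : ℂ) • a) z := ((hasDerivAt_id z).smul_const a).const_add y
    rw [h2.deriv, one_smul]
  rw [deriv_fun_sub hgz (hH z), div_one, hHz] at h1
  have h3 := norm_add_le (deriv g z - a) a
  rw [sub_add_cancel] at h3
  linarith

private theorem Lim_countable (P : PD Λ D Bad θ W) {a : Vd (k + 1)} (ha : a ≠ 0) (y : Vd (k + 1)) : {z : ℂ | y + z • a ∈ D}.Countable := by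
  have h : ∀ z ∈ {z : ℂ | y + z • a ∈ D}, ∀ᶠ w in 𝓝[≠] z, w ∉ {z : ℂ | y + z • a ∈ D} := by
    intro z _
    have h1 := P.iso a ha (y + z • a)
    rw [eventually_nhdsWithin_iff, Metric.eventually_nhds_iff] at h1 ⊢
    obtain ⟨ε, hε, h1⟩ := h1
    refine ⟨ε, hε, fun w hw hwz => ?_⟩
    have h2 : w - z ∈ ({0}ᶜ : Set ℂ) := fun h3 => hwz (sub_eq_zero.1 h3)
    have h3 := @h1 (w - z) (by rwa [dist_zero_right, ← dist_eq_norm]) h2
    intro h4
    refine h3 ?_
    have h5 : y + z • a + (w - z) • a = y + w • a := by rw [sub_smul]; abel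
    rw [h5]
    exact h4
  have hd : DiscreteTopology {z : ℂ | y + z • a ∈ D} := by
    rw [discreteTopology_subtype_iff]
    intro z hz
    rw [Filter.inf_principal_eq_bot]
    exact h z hz
  rw [← Set.countable_coe_iff]
  exact countable_of_Lindelof_of_discrete

private theorem Lim_tend (hF : Continuous fun p : Vd (k + 1) × EN 1 => Fo θ p.1 p.2) {l : Filter ℕ} {f : ℕ → Vd (k + 1)} {g : ℕ → EN 1}
    {p : Vd (k + 1)} {q : EN 1} (hf : Tendsto f l (𝓝 p)) (hg : Tendsto g l (𝓝 q)) : Tendsto (fun n => Fo θ (f n) (g n)) l (𝓝 (Fo θ p q)) := by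
  have h1 : Tendsto (fun n => (f n, g n)) l (𝓝 (p, q)) := hf.prodMk_nhds hg
  have h2 := (hF.tendsto (p, q)).comp h1
  exact h2

private theorem Lim_cd (hF : Differentiable ℂ fun p : Vd (k + 1) × EN 1 => Fo θ p.1 p.2) {U : Set ℂ} {f : ℂ → Vd (k + 1)} {g : ℂ → EN 1}
    (hf : DifferentiableOn ℂ f U) (hg : DifferentiableOn ℂ g U) : DifferentiableOn ℂ (fun z => Fo θ (f z) (g z)) U := by
  obtain ⟨Φ, hΦ⟩ : ∃ Φ : Vd (k + 1) × EN 1 → ℂ, Φ = fun p => Fo θ p.1 p.2 := ⟨_, rfl⟩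
  have e : (fun z => Fo θ (f z) (g z)) = fun z => Φ (f z, g z) := by rw [hΦ]
  rw [← hΦ] at hF
  rw [e]
  have h1 : DifferentiableOn ℂ (fun z => (f z, g z)) U := hf.prodMk hg
  exact hF.comp_differentiableOn h1

private theorem Lim_dich {U : Set ℂ} (hU : IsPreconnected U) {p : ℂ → Prop}
    (h : ∀ z₀ ∈ U, ∃ r : ℝ, 0 < r ∧ ((∀ z ∈ ball z₀ r, p z) ∨ ∀ z ∈ ball z₀ r, ¬ p z)) {z₀ : ℂ} (hz₀ : z₀ ∈ U) (hp₀ : p z₀) : ∀ z ∈ U, p z := by
  set V : Set ℂ := {z | ∀ᶠ w in 𝓝 z, p w} with hV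
  have hVo : IsOpen V := by
    rw [isOpen_iff_mem_nhds]
    intro z hz
    exact hz.eventually_nhds
  have hpV : ∀ z ∈ U, p z → z ∈ V := by
    intro z hz hp
    obtain ⟨r, hr, h1 | h1⟩ := h z hz
    · exact Filter.eventually_of_mem (isOpen_ball.mem_nhds (mem_ball_self hr)) h1
    · exact absurd hp (h1 z (mem_ball_self hr))
  have hsub : U ⊆ V := by
    refine hU.subset_of_closure_inter_subset hVo ⟨z₀, hz₀, hpV z₀ hz₀ hp₀⟩ ?_
    rintro z ⟨hzc, hz⟩
    obtain ⟨r, hr, h1 | h1⟩ := h z hz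
    · exact hpV z hz (h1 z (mem_ball_self hr))
    · obtain ⟨w, hw1, hw2⟩ := _root_.mem_closure_iff.1 hzc (ball z r) isOpen_ball (mem_ball_self hr)
      exact absurd hw2.self_of_nhds (h1 w hw1)
  exact fun z hz => (hsub hz : z ∈ V).self_of_nhds

theorem PD.ls_rt (P : PD Λ D Bad θ W) {y a : Vd (k + 1)} (ha : a ≠ 0) {𝒰 : Ultrafilter ℕ} {w : ℕ → ℂ → EN 1} {h : ℕ → ℂ → Vd (k + 1)} {g : ℂ → MN 1}
    (S : LS θ D y a 𝒰 w h g) {z₀ : ℂ} (hz₀ : y + z₀ • a ∉ D) {x : EN 1} (hx : x ≠ 0) (hxg : pr x = g z₀) (h0 : Fo θ (y + z₀ • a) x = 0) : Rt θ D y a g := by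
  classical
  have hd1 : 1 ≤ d := le_trans (by norm_num) P.deg
  have hHc : Continuous fun z : ℂ => y + z • a := by fun_prop
  have hHd : Differentiable ℂ fun z : ℂ => y + z • a := by fun_prop
  have hUo : IsOpen {z : ℂ | y + z • a ∉ D} := P.D_closed.isOpen_compl.preimage hHc
  have hUc : IsPreconnected {z : ℂ | y + z • a ∉ D} :=
    (Set.Countable.isConnected_compl_of_one_lt_rank (E := ℂ) (by rw [Complex.rank_real_complex]; exact_mod_cast one_lt_two)
      (Lim_countable P ha y)).isPreconnected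
  have hF : Differentiable ℂ fun p : Vd (k + 1) × EN 1 => Fo θ p.1 p.2 := fo_diff P.an
  -- two lifts of the same line
  have hpr : ∀ (z : ℂ) {v x : EN 1}, v ≠ 0 → x ≠ 0 → pr x = pr v → Fo θ (y + z • a) v = 0 → Fo θ (y + z • a) x = 0 := by
    intro z v x hv hx hxv hF0
    obtain ⟨c, -, hc⟩ := (Pool.Agent.H62.EF.pr_eq_iff hx hv).mp hxv
    rw [hc, fo_smul, hF0, mul_zero]
  have hgcont : ∀ z : ℂ, y + z • a ∉ D → ContinuousAt g z := by
    intro z hz
    obtain ⟨Φ, hΦ, hΦe⟩ := S.lift z hz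
    have h1 : ContinuousAt (fun v => pr (Φ v)) z := (Pool.Agent.H62.EF.continuousAt_pr hΦe.self_of_nhds.1).comp hΦ.continuousAt
    exact h1.congr (hΦe.mono fun v hv => hv.2.symm)
  refine Lim_dich hUc (p := fun z => ∀ x : EN 1, x ≠ 0 → pr x = g z → Fo θ (y + z • a) x = 0) ?_ hz₀ ?_
  swap
  · intro x' hx' hxg'
    exact hpr z₀ hx hx' (hxg'.trans hxg.symm) h0
  intro z₁ hz₁
  obtain ⟨Φ, hΦ, hΦe⟩ := S.lift z₁ hz₁
  obtain ⟨v, hv⟩ : ∃ v, v = Φ z₁ := ⟨_, rfl⟩
  have hv0 : v ≠ 0 := by rw [hv]; exact hΦe.self_of_nhds.1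
  have hin : ∀ᶠ z in 𝓝 z₁, (inner ℂ v (Φ z) : ℂ) ≠ 0 := by
    have h1 : ContinuousAt (fun z => (inner ℂ v (Φ z) : ℂ)) z₁ := continuousAt_const.inner hΦ.continuousAt
    refine h1.eventually_ne ?_
    rw [← hv]
    exact inner_self_ne_zero.2 hv0
  have hUe : ∀ᶠ z in 𝓝 z₁, y + z • a ∉ D := hUo.mem_nhds hz₁
  obtain ⟨r₀, hr₀, hr⟩ := Metric.eventually_nhds_iff_ball.1 ((hΦe.and hin).and (hUe.and hΦ.eventually_analyticAt))
  obtain ⟨r, hrdef⟩ : ∃ r : ℝ, r = r₀ / 2 := ⟨_, rfl⟩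
  have hr0 : 0 < r := by rw [hrdef]; positivity
  have hKr : closedBall z₁ r ⊆ ball z₁ r₀ := closedBall_subset_ball (by rw [hrdef]; linarith)
  have hbr : ball z₁ r ⊆ closedBall z₁ r := ball_subset_closedBall
  have hK : IsCompact (closedBall z₁ r) := isCompact_closedBall _ _
  have hgpr : ∀ z ∈ closedBall z₁ r, Φ z ≠ 0 ∧ g z = pr (Φ z) ∧ (inner ℂ v (Φ z) : ℂ) ≠ 0 ∧ y + z • a ∉ D := fun z hz =>
    ⟨(hr z (hKr hz)).1.1.1, (hr z (hKr hz)).1.1.2, (hr z (hKr hz)).1.2, (hr z (hKr hz)).2.1⟩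
  have hnv : ∀ z ∈ closedBall z₁ r, Pool.Agent.G3.C.nv v (g z) = (inner ℂ v (Φ z) : ℂ)⁻¹ • Φ z := by
    intro z hz
    rw [(hgpr z hz).2.1, Pool.Agent.G3.C.nv_pr (hgpr z hz).2.2.1]
  have hnd : ∀ z ∈ closedBall z₁ r, Pool.Agent.G3.C.nd v (g z) ≠ 0 := by
    intro z hz
    rw [(hgpr z hz).2.1]
    exact (Pool.Agent.G3.C.nd_pr_ne (hgpr z hz).1).2 (hgpr z hz).2.2.1
  -- the curves near `z₁`
  obtain ⟨ε, hε, hεs⟩ : ∃ ε : ℝ, 0 < ε ∧ thickening ε (g '' closedBall z₁ r) ⊆ {m : MN 1 | Pool.Agent.G3.C.nd v m ≠ 0} := by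
    refine (hK.image_of_continuousOn fun z hz => (hgcont z (hgpr z hz).2.2.2).continuousWithinAt).exists_thickening_subset_open
      (isOpen_ne.preimage (Pool.Agent.G3.C.nd_cont v)) ?_
    rintro m ⟨z, hz, rfl⟩
    exact hnd z hz
  have hcurve : ∀ᶠ n in (𝒰 : Filter ℕ), Cp θ (ball z₁ r) (w n) (h n) := by
    filter_upwards [S.cv (‖z₁‖ + r)] with n hn
    refine hn.mono fun z hz => ?_
    rw [mem_ball, dist_zero_right]
    have h1 : dist z z₁ < r := mem_ball.mp hz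
    have h2 := norm_le_norm_add_norm_sub' z z₁
    rw [← dist_eq_norm] at h2
    linarith
  have hin2 : ∀ᶠ n in (𝒰 : Filter ℕ), ∀ z ∈ ball z₁ r, w n z ≠ 0 ∧ (inner ℂ v (w n z) : ℂ) ≠ 0 := by
    filter_upwards [hcurve, S.lim (closedBall z₁ r) hK (fun z hz => (hgpr z hz).2.2.2) ε hε] with n h1 h2 z hz
    have h3 : w n z ≠ 0 := h1.w_ne hd1 hz
    refine ⟨h3, (Pool.Agent.G3.C.nd_pr_ne h3).1 (hεs ?_)⟩
    rw [mem_thickening_iff]
    exact ⟨g z, ⟨z, hbr hz, rfl⟩, h2 z (hbr hz)⟩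
  have hkey := Pool.Agent.H62.Log.hurwitz 𝒰 (a := z₁) (r := r) (φ := fun n z => Fo θ (h n z) (Pool.Agent.G3.C.nv v (pr (w n z))))
    (ψ := fun z => Fo θ (y + z • a) (Pool.Agent.G3.C.nv v (g z))) ?_ ?_ ?_ ?_
  · refine ⟨r, hr0, ?_⟩
    rcases hkey with hk | hk
    · left
      intro z hz x' hx' hxg'
      have h1 : Fo θ (y + z • a) (Pool.Agent.G3.C.nv v (g z)) = 0 := hk z hz
      rw [hnv z (hbr hz)] at h1
      refine hpr z (smul_ne_zero (inv_ne_zero (hgpr z (hbr hz)).2.2.1) (hgpr z (hbr hz)).1) hx' ?_ h1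
      rw [Pool.Agent.H62.EF.pr_smul _ (inv_ne_zero (hgpr z (hbr hz)).2.2.1), hxg', (hgpr z (hbr hz)).2.1]
    · right
      intro z hz hp
      refine hk z hz ?_
      show Fo θ (y + z • a) (Pool.Agent.G3.C.nv v (g z)) = 0
      rw [hnv z (hbr hz)]
      refine hp _ (smul_ne_zero (inv_ne_zero (hgpr z (hbr hz)).2.2.1) (hgpr z (hbr hz)).1) ?_
      rw [Pool.Agent.H62.EF.pr_smul _ (inv_ne_zero (hgpr z (hbr hz)).2.2.1), (hgpr z (hbr hz)).2.1]
  · filter_upwards [hcurve, hin2] with n h1 h2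
    have h4 : DifferentiableOn ℂ (fun z => (inner ℂ v (w n z) : ℂ)) (ball z₁ r) := (innerSL ℂ v).differentiable.comp_differentiableOn h1.w_diff
    have h5 : DifferentiableOn ℂ (fun z => (inner ℂ v (w n z) : ℂ)⁻¹ • w n z) (ball z₁ r) := (h4.inv fun z hz => (h2 z hz).2).smul h1.w_diff
    have h6 := Lim_cd hF h1.h_diff h5
    exact h6.congr fun z hz => by simp only [Pool.Agent.G3.C.nv_pr (h2 z hz).2]
  · filter_upwards [hcurve, hin2] with n h1 h2 z hz
    simp only [Pool.Agent.G3.C.nv_pr (h2 z hz).2]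
    rw [fo_smul]
    exact mul_ne_zero (pow_ne_zero _ (inv_ne_zero (h2 z hz).2)) (h1.ne z hz)
  · have h3 : DifferentiableOn ℂ Φ (ball z₁ r) := fun z hz => (hr z (hKr (hbr hz))).2.2.differentiableAt.differentiableWithinAt
    have h4 : DifferentiableOn ℂ (fun z => (inner ℂ v (Φ z) : ℂ)) (ball z₁ r) := (innerSL ℂ v).differentiable.comp_differentiableOn h3
    have h5 : DifferentiableOn ℂ (fun z => (inner ℂ v (Φ z) : ℂ)⁻¹ • Φ z) (ball z₁ r) := (h4.inv fun z hz => (hgpr z (hbr hz)).2.2.1).smul h3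
    have h6 := Lim_cd hF (hHd.differentiableOn (s := ball z₁ r)) h5
    exact h6.congr fun z hz => by simp only [hnv z (hbr hz)]
  · intro zs z' hz' hzs
    have hbn : ∀ᶠ n in (𝒰 : Filter ℕ), zs n ∈ ball z₁ r := hzs.eventually (isOpen_ball.mem_nhds hz')
    have e1 : Tendsto (fun n => h n (zs n)) (𝒰 : Filter ℕ) (𝓝 (y + z' • a)) := by
      have h1 : Tendsto (fun n => y + zs n • a) (𝒰 : Filter ℕ) (𝓝 (y + z' • a)) := (hHc.tendsto z').comp hzs
      have h2 : Tendsto (fun n => h n (zs n) - (y + zs n • a)) (𝒰 : Filter ℕ) (𝓝 0) := by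
        rw [Metric.tendsto_nhds]
        intro ε' hε'
        filter_upwards [hbn, S.hh (‖z₁‖ + r) ε' hε'] with n hn1 hn2
        rw [dist_zero_right]
        refine hn2 _ ?_
        rw [mem_closedBall, dist_zero_right]
        have h1 : dist (zs n) z₁ < r := mem_ball.mp hn1
        have h2 := norm_le_norm_add_norm_sub' (zs n) z₁
        rw [← dist_eq_norm] at h2
        linarith
      have h3 := h2.add h1
      simp only [sub_add_cancel, zero_add] at h3
      exact h3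
    have e2 : Tendsto (fun n => pr (w n (zs n))) (𝒰 : Filter ℕ) (𝓝 (g z')) := by
      have h1 : Tendsto (fun n => g (zs n)) (𝒰 : Filter ℕ) (𝓝 (g z')) := (hgcont z' (hgpr z' (hbr hz')).2.2.2).tendsto.comp hzs
      refine h1.congr_dist ?_
      rw [Metric.tendsto_nhds]
      intro ε' hε'
      filter_upwards [hbn, S.lim (closedBall z₁ r) hK (fun z hz => (hgpr z hz).2.2.2) ε' hε'] with n hn1 hn2
      rw [dist_zero_right, Real.norm_of_nonneg dist_nonneg, dist_comm]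
      exact hn2 _ (hbr hn1)
    have e3 : Tendsto (fun n => Pool.Agent.G3.C.nv v (pr (w n (zs n)))) (𝒰 : Filter ℕ) (𝓝 (Pool.Agent.G3.C.nv v (g z'))) :=
      (Pool.Agent.G3.C.nv_continuousAt (hnd z' (hbr hz'))).tendsto.comp e2
    exact Lim_tend hF.continuous e1 e3

end Pool.Agent.PX

end
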