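import Pool.Agent.H94.PX2.M08
import Pool.Agent.H94.PX2.M19
import Pool.Agent.H94.PX2.M22

/-! The parts of this file: PX.Fib_1, PY.Fib, PY.Lip. -/

section

/-!
# PX Fib: the fibres outside `D`

`roots3`: the form `Fo θ y` is not `0` (otherwise every `x` is a root and all derivatives vanish, against `simple`) and has only simple roots, so it has `d ≥ 3` roots in `ℙ¹`: the polynomial `p t = Fo θ y (t, 1)` (`x 0 = t`, `x 1 = 1`) has
degree `≥ d - 1` (degree `d - 1` exactly if `(1, 0)` is a root: the coefficient of `x_0^d` is `0`, that of `x_0^(d-1) x_1` is not), simple roots (`Polynomial.card_roots`, separable).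
`cross`: with three roots `x₁, x₂, x₃` the function `dt x₁ (G z) * dt x₂ x₃ / (dt x₃ (G z) * dt x₂ x₁)` omits `0` and `1` (Plücker: `dt a b * dt c e - dt a c * dt b e + dt a e * dt b c = 0`); `fib`: `little_picard`, so the function is constant and `G z` is
proportional to `G w`.  `fibE`: differentiate `Fo θ y (G z) = 0`: `Fd θ y (G z) (G' z) = 0`, so `dt (G z) (G' z) = 0`, so `G' z` is a multiple of `G z`, the quotient of `dt (G w) (G z)` by a coordinate
of `G z` has derivative `0` near `w`, and `dt (G w) (G z) = 0` by the identity theorem.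
-/

set_option autoImplicit false

open Topology Filter Metric

namespace Pool.Agent.PX

open Pool.Agent.H36.BP (EN fs wd)
open Pool.Agent.H62.EF (MN pr)
open Pool.Agent.AD (Vd)
open Pool.Agent.TG (Lat)
open Pool.Agent.G3 (wt LLift)
open Pool.Agent.G4 (Few)

variable {k d r : ℕ}

variable {Λ : AddSubgroup (Vd (k + 1))} {D : Set (Vd (k + 1))} {Bad : Vd (k + 1) → Set (Vd (k + 1))} {θ : Fin (d + 1) → Vd (k + 1) → ℂ}
  {W : Fin r → Vd (k + 1) →L[ℂ] ℂ}

/-! ### The polynomial -/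

private theorem Fib_deriv (θ : Fin (d + 1) → Vd (k + 1) → ℂ) (y : Vd (k + 1)) (t : ℂ) :
    (Polynomial.derivative (Fib_p θ y)).eval t = Fd θ y (Fib_pt t 1) (Fib_pt 1 0) := by
  unfold Fib_p
  rw [fd_eq, Polynomial.derivative_sum, Polynomial.eval_finsetSum]
  refine Finset.sum_congr rfl fun i _ => ?_
  rw [Fib_pt0, Fib_pt1, Fib_pt0, Fib_pt1, one_pow, Polynomial.derivative_C_mul_X_pow]
  simp
  ring

private theorem Fib_card {θ : Fin (d + 1) → Vd (k + 1) → ℂ} {y : Vd (k + 1)}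
    (hs : ∀ x : EN 1, x ≠ 0 → Fo θ y x = 0 → ∃ v, Fd θ y x v ≠ 0) {i : Fin (d + 1)} (hi : θ i y ≠ 0) :
    (i : ℕ) ≤ (Fib_p θ y).roots.toFinset.card := by
  have hne : Fib_p θ y ≠ 0 := by
    intro h
    apply hi
    rw [← Fib_coeff θ y i, h, Polynomial.coeff_zero]
  have hdeg : (i : ℕ) ≤ (Fib_p θ y).natDegree := by
    apply Polynomial.le_natDegree_of_ne_zero
    rw [Fib_coeff]
    exact hi
  have hnd : (Fib_p θ y).roots.Nodup := by
    rw [Multiset.nodup_iff_count_le_one]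
    intro t
    rw [Polynomial.count_roots]
    by_contra h
    rw [not_le, Polynomial.one_lt_rootMultiplicity_iff_isRoot hne] at h
    obtain ⟨h2, h1⟩ := h
    rw [Polynomial.IsRoot.def, Fib_eval] at h2
    rw [Polynomial.IsRoot.def, Fib_deriv] at h1
    have hx : Fib_pt t 1 ≠ 0 := by
      intro h0
      have h3 : Fib_pt t 1 1 = (0 : EN 1) 1 := by rw [h0]
      rw [Fib_pt1] at h3
      exact one_ne_zero h3
    obtain ⟨v, hv⟩ := hs _ hx h2
    obtain ⟨κ, hκ⟩ := fd_root θ hx h2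
    rw [hκ, Fib_dt] at h1
    have h4 : κ = 0 := by linear_combination -h1
    apply hv
    rw [hκ, h4, zero_mul]
  rw [Multiset.toFinset_card_of_nodup hnd, IsAlgClosed.card_roots_eq_natDegree]
  exact hdeg

theorem PD.roots3 (P : PD Λ D Bad θ W) {y : Vd (k + 1)} (hy : y ∉ D) : ∃ x₁ x₂ x₃ : EN 1, Fo θ y x₁ = 0 ∧ Fo θ y x₂ = 0 ∧ Fo θ y x₃ = 0 ∧
    dt x₁ x₂ ≠ 0 ∧ dt x₁ x₃ ≠ 0 ∧ dt x₂ x₃ ≠ 0 := by
  have hd := P.deg
  have hs := P.simple y hy
  by_cases h1 : θ (Fin.last d) y = 0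
  · have hx : Fib_pt 1 0 ≠ 0 := by
      intro h0
      have h3 : Fib_pt 1 0 0 = (0 : EN 1) 0 := by rw [h0]
      rw [Fib_pt0] at h3
      exact one_ne_zero h3
    have h2 : Fo θ y (Fib_pt 1 0) = 0 := by
      unfold Fo
      refine Finset.sum_eq_zero fun i _ => ?_
      rw [Fib_pt1]
      by_cases hi : i = Fin.last d
      · rw [hi, h1, zero_mul, zero_mul]
      · have hid : (i : ℕ) ≠ d := fun h => hi (Fin.ext h)
        have := i.2
        rw [zero_pow (by omega), mul_zero]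
    obtain ⟨j, hj⟩ : ∃ j : Fin (d + 1), (j : ℕ) = d - 1 := ⟨⟨d - 1, by omega⟩, rfl⟩
    have h3 : θ j y ≠ 0 := by
      intro h3
      obtain ⟨v, hv⟩ := hs _ hx h2
      apply hv
      rw [fd_eq]
      refine Finset.sum_eq_zero fun i _ => ?_
      rw [Fib_pt1]
      by_cases hi : i = Fin.last d
      · rw [hi, h1, zero_mul]
      by_cases hi' : i = j
      · rw [hi', h3, zero_mul]
      · have hid : (i : ℕ) ≠ d := fun h => hi (Fin.ext h)
        have hid' : (i : ℕ) ≠ d - 1 := fun h => hi' (Fin.ext (h.trans hj.symm))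
        have := i.2
        rw [zero_pow (by omega : d - (i : ℕ) ≠ 0), zero_pow (by omega : d - (i : ℕ) - 1 ≠ 0)]
        ring
    have h4 := Fib_card hs h3
    obtain ⟨a, ha, b, hb, hab⟩ := Finset.one_lt_card.1 (show 1 < (Fib_p θ y).roots.toFinset.card by omega)
    refine ⟨Fib_pt a 1, Fib_pt b 1, Fib_pt 1 0, Fib_root ha, Fib_root hb, h2, ?_, ?_, ?_⟩
    · rw [Fib_dt]
      intro h
      apply hab
      linear_combination h
    · rw [Fib_dt]
      intro h
      have : (1 : ℂ) = 0 := by linear_combination -h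
      exact one_ne_zero this
    · rw [Fib_dt]
      intro h
      have : (1 : ℂ) = 0 := by linear_combination -h
      exact one_ne_zero this
  · have h4 := Fib_card hs h1
    rw [Fin.val_last] at h4
    obtain ⟨a, ha, b, hb, c, hc, hab, hac, hbc⟩ :=
      Finset.two_lt_card.1 (show 2 < (Fib_p θ y).roots.toFinset.card by omega)
    refine ⟨Fib_pt a 1, Fib_pt b 1, Fib_pt c 1, Fib_root ha, Fib_root hb, Fib_root hc, ?_, ?_, ?_⟩
    · rw [Fib_dt]
      intro h
      apply hab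
      linear_combination h
    · rw [Fib_dt]
      intro h
      apply hac
      linear_combination h
    · rw [Fib_dt]
      intro h
      apply hbc
      linear_combination h

theorem Fib_zero (θ : Fin (d + 1) → Vd (k + 1) → ℂ) (hd : 1 ≤ d) (y : Vd (k + 1)) : Fo θ y 0 = 0 := by
  have h := fo_smul θ y 0 0
  rw [zero_smul, zero_pow (by omega), zero_mul] at h
  exact h

theorem PD.fibE (P : PD Λ D Bad θ W) {y : Vd (k + 1)} (hy : y ∉ D) {G : ℂ → EN 1} (hG : Differentiable ℂ G) (h0 : ∀ z, G z ≠ 0) (hF : ∀ z, Fo θ y (G z) = 0) (z w : ℂ) :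
    ∃ c : ℂ, G z = c • G w := by
  have hs := P.simple y hy
  -- the derivative is a multiple of the function
  have hder : ∀ z, ∃ c : ℂ, deriv G z = c • G z := by
    intro z
    have hdiff : DifferentiableAt ℂ (Fo θ y) (G z) := by
      have h1 := fo_diff P.an (y, G z)
      have h2 : DifferentiableAt ℂ (fun x : EN 1 => (y, x)) (G z) := by fun_prop
      exact h1.comp (G z) h2
    have h1 : HasDerivAt (fun z => Fo θ y (G z)) (fderiv ℂ (Fo θ y) (G z) (deriv G z)) z :=
      hdiff.hasFDerivAt.comp_hasDerivAt z (hG z).hasDerivAt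
    have h2 : (fun z => Fo θ y (G z)) = fun _ => 0 := funext hF
    rw [h2] at h1
    have h3 : Fd θ y (G z) (deriv G z) = 0 := h1.unique (hasDerivAt_const z (0 : ℂ))
    obtain ⟨κ, hκ⟩ := fd_root θ (h0 z) (hF z)
    obtain ⟨v, hv⟩ := hs _ (h0 z) (hF z)
    have hκ0 : κ ≠ 0 := by
      intro h
      apply hv
      rw [hκ, h, zero_mul]
    rw [hκ] at h3
    rcases mul_eq_zero.1 h3 with h4 | h4
    · exact absurd h4 hκ0
    · exact (dt_eq_zero (h0 z)).1 h4
  -- a coordinate which is not zero at `w`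
  obtain ⟨i, hi⟩ : ∃ i : Fin 2, G w i ≠ 0 := by
    by_contra h
    push Not at h
    apply h0 w
    ext i
    exact h i
  have hco : Continuous fun z => G z i := by
    rw [continuous_iff_continuousAt]
    exact fun z => (Fib_coord hG i z).continuousAt
  have hev : ∀ᶠ z in 𝓝 w, G z i ≠ 0 := hco.continuousAt.eventually_ne hi
  obtain ⟨ρ, hρ, hball⟩ := Metric.eventually_nhds_iff_ball.1 hev
  have hzero : ∀ z ∈ ball w ρ, dt (G w) (G z) = 0 := by
    intro z hz
    have hd : ∀ x ∈ ball w ρ, HasDerivAt (fun z => dt (G w) (G z) / G z i) 0 x := by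
      intro x hx
      obtain ⟨c, hc⟩ := hder x
      have h1 := (Fib_dt_deriv hG (G w) x).div (Fib_coord hG i x) (hball x hx)
      have h2 : (dt (G w) (deriv G x) * G x i - dt (G w) (G x) * deriv G x i) / G x i ^ 2 = 0 := by
        rw [hc]
        have h3 : dt (G w) (c • G x) * G x i - dt (G w) (G x) * (c • G x) i = 0 := by
          unfold dt
          simp only [PiLp.smul_apply, smul_eq_mul]
          ring
        rw [h3, zero_div]
      rw [h2] at h1
      exact h1
    have hconst := isOpen_ball.is_const_of_deriv_eq_zero (convex_ball w ρ).isPreconnected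
      (fun x hx => (hd x hx).differentiableAt.differentiableWithinAt)
      (fun x hx => (hd x hx).deriv) (mem_ball_self hρ) hz
    simp only at hconst
    have hww : dt (G w) (G w) = 0 := by
      unfold dt
      ring
    rw [hww, zero_div] at hconst
    rcases div_eq_zero_iff.1 hconst.symm with h | h
    · exact h
    · exact absurd h (hball z hz)
  have hu : Differentiable ℂ fun z => dt (G w) (G z) := fun z => (Fib_dt_deriv hG (G w) z).differentiableAt
  have han : AnalyticOnNhd ℂ (fun z => dt (G w) (G z)) Set.univ := hu.differentiableOn.analyticOnNhd isOpen_univ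
  have hall := han.eqOn_zero_of_preconnected_of_eventuallyEq_zero isPreconnected_univ (Set.mem_univ w)
    (Filter.eventually_of_mem (ball_mem_nhds w hρ) hzero)
  exact (dt_eq_zero (h0 w)).1 (hall (Set.mem_univ z))

end Pool.Agent.PX

end

section

/-!
# PY Fib: the fibres outside `D`

`fib`: `fib_const`.  `fibE`: the coordinate `t = - dt e (G z) / dt b (G z)` is a root of a fixed polynomial, so bounded: Liouville.
-/

set_option autoImplicit false

open Topology Filter Metric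

namespace Pool.Agent.PY

open Pool.Agent.H36.BP (EN fs wd)
open Pool.Agent.H62.EF (MN pr)
open Pool.Agent.AD (Vd)
open Pool.Agent.TG (Lat)
open Pool.Agent.G3 (wt LLift)
open Pool.Agent.PX

variable {k d r : ℕ}

variable {Λ : AddSubgroup (Vd (k + 1))} {D : Set (Vd (k + 1))} {θ : Fin (d + 1) → Vd (k + 1) → ℂ} {W : Fin r → Vd (k + 1) →L[ℂ] ℂ}

/-- the form is not `0` at some `b` -/
theorem exists_nonroot {y : Vd (k + 1)} (h : ∃ i, θ i y ≠ 0) : ∃ b : EN 1, Fo θ y b ≠ 0 := by
  by_contra hcon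
  push Not at hcon
  obtain ⟨i, hi⟩ := h
  -- the polynomial `∑ θ_i(y) X ^ i`
  set p : Polynomial ℂ := ∑ j : Fin (d + 1), Polynomial.monomial (j : ℕ) (θ j y) with hp
  have hev : ∀ t : ℂ, p.eval t = 0 := by
    intro t
    have h1 := hcon (!₂[t, 1] : EN 1)
    rw [hp, Polynomial.eval_finsetSum]
    rw [← h1]
    unfold Fo
    refine Finset.sum_congr rfl fun j _ => ?_
    simp [Polynomial.eval_monomial]
  have hp0 : p = 0 := Polynomial.funext fun t => by rw [hev t, Polynomial.eval_zero]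
  have hc : p.coeff (i : ℕ) = θ i y := by
    rw [hp, Polynomial.finsetSum_coeff]
    rw [Finset.sum_eq_single i]
    · simp
    · intro j _ hj
      rw [Polynomial.coeff_monomial, if_neg]
      intro h
      exact hj (Fin.ext h)
    · intro h
      exact absurd (Finset.mem_univ i) h
  rw [hp0, Polynomial.coeff_zero] at hc
  exact hi hc.symm

theorem exists_dt_one {b : EN 1} (hb : b ≠ 0) : ∃ e : EN 1, dt b e = 1 := by
  by_cases h : b 0 = 0
  · have h1 : b 1 ≠ 0 := by
      intro h1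
      apply hb
      ext i
      fin_cases i
      · simpa using h
      · simpa using h1
    refine ⟨!₂[-(b 1)⁻¹, 0], ?_⟩
    simp [dt, h1]
  · refine ⟨!₂[0, (b 0)⁻¹], ?_⟩
    simp [dt, h]

theorem PE.fibE (P : PE Λ D θ W) {y : Vd (k + 1)} (hy : y ∉ D) {G : ℂ → EN 1} (hG : Differentiable ℂ G) (h0 : ∀ z, G z ≠ 0) (hF : ∀ z, Fo θ y (G z) = 0) (z w : ℂ) :
    ∃ c : ℂ, G z = c • G w := by
  obtain ⟨b, hb⟩ := exists_nonroot (P.form y hy)
  have hb0 : b ≠ 0 := by
    rintro rfl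
    apply hb
    have h1 := fo_smul θ y 0 (0 : EN 1)
    rw [zero_smul] at h1
    rw [h1, zero_pow (by have := P.deg; omega), zero_mul]
  obtain ⟨e, he⟩ := exists_dt_one hb0
  have hbe : dt b e ≠ 0 := by
    rw [he]
    exact one_ne_zero
  obtain ⟨c, -, hc⟩ := exists_coef P.an b e
  have hrt := fun z => rt_dt (θ := θ) hbe hb (h0 z) (hF z)
  set t : ℂ → ℂ := fun z => (-(dt e (G z)) / dt b (G z)) with ht
  have hcd : ∀ (x : EN 1), Differentiable ℂ fun z => dt x (G z) := by
    intro x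
    have h1 : ∀ i : Fin 2, Differentiable ℂ fun z => G z i := fun i =>
      ((EuclideanSpace.proj i : EN 1 →L[ℂ] ℂ).differentiable).comp hG
    unfold dt
    exact ((h1 1).const_mul _).sub ((h1 0).const_mul _)
  have htd : Differentiable ℂ t := by
    intro z
    exact ((hcd e z).neg).div (hcd b z) (hrt z).1
  -- the values are roots of a polynomial
  set p : Polynomial ℂ := Polynomial.C (Fo θ y b) * Polynomial.X ^ d + ∑ i : Fin d, Polynomial.C (c i y) * Polynomial.X ^ (i : ℕ) with hp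
  have hpe : ∀ s : ℂ, p.eval s = Fo θ y (s • b + e) := by
    intro s
    rw [hc y s, hp]
    simp [Polynomial.eval_finsetSum]
  have hp0 : p ≠ 0 := by
    intro h
    have h1 : p.coeff d = Fo θ y b := by
      rw [hp, Polynomial.coeff_add, Polynomial.coeff_C_mul, Polynomial.coeff_X_pow, if_pos rfl, mul_one, Polynomial.finsetSum_coeff]
      rw [Finset.sum_eq_zero, add_zero]
      intro i _
      rw [Polynomial.coeff_C_mul, Polynomial.coeff_X_pow, if_neg, mul_zero]
      have := i.2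
      omega
    rw [h, Polynomial.coeff_zero] at h1
    exact hb h1.symm
  have htr : ∀ z, t z ∈ p.rootSet ℂ := by
    intro z
    rw [Polynomial.mem_rootSet]
    refine ⟨hp0, ?_⟩
    rw [Polynomial.coe_aeval_eq_eval, hpe]
    obtain ⟨h1, h2⟩ := hrt z
    have h3 := hF z
    rw [h2, fo_smul] at h3
    rcases mul_eq_zero.1 h3 with h4 | h4
    · exfalso
      exact (pow_ne_zero d (div_ne_zero h1 hbe)) h4
    · exact h4
  have hbd : Bornology.IsBounded (Set.range t) :=
    (Polynomial.rootSet_finite p ℂ).isBounded.subset (Set.range_subset_iff.2 htr)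
  have hconst := htd.apply_eq_apply_of_bounded hbd z w
  obtain ⟨h1, h2⟩ := hrt z
  obtain ⟨h3, h4⟩ := hrt w
  refine ⟨dt b (G z) / dt b (G w), ?_⟩
  have h5 : G z = (dt b (G z) / dt b e) • (t z • b + e) := h2
  have h6 : G w = (dt b (G w) / dt b e) • (t w • b + e) := h4
  rw [h5]
  conv_rhs => rw [h6]
  rw [hconst, smul_smul]
  congr 1
  have h7 : dt b ((dt b (G z) / dt b e) • (t w • b + e)) = dt b (G z) := by
    rw [← hconst, ← h5]
  have h8 : dt b ((dt b (G w) / dt b e) • (t w • b + e)) = dt b (G w) := by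
    rw [← h6]
  rw [h7, h8]
  field_simp

end Pool.Agent.PY

end

section

/-!
# PY Lip: the curves are Lipschitz over `Gd D δ`

As `TG/Zl` (`curve_bound`), with `N = 1` and the cone `{x | x ≠ 0}`: `AD.rescale_disc`, `H62.EF.limit_curves`.  The discs are shrunk to radius `min r₀ (δ / (4 (H + 1)))`, so that `h` stays in `Gd D (δ / 2)`; translate by `Λ` (`Cp.add`).  The limit `G` of the rescaled curves lies in the fibre
over a point `y₀ ∉ D`; by Hurwitz `Fo θ y₀ (G z)` is identically `0` or has no zero (`Fo θ (h n ..) (φ n z)` has no zero, `φ n` the local lifts of `limit_curves`, converges locally uniformly to `Fo θ y₀ (ψ z)`): `fib`, `fibE`; contradiction with `fs (G 0) (G' 0) = 1`.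
-/

set_option autoImplicit false

open Topology Filter Metric

namespace Pool.Agent.PY

open Pool.Agent.H36.BP (EN fs wd)
open Pool.Agent.H62.EF (MN pr)
open Pool.Agent.AD (Vd)
open Pool.Agent.TG (Lat Gd)
open Pool.Agent.G3 (wt LLift)
open Pool.Agent.PX

variable {k d r : ℕ}

variable {Λ : AddSubgroup (Vd (k + 1))} {D : Set (Vd (k + 1))} {θ : Fin (d + 1) → Vd (k + 1) → ℂ}
  {W : Fin r → Vd (k + 1) →L[ℂ] ℂ}

private lemma Lip_gd (P : PE Λ D θ W) (δ : ℝ) {y l : Vd (k + 1)} (hl : l ∈ Λ) (h : y ∈ Gd D δ) : y + l ∈ Gd D δ := by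
  intro b hb
  have h1 := h _ (P.D_inv b hb (-l) (Λ.neg_mem hl))
  have h2 : y - (b + -l) = y + l - b := by abel
  rwa [h2] at h1

/-- normalisation: the centre is `0`, the value at the centre is bounded, the disc is small -/
lemma Lip_norm (P : PE Λ D θ W) {δ H r₀ s : ℝ} (hs : 0 < s) (hsr : s ≤ r₀) :
    ∃ R : ℝ, 0 < R ∧ ∀ (w : ℂ → EN 1) (h : ℂ → Vd (k + 1)) (z : ℂ), Cp θ (ball z r₀) w h → (∀ ζ ∈ ball z r₀, ‖deriv h ζ‖ ≤ H) → h z ∈ Gd D δ →
      ∃ (w' : ℂ → EN 1) (h' : ℂ → Vd (k + 1)), Cp θ (ball 0 s) w' h' ∧ (∀ ζ ∈ ball (0 : ℂ) s, ∀ ζ' ∈ ball (0 : ℂ) s, ‖h' ζ - h' ζ'‖ ≤ H * ‖ζ - ζ'‖) ∧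
        h' 0 ∈ Gd D δ ∧ ‖h' 0‖ ≤ R ∧ fs (w' 0) (deriv w' 0) = fs (w z) (deriv w z) := by
  obtain ⟨R, hR0, hR⟩ := P.lat.cpt
  refine ⟨R, hR0, fun w h z hc hd hz => ?_⟩
  obtain ⟨l, hl, hlR⟩ := hR (h z)
  have hmap : Set.MapsTo (fun ζ : ℂ => z + ζ) (ball 0 s) (ball z r₀) := by
    intro ζ hζ
    rw [mem_ball_zero_iff] at hζ
    rw [mem_ball, dist_eq_norm]
    have : z + ζ - z = ζ := by ring
    rw [this]
    linarith
  have hc1 : Cp θ (ball (0 : ℂ) s) (fun ζ => w (z + ζ)) (fun ζ => h (z + ζ)) :=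
    hc.comp (φ := fun ζ : ℂ => z + ζ) (differentiable_id.const_add z).differentiableOn hmap
  have hc2 := cp_add P hc1 (Λ.neg_mem hl)
  refine ⟨fun ζ => w (z + ζ), fun ζ => h (z + ζ) + -l, hc2, ?_, ?_, ?_, ?_⟩
  · have hder : ∀ ζ ∈ ball (0 : ℂ) s, ‖deriv (fun ζ => h (z + ζ)) ζ‖ ≤ H := by
      intro ζ hζ
      have : deriv (fun ζ => h (z + ζ)) ζ = deriv h (z + ζ) := by
        rw [deriv_comp_const_add]
      rw [this]
      exact hd _ (hmap hζ)
    intro ζ hζ ζ' hζ'
    have h1 := (convex_ball (0 : ℂ) s).norm_image_sub_le_of_norm_deriv_le (f := fun ζ => h (z + ζ)) (C := H)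
      (fun x hx => hc1.h_diff.differentiableAt (isOpen_ball.mem_nhds hx)) hder hζ' hζ
    have h2 : h (z + ζ) + -l - (h (z + ζ') + -l) = h (z + ζ) - h (z + ζ') := by abel
    simp only [h2]
    exact h1
  · simp only [add_zero]
    exact Lip_gd P δ (Λ.neg_mem hl) hz
  · simp only [add_zero]
    rwa [← sub_eq_add_neg]
  · rw [deriv_comp_const_add]
    simp only [add_zero]

/-- Hurwitz: the form is identically zero on the limit curve or has no zero -/
lemma Lip_hur (P : PE Λ D θ W) {𝒰 : Ultrafilter ℕ} {g : ℕ → ℂ → EN 1} {hh : ℕ → ℂ → Vd (k + 1)} {w₀ : Vd (k + 1)} {G : ℂ → EN 1}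
    (hcp : ∀ n : ℕ, Cp θ (ball 0 ((n : ℝ) + 1)) (g n) (hh n)) (hρ : Tendsto (fun n : ℕ => (n : ℝ) + 1) 𝒰 atTop)
    (hlim : ∀ (z : ℕ → ℂ) (z₀ : ℂ), Tendsto z 𝒰 (𝓝 z₀) → Tendsto (fun n => hh n (z n)) 𝒰 (𝓝 w₀)) (hG : Differentiable ℂ G)
    (hloc : ∀ z₀, ∃ (r : ℝ) (φ : ℕ → ℂ → EN 1) (ψ : ℂ → EN 1), 0 < r ∧
        (∀ᶠ n in (𝒰 : Filter ℕ), DifferentiableOn ℂ (φ n) (ball z₀ r) ∧ ∀ z ∈ ball z₀ r, ∃ c : ℂ, c ≠ 0 ∧ φ n z = c • g n z) ∧
        DifferentiableOn ℂ ψ (ball z₀ r) ∧ (∀ z ∈ ball z₀ r, ∃ c : ℂ, c ≠ 0 ∧ ψ z = c • G z) ∧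
        TendstoLocallyUniformlyOn φ ψ 𝒰 (ball z₀ r)) :
    (∀ z, Fo θ w₀ (G z) = 0) ∨ ∀ z, Fo θ w₀ (G z) ≠ 0 := by
  by_cases hex : ∃ z₁, Fo θ w₀ (G z₁) = 0
  swap
  · right
    intro z hz
    exact hex ⟨z, hz⟩
  left
  obtain ⟨z₁, hz₁⟩ := hex
  obtain ⟨r, φ, ψ, hr, hφ, hψ, hψG, hconv⟩ := hloc z₁
  have hcont : Continuous fun p : Vd (k + 1) × EN 1 => Fo θ p.1 p.2 := (fo_diff P.an).continuous
  have hpair : Differentiable ℂ fun x : EN 1 => (w₀, x) := (differentiable_const w₀).prodMk differentiable_id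
  have hF0 : Differentiable ℂ fun x : EN 1 => Fo θ w₀ x :=
    Differentiable.comp (g := fun p : Vd (k + 1) × EN 1 => Fo θ p.1 p.2) (f := fun x : EN 1 => (w₀, x)) (fo_diff P.an) hpair
  have hbig : ∀ᶠ n : ℕ in (𝒰 : Filter ℕ), ball z₁ r ⊆ ball (0 : ℂ) ((n : ℝ) + 1) := by
    filter_upwards [hρ.eventually_gt_atTop (‖z₁‖ + r)] with n hn z hz
    rw [mem_ball, dist_eq_norm] at hz
    rw [mem_ball_zero_iff]
    have := norm_add_le (z - z₁) z₁
    rw [sub_add_cancel] at this
    linarith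
  have hH := Pool.Agent.H62.Log.hurwitz 𝒰 (φ := fun n z => Fo θ (hh n z) (φ n z)) (ψ := fun z => Fo θ w₀ (ψ z)) (a := z₁) (r := r)
    (by
      filter_upwards [hφ, hbig] with n hn hb
      have h9 : DifferentiableOn ℂ (fun z => (hh n z, φ n z)) (ball z₁ r) := ((hcp n).h_diff.mono hb).prodMk hn.1
      exact Differentiable.comp_differentiableOn (g := fun p : Vd (k + 1) × EN 1 => Fo θ p.1 p.2) (f := fun z => (hh n z, φ n z)) (fo_diff P.an) h9)
    (by
      filter_upwards [hφ, hbig] with n hn hb z hz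
      obtain ⟨c, hc, he⟩ := hn.2 z hz
      simp only [he]
      rw [fo_smul]
      exact mul_ne_zero (pow_ne_zero _ hc) ((hcp n).ne z (hb hz)))
    (Differentiable.comp_differentiableOn (g := fun x : EN 1 => Fo θ w₀ x) (f := ψ) hF0 hψ)
    (by
      intro z z₀ hz₀ hz
      have h1 := hlim z z₀ hz
      have h2 : Tendsto (fun n => φ n (z n)) 𝒰 (𝓝 (ψ z₀)) := by
        refine hconv.tendsto_comp (hψ.continuousOn.continuousWithinAt hz₀) hz₀ ?_
        rw [tendsto_nhdsWithin_iff]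
        exact ⟨hz, hz.eventually (isOpen_ball.mem_nhds hz₀)⟩
      exact Tendsto.comp (g := fun p : Vd (k + 1) × EN 1 => Fo θ p.1 p.2) (f := fun n => (hh n (z n), φ n (z n))) (hcont.tendsto (w₀, ψ z₀)) (h1.prodMk_nhds h2))
  have hz₁b : z₁ ∈ ball z₁ r := mem_ball_self hr
  have hloc0 : ∀ z ∈ ball z₁ r, Fo θ w₀ (G z) = 0 := by
    rcases hH with h | h
    · intro z hz
      obtain ⟨c, hc, he⟩ := hψG z hz
      have h1 := h z hz
      simp only [he] at h1
      rw [fo_smul] at h1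
      exact (mul_eq_zero.mp h1).resolve_left (pow_ne_zero _ hc)
    · exfalso
      obtain ⟨c, hc, he⟩ := hψG z₁ hz₁b
      apply h z₁ hz₁b
      simp only [he]
      rw [fo_smul, hz₁, mul_zero]
  have hf : Differentiable ℂ fun z => Fo θ w₀ (G z) := Differentiable.comp (g := fun x : EN 1 => Fo θ w₀ x) (f := G) hF0 hG
  have han : AnalyticOnNhd ℂ (fun z => Fo θ w₀ (G z)) Set.univ := fun z _ => hf.analyticAt z
  have h2 := han.eqOn_zero_of_preconnected_of_eventuallyEq_zero isPreconnected_univ (Set.mem_univ z₁)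
    (Filter.mem_of_superset (isOpen_ball.mem_nhds hz₁b) fun z hz => hloc0 z hz)
  intro z
  exact h2 (Set.mem_univ z)

end Pool.Agent.PY

end
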