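import Pool.Agent.H94.PX2.M26
import Pool.Agent.H94.PX2.M38
import Pool.Agent.H94.PX2.M45

/-! The parts of this file: H13.CV.Step, H56.PR.Loc_1, H56.PR.Hit. -/

section

/-!
# CV Step: one more condition at a place lowers the dimension by at most one

`finrank_le_step`: let `oz E t = 1` (`exists_uni`).  The map `W → ℂ`, `f ↦ res E (f * t ^ (-d))` is linear (`res_add`, `res_smul`: `0 ≤ ord (f * t ^ (-d))` for `f ∈ W`), and its kernel is
`W ⊓ ordGe E (d + 1)` (`res_eq_zero_iff`).  Rank-nullity: `LinearMap.finrank_range_add_finrank_ker`, and the range has dimension `≤ 1`.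
`finrank_le_steps`: induction on `T`, and on `e E` for the new place.
-/

set_option autoImplicit false

open Pool.Agent.H23.Fano (PrimeDivisorOver Form regularForms)

noncomputable section

namespace Pool.Agent.H13.CV

variable {K : Type} [Field K] [Algebra ℂ K]

theorem mem_ordGe {E : Place K} {d : ℤ} {f : K} : f ∈ ordGe E d ↔ (d : WithTop ℤ) ≤ E.ord f := Iff.rfl

theorem mem_LD {D : Place K → ℤ} {f : K} : f ∈ LD D ↔ ∀ E, ((-D E : ℤ) : WithTop ℤ) ≤ E.ord f := by
  rw [LD, Submodule.mem_iInf]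
  exact Iff.rfl

theorem ordGe_anti (E : Place K) {d d' : ℤ} (h : d ≤ d') : ordGe E d' ≤ ordGe E d := by
  intro f hf
  rw [mem_ordGe] at hf ⊢
  exact le_trans (WithTop.coe_le_coe.mpr h) hf

/-- the twisted function is regular -/
private theorem Step_nonneg {E : Place K} {u f : K} {d : ℤ} (hu : u ≠ 0) (hou : oz E u = -d) (hf : f ∈ ordGe E d) :
    0 ≤ E.ord (f * u) := by
  rw [nonneg_iff]
  rw [mem_ordGe, le_ord_iff] at hf
  by_cases h0 : f = 0
  · left
    rw [h0, zero_mul]
  · right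
    rw [oz_mul E h0 hu, hou]
    rcases hf with h | h
    · exact absurd h h0
    · omega

/-- the twisted function vanishes at the place iff the order is one larger -/
private theorem Step_pos {E : Place K} {u f : K} {d : ℤ} (hu : u ≠ 0) (hou : oz E u = -d) (h : 0 < E.ord (f * u)) :
    f ∈ ordGe E (d + 1) := by
  rw [mem_ordGe, le_ord_iff]
  by_cases h0 : f = 0
  · left
    exact h0
  · right
    rw [pos_iff, oz_mul E h0 hu, hou] at h
    rcases h with h | h
    · exact absurd h (mul_ne_zero h0 hu)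
    · omega

/-- the linear map: the leading coefficient -/
private def Step_map (hK : CurveField K) (W : Submodule ℂ K) (E : Place K) (d : ℤ) (hW : W ≤ ordGe E d) (u : K)
    (hu : u ≠ 0) (hou : oz E u = -d) : W →ₗ[ℂ] ℂ where
  toFun f := res E ((f : K) * u)
  map_add' f g := by
    show res E (((f + g : W) : K) * u) = _
    rw [Submodule.coe_add, add_mul]
    exact res_add hK (Step_nonneg hu hou (hW f.2)) (Step_nonneg hu hou (hW g.2))
  map_smul' c f := by
    show res E (((c • f : W) : K) * u) = _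
    rw [Submodule.coe_smul, smul_mul_assoc]
    exact res_smul hK c (Step_nonneg hu hou (hW f.2))

theorem finrank_le_step (hK : CurveField K) (W : Submodule ℂ K) [FiniteDimensional ℂ W] (E : Place K) (d : ℤ) (hW : W ≤ ordGe E d) :
    Module.finrank ℂ W ≤ Module.finrank ℂ (W ⊓ ordGe E (d + 1) : Submodule ℂ K) + 1 := by
  obtain ⟨t, ht, hot⟩ := exists_uni E
  have hu : t ^ (-d) ≠ 0 := zpow_ne_zero _ ht
  have hou : oz E (t ^ (-d)) = -d := by
    rw [oz_zpow, hot, mul_one]
  have hrk := LinearMap.finrank_range_add_finrank_ker (Step_map hK W E d hW (t ^ (-d)) hu hou)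
  have hr : Module.finrank ℂ (LinearMap.range (Step_map hK W E d hW (t ^ (-d)) hu hou)) ≤ 1 := by
    have h := Submodule.finrank_le (LinearMap.range (Step_map hK W E d hW (t ^ (-d)) hu hou))
    rwa [Module.finrank_self] at h
  have hk : Module.finrank ℂ (LinearMap.ker (Step_map hK W E d hW (t ^ (-d)) hu hou)) ≤
      Module.finrank ℂ (W ⊓ ordGe E (d + 1) : Submodule ℂ K) := by
    rw [← Submodule.finrank_map_subtype_eq W (LinearMap.ker (Step_map hK W E d hW (t ^ (-d)) hu hou))]
    refine Submodule.finrank_mono ?_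
    rintro f hf
    obtain ⟨g, hg, rfl⟩ := Submodule.mem_map.mp hf
    refine Submodule.mem_inf.mpr ⟨g.2, ?_⟩
    have h1 : res E ((g : K) * t ^ (-d)) = 0 := hg
    have h2 := (res_eq_zero_iff hK (Step_nonneg hu hou (hW g.2))).mp h1
    exact Step_pos hu hou h2
  omega

private theorem Step_iter (hK : CurveField K) (W : Submodule ℂ K) [FiniteDimensional ℂ W] (E : Place K) (d : ℤ)
    (hW : W ≤ ordGe E d) (k : ℕ) :
    Module.finrank ℂ W ≤ Module.finrank ℂ (W ⊓ ordGe E (d + k) : Submodule ℂ K) + k := by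
  induction k with
  | zero =>
    have h : W ⊓ ordGe E (d + (0 : ℕ)) = W := by
      rw [Nat.cast_zero, add_zero]
      exact inf_eq_left.mpr hW
    rw [h, add_zero]
  | succ k ih =>
    have h1 := finrank_le_step hK (W ⊓ ordGe E (d + k)) E (d + k) inf_le_right
    have h2 : (W ⊓ ordGe E (d + k)) ⊓ ordGe E (d + k + 1) = W ⊓ ordGe E (d + ((k + 1 : ℕ) : ℤ)) := by
      have h3 : d + (k : ℤ) + 1 = d + ((k + 1 : ℕ) : ℤ) := by
        push_cast
        ring
      rw [inf_assoc, inf_eq_right.mpr (ordGe_anti E (by omega : d + (k : ℤ) ≤ d + (k : ℤ) + 1)), h3]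
    rw [h2] at h1
    omega

theorem finrank_le_steps (hK : CurveField K) (W : Submodule ℂ K) [FiniteDimensional ℂ W] (T : Finset (Place K)) (d : Place K → ℤ) (e : Place K → ℕ)
    (hW : ∀ E ∈ T, W ≤ ordGe E (d E)) :
    Module.finrank ℂ W ≤ Module.finrank ℂ (W ⊓ ⨅ E ∈ T, ordGe E (d E + e E) : Submodule ℂ K) + ∑ E ∈ T, e E := by
  classical
  induction T using Finset.induction_on with
  | empty =>
    have h : W ⊓ ⨅ E ∈ (∅ : Finset (Place K)), ordGe E (d E + e E) = W :=
      inf_eq_left.mpr (le_iInf fun E => le_iInf fun hE => absurd hE (Finset.notMem_empty E))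
    rw [h]
    exact Nat.le_add_right _ _
  | insert E T hE ih =>
    have ih' := ih fun E' hE' => hW E' (Finset.mem_insert_of_mem hE')
    have hle : W ⊓ ⨅ E' ∈ T, ordGe E' (d E' + e E') ≤ ordGe E (d E) :=
      le_trans inf_le_left (hW E (Finset.mem_insert_self E T))
    have h1 := Step_iter hK (W ⊓ ⨅ E' ∈ T, ordGe E' (d E' + e E')) E (d E) hle (e E)
    have h2 : (W ⊓ ⨅ E' ∈ T, ordGe E' (d E' + e E')) ⊓ ordGe E (d E + e E) =
        W ⊓ ⨅ E' ∈ insert E T, ordGe E' (d E' + e E') := by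
      rw [Finset.iInf_insert, inf_assoc, inf_comm (ordGe E (d E + e E))]
    rw [h2] at h1
    rw [Finset.sum_insert hE]
    omega

end Pool.Agent.H13.CV

end
end

section

/-!
Local form of the extension of roots: everything is only given on a disc.
-/

namespace Pool.Agent.H56.PR

open Topology Filter Set Polynomial Metric

noncomputable section

variable {P : ℂ → ℂ[X]} {d : ℕ} {ρ : ℝ}

/-- the extension of a single valued root over the only bad point `a` of a disc -/
theorem LFam.root_ext (h : LFam P d ρ) {a : ℂ} {r : ℝ} (hr : 0 < r) (ha : ‖a‖ < r)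
    (har : r + 2 * ‖a‖ < ρ) (hsep : ∀ z ∈ ball (0 : ℂ) ρ, z ≠ a → (P z).Separable)
    {e : ℂ → ℂ} (he : ContinuousOn e (sphere 0 r))
    (h0 : ∀ z ∈ sphere (0 : ℂ) r, (P z).eval (e z) = 0) :
    ∃ E : ℂ → ℂ, AnalyticOnNhd ℂ E (closedBall 0 r) ∧ (∀ z ∈ sphere (0 : ℂ) r, E z = e z) ∧
      ∀ z ∈ closedBall (0 : ℂ) r, (P z).eval (E z) = 0 := by
  -- translate and retract
  obtain ⟨s, hs1, hs2⟩ := exists_between (show r + ‖a‖ < ρ - ‖a‖ by linarith)
  have hs0 : 0 < s := by have := norm_nonneg a; linarith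
  have hmem : ∀ z, ‖retr s z + a‖ < ρ := fun z => by
    have := norm_add_le (retr s z) a
    have := retr_norm hs0 z
    linarith
  set Q : ℂ → ℂ[X] := fun z => P (retr s z + a) with hQ
  have hfam : Fam Q d (ball 0 s \ {0}) := by
    refine ⟨h.pos, fun z => h.monic _ (mem_ball_zero_iff.2 (hmem z)),
      fun z => h.deg _ (mem_ball_zero_iff.2 (hmem z)), fun i => ?_,
      isOpen_ball.sdiff isClosed_singleton, fun i => ?_, fun z hz => ?_⟩
    · have h1 : ContinuousOn (fun z => (P z).coeff i) (ball 0 ρ) := (h.diff i).continuousOn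
      exact h1.comp_continuous (retr_cont.add continuous_const)
        fun z => mem_ball_zero_iff.2 (hmem z)
    · have ho : IsOpen (ball (0 : ℂ) s \ {0}) := isOpen_ball.sdiff isClosed_singleton
      refine DifferentiableOn.analyticOnNhd ?_ ho
      have h2 : DifferentiableOn ℂ (fun z => (P (z + a)).coeff i) (ball 0 s \ {0}) := by
        refine (h.diff i).comp (f := fun z => z + a) (by fun_prop) ?_
        intro z hz
        have h3 := retr_eq hs0 (mem_ball_zero_iff.1 hz.1).le
        have h4 := hmem z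
        rw [h3] at h4
        exact mem_ball_zero_iff.2 h4
      refine h2.congr fun z hz => ?_
      simp only [hQ]
      rw [retr_eq hs0 (mem_ball_zero_iff.1 hz.1).le]
    · have h3 := retr_eq hs0 (mem_ball_zero_iff.1 hz.1).le
      have h4 := hmem z
      simp only [hQ]
      rw [h3] at h4 ⊢
      refine hsep _ (mem_ball_zero_iff.2 h4) fun h5 => hz.2 ?_
      simpa using h5
  have hsph : ∀ z ∈ sphere (-a) r, z + a ∈ sphere (0 : ℂ) r := by
    intro z hz
    rw [mem_sphere_iff_norm] at hz ⊢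
    simpa using hz
  have hrs : ∀ z, ‖z‖ ≤ s → Q z = P (z + a) := fun z hz => by
    simp only [hQ]; rw [retr_eq hs0 hz]
  have hsn : ∀ z ∈ sphere (-a) r, ‖z‖ ≤ s := by
    intro z hz
    have h1 := hsph z hz
    rw [mem_sphere_zero_iff_norm] at h1
    have h2 := norm_sub_le (z + a) a
    rw [add_sub_cancel_right] at h2
    linarith
  obtain ⟨E, hE1, hE2, hE3⟩ := hfam.root_ext (ρ := s) (le_refl _) (c := -a) (r := r)
    (by rwa [norm_neg]) (by rw [norm_neg]; linarith) (e := fun z => e (z + a))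
    (he.comp (by fun_prop) hsph)
    (fun z hz => by rw [hrs z (hsn z hz)]; exact h0 _ (hsph z hz))
  have hcb : ∀ z ∈ closedBall (0 : ℂ) r, z - a ∈ ball (0 : ℂ) s := by
    intro z hz
    rw [mem_closedBall_zero_iff] at hz
    rw [mem_ball_zero_iff]
    have := norm_sub_le z a
    linarith
  refine ⟨fun z => E (z - a), ?_, ?_, ?_⟩
  · intro z hz
    have h1 : AnalyticAt ℂ E (z - a) := hE1.analyticAt (isOpen_ball.mem_nhds (hcb z hz))
    exact AnalyticAt.fun_comp (g := E) (f := fun z => z - a) h1 (by fun_prop)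
  · intro z hz
    have h1 := hE2 (z - a) (by
      rw [mem_sphere_iff_norm]; simpa using hz)
    simpa using h1
  · intro z hz
    have h1 := hE3 (z - a) (hcb z hz)
    rw [hrs _ (mem_ball_zero_iff.1 (hcb z hz)).le] at h1
    simpa using h1

end

end Pool.Agent.H56.PR

end

section

/-!
Sequence form: a limit root of zero free sections is simple at a good hit.
-/

namespace Pool.Agent.H56.PR

open Topology Filter Set Polynomial Metric

noncomputable section

variable {ι : Type*} {l : Filter ι} {P : ι → ℂ → ℂ[X]} {P' : ℂ → ℂ[X]} {d : ℕ} {ρ r : ℝ}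

theorem conv_eval (hrρ : r < ρ) (hP : ∀ᶠ n in l, LFam (P n) d ρ) (hP' : LFam P' d ρ)
    (hconv : ∀ i, TendstoUniformlyOn (fun n z => (P n z).coeff i) (fun z => (P' z).coeff i) l
      (closedBall 0 r)) {R η : ℝ} (hR : 0 ≤ R) (hη : 0 < η) :
    ∀ᶠ n in l, ∀ z ∈ closedBall (0 : ℂ) r, ∀ w : ℂ, ‖w‖ ≤ R →
      ‖(P n z).eval w - (P' z).eval w‖ ≤ η ∧
      ‖(P n z).derivative.eval w - (P' z).derivative.eval w‖ ≤ η := by
  have hsub : closedBall (0 : ℂ) r ⊆ ball 0 ρ := closedBall_subset_ball hrρ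
  set C : ℝ := ∑ i ∈ Finset.range (d + 1), (R ^ i + (i + 1) * R ^ i) with hC
  have hC0 : 0 ≤ C := Finset.sum_nonneg fun i _ => by positivity
  have hε : 0 < η / (C + 1) := by positivity
  have h1 : ∀ᶠ n in l, ∀ i ∈ Finset.range (d + 2), ∀ z ∈ closedBall (0 : ℂ) r,
      ‖(P n z).coeff i - (P' z).coeff i‖ ≤ η / (C + 1) := by
    rw [Filter.eventually_all_finset]
    intro i _
    filter_upwards [(Metric.tendstoUniformlyOn_iff.1 (hconv i)) _ hε] with n hn z hz
    have := hn z hz
    rw [dist_comm, dist_eq_norm] at this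
    exact this.le
  filter_upwards [h1, hP] with n hn hPn z hz w hw
  have hzρ := hsub hz
  have hCη : C * (η / (C + 1)) ≤ η := by
    rw [mul_div_assoc', div_le_iff₀ (by positivity)]
    nlinarith
  constructor
  · rw [hPn.eval_eq hzρ, hP'.eval_eq hzρ, ← Finset.sum_sub_distrib]
    refine (norm_sum_le _ _).trans (le_trans ?_ hCη)
    rw [hC, Finset.sum_mul]
    refine Finset.sum_le_sum fun i hi => ?_
    have h2 := hn i (Finset.mem_range.2 (by have := Finset.mem_range.1 hi; omega)) z hz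
    rw [← sub_mul, norm_mul, norm_pow]
    have h3 : ‖w‖ ^ i ≤ R ^ i := pow_le_pow_left₀ (norm_nonneg _) hw i
    have h4 : 0 ≤ (i + 1) * R ^ i := by positivity
    calc _ ≤ η / (C + 1) * R ^ i := mul_le_mul h2 h3 (by positivity) hε.le
      _ ≤ (R ^ i + (i + 1) * R ^ i) * (η / (C + 1)) := by nlinarith
  · rw [hPn.deriv_eval_eq hzρ, hP'.deriv_eval_eq hzρ, ← Finset.sum_sub_distrib]
    refine (norm_sum_le _ _).trans (le_trans ?_ hCη)
    rw [hC, Finset.sum_mul, Finset.sum_range_succ]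
    refine le_add_of_le_of_nonneg ?_ (by positivity)
    refine Finset.sum_le_sum fun i hi => ?_
    have h2 := hn (i + 1) (Finset.mem_range.2 (by have := Finset.mem_range.1 hi; omega)) z hz
    have h5 : (P n z).coeff (i + 1) * (i + 1) * w ^ i - (P' z).coeff (i + 1) * (i + 1) * w ^ i
        = ((P n z).coeff (i + 1) - (P' z).coeff (i + 1)) * ((i + 1) * w ^ i) := by ring
    have h6 : ‖((i : ℂ) + 1) * w ^ i‖ ≤ (i + 1) * R ^ i := by
      rw [norm_mul, norm_pow]
      have h7 : ‖(i : ℂ) + 1‖ = i + 1 := by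
        rw [← Nat.cast_succ, Complex.norm_natCast]; push_cast; ring
      rw [h7]
      exact mul_le_mul_of_nonneg_left (pow_le_pow_left₀ (norm_nonneg _) hw i) (by positivity)
    rw [h5, norm_mul]
    have h4 : 0 ≤ R ^ i := by positivity
    calc _ ≤ η / (C + 1) * ((i + 1) * R ^ i) := mul_le_mul h2 h6 (norm_nonneg _) hε.le
      _ ≤ (R ^ i + (i + 1) * R ^ i) * (η / (C + 1)) := by nlinarith

/-- **A limit root is simple at a good hit.** `P n`: the form over the `n`-th curve, with one bad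
point `a n → 0`; `(A n : B n)` never is a root of it and tends to the root `g` of the limit on
the circle. Then `g` is a simple root on the whole disc. -/
theorem simple_hit [l.NeBot] (hr : 0 < r) (hrρ : r < ρ)
    (hP : ∀ᶠ n in l, LFam (P n) d ρ) (hP' : LFam P' d ρ)
    {a : ι → ℂ} (hsmall : ∀ᶠ n in l, r + 2 * ‖a n‖ < ρ ∧ ‖a n‖ < r)
    (hsep : ∀ᶠ n in l, ∀ z ∈ ball (0 : ℂ) ρ, z ≠ a n → (P n z).Separable)
    (hsep' : ∀ z ∈ sphere (0 : ℂ) r, (P' z).Separable)
    (hconv : ∀ i, TendstoUniformlyOn (fun n z => (P n z).coeff i) (fun z => (P' z).coeff i) l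
      (closedBall 0 r))
    {A B : ι → ℂ → ℂ} (hA : ∀ᶠ n in l, DifferentiableOn ℂ (A n) (ball 0 ρ))
    (hB : ∀ᶠ n in l, DifferentiableOn ℂ (B n) (ball 0 ρ))
    (hF : ∀ᶠ n in l, ∀ z ∈ ball (0 : ℂ) ρ, hom d (P n z) (A n z) (B n z) ≠ 0)
    {g : ℂ → ℂ} (hg : AnalyticOnNhd ℂ g (closedBall 0 r))
    (hg0 : ∀ z ∈ closedBall (0 : ℂ) r, (P' z).eval (g z) = 0)
    (hAB : ∀ ε > 0, ∀ᶠ n in l, ∀ z ∈ sphere (0 : ℂ) r,
      B n z ≠ 0 ∧ ‖A n z / B n z - g z‖ ≤ ε) :
    ∀ z ∈ closedBall (0 : ℂ) r, (P' z).derivative.eval (g z) ≠ 0 := by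
  have hsub : closedBall (0 : ℂ) r ⊆ ball 0 ρ := closedBall_subset_ball hrρ
  have hsc : sphere (0 : ℂ) r ⊆ closedBall 0 r := sphere_subset_closedBall
  have hgc : ContinuousOn g (closedBall 0 r) := hg.continuousOn
  set κ : ℂ → ℂ := fun z => (P' z).derivative.eval (g z) with hκ
  have hκc : ContinuousOn κ (closedBall 0 r) :=
    hP'.cont_deriv.comp (f := fun z => (z, g z)) (continuousOn_id.prodMk hgc)
      fun z hz => ⟨hsub hz, mem_univ _⟩
  -- a lower bound on the circle
  have hκ0 : ∀ z ∈ sphere (0 : ℂ) r, κ z ≠ 0 := by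
    intro z hz h1
    obtain ⟨u, v, huv⟩ := hsep' z hz
    have h2 := congrArg (eval (g z)) huv
    simp only [eval_add, eval_mul, eval_one, hg0 z (hsc hz), mul_zero, zero_add] at h2
    simp only [hκ] at h1
    rw [h1, mul_zero] at h2
    exact zero_ne_one h2
  obtain ⟨m, hm, hκm⟩ : ∃ m > 0, ∀ z ∈ sphere (0 : ℂ) r, m ≤ ‖κ z‖ := by
    obtain ⟨z₀, hz₀, hmin⟩ := (isCompact_sphere (0 : ℂ) r).exists_isMinOn
      (NormedSpace.sphere_nonempty.2 hr.le) ((hκc.mono hsc).norm)
    exact ⟨‖κ z₀‖, norm_pos_iff.2 (hκ0 z₀ hz₀), fun z hz => hmin hz⟩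
  -- bound for g
  obtain ⟨Mg, hMg⟩ := (isCompact_closedBall (0 : ℂ) r).exists_bound_of_continuousOn hgc
  set R : ℝ := |Mg| + 1 with hRdef
  have hR0 : 0 ≤ R := by positivity
  have hgR : ∀ z ∈ closedBall (0 : ℂ) r, ‖g z‖ ≤ |Mg| := fun z hz =>
    (hMg z hz).trans (le_abs_self _)
  -- uniform continuity
  obtain ⟨δ, hδ, hδ1, hδu⟩ : ∃ δ > 0, δ ≤ 1 ∧ ∀ z ∈ closedBall (0 : ℂ) r,
      ∀ w ∈ closedBall (g z) δ, ‖(P' z).derivative.eval w - κ z‖ ≤ m / 16 := by
    have hK : IsCompact (closedBall (0 : ℂ) r ×ˢ closedBall (0 : ℂ) R) :=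
      (isCompact_closedBall _ _).prod (isCompact_closedBall _ _)
    have hu := hK.uniformContinuousOn_of_continuous
      (hP'.cont_deriv.mono (prod_mono hsub (subset_univ _)))
    rw [Metric.uniformContinuousOn_iff_le] at hu
    obtain ⟨δ, hδ, hu⟩ := hu (m / 16) (by positivity)
    refine ⟨min δ 1, lt_min hδ one_pos, min_le_right _ _, fun z hz w hw => ?_⟩
    rw [mem_closedBall_iff_norm] at hw
    have h1 := hgR z hz
    have h2 : ‖w‖ ≤ ‖g z‖ + ‖w - g z‖ := by
      have := norm_add_le (g z) (w - g z)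
      rwa [add_sub_cancel] at this
    have h3 := hu (z, w) ⟨hz, mem_closedBall_zero_iff.2
      (by have := hw.trans (min_le_right _ _); linarith)⟩ (z, g z) ⟨hz, mem_closedBall_zero_iff.2
      (by linarith)⟩ (by
        rw [Prod.dist_eq, dist_self, dist_eq_norm]
        exact max_le hδ.le (hw.trans (min_le_left _ _)))
    rw [dist_eq_norm] at h3
    exact h3
  -- choose n
  have hεd : 0 < min (m / 16) (δ ^ d / 2) := by positivity
  obtain ⟨n, hPn, hsepn, hce, hAn, hBn, hFn, hABn, hsm⟩ := (hP.and (hsep.and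
    ((conv_eval hrρ hP hP' hconv hR0 hεd).and (hA.and (hB.and (hF.and
      ((hAB δ hδ).and hsmall))))))).exists
  have hder : ∀ z ∈ closedBall (0 : ℂ) r, ∀ w ∈ closedBall (g z) δ,
      ‖(P n z).derivative.eval w - κ z‖ ≤ m / 8 := by
    intro z hz w hw
    have h1 := hδu z hz w hw
    rw [mem_closedBall_iff_norm] at hw
    have h0 := hgR z hz
    have h2 : ‖w‖ ≤ ‖g z‖ + ‖w - g z‖ := by
      have := norm_add_le (g z) (w - g z)
      rwa [add_sub_cancel] at this
    have h3 := (hce z hz w (by linarith)).2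
    have h4 := norm_sub_le_norm_sub_add_norm_sub ((P n z).derivative.eval w)
      ((P' z).derivative.eval w) (κ z)
    have h5 := h3.trans (min_le_left _ _)
    linarith
  obtain ⟨e, he1, he2, he3⟩ := exists_near (K := sphere (0 : ℂ) r) (P := P n) (d := d) (g := g)
    (κ := κ) (δ := δ) (η := m / 8) (fun z hz => hPn.monic z (hsub (hsc hz)))
    (fun z hz => hPn.deg z (hsub (hsc hz)))
    (hPn.cont_eval.mono (prod_mono (hsc.trans hsub) (subset_univ _))) (hgc.mono hsc)
    (fun z hz => by have := hκm z hz; linarith) (fun z hz => hder z (hsc hz)) hδ le_rfl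
    (fun z hz => by
      have h1 := (hce z (hsc hz) (g z) (by have := hgR z (hsc hz); linarith)).1
      rw [hg0 z (hsc hz), sub_zero] at h1
      have h2 : 0 < δ ^ d := by positivity
      have h3 := h1.trans (min_le_right _ _)
      linarith)
  obtain ⟨E, hE1, hE2, hE3⟩ := hPn.root_ext hr hsm.2 hsm.1 hsepn he1 he2
  have hfr : frontier (ball (0 : ℂ) r) = sphere 0 r := frontier_ball _ hr.ne'
  have hcl : closure (ball (0 : ℂ) r) = closedBall 0 r := closure_ball _ hr.ne'
  have hEg : ∀ z ∈ closedBall (0 : ℂ) r, ‖E z - g z‖ ≤ δ := by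
    intro z hz
    refine Complex.norm_le_of_forall_mem_frontier_norm_le isBounded_ball
      (f := fun z => E z - g z) (DifferentiableOn.diffContOnCl ?_) (C := δ) ?_
      (by rw [hcl]; exact hz)
    · rw [hcl]; exact hE1.differentiableOn.sub hg.differentiableOn
    · intro z hz
      rw [hfr] at hz
      rw [hE2 z hz]
      exact (he3 z hz).le
  have hfin := hPn.lower hr hrρ hm hE1 hE3 hEg hκm hder hAn hBn hFn hABn
  intro z hz h0
  have h1 := hfin z hz
  simp only [hκ] at h1
  rw [h0, norm_zero] at h1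
  linarith

end

end Pool.Agent.H56.PR

end
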