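import Pool.Agent.H94.PX2.M44
import Pool.Agent.H94.PX2.M67
import Pool.Agent.H94.PX2.M70

/-! The parts of this file: H13.CV.CaseA, PX.Fib_2. -/

section

/-!
# CV CaseA: functions with a simple pole

`top_of_dv_one`: `f` has a pole (`const_of_no_pole`), so `oz E f = - 1` and there are no other poles: `adjoin_eq_top_of_simple_pole`.
`exists_not_const`: the constants form a subspace of dimension `1`, it does not contain `W`.
-/

set_option autoImplicit false

open Pool.Agent.H23.Fano (PrimeDivisorOver Form regularForms)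

noncomputable section

namespace Pool.Agent.H13.CV

variable {K : Type} [Field K] [Algebra ℂ K]

/-- a non-constant function with at most a simple pole at `E` generates the field -/
theorem top_of_dv_one (hK : CurveField K) {E : Place K} {f : K} (hf : f ∈ LD (dv E 1)) (hc : ∀ c : ℂ, f ≠ algebraMap ℂ K c) :
    IntermediateField.adjoin ℂ {f} = ⊤ := by
  have hf' : ∀ E' : Place K, ((-(dv E 1 E') : ℤ) : WithTop ℤ) ≤ E'.ord f := by
    intro E'
    have h1 := (Submodule.mem_iInf _).mp hf E'
    exact h1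
  have hoth : ∀ E' : Place K, E' ≠ E → 0 ≤ E'.ord f := by
    intro E' hE'
    have h1 := hf' E'
    unfold dv at h1
    rw [if_neg hE', neg_zero] at h1
    exact h1
  have hE1 : ((-1 : ℤ) : WithTop ℤ) ≤ E.ord f := by
    have h1 := hf' E
    unfold dv at h1
    rw [if_pos rfl] at h1
    exact h1
  have hneg : E.ord f < 0 := by
    by_contra h
    rw [not_lt] at h
    obtain ⟨c, hc'⟩ := const_of_no_pole hK (f := f) (fun E' => by
      by_cases hE' : E' = E
      · rw [hE']
        exact h
      · exact hoth E' hE')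
    exact hc c hc'
  refine adjoin_eq_top_of_simple_pole hK (E := E) ?_ hoth
  unfold oz
  have hne : E.ord f ≠ ⊤ := by
    intro h
    rw [h] at hneg
    exact absurd hneg (not_lt.mpr le_top)
  obtain ⟨a, ha⟩ := WithTop.ne_top_iff_exists.mp hne
  rw [← ha] at hneg hE1 ⊢
  have h1 : a < 0 := by exact_mod_cast hneg
  have h2 : -1 ≤ a := by exact_mod_cast hE1
  have h3 : a = -1 := by omega
  rw [h3]
  rfl

theorem exists_not_const {W : Submodule ℂ K} [FiniteDimensional ℂ W] (h : 2 ≤ Module.finrank ℂ W) : ∃ f ∈ W, ∀ c : ℂ, f ≠ algebraMap ℂ K c := by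
  by_contra hcon
  push Not at hcon
  have hle : W ≤ Submodule.span ℂ {(1 : K)} := by
    intro f hf
    obtain ⟨c, hc⟩ := hcon f hf
    rw [Submodule.mem_span_singleton]
    exact ⟨c, by rw [hc, Algebra.smul_def, mul_one]⟩
  have h1 := Submodule.finrank_mono hle
  have h2 : Module.finrank ℂ (Submodule.span ℂ {(1 : K)}) ≤ 1 := by
    have := finrank_span_le_card (R := ℂ) ({(1 : K)} : Set K)
    simpa using this
  omega

end Pool.Agent.H13.CV

end
end

section

/-!
# PX Fib: the fibres outside `D`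

`roots3`: the form `Fo θ y` is not `0` (otherwise every `x` is a root and all derivatives vanish, against `simple`) and has only simple roots, so it has `d ≥ 3` roots in `ℙ¹`: the polynomial `p t = Fo θ y (t, 1)` (`x 0 = t`, `x 1 = 1`) has
degree `≥ d - 1` (degree `d - 1` exactly if `(1, 0)` is a root: the coefficient of `x_0^d` is `0`, that of `x_0^(d-1) x_1` is not), simple roots (`Polynomial.card_roots`, separable).
`cross`: with three roots `x₁, x₂, x₃` the function `dt x₁ (G z) * dt x₂ x₃ / (dt x₃ (G z) * dt x₂ x₁)` omits `0` and `1` (Plücker: `dt a b * dt c e - dt a c * dt b e + dt a e * dt b c = 0`); `fib`: `little_picard`, so the function is constant and `G z` is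
proportional to `G w`.  `fibE`: differentiate `Fo θ y (G z) = 0`: `Fd θ y (G z) (G' z) = 0`, so `dt (G z) (G' z) = 0`, so `G' z` is a multiple of `G z`, the quotient of `dt (G w) (G z)` by a coordinate
of `G z` has derivative `0` near `w`, and `dt (G w) (G z) = 0` by the identity theorem.
-/

set_option autoImplicit false

open Topology Filter Metric

namespace Pool.Agent.PX

open Pool.Agent.H36.BP (EN fs wd)
open Pool.Agent.H62.EF (MN pr)
open Pool.Agent.AD (Vd)
open Pool.Agent.TG (Lat)
open Pool.Agent.G3 (wt LLift)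
open Pool.Agent.G4 (Few)

variable {k d r : ℕ}

variable {Λ : AddSubgroup (Vd (k + 1))} {D : Set (Vd (k + 1))} {Bad : Vd (k + 1) → Set (Vd (k + 1))} {θ : Fin (d + 1) → Vd (k + 1) → ℂ}
  {W : Fin r → Vd (k + 1) →L[ℂ] ℂ}

/-! ### The polynomial -/

theorem PD.fib (P : PD Λ D Bad θ W) {y : Vd (k + 1)} (hy : y ∉ D) {G : ℂ → EN 1} (hG : Differentiable ℂ G) (hF : ∀ z, Fo θ y (G z) ≠ 0) (z w : ℂ) :
    ∃ c : ℂ, G z = c • G w := by
  have hd := P.deg
  obtain ⟨x₁, x₂, x₃, r1, r2, r3, h12, h13, h23⟩ := P.roots3 hy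
  have hr : ∀ x : EN 1, x ≠ 0 → Fo θ y x = 0 → ∀ z, dt x (G z) ≠ 0 := by
    intro x hx hx0 z h
    obtain ⟨c, hc⟩ := (dt_eq_zero hx).1 h
    apply hF z
    rw [hc, fo_smul, hx0, mul_zero]
  have n1 := hr x₁ (Fib_dt_left h12) r1
  have n2 := hr x₂ (Fib_dt_left h23) r2
  have n3 := hr x₃ (Fib_dt_right h23) r3
  have h21 : dt x₂ x₁ ≠ 0 := by
    intro h
    apply h12
    unfold dt at h ⊢
    linear_combination -h
  have hdf : Differentiable ℂ fun z => dt x₁ (G z) * dt x₂ x₃ / (dt x₃ (G z) * dt x₂ x₁) := by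
    intro z
    have a1 : DifferentiableAt ℂ (fun z => dt x₁ (G z)) z := (Fib_dt_deriv hG x₁ z).differentiableAt
    have a3 : DifferentiableAt ℂ (fun z => dt x₃ (G z)) z := (Fib_dt_deriv hG x₃ z).differentiableAt
    exact (a1.mul_const _).div (a3.mul_const _) (mul_ne_zero (n3 z) h21)
  have hc := Pool.Agent.H41.LR.little_picard hdf (fun z => cross h12 h13 h23 (n1 z) (n2 z) (n3 z)) z w
  rw [div_eq_div_iff (mul_ne_zero (n3 z) h21) (mul_ne_zero (n3 w) h21)] at hc
  have hw0 : G w ≠ 0 := by
    intro h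
    apply hF w
    rw [h]
    exact Fib_zero θ (by omega) y
  have hkey : dt x₁ (G z) * dt x₃ (G w) - dt x₁ (G w) * dt x₃ (G z) = 0 := by
    have h5 : (dt x₂ x₃ * dt x₂ x₁) * (dt x₁ (G z) * dt x₃ (G w) - dt x₁ (G w) * dt x₃ (G z)) = 0 := by
      linear_combination hc
    rcases mul_eq_zero.1 h5 with h6 | h6
    · exact absurd h6 (mul_ne_zero h23 h21)
    · exact h6
  have hfin : dt x₁ x₃ * dt (G w) (G z) = 0 := by
    unfold dt at hkey ⊢
    linear_combination -hkey
  rcases mul_eq_zero.1 hfin with h6 | h6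
  · exact absurd h6 h13
  · exact (dt_eq_zero hw0).1 h6

end Pool.Agent.PX

end
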