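import Pool.Agent.H94.PX2.M56
import Pool.Agent.H94.PX2.M64
import Pool.Agent.H94.PX2.M65
import Pool.Agent.H94.PX2.M66
import Pool.Agent.H94.PX2.M71

/-! The parts of this file: PX.Lip_1, PX.Lim_1. -/

section

/-!
# PX Lip: the curves are Lipschitz over `Gd D δ`

As `TG/Zl` (`curve_bound`), with `N = 1` and the cone `{x | x ≠ 0}`: `AD.rescale_disc`, `H62.EF.limit_curves`.  The discs are shrunk to radius `min r₀ (δ / (4 (H + 1)))`, so that `h` stays in `Gd D (δ / 2)`; translate by `Λ` (`Cp.add`).  The limit `G` of the rescaled curves lies in the fibre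
over a point `y₀ ∉ D`; by Hurwitz `Fo θ y₀ (G z)` is identically `0` or has no zero (`Fo θ (h n ..) (φ n z)` has no zero, `φ n` the local lifts of `limit_curves`, converges locally uniformly to `Fo θ y₀ (ψ z)`): `fib`, `fibE`; contradiction with `fs (G 0) (G' 0) = 1`.
-/

set_option autoImplicit false

open Topology Filter Metric

namespace Pool.Agent.PX

open Pool.Agent.H36.BP (EN fs wd)
open Pool.Agent.H62.EF (MN pr)
open Pool.Agent.AD (Vd)
open Pool.Agent.TG (Lat Gd)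
open Pool.Agent.G3 (wt LLift)
open Pool.Agent.G4 (Few)

variable {k d r : ℕ}

variable {Λ : AddSubgroup (Vd (k + 1))} {D : Set (Vd (k + 1))} {Bad : Vd (k + 1) → Set (Vd (k + 1))} {θ : Fin (d + 1) → Vd (k + 1) → ℂ}
  {W : Fin r → Vd (k + 1) →L[ℂ] ℂ}

theorem PD.lip (P : PD Λ D Bad θ W) {δ H r₀ : ℝ} (hδ : 0 < δ) (hH : 0 ≤ H) (hr₀ : 0 < r₀) : ∃ L : ℝ, 0 < L ∧ ∀ (w : ℂ → EN 1) (h : ℂ → Vd (k + 1)) (z : ℂ),
    Cp θ (ball z r₀) w h → (∀ ζ ∈ ball z r₀, ‖deriv h ζ‖ ≤ H) → h z ∈ Gd D δ → fs (w z) (deriv w z) ≤ L := by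
  have hd1 : 1 ≤ d := by
    have := P.deg
    omega
  by_contra hcon
  push Not at hcon
  set s : ℝ := min r₀ (δ / (4 * (H + 1))) with hsdef
  have hH1 : 0 < H + 1 := by linarith
  have hs : 0 < s := lt_min hr₀ (by positivity)
  have hsr : s ≤ r₀ := min_le_left _ _
  have hHs : H * s ≤ δ / 4 := by
    have h1 : s ≤ δ / (4 * (H + 1)) := min_le_right _ _
    calc H * s ≤ (H + 1) * s := by nlinarith
      _ ≤ (H + 1) * (δ / (4 * (H + 1))) := mul_le_mul_of_nonneg_left h1 hH1.le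
      _ = δ / 4 := by
        field_simp
  obtain ⟨R, hR0, hR⟩ := Lip_norm (δ := δ) (H := H) P hs hsr
  have hbig : ∀ n : ℕ, ∃ (F : ℂ → EN 1) (h : ℂ → Vd (k + 1)), Cp θ (ball 0 s) F h ∧
      (∀ ζ ∈ ball (0 : ℂ) s, ∀ ζ' ∈ ball (0 : ℂ) s, ‖h ζ - h ζ'‖ ≤ H * ‖ζ - ζ'‖) ∧ h 0 ∈ Gd D δ ∧ ‖h 0‖ ≤ R ∧
      4 * ((n : ℝ) + 1) / s < fs (F 0) (deriv F 0) := by
    intro n
    obtain ⟨w, h, z, h1, h2, h3, h4⟩ := hcon (4 * ((n : ℝ) + 1) / s) (by positivity)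
    obtain ⟨w', h', h5, h6, h7, h8, h9⟩ := hR w h z h1 h2 h3
    exact ⟨w', h', h5, h6, h7, h8, by rw [h9]; exact h4⟩
  choose F h hcp hlip hGd hRn hFb using hbig
  have hF0 : ∀ n, ∀ z ∈ ball (0 : ℂ) s, F n z ≠ 0 := fun n z hz => Cp.w_ne hd1 (hcp n) hz
  have hmul : ∀ z : ℂ, z ∈ ball (0 : ℂ) 1 → (s : ℂ) * z ∈ ball (0 : ℂ) s := by
    intro z hz
    rw [mem_ball_zero_iff] at hz ⊢
    rw [norm_mul, Complex.norm_real, Real.norm_of_nonneg hs.le]
    calc s * ‖z‖ < s * 1 := mul_lt_mul_of_pos_left hz hs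
      _ = s := mul_one s
  have hresc : ∀ n : ℕ, ∃ (z₀ : ℂ) (a : ℝ), 4 * ((n : ℝ) + 1) < a ∧
      (∀ ζ ∈ ball (0 : ℂ) (n + 1), ‖z₀ + ((a⁻¹ : ℝ) : ℂ) * ζ‖ ≤ 1 / 2) ∧
      fs (F n ((s : ℂ) * z₀)) (deriv (fun ζ => F n ((s : ℂ) * (z₀ + ((a⁻¹ : ℝ) : ℂ) * ζ))) 0) = 1 ∧
      ∀ ζ ∈ ball (0 : ℂ) (n + 1), fs (F n ((s : ℂ) * (z₀ + ((a⁻¹ : ℝ) : ℂ) * ζ)))
        (deriv (fun ζ => F n ((s : ℂ) * (z₀ + ((a⁻¹ : ℝ) : ℂ) * ζ))) ζ) ≤ 2 := by
    intro n
    have hd : DifferentiableOn ℂ (fun z => F n ((s : ℂ) * z)) (ball 0 1) :=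
      (hcp n).w_diff.comp (differentiable_id.const_mul _).differentiableOn hmul
    refine Pool.Agent.AD.rescale_disc hd (fun z hz => hF0 n _ (hmul z hz)) n ?_
    have h1 : HasDerivAt (fun z : ℂ => (s : ℂ) * z) (s : ℂ) 0 := by
      simpa using (hasDerivAt_id (0 : ℂ)).const_mul (s : ℂ)
    have h2 : deriv (fun z => F n ((s : ℂ) * z)) 0 = (s : ℂ) • deriv (F n) 0 := by
      have h4 : HasDerivAt (F n) (deriv (F n) 0) ((s : ℂ) * 0) := by
        rw [mul_zero]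
        exact ((hcp n).w_diff.differentiableAt (isOpen_ball.mem_nhds (mem_ball_self hs))).hasDerivAt
      exact (h4.scomp 0 h1).deriv
    rw [h2, Pool.Agent.H36.BP.fs_smul_right, Complex.norm_real, Real.norm_of_nonneg hs.le, mul_zero]
    have h4 := hFb n
    rw [div_lt_iff₀ hs] at h4
    linarith
  choose z₀ a ha hz₀ h1 h2 using hresc
  have ha0 : ∀ n, 0 < a n := fun n => lt_trans (by positivity) (ha n)
  have hz₀n : ∀ n, ‖z₀ n‖ ≤ 1 / 2 := by
    intro n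
    have h3 := hz₀ n 0 (mem_ball_self (by positivity))
    rwa [mul_zero, add_zero] at h3
  set g : ℕ → ℂ → EN 1 := fun n ζ => F n ((s : ℂ) * (z₀ n + (((a n)⁻¹ : ℝ) : ℂ) * ζ)) with hgdef
  set hh : ℕ → ℂ → Vd (k + 1) := fun n ζ => h n ((s : ℂ) * (z₀ n + (((a n)⁻¹ : ℝ) : ℂ) * ζ)) with hhdef
  have hin : ∀ n : ℕ, ∀ ζ ∈ ball (0 : ℂ) ((n : ℝ) + 1), (s : ℂ) * (z₀ n + (((a n)⁻¹ : ℝ) : ℂ) * ζ) ∈ ball (0 : ℂ) s := by
    intro n ζ hζ
    apply hmul
    rw [mem_ball_zero_iff]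
    have h3 := hz₀ n ζ hζ
    linarith
  have hcpg : ∀ n : ℕ, Cp θ (ball 0 ((n : ℝ) + 1)) (g n) (hh n) := by
    intro n
    exact (hcp n).comp (φ := fun ζ => (s : ℂ) * (z₀ n + (((a n)⁻¹ : ℝ) : ℂ) * ζ))
      (((differentiable_id.const_mul _).const_add _).const_mul _).differentiableOn (hin n)
  have hg0 : ∀ n : ℕ, ∀ ζ ∈ ball (0 : ℂ) ((n : ℝ) + 1), g n ζ ≠ 0 := fun n ζ hζ => hF0 n _ (hin n ζ hζ)
  have hg1 : ∀ n, fs (g n 0) (deriv (g n) 0) = 1 := by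
    intro n
    have h3 := h1 n
    rw [hgdef]
    simpa only [mul_zero, add_zero] using h3
  have h0b : ∀ n : ℕ, (0 : ℂ) ∈ ball (0 : ℂ) ((n : ℝ) + 1) := fun n => mem_ball_self (by positivity)
  have hwy : ∀ n, ‖hh n 0 - h n 0‖ ≤ δ / 4 := by
    intro n
    have h3 := hlip n _ (hin n 0 (h0b n)) 0 (mem_ball_self hs)
    refine h3.trans (le_trans ?_ hHs)
    rw [mul_zero, add_zero, sub_zero, norm_mul, Complex.norm_real, Real.norm_of_nonneg hs.le]
    refine mul_le_mul_of_nonneg_left ?_ hH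
    have := hz₀n n
    nlinarith
  have hwG : ∀ n, hh n 0 ∈ Gd D (δ / 2) := by
    intro n
    have h3 := Pool.Agent.TG.gd_near (hGd n) (hwy n)
    exact Pool.Agent.TG.gd_mono (by linarith) h3
  have hwR : ∀ n, hh n 0 ∈ closedBall (0 : Vd (k + 1)) (R + δ / 4) := by
    intro n
    rw [mem_closedBall_zero_iff]
    have h3 : hh n 0 = h n 0 + (hh n 0 - h n 0) := by abel
    rw [h3]
    exact (norm_add_le _ _).trans (add_le_add (hRn n) (hwy n))
  set 𝒰 : Ultrafilter ℕ := hyperfilter ℕ with h𝒰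
  have hle : (𝒰 : Filter ℕ) ≤ atTop := Nat.hyperfilter_le_atTop
  obtain ⟨w₀, -, hw₀⟩ := (isCompact_closedBall (0 : Vd (k + 1)) (R + δ / 4)).ultrafilter_le_nhds (𝒰.map fun n => hh n 0) (by
    rw [Filter.le_principal_iff, Ultrafilter.coe_map, Filter.mem_map]
    exact Filter.univ_mem' hwR)
  have hwt : Tendsto (fun n => hh n 0) 𝒰 (𝓝 w₀) := hw₀
  have hw₀G : w₀ ∈ Gd D (δ / 2) := (Pool.Agent.TG.gd_closed D (δ / 2)).mem_of_tendsto hwt (Eventually.of_forall hwG)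
  have hw₀D : w₀ ∉ D := Pool.Agent.TG.gd_notMem (by positivity) hw₀G
  have hρ : Tendsto (fun n : ℕ => (n : ℝ) + 1) 𝒰 atTop :=
    (tendsto_atTop_add_const_right _ _ tendsto_natCast_atTop_atTop).mono_left hle
  have hainv : Tendsto (fun n => (a n)⁻¹) 𝒰 (𝓝 0) := by
    have h3 : Tendsto a 𝒰 atTop := by
      refine tendsto_atTop_mono (fun n => ?_) hρ
      have := ha n
      have h4 : (0 : ℝ) ≤ n := Nat.cast_nonneg n
      linarith
    exact tendsto_inv_atTop_zero.comp h3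
  obtain ⟨G, hG, hGX, -, hfs, hloc⟩ := Pool.Agent.H62.EF.limit_curves (Pool.Agent.TG.isCone_ne (N := 1)) (L := 2) two_pos 𝒰 g (fun n : ℕ => (n : ℝ) + 1) hρ
    (Eventually.of_forall fun n => ⟨(hcpg n).w_diff, fun z hz => ⟨hg0 n z hz, h2 n z hz⟩⟩)
  have hG0 : ∀ z, G z ≠ 0 := fun z => hGX z
  -- the limit is not constant
  have hone : fs (G 0) (deriv G 0) = 1 := by
    have h3 := hfs 0
    simp only [hg1] at h3
    exact tendsto_nhds_unique h3 tendsto_const_nhds |>.symm ▸ rfl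
  -- the base points converge
  have hlim : ∀ (z : ℕ → ℂ) (z₁ : ℂ), Tendsto z 𝒰 (𝓝 z₁) → Tendsto (fun n => hh n (z n)) 𝒰 (𝓝 w₀) := by
    intro z z₁ hz
    have h3 : Tendsto (fun n => hh n (z n) - hh n 0) 𝒰 (𝓝 0) := by
      rw [tendsto_zero_iff_norm_tendsto_zero]
      have h5 : Tendsto (fun n => H * (s * (a n)⁻¹ * ‖z n‖)) 𝒰 (𝓝 0) := by
        have h6 := (((hainv.const_mul s).mul hz.norm).const_mul H)
        rwa [mul_zero, zero_mul, mul_zero] at h6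
      refine squeeze_zero' (Eventually.of_forall fun n => norm_nonneg _) ?_ h5
      have hzn : ∀ᶠ n in (𝒰 : Filter ℕ), ‖z n‖ < ‖z₁‖ + 1 := hz.norm.eventually_lt_const (by linarith)
      filter_upwards [hzn, hρ.eventually_gt_atTop (‖z₁‖ + 1)] with n hn1 hn2
      have hb : z n ∈ ball (0 : ℂ) ((n : ℝ) + 1) := by
        rw [mem_ball_zero_iff]
        linarith
      refine (hlip n _ (hin n _ hb) _ (hin n 0 (h0b n))).trans (mul_le_mul_of_nonneg_left (le_of_eq ?_) hH)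
      have h7 : (s : ℂ) * (z₀ n + (((a n)⁻¹ : ℝ) : ℂ) * z n) - (s : ℂ) * (z₀ n + (((a n)⁻¹ : ℝ) : ℂ) * 0) = (s : ℂ) * (((a n)⁻¹ : ℝ) : ℂ) * z n := by
        ring
      rw [h7, norm_mul, norm_mul, Complex.norm_real, Complex.norm_real, Real.norm_of_nonneg hs.le, Real.norm_of_nonneg (inv_nonneg.mpr (ha0 n).le)]
    have h4 := h3.add hwt
    rw [zero_add] at h4
    refine h4.congr fun n => ?_
    abel
  have hc : ∀ z w : ℂ, ∃ c : ℂ, G z = c • G w := by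
    rcases Lip_hur P hcpg hρ hlim hG hloc with h3 | h3
    · exact fun z w => P.fibE hw₀D hG hG0 h3 z w
    · exact fun z w => P.fib hw₀D hG h3 z w
  obtain ⟨b, hb⟩ := Pool.Agent.H36.BP.Brody_deriv_line (hG 0) (fun z => hc z 0)
  have h3 : wd (G 0) (deriv G 0) = 0 := (Pool.Agent.H36.BP.wd_eq_zero (hG0 0)).mpr ⟨b, hb⟩
  unfold fs at hone
  rw [h3, zero_div] at hone
  exact zero_ne_one hone

end Pool.Agent.PX

end

section

/-!
# PX Lim: limits of curves on lines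

`exists_ls`: `G3.ult` for `U = {z | y + z • a ∉ D}` (open; complement closed discrete by `iso`), equicontinuity from `lip` (`‖deriv (h n)‖` is bounded by Cauchy: `hh`), as in `G3/P/Cls` (`closed_arcs`).
`ls_rt`: Hurwitz on the connected open set `U` (the complement of a closed countable set in `ℂ` is connected): locally `Fo θ (h n z) (φ n z)`, `φ n` lifts without zero, converges to `Fo θ (y + z a) (φ z)`.
-/

set_option autoImplicit false

open Topology Filter Metric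

namespace Pool.Agent.PX

open Pool.Agent.H36.BP (EN fs wd)
open Pool.Agent.H62.EF (MN pr)
open Pool.Agent.AD (Vd)
open Pool.Agent.TG (Lat Gd)
open Pool.Agent.G3 (wt LLift)
open Pool.Agent.G4 (Few)

variable {k d r : ℕ}

variable {Λ : AddSubgroup (Vd (k + 1))} {D : Set (Vd (k + 1))} {Bad : Vd (k + 1) → Set (Vd (k + 1))} {θ : Fin (d + 1) → Vd (k + 1) → ℂ}
  {W : Fin r → Vd (k + 1) →L[ℂ] ℂ}

theorem PD.exists_ls (P : PD Λ D Bad θ W) {y a : Vd (k + 1)} (ha : a ≠ 0) (𝒰 : Ultrafilter ℕ) {w : ℕ → ℂ → EN 1} {h : ℕ → ℂ → Vd (k + 1)}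
    (hcv : ∀ R : ℝ, ∀ᶠ n in (𝒰 : Filter ℕ), Cp θ (ball 0 R) (w n) (h n))
    (hh : ∀ R ε : ℝ, 0 < ε → ∀ᶠ n in (𝒰 : Filter ℕ), ∀ z ∈ closedBall (0 : ℂ) R, ‖h n z - (y + z • a)‖ < ε) : ∃ g : ℂ → MN 1, LS θ D y a 𝒰 w h g := by
  classical
  have hd1 : 1 ≤ d := le_trans (by norm_num) P.deg
  have hHc : Continuous fun z : ℂ => y + z • a := by fun_prop
  have hUo : IsOpen {z : ℂ | y + z • a ∉ D} := P.D_closed.isOpen_compl.preimage hHc
  -- curves on large discs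
  have hcurve : ∀ r : ℝ, ∀ᶠ n in (𝒰 : Filter ℕ), Cp θ (ball 0 (r + 1)) (w n) (h n) ∧ closedBall (0 : ℂ) r ⊆ ball 0 (r + 1) := by
    intro r
    filter_upwards [hcv (r + 1)] with n h1
    exact ⟨h1, closedBall_subset_ball (by linarith)⟩
  -- derivatives
  have hbound : ∀ r : ℝ, ∀ᶠ n in (𝒰 : Filter ℕ), ∀ z ∈ closedBall (0 : ℂ) r, ‖deriv (h n) z‖ ≤ 1 + ‖a‖ := by
    intro r
    filter_upwards [hcurve (r + 1), hh (r + 1) 1 one_pos] with n h1 h2 z hz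
    exact Lim_deriv isOpen_ball h1.2 h1.1.h_diff h2 hz
  -- points off `D`
  have hoff : ∀ z : ℂ, y + z • a ∉ D → ∃ δ s : ℝ, 0 < δ ∧ 0 < s ∧ ∀ᶠ n in (𝒰 : Filter ℕ), ∀ v ∈ ball z s, h n v ∈ Gd D δ := by
    intro z hz
    obtain ⟨δ, hδ, hδm⟩ := Lim_gd P.D_closed hz
    obtain ⟨s, hs, hsb⟩ := Metric.continuousAt_iff.mp (hHc.continuousAt (x := z)) (δ / 4) (by positivity)
    refine ⟨δ / 2, s, by positivity, hs, ?_⟩
    filter_upwards [hh (‖z‖ + s) (δ / 4) (by positivity)] with n hn v hv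
    have hv1 : dist v z < s := mem_ball.mp hv
    have hv0 : v ∈ closedBall (0 : ℂ) (‖z‖ + s) := by
      rw [mem_closedBall, dist_zero_right]
      have := norm_le_norm_add_norm_sub' v z
      rw [← dist_eq_norm] at this
      linarith
    have h1 := hn v hv0
    have h2 : ‖(y + v • a) - (y + z • a)‖ < δ / 4 := by
      rw [← dist_eq_norm]
      exact hsb hv1
    have h3 : ‖h n v - (y + z • a)‖ ≤ δ / 2 := by
      have h4 := norm_sub_le_norm_sub_add_norm_sub (h n v) (y + v • a) (y + z • a)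
      linarith
    have h5 := Pool.Agent.TG.gd_near hδm h3
    have h6 : δ - δ / 2 = δ / 2 := by ring
    rwa [h6] at h5
  -- equicontinuity
  have heq : ∀ z : ℂ, y + z • a ∉ D → ∃ L s : ℝ, 0 < L ∧ 0 < s ∧ ∀ᶠ n in (𝒰 : Filter ℕ), DifferentiableOn ℂ (w n) (ball z s) ∧
      (∀ v ∈ ball z s, w n v ≠ 0) ∧ ∀ v ∈ ball z s, dist (pr (w n v)) (pr (w n z)) ≤ L * ‖v - z‖ := by
    intro z hz
    obtain ⟨δ, s, hδ, hs, hev⟩ := hoff z hz
    obtain ⟨L, hL, hLip⟩ := P.lip (H := 1 + ‖a‖) hδ (by positivity) one_pos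
    refine ⟨2 * L, s, by positivity, hs, ?_⟩
    filter_upwards [hev, hbound (‖z‖ + s + 1), hcurve (‖z‖ + s + 1)] with n h1 h2 h3
    have hsub : ∀ v ∈ ball z s, ball v 1 ⊆ closedBall (0 : ℂ) (‖z‖ + s + 1) := by
      intro v hv x hx
      rw [mem_closedBall, dist_zero_right]
      have hv1 : dist v z < s := mem_ball.mp hv
      have hx1 : dist x v < 1 := mem_ball.mp hx
      have h4 : ‖x‖ ≤ dist x v + dist v z + ‖z‖ := by
        have h5 := dist_triangle4 x v z 0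
        rwa [dist_zero_right, dist_zero_right] at h5
      linarith
    have hballs : ball z s ⊆ ball (0 : ℂ) (‖z‖ + s + 1 + 1) := fun v hv => h3.2 (hsub v hv (mem_ball_self one_pos))
    have hne : ∀ v ∈ ball z s, w n v ≠ 0 := fun v hv => h3.1.w_ne hd1 (hballs hv)
    refine ⟨h3.1.w_diff.mono hballs, hne, fun v hv => ?_⟩
    refine Pool.Agent.H62.EF.pr_lipschitz isOpen_ball (convex_ball z s) (h3.1.w_diff.mono hballs) hne (L := L) (fun x hx => ?_) v hv z (mem_ball_self hs)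
    exact hLip (w n) (h n) x (h3.1.mono ((hsub x hx).trans h3.2)) (fun q hq => h2 q (hsub x hx hq)) (h1 x hx)
  -- the limit
  obtain ⟨g, hgl, hgc⟩ := Pool.Agent.G3.ult 𝒰 hUo w (fun z hz => by
      obtain ⟨L, s, -, hs, hev⟩ := heq z hz
      exact ⟨s, hs, hev.mono fun n hn => ⟨hn.1, hn.2.1⟩⟩) (fun z hz ε hε => by
      obtain ⟨L, s, hL, hs, hev⟩ := heq z hz
      refine ⟨min s (ε / L), lt_min hs (by positivity), hev.mono fun n hn v hv => ?_⟩
      have hv1 : dist v z < min s (ε / L) := mem_ball.mp hv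
      refine (hn.2.2 v (mem_ball.mpr (lt_of_lt_of_le hv1 (min_le_left _ _)))).trans ?_
      have hv2 : ‖v - z‖ ≤ ε / L := by
        rw [← dist_eq_norm]
        exact (lt_of_lt_of_le hv1 (min_le_right _ _)).le
      calc L * ‖v - z‖ ≤ L * (ε / L) := mul_le_mul_of_nonneg_left hv2 hL.le
        _ = ε := by field_simp)
  exact ⟨g, hcv, hh, fun z hz => hgl z hz, fun K hK hKD ε hε => hgc K (fun z hz => hKD z hz) hK ε hε⟩

end Pool.Agent.PX

end
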