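import Pool.Agent.H94.PX2.M35
import Pool.Agent.H94.PX2.M36
import Pool.Agent.H94.PX2.M52
import Pool.Agent.H94.PX2.M55
import Pool.Agent.H94.PX2.M56
import Pool.Agent.H94.PX2.PX.TTb

/-! The parts of this file: PX.Mult, PX.NoR_1. -/

section

/-!
# PX Mult: the zeros of `κ` have bounded multiplicity

For `z₀` choose `z` with `‖z - z₀‖ ≤ 1` and `y + z a ∈ Gd D δ` (`circ`).  Jensen for `K` on the disc of radius `3` around `z`: the number of zeros in the disc of radius `3 / 2` is at most `(avg log |K| - log |K z|) / log 2`; `avg log |K| ≤ log C + (d - 2) avg log ‖G‖ + avg wt` (`grad_up`),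
`log |K z| ≥ log c + (d - 2) log ‖G z‖ + wt` (`grad_lo`), `tt_root`.
-/

set_option autoImplicit false

open Topology Filter Metric

namespace Pool.Agent.PX

open Pool.Agent.H36.BP (EN fs wd)
open Pool.Agent.H62.EF (MN pr)
open Pool.Agent.AD (Vd)
open Pool.Agent.TG (Lat Gd)
open Pool.Agent.G3 (wt TT LLift)
open Pool.Agent.G4 (Few)

variable {k d r : ℕ}

variable {Λ : AddSubgroup (Vd (k + 1))} {D : Set (Vd (k + 1))} {Bad : Vd (k + 1) → Set (Vd (k + 1))} {θ : Fin (d + 1) → Vd (k + 1) → ℂ}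
  {W : Fin r → Vd (k + 1) →L[ℂ] ℂ}

/-- an inequality off a discrete set of the circle -/
private theorem tt_mono {u v : ℂ → ℝ} {z : ℂ} {s : ℝ} (hs : 0 < s) (hu : CircleIntegrable u z s) (hv : CircleIntegrable v z s)
    (h : ∀ᶠ w in codiscreteWithin (sphere z |s|), u w ≤ v w) : Real.circleAverage u z s ≤ Real.circleAverage v z s := by
  have h3 := circleMap_preimage_codiscrete hs.ne' h
  have h4 := ae_restrict_le_codiscreteWithin (μ := MeasureTheory.volume) measurableSet_uIoc (codiscreteWithin_mono (U₁ := Set.uIoc 0 (2 * Real.pi)) (by simp) h3)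
  have h5 : ∀ᵐ θ ∂(MeasureTheory.volume.restrict (Set.uIoc 0 (2 * Real.pi))), u (circleMap z s θ) ≤ v (circleMap z s θ) := by
    filter_upwards [h4] with θ hθ
    exact hθ
  rw [Real.circleAverage, Real.circleAverage, smul_eq_mul, smul_eq_mul]
  refine mul_le_mul_of_nonneg_left ?_ (by positivity)
  refine intervalIntegral.integral_mono_ae_restrict (by positivity) hu hv ?_
  rw [Set.uIoc_of_le (by positivity)] at h5
  rw [MeasureTheory.Measure.restrict_congr_set MeasureTheory.Ioc_ae_eq_Icc.symm]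
  exact h5

/-- an analytic function which is not zero at the centre is not zero outside a discrete set of the circle -/
private theorem tt_codisc {a : ℂ → ℂ} {z : ℂ} {s : ℝ} (hs : 0 < s) (ha : Differentiable ℂ a) (ha0 : a z ≠ 0) :
    a ⁻¹' {0}ᶜ ∈ codiscreteWithin (sphere z |s|) := by
  have h0 : AnalyticOnNhd ℂ a (closedBall z s) := fun w _ => ha.analyticAt w
  have h1 : a ⁻¹' {0}ᶜ ∈ codiscreteWithin (closedBall z s) :=
    h0.preimage_zero_mem_codiscreteWithin ha0 (mem_closedBall_self hs.le) ((convex_closedBall z s).isConnected ⟨z, mem_closedBall_self hs.le⟩)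
  rw [abs_of_pos hs]
  exact codiscreteWithin_mono sphere_subset_closedBall h1

/-- the logarithm of the norm of an entire function is circle integrable -/
private theorem tt_int {a : ℂ → ℂ} {z : ℂ} {s : ℝ} (hs : 0 < s) (ha : Differentiable ℂ a) : CircleIntegrable (fun w => Real.log ‖a w‖) z s := by
  apply MeromorphicOn.circleIntegrable_log_norm_of_nonneg _ hs.le
  have h0 : AnalyticOnNhd ℂ a (sphere z s) := fun w _ => ha.analyticAt w
  exact h0.meromorphicOn

/-- the mean of `‖g‖ ^ 2` -/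
private theorem tt_sq {g : ℂ → ℂ} {z : ℂ} {s : ℝ} (hs : 0 < s) (hg : Differentiable ℂ g) :
    Real.circleAverage (fun w => ‖g w‖ ^ 2) z s = ‖g z‖ ^ 2 + Real.circleAverage (fun w => ‖g w - g z‖ ^ 2) z s := by
  have hgc : ContinuousOn g (sphere z s) := hg.continuous.continuousOn
  have hmean : Real.circleAverage g z s = g z := hg.diffContOnCl.circleAverage
  have hIg : CircleIntegrable g z s := hgc.circleIntegrable hs.le
  -- the linear term
  set L : ℂ →L[ℝ] ℝ := Complex.reCLM.comp ((ContinuousLinearMap.mul ℂ ℂ ((starRingEnd ℂ) (g z))).restrictScalars ℝ) with hL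
  have hLv : ∀ w, L w = ((starRingEnd ℂ) (g z) * w).re := fun w => by
    simp [hL]
  have hlin : Real.circleAverage (fun w => L (g w)) z s = L (g z) := by
    have := L.circleAverage_comp_comm hIg
    rw [hmean] at this
    exact this
  have hIL : CircleIntegrable (fun w => L (g w)) z s := (L.continuous.comp_continuousOn hgc).circleIntegrable hs.le
  have hIn : CircleIntegrable (fun w => ‖g w - g z‖ ^ 2) z s := ((hgc.sub continuousOn_const).norm.pow 2).circleIntegrable hs.le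
  have hpt : (fun w => ‖g w‖ ^ 2) = fun w => ((2 : ℝ) • (L (g w)) + ‖g w - g z‖ ^ 2) + (-‖g z‖ ^ 2) := by
    funext w
    rw [hLv, Complex.sq_norm, Complex.sq_norm, Complex.sq_norm, Complex.normSq_apply, Complex.normSq_apply, Complex.normSq_apply]
    simp only [Complex.sub_re, Complex.sub_im, Complex.mul_re, Complex.conj_re, Complex.conj_im, smul_eq_mul]
    ring
  have hI1 : CircleIntegrable (fun w => (2 : ℝ) • (L (g w))) z s := hIL.const_fun_smul
  rw [hpt, Real.circleAverage_fun_add (hI1.fun_add hIn) (circleIntegrable_const _ _ _), Real.circleAverage_fun_add hI1 hIn,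
    Real.circleAverage_fun_smul, Real.circleAverage_const, hlin, hLv]
  have h1 : ((starRingEnd ℂ) (g z) * g z).re = ‖g z‖ ^ 2 := by
    rw [Complex.sq_norm, Complex.normSq_apply]
    simp [Complex.mul_re]
  rw [h1, smul_eq_mul]
  ring

/-- the mean of the weight on a line -/
private theorem tt_wt (W : Fin r → Vd (k + 1) →L[ℂ] ℂ) {y a : Vd (k + 1)} {A : ℝ} (ha : ‖a‖ ≤ A) {z : ℂ} {s : ℝ} (hs : 0 < s) :
    CircleIntegrable (fun w : ℂ => wt W (y + w • a)) z s ∧
      Real.circleAverage (fun w : ℂ => wt W (y + w • a)) z s ≤ wt W (y + z • a) + s ^ 2 * (∑ i, ‖W i‖ ^ 2) * A ^ 2 := by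
  have hd : ∀ i : Fin r, Differentiable ℂ fun w : ℂ => W i (y + w • a) := fun i =>
    (W i).differentiable.comp ((differentiable_const y).add (differentiable_id.smul_const a))
  have hIi : ∀ i : Fin r, CircleIntegrable (fun w : ℂ => ‖W i (y + w • a)‖ ^ 2) z s := fun i =>
    ((hd i).continuous.norm.pow 2).continuousOn.circleIntegrable hs.le
  have hIW : CircleIntegrable (fun w : ℂ => wt W (y + w • a)) z s := by
    unfold wt
    exact CircleIntegrable.fun_sum _ fun i _ => hIi i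
  refine ⟨hIW, ?_⟩
  have h1 : Real.circleAverage (fun w : ℂ => wt W (y + w • a)) z s = ∑ i, Real.circleAverage (fun w : ℂ => ‖W i (y + w • a)‖ ^ 2) z s := by
    unfold wt
    exact Real.circleAverage_fun_sum fun i _ => hIi i
  rw [h1, wt, Finset.mul_sum, Finset.sum_mul, ← Finset.sum_add_distrib]
  refine Finset.sum_le_sum fun i _ => ?_
  rw [tt_sq hs (hd i)]
  have h2 : Real.circleAverage (fun w : ℂ => ‖W i (y + w • a) - W i (y + z • a)‖ ^ 2) z s ≤ s ^ 2 * ‖W i‖ ^ 2 * A ^ 2 := by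
    refine Real.circleAverage_mono_on_of_le_circle ?_ fun w hw => ?_
    · exact ((((hd i).continuous.sub continuous_const).norm.pow 2).continuousOn).circleIntegrable hs.le
    · rw [abs_of_pos hs, mem_sphere, dist_eq_norm] at hw
      have h3 : W i (y + w • a) - W i (y + z • a) = (w - z) • W i a := by
        rw [← map_sub, ← map_smul]
        congr 1
        rw [sub_smul]
        abel
      rw [h3, norm_smul, hw, mul_pow, mul_assoc]
      refine mul_le_mul_of_nonneg_left ?_ (by positivity)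
      rw [← mul_pow]
      exact pow_le_pow_left₀ (norm_nonneg _) (((W i).le_opNorm a).trans (mul_le_mul_of_nonneg_left ha (norm_nonneg _))) 2
  linarith

/-- Jensen: the order of a zero -/
private theorem order_le {K : ℂ → ℂ} (hK : Differentiable ℂ K) {z z₀ : ℂ} (hz : K z ≠ 0) (h1 : ‖z - z₀‖ ≤ 1) (hne : z ≠ z₀) {m : ℕ} (hm : analyticOrderAt K z₀ = m) :
    (m : ℝ) ≤ Real.circleAverage (fun w => Real.log ‖K w‖) z 3 - Real.log ‖K z‖ := by
  have hs : (0 : ℝ) < 3 := by norm_num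
  have hmerOn : MeromorphicOn K (closedBall z |(3 : ℝ)|) := fun ζ _ => (hK.analyticAt ζ).meromorphicAt
  have hJ := MeromorphicOn.circleAverage_log_norm hs.ne' hmerOn
  have hzm : z ∈ closedBall z |(3 : ℝ)| := mem_closedBall_self (abs_nonneg _)
  have hdz : MeromorphicOn.divisor K (closedBall z |(3 : ℝ)|) z = 0 := by
    rw [MeromorphicOn.divisor_apply hmerOn hzm, (hK.analyticAt z).meromorphicOrderAt_eq, (hK.analyticAt z).analyticOrderAt_eq_zero.2 hz]
    simp
  have hnn : ∀ u, 0 ≤ (MeromorphicOn.divisor K (closedBall z |(3 : ℝ)|) u : ℝ) * Real.log (3 * ‖z - u‖⁻¹) := by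
    intro u
    by_cases hu : u ∈ closedBall z |(3 : ℝ)|
    · apply mul_nonneg
      · have h1 : 0 ≤ MeromorphicOn.divisor K (closedBall z |(3 : ℝ)|) u := by
          rw [MeromorphicOn.divisor_apply hmerOn hu, (hK.analyticAt u).meromorphicOrderAt_eq]
          refine WithTop.untop₀_nonneg.2 ?_
          have h5 := (hK.analyticAt u).meromorphicOrderAt_nonneg
          rwa [(hK.analyticAt u).meromorphicOrderAt_eq] at h5
        exact_mod_cast h1
      · by_cases huc : u = z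
        · simp [huc]
        · apply Real.log_nonneg
          have h2 : 0 < ‖z - u‖ := by
            rw [norm_pos_iff, sub_ne_zero]
            exact fun h => huc h.symm
          have h3 : ‖z - u‖ ≤ 3 := by
            rw [mem_closedBall, dist_eq_norm, abs_of_pos hs, norm_sub_rev] at hu
            exact hu
          rw [← div_eq_mul_inv, le_div_iff₀ h2]
          linarith
    · have : MeromorphicOn.divisor K (closedBall z |(3 : ℝ)|) u = 0 := Function.locallyFinsuppWithin.apply_eq_zero_of_notMem _ hu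
      simp [this]
  have hfin : (Function.support fun u => (MeromorphicOn.divisor K (closedBall z |(3 : ℝ)|) u : ℝ) * Real.log (3 * ‖z - u‖⁻¹)).Finite := by
    refine ((MeromorphicOn.divisor K (closedBall z |(3 : ℝ)|)).finiteSupport (isCompact_closedBall _ _)).subset ?_
    intro u hu h0
    apply hu
    simp only
    rw [h0]
    simp
  have hsum := single_le_finsum z₀ hfin hnn
  have hz₀ : z₀ ∈ closedBall z |(3 : ℝ)| := by
    rw [mem_closedBall, dist_eq_norm, abs_of_pos hs, norm_sub_rev]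
    linarith
  have hd₀ : (MeromorphicOn.divisor K (closedBall z |(3 : ℝ)|) z₀ : ℝ) = m := by
    rw [MeromorphicOn.divisor_apply hmerOn hz₀, (hK.analyticAt z₀).meromorphicOrderAt_eq, hm]
    simp
  have hpos : 0 < ‖z - z₀‖ := by
    rw [norm_pos_iff, sub_ne_zero]
    exact hne
  have hlog : 1 ≤ Real.log (3 * ‖z - z₀‖⁻¹) := by
    rw [Real.le_log_iff_exp_le (by positivity)]
    have h2 : (1 : ℝ) ≤ ‖z - z₀‖⁻¹ := (one_le_inv₀ hpos).2 h1
    have h3 := Real.exp_one_lt_d9
    nlinarith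
  have h4 : (m : ℝ) ≤ (MeromorphicOn.divisor K (closedBall z |(3 : ℝ)|) z₀ : ℝ) * Real.log (3 * ‖z - z₀‖⁻¹) := by
    rw [hd₀]
    exact le_mul_of_one_le_right (Nat.cast_nonneg _) hlog
  rw [hdz, (hK.analyticAt z).meromorphicTrailingCoeffAt_of_ne_zero hz] at hJ
  push_cast at hJ
  linarith

theorem PD.mult (P : PD Λ D Bad θ W) {a : Vd (k + 1)} (ha : a ≠ 0) : ∃ M : ℕ, ∀ (y : Vd (k + 1)) (G : ℂ → EN 1) (K : ℂ → ℂ), Differentiable ℂ G → (∀ z, G z ≠ 0) →
    (∀ z : ℂ, Fo θ (y + z • a) (G z) = 0) → Differentiable ℂ K → (∀ (z : ℂ) (v : EN 1), Fd θ (y + z • a) (G z) v = K z * dt (G z) v) → ∀ z, analyticOrderAt K z ≤ (M : ℕ∞) := by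
  have hs : (0 : ℝ) < 3 := by norm_num
  obtain ⟨δ, hδ, hcirc⟩ := P.circ (A₁ := ‖a‖) (A₂ := ‖a‖) (ρ := 1) (norm_pos_iff.2 ha) one_pos
  obtain ⟨c, hc, hlo⟩ := P.grad_lo hδ
  obtain ⟨C, hC, hup⟩ := P.grad_up
  obtain ⟨T, hT⟩ := P.tt_root (A := ‖a‖) hδ hs
  obtain ⟨B, hB⟩ : ∃ B : ℝ, B = Real.log C - Real.log c + ((d - 2 : ℕ) : ℝ) * T + 3 ^ 2 * (∑ i, ‖W i‖ ^ 2) * ‖a‖ ^ 2 := ⟨_, rfl⟩
  refine ⟨⌈B⌉₊, fun y G K hG hG0 hr hK hKd z₀ => ?_⟩
  obtain ⟨s, hs0, hs1, hsG⟩ := hcirc (y + z₀ • a) a le_rfl le_rfl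
  obtain ⟨z, hz⟩ : ∃ z : ℂ, z = z₀ + s := ⟨_, rfl⟩
  have hzs : z - z₀ = s := by
    rw [hz]
    ring
  have hzn : ‖z - z₀‖ = s := by
    rw [hzs, Complex.norm_real, Real.norm_of_nonneg hs0.le]
  have hzG : y + z • a ∈ Gd D δ := by
    have h1 := hsG (s : ℂ) (by rw [Complex.norm_real, Real.norm_of_nonneg hs0.le])
    rw [hz, add_smul, ← add_assoc]
    exact h1
  have hnG : ∀ ζ, 0 < ‖G ζ‖ := fun ζ => norm_pos_iff.2 (hG0 ζ)
  have hlow := hlo _ hzG _ (hG0 z) (hr z) (K z) (hKd z)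
  have hKz : K z ≠ 0 := by
    intro h
    rw [h, norm_zero] at hlow
    exact absurd hlow (not_le.2 (by have := hnG z; positivity))
  have hne : z ≠ z₀ := by
    intro h
    rw [h, sub_self, norm_zero] at hzn
    exact hs0.ne hzn
  -- finite order
  have hord : analyticOrderAt K z₀ ≠ ⊤ := by
    intro h
    rw [analyticOrderAt_eq_top] at h
    have h1 : AnalyticOnNhd ℂ K Set.univ := fun w _ => hK.analyticAt w
    exact hKz (h1.eqOn_zero_of_preconnected_of_eventuallyEq_zero isPreconnected_univ (Set.mem_univ z₀) h (Set.mem_univ z))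
  obtain ⟨m, hm⟩ := ENat.ne_top_iff_exists.1 hord
  have hJ := order_le hK hKz (by rw [hzn]; exact hs1) hne hm.symm
  -- the upper bound
  have hIG : CircleIntegrable (fun w => Real.log ‖G w‖) z 3 :=
    (hG.continuous.norm.log fun w => (hnG w).ne').continuousOn.circleIntegrable hs.le
  obtain ⟨hIW, hW⟩ := tt_wt W (y := y) (a := a) le_rfl (z := z) hs
  have hIK := tt_int (z := z) hs hK
  have hIc : CircleIntegrable (fun _ : ℂ => Real.log C) z 3 := circleIntegrable_const _ _ _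
  have hIG2 : CircleIntegrable (fun w => ((d - 2 : ℕ) : ℝ) * Real.log ‖G w‖) z 3 := hIG.const_mul _
  have hmono : Real.circleAverage (fun w => Real.log ‖K w‖) z 3 ≤
      Real.circleAverage (fun w => Real.log C + ((d - 2 : ℕ) : ℝ) * Real.log ‖G w‖ + wt W (y + w • a)) z 3 := by
    refine tt_mono hs hIK ((hIc.fun_add hIG2).fun_add hIW) ?_
    filter_upwards [tt_codisc hs hK hKz] with w h1
    have h3 : 0 < ‖K w‖ := norm_pos_iff.2 h1
    have h5 := Real.log_le_log h3 (hup (y + w • a) (G w) (hG0 w) (K w) (hKd w))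
    rw [Real.log_mul (mul_pos hC (pow_pos (hnG w) _)).ne' (Real.exp_pos _).ne', Real.log_mul hC.ne' (pow_pos (hnG w) _).ne', Real.log_exp, Real.log_pow] at h5
    exact h5
  rw [Real.circleAverage_fun_add (hIc.fun_add hIG2) hIW, Real.circleAverage_fun_add hIc hIG2, Real.circleAverage_const] at hmono
  have hsm : Real.circleAverage (fun w => ((d - 2 : ℕ) : ℝ) * Real.log ‖G w‖) z 3 = ((d - 2 : ℕ) : ℝ) * Real.circleAverage (fun w => Real.log ‖G w‖) z 3 := by
    have := Real.circleAverage_fun_smul (a := ((d - 2 : ℕ) : ℝ)) (f := fun w => Real.log ‖G w‖) (c := z) (R := 3)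
    simpa [smul_eq_mul] using this
  rw [hsm] at hmono
  have hTT := hT y a le_rfl G hG hG0 hr z hzG
  unfold TT at hTT
  have h6 := Real.log_le_log (by have := hnG z; positivity) hlow
  rw [Real.log_mul (mul_pos hc (pow_pos (hnG z) _)).ne' (Real.exp_pos _).ne', Real.log_mul hc.ne' (pow_pos (hnG z) _).ne', Real.log_exp, Real.log_pow] at h6
  have h7 : ((d - 2 : ℕ) : ℝ) * (Real.circleAverage (fun w => Real.log ‖G w‖) z 3 - Real.log ‖G z‖) ≤ ((d - 2 : ℕ) : ℝ) * T :=
    mul_le_mul_of_nonneg_left hTT (Nat.cast_nonneg _)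
  have h8 : (m : ℝ) ≤ B := by
    rw [hB]
    nlinarith
  rw [← hm]
  have h9 : (m : ℝ) ≤ (⌈B⌉₊ : ℝ) := h8.trans (Nat.le_ceil B)
  exact_mod_cast h9

end Pool.Agent.PX

end

section

/-!
# PX NoR: there is no such root

`ustar` (`G4/U/UStar`) with `E = {z | y + z a ∈ Bad a}` and `κ z = max_j |G_j z| ^ (d - 2) / ‖K z‖ * exp (wt W (y + z a))`, `K` from `exists_kap`; `K z ≠ 0` off `E` (`RL.simple`).  Over `Gd D δ'`: `κ ≤ 1 / c` (`grad_lo`).
At the points away from `E` the function `κ` satisfies a strict maximum principle on small circles (`kmax`); near `E` it is multiplied by `∏ (z' - e) ^ (M + 1)` (`mult`).  Normalise `‖a‖ = 1` (`G (z / ‖a‖)`), constants `ρ`, `δ` from `exists_lc` for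
`LG Λ D (Bad a) (a / ‖a‖)`.  The conclusion `κ = 0` contradicts `κ > 0`.
-/

set_option autoImplicit false

open Topology Filter Metric

namespace Pool.Agent.PX

open Pool.Agent.H36.BP (EN fs wd)
open Pool.Agent.H62.EF (MN pr)
open Pool.Agent.AD (Vd)
open Pool.Agent.TG (Lat Gd)
open Pool.Agent.G3 (wt TT LLift)
open Pool.Agent.G4 (Few)
open Pool.Agent.G4.A (LG LC exists_lc hits_closed)

variable {k d r : ℕ}

variable {Λ : AddSubgroup (Vd (k + 1))} {D : Set (Vd (k + 1))} {Bad : Vd (k + 1) → Set (Vd (k + 1))} {θ : Fin (d + 1) → Vd (k + 1) → ℂ}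
  {W : Fin r → Vd (k + 1) →L[ℂ] ℂ}

/-- the case of a unit vector `a` -/
private theorem core (P : PD Λ D Bad θ W) {B : Set (Vd (k + 1))} {y a : Vd (k + 1)} (hL : LG Λ D B a) {G : ℂ → EN 1} {K : ℂ → ℂ} (hG : Differentiable ℂ G) (hG0 : ∀ z, G z ≠ 0)
    (hr : ∀ z : ℂ, Fo θ (y + z • a) (G z) = 0) (hK : Differentiable ℂ K) (hKF : ∀ (z : ℂ) (v : EN 1), Fd θ (y + z • a) (G z) v = K z * dt (G z) v)
    (hK0 : ∀ z : ℂ, y + z • a ∉ B → K z ≠ 0) : False := by
  have ha : ‖a‖ = 1 := hL.norm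
  have ha0 : a ≠ 0 := by
    rintro rfl
    rw [norm_zero] at ha
    exact zero_ne_one ha
  have hsm : ∀ z : ℂ, ‖z • a‖ = ‖z‖ := fun z => by rw [norm_smul, ha, mul_one]
  have hW : 0 < wt W a := by
    unfold wt
    refine lt_of_le_of_ne (Finset.sum_nonneg fun i _ => sq_nonneg _) fun h => ha0 (P.pos a fun i => ?_)
    have h1 := (Finset.sum_eq_zero_iff_of_nonneg (fun i _ => sq_nonneg ‖W i a‖)).1 h.symm i (Finset.mem_univ i)
    exact norm_eq_zero.1 (pow_eq_zero_iff (two_ne_zero) |>.1 h1)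
  obtain ⟨M, hM⟩ := P.mult ha0
  have hMz := hM y G K hG hG0 hr hK hKF
  -- the geometry
  obtain ⟨δ, hδ, hlc⟩ := exists_lc hL (ρ := 1 / 8) (by norm_num) le_rfl
  have hC := hlc δ hδ le_rfl
  have hδρ := hC.δ_le
  have hδ64 : δ ≤ 1 / 64 := by linarith
  set E : Set ℂ := {z : ℂ | y + z • a ∈ B} with hE
  have hEc : IsClosed E := hits_closed hL.iso hL.bad_sub y
  obtain ⟨C₂, hC₂⟩ := few_ncard hL y one_pos
  obtain ⟨M₀, hM₀⟩ : ∃ M₀ : ℕ, M₀ = ⌈1 * (2 : ℝ) ^ 2 + C₂⌉₊ := ⟨_, rfl⟩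
  have hM₀' : ∀ z : ℂ, (E ∩ closedBall z 2).ncard ≤ M₀ := by
    intro z
    have h1 := (hC₂ z 2 (by norm_num)).2
    rw [hM₀]
    have h2 := h1.trans (Nat.le_ceil _)
    exact_mod_cast h2
  -- a point off `D`
  obtain ⟨c, hc⟩ : ∃ c : ℂ, y + c • a ∉ D := by
    have h1 : ∀ᶠ z in 𝓝[≠] (0 : ℂ), y + z • a ∉ D := hL.iso y
    exact h1.exists
  have hcE : c ∉ E := fun h => hc (hL.bad_sub h)
  obtain ⟨d₀, hd₀, hd₁⟩ : ∃ d₀ : ℝ, 0 < d₀ ∧ ∀ e ∈ E, d₀ ≤ dist c e := by
    obtain ⟨d₀, h1, h2⟩ := Metric.isOpen_iff.1 hEc.isOpen_compl c hcE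
    refine ⟨d₀, h1, fun e he => ?_⟩
    by_contra h3
    push Not at h3
    exact h2 (mem_ball'.2 h3) he
  obtain ⟨r₀, hr₀, hr₁, hr₂⟩ : ∃ r₀ : ℝ, 0 < r₀ ∧ r₀ ≤ d₀ ∧ r₀ ≤ δ ^ (M₀ + 1) := ⟨min d₀ (δ ^ (M₀ + 1)), lt_min hd₀ (by positivity), min_le_left _ _, min_le_right _ _⟩
  have hr₃ : r₀ / (2 * δ) * (1 / δ) ^ M₀ ≤ 1 / 2 := by
    have h1 : r₀ / (2 * δ) * (1 / δ) ^ M₀ ≤ δ ^ (M₀ + 1) / (2 * δ) * (1 / δ) ^ M₀ := by gcongr
    refine h1.trans (le_of_eq ?_)
    rw [pow_succ, one_div, inv_pow]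
    have := hδ.ne'
    have := pow_ne_zero M₀ hδ.ne'
    field_simp
  have hr₄ : r₀ ≤ 1 / 64 := (hr₂.trans (pow_le_of_le_one hδ.le (by linarith) (Nat.succ_ne_zero _))).trans hδ64
  -- the circles
  obtain ⟨δ₁, hδ₁, hcirc⟩ := hC.circ (r₀ / 4) (by positivity)
  have hcirc' : ∀ z : ℂ, ∃ s : ℝ, 0 < s ∧ s < r₀ / 4 ∧ ∀ w : ℂ, dist w z = s → y + w • a ∈ Gd D δ₁ := by
    intro z
    obtain ⟨s, h1, h2, h3⟩ := hcirc (y + z • a)
    refine ⟨s, h1, h2, fun w hw => ?_⟩
    have h4 := h3 (w - z) (by rw [← dist_eq_norm, hw])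
    have e : y + z • a + (w - z) • a = y + w • a := by rw [sub_smul]; abel
    rwa [e] at h4
  have hcircC : ∀ z : ℂ, ∃ s : ℝ, 0 < s ∧ s ≤ 1 / 4 ∧ ∀ w : ℂ, dist w z = s → ∀ e ∈ E, 4 * δ ≤ dist w e := by
    intro z
    obtain ⟨s, h1, h2, h3⟩ := hC.circC (y + z • a)
    refine ⟨s, h1, by linarith, fun w hw e he => ?_⟩
    have h4 := h3 (w - z) (by rw [← dist_eq_norm, hw])
    have e1 : y + z • a + (w - z) • a = y + w • a := by rw [sub_smul]; abel
    rw [e1] at h4
    have h5 := h4 (y + e • a) (hL.bad_sub he)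
    have e2 : y + w • a - (y + e • a) = (w - e) • a := by rw [sub_smul]; abel
    rw [e2, hsm] at h5
    rwa [dist_eq_norm]
  obtain ⟨c₁, hc₁, hlo⟩ := P.grad_lo hδ₁
  -- the functions
  set F : Fin 2 → ℂ → ℂ := fun j x => (G x j) ^ (d - 2) / K x with hF
  have hGj : ∀ j : Fin 2, Differentiable ℂ (fun x => (G x j) ^ (d - 2)) := fun j =>
    ((EuclideanSpace.proj (𝕜 := ℂ) j).differentiable.comp hG).pow _
  have hFd : ∀ j, ∀ x : ℂ, x ∉ E → DifferentiableAt ℂ (F j) x := fun j x hx => (hGj j x).div (hK x) (hK0 x hx)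
  -- the bound over `Gd D δ₁`
  have hkb : ∀ w : ℂ, y + w • a ∈ Gd D δ₁ → kp W F y a w ≤ 1 / c₁ := by
    intro w hw
    have h1 := hlo _ hw (G w) (hG0 w) (hr w) (K w) (hKF w)
    have hG1 : 0 < ‖G w‖ := norm_pos_iff.2 (hG0 w)
    have hK1 : 0 < ‖K w‖ := lt_of_lt_of_le (by positivity) h1
    have h2 : ‖(fun j => F j w : Fin 2 → ℂ)‖ ≤ ‖G w‖ ^ (d - 2) / ‖K w‖ := by
      rw [pi_norm_le_iff_of_nonneg (by positivity)]
      intro j
      rw [hF]
      simp only
      rw [norm_div, norm_pow]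
      have h3 : ‖G w j‖ ≤ ‖G w‖ := PiLp.norm_apply_le (G w) j
      gcongr
    unfold kp
    calc ‖(fun j => F j w : Fin 2 → ℂ)‖ * Real.exp (wt W (y + w • a)) ≤ ‖G w‖ ^ (d - 2) / ‖K w‖ * Real.exp (wt W (y + w • a)) := by gcongr
      _ ≤ 1 / c₁ := by
        rw [div_mul_eq_mul_div, div_le_div_iff₀ hK1 hc₁, one_mul]
        linarith
  have hlt : ∀ s : ℝ, Real.exp (-(wt W a * s ^ 2)) ≤ 1 := by
    intro s
    rw [Real.exp_le_one_iff]
    have : 0 ≤ wt W a * s ^ 2 := by positivity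
    linarith
  have hdisc : ∀ z : ℂ, (∀ e ∈ E, r₀ / 2 ≤ dist z e) → ∀ s : ℝ, s ≤ r₀ / 4 → ∀ j, ∀ x ∈ closedBall z s, DifferentiableAt ℂ (F j) x := by
    intro z hz s hs j x hx
    refine hFd j x fun hxB => ?_
    have h1 := hz x hxB
    rw [mem_closedBall, dist_comm] at hx
    linarith
  have hzero := Pool.Agent.G4.U.ustar (E := E) hEc (fun z R => by
      rcases le_or_gt 0 R with hR | hR
      · exact (hC₂ z R hR).1
      · rw [closedBall_eq_empty.2 hR, Set.inter_empty]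
        exact Set.finite_empty) (M := M₀) hM₀' (fun ε hε => by
      obtain ⟨C, hC'⟩ := few_ncard hL y hε
      exact ⟨C, fun z R hR => (hC' z R (by linarith)).2⟩) hδ (by linarith) (ρ := 1 / 2) (by norm_num) le_rfl hr₀ hr₃ (q := Real.exp (-(wt W a * (r₀ / 4) ^ 2)))
      (by
        rw [Real.exp_lt_one_iff]
        have : 0 < wt W a * (r₀ / 4) ^ 2 := by positivity
        linarith) (κ := kp W F y a) (C₁ := max (1 / c₁) ((2 / r₀) ^ ((M + 1) * M₀))) (kp_nonneg F y a) ?_ ?_ ?_ c (fun e he => hr₁.trans (hd₁ e he))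
  · -- the contradiction
    have h1 : (fun j => F j c : Fin 2 → ℂ) = 0 := by
      rw [kp, mul_eq_zero] at hzero
      rcases hzero with h1 | h1
      · exact norm_eq_zero.1 h1
      · exact absurd h1 (Real.exp_pos _).ne'
    refine hG0 c ?_
    ext j
    have h2 := congrFun h1 j
    rw [hF] at h2
    simp only [Pi.zero_apply, div_eq_zero_iff] at h2
    rcases h2 with h2 | h2
    · exact pow_eq_zero_iff (by have := P.deg; omega) |>.1 h2
    · exact absurd h2 (hK0 c hcE)
  · intro z hz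
    obtain ⟨s, hs, hs', hcz⟩ := hcirc' z
    have h1 := kmax (W := W) (F := F) (y := y) (a := a) (z := z) (s' := s + 1) hs (by linarith) (hdisc z hz s hs'.le) (g := fun _ => 1) (differentiableOn_const _)
      (S := 1 / c₁) (fun w hw => by
        rw [norm_one, mul_one]
        exact hkb w (hcz w hw))
    rw [norm_one, mul_one] at h1
    refine h1.trans (le_trans ?_ (le_max_left _ _))
    have : 0 ≤ 1 / c₁ := by positivity
    exact mul_le_of_le_one_left this (hlt s)
  · intro z hz G₁ hG₁ _ T hT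
    refine kmax (s' := r₀ / 2) (by positivity) (by linarith) (hdisc z (fun e he => by linarith [hz e he]) _ le_rfl) hG₁ hT
  · intro z hz _ G₁ hG₁ _ T hT
    obtain ⟨s, hs, hs', hcz⟩ := hcircC z
    -- `T` is not negative
    have hT0 : 0 ≤ T := by
      have h1 : dist (z + s) z = s := by rw [dist_eq_norm, add_sub_cancel_left, Complex.norm_real, Real.norm_eq_abs, abs_of_pos hs]
      refine (mul_nonneg (kp_nonneg F y a _) (norm_nonneg _)).trans (hT (z + s) (by rw [h1]; linarith) fun e he => ?_)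
      have := hcz (z + s) h1 e he
      linarith
    -- the exceptional points in the disc
    have hfin : (E ∩ closedBall z (1 / 4)).Finite := (hC₂ z (1 / 4) (by norm_num)).1
    obtain ⟨A, hA⟩ : ∃ A : Finset ℂ, A = hfin.toFinset := ⟨_, rfl⟩
    have hAm : ∀ e, e ∈ A ↔ e ∈ E ∧ dist e z ≤ 1 / 4 := fun e => by
      rw [hA, Set.Finite.mem_toFinset]
      rfl
    have hAc : A.card ≤ M₀ := by
      rw [hA, ← Set.ncard_eq_toFinset_card _ hfin]
      have hsub : E ∩ closedBall z (1 / 4) ⊆ E ∩ closedBall z 2 :=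
        Set.inter_subset_inter_right E (closedBall_subset_closedBall (by norm_num))
      exact (Set.ncard_le_ncard hsub (hC₂ z 2 (by norm_num)).1).trans (hM₀' z)
    set P₁ : ℂ → ℂ := fun w => ∏ e ∈ A, (w - e) ^ (M + 1) with hP₁
    have hP₁d : Differentiable ℂ P₁ := by
      rw [hP₁]
      fun_prop
    have hdiff : ∀ j, ∀ x ∈ closedBall z s, DifferentiableAt ℂ (fun w => (G w j) ^ (d - 2) * P₁ w / K w) x := by
      intro j x hx
      refine div_diff ((hGj j).mul hP₁d) hK (hMz x) ?_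
      by_cases hxE : x ∈ E
      · right
        have hxA : x ∈ A := (hAm x).2 ⟨hxE, by
          rw [mem_closedBall] at hx
          linarith⟩
        refine ⟨fun w => (G w j) ^ (d - 2) * ∏ e ∈ A.erase x, (w - e) ^ (M + 1), (hGj j).mul (by fun_prop), fun w => ?_⟩
        show (G w j) ^ (d - 2) * ∏ e ∈ A, (w - e) ^ (M + 1) = _
        rw [← Finset.mul_prod_erase A (fun e => (w - e) ^ (M + 1)) hxA]
        ring
      · left
        exact hK0 x hxE
    have hkpP : ∀ w, kp W (fun j w => (G w j) ^ (d - 2) * P₁ w / K w) y a w = kp W F y a w * ‖P₁ w‖ := by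
      intro w
      unfold kp
      have h1 : (fun j => (G w j) ^ (d - 2) * P₁ w / K w : Fin 2 → ℂ) = P₁ w • (fun j => F j w : Fin 2 → ℂ) := by
        funext j
        rw [Pi.smul_apply, smul_eq_mul, hF]
        ring
      rw [h1, norm_smul]
      ring
    have h1 := kmax (W := W) (F := fun j w => (G w j) ^ (d - 2) * P₁ w / K w) (y := y) (a := a) (z := z) (s := s) (s' := 1) hs (by linarith) hdiff hG₁ (S := T)
      (fun w hw => by
        rw [hkpP]
        have h2 : ‖P₁ w‖ ≤ 1 := by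
          rw [hP₁]
          simp only
          rw [norm_prod]
          refine Finset.prod_le_one (fun e _ => norm_nonneg _) fun e he => ?_
          rw [norm_pow]
          refine pow_le_one₀ (norm_nonneg _) ?_
          have h3 := ((hAm e).1 he).2
          have h4 := dist_triangle w z e
          rw [dist_comm z e, hw, dist_eq_norm] at h4
          linarith
        have h3 := hT w (by rw [hw]; linarith) fun e he => by
          have := hcz w hw e he
          linarith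
        have h4 := kp_nonneg (W := W) F y a w
        calc kp W F y a w * ‖P₁ w‖ * ‖G₁ w‖ ≤ kp W F y a w * 1 * ‖G₁ w‖ := by gcongr
          _ ≤ T := by
            rw [mul_one]
            exact h3)
    rw [hkpP] at h1
    have h2 : kp W F y a z * ‖P₁ z‖ * ‖G₁ z‖ ≤ T := h1.trans (mul_le_of_le_one_left hT0 (hlt s))
    have h3 : (r₀ / 2) ^ ((M + 1) * M₀) ≤ ‖P₁ z‖ := by
      rw [hP₁]
      simp only
      rw [norm_prod]
      have hr2 : r₀ / 2 ≤ 1 := by linarith
      calc (r₀ / 2) ^ ((M + 1) * M₀) ≤ (r₀ / 2) ^ ((M + 1) * A.card) := pow_le_pow_of_le_one (by positivity) hr2 (Nat.mul_le_mul_left _ hAc)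
        _ = ∏ _e ∈ A, (r₀ / 2) ^ (M + 1) := by rw [Finset.prod_const, pow_mul]
        _ ≤ ∏ e ∈ A, ‖(z - e) ^ (M + 1)‖ := by
          refine Finset.prod_le_prod (fun e _ => by positivity) fun e he => ?_
          rw [norm_pow]
          have h4 := hz e ((hAm e).1 he).1
          rw [dist_eq_norm] at h4
          gcongr
    have h4 : 0 < (r₀ / 2) ^ ((M + 1) * M₀) := by positivity
    have h5 := kp_nonneg (W := W) F y a z
    have h6 : kp W F y a z * ‖G₁ z‖ * (r₀ / 2) ^ ((M + 1) * M₀) ≤ T := by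
      refine le_trans ?_ h2
      calc kp W F y a z * ‖G₁ z‖ * (r₀ / 2) ^ ((M + 1) * M₀) ≤ kp W F y a z * ‖G₁ z‖ * ‖P₁ z‖ := by gcongr
        _ = kp W F y a z * ‖P₁ z‖ * ‖G₁ z‖ := by ring
    have h7 : kp W F y a z * ‖G₁ z‖ ≤ (2 / r₀) ^ ((M + 1) * M₀) * T := by
      rw [← le_div_iff₀ h4] at h6
      refine h6.trans (le_of_eq ?_)
      rw [div_eq_inv_mul, ← inv_pow, inv_div]
    exact h7.trans (mul_le_mul_of_nonneg_right (le_max_right _ _) hT0)

theorem PD.no_root (P : PD Λ D Bad θ W) {y a : Vd (k + 1)} (ha : a ≠ 0) {G : ℂ → EN 1} (hG : RL θ Bad y a G) : False := by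
  have hn : 0 < ‖a‖ := norm_pos_iff.2 ha
  have hnc : (‖a‖ : ℂ) ≠ 0 := by exact_mod_cast hn.ne'
  obtain ⟨K, hK, hKF⟩ := P.exists_kap hG.diff hG.ne hG.root
  set t : ℂ := (‖a‖ : ℂ)⁻¹ with ht
  have ht0 : t ≠ 0 := inv_ne_zero hnc
  have htn : ‖t‖ = ‖a‖⁻¹ := by rw [ht, norm_inv, Complex.norm_real, norm_norm]
  have e : ∀ z : ℂ, z • (t • a) = (z * t) • a := fun z => by rw [smul_smul]
  have hLG : LG Λ D (Bad a) (t • a) :=
    { norm := by rw [norm_smul, htn, inv_mul_cancel₀ hn.ne']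
      lat := P.lat
      D_closed := P.D_closed
      D_inv := P.D_inv
      bad_sub := P.bad_sub a
      bad_inv := P.bad_inv a
      iso := P.iso (t • a) (smul_ne_zero ht0 ha)
      few := fun ε hε => by
        obtain ⟨C, hC⟩ := P.few a ha (ε * ‖a‖ ^ 2) (by positivity)
        refine ⟨C, fun y' R hR S hS => ?_⟩
        have h1 := hC y' (R / ‖a‖) (by positivity) (S.image fun z => z * t) (fun z hz => by
          obtain ⟨z', hz', rfl⟩ := Finset.mem_image.1 hz
          obtain ⟨h2, h3⟩ := hS z' hz'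
          refine ⟨?_, by rw [← e]; exact h3⟩
          rw [norm_mul, htn, div_eq_mul_inv]
          gcongr)
        rw [Finset.card_image_of_injective S (mul_left_injective₀ ht0)] at h1
        refine h1.trans (le_of_eq ?_)
        rw [div_pow]
        field_simp }
  refine core P (y := y) hLG (G := fun z => G (z * t)) (K := fun z => K (z * t)) (hG.diff.comp (by fun_prop)) (fun z => hG.ne _) (fun z => ?_) (hK.comp (by fun_prop)) (fun z v => ?_) fun z hz => ?_
  · rw [e]
    exact hG.root _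
  · rw [e]
    exact hKF _ v
  · rw [e] at hz
    obtain ⟨v, hv⟩ := hG.simple _ hz
    rw [hKF] at hv
    exact left_ne_zero_of_mul hv

end Pool.Agent.PX

end
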