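import Pool.Agent.H94.PX2.M06
import Pool.Agent.H94.PX2.M07
import Pool.Agent.H94.PX2.M11
import Pool.Agent.H94.PX2.M23
import Pool.Agent.H94.PX2.M24
import Pool.Agent.H94.PX2.M38
import Pool.Agent.H94.PX2.PX.Bas

/-! The parts of this file: PX.GoodA, PX.GoodB. -/

section

/-!
# PX GoodA: coordinates on the line, the form as a monic polynomial
-/

set_option autoImplicit false

open Topology Filter Metric

namespace Pool.Agent.PX

open Pool.Agent.H36.BP (EN fs wd)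
open Pool.Agent.H62.EF (MN pr)
open Pool.Agent.AD (Vd)
open Pool.Agent.H56.PR (hom hom_eq hom_zero LFam)

variable {k d r : ℕ}

theorem exists_b {θ : Fin (d + 1) → Vd (k + 1) → ℂ} {p : Vd (k + 1)} (h : ∃ i, θ i p ≠ 0) :
    ∃ b : EN 1, Fo θ p b ≠ 0 := by
  by_contra hcon
  push Not at hcon
  obtain ⟨j, hj⟩ := h
  set q : Polynomial ℂ := ∑ i : Fin (d + 1), Polynomial.C (θ i p) * Polynomial.X ^ (i : ℕ) with hq
  have h1 : q = 0 := by
    refine Polynomial.funext fun t => ?_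
    have h2 := hcon (WithLp.toLp 2 ![t, 1])
    simpa [Fo, hq, Polynomial.eval_finsetSum] using h2
  have h3 : q.coeff (j : ℕ) = θ j p := by
    simp only [hq, Polynomial.finsetSum_coeff, Polynomial.coeff_C_mul, Polynomial.coeff_X_pow]
    rw [Finset.sum_eq_single j]
    · simp
    · intro i _ hij
      have : ¬ (j : ℕ) = (i : ℕ) := fun h => hij (Fin.ext h.symm)
      simp [this]
    · simp
  rw [h1, Polynomial.coeff_zero] at h3
  exact hj h3.symm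

theorem exists_e {b : EN 1} (hb : b ≠ 0) : ∃ e : EN 1, dt b e ≠ 0 := by
  by_cases h0 : b 0 = 0
  · refine ⟨WithLp.toLp 2 ![1, 0], ?_⟩
    have h1 : b 1 ≠ 0 := by
      intro h1
      apply hb
      ext i
      fin_cases i
      · simpa using h0
      · simpa using h1
    simpa [dt] using h1
  · refine ⟨WithLp.toLp 2 ![0, 1], ?_⟩
    simpa [dt] using h0

theorem coord {b e : EN 1} (hbe : dt b e ≠ 0) (w : EN 1) :
    w = (dt w e / dt b e) • b + (dt b w / dt b e) • e := by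
  have h1 : b 0 * e 1 - b 1 * e 0 ≠ 0 := hbe
  ext i
  fin_cases i
  · simp only [dt, Fin.zero_eta, Fin.isValue, PiLp.add_apply, PiLp.smul_apply, smul_eq_mul]
    rw [div_mul_eq_mul_div, div_mul_eq_mul_div, ← add_div, eq_div_iff h1]
    ring
  · simp only [dt, Fin.mk_one, Fin.isValue, PiLp.add_apply, PiLp.smul_apply, smul_eq_mul]
    rw [div_mul_eq_mul_div, div_mul_eq_mul_div, ← add_div, eq_div_iff h1]
    ring

theorem dt_add (x u v : EN 1) : dt x (u + v) = dt x u + dt x v := by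
  simp only [dt, PiLp.add_apply]; ring

theorem dt_add_left (x u v : EN 1) : dt (u + v) x = dt u x + dt v x := by
  simp only [dt, PiLp.add_apply]; ring

theorem dt_smul (c : ℂ) (x u : EN 1) : dt x (c • u) = c * dt x u := by
  simp only [dt, PiLp.smul_apply, smul_eq_mul]; ring

theorem dt_smul_left (c : ℂ) (x u : EN 1) : dt (c • u) x = c * dt u x := by
  simp only [dt, PiLp.smul_apply, smul_eq_mul]; ring

theorem dt_self (x : EN 1) : dt x x = 0 := by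
  simp only [dt]; ring

theorem dt_swap (x u : EN 1) : dt x u = -dt u x := by
  simp only [dt]; ring

/-- the coordinate `t` of the line `t b + e` -/
noncomputable def tc (b e w : EN 1) : ℂ := dt w e / dt b w

theorem tc_smul (b e w : EN 1) {c : ℂ} (hc : c ≠ 0) : tc b e (c • w) = tc b e w := by
  rw [tc, tc, dt_smul_left, dt_smul, mul_div_mul_left _ _ hc]

/-- the coefficients of the monic polynomial on the line `t b + e` -/
noncomputable def cf (θ : Fin (d + 1) → Vd (k + 1) → ℂ) (c : Fin d → Vd (k + 1) → ℂ) (b : EN 1)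
    (γ : ℂ → Vd (k + 1)) (i : Fin d) (z : ℂ) : ℂ := c i (γ z) / Fo θ (γ z) b

section

variable {θ : Fin (d + 1) → Vd (k + 1) → ℂ} {c : Fin d → Vd (k + 1) → ℂ} {b e : EN 1}
  {γ : ℂ → Vd (k + 1)} {z : ℂ}

theorem fo_pt (hc : ∀ y t, Fo θ y (t • b + e) = Fo θ y b * t ^ d + ∑ i : Fin d, c i y * t ^ (i : ℕ))
    (hb : Fo θ (γ z) b ≠ 0) (t : ℂ) :
    Fo θ (γ z) (t • b + e) = Fo θ (γ z) b * Pt (cf θ c b γ) z t := by
  rw [hc, Pt, mul_add, Finset.mul_sum]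
  congr 1
  refine Finset.sum_congr rfl fun i _ => ?_
  rw [cf]
  field_simp

theorem fo_hom
    (hc : ∀ y t, Fo θ y (t • b + e) = Fo θ y b * t ^ d + ∑ i : Fin d, c i y * t ^ (i : ℕ))
    (hb : Fo θ (γ z) b ≠ 0) (A B : ℂ) :
    Fo θ (γ z) (A • b + B • e) = Fo θ (γ z) b * hom d (Pol (cf θ c b γ) z) A B := by
  by_cases hB : B = 0
  · rw [hB, zero_smul, add_zero, fo_smul, hom_zero (Pol_monic _ _) (Pol_natDegree _ _), mul_comm]
  · have h1 : A • b + B • e = B • ((A / B) • b + e) := by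
      rw [smul_add, smul_smul, mul_div_cancel₀ _ hB]
    rw [h1, fo_smul, fo_pt hc hb, hom_eq (Pol_natDegree _ _) hB, eval_Pol]
    ring

/-- the derivative on the line -/
theorem deriv_pt (han : ∀ i, Differentiable ℂ (θ i))
    (hc : ∀ y t, Fo θ y (t • b + e) = Fo θ y b * t ^ d + ∑ i : Fin d, c i y * t ^ (i : ℕ))
    (hb : Fo θ (γ z) b ≠ 0) (t : ℂ) :
    Fd θ (γ z) (t • b + e) b = Fo θ (γ z) b * deriv (Pt (cf θ c b γ) z) t := by
  have h0 : Differentiable ℂ (Fo θ (γ z)) := by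
    have h := (fo_diff han).comp
      ((differentiable_const (γ z)).prodMk (differentiable_id : Differentiable ℂ fun x : EN 1 => x))
    exact h
  have h1 : HasDerivAt (fun t : ℂ => t • b + e) b t := by
    have h := ((hasDerivAt_id t).smul_const b).add_const e
    simpa using h
  have h2' := HasFDerivAt.comp_hasDerivAt_of_eq (f := fun t : ℂ => t • b + e) t
    (h0 (t • b + e)).hasFDerivAt h1 rfl
  have h2 : HasDerivAt (fun t : ℂ => Fo θ (γ z) (t • b + e)) (Fd θ (γ z) (t • b + e) b) t := h2'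
  have h3 : (fun t : ℂ => Fo θ (γ z) (t • b + e))
      = fun t => Fo θ (γ z) b * Pt (cf θ c b γ) z t := by
    funext t; exact fo_pt hc hb t
  rw [h3] at h2
  have h4 : DifferentiableAt ℂ (Pt (cf θ c b γ) z) t := by
    have : Pt (cf θ c b γ) z = fun t => (Pol (cf θ c b γ) z).eval t := by
      funext t; rw [eval_Pol]
    rw [this]
    exact (Pol (cf θ c b γ) z).differentiableAt
  have h5 := h4.hasDerivAt.const_mul (Fo θ (γ z) b)
  exact h2.unique h5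

theorem line_ne (hbe : dt b e ≠ 0) (t : ℂ) : t • b + e ≠ 0 := by
  intro h
  have h1 := dt_add b (t • b) e
  rw [h, dt_smul, dt_self, mul_zero, zero_add] at h1
  apply hbe
  rw [← h1]
  simp [dt]

/-- simple roots on the line -/
theorem simple_pt (han : ∀ i, Differentiable ℂ (θ i)) (hbe : dt b e ≠ 0)
    (hc : ∀ y t, Fo θ y (t • b + e) = Fo θ y b * t ^ d + ∑ i : Fin d, c i y * t ^ (i : ℕ))
    (hb : Fo θ (γ z) b ≠ 0)
    (hs : ∀ x : EN 1, x ≠ 0 → Fo θ (γ z) x = 0 → ∃ v, Fd θ (γ z) x v ≠ 0) (t : ℂ)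
    (ht : Pt (cf θ c b γ) z t = 0) : deriv (Pt (cf θ c b γ) z) t ≠ 0 := by
  have h0 : Fo θ (γ z) (t • b + e) = 0 := by rw [fo_pt hc hb, ht, mul_zero]
  obtain ⟨v, hv⟩ := hs _ (line_ne hbe t) h0
  obtain ⟨κ, hκ⟩ := fd_root θ (line_ne hbe t) h0
  have h1 := hκ v
  have hκ0 : κ ≠ 0 := by
    rintro rfl
    rw [zero_mul] at h1
    exact hv h1
  have h2 := deriv_pt han hc hb t
  rw [hκ b, dt_add_left, dt_smul_left, dt_self, mul_zero, zero_add, dt_swap] at h2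
  intro h3
  rw [h3, mul_zero] at h2
  exact (mul_ne_zero hκ0 (neg_ne_zero.2 hbe)) h2

end

theorem Pt_bound {m : ℕ} {c : Fin m → ℂ → ℂ} {z t : ℂ} {M : ℝ} (hm : 0 < m)
    (hM : ∀ i, ‖c i z‖ ≤ M) (h : Pt c z t = 0) : ‖t‖ ≤ max 1 (m * M) := by
  by_contra hcon
  rw [not_le, max_lt_iff] at hcon
  obtain ⟨h1, h2⟩ := hcon
  have h3 : t ^ m = -∑ i : Fin m, c i z * t ^ (i : ℕ) := by
    rw [Pt] at h; exact eq_neg_of_add_eq_zero_left h
  have h4 : ‖t‖ ^ m ≤ ∑ i : Fin m, ‖c i z * t ^ (i : ℕ)‖ := by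
    rw [← norm_pow, h3, norm_neg]
    exact norm_sum_le _ _
  have hM0 : 0 ≤ M := (norm_nonneg _).trans (hM ⟨0, hm⟩)
  have h5 : ∑ i : Fin m, ‖c i z * t ^ (i : ℕ)‖ ≤ ∑ i : Fin m, M * ‖t‖ ^ (m - 1) := by
    refine Finset.sum_le_sum fun i _ => ?_
    rw [norm_mul, norm_pow]
    exact mul_le_mul (hM i) (pow_le_pow_right₀ h1.le (by have := i.2; omega)) (by positivity) hM0
  rw [Finset.sum_const, Finset.card_univ, Fintype.card_fin, nsmul_eq_mul] at h5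
  have h7 : ‖t‖ ^ m = ‖t‖ * ‖t‖ ^ (m - 1) := by rw [← pow_succ', Nat.sub_add_cancel hm]
  have h9 : 0 < ‖t‖ ^ (m - 1) := by positivity
  have h10 : ‖t‖ * ‖t‖ ^ (m - 1) ≤ (m * M) * ‖t‖ ^ (m - 1) := by
    rw [← h7]; linarith
  exact absurd (le_of_mul_le_mul_right h10 h9) (not_le.2 h2)

theorem lagr (w x : EN 1) : ‖dt w x‖ ^ 2 = ‖w‖ ^ 2 * ‖x‖ ^ 2 - ‖(inner ℂ w x : ℂ)‖ ^ 2 := by
  have k1 : ∀ f : Fin (1 + 1) → ℝ, ∑ i, f i = f 0 + f 1 := fun f => Fin.sum_univ_two f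
  have k2 : ∀ f : Fin (1 + 1) → ℂ, ∑ i, f i = f 0 + f 1 := fun f => Fin.sum_univ_two f
  rw [EuclideanSpace.norm_sq_eq, EuclideanSpace.norm_sq_eq, PiLp.inner_apply, k1, k1, k2]
  simp only [dt, Complex.sq_norm, Complex.normSq_apply, RCLike.inner_apply,
    Complex.add_re, Complex.add_im, Complex.sub_re, Complex.sub_im, Complex.mul_re, Complex.mul_im,
    Complex.conj_re, Complex.conj_im]
  ring

/-- closeness of the projections gives closeness of the coordinates -/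
theorem tc_near {b e w : EN 1} {t : ℂ} {η ε M : ℝ} (hbe : dt b e ≠ 0) (hw : w ≠ 0)
    (hd : dist (pr w) (pr (t • b + e)) ≤ η)
    (hM : ‖t • b + e‖ ≤ M) (hη : η * (M * ‖b‖) ≤ ‖dt b e‖ / 2) (hηε : 2 * (η * (M * M)) ≤ ε * ‖dt b e‖) :
    dt b w ≠ 0 ∧ ‖tc b e w - t‖ ≤ ε := by
  set A := dt w e / dt b e with hA
  set B := dt b w / dt b e with hB
  have hcw : w = A • b + B • e := coord hbe w
  have hδ : 0 < ‖dt b e‖ := norm_pos_iff.2 hbe
  have hM0 : 0 ≤ M := (norm_nonneg _).trans hM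
  have hη0 : 0 ≤ η := dist_nonneg.trans hd
  -- the determinant
  have h1 : dt w (t • b + e) = (A - t * B) * dt b e := by
    rw [dt_add, dt_smul, dt_swap w b]
    have h2 : dt b w = B * dt b e := by rw [hB]; field_simp
    have h3 : dt w e = A * dt b e := by rw [hA]; field_simp
    rw [h2, h3]; ring
  have h2 : ‖dt w (t • b + e)‖ ≤ ‖w‖ * M * η := by
    have h3 := H62.EF.dist_pr hw (line_ne hbe t)
    have h4 : wd w (t • b + e) = ‖dt w (t • b + e)‖ := by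
      rw [wd]
      rw [← lagr, Real.sqrt_sq (norm_nonneg _)]
    rw [h4] at h3
    have h6 : 0 < ‖w‖ := norm_pos_iff.2 hw
    have h7 : 0 < ‖t • b + e‖ := norm_pos_iff.2 (line_ne hbe t)
    have h8 : ‖dt w (t • b + e)‖ / (‖w‖ * ‖t • b + e‖) ≤ η := by
      have h9 : ‖dt w (t • b + e)‖ / (‖w‖ * ‖t • b + e‖)
          ≤ Real.sqrt 2 * (‖dt w (t • b + e)‖ / (‖w‖ * ‖t • b + e‖)) := by
        refine le_mul_of_one_le_left (by positivity) ?_
        rw [Real.one_le_sqrt]; norm_num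
      linarith
    rw [div_le_iff₀ (by positivity)] at h8
    calc _ ≤ η * (‖w‖ * ‖t • b + e‖) := h8
      _ ≤ η * (‖w‖ * M) := by gcongr
      _ = _ := by ring
  have h3 : ‖w‖ ≤ ‖A - t * B‖ * ‖b‖ + ‖B‖ * M := by
    have h4 : w = (A - t * B) • b + B • (t • b + e) := by
      rw [hcw, smul_add, smul_smul, sub_smul, mul_comm t B]; abel
    calc ‖w‖ = ‖(A - t * B) • b + B • (t • b + e)‖ := by rw [← h4]
      _ ≤ ‖(A - t * B) • b‖ + ‖B • (t • b + e)‖ := norm_add_le _ _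
      _ ≤ _ := by rw [norm_smul, norm_smul]; gcongr
  rw [h1, norm_mul] at h2
  have h4 : ‖A - t * B‖ * ‖dt b e‖ ≤ ‖A - t * B‖ * (‖dt b e‖ / 2) + ‖B‖ * (η * (M * M)) := by
    have h5 : ‖w‖ * M * η ≤ (‖A - t * B‖ * ‖b‖ + ‖B‖ * M) * M * η := by gcongr
    have h6 : ‖A - t * B‖ * (η * (M * ‖b‖)) ≤ ‖A - t * B‖ * (‖dt b e‖ / 2) := by gcongr
    nlinarith
  have h5 : ‖A - t * B‖ * ‖dt b e‖ ≤ ‖B‖ * (2 * (η * (M * M))) := by linarith
  have h6 : ‖A - t * B‖ ≤ ‖B‖ * ε := by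
    have h7 : ‖B‖ * (2 * (η * (M * M))) ≤ ‖B‖ * (ε * ‖dt b e‖) := by gcongr
    have h8 : ‖A - t * B‖ * ‖dt b e‖ ≤ (‖B‖ * ε) * ‖dt b e‖ := by linarith
    exact le_of_mul_le_mul_right h8 hδ
  have hB0 : B ≠ 0 := by
    intro h7
    rw [h7, norm_zero, zero_mul, mul_zero, sub_zero] at h6
    have h8 : A = 0 := norm_le_zero_iff.1 h6
    apply hw
    rw [hcw, h7, h8]; simp
  have hbw : dt b w ≠ 0 := by
    intro h7
    apply hB0
    rw [hB, h7, zero_div]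
  refine ⟨hbw, ?_⟩
  have h7 : tc b e w - t = (A - t * B) / B := by
    rw [tc, hA, hB]
    field_simp
  rw [h7, norm_div, div_le_iff₀ (norm_pos_iff.2 hB0)]
  linarith

end Pool.Agent.PX

end

section

/-!
# PX GoodB: preparations for `good_hit`
-/

set_option autoImplicit false

open Topology Filter Metric

namespace Pool.Agent.PX

open Pool.Agent.H36.BP (EN fs wd)
open Pool.Agent.H62.EF (MN pr)
open Pool.Agent.AD (Vd)
open Pool.Agent.G3 (wt TT LLift)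
open Pool.Agent.H56.PR (hom hom_eq hom_zero LFam)

variable {k d r : ℕ}

/-- uniform convergence of a composition with a function continuous on a compact set -/
theorem conv_comp {V ι : Type*} [NormedAddCommGroup V] {l : Filter ι} {K : Set V}
    (hK : IsCompact K) {ψ : V → ℂ} (hψ : ContinuousOn ψ K) {γ : ι → ℂ → V} {γ' : ℂ → V} {s : Set ℂ}
    (h : ∀ ε : ℝ, 0 < ε → ∀ᶠ n in l, ∀ z ∈ s, ‖γ n z - γ' z‖ < ε)
    (h1 : ∀ᶠ n in l, ∀ z ∈ s, γ n z ∈ K) (h2 : ∀ z ∈ s, γ' z ∈ K) :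
    TendstoUniformlyOn (fun n z => ψ (γ n z)) (fun z => ψ (γ' z)) l s := by
  rw [Metric.tendstoUniformlyOn_iff]
  intro ε hε
  have hu := hK.uniformContinuousOn_of_continuous hψ
  rw [Metric.uniformContinuousOn_iff] at hu
  obtain ⟨δ, hδ, hu⟩ := hu ε hε
  filter_upwards [h δ hδ, h1] with n h3 h4 z hz
  refine hu _ (h2 z hz) _ (h4 z hz) ?_
  rw [dist_comm, dist_eq_norm]
  exact h3 z hz

theorem conv_Pol {ι : Type*} {l : Filter ι} {m : ℕ} {c : ι → Fin m → ℂ → ℂ} {c' : Fin m → ℂ → ℂ}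
    {s : Set ℂ} (h : ∀ i, TendstoUniformlyOn (fun n z => c n i z) (fun z => c' i z) l s) (j : ℕ) :
    TendstoUniformlyOn (fun n z => (Pol (c n) z).coeff j) (fun z => (Pol c' z).coeff j) l s := by
  rw [Metric.tendstoUniformlyOn_iff]
  intro ε hε
  have h1 : ∀ᶠ n in l, ∀ i : Fin m, ∀ z ∈ s, ‖c n i z - c' i z‖ < ε / (m + 1) := by
    rw [Filter.eventually_all]
    intro i
    filter_upwards [(Metric.tendstoUniformlyOn_iff.1 (h i)) (ε / (m + 1)) (by positivity)] with n hn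
      z hz
    have := hn z hz
    rwa [dist_comm, dist_eq_norm] at this
  filter_upwards [h1] with n hn z hz
  rw [dist_comm, dist_eq_norm]
  have h2 : (Pol (c n) z).coeff j - (Pol c' z).coeff j
      = ∑ i : Fin m, (c n i z - c' i z) * (if j = (i : ℕ) then 1 else 0) := by
    simp only [Pol, Polynomial.coeff_add, Polynomial.finsetSum_coeff, Polynomial.coeff_C_mul,
      Polynomial.coeff_X_pow]
    rw [add_sub_add_left_eq_sub, ← Finset.sum_sub_distrib]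
    refine Finset.sum_congr rfl fun i _ => ?_
    ring
  rw [h2]
  refine (norm_sum_le _ _).trans_lt ?_
  calc ∑ i : Fin m, ‖(c n i z - c' i z) * (if j = (i : ℕ) then 1 else 0)‖
      ≤ ∑ i : Fin m, ε / (m + 1) := by
        refine Finset.sum_le_sum fun i _ => ?_
        rw [norm_mul]
        have h3 : ‖(if j = (i : ℕ) then (1 : ℂ) else 0)‖ ≤ 1 := by split_ifs <;> simp
        have h4 := (hn i z hz).le
        calc _ ≤ ε / (m + 1) * 1 := mul_le_mul h4 h3 (norm_nonneg _) (by positivity)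
          _ = _ := mul_one _
    _ = m * (ε / (m + 1)) := by simp
    _ < ε := by
        rw [mul_div_assoc', div_lt_iff₀ (by positivity)]
        nlinarith

open Classical in
/-- a section of `pr` -/
noncomputable def sec (q : MN 1) : EN 1 := if h : ∃ x : EN 1, x ≠ 0 ∧ pr x = q then h.choose else 0

theorem sec_spec {x : EN 1} (hx : x ≠ 0) : sec (pr x) ≠ 0 ∧ pr (sec (pr x)) = pr x := by
  have h : ∃ x' : EN 1, x' ≠ 0 ∧ pr x' = pr x := ⟨x, hx, rfl⟩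
  rw [sec, dif_pos h]
  exact h.choose_spec

theorem tc_sec {b e x : EN 1} (hx : x ≠ 0) : tc b e (sec (pr x)) = tc b e x := by
  obtain ⟨h1, h2⟩ := sec_spec hx
  obtain ⟨c, hc, h3⟩ := (H62.EF.pr_eq_iff h1 hx).1 h2
  rw [h3, tc_smul b e x hc]

/-- the coordinates of the points near a lift -/
theorem tc_diff {b e : EN 1} {Φ : ℂ → EN 1} {z : ℂ} (hΦ : AnalyticAt ℂ Φ z) (h : dt b (Φ z) ≠ 0) :
    DifferentiableAt ℂ (fun z => tc b e (Φ z)) z := by
  have hcoord : ∀ i, DifferentiableAt ℂ (fun z => Φ z i) z := fun i =>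
    (differentiableAt_euclidean.1 hΦ.differentiableAt) i
  unfold tc dt
  refine DifferentiableAt.div ?_ ?_ h
  · exact ((hcoord 0).mul_const _).sub ((hcoord 1).mul_const _)
  · exact ((hcoord 1).const_mul _).sub ((hcoord 0).const_mul _)

section

variable {Λ : AddSubgroup (Vd (k + 1))} {D : Set (Vd (k + 1))} {Bad : Vd (k + 1) → Set (Vd (k + 1))} {θ : Fin (d + 1) → Vd (k + 1) → ℂ}
  {W : Fin r → Vd (k + 1) →L[ℂ] ℂ}

/-- the arcs near the hit -/
theorem LS.near {y a : Vd (k + 1)} {𝒰 : Ultrafilter ℕ} {w : ℕ → ℂ → EN 1} {h : ℕ → ℂ → Vd (k + 1)}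
    {g : ℂ → MN 1} (S : LS θ D y a 𝒰 w h g) (z₀ : ℂ) (R : ℝ) {ε : ℝ} (hε : 0 < ε) :
    ∀ᶠ n in (𝒰 : Filter ℕ), DifferentiableOn ℂ (fun z => h n (z₀ + z)) (ball 0 R) ∧
      DifferentiableOn ℂ (fun z => w n (z₀ + z)) (ball 0 R) ∧
      (∀ z ∈ ball (0 : ℂ) R, Fo θ (h n (z₀ + z)) (w n (z₀ + z)) ≠ 0) ∧
      ∀ z ∈ ball (0 : ℂ) R, ‖h n (z₀ + z) - (y + z₀ • a + z • a)‖ < ε := by
  have hm : ∀ z ∈ ball (0 : ℂ) R, z₀ + z ∈ ball (0 : ℂ) (‖z₀‖ + |R|) := by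
    intro z hz
    rw [mem_ball_zero_iff] at hz ⊢
    have h1 := norm_add_le z₀ z
    have h2 := le_abs_self R
    linarith
  filter_upwards [S.cv (‖z₀‖ + |R|), S.hh (‖z₀‖ + |R|) ε hε] with n h1 h2
  have hd : DifferentiableOn ℂ (fun z : ℂ => z₀ + z) (ball 0 R) := by fun_prop
  refine ⟨h1.h_diff.comp hd hm, h1.w_diff.comp hd hm, fun z hz => h1.ne _ (hm z hz), ?_⟩
  intro z hz
  have h3 := h2 _ (ball_subset_closedBall (hm z hz))
  rwa [add_smul, ← add_assoc] at h3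

/-- the radius -/
theorem exists_rad {a : Vd (k + 1)} {ρ₀ r₁ : ℝ} (h0 : 0 < ρ₀) (h1 : 0 < r₁) :
    ∃ ρ : ℝ, 0 < ρ ∧ ρ ≤ ρ₀ ∧ ∀ z : ℂ, ‖z‖ < 4 * ρ → ‖z • a‖ ≤ r₁ / 2 := by
  refine ⟨min ρ₀ (r₁ / (8 * (‖a‖ + 1))), lt_min h0 (by positivity), min_le_left _ _, ?_⟩
  intro z hz
  rw [norm_smul]
  have h2 : ‖z‖ ≤ 4 * (r₁ / (8 * (‖a‖ + 1))) :=
    hz.le.trans (mul_le_mul_of_nonneg_left (min_le_right _ _) (by norm_num))
  calc ‖z‖ * ‖a‖ ≤ 4 * (r₁ / (8 * (‖a‖ + 1))) * (‖a‖ + 1) :=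
        mul_le_mul h2 (by linarith) (norm_nonneg _) (by positivity)
    _ = r₁ / 2 := by field_simp; ring

/-- the form is not `0` at the hit -/
theorem PD.form_ne (P : PD Λ D Bad θ W) {y a : Vd (k + 1)} (ha : a ≠ 0) {𝒰 : Ultrafilter ℕ} {w : ℕ → ℂ → EN 1} {h : ℕ → ℂ → Vd (k + 1)} {g : ℂ → MN 1}
    (S : LS θ D y a 𝒰 w h g) {z₀ : ℂ} (hz₀ : y + z₀ • a ∈ D) (hb : y + z₀ • a ∉ Bad a) :
    ∃ i, θ i (y + z₀ • a) ≠ 0 := by
  rcases P.form a ha _ hb with h1 | ⟨-, h1⟩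
  · exact h1
  exfalso
  obtain ⟨s, hs, hsD, hsa⟩ := P.good a ha _ hz₀ hb
  obtain ⟨ρ₀, hρ₀, H⟩ := one_hit hs hsD hz₀ hsa
  obtain ⟨r₁, hr₁, h2⟩ := Metric.eventually_nhds_iff_ball.1 h1
  obtain ⟨ρ, hρ, hρρ₀, hρa⟩ := exists_rad (a := a) hρ₀ hr₁
  obtain ⟨ε, hε, H⟩ := H ρ hρ hρρ₀
  obtain ⟨n, hn1, -, hn3, hn4⟩ := (S.near z₀ (4 * ρ) (lt_min hε (half_pos hr₁))).exists
  obtain ⟨z₁, hz₁, hz₁D, -⟩ := H _ hn1 fun z hz => (hn4 z hz).trans_le (min_le_left _ _)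
  have hz₁b : z₁ ∈ ball (0 : ℂ) (4 * ρ) := mem_ball_zero_iff.2 (by linarith)
  have h3 : h n (z₀ + z₁) ∈ ball (y + z₀ • a) r₁ := by
    rw [mem_ball_iff_norm]
    have h4 := (hn4 z₁ hz₁b).trans_le (min_le_right _ _)
    have h5 := hρa z₁ (mem_ball_zero_iff.1 hz₁b)
    have h6 : h n (z₀ + z₁) - (y + z₀ • a)
        = (h n (z₀ + z₁) - (y + z₀ • a + z₁ • a)) + z₁ • a := by abel
    rw [h6]
    have := norm_add_le (h n (z₀ + z₁) - (y + z₀ • a + z₁ • a)) (z₁ • a)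
    linarith
  have h7 := h2 _ h3 hz₁D
  apply hn3 z₁ hz₁b
  simp [Fo, h7]

end

end Pool.Agent.PX

end
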