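import Pool.Agent.H94.PX2.M08
import Pool.Agent.H94.PX2.M19
import Pool.Agent.H94.PX2.M51

/-! The parts of this file: PX.Hit, PY.Lim. -/

section

/-!
# PX Hit: the limit root extends over all hits

Near `z₀` all points of the line except possibly `y + z₀ a` are off `D` (`iso`), so the functions `z ↦ θ i (y + z a)` are not all `0`: divide by `(z - z₀) ^ m`, `m` the minimal order; the form `F̃ z` obtained is not `0` at `z₀`; `b` with `F̃ z₀ b ≠ 0`, `e` with `dt b e = 1`: the roots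
are `t • b + e` with bounded `t`; `g z = pr (t z • b + e)`, `t` holomorphic on the punctured disc (`LLift`: `t = - dt e Φ / dt b Φ`) and bounded: it extends.
-/

set_option autoImplicit false

open Topology Filter Metric

namespace Pool.Agent.PX

open Pool.Agent.H36.BP (EN fs wd)
open Pool.Agent.H62.EF (MN pr)
open Pool.Agent.AD (Vd)
open Pool.Agent.TG (Lat)
open Pool.Agent.G3 (wt LLift)
open Pool.Agent.G4 (Few)

variable {k d r : ℕ}

variable {Λ : AddSubgroup (Vd (k + 1))} {D : Set (Vd (k + 1))} {Bad : Vd (k + 1) → Set (Vd (k + 1))} {θ : Fin (d + 1) → Vd (k + 1) → ℂ}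
  {W : Fin r → Vd (k + 1) →L[ℂ] ℂ}

/-- division of finitely many functions by a power of `z - z₀` -/
private theorem Hit_div {n : ℕ} {f : Fin n → ℂ → ℂ} {z₀ : ℂ} (hf : ∀ i, AnalyticAt ℂ (f i) z₀)
    (h0 : ∃ i, ¬ ∀ᶠ z in 𝓝 z₀, f i z = 0) : ∃ (m : ℕ) (F : Fin n → ℂ → ℂ), (∀ i, AnalyticAt ℂ (F i) z₀) ∧
    (∀ i, ∀ᶠ z in 𝓝 z₀, f i z = (z - z₀) ^ m * F i z) ∧ ∃ i, F i z₀ ≠ 0 := by
  obtain ⟨i₁, hi₁⟩ := h0
  obtain ⟨i₀, -, hmin⟩ := Finset.exists_min_image Finset.univ (fun i => analyticOrderAt (f i) z₀) ⟨i₁, Finset.mem_univ _⟩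
  have h1 : analyticOrderAt (f i₀) z₀ ≠ ⊤ := by
    intro h
    have h2 := hmin i₁ (Finset.mem_univ _)
    rw [h, top_le_iff, analyticOrderAt_eq_top] at h2
    exact hi₁ h2
  obtain ⟨m, hm⟩ := ENat.ne_top_iff_exists.1 h1
  have h2 : ∀ i, ∃ g : ℂ → ℂ, AnalyticAt ℂ g z₀ ∧ ∀ᶠ z in 𝓝 z₀, f i z = (z - z₀) ^ m • g z := by
    intro i
    have h3 := hmin i (Finset.mem_univ _)
    rw [← hm] at h3
    exact (natCast_le_analyticOrderAt (hf i)).1 h3
  choose F hF hFf using h2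
  refine ⟨m, F, hF, hFf, i₀, ?_⟩
  obtain ⟨g, hg, hg0, hgf⟩ := ((hf i₀).analyticOrderAt_eq_natCast).1 hm.symm
  have h4 : ∀ᶠ z in 𝓝[≠] z₀, F i₀ z = g z := by
    filter_upwards [(hFf i₀).filter_mono nhdsWithin_le_nhds, hgf.filter_mono nhdsWithin_le_nhds, self_mem_nhdsWithin] with z h5 h6 h7
    rw [h5, smul_eq_mul, smul_eq_mul] at h6
    exact mul_left_cancel₀ (pow_ne_zero m (sub_ne_zero.2 h7)) h6
  have h5 : F i₀ z₀ = g z₀ := by
    have h6 : Tendsto (F i₀) (𝓝[≠] z₀) (𝓝 (F i₀ z₀)) := (hF i₀).continuousAt.tendsto.mono_left nhdsWithin_le_nhds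
    have h7 : Tendsto (F i₀) (𝓝[≠] z₀) (𝓝 (g z₀)) := (hg.continuousAt.tendsto.mono_left nhdsWithin_le_nhds).congr' (h4.mono fun z hz => hz.symm)
    exact tendsto_nhds_unique h6 h7
  rw [h5]
  exact hg0

/-- a nonzero binary form is not zero at some `(s, 1)` -/
private theorem Hit_b {c : Fin (d + 1) → ℂ} (hc : ∃ i, c i ≠ 0) : ∃ s : ℂ, ∑ i : Fin (d + 1), c i * s ^ (i : ℕ) ≠ 0 := by
  by_contra h
  push Not at h
  obtain ⟨p, hp⟩ : ∃ p : Polynomial ℂ, p = ∑ i : Fin (d + 1), Polynomial.C (c i) * Polynomial.X ^ (i : ℕ) := ⟨_, rfl⟩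
  have h1 : p = 0 := by
    refine Polynomial.funext fun s => ?_
    rw [hp, Polynomial.eval_finsetSum, Polynomial.eval_zero]
    simpa using h s
  obtain ⟨i, hi⟩ := hc
  apply hi
  have h2 : p.coeff (i : ℕ) = c i := by
    rw [hp, Polynomial.finsetSum_coeff, Finset.sum_eq_single i]
    · rw [Polynomial.coeff_C_mul, Polynomial.coeff_X_pow, if_pos rfl, mul_one]
    · intro j _ hj
      rw [Polynomial.coeff_C_mul, Polynomial.coeff_X_pow, if_neg (fun h => hj (Fin.ext h.symm)), mul_zero]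
    · intro h
      exact absurd (Finset.mem_univ i) h
  rw [← h2, h1, Polynomial.coeff_zero]

theorem PD.any_hit (P : PD Λ D Bad θ W) {y a : Vd (k + 1)} (ha : a ≠ 0) {g : ℂ → MN 1} (hl : ∀ z : ℂ, y + z • a ∉ D → LLift g z) (hR : Rt θ D y a g) (z₀ : ℂ) :
    ∃ ρ : ℝ, 0 < ρ ∧ ∃ G : ℂ → EN 1, DifferentiableOn ℂ G (ball z₀ ρ) ∧ (∀ z ∈ ball z₀ ρ, G z ≠ 0 ∧ Fo θ (y + z • a) (G z) = 0) ∧ ∀ z ∈ ball z₀ ρ, z ≠ z₀ → g z = pr (G z) := by
  have hline : Differentiable ℂ fun z : ℂ => y + z • a := by fun_prop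
  -- the points of the line near `z₀` are off `D`
  have hoff : ∀ᶠ z in 𝓝[≠] z₀, y + z • a ∉ D := by
    have h1 := P.iso a ha (y + z₀ • a)
    have h2 : Tendsto (fun z : ℂ => z - z₀) (𝓝[≠] z₀) (𝓝[≠] 0) := by
      refine tendsto_nhdsWithin_iff.2 ⟨?_, ?_⟩
      · have h3 : Tendsto (fun z : ℂ => z - z₀) (𝓝 z₀) (𝓝 (z₀ - z₀)) := (continuous_id.sub continuous_const).tendsto z₀
        rw [sub_self] at h3
        exact h3.mono_left nhdsWithin_le_nhds
      · filter_upwards [self_mem_nhdsWithin] with z hz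
        exact sub_ne_zero.2 hz
    filter_upwards [h2.eventually h1] with z hz
    have h3 : y + z₀ • a + (z - z₀) • a = y + z • a := by
      rw [sub_smul]
      abel
    rw [h3] at hz
    exact hz
  have hfa : ∀ i, AnalyticAt ℂ (fun z : ℂ => θ i (y + z • a)) z₀ := fun i =>
    ((P.an i).comp hline).analyticAt z₀
  -- off `D` the form is not `0`
  have hnz : ∀ y' ∉ D, ∃ i, θ i y' ≠ 0 := by
    intro y' hy'
    by_contra h
    push Not at h
    have h0 : ∀ x, Fo θ y' x = 0 := by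
      intro x
      unfold Fo
      refine Finset.sum_eq_zero fun i _ => ?_
      rw [h i, zero_mul, zero_mul]
    obtain ⟨x, hx⟩ := exists_ne (0 : EN 1)
    obtain ⟨v, hv⟩ := P.simple y' hy' x hx (h0 x)
    apply hv
    unfold Fd
    have h1 : Fo θ y' = fun _ => 0 := funext h0
    rw [h1]
    simp
  obtain ⟨m, F, hF, hFf, i₀, hi₀⟩ := Hit_div (f := fun i z => θ i (y + z • a)) hfa (by
    by_contra h
    push Not at h
    have h1 : ∀ᶠ z in 𝓝[≠] z₀, ∀ i, θ i (y + z • a) = 0 :=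
      (Filter.eventually_all.2 h).filter_mono nhdsWithin_le_nhds
    obtain ⟨z, hz1, hz2⟩ := (h1.and hoff).exists
    obtain ⟨i, hi⟩ := hnz _ hz2
    exact hi (hz1 i))
  obtain ⟨s, hs⟩ := Hit_b (d := d) (c := fun i => F i z₀) ⟨i₀, hi₀⟩
  obtain ⟨b, hb⟩ : ∃ b : EN 1, b = WithLp.toLp 2 ![s, 1] := ⟨_, rfl⟩
  obtain ⟨e, he⟩ : ∃ e : EN 1, e = WithLp.toLp 2 ![-1, 0] := ⟨_, rfl⟩
  have hb0 : b 0 = s := by rw [hb]; rfl
  have hb1 : b 1 = 1 := by rw [hb]; rfl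
  have he0 : e 0 = -1 := by rw [he]; rfl
  have he1 : e 1 = 0 := by rw [he]; rfl
  have hbe : dt b e = 1 := by
    unfold dt
    rw [hb0, hb1, he0, he1]
    ring
  -- the divided form
  obtain ⟨Φ, hΦ⟩ : ∃ Φ : ℂ → Fin (d + 1) → Vd (k + 1) → ℂ, Φ = fun z i _ => F i z := ⟨_, rfl⟩
  have hΦe : ∀ z x, Fo (Φ z) 0 x = ∑ i : Fin (d + 1), F i z * x 0 ^ (i : ℕ) * x 1 ^ (d - (i : ℕ)) := by
    intro z x
    rw [hΦ]
    rfl
  have hΦb : Fo (Φ z₀) 0 b ≠ 0 := by
    rw [hΦe, hb0, hb1]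
    simpa using hs
  have hFo : ∀ᶠ z in 𝓝 z₀, ∀ x, Fo θ (y + z • a) x = (z - z₀) ^ m * Fo (Φ z) 0 x := by
    filter_upwards [Filter.eventually_all.2 hFf] with z hz x
    rw [hΦe, Finset.mul_sum]
    unfold Fo
    refine Finset.sum_congr rfl fun i _ => ?_
    rw [hz i]
    ring
  -- continuity of the divided form at `(z₀, b)`
  have hcont : ContinuousAt (fun p : ℂ × EN 1 => Fo (Φ p.1) 0 p.2) (z₀, b) := by
    have h1 : (fun p : ℂ × EN 1 => Fo (Φ p.1) 0 p.2) = fun p => ∑ i : Fin (d + 1), F i p.1 * p.2 0 ^ (i : ℕ) * p.2 1 ^ (d - (i : ℕ)) := by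
      funext p
      exact hΦe _ _
    rw [h1]
    refine tendsto_finsetSum _ fun i _ => ?_
    have h2 : ContinuousAt (fun p : ℂ × EN 1 => F i p.1) (z₀, b) :=
      ContinuousAt.comp (g := F i) (f := Prod.fst) (hF i).continuousAt continuousAt_fst
    have h3 : ContinuousAt (fun p : ℂ × EN 1 => p.2 0 ^ (i : ℕ)) (z₀, b) := by fun_prop
    have h4 : ContinuousAt (fun p : ℂ × EN 1 => p.2 1 ^ (d - (i : ℕ))) (z₀, b) := by fun_prop
    exact (h2.mul h3).mul h4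
  obtain ⟨η, hη, hne⟩ := Metric.eventually_nhds_iff.1 (hcont.eventually_ne hΦb)
  obtain ⟨ρ₁, hρ₁, h₁⟩ := Metric.eventually_nhds_iff.1 hFo
  obtain ⟨ρ₂, hρ₂, h₂⟩ := Metric.mem_nhdsWithin_iff.1 hoff
  obtain ⟨ρ, hρ⟩ : ∃ ρ : ℝ, ρ = min η (min ρ₁ ρ₂) := ⟨_, rfl⟩
  have hρ0 : 0 < ρ := by
    rw [hρ]
    exact lt_min hη (lt_min hρ₁ hρ₂)
  have hρη : ρ ≤ η := by rw [hρ]; exact min_le_left _ _
  have hρ1 : ρ ≤ ρ₁ := by rw [hρ]; exact (min_le_right _ _).trans (min_le_left _ _)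
  have hρ2 : ρ ≤ ρ₂ := by rw [hρ]; exact (min_le_right _ _).trans (min_le_right _ _)
  have hD : ∀ z ∈ ball z₀ ρ, z ≠ z₀ → y + z • a ∉ D := fun z hz hz' =>
    h₂ ⟨ball_subset_ball hρ2 hz, hz'⟩
  have hFz : ∀ z ∈ ball z₀ ρ, ∀ x, Fo θ (y + z • a) x = (z - z₀) ^ m * Fo (Φ z) 0 x := fun z hz =>
    h₁ (lt_of_lt_of_le (mem_ball.1 hz) hρ1)
  have hnez : ∀ z ∈ ball z₀ ρ, ∀ x : EN 1, dist x b < η → Fo (Φ z) 0 x ≠ 0 := by
    intro z hz x hx
    refine hne (y := ((z, x) : ℂ × EN 1)) ?_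
    rw [Prod.dist_eq]
    exact max_lt (lt_of_lt_of_le (mem_ball.1 hz) hρη) hx
  -- the roots at the points of the punctured disc
  have hroot : ∀ z ∈ ball z₀ ρ, z ≠ z₀ → ∀ x : EN 1, x ≠ 0 → Fo θ (y + z • a) x = 0 →
      dt b x ≠ 0 ∧ x = (dt b x) • ((-(dt e x) / dt b x) • b + e) ∧ ‖-(dt e x) / dt b x‖ ≤ ‖e‖ / η := by
    intro z hz hz' x hx h
    have hp : (z - z₀) ^ m ≠ 0 := pow_ne_zero m (sub_ne_zero.2 hz')
    have h3 : Fo (Φ z) 0 x = 0 := by
      rw [hFz z hz x] at h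
      exact (mul_eq_zero.1 h).resolve_left hp
    have h4 := rt_dt (θ := Φ z) (y := 0) (b := b) (e := e) (x := x) (by rw [hbe]; exact one_ne_zero)
      (hnez z hz b (by rw [dist_self]; exact hη)) hx h3
    rw [hbe, div_one] at h4
    refine ⟨h4.1, h4.2, ?_⟩
    obtain ⟨T, hT⟩ : ∃ T : ℂ, T = -(dt e x) / dt b x := ⟨_, rfl⟩
    have h4' := h4.2
    rw [← hT] at h4' ⊢
    by_contra h5
    push Not at h5
    have hT0 : T ≠ 0 := by
      intro h6
      rw [h6, norm_zero] at h5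
      have : 0 ≤ ‖e‖ / η := by positivity
      linarith
    have hTn : 0 < ‖T‖ := norm_pos_iff.2 hT0
    have h6 : Fo (Φ z) 0 (b + T⁻¹ • e) ≠ 0 := by
      refine hnez z hz _ ?_
      rw [dist_eq_norm, add_sub_cancel_left, norm_smul, norm_inv, inv_mul_lt_iff₀ hTn]
      rwa [div_lt_iff₀ hη] at h5
    apply h6
    have h7 : x = (dt b x * T) • (b + T⁻¹ • e) := by
      conv_lhs => rw [h4']
      rw [mul_smul, smul_add T, smul_smul T, mul_inv_cancel₀ hT0, one_smul]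
    rw [h7, fo_smul] at h3
    exact (mul_eq_zero.1 h3).resolve_left (pow_ne_zero d (mul_ne_zero h4.1 hT0))
  -- the function `T`
  have hex : ∀ z : ℂ, ∃ T : ℂ, ∀ x : EN 1, x ≠ 0 → pr x = g z → T = -(dt e x) / dt b x := by
    intro z
    by_cases h : ∃ x : EN 1, x ≠ 0 ∧ pr x = g z
    · obtain ⟨x, hx, hxg⟩ := h
      refine ⟨-(dt e x) / dt b x, fun x' hx' hx'g => ?_⟩
      obtain ⟨c, hc, h1⟩ := (Pool.Agent.H62.EF.pr_eq_iff hx' hx).1 (hx'g.trans hxg.symm)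
      have h2 : ∀ v : EN 1, dt v x' = c * dt v x := by
        intro v
        rw [h1]
        unfold dt
        simp only [PiLp.smul_apply, smul_eq_mul]
        ring
      rw [h2 e, h2 b, ← mul_neg, mul_div_mul_left _ _ hc]
    · exact ⟨0, fun x hx hxg => absurd ⟨x, hx, hxg⟩ h⟩
  choose T hT using hex
  -- the properties of `T` on the punctured disc
  have hrep : ∀ z ∈ ball z₀ ρ, z ≠ z₀ → ∃ x : EN 1, x ≠ 0 ∧ pr x = g z := by
    intro z hz hz'
    obtain ⟨φ, -, h1⟩ := hl z (hD z hz hz')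
    obtain ⟨h2, h3⟩ := h1.self_of_nhds
    exact ⟨φ z, h2, h3.symm⟩
  have hTr : ∀ z ∈ ball z₀ ρ, z ≠ z₀ → ‖T z‖ ≤ ‖e‖ / η ∧ g z = pr (T z • b + e) := by
    intro z hz hz'
    obtain ⟨x, hx, hxg⟩ := hrep z hz hz'
    obtain ⟨h1, h2, h3⟩ := hroot z hz hz' x hx (hR z (hD z hz hz') x hx hxg)
    rw [hT z x hx hxg]
    refine ⟨h3, ?_⟩
    rw [← hxg]
    conv_lhs => rw [h2]
    exact Pool.Agent.H62.EF.pr_smul _ h1
  have hdiff : DifferentiableOn ℂ T (ball z₀ ρ \ {z₀}) := by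
    rintro z ⟨hz, hz'⟩
    have hz'' : z ≠ z₀ := hz'
    obtain ⟨φ, hφ, h1⟩ := hl z (hD z hz hz'')
    obtain ⟨h2, h3⟩ := h1.self_of_nhds
    have hφ0 : AnalyticAt ℂ (fun w => φ w 0) z := by
      have : AnalyticAt ℂ (fun w => (EuclideanSpace.proj (0 : Fin 2) : EN 1 →L[ℂ] ℂ) (φ w)) z :=
        (ContinuousLinearMap.analyticAt _ _).comp hφ
      exact this
    have hφ1 : AnalyticAt ℂ (fun w => φ w 1) z := by
      have : AnalyticAt ℂ (fun w => (EuclideanSpace.proj (1 : Fin 2) : EN 1 →L[ℂ] ℂ) (φ w)) z :=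
        (ContinuousLinearMap.analyticAt _ _).comp hφ
      exact this
    have hdt : ∀ v : EN 1, AnalyticAt ℂ (fun w => dt v (φ w)) z := by
      intro v
      unfold dt
      exact (analyticAt_const.mul hφ1).sub (analyticAt_const.mul hφ0)
    have hb' : dt b (φ z) ≠ 0 := (hroot z hz hz'' (φ z) h2 (hR z (hD z hz hz'') (φ z) h2 h3.symm)).1
    have h4 : AnalyticAt ℂ (fun w => -(dt e (φ w)) / dt b (φ w)) z := (hdt e).neg.div (hdt b) hb'
    have h5 : T =ᶠ[𝓝 z] fun w => -(dt e (φ w)) / dt b (φ w) := by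
      filter_upwards [h1] with w hw
      exact hT w (φ w) hw.1 hw.2.symm
    exact (h4.differentiableAt.congr_of_eventuallyEq h5).differentiableWithinAt
  have hbdd : BddAbove (norm ∘ T '' (ball z₀ ρ \ {z₀})) := by
    refine ⟨‖e‖ / η, ?_⟩
    rintro _ ⟨z, hz, rfl⟩
    exact (hTr z hz.1 hz.2).1
  have hext := Complex.differentiableOn_update_limUnder_of_bddAbove (ball_mem_nhds z₀ hρ0) hdiff hbdd
  obtain ⟨T', hT'⟩ : ∃ T' : ℂ → ℂ, T' = Function.update T z₀ (limUnder (𝓝[≠] z₀) T) := ⟨_, rfl⟩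
  rw [← hT'] at hext
  have hTT : ∀ z, z ≠ z₀ → T' z = T z := by
    intro z hz
    rw [hT', Function.update_of_ne hz]
  have hGd : DifferentiableOn ℂ (fun z => T' z • b + e) (ball z₀ ρ) :=
    (hext.smul_const b).add_const e
  have hGn : ∀ z, T' z • b + e ≠ 0 := by
    intro z h
    have h1 : dt b (T' z • b + e) = 1 := by
      rw [← hbe]
      unfold dt
      simp only [PiLp.add_apply, PiLp.smul_apply, smul_eq_mul]
      ring
    rw [h] at h1
    unfold dt at h1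
    simp at h1
  have hGp : ∀ z ∈ ball z₀ ρ, z ≠ z₀ → g z = pr (T' z • b + e) := by
    intro z hz hz'
    rw [hTT z hz']
    exact (hTr z hz hz').2
  have hG0 : ∀ z ∈ ball z₀ ρ, z ≠ z₀ → Fo θ (y + z • a) (T' z • b + e) = 0 := fun z hz hz' =>
    hR z (hD z hz hz') _ (hGn z) (hGp z hz hz').symm
  refine ⟨ρ, hρ0, fun z => T' z • b + e, hGd, fun z hz => ⟨hGn z, ?_⟩, hGp⟩
  by_cases hz' : z = z₀
  · have hA : ContinuousAt (fun z : ℂ => T' z • b + e) z₀ :=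
      ((hGd z₀ (mem_ball_self hρ0)).differentiableAt (ball_mem_nhds z₀ hρ0)).continuousAt
    have hB : ContinuousAt (fun z : ℂ => y + z • a) z₀ := hline.continuous.continuousAt
    have hC := (fo_diff P.an).continuous.tendsto (y + z₀ • a, T' z₀ • b + e)
    have hP : Tendsto (fun z : ℂ => ((y + z • a, T' z • b + e) : Vd (k + 1) × EN 1)) (𝓝 z₀) (𝓝 (y + z₀ • a, T' z₀ • b + e)) :=
      ContinuousAt.prodMk hB hA
    have hcc := hC.comp hP
    have hc : Tendsto (fun z : ℂ => Fo θ (y + z • a) (T' z • b + e)) (𝓝 z₀) (𝓝 (Fo θ (y + z₀ • a) (T' z₀ • b + e))) := hcc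
    have h2 : Tendsto (fun z : ℂ => Fo θ (y + z • a) (T' z • b + e)) (𝓝[≠] z₀) (𝓝 0) := by
      refine tendsto_const_nhds.congr' ?_
      have h3 : ∀ᶠ z in 𝓝[≠] z₀, z ∈ ball z₀ ρ := mem_nhdsWithin_of_mem_nhds (ball_mem_nhds z₀ hρ0)
      filter_upwards [h3, self_mem_nhdsWithin] with z hz hz'
      exact (hG0 z hz hz').symm
    rw [hz']
    exact tendsto_nhds_unique (hc.mono_left nhdsWithin_le_nhds) h2
  · exact hG0 z hz hz'

end Pool.Agent.PX

end

section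

/-!
# PY Lim: limits of curves on lines

`exists_ls`: `G3.ult` for `U = {z | y + z • a ∉ D}` (open; complement closed discrete by `iso`), equicontinuity from `lip` (`‖deriv (h n)‖` is bounded by Cauchy: `hh`), as in `G3/P/Cls` (`closed_arcs`).
`ls_rt`: Hurwitz on the connected open set `U` (the complement of a closed countable set in `ℂ` is connected): locally `Fo θ (h n z) (φ n z)`, `φ n` lifts without zero, converges to `Fo θ (y + z a) (φ z)`.
-/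

set_option autoImplicit false

open Topology Filter Metric

namespace Pool.Agent.PY

open Pool.Agent.H36.BP (EN fs wd)
open Pool.Agent.H62.EF (MN pr)
open Pool.Agent.AD (Vd)
open Pool.Agent.TG (Lat Gd)
open Pool.Agent.G3 (wt LLift)
open Pool.Agent.PX

variable {k d r : ℕ}

variable {Λ : AddSubgroup (Vd (k + 1))} {D : Set (Vd (k + 1))} {θ : Fin (d + 1) → Vd (k + 1) → ℂ}
  {W : Fin r → Vd (k + 1) →L[ℂ] ℂ}

/-- a point outside of the closed set `D` has positive distance from `D` -/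
theorem Lim_gd {D : Set (Vd (k + 1))} (hD : IsClosed D) {y : Vd (k + 1)} (hy : y ∉ D) : ∃ δ : ℝ, 0 < δ ∧ y ∈ Gd D δ := by
  have h1 : Dᶜ ∈ 𝓝 y := hD.isOpen_compl.mem_nhds hy
  obtain ⟨δ, hδ, h⟩ := Metric.mem_nhds_iff.mp h1
  refine ⟨δ, hδ, fun b hb => ?_⟩
  by_contra hlt
  push Not at hlt
  have hb' : b ∈ ball y δ := by
    rw [mem_ball, dist_comm, dist_eq_norm]
    exact hlt
  exact h hb' hb

/-- Cauchy's estimate for the derivatives -/
theorem Lim_deriv {g : ℂ → Vd (k + 1)} {y a : Vd (k + 1)} {r ε : ℝ} {V : Set ℂ} (hV : IsOpen V) (hr : closedBall (0 : ℂ) (r + 1) ⊆ V)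
    (hg : DifferentiableOn ℂ g V) (hε : ∀ z ∈ closedBall (0 : ℂ) (r + 1), ‖g z - (y + z • a)‖ < ε) {z : ℂ} (hz : z ∈ closedBall (0 : ℂ) r) :
    ‖deriv g z‖ ≤ ε + ‖a‖ := by
  have hH : Differentiable ℂ fun z : ℂ => y + z • a := by fun_prop
  have hsub : closedBall z 1 ⊆ closedBall (0 : ℂ) (r + 1) := by
    refine closedBall_subset_closedBall' ?_
    have := mem_closedBall.mp hz
    linarith
  have hgd : DifferentiableOn ℂ g (closedBall z 1) := hg.mono (hsub.trans hr)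
  have hd : DiffContOnCl ℂ (fun w => g w - (y + w • a)) (ball z 1) := by
    have h1 : DifferentiableOn ℂ (fun w => g w - (y + w • a)) (closedBall z 1) := hgd.sub hH.differentiableOn
    have h2 : DifferentiableOn ℂ (fun w => g w - (y + w • a)) (closure (ball z 1)) := h1.mono closure_ball_subset_closedBall
    exact h2.diffContOnCl
  have h1 := Complex.norm_deriv_le_of_forall_mem_sphere_norm_le (c := z) one_pos hd (C := ε) fun w hw =>
    (hε w (hsub (sphere_subset_closedBall hw))).le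
  have hgz : DifferentiableAt ℂ g z := hg.differentiableAt (hV.mem_nhds (hr (hsub (mem_closedBall_self zero_le_one))))
  have hHz : deriv (fun z : ℂ => y + z • a) z = a := by
    have h2 : HasDerivAt (fun z : ℂ => y + z • a) ((1 : ℂ) • a) z := ((hasDerivAt_id z).smul_const a).const_add y
    rw [h2.deriv, one_smul]
  rw [deriv_fun_sub hgz (hH z), div_one, hHz] at h1
  have h3 := norm_add_le (deriv g z - a) a
  rw [sub_add_cancel] at h3
  linarith

private theorem Lim_countable (P : PE Λ D θ W) {a : Vd (k + 1)} (ha : a ≠ 0) (y : Vd (k + 1)) : {z : ℂ | y + z • a ∈ D}.Countable := by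
  have h : ∀ z ∈ {z : ℂ | y + z • a ∈ D}, ∀ᶠ w in 𝓝[≠] z, w ∉ {z : ℂ | y + z • a ∈ D} := by
    intro z _
    have h1 := P.iso a ha (y + z • a)
    rw [eventually_nhdsWithin_iff, Metric.eventually_nhds_iff] at h1 ⊢
    obtain ⟨ε, hε, h1⟩ := h1
    refine ⟨ε, hε, fun w hw hwz => ?_⟩
    have h2 : w - z ∈ ({0}ᶜ : Set ℂ) := fun h3 => hwz (sub_eq_zero.1 h3)
    have h3 := @h1 (w - z) (by rwa [dist_zero_right, ← dist_eq_norm]) h2
    intro h4
    refine h3 ?_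
    have h5 : y + z • a + (w - z) • a = y + w • a := by rw [sub_smul]; abel
    rw [h5]
    exact h4
  have hd : DiscreteTopology {z : ℂ | y + z • a ∈ D} := by
    rw [discreteTopology_subtype_iff]
    intro z hz
    rw [Filter.inf_principal_eq_bot]
    exact h z hz
  rw [← Set.countable_coe_iff]
  exact countable_of_Lindelof_of_discrete

private theorem Lim_tend (hF : Continuous fun p : Vd (k + 1) × EN 1 => Fo θ p.1 p.2) {l : Filter ℕ} {f : ℕ → Vd (k + 1)} {g : ℕ → EN 1}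
    {p : Vd (k + 1)} {q : EN 1} (hf : Tendsto f l (𝓝 p)) (hg : Tendsto g l (𝓝 q)) : Tendsto (fun n => Fo θ (f n) (g n)) l (𝓝 (Fo θ p q)) := by
  have h1 : Tendsto (fun n => (f n, g n)) l (𝓝 (p, q)) := hf.prodMk_nhds hg
  have h2 := (hF.tendsto (p, q)).comp h1
  exact h2

private theorem Lim_dich {U : Set ℂ} (hU : IsPreconnected U) {p : ℂ → Prop}
    (h : ∀ z₀ ∈ U, ∃ r : ℝ, 0 < r ∧ ((∀ z ∈ ball z₀ r, p z) ∨ ∀ z ∈ ball z₀ r, ¬ p z)) {z₀ : ℂ} (hz₀ : z₀ ∈ U) (hp₀ : p z₀) : ∀ z ∈ U, p z := by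
  set V : Set ℂ := {z | ∀ᶠ w in 𝓝 z, p w} with hV
  have hVo : IsOpen V := by
    rw [isOpen_iff_mem_nhds]
    intro z hz
    exact hz.eventually_nhds
  have hpV : ∀ z ∈ U, p z → z ∈ V := by
    intro z hz hp
    obtain ⟨r, hr, h1 | h1⟩ := h z hz
    · exact Filter.eventually_of_mem (isOpen_ball.mem_nhds (mem_ball_self hr)) h1
    · exact absurd hp (h1 z (mem_ball_self hr))
  have hsub : U ⊆ V := by
    refine hU.subset_of_closure_inter_subset hVo ⟨z₀, hz₀, hpV z₀ hz₀ hp₀⟩ ?_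
    rintro z ⟨hzc, hz⟩
    obtain ⟨r, hr, h1 | h1⟩ := h z hz
    · exact hpV z hz (h1 z (mem_ball_self hr))
    · obtain ⟨w, hw1, hw2⟩ := _root_.mem_closure_iff.1 hzc (ball z r) isOpen_ball (mem_ball_self hr)
      exact absurd hw2.self_of_nhds (h1 w hw1)
  exact fun z hz => (hsub hz : z ∈ V).self_of_nhds

theorem PE.ls_rt (P : PE Λ D θ W) {y a : Vd (k + 1)} (ha : a ≠ 0) {𝒰 : Ultrafilter ℕ} {w : ℕ → ℂ → EN 1} {h : ℕ → ℂ → Vd (k + 1)} {g : ℂ → MN 1}
    (S : LS θ D y a 𝒰 w h g) {z₀ : ℂ} (hz₀ : y + z₀ • a ∉ D) {x : EN 1} (hx : x ≠ 0) (hxg : pr x = g z₀) (h0 : Fo θ (y + z₀ • a) x = 0) : Rt θ D y a g := by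
  classical
  have hd1 : 1 ≤ d := le_trans (by norm_num) P.deg
  have hHc : Continuous fun z : ℂ => y + z • a := by fun_prop
  have hHd : Differentiable ℂ fun z : ℂ => y + z • a := by fun_prop
  have hUo : IsOpen {z : ℂ | y + z • a ∉ D} := P.D_closed.isOpen_compl.preimage hHc
  have hUc : IsPreconnected {z : ℂ | y + z • a ∉ D} :=
    (Set.Countable.isConnected_compl_of_one_lt_rank (E := ℂ) (by rw [Complex.rank_real_complex]; exact_mod_cast one_lt_two)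
      (Lim_countable P ha y)).isPreconnected
  have hF : Differentiable ℂ fun p : Vd (k + 1) × EN 1 => Fo θ p.1 p.2 := fo_diff P.an
  have hcd : ∀ {U : Set ℂ} {f : ℂ → Vd (k + 1)} {g : ℂ → EN 1}, DifferentiableOn ℂ f U → DifferentiableOn ℂ g U →
      DifferentiableOn ℂ (fun z => Fo θ (f z) (g z)) U := by
    intro U f g hf hg
    obtain ⟨Φ, hΦ⟩ : ∃ Φ : Vd (k + 1) × EN 1 → ℂ, Φ = fun p => Fo θ p.1 p.2 := ⟨_, rfl⟩
    have hF' := hF
    rw [← hΦ] at hF'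
    have e : (fun z => Fo θ (f z) (g z)) = fun z => Φ (f z, g z) := by rw [hΦ]
    rw [e]
    have h1 : DifferentiableOn ℂ (fun z => (f z, g z)) U := hf.prodMk hg
    exact hF'.comp_differentiableOn h1
  -- two lifts of the same line
  have hpr : ∀ (z : ℂ) {v x : EN 1}, v ≠ 0 → x ≠ 0 → pr x = pr v → Fo θ (y + z • a) v = 0 → Fo θ (y + z • a) x = 0 := by
    intro z v x hv hx hxv hF0
    obtain ⟨c, -, hc⟩ := (Pool.Agent.H62.EF.pr_eq_iff hx hv).mp hxv
    rw [hc, fo_smul, hF0, mul_zero]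
  have hgcont : ∀ z : ℂ, y + z • a ∉ D → ContinuousAt g z := by
    intro z hz
    obtain ⟨Φ, hΦ, hΦe⟩ := S.lift z hz
    have h1 : ContinuousAt (fun v => pr (Φ v)) z := (Pool.Agent.H62.EF.continuousAt_pr hΦe.self_of_nhds.1).comp hΦ.continuousAt
    exact h1.congr (hΦe.mono fun v hv => hv.2.symm)
  refine Lim_dich hUc (p := fun z => ∀ x : EN 1, x ≠ 0 → pr x = g z → Fo θ (y + z • a) x = 0) ?_ hz₀ ?_
  swap
  · intro x' hx' hxg'
    exact hpr z₀ hx hx' (hxg'.trans hxg.symm) h0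
  intro z₁ hz₁
  obtain ⟨Φ, hΦ, hΦe⟩ := S.lift z₁ hz₁
  obtain ⟨v, hv⟩ : ∃ v, v = Φ z₁ := ⟨_, rfl⟩
  have hv0 : v ≠ 0 := by rw [hv]; exact hΦe.self_of_nhds.1
  have hin : ∀ᶠ z in 𝓝 z₁, (inner ℂ v (Φ z) : ℂ) ≠ 0 := by
    have h1 : ContinuousAt (fun z => (inner ℂ v (Φ z) : ℂ)) z₁ := continuousAt_const.inner hΦ.continuousAt
    refine h1.eventually_ne ?_
    rw [← hv]
    exact inner_self_ne_zero.2 hv0
  have hUe : ∀ᶠ z in 𝓝 z₁, y + z • a ∉ D := hUo.mem_nhds hz₁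
  obtain ⟨r₀, hr₀, hr⟩ := Metric.eventually_nhds_iff_ball.1 ((hΦe.and hin).and (hUe.and hΦ.eventually_analyticAt))
  obtain ⟨r, hrdef⟩ : ∃ r : ℝ, r = r₀ / 2 := ⟨_, rfl⟩
  have hr0 : 0 < r := by rw [hrdef]; positivity
  have hKr : closedBall z₁ r ⊆ ball z₁ r₀ := closedBall_subset_ball (by rw [hrdef]; linarith)
  have hbr : ball z₁ r ⊆ closedBall z₁ r := ball_subset_closedBall
  have hK : IsCompact (closedBall z₁ r) := isCompact_closedBall _ _
  have hgpr : ∀ z ∈ closedBall z₁ r, Φ z ≠ 0 ∧ g z = pr (Φ z) ∧ (inner ℂ v (Φ z) : ℂ) ≠ 0 ∧ y + z • a ∉ D := fun z hz =>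
    ⟨(hr z (hKr hz)).1.1.1, (hr z (hKr hz)).1.1.2, (hr z (hKr hz)).1.2, (hr z (hKr hz)).2.1⟩
  have hnv : ∀ z ∈ closedBall z₁ r, Pool.Agent.G3.C.nv v (g z) = (inner ℂ v (Φ z) : ℂ)⁻¹ • Φ z := by
    intro z hz
    rw [(hgpr z hz).2.1, Pool.Agent.G3.C.nv_pr (hgpr z hz).2.2.1]
  have hnd : ∀ z ∈ closedBall z₁ r, Pool.Agent.G3.C.nd v (g z) ≠ 0 := by
    intro z hz
    rw [(hgpr z hz).2.1]
    exact (Pool.Agent.G3.C.nd_pr_ne (hgpr z hz).1).2 (hgpr z hz).2.2.1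
  -- the curves near `z₁`
  obtain ⟨ε, hε, hεs⟩ : ∃ ε : ℝ, 0 < ε ∧ thickening ε (g '' closedBall z₁ r) ⊆ {m : MN 1 | Pool.Agent.G3.C.nd v m ≠ 0} := by
    refine (hK.image_of_continuousOn fun z hz => (hgcont z (hgpr z hz).2.2.2).continuousWithinAt).exists_thickening_subset_open
      (isOpen_ne.preimage (Pool.Agent.G3.C.nd_cont v)) ?_
    rintro m ⟨z, hz, rfl⟩
    exact hnd z hz
  have hcurve : ∀ᶠ n in (𝒰 : Filter ℕ), Cp θ (ball z₁ r) (w n) (h n) := by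
    filter_upwards [S.cv (‖z₁‖ + r)] with n hn
    refine hn.mono fun z hz => ?_
    rw [mem_ball, dist_zero_right]
    have h1 : dist z z₁ < r := mem_ball.mp hz
    have h2 := norm_le_norm_add_norm_sub' z z₁
    rw [← dist_eq_norm] at h2
    linarith
  have hin2 : ∀ᶠ n in (𝒰 : Filter ℕ), ∀ z ∈ ball z₁ r, w n z ≠ 0 ∧ (inner ℂ v (w n z) : ℂ) ≠ 0 := by
    filter_upwards [hcurve, S.lim (closedBall z₁ r) hK (fun z hz => (hgpr z hz).2.2.2) ε hε] with n h1 h2 z hz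
    have h3 : w n z ≠ 0 := h1.w_ne hd1 hz
    refine ⟨h3, (Pool.Agent.G3.C.nd_pr_ne h3).1 (hεs ?_)⟩
    rw [mem_thickening_iff]
    exact ⟨g z, ⟨z, hbr hz, rfl⟩, h2 z (hbr hz)⟩
  have hkey := Pool.Agent.H62.Log.hurwitz 𝒰 (a := z₁) (r := r) (φ := fun n z => Fo θ (h n z) (Pool.Agent.G3.C.nv v (pr (w n z))))
    (ψ := fun z => Fo θ (y + z • a) (Pool.Agent.G3.C.nv v (g z))) ?_ ?_ ?_ ?_
  · refine ⟨r, hr0, ?_⟩
    rcases hkey with hk | hk
    · left
      intro z hz x' hx' hxg'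
      have h1 : Fo θ (y + z • a) (Pool.Agent.G3.C.nv v (g z)) = 0 := hk z hz
      rw [hnv z (hbr hz)] at h1
      refine hpr z (smul_ne_zero (inv_ne_zero (hgpr z (hbr hz)).2.2.1) (hgpr z (hbr hz)).1) hx' ?_ h1
      rw [Pool.Agent.H62.EF.pr_smul _ (inv_ne_zero (hgpr z (hbr hz)).2.2.1), hxg', (hgpr z (hbr hz)).2.1]
    · right
      intro z hz hp
      refine hk z hz ?_
      show Fo θ (y + z • a) (Pool.Agent.G3.C.nv v (g z)) = 0
      rw [hnv z (hbr hz)]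
      refine hp _ (smul_ne_zero (inv_ne_zero (hgpr z (hbr hz)).2.2.1) (hgpr z (hbr hz)).1) ?_
      rw [Pool.Agent.H62.EF.pr_smul _ (inv_ne_zero (hgpr z (hbr hz)).2.2.1), (hgpr z (hbr hz)).2.1]
  · filter_upwards [hcurve, hin2] with n h1 h2
    have h4 : DifferentiableOn ℂ (fun z => (inner ℂ v (w n z) : ℂ)) (ball z₁ r) := (innerSL ℂ v).differentiable.comp_differentiableOn h1.w_diff
    have h5 : DifferentiableOn ℂ (fun z => (inner ℂ v (w n z) : ℂ)⁻¹ • w n z) (ball z₁ r) := (h4.inv fun z hz => (h2 z hz).2).smul h1.w_diff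
    have h6 : DifferentiableOn ℂ (fun z => Fo θ (h n z) ((inner ℂ v (w n z) : ℂ)⁻¹ • w n z)) (ball z₁ r) :=
      hcd h1.h_diff h5
    exact h6.congr fun z hz => by simp only [Pool.Agent.G3.C.nv_pr (h2 z hz).2]
  · filter_upwards [hcurve, hin2] with n h1 h2 z hz
    simp only [Pool.Agent.G3.C.nv_pr (h2 z hz).2]
    rw [fo_smul]
    exact mul_ne_zero (pow_ne_zero _ (inv_ne_zero (h2 z hz).2)) (h1.ne z hz)
  · have h3 : DifferentiableOn ℂ Φ (ball z₁ r) := fun z hz => (hr z (hKr (hbr hz))).2.2.differentiableAt.differentiableWithinAt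
    have h4 : DifferentiableOn ℂ (fun z => (inner ℂ v (Φ z) : ℂ)) (ball z₁ r) := (innerSL ℂ v).differentiable.comp_differentiableOn h3
    have h5 : DifferentiableOn ℂ (fun z => (inner ℂ v (Φ z) : ℂ)⁻¹ • Φ z) (ball z₁ r) := (h4.inv fun z hz => (hgpr z (hbr hz)).2.2.1).smul h3
    have h6 : DifferentiableOn ℂ (fun z : ℂ => Fo θ (y + z • a) ((inner ℂ v (Φ z) : ℂ)⁻¹ • Φ z)) (ball z₁ r) :=
      hcd (hHd.differentiableOn (s := ball z₁ r)) h5
    exact h6.congr fun z hz => by simp only [hnv z (hbr hz)]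
  · intro zs z' hz' hzs
    have hbn : ∀ᶠ n in (𝒰 : Filter ℕ), zs n ∈ ball z₁ r := hzs.eventually (isOpen_ball.mem_nhds hz')
    have e1 : Tendsto (fun n => h n (zs n)) (𝒰 : Filter ℕ) (𝓝 (y + z' • a)) := by
      have h1 : Tendsto (fun n => y + zs n • a) (𝒰 : Filter ℕ) (𝓝 (y + z' • a)) := (hHc.tendsto z').comp hzs
      have h2 : Tendsto (fun n => h n (zs n) - (y + zs n • a)) (𝒰 : Filter ℕ) (𝓝 0) := by
        rw [Metric.tendsto_nhds]
        intro ε' hε'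
        filter_upwards [hbn, S.hh (‖z₁‖ + r) ε' hε'] with n hn1 hn2
        rw [dist_zero_right]
        refine hn2 _ ?_
        rw [mem_closedBall, dist_zero_right]
        have h1 : dist (zs n) z₁ < r := mem_ball.mp hn1
        have h2 := norm_le_norm_add_norm_sub' (zs n) z₁
        rw [← dist_eq_norm] at h2
        linarith
      have h3 := h2.add h1
      simp only [sub_add_cancel, zero_add] at h3
      exact h3
    have e2 : Tendsto (fun n => pr (w n (zs n))) (𝒰 : Filter ℕ) (𝓝 (g z')) := by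
      have h1 : Tendsto (fun n => g (zs n)) (𝒰 : Filter ℕ) (𝓝 (g z')) := (hgcont z' (hgpr z' (hbr hz')).2.2.2).tendsto.comp hzs
      refine h1.congr_dist ?_
      rw [Metric.tendsto_nhds]
      intro ε' hε'
      filter_upwards [hbn, S.lim (closedBall z₁ r) hK (fun z hz => (hgpr z hz).2.2.2) ε' hε'] with n hn1 hn2
      rw [dist_zero_right, Real.norm_of_nonneg dist_nonneg, dist_comm]
      exact hn2 _ (hbr hn1)
    have e3 : Tendsto (fun n => Pool.Agent.G3.C.nv v (pr (w n (zs n)))) (𝒰 : Filter ℕ) (𝓝 (Pool.Agent.G3.C.nv v (g z'))) :=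
      (Pool.Agent.G3.C.nv_continuousAt (hnd z' (hbr hz'))).tendsto.comp e2
    exact Lim_tend hF.continuous e1 e3

end Pool.Agent.PY

end
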