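import Pool.Agent.H94.PX2.M30
import Pool.Agent.H94.PX2.M52
import Pool.Agent.H94.PX2.M71
import Pool.Agent.H94.PX2.M76
import Pool.Agent.H94.PX2.PX.Good

/-! The parts of this file: H13.CV.PoleF, PX.RLf. -/

section

/-!
# CV PoleF: functions with a single pole

`exists_pole_only`: let `oz E t = 1`, `x = t⁻¹` (transcendental: `tr_of_oz_ne`), `L = ℂ(x)`, `n = finrank L K`, `w, a` a Birkhoff basis (`exists_birk`).  `Birk.exists_dv` with `k = m ≥ 2 + ∑ i, a i`, `oz E x = - 1`: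
`∑ i, (m + 1 - a i) ≥ n * (m + 1) - ∑ a i`, so `finrank W ≥ n + m - ∑ a i ≥ 2`; so `W` contains a non-constant function (`exists_not_const`), it is transcendental
(`transcendental_of_not_const`).
`lgt_of_boundary`: the functions `h ^ k`, `f * h ^ k` (`pole_mul_pow`), `lgt_of_forms` with `m = k`: at `E₀` (`B E₀`): `f` has order `≥ - k`; at the other places `0 ≤ ord f`.
-/

set_option autoImplicit false

open Pool.Agent.H23.Fano (PrimeDivisorOver Form regularForms)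
open Pool.Agent.H17LG.Variety (PoleAtMost IsLogGeneralType)

noncomputable section

namespace Pool.Agent.H13.CV

variable {K : Type} [Field K] [Algebra ℂ K]

theorem exists_pole_only (hK : CurveField K) (E : Place K) : ∃ (f : K) (k : ℕ), 1 ≤ k ∧ Transcendental ℂ f ∧ f ∈ LD (dv E k) := by
  obtain ⟨t, -, ht⟩ := exists_uni E
  have hoz : oz E t⁻¹ = -1 := by rw [oz_inv, ht]
  have htr : Transcendental ℂ t⁻¹ := tr_of_oz_ne (E := E) (by rw [hoz]; norm_num)
  have hL : Gen (IntermediateField.adjoin ℂ {t⁻¹}) t⁻¹ := ⟨htr, rfl⟩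
  have := hK.fin _ htr
  obtain ⟨w, a, hw⟩ := exists_birk hK hL
  have hE : E.ord t⁻¹ < 0 := by
    rw [neg_iff, hoz]
    norm_num
  obtain ⟨n, hn⟩ : ∃ n, n = Module.finrank (IntermediateField.adjoin ℂ {t⁻¹}) K := ⟨_, rfl⟩
  obtain ⟨A, hA⟩ : ∃ A, A = ∑ i, a i := ⟨_, rfl⟩
  obtain ⟨W, hWf, hW, hWd⟩ := hw.exists_dv hK hL (A + 2) (A + 2) hE (by rw [hoz]; simp)
  have h1 : n * (A + 2 + 1) ≤ (∑ i, (A + 2 + 1 - a i)) + A := by
    rw [hA, ← Finset.sum_add_distrib, ← hA]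
    calc n * (A + 2 + 1) = ∑ _i : Fin (Module.finrank (IntermediateField.adjoin ℂ {t⁻¹}) K), (A + 2 + 1) := by
          simp [hn]
      _ ≤ _ := Finset.sum_le_sum fun i _ => by omega
  have hn1 : 1 ≤ n := by
    rw [hn]
    exact Module.finrank_pos
  have h2 : 2 ≤ Module.finrank ℂ W := by
    obtain ⟨S, hS⟩ : ∃ S, S = ∑ i, (A + 2 + 1 - a i) := ⟨_, rfl⟩
    rw [← hS] at hWd h1
    rw [← hn] at hWd
    have h3 : n * (A + 2 + 1) = (A + 2) * n + n := by ring
    rw [h3] at h1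
    generalize (A + 2) * n = z at h1 hWd
    omega
  have := hWf
  obtain ⟨f, hf, hc⟩ := exists_not_const h2
  exact ⟨f, A + 2, by omega, transcendental_of_not_const hc, hW hf⟩

theorem lgt_of_boundary (hK : CurveField K) {B : Place K → Prop} {ω : Form K 1} (hω : ω ≠ 0) {h : K} (h0 : h ≠ 0) (hh : ∀ E, PoleAtMost 0 E 1 h ω)
    {E₀ : Place K} (hE₀ : B E₀) : IsLogGeneralType B := by
  obtain ⟨f, k, hk, htr, hf⟩ := exists_pole_only hK E₀
  rw [mem_LD] at hf
  have hone : ∀ (E : Place K) (p : ℕ), PoleAtMost p E k (h ^ k) ω := by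
    intro E p
    have h1 := pole_mul_pow (f := (1 : K)) (m := k) (p := p) (hh E) (by
      rw [E.ord.map_one, zero_add]
      exact_mod_cast Nat.zero_le p)
    rwa [one_mul] at h1
  have hle : ∀ E : Place K, 0 ≤ E.ord f + ((k : ℕ) : WithTop ℤ) := by
    intro E
    have h1 := hf E
    have h2 : dv E₀ k E ≤ (k : ℤ) := by
      unfold dv
      split_ifs
      · exact le_rfl
      · positivity
    have h3 : ((-(k : ℤ) : ℤ) : WithTop ℤ) ≤ E.ord f := le_trans (by exact_mod_cast neg_le_neg h2) h1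
    have h4 : (0 : WithTop ℤ) = ((-(k : ℤ) : ℤ) : WithTop ℤ) + ((k : ℕ) : WithTop ℤ) := by
      have : ((k : ℕ) : WithTop ℤ) = ((k : ℤ) : WithTop ℤ) := by norm_cast
      rw [this, ← WithTop.coe_add, neg_add_cancel]
      rfl
    rw [h4]
    exact add_le_add h3 le_rfl
  refine lgt_of_forms hK hω hk (pow_ne_zero k h0) (f₁ := f * h ^ k) ?_ (fun E => ⟨fun _ => hone E 0, fun _ => hone E k⟩)
    (fun E => ⟨fun hE => ?_, fun _ => pole_mul_pow (hh E) (hle E)⟩)
  · rwa [mul_div_assoc, div_self (pow_ne_zero k h0), mul_one]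
  · refine pole_mul_pow (hh E) ?_
    have h1 := hf E
    have h2 : dv E₀ k E = 0 := by
      unfold dv
      rw [if_neg]
      rintro rfl
      exact hE hE₀
    rw [h2, neg_zero] at h1
    simpa using h1

end Pool.Agent.H13.CV

end
end

section

/-!
# PX RLf: the entire lift of the limit root

`any_hit` gives local lifts of the map `g'` (`g' z = pr (G z)`, the continuous extension of `g`); `G3.entire_lift`; simplicity off `D` from `PD.simple`, at the good hits from `good_hit` (the two local lifts agree near `z₀` up to a factor, by continuity also at `z₀`).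
-/

set_option autoImplicit false

open Topology Filter Metric

namespace Pool.Agent.PX

open Pool.Agent.H36.BP (EN fs wd)
open Pool.Agent.H62.EF (MN pr)
open Pool.Agent.AD (Vd)
open Pool.Agent.TG (Lat Gd)
open Pool.Agent.G3 (wt TT LLift)
open Pool.Agent.G4 (Few)

variable {k d r : ℕ}

variable {Λ : AddSubgroup (Vd (k + 1))} {D : Set (Vd (k + 1))} {Bad : Vd (k + 1) → Set (Vd (k + 1))} {θ : Fin (d + 1) → Vd (k + 1) → ℂ}
  {W : Fin r → Vd (k + 1) →L[ℂ] ℂ}

/-- two lifts which agree near a point agree at the point -/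
private theorem pr_agree {G G' : ℂ → EN 1} {z : ℂ} (hG : ContinuousAt G z) (hG' : ContinuousAt G' z) (h0 : G z ≠ 0) (h0' : G' z ≠ 0)
    (h : ∀ᶠ w in 𝓝[≠] z, pr (G w) = pr (G' w)) : pr (G z) = pr (G' z) := by
  have h1 : Tendsto (fun w => pr (G w)) (𝓝[≠] z) (𝓝 (pr (G z))) :=
    (ContinuousAt.comp (Pool.Agent.H62.EF.continuousAt_pr h0) hG).tendsto.mono_left nhdsWithin_le_nhds
  have h2 : Tendsto (fun w => pr (G' w)) (𝓝[≠] z) (𝓝 (pr (G' z))) :=
    (ContinuousAt.comp (Pool.Agent.H62.EF.continuousAt_pr h0') hG').tendsto.mono_left nhdsWithin_le_nhds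
  exact tendsto_nhds_unique (h1.congr' h) h2

theorem PD.exists_rl (P : PD Λ D Bad θ W) {y a : Vd (k + 1)} (ha : a ≠ 0) {𝒰 : Ultrafilter ℕ} {w : ℕ → ℂ → EN 1} {h : ℕ → ℂ → Vd (k + 1)} {g : ℂ → MN 1}
    (S : LS θ D y a 𝒰 w h g) (hR : Rt θ D y a g) : ∃ G : ℂ → EN 1, RL θ Bad y a G := by
  choose ρ hρ Gl hGd hGr hGg using P.any_hit ha S.lift hR
  have hcont : ∀ z₀, ∀ z ∈ ball z₀ (ρ z₀), ContinuousAt (Gl z₀) z := fun z₀ z hz =>
    ((hGd z₀).continuousOn.continuousAt (isOpen_ball.mem_nhds hz))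
  -- the local lifts agree
  have key : ∀ z₀, ∀ z ∈ ball z₀ (ρ z₀), pr (Gl z z) = pr (Gl z₀ z) := by
    intro z₀ z hz
    rcases eq_or_ne z z₀ with rfl | hne
    · rfl
    refine pr_agree (hcont z z (mem_ball_self (hρ z))) (hcont z₀ z hz) (hGr z z (mem_ball_self (hρ z))).1 (hGr z₀ z hz).1 ?_
    have h1 : ∀ᶠ w in 𝓝[≠] z, w ∈ ball z (ρ z) := mem_nhdsWithin_of_mem_nhds (ball_mem_nhds z (hρ z))
    have h2 : ∀ᶠ w in 𝓝[≠] z, w ∈ ball z₀ (ρ z₀) := mem_nhdsWithin_of_mem_nhds (isOpen_ball.mem_nhds hz)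
    have h3 : ∀ᶠ w in 𝓝[≠] z, w ≠ z₀ := mem_nhdsWithin_of_mem_nhds (isOpen_ne.mem_nhds hne)
    filter_upwards [h1, h2, h3, self_mem_nhdsWithin] with w hw1 hw2 hw3 hw4
    rw [← hGg z w hw1 hw4, ← hGg z₀ w hw2 hw3]
  have hL : ∀ z, LLift (fun z => pr (Gl z z)) z := by
    intro z₀
    refine ⟨Gl z₀, (hGd z₀).analyticAt (ball_mem_nhds z₀ (hρ z₀)), ?_⟩
    filter_upwards [ball_mem_nhds z₀ (hρ z₀)] with z hz
    exact ⟨(hGr z₀ z hz).1, key z₀ z hz⟩
  obtain ⟨G, hG, hGe⟩ := Pool.Agent.G3.entire_lift hL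
  have hroot : ∀ z, Fo θ (y + z • a) (G z) = 0 := by
    intro z
    have h1 := hGr z z (mem_ball_self (hρ z))
    obtain ⟨c, -, hc⟩ := (Pool.Agent.H62.EF.pr_eq_iff (hGe z).1 h1.1).mp (hGe z).2.symm
    rw [hc, fo_smul, h1.2, mul_zero]
  refine ⟨G, hG, fun z => (hGe z).1, hroot, fun z hz => ?_⟩
  by_cases hD : y + z • a ∈ D
  · obtain ⟨ρ', hρ', G', hG'd, hG'r, hG'g⟩ := P.good_hit ha S hR hD hz
    have h1 : pr (Gl z z) = pr (G' z) := by
      refine pr_agree (hcont z z (mem_ball_self (hρ z))) (hG'd.continuousOn.continuousAt (ball_mem_nhds z hρ'))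
        (hGr z z (mem_ball_self (hρ z))).1 (hG'r z (mem_ball_self hρ')).1 ?_
      have h1 : ∀ᶠ w in 𝓝[≠] z, w ∈ ball z (ρ z) := mem_nhdsWithin_of_mem_nhds (ball_mem_nhds z (hρ z))
      have h2 : ∀ᶠ w in 𝓝[≠] z, w ∈ ball z ρ' := mem_nhdsWithin_of_mem_nhds (ball_mem_nhds z hρ')
      filter_upwards [h1, h2, self_mem_nhdsWithin] with w hw1 hw2 hw4
      rw [← hGg z w hw1 hw4, ← hG'g w hw2 hw4]
    obtain ⟨h0, -, v, hv⟩ := hG'r z (mem_ball_self hρ')
    have h2 : pr (G z) = pr (G' z) := by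
      rw [← h1]
      exact (hGe z).2.symm
    obtain ⟨c, hc0, hc⟩ := (Pool.Agent.H62.EF.pr_eq_iff (hGe z).1 h0).mp h2
    refine ⟨v, ?_⟩
    rw [hc, fd_smul θ (by have := P.deg; omega)]
    exact mul_ne_zero (pow_ne_zero _ hc0) hv
  · exact P.simple _ hD _ (hGe z).1 (hroot z)

end Pool.Agent.PX

end
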