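import Pool.Agent.H94.PX2.M37
import Pool.Agent.H94.PX2.M72
import Pool.Agent.H94.PX2.M73
import Pool.Agent.H94.PX2.M74
import Pool.Agent.H94.PX2.M77

/-! The parts of this file: PX.Sep, PX.Long, PX.Bound, PX.BDp. -/

section

/-!
# PX Sep: long curves are away from the roots

By contradiction: `R = n + 1`, `c = η = 1 / (n + 1)` give `w n, h n, a n`; translate by `Λ` (`‖h n 0‖` bounded, `qf_add`, `Cp.add`); along the hyperfilter `h n 0 → y ∈ Gd D δ`, `a n → a`; `exists_ls`, `ls_rt` at `z₀ = 0` (`qf → 0`: the limit of the normalised `w n 0` is a root),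
`exists_rl`, `no_root`.
-/

set_option autoImplicit false

open Topology Filter Metric

namespace Pool.Agent.PX

open Pool.Agent.H36.BP (EN fs wd)
open Pool.Agent.H62.EF (MN pr)
open Pool.Agent.AD (Vd)
open Pool.Agent.TG (Lat Gd)
open Pool.Agent.G3 (wt TT LLift)
open Pool.Agent.G4 (Few)

variable {k d r : ℕ}

variable {Λ : AddSubgroup (Vd (k + 1))} {D : Set (Vd (k + 1))} {Bad : Vd (k + 1) → Set (Vd (k + 1))} {θ : Fin (d + 1) → Vd (k + 1) → ℂ}
  {W : Fin r → Vd (k + 1) →L[ℂ] ℂ}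

theorem PD.sep (P : PD Λ D Bad θ W) {δ A₁ A₂ : ℝ} (hδ : 0 < δ) (hA₁ : 0 < A₁) : ∃ R c η : ℝ, 0 < R ∧ 0 < c ∧ 0 < η ∧ ∀ (w : ℂ → EN 1) (h : ℂ → Vd (k + 1)) (a : Vd (k + 1)),
    A₁ ≤ ‖a‖ → ‖a‖ ≤ A₂ → Cp θ (ball 0 R) w h → (∀ z ∈ ball (0 : ℂ) R, ‖h z - (h 0 + z • a)‖ ≤ η) → h 0 ∈ Gd D δ → c ≤ qf θ W (h 0) (w 0) := by
  by_contra hcon
  push Not at hcon
  obtain ⟨R₀, hR0, hR₀⟩ := P.lat.cpt
  have hbad : ∀ n : ℕ, ∃ (w : ℂ → EN 1) (h : ℂ → Vd (k + 1)) (a : Vd (k + 1)), A₁ ≤ ‖a‖ ∧ ‖a‖ ≤ A₂ ∧ Cp θ (ball 0 ((n : ℝ) + 1)) w h ∧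
      (∀ z ∈ ball (0 : ℂ) ((n : ℝ) + 1), ‖h z - (h 0 + z • a)‖ ≤ 1 / ((n : ℝ) + 1)) ∧ h 0 ∈ Gd D δ ∧ qf θ W (h 0) (w 0) < 1 / ((n : ℝ) + 1) ∧ ‖h 0‖ ≤ R₀ := by
    intro n
    obtain ⟨w, h, a, h1, h2, h3, h4, h5, h6⟩ := hcon ((n : ℝ) + 1) (1 / ((n : ℝ) + 1)) (1 / ((n : ℝ) + 1)) (by positivity) (by positivity) (by positivity)
    obtain ⟨l, hl, hlR⟩ := hR₀ (h 0)
    refine ⟨w, fun z => h z + -l, a, h1, h2, Cp.add P h3 (Λ.neg_mem hl), fun z hz => ?_, ?_, ?_, ?_⟩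
    · have h7 := h4 z hz
      have h8 : h z + -l - (h 0 + -l + z • a) = h z - (h 0 + z • a) := by abel
      rw [h8]
      exact h7
    · intro b hb
      have h7 := h5 _ (P.D_inv b hb l hl)
      have h8 : h 0 + -l - b = h 0 - (b + l) := by abel
      simp only
      rw [h8]
      exact h7
    · simp only
      rw [P.qf_add (Λ.neg_mem hl)]
      exact h6
    · simp only
      rwa [← sub_eq_add_neg]
  choose w h a ha₁ ha₂ hcp hlin hGd hq hb using hbad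
  set 𝒰 : Ultrafilter ℕ := Filter.hyperfilter ℕ with h𝒰
  have htop : Tendsto (fun n : ℕ => (n : ℝ) + 1) (𝒰 : Filter ℕ) atTop := by
    have h1 : Tendsto (fun n : ℕ => (n : ℝ) + 1) atTop atTop := tendsto_atTop_add_const_right _ _ tendsto_natCast_atTop_atTop
    refine h1.mono_left ?_
    rw [← Nat.cofinite_eq_atTop]
    exact Filter.hyperfilter_le_cofinite
  have hinv : Tendsto (fun n : ℕ => 1 / ((n : ℝ) + 1)) (𝒰 : Filter ℕ) (𝓝 0) := by
    have h1 : Tendsto (fun n : ℕ => ((n : ℝ) + 1)⁻¹) (𝒰 : Filter ℕ) (𝓝 0) := Tendsto.comp (g := fun x : ℝ => x⁻¹) tendsto_inv_atTop_zero htop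
    refine h1.congr fun n => ?_
    rw [one_div]
  -- limits of the centres and the directions
  obtain ⟨y, hy⟩ : ∃ y, Tendsto (fun n => h n 0) (𝒰 : Filter ℕ) (𝓝 y) := by
    obtain ⟨y, -, hy⟩ := (isCompact_closedBall (0 : Vd (k + 1)) R₀).ultrafilter_le_nhds' (𝒰.map fun n => h n 0)
      (by rw [Ultrafilter.mem_map]; exact Filter.univ_mem' fun n => by simpa using hb n)
    exact ⟨y, hy⟩
  obtain ⟨a₀, ha₀⟩ : ∃ a₀, Tendsto a (𝒰 : Filter ℕ) (𝓝 a₀) := by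
    obtain ⟨a₀, -, ha₀⟩ := (isCompact_closedBall (0 : Vd (k + 1)) A₂).ultrafilter_le_nhds' (𝒰.map a)
      (by rw [Ultrafilter.mem_map]; exact Filter.univ_mem' fun n => by simpa using ha₂ n)
    exact ⟨a₀, ha₀⟩
  have ha₀0 : a₀ ≠ 0 := by
    rintro rfl
    have h1 : A₁ ≤ ‖(0 : Vd (k + 1))‖ := ge_of_tendsto ha₀.norm (Eventually.of_forall ha₁)
    rw [norm_zero] at h1
    linarith
  have hyG : y ∈ Gd D δ := by
    intro b hb'
    exact ge_of_tendsto (hy.sub_const b).norm (Eventually.of_forall fun n => hGd n b hb')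
  have hyD : y ∉ D := by
    intro h1
    have h2 := hyG y h1
    rw [sub_self, norm_zero] at h2
    linarith
  have hcv : ∀ R : ℝ, ∀ᶠ n in (𝒰 : Filter ℕ), Cp θ (ball 0 R) (w n) (h n) := by
    intro R
    filter_upwards [htop.eventually_ge_atTop R] with n hn
    exact (hcp n).mono (ball_subset_ball hn)
  have hh : ∀ R ε : ℝ, 0 < ε → ∀ᶠ n in (𝒰 : Filter ℕ), ∀ z ∈ closedBall (0 : ℂ) R, ‖h n z - (y + z • a₀)‖ < ε := by
    intro R ε hε
    have e1 : ∀ᶠ n : ℕ in (𝒰 : Filter ℕ), 1 / ((n : ℝ) + 1) < ε / 3 := hinv.eventually_lt_const (by positivity)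
    have e2 : ∀ᶠ n in (𝒰 : Filter ℕ), ‖h n 0 - y‖ < ε / 3 := by
      have h1 : Tendsto (fun n => ‖h n 0 - y‖) (𝒰 : Filter ℕ) (𝓝 0) := by
        have h2 := (hy.sub_const y).norm
        rwa [sub_self, norm_zero] at h2
      exact h1.eventually_lt_const (by positivity)
    have e3 : ∀ᶠ n in (𝒰 : Filter ℕ), (|R| + 1) * ‖a n - a₀‖ < ε / 3 := by
      have h1 : Tendsto (fun n => (|R| + 1) * ‖a n - a₀‖) (𝒰 : Filter ℕ) (𝓝 0) := by
        have h2 := ((ha₀.sub_const a₀).norm).const_mul (|R| + 1)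
        rwa [sub_self, norm_zero, mul_zero] at h2
      exact h1.eventually_lt_const (by positivity)
    filter_upwards [e1, e2, e3, htop.eventually_gt_atTop R] with n h1 h2 h3 h4 z hz
    rw [mem_closedBall_zero_iff] at hz
    have h5 := hlin n z (by rw [mem_ball_zero_iff]; linarith)
    have h6 : h n z - (y + z • a₀) = (h n z - (h n 0 + z • a n)) + (h n 0 - y) + z • (a n - a₀) := by
      rw [smul_sub]
      abel
    rw [h6]
    have h7 : ‖z • (a n - a₀)‖ ≤ (|R| + 1) * ‖a n - a₀‖ := by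
      rw [norm_smul]
      refine mul_le_mul_of_nonneg_right ?_ (norm_nonneg _)
      have := le_abs_self R
      linarith
    calc ‖(h n z - (h n 0 + z • a n)) + (h n 0 - y) + z • (a n - a₀)‖
        ≤ ‖h n z - (h n 0 + z • a n)‖ + ‖h n 0 - y‖ + ‖z • (a n - a₀)‖ := norm_add₃_le
      _ < ε := by linarith
  obtain ⟨g, S⟩ := P.exists_ls ha₀0 𝒰 hcv hh
  have hy0 : y + (0 : ℂ) • a₀ ∉ D := by
    rw [zero_smul, add_zero]
    exact hyD
  -- the limit of the normalised points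
  have hwn : ∀ n, w n 0 ≠ 0 := fun n => Cp.w_ne (le_trans (by norm_num) P.deg) (hcp n) (mem_ball_self (by positivity))
  obtain ⟨u, hu⟩ : ∃ u : ℕ → EN 1, u = fun n => ((‖w n 0‖⁻¹ : ℝ) : ℂ) • w n 0 := ⟨_, rfl⟩
  have hun : ∀ n, ‖u n‖ = 1 := by
    intro n
    rw [hu]
    simp only
    rw [norm_smul, Complex.norm_real, Real.norm_of_nonneg (inv_nonneg.2 (norm_nonneg _)), inv_mul_cancel₀ (norm_ne_zero_iff.2 (hwn n))]
  have hc0 : ∀ n, ((‖w n 0‖⁻¹ : ℝ) : ℂ) ≠ 0 := fun n => by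
    rw [Ne, Complex.ofReal_eq_zero]
    exact inv_ne_zero (norm_ne_zero_iff.2 (hwn n))
  obtain ⟨x, hx1, hx⟩ : ∃ x : EN 1, ‖x‖ = 1 ∧ Tendsto u (𝒰 : Filter ℕ) (𝓝 x) := by
    obtain ⟨x, hx1, hx⟩ := (isCompact_sphere (0 : EN 1) 1).ultrafilter_le_nhds' (𝒰.map u)
      (by rw [Ultrafilter.mem_map]; exact Filter.univ_mem' fun n => by simpa using hun n)
    exact ⟨x, by simpa using hx1, hx⟩
  have hx0 : x ≠ 0 := by
    rintro rfl
    rw [norm_zero] at hx1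
    exact zero_ne_one hx1
  have hprx : pr x = g 0 := by
    have h1 : Tendsto (fun n => pr (u n)) (𝒰 : Filter ℕ) (𝓝 (pr x)) := Tendsto.comp (g := fun v : EN 1 => pr v) (f := u) (Pool.Agent.H62.EF.continuousAt_pr hx0).tendsto hx
    have h2 : Tendsto (fun n => pr (u n)) (𝒰 : Filter ℕ) (𝓝 (g 0)) := by
      rw [Metric.tendsto_nhds]
      intro ε hε
      filter_upwards [S.lim {0} isCompact_singleton (fun z hz => by rw [Set.mem_singleton_iff.1 hz]; exact hy0) ε hε] with n hn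
      have h3 := hn 0 rfl
      have h4 : pr (u n) = pr (w n 0) := by
        rw [hu]
        exact Pool.Agent.H62.EF.pr_smul _ (hc0 n)
      rw [h4]
      exact h3
    exact tendsto_nhds_unique h1 h2
  have hF0 : Fo θ (y + (0 : ℂ) • a₀) x = 0 := by
    rw [zero_smul, add_zero]
    have hcF : Continuous fun p : Vd (k + 1) × EN 1 => Fo θ p.1 p.2 := (fo_diff P.an).continuous
    have hcW : Continuous fun p : Vd (k + 1) × EN 1 => wt W p.1 := by
      unfold wt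
      refine continuous_finsetSum _ fun i _ => ?_
      exact (((W i).continuous.comp continuous_fst).norm).pow 2
    have hc : Continuous fun p : Vd (k + 1) × EN 1 => ‖Fo θ p.1 p.2‖ * Real.exp (-wt W p.1) :=
      hcF.norm.mul (Real.continuous_exp.comp hcW.neg)
    have h1 : Tendsto (fun n => ‖Fo θ (h n 0) (u n)‖ * Real.exp (-wt W (h n 0))) (𝒰 : Filter ℕ) (𝓝 (‖Fo θ y x‖ * Real.exp (-wt W y))) :=
      Tendsto.comp (g := fun p : Vd (k + 1) × EN 1 => ‖Fo θ p.1 p.2‖ * Real.exp (-wt W p.1)) (f := fun n => (h n 0, u n)) (hc.tendsto (y, x)) (hy.prodMk_nhds hx)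
    have h2 : ∀ n, ‖Fo θ (h n 0) (u n)‖ * Real.exp (-wt W (h n 0)) = qf θ W (h n 0) (w n 0) := by
      intro n
      have h3 : qf θ W (h n 0) (u n) = qf θ W (h n 0) (w n 0) := by
        rw [hu]
        exact qf_smul θ W (h n 0) (hc0 n) (w n 0)
      rw [← h3]
      unfold qf
      rw [hun n, one_pow, div_one]
    have h3 : Tendsto (fun n => ‖Fo θ (h n 0) (u n)‖ * Real.exp (-wt W (h n 0))) (𝒰 : Filter ℕ) (𝓝 0) := by
      refine squeeze_zero (fun n => by positivity) (fun n => ?_) hinv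
      rw [h2 n]
      exact (hq n).le
    have h4 := tendsto_nhds_unique h1 h3
    rcases mul_eq_zero.1 h4 with h5 | h5
    · exact norm_eq_zero.1 h5
    · exact absurd h5 (Real.exp_pos _).ne'
  obtain ⟨G, hG⟩ := P.exists_rl ha₀0 S (P.ls_rt ha₀0 S hy0 hx0 hprx hF0)
  exact P.no_root ha₀0 hG

end Pool.Agent.PX

end

section

/-!
# PX Long: no long curves

`A₁, A₂`; `δ` from `circ` (radius `ρ = 1`, directions between `A₁ / 2` and `2 A₂`), then `δ / 2` for arcs near the lines; `R₁, c, η₁` from `sep` for `δ / 2`.  On the disc of radius `R`, `‖h' - a‖ ≤ η` with `η R₁ ≤ η₁`, `η ≤ min (A₁ / 2) (δ / 4)`: at all points `z`, `‖z‖ < R - R₁`, with `h z ∈ Gd D (δ / 2)`: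
`c ≤ qf`; by `psi_max` on the circles of radius `≤ 1` the same at all points `‖z‖ < R - R₁ - 2`; `psi_grow` with `s = R - R₁ - 3` gives `c exp (c₀ s ^ 2) ≤ qf ≤ C` (`qf_le`): contradiction for `R` large.  (Choose first `R₁, c, η₁`, then `R`, then `η`.)
-/

set_option autoImplicit false

open Topology Filter Metric

namespace Pool.Agent.PX

open Pool.Agent.H36.BP (EN fs wd)
open Pool.Agent.H62.EF (MN pr)
open Pool.Agent.AD (Vd)
open Pool.Agent.TG (Lat Gd)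
open Pool.Agent.G3 (wt TT LLift)
open Pool.Agent.G4 (Few)

variable {k d r : ℕ}

variable {Λ : AddSubgroup (Vd (k + 1))} {D : Set (Vd (k + 1))} {Bad : Vd (k + 1) → Set (Vd (k + 1))} {θ : Fin (d + 1) → Vd (k + 1) → ℂ}
  {W : Fin r → Vd (k + 1) →L[ℂ] ℂ}

/-- the mean value inequality -/
private theorem Long_mv {h : ℂ → Vd (k + 1)} {a : Vd (k + 1)} {R η : ℝ} (hd : DifferentiableOn ℂ h (ball 0 R))
    (hη : ∀ z ∈ ball (0 : ℂ) R, ‖deriv h z - a‖ ≤ η) (x y : ℂ) (hx : x ∈ ball (0 : ℂ) R) (hy : y ∈ ball (0 : ℂ) R) :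
    ‖h y - h x - (y - x) • a‖ ≤ η * ‖y - x‖ := by
  have hdf : ∀ z ∈ ball (0 : ℂ) R, DifferentiableAt ℂ h z := fun z hz => hd.differentiableAt (isOpen_ball.mem_nhds hz)
  have h1 : ∀ z ∈ ball (0 : ℂ) R, HasDerivAt (fun z => h z - z • a) (deriv h z - a) z := by
    intro z hz
    have h2 := (hdf z hz).hasDerivAt.sub ((hasDerivAt_id z).smul_const a)
    rw [one_smul] at h2
    exact h2
  have h3 := Convex.norm_image_sub_le_of_norm_hasDerivWithin_le (f := fun z => h z - z • a) (fun z hz => (h1 z hz).hasDerivWithinAt) hη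
    (convex_ball 0 R) hx hy
  have h4 : h y - h x - (y - x) • a = (h y - y • a) - (h x - x • a) := by
    rw [sub_smul]
    abel
  rw [h4]
  exact h3

theorem PD.no_long (P : PD Λ D Bad θ W) {A₁ A₂ : ℝ} (hA₁ : 0 < A₁) (hA : A₁ ≤ A₂) : ∃ R η : ℝ, 0 < R ∧ 0 < η ∧ ∀ (w : ℂ → EN 1) (h : ℂ → Vd (k + 1)) (a : Vd (k + 1)),
    A₁ ≤ ‖a‖ → ‖a‖ ≤ A₂ → Cp θ (ball 0 R) w h → (∀ z ∈ ball (0 : ℂ) R, ‖deriv h z - a‖ ≤ η) → False := by
  obtain ⟨δ, hδ, hcirc⟩ := P.circ (A₂ := A₂) hA₁ one_pos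
  obtain ⟨R₁, c, η₁, hR₁, hc, hη₁, hsep⟩ := P.sep (A₂ := A₂) (half_pos hδ) hA₁
  obtain ⟨C, hC, hle⟩ := P.qf_le
  obtain ⟨c₀, hc₀, hgrow⟩ := P.psi_grow (half_pos hA₁)
  set S : ℝ := max 1 (C / (c * c₀)) with hS
  have hS1 : 1 ≤ S := le_max_left _ _
  have hS2 : C / (c * c₀) ≤ S := le_max_right _ _
  refine ⟨R₁ + 3 + S, min (A₁ / 2) (min (δ / 4) (η₁ / R₁)), by linarith, lt_min (half_pos hA₁) (lt_min (by linarith) (div_pos hη₁ hR₁)), ?_⟩
  intro w h a ha₁ ha₂ hcp hder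
  set η : ℝ := min (A₁ / 2) (min (δ / 4) (η₁ / R₁)) with hη
  have h0η : 0 < η := lt_min (half_pos hA₁) (lt_min (by linarith) (div_pos hη₁ hR₁))
  have e1 : η ≤ A₁ / 2 := min_le_left _ _
  have e2 : η ≤ δ / 4 := (min_le_right _ _).trans (min_le_left _ _)
  have e3 : η * R₁ ≤ η₁ := by
    have : η ≤ η₁ / R₁ := (min_le_right _ _).trans (min_le_right _ _)
    rwa [le_div_iff₀ hR₁] at this
  have mv := Long_mv hcp.h_diff hder
  -- near the set of the good points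
  have s1 : ∀ z₀ : ℂ, ‖z₀‖ < 3 + S → h z₀ ∈ Gd D (δ / 2) → c ≤ qf θ W (h z₀) (w z₀) := by
    intro z₀ hz₀ hg
    have hmaps : Set.MapsTo (fun z : ℂ => z₀ + z) (ball 0 R₁) (ball 0 (R₁ + 3 + S)) := by
      intro z hz
      rw [mem_ball_zero_iff] at hz ⊢
      calc ‖z₀ + z‖ ≤ ‖z₀‖ + ‖z‖ := norm_add_le _ _
        _ < R₁ + 3 + S := by linarith
    have h1 := hsep (fun z => w (z₀ + z)) (fun z => h (z₀ + z)) a ha₁ ha₂
      (hcp.comp (by fun_prop) hmaps) (by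
        intro z hz
        have h2 := mv (z₀ + 0) (z₀ + z) (hmaps (mem_ball_self hR₁)) (hmaps hz)
        have h3 : h (z₀ + z) - (h (z₀ + 0) + z • a) = h (z₀ + z) - h (z₀ + 0) - ((z₀ + z) - (z₀ + 0)) • a := by
          rw [add_sub_add_left_eq_sub, sub_zero]
          abel
        rw [h3]
        refine h2.trans ?_
        rw [add_sub_add_left_eq_sub, sub_zero]
        rw [mem_ball_zero_iff] at hz
        exact (mul_le_mul_of_nonneg_left hz.le h0η.le).trans e3) (by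
        rw [add_zero]
        exact hg)
    rw [add_zero] at h1
    exact h1
  -- all points
  have s2 : ∀ z₀ : ℂ, ‖z₀‖ < 1 + S → c ≤ qf θ W (h z₀) (w z₀) := by
    intro z₀ hz₀
    obtain ⟨s, hs0, hs1, hs⟩ := hcirc (h z₀) a ha₁ ha₂
    have hsub : ball z₀ 2 ⊆ ball (0 : ℂ) (R₁ + 3 + S) := by
      intro z hz
      rw [mem_ball_zero_iff]
      rw [mem_ball, dist_eq_norm] at hz
      have : ‖z‖ ≤ ‖z - z₀‖ + ‖z₀‖ := by
        calc ‖z‖ = ‖(z - z₀) + z₀‖ := by rw [sub_add_cancel]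
          _ ≤ _ := norm_add_le _ _
      linarith
    refine P.psi_max hs0 (by linarith : s < 2) (hcp.mono hsub) hc ?_
    intro z hz
    rw [mem_sphere, dist_eq_norm] at hz
    have hzn : ‖z‖ ≤ ‖z - z₀‖ + ‖z₀‖ := by
      calc ‖z‖ = ‖(z - z₀) + z₀‖ := by rw [sub_add_cancel]
        _ ≤ _ := norm_add_le _ _
    refine s1 z (by linarith) ?_
    have h2 := mv z₀ z (hsub (mem_ball_self two_pos)) (hsub (by
      rw [mem_ball, dist_eq_norm]
      linarith))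
    have h3 := hs (z - z₀) hz
    intro b hb
    have h4 := h3 b hb
    have h5 : ‖h z₀ + (z - z₀) • a - b‖ ≤ ‖h z - b‖ + ‖h z - h z₀ - (z - z₀) • a‖ := by
      calc ‖h z₀ + (z - z₀) • a - b‖ = ‖(h z - b) - (h z - h z₀ - (z - z₀) • a)‖ := by
            congr 1
            abel
        _ ≤ _ := norm_sub_le _ _
    have h6 : η * ‖z - z₀‖ ≤ δ / 4 := by
      rw [hz]
      calc η * s ≤ η * 1 := mul_le_mul_of_nonneg_left hs1 h0η.le
        _ = η := mul_one _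
        _ ≤ δ / 4 := e2
    linarith
  -- growth
  have h7 := hgrow w h S (R₁ + 3 + S) (by linarith) (by linarith) hcp (by
    intro z hz
    have h8 := hder z hz
    have h9 : ‖a‖ ≤ ‖deriv h z‖ + ‖deriv h z - a‖ := by
      calc ‖a‖ = ‖deriv h z - (deriv h z - a)‖ := by rw [sub_sub_cancel]
        _ ≤ _ := norm_sub_le _ _
    linarith) c hc (by
    intro z hz
    rw [mem_sphere_zero_iff_norm] at hz
    exact s2 z (by linarith))
  have h10 := hle (h 0) (w 0)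
  have h11 : c₀ * S ^ 2 + 1 ≤ Real.exp (c₀ * S ^ 2) := Real.add_one_le_exp _
  have h12 : S ≤ S ^ 2 := by nlinarith
  have h13 : C ≤ c * (c₀ * S) := by
    rw [div_le_iff₀ (mul_pos hc hc₀)] at hS2
    linarith
  have h14 : c * (c₀ * S) ≤ c * (c₀ * S ^ 2) :=
    mul_le_mul_of_nonneg_left (mul_le_mul_of_nonneg_left h12 hc₀.le) hc.le
  have h15 : c * (c₀ * S ^ 2 + 1) ≤ c * Real.exp (c₀ * S ^ 2) := mul_le_mul_of_nonneg_left h11 hc.le
  linarith

end Pool.Agent.PX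

end

section

/-!
# PX Bound: the main theorem on discs

Brody's reparametrisation for the function `‖h'‖`: if `‖h' 0‖ = M` is large there is `z₀` and `s` with `‖h' z₀‖ s ≥ M / 4`, `closedBall z₀ s ⊆ ball 0 1`, `‖h'‖ ≤ 2 ‖h' z₀‖` on `ball z₀ s` (maximum of `(1/2 - ‖z‖) ‖h' z‖` or of `(1 - ‖z‖ ^ 2) ‖h' z‖` on a smaller closed disc).  Put
`H ζ = h (z₀ + ζ / ‖h' z₀‖)`: `‖H' 0‖ = 1`, `‖H'‖ ≤ 2` on the disc of radius `M / 4`; Cauchy: `‖H'' ‖ ≤ 8 · 2 / M ..`, so `‖H' ζ - H' 0‖ ≤ η` for `‖ζ‖ < R` if `M ≥ C R / η`.  `no_long` with `A₁ = A₂ = 1`, `a = H' 0`.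
-/

set_option autoImplicit false

open Topology Filter Metric

namespace Pool.Agent.PX

open Pool.Agent.H36.BP (EN fs wd)
open Pool.Agent.H62.EF (MN pr)
open Pool.Agent.AD (Vd)
open Pool.Agent.TG (Lat Gd)
open Pool.Agent.G3 (wt TT LLift)
open Pool.Agent.G4 (Few)

variable {k d r : ℕ}

variable {Λ : AddSubgroup (Vd (k + 1))} {D : Set (Vd (k + 1))} {Bad : Vd (k + 1) → Set (Vd (k + 1))} {θ : Fin (d + 1) → Vd (k + 1) → ℂ}
  {W : Fin r → Vd (k + 1) →L[ℂ] ℂ}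

/-- Brody's choice of the point. -/
private theorem brody_pt {f : ℂ → Vd (k + 1)} (hf : DifferentiableOn ℂ f (ball 0 1)) (h0 : 0 < ‖f 0‖) :
    ∃ z₀ : ℂ, ‖z₀‖ < 1 / 2 ∧ 0 < (1 / 2 - ‖z₀‖) / 2 ∧ (∀ z ∈ ball z₀ ((1 / 2 - ‖z₀‖) / 2), ‖f z‖ ≤ 2 * ‖f z₀‖) ∧
      ‖f 0‖ / 4 ≤ (1 / 2 - ‖z₀‖) / 2 * ‖f z₀‖ := by
  have hcont : ContinuousOn (fun z : ℂ => (1 / 2 - ‖z‖) * ‖f z‖) (closedBall 0 (1 / 2)) := by
    have h1 : ContinuousOn f (closedBall 0 (1 / 2)) := hf.continuousOn.mono (closedBall_subset_ball (by norm_num))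
    exact (continuous_const.sub continuous_norm).continuousOn.mul h1.norm
  obtain ⟨z₀, hz₀, hmax⟩ := (isCompact_closedBall (0 : ℂ) (1 / 2)).exists_isMaxOn ⟨0, by simp⟩ hcont
  have h1 : (1 / 2 : ℝ) * ‖f 0‖ ≤ (1 / 2 - ‖z₀‖) * ‖f z₀‖ := by
    have := hmax (a := 0) (by simp)
    simpa using this
  have h2 : 0 < (1 / 2 - ‖z₀‖) * ‖f z₀‖ := lt_of_lt_of_le (by positivity) h1
  have h3 : 0 < 1 / 2 - ‖z₀‖ := by
    by_contra h
    push Not at h
    have := mul_nonpos_of_nonpos_of_nonneg h (norm_nonneg (f z₀))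
    linarith
  refine ⟨z₀, by linarith, by linarith, fun z hz => ?_, by linarith⟩
  rw [mem_ball_iff_norm] at hz
  have h4 : ‖z‖ ≤ ‖z - z₀‖ + ‖z₀‖ := by
    simpa using norm_add_le (z - z₀) z₀
  have h5 : (1 / 2 - ‖z₀‖) / 2 ≤ 1 / 2 - ‖z‖ := by linarith
  have h6 : (1 / 2 - ‖z‖) * ‖f z‖ ≤ (1 / 2 - ‖z₀‖) * ‖f z₀‖ := hmax (a := z) (by
    rw [mem_closedBall_zero_iff]
    linarith)
  have h7 : (1 / 2 - ‖z₀‖) / 2 * ‖f z‖ ≤ (1 / 2 - ‖z₀‖) * ‖f z₀‖ := (mul_le_mul_of_nonneg_right h5 (norm_nonneg _)).trans h6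
  have h8 : (1 / 2 - ‖z₀‖) * ‖f z‖ ≤ (1 / 2 - ‖z₀‖) * (2 * ‖f z₀‖) := by linarith
  exact le_of_mul_le_mul_left h8 h3

/-- **Main theorem on discs.** -/
theorem PD.bound (P : PD Λ D Bad θ W) : ∃ C : ℝ, 0 < C ∧ ∀ (w : ℂ → EN 1) (h : ℂ → Vd (k + 1)), Cp θ (ball 0 1) w h → ‖deriv h 0‖ ≤ C := by
  obtain ⟨R, η, hR, hη, hno⟩ := P.no_long one_pos (le_refl (1 : ℝ))
  refine ⟨16 * R / η + 4 * R, by positivity, fun w h hc => ?_⟩
  by_contra hM
  push Not at hM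
  set M : ℝ := ‖deriv h 0‖ with hMdef
  have hM0 : 0 < M := lt_trans (by positivity) hM
  have hM1 : 4 * R < M := lt_of_le_of_lt (by have : 0 ≤ 16 * R / η := by positivity
                                             linarith) hM
  have hM2 : 16 * R / η < M := lt_of_le_of_lt (by linarith) hM
  have hM3 : 16 * R < M * η := by
    rw [div_lt_iff₀ hη] at hM2
    exact hM2
  have hdd : DifferentiableOn ℂ (deriv h) (ball 0 1) := hc.h_diff.deriv isOpen_ball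
  obtain ⟨z₀, hz₀, hs, hz1, hz2⟩ := brody_pt hdd hM0
  set s : ℝ := (1 / 2 - ‖z₀‖) / 2 with hsdef
  set m : ℝ := ‖deriv h z₀‖ with hmdef
  have hm : 0 < m := by
    by_contra hm
    have hm' : m = 0 := le_antisymm (not_lt.1 hm) (norm_nonneg _)
    rw [hm', mul_zero] at hz2
    linarith
  have hsub : ∀ z ∈ ball z₀ s, z ∈ ball (0 : ℂ) 1 := by
    intro z hz
    rw [mem_ball_iff_norm] at hz
    rw [mem_ball_zero_iff]
    have h1 : ‖z‖ ≤ ‖z - z₀‖ + ‖z₀‖ := by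
      simpa using norm_add_le (z - z₀) z₀
    have h2 := norm_nonneg z₀
    simp only [hsdef] at hz
    linarith
  have hRs : R < m * s := by nlinarith
  have hmC : (m : ℂ) ≠ 0 := by exact_mod_cast hm.ne'
  -- the rescaled curve
  set φ : ℂ → ℂ := fun ζ => z₀ + ζ / m with hφ
  have hφd : ∀ ζ, HasDerivAt φ (1 / m : ℂ) ζ := by
    intro ζ
    simpa [hφ] using ((hasDerivAt_id ζ).div_const (m : ℂ)).const_add z₀
  have hφm : ∀ ζ ∈ ball (0 : ℂ) R, φ ζ ∈ ball z₀ s := by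
    intro ζ hζ
    rw [mem_ball_zero_iff] at hζ
    rw [mem_ball_iff_norm]
    have h1 : φ ζ - z₀ = ζ / m := by simp [hφ]
    rw [h1, norm_div, Complex.norm_real, Real.norm_of_nonneg hm.le, div_lt_iff₀ hm]
    nlinarith
  have hdH : ∀ ζ ∈ ball (0 : ℂ) R, deriv (fun ζ => h (φ ζ)) ζ = (1 / m : ℂ) • deriv h (φ ζ) := by
    intro ζ hζ
    have h1 : DifferentiableAt ℂ h (φ ζ) := (hc.h_diff _ (hsub _ (hφm ζ hζ))).differentiableAt (isOpen_ball.mem_nhds (hsub _ (hφm ζ hζ)))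
    exact (h1.hasDerivAt.scomp ζ (hφd ζ)).deriv
  have hφ0 : φ 0 = z₀ := by simp [hφ]
  have hnm : ‖(1 / m : ℂ)‖ = 1 / m := by
    rw [norm_div, norm_one, Complex.norm_real, Real.norm_of_nonneg hm.le]
  have ha : ‖(1 / m : ℂ) • deriv h z₀‖ = 1 := by
    rw [norm_smul, hnm, ← hmdef]
    field_simp
  refine hno (fun ζ => w (φ ζ)) (fun ζ => h (φ ζ)) ((1 / m : ℂ) • deriv h z₀) ha.ge ha.le ?_ ?_
  · exact hc.comp (fun ζ _ => (hφd ζ).differentiableAt.differentiableWithinAt) fun ζ hζ => hsub _ (hφm ζ hζ)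
  · intro ζ hζ
    rw [hdH ζ hζ, ← smul_sub, norm_smul, hnm]
    have hmaps : Set.MapsTo (deriv h) (ball z₀ s) (closedBall (deriv h z₀) (3 * m)) := by
      intro z hz
      rw [mem_closedBall_iff_norm]
      have h1 := hz1 z hz
      have h2 := norm_sub_le (deriv h z) (deriv h z₀)
      rw [← hmdef] at h2
      linarith
    have h3 := Complex.dist_le_div_mul_dist_of_mapsTo_ball (hdd.mono hsub) hmaps (hφm ζ hζ)
    rw [dist_eq_norm, dist_eq_norm] at h3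
    have h4 : ‖φ ζ - z₀‖ ≤ R / m := by
      have h1 : φ ζ - z₀ = ζ / m := by simp [hφ]
      rw [h1, norm_div, Complex.norm_real, Real.norm_of_nonneg hm.le]
      rw [mem_ball_zero_iff] at hζ
      gcongr
    have h5 : ‖deriv h (φ ζ) - deriv h z₀‖ ≤ 3 * m / s * (R / m) := h3.trans (by gcongr)
    calc 1 / m * ‖deriv h (φ ζ) - deriv h z₀‖ ≤ 1 / m * (3 * m / s * (R / m)) := by gcongr
      _ = 3 * R / (m * s) := by field_simp
      _ ≤ η := by
        rw [div_le_iff₀ (by positivity)]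
        nlinarith

end Pool.Agent.PX

end

section

/-!
# PX BDp: `PD` gives `BD`
-/

set_option autoImplicit false

open Topology Filter Metric

namespace Pool.Agent.PX

open Pool.Agent.H36.BP (EN fs wd)
open Pool.Agent.AD (Vd)
open Pool.Agent.TG (Lat)

variable {k d r : ℕ} {Λ : AddSubgroup (Vd (k + 1))} {D : Set (Vd (k + 1))} {Bad : Vd (k + 1) → Set (Vd (k + 1))} {θ : Fin (d + 1) → Vd (k + 1) → ℂ}
  {W : Fin r → Vd (k + 1) →L[ℂ] ℂ}

theorem PD.bd (P : PD Λ D Bad θ W) : BD Λ θ := by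
  refine ⟨P.lat, le_trans (by norm_num) P.deg, P.an, fun l hl y => ?_, P.bound⟩
  obtain ⟨e, he, h⟩ := P.per l hl y
  refine ⟨e, fun h0 => ?_, h⟩
  rw [h0, norm_zero, zero_mul] at he
  exact (Real.exp_pos _).ne he

end Pool.Agent.PX

end
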