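import Pool.Agent.H94.PX2.M34
import Pool.Agent.H94.PX2.M36
import Pool.Agent.H94.PX2.M65

/-! The parts of this file: H7.Qup.Defs_1, H7.Qup.Bd. -/

section

/-!
# Qup Defs: dominant regular maps of quasi-projective varieties
-/

set_option autoImplicit false

open Topology Filter MvPolynomial

noncomputable section

namespace Pool.Agent.H7.Qup

open Pool.Agent.H17 (PN VanishesAt)
open Pool.Agent.H62.FC (Homog)
open Pool.Agent.H62.SA (locVar)
open Pool.Agent.H7.Bir (vals rmap mem_of_open)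

variable {N M : ℕ}

variable {P : Ideal (MvPolynomial (Fin (N + 1)) ℂ)} {P' : Ideal (MvPolynomial (Fin (M + 1)) ℂ)} {s s' : ℕ}
  {G : Fin s → MvPolynomial (Fin (N + 1)) ℂ} {G' : Fin s' → MvPolynomial (Fin (M + 1)) ℂ} {p : PN M → PN N}

/-- The forms `γ i` represent `p` on `U'`. -/
structure Rep (P' : Ideal (MvPolynomial (Fin (M + 1)) ℂ)) (G' : Fin s' → MvPolynomial (Fin (M + 1)) ℂ) (p : PN M → PN N) (D : ℕ)
    (γ : Fin (N + 1) → MvPolynomial (Fin (M + 1)) ℂ) : Prop where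
  hom : ∀ i, (γ i).IsHomogeneous D
  rep : ∀ y ∈ locVar P' G', vals γ y.rep ≠ 0 → p y = rmap γ y

theorem IsDominantMap.exists_rep (hp : IsDominantMap P P' G G' p) {y : PN M} (hy : y ∈ locVar P' G') :
    ∃ (D : ℕ) (γ : Fin (N + 1) → MvPolynomial (Fin (M + 1)) ℂ), Rep P' G' p D γ ∧ vals γ y.rep ≠ 0 := by
  obtain ⟨D, γ, h1, h2, h3⟩ := hp.regular y hy
  exact ⟨D, γ, ⟨h1, h3⟩, h2⟩

theorem aeval_homog {γ : Fin (N + 1) → MvPolynomial (Fin (M + 1)) ℂ} {D : ℕ} (hγ : ∀ i, (γ i).IsHomogeneous D) {n : ℕ}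
    {Q : MvPolynomial (Fin (N + 1)) ℂ} (hQ : Q.IsHomogeneous n) : (aeval γ Q).IsHomogeneous (D * n) :=
  hQ.aeval _ hγ

theorem eval_smul {n : ℕ} {Q : MvPolynomial (Fin (N + 1)) ℂ} (hQ : Q.IsHomogeneous n) (c : ℂ) (x : Fin (N + 1) → ℂ) :
    eval (c • x) Q = c ^ n * eval x Q :=
  Pool.Agent.H17BP.eval_smul_form hQ c x

/-- Two systems of forms which represent `p` are proportional at every point. -/
theorem Rep.prop {D D' : ℕ} {γ γ' : Fin (N + 1) → MvPolynomial (Fin (M + 1)) ℂ} (h : Rep P' G' p D γ) (h' : Rep P' G' p D' γ')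
    {y : PN M} (hy : y ∈ locVar P' G') (i j : Fin (N + 1)) :
    eval y.rep (γ i) * eval y.rep (γ' j) = eval y.rep (γ j) * eval y.rep (γ' i) := by
  by_cases h1 : vals γ y.rep = 0
  · have h2 : ∀ i, eval y.rep (γ i) = 0 := fun i => congrFun h1 i
    rw [h2 i, h2 j]
    ring
  by_cases h3 : vals γ' y.rep = 0
  · have h2 : ∀ i, eval y.rep (γ' i) = 0 := fun i => congrFun h3 i
    rw [h2 i, h2 j]
    ring
  have h4 : rmap γ y = rmap γ' y := by
    rw [← h.rep y hy h1, ← h'.rep y hy h3]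
  unfold Pool.Agent.H7.Bir.rmap at h4
  rw [dif_pos h1, dif_pos h3, Projectivization.mk_eq_mk_iff'] at h4
  obtain ⟨a, ha⟩ := h4
  have h5 : ∀ i, eval y.rep (γ i) = a * eval y.rep (γ' i) := fun i => (congrFun ha i).symm
  rw [h5 i, h5 j]
  ring

/-- The value of a form at the image of a point. -/
theorem Rep.vanishes_iff {D : ℕ} {γ : Fin (N + 1) → MvPolynomial (Fin (M + 1)) ℂ} (h : Rep P' G' p D γ) {y : PN M} (hy : y ∈ locVar P' G')
    (hv : vals γ y.rep ≠ 0) {n : ℕ} {Q : MvPolynomial (Fin (N + 1)) ℂ} (hQ : Q.IsHomogeneous n) :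
    VanishesAt Q (p y) ↔ eval y.rep (aeval γ Q) = 0 := by
  rw [h.rep y hy hv, Pool.Agent.H7.Bir.vanishesAt_rmap hv hQ]
  rfl

/-- The forms which represent `p` define a dominant rational map. -/
theorem IsDominantMap.maps_iff [P.IsPrime] [P'.IsPrime] (hp : IsDominantMap P P' G G' p) (hP' : Homog P')
    (hG' : ∀ m, ∃ n, (G' m).IsHomogeneous n) {D : ℕ} {γ : Fin (N + 1) → MvPolynomial (Fin (M + 1)) ℂ} (hγ : Rep P' G' p D γ)
    (hne : ∃ y ∈ locVar P' G', vals γ y.rep ≠ 0) (n : ℕ) (Q : MvPolynomial (Fin (N + 1)) ℂ) (hQ : Q.IsHomogeneous n) :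
    aeval γ Q ∈ P' ↔ Q ∈ P := by
  obtain ⟨y₀, hy₀, hne⟩ := hne
  have hnon : (locVar P' G').Nonempty := ⟨y₀, hy₀⟩
  constructor
  · intro h
    refine hp.dense Q n hQ fun y' hy' => ?_
    obtain ⟨D', γ', hγ', hne'⟩ := hp.exists_rep hy'
    rw [hγ'.vanishes_iff hy' hne' hQ]
    obtain ⟨j, hj⟩ : ∃ j, eval y₀.rep (γ j) ≠ 0 := by
      by_contra hcon
      push Not at hcon
      exact hne (funext hcon)
    have hjP : γ j ∉ P' := fun h1 => hj (hy₀.1 _ h1 D (hγ.hom j))
    have hmem : γ j ^ n * aeval γ' Q ∈ P' := by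
      refine mem_of_open hP' hG' hnon (((hγ.hom j).pow n).mul (aeval_homog hγ'.hom hQ)) fun y hy => ?_
      have h3 : eval y.rep (aeval γ Q) = 0 := hy.1 _ h _ (aeval_homog hγ.hom hQ)
      unfold VanishesAt
      rw [map_mul, map_pow, Pool.Agent.H7.Bir.eval_comp, ← eval_smul hQ]
      have h4 : eval y.rep (γ j) • vals γ' y.rep = eval y.rep (γ' j) • vals γ y.rep := by
        funext i
        have h5 := hγ.prop hγ' hy j i
        change eval y.rep (γ j) * eval y.rep (γ' i) = eval y.rep (γ' j) * eval y.rep (γ i)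
        rw [h5, mul_comm]
      rw [h4, eval_smul hQ, ← Pool.Agent.H7.Bir.eval_comp, h3, mul_zero]
    rcases Ideal.IsPrime.mem_or_mem inferInstance hmem with h1 | h1
    · exact absurd (Ideal.IsPrime.mem_of_pow_mem inferInstance n h1) hjP
    · exact hy'.1 _ h1 _ (aeval_homog hγ'.hom hQ)
  · intro h
    refine mem_of_open hP' hG' hnon (aeval_homog hγ.hom hQ) fun y hy => ?_
    have h2 : eval (p y).rep Q = 0 := (hp.maps y hy).1 Q h n hQ
    by_cases h1 : vals γ y.rep = 0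
    · unfold VanishesAt
      rw [Pool.Agent.H7.Bir.eval_comp, h1]
      have h3 := eval_smul hQ 0 (p y).rep
      rw [zero_smul, h2, mul_zero] at h3
      exact h3
    · exact (hγ.vanishes_iff hy h1 hQ).1 h2

end Pool.Agent.H7.Qup

end
end

section

/-!
# Qup Bd: the boundary and dominant regular maps

`exists_compat`: a dominant regular map `p : U' → U` gives an embedding `e` of the function field of `U` in the function field of `U'`.  `onBd_over`: if the
prime divisor `E` over `U'` lies over the prime divisor `D` over `U` and `D` is centred on the boundary of `U`, then `E` is centred on the boundary of `U'`.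
`logGT_up`: if `U` is of log general type, and `U'` has the same dimension, then `U'` is of log general type.
-/

set_option autoImplicit false

open MvPolynomial

noncomputable section

namespace Pool.Agent.H7.Qup

open Pool.Agent.H17 (PN VanishesAt vanishesAt_mk_iff)
open Pool.Agent.H17GT (coordFun)
open Pool.Agent.H17LG.Variety (FunField ratio IsLogGeneralType)
open Pool.Agent.H23.Fano (PrimeDivisorOver)
open Pool.Agent.H62.FC (Homog)
open Pool.Agent.H62.SA (locVar OnBd)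
open Pool.Agent.H17R (gen gen_eq_zero_iff ratio_self coordFun_ne_zero_iff gen_change exists_center ord_gen_nonneg ratio_ne_zero_iff)
open Pool.Agent.H7.Bir (vals rmap mem_of_open)

variable {N M : ℕ} {P : Ideal (MvPolynomial (Fin (N + 1)) ℂ)} {P' : Ideal (MvPolynomial (Fin (M + 1)) ℂ)} {s s' : ℕ}
  {G : Fin s → MvPolynomial (Fin (N + 1)) ℂ} {G' : Fin s' → MvPolynomial (Fin (M + 1)) ℂ} {p : PN M → PN N}

theorem ratio_change' [P.IsPrime] {i i₀ i₁ : Fin (N + 1)} (h₁ : coordFun P i₁ ≠ 0) :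
    ratio P i i₀ = ratio P i₁ i₀ * ratio P i i₁ := by
  apply Subtype.ext
  change coordFun P i / coordFun P i₀ =
    coordFun P i₁ / coordFun P i₀ * (coordFun P i / coordFun P i₁)
  rw [div_mul_div_comm, mul_comm (coordFun P i₁) (coordFun P i), mul_div_mul_right _ _ h₁]

theorem exists_coord {y : PN M} (hy : y ∈ locVar P' G') : ∃ j, (X j : MvPolynomial (Fin (M + 1)) ℂ) ∉ P' := by
  by_contra hcon
  push Not at hcon
  have h1 : ∀ i, y.rep i = 0 := by
    intro i
    have h2 := hy.1 _ (hcon i) 1 (isHomogeneous_X ℂ i)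
    unfold VanishesAt at h2
    rwa [eval_X] at h2
  exact y.rep_nonzero (funext h1)

/-- The embedding of the function fields corresponds to the map `p`. -/
def Compat (P : Ideal (MvPolynomial (Fin (N + 1)) ℂ)) [P.IsPrime] (P' : Ideal (MvPolynomial (Fin (M + 1)) ℂ)) [P'.IsPrime]
    (G' : Fin s' → MvPolynomial (Fin (M + 1)) ℂ) (p : PN M → PN N) (e : FunField P →ₐ[ℂ] FunField P') : Prop :=
  ∀ (D : ℕ) (γ : Fin (N + 1) → MvPolynomial (Fin (M + 1)) ℂ), Rep P' G' p D γ → (∃ y ∈ locVar P' G', vals γ y.rep ≠ 0) →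
    ∀ j', X j' ∉ P' → ∀ i₀, X i₀ ∉ P → ∀ i, e (ratio P i i₀) * gen P' j' (γ i₀) = gen P' j' (γ i)

/-- The polynomials which vanish at the centre of `E`. -/
def ctr [P.IsPrime] {w : ℕ} (E : PrimeDivisorOver (FunField P) w) {j : Fin (N + 1)} (h : ∀ i, 0 ≤ E.ord (ratio P i j)) :
    Ideal (MvPolynomial (Fin (N + 1)) ℂ) where
  carrier := {R | 0 < E.ord (gen P j R)}
  add_mem' := by
    intro a b ha hb
    change 0 < E.ord (aeval _ (a + b))
    rw [map_add]
    exact (lt_min ha hb).trans_le (E.ord.map_add _ _)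
  zero_mem' := by
    change 0 < E.ord (aeval _ 0)
    rw [map_zero, E.ord.map_zero]
    exact WithTop.coe_lt_top 0
  smul_mem' := by
    intro c x hx
    change 0 < E.ord (aeval _ (c * x))
    rw [map_mul, E.ord.map_mul]
    exact lt_of_lt_of_le hx (le_add_of_nonneg_left (ord_gen_nonneg E h c))

theorem mem_ctr [P.IsPrime] {w : ℕ} {E : PrimeDivisorOver (FunField P) w} {j : Fin (N + 1)} {h : ∀ i, 0 ≤ E.ord (ratio P i j)}
    {R : MvPolynomial (Fin (N + 1)) ℂ} : R ∈ ctr E h ↔ 0 < E.ord (gen P j R) := Iff.rfl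

theorem notMem_ctr [P.IsPrime] {w : ℕ} {E : PrimeDivisorOver (FunField P) w} {j : Fin (N + 1)} {h : ∀ i, 0 ≤ E.ord (ratio P i j)}
    {R : MvPolynomial (Fin (N + 1)) ℂ} : R ∉ ctr E h ↔ E.ord (gen P j R) = 0 := by
  rw [mem_ctr, not_lt]
  exact ⟨fun h1 => le_antisymm h1 (ord_gen_nonneg E h R), fun h1 => h1.le⟩

instance ctr_isPrime [P.IsPrime] {w : ℕ} (E : PrimeDivisorOver (FunField P) w) {j : Fin (N + 1)} (h : ∀ i, 0 ≤ E.ord (ratio P i j)) :
    (ctr E h).IsPrime where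
  ne_top' := by
    rw [Ideal.ne_top_iff_one, notMem_ctr]
    unfold gen
    rw [map_one, E.ord.map_one]
  mem_or_mem' := by
    intro a b hab
    by_contra hcon
    rw [not_or, notMem_ctr, notMem_ctr] at hcon
    rw [mem_ctr] at hab
    unfold gen at hab hcon
    rw [map_mul, E.ord.map_mul, hcon.1, hcon.2, add_zero] at hab
    exact lt_irrefl _ hab

/-- Points of the centre. -/
theorem exists_ctr_point [P.IsPrime] {w : ℕ} (E : PrimeDivisorOver (FunField P) w) {j : Fin (N + 1)} (hj : coordFun P j ≠ 0)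
    (h : ∀ i, 0 ≤ E.ord (ratio P i j)) {R : MvPolynomial (Fin (N + 1)) ℂ} (hR : R ∉ ctr E h) :
    ∃ v : Fin (N + 1) → ℂ, v ≠ 0 ∧ (∀ Q ∈ ctr E h, eval v Q = 0) ∧ eval v R ≠ 0 := by
  rw [← MvPolynomial.IsPrime.vanishingIdeal_zeroLocus (K := ℂ) (ctr E h), MvPolynomial.mem_vanishingIdeal_iff] at hR
  push Not at hR
  obtain ⟨v, hv, hvR⟩ := hR
  rw [MvPolynomial.aeval_eq_eval] at hvR
  have hv' : ∀ Q ∈ ctr E h, eval v Q = 0 := fun Q hQ => by
    have h1 := hv Q hQ
    rwa [MvPolynomial.aeval_eq_eval] at h1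
  refine ⟨v, ?_, hv', hvR⟩
  rintro rfl
  have h1 : (X j - 1 : MvPolynomial (Fin (N + 1)) ℂ) ∈ ctr E h := by
    rw [mem_ctr]
    unfold gen
    rw [map_sub, aeval_X, ratio_self hj, map_one, sub_self, E.ord.map_zero]
    exact WithTop.coe_lt_top 0
  have h2 := hv' _ h1
  rw [map_sub, eval_X, map_one] at h2
  norm_num at h2

theorem le_ctr [P.IsPrime] {w : ℕ} {E : PrimeDivisorOver (FunField P) w} {j : Fin (N + 1)} (hj : coordFun P j ≠ 0)
    {h : ∀ i, 0 ≤ E.ord (ratio P i j)} {n : ℕ} {R : MvPolynomial (Fin (N + 1)) ℂ} (hR : R.IsHomogeneous n) (hRP : R ∈ P) : R ∈ ctr E h := by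
  rw [mem_ctr, (gen_eq_zero_iff hj hR).2 hRP, E.ord.map_zero]
  exact WithTop.coe_lt_top 0

/-- **The boundary is mapped to the boundary.** -/
theorem onBd_over [P.IsPrime] [P'.IsPrime] (hp : IsDominantMap P P' G G' p) (hP' : Homog P')
    (hG : ∀ m, ∃ n, (G m).IsHomogeneous n) (hG' : ∀ m, ∃ n, (G' m).IsHomogeneous n)
    {e : FunField P →ₐ[ℂ] FunField P'} (he : Compat P P' G' p e) {k : ℕ} {D : PrimeDivisorOver (FunField P) k}
    {E : PrimeDivisorOver (FunField P') k} {r : ℕ} (hr : 0 < r)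
    (hDE : ∀ f : FunField P, f ≠ 0 → ∃ n : ℤ, D.ord f = n ∧ E.ord (e f) = ((r * n : ℤ) : WithTop ℤ)) (hne : (locVar P' G').Nonempty)
    (hD : OnBd P G D) : OnBd P' G' E := by
  obtain ⟨y₀, hy₀⟩ := hne
  obtain ⟨j₁, hj₁⟩ := exists_coord hy₀
  obtain ⟨j', hj', hE⟩ := exists_center E (coordFun_ne_zero_iff.2 hj₁)
  refine ⟨j', hj', hE, fun m => ?_⟩
  by_contra hcon
  have h1 : G' m ∉ ctr E hE := hcon
  obtain ⟨v, hv0, hv, hvG⟩ := exists_ctr_point E hj' hE h1
  set y : PN M := Projectivization.mk ℂ v hv0 with hy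
  have hyU : y ∈ locVar P' G' := by
    refine ⟨fun Q hQ n hn => ?_, m, ?_⟩
    · rw [hy, vanishesAt_mk_iff hn]
      exact hv _ (le_ctr hj' hn hQ)
    · obtain ⟨d, hd⟩ := hG' m
      rw [hy, vanishesAt_mk_iff hd]
      exact hvG
  obtain ⟨Dγ, γ, hγ, hvγ⟩ := hp.exists_rep hyU
  have hval : ∀ {n : ℕ} {R : MvPolynomial (Fin (M + 1)) ℂ}, R.IsHomogeneous n → eval y.rep R ≠ 0 → E.ord (gen P' j' R) = 0 := by
    intro n R hR hyR
    rw [← notMem_ctr (h := hE)]
    intro h2
    apply hyR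
    have h3 := (vanishesAt_mk_iff hR v hv0).2 (hv R h2)
    exact h3
  obtain ⟨i₁, hi₁⟩ : ∃ i, eval y.rep (γ i) ≠ 0 := by
    by_contra hcon
    push Not at hcon
    exact hvγ (funext hcon)
  have hγi : E.ord (gen P' j' (γ i₁)) = 0 := hval (hγ.hom i₁) hi₁
  have hmaps := hp.maps_iff hP' hG' hγ ⟨y, hyU, hvγ⟩
  have hXi : X i₁ ∉ P := by
    intro h2
    rw [← hmaps 1 _ (isHomogeneous_X ℂ i₁), aeval_X] at h2
    exact hi₁ (hyU.1 _ h2 _ (hγ.hom i₁))
  have hci : coordFun P i₁ ≠ 0 := coordFun_ne_zero_iff.2 hXi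
  have hXj' : X j' ∉ P' := coordFun_ne_zero_iff.1 hj'
  have hcomp := he Dγ γ hγ ⟨y, hyU, hvγ⟩ j' hXj' i₁ hXi
  have hgne : gen P' j' (γ i₁) ≠ 0 := by
    intro h2
    rw [h2, E.ord.map_zero] at hγi
    exact WithTop.top_ne_zero hγi
  -- from `E` to `D`
  have hnn : ∀ f : FunField P, 0 ≤ E.ord (e f) → 0 ≤ D.ord f := by
    intro f hf
    by_cases hf0 : f = 0
    · rw [hf0, D.ord.map_zero]
      exact le_top
    · obtain ⟨n, hn, hn'⟩ := hDE f hf0
      rw [hn'] at hf
      rw [hn]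
      have h2 : (0 : ℤ) ≤ r * n := by exact_mod_cast hf
      have h3 : (0 : ℤ) ≤ n := nonneg_of_mul_nonneg_right h2 (by exact_mod_cast hr)
      exact_mod_cast h3
  have hzz : ∀ f : FunField P, E.ord (e f) = 0 → D.ord f = 0 := by
    intro f hf
    by_cases hf0 : f = 0
    · rw [hf0, map_zero, E.ord.map_zero] at hf
      exact absurd hf WithTop.top_ne_zero
    · obtain ⟨n, hn, hn'⟩ := hDE f hf0
      rw [hn'] at hf
      rw [hn]
      have h2 : (r : ℤ) * n = 0 := by exact_mod_cast hf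
      have h3 : n = 0 := by
        rcases mul_eq_zero.1 h2 with h4 | h4
        · omega
        · exact h4
      rw [h3]
      rfl
  have hD1 : ∀ i, 0 ≤ D.ord (ratio P i i₁) := by
    intro i
    apply hnn
    have h2 := congrArg E.ord (hcomp i)
    rw [E.ord.map_mul, hγi, add_zero] at h2
    rw [h2]
    exact ord_gen_nonneg E hE _
  -- a form `G m` which does not vanish at the image
  obtain ⟨-, m₁, hm₁⟩ := hp.maps y hyU
  obtain ⟨d, hd⟩ := hG m₁
  have h5 : E.ord (gen P' j' (aeval γ (G m₁))) = 0 := by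
    refine hval (aeval_homog hγ.hom hd) fun h6 => hm₁ ?_
    rw [hγ.vanishes_iff hyU hvγ hd]
    exact h6
  have h6 : e (gen P i₁ (G m₁)) * gen P' j' (γ i₁) ^ d = gen P' j' (aeval γ (G m₁)) := by
    have h7 : ∀ i, e (ratio P i i₁) = gen P' j' (γ i) / gen P' j' (γ i₁) := fun i => by
      rw [eq_div_iff hgne]
      exact hcomp i
    have h8 : e (gen P i₁ (G m₁)) = aeval (fun i => gen P' j' (γ i) / gen P' j' (γ i₁)) (G m₁) := by
      unfold gen
      have h9 : e (aeval (fun i => ratio P i i₁) (G m₁)) = aeval (fun i => e (ratio P i i₁)) (G m₁) := by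
        rw [← AlgHom.comp_apply, MvPolynomial.comp_aeval]
      rw [h9]
      congr 2
      funext i
      exact h7 i
    have h10 : gen P' j' (aeval γ (G m₁)) = gen P' j' (γ i₁) ^ d * aeval (fun i => gen P' j' (γ i) / gen P' j' (γ i₁)) (G m₁) := by
      unfold gen
      rw [Pool.Agent.H7.Bir.aeval_comp]
      exact Pool.Agent.H7.Bir.aeval_div hd hgne _
    rw [h8, h10, mul_comm]
  have h7 : D.ord (gen P i₁ (G m₁)) = 0 := by
    apply hzz
    have h8 := congrArg E.ord h6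
    rw [E.ord.map_mul, E.ord.map_pow, hγi, smul_zero, add_zero, h5] at h8
    exact h8
  -- compare with the coordinate `j`
  obtain ⟨j, hj, hDj, hDG⟩ := hD
  have h8 : D.ord (ratio P i₁ j) = 0 := by
    have h9 : ratio P j j = ratio P i₁ j * ratio P j i₁ := ratio_change' hci
    have h10 := congrArg D.ord h9
    rw [ratio_self hj, D.ord.map_one, D.ord.map_mul] at h10
    refine le_antisymm ?_ (hDj i₁)
    rw [h10]
    exact le_add_of_nonneg_right (hD1 j)
  have h9 := hDG m₁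
  have h10 : gen P j (G m₁) = ratio P i₁ j ^ d * gen P i₁ (G m₁) := gen_change hci hd
  change 0 < D.ord (gen P j (G m₁)) at h9
  rw [h10, D.ord.map_mul, D.ord.map_pow, h8, smul_zero, zero_add, h7] at h9
  exact lt_irrefl _ h9

end Pool.Agent.H7.Qup

end
end
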