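import Pool.Agent.H94.PX2.M32
import Pool.Agent.H94.PX2.M37
import Pool.Agent.H94.PX2.M44
import Pool.Agent.H94.PX2.M66

/-! The parts of this file: PX.Kob, PX.F.KobF. -/

section

/-!
# PX Kob: the Kobayashi metric near the fibres with three points

As `Lip`: if there are curves with `h n 0 → y` and `fs (w n 0) (w n' 0) → ∞`, `AD.rescale_disc` on discs in which `h n` stays near `y` (`‖h'‖ ≤ H`), the limit of the rescaled curves is an entire curve `G` in the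
fibre over `y`, by Hurwitz `Fo θ y (G z)` has no zero or is identically `0`: constant by `fib_const`, or because the form over `y` is not `0` (`pr (G z)` is in a finite set).
-/

set_option autoImplicit false

open Topology Filter Metric

namespace Pool.Agent.PX

open Pool.Agent.H36.BP (EN fs wd)
open Pool.Agent.H62.EF (MN pr)
open Pool.Agent.AD (Vd)
open Pool.Agent.TG (Lat)
open Pool.Agent.G3 (wt LLift)
open Pool.Agent.G4 (Few)

variable {k d r : ℕ}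

private theorem Kob_ex_ne {θ : Fin (d + 1) → Vd (k + 1) → ℂ} {y₀ : Vd (k + 1)} (h0 : ∃ i, θ i y₀ ≠ 0) : ∃ b : EN 1, Fo θ y₀ b ≠ 0 := by
  obtain ⟨i₀, hi⟩ := h0
  let Q : Polynomial ℂ := ∑ i : Fin (d + 1), Polynomial.monomial (i : ℕ) (θ i y₀)
  have hQ : Q ≠ 0 := by
    intro hz
    apply hi
    have h1 : Q.coeff (i₀ : ℕ) = 0 := by rw [hz]; simp
    rw [Polynomial.finsetSum_coeff, Finset.sum_eq_single i₀] at h1
    · simpa using h1
    · intro j _ hj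
      rw [Polynomial.coeff_monomial, if_neg]
      intro he
      exact hj (Fin.ext he)
    · intro h
      exact absurd (Finset.mem_univ _) h
  obtain ⟨t, ht⟩ : ∃ t, Q.eval t ≠ 0 := by
    by_contra hcon
    push Not at hcon
    exact hQ (Polynomial.funext fun t => by rw [hcon t]; simp)
  refine ⟨!₂[t, 1], ?_⟩
  have h1 : Fo θ y₀ !₂[t, 1] = Q.eval t := by
    unfold Fo
    rw [Polynomial.eval_finsetSum]
    refine Finset.sum_congr rfl fun i _ => ?_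
    rw [Polynomial.eval_monomial]
    simp
  rw [h1]
  exact ht

private theorem Kob_cont {θ : Fin (d + 1) → Vd (k + 1) → ℂ} (han : ∀ i, Differentiable ℂ (θ i)) (y : Vd (k + 1)) : Continuous fun x => Fo θ y x := by
  have h := (fo_diff han).continuous
  exact h.comp (continuous_const.prodMk continuous_id)

private theorem Kob_coord {G : ℂ → EN 1} (hG : Differentiable ℂ G) (i : Fin 2) : Differentiable ℂ fun z => G z i :=
  ((EuclideanSpace.proj i : EN 1 →L[ℂ] ℂ).differentiable).comp hG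

/-- an entire curve in the zero set of a form which is not `0` is constant -/
private theorem Kob_zero {θ : Fin (d + 1) → Vd (k + 1) → ℂ} (han : ∀ i, Differentiable ℂ (θ i)) {y : Vd (k + 1)} (h0 : ∃ i, θ i y ≠ 0) {G : ℂ → EN 1}
    (hG : Differentiable ℂ G) (hG0 : ∀ z, G z ≠ 0) (hF : ∀ z, Fo θ y (G z) = 0) (z w : ℂ) : ∃ c : ℂ, G z = c • G w := by
  obtain ⟨b, hb⟩ := Kob_ex_ne h0
  have hb0 : b ≠ 0 := by
    rintro rfl
    have h1 : Fo θ y (G 0) = 0 := hF 0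
    -- the form is not `0` at `0` only if `d = 0`
    apply hb
    have h2 : Fo θ y ((0 : ℂ) • G 0) = 0 := by
      rw [fo_smul, h1, mul_zero]
    rwa [zero_smul] at h2
  have hdb : ∀ u, dt b (G u) ≠ 0 := by
    intro u h
    obtain ⟨c, hc⟩ := (dt_eq_zero hb0).1 h
    have hc0 : c ≠ 0 := by
      rintro rfl
      apply hG0 u
      rw [hc, zero_smul]
    have h1 := hF u
    rw [hc, fo_smul] at h1
    exact (mul_ne_zero (pow_ne_zero _ hc0) hb) h1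
  obtain ⟨b', hb'⟩ : ∃ b' : EN 1, dt b b' ≠ 0 := ⟨G 0, hdb 0⟩
  -- the coordinate
  set f : ℂ → ℂ := fun u => dt (G u) b' / dt b (G u) with hfdef
  have hdec : ∀ u, G u = (dt b (G u) / dt b b') • (b' + f u • b) := by
    intro u
    have h1 := hdb u
    have h2 : dt b b' • G u = dt (G u) b' • b + dt b (G u) • b' := by
      ext i
      fin_cases i
      · simp only [dt, PiLp.smul_apply, PiLp.add_apply, smul_eq_mul, Fin.zero_eta, Fin.isValue]
        ring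
      · simp only [dt, PiLp.smul_apply, PiLp.add_apply, smul_eq_mul, Fin.mk_one, Fin.isValue]
        ring
    have h3 : G u = (dt b b')⁻¹ • (dt (G u) b' • b + dt b (G u) • b') := by
      rw [← h2, smul_smul, inv_mul_cancel₀ hb', one_smul]
    rw [hfdef]
    simp only []
    conv_lhs => rw [h3]
    rw [smul_add, smul_add, smul_smul, smul_smul, smul_smul, add_comm]
    congr 1
    · congr 1
      field_simp
    · congr 1
      field_simp
  have hg0 : ∀ u, Fo θ y (b' + f u • b) = 0 := by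
    intro u
    have h1 := hF u
    rw [hdec u, fo_smul] at h1
    exact (mul_eq_zero.1 h1).resolve_left (pow_ne_zero _ (div_ne_zero (hdb u) hb'))
  -- the polynomial is not `0`
  obtain ⟨t₀, ht₀⟩ : ∃ t₀ : ℂ, Fo θ y (b' + t₀ • b) ≠ 0 := by
    by_contra hcon
    push Not at hcon
    have hc : Continuous fun s : ℂ => Fo θ y (s • b' + b) := (Kob_cont han y).comp ((continuous_id.smul continuous_const).add continuous_const)
    have h1 : ∀ᶠ s in 𝓝 (0 : ℂ), Fo θ y (s • b' + b) ≠ 0 := hc.continuousAt.eventually_ne (by simpa using hb)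
    have h2 : ∀ᶠ s in 𝓝[≠] (0 : ℂ), Fo θ y (s • b' + b) ≠ 0 := h1.filter_mono nhdsWithin_le_nhds
    obtain ⟨s, hs, hs0⟩ := (h2.and self_mem_nhdsWithin).exists
    apply hs
    have hs0' : s ≠ 0 := hs0
    have h3 : s • b' + b = s • (b' + s⁻¹ • b) := by
      rw [smul_add, smul_smul, mul_inv_cancel₀ hs0', one_smul]
    rw [h3, fo_smul, hcon, mul_zero]
  obtain ⟨t₁, ht₁, hne⟩ : ∃ t₁ : ℂ, Fo θ y (b' + t₁ • b) ≠ 0 ∧ t₁ ≠ t₀ := by
    have hc : Continuous fun t : ℂ => Fo θ y (b' + t • b) := (Kob_cont han y).comp (continuous_const.add (continuous_id.smul continuous_const))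
    have h1 : ∀ᶠ t in 𝓝 t₀, Fo θ y (b' + t • b) ≠ 0 := hc.continuousAt.eventually_ne ht₀
    have h2 : ∀ᶠ t in 𝓝[≠] t₀, Fo θ y (b' + t • b) ≠ 0 := h1.filter_mono nhdsWithin_le_nhds
    obtain ⟨t, ht, ht0⟩ := (h2.and self_mem_nhdsWithin).exists
    exact ⟨t, ht, ht0⟩
  have hne' : t₁ - t₀ ≠ 0 := sub_ne_zero.2 hne
  have hfd : Differentiable ℂ f := by
    intro u
    have h1 : DifferentiableAt ℂ (fun u => dt (G u) b') u := by
      unfold dt
      exact (((Kob_coord hG 0) u).mul_const _).sub (((Kob_coord hG 1) u).mul_const _)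
    have h2 : DifferentiableAt ℂ (fun u => dt b (G u)) u := by
      unfold dt
      exact (((Kob_coord hG 1) u).const_mul _).sub (((Kob_coord hG 0) u).const_mul _)
    exact h1.div h2 (hdb u)
  have hp := Pool.Agent.H41.LR.little_picard (f := fun u => (f u - t₀) / (t₁ - t₀)) ((hfd.sub_const t₀).div_const _) (fun u => by
    constructor
    · intro h
      have h1 : f u - t₀ = 0 := by
        rcases div_eq_zero_iff.1 h with h2 | h2
        · exact h2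
        · exact absurd h2 hne'
      apply ht₀
      have h2 := hg0 u
      rwa [sub_eq_zero.1 h1] at h2
    · intro h
      rw [div_eq_one_iff_eq hne'] at h
      have h1 : f u = t₁ := by linear_combination h
      apply ht₁
      have h2 := hg0 u
      rwa [h1] at h2) z w
  have hfz : f z = f w := by
    have h1 : (f z - t₀) / (t₁ - t₀) = (f w - t₀) / (t₁ - t₀) := hp
    rw [div_left_inj' hne'] at h1
    linear_combination h1
  refine ⟨(dt b (G z) / dt b b') / (dt b (G w) / dt b b'), ?_⟩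
  have h1 := hdec z
  have h2 := hdec w
  have h3 : dt b (G w) / dt b b' ≠ 0 := div_ne_zero (hdb w) hb'
  rw [hfz] at h1
  have h4 : b' + f w • b = (dt b (G w) / dt b b')⁻¹ • G w := (eq_inv_smul_iff₀ h3).2 h2.symm
  rw [h4, smul_smul] at h1
  rw [div_eq_mul_inv (dt b (G z) / dt b b') (dt b (G w) / dt b b')]
  exact h1

/-- Hurwitz: the form is identically zero on the limit curve or has no zero -/
private lemma Kob_hur {θ : Fin (d + 1) → Vd (k + 1) → ℂ} (han : ∀ i, Differentiable ℂ (θ i)) {𝒰 : Ultrafilter ℕ} {g : ℕ → ℂ → EN 1} {hh : ℕ → ℂ → Vd (k + 1)} {w₀ : Vd (k + 1)} {G : ℂ → EN 1}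
    (hcp : ∀ n : ℕ, Cp θ (ball 0 ((n : ℝ) + 1)) (g n) (hh n)) (hρ : Tendsto (fun n : ℕ => (n : ℝ) + 1) 𝒰 atTop)
    (hlim : ∀ (z : ℕ → ℂ) (z₀ : ℂ), Tendsto z 𝒰 (𝓝 z₀) → Tendsto (fun n => hh n (z n)) 𝒰 (𝓝 w₀)) (hG : Differentiable ℂ G)
    (hloc : ∀ z₀, ∃ (r : ℝ) (φ : ℕ → ℂ → EN 1) (ψ : ℂ → EN 1), 0 < r ∧
        (∀ᶠ n in (𝒰 : Filter ℕ), DifferentiableOn ℂ (φ n) (ball z₀ r) ∧ ∀ z ∈ ball z₀ r, ∃ c : ℂ, c ≠ 0 ∧ φ n z = c • g n z) ∧
        DifferentiableOn ℂ ψ (ball z₀ r) ∧ (∀ z ∈ ball z₀ r, ∃ c : ℂ, c ≠ 0 ∧ ψ z = c • G z) ∧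
        TendstoLocallyUniformlyOn φ ψ 𝒰 (ball z₀ r)) :
    (∀ z, Fo θ w₀ (G z) = 0) ∨ ∀ z, Fo θ w₀ (G z) ≠ 0 := by
  by_cases hex : ∃ z₁, Fo θ w₀ (G z₁) = 0
  swap
  · right
    intro z hz
    exact hex ⟨z, hz⟩
  left
  obtain ⟨z₁, hz₁⟩ := hex
  obtain ⟨r, φ, ψ, hr, hφ, hψ, hψG, hconv⟩ := hloc z₁
  have hcont : Continuous fun p : Vd (k + 1) × EN 1 => Fo θ p.1 p.2 := (fo_diff han).continuous
  have hpair : Differentiable ℂ fun x : EN 1 => (w₀, x) := (differentiable_const w₀).prodMk differentiable_id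
  have hF0 : Differentiable ℂ fun x : EN 1 => Fo θ w₀ x :=
    Differentiable.comp (g := fun p : Vd (k + 1) × EN 1 => Fo θ p.1 p.2) (f := fun x : EN 1 => (w₀, x)) (fo_diff han) hpair
  have hbig : ∀ᶠ n : ℕ in (𝒰 : Filter ℕ), ball z₁ r ⊆ ball (0 : ℂ) ((n : ℝ) + 1) := by
    filter_upwards [hρ.eventually_gt_atTop (‖z₁‖ + r)] with n hn z hz
    rw [mem_ball, dist_eq_norm] at hz
    rw [mem_ball_zero_iff]
    have := norm_add_le (z - z₁) z₁
    rw [sub_add_cancel] at this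
    linarith
  have hH := Pool.Agent.H62.Log.hurwitz 𝒰 (φ := fun n z => Fo θ (hh n z) (φ n z)) (ψ := fun z => Fo θ w₀ (ψ z)) (a := z₁) (r := r)
    (by
      filter_upwards [hφ, hbig] with n hn hb
      have h9 : DifferentiableOn ℂ (fun z => (hh n z, φ n z)) (ball z₁ r) := ((hcp n).h_diff.mono hb).prodMk hn.1
      exact Differentiable.comp_differentiableOn (g := fun p : Vd (k + 1) × EN 1 => Fo θ p.1 p.2) (f := fun z => (hh n z, φ n z)) (fo_diff han) h9)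
    (by
      filter_upwards [hφ, hbig] with n hn hb z hz
      obtain ⟨c, hc, he⟩ := hn.2 z hz
      simp only [he]
      rw [fo_smul]
      exact mul_ne_zero (pow_ne_zero _ hc) ((hcp n).ne z (hb hz)))
    (Differentiable.comp_differentiableOn (g := fun x : EN 1 => Fo θ w₀ x) (f := ψ) hF0 hψ)
    (by
      intro z z₀ hz₀ hz
      have h1 := hlim z z₀ hz
      have h2 : Tendsto (fun n => φ n (z n)) 𝒰 (𝓝 (ψ z₀)) := by
        refine hconv.tendsto_comp (hψ.continuousOn.continuousWithinAt hz₀) hz₀ ?_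
        rw [tendsto_nhdsWithin_iff]
        exact ⟨hz, hz.eventually (isOpen_ball.mem_nhds hz₀)⟩
      exact Tendsto.comp (g := fun p : Vd (k + 1) × EN 1 => Fo θ p.1 p.2) (f := fun n => (hh n (z n), φ n (z n))) (hcont.tendsto (w₀, ψ z₀)) (h1.prodMk_nhds h2))
  have hz₁b : z₁ ∈ ball z₁ r := mem_ball_self hr
  have hloc0 : ∀ z ∈ ball z₁ r, Fo θ w₀ (G z) = 0 := by
    rcases hH with h | h
    · intro z hz
      obtain ⟨c, hc, he⟩ := hψG z hz
      have h1 := h z hz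
      simp only [he] at h1
      rw [fo_smul] at h1
      exact (mul_eq_zero.mp h1).resolve_left (pow_ne_zero _ hc)
    · exfalso
      obtain ⟨c, hc, he⟩ := hψG z₁ hz₁b
      apply h z₁ hz₁b
      simp only [he]
      rw [fo_smul, hz₁, mul_zero]
  have hf : Differentiable ℂ fun z => Fo θ w₀ (G z) := Differentiable.comp (g := fun x : EN 1 => Fo θ w₀ x) (f := G) hF0 hG
  have han' : AnalyticOnNhd ℂ (fun z => Fo θ w₀ (G z)) Set.univ := fun z _ => hf.analyticAt z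
  have h2 := han'.eqOn_zero_of_preconnected_of_eventuallyEq_zero isPreconnected_univ (Set.mem_univ z₁)
    (Filter.mem_of_superset (isOpen_ball.mem_nhds hz₁b) fun z hz => hloc0 z hz)
  intro z
  exact h2 (Set.mem_univ z)

theorem kob {θ : Fin (d + 1) → Vd (k + 1) → ℂ} (han : ∀ i, Differentiable ℂ (θ i)) {y : Vd (k + 1)} (h3 : R3 θ y) (h0 : ∃ i, θ i y ≠ 0) (H : ℝ) : ∃ C : ℝ, ∀ᶠ y' in 𝓝 y,
    ∀ (w : ℂ → EN 1) (h : ℂ → Vd (k + 1)), Cp θ (ball 0 (1 / 2)) w h → (∀ z ∈ ball (0 : ℂ) (1 / 2), ‖deriv h z‖ ≤ H) → h 0 = y' → fs (w 0) (deriv w 0) ≤ C := by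
  have hd1 : 1 ≤ d := by
    by_contra hd
    have hd0 : d = 0 := by omega
    subst hd0
    obtain ⟨x₁, -, -, e1, -⟩ := h3
    obtain ⟨i, hi⟩ := h0
    apply hi
    unfold Fo at e1
    have hi0 : i = 0 := Fin.ext (by
      have := i.2
      have h5 : ((0 : Fin (0 + 1)) : ℕ) = 0 := rfl
      rw [h5]
      omega)
    rw [hi0]
    simpa using e1
  by_contra hcon
  push Not at hcon
  -- the sequence
  have hbig : ∀ n : ℕ, ∃ (F : ℂ → EN 1) (h : ℂ → Vd (k + 1)), Cp θ (ball 0 (1 / 2)) F h ∧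
      (∀ z ∈ ball (0 : ℂ) (1 / 2), ‖deriv h z‖ ≤ H) ∧ ‖h 0 - y‖ < 1 / ((n : ℝ) + 1) ∧ 8 * ((n : ℝ) + 1) * ((n : ℝ) + 1) < fs (F 0) (deriv F 0) := by
    intro n
    have hpos : 0 < 1 / ((n : ℝ) + 1) := by positivity
    have h1 := (hcon (8 * ((n : ℝ) + 1) * ((n : ℝ) + 1))).and_eventually (ball_mem_nhds y hpos)
    obtain ⟨y', ⟨w, h, c1, c2, c3, c4⟩, hy'⟩ := h1.exists
    refine ⟨w, h, c1, c2, ?_, c4⟩
    rw [c3, ← dist_eq_norm]
    exact hy'
  choose F h hcp hder hy0 hFb using hbig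
  set s : ℕ → ℝ := fun n => 1 / (2 * ((n : ℝ) + 1)) with hsdef
  have hs : ∀ n, 0 < s n := by
    intro n
    rw [hsdef]
    positivity
  have hs2 : ∀ n, s n ≤ 1 / 2 := by
    intro n
    rw [hsdef]
    have h1 : (0 : ℝ) ≤ n := Nat.cast_nonneg n
    exact one_div_le_one_div_of_le (by norm_num) (by linarith)
  have hsub : ∀ n, ball (0 : ℂ) (s n) ⊆ ball (0 : ℂ) (1 / 2) := fun n => ball_subset_ball (hs2 n)
  have hF0 : ∀ n, ∀ z ∈ ball (0 : ℂ) (s n), F n z ≠ 0 := fun n z hz => Cp.w_ne hd1 (hcp n) (hsub n hz)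
  have hmul : ∀ n, ∀ z : ℂ, z ∈ ball (0 : ℂ) 1 → (s n : ℂ) * z ∈ ball (0 : ℂ) (s n) := by
    intro n z hz
    rw [mem_ball_zero_iff] at hz ⊢
    rw [norm_mul, Complex.norm_real, Real.norm_of_nonneg (hs n).le]
    calc s n * ‖z‖ < s n * 1 := mul_lt_mul_of_pos_left hz (hs n)
      _ = s n := mul_one _
  have hresc : ∀ n : ℕ, ∃ (z₀ : ℂ) (a : ℝ), 4 * ((n : ℝ) + 1) < a ∧
      (∀ ζ ∈ ball (0 : ℂ) (n + 1), ‖z₀ + ((a⁻¹ : ℝ) : ℂ) * ζ‖ ≤ 1 / 2) ∧
      fs (F n ((s n : ℂ) * z₀)) (deriv (fun ζ => F n ((s n : ℂ) * (z₀ + ((a⁻¹ : ℝ) : ℂ) * ζ))) 0) = 1 ∧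
      ∀ ζ ∈ ball (0 : ℂ) (n + 1), fs (F n ((s n : ℂ) * (z₀ + ((a⁻¹ : ℝ) : ℂ) * ζ)))
        (deriv (fun ζ => F n ((s n : ℂ) * (z₀ + ((a⁻¹ : ℝ) : ℂ) * ζ))) ζ) ≤ 2 := by
    intro n
    have hd : DifferentiableOn ℂ (fun z => F n ((s n : ℂ) * z)) (ball 0 1) :=
      ((hcp n).w_diff.mono (hsub n)).comp (differentiable_id.const_mul _).differentiableOn (hmul n)
    refine Pool.Agent.AD.rescale_disc hd (fun z hz => hF0 n _ (hmul n z hz)) n ?_
    have h1 : HasDerivAt (fun z : ℂ => (s n : ℂ) * z) (s n : ℂ) 0 := by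
      simpa using (hasDerivAt_id (0 : ℂ)).const_mul (s n : ℂ)
    have h2 : deriv (fun z => F n ((s n : ℂ) * z)) 0 = (s n : ℂ) • deriv (F n) 0 := by
      have h4 : HasDerivAt (F n) (deriv (F n) 0) ((s n : ℂ) * 0) := by
        rw [mul_zero]
        exact ((hcp n).w_diff.differentiableAt (isOpen_ball.mem_nhds (mem_ball_self (by norm_num)))).hasDerivAt
      exact (h4.scomp 0 h1).deriv
    rw [h2, Pool.Agent.H36.BP.fs_smul_right, Complex.norm_real, Real.norm_of_nonneg (hs n).le, mul_zero]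
    have h4 := hFb n
    have h5 : (0 : ℝ) < (n : ℝ) + 1 := by positivity
    calc 4 * ((n : ℝ) + 1) = s n * (8 * ((n : ℝ) + 1) * ((n : ℝ) + 1)) := by
          rw [hsdef]
          field_simp
          ring
      _ < s n * fs (F n 0) (deriv (F n) 0) := mul_lt_mul_of_pos_left h4 (hs n)
  choose z₀ a ha hz₀ h1 h2 using hresc
  have ha0 : ∀ n, 0 < a n := fun n => lt_trans (by positivity) (ha n)
  set g : ℕ → ℂ → EN 1 := fun n ζ => F n ((s n : ℂ) * (z₀ n + (((a n)⁻¹ : ℝ) : ℂ) * ζ)) with hgdef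
  set hh : ℕ → ℂ → Vd (k + 1) := fun n ζ => h n ((s n : ℂ) * (z₀ n + (((a n)⁻¹ : ℝ) : ℂ) * ζ)) with hhdef
  have hin : ∀ n : ℕ, ∀ ζ ∈ ball (0 : ℂ) ((n : ℝ) + 1), (s n : ℂ) * (z₀ n + (((a n)⁻¹ : ℝ) : ℂ) * ζ) ∈ ball (0 : ℂ) (s n) := by
    intro n ζ hζ
    apply hmul
    rw [mem_ball_zero_iff]
    have h3 := hz₀ n ζ hζ
    linarith
  have hcpg : ∀ n : ℕ, Cp θ (ball 0 ((n : ℝ) + 1)) (g n) (hh n) := by
    intro n
    exact (hcp n).comp (φ := fun ζ => (s n : ℂ) * (z₀ n + (((a n)⁻¹ : ℝ) : ℂ) * ζ))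
      (((differentiable_id.const_mul _).const_add _).const_mul _).differentiableOn fun ζ hζ => hsub n (hin n ζ hζ)
  have hg0 : ∀ n : ℕ, ∀ ζ ∈ ball (0 : ℂ) ((n : ℝ) + 1), g n ζ ≠ 0 := fun n ζ hζ => hF0 n _ (hin n ζ hζ)
  have hg1 : ∀ n, fs (g n 0) (deriv (g n) 0) = 1 := by
    intro n
    have h4 := h1 n
    rw [hgdef]
    simpa only [mul_zero, add_zero] using h4
  have hnear : ∀ n : ℕ, ∀ ζ ∈ ball (0 : ℂ) ((n : ℝ) + 1), ‖hh n ζ - y‖ ≤ (|H| + 1) * (1 / ((n : ℝ) + 1)) := by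
    intro n ζ hζ
    have h4 := hin n ζ hζ
    have h5 := (convex_ball (0 : ℂ) (1 / 2)).norm_image_sub_le_of_norm_deriv_le (f := h n) (C := H)
      (fun x hx => (hcp n).h_diff.differentiableAt (isOpen_ball.mem_nhds hx)) (hder n) (mem_ball_self (by norm_num)) (hsub n h4)
    rw [sub_zero] at h5
    rw [mem_ball_zero_iff] at h4
    have h6 : ‖h n ((s n : ℂ) * (z₀ n + (((a n)⁻¹ : ℝ) : ℂ) * ζ)) - h n 0‖ ≤ |H| * s n := by
      refine h5.trans ?_
      exact (mul_le_mul_of_nonneg_right (le_abs_self H) (norm_nonneg _)).trans (mul_le_mul_of_nonneg_left h4.le (abs_nonneg H))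
    have h7 : s n ≤ 1 / ((n : ℝ) + 1) := by
      rw [hsdef]
      have h8 : (0 : ℝ) ≤ n := Nat.cast_nonneg n
      exact one_div_le_one_div_of_le (by positivity) (by linarith)
    have h8 : hh n ζ - y = (h n ((s n : ℂ) * (z₀ n + (((a n)⁻¹ : ℝ) : ℂ) * ζ)) - h n 0) + (h n 0 - y) := by
      rw [hhdef]
      simp
    rw [h8]
    calc ‖(h n ((s n : ℂ) * (z₀ n + (((a n)⁻¹ : ℝ) : ℂ) * ζ)) - h n 0) + (h n 0 - y)‖
        ≤ ‖h n ((s n : ℂ) * (z₀ n + (((a n)⁻¹ : ℝ) : ℂ) * ζ)) - h n 0‖ + ‖h n 0 - y‖ := norm_add_le _ _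
      _ ≤ |H| * s n + 1 / ((n : ℝ) + 1) := add_le_add h6 (hy0 n).le
      _ ≤ |H| * (1 / ((n : ℝ) + 1)) + 1 / ((n : ℝ) + 1) := add_le_add (mul_le_mul_of_nonneg_left h7 (abs_nonneg H)) le_rfl
      _ = (|H| + 1) * (1 / ((n : ℝ) + 1)) := by ring
  set 𝒰 : Ultrafilter ℕ := hyperfilter ℕ with h𝒰
  have hle : (𝒰 : Filter ℕ) ≤ atTop := Nat.hyperfilter_le_atTop
  have hρ : Tendsto (fun n : ℕ => (n : ℝ) + 1) 𝒰 atTop :=
    (tendsto_atTop_add_const_right _ _ tendsto_natCast_atTop_atTop).mono_left hle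
  obtain ⟨G, hG, hGX, -, hfs, hloc⟩ := Pool.Agent.H62.EF.limit_curves (Pool.Agent.TG.isCone_ne (N := 1)) (L := 2) two_pos 𝒰 g (fun n : ℕ => (n : ℝ) + 1) hρ
    (Eventually.of_forall fun n => ⟨(hcpg n).w_diff, fun z hz => ⟨hg0 n z hz, h2 n z hz⟩⟩)
  have hG0 : ∀ z, G z ≠ 0 := fun z => hGX z
  -- the limit is not constant
  have hone : fs (G 0) (deriv G 0) = 1 := by
    have h4 := hfs 0
    simp only [hg1] at h4
    exact tendsto_nhds_unique h4 tendsto_const_nhds |>.symm ▸ rfl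
  -- the base points converge
  have hlim : ∀ (z : ℕ → ℂ) (z₁ : ℂ), Tendsto z 𝒰 (𝓝 z₁) → Tendsto (fun n => hh n (z n)) 𝒰 (𝓝 y) := by
    intro z z₁ hz
    rw [tendsto_iff_norm_sub_tendsto_zero]
    have h5 : Tendsto (fun n : ℕ => (|H| + 1) * (1 / ((n : ℝ) + 1))) 𝒰 (𝓝 0) := by
      have h6 := (tendsto_one_div_add_atTop_nhds_zero_nat (𝕜 := ℝ)).const_mul (|H| + 1)
      rw [mul_zero] at h6
      exact h6.mono_left hle
    refine squeeze_zero' (Eventually.of_forall fun n => norm_nonneg _) ?_ h5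
    have hzn : ∀ᶠ n in (𝒰 : Filter ℕ), ‖z n‖ < ‖z₁‖ + 1 := hz.norm.eventually_lt_const (by linarith)
    filter_upwards [hzn, hρ.eventually_gt_atTop (‖z₁‖ + 1)] with n hn1 hn2
    exact hnear n _ (by
      rw [mem_ball_zero_iff]
      linarith)
  have hc : ∀ z w : ℂ, ∃ c : ℂ, G z = c • G w := by
    rcases Kob_hur han hcpg hρ hlim hG hloc with h4 | h4
    · exact fun z w => Kob_zero han h0 hG hG0 h4 z w
    · exact fun z w => fib_const h3 hG h4 z w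
  obtain ⟨b, hb⟩ := Pool.Agent.H36.BP.Brody_deriv_line (hG 0) (fun z => hc z 0)
  have h4 : wd (G 0) (deriv G 0) = 0 := (Pool.Agent.H36.BP.wd_eq_zero (hG0 0)).mpr ⟨b, hb⟩
  unfold fs at hone
  rw [h4, zero_div] at hone
  exact zero_ne_one hone

end Pool.Agent.PX

end

section

/-!
# PX F KobF: the Kobayashi metric

`torus_disc`, `lift_disc` on the disc of radius `3 / 4`; `h` normalised so that `h 0 = y'`; `‖h'‖ ≤ H` on the disc of radius `1 / 2` by `BD.bound` for the discs of radius `1 / 4` around the points (`BD.discs` or directly); `kob`.  `fs (w 0) (w' 0) = ‖dt (w 0) (w' 0)‖ / ‖w 0‖ ^ 2`, the same for the lift `φ`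
(`φ = c w`, `c` analytic without zeros near `0`).
-/

set_option autoImplicit false

open Topology Filter Metric MvPolynomial

namespace Pool.Agent.PX

open Pool.Agent.H17 (PN VanishesAt HolomorphicInto puncturedDisc ZariskiClosedIn)
open Pool.Agent.H17LG.Variety (FunField IsLogGeneralType)
open Pool.Agent.H62.SA (locVar OnBd)
open Pool.Agent.H17EF (projVar)
open Pool.Agent.H36.BP (EN fs wd)
open Pool.Agent.H62.EF (MN pr)
open Pool.Agent.AD (Vd IsHolomorphicTorusMap)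
open Pool.Agent.TG (Lat)
open Pool.Agent.G3 (wt LLift)
open Pool.Agent.G4 (Few)
open Pool.Agent.PXF (Cn form IsSimple IsThetaForm IsReduced HasNoLines ThreePoints Avoids HolomorphicIntoTorus IsCurve IsCurveIn IsHyperbolicModulo IsFiniteOver complement fewPoints KobayashiPositive)

variable {N k d r : ℕ} {Λ : AddSubgroup (Vd (k + 1))} {D : Set (Vd (k + 1))} {Bad : Vd (k + 1) → Set (Vd (k + 1))} {θ : Fin (d + 1) → Vd (k + 1) → ℂ}
  {W : Fin r → Vd (k + 1) →L[ℂ] ℂ}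

/-- the Lagrange identity -/
private theorem kf_wd (x v : EN 1) : wd x v = ‖dt x v‖ := by
  unfold wd dt
  rw [← Real.sqrt_sq (norm_nonneg (x 0 * v 1 - x 1 * v 0))]
  congr 1
  have e1 : ‖x‖ ^ 2 = ‖x 0‖ ^ 2 + ‖x 1‖ ^ 2 := by
    rw [EuclideanSpace.norm_sq_eq]; simp [Fin.sum_univ_two]
  have e2 : ‖v‖ ^ 2 = ‖v 0‖ ^ 2 + ‖v 1‖ ^ 2 := by
    rw [EuclideanSpace.norm_sq_eq]; simp [Fin.sum_univ_two]
  have e3 : inner ℂ x v = v 0 * (starRingEnd ℂ) (x 0) + v 1 * (starRingEnd ℂ) (x 1) := by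
    rw [PiLp.inner_apply]; simp [Fin.sum_univ_two]
  rw [e1, e2, e3]
  simp only [← Complex.normSq_eq_norm_sq, Complex.normSq_apply, Complex.add_re, Complex.add_im, Complex.sub_re, Complex.sub_im, Complex.mul_re, Complex.mul_im, Complex.conj_re, Complex.conj_im]
  ring

private theorem kf_fs (x v : EN 1) : fs x v = ‖x 0 * v 1 - x 1 * v 0‖ / (‖x 0‖ ^ 2 + ‖x 1‖ ^ 2) := by
  unfold fs
  rw [kf_wd]
  have e1 : ‖x‖ ^ 2 = ‖x 0‖ ^ 2 + ‖x 1‖ ^ 2 := by
    rw [EuclideanSpace.norm_sq_eq]; simp [Fin.sum_univ_two]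
  rw [e1, dt]

/-- two lifts of the same map have the same Fubini-Study derivative -/
private theorem kf_lift {φ : ℂ → Cn 2} {w : ℂ → EN 1} {g : ℂ → PN 1} (hφ : AnalyticAt ℂ φ 0) (hw : DifferentiableAt ℂ w 0)
    (h1 : ∀ᶠ z in 𝓝 (0 : ℂ), ∃ h : φ z ≠ 0, g z = Projectivization.mk ℂ (φ z) h)
    (h2 : ∀ᶠ z in 𝓝 (0 : ℂ), ∃ h : (w z).ofLp ≠ 0, g z = Projectivization.mk ℂ (w z).ofLp h) :
    ‖φ 0 0 * deriv φ 0 1 - φ 0 1 * deriv φ 0 0‖ = fs (w 0) (deriv w 0) * (‖φ 0 0‖ ^ 2 + ‖φ 0 1‖ ^ 2) := by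
  have hw0 : ∀ i, HasDerivAt (fun z => w z i) (deriv w 0 i) 0 := by
    intro i
    have := (EuclideanSpace.proj (𝕜 := ℂ) i : EN 1 →L[ℂ] ℂ).hasFDerivAt.comp_hasDerivAt (0 : ℂ) hw.hasDerivAt
    exact this
  have hφ0 : ∀ i, HasDerivAt (fun z => φ z i) (deriv φ 0 i) 0 := by
    intro i
    exact (hasDerivAt_pi.1 hφ.differentiableAt.hasDerivAt) i
  -- proportionality near `0`
  have hp : ∀ᶠ z in 𝓝 (0 : ℂ), φ z 0 * w z 1 = φ z 1 * w z 0 := by
    filter_upwards [h1, h2] with z ⟨ha, hb⟩ ⟨hc, hd'⟩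
    have := hb.symm.trans hd'
    rw [Projectivization.mk_eq_mk_iff'] at this
    obtain ⟨a, ha'⟩ := this
    rw [← ha']
    simp only [Pi.smul_apply, smul_eq_mul]
    ring
  obtain ⟨hn1, hb⟩ := h1.self_of_nhds
  obtain ⟨hn2, hd'⟩ := h2.self_of_nhds
  obtain ⟨a, ha⟩ := (Projectivization.mk_eq_mk_iff' ℂ _ _ hn1 hn2).1 (hb.symm.trans hd')
  have ha0 : a ≠ 0 := by
    rintro rfl
    exact hn1 (by rw [← ha, zero_smul])
  -- differentiate the proportionality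
  have hder : deriv φ 0 0 * w 0 1 + φ 0 0 * deriv w 0 1 = deriv φ 0 1 * w 0 0 + φ 0 1 * deriv w 0 0 := by
    have e1 := (hφ0 0).mul (hw0 1)
    have e2 := (hφ0 1).mul (hw0 0)
    have e3 : (fun z => φ z 0 * w z 1) =ᶠ[𝓝 0] (fun z => φ z 1 * w z 0) := hp
    exact (e1.congr_of_eventuallyEq e3.symm).unique e2
  have hc0 : φ 0 0 = a * w 0 0 := by rw [← ha]; simp
  have hc1 : φ 0 1 = a * w 0 1 := by rw [← ha]; simp
  have hnw : (‖w 0 0‖ ^ 2 + ‖w 0 1‖ ^ 2) ≠ 0 := by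
    intro h0
    have h00 : ‖w 0 0‖ ^ 2 = 0 := by nlinarith [sq_nonneg ‖w 0 0‖, sq_nonneg ‖w 0 1‖]
    have h01 : ‖w 0 1‖ ^ 2 = 0 := by nlinarith [sq_nonneg ‖w 0 0‖, sq_nonneg ‖w 0 1‖]
    apply hn2
    ext i
    fin_cases i
    · simpa using h00
    · simpa using h01
  rw [kf_fs]
  have key : φ 0 0 * deriv φ 0 1 - φ 0 1 * deriv φ 0 0 = a ^ 2 * (w 0 0 * deriv w 0 1 - w 0 1 * deriv w 0 0) := by
    rw [hc0, hc1] at hder ⊢
    linear_combination (-a) * hder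
  rw [key, norm_mul, norm_pow, hc0, hc1, norm_mul, norm_mul]
  field_simp

theorem BD.kobayashi (B : BD Λ θ) (y : Cn (k + 1)) (h3 : ThreePoints θ y) (h0 : ∃ i, θ i y ≠ 0) : ∃ C : ℝ, ∀ᶠ y' in 𝓝 y, ∀ (t : ℂ → Cn (k + 1) ⧸ Λ) (g : ℂ → PN 1) (φ : ℂ → Cn 2),
    IsCurve Λ θ t g (ball 0 1) → t 0 = (y' : Cn (k + 1) ⧸ Λ) → AnalyticAt ℂ φ 0 → (∀ᶠ z in 𝓝 (0 : ℂ), ∃ h : φ z ≠ 0, g z = Projectivization.mk ℂ (φ z) h) →
    ‖φ 0 0 * deriv φ 0 1 - φ 0 1 * deriv φ 0 0‖ ≤ C * (‖φ 0 0‖ ^ 2 + ‖φ 0 1‖ ^ 2) := by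
  obtain ⟨C₀, hC₀, hb⟩ := B.bound
  have hR3 : R3 θ y := (three_iff θ y).1 h3
  obtain ⟨C, hC⟩ := kob B.an hR3 h0 (4 * C₀)
  refine ⟨C, ?_⟩
  rw [QuotientAddGroup.nhds_eq, eventually_map]
  filter_upwards [hC] with y' hy' t g φ hcu ht0 hφ hgφ
  obtain ⟨h, hh, hth⟩ := torus_disc B.lat hcu.torus
  have h00 : (0 : ℂ) ∈ ball (0 : ℂ) 1 := by simp
  -- normalise
  have hl : (h 0 : Cn (k + 1) ⧸ Λ) = (y' : Cn (k + 1) ⧸ Λ) := (hth 0 h00).symm.trans ht0
  have hl' : y' - h 0 ∈ Λ := by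
    rw [QuotientAddGroup.eq] at hl
    rwa [sub_eq_neg_add]
  set h₁ : ℂ → Vd (k + 1) := fun z => h z + (y' - h 0) with hh₁
  have hd₁ : DifferentiableOn ℂ h₁ (ball 0 1) := hh.add_const _
  have ht₁ : ∀ z ∈ ball (0 : ℂ) 1, t z = (h₁ z : Cn (k + 1) ⧸ Λ) := by
    intro z hz
    rw [hth z hz, QuotientAddGroup.eq]
    simpa [hh₁] using hl'
  have ha₁ : ∀ z ∈ ball (0 : ℂ) 1, Avoids Λ θ (h₁ z : Cn (k + 1) ⧸ Λ) (g z) := by
    intro z hz
    rw [← ht₁ z hz]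
    exact hcu.avoids z hz
  obtain ⟨w, hw, hgw⟩ := lift_disc hd₁ hcu.line ha₁ (show (3 / 4 : ℝ) < 1 by norm_num)
  have h10 : h₁ 0 = y' := by simp [hh₁]
  -- the bound for the derivative of `h₁`
  have hbd : ∀ z ∈ ball (0 : ℂ) (1 / 2), ‖deriv h₁ z‖ ≤ 4 * C₀ := by
    intro z hz
    have hm : Set.MapsTo (fun ζ : ℂ => z + ζ / 4) (ball 0 1) (ball 0 (3 / 4)) := by
      intro ζ hζ
      rw [mem_ball_zero_iff] at hζ hz ⊢
      calc ‖z + ζ / 4‖ ≤ ‖z‖ + ‖ζ / 4‖ := norm_add_le _ _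
        _ = ‖z‖ + ‖ζ‖ / 4 := by rw [norm_div]; norm_num
        _ < 3 / 4 := by linarith
    have hc := hw.comp (φ := fun ζ : ℂ => z + ζ / 4) (V := ball 0 1) (by fun_prop) hm
    have h2 := hb _ _ hc
    have hz1 : z ∈ ball (0 : ℂ) 1 := ball_subset_ball (by norm_num) hz
    have hdz : HasDerivAt h₁ (deriv h₁ z) z := (hd₁.differentiableAt (isOpen_ball.mem_nhds hz1)).hasDerivAt
    have hi : HasDerivAt (fun ζ : ℂ => z + ζ / 4) (1 / 4) 0 := by
      have := ((hasDerivAt_id (0 : ℂ)).div_const 4).const_add z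
      simpa using this
    have hdz' : HasDerivAt h₁ (deriv h₁ z) (z + (0 : ℂ) / 4) := by simpa using hdz
    have h3' : HasDerivAt (fun ζ : ℂ => h₁ (z + ζ / 4)) ((1 / 4 : ℂ) • deriv h₁ z) 0 :=
      HasDerivAt.scomp (h := fun ζ : ℂ => z + ζ / 4) (g₁ := h₁) (0 : ℂ) hdz' hi
    rw [h3'.deriv, norm_smul] at h2
    have h4 : ‖(1 / 4 : ℂ)‖ = 1 / 4 := by norm_num
    rw [h4] at h2
    linarith
  have hk := hy' w h₁ (hw.mono (ball_subset_ball (by norm_num))) hbd h10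
  have hw0 : DifferentiableAt ℂ w 0 := hw.w_diff.differentiableAt (isOpen_ball.mem_nhds (by simp))
  have h2 : ∀ᶠ z in 𝓝 (0 : ℂ), ∃ h : (w z).ofLp ≠ 0, g z = Projectivization.mk ℂ (w z).ofLp h := by
    filter_upwards [isOpen_ball.mem_nhds (show (0 : ℂ) ∈ ball (0 : ℂ) (3 / 4) by simp)] with z hz
    exact hgw z hz
  rw [kf_lift hφ hw0 hgφ h2]
  exact mul_le_mul_of_nonneg_right hk (by positivity)

end Pool.Agent.PX

end
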