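import Pool.Agent.H94.PX2.M08
import Pool.Agent.H94.PX2.M19
import Pool.Agent.H94.PX2.M30

/-! The parts of this file: PY.Hit, PY.Psi, PY.RLf. -/

section

/-!
# PY Hit: the limit root extends over all hits

Near `z₀` all points of the line except possibly `y + z₀ a` are off `D` (`iso`), so the functions `z ↦ θ i (y + z a)` are not all `0`: divide by `(z - z₀) ^ m`, `m` the minimal order; the form `F̃ z` obtained is not `0` at `z₀`; `b` with `F̃ z₀ b ≠ 0`, `e` with `dt b e = 1`: the roots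
are `t • b + e` with bounded `t`; `g z = pr (t z • b + e)`, `t` holomorphic on the punctured disc (`LLift`: `t = - dt e Φ / dt b Φ`) and bounded: it extends.
-/

set_option autoImplicit false

open Topology Filter Metric

namespace Pool.Agent.PY

open Pool.Agent.H36.BP (EN fs wd)
open Pool.Agent.H62.EF (MN pr)
open Pool.Agent.AD (Vd)
open Pool.Agent.TG (Lat)
open Pool.Agent.G3 (wt LLift)
open Pool.Agent.PX

variable {k d r : ℕ}

variable {Λ : AddSubgroup (Vd (k + 1))} {D : Set (Vd (k + 1))} {θ : Fin (d + 1) → Vd (k + 1) → ℂ}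
  {W : Fin r → Vd (k + 1) →L[ℂ] ℂ}

/-- division of finitely many functions by a power of `z - z₀` -/
private theorem Hit_div {n : ℕ} {f : Fin n → ℂ → ℂ} {z₀ : ℂ} (hf : ∀ i, AnalyticAt ℂ (f i) z₀)
    (h0 : ∃ i, ¬ ∀ᶠ z in 𝓝 z₀, f i z = 0) : ∃ (m : ℕ) (F : Fin n → ℂ → ℂ), (∀ i, AnalyticAt ℂ (F i) z₀) ∧
    (∀ i, ∀ᶠ z in 𝓝 z₀, f i z = (z - z₀) ^ m * F i z) ∧ ∃ i, F i z₀ ≠ 0 := by
  obtain ⟨i₁, hi₁⟩ := h0
  obtain ⟨i₀, -, hmin⟩ := Finset.exists_min_image Finset.univ (fun i => analyticOrderAt (f i) z₀) ⟨i₁, Finset.mem_univ _⟩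
  have h1 : analyticOrderAt (f i₀) z₀ ≠ ⊤ := by
    intro h
    have h2 := hmin i₁ (Finset.mem_univ _)
    rw [h, top_le_iff, analyticOrderAt_eq_top] at h2
    exact hi₁ h2
  obtain ⟨m, hm⟩ := ENat.ne_top_iff_exists.1 h1
  have h2 : ∀ i, ∃ g : ℂ → ℂ, AnalyticAt ℂ g z₀ ∧ ∀ᶠ z in 𝓝 z₀, f i z = (z - z₀) ^ m • g z := by
    intro i
    have h3 := hmin i (Finset.mem_univ _)
    rw [← hm] at h3
    exact (natCast_le_analyticOrderAt (hf i)).1 h3
  choose F hF hFf using h2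
  refine ⟨m, F, hF, hFf, i₀, ?_⟩
  obtain ⟨g, hg, hg0, hgf⟩ := ((hf i₀).analyticOrderAt_eq_natCast).1 hm.symm
  have h4 : ∀ᶠ z in 𝓝[≠] z₀, F i₀ z = g z := by
    filter_upwards [(hFf i₀).filter_mono nhdsWithin_le_nhds, hgf.filter_mono nhdsWithin_le_nhds, self_mem_nhdsWithin] with z h5 h6 h7
    rw [h5, smul_eq_mul, smul_eq_mul] at h6
    exact mul_left_cancel₀ (pow_ne_zero m (sub_ne_zero.2 h7)) h6
  have h5 : F i₀ z₀ = g z₀ := by
    have h6 : Tendsto (F i₀) (𝓝[≠] z₀) (𝓝 (F i₀ z₀)) := (hF i₀).continuousAt.tendsto.mono_left nhdsWithin_le_nhds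
    have h7 : Tendsto (F i₀) (𝓝[≠] z₀) (𝓝 (g z₀)) := (hg.continuousAt.tendsto.mono_left nhdsWithin_le_nhds).congr' (h4.mono fun z hz => hz.symm)
    exact tendsto_nhds_unique h6 h7
  rw [h5]
  exact hg0

/-- a nonzero binary form is not zero at some `(s, 1)` -/
private theorem Hit_b {c : Fin (d + 1) → ℂ} (hc : ∃ i, c i ≠ 0) : ∃ s : ℂ, ∑ i : Fin (d + 1), c i * s ^ (i : ℕ) ≠ 0 := by
  by_contra h
  push Not at h
  obtain ⟨p, hp⟩ : ∃ p : Polynomial ℂ, p = ∑ i : Fin (d + 1), Polynomial.C (c i) * Polynomial.X ^ (i : ℕ) := ⟨_, rfl⟩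
  have h1 : p = 0 := by
    refine Polynomial.funext fun s => ?_
    rw [hp, Polynomial.eval_finsetSum, Polynomial.eval_zero]
    simpa using h s
  obtain ⟨i, hi⟩ := hc
  apply hi
  have h2 : p.coeff (i : ℕ) = c i := by
    rw [hp, Polynomial.finsetSum_coeff, Finset.sum_eq_single i]
    · rw [Polynomial.coeff_C_mul, Polynomial.coeff_X_pow, if_pos rfl, mul_one]
    · intro j _ hj
      rw [Polynomial.coeff_C_mul, Polynomial.coeff_X_pow, if_neg (fun h => hj (Fin.ext h.symm)), mul_zero]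
    · intro h
      exact absurd (Finset.mem_univ i) h
  rw [← h2, h1, Polynomial.coeff_zero]

theorem PE.any_hit (P : PE Λ D θ W) {y a : Vd (k + 1)} (ha : a ≠ 0) {g : ℂ → MN 1} (hl : ∀ z : ℂ, y + z • a ∉ D → LLift g z) (hR : Rt θ D y a g) (z₀ : ℂ) :
    ∃ ρ : ℝ, 0 < ρ ∧ ∃ G : ℂ → EN 1, DifferentiableOn ℂ G (ball z₀ ρ) ∧ (∀ z ∈ ball z₀ ρ, G z ≠ 0 ∧ Fo θ (y + z • a) (G z) = 0) ∧ ∀ z ∈ ball z₀ ρ, z ≠ z₀ → g z = pr (G z) := by
  have hline : Differentiable ℂ fun z : ℂ => y + z • a := by fun_prop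
  -- the points of the line near `z₀` are off `D`
  have hoff : ∀ᶠ z in 𝓝[≠] z₀, y + z • a ∉ D := by
    have h1 := P.iso a ha (y + z₀ • a)
    have h2 : Tendsto (fun z : ℂ => z - z₀) (𝓝[≠] z₀) (𝓝[≠] 0) := by
      refine tendsto_nhdsWithin_iff.2 ⟨?_, ?_⟩
      · have h3 : Tendsto (fun z : ℂ => z - z₀) (𝓝 z₀) (𝓝 (z₀ - z₀)) := (continuous_id.sub continuous_const).tendsto z₀
        rw [sub_self] at h3
        exact h3.mono_left nhdsWithin_le_nhds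
      · filter_upwards [self_mem_nhdsWithin] with z hz
        exact sub_ne_zero.2 hz
    filter_upwards [h2.eventually h1] with z hz
    have h3 : y + z₀ • a + (z - z₀) • a = y + z • a := by
      rw [sub_smul]
      abel
    rw [h3] at hz
    exact hz
  have hfa : ∀ i, AnalyticAt ℂ (fun z : ℂ => θ i (y + z • a)) z₀ := fun i =>
    ((P.an i).comp hline).analyticAt z₀
  -- off `D` the form is not `0`
  have hnz : ∀ y' ∉ D, ∃ i, θ i y' ≠ 0 := P.form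
  obtain ⟨m, F, hF, hFf, i₀, hi₀⟩ := Hit_div (f := fun i z => θ i (y + z • a)) hfa (by
    by_contra h
    push Not at h
    have h1 : ∀ᶠ z in 𝓝[≠] z₀, ∀ i, θ i (y + z • a) = 0 :=
      (Filter.eventually_all.2 h).filter_mono nhdsWithin_le_nhds
    obtain ⟨z, hz1, hz2⟩ := (h1.and hoff).exists
    obtain ⟨i, hi⟩ := hnz _ hz2
    exact hi (hz1 i))
  obtain ⟨s, hs⟩ := Hit_b (d := d) (c := fun i => F i z₀) ⟨i₀, hi₀⟩
  obtain ⟨b, hb⟩ : ∃ b : EN 1, b = WithLp.toLp 2 ![s, 1] := ⟨_, rfl⟩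
  obtain ⟨e, he⟩ : ∃ e : EN 1, e = WithLp.toLp 2 ![-1, 0] := ⟨_, rfl⟩
  have hb0 : b 0 = s := by rw [hb]; rfl
  have hb1 : b 1 = 1 := by rw [hb]; rfl
  have he0 : e 0 = -1 := by rw [he]; rfl
  have he1 : e 1 = 0 := by rw [he]; rfl
  have hbe : dt b e = 1 := by
    unfold dt
    rw [hb0, hb1, he0, he1]
    ring
  -- the divided form
  obtain ⟨Φ, hΦ⟩ : ∃ Φ : ℂ → Fin (d + 1) → Vd (k + 1) → ℂ, Φ = fun z i _ => F i z := ⟨_, rfl⟩
  have hΦe : ∀ z x, Fo (Φ z) 0 x = ∑ i : Fin (d + 1), F i z * x 0 ^ (i : ℕ) * x 1 ^ (d - (i : ℕ)) := by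
    intro z x
    rw [hΦ]
    rfl
  have hΦb : Fo (Φ z₀) 0 b ≠ 0 := by
    rw [hΦe, hb0, hb1]
    simpa using hs
  have hFo : ∀ᶠ z in 𝓝 z₀, ∀ x, Fo θ (y + z • a) x = (z - z₀) ^ m * Fo (Φ z) 0 x := by
    filter_upwards [Filter.eventually_all.2 hFf] with z hz x
    rw [hΦe, Finset.mul_sum]
    unfold Fo
    refine Finset.sum_congr rfl fun i _ => ?_
    rw [hz i]
    ring
  -- continuity of the divided form at `(z₀, b)`
  have hcont : ContinuousAt (fun p : ℂ × EN 1 => Fo (Φ p.1) 0 p.2) (z₀, b) := by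
    have h1 : (fun p : ℂ × EN 1 => Fo (Φ p.1) 0 p.2) = fun p => ∑ i : Fin (d + 1), F i p.1 * p.2 0 ^ (i : ℕ) * p.2 1 ^ (d - (i : ℕ)) := by
      funext p
      exact hΦe _ _
    rw [h1]
    refine tendsto_finsetSum _ fun i _ => ?_
    have h2 : ContinuousAt (fun p : ℂ × EN 1 => F i p.1) (z₀, b) :=
      ContinuousAt.comp (g := F i) (f := Prod.fst) (hF i).continuousAt continuousAt_fst
    have h3 : ContinuousAt (fun p : ℂ × EN 1 => p.2 0 ^ (i : ℕ)) (z₀, b) := by fun_prop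
    have h4 : ContinuousAt (fun p : ℂ × EN 1 => p.2 1 ^ (d - (i : ℕ))) (z₀, b) := by fun_prop
    exact (h2.mul h3).mul h4
  obtain ⟨η, hη, hne⟩ := Metric.eventually_nhds_iff.1 (hcont.eventually_ne hΦb)
  obtain ⟨ρ₁, hρ₁, h₁⟩ := Metric.eventually_nhds_iff.1 hFo
  obtain ⟨ρ₂, hρ₂, h₂⟩ := Metric.mem_nhdsWithin_iff.1 hoff
  obtain ⟨ρ, hρ⟩ : ∃ ρ : ℝ, ρ = min η (min ρ₁ ρ₂) := ⟨_, rfl⟩
  have hρ0 : 0 < ρ := by
    rw [hρ]
    exact lt_min hη (lt_min hρ₁ hρ₂)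
  have hρη : ρ ≤ η := by rw [hρ]; exact min_le_left _ _
  have hρ1 : ρ ≤ ρ₁ := by rw [hρ]; exact (min_le_right _ _).trans (min_le_left _ _)
  have hρ2 : ρ ≤ ρ₂ := by rw [hρ]; exact (min_le_right _ _).trans (min_le_right _ _)
  have hD : ∀ z ∈ ball z₀ ρ, z ≠ z₀ → y + z • a ∉ D := fun z hz hz' =>
    h₂ ⟨ball_subset_ball hρ2 hz, hz'⟩
  have hFz : ∀ z ∈ ball z₀ ρ, ∀ x, Fo θ (y + z • a) x = (z - z₀) ^ m * Fo (Φ z) 0 x := fun z hz =>
    h₁ (lt_of_lt_of_le (mem_ball.1 hz) hρ1)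
  have hnez : ∀ z ∈ ball z₀ ρ, ∀ x : EN 1, dist x b < η → Fo (Φ z) 0 x ≠ 0 := by
    intro z hz x hx
    refine hne (y := ((z, x) : ℂ × EN 1)) ?_
    rw [Prod.dist_eq]
    exact max_lt (lt_of_lt_of_le (mem_ball.1 hz) hρη) hx
  -- the roots at the points of the punctured disc
  have hroot : ∀ z ∈ ball z₀ ρ, z ≠ z₀ → ∀ x : EN 1, x ≠ 0 → Fo θ (y + z • a) x = 0 →
      dt b x ≠ 0 ∧ x = (dt b x) • ((-(dt e x) / dt b x) • b + e) ∧ ‖-(dt e x) / dt b x‖ ≤ ‖e‖ / η := by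
    intro z hz hz' x hx h
    have hp : (z - z₀) ^ m ≠ 0 := pow_ne_zero m (sub_ne_zero.2 hz')
    have h3 : Fo (Φ z) 0 x = 0 := by
      rw [hFz z hz x] at h
      exact (mul_eq_zero.1 h).resolve_left hp
    have h4 := rt_dt (θ := Φ z) (y := 0) (b := b) (e := e) (x := x) (by rw [hbe]; exact one_ne_zero)
      (hnez z hz b (by rw [dist_self]; exact hη)) hx h3
    rw [hbe, div_one] at h4
    refine ⟨h4.1, h4.2, ?_⟩
    obtain ⟨T, hT⟩ : ∃ T : ℂ, T = -(dt e x) / dt b x := ⟨_, rfl⟩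
    have h4' := h4.2
    rw [← hT] at h4' ⊢
    by_contra h5
    push Not at h5
    have hT0 : T ≠ 0 := by
      intro h6
      rw [h6, norm_zero] at h5
      have : 0 ≤ ‖e‖ / η := by positivity
      linarith
    have hTn : 0 < ‖T‖ := norm_pos_iff.2 hT0
    have h6 : Fo (Φ z) 0 (b + T⁻¹ • e) ≠ 0 := by
      refine hnez z hz _ ?_
      rw [dist_eq_norm, add_sub_cancel_left, norm_smul, norm_inv, inv_mul_lt_iff₀ hTn]
      rwa [div_lt_iff₀ hη] at h5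
    apply h6
    have h7 : x = (dt b x * T) • (b + T⁻¹ • e) := by
      conv_lhs => rw [h4']
      rw [mul_smul, smul_add T, smul_smul T, mul_inv_cancel₀ hT0, one_smul]
    rw [h7, fo_smul] at h3
    exact (mul_eq_zero.1 h3).resolve_left (pow_ne_zero d (mul_ne_zero h4.1 hT0))
  -- the function `T`
  have hex : ∀ z : ℂ, ∃ T : ℂ, ∀ x : EN 1, x ≠ 0 → pr x = g z → T = -(dt e x) / dt b x := by
    intro z
    by_cases h : ∃ x : EN 1, x ≠ 0 ∧ pr x = g z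
    · obtain ⟨x, hx, hxg⟩ := h
      refine ⟨-(dt e x) / dt b x, fun x' hx' hx'g => ?_⟩
      obtain ⟨c, hc, h1⟩ := (Pool.Agent.H62.EF.pr_eq_iff hx' hx).1 (hx'g.trans hxg.symm)
      have h2 : ∀ v : EN 1, dt v x' = c * dt v x := by
        intro v
        rw [h1]
        unfold dt
        simp only [PiLp.smul_apply, smul_eq_mul]
        ring
      rw [h2 e, h2 b, ← mul_neg, mul_div_mul_left _ _ hc]
    · exact ⟨0, fun x hx hxg => absurd ⟨x, hx, hxg⟩ h⟩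
  choose T hT using hex
  -- the properties of `T` on the punctured disc
  have hrep : ∀ z ∈ ball z₀ ρ, z ≠ z₀ → ∃ x : EN 1, x ≠ 0 ∧ pr x = g z := by
    intro z hz hz'
    obtain ⟨φ, -, h1⟩ := hl z (hD z hz hz')
    obtain ⟨h2, h3⟩ := h1.self_of_nhds
    exact ⟨φ z, h2, h3.symm⟩
  have hTr : ∀ z ∈ ball z₀ ρ, z ≠ z₀ → ‖T z‖ ≤ ‖e‖ / η ∧ g z = pr (T z • b + e) := by
    intro z hz hz'
    obtain ⟨x, hx, hxg⟩ := hrep z hz hz'
    obtain ⟨h1, h2, h3⟩ := hroot z hz hz' x hx (hR z (hD z hz hz') x hx hxg)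
    rw [hT z x hx hxg]
    refine ⟨h3, ?_⟩
    rw [← hxg]
    conv_lhs => rw [h2]
    exact Pool.Agent.H62.EF.pr_smul _ h1
  have hdiff : DifferentiableOn ℂ T (ball z₀ ρ \ {z₀}) := by
    rintro z ⟨hz, hz'⟩
    have hz'' : z ≠ z₀ := hz'
    obtain ⟨φ, hφ, h1⟩ := hl z (hD z hz hz'')
    obtain ⟨h2, h3⟩ := h1.self_of_nhds
    have hφ0 : AnalyticAt ℂ (fun w => φ w 0) z := by
      have : AnalyticAt ℂ (fun w => (EuclideanSpace.proj (0 : Fin 2) : EN 1 →L[ℂ] ℂ) (φ w)) z :=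
        (ContinuousLinearMap.analyticAt _ _).comp hφ
      exact this
    have hφ1 : AnalyticAt ℂ (fun w => φ w 1) z := by
      have : AnalyticAt ℂ (fun w => (EuclideanSpace.proj (1 : Fin 2) : EN 1 →L[ℂ] ℂ) (φ w)) z :=
        (ContinuousLinearMap.analyticAt _ _).comp hφ
      exact this
    have hdt : ∀ v : EN 1, AnalyticAt ℂ (fun w => dt v (φ w)) z := by
      intro v
      unfold dt
      exact (analyticAt_const.mul hφ1).sub (analyticAt_const.mul hφ0)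
    have hb' : dt b (φ z) ≠ 0 := (hroot z hz hz'' (φ z) h2 (hR z (hD z hz hz'') (φ z) h2 h3.symm)).1
    have h4 : AnalyticAt ℂ (fun w => -(dt e (φ w)) / dt b (φ w)) z := (hdt e).neg.div (hdt b) hb'
    have h5 : T =ᶠ[𝓝 z] fun w => -(dt e (φ w)) / dt b (φ w) := by
      filter_upwards [h1] with w hw
      exact hT w (φ w) hw.1 hw.2.symm
    exact (h4.differentiableAt.congr_of_eventuallyEq h5).differentiableWithinAt
  have hbdd : BddAbove (norm ∘ T '' (ball z₀ ρ \ {z₀})) := by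
    refine ⟨‖e‖ / η, ?_⟩
    rintro _ ⟨z, hz, rfl⟩
    exact (hTr z hz.1 hz.2).1
  have hext := Complex.differentiableOn_update_limUnder_of_bddAbove (ball_mem_nhds z₀ hρ0) hdiff hbdd
  obtain ⟨T', hT'⟩ : ∃ T' : ℂ → ℂ, T' = Function.update T z₀ (limUnder (𝓝[≠] z₀) T) := ⟨_, rfl⟩
  rw [← hT'] at hext
  have hTT : ∀ z, z ≠ z₀ → T' z = T z := by
    intro z hz
    rw [hT', Function.update_of_ne hz]
  have hGd : DifferentiableOn ℂ (fun z => T' z • b + e) (ball z₀ ρ) :=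
    (hext.smul_const b).add_const e
  have hGn : ∀ z, T' z • b + e ≠ 0 := by
    intro z h
    have h1 : dt b (T' z • b + e) = 1 := by
      rw [← hbe]
      unfold dt
      simp only [PiLp.add_apply, PiLp.smul_apply, smul_eq_mul]
      ring
    rw [h] at h1
    unfold dt at h1
    simp at h1
  have hGp : ∀ z ∈ ball z₀ ρ, z ≠ z₀ → g z = pr (T' z • b + e) := by
    intro z hz hz'
    rw [hTT z hz']
    exact (hTr z hz hz').2
  have hG0 : ∀ z ∈ ball z₀ ρ, z ≠ z₀ → Fo θ (y + z • a) (T' z • b + e) = 0 := fun z hz hz' =>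
    hR z (hD z hz hz') _ (hGn z) (hGp z hz hz').symm
  refine ⟨ρ, hρ0, fun z => T' z • b + e, hGd, fun z hz => ⟨hGn z, ?_⟩, hGp⟩
  by_cases hz' : z = z₀
  · have hA : ContinuousAt (fun z : ℂ => T' z • b + e) z₀ :=
      ((hGd z₀ (mem_ball_self hρ0)).differentiableAt (ball_mem_nhds z₀ hρ0)).continuousAt
    have hB : ContinuousAt (fun z : ℂ => y + z • a) z₀ := hline.continuous.continuousAt
    have hC := (fo_diff P.an).continuous.tendsto (y + z₀ • a, T' z₀ • b + e)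
    have hP : Tendsto (fun z : ℂ => ((y + z • a, T' z • b + e) : Vd (k + 1) × EN 1)) (𝓝 z₀) (𝓝 (y + z₀ • a, T' z₀ • b + e)) :=
      ContinuousAt.prodMk hB hA
    have hcc := hC.comp hP
    have hc : Tendsto (fun z : ℂ => Fo θ (y + z • a) (T' z • b + e)) (𝓝 z₀) (𝓝 (Fo θ (y + z₀ • a) (T' z₀ • b + e))) := hcc
    have h2 : Tendsto (fun z : ℂ => Fo θ (y + z • a) (T' z • b + e)) (𝓝[≠] z₀) (𝓝 0) := by
      refine tendsto_const_nhds.congr' ?_
      have h3 : ∀ᶠ z in 𝓝[≠] z₀, z ∈ ball z₀ ρ := mem_nhdsWithin_of_mem_nhds (ball_mem_nhds z₀ hρ0)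
      filter_upwards [h3, self_mem_nhdsWithin] with z hz hz'
      exact (hG0 z hz hz').symm
    rw [hz']
    exact tendsto_nhds_unique (hc.mono_left nhdsWithin_le_nhds) h2
  · exact hG0 z hz hz'

end Pool.Agent.PY

end

section

/-!
# PY Psi: the function `ψ = - log qf` along a curve

`ψ = d log ‖w‖ + wt W h - log |Fo θ h w|`; the last function is harmonic, `log ‖w‖` is subharmonic, `wt W h = ∑ |W i h|^2` has `Δ = 4 ∑ |W i h'|^2 ≥ 4 c₀ |h'|^2` (`c₀` from `pos`).  Maximum principle: if `ψ ≤ C` on the circle of radius `R` and `‖h'‖ ≥ A` on the disc then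
`ψ 0 + c₀ A ^ 2 R ^ 2 ≤ C` (max principle for `ψ - c₀ A ^ 2 |z|^2`; or by circle averages: `avg |f|^2 ≥ |f 0|^2 + ..` is not enough for variable `h'`, so use the maximum principle in the form: at an interior maximum of `ψ - c |z|^2`, `c < c₀ A^2`, contradiction with a small circle average).
`psi_max`: the maximum principle for `ψ` itself.
-/

set_option autoImplicit false

open Topology Filter Metric

namespace Pool.Agent.PY

open Pool.Agent.H36.BP (EN fs wd)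
open Pool.Agent.H62.EF (MN pr)
open Pool.Agent.AD (Vd)
open Pool.Agent.TG (Lat)
open Pool.Agent.G3 (wt LLift)
open Pool.Agent.PX

variable {k d r : ℕ}

variable {Λ : AddSubgroup (Vd (k + 1))} {D : Set (Vd (k + 1))} {θ : Fin (d + 1) → Vd (k + 1) → ℂ}
  {W : Fin r → Vd (k + 1) →L[ℂ] ℂ}

/-- the weight is positive definite -/
private theorem Psi_wt_ge {W : Fin r → Vd (k + 1) →L[ℂ] ℂ} (hW : ∀ y, (∀ i, W i y = 0) → y = 0) :
    ∃ c : ℝ, 0 < c ∧ ∀ y : Vd (k + 1), c * ‖y‖ ^ 2 ≤ wt W y := by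
  have hcont : Continuous (wt W) := by
    unfold wt
    exact continuous_finsetSum _ fun i _ => ((W i).continuous.norm.pow 2)
  have hpos : ∀ y ∈ sphere (0 : Vd (k + 1)) 1, 0 < wt W y := by
    intro y hy
    rw [mem_sphere_zero_iff_norm] at hy
    have h0 : 0 ≤ wt W y := Finset.sum_nonneg fun i _ => by positivity
    rcases h0.eq_or_lt with h1 | h1
    · exfalso
      have h2 : ∀ i, W i y = 0 := by
        intro i
        have h3 := (Finset.sum_eq_zero_iff_of_nonneg (s := Finset.univ) (f := fun i => ‖W i y‖ ^ 2) fun i _ => by positivity).1 h1.symm i (Finset.mem_univ i)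
        exact norm_eq_zero.1 (pow_eq_zero_iff (two_ne_zero)|>.1 h3)
      rw [hW y h2, norm_zero] at hy
      exact zero_ne_one hy
    · exact h1
  have hne : (sphere (0 : Vd (k + 1)) 1).Nonempty := by
    refine ⟨fun _ => 1, ?_⟩
    rw [mem_sphere_zero_iff_norm]
    simp [pi_norm_const]
  obtain ⟨y₁, hy₁, hmin⟩ := (isCompact_sphere (0 : Vd (k + 1)) 1).exists_isMinOn hne hcont.continuousOn
  refine ⟨wt W y₁, hpos y₁ hy₁, fun y => ?_⟩
  by_cases hy : y = 0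
  · subst hy
    simp [wt]
  · have hn : 0 < ‖y‖ := norm_pos_iff.2 hy
    set c : ℂ := (((‖y‖⁻¹ : ℝ)) : ℂ) with hcd
    have hcn : ‖c‖ = ‖y‖⁻¹ := by rw [hcd, Complex.norm_real, norm_inv, norm_norm]
    have h1 : c • y ∈ sphere (0 : Vd (k + 1)) 1 := by
      rw [mem_sphere_zero_iff_norm, norm_smul, hcn]
      exact inv_mul_cancel₀ hn.ne'
    have h2 : wt W y₁ ≤ wt W (c • y) := hmin h1
    have h3 : wt W (c • y) = (‖y‖⁻¹) ^ 2 * wt W y := by
      unfold wt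
      rw [Finset.mul_sum]
      refine Finset.sum_congr rfl fun i _ => ?_
      rw [map_smul, norm_smul, hcn, mul_pow]
    rw [h3] at h2
    have h4 := mul_le_mul_of_nonneg_right h2 (by positivity : 0 ≤ ‖y‖ ^ 2)
    have h5 : (‖y‖⁻¹) ^ 2 * wt W y * ‖y‖ ^ 2 = wt W y := by
      field_simp
    rwa [h5] at h4

/-- the exponent of the comparison function -/
private noncomputable def Psi_e (W : Fin r → Vd (k + 1) →L[ℂ] ℂ) (y₁ y : Vd (k + 1)) : ℂ :=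
  ∑ i, (2 * (starRingEnd ℂ (W i y₁)) * W i y - ((‖W i y₁‖ ^ 2 : ℝ) : ℂ))

/-- the holomorphic comparison function: `‖Psi_H‖ ≤ 1 / qf`, with equality at `(x₁, y₁)` -/
private noncomputable def Psi_H (θ : Fin (d + 1) → Vd (k + 1) → ℂ) (W : Fin r → Vd (k + 1) →L[ℂ] ℂ) (x₁ : EN 1) (y₁ : Vd (k + 1)) (x : EN 1)
    (y : Vd (k + 1)) : ℂ :=
  (innerSL ℂ x₁ x) ^ d * Complex.exp (Psi_e W y₁ y) / (((‖x₁‖ ^ d : ℝ) : ℂ) * Fo θ y x)

private theorem Psi_e_re (W : Fin r → Vd (k + 1) →L[ℂ] ℂ) (y₁ y : Vd (k + 1)) :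
    (Psi_e W y₁ y).re + wt W (y - y₁) = wt W y := by
  unfold Psi_e wt
  rw [Complex.re_sum, ← Finset.sum_add_distrib]
  refine Finset.sum_congr rfl fun i _ => ?_
  rw [map_sub, Complex.sub_re, Complex.ofReal_re, ← Complex.normSq_eq_norm_sq, ← Complex.normSq_eq_norm_sq, ← Complex.normSq_eq_norm_sq,
    Complex.normSq_apply, Complex.normSq_apply, Complex.normSq_apply]
  simp only [Complex.mul_re, Complex.mul_im, Complex.conj_re, Complex.conj_im, Complex.sub_re, Complex.sub_im, Complex.re_ofNat, Complex.im_ofNat]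
  ring

private theorem Psi_H_norm (θ : Fin (d + 1) → Vd (k + 1) → ℂ) (W : Fin r → Vd (k + 1) →L[ℂ] ℂ) (x₁ : EN 1) (y₁ : Vd (k + 1)) (x : EN 1)
    (y : Vd (k + 1)) : ‖Psi_H θ W x₁ y₁ x y‖ = ‖innerSL ℂ x₁ x‖ ^ d * Real.exp (Psi_e W y₁ y).re / (‖x₁‖ ^ d * ‖Fo θ y x‖) := by
  unfold Psi_H
  rw [norm_div, norm_mul, norm_mul, norm_pow, Complex.norm_exp, Complex.norm_real, norm_pow, norm_norm]

private theorem Psi_H_le (θ : Fin (d + 1) → Vd (k + 1) → ℂ) (W : Fin r → Vd (k + 1) →L[ℂ] ℂ) {x₁ : EN 1} (hx₁ : x₁ ≠ 0) (y₁ : Vd (k + 1)) {x : EN 1}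
    (hx : x ≠ 0) {y : Vd (k + 1)} (hF : Fo θ y x ≠ 0) :
    ‖Psi_H θ W x₁ y₁ x y‖ * Real.exp (wt W (y - y₁)) * qf θ W y x ≤ 1 := by
  have h1 : 0 < ‖x₁‖ := norm_pos_iff.2 hx₁
  have h2 : 0 < ‖x‖ := norm_pos_iff.2 hx
  have h3 : 0 < ‖Fo θ y x‖ := norm_pos_iff.2 hF
  have e : ‖Psi_H θ W x₁ y₁ x y‖ * Real.exp (wt W (y - y₁)) * qf θ W y x =
      (‖innerSL ℂ x₁ x‖ / (‖x₁‖ * ‖x‖)) ^ d * (Real.exp (Psi_e W y₁ y).re * Real.exp (wt W (y - y₁)) * Real.exp (-wt W y)) := by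
    rw [Psi_H_norm]
    unfold qf
    rw [div_pow, mul_pow]
    field_simp
  rw [e, ← Real.exp_add, ← Real.exp_add, Psi_e_re, add_neg_cancel, Real.exp_zero, mul_one]
  refine pow_le_one₀ (by positivity) ?_
  rw [div_le_one (by positivity)]
  exact norm_inner_le_norm x₁ x

private theorem Psi_H_self (θ : Fin (d + 1) → Vd (k + 1) → ℂ) (W : Fin r → Vd (k + 1) →L[ℂ] ℂ) {x₁ : EN 1} (hx₁ : x₁ ≠ 0) {y₁ : Vd (k + 1)}
    (hF : Fo θ y₁ x₁ ≠ 0) : ‖Psi_H θ W x₁ y₁ x₁ y₁‖ * qf θ W y₁ x₁ = 1 := by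
  have h1 : 0 < ‖x₁‖ := norm_pos_iff.2 hx₁
  have h3 : 0 < ‖Fo θ y₁ x₁‖ := norm_pos_iff.2 hF
  have h4 : ‖innerSL ℂ x₁ x₁‖ = ‖x₁‖ * ‖x₁‖ := by
    rw [innerSL_apply_apply, inner_self_eq_norm_sq_to_K, norm_pow]
    simp [sq]
  have h5 := Psi_e_re W y₁ y₁
  have h6 : wt W (y₁ - y₁) = 0 := by
    rw [sub_self]
    simp [wt]
  rw [h6, add_zero] at h5
  rw [Psi_H_norm, h4, h5]
  unfold qf
  have e : (‖x₁‖ * ‖x₁‖) ^ d * Real.exp (wt W y₁) / (‖x₁‖ ^ d * ‖Fo θ y₁ x₁‖) * (‖Fo θ y₁ x₁‖ * Real.exp (-wt W y₁) / ‖x₁‖ ^ d) =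
      Real.exp (wt W y₁) * Real.exp (-wt W y₁) := by
    rw [mul_pow]
    field_simp
  rw [e, ← Real.exp_add, add_neg_cancel, Real.exp_zero]

private theorem Psi_H_diff (P : PE Λ D θ W) {w : ℂ → EN 1} {h : ℂ → Vd (k + 1)} {U : Set ℂ} (hc : Cp θ U w h) {x₁ : EN 1} (hx₁ : x₁ ≠ 0)
    (y₁ : Vd (k + 1)) : DifferentiableOn ℂ (fun z => Psi_H θ W x₁ y₁ (w z) (h z)) U := by
  have h1 : ‖x₁‖ ≠ 0 := norm_ne_zero_iff.2 hx₁
  unfold Psi_H
  have hF : DifferentiableOn ℂ (fun z => Fo θ (h z) (w z)) U :=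
    Differentiable.comp_differentiableOn (g := fun p : Vd (k + 1) × EN 1 => Fo θ p.1 p.2) (f := fun z => (h z, w z)) (fo_diff P.an)
      (hc.h_diff.prodMk hc.w_diff)
  have he : DifferentiableOn ℂ (fun z => Psi_e W y₁ (h z)) U := by
    unfold Psi_e
    refine DifferentiableOn.fun_sum fun i _ => ?_
    exact (((W i).differentiable.comp_differentiableOn hc.h_diff).const_mul _).sub_const _
  have hi : DifferentiableOn ℂ (fun z => (innerSL ℂ x₁) (w z)) U :=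
    (innerSL ℂ x₁).differentiable.comp_differentiableOn hc.w_diff
  refine ((hi.pow d).mul he.cexp).div (hF.const_mul _) fun z hz => ?_
  refine mul_ne_zero ?_ (hc.ne z hz)
  rw [Ne, Complex.ofReal_eq_zero]
  exact pow_ne_zero d h1

private theorem Psi_qf_pos (θ : Fin (d + 1) → Vd (k + 1) → ℂ) (W : Fin r → Vd (k + 1) →L[ℂ] ℂ) {x : EN 1} (hx : x ≠ 0) {y : Vd (k + 1)}
    (hF : Fo θ y x ≠ 0) : 0 < qf θ W y x := by
  have h1 : 0 < ‖x‖ := norm_pos_iff.2 hx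
  have h3 : 0 < ‖Fo θ y x‖ := norm_pos_iff.2 hF
  unfold qf
  positivity

private theorem Psi_qf_cont (P : PE Λ D θ W) {w : ℂ → EN 1} {h : ℂ → Vd (k + 1)} {U : Set ℂ} (hc : Cp θ U w h) :
    ContinuousOn (fun z => qf θ W (h z) (w z)) U := by
  have hd : 1 ≤ d := le_trans (by norm_num) P.deg
  have hF : DifferentiableOn ℂ (fun z => Fo θ (h z) (w z)) U :=
    Differentiable.comp_differentiableOn (g := fun p : Vd (k + 1) × EN 1 => Fo θ p.1 p.2) (f := fun z => (h z, w z)) (fo_diff P.an)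
      (hc.h_diff.prodMk hc.w_diff)
  have hcont : Continuous (wt W) := by
    unfold wt
    exact continuous_finsetSum _ fun i _ => ((W i).continuous.norm.pow 2)
  unfold qf
  refine ContinuousOn.div (hF.continuousOn.norm.mul ?_) (hc.w_diff.continuousOn.norm.pow d) fun z hz => ?_
  · exact Real.continuous_exp.comp_continuousOn (hcont.comp_continuousOn hc.h_diff.continuousOn).neg
  · exact pow_ne_zero d (norm_ne_zero_iff.2 (hc.w_ne hd hz))

theorem PE.psi_max (P : PE Λ D θ W) {w : ℂ → EN 1} {h : ℂ → Vd (k + 1)} {z₀ : ℂ} {s R : ℝ} (hs : 0 < s) (hR : s < R) (hc : Cp θ (ball z₀ R) w h) {c : ℝ} (hc0 : 0 < c)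
    (hq : ∀ z ∈ sphere z₀ s, c ≤ qf θ W (h z) (w z)) : c ≤ qf θ W (h z₀) (w z₀) := by
  have hd : 1 ≤ d := le_trans (by norm_num) P.deg
  have hz₀ : z₀ ∈ ball z₀ R := mem_ball_self (hs.trans hR)
  have hw₀ : w z₀ ≠ 0 := hc.w_ne hd hz₀
  have hcl : closedBall z₀ s ⊆ ball z₀ R := closedBall_subset_ball hR
  have hH := Psi_H_diff P hc hw₀ (h z₀)
  have hH2 : DiffContOnCl ℂ (fun z => Psi_H θ W (w z₀) (h z₀) (w z) (h z)) (ball z₀ s) := by
    refine DifferentiableOn.diffContOnCl ?_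
    rw [closure_ball z₀ hs.ne']
    exact hH.mono hcl
  have h1 : ‖Psi_H θ W (w z₀) (h z₀) (w z₀) (h z₀)‖ ≤ 1 / c := by
    refine Complex.norm_le_of_forall_mem_frontier_norm_le isBounded_ball hH2 ?_ (subset_closure (mem_ball_self hs))
    intro z hz
    rw [frontier_ball z₀ hs.ne'] at hz
    have hzR : z ∈ ball z₀ R := hcl (sphere_subset_closedBall hz)
    have h2 := Psi_H_le θ W hw₀ (h z₀) (hc.w_ne hd hzR) (hc.ne z hzR)
    rw [le_div_iff₀ hc0]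
    have h3 : 1 ≤ Real.exp (wt W (h z - h z₀)) := by
      rw [Real.one_le_exp_iff]
      exact Finset.sum_nonneg fun i _ => by positivity
    calc ‖Psi_H θ W (w z₀) (h z₀) (w z) (h z)‖ * c
        ≤ (‖Psi_H θ W (w z₀) (h z₀) (w z) (h z)‖ * Real.exp (wt W (h z - h z₀))) * qf θ W (h z) (w z) :=
          mul_le_mul (le_mul_of_one_le_right (norm_nonneg _) h3) (hq z hz) hc0.le (by positivity)
      _ ≤ 1 := h2
  have h4 := Psi_H_self θ W hw₀ (hc.ne z₀ hz₀)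
  have h5 : 0 < qf θ W (h z₀) (w z₀) := Psi_qf_pos θ W hw₀ (hc.ne z₀ hz₀)
  have h6 : 1 ≤ 1 / c * qf θ W (h z₀) (w z₀) := h4.symm.le.trans (mul_le_mul_of_nonneg_right h1 h5.le)
  rw [one_div, ← div_eq_inv_mul, le_div_iff₀ hc0, one_mul] at h6
  exact h6

theorem PE.psi_grow (P : PE Λ D θ W) {A : ℝ} (hA : 0 < A) : ∃ c₀ : ℝ, 0 < c₀ ∧ ∀ (w : ℂ → EN 1) (h : ℂ → Vd (k + 1)) (s R : ℝ), 0 < s → s < R → Cp θ (ball 0 R) w h →
    (∀ z ∈ ball (0 : ℂ) R, A ≤ ‖deriv h z‖) → ∀ c : ℝ, 0 < c → (∀ z ∈ sphere (0 : ℂ) s, c ≤ qf θ W (h z) (w z)) → c * Real.exp (c₀ * s ^ 2) ≤ qf θ W (h 0) (w 0) := by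
  have hd : 1 ≤ d := le_trans (by norm_num) P.deg
  obtain ⟨l, hl, hwt⟩ := Psi_wt_ge P.pos
  refine ⟨l * A ^ 2 / 2, by positivity, ?_⟩
  intro w h s R hs hR hc hh c hc0 hq
  set b : ℝ := l * A ^ 2 / 2 with hb
  have hb0 : 0 < b := by positivity
  have hcl : closedBall (0 : ℂ) s ⊆ ball 0 R := closedBall_subset_ball hR
  have hqpos : ∀ z ∈ ball (0 : ℂ) R, 0 < qf θ W (h z) (w z) := fun z hz => Psi_qf_pos θ W (hc.w_ne hd hz) (hc.ne z hz)
  have hΦ : ContinuousOn (fun z : ℂ => (qf θ W (h z) (w z))⁻¹ * Real.exp (-(b * ‖z‖ ^ 2))) (closedBall 0 s) := by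
    refine ContinuousOn.mul ?_ (by fun_prop)
    exact ((Psi_qf_cont P hc).mono hcl).inv₀ fun z hz => (hqpos z (hcl hz)).ne'
  obtain ⟨z₁, hz₁, hmax⟩ := (isCompact_closedBall (0 : ℂ) s).exists_isMaxOn ⟨0, mem_closedBall_self hs.le⟩ hΦ
  have hz₁R : z₁ ∈ ball (0 : ℂ) R := hcl hz₁
  have hw₁ : w z₁ ≠ 0 := hc.w_ne hd hz₁R
  rcases (mem_closedBall_zero_iff.1 hz₁).lt_or_eq with hlt | heq
  · -- an interior maximum
    exfalso
    have hdz : HasDerivAt h (deriv h z₁) z₁ := ((hc.h_diff z₁ hz₁R).differentiableAt (isOpen_ball.mem_nhds hz₁R)).hasDerivAt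
    have hA1 := hh z₁ hz₁R
    have hlit := hdz.isLittleO.bound (show (0 : ℝ) < A / 8 by positivity)
    obtain ⟨ρ₁, hρ₁, hball⟩ := Metric.eventually_nhds_iff_ball.1 hlit
    set ρ : ℝ := min (ρ₁ / 2) ((s - ‖z₁‖) / 2) with hρ
    have hρ0 : 0 < ρ := lt_min (by positivity) (by linarith)
    have hρ1 : ρ < ρ₁ := (min_le_left _ _).trans_lt (by linarith)
    have hρ2 : ρ ≤ (s - ‖z₁‖) / 2 := min_le_right _ _
    have hsub : closedBall z₁ ρ ⊆ closedBall (0 : ℂ) s := by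
      intro z hz
      rw [mem_closedBall_zero_iff]
      rw [mem_closedBall, dist_eq_norm] at hz
      have h1 : ‖z‖ ≤ ‖z - z₁‖ + ‖z₁‖ := by
        have := norm_add_le (z - z₁) z₁
        rwa [sub_add_cancel] at this
      linarith
    have hH := Psi_H_diff P hc hw₁ (h z₁)
    set Ht : ℂ → ℂ := fun z => Psi_H θ W (w z₁) (h z₁) (w z) (h z) * Complex.exp (-(2 * (b : ℂ) * starRingEnd ℂ z₁ * (z - z₁))) with hHt
    have hHtd : DiffContOnCl ℂ Ht (ball z₁ ρ) := by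
      refine DifferentiableOn.diffContOnCl ?_
      rw [closure_ball z₁ hρ0.ne']
      refine (hH.mono (hsub.trans hcl)).mul ?_
      fun_prop
    obtain ⟨z₂, hz₂, hm₂⟩ := Complex.exists_mem_frontier_isMaxOn_norm isBounded_ball ⟨z₁, mem_ball_self hρ0⟩ hHtd
    rw [frontier_ball z₁ hρ0.ne'] at hz₂
    have hle : ‖Ht z₁‖ ≤ ‖Ht z₂‖ := hm₂ (subset_closure (mem_ball_self hρ0))
    have hz₂s : z₂ ∈ closedBall (0 : ℂ) s := hsub (sphere_subset_closedBall hz₂)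
    have hz₂R := hcl hz₂s
    have hdist : ‖z₂ - z₁‖ = ρ := by
      rw [mem_sphere, dist_eq_norm] at hz₂
      exact hz₂
    -- the lower bound of the weight
    have hb2 := hball z₂ (by rw [mem_ball, dist_eq_norm, hdist]; exact hρ1)
    rw [hdist] at hb2
    have hlow : 7 / 8 * A * ρ ≤ ‖h z₂ - h z₁‖ := by
      have h1 : ‖(z₂ - z₁) • deriv h z₁‖ ≤ ‖h z₂ - h z₁‖ + ‖h z₂ - h z₁ - (z₂ - z₁) • deriv h z₁‖ := by
        have := norm_sub_le (h z₂ - h z₁) (h z₂ - h z₁ - (z₂ - z₁) • deriv h z₁)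
        rwa [sub_sub_cancel] at this
      rw [norm_smul, hdist] at h1
      have h2 : ρ * A ≤ ρ * ‖deriv h z₁‖ := mul_le_mul_of_nonneg_left hA1 hρ0.le
      nlinarith
    have hwt2 : b * ρ ^ 2 < wt W (h z₂ - h z₁) := by
      have h1 := hwt (h z₂ - h z₁)
      have h2 : (7 / 8 * A * ρ) ^ 2 ≤ ‖h z₂ - h z₁‖ ^ 2 := pow_le_pow_left₀ (by positivity) hlow 2
      have h3 : l * (7 / 8 * A * ρ) ^ 2 ≤ l * ‖h z₂ - h z₁‖ ^ 2 := mul_le_mul_of_nonneg_left h2 hl.le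
      have h4 : b * ρ ^ 2 < l * (7 / 8 * A * ρ) ^ 2 := by
        have h5 : 0 < l * A ^ 2 * ρ ^ 2 := by positivity
        rw [hb]
        nlinarith
      linarith
    have hsq : ‖z₂‖ ^ 2 = ‖z₁‖ ^ 2 + 2 * (starRingEnd ℂ z₁ * (z₂ - z₁)).re + ρ ^ 2 := by
      rw [← hdist, ← Complex.normSq_eq_norm_sq, ← Complex.normSq_eq_norm_sq, ← Complex.normSq_eq_norm_sq, Complex.normSq_apply,
        Complex.normSq_apply, Complex.normSq_apply]
      simp only [Complex.mul_re, Complex.conj_re, Complex.conj_im, Complex.sub_re, Complex.sub_im]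
      ring
    have hHn : ∀ z, ‖Ht z‖ = ‖Psi_H θ W (w z₁) (h z₁) (w z) (h z)‖ * Real.exp (-(2 * b * (starRingEnd ℂ z₁ * (z - z₁)).re)) := by
      intro z
      rw [hHt]
      show ‖_ * _‖ = _
      rw [norm_mul, Complex.norm_exp]
      congr 2
      rw [Complex.neg_re, mul_assoc (2 * (b : ℂ)), Complex.mul_re]
      simp
    have h1 : ‖Ht z₁‖ = ‖Psi_H θ W (w z₁) (h z₁) (w z₁) (h z₁)‖ := by
      rw [hHn, sub_self, mul_zero, Complex.zero_re, mul_zero, neg_zero, Real.exp_zero, mul_one]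
    have h2 := Psi_H_self θ W hw₁ (hc.ne z₁ hz₁R)
    have h3 : (qf θ W (h z₁) (w z₁))⁻¹ = ‖Ht z₁‖ := by
      rw [h1]
      exact (eq_inv_of_mul_eq_one_left h2).symm
    have h4 := Psi_H_le θ W hw₁ (h z₁) (hc.w_ne hd hz₂R) (hc.ne z₂ hz₂R)
    have h5 : ‖Psi_H θ W (w z₁) (h z₁) (w z₂) (h z₂)‖ * Real.exp (wt W (h z₂ - h z₁)) ≤ (qf θ W (h z₂) (w z₂))⁻¹ := by
      rw [← one_div, le_div_iff₀ (hqpos z₂ hz₂R)]
      exact h4
    have h6 : (qf θ W (h z₂) (w z₂))⁻¹ * Real.exp (-(b * ‖z₂‖ ^ 2)) ≤ (qf θ W (h z₁) (w z₁))⁻¹ * Real.exp (-(b * ‖z₁‖ ^ 2)) := hmax hz₂s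
    have hHpos : 0 < ‖Ht z₁‖ := by
      rw [← h3]
      exact inv_pos.2 (hqpos z₁ hz₁R)
    have h7 : ‖Ht z₂‖ * Real.exp (wt W (h z₂ - h z₁) - b * ρ ^ 2) * Real.exp (-(b * ‖z₁‖ ^ 2)) ≤
        (qf θ W (h z₂) (w z₂))⁻¹ * Real.exp (-(b * ‖z₂‖ ^ 2)) := by
      refine le_trans (le_of_eq ?_) (mul_le_mul_of_nonneg_right h5 (Real.exp_pos _).le)
      have e : Real.exp (-(2 * b * (starRingEnd ℂ z₁ * (z₂ - z₁)).re)) * Real.exp (wt W (h z₂ - h z₁) - b * ρ ^ 2) * Real.exp (-(b * ‖z₁‖ ^ 2)) =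
          Real.exp (wt W (h z₂ - h z₁)) * Real.exp (-(b * ‖z₂‖ ^ 2)) := by
        rw [← Real.exp_add, ← Real.exp_add, ← Real.exp_add]
        congr 1
        rw [hsq]
        ring
      rw [hHn]
      linear_combination ‖Psi_H θ W (w z₁) (h z₁) (w z₂) (h z₂)‖ * e
    have h8 : ‖Ht z₁‖ * 1 < ‖Ht z₂‖ * Real.exp (wt W (h z₂ - h z₁) - b * ρ ^ 2) := by
      have h9 : 1 < Real.exp (wt W (h z₂ - h z₁) - b * ρ ^ 2) := by
        rw [Real.one_lt_exp_iff]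
        linarith
      calc ‖Ht z₁‖ * 1 < ‖Ht z₁‖ * Real.exp (wt W (h z₂ - h z₁) - b * ρ ^ 2) := mul_lt_mul_of_pos_left h9 hHpos
        _ ≤ _ := mul_le_mul_of_nonneg_right hle (Real.exp_pos _).le
    rw [mul_one] at h8
    have h10 := mul_lt_mul_of_pos_right h8 (Real.exp_pos (-(b * ‖z₁‖ ^ 2)))
    rw [h3] at h6
    linarith
  · have h1 : (qf θ W (h 0) (w 0))⁻¹ * Real.exp (-(b * ‖(0 : ℂ)‖ ^ 2)) ≤ (qf θ W (h z₁) (w z₁))⁻¹ * Real.exp (-(b * ‖z₁‖ ^ 2)) :=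
      hmax (mem_closedBall_self hs.le)
    have h0R : (0 : ℂ) ∈ ball (0 : ℂ) R := mem_ball_self (hs.trans hR)
    have h2 : c ≤ qf θ W (h z₁) (w z₁) := hq z₁ (mem_sphere_zero_iff_norm.2 heq)
    have h3 : (qf θ W (h z₁) (w z₁))⁻¹ ≤ c⁻¹ := inv_anti₀ hc0 h2
    rw [norm_zero, heq] at h1
    have h4 : (qf θ W (h 0) (w 0))⁻¹ ≤ c⁻¹ * Real.exp (-(b * s ^ 2)) := by
      have h5 := mul_le_mul_of_nonneg_right h3 (Real.exp_pos (-(b * s ^ 2))).le
      have h6 : Real.exp (-(b * (0 : ℝ) ^ 2)) = 1 := by simp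
      rw [h6, mul_one] at h1
      exact h1.trans h5
    have h5 : c⁻¹ * Real.exp (-(b * s ^ 2)) = (c * Real.exp (b * s ^ 2))⁻¹ := by
      rw [mul_inv, Real.exp_neg]
    rw [h5] at h4
    exact (inv_le_inv₀ (hqpos 0 h0R) (by positivity)).1 h4

end Pool.Agent.PY

end

section

/-!
# PY RLf: no limit root

`any_hit` gives local lifts of the map `g'` (`g' z = pr (G z)`, the continuous extension of `g`); `G3.entire_lift`; `PE.noroot`.
-/

set_option autoImplicit false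

open Topology Filter Metric

namespace Pool.Agent.PY

open Pool.Agent.H36.BP (EN fs wd)
open Pool.Agent.H62.EF (MN pr)
open Pool.Agent.AD (Vd)
open Pool.Agent.TG (Lat)
open Pool.Agent.G3 (wt LLift)
open Pool.Agent.PX

variable {k d r : ℕ}

variable {Λ : AddSubgroup (Vd (k + 1))} {D : Set (Vd (k + 1))} {θ : Fin (d + 1) → Vd (k + 1) → ℂ} {W : Fin r → Vd (k + 1) →L[ℂ] ℂ}

/-- two lifts which agree near a point agree at the point -/
private theorem pr_agree {G G' : ℂ → EN 1} {z : ℂ} (hG : ContinuousAt G z) (hG' : ContinuousAt G' z) (h0 : G z ≠ 0) (h0' : G' z ≠ 0)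
    (h : ∀ᶠ w in 𝓝[≠] z, pr (G w) = pr (G' w)) : pr (G z) = pr (G' z) := by
  have h1 : Tendsto (fun w => pr (G w)) (𝓝[≠] z) (𝓝 (pr (G z))) :=
    (ContinuousAt.comp (Pool.Agent.H62.EF.continuousAt_pr h0) hG).tendsto.mono_left nhdsWithin_le_nhds
  have h2 : Tendsto (fun w => pr (G' w)) (𝓝[≠] z) (𝓝 (pr (G' z))) :=
    (ContinuousAt.comp (Pool.Agent.H62.EF.continuousAt_pr h0') hG').tendsto.mono_left nhdsWithin_le_nhds
  exact tendsto_nhds_unique (h1.congr' h) h2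

theorem PE.no_rt (P : PE Λ D θ W) {y a : Vd (k + 1)} (ha : a ≠ 0) {g : ℂ → MN 1} (hl : ∀ z : ℂ, y + z • a ∉ D → LLift g z) (hR : Rt θ D y a g) : False := by
  choose ρ hρ Gl hGd hGr hGg using P.any_hit ha hl hR
  have hcont : ∀ z₀, ∀ z ∈ ball z₀ (ρ z₀), ContinuousAt (Gl z₀) z := fun z₀ z hz =>
    ((hGd z₀).continuousOn.continuousAt (isOpen_ball.mem_nhds hz))
  -- the local lifts agree
  have key : ∀ z₀, ∀ z ∈ ball z₀ (ρ z₀), pr (Gl z z) = pr (Gl z₀ z) := by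
    intro z₀ z hz
    rcases eq_or_ne z z₀ with rfl | hne
    · rfl
    refine pr_agree (hcont z z (mem_ball_self (hρ z))) (hcont z₀ z hz) (hGr z z (mem_ball_self (hρ z))).1 (hGr z₀ z hz).1 ?_
    have h1 : ∀ᶠ w in 𝓝[≠] z, w ∈ ball z (ρ z) := mem_nhdsWithin_of_mem_nhds (ball_mem_nhds z (hρ z))
    have h2 : ∀ᶠ w in 𝓝[≠] z, w ∈ ball z₀ (ρ z₀) := mem_nhdsWithin_of_mem_nhds (isOpen_ball.mem_nhds hz)
    have h3 : ∀ᶠ w in 𝓝[≠] z, w ≠ z₀ := mem_nhdsWithin_of_mem_nhds (isOpen_ne.mem_nhds hne)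
    filter_upwards [h1, h2, h3, self_mem_nhdsWithin] with w hw1 hw2 hw3 hw4
    rw [← hGg z w hw1 hw4, ← hGg z₀ w hw2 hw3]
  have hL : ∀ z, LLift (fun z => pr (Gl z z)) z := by
    intro z₀
    refine ⟨Gl z₀, (hGd z₀).analyticAt (ball_mem_nhds z₀ (hρ z₀)), ?_⟩
    filter_upwards [ball_mem_nhds z₀ (hρ z₀)] with z hz
    exact ⟨(hGr z₀ z hz).1, key z₀ z hz⟩
  obtain ⟨G, hG, hGe⟩ := Pool.Agent.G3.entire_lift hL
  have hroot : ∀ z : ℂ, Fo θ (y + z • a) (G z) = 0 := by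
    intro z
    have h1 := hGr z z (mem_ball_self (hρ z))
    obtain ⟨c, -, hc⟩ := (Pool.Agent.H62.EF.pr_eq_iff (hGe z).1 h1.1).mp (hGe z).2.symm
    rw [hc, fo_smul, h1.2, mul_zero]
  exact P.noroot y a ha G hG (fun z => (hGe z).1) hroot

end Pool.Agent.PY

end
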