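import Pool.Agent.H94.PX2.M20
import Pool.Agent.H94.PX2.M34
import Pool.Agent.H94.PX2.M37
import Pool.Agent.H94.PX2.M44
import Pool.Agent.H94.PX2.M64
import Pool.Agent.H94.PX2.M66
import Pool.Agent.H94.PX2.M67
import Pool.Agent.H94.PX2.M76
import Pool.Agent.H94.PX2.M83

/-! The parts of this file: PY.Lip_1, PY.Lim_1, PY.Sep, PY.Long, PY.Bound_1, PY.Main. -/

section

/-!
# PY Lip: the curves are Lipschitz over `Gd D δ`

As `TG/Zl` (`curve_bound`), with `N = 1` and the cone `{x | x ≠ 0}`: `AD.rescale_disc`, `H62.EF.limit_curves`.  The discs are shrunk to radius `min r₀ (δ / (4 (H + 1)))`, so that `h` stays in `Gd D (δ / 2)`; translate by `Λ` (`Cp.add`).  The limit `G` of the rescaled curves lies in the fibre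
over a point `y₀ ∉ D`; by Hurwitz `Fo θ y₀ (G z)` is identically `0` or has no zero (`Fo θ (h n ..) (φ n z)` has no zero, `φ n` the local lifts of `limit_curves`, converges locally uniformly to `Fo θ y₀ (ψ z)`): `fib`, `fibE`; contradiction with `fs (G 0) (G' 0) = 1`.
-/

set_option autoImplicit false

open Topology Filter Metric

namespace Pool.Agent.PY

open Pool.Agent.H36.BP (EN fs wd)
open Pool.Agent.H62.EF (MN pr)
open Pool.Agent.AD (Vd)
open Pool.Agent.TG (Lat Gd)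
open Pool.Agent.G3 (wt LLift)
open Pool.Agent.PX

variable {k d r : ℕ}

variable {Λ : AddSubgroup (Vd (k + 1))} {D : Set (Vd (k + 1))} {θ : Fin (d + 1) → Vd (k + 1) → ℂ}
  {W : Fin r → Vd (k + 1) →L[ℂ] ℂ}

theorem PE.lip (P : PE Λ D θ W) {δ H r₀ : ℝ} (hδ : 0 < δ) (hH : 0 ≤ H) (hr₀ : 0 < r₀) : ∃ L : ℝ, 0 < L ∧ ∀ (w : ℂ → EN 1) (h : ℂ → Vd (k + 1)) (z : ℂ),
    Cp θ (ball z r₀) w h → (∀ ζ ∈ ball z r₀, ‖deriv h ζ‖ ≤ H) → h z ∈ Gd D δ → fs (w z) (deriv w z) ≤ L := by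
  have hd1 : 1 ≤ d := by
    have := P.deg
    omega
  by_contra hcon
  push Not at hcon
  set s : ℝ := min r₀ (δ / (4 * (H + 1))) with hsdef
  have hH1 : 0 < H + 1 := by linarith
  have hs : 0 < s := lt_min hr₀ (by positivity)
  have hsr : s ≤ r₀ := min_le_left _ _
  have hHs : H * s ≤ δ / 4 := by
    have h1 : s ≤ δ / (4 * (H + 1)) := min_le_right _ _
    calc H * s ≤ (H + 1) * s := by nlinarith
      _ ≤ (H + 1) * (δ / (4 * (H + 1))) := mul_le_mul_of_nonneg_left h1 hH1.le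
      _ = δ / 4 := by
        field_simp
  obtain ⟨R, hR0, hR⟩ := Lip_norm (δ := δ) (H := H) P hs hsr
  have hbig : ∀ n : ℕ, ∃ (F : ℂ → EN 1) (h : ℂ → Vd (k + 1)), Cp θ (ball 0 s) F h ∧
      (∀ ζ ∈ ball (0 : ℂ) s, ∀ ζ' ∈ ball (0 : ℂ) s, ‖h ζ - h ζ'‖ ≤ H * ‖ζ - ζ'‖) ∧ h 0 ∈ Gd D δ ∧ ‖h 0‖ ≤ R ∧
      4 * ((n : ℝ) + 1) / s < fs (F 0) (deriv F 0) := by
    intro n
    obtain ⟨w, h, z, h1, h2, h3, h4⟩ := hcon (4 * ((n : ℝ) + 1) / s) (by positivity)
    obtain ⟨w', h', h5, h6, h7, h8, h9⟩ := hR w h z h1 h2 h3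
    exact ⟨w', h', h5, h6, h7, h8, by rw [h9]; exact h4⟩
  choose F h hcp hlip hGd hRn hFb using hbig
  have hF0 : ∀ n, ∀ z ∈ ball (0 : ℂ) s, F n z ≠ 0 := fun n z hz => Cp.w_ne hd1 (hcp n) hz
  have hmul : ∀ z : ℂ, z ∈ ball (0 : ℂ) 1 → (s : ℂ) * z ∈ ball (0 : ℂ) s := by
    intro z hz
    rw [mem_ball_zero_iff] at hz ⊢
    rw [norm_mul, Complex.norm_real, Real.norm_of_nonneg hs.le]
    calc s * ‖z‖ < s * 1 := mul_lt_mul_of_pos_left hz hs
      _ = s := mul_one s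
  have hresc : ∀ n : ℕ, ∃ (z₀ : ℂ) (a : ℝ), 4 * ((n : ℝ) + 1) < a ∧
      (∀ ζ ∈ ball (0 : ℂ) (n + 1), ‖z₀ + ((a⁻¹ : ℝ) : ℂ) * ζ‖ ≤ 1 / 2) ∧
      fs (F n ((s : ℂ) * z₀)) (deriv (fun ζ => F n ((s : ℂ) * (z₀ + ((a⁻¹ : ℝ) : ℂ) * ζ))) 0) = 1 ∧
      ∀ ζ ∈ ball (0 : ℂ) (n + 1), fs (F n ((s : ℂ) * (z₀ + ((a⁻¹ : ℝ) : ℂ) * ζ)))
        (deriv (fun ζ => F n ((s : ℂ) * (z₀ + ((a⁻¹ : ℝ) : ℂ) * ζ))) ζ) ≤ 2 := by
    intro n
    have hd : DifferentiableOn ℂ (fun z => F n ((s : ℂ) * z)) (ball 0 1) :=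
      (hcp n).w_diff.comp (differentiable_id.const_mul _).differentiableOn hmul
    refine Pool.Agent.AD.rescale_disc hd (fun z hz => hF0 n _ (hmul z hz)) n ?_
    have h1 : HasDerivAt (fun z : ℂ => (s : ℂ) * z) (s : ℂ) 0 := by
      simpa using (hasDerivAt_id (0 : ℂ)).const_mul (s : ℂ)
    have h2 : deriv (fun z => F n ((s : ℂ) * z)) 0 = (s : ℂ) • deriv (F n) 0 := by
      have h4 : HasDerivAt (F n) (deriv (F n) 0) ((s : ℂ) * 0) := by
        rw [mul_zero]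
        exact ((hcp n).w_diff.differentiableAt (isOpen_ball.mem_nhds (mem_ball_self hs))).hasDerivAt
      exact (h4.scomp 0 h1).deriv
    rw [h2, Pool.Agent.H36.BP.fs_smul_right, Complex.norm_real, Real.norm_of_nonneg hs.le, mul_zero]
    have h4 := hFb n
    rw [div_lt_iff₀ hs] at h4
    linarith
  choose z₀ a ha hz₀ h1 h2 using hresc
  have ha0 : ∀ n, 0 < a n := fun n => lt_trans (by positivity) (ha n)
  have hz₀n : ∀ n, ‖z₀ n‖ ≤ 1 / 2 := by
    intro n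
    have h3 := hz₀ n 0 (mem_ball_self (by positivity))
    rwa [mul_zero, add_zero] at h3
  set g : ℕ → ℂ → EN 1 := fun n ζ => F n ((s : ℂ) * (z₀ n + (((a n)⁻¹ : ℝ) : ℂ) * ζ)) with hgdef
  set hh : ℕ → ℂ → Vd (k + 1) := fun n ζ => h n ((s : ℂ) * (z₀ n + (((a n)⁻¹ : ℝ) : ℂ) * ζ)) with hhdef
  have hin : ∀ n : ℕ, ∀ ζ ∈ ball (0 : ℂ) ((n : ℝ) + 1), (s : ℂ) * (z₀ n + (((a n)⁻¹ : ℝ) : ℂ) * ζ) ∈ ball (0 : ℂ) s := by
    intro n ζ hζ
    apply hmul
    rw [mem_ball_zero_iff]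
    have h3 := hz₀ n ζ hζ
    linarith
  have hcpg : ∀ n : ℕ, Cp θ (ball 0 ((n : ℝ) + 1)) (g n) (hh n) := by
    intro n
    exact (hcp n).comp (φ := fun ζ => (s : ℂ) * (z₀ n + (((a n)⁻¹ : ℝ) : ℂ) * ζ))
      (((differentiable_id.const_mul _).const_add _).const_mul _).differentiableOn (hin n)
  have hg0 : ∀ n : ℕ, ∀ ζ ∈ ball (0 : ℂ) ((n : ℝ) + 1), g n ζ ≠ 0 := fun n ζ hζ => hF0 n _ (hin n ζ hζ)
  have hg1 : ∀ n, fs (g n 0) (deriv (g n) 0) = 1 := by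
    intro n
    have h3 := h1 n
    rw [hgdef]
    simpa only [mul_zero, add_zero] using h3
  have h0b : ∀ n : ℕ, (0 : ℂ) ∈ ball (0 : ℂ) ((n : ℝ) + 1) := fun n => mem_ball_self (by positivity)
  have hwy : ∀ n, ‖hh n 0 - h n 0‖ ≤ δ / 4 := by
    intro n
    have h3 := hlip n _ (hin n 0 (h0b n)) 0 (mem_ball_self hs)
    refine h3.trans (le_trans ?_ hHs)
    rw [mul_zero, add_zero, sub_zero, norm_mul, Complex.norm_real, Real.norm_of_nonneg hs.le]
    refine mul_le_mul_of_nonneg_left ?_ hH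
    have := hz₀n n
    nlinarith
  have hwG : ∀ n, hh n 0 ∈ Gd D (δ / 2) := by
    intro n
    have h3 := Pool.Agent.TG.gd_near (hGd n) (hwy n)
    exact Pool.Agent.TG.gd_mono (by linarith) h3
  have hwR : ∀ n, hh n 0 ∈ closedBall (0 : Vd (k + 1)) (R + δ / 4) := by
    intro n
    rw [mem_closedBall_zero_iff]
    have h3 : hh n 0 = h n 0 + (hh n 0 - h n 0) := by abel
    rw [h3]
    exact (norm_add_le _ _).trans (add_le_add (hRn n) (hwy n))
  set 𝒰 : Ultrafilter ℕ := hyperfilter ℕ with h𝒰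
  have hle : (𝒰 : Filter ℕ) ≤ atTop := Nat.hyperfilter_le_atTop
  obtain ⟨w₀, -, hw₀⟩ := (isCompact_closedBall (0 : Vd (k + 1)) (R + δ / 4)).ultrafilter_le_nhds (𝒰.map fun n => hh n 0) (by
    rw [Filter.le_principal_iff, Ultrafilter.coe_map, Filter.mem_map]
    exact Filter.univ_mem' hwR)
  have hwt : Tendsto (fun n => hh n 0) 𝒰 (𝓝 w₀) := hw₀
  have hw₀G : w₀ ∈ Gd D (δ / 2) := (Pool.Agent.TG.gd_closed D (δ / 2)).mem_of_tendsto hwt (Eventually.of_forall hwG)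
  have hw₀D : w₀ ∉ D := Pool.Agent.TG.gd_notMem (by positivity) hw₀G
  have hρ : Tendsto (fun n : ℕ => (n : ℝ) + 1) 𝒰 atTop :=
    (tendsto_atTop_add_const_right _ _ tendsto_natCast_atTop_atTop).mono_left hle
  have hainv : Tendsto (fun n => (a n)⁻¹) 𝒰 (𝓝 0) := by
    have h3 : Tendsto a 𝒰 atTop := by
      refine tendsto_atTop_mono (fun n => ?_) hρ
      have := ha n
      have h4 : (0 : ℝ) ≤ n := Nat.cast_nonneg n
      linarith
    exact tendsto_inv_atTop_zero.comp h3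
  obtain ⟨G, hG, hGX, -, hfs, hloc⟩ := Pool.Agent.H62.EF.limit_curves (Pool.Agent.TG.isCone_ne (N := 1)) (L := 2) two_pos 𝒰 g (fun n : ℕ => (n : ℝ) + 1) hρ
    (Eventually.of_forall fun n => ⟨(hcpg n).w_diff, fun z hz => ⟨hg0 n z hz, h2 n z hz⟩⟩)
  have hG0 : ∀ z, G z ≠ 0 := fun z => hGX z
  -- the limit is not constant
  have hone : fs (G 0) (deriv G 0) = 1 := by
    have h3 := hfs 0
    simp only [hg1] at h3
    exact tendsto_nhds_unique h3 tendsto_const_nhds |>.symm ▸ rfl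
  -- the base points converge
  have hlim : ∀ (z : ℕ → ℂ) (z₁ : ℂ), Tendsto z 𝒰 (𝓝 z₁) → Tendsto (fun n => hh n (z n)) 𝒰 (𝓝 w₀) := by
    intro z z₁ hz
    have h3 : Tendsto (fun n => hh n (z n) - hh n 0) 𝒰 (𝓝 0) := by
      rw [tendsto_zero_iff_norm_tendsto_zero]
      have h5 : Tendsto (fun n => H * (s * (a n)⁻¹ * ‖z n‖)) 𝒰 (𝓝 0) := by
        have h6 := (((hainv.const_mul s).mul hz.norm).const_mul H)
        rwa [mul_zero, zero_mul, mul_zero] at h6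
      refine squeeze_zero' (Eventually.of_forall fun n => norm_nonneg _) ?_ h5
      have hzn : ∀ᶠ n in (𝒰 : Filter ℕ), ‖z n‖ < ‖z₁‖ + 1 := hz.norm.eventually_lt_const (by linarith)
      filter_upwards [hzn, hρ.eventually_gt_atTop (‖z₁‖ + 1)] with n hn1 hn2
      have hb : z n ∈ ball (0 : ℂ) ((n : ℝ) + 1) := by
        rw [mem_ball_zero_iff]
        linarith
      refine (hlip n _ (hin n _ hb) _ (hin n 0 (h0b n))).trans (mul_le_mul_of_nonneg_left (le_of_eq ?_) hH)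
      have h7 : (s : ℂ) * (z₀ n + (((a n)⁻¹ : ℝ) : ℂ) * z n) - (s : ℂ) * (z₀ n + (((a n)⁻¹ : ℝ) : ℂ) * 0) = (s : ℂ) * (((a n)⁻¹ : ℝ) : ℂ) * z n := by
        ring
      rw [h7, norm_mul, norm_mul, Complex.norm_real, Complex.norm_real, Real.norm_of_nonneg hs.le, Real.norm_of_nonneg (inv_nonneg.mpr (ha0 n).le)]
    have h4 := h3.add hwt
    rw [zero_add] at h4
    refine h4.congr fun n => ?_
    abel
  have hc : ∀ z w : ℂ, ∃ c : ℂ, G z = c • G w := by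
    rcases Lip_hur P hcpg hρ hlim hG hloc with h3 | h3
    · exact fun z w => P.fibE hw₀D hG hG0 h3 z w
    · exact fun z w => P.fib hw₀D hG h3 z w
  obtain ⟨b, hb⟩ := Pool.Agent.H36.BP.Brody_deriv_line (hG 0) (fun z => hc z 0)
  have h3 : wd (G 0) (deriv G 0) = 0 := (Pool.Agent.H36.BP.wd_eq_zero (hG0 0)).mpr ⟨b, hb⟩
  unfold fs at hone
  rw [h3, zero_div] at hone
  exact zero_ne_one hone

end Pool.Agent.PY

end

section

/-!
# PY Lim: limits of curves on lines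

`exists_ls`: `G3.ult` for `U = {z | y + z • a ∉ D}` (open; complement closed discrete by `iso`), equicontinuity from `lip` (`‖deriv (h n)‖` is bounded by Cauchy: `hh`), as in `G3/P/Cls` (`closed_arcs`).
`ls_rt`: Hurwitz on the connected open set `U` (the complement of a closed countable set in `ℂ` is connected): locally `Fo θ (h n z) (φ n z)`, `φ n` lifts without zero, converges to `Fo θ (y + z a) (φ z)`.
-/

set_option autoImplicit false

open Topology Filter Metric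

namespace Pool.Agent.PY

open Pool.Agent.H36.BP (EN fs wd)
open Pool.Agent.H62.EF (MN pr)
open Pool.Agent.AD (Vd)
open Pool.Agent.TG (Lat Gd)
open Pool.Agent.G3 (wt LLift)
open Pool.Agent.PX

variable {k d r : ℕ}

variable {Λ : AddSubgroup (Vd (k + 1))} {D : Set (Vd (k + 1))} {θ : Fin (d + 1) → Vd (k + 1) → ℂ}
  {W : Fin r → Vd (k + 1) →L[ℂ] ℂ}

theorem PE.exists_ls (P : PE Λ D θ W) {y a : Vd (k + 1)} (ha : a ≠ 0) (𝒰 : Ultrafilter ℕ) {w : ℕ → ℂ → EN 1} {h : ℕ → ℂ → Vd (k + 1)}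
    (hcv : ∀ R : ℝ, ∀ᶠ n in (𝒰 : Filter ℕ), Cp θ (ball 0 R) (w n) (h n))
    (hh : ∀ R ε : ℝ, 0 < ε → ∀ᶠ n in (𝒰 : Filter ℕ), ∀ z ∈ closedBall (0 : ℂ) R, ‖h n z - (y + z • a)‖ < ε) : ∃ g : ℂ → MN 1, LS θ D y a 𝒰 w h g := by
  classical
  have hd1 : 1 ≤ d := le_trans (by norm_num) P.deg
  have hHc : Continuous fun z : ℂ => y + z • a := by fun_prop
  have hUo : IsOpen {z : ℂ | y + z • a ∉ D} := P.D_closed.isOpen_compl.preimage hHc
  -- curves on large discs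
  have hcurve : ∀ r : ℝ, ∀ᶠ n in (𝒰 : Filter ℕ), Cp θ (ball 0 (r + 1)) (w n) (h n) ∧ closedBall (0 : ℂ) r ⊆ ball 0 (r + 1) := by
    intro r
    filter_upwards [hcv (r + 1)] with n h1
    exact ⟨h1, closedBall_subset_ball (by linarith)⟩
  -- derivatives
  have hbound : ∀ r : ℝ, ∀ᶠ n in (𝒰 : Filter ℕ), ∀ z ∈ closedBall (0 : ℂ) r, ‖deriv (h n) z‖ ≤ 1 + ‖a‖ := by
    intro r
    filter_upwards [hcurve (r + 1), hh (r + 1) 1 one_pos] with n h1 h2 z hz
    exact Lim_deriv isOpen_ball h1.2 h1.1.h_diff h2 hz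
  -- points off `D`
  have hoff : ∀ z : ℂ, y + z • a ∉ D → ∃ δ s : ℝ, 0 < δ ∧ 0 < s ∧ ∀ᶠ n in (𝒰 : Filter ℕ), ∀ v ∈ ball z s, h n v ∈ Gd D δ := by
    intro z hz
    obtain ⟨δ, hδ, hδm⟩ := Lim_gd P.D_closed hz
    obtain ⟨s, hs, hsb⟩ := Metric.continuousAt_iff.mp (hHc.continuousAt (x := z)) (δ / 4) (by positivity)
    refine ⟨δ / 2, s, by positivity, hs, ?_⟩
    filter_upwards [hh (‖z‖ + s) (δ / 4) (by positivity)] with n hn v hv
    have hv1 : dist v z < s := mem_ball.mp hv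
    have hv0 : v ∈ closedBall (0 : ℂ) (‖z‖ + s) := by
      rw [mem_closedBall, dist_zero_right]
      have := norm_le_norm_add_norm_sub' v z
      rw [← dist_eq_norm] at this
      linarith
    have h1 := hn v hv0
    have h2 : ‖(y + v • a) - (y + z • a)‖ < δ / 4 := by
      rw [← dist_eq_norm]
      exact hsb hv1
    have h3 : ‖h n v - (y + z • a)‖ ≤ δ / 2 := by
      have h4 := norm_sub_le_norm_sub_add_norm_sub (h n v) (y + v • a) (y + z • a)
      linarith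
    have h5 := Pool.Agent.TG.gd_near hδm h3
    have h6 : δ - δ / 2 = δ / 2 := by ring
    rwa [h6] at h5
  -- equicontinuity
  have heq : ∀ z : ℂ, y + z • a ∉ D → ∃ L s : ℝ, 0 < L ∧ 0 < s ∧ ∀ᶠ n in (𝒰 : Filter ℕ), DifferentiableOn ℂ (w n) (ball z s) ∧
      (∀ v ∈ ball z s, w n v ≠ 0) ∧ ∀ v ∈ ball z s, dist (pr (w n v)) (pr (w n z)) ≤ L * ‖v - z‖ := by
    intro z hz
    obtain ⟨δ, s, hδ, hs, hev⟩ := hoff z hz
    obtain ⟨L, hL, hLip⟩ := P.lip (H := 1 + ‖a‖) hδ (by positivity) one_pos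
    refine ⟨2 * L, s, by positivity, hs, ?_⟩
    filter_upwards [hev, hbound (‖z‖ + s + 1), hcurve (‖z‖ + s + 1)] with n h1 h2 h3
    have hsub : ∀ v ∈ ball z s, ball v 1 ⊆ closedBall (0 : ℂ) (‖z‖ + s + 1) := by
      intro v hv x hx
      rw [mem_closedBall, dist_zero_right]
      have hv1 : dist v z < s := mem_ball.mp hv
      have hx1 : dist x v < 1 := mem_ball.mp hx
      have h4 : ‖x‖ ≤ dist x v + dist v z + ‖z‖ := by
        have h5 := dist_triangle4 x v z 0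
        rwa [dist_zero_right, dist_zero_right] at h5
      linarith
    have hballs : ball z s ⊆ ball (0 : ℂ) (‖z‖ + s + 1 + 1) := fun v hv => h3.2 (hsub v hv (mem_ball_self one_pos))
    have hne : ∀ v ∈ ball z s, w n v ≠ 0 := fun v hv => h3.1.w_ne hd1 (hballs hv)
    refine ⟨h3.1.w_diff.mono hballs, hne, fun v hv => ?_⟩
    refine Pool.Agent.H62.EF.pr_lipschitz isOpen_ball (convex_ball z s) (h3.1.w_diff.mono hballs) hne (L := L) (fun x hx => ?_) v hv z (mem_ball_self hs)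
    exact hLip (w n) (h n) x (h3.1.mono ((hsub x hx).trans h3.2)) (fun q hq => h2 q (hsub x hx hq)) (h1 x hx)
  -- the limit
  obtain ⟨g, hgl, hgc⟩ := Pool.Agent.G3.ult 𝒰 hUo w (fun z hz => by
      obtain ⟨L, s, -, hs, hev⟩ := heq z hz
      exact ⟨s, hs, hev.mono fun n hn => ⟨hn.1, hn.2.1⟩⟩) (fun z hz ε hε => by
      obtain ⟨L, s, hL, hs, hev⟩ := heq z hz
      refine ⟨min s (ε / L), lt_min hs (by positivity), hev.mono fun n hn v hv => ?_⟩
      have hv1 : dist v z < min s (ε / L) := mem_ball.mp hv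
      refine (hn.2.2 v (mem_ball.mpr (lt_of_lt_of_le hv1 (min_le_left _ _)))).trans ?_
      have hv2 : ‖v - z‖ ≤ ε / L := by
        rw [← dist_eq_norm]
        exact (lt_of_lt_of_le hv1 (min_le_right _ _)).le
      calc L * ‖v - z‖ ≤ L * (ε / L) := mul_le_mul_of_nonneg_left hv2 hL.le
        _ = ε := by field_simp)
  exact ⟨g, hcv, hh, fun z hz => hgl z hz, fun K hK hKD ε hε => hgc K (fun z hz => hKD z hz) hK ε hε⟩

end Pool.Agent.PY

end

section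

/-!
# PY Sep: long curves are away from the roots

By contradiction: `R = n + 1`, `c = η = 1 / (n + 1)` give `w n, h n, a n`; translate by `Λ`; along the hyperfilter `h n 0 → y ∈ Gd D δ`, `a n → a`; `exists_ls`, `ls_rt` at `z₀ = 0`, `no_rt`.
-/

set_option autoImplicit false

open Topology Filter Metric

namespace Pool.Agent.PY

open Pool.Agent.H36.BP (EN fs wd)
open Pool.Agent.H62.EF (MN pr)
open Pool.Agent.AD (Vd)
open Pool.Agent.TG (Lat Gd)
open Pool.Agent.G3 (wt LLift)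
open Pool.Agent.PX

variable {k d r : ℕ}

variable {Λ : AddSubgroup (Vd (k + 1))} {D : Set (Vd (k + 1))} {θ : Fin (d + 1) → Vd (k + 1) → ℂ} {W : Fin r → Vd (k + 1) →L[ℂ] ℂ}

theorem PE.sep (P : PE Λ D θ W) {δ A₁ A₂ : ℝ} (hδ : 0 < δ) (hA₁ : 0 < A₁) : ∃ R c η : ℝ, 0 < R ∧ 0 < c ∧ 0 < η ∧ ∀ (w : ℂ → EN 1) (h : ℂ → Vd (k + 1)) (a : Vd (k + 1)),
    A₁ ≤ ‖a‖ → ‖a‖ ≤ A₂ → Cp θ (ball 0 R) w h → (∀ z ∈ ball (0 : ℂ) R, ‖h z - (h 0 + z • a)‖ ≤ η) → h 0 ∈ Gd D δ → c ≤ qf θ W (h 0) (w 0) := by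
  by_contra hcon
  push Not at hcon
  obtain ⟨R₀, hR0, hR₀⟩ := P.lat.cpt
  have hbad : ∀ n : ℕ, ∃ (w : ℂ → EN 1) (h : ℂ → Vd (k + 1)) (a : Vd (k + 1)), A₁ ≤ ‖a‖ ∧ ‖a‖ ≤ A₂ ∧ Cp θ (ball 0 ((n : ℝ) + 1)) w h ∧
      (∀ z ∈ ball (0 : ℂ) ((n : ℝ) + 1), ‖h z - (h 0 + z • a)‖ ≤ 1 / ((n : ℝ) + 1)) ∧ h 0 ∈ Gd D δ ∧ qf θ W (h 0) (w 0) < 1 / ((n : ℝ) + 1) ∧ ‖h 0‖ ≤ R₀ := by
    intro n
    obtain ⟨w, h, a, h1, h2, h3, h4, h5, h6⟩ := hcon ((n : ℝ) + 1) (1 / ((n : ℝ) + 1)) (1 / ((n : ℝ) + 1)) (by positivity) (by positivity) (by positivity)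
    obtain ⟨l, hl, hlR⟩ := hR₀ (h 0)
    refine ⟨w, fun z => h z + -l, a, h1, h2, cp_add P h3 (Λ.neg_mem hl), fun z hz => ?_, ?_, ?_, ?_⟩
    · have h7 := h4 z hz
      have h8 : h z + -l - (h 0 + -l + z • a) = h z - (h 0 + z • a) := by abel
      rw [h8]
      exact h7
    · intro b hb
      have h7 := h5 _ (P.D_inv b hb l hl)
      have h8 : h 0 + -l - b = h 0 - (b + l) := by abel
      simp only
      rw [h8]
      exact h7
    · simp only
      rw [P.qf_add (Λ.neg_mem hl)]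
      exact h6
    · simp only
      rwa [← sub_eq_add_neg]
  choose w h a ha₁ ha₂ hcp hlin hGd hq hb using hbad
  set 𝒰 : Ultrafilter ℕ := Filter.hyperfilter ℕ with h𝒰
  have htop : Tendsto (fun n : ℕ => (n : ℝ) + 1) (𝒰 : Filter ℕ) atTop := by
    have h1 : Tendsto (fun n : ℕ => (n : ℝ) + 1) atTop atTop := tendsto_atTop_add_const_right _ _ tendsto_natCast_atTop_atTop
    refine h1.mono_left ?_
    rw [← Nat.cofinite_eq_atTop]
    exact Filter.hyperfilter_le_cofinite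
  have hinv : Tendsto (fun n : ℕ => 1 / ((n : ℝ) + 1)) (𝒰 : Filter ℕ) (𝓝 0) := by
    have h1 : Tendsto (fun n : ℕ => ((n : ℝ) + 1)⁻¹) (𝒰 : Filter ℕ) (𝓝 0) := Tendsto.comp (g := fun x : ℝ => x⁻¹) tendsto_inv_atTop_zero htop
    refine h1.congr fun n => ?_
    rw [one_div]
  -- limits of the centres and the directions
  obtain ⟨y, hy⟩ : ∃ y, Tendsto (fun n => h n 0) (𝒰 : Filter ℕ) (𝓝 y) := by
    obtain ⟨y, -, hy⟩ := (isCompact_closedBall (0 : Vd (k + 1)) R₀).ultrafilter_le_nhds' (𝒰.map fun n => h n 0)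
      (by rw [Ultrafilter.mem_map]; exact Filter.univ_mem' fun n => by simpa using hb n)
    exact ⟨y, hy⟩
  obtain ⟨a₀, ha₀⟩ : ∃ a₀, Tendsto a (𝒰 : Filter ℕ) (𝓝 a₀) := by
    obtain ⟨a₀, -, ha₀⟩ := (isCompact_closedBall (0 : Vd (k + 1)) A₂).ultrafilter_le_nhds' (𝒰.map a)
      (by rw [Ultrafilter.mem_map]; exact Filter.univ_mem' fun n => by simpa using ha₂ n)
    exact ⟨a₀, ha₀⟩
  have ha₀0 : a₀ ≠ 0 := by
    rintro rfl
    have h1 : A₁ ≤ ‖(0 : Vd (k + 1))‖ := ge_of_tendsto ha₀.norm (Eventually.of_forall ha₁)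
    rw [norm_zero] at h1
    linarith
  have hyG : y ∈ Gd D δ := by
    intro b hb'
    exact ge_of_tendsto (hy.sub_const b).norm (Eventually.of_forall fun n => hGd n b hb')
  have hyD : y ∉ D := by
    intro h1
    have h2 := hyG y h1
    rw [sub_self, norm_zero] at h2
    linarith
  have hcv : ∀ R : ℝ, ∀ᶠ n in (𝒰 : Filter ℕ), Cp θ (ball 0 R) (w n) (h n) := by
    intro R
    filter_upwards [htop.eventually_ge_atTop R] with n hn
    exact (hcp n).mono (ball_subset_ball hn)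
  have hh : ∀ R ε : ℝ, 0 < ε → ∀ᶠ n in (𝒰 : Filter ℕ), ∀ z ∈ closedBall (0 : ℂ) R, ‖h n z - (y + z • a₀)‖ < ε := by
    intro R ε hε
    have e1 : ∀ᶠ n : ℕ in (𝒰 : Filter ℕ), 1 / ((n : ℝ) + 1) < ε / 3 := hinv.eventually_lt_const (by positivity)
    have e2 : ∀ᶠ n in (𝒰 : Filter ℕ), ‖h n 0 - y‖ < ε / 3 := by
      have h1 : Tendsto (fun n => ‖h n 0 - y‖) (𝒰 : Filter ℕ) (𝓝 0) := by
        have h2 := (hy.sub_const y).norm
        rwa [sub_self, norm_zero] at h2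
      exact h1.eventually_lt_const (by positivity)
    have e3 : ∀ᶠ n in (𝒰 : Filter ℕ), (|R| + 1) * ‖a n - a₀‖ < ε / 3 := by
      have h1 : Tendsto (fun n => (|R| + 1) * ‖a n - a₀‖) (𝒰 : Filter ℕ) (𝓝 0) := by
        have h2 := ((ha₀.sub_const a₀).norm).const_mul (|R| + 1)
        rwa [sub_self, norm_zero, mul_zero] at h2
      exact h1.eventually_lt_const (by positivity)
    filter_upwards [e1, e2, e3, htop.eventually_gt_atTop R] with n h1 h2 h3 h4 z hz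
    rw [mem_closedBall_zero_iff] at hz
    have h5 := hlin n z (by rw [mem_ball_zero_iff]; linarith)
    have h6 : h n z - (y + z • a₀) = (h n z - (h n 0 + z • a n)) + (h n 0 - y) + z • (a n - a₀) := by
      rw [smul_sub]
      abel
    rw [h6]
    have h7 : ‖z • (a n - a₀)‖ ≤ (|R| + 1) * ‖a n - a₀‖ := by
      rw [norm_smul]
      refine mul_le_mul_of_nonneg_right ?_ (norm_nonneg _)
      have := le_abs_self R
      linarith
    calc ‖(h n z - (h n 0 + z • a n)) + (h n 0 - y) + z • (a n - a₀)‖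
        ≤ ‖h n z - (h n 0 + z • a n)‖ + ‖h n 0 - y‖ + ‖z • (a n - a₀)‖ := norm_add₃_le
      _ < ε := by linarith
  obtain ⟨g, S⟩ := P.exists_ls ha₀0 𝒰 hcv hh
  have hy0 : y + (0 : ℂ) • a₀ ∉ D := by
    rw [zero_smul, add_zero]
    exact hyD
  -- the limit of the normalised points
  have hwn : ∀ n, w n 0 ≠ 0 := fun n => Cp.w_ne P.deg (hcp n) (mem_ball_self (by positivity))
  obtain ⟨u, hu⟩ : ∃ u : ℕ → EN 1, u = fun n => ((‖w n 0‖⁻¹ : ℝ) : ℂ) • w n 0 := ⟨_, rfl⟩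
  have hun : ∀ n, ‖u n‖ = 1 := by
    intro n
    rw [hu]
    simp only
    rw [norm_smul, Complex.norm_real, Real.norm_of_nonneg (inv_nonneg.2 (norm_nonneg _)), inv_mul_cancel₀ (norm_ne_zero_iff.2 (hwn n))]
  have hc0 : ∀ n, ((‖w n 0‖⁻¹ : ℝ) : ℂ) ≠ 0 := fun n => by
    rw [Ne, Complex.ofReal_eq_zero]
    exact inv_ne_zero (norm_ne_zero_iff.2 (hwn n))
  obtain ⟨x, hx1, hx⟩ : ∃ x : EN 1, ‖x‖ = 1 ∧ Tendsto u (𝒰 : Filter ℕ) (𝓝 x) := by
    obtain ⟨x, hx1, hx⟩ := (isCompact_sphere (0 : EN 1) 1).ultrafilter_le_nhds' (𝒰.map u)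
      (by rw [Ultrafilter.mem_map]; exact Filter.univ_mem' fun n => by simpa using hun n)
    exact ⟨x, by simpa using hx1, hx⟩
  have hx0 : x ≠ 0 := by
    rintro rfl
    rw [norm_zero] at hx1
    exact zero_ne_one hx1
  have hprx : pr x = g 0 := by
    have h1 : Tendsto (fun n => pr (u n)) (𝒰 : Filter ℕ) (𝓝 (pr x)) := Tendsto.comp (g := fun v : EN 1 => pr v) (f := u) (Pool.Agent.H62.EF.continuousAt_pr hx0).tendsto hx
    have h2 : Tendsto (fun n => pr (u n)) (𝒰 : Filter ℕ) (𝓝 (g 0)) := by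
      rw [Metric.tendsto_nhds]
      intro ε hε
      filter_upwards [S.lim {0} isCompact_singleton (fun z hz => by rw [Set.mem_singleton_iff.1 hz]; exact hy0) ε hε] with n hn
      have h3 := hn 0 rfl
      have h4 : pr (u n) = pr (w n 0) := by
        rw [hu]
        exact Pool.Agent.H62.EF.pr_smul _ (hc0 n)
      rw [h4]
      exact h3
    exact tendsto_nhds_unique h1 h2
  have hF0 : Fo θ (y + (0 : ℂ) • a₀) x = 0 := by
    rw [zero_smul, add_zero]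
    have hcF : Continuous fun p : Vd (k + 1) × EN 1 => Fo θ p.1 p.2 := (fo_diff P.an).continuous
    have hcW : Continuous fun p : Vd (k + 1) × EN 1 => wt W p.1 := by
      unfold wt
      refine continuous_finsetSum _ fun i _ => ?_
      exact (((W i).continuous.comp continuous_fst).norm).pow 2
    have hc : Continuous fun p : Vd (k + 1) × EN 1 => ‖Fo θ p.1 p.2‖ * Real.exp (-wt W p.1) :=
      hcF.norm.mul (Real.continuous_exp.comp hcW.neg)
    have h1 : Tendsto (fun n => ‖Fo θ (h n 0) (u n)‖ * Real.exp (-wt W (h n 0))) (𝒰 : Filter ℕ) (𝓝 (‖Fo θ y x‖ * Real.exp (-wt W y))) :=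
      Tendsto.comp (g := fun p : Vd (k + 1) × EN 1 => ‖Fo θ p.1 p.2‖ * Real.exp (-wt W p.1)) (f := fun n => (h n 0, u n)) (hc.tendsto (y, x)) (hy.prodMk_nhds hx)
    have h2 : ∀ n, ‖Fo θ (h n 0) (u n)‖ * Real.exp (-wt W (h n 0)) = qf θ W (h n 0) (w n 0) := by
      intro n
      have h3 : qf θ W (h n 0) (u n) = qf θ W (h n 0) (w n 0) := by
        rw [hu]
        exact qf_smul θ W (h n 0) (hc0 n) (w n 0)
      rw [← h3]
      unfold qf
      rw [hun n, one_pow, div_one]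
    have h3 : Tendsto (fun n => ‖Fo θ (h n 0) (u n)‖ * Real.exp (-wt W (h n 0))) (𝒰 : Filter ℕ) (𝓝 0) := by
      refine squeeze_zero (fun n => by positivity) (fun n => ?_) hinv
      rw [h2 n]
      exact (hq n).le
    have h4 := tendsto_nhds_unique h1 h3
    rcases mul_eq_zero.1 h4 with h5 | h5
    · exact norm_eq_zero.1 h5
    · exact absurd h5 (Real.exp_pos _).ne'
  exact P.no_rt ha₀0 S.lift (P.ls_rt ha₀0 S hy0 hx0 hprx hF0)

end Pool.Agent.PY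

end

section

/-!
# PY Long: no long curves

`A₁, A₂`; `δ` from `circ` (radius `ρ = 1`, directions between `A₁ / 2` and `2 A₂`), then `δ / 2` for arcs near the lines; `R₁, c, η₁` from `sep` for `δ / 2`.  On the disc of radius `R`, `‖h' - a‖ ≤ η` with `η R₁ ≤ η₁`, `η ≤ min (A₁ / 2) (δ / 4)`: at all points `z`, `‖z‖ < R - R₁`, with `h z ∈ Gd D (δ / 2)`:
`c ≤ qf`; by `psi_max` on the circles of radius `≤ 1` the same at all points `‖z‖ < R - R₁ - 2`; `psi_grow` with `s = R - R₁ - 3` gives `c exp (c₀ s ^ 2) ≤ qf ≤ C` (`qf_le`): contradiction for `R` large.  (Choose first `R₁, c, η₁`, then `R`, then `η`.)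
-/

set_option autoImplicit false

open Topology Filter Metric

namespace Pool.Agent.PY

open Pool.Agent.H36.BP (EN fs wd)
open Pool.Agent.H62.EF (MN pr)
open Pool.Agent.AD (Vd)
open Pool.Agent.TG (Lat Gd)
open Pool.Agent.G3 (wt LLift)
open Pool.Agent.PX

variable {k d r : ℕ}

variable {Λ : AddSubgroup (Vd (k + 1))} {D : Set (Vd (k + 1))} {θ : Fin (d + 1) → Vd (k + 1) → ℂ}
  {W : Fin r → Vd (k + 1) →L[ℂ] ℂ}

/-- the mean value inequality -/
private theorem Long_mv {h : ℂ → Vd (k + 1)} {a : Vd (k + 1)} {R η : ℝ} (hd : DifferentiableOn ℂ h (ball 0 R))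
    (hη : ∀ z ∈ ball (0 : ℂ) R, ‖deriv h z - a‖ ≤ η) (x y : ℂ) (hx : x ∈ ball (0 : ℂ) R) (hy : y ∈ ball (0 : ℂ) R) :
    ‖h y - h x - (y - x) • a‖ ≤ η * ‖y - x‖ := by
  have hdf : ∀ z ∈ ball (0 : ℂ) R, DifferentiableAt ℂ h z := fun z hz => hd.differentiableAt (isOpen_ball.mem_nhds hz)
  have h1 : ∀ z ∈ ball (0 : ℂ) R, HasDerivAt (fun z => h z - z • a) (deriv h z - a) z := by
    intro z hz
    have h2 := (hdf z hz).hasDerivAt.sub ((hasDerivAt_id z).smul_const a)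
    rw [one_smul] at h2
    exact h2
  have h3 := Convex.norm_image_sub_le_of_norm_hasDerivWithin_le (f := fun z => h z - z • a) (fun z hz => (h1 z hz).hasDerivWithinAt) hη
    (convex_ball 0 R) hx hy
  have h4 : h y - h x - (y - x) • a = (h y - y • a) - (h x - x • a) := by
    rw [sub_smul]
    abel
  rw [h4]
  exact h3

theorem PE.no_long (P : PE Λ D θ W) {A₁ A₂ : ℝ} (hA₁ : 0 < A₁) (hA : A₁ ≤ A₂) : ∃ R η : ℝ, 0 < R ∧ 0 < η ∧ ∀ (w : ℂ → EN 1) (h : ℂ → Vd (k + 1)) (a : Vd (k + 1)),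
    A₁ ≤ ‖a‖ → ‖a‖ ≤ A₂ → Cp θ (ball 0 R) w h → (∀ z ∈ ball (0 : ℂ) R, ‖deriv h z - a‖ ≤ η) → False := by
  obtain ⟨δ, hδ, hcirc⟩ := P.circ (A₂ := A₂) hA₁ one_pos
  obtain ⟨R₁, c, η₁, hR₁, hc, hη₁, hsep⟩ := P.sep (A₂ := A₂) (half_pos hδ) hA₁
  obtain ⟨C, hC, hle⟩ := P.qf_le
  obtain ⟨c₀, hc₀, hgrow⟩ := P.psi_grow (half_pos hA₁)
  set S : ℝ := max 1 (C / (c * c₀)) with hS
  have hS1 : 1 ≤ S := le_max_left _ _
  have hS2 : C / (c * c₀) ≤ S := le_max_right _ _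
  refine ⟨R₁ + 3 + S, min (A₁ / 2) (min (δ / 4) (η₁ / R₁)), by linarith, lt_min (half_pos hA₁) (lt_min (by linarith) (div_pos hη₁ hR₁)), ?_⟩
  intro w h a ha₁ ha₂ hcp hder
  set η : ℝ := min (A₁ / 2) (min (δ / 4) (η₁ / R₁)) with hη
  have h0η : 0 < η := lt_min (half_pos hA₁) (lt_min (by linarith) (div_pos hη₁ hR₁))
  have e1 : η ≤ A₁ / 2 := min_le_left _ _
  have e2 : η ≤ δ / 4 := (min_le_right _ _).trans (min_le_left _ _)
  have e3 : η * R₁ ≤ η₁ := by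
    have : η ≤ η₁ / R₁ := (min_le_right _ _).trans (min_le_right _ _)
    rwa [le_div_iff₀ hR₁] at this
  have mv := Long_mv hcp.h_diff hder
  -- near the set of the good points
  have s1 : ∀ z₀ : ℂ, ‖z₀‖ < 3 + S → h z₀ ∈ Gd D (δ / 2) → c ≤ qf θ W (h z₀) (w z₀) := by
    intro z₀ hz₀ hg
    have hmaps : Set.MapsTo (fun z : ℂ => z₀ + z) (ball 0 R₁) (ball 0 (R₁ + 3 + S)) := by
      intro z hz
      rw [mem_ball_zero_iff] at hz ⊢
      calc ‖z₀ + z‖ ≤ ‖z₀‖ + ‖z‖ := norm_add_le _ _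
        _ < R₁ + 3 + S := by linarith
    have h1 := hsep (fun z => w (z₀ + z)) (fun z => h (z₀ + z)) a ha₁ ha₂
      (hcp.comp (by fun_prop) hmaps) (by
        intro z hz
        have h2 := mv (z₀ + 0) (z₀ + z) (hmaps (mem_ball_self hR₁)) (hmaps hz)
        have h3 : h (z₀ + z) - (h (z₀ + 0) + z • a) = h (z₀ + z) - h (z₀ + 0) - ((z₀ + z) - (z₀ + 0)) • a := by
          rw [add_sub_add_left_eq_sub, sub_zero]
          abel
        rw [h3]
        refine h2.trans ?_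
        rw [add_sub_add_left_eq_sub, sub_zero]
        rw [mem_ball_zero_iff] at hz
        exact (mul_le_mul_of_nonneg_left hz.le h0η.le).trans e3) (by
        rw [add_zero]
        exact hg)
    rw [add_zero] at h1
    exact h1
  -- all points
  have s2 : ∀ z₀ : ℂ, ‖z₀‖ < 1 + S → c ≤ qf θ W (h z₀) (w z₀) := by
    intro z₀ hz₀
    obtain ⟨s, hs0, hs1, hs⟩ := hcirc (h z₀) a ha₁ ha₂
    have hsub : ball z₀ 2 ⊆ ball (0 : ℂ) (R₁ + 3 + S) := by
      intro z hz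
      rw [mem_ball_zero_iff]
      rw [mem_ball, dist_eq_norm] at hz
      have : ‖z‖ ≤ ‖z - z₀‖ + ‖z₀‖ := by
        calc ‖z‖ = ‖(z - z₀) + z₀‖ := by rw [sub_add_cancel]
          _ ≤ _ := norm_add_le _ _
      linarith
    refine P.psi_max hs0 (by linarith : s < 2) (hcp.mono hsub) hc ?_
    intro z hz
    rw [mem_sphere, dist_eq_norm] at hz
    have hzn : ‖z‖ ≤ ‖z - z₀‖ + ‖z₀‖ := by
      calc ‖z‖ = ‖(z - z₀) + z₀‖ := by rw [sub_add_cancel]
        _ ≤ _ := norm_add_le _ _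
    refine s1 z (by linarith) ?_
    have h2 := mv z₀ z (hsub (mem_ball_self two_pos)) (hsub (by
      rw [mem_ball, dist_eq_norm]
      linarith))
    have h3 := hs (z - z₀) hz
    intro b hb
    have h4 := h3 b hb
    have h5 : ‖h z₀ + (z - z₀) • a - b‖ ≤ ‖h z - b‖ + ‖h z - h z₀ - (z - z₀) • a‖ := by
      calc ‖h z₀ + (z - z₀) • a - b‖ = ‖(h z - b) - (h z - h z₀ - (z - z₀) • a)‖ := by
            congr 1
            abel
        _ ≤ _ := norm_sub_le _ _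
    have h6 : η * ‖z - z₀‖ ≤ δ / 4 := by
      rw [hz]
      calc η * s ≤ η * 1 := mul_le_mul_of_nonneg_left hs1 h0η.le
        _ = η := mul_one _
        _ ≤ δ / 4 := e2
    linarith
  -- growth
  have h7 := hgrow w h S (R₁ + 3 + S) (by linarith) (by linarith) hcp (by
    intro z hz
    have h8 := hder z hz
    have h9 : ‖a‖ ≤ ‖deriv h z‖ + ‖deriv h z - a‖ := by
      calc ‖a‖ = ‖deriv h z - (deriv h z - a)‖ := by rw [sub_sub_cancel]
        _ ≤ _ := norm_sub_le _ _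
    linarith) c hc (by
    intro z hz
    rw [mem_sphere_zero_iff_norm] at hz
    exact s2 z (by linarith))
  have h10 := hle (h 0) (w 0)
  have h11 : c₀ * S ^ 2 + 1 ≤ Real.exp (c₀ * S ^ 2) := Real.add_one_le_exp _
  have h12 : S ≤ S ^ 2 := by nlinarith
  have h13 : C ≤ c * (c₀ * S) := by
    rw [div_le_iff₀ (mul_pos hc hc₀)] at hS2
    linarith
  have h14 : c * (c₀ * S) ≤ c * (c₀ * S ^ 2) :=
    mul_le_mul_of_nonneg_left (mul_le_mul_of_nonneg_left h12 hc₀.le) hc.le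
  have h15 : c * (c₀ * S ^ 2 + 1) ≤ c * Real.exp (c₀ * S ^ 2) := mul_le_mul_of_nonneg_left h11 hc.le
  linarith

end Pool.Agent.PY

end

section

/-!
# PY Bound: the main theorem on discs

Brody's reparametrisation for the function `‖h'‖`: if `‖h' 0‖ = M` is large there is `z₀` and `s` with `‖h' z₀‖ s ≥ M / 4`, `closedBall z₀ s ⊆ ball 0 1`, `‖h'‖ ≤ 2 ‖h' z₀‖` on `ball z₀ s` (maximum of `(1/2 - ‖z‖) ‖h' z‖` or of `(1 - ‖z‖ ^ 2) ‖h' z‖` on a smaller closed disc).  Put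
`H ζ = h (z₀ + ζ / ‖h' z₀‖)`: `‖H' 0‖ = 1`, `‖H'‖ ≤ 2` on the disc of radius `M / 4`; Cauchy: `‖H'' ‖ ≤ 8 · 2 / M ..`, so `‖H' ζ - H' 0‖ ≤ η` for `‖ζ‖ < R` if `M ≥ C R / η`.  `no_long` with `A₁ = A₂ = 1`, `a = H' 0`.
-/

set_option autoImplicit false

open Topology Filter Metric

namespace Pool.Agent.PY

open Pool.Agent.H36.BP (EN fs wd)
open Pool.Agent.H62.EF (MN pr)
open Pool.Agent.AD (Vd)
open Pool.Agent.TG (Lat Gd)
open Pool.Agent.G3 (wt LLift)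
open Pool.Agent.PX

variable {k d r : ℕ}

variable {Λ : AddSubgroup (Vd (k + 1))} {D : Set (Vd (k + 1))} {θ : Fin (d + 1) → Vd (k + 1) → ℂ}
  {W : Fin r → Vd (k + 1) →L[ℂ] ℂ}

/-- **Main theorem on discs.** -/
theorem PE.bound (P : PE Λ D θ W) : ∃ C : ℝ, 0 < C ∧ ∀ (w : ℂ → EN 1) (h : ℂ → Vd (k + 1)), Cp θ (ball 0 1) w h → ‖deriv h 0‖ ≤ C := by
  obtain ⟨R, η, hR, hη, hno⟩ := P.no_long one_pos (le_refl (1 : ℝ))
  refine ⟨16 * R / η + 4 * R, by positivity, fun w h hc => ?_⟩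
  by_contra hM
  push Not at hM
  set M : ℝ := ‖deriv h 0‖ with hMdef
  have hM0 : 0 < M := lt_trans (by positivity) hM
  have hM1 : 4 * R < M := lt_of_le_of_lt (by have : 0 ≤ 16 * R / η := by positivity
                                             linarith) hM
  have hM2 : 16 * R / η < M := lt_of_le_of_lt (by linarith) hM
  have hM3 : 16 * R < M * η := by
    rw [div_lt_iff₀ hη] at hM2
    exact hM2
  have hdd : DifferentiableOn ℂ (deriv h) (ball 0 1) := hc.h_diff.deriv isOpen_ball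
  obtain ⟨z₀, hz₀, hs, hz1, hz2⟩ := brody_pt hdd hM0
  set s : ℝ := (1 / 2 - ‖z₀‖) / 2 with hsdef
  set m : ℝ := ‖deriv h z₀‖ with hmdef
  have hm : 0 < m := by
    by_contra hm
    have hm' : m = 0 := le_antisymm (not_lt.1 hm) (norm_nonneg _)
    rw [hm', mul_zero] at hz2
    linarith
  have hsub : ∀ z ∈ ball z₀ s, z ∈ ball (0 : ℂ) 1 := by
    intro z hz
    rw [mem_ball_iff_norm] at hz
    rw [mem_ball_zero_iff]
    have h1 : ‖z‖ ≤ ‖z - z₀‖ + ‖z₀‖ := by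
      simpa using norm_add_le (z - z₀) z₀
    have h2 := norm_nonneg z₀
    simp only [hsdef] at hz
    linarith
  have hRs : R < m * s := by nlinarith
  have hmC : (m : ℂ) ≠ 0 := by exact_mod_cast hm.ne'
  -- the rescaled curve
  set φ : ℂ → ℂ := fun ζ => z₀ + ζ / m with hφ
  have hφd : ∀ ζ, HasDerivAt φ (1 / m : ℂ) ζ := by
    intro ζ
    simpa [hφ] using ((hasDerivAt_id ζ).div_const (m : ℂ)).const_add z₀
  have hφm : ∀ ζ ∈ ball (0 : ℂ) R, φ ζ ∈ ball z₀ s := by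
    intro ζ hζ
    rw [mem_ball_zero_iff] at hζ
    rw [mem_ball_iff_norm]
    have h1 : φ ζ - z₀ = ζ / m := by simp [hφ]
    rw [h1, norm_div, Complex.norm_real, Real.norm_of_nonneg hm.le, div_lt_iff₀ hm]
    nlinarith
  have hdH : ∀ ζ ∈ ball (0 : ℂ) R, deriv (fun ζ => h (φ ζ)) ζ = (1 / m : ℂ) • deriv h (φ ζ) := by
    intro ζ hζ
    have h1 : DifferentiableAt ℂ h (φ ζ) := (hc.h_diff _ (hsub _ (hφm ζ hζ))).differentiableAt (isOpen_ball.mem_nhds (hsub _ (hφm ζ hζ)))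
    exact (h1.hasDerivAt.scomp ζ (hφd ζ)).deriv
  have hφ0 : φ 0 = z₀ := by simp [hφ]
  have hnm : ‖(1 / m : ℂ)‖ = 1 / m := by
    rw [norm_div, norm_one, Complex.norm_real, Real.norm_of_nonneg hm.le]
  have ha : ‖(1 / m : ℂ) • deriv h z₀‖ = 1 := by
    rw [norm_smul, hnm, ← hmdef]
    field_simp
  refine hno (fun ζ => w (φ ζ)) (fun ζ => h (φ ζ)) ((1 / m : ℂ) • deriv h z₀) ha.ge ha.le ?_ ?_
  · exact hc.comp (fun ζ _ => (hφd ζ).differentiableAt.differentiableWithinAt) fun ζ hζ => hsub _ (hφm ζ hζ)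
  · intro ζ hζ
    rw [hdH ζ hζ, ← smul_sub, norm_smul, hnm]
    have hmaps : Set.MapsTo (deriv h) (ball z₀ s) (closedBall (deriv h z₀) (3 * m)) := by
      intro z hz
      rw [mem_closedBall_iff_norm]
      have h1 := hz1 z hz
      have h2 := norm_sub_le (deriv h z) (deriv h z₀)
      rw [← hmdef] at h2
      linarith
    have h3 := Complex.dist_le_div_mul_dist_of_mapsTo_ball (hdd.mono hsub) hmaps (hφm ζ hζ)
    rw [dist_eq_norm, dist_eq_norm] at h3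
    have h4 : ‖φ ζ - z₀‖ ≤ R / m := by
      have h1 : φ ζ - z₀ = ζ / m := by simp [hφ]
      rw [h1, norm_div, Complex.norm_real, Real.norm_of_nonneg hm.le]
      rw [mem_ball_zero_iff] at hζ
      gcongr
    have h5 : ‖deriv h (φ ζ) - deriv h z₀‖ ≤ 3 * m / s * (R / m) := h3.trans (by gcongr)
    calc 1 / m * ‖deriv h (φ ζ) - deriv h z₀‖ ≤ 1 / m * (3 * m / s * (R / m)) := by gcongr
      _ = 3 * R / (m * s) := by field_simp
      _ ≤ η := by
        rw [div_le_iff₀ (by positivity)]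
        nlinarith

end Pool.Agent.PY

end

section

/-!
# PY Main: the data of the final part
-/

set_option autoImplicit false

open Topology Filter Metric

namespace Pool.Agent.PY

open Pool.Agent.H36.BP (EN fs wd)
open Pool.Agent.H62.EF (MN pr)
open Pool.Agent.AD (Vd)
open Pool.Agent.TG (Lat Gd)
open Pool.Agent.G3 (wt LLift)
open Pool.Agent.PX

variable {k d r : ℕ}

/-- an arbitrary torus: every line contains a point over which the form is not `0` and has three distinct roots, and there is no entire root over a line -/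
theorem bd_of {Λ : AddSubgroup (Vd (k + 1))} {θ : Fin (d + 1) → Vd (k + 1) → ℂ} {W : Fin r → Vd (k + 1) →L[ℂ] ℂ} (hΛ : Lat Λ) (han : ∀ i, Differentiable ℂ (θ i))
    (hper : ∀ l ∈ Λ, ∀ y, ∃ e : ℂ, ‖e‖ * Real.exp (-wt W (y + l)) = Real.exp (-wt W y) ∧ ∀ i, θ i (y + l) = e * θ i y) (hpos : ∀ y, (∀ i, W i y = 0) → y = 0)
    (hL : ∀ a : Vd (k + 1), a ≠ 0 → ∀ y, ∃ z : ℂ, (∃ i, θ i (y + z • a) ≠ 0) ∧ R3 θ (y + z • a))
    (hR : ∀ a : Vd (k + 1), a ≠ 0 → ∀ y, ¬ ∃ G : ℂ → EN 1, Differentiable ℂ G ∧ (∀ z, G z ≠ 0) ∧ ∀ z : ℂ, Fo θ (y + z • a) (G z) = 0) : BD Λ θ := by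
  have P := exists_pe hΛ han hper hpos hL hR
  refine ⟨hΛ, P.deg, han, fun l hl y => ?_, P.bound⟩
  obtain ⟨e, he, hθ⟩ := hper l hl y
  refine ⟨e, ?_, hθ⟩
  rintro rfl
  rw [norm_zero, zero_mul] at he
  exact (Real.exp_pos _).ne he

end Pool.Agent.PY

end
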