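import Pool.Agent.H94.PX2.M63
import Pool.Agent.H94.PX2.M78
import Pool.Agent.H94.PX2.M81
import Pool.Agent.H94.PX2.M82
import Pool.Agent.H94.PX2.M84
import Pool.Agent.H94.PX2.PX.F.Pun

/-! The parts of this file: PX.F.Main, PX.F.Poly_1. -/

section

/-!
# PX F Main: the final theorem
-/

set_option autoImplicit false

open Topology Filter Metric MvPolynomial

namespace Pool.Agent.PX

open Pool.Agent.H17 (PN VanishesAt HolomorphicInto puncturedDisc ZariskiClosedIn)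
open Pool.Agent.H17LG.Variety (FunField IsLogGeneralType)
open Pool.Agent.H62.FC (Homog)
open Pool.Agent.H62.SA (locVar OnBd)
open Pool.Agent.H17EF (projVar)
open Pool.Agent.H36.BP (EN fs wd)
open Pool.Agent.H62.EF (MN pr)
open Pool.Agent.AD (Vd IsHolomorphicTorusMap)
open Pool.Agent.TG (Lat Gd)
open Pool.Agent.G3 (wt TT LLift)
open Pool.Agent.G4 (Few Simp)
open Pool.Agent.PXF (Cn form IsSimple IsThetaForm IsReduced HasNoLines ThreePoints Avoids HolomorphicIntoTorus IsCurve IsCurveIn IsHyperbolicModulo IsFiniteOver complement fewPoints KobayashiPositive)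
open Pool.Agent.G4F (GGLCOpen)

variable {N k d r : ℕ} {Λ : AddSubgroup (Vd (k + 1))} {D : Set (Vd (k + 1))} {Bad : Vd (k + 1) → Set (Vd (k + 1))} {θ : Fin (d + 1) → Vd (k + 1) → ℂ}
  {W : Fin r → Vd (k + 1) →L[ℂ] ℂ}

theorem exists_bd (Λ : AddSubgroup (Cn (k + 1))) [DiscreteTopology Λ] (hspan : Submodule.span ℝ (Λ : Set (Cn (k + 1))) = ⊤)
    {θ : Fin (d + 1) → Cn (k + 1) → ℂ} (h : IsThetaForm Λ θ) (h' : (3 ≤ d ∧ IsSimple Λ ∧ IsReduced θ) ∨ HasNoLines θ) : BD Λ θ := by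
  rcases h' with ⟨hd, hs, h'⟩ | h'
  · obtain ⟨r, W, D, Bad, Pd⟩ := exists_data Λ hspan hs hd h h'
    exact Pd.bd
  · obtain ⟨r, W, hpos, hW⟩ := h.quasiPeriodic
    refine Pool.Agent.PY.bd_of (W := W) (Pool.Agent.TGF.gu_lat Λ hspan) h.holomorphic (fun l hl y => ?_) hpos (fun a ha y => ?_) fun a ha y => ?_
    · obtain ⟨e, he, h1⟩ := hW l hl y
      refine ⟨e, ?_, h1⟩
      rw [he, ← Real.exp_add]
      unfold wt
      congr 1
      ring
    · obtain ⟨z, h1, h2⟩ := h'.threePoints a y ha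
      exact ⟨z, h1, (three_iff θ _).1 h2⟩
    · rintro ⟨G, h1, h2, h3⟩
      refine h'.roots a y ha ⟨fun z => (G z).ofLp, ?_, fun z hz => h2 z ?_, h3⟩
      · exact (EuclideanSpace.equiv (Fin 2) ℂ).differentiable.comp h1
      · ext i
        exact congrFun hz i

theorem BD.hyperbolic {θ : Fin (d + 1) → Cn (k + 1) → ℂ} (B : BD Λ θ) : IsHyperbolicModulo Λ (complement Λ θ) (fewPoints Λ θ) := by
  refine ⟨?_, ?_, ?_⟩
  · obtain ⟨C, hC⟩ := B.discs
    exact ⟨C, fun h g hh hc => hC h g (PXF.isCurve_iff.2 hc) hh⟩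
  · intro t g hc z w
    obtain ⟨y, hy, hy'⟩ := B.entire t g (PXF.isCurve_iff.2 hc)
    refine ⟨by rw [hy z, hy w], fun hz => hy' ?_ z w⟩
    by_contra hcon
    exact hz ⟨y, (hy z).symm, hcon⟩
  · intro t g hc
    obtain ⟨h1, h2⟩ := B.punctured t g (PXF.isCurve_iff.2 hc)
    refine ⟨h1, fun ⟨z, hz, hz'⟩ => h2 ?_⟩
    obtain ⟨y, hy⟩ := QuotientAddGroup.mk_surjective (t z)
    refine ⟨z, hz, y, hy.symm, ?_⟩
    by_contra hcon
    exact hz' ⟨y, hy, hcon⟩

theorem BD.kob {θ : Fin (d + 1) → Cn (k + 1) → ℂ} (B : BD Λ θ) : KobayashiPositive Λ θ := by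
  intro y h3 h0
  obtain ⟨C, hC⟩ := B.kobayashi y h3 h0
  refine ⟨C, ?_⟩
  have hm : ContinuousAt (fun y' : Cn (k + 1) => (y' : Cn (k + 1) ⧸ Λ)) y := continuous_quotient_mk'.continuousAt
  filter_upwards [hm.tendsto.eventually hC] with y' hy' t g φ hc
  exact hy' t g φ (PXF.isCurve_iff.2 hc)

end Pool.Agent.PX

end

section

/-!
# PX F Poly: the theorem for `A × ℙ¹` in terms of polynomials
-/

set_option autoImplicit false

open Topology Filter Metric MvPolynomial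

namespace Pool.Agent.PX

open Pool.Agent.H17 (PN VanishesAt HolomorphicInto puncturedDisc)
open Pool.Agent.PXF (Cn IsSimple IsThetaForm IsReduced ThreePoints IsCurveIn IsHyperbolicModulo complement fewPoints)
open Pool.Agent.HEF (HasThreeZeros fewZeros IsReducedDivisor IsAmple IsSection IsHolomorphicForm outside)

variable {k d : ℕ} {Λ : AddSubgroup (Cn (k + 1))}

/-- the theorem for reduced hypersurfaces of `A × ℙ¹` -/
theorem _root_.Pool.Agent.HEF.IsReducedDivisor.bd [DiscreteTopology Λ] (hspan : Submodule.span ℝ (Λ : Set (Cn (k + 1))) = ⊤) {F : Cn (k + 1) → MvPolynomial (Fin 2) ℂ} (h : IsReducedDivisor Λ F d) :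
    BD Λ (tht d F) :=
  exists_bd Λ hspan (thetaForm_of h.form h.ample) (Or.inl ⟨h.degree, h.simple, reduced_of h⟩)

theorem _root_.Pool.Agent.HEF.IsReducedDivisor.hyperbolic [DiscreteTopology Λ] (hspan : Submodule.span ℝ (Λ : Set (Cn (k + 1))) = ⊤) {F : Cn (k + 1) → MvPolynomial (Fin 2) ℂ}
    (h : IsReducedDivisor Λ F d) : IsHyperbolicModulo Λ (outside Λ Set.univ fun _ : Fin 1 => F) (fewZeros Λ F) := by
  rw [outside_eq h.form, few_eq h.form]
  exact (h.bd hspan).hyperbolic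

theorem _root_.Pool.Agent.HEF.IsReducedDivisor.kobayashi [DiscreteTopology Λ] (hspan : Submodule.span ℝ (Λ : Set (Cn (k + 1))) = ⊤) {F : Cn (k + 1) → MvPolynomial (Fin 2) ℂ}
    (h : IsReducedDivisor Λ F d) : Pool.Agent.HEF.KobayashiPositive Λ (outside Λ Set.univ fun _ : Fin 1 => F) (fewZeros Λ F) := by
  rw [outside_eq h.form, few_eq h.form]
  intro y hy ⟨p, hp⟩
  have h3 : ThreePoints (tht d F) y := by
    by_contra hcon
    exact hy ⟨y, rfl, hcon⟩
  have h0 : ∃ i, tht d F i y ≠ 0 := by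
    by_contra hcon
    push Not at hcon
    refine hp y rfl ?_
    simp [PXF.form, hcon]
  obtain ⟨C, hC⟩ := (h.bd hspan).kob y h3 h0
  refine ⟨C, ?_⟩
  filter_upwards [hC] with y' hy' t g φ hc ht hφ hφg i j
  have h1 := hy' t g φ hc ht hφ hφg
  rw [Fin.sum_univ_two]
  have hz : (0 : ℝ) ≤ C * (‖φ 0 0‖ ^ 2 + ‖φ 0 1‖ ^ 2) := (norm_nonneg _).trans h1
  fin_cases i <;> fin_cases j
  · simpa using hz
  · exact h1
  · have h2 : φ 0 1 * deriv φ 0 0 - φ 0 0 * deriv φ 0 1 = -(φ 0 0 * deriv φ 0 1 - φ 0 1 * deriv φ 0 0) := by ring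
    change ‖φ 0 1 * deriv φ 0 0 - φ 0 0 * deriv φ 0 1‖ ≤ _
    rw [h2, norm_neg]
    exact h1
  · simpa using hz

end Pool.Agent.PX

end
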