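import Pool.Agent.H94.PX2.G4.Simp
import Pool.Agent.H94.PX2.H13.CV.Loc
import Pool.Agent.H94.PX2.M30
import Pool.Agent.H94.PX2.M31
import Pool.Agent.H94.PX2.M42

/-! The parts of this file: H13.CV.Idem, H13.CV.Tame, H13.CV.RegF, HE.F.Crv, HE.F.Fro, HE.F.FroB. -/

section

/-!
# CV Idem: idempotents modulo `x` with trace zero

`matrix_idem`: for a complex matrix with `M * M = M` the trace is the rank (`LinearMap.IsIdempotentElem`, `LinearMap.IsProj.trace`, or diagonalise), so if it is `0` then `M = 0`.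

`trace_idem`: `M i j = w.repr (u * w j) i`; these are in `L` and `RegLoc x` (`LocB`, `basis_regLoc`).  `Algebra.trace L K u = ∑ i, M i i` (`Algebra.trace_eq_matrix_trace w`, `Algebra.leftMulMatrix_eq_repr_mul`).
Let `E` be a place over `x = 0` (`exists_place_over`) and `M̄ i j = res E (M i j)`.  `M * M - M` is the matrix of the multiplication by `u² - u`: its entries are the coordinates of
`(u² - u) * w j = x * (RegLoc)`, so they are `x` times a `RegLoc` element, and `res E` of them is `0`.  So `M̄ * M̄ = M̄` (`res_add`, `res_mul`, `res_sum`).  The trace of `M̄` is `res E` of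
`Algebra.trace L K u`, which is `0`.  So `M̄ = 0`: all `M i j` have positive order at `E`, so `RegLoc x (M i j / x)` (`regLoc_div_of_pos`), so `RegLoc x (u * w j / x)` for all `j`.  With
`1 = ∑ r j * w j`, `RegLoc x (r j)` (`LocB`): `u / x = ∑ r j * (u * w j / x)`.
-/

set_option autoImplicit false

open Pool.Agent.H23.Fano (PrimeDivisorOver Form regularForms)

noncomputable section

namespace Pool.Agent.H13.CV

theorem matrix_idem {n : ℕ} (M : Matrix (Fin n) (Fin n) ℂ) (hM : M * M = M) (ht : M.trace = 0) : M = 0 := by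
  have he : IsIdempotentElem (Matrix.toLin' M) := by
    show Matrix.toLin' M * Matrix.toLin' M = Matrix.toLin' M
    have : Matrix.toLin' (M * M) = Matrix.toLin' M * Matrix.toLin' M := Matrix.toLin'_mul M M
    rw [← this, hM]
  have htr : LinearMap.trace ℂ (Fin n → ℂ) (Matrix.toLin' M) = 0 := by
    rw [Matrix.trace_toLin'_eq, ht]
  have h0 := (LinearMap.IsIdempotentElem.trace_eq_zero_iff he).mp htr
  exact (LinearEquiv.map_eq_zero_iff Matrix.toLin').mp h0

variable {K : Type} [Field K] [Algebra ℂ K] {L : IntermediateField ℂ K} {x : K} {n : ℕ}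

private theorem regLoc_mul {f g : K} (hf : RegLoc x f) (hg : RegLoc x g) : RegLoc x (f * g) :=
  fun E hE => nonneg_mul (hf E hE) (hg E hE)

private theorem regLoc_sum {ι : Type*} {s : Finset ι} {F : ι → K} (h : ∀ i ∈ s, RegLoc x (F i)) :
    RegLoc x (∑ i ∈ s, F i) :=
  fun E hE => nonneg_sum fun i hi => h i hi E hE

private theorem regLoc_one : RegLoc x (1 : K) := fun E _ => by
  rw [E.ord.map_one]

private theorem repr_L_mul (w : Module.Basis (Fin n) L K) {c : K} (hc : c ∈ L) (f : K) (i : Fin n) :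
    ((w.repr (c * f) i : L) : K) = c * ((w.repr f i : L) : K) := by
  have h1 : c * f = (⟨c, hc⟩ : L) • f := by
    rw [Algebra.smul_def]
    rfl
  rw [h1, map_smul]
  simp

private theorem sum_repr_coe (w : Module.Basis (Fin n) L K) (f : K) :
    f = ∑ i, ((w.repr f i : L) : K) * w i := by
  conv_lhs => rw [← w.sum_repr f]
  refine Finset.sum_congr rfl fun i _ => ?_
  rw [Algebra.smul_def]
  rfl

theorem trace_idem (hK : CurveField K) (hL : Gen L x) [FiniteDimensional L K] {w : Module.Basis (Fin n) L K} (hw : LocB x w) {u : K} (hu : RegLoc x u)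
    (hu2 : RegLoc x ((u ^ 2 - u) / x)) (htr : RegLoc x (((Algebra.trace L K u : L) : K) / x)) : RegLoc x (u / x) := by
  have hx0 : x ≠ 0 := hL.ne_zero
  have hxL : x ∈ L := hL.mem
  obtain ⟨E, hE⟩ := exists_place_over hK hL.tr
  -- the matrix
  set M : Fin n → Fin n → K := fun i j => ((w.repr (u * w j) i : L) : K) with hMdef
  have hMreg : ∀ i j, RegLoc x (M i j) := fun i j =>
    (hw (u * w j)).mp (regLoc_mul hu (hw.basis_regLoc j)) i
  have hML : ∀ i j, M i j ∈ L := fun i j => (w.repr (u * w j) i).2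
  -- the product
  have hMM : ∀ i j, ((w.repr (u ^ 2 * w j) i : L) : K) = ∑ k, M i k * M k j := by
    intro i j
    have h1 : u ^ 2 * w j = ∑ k, M k j * (u * w k) := by
      have h2 : u * w j = ∑ k, M k j * w k := sum_repr_coe w (u * w j)
      calc u ^ 2 * w j = u * (u * w j) := by ring
        _ = u * ∑ k, M k j * w k := by rw [← h2]
        _ = _ := by
          rw [Finset.mul_sum]
          exact Finset.sum_congr rfl fun k _ => by ring
    rw [h1, map_sum, Finset.sum_apply', AddSubmonoidClass.coe_finsetSum]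
    refine Finset.sum_congr rfl fun k _ => ?_
    rw [repr_L_mul w (hML k j), mul_comm]
  -- the difference
  have hdiff : ∀ i j, ∃ R : K, RegLoc x R ∧ (∑ k, M i k * M k j) = M i j + x * R := by
    intro i j
    refine ⟨((w.repr (((u ^ 2 - u) / x) * w j) i : L) : K),
      (hw _).mp (regLoc_mul hu2 (hw.basis_regLoc j)) i, ?_⟩
    rw [← repr_L_mul w hxL, ← hMM]
    have h3 : x * ((u ^ 2 - u) / x * w j) = u ^ 2 * w j - u * w j := by
      field_simp
    rw [h3, map_sub]
    simp [hMdef]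
  -- the residue matrix
  set N : Matrix (Fin n) (Fin n) ℂ := fun i j => res E (M i j) with hNdef
  have hnn : ∀ i j, 0 ≤ E.ord (M i j) := fun i j => hMreg i j E hE
  have hNN : N * N = N := by
    ext i j
    rw [Matrix.mul_apply]
    obtain ⟨R, hR, hR2⟩ := hdiff i j
    have hxR : 0 < E.ord (x * R) := pos_mul hE (hR E hE)
    have h4 : res E (∑ k, M i k * M k j) = ∑ k, N i k * N k j := by
      rw [res_sum hK (fun k _ => nonneg_mul (hnn i k) (hnn k j))]
      exact Finset.sum_congr rfl fun k _ => res_mul hK (hnn i k) (hnn k j)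
    have h5 : res E (M i j + x * R) = N i j := by
      rw [res_add hK (hnn i j) hxR.le, (res_eq_zero_iff hK hxR.le).mpr hxR, add_zero]
    rw [← h4, hR2, h5]
  have hNtr : N.trace = 0 := by
    have h6 : ((Algebra.trace L K u : L) : K) = ∑ i, M i i := by
      rw [Algebra.trace_eq_matrix_trace w, Matrix.trace, AddSubmonoidClass.coe_finsetSum]
      refine Finset.sum_congr rfl fun i _ => ?_
      rw [Matrix.diag_apply, Algebra.leftMulMatrix_eq_repr_mul]
    have h7 : 0 < E.ord ((Algebra.trace L K u : L) : K) := by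
      have h8 : ((Algebra.trace L K u : L) : K) = x * (((Algebra.trace L K u : L) : K) / x) := by
        field_simp
      rw [h8]
      exact pos_mul hE (htr E hE)
    have h9 : N.trace = res E (∑ i, M i i) := by
      rw [res_sum hK (fun i _ => hnn i i)]
      rfl
    rw [h9, ← h6]
    exact (res_eq_zero_iff hK h7.le).mpr h7
  have hN0 : N = 0 := matrix_idem N hNN hNtr
  have hMx : ∀ i j, RegLoc x (M i j / x) := by
    intro i j
    refine regLoc_div_of_pos hL (hML i j) hE ?_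
    refine (res_eq_zero_iff hK (hnn i j)).mp ?_
    have : N i j = 0 := by rw [hN0]; rfl
    exact this
  have huw : ∀ j, RegLoc x (u * w j / x) := by
    intro j
    refine (hw _).mpr fun i => ?_
    have h10 : u * w j / x = x⁻¹ * (u * w j) := by field_simp
    rw [h10, repr_L_mul w (inv_mem hxL)]
    have h11 : x⁻¹ * ((w.repr (u * w j) i : L) : K) = M i j / x := by
      rw [div_eq_mul_inv, mul_comm]
    rw [h11]
    exact hMx i j
  have h1 : u / x = ∑ j, ((w.repr (1 : K) j : L) : K) * (u * w j / x) := by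
    have h2 : (1 : K) = ∑ j, ((w.repr (1 : K) j : L) : K) * w j := sum_repr_coe w 1
    calc u / x = u / x * 1 := by ring
      _ = u / x * ∑ j, ((w.repr (1 : K) j : L) : K) * w j := by rw [← h2]
      _ = _ := by
        rw [Finset.mul_sum]
        exact Finset.sum_congr rfl fun j _ => by ring
  rw [h1]
  exact regLoc_sum fun j _ => regLoc_mul ((hw 1).mp regLoc_one j) (huw j)

end Pool.Agent.H13.CV

end
end

section

/-!
# CV Tame: the trace lemma (tame ramification)

`tame`: let `e = oz E x`, and suppose that `oz E h ≤ - e`.  Let `T` be the finite set of the places over `x = 0` (`finite_over`).  By `approx` there is `c ∈ K` with: at `E`: `ord (c - (x * h)⁻¹) ≥ N`, at the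
`E' ∈ T`, `E' ≠ E`: `ord c ≥ N`, with `N ≥ 0` so large that `N ≥ oz E' x - oz E' (x * h)` for all `E' ∈ T`, and `N ≥ e - oz E (x * h)`, `N ≥ e`.  Then `RegLoc x c` (at `E`: `(x h)⁻¹` has order
`- (e + oz E h) ≥ 0`).  Let `u = x * h * c`: `ord_E (u - 1) = ord_E (x h (c - (x h)⁻¹)) ≥ e`, and `ord_{E'} u ≥ oz E' x` for `E' ≠ E`.  So `RegLoc x u`, `RegLoc x ((u² - u) / x)`
(`u² - u = u (u - 1)`), and `trace u = x * trace (h * c)` (`Algebra.trace` is `L`-linear, `x ∈ L`), so `RegLoc x (trace u / x)` by `hh` for `f = c`.  By `trace_idem`: `RegLoc x (u / x)`: so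
`ord_E u ≥ e > 0`; but `ord_E (u - 1) ≥ e > 0`, so `ord_E 1 > 0`: contradiction.

`exists_dual`: `(Algebra.traceForm L K).dualBasis (traceForm_nondegenerate L K) w`; `Algebra.trace L K (v i * w j) = if i = j then 1 else 0`, so `trace (v i * f) = w.repr f i` for `f = ∑ (w.repr f j) • w j`.
-/

set_option autoImplicit false

open Pool.Agent.H23.Fano (PrimeDivisorOver Form regularForms)

noncomputable section

namespace Pool.Agent.H13.CV

variable {K : Type} [Field K] [Algebra ℂ K] {L : IntermediateField ℂ K} {x : K} {n : ℕ}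

private lemma tame_le_mul {E : Place K} {f g : K} {a b : ℤ} (hf : (a : WithTop ℤ) ≤ E.ord f) (hg : (b : WithTop ℤ) ≤ E.ord g) :
    ((a + b : ℤ) : WithTop ℤ) ≤ E.ord (f * g) := by
  rw [E.ord.map_mul, WithTop.coe_add]
  exact add_le_add hf hg

private lemma tame_div {E : Place K} {f : K} (hx : x ≠ 0) (hf : ((oz E x : ℤ) : WithTop ℤ) ≤ E.ord f) : 0 ≤ E.ord (f / x) := by
  have h := tame_le_mul hf (ord_inv E hx).ge
  rw [add_neg_cancel] at h
  rw [div_eq_mul_inv]
  exact h

theorem tame (hK : CurveField K) (hL : Gen L x) [FiniteDimensional L K] {w : Module.Basis (Fin n) L K} (hw : LocB x w) {h : K} (h0 : h ≠ 0)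
    (hh : ∀ f : K, RegLoc x f → RegLoc x ((Algebra.trace L K (h * f) : L) : K)) {E : Place K} (hE : 0 < E.ord x) : 1 - oz E x ≤ oz E h := by
  classical
  by_contra hcon
  have hx : x ≠ 0 := hL.ne_zero
  have he : 0 < oz E x := (pos_iff.1 hE).resolve_left hx
  have hxh : x * h ≠ 0 := mul_ne_zero hx h0
  have hneg : oz E (x * h) ≤ 0 := by
    rw [oz_mul E hx h0]
    omega
  set T : Finset (Place K) := (finite_over (L := L) (x := x) hL).toFinset with hT
  have hmem : ∀ E' : Place K, 0 < E'.ord x → E' ∈ T := fun E' h' => by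
    rw [hT, Set.Finite.mem_toFinset]
    exact h'
  obtain ⟨N, hN0, hN⟩ : ∃ N : ℤ, 0 ≤ N ∧ ∀ E' ∈ T, oz E' x - oz E' (x * h) ≤ N := by
    refine ⟨∑ E' ∈ T, |oz E' x - oz E' (x * h)|, Finset.sum_nonneg fun _ _ => abs_nonneg _, fun E' h' => ?_⟩
    exact (le_abs_self _).trans (Finset.single_le_sum (f := fun E' => |oz E' x - oz E' (x * h)|) (fun _ _ => abs_nonneg _) h')
  obtain ⟨c, hc⟩ := approx T (fun E' => if E' = E then (x * h)⁻¹ else 0) N
  have hcE : ((N : ℤ) : WithTop ℤ) ≤ E.ord (c - (x * h)⁻¹) := by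
    have h1 := hc E (hmem E hE)
    rwa [if_pos rfl] at h1
  have hcE' : ∀ E' : Place K, 0 < E'.ord x → E' ≠ E → ((N : ℤ) : WithTop ℤ) ≤ E'.ord c := by
    intro E' h' hne
    have h1 := hc E' (hmem E' h')
    rwa [if_neg hne, sub_zero] at h1
  have hNtop : (0 : WithTop ℤ) ≤ ((N : ℤ) : WithTop ℤ) := by exact_mod_cast hN0
  set u : K := x * h * c with hu
  have hu1 : ((oz E x : ℤ) : WithTop ℤ) ≤ E.ord (u - 1) := by
    have e1 : u - 1 = x * h * (c - (x * h)⁻¹) := by
      rw [hu, mul_sub, mul_inv_cancel₀ hxh]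
    have h1 := tame_le_mul (coe_oz E hxh).le hcE
    rw [← e1] at h1
    refine le_trans ?_ h1
    have h2 := hN E (hmem E hE)
    exact_mod_cast (by omega : oz E x ≤ oz E (x * h) + N)
  have hu2 : ∀ E' : Place K, 0 < E'.ord x → E' ≠ E → ((oz E' x : ℤ) : WithTop ℤ) ≤ E'.ord u := by
    intro E' h' hne
    have h1 := tame_le_mul (coe_oz E' hxh).le (hcE' E' h' hne)
    refine le_trans ?_ h1
    have h2 := hN E' (hmem E' h')
    exact_mod_cast (by omega : oz E' x ≤ oz E' (x * h) + N)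
  have hone : ∀ E' : Place K, E'.ord (1 : K) = 0 := fun E' => E'.ord.map_one
  have hx1 : ∀ E' : Place K, 0 < E'.ord x → (0 : WithTop ℤ) ≤ ((oz E' x : ℤ) : WithTop ℤ) := by
    intro E' h'
    rw [coe_oz E' hx]
    exact h'.le
  -- `c` is regular
  have hcreg : RegLoc x c := by
    intro E' h'
    by_cases hEE : E' = E
    · subst hEE
      have h1 : 0 ≤ E'.ord ((x * h)⁻¹) := by
        rw [ord_inv E' hxh]
        exact_mod_cast (by omega : (0 : ℤ) ≤ -oz E' (x * h))
      have h2 := nonneg_add (hNtop.trans hcE) h1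
      rwa [sub_add_cancel] at h2
    · exact hNtop.trans (hcE' E' h' hEE)
  have hu1' : 0 ≤ E.ord (u - 1) := (hx1 E hE).trans hu1
  have hureg : RegLoc x u := by
    intro E' h'
    by_cases hEE : E' = E
    · subst hEE
      have h2 := nonneg_add hu1' (hone E').ge
      rwa [sub_add_cancel] at h2
    · exact (hx1 E' h').trans (hu2 E' h' hEE)
  have hreg2 : RegLoc x ((u ^ 2 - u) / x) := by
    intro E' h'
    have e1 : u ^ 2 - u = (u - 1) * u := by ring
    rw [e1]
    apply tame_div hx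
    by_cases hEE : E' = E
    · subst hEE
      have h1 := tame_le_mul (a := oz E' x) (b := 0) hu1 (by exact_mod_cast hureg E' h')
      rwa [add_zero] at h1
    · have h1 := tame_le_mul (a := 0) (b := oz E' x) (f := u - 1) (g := u) (by exact_mod_cast nonneg_sub (hureg E' h') (hone E').ge) (hu2 E' h' hEE)
      rwa [zero_add] at h1
  have htr : RegLoc x (((Algebra.trace L K u : L) : K) / x) := by
    have e1 : u = (⟨x, hL.mem⟩ : L) • (h * c) := by
      rw [hu, mul_assoc]
      rfl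
    have e2 : ((Algebra.trace L K u : L) : K) = x * ((Algebra.trace L K (h * c) : L) : K) := by
      rw [e1, map_smul]
      rfl
    rw [e2, mul_div_cancel_left₀ _ hx]
    exact hh c hcreg
  have hfin := trace_idem hK hL hw hureg hreg2 htr E hE
  have hupos : 0 < E.ord u := by
    have e1 : u = u / x * x := by rw [div_mul_cancel₀ _ hx]
    rw [e1, mul_comm]
    exact pos_mul hE hfin
  have hu1pos : 0 < E.ord (u - 1) := by
    refine lt_of_lt_of_le ?_ hu1
    exact_mod_cast he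
  have h3 := pos_sub hupos hu1pos
  rw [sub_sub_cancel, hone E] at h3
  exact lt_irrefl _ h3

theorem exists_dual [FiniteDimensional L K] (w : Module.Basis (Fin n) L K) :
    ∃ v : Module.Basis (Fin n) L K, ∀ i f, Algebra.trace L K (v i * f) = w.repr f i := by
  classical
  have : CharZero L := charZero_of_injective_algebraMap (algebraMap ℂ L).injective
  refine ⟨(Algebra.traceForm L K).dualBasis (traceForm_nondegenerate L K) w, fun i f => ?_⟩
  have h1 : ∀ j, Algebra.trace L K ((Algebra.traceForm L K).dualBasis (traceForm_nondegenerate L K) w i * w j) = if j = i then 1 else 0 := by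
    intro j
    have h2 := LinearMap.BilinForm.apply_dualBasis_left (B := Algebra.traceForm L K) (traceForm_nondegenerate L K) w i j
    rwa [Algebra.traceForm_apply] at h2
  conv_lhs => rw [← w.sum_repr f]
  rw [Finset.mul_sum, map_sum]
  have h3 : ∀ j, Algebra.trace L K ((Algebra.traceForm L K).dualBasis (traceForm_nondegenerate L K) w i * (w.repr f j • w j)) = w.repr f j * if j = i then 1 else 0 := by
    intro j
    rw [mul_smul_comm, map_smul, h1 j, smul_eq_mul]
  rw [Finset.sum_congr rfl fun j _ => h3 j]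
  simp

end Pool.Agent.H13.CV

end
end

section

/-!
# CV RegF: regular forms

Let `w, a` be a Birkhoff basis and `v` its dual basis for the trace form (`trace (v i * f) = w.repr f i`), `j + 2 ≤ a i`, `h = x ^ j * v i ≠ 0`.  The form `h dx` is regular at every place `E`.
Case 1: `0 ≤ ord x`: let `c` be the value of `x` (`exists_value`), `y = x - c`, `Gen L y` (`Gen.sub_const`), `0 < ord y`.  `AffB y w` (`AffB.sub_const`), so `LocB y w` (`AffB.locB`).  For `f` with `RegLoc y f`: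
`trace (h * f) = x ^ j * w.repr f i` (`x ∈ L`) is `RegLoc y` (`x = y + c` is `RegLoc y`).  So `1 - oz E y ≤ oz E h` (`tame`), and `pole_mk` for `dx y = dx x` (`dx_sub_const`).
Case 2: `ord x < 0`: `y = x⁻¹`, `Gen L y`, `0 < ord y`.  There is a `LocB y` basis (`exists_locB`).  `h' = - x ^ 2 * h`.  For `f` with `RegLoc y f`: `trace (h' * f) = - x ^ (j + 2) * w.repr f i`, and
`x ^ a i * w.repr f i` is `RegLoc y` by `Birk.inf`, so `x ^ (j + 2) * w.repr f i = y ^ (a i - j - 2) * (x ^ a i * w.repr f i)` is.  So `1 - oz E y ≤ oz E h' = 2 * oz E x + oz E h`, i.e. with `oz E y = - oz E x`: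
`0 ≤ oz E h + oz E x - 1`: `pole_mk`.
-/

set_option autoImplicit false

open Pool.Agent.H23.Fano (PrimeDivisorOver Form regularForms)
open Pool.Agent.H17LG.Variety (PoleAtMost IsLogGeneralType)

noncomputable section

namespace Pool.Agent.H13.CV

variable {K : Type} [Field K] [Algebra ℂ K] {L : IntermediateField ℂ K} {x : K} {n : ℕ}

theorem trace_pow_mul (hL : Gen L x) [FiniteDimensional L K] {w v : Module.Basis (Fin n) L K}
    (hv : ∀ i f, Algebra.trace L K (v i * f) = w.repr f i) (i : Fin n) (k : ℕ) (f : K) :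
    ((Algebra.trace L K (x ^ k * v i * f) : L) : K) = x ^ k * ((w.repr f i : L) : K) := by
  have h1 : x ^ k * v i * f = ((⟨x, hL.mem⟩ : L) ^ k) • (v i * f) := by
    rw [Algebra.smul_def, mul_assoc]
    congr 1
  rw [h1, map_smul, hv, smul_eq_mul]
  push_cast
  rfl

theorem regular_form (hK : CurveField K) (hL : Gen L x) [FiniteDimensional L K] {w : Module.Basis (Fin n) L K} {a : Fin n → ℕ} (hw : Birk x w a)
    {v : Module.Basis (Fin n) L K} (hv : ∀ i f, Algebra.trace L K (v i * f) = w.repr f i) {i : Fin n} {j : ℕ} (hj : j + 2 ≤ a i) (E : Place K) :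
    PoleAtMost 0 E 1 (x ^ j * v i) (dx x) := by
  have hx0 : x ≠ 0 := hL.ne_zero
  have hvi : v i ≠ 0 := v.ne_zero i
  have hxj : x ^ j ≠ 0 := pow_ne_zero _ hx0
  have h0 : x ^ j * v i ≠ 0 := mul_ne_zero hxj hvi
  by_cases hx : 0 ≤ E.ord x
  · obtain ⟨c, hc⟩ := exists_value hK hx
    have hLy : Gen L (x - algebraMap ℂ K c) := hL.sub_const c
    have hloc : LocB (x - algebraMap ℂ K c) w := (hw.aff.sub_const hL c).locB hK hLy
    have hh : ∀ f : K, RegLoc (x - algebraMap ℂ K c) f →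
        RegLoc (x - algebraMap ℂ K c) ((Algebra.trace L K (x ^ j * v i * f) : L) : K) := by
      intro f hf E' hE'
      rw [trace_pow_mul hL hv]
      have h2 : 0 ≤ E'.ord x := by
        have h3 : x = (x - algebraMap ℂ K c) + algebraMap ℂ K c := by ring
        rw [h3]
        exact nonneg_add hE'.le (const_nonneg E' c)
      exact nonneg_mul (nonneg_pow h2 j) ((hloc f).1 hf i E' hE')
    have ht := tame hK hLy hloc h0 hh hc
    rw [← dx_sub_const x c]
    apply pole_mk E hLy.ne_zero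
    right
    push_cast
    linarith
  · have hx' : E.ord x < 0 := not_le.1 hx
    have hLy : Gen L x⁻¹ := hL.inv
    obtain ⟨w', hw'⟩ := exists_locB hK hLy
    have hEy : 0 < E.ord x⁻¹ := (inv_pos_iff hx0).2 hx'
    have h0' : -(x ^ 2 * (x ^ j * v i)) ≠ 0 := neg_ne_zero.2 (mul_ne_zero (pow_ne_zero _ hx0) h0)
    have hh : ∀ f : K, RegLoc x⁻¹ f →
        RegLoc x⁻¹ ((Algebra.trace L K (-(x ^ 2 * (x ^ j * v i)) * f) : L) : K) := by
      intro f hf E' hE'
      have h1 : -(x ^ 2 * (x ^ j * v i)) * f = -(x ^ (j + 2) * v i * f) := by ring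
      have h2 : ((Algebra.trace L K (-(x ^ 2 * (x ^ j * v i)) * f) : L) : K) =
          -((x⁻¹) ^ (a i - (j + 2)) * (x ^ a i * ((w.repr f i : L) : K))) := by
        rw [h1, map_neg]
        push_cast
        rw [trace_pow_mul hL hv]
        have h3 : x ^ (j + 2) = (x⁻¹) ^ (a i - (j + 2)) * x ^ a i := by
          conv_rhs => rw [← Nat.sub_add_cancel hj, pow_add]
          rw [Nat.sub_add_cancel hj, ← mul_assoc, ← mul_pow, inv_mul_cancel₀ hx0, one_pow, one_mul]
        rw [h3, mul_assoc]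
      rw [h2]
      have h4 : 0 ≤ E'.ord ((x⁻¹) ^ (a i - (j + 2)) * (x ^ a i * ((w.repr f i : L) : K))) :=
        nonneg_mul (nonneg_pow hE'.le _) ((hw.inf f).1 hf i E' hE')
      rcases nonneg_iff.1 h4 with h5 | h5
      · rw [h5, neg_zero]
        exact nonneg_iff.2 (Or.inl rfl)
      · refine nonneg_iff.2 (Or.inr ?_)
        rw [oz_neg]
        exact h5
    have ht := tame hK hLy hw' h0' hh hEy
    rw [oz_neg, oz_mul E (pow_ne_zero _ hx0) h0, oz_pow, oz_inv] at ht
    apply pole_mk E hx0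
    right
    push_cast at ht ⊢
    linarith

end Pool.Agent.H13.CV

end
end

section

/-!
# HE F Crv: lifts of the curves in `A × ℙ^m`
-/

set_option autoImplicit false

open Topology Filter Metric

namespace Pool.Agent.HE

open Pool.Agent.H17 (PN HolomorphicInto puncturedDisc)
open Pool.Agent.H36.BP (EN fs wd)
open Pool.Agent.H62.EF (MN pr)
open Pool.Agent.AD (Vd)
open Pool.Agent.G3 (LLift)

variable {N k : ℕ} {Λ : AddSubgroup (Vd (k + 1))}

theorem ofLp_ne {x : EN N} (hx : x ≠ 0) : x.ofLp ≠ 0 := by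
  intro h
  apply hx
  ext j
  exact congrFun h j

theorem toLp_ne {x : Fin (N + 1) → ℂ} (hx : x ≠ 0) : (WithLp.toLp 2 x : EN N) ≠ 0 := by
  intro h
  apply hx
  funext j
  exact congrArg (fun v : EN N => v.ofLp j) h

theorem mk_of_pr {w : EN N} (hw : w ≠ 0) {p : PN N} (h : pr (WithLp.toLp 2 p.rep : EN N) = pr w) : ∃ h' : w.ofLp ≠ 0, p = Projectivization.mk ℂ w.ofLp h' := by
  have h1 : (WithLp.toLp 2 p.rep : EN N) ≠ 0 := toLp_ne p.rep_nonzero
  obtain ⟨c, -, h3⟩ := (Pool.Agent.H62.EF.pr_eq_iff h1 hw).1 h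
  refine ⟨ofLp_ne hw, ?_⟩
  rw [← Projectivization.mk_rep p, Projectivization.mk_eq_mk_iff']
  exact ⟨c, by
    have h4 := congrArg (fun v : EN N => v.ofLp) h3
    exact h4.symm⟩

theorem pr_rep_mk {x : Fin (N + 1) → ℂ} (hx : x ≠ 0) : pr (WithLp.toLp 2 (Projectivization.mk ℂ x hx).rep : EN N) = pr (WithLp.toLp 2 x : EN N) := by
  obtain ⟨a, ha⟩ := Projectivization.exists_smul_eq_mk_rep ℂ x hx
  rw [← ha]
  exact Pool.Agent.H62.EF.pr_smul (WithLp.toLp 2 x : EN N) a.ne_zero

/-- local lifts in the language of `LLift` -/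
theorem llift_of {g : ℂ → PN N} {z₀ : ℂ} {U : Set ℂ} (hg : HolomorphicInto g U) (hz : z₀ ∈ U) :
    LLift (fun z => pr (WithLp.toLp 2 (g z).rep : EN N)) z₀ := by
  obtain ⟨φ, h1, h2⟩ := hg z₀ hz
  refine ⟨fun z => WithLp.toLp 2 (φ z), ?_, ?_⟩
  · exact ((PiLp.continuousLinearEquiv 2 ℂ (fun _ : Fin (N + 1) => ℂ)).symm.toContinuousLinearMap.analyticAt (φ z₀)).comp h1
  · filter_upwards [h2] with z hz
    obtain ⟨h3, h4⟩ := hz
    refine ⟨toLp_ne h3, ?_⟩
    rw [h4]
    exact pr_rep_mk h3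

/-- the lift of a curve on a disc -/
theorem lift_disc {g : ℂ → PN N} {c : ℂ} {R : ℝ} (hg : HolomorphicInto g (ball c R)) {r : ℝ} (hr : r < R) :
    ∃ w : ℂ → EN N, DifferentiableOn ℂ w (ball c r) ∧ ∀ z ∈ ball c r, w z ≠ 0 ∧ ∃ h' : (w z).ofLp ≠ 0, g z = Projectivization.mk ℂ (w z).ofLp h' := by
  obtain ⟨F, hF, hFg⟩ := Pool.Agent.TG.disc_lift (f := fun z => pr (WithLp.toLp 2 (g (c + z)).rep : EN N)) (R := R) (fun z hz => by
    have h1 : c + z ∈ ball c R := by
      rw [mem_ball_iff_norm, add_sub_cancel_left, ← mem_ball_zero_iff]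
      exact hz
    obtain ⟨Φ, h2, h3⟩ := llift_of hg h1
    have h4 : AnalyticAt ℂ (fun z : ℂ => c + z) z := analyticAt_const.add analyticAt_id
    exact ⟨fun z => Φ (c + z), h2.comp_of_eq h4 rfl, h4.continuousAt.eventually h3⟩) hr
  have hin : ∀ z ∈ ball c r, z - c ∈ ball (0 : ℂ) r := fun z hz => by
    rw [mem_ball_zero_iff, ← mem_ball_iff_norm]
    exact hz
  refine ⟨fun z => F (z - c), ?_, fun z hz => ?_⟩
  · exact hF.comp (differentiable_id.sub_const c).differentiableOn hin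
  · obtain ⟨h1, h2⟩ := hFg _ (hin z hz)
    simp only [add_sub_cancel] at h2
    exact ⟨h1, mk_of_pr h1 h2⟩

theorem lift_univ {g : ℂ → PN N} (hg : HolomorphicInto g Set.univ) :
    ∃ w : ℂ → EN N, Differentiable ℂ w ∧ ∀ z, w z ≠ 0 ∧ ∃ h' : (w z).ofLp ≠ 0, g z = Projectivization.mk ℂ (w z).ofLp h' := by
  obtain ⟨F, hF, hFg⟩ := Pool.Agent.G3.entire_lift (f := fun z => pr (WithLp.toLp 2 (g z).rep : EN N)) fun z => llift_of hg (Set.mem_univ z)
  refine ⟨F, hF, fun z => ?_⟩
  obtain ⟨h1, h2⟩ := hFg z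
  exact ⟨h1, mk_of_pr h1 h2⟩

end Pool.Agent.HE

end

section

/-!
# HE F Fro: the data from the hypotheses of the final theorem
-/

set_option autoImplicit false

open Topology Filter Metric

namespace Pool.Agent.HE

open Pool.Agent.H17 (PN VanishesAt HolomorphicInto puncturedDisc)
open Pool.Agent.H36.BP (EN fs wd)
open Pool.Agent.H62.EF (MN pr)
open Pool.Agent.AD (Vd)
open Pool.Agent.TG (Lat)
open Pool.Agent.G3 (LLift)
open Pool.Agent.PXF (Cn IsSimple HolomorphicIntoTorus)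
open Pool.Agent.HEF

variable {N k q r κ e : ℕ} {Λ : AddSubgroup (Vd (k + 1))}

/-- the form as a function -/
noncomputable def fn (F : Vd (k + 1) → MvPolynomial (Fin (N + 1)) ℂ) (p : Vd (k + 1) × EN N) : ℂ := MvPolynomial.eval p.2.ofLp (F p.1)

theorem eval_smul' {n : ℕ} {P : MvPolynomial (Fin (N + 1)) ℂ} (hP : P.IsHomogeneous n) (c : ℂ) (x : Fin (N + 1) → ℂ) : MvPolynomial.eval (c • x) P = c ^ n * MvPolynomial.eval x P := by
  classical
  rw [MvPolynomial.eval_eq', MvPolynomial.eval_eq', Finset.mul_sum]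
  refine Finset.sum_congr rfl fun α hα => ?_
  have h1 := hP (MvPolynomial.mem_support_iff.1 hα)
  have h2 : Finsupp.weight (1 : Fin (N + 1) → ℕ) α = Finsupp.degree α := (congrFun (congrArg DFunLike.coe (Finsupp.degree_eq_weight_one (σ := Fin (N + 1)) (R := ℕ))) α).symm
  have h3 : ∏ i, (c • x) i ^ α i = c ^ n * ∏ i, x i ^ α i := by
    simp only [Pi.smul_apply, smul_eq_mul, mul_pow]
    rw [Finset.prod_mul_distrib, Finset.prod_pow_eq_pow_sum]
    congr 2
    rw [← h1, h2, Finsupp.degree_eq_sum]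
  rw [h3]
  ring

/-- zeros in terms of representatives -/
theorem van_mk {n : ℕ} {P : MvPolynomial (Fin (N + 1)) ℂ} (hP : P.IsHomogeneous n) {x : Fin (N + 1) → ℂ} (hx : x ≠ 0) : VanishesAt P (Projectivization.mk ℂ x hx) ↔ MvPolynomial.eval x P = 0 := by
  obtain ⟨a, ha⟩ := Projectivization.exists_smul_eq_mk_rep ℂ x hx
  unfold VanishesAt
  rw [← ha]
  have h1 : MvPolynomial.eval ((a : ℂ) • x) P = (a : ℂ) ^ n * MvPolynomial.eval x P := eval_smul' hP _ _
  have h2 : (a • x : Fin (N + 1) → ℂ) = (a : ℂ) • x := rfl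
  rw [h2, h1, mul_eq_zero, or_iff_right (pow_ne_zero _ a.ne_zero)]

theorem fn_hom {U : Set (Vd (k + 1))} {F : Vd (k + 1) → MvPolynomial (Fin (N + 1)) ℂ} {d : ℕ} (hF : IsHolomorphicForm U F d) {y : Vd (k + 1)} (hy : y ∈ U) (c : ℂ) (x : EN N) :
    fn F (y, c • x) = c ^ d * fn F (y, x) := eval_smul' (hF.homogeneous y hy) c x.ofLp

theorem fn_diff {U : Set (Vd (k + 1))} {F : Vd (k + 1) → MvPolynomial (Fin (N + 1)) ℂ} {d : ℕ} (hF : IsHolomorphicForm U F d) : DifferentiableOn ℂ (fn F) (U ×ˢ Set.univ) := by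
  classical
  have h1 : ∀ p ∈ U ×ˢ (Set.univ : Set (EN N)), fn F p = ∑ α ∈ Finset.finsuppAntidiag (Finset.univ : Finset (Fin (N + 1))) d, (F p.1).coeff α * ∏ i, p.2.ofLp i ^ α i := by
    rintro ⟨y, x⟩ ⟨hy, -⟩
    unfold fn
    simp only
    rw [MvPolynomial.eval_eq']
    refine Finset.sum_subset (fun α hα => ?_) fun α _ hα => ?_
    · rw [Finset.mem_finsuppAntidiag]
      have h2 := hF.homogeneous y hy (MvPolynomial.mem_support_iff.1 hα)
      have h3 : Finsupp.weight (1 : Fin (N + 1) → ℕ) α = Finsupp.degree α := (congrFun (congrArg DFunLike.coe (Finsupp.degree_eq_weight_one (σ := Fin (N + 1)) (R := ℕ))) α).symm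
      exact ⟨by rw [← h2, h3, Finsupp.degree_eq_sum], Finset.subset_univ _⟩
    · rw [MvPolynomial.notMem_support_iff.1 hα, zero_mul]
  refine DifferentiableOn.congr ?_ h1
  refine DifferentiableOn.fun_sum fun α _ => DifferentiableOn.mul ?_ ?_
  · exact (hF.holomorphic α).comp differentiable_fst.differentiableOn fun p hp => hp.1
  · have h2 : ∀ i, Differentiable ℂ fun p : Vd (k + 1) × EN N => p.2.ofLp i := by
      intro i
      have h3 : Differentiable ℂ fun x : EN N => x.ofLp i := (EuclideanSpace.proj i : EN N →L[ℂ] ℂ).differentiable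
      exact h3.comp differentiable_snd
    have h4 : ∀ T : Finset (Fin (N + 1)), Differentiable ℂ fun p : Vd (k + 1) × EN N => ∏ i ∈ T, p.2.ofLp i ^ α i := by
      intro T
      induction T using Finset.induction_on with
      | empty => simp
      | insert a T ha ih =>
        have h5 : (fun p : Vd (k + 1) × EN N => ∏ i ∈ insert a T, p.2.ofLp i ^ α i) = fun p => p.2.ofLp a ^ α a * ∏ i ∈ T, p.2.ofLp i ^ α i := funext fun p => Finset.prod_insert ha
        rw [h5]
        exact ((h2 a).pow (α a)).mul ih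
    exact (h4 _).differentiableOn

/-- the cone of `X` -/
def cX (Λ : AddSubgroup (Vd (k + 1))) (X : Set ((Cn (k + 1) ⧸ Λ) × PN N)) : Set (Vd (k + 1) × EN N) :=
  {p | ∀ h : p.2.ofLp ≠ 0, ((p.1 : Cn (k + 1) ⧸ Λ), Projectivization.mk ℂ p.2.ofLp h) ∈ X}

/-- the preimage of `S` -/
def cS (Λ : AddSubgroup (Vd (k + 1))) (S : Set (Cn (k + 1) ⧸ Λ)) : Set (Vd (k + 1)) := {y | (y : Cn (k + 1) ⧸ Λ) ∈ S}

theorem cls_add {y l : Vd (k + 1)} (hl : l ∈ Λ) : ((y + l : Vd (k + 1)) : Cn (k + 1) ⧸ Λ) = (y : Cn (k + 1) ⧸ Λ) := by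
  rw [eq_comm, QuotientAddGroup.eq]
  simpa using hl

theorem cX_closed {X : Set ((Cn (k + 1) ⧸ Λ) × PN N)} (hX : IsAnalytic Λ X) : IsClosed (cX Λ X) := by
  rw [← isOpen_compl_iff, isOpen_iff_mem_nhds]
  rintro ⟨y₀, x₀⟩ hp
  have h0 : ∃ h : x₀.ofLp ≠ 0, ((y₀ : Cn (k + 1) ⧸ Λ), Projectivization.mk ℂ x₀.ofLp h) ∉ X := by
    by_contra hcon
    push Not at hcon
    exact hp hcon
  obtain ⟨h0, h1⟩ := h0
  obtain ⟨ρ, s, G, d, hρ, hG, hX⟩ := hX y₀
  rw [hX y₀ (mem_ball_self hρ)] at h1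
  push Not at h1
  obtain ⟨i, hi⟩ := h1
  rw [van_mk ((hG i).homogeneous y₀ (mem_ball_self hρ))] at hi
  have h2 : ContinuousAt (fn (G i)) (y₀, x₀) := by
    refine ((fn_diff (hG i)).continuousOn).continuousAt ?_
    exact (isOpen_ball.prod isOpen_univ).mem_nhds ⟨mem_ball_self hρ, Set.mem_univ _⟩
  have h3 : ∀ᶠ p in 𝓝 (y₀, x₀), fn (G i) p ≠ 0 := h2.eventually_ne hi
  have h4 : ∀ᶠ p : Vd (k + 1) × EN N in 𝓝 (y₀, x₀), p.1 ∈ ball y₀ ρ := continuousAt_fst.eventually (isOpen_ball.mem_nhds (mem_ball_self hρ))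
  have h5 : ∀ᶠ p : Vd (k + 1) × EN N in 𝓝 (y₀, x₀), p.2 ≠ 0 := by
    have h6 : x₀ ≠ 0 := by
      rintro rfl
      exact h0 rfl
    exact continuousAt_snd.eventually_ne h6
  filter_upwards [h3, h4, h5] with p h6 h7 h8 h9
  have h10 := h9 (ofLp_ne h8)
  rw [hX p.1 h7] at h10
  have h11 := h10 i
  rw [van_mk ((hG i).homogeneous p.1 h7)] at h11
  exact h6 h11

theorem cX_per {X : Set ((Cn (k + 1) ⧸ Λ) × PN N)} {l : Vd (k + 1)} (hl : l ∈ Λ) {y : Vd (k + 1)} {x : EN N} (h : (y, x) ∈ cX Λ X) : (y + l, x) ∈ cX Λ X := by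
  intro h'
  show (((y + l : Vd (k + 1)) : Cn (k + 1) ⧸ Λ), Projectivization.mk ℂ x.ofLp h') ∈ X
  rw [cls_add hl]
  exact h h'

theorem cX_smul {X : Set ((Cn (k + 1) ⧸ Λ) × PN N)} (c : ℂ) {y : Vd (k + 1)} {x : EN N} (h : (y, x) ∈ cX Λ X) : (y, c • x) ∈ cX Λ X := by
  intro h'
  have hc : c ≠ 0 := by
    rintro rfl
    exact h' (by rw [zero_smul]; rfl)
  have hx : x.ofLp ≠ 0 := by
    intro h1
    apply h'
    show c • x.ofLp = 0
    rw [h1, smul_zero]
  have h2 : Projectivization.mk ℂ (c • x).ofLp h' = Projectivization.mk ℂ x.ofLp hx := by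
    rw [Projectivization.mk_eq_mk_iff']
    exact ⟨c, rfl⟩
  show ((y : Cn (k + 1) ⧸ Λ), Projectivization.mk ℂ (c • x).ofLp h') ∈ X
  rw [h2]
  exact h hx

theorem cS_closed {S : Set (Cn (k + 1) ⧸ Λ)} (hS : IsAnalyticIn Λ S) : IsClosed (cS Λ S) := by
  rw [← isOpen_compl_iff, isOpen_iff_mem_nhds]
  intro y₀ hy₀
  obtain ⟨s, f, hf, h1⟩ := hS y₀
  have h2 := h1.self_of_nhds
  have h3 : ¬ ∀ i, f i y₀ = 0 := fun h => hy₀ (h2.2 h)
  push Not at h3
  obtain ⟨i, hi⟩ := h3
  filter_upwards [h1, (hf i).continuousAt.eventually_ne hi] with y h4 h5 h6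
  exact h5 (h4.1 h6 i)

theorem cS_an {S : Set (Cn (k + 1) ⧸ Λ)} (hS : IsAnalyticIn Λ S) : Pool.Agent.G4.AnOff ∅ (cS Λ S) := by
  intro y₀ _
  obtain ⟨s, f, hf, h1⟩ := hS y₀
  refine ⟨s, fun y i => f i y, analyticAt_pi_iff.2 hf, ?_⟩
  filter_upwards [h1] with y hy
  refine Iff.trans hy ⟨fun h => funext h, fun h i => congrFun h i⟩

theorem cS_iso (hΛ : Lat Λ) {S : Set (Cn (k + 1) ⧸ Λ)} (hS : IsAnalyticIn Λ S)
    (h : (IsSimple Λ ∧ S ≠ Set.univ) ∨ ∀ a y : Cn (k + 1), a ≠ 0 → ∃ z : ℂ, ((y + z • a : Cn (k + 1)) : Cn (k + 1) ⧸ Λ) ∉ S) {a : Vd (k + 1)} (ha : a ≠ 0) (y : Vd (k + 1)) :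
    ∀ᶠ z in 𝓝[≠] (0 : ℂ), y + z • a ∉ cS Λ S := by
  rcases h with ⟨h1, h2⟩ | h
  · obtain ⟨t, ht⟩ := (Set.ne_univ_iff_exists_notMem S).1 h2
    obtain ⟨y₀, rfl⟩ := QuotientAddGroup.mk_surjective t
    have h3 := Pool.Agent.G4.ldi_of hΛ (Pool.Agent.G4.simp_of_span h1) (cS_an hS) (fun y hy l hl => by
      show ((y + l : Vd (k + 1)) : Cn (k + 1) ⧸ Λ) ∈ S
      rw [cls_add hl]
      exact hy) (y₀ := y₀) ht a ha y 0
    filter_upwards [h3] with z hz
    rwa [add_comm y]
  · by_contra hcon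
    have h1 : ∃ᶠ w in 𝓝[≠] (0 : ℂ), w • a + y ∈ cS Λ S := by
      intro h2
      refine hcon ?_
      filter_upwards [h2] with z hz
      rwa [add_comm y]
    have h2 := Pool.Agent.G4.along isClosed_empty (cS_an hS) (fun z => Eventually.of_forall fun _ h => h) (z₀ := 0) (fun h => h) h1
    obtain ⟨z, hz⟩ := h a y ha
    apply hz
    have h3 := h2 z fun h => h
    rw [add_comm y]
    exact h3

end Pool.Agent.HE

end

section

/-!
# HE F FroB: the data from the hypotheses of the final theorem: the structure `HD`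
-/

set_option autoImplicit false

open Topology Filter Metric

namespace Pool.Agent.HE

open Pool.Agent.H17 (PN VanishesAt HolomorphicInto puncturedDisc)
open Pool.Agent.H36.BP (EN fs wd)
open Pool.Agent.H62.EF (MN pr)
open Pool.Agent.AD (Vd)
open Pool.Agent.TG (Lat)
open Pool.Agent.G3 (wt LLift)
open Pool.Agent.PXF (Cn IsSimple HolomorphicIntoTorus)
open Pool.Agent.HEF

variable {N k q r : ℕ} {Λ : AddSubgroup (Vd (k + 1))}

/-- weights with more summands -/
theorem pad {r R : ℕ} (hr : r ≤ R) (W : Fin r → Vd (k + 1) →L[ℂ] ℂ) : ∃ W' : Fin R → Vd (k + 1) →L[ℂ] ℂ, (∀ y, wt W' y = wt W y) ∧ ∀ y, (∀ s, W' s y = 0) → ∀ s, W s y = 0 := by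
  refine ⟨fun s => if h : (s : ℕ) < r then W ⟨s, h⟩ else 0, fun y => ?_, fun y h s => ?_⟩
  · unfold wt
    set G : ℕ → ℝ := fun s => if h : s < r then ‖W ⟨s, h⟩ y‖ ^ 2 else 0 with hG
    have h1 : ∀ s : Fin R, ‖(if h : (s : ℕ) < r then W ⟨s, h⟩ else 0 : Vd (k + 1) →L[ℂ] ℂ) y‖ ^ 2 = G s := by
      intro s
      rw [hG]
      simp only
      split_ifs with h
      · rfl
      · simp
    have h2 : ∀ s : Fin r, ‖W s y‖ ^ 2 = G s := by
      intro s
      rw [hG]
      simp only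
      rw [dif_pos s.2]
    rw [Finset.sum_congr rfl fun s _ => h1 s, Finset.sum_congr rfl fun s _ => h2 s, ← Finset.sum_range, ← Finset.sum_range]
    symm
    refine Finset.sum_subset (Finset.range_mono hr) fun s _ hs => ?_
    rw [Finset.mem_range] at hs
    rw [hG]
    simp only
    rw [dif_neg hs]
  · have h1 := h ⟨s, s.2.trans_le hr⟩
    beta_reduce at h1
    rw [dif_pos s.2] at h1
    exact h1

theorem per_of {F : Vd (k + 1) → MvPolynomial (Fin (N + 1)) ℂ} {W : Fin r → Vd (k + 1) →L[ℂ] ℂ} (h : IsSection Λ F W) {l : Vd (k + 1)} (hl : l ∈ Λ) (y : Vd (k + 1)) :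
    ∃ e : ℂ, ‖e‖ * Real.exp (-wt W (y + l)) = Real.exp (-wt W y) ∧ ∀ x : EN N, fn F (y + l, x) = e * fn F (y, x) := by
  obtain ⟨e, he, h1⟩ := h.quasiPeriodic l hl y
  refine ⟨e, ?_, fun x => ?_⟩
  · rw [he, ← Real.exp_add]
    unfold wt
    congr 1
    ring
  · unfold fn
    simp only
    rw [h1, map_mul, MvPolynomial.eval_C]

theorem minor_le (x v : EN N) (i j : Fin (N + 1)) : ‖x i * v j - x j * v i‖ ≤ wd x v := by
  by_cases hij : i = j
  · subst hij
    rw [mul_comm, sub_self, norm_zero]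
    exact Pool.Agent.H36.BP.wd_nonneg x v
  · have h1 := Pool.Agent.H36.BP.gram_proj (a := EuclideanSpace.single i (1 : ℂ)) (b := EuclideanSpace.single j (1 : ℂ)) (by rw [EuclideanSpace.norm_single, norm_one])
      (by rw [EuclideanSpace.norm_single, norm_one]) (by
        rw [EuclideanSpace.inner_single_left, map_one, one_mul]
        exact Pi.single_eq_of_ne (M := fun _ => ℂ) hij _) x v
    simp only [EuclideanSpace.inner_single_left, map_one, one_mul] at h1
    exact h1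

/-- a lift of bounded derivative -/
theorem brody_of {G : ℂ → EN N} (hG : Differentiable ℂ G) (hG0 : ∀ z, G z ≠ 0) {L : ℝ} (hL : ∀ z, fs (G z) (deriv G z) ≤ L) :
    IsBrodyCurve fun z => Projectivization.mk ℂ (G z).ofLp (ofLp_ne (hG0 z)) := by
  have hd : ∀ z, HasDerivAt (fun z => (G z).ofLp) (deriv G z).ofLp z := by
    intro z
    exact ((PiLp.continuousLinearEquiv 2 ℂ (fun _ : Fin (N + 1) => ℂ)).toContinuousLinearMap.hasFDerivAt (x := G z)).comp_hasDerivAt z (hG z).hasDerivAt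
  refine ⟨fun z => (G z).ofLp, L, fun z => (hd z).differentiableAt, fun z => ⟨⟨ofLp_ne (hG0 z), rfl⟩, fun i j => ?_⟩⟩
  rw [(hd z).deriv]
  refine (minor_le (G z) (deriv G z) i j).trans ?_
  have h4 : wd (G z) (deriv G z) = fs (G z) (deriv G z) * ‖G z‖ ^ 2 := by
    unfold fs
    rw [div_mul_cancel₀]
    exact pow_ne_zero _ (norm_ne_zero_iff.2 (hG0 z))
  rw [h4, EuclideanSpace.norm_sq_eq]
  exact mul_le_mul_of_nonneg_right (hL z) (Finset.sum_nonneg fun i _ => by positivity)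

theorem hd_of (hΛ : Lat Λ) {X : Set ((Cn (k + 1) ⧸ Λ) × PN N)} {F : Fin q → Cn (k + 1) → MvPolynomial (Fin (N + 1)) ℂ} {S : Set (Cn (k + 1) ⧸ Λ)} (H : IsHyperbolicOff Λ X F S) :
    ∃ (r : ℕ) (W : Fin q → Fin r → Vd (k + 1) →L[ℂ] ℂ) (d : Fin q → ℕ), HD Λ (cS Λ S) (cX Λ X) (fun j => fn (F j)) d W := by
  classical
  -- the weights
  have h1 : ∀ j, ∃ (r : ℕ) (W : Fin r → Vd (k + 1) →L[ℂ] ℂ), IsSection Λ (F j) W ∧ (IsAmple Λ (F j) → ∀ y, (∀ s, W s y = 0) → y = 0) := by
    intro j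
    by_cases hj : IsAmple Λ (F j)
    · obtain ⟨r, W, h2, h3⟩ := hj
      exact ⟨r, W, h3, fun _ => h2⟩
    · obtain ⟨r, W, h3⟩ := H.sections j
      exact ⟨r, W, h3, fun h => absurd h hj⟩
  choose r W hW hpos using h1
  obtain ⟨R, hR⟩ : ∃ R, ∀ j, r j ≤ R := ⟨∑ j, r j, fun j => Finset.single_le_sum (f := r) (fun _ _ => Nat.zero_le _) (Finset.mem_univ j)⟩
  have h2 : ∀ j, ∃ W' : Fin R → Vd (k + 1) →L[ℂ] ℂ, (∀ y, wt W' y = wt (W j) y) ∧ ∀ y, (∀ s, W' s y = 0) → ∀ s, W j s y = 0 := fun j => pad (hR j) (W j)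
  choose W' hW' hW'' using h2
  have h3 : ∀ j, ∃ d, 0 < d ∧ IsHolomorphicForm Set.univ (F j) d := fun j => (hW j).form
  choose d hd0 hd using h3
  have hSinv : ∀ y ∈ cS Λ S, ∀ l ∈ Λ, y + l ∈ cS Λ S := by
    intro y hy l hl
    show ((y + l : Vd (k + 1)) : Cn (k + 1) ⧸ Λ) ∈ S
    rw [cls_add hl]
    exact hy
  refine ⟨R, W', d, ⟨hΛ, cX_closed H.analytic, fun l hl y x h => cX_per hl h, fun c y x h => cX_smul c h, fun j => ?_, hd0, fun j c y x => fn_hom (hd j) (Set.mem_univ y) c x, fun j l hl y => ?_, cS_closed H.special, hSinv,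
    fun a ha y => cS_iso hΛ H.special H.noLines ha y, fun y a ha g hl hX hs => ?_, fun y₀ hy₀ => ?_⟩⟩
  · have h4 := fn_diff (hd j)
    rw [Set.univ_prod_univ, differentiableOn_univ] at h4
    exact h4
  · rw [hW', hW']
    exact per_of (hW j) hl y
  · -- the sections
    have hsurj : ∀ z : ℂ, ∃ x : EN N, x ≠ 0 ∧ (y + z • a ∉ cS Λ S → pr x = g z) := by
      intro z
      by_cases hz : y + z • a ∈ cS Λ S
      · exact ⟨EuclideanSpace.single 0 1, by simp, fun h => absurd hz h⟩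
      · obtain ⟨Φ, -, h4⟩ := hl z hz
        exact ⟨Φ z, h4.self_of_nhds.1, fun _ => h4.self_of_nhds.2.symm⟩
    choose x hx0 hxg using hsurj
    obtain ⟨g', hg'⟩ : ∃ g' : ℂ → PN N, g' = fun z => Projectivization.mk ℂ (x z).ofLp (ofLp_ne (hx0 z)) := ⟨_, rfl⟩
    -- zeros
    have hvan : ∀ j (z : ℂ), y + z • a ∉ cS Λ S → (VanishesAt (F j (y + z • a)) (g' z) ↔ fn (F j) (y + z • a, x z) = 0) := by
      intro j z _
      rw [hg']
      exact van_mk ((hd j).homogeneous _ (Set.mem_univ _)) (ofLp_ne (hx0 z))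
    have hind : ∀ j (z : ℂ), y + z • a ∉ cS Λ S → ∀ v : EN N, v ≠ 0 → pr v = g z → (fn (F j) (y + z • a, v) = 0 ↔ fn (F j) (y + z • a, x z) = 0) := by
      intro j z hz v hv hvg
      obtain ⟨c, hc0, hc⟩ := (Pool.Agent.H62.EF.pr_eq_iff hv (hx0 z)).1 (hvg.trans (hxg z hz).symm)
      rw [hc, fn_hom (hd j) (Set.mem_univ _)]
      have hc' : c ≠ 0 := by
        rintro rfl
        rw [zero_smul] at hc
        exact hv hc
      rw [mul_eq_zero, or_iff_right (pow_ne_zero _ hc')]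
    have hsec : IsSectionOver Λ X F S y a g' := by
      refine ⟨fun z₀ hz₀ => ?_, fun z hz => ?_, fun j => ?_⟩
      · obtain ⟨Φ, h4, h5⟩ := hl z₀ hz₀
        have hop : ∀ᶠ z in 𝓝 z₀, y + z • a ∉ cS Λ S := by
          have h6 : Continuous fun z : ℂ => y + z • a := by fun_prop
          exact ((cS_closed H.special).isOpen_compl.preimage h6).mem_nhds hz₀
        refine ⟨fun z => (Φ z).ofLp, ?_, ?_⟩
        · exact ((PiLp.continuousLinearEquiv 2 ℂ (fun _ : Fin (N + 1) => ℂ)).toContinuousLinearMap.analyticAt (Φ z₀)).comp h4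
        · filter_upwards [h5, hop] with z h6 h7
          refine ⟨ofLp_ne h6.1, ?_⟩
          rw [hg']
          simp only
          rw [Projectivization.mk_eq_mk_iff']
          obtain ⟨c, hc0, hc⟩ := (Pool.Agent.H62.EF.pr_eq_iff (hx0 z) h6.1).1 ((hxg z h7).trans h6.2)
          exact ⟨c, by rw [hc]; rfl⟩
      · have h4 := hX z hz (x z) (hx0 z) (hxg z hz)
        rw [hg']
        exact h4 (ofLp_ne (hx0 z))
      · rcases hs j with h4 | h4
        · exact Or.inl fun z hz => (hvan j z hz).2 (h4 z hz _ (hx0 z) (hxg z hz))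
        · exact Or.inr fun z hz h5 => h4 z hz _ (hx0 z) (hxg z hz) ((hvan j z hz).1 h5)
    obtain ⟨j, hj, z, hz, hv⟩ := H.noSections y a g' ha hsec
    refine ⟨j, fun y' h4 => hpos j hj y' (hW'' j y' h4), fun h4 => hv ?_⟩
    exact (hvan j z hz).2 (h4 z hz _ (hx0 z) (hxg z hz))
  · -- the pieces
    obtain ⟨ρ, m, Q, e, hρ, hQ, hQF, hgp⟩ := H.fibres y₀ hy₀
    have hy₀b : y₀ ∈ ball y₀ ρ := mem_ball_self hρ
    refine ⟨m, fun s => fn (Q s), e, ρ, ⟨hρ, fun s => fn_diff (hQ s), fun s y hy c x => fn_hom (hQ s) hy c x, fun s y hy x hx hxX hF h4 => ?_, fun G hG hG0 hGX hL hs z w => ?_⟩⟩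
    · obtain ⟨j, hj⟩ := hQF s y hy (Projectivization.mk ℂ x.ofLp (ofLp_ne hx)) (hxX (ofLp_ne hx)) (by
        rw [van_mk ((hQ s).homogeneous y hy)]
        exact h4)
      rw [van_mk ((hd j).homogeneous y (Set.mem_univ y))] at hj
      exact hF j hj
    · obtain ⟨L, hL⟩ := hL
      have hv : ∀ s z, VanishesAt (Q s y₀) (Projectivization.mk ℂ (G z).ofLp (ofLp_ne (hG0 z))) ↔ fn (Q s) (y₀, G z) = 0 := fun s z => van_mk ((hQ s).homogeneous y₀ hy₀b) (ofLp_ne (hG0 z))
      have h5 := hgp _ (brody_of hG hG0 hL) (fun z => hGX z (ofLp_ne (hG0 z))) (fun s => by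
        rcases hs s with h6 | h6
        · exact Or.inl fun z => (hv s z).2 (h6 z)
        · exact Or.inr fun z h7 => h6 z ((hv s z).1 h7)) z w
      rw [Projectivization.mk_eq_mk_iff'] at h5
      obtain ⟨c, hc⟩ := h5
      refine ⟨c, ?_⟩
      ext i
      exact (congrFun hc i).symm

end Pool.Agent.HE

end
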