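import Pool.Agent.H94.PX2.M48
import Pool.Agent.H94.PX2.M81
import Pool.Agent.H94.PX2.M93

/-! The parts of this file: PX.V.Dom, PX.F.YG, PX.F.Ggl. -/

section

/-!
# PX V Dom: dominant regular maps of quasi-projective varieties

As `H7/Qup/Main` (`open_dominant`, surfaces), for varieties of dimension `k + 1`; `strongly` from `strongly_open` (`G4/V/Down`).
`gglo_dominant`: let `p : U' → U` be a dominant regular map of quasi-projective varieties of the same dimension.  If `U` has the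
properties `GGLCOpen` then so has `U'`.
-/

set_option autoImplicit false

open Topology Filter MvPolynomial

noncomputable section

namespace Pool.Agent.PXF

open Pool.Agent.H17 (PN VanishesAt HolomorphicInto puncturedDisc vanishesAt_mk_iff ZariskiClosedIn)
open Pool.Agent.H17LG.Variety (FunField IsLogGeneralType)
open Pool.Agent.H62.FC (Homog)
open Pool.Agent.H62.SA (locVar OnBd)
open Pool.Agent.H17EF (projVar)
open Pool.Agent.H7.Bir (mem_of_open vals rmap pn_identity punctured_open)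
open Pool.Agent.H7.Qup (IsDominantMap exists_coord exists_eq aeval_homog holo_comp const_near extend_of_alg logGT_up)
open Pool.Agent.H22.TB (eq_of_basis)
open Pool.Agent.G4F (GGLCOpen strongly_open)

variable {N M k : ℕ}

/-- **Dominant regular maps of quasi-projective varieties of the same dimension.** -/
theorem gglo_dominant {P : Ideal (MvPolynomial (Fin (N + 1)) ℂ)} [P.IsPrime] {P' : Ideal (MvPolynomial (Fin (M + 1)) ℂ)} [P'.IsPrime] (hP : Homog P) (hP' : Homog P')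
    (hz : ∃ z : Fin (k + 1) → FunField P, IsTranscendenceBasis ℂ z) (hz' : ∃ z' : Fin (k + 1) → FunField P', IsTranscendenceBasis ℂ z') {s s' : ℕ}
    {G : Fin s → MvPolynomial (Fin (N + 1)) ℂ} {G' : Fin s' → MvPolynomial (Fin (M + 1)) ℂ} (hG : ∀ m, ∃ n, (G m).IsHomogeneous n) (hG' : ∀ m, ∃ n, (G' m).IsHomogeneous n)
    {p : PN M → PN N} (hp : IsDominantMap P P' G G' p) {Ξ : Set (PN N)} (h : GGLCOpen P G Ξ) : ∃ Ξ' : Set (PN M), GGLCOpen P' G' Ξ' := by
  have hne := hp.nonempty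
  obtain ⟨y₀, hy₀⟩ := hne
  have hne : (locVar P' G').Nonempty := ⟨y₀, hy₀⟩
  obtain ⟨z, hz1⟩ := hz
  obtain ⟨z', hz1'⟩ := hz'
  -- a form which vanishes on the exceptional set
  obtain ⟨S, hS, hΞS⟩ := h.closed
  obtain ⟨x₁, hx₁, R, hRS, hRx₁⟩ : ∃ x ∈ locVar P G, ∃ R ∈ S, ¬ VanishesAt R x := by
    by_contra hcon
    push Not at hcon
    apply h.proper
    rw [hΞS]
    ext y
    exact ⟨fun hy => hy.1, fun hy => ⟨hy, fun R hR => hcon y hy R hR⟩⟩
  obtain ⟨nR, hnR⟩ := hS R hRS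
  have hRP : R ∉ P := fun h1 => hRx₁ (hx₁.1 R h1 nR hnR)
  have hRv : ∀ x ∈ Ξ, VanishesAt R x := by
    intro x hx
    rw [hΞS] at hx
    exact hx.2 R hRS
  -- the equations of the coordinates
  obtain ⟨j, hj⟩ := exists_coord hy₀
  choose m D₁ α hα hαP hrel using exists_eq hp hP' hG' hne hz1 hz1' hj
  obtain ⟨D, γ, hγ, hv⟩ := hp.exists_rep hy₀
  have hmaps := hp.maps_iff hP' hG' hγ ⟨y₀, hy₀, hv⟩
  obtain ⟨k₀, hk₀⟩ : ∃ k, eval y₀.rep (γ k) ≠ 0 := by
    by_contra hcon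
    push Not at hcon
    exact hv (funext hcon)
  have hkP : γ k₀ ∉ P' := fun h1 => hk₀ (hy₀.1 _ h1 D (hγ.hom k₀))
  set B : MvPolynomial (Fin (N + 1)) ℂ := R * ∏ i, α i (Fin.last (m i)) with hB
  have hBhom : B.IsHomogeneous (nR + ∑ i, D₁ i) := hnR.mul (IsHomogeneous.prod _ _ _ fun i _ => hα i _)
  have hBP : B ∉ P := by
    intro h1
    rcases Ideal.IsPrime.mem_or_mem inferInstance h1 with h2 | h2
    · exact hRP h2
    · obtain ⟨i, -, h3⟩ := (Ideal.IsPrime.prod_mem_iff (p := P)).1 h2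
      exact hαP i h3
  set T : MvPolynomial (Fin (M + 1)) ℂ := aeval γ B * γ k₀ * X j with hT
  have hThom : T.IsHomogeneous (D * (nR + ∑ i, D₁ i) + D + 1) := ((aeval_homog hγ.hom hBhom).mul (hγ.hom k₀)).mul (isHomogeneous_X ℂ j)
  have hTP : T ∉ P' := by
    intro h1
    rcases Ideal.IsPrime.mem_or_mem inferInstance h1 with h2 | h2
    · rcases Ideal.IsPrime.mem_or_mem inferInstance h2 with h3 | h3
      · exact hBP ((hmaps _ B hBhom).1 h3)
      · exact hkP h3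
    · exact hj h2
  -- points outside of the exceptional set
  have key : ∀ y ∈ locVar P' G', ¬ VanishesAt T y → y.rep j ≠ 0 ∧ ¬ VanishesAt R (p y) ∧ ∀ i, ¬ VanishesAt (α i (Fin.last (m i))) (p y) := by
    intro y hy hTy
    unfold VanishesAt at hTy
    rw [hT, map_mul, map_mul, mul_eq_zero, mul_eq_zero, not_or, not_or, eval_X] at hTy
    obtain ⟨⟨h1, h2⟩, h3⟩ := hTy
    have h4 : vals γ y.rep ≠ 0 := fun h0 => h2 (congrFun h0 k₀)
    have h5 : ¬ VanishesAt B (p y) := by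
      rw [hγ.vanishes_iff hy h4 hBhom]
      exact h1
    unfold VanishesAt at h5
    rw [hB, map_mul, mul_eq_zero, not_or, map_prod, Finset.prod_eq_zero_iff] at h5
    push Not at h5
    exact ⟨h3, h5.1, fun i => h5.2 i (Finset.mem_univ i)⟩
  -- the exceptional set
  refine ⟨{x | x ∈ locVar P' G' ∧ VanishesAt T x}, ?_⟩
  have hclosed : ZariskiClosedIn (locVar P' G') {x | x ∈ locVar P' G' ∧ VanishesAt T x} := by
    refine ⟨{T}, fun R hR => ?_, ?_⟩
    · rw [Set.mem_singleton_iff.1 hR]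
      exact ⟨_, hThom⟩
    · ext x
      constructor
      · rintro ⟨h1, h2⟩
        refine ⟨h1, fun R hR => ?_⟩
        rw [Set.mem_singleton_iff.1 hR]
        exact h2
      · rintro ⟨h1, h2⟩
        exact ⟨h1, h2 T rfl⟩
  have hgt : IsLogGeneralType (K := FunField P') (k := k + 1) (OnBd P' G') :=
    logGT_up hp hP' hG hG' hne ⟨z, hz1⟩ ⟨z', hz1'⟩ (h.logGeneralType (k + 1) (by omega) ⟨z, hz1⟩)
  have hbrody : ∀ f : ℂ → PN M, HolomorphicInto f Set.univ → (∀ z, f z ∈ locVar P' G') → (∃ z w, f z ≠ f w) →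
      ∀ z, f z ∈ {x | x ∈ locVar P' G' ∧ VanishesAt T x} := by
    intro f hf hfU hfn z₀
    refine ⟨hfU z₀, ?_⟩
    by_contra hTz
    obtain ⟨h1, h2, h3⟩ := key _ (hfU z₀) hTz
    have hg : HolomorphicInto (fun z => p (f z)) Set.univ := holo_comp hp isOpen_univ hf fun z _ => hfU z
    have hconst : ∀ z w, p (f z) = p (f w) := by
      by_contra hcon
      push Not at hcon
      exact h2 (hRv _ (h.brody _ hg (fun z => hp.maps _ (hfU z)) hcon z₀))
    obtain ⟨φ, hφ, he⟩ := hf z₀ (Set.mem_univ z₀)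
    have hφj : φ z₀ j ≠ 0 := by
      obtain ⟨h7, h8⟩ := he.self_of_nhds
      obtain ⟨a, ha⟩ := Projectivization.exists_smul_eq_mk_rep ℂ (φ z₀) h7
      have h9 : (f z₀).rep = (a : ℂ) • φ z₀ := by rw [h8]; exact ha.symm
      rw [h9] at h1
      exact right_ne_zero_of_mul h1
    have hnear : ∀ᶠ z in 𝓝 z₀, f z = (fun _ => f z₀) z := by
      refine const_near hrel hφ he (Eventually.of_forall hfU) hφj (p (f z₀)).rep_nonzero h3 (Eventually.of_forall fun z => ?_)
      rw [(p (f z₀)).mk_rep]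
      exact hconst z z₀
    have hc : HolomorphicInto (fun _ : ℂ => f z₀) Set.univ := by
      intro z _
      exact ⟨fun _ => (f z₀).rep, analyticAt_const, Eventually.of_forall fun _ => ⟨(f z₀).rep_nonzero, (f z₀).mk_rep.symm⟩⟩
    have h4 := pn_identity isPreconnected_univ hf hc (Set.mem_univ z₀) hnear
    obtain ⟨z, w, hzw⟩ := hfn
    exact hzw ((h4 z (Set.mem_univ z)).trans (h4 w (Set.mem_univ w)).symm)
  refine ⟨hclosed, ?_, ?_, ?_, hbrody, ?_⟩
  · intro heq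
    apply hTP
    refine mem_of_open hP' hG' hne hThom fun x hx => ?_
    rw [← heq] at hx
    exact hx.2
  · rintro w _ ⟨z'', hz''⟩
    obtain rfl := eq_of_basis hz1' hz''
    exact hgt
  · rintro f hf hfU ⟨z₀, hz₀, hfz₀⟩
    have hTz : ¬ VanishesAt T (f z₀) := fun h1 => hfz₀ ⟨hfU z₀ hz₀, h1⟩
    obtain ⟨h1, h2, h3⟩ := key _ (hfU z₀ hz₀) hTz
    have hg : HolomorphicInto (fun z => p (f z)) puncturedDisc := holo_comp hp punctured_open hf hfU
    obtain ⟨ĝ, hĝ, hgg⟩ := h.picard _ hg (fun z hz => hp.maps _ (hfU z hz)) ⟨z₀, hz₀, fun h4 => h2 (hRv _ h4)⟩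
    obtain ⟨ψ, hψ, hψg⟩ := hĝ 0 (Metric.mem_ball_self one_pos)
    refine extend_of_alg hrel hf hfU hψ ?_ fun i hi => ?_
    · filter_upwards [hψg, Metric.ball_mem_nhds (0 : ℂ) one_pos] with z h4 h5 h6
      obtain ⟨h7, h8⟩ := h4
      exact ⟨h7, by rw [← h8, hgg z ⟨h5, h6⟩]⟩
    · apply h3 i
      have h4 := Pool.Agent.H36.BP.vanish_identity (convex_ball (0 : ℂ) 1).isPreconnected hĝ (S := {α i (Fin.last (m i))}) (by
        intro Q hQ
        rw [Set.mem_singleton_iff] at hQ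
        subst hQ
        exact ⟨_, hα i _⟩) (Metric.mem_ball_self one_pos) (by
        filter_upwards [hi, hψg] with z h5 h6 Q hQ
        rw [Set.mem_singleton_iff] at hQ
        subst hQ
        obtain ⟨h7, h8⟩ := h6
        rw [h8, vanishesAt_mk_iff (hα i _)]
        exact h5) z₀ hz₀.1 _ rfl
      rw [hgg z₀ hz₀] at h4
      exact h4
  · exact fun Q _ hQ hPQ hsub hzw => strongly_open hG' hclosed hbrody Q hQ hPQ hsub hzw

end Pool.Agent.PXF

end
end

section

/-!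
# PX F YG: varieties of log general type over `T`

`Ξ = {x ∈ U | R x = 0}` (`special`); `brody` from `y_brody`, `picard` from `IsHyperbolicModulo.punctured` (a point `z` with `R (f z) ≠ 0` has `u (f z) ∉ S`) and `ext_of_finite`; `strongly` from `strongly_open` (`G4/V/Down`); `proper`: `R ∉ P` and `U` is not empty (`H7.Bir.mem_of_open`).
-/

set_option autoImplicit false

open Topology Filter Metric MvPolynomial

namespace Pool.Agent.PX

open Pool.Agent.H17 (PN VanishesAt HolomorphicInto puncturedDisc ZariskiClosedIn)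
open Pool.Agent.H17LG.Variety (FunField IsLogGeneralType)
open Pool.Agent.H62.FC (Homog)
open Pool.Agent.H62.SA (locVar OnBd)
open Pool.Agent.H17EF (projVar)
open Pool.Agent.H36.BP (EN fs wd)
open Pool.Agent.H62.EF (MN pr)
open Pool.Agent.AD (Vd IsHolomorphicTorusMap)
open Pool.Agent.TG (Lat)
open Pool.Agent.PXF (Cn form IsSimple IsThetaForm IsReduced HasNoLines ThreePoints HolomorphicIntoTorus IsCurveIn IsHyperbolicModulo IsFiniteOver complement fewPoints KobayashiPositive)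
open Pool.Agent.G4F (GGLCOpen)

variable {N k d r : ℕ} {Λ : AddSubgroup (Vd (k + 1))} {D : Set (Vd (k + 1))} {Bad : Vd (k + 1) → Set (Vd (k + 1))} {θ : Fin (d + 1) → Vd (k + 1) → ℂ}
  {W : Fin r → Vd (k + 1) →L[ℂ] ℂ}

theorem y_gglo (hΛ : Lat Λ) {P : Ideal (MvPolynomial (Fin (N + 1)) ℂ)} [P.IsPrime] (hP : Homog P) {s m : ℕ} {G : Fin s → MvPolynomial (Fin (N + 1)) ℂ} (hG : ∀ m, ∃ n, (G m).IsHomogeneous n)
    (hne : (locVar P G).Nonempty) {c : ℕ} (hdim : ∃ z : Fin c → FunField P, IsTranscendenceBasis ℂ z) {T : Set ((Cn (k + 1) ⧸ Λ) × PN m)} {S : Set (Cn (k + 1) ⧸ Λ)}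
    (H : IsHyperbolicModulo Λ T S) {u : PN N → Cn (k + 1) ⧸ Λ} {v : PN N → PN m} (h : IsFiniteOver P G Λ T S u v)
    (hgt : IsLogGeneralType (K := FunField P) (k := c) (OnBd P G)) : ∃ Ξ : Set (PN N), GGLCOpen P G Ξ := by
  obtain ⟨e, R, hRe, hRP, hR⟩ := h.special
  have hclosed : ZariskiClosedIn (locVar P G) {x | x ∈ locVar P G ∧ VanishesAt R x} := by
    refine ⟨{R}, fun S hS => ?_, ?_⟩
    · rw [Set.mem_singleton_iff.1 hS]
      exact ⟨e, hRe⟩
    · ext x
      constructor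
      · rintro ⟨h1, h2⟩
        refine ⟨h1, fun S hS => ?_⟩
        rw [Set.mem_singleton_iff.1 hS]
        exact h2
      · rintro ⟨h1, h2⟩
        exact ⟨h1, h2 R rfl⟩
  have hbrody : ∀ f : ℂ → PN N, HolomorphicInto f Set.univ → (∀ z, f z ∈ locVar P G) → (∃ z w, f z ≠ f w) →
      ∀ z, f z ∈ {x | x ∈ locVar P G ∧ VanishesAt R x} :=
    fun f hf hfU hn z => ⟨hfU z, y_brody hP H h hR hf hfU hn z⟩
  refine ⟨{x | x ∈ locVar P G ∧ VanishesAt R x}, hclosed, ?_, ?_, ?_, hbrody, ?_⟩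
  · intro heq
    apply hRP
    refine Pool.Agent.H7.Bir.mem_of_open hP hG hne hRe fun x hx => ?_
    rw [← heq] at hx
    exact hx.2
  · rintro w _ ⟨z', hz'⟩
    obtain ⟨z, hz⟩ := hdim
    obtain rfl := Pool.Agent.H22.TB.eq_of_basis hz hz'
    exact hgt
  · intro f hf hfU hfΞ
    have hc := curve_of h hf (isOpen_ball.sdiff isClosed_singleton) hfU
    obtain ⟨⟨t', ht', htt⟩, hg⟩ := H.punctured _ _ hc
    obtain ⟨z, hz, hzΞ⟩ := hfΞ
    obtain ⟨g', hg', hgg⟩ := hg ⟨z, hz, fun h3 => hzΞ ⟨hfU z hz, hR _ (hfU z hz).1 h3⟩⟩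
    exact ext_of_finite hP hΛ h hf (fun z hz => (hfU z hz).1) ht' hg' htt hgg
  · exact fun Q _ hQ hPQ hQΞ hz' => Pool.Agent.G4F.strongly_open hG hclosed hbrody Q hQ hPQ hQΞ hz'

end Pool.Agent.PX

end

section

/-!
# PX F Ggl: the conjecture for the varieties which virtually dominate a variety over `T`
-/

set_option autoImplicit false

open Topology Filter Metric MvPolynomial

namespace Pool.Agent.PX

open Pool.Agent.H17 (PN VanishesAt HolomorphicInto puncturedDisc ZariskiClosedIn)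
open Pool.Agent.H17LG.Variety (FunField IsLogGeneralType)
open Pool.Agent.H62.FC (Homog)
open Pool.Agent.H62.SA (locVar OnBd)
open Pool.Agent.H17EF (projVar)
open Pool.Agent.H36.BP (EN fs wd)
open Pool.Agent.H62.EF (MN pr)
open Pool.Agent.AD (Vd IsHolomorphicTorusMap)
open Pool.Agent.TG (Lat)
open Pool.Agent.PXF (Cn form IsSimple IsThetaForm IsReduced HasNoLines ThreePoints HolomorphicIntoTorus IsCurveIn IsHyperbolicModulo IsFiniteOver complement fewPoints KobayashiPositive)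
open Pool.Agent.G4F (GGLCOpen)

variable {N k d r : ℕ} {Λ : AddSubgroup (Vd (k + 1))} {D : Set (Vd (k + 1))} {Bad : Vd (k + 1) → Set (Vd (k + 1))} {θ : Fin (d + 1) → Vd (k + 1) → ℂ}
  {W : Fin r → Vd (k + 1) →L[ℂ] ℂ}

open Pool.Agent.H7.Qup (IsDominantMap)
open Pool.Agent.H62.Qe (IsEtaleOver)

theorem ggl_of (hΛ : Lat Λ) {m c : ℕ} {T : Set ((Cn (k + 1) ⧸ Λ) × PN m)} {S : Set (Cn (k + 1) ⧸ Λ)} (H : IsHyperbolicModulo Λ T S)
    {N s : ℕ} (P : Ideal (MvPolynomial (Fin (N + 1)) ℂ)) [P.IsPrime] (G : Fin s → MvPolynomial (Fin (N + 1)) ℂ)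
    (u : PN N → Cn (k + 1) ⧸ Λ) (v : PN N → PN m) (hP : Homog P) (hG : ∀ m, ∃ n, (G m).IsHomogeneous n) (hne : (locVar P G).Nonempty)
    (hdim : ∃ z : Fin (c + 1) → FunField P, IsTranscendenceBasis ℂ z) (hU : IsFiniteOver P G Λ T S u v) (hgt : IsLogGeneralType (K := FunField P) (k := c + 1) (OnBd P G)) :
    (∃ Ξ : Set (PN N), GGLCOpen P G Ξ) ∧
    ∀ (M s' : ℕ) (P' : Ideal (MvPolynomial (Fin (M + 1)) ℂ)) [P'.IsPrime] (G' : Fin s' → MvPolynomial (Fin (M + 1)) ℂ) (p : PN M → PN N), Homog P' → (∀ m, ∃ n, (G' m).IsHomogeneous n) →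
      (∃ z : Fin (c + 1) → FunField P', IsTranscendenceBasis ℂ z) → IsDominantMap P P' G G' p →
      (∃ Ξ : Set (PN M), GGLCOpen P' G' Ξ) ∧
      ∀ (L s'' : ℕ) (P'' : Ideal (MvPolynomial (Fin (L + 1)) ℂ)) [P''.IsPrime] (G'' : Fin s'' → MvPolynomial (Fin (L + 1)) ℂ) (q : PN M → PN L), Homog P'' → (∀ m, ∃ n, (G'' m).IsHomogeneous n) →
        (locVar P'' G'').Nonempty → (∃ z : Fin (c + 1) → FunField P'', IsTranscendenceBasis ℂ z) → IsEtaleOver P'' P' G'' G' q → IsLogGeneralType (K := FunField P'') (k := c + 1) (OnBd P'' G'') →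
        ∃ Ξ : Set (PN L), GGLCOpen P'' G'' Ξ := by
  obtain ⟨Ξ, hΞ⟩ := y_gglo hΛ hP hG hne hdim H hU hgt
  refine ⟨⟨Ξ, hΞ⟩, fun M s' P' _ G' p hP' hG' hz' hp => ?_⟩
  obtain ⟨Ξ', hΞ'⟩ := PXF.gglo_dominant hP hP' hdim hz' hG hG' hp hΞ
  exact ⟨⟨Ξ', hΞ'⟩, fun L s'' P'' _ G'' q hP'' hG'' hne'' hz'' hq hgt'' => GGLCOpen.down hP'' hP' hG'' hz'' hz' hq hne'' hgt'' hΞ'⟩

end Pool.Agent.PX

end
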