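import Pool.Agent.H94.PX2.HE.Kwa
import Pool.Agent.H94.PX2.M95

/-! The parts of this file: HE.F.Kob, HE.F.Off. -/

section

/-!
# HE F Kob: the Kobayashi metric
-/

set_option autoImplicit false

open Topology Filter Metric MvPolynomial

namespace Pool.Agent.HE

open Pool.Agent.H17 (PN VanishesAt HolomorphicInto puncturedDisc)
open Pool.Agent.H36.BP (EN fs wd)
open Pool.Agent.H62.EF (MN pr)
open Pool.Agent.AD (Vd)
open Pool.Agent.TG (Lat Gd)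
open Pool.Agent.G3 (wt LLift)
open Pool.Agent.PXF (Cn HolomorphicIntoTorus IsSimple IsCurveIn)
open Pool.Agent.PX (torus_disc torus_univ torus_half)
open Pool.Agent.HEF

variable {N k q r : ℕ} {Λ : AddSubgroup (Vd (k + 1))} {X : Set ((Cn (k + 1) ⧸ Λ) × PN N)} {F : Fin q → Cn (k + 1) → MvPolynomial (Fin (N + 1)) ℂ} {S : Set (Cn (k + 1) ⧸ Λ)}

theorem kobayashi (hΛ : Lat Λ) (H : IsHyperbolicOff Λ X F S) : KobayashiPositive Λ (outside Λ X F) S := by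
  intro y hy _
  obtain ⟨C₀, hC₀, hb⟩ := bound_disc hΛ H
  obtain ⟨r, W, d, P⟩ := hd_of hΛ H
  have hyS : y ∈ (cS Λ S)ᶜ := hy
  obtain ⟨δ, hδ, hδb⟩ := Metric.isOpen_iff.1 P.D_closed.isOpen_compl _ hyS
  obtain ⟨L, hL, hlip⟩ := P.lip (δ := δ / 2) (H := 4 * C₀) (r₀ := 1 / 2) (by positivity) (by positivity) (by norm_num)
  refine ⟨L, ?_⟩
  filter_upwards [isOpen_ball.mem_nhds (mem_ball_self (x := y) (half_pos hδ))] with y' hy' t g φ hcu ht0 hφ hgφ i j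
  have hGd : y' ∈ Gd (cS Λ S) (δ / 2) := by
    intro b hb'
    by_contra hlt
    push Not at hlt
    have h1 : b ∈ ball y δ := by
      rw [mem_ball_iff_norm] at hy' ⊢
      have h2 : ‖b - y‖ ≤ ‖y' - b‖ + ‖y' - y‖ := by
        have h3 := norm_sub_le (y' - y) (y' - b)
        have h4 : y' - y - (y' - b) = b - y := by abel
        rw [h4] at h3
        linarith
      linarith
    exact hδb h1 hb'
  obtain ⟨h, hh, hth⟩ := torus_disc hΛ hcu.torus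
  have h00 : (0 : ℂ) ∈ ball (0 : ℂ) 1 := by simp
  -- normalise
  have hl : (y' : Cn (k + 1) ⧸ Λ) = (h 0 : Cn (k + 1) ⧸ Λ) := ht0.symm.trans (hth 0 h00)
  have hl' : y' - h 0 ∈ Λ := cls_eq.1 hl
  set h₁ : ℂ → Vd (k + 1) := fun z => h z + (y' - h 0) with hh₁
  have hd₁ : DifferentiableOn ℂ h₁ (ball 0 1) := hh.add_const _
  have ht₁ : ∀ z ∈ ball (0 : ℂ) 1, t z = (h₁ z : Cn (k + 1) ⧸ Λ) := by
    intro z hz
    rw [hth z hz, hh₁, cls_add hl']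
  have h10 : h₁ 0 = y' := by simp [hh₁]
  obtain ⟨w, hw, hgw⟩ := lift_disc hcu.proj (show (1 / 2 : ℝ) < 1 by norm_num)
  have hsub : ball (0 : ℂ) (1 / 2) ⊆ ball 0 1 := ball_subset_ball (by norm_num)
  have hcw : Cw (cX Λ X) (fun j => fn (F j)) (ball 0 (1 / 2)) w h₁ :=
    cw_of (sections_form H) (fun z hz => hcu.mem z (hsub hz)) (hd₁.mono hsub) (fun z hz => ht₁ z (hsub hz)) hw hgw
  -- the bound for the derivative of `h₁`
  have hbd : ∀ z ∈ ball (0 : ℂ) (1 / 2), ‖deriv h₁ z‖ ≤ 4 * C₀ := by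
    intro z hz
    have hs2 : ball z (1 / 4) ⊆ ball (0 : ℂ) 1 := by
      intro ζ hζ
      rw [mem_ball_zero_iff] at hz ⊢
      rw [mem_ball_iff_norm] at hζ
      have h2 : ‖ζ‖ ≤ ‖ζ - z‖ + ‖z‖ := by simpa using norm_add_le (ζ - z) z
      linarith
    have h2 := hb t g h₁ z (1 / 4) (by norm_num) (curveIn_mono hcu hs2) (hd₁.mono hs2) fun ζ hζ => ht₁ ζ (hs2 hζ)
    linarith
  have hk := hlip w h₁ 0 hcw hbd (by rw [h10]; exact hGd)
  have hw0 : AnalyticAt ℂ w 0 := hw.analyticAt (isOpen_ball.mem_nhds (by simp))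
  have hwne : w 0 ≠ 0 := (hgw 0 (by simp)).1
  obtain ⟨φ', hφ'⟩ : ∃ φ' : ℂ → EN N, φ' = fun z => WithLp.toLp 2 (φ z) := ⟨_, rfl⟩
  have hφ'a : AnalyticAt ℂ φ' 0 := by
    rw [hφ']
    exact ((PiLp.continuousLinearEquiv 2 ℂ (fun _ : Fin (N + 1) => ℂ)).symm.toContinuousLinearMap.analyticAt (φ 0)).comp hφ
  have hφ'0 : φ' 0 ≠ 0 := by
    rw [hφ']
    exact toLp_ne hgφ.self_of_nhds.1
  have hprop : ∀ᶠ z in 𝓝 (0 : ℂ), ∃ c : ℂ, φ' z = c • w z := by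
    filter_upwards [hgφ, isOpen_ball.mem_nhds (show (0 : ℂ) ∈ ball (0 : ℂ) (1 / 2) by simp)] with z ⟨ha, hb⟩ hz
    obtain ⟨-, hc, hd⟩ := hgw z hz
    obtain ⟨a, ha'⟩ := (Projectivization.mk_eq_mk_iff' ℂ _ _ ha hc).1 (hb.symm.trans hd)
    refine ⟨a, ?_⟩
    rw [hφ']
    simp only
    rw [← ha']
    rfl
  have hfs := Pool.Agent.TG.fs_smul_fun hφ'a hw0 hφ'0 hwne hprop
  have hdφ : ∀ i, (deriv φ' 0) i = deriv φ 0 i := by
    intro i
    have h1 : HasDerivAt φ' (WithLp.toLp 2 (deriv φ 0)) 0 := by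
      have h2 := ((PiLp.continuousLinearEquiv 2 ℂ (fun _ : Fin (N + 1) => ℂ)).symm.toContinuousLinearMap.hasFDerivAt (x := φ 0)).comp_hasDerivAt (0 : ℂ) hφ.differentiableAt.hasDerivAt
      rw [hφ']
      exact h2
    rw [h1.deriv]
  have h3 := minor_le (φ' 0) (deriv φ' 0) i j
  rw [hdφ i, hdφ j] at h3
  have h4 : wd (φ' 0) (deriv φ' 0) = fs (φ' 0) (deriv φ' 0) * ‖φ' 0‖ ^ 2 := by
    unfold fs
    rw [div_mul_cancel₀]
    exact pow_ne_zero _ (norm_ne_zero_iff.2 hφ'0)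
  have h5 : ‖φ' 0‖ ^ 2 = ∑ i, ‖φ 0 i‖ ^ 2 := by
    rw [EuclideanSpace.norm_sq_eq, hφ']
  rw [h4, hfs, h5] at h3
  have h6 : φ' 0 i = φ 0 i := by rw [hφ']
  have h7 : φ' 0 j = φ 0 j := by rw [hφ']
  rw [h6, h7] at h3
  refine h3.trans (mul_le_mul_of_nonneg_right hk ?_)
  positivity

end Pool.Agent.HE

end

section

/-!
# HE F Off: maps of the punctured disc, the component in the projective space, at the points outside `S`

The discs `σ ↦ exp (ζ + R σ)`, `R = - Re ζ / 2`; `HD.lip`, `kwack`.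
-/

set_option autoImplicit false

open Topology Filter Metric MvPolynomial

namespace Pool.Agent.HE

open Pool.Agent.H17 (PN VanishesAt HolomorphicInto puncturedDisc)
open Pool.Agent.H36.BP (EN fs wd)
open Pool.Agent.H62.EF (MN pr)
open Pool.Agent.AD (Vd)
open Pool.Agent.TG (Lat Gd)
open Pool.Agent.G3 (wt LLift)
open Pool.Agent.PXF (Cn HolomorphicIntoTorus IsSimple IsCurveIn)
open Pool.Agent.HEF

variable {N k q r : ℕ} {Λ : AddSubgroup (Vd (k + 1))} {X : Set ((Cn (k + 1) ⧸ Λ) × PN N)} {F : Fin q → Cn (k + 1) → MvPolynomial (Fin (N + 1)) ℂ} {S : Set (Cn (k + 1) ⧸ Λ)}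

/-- composition of a holomorphic map to the projective space with a holomorphic function -/
theorem hol_comp {g : ℂ → PN N} {U V : Set ℂ} (hg : HolomorphicInto g U) {φ : ℂ → ℂ} (hφ : ∀ z ∈ V, AnalyticAt ℂ φ z ∧ φ z ∈ U) :
    HolomorphicInto (fun z => g (φ z)) V := by
  intro z₀ hz₀
  obtain ⟨h1, h2⟩ := hφ z₀ hz₀
  obtain ⟨ψ, hψ, he⟩ := hg (φ z₀) h2
  exact ⟨fun z => ψ (φ z), hψ.comp h1, h1.continuousAt.eventually he⟩

theorem fibre_off (hΛ : Lat Λ) (Hs : IsHyperbolicOff Λ X F S) {H : ℂ → Vd (k + 1)} {ρ : ℝ} (hρ : 0 < ρ) (hρ1 : ρ < 1) (hH : DifferentiableOn ℂ H (ball 0 ρ)) (hH0 : (H 0 : Cn (k + 1) ⧸ Λ) ∉ S)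
    {g : ℂ → PN N} (hg : HolomorphicInto g puncturedDisc) (hT : ∀ z ∈ ball (0 : ℂ) ρ \ {0}, ((H z : Cn (k + 1) ⧸ Λ), g z) ∈ outside Λ X F) :
    ∃ g' : ℂ → PN N, HolomorphicInto g' (ball 0 1) ∧ ∀ z ∈ puncturedDisc, g' z = g z := by
  obtain ⟨C₀, hC₀, hb⟩ := bound_disc hΛ Hs
  obtain ⟨r, W, d, P⟩ := hd_of hΛ Hs
  have hyS : H 0 ∈ (cS Λ S)ᶜ := hH0
  obtain ⟨δ, hδ, hδb⟩ := Metric.isOpen_iff.1 P.D_closed.isOpen_compl _ hyS
  obtain ⟨L, hL, hlip⟩ := P.lip (δ := δ / 2) (H := 2 * C₀) (r₀ := 1 / 2) (by positivity) (by positivity) (by norm_num)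
  have hcont : ContinuousAt H 0 := (hH.differentiableAt (isOpen_ball.mem_nhds (mem_ball_self hρ))).continuousAt
  obtain ⟨r₁, hr₁, hr₁b⟩ := Metric.continuousAt_iff.1 hcont (δ / 2) (half_pos hδ)
  obtain ⟨r₀, hr₀, hr₀ρ, hr₀1⟩ : ∃ r₀ : ℝ, 0 < r₀ ∧ r₀ ≤ ρ ^ 2 ∧ r₀ ≤ r₁ := ⟨min (ρ ^ 2) r₁, lt_min (by positivity) hr₁, min_le_left _ _, min_le_right _ _⟩
  have hρ2 : ρ ^ 2 < 1 := by nlinarith
  have hρρ : ρ ^ 2 ≤ ρ := by nlinarith
  refine kwack hg (L := 2 * L) hr₀ (hr₀ρ.trans_lt hρ2) fun G hG hGg z hz => ?_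
  have hz0 : z ≠ 0 := hz.2
  have hzn : ‖z‖ < r₀ := mem_ball_zero_iff.1 hz.1
  have hzp : 0 < ‖z‖ := norm_pos_iff.2 hz0
  obtain ⟨ζ, hζ⟩ : ∃ ζ : ℂ, ζ = Complex.log z := ⟨_, rfl⟩
  have hez : Complex.exp ζ = z := by rw [hζ, Complex.exp_log hz0]
  obtain ⟨R, hR⟩ : ∃ R : ℝ, R = Real.log (1 / ‖z‖) / 2 := ⟨_, rfl⟩
  have hz1 : ‖z‖ < 1 := hzn.trans (hr₀ρ.trans_lt hρ2)
  have hR0 : 0 < R := by
    rw [hR]
    have : 0 < Real.log (1 / ‖z‖) := Real.log_pos (by rw [lt_div_iff₀ hzp, one_mul]; exact hz1)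
    linarith
  obtain ⟨φ, hφ⟩ : ∃ φ : ℂ → ℂ, φ = fun σ => Complex.exp (ζ + (R : ℂ) * σ) := ⟨_, rfl⟩
  have hφ0 : φ 0 = z := by rw [hφ]; simp [hez]
  have hφd : ∀ σ, HasDerivAt φ (φ σ * (R : ℂ)) σ := by
    intro σ
    have h1 : HasDerivAt (fun σ : ℂ => ζ + (R : ℂ) * σ) (R : ℂ) σ := by simpa using ((hasDerivAt_id σ).const_mul (R : ℂ)).const_add ζ
    rw [hφ]
    exact h1.cexp
  have hφm : ∀ σ ∈ ball (0 : ℂ) 1, φ σ ∈ ball (0 : ℂ) ρ \ {0} := by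
    intro σ hσ
    rw [mem_ball_zero_iff] at hσ
    refine ⟨?_, ?_⟩
    · rw [mem_ball_zero_iff, hφ]
      simp only
      rw [Complex.norm_exp, Complex.add_re, hζ, Complex.log_re, Complex.re_ofReal_mul]
      have h1 : R * σ.re ≤ R := by
        have := (Complex.re_le_norm σ).trans hσ.le
        nlinarith
      have h2 : Real.log ‖z‖ + R * σ.re ≤ Real.log ‖z‖ / 2 := by
        have h3 : R = -Real.log ‖z‖ / 2 := by rw [hR, one_div, Real.log_inv]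
        rw [h3] at h1
        rw [h3]
        linarith
      have h3 : Real.log ‖z‖ / 2 < Real.log ρ := by
        have h4 : Real.log ‖z‖ < Real.log (ρ ^ 2) := Real.log_lt_log hzp (hzn.trans_le hr₀ρ)
        rw [Real.log_pow] at h4
        push_cast at h4
        linarith
      calc Real.exp (Real.log ‖z‖ + R * σ.re) ≤ Real.exp (Real.log ‖z‖ / 2) := Real.exp_le_exp.2 h2
        _ < Real.exp (Real.log ρ) := Real.exp_lt_exp.2 h3
        _ = ρ := Real.exp_log hρ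
    · rw [hφ]
      exact Complex.exp_ne_zero _
  have hφa : ∀ σ, AnalyticAt ℂ φ σ := by
    intro σ
    rw [hφ]
    fun_prop
  have hsubp : ball (0 : ℂ) ρ \ {0} ⊆ puncturedDisc := fun w hw => ⟨ball_subset_ball hρ1.le hw.1, hw.2⟩
  have hgφ : HolomorphicInto (fun σ => g (φ σ)) (ball 0 1) := hol_comp hg fun σ hσ => ⟨hφa σ, hsubp (hφm σ hσ)⟩
  have hHφ : DifferentiableOn ℂ (fun σ => H (φ σ)) (ball 0 1) := hH.comp (fun σ _ => (hφa σ).differentiableAt.differentiableWithinAt) fun σ hσ => (hφm σ hσ).1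
  have hcu : IsCurveIn Λ (outside Λ X F) (fun σ => (H (φ σ) : Cn (k + 1) ⧸ Λ)) (fun σ => g (φ σ)) (ball 0 1) := by
    refine ⟨fun σ hσ => ⟨fun σ => H (φ σ), hHφ.analyticAt (isOpen_ball.mem_nhds hσ), Eventually.of_forall fun _ => rfl⟩, hgφ, fun σ hσ => hT _ (hφm σ hσ)⟩
  have hbd : ∀ σ ∈ ball (0 : ℂ) (1 / 2), ‖deriv (fun σ => H (φ σ)) σ‖ ≤ 2 * C₀ := by
    intro σ hσ
    have hs2 : ball σ (1 / 2) ⊆ ball (0 : ℂ) 1 := by
      intro w hw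
      rw [mem_ball_zero_iff] at hσ ⊢
      rw [mem_ball_iff_norm] at hw
      have h2 : ‖w‖ ≤ ‖w - σ‖ + ‖σ‖ := by simpa using norm_add_le (w - σ) σ
      linarith
    have h2 := hb _ _ (fun σ => H (φ σ)) σ (1 / 2) (by norm_num) (curveIn_mono hcu hs2) (hHφ.mono hs2) fun _ _ => rfl
    linarith
  obtain ⟨w, hw, hgw⟩ := lift_disc hgφ (show (1 / 2 : ℝ) < 1 by norm_num)
  have hsub : ball (0 : ℂ) (1 / 2) ⊆ ball 0 1 := ball_subset_ball (by norm_num)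
  have hcw : Cw (cX Λ X) (fun j => fn (F j)) (ball 0 (1 / 2)) w fun σ => H (φ σ) :=
    cw_of (sections_form Hs) (fun σ hσ => hcu.mem σ (hsub hσ)) (hHφ.mono hsub) (fun _ _ => rfl) hw hgw
  have hk := hlip w (fun σ => H (φ σ)) 0 hcw hbd (by
    intro b hb'
    by_contra hlt
    push Not at hlt
    simp only [hφ0] at hlt
    have h1 : b ∈ ball (H 0) δ := by
      have h3 := hr₁b (x := z) (by rw [dist_zero_right]; exact hzn.trans_le hr₀1)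
      rw [mem_ball_iff_norm]
      rw [dist_eq_norm] at h3
      have h4 := norm_sub_le (H z - H 0) (H z - b)
      have h5 : H z - H 0 - (H z - b) = b - H 0 := by abel
      rw [h5] at h4
      linarith
    exact hδb h1 hb')
  -- comparison of the two lifts
  have h0m : (0 : ℂ) ∈ ball (0 : ℂ) (1 / 2) := by simp
  have hwa : AnalyticAt ℂ w 0 := hw.analyticAt (isOpen_ball.mem_nhds h0m)
  have hGa : AnalyticAt ℂ G z := hG.analyticAt ((isOpen_ball.sdiff isClosed_singleton).mem_nhds hz)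
  have hGφ : AnalyticAt ℂ (fun σ => G (φ σ)) 0 := AnalyticAt.comp_of_eq hGa (hφa 0) hφ0
  have hGz0 : G z ≠ 0 := by
    obtain ⟨h1, -⟩ := hGg z hz
    rintro h2
    exact h1 (by rw [h2]; rfl)
  have hprop : ∀ᶠ σ in 𝓝 (0 : ℂ), ∃ c : ℂ, G (φ σ) = c • w σ := by
    have h1 : ∀ᶠ σ in 𝓝 (0 : ℂ), φ σ ∈ ball (0 : ℂ) r₀ \ {0} := by
      have h2 := (hφa 0).continuousAt
      have h3 : ball (0 : ℂ) r₀ \ {0} ∈ 𝓝 (φ 0) := by
        rw [hφ0]
        exact (isOpen_ball.sdiff isClosed_singleton).mem_nhds hz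
      exact h2 h3
    filter_upwards [h1, isOpen_ball.mem_nhds h0m] with σ h2 h3
    obtain ⟨ha, hb⟩ := hGg _ h2
    obtain ⟨-, hc, hd⟩ := hgw σ h3
    obtain ⟨a, ha'⟩ := (Projectivization.mk_eq_mk_iff' ℂ _ _ ha hc).1 (hb.symm.trans hd)
    refine ⟨a, ?_⟩
    ext i
    exact (congrFun ha' i).symm
  have hfs := Pool.Agent.TG.fs_smul_fun hGφ hwa (by rw [hφ0]; exact hGz0) (hgw 0 h0m).1 hprop
  have hder : deriv (fun σ => G (φ σ)) 0 = (z * (R : ℂ)) • deriv G z := by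
    have h1 : HasDerivAt G (deriv G z) (φ 0) := by
      rw [hφ0]
      exact hGa.differentiableAt.hasDerivAt
    have h2 := h1.scomp (0 : ℂ) (hφd 0)
    rw [hφ0] at h2
    exact h2.deriv
  rw [hder, hφ0, Pool.Agent.H36.BP.fs_smul_right, norm_mul, Complex.norm_real, Real.norm_of_nonneg hR0.le] at hfs
  rw [← hfs, hR] at hk
  have h6 : fs (G z) (deriv G z) * (‖z‖ * Real.log (1 / ‖z‖)) = 2 * (‖z‖ * (Real.log (1 / ‖z‖) / 2) * fs (G z) (deriv G z)) := by ring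
  rw [h6]
  linarith

end Pool.Agent.HE

end
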